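import Pool.Agent.M3.S3Rob
import Pool.Agent.M3.Sat

/-!
# GMM/Inf: local information on a class (row CM, general m; helper36)

* `cond_I`, `cond_Hc`, `cond_H` : information and entropies under the law conditioned on a class of `V` are the
  conditional expectations given `V` of the densities (`Z` finer than `V`); `E_cond_I`, `E_cond_Hc` : their mean.
* `nv P X V w` : number of values of `X` on the class of `V` at `w` (counted on the support); `Hc_le_nv` :
  `H(X|V) <= E log nv`.
* `iota_cut` : if the letter `v` is erased outside of an event of `Z`, the density is multiplied by the indicator.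
* `code X` : a natural number with the same partition as `X`.
-/

set_option autoImplicit false
set_option linter.unusedSectionVars false

namespace Pool.Agent.GMM

open Finset Pool.Agent.PWZ Pool.Agent.M3

variable {Om : Type*} [Fintype Om]

noncomputable section

/-- density of the conditional entropy -/
def hd (P : FP Om) {κ ι : Type*} (X : Om → κ) (Z : Om → ι) (w : Om) : ℝ :=
  Real.log (P.m Z w) - Real.log (P.m (fun v => (X v, Z v)) w)

open Classical in
/-- values of `X` on the class of `V` at `w` -/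
def vs (P : FP Om) {κ ι : Type*} (X : Om → κ) (V : Om → ι) (w : Om) : Finset κ :=
  (univ.filter (fun u => P.p u ≠ 0 ∧ V u = V w)).image X

/-- number of values of `X` on the class of `V` at `w` -/
def nv (P : FP Om) {κ ι : Type*} (X : Om → κ) (V : Om → ι) (w : Om) : ℕ := (vs P X V w).card

/-- a natural number with the same partition as `X` -/
def code {κ : Type*} (X : Om → κ) (w : Om) : ℕ := (Fintype.equivFin Om (rep X w) : ℕ)

end

theorem fac_code {κ : Type*} (X : Om → κ) : Fac X (code X) := fun v w h => by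
  unfold code; rw [fac_rep X v w h]

theorem code_fac {κ : Type*} (X : Om → κ) : Fac (code X) X := fun v w h => by
  unfold code at h
  have h1 : Fintype.equivFin Om (rep X v) = Fintype.equivFin Om (rep X w) := Fin.ext h
  exact rep_fac X v w ((Fintype.equivFin Om).injective h1)

section

variable {κ κ' ι ι' ν : Type*} {P : FP Om}

theorem E_hd (P : FP Om) (X : Om → κ) (Z : Om → ι) : P.E (hd P X Z) = P.Hc X Z := by
  unfold hd FP.Hc FP.H
  rw [← P.E_sub]
  exact P.E_congr (fun w _ => by ring)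

theorem cond_m_fac {V : Om → ν} {Z : Om → κ} (h : Fac Z V) {w u : Om} (hw : P.p w ≠ 0) (hu : V u = V w) :
    (P.cond (fun v => V v = V w)).m Z u = P.m Z u / P.m V w := by
  rw [P.cond_m_fibre Z V hw hu, P.m_congr (X := fun u => (Z u, V u)) (Y := Z) (Fac.fst _ _) ((Fac.refl Z).prod h)]

/-- mutual information on a class -/
theorem cond_I (P : FP Om) {V : Om → ν} {X : Om → κ} {Y : Om → κ'} {Z : Om → ι} (h : Fac Z V) {w : Om}
    (hw : P.p w ≠ 0) : (P.cond (fun v => V v = V w)).I X Y Z = P.ce V (P.iota X Y Z) w := by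
  rw [P.ce_eq_cond V _ hw, ← FP.E_iota]
  refine FP.E_congr _ (fun u hu => ?_)
  obtain ⟨hV, hpu⟩ := (FP.cond_p_ne (P.m_pos V hw).ne').1 hu
  have hm := P.m_pos V hw
  have a := P.m_pos (fun v => (X v, Y v, Z v)) hpu
  have b := P.m_pos Z hpu
  have c := P.m_pos (fun v => (X v, Z v)) hpu
  have d := P.m_pos (fun v => (Y v, Z v)) hpu
  unfold FP.iota
  rw [cond_m_fac (Z := fun v => (X v, Y v, Z v)) (((Fac.snd _ _).trans (Fac.snd _ _)).trans h) hw hV,
    cond_m_fac h hw hV, cond_m_fac (Z := fun v => (X v, Z v)) ((Fac.snd _ _).trans h) hw hV,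
    cond_m_fac (Z := fun v => (Y v, Z v)) ((Fac.snd _ _).trans h) hw hV]
  congr 1
  field_simp

/-- conditional entropy on a class -/
theorem cond_Hc (P : FP Om) {V : Om → ν} {X : Om → κ} {Z : Om → ι} (h : Fac Z V) {w : Om}
    (hw : P.p w ≠ 0) : (P.cond (fun v => V v = V w)).Hc X Z = P.ce V (hd P X Z) w := by
  rw [P.ce_eq_cond V _ hw, ← E_hd]
  refine FP.E_congr _ (fun u hu => ?_)
  obtain ⟨hV, hpu⟩ := (FP.cond_p_ne (P.m_pos V hw).ne').1 hu
  have hm := P.m_pos V hw
  have b := P.m_pos Z hpu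
  have c := P.m_pos (fun v => (X v, Z v)) hpu
  unfold hd
  rw [cond_m_fac h hw hV, cond_m_fac (Z := fun v => (X v, Z v)) ((Fac.snd _ _).trans h) hw hV,
    Real.log_div b.ne' hm.ne', Real.log_div c.ne' hm.ne']
  ring

/-- entropy on a class of the condition -/
theorem cond_H (P : FP Om) {X : Om → κ} {Z : Om → ι} {w : Om} (hw : P.p w ≠ 0) :
    (P.cond (fun v => Z v = Z w)).H X = P.ce Z (hd P X Z) w := by
  rw [P.ce_eq_cond Z _ hw]
  unfold FP.H
  refine FP.E_congr _ (fun u hu => ?_)
  obtain ⟨hV, hpu⟩ := (FP.cond_p_ne (P.m_pos Z hw).ne').1 hu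
  have hm := P.m_pos Z hw
  have c := P.m_pos (fun v => (X v, Z v)) hpu
  unfold hd
  rw [P.cond_m_fibre X Z hw hV, Real.log_div c.ne' hm.ne', P.Fac_m Z u w hV]
  ring

theorem E_cond_I (P : FP Om) {V : Om → ν} {X : Om → κ} {Y : Om → κ'} {Z : Om → ι} (h : Fac Z V) :
    P.E (fun w => (P.cond (fun v => V v = V w)).I X Y Z) = P.I X Y Z := by
  rw [← P.E_iota, ← P.E_ce V (P.iota X Y Z)]
  exact P.E_congr (fun w hw => cond_I P h hw)

theorem E_cond_Hc (P : FP Om) {V : Om → ν} {X : Om → κ} {Z : Om → ι} (h : Fac Z V) :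
    P.E (fun w => (P.cond (fun v => V v = V w)).Hc X Z) = P.Hc X Z := by
  rw [← E_hd, ← P.E_ce V (hd P X Z)]
  exact P.E_congr (fun w hw => cond_Hc P h hw)

theorem E_cond_H (P : FP Om) {X : Om → κ} {Z : Om → ι} :
    P.E (fun w => (P.cond (fun v => Z v = Z w)).H X) = P.Hc X Z := by
  rw [← E_hd, ← P.E_ce Z (hd P X Z)]
  exact P.E_congr (fun w hw => cond_H P hw)

/-! ## number of values -/

theorem mem_vs {X : Om → κ} {V : Om → ν} {w u : Om} (hu : P.p u ≠ 0) (h : V u = V w) : X u ∈ vs P X V w := by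
  classical
  unfold vs
  exact Finset.mem_image_of_mem X (by simp only [mem_filter, mem_univ, true_and]; exact ⟨hu, h⟩)

theorem mem_vs_iff {X : Om → κ} {V : Om → ν} {w : Om} {k : κ} :
    k ∈ vs P X V w ↔ ∃ u, P.p u ≠ 0 ∧ V u = V w ∧ X u = k := by
  classical
  unfold vs
  simp only [mem_image, mem_filter, mem_univ, true_and, and_assoc]

theorem nv_pos {X : Om → κ} {V : Om → ν} {w : Om} (hw : P.p w ≠ 0) : 0 < nv P X V w :=
  Finset.card_pos.2 ⟨X w, mem_vs hw rfl⟩

theorem nv_fac (P : FP Om) (X : Om → κ) (V : Om → ν) : Fac V (nv P X V) := fun v w h => by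
  unfold nv vs; rw [h]

/-- smaller classes -/
theorem nv_anti {X : Om → κ} {V : Om → ν} {V' : Om → ι} (h : Fac V V') (w : Om) : nv P X V w ≤ nv P X V' w := by
  classical
  unfold nv
  refine Finset.card_le_card (fun k hk => ?_)
  obtain ⟨u, hu, hV, rfl⟩ := mem_vs_iff.1 hk
  exact mem_vs hu (h u w hV)

theorem nv_const {V : Om → ν} (c : κ) (w : Om) : nv P (fun _ => c) V w ≤ 1 := by
  classical
  unfold nv
  refine (Finset.card_le_card (t := {c}) (fun k hk => ?_)).trans (by simp)
  obtain ⟨u, -, -, rfl⟩ := mem_vs_iff.1 hk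
  simp

/-- on the class, `Z` is a function of `X` and `Y` -/
theorem nv_pair' {X : Om → κ} {Y : Om → κ'} {Z : Om → ι} {V : Om → ν} {w : Om}
    (h : ∀ u v, P.p u ≠ 0 → P.p v ≠ 0 → V u = V w → V v = V w → X u = X v → Y u = Y v → Z u = Z v) :
    nv P Z V w ≤ nv P X V w * nv P Y V w := by
  classical
  unfold nv
  rw [← Finset.card_product]
  have _ne : Nonempty Om := ⟨w⟩
  have : ∀ k ∈ vs P Z V w, ∃ u, P.p u ≠ 0 ∧ V u = V w ∧ Z u = k := fun k hk => mem_vs_iff.1 hk
  choose! g hg using this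
  refine Finset.card_le_card_of_injOn (fun k => (X (g k), Y (g k))) (fun k hk => ?_) (fun k hk l hl e => ?_)
  · obtain ⟨h1, h2, _⟩ := hg k hk
    exact Finset.mem_coe.2 (Finset.mem_product.2 ⟨mem_vs h1 h2, mem_vs h1 h2⟩)
  · obtain ⟨k1, k2, k3⟩ := hg k hk
    obtain ⟨l1, l2, l3⟩ := hg l hl
    simp only [Prod.mk.injEq] at e
    rw [← k3, ← l3]
    exact h _ _ k1 l1 k2 l2 e.1 e.2

/-- a function of `X` and `Y` -/
theorem nv_pair {X : Om → κ} {Y : Om → κ'} {Z : Om → ι} {V : Om → ν} (h : Fac (fun u => (X u, Y u)) Z) (w : Om) :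
    nv P Z V w ≤ nv P X V w * nv P Y V w :=
  nv_pair' (fun u v _ _ _ _ e e' => h u v (Prod.ext e e'))

/-- on the class, `Y` is a function of `X` -/
theorem nv_le_nv {X : Om → κ} {Y : Om → κ'} {V : Om → ν} {w : Om}
    (h : ∀ u v, P.p u ≠ 0 → P.p v ≠ 0 → V u = V w → V v = V w → X u = X v → Y u = Y v) :
    nv P Y V w ≤ nv P X V w := by
  have h1 := nv_pair' (P := P) (X := X) (Y := fun _ => ()) (Z := Y) (V := V) (w := w)
    (fun u v hu hv h1 h2 e _ => h u v hu hv h1 h2 e)
  have h2 := nv_const (P := P) (V := V) () w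
  exact h1.trans ((Nat.mul_le_mul_left _ h2).trans (by rw [mul_one]))

/-- constant on the class -/
theorem nv_le_one {X : Om → κ} {V : Om → ν} {w : Om} (h : ∀ u v, P.p u ≠ 0 → P.p v ≠ 0 → V u = V w → V v = V w → X u = X v) :
    nv P X V w ≤ 1 := by
  classical
  unfold nv
  refine Finset.card_le_one.2 (fun a ha b hb => ?_)
  obtain ⟨u, hu, hV, rfl⟩ := mem_vs_iff.1 ha
  obtain ⟨v, hv, hV', rfl⟩ := mem_vs_iff.1 hb
  exact h u v hu hv hV hV'

/-- entropy and number of values -/
theorem H_cond_le_nv (P : FP Om) (X : Om → κ) (V : Om → ν) {w : Om} (hw : P.p w ≠ 0) :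
    (P.cond (fun v => V v = V w)).H X ≤ Real.log (nv P X V w) := by
  classical
  refine FP.H_le_log_image _ X (vs P X V w) (fun u hu => ?_)
  obtain ⟨hV, hpu⟩ := (FP.cond_p_ne (P.m_pos V hw).ne').1 hu
  exact mem_vs hpu hV

theorem Hc_le_nv (P : FP Om) (X : Om → κ) (V : Om → ν) : P.Hc X V ≤ P.E (fun w => Real.log (nv P X V w)) := by
  rw [← E_cond_H P]
  exact P.E_mono (fun w hw => H_cond_le_nv P X V hw)

/-! ## erasing a letter outside of an event -/

/-- if the letter is erased outside of an event of `Z`, the density of the information is multiplied by the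
indicator -/
theorem iota_cut (P : FP Om) {X : Om → κ} {Y : Om → κ'} {Y' : Om → ν} {Z : Om → ι} {S : Om → Prop}
    (hS : ∀ v w, Z v = Z w → (S v ↔ S w)) (hin : ∀ v w, S v → S w → (Y' v = Y' w ↔ Y v = Y w))
    (hout : ∀ v w, ¬ S v → ¬ S w → Y' v = Y' w) {w : Om} (hw : P.p w ≠ 0) :
    P.iota X Y' Z w = ind (S w) * P.iota X Y Z w := by
  by_cases hs : S w
  · rw [ind_of hs, one_mul]
    have e1 : P.m (fun v => (X v, Y' v, Z v)) w = P.m (fun v => (X v, Y v, Z v)) w := by
      unfold FP.m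
      refine P.E_congr (fun v _ => ?_)
      congr 1
      apply propext
      simp only [Prod.mk.injEq]
      constructor
      · rintro ⟨h1, h2, h3⟩
        exact ⟨h1, (hin v w ((hS v w h3).2 hs) hs).1 h2, h3⟩
      · rintro ⟨h1, h2, h3⟩
        exact ⟨h1, (hin v w ((hS v w h3).2 hs) hs).2 h2, h3⟩
    have e2 : P.m (fun v => (Y' v, Z v)) w = P.m (fun v => (Y v, Z v)) w := by
      unfold FP.m
      refine P.E_congr (fun v _ => ?_)
      congr 1
      apply propext
      simp only [Prod.mk.injEq]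
      constructor
      · rintro ⟨h2, h3⟩
        exact ⟨(hin v w ((hS v w h3).2 hs) hs).1 h2, h3⟩
      · rintro ⟨h2, h3⟩
        exact ⟨(hin v w ((hS v w h3).2 hs) hs).2 h2, h3⟩
    unfold FP.iota
    rw [e1, e2]
  · rw [ind_not hs, zero_mul]
    have e1 : P.m (fun v => (X v, Y' v, Z v)) w = P.m (fun v => (X v, Z v)) w := by
      unfold FP.m
      refine P.E_congr (fun v _ => ?_)
      congr 1
      apply propext
      simp only [Prod.mk.injEq]
      constructor
      · rintro ⟨h1, h2, h3⟩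
        exact ⟨h1, h3⟩
      · rintro ⟨h1, h3⟩
        exact ⟨h1, hout v w (fun h => hs ((hS v w h3).1 h)) hs, h3⟩
    have e2 : P.m (fun v => (Y' v, Z v)) w = P.m Z w := by
      unfold FP.m
      refine P.E_congr (fun v _ => ?_)
      congr 1
      apply propext
      simp only [Prod.mk.injEq]
      constructor
      · rintro ⟨h2, h3⟩
        exact h3
      · intro h3
        exact ⟨hout v w (fun h => hs ((hS v w h3).1 h)) hs, h3⟩
    rw [P.iota_eq X Y' Z hw, e1, e2]
    ring

/-- information of an erased letter = mass of the class times the information on the class -/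
theorem I_cut_cls (P : FP Om) {V : Om → ν} {X : Om → κ} {Y : Om → κ'} {Y' : Om → ι'} {Z : Om → ι} (hZ : Fac Z V)
    {w : Om} (hw : P.p w ≠ 0)
    (hin : ∀ u v, V u = V w → V v = V w → (Y' u = Y' v ↔ Y u = Y v))
    (hout : ∀ u v, V u ≠ V w → V v ≠ V w → Y' u = Y' v) :
    P.I X Y' Z = P.m V w * (P.cond (fun v => V v = V w)).I X Y Z := by
  rw [cond_I P hZ hw, ← P.E_iota X Y' Z]
  have h1 : P.E (P.iota X Y' Z) = P.E (fun u => ind (V u = V w) * P.iota X Y Z u) :=
    P.E_congr (fun u hu => iota_cut P (S := fun u => V u = V w)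
      (fun a b e => by show V a = V w ↔ V b = V w; rw [hZ a b e]) hin hout hu)
  rw [h1]
  unfold FP.ce
  rw [mul_div_cancel₀ _ (P.m_pos V hw).ne']

end

end Pool.Agent.GMM
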