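import Pool.Agent.GMM.Main

/-!
# GMM/MainQ: theorem CM with the numbers of CM.6, deaths apart (row CM; helper50, from helper45's GMM/Main)

**`cm_numsq`** : as `cm_nums`, but the probability `P(Dd T)` of the deaths is not bounded by a power of `X` (it cannot be: the
caps and the names have deaths of probability larger than one over their sizes); it enters additively, divided by the output
level `r1`, which is any number `>= X ^ (-e0)`.
-/

set_option autoImplicit false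
set_option linter.unusedSectionVars false

namespace Pool.Agent.GMM

open Finset Pool.Agent.M3 Pool.Agent.M3.FP Pool.Agent.GMC
open Pool.Agent.PWZ hiding ip

noncomputable section

section main

variable {Om : Type*} [Fintype Om] {ι : Type*} [Fintype ι] [DecidableEq ι] {χ α : Type*} {κ ε φ : ℕ → Type*}
  {P : FP Om} {a : Om → α} {x : ι → Om → χ} {Q : ∀ t, Om → κ t} {D : ℕ → Om → ℝ} {E : ∀ t, Finset ι → Om → ε t}
  {f : ∀ t, Finset ι → Om → φ t} {c0 : ℝ} {K c X C : ℕ} {T : ℕ} {L : ℕ → Finset ι → Om → ℕ}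
  {fat : ℕ → Finset ι → Om → Prop} {n : Nums K c X}

/-- THEOREM CM WITH THE NUMBERS, the probability of the deaths apart, any output level `r1 ≥ X ^ (-e0)` -/
theorem cm_numsq {c2 b e0 : ℕ} (hn : n.OK C) (hK : Fintype.card ι = K) (hK1 : 1 ≤ K) (hX : 2 ≤ X)
    (hc2 : c = 2 * c2) (hcc2 : 6 * b + 6 * K + 3 * e0 + 14 ≤ c2) (hM : MdlI P a x Q D E c0) (hc0 : 0 < c0)
    (hat : ∀ t I u, P.p u ≠ 0 → c0 ≤ P.ce (fun u => (a u, xr x I u, Q t u)) (fun v => ind (Q (t + 1) v = Q (t + 1) u)) u)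
    (hR : RuleOut P a x Q D f n.AA n.w n.aa X T L fat) {Xp g : ℕ → Om → ℝ} {e Dd : ℕ → Om → Prop} {s N : ℝ}
    (hp : Proc P x Q D f Xp g e Dd s N T) {Ap : ℕ → ℕ → ℝ} (hAp : ∀ s j, 0 ≤ Ap s j)
    (hsat : ∀ J, J ≠ univ → ∀ t ≤ T, ∀ u, P.p u ≠ 0 → SatAt P a x Q L fat n Ap J t u) {S S' : ℕ → Om → Prop} {σ : ℝ}
    (hcold : ∀ J, J ≠ univ → P.Pr (fun u => ∃ t ≤ T, σ < P.ce (knq x Q J t) (fun v => ind (S t v)) u) ≤
      (X : ℝ) ^ (-(c2 : ℤ)))
    (hXS : ∀ t u, P.p u ≠ 0 → s < |Xp t u| → ¬ Dd t u → S t u) (cc : Finset ι → ℕ → Om → ℝ)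
    (hcc : ∀ I, ∀ t < T, Fac (fun u => (a u, xr x I u, Q (t + 1) u)) (cc I (t + 1)))
    (hcc0 : ∀ I t u, P.p u ≠ 0 → 0 ≤ cc I t u)
    (he : ∀ t < T, ∀ u, P.p u ≠ 0 → s < |Xp t u| → P.Al (vmap x Q L) Dd (1 / 2) (t + 1) u →
      ind (e (t + 1) u) ≤ ∑ I ∈ (univ : Finset ι).ssubsets, cc I (t + 1) u)
    (hJn : ∀ I, I ≠ univ → ∑ t ∈ range T, P.E (cc I (t + 1)) ≤ (X : ℝ) ^ (b : ℤ))
    {s2 : ℝ} (hs2 : s < s2) (hSX : ∀ t u, P.p u ≠ 0 → S' t u → ¬ Dd t u → s2 ≤ |Xp t u|)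
    (hc0b : 1 / c0 ≤ (X : ℝ) ^ (b : ℤ)) (hNb : N ≤ (X : ℝ) ^ (b : ℤ)) (hsb : 1 / (s2 - s) ^ 2 ≤ (X : ℝ) ^ (b : ℤ))
    (hσ0 : 0 ≤ σ) (hσ : σ ≤ (X : ℝ) ^ (-((C : ℤ) + c))) {r1 : ℝ} (hr1 : 0 < r1) (hr1e : 1 / r1 ≤ (X : ℝ) ^ (e0 : ℤ)) :
    P.Pr (fun u => ∃ t ≤ T, r1 ≤ P.ce (knq x Q univ t) (fun v => ind (S' t v)) u) ≤
      (X : ℝ) ^ (-(e0 : ℤ)) + (8 * N / (r1 * (s2 - s) ^ 2) + 6 / r1) * P.Pr (Dd T) := by
  classical
  set Y : ℝ := (X : ℝ) with hYd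
  have hY : 2 ≤ Y := by
    rw [hYd]
    exact_mod_cast hX
  have hY0 : 0 < Y := by linarith
  obtain ⟨k, hk⟩ : ∃ k, K = k + 1 := ⟨K - 1, by omega⟩
  set hot := hotM P a x Q L fat n Ap S σ T with hhotdef
  have hcard : ∀ {G : Finset ι}, G ≠ univ → G.card < K := fun {G} hG => by rw [← hK]; exact card_lt_of_prp hG
  have hhot : ∀ J t v u, knq x Q J t v = knq x Q J t u → (hot J t v ↔ hot J t u) := fun J t v u h => hotM_fac n Ap S σ T J t v u h
  have hN0 : 0 ≤ N := by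
    obtain ⟨w, hw⟩ := P.exists_p_ne
    exact (Phi_nonneg _ _).trans (hp.bd 0 w hw)
  have hs0 : 0 < (s2 - s) ^ 2 := pow_pos (by linarith) 2
  set ρ : ℝ := r1 * (s2 - s) ^ 2 / 4 with hρd
  set ρ' : ℝ := r1 / 2 with hρ'd
  have hρ : 0 < ρ := by positivity
  have hρ' : 0 < ρ' := by positivity
  set ρ0 : ℝ := Y ^ (-((e0 : ℤ) + b + 2)) with hρ0d
  have hρ0 : 0 < ρ0 := zp_pos hY _
  have h4Y : (4 : ℝ) ≤ Y ^ (2 : ℤ) := by
    have := zp_two_pow hY 2
    norm_num at this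
    exact this
  have hρi : 1 / ρ ≤ Y ^ ((e0 : ℤ) + b + 2) := by
    have e1 : 1 / ρ = 4 * ((1 / r1) * (1 / (s2 - s) ^ 2)) := by
      rw [hρd]
      field_simp
    rw [e1]
    exact zp_mul_le hY h4Y (by positivity) (zp_mul_le hY hr1e (by positivity) hsb le_rfl) (by omega)
  have hρ0i : 1 / ρ0 = Y ^ ((e0 : ℤ) + b + 2) := by
    rw [hρ0d, zpow_neg, one_div, inv_inv]
  set y : ℕ → Finset ι → ℝ := fun r J => 4 ^ K * max 0 (n.del r J.card) with hyd
  have hy0 : ∀ r J, 0 ≤ y r J := fun r J => by simp only [hyd]; positivity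
  set Jn : Finset ι → ℝ := fun _ => Y ^ (b : ℤ) with hJnd
  have hsubne : ∀ {J : Finset ι}, J ⊂ univ → J ≠ univ := fun {J} h => h.ne
  have hcm := cm_rule (hM := hM) hc0 hat hR hp hhot (k := k) (by rw [hK, hk]) hXS cc hcc hcc0 he (Jn := Jn)
    (fun I hI => hJn I hI) (σ := fun _ => σ) (y := y) (fun _ => hσ0) hy0
    (fun J hJ t ht u hu hnh _ => (not_hotM hnh ht).2.2)
    (fun r hr J hJ t ht u hu hnh _ => by
      obtain ⟨p1, p2, -⟩ := not_hotM hnh ht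
      have h1 := (hsat J (hsubne hJ) t ht u hu p1 p2).2 (r + 1) (by omega) (by omega)
      refine h1.trans (mul_le_mul_of_nonneg_left (le_max_right _ _) (by positivity)))
    hρ
  -- numbers
  have h4K : (4 : ℝ) ^ K ≤ Y ^ (2 * (K : ℤ)) := by
    have h1 := zp_two_pow hY (2 * K)
    rw [pow_mul] at h1
    push_cast at h1
    norm_num at h1
    exact h1
  have hsm : ∀ s' j, s' < K → j < K → n.hh s' * n.del s' j ≤ Y ^ (-(c : ℤ)) := fun s' j hs' hj =>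
    zp_of_mul hY (by
      have h1 := hn.small s' j hs' hj
      rw [mul_assoc] at h1
      exact h1)
  have hdel0 : ∀ s' j, s' < K → j < K → 0 < n.del s' j := fun s' j hs' hj => hn.be_pos s' j 0 hs' hj
  have hy1 : ∀ r, r < K → ∀ J : Finset ι, J ⊂ univ → y r J * n.hh r ≤ Y ^ (2 * (K : ℤ) - c) := by
    intro r hr J hJ
    have h1 := hdel0 r J.card hr (hcard (hsubne hJ))
    simp only [hyd]
    rw [max_eq_right h1.le, mul_assoc]
    refine zp_mul_le hY h4K (mul_nonneg h1.le (by have := hn.hh_one r hr; linarith)) (k := -(c : ℤ)) ?_ (by omega)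
    rw [mul_comm]
    exact hsm r J.card hr (hcard (hsubne hJ))
  have hy2 : ∀ r, r < K → ∀ J : Finset ι, J ⊂ univ → y r J ≤ Y ^ (2 * (K : ℤ) - c) := by
    intro r hr J hJ
    refine le_trans ?_ (hy1 r hr J hJ)
    have := hn.hh_one r hr
    nlinarith [hy0 r J]
  have hσ1 : σ ≤ Y ^ (-(c : ℤ)) := hσ.trans (zp_mono hY (by omega))
  have hbu : ∀ I : Finset ι, I ⊂ univ → 0 ≤ Y + Y * n.w k / n.w I.card ∧ Y + Y * n.w k / n.w I.card ≤ n.hh I.card := by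
    intro I hI
    constructor
    · have h1 := hn.w_pos k
      have h2 := hn.w_pos I.card
      positivity
    · have h1 := hn.hh_ge I.card (hcard (hsubne hI))
      have h2 : K - 1 = k := by omega
      rw [h2, ← mul_div_assoc] at h1
      exact h1
  have hB := B_le (ι := ι) hY (k := k) (b := b) (K := K) (c := c) (e0 := e0) hk (N := N) (σ := σ) (q := 0)
    (c0 := c0) (ρ := ρ0) hN0 hNb hσ0 hσ1 le_rfl (zp_pos hY _).le hc0 hc0b hρ0d hK (y := y) hy0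
    (fun r hr J hJ => hy2 (r + 1) (by omega) J hJ) (bu := fun I => Y + Y * n.w k / n.w I.card) (Jn := Jn)
    (fun I hI => (hbu I hI).1)
    (fun I hI => by
      have h1 := hn.hh_le I.card (hcard (hsubne hI))
      rw [zp_nat] at h1
      exact zp_mul_le hY hσ (hbu I hI).1 ((hbu I hI).2.trans h1) (by omega))
    (fun r hr I hI => by
      have hcI := mem_sz.1 hI
      have hIu : I ⊂ univ := by
        rw [← Finset.mem_ssubsets, ssub_univ_eq, mem_szlt, hcI, hK, hk]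
        omega
      have h1 := hy1 (r + 1) (by omega) I hIu
      refine le_trans ?_ h1
      refine mul_le_mul_of_nonneg_left ?_ (hy0 _ _)
      have h2 := (hbu I hIu).2
      rw [hcI] at h2 ⊢
      exact h2)
    (fun I _ => (zp_pos hY _).le) (fun I _ => le_rfl)
  have hk0 : (0 : ℝ) ≤ (k : ℝ) + 1 := by positivity
  have hr1' : 1 / c0 * (((k : ℝ) + 1) / ρ) ≤ 1 / c0 * (((k : ℝ) + 1) / ρ0) := by
    refine mul_le_mul_of_nonneg_left ?_ (by positivity)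
    rw [div_eq_mul_one_div, div_eq_mul_one_div (_ + _) ρ0, hρ0i]
    exact mul_le_mul_of_nonneg_left hρi hk0
  have hr2' : 1 / c0 * (((k : ℝ) + 1) ^ 2 / ρ) ≤ 1 / c0 * (((k : ℝ) + 1) ^ 2 / ρ0) := by
    refine mul_le_mul_of_nonneg_left ?_ (by positivity)
    rw [div_eq_mul_one_div, div_eq_mul_one_div (_ ^ 2) ρ0, hρ0i]
    exact mul_le_mul_of_nonneg_left hρi (by positivity)
  have hS0 : 0 ≤ ∑ I ∈ (univ : Finset ι).ssubsets, 2 * N * σ * (2 * N * (Y + Y * n.w k / n.w I.card) + N * Jn I) := by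
    refine Finset.sum_nonneg fun I hI => ?_
    have h1 := (hbu I (Finset.mem_ssubsets.1 hI)).1
    have h2 : 0 ≤ Jn I := (zp_pos hY _).le
    positivity
  have hS1 : 0 ≤ ∑ r : Fin k, ∑ I ∈ sz ι (r + 1), 2 * N * y (r + 1) I * (2 * N * (Y + Y * n.w k / n.w I.card)) := by
    refine Finset.sum_nonneg fun r _ => Finset.sum_nonneg fun I hI => ?_
    have hcI := mem_sz.1 hI
    have hIu : I ⊂ univ := by
      rw [← Finset.mem_ssubsets, ssub_univ_eq, mem_szlt, hcI, hK, hk]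
      have := r.2
      omega
    have h1 := (hbu I hIu).1
    have h2 := hy0 (r + 1) I
    positivity
  have hcm2 : ρ * P.Pr (fun u => ∃ t ≤ T, pal P (knq x Q) hot univ t u ∧ 2 * ρ ≤ piV P x Q L Xp Dd s t u) ≤
      Y ^ (5 * (b : ℤ) + 6 * K + e0 + 10 - c) + 2 * N * P.Pr (Dd T) := by
    have m1 := mul_le_mul_of_nonneg_right hr1' hS0
    have m2 := mul_le_mul_of_nonneg_right hr2' hS1
    linarith
  -- the end
  have hfin := cm_final (hM := hM) hc0 hR hp hhot (fun J u => hotM_top n Ap S σ T J u) (S' := S') hs2 hSX hρ hρ' hcm2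
  have hthr : 2 * ρ / (s2 - s) ^ 2 + ρ' = r1 := by
    rw [hρd, hρ'd, show 2 * (r1 * (s2 - s) ^ 2 / 4) = r1 / 2 * (s2 - s) ^ 2 by ring, mul_div_assoc, div_self hs0.ne']
    ring
  rw [hthr] at hfin
  refine hfin.trans ?_
  -- the three terms
  have g1 : (Y ^ (5 * (b : ℤ) + 6 * K + e0 + 10 - c) + 2 * N * P.Pr (Dd T)) / ρ ≤
      Y ^ (-(e0 : ℤ) - 2) + 8 * N / (r1 * (s2 - s) ^ 2) * P.Pr (Dd T) := by
    rw [add_div]
    refine add_le_add ?_ (le_of_eq ?_)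
    · rw [div_eq_mul_one_div]
      exact zp_mul_le hY le_rfl (by positivity) hρi (by omega)
    · rw [hρd]
      field_simp
      ring
  have hhotle : ∀ J ∈ (univ : Finset ι).ssubsets, (1 + 1 / c0) *
      P.Pr (fun u => ∃ t ≤ T, pal P (knq x Q) hot J t u ∧ hot J t u) ≤ Y ^ (2 * (K : ℤ) + 2 * b + 6 - c2) := by
    intro J hJ
    have h1 := hot_le hn hK hX hM hc0 hR hAp hsat hcold (hsubne (Finset.mem_ssubsets.1 hJ))
    have h2 : (1 : ℝ) + 1 / c0 ≤ Y ^ ((b : ℤ) + 1) := zp_add hY (zp_one hY (by omega)) hc0b le_rfl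
    refine zp_mul_le hY h2 (P.Pr_nonneg _) (k := 2 * (K : ℤ) + b + 5 - c2) (h1.trans ?_) (by omega)
    have h3 : ((Y : ℝ) ^ c)⁻¹ = Y ^ (-(c : ℤ)) := by rw [zpow_neg, zpow_natCast]
    have h4 : Real.sqrt (((Y : ℝ) ^ c)⁻¹) = Y ^ (-(c2 : ℤ)) := by
      rw [h3, hc2]
      have : (Y : ℝ) ^ (-((2 * c2 : ℕ) : ℤ)) = Y ^ (-(c2 : ℤ)) * Y ^ (-(c2 : ℤ)) := by
        rw [zp_mul hY]
        congr 1
        push_cast
        ring
      rw [this]
      exact Real.sqrt_mul_self (zp_pos hY _).le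
    have h5 : (2 : ℝ) ^ (K + 2) + 4 * (1 / c0) ≤ Y ^ ((K : ℤ) + b + 3) := by
      refine zp_add hY (m := (K : ℤ) + b + 2) ?_ ?_ (by omega)
      · refine (zp_two_pow hY (K + 2)).trans (zp_mono hY (by push_cast; omega))
      · have h6 : (4 : ℝ) ≤ Y ^ (2 : ℤ) := by
          have := zp_two_pow hY 2
          norm_num at this
          exact this
        exact zp_mul_le hY h6 (by positivity) hc0b (by omega)
    have h2K := zp_two_pow hY K
    have h6 : (2 : ℝ) ^ K * (((Y : ℝ) ^ c)⁻¹ * (2 ^ (K + 2) + 4 * (1 / c0))) ≤ Y ^ (2 * (K : ℤ) + b + 3 - c2) := by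
      rw [h3]
      refine zp_mul_le hY h2K (by positivity) (k := (K : ℤ) + b + 3 - c2) (zp_mul_le hY le_rfl (by positivity) h5 (by omega))
        (by omega)
    have h7 : (2 : ℝ) ^ K * Real.sqrt (((Y : ℝ) ^ c)⁻¹) ≤ Y ^ (2 * (K : ℤ) + b + 3 - c2) := by
      rw [h4]
      exact zp_mul_le hY h2K (zp_pos hY _).le le_rfl (by omega)
    have h8 := zp_add hY h6 h7 (k := 2 * (K : ℤ) + b + 4 - c2) (by omega)
    exact zp_add hY h8 (zp_mono hY (show -(c2 : ℤ) ≤ 2 * (K : ℤ) + b + 4 - c2 by omega)) (by omega)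
  have hss : (((univ : Finset ι).ssubsets.card : ℕ) : ℝ) ≤ Y ^ (K : ℤ) := by
    refine le_trans ?_ (zp_two_pow hY K)
    have h1 : (univ : Finset ι).ssubsets.card ≤ 2 ^ K := by
      rw [← hK, ← Fintype.card_finset]
      exact Finset.card_le_univ _
    exact_mod_cast h1
  have g2 : ∑ J ∈ (univ : Finset ι).ssubsets, (1 + 1 / c0) *
      P.Pr (fun u => ∃ t ≤ T, pal P (knq x Q) hot J t u ∧ hot J t u) ≤ Y ^ (-(e0 : ℤ) - 2) :=
    sum_le_zp hY _ hss hhotle (by omega)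
  have g3 : 3 * P.Pr (Dd T) / ρ' = 6 / r1 * P.Pr (Dd T) := by
    rw [hρ'd]
    field_simp
    ring
  have g4 := zp_two hY (-(e0 : ℤ) - 2)
  have g5 := zp_two hY (-(e0 : ℤ) - 2 + 1)
  have g6 := zp_mono hY (show -(e0 : ℤ) - 2 + 1 + 1 ≤ -(e0 : ℤ) by omega)
  have g7 := zp_pos hY (-(e0 : ℤ) - 2)
  rw [add_mul]
  linarith

end main

end

end Pool.Agent.GMM
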