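import Pool.Agent.GMM.Rule

/-!
# GMM/Names: from published labels to the names of the rule (row CM; helper58, module of helper45)

Labels `l : L'` with index sets `S l` and published values `pl l t`, functions of `(a, x_(S l), Q_t)`, cumulative.
`nm S pl t I` = the codes of the published values of the labels with `S l = I`.
* `nv_sel_le` : number of values of a tuple; `Hc_sel_le` : entropy of a tuple;
* `nm_fac`, `nm_mono` (strong), `nm_nv`, `nm_bud` : the hypotheses `hf`, `hfm`, `hfn`, `hfb` of `exists_rule`;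
* `nm_pl`, `sel_nm` : the published values are functions of the names.
-/

set_option autoImplicit false
set_option linter.unusedSectionVars false

namespace Pool.Agent.GMM

open Finset Pool.Agent.PWZ Pool.Agent.M3

noncomputable section

/-! ## tuples -/

section tup

variable {Om : Type*} [Fintype Om] (P : FP Om) {γ β ν : Type*}

/-- number of values of a tuple -/
theorem nv_sel_fin [DecidableEq γ] (v : γ → Om → β) (V : Om → ν) (w : Om) {h : ℝ} (s : Finset γ)
    (hv : ∀ i ∈ s, (nv P (v i) V w : ℝ) ≤ Real.exp h) :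
    (nv P (sel (fun i => i ∈ s) v) V w : ℝ) ≤ Real.exp (s.card * h) := by
  induction s using Finset.induction_on with
  | empty =>
    have h1 : nv P (sel (fun i => i ∈ (∅ : Finset γ)) v) V w ≤ 1 :=
      nv_le_one (fun u z _ _ _ _ => sel_eq.2 (fun i hi => absurd hi (Finset.notMem_empty i)))
    have h2 : ((nv P (sel (fun i => i ∈ (∅ : Finset γ)) v) V w : ℕ) : ℝ) ≤ 1 := by exact_mod_cast h1
    simpa using h2
  | insert i s hi ih =>
    have h1 : nv P (sel (fun j => j ∈ insert i s) v) V w ≤ nv P (v i) V w * nv P (sel (fun j => j ∈ s) v) V w := by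
      refine nv_pair (fun u z e => sel_eq.2 (fun j hj => ?_)) w
      simp only [Prod.mk.injEq] at e
      rcases Finset.mem_insert.1 hj with rfl | hj
      · exact e.1
      · exact sel_eq.1 e.2 j hj
    have h2 := ih (fun j hj => hv j (Finset.mem_insert_of_mem hj))
    have h3 := hv i (Finset.mem_insert_self i s)
    have h4 : ((nv P (sel (fun j => j ∈ insert i s) v) V w : ℕ) : ℝ) ≤
        (nv P (v i) V w : ℝ) * (nv P (sel (fun j => j ∈ s) v) V w : ℝ) := by exact_mod_cast h1
    rw [Finset.card_insert_of_notMem hi]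
    refine h4.trans ((mul_le_mul h3 h2 (Nat.cast_nonneg _) (Real.exp_pos _).le).trans (le_of_eq ?_))
    rw [← Real.exp_add]
    congr 1
    push_cast
    ring

theorem nv_sel_le [Fintype γ] (p : γ → Prop) (v : γ → Om → β) (V : Om → ν) (w : Om) {h : ℝ} (hh : 0 ≤ h)
    (hv : ∀ i, p i → (nv P (v i) V w : ℝ) ≤ Real.exp h) :
    (nv P (sel p v) V w : ℝ) ≤ Real.exp (Fintype.card γ * h) := by
  classical
  have h1 := nv_sel_fin P v V w (univ.filter p) (fun i hi => hv i (Finset.mem_filter.1 hi).2)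
  have h2 : nv P (sel p v) V w ≤ nv P (sel (fun i => i ∈ univ.filter p) v) V w :=
    nv_le_nv (fun u z _ _ _ _ e => sel_eq.2 (fun i hi => sel_eq.1 e i (Finset.mem_filter.2 ⟨Finset.mem_univ i, hi⟩)))
  have h3 : ((nv P (sel p v) V w : ℕ) : ℝ) ≤ (nv P (sel (fun i => i ∈ univ.filter p) v) V w : ℝ) := by exact_mod_cast h2
  refine h3.trans (h1.trans (Real.exp_le_exp.2 ?_))
  refine mul_le_mul_of_nonneg_right ?_ hh
  exact_mod_cast (Finset.card_filter_le _ _).trans (le_of_eq Finset.card_univ)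

/-- entropy of a pair -/
theorem Hc_pair_le {κ κ' : Type*} (X : Om → κ) (Y : Om → κ') (V : Om → ν) :
    P.Hc (fun w => (X w, Y w)) V ≤ P.Hc X V + P.Hc Y V := by
  have h1 : P.Hc (fun w => (X w, Y w)) V = P.Hc X V + P.Hc Y (fun w => (X w, V w)) := by
    unfold FP.Hc
    have e1 : P.H (fun w => ((X w, Y w), V w)) = P.H (fun w => (Y w, (X w, V w))) :=
      P.H_congr (fun u w e => by simp only [Prod.mk.injEq] at e ⊢; tauto)
        (fun u w e => by simp only [Prod.mk.injEq] at e ⊢; tauto)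
    rw [e1]
    ring
  have h2 := P.Hc_anti Y (Y := fun w => (X w, V w)) (Z := V) (Fac.snd _ _)
  linarith

theorem Hc_sel_fin [DecidableEq γ] (v : γ → Om → β) (V : Om → ν) (s : Finset γ) :
    P.Hc (sel (fun i => i ∈ s) v) V ≤ ∑ i ∈ s, P.Hc (v i) V := by
  induction s using Finset.induction_on with
  | empty =>
    have h1 : P.Hc (sel (fun i => i ∈ (∅ : Finset γ)) v) V = 0 := by
      unfold FP.Hc
      have : P.H (fun w => (sel (fun i => i ∈ (∅ : Finset γ)) v w, V w)) = P.H V :=
        P.H_congr (fun u w e => by simp only [Prod.mk.injEq] at e; exact e.2)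
          (fun u w e => by
            simp only [Prod.mk.injEq]
            exact ⟨sel_eq.2 (fun i hi => absurd hi (Finset.notMem_empty i)), e⟩)
      rw [this, sub_self]
    rw [h1]
    simp
  | insert i s hi ih =>
    rw [Finset.sum_insert hi]
    have h1 : P.Hc (sel (fun j => j ∈ insert i s) v) V ≤ P.Hc (fun w => (v i w, sel (fun j => j ∈ s) v w)) V := by
      have h2 : P.Hc (sel (fun j => j ∈ insert i s) v) V = P.Hc (fun w => (v i w, sel (fun j => j ∈ s) v w)) V := by
        refine P.Hc_congr ?_ (Fac.refl _) ?_ (Fac.refl _)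
        · refine (Fac.fst _ _).trans ?_
          exact (sel_fac (p := fun j => j ∈ insert i s) (Finset.mem_insert_self i s)).prod
            (sel_mono (fun j hj => Finset.mem_insert_of_mem hj))
        · refine (Fac.fst _ _).trans (fun u z e => sel_eq.2 (fun j hj => ?_))
          simp only [Prod.mk.injEq] at e
          rcases Finset.mem_insert.1 hj with rfl | hj
          · exact e.1
          · exact sel_eq.1 e.2 j hj
      exact h2.le
    have h3 := Hc_pair_le P (v i) (sel (fun j => j ∈ s) v) V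
    linarith

theorem Hc_sel_le [Fintype γ] (p : γ → Prop) (v : γ → Om → β) (V : Om → ν) {c : ℝ} (hc : 0 ≤ c)
    (hv : ∀ i, p i → P.Hc (v i) V ≤ c) : P.Hc (sel p v) V ≤ Fintype.card γ * c := by
  classical
  have h1 := Hc_sel_fin P v V (univ.filter p)
  have h2 : P.Hc (sel p v) V = P.Hc (sel (fun i => i ∈ univ.filter p) v) V := by
    refine P.Hc_congr ?_ (Fac.refl _) ?_ (Fac.refl _)
    · exact (Fac.fst _ _).trans (sel_mono (fun i hi => (Finset.mem_filter.1 hi).2))
    · exact (Fac.fst _ _).trans (sel_mono (fun i hi => Finset.mem_filter.2 ⟨Finset.mem_univ i, hi⟩))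
  rw [h2]
  refine h1.trans ((Finset.sum_le_card_nsmul _ _ c (fun i hi => hv i (Finset.mem_filter.1 hi).2)).trans ?_)
  rw [nsmul_eq_mul]
  refine mul_le_mul_of_nonneg_right ?_ hc
  exact_mod_cast (Finset.card_filter_le _ _).trans (le_of_eq Finset.card_univ)

end tup

/-! ## names -/

section nm

variable {Om : Type*} [Fintype Om] (P : FP Om) {ι : Type*} [Fintype ι] [DecidableEq ι] {α χ : Type*} {κ : ℕ → Type*}
  {L' : Type*} {PL : L' → ℕ → Type*}

/-- the names: the codes of the published values of the labels with index set `I` -/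
def nm (S : L' → Finset ι) (pl : ∀ l t, Om → PL l t) (t : ℕ) (I : Finset ι) : Om → L' → Option ℕ :=
  sel (fun l => S l = I) (fun l => code (pl l t))

variable {P} {a : Om → α} {x : ι → Om → χ} {Q : ∀ t, Om → κ t} {S : L' → Finset ι} {pl : ∀ l t, Om → PL l t}

/-- the published value is a function of the names -/
theorem nm_pl {t : ℕ} {I : Finset ι} {l : L'} (h : S l = I) : Fac (nm S pl t I) (pl l t) :=
  (sel_fac (p := fun l => S l = I) (v := fun l => code (pl l t)) h).trans (code_fac _)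

theorem sel_nm {t : ℕ} {l : L'} (h : S l ≠ univ) : Fac (sel (fun I : Finset ι => I ≠ univ) (nm S pl t)) (pl l t) :=
  (sel_fac (p := fun I : Finset ι => I ≠ univ) (v := nm S pl t) h).trans (nm_pl rfl)

theorem fac_nm {β : Type*} {X : Om → β} {t : ℕ} {I : Finset ι} (h : ∀ l, S l = I → Fac X (pl l t)) :
    Fac X (nm S pl t I) := fac_sel (fun l hl => (h l hl).trans (fac_code _))

/-- `hf` -/
theorem nm_fac (hA : ∀ l t, Fac (fun u => (a u, xr x (S l) u, Q t u)) (pl l t)) (t : ℕ) (I : Finset ι) :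
    Fac (fun u => (a u, xr x I u, Q t u)) (nm S pl t I) := fac_nm (fun l hl => by rw [← hl]; exact hA l t)

/-- `hfm`, strong form -/
theorem nm_mono (hc : ∀ l t, Fac (pl l (t + 1)) (pl l t)) (t : ℕ) (I : Finset ι) :
    Fac (nm S pl (t + 1) I) (nm S pl t I) := fac_nm (fun l hl => (nm_pl hl).trans (hc l t))

/-- `hfm` -/
theorem nm_mono' (hc : ∀ l t, Fac (pl l (t + 1)) (pl l t)) (t : ℕ) (I : Finset ι) :
    Fac (fun u => (nm S pl (t + 1) I u, xr x I u, Q (t + 1) u)) (nm S pl t I) := (Fac.fst _ _).trans (nm_mono hc t I)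

theorem nv_code_le {β ν : Type*} (X : Om → β) (V : Om → ν) (w : Om) : nv P (code X) V w ≤ nv P X V w :=
  nv_le_nv (fun u z _ _ _ _ e => fac_code X u z e)

/-- `hfn` -/
theorem nm_nv [Fintype L'] {hv : ℝ} (hv0 : 0 ≤ hv)
    (hnv : ∀ l t, ∀ u, P.p u ≠ 0 → (nv P (pl l t) (fun z => (xr x (S l) z, Q t z)) u : ℝ) ≤ Real.exp hv) (t : ℕ)
    (I : Finset ι) {u : Om} (hu : P.p u ≠ 0) :
    (nv P (nm S pl t I) (fun z => (xr x I z, Q t z)) u : ℝ) ≤ Real.exp (Fintype.card L' * hv) := by
  refine nv_sel_le P _ _ _ u hv0 (fun l hl => ?_)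
  have h1 : ((nv P (code (pl l t)) (fun z => (xr x I z, Q t z)) u : ℕ) : ℝ) ≤
      (nv P (pl l t) (fun z => (xr x I z, Q t z)) u : ℝ) := by exact_mod_cast nv_code_le _ _ _
  refine h1.trans ?_
  rw [← hl]
  exact hnv l t u hu

theorem Hc_code {β ν : Type*} (X : Om → β) (V : Om → ν) : P.Hc (code X) V = P.Hc X V :=
  P.Hc_congr ((Fac.fst _ _).trans (code_fac X)) (Fac.refl _) ((Fac.fst _ _).trans (fac_code X)) (Fac.refl _)

/-- `hfb` -/
theorem nm_bud [Fintype L'] {hb : ℝ} (hb0 : 0 ≤ hb) {T : ℕ}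
    (ent0 : ∀ l, P.Hc (pl l 0) (fun u => (xr x (S l) u, Q 0 u)) ≤ hb)
    (ent : ∀ l, ∑ t ∈ range T, P.Hc (pl l (t + 1)) (fun u => (pl l t u, (xr x (S l) u, Q (t + 1) u))) ≤ hb)
    (I : Finset ι) : bud P x Q (nm S pl) T I ≤ Fintype.card L' * (2 * hb) := by
  classical
  have h0 : P.Hc (nm S pl 0 I) (fun u => (xr x I u, Q 0 u)) ≤ Fintype.card L' * hb := by
    refine Hc_sel_le P _ _ _ hb0 (fun l hl => ?_)
    rw [Hc_code, ← hl]
    exact ent0 l
  have h1 : ∀ t, P.Hc (nm S pl (t + 1) I) (fun u => (nm S pl t I u, xr x I u, Q (t + 1) u)) ≤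
      ∑ l ∈ univ.filter (fun l => S l = I), P.Hc (pl l (t + 1)) (fun u => (pl l t u, (xr x (S l) u, Q (t + 1) u))) := by
    intro t
    have h2 := Hc_sel_fin P (fun l => code (pl l (t + 1))) (fun u => (nm S pl t I u, xr x I u, Q (t + 1) u))
      (univ.filter (fun l => S l = I))
    have h3 : P.Hc (nm S pl (t + 1) I) (fun u => (nm S pl t I u, xr x I u, Q (t + 1) u)) =
        P.Hc (sel (fun l => l ∈ univ.filter (fun l => S l = I)) (fun l => code (pl l (t + 1))))
          (fun u => (nm S pl t I u, xr x I u, Q (t + 1) u)) := by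
      refine P.Hc_congr ?_ (Fac.refl _) ?_ (Fac.refl _)
      · exact (Fac.fst _ _).trans (sel_mono (fun i hi => (Finset.mem_filter.1 hi).2))
      · exact (Fac.fst _ _).trans (sel_mono (fun i hi => Finset.mem_filter.2 ⟨Finset.mem_univ i, hi⟩))
    rw [h3]
    refine h2.trans (Finset.sum_le_sum (fun l hl => ?_))
    have hl' := (Finset.mem_filter.1 hl).2
    rw [Hc_code]
    refine P.Hc_anti _ (fun u z e => ?_)
    simp only [Prod.mk.injEq] at e ⊢
    rw [hl']
    exact ⟨nm_pl hl' u z e.1, e.2.1, e.2.2⟩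
  have h4 : ∑ t ∈ range T, P.Hc (nm S pl (t + 1) I) (fun u => (nm S pl t I u, xr x I u, Q (t + 1) u)) ≤
      Fintype.card L' * hb := by
    refine (Finset.sum_le_sum (fun t _ => h1 t)).trans ?_
    rw [Finset.sum_comm]
    refine (Finset.sum_le_card_nsmul _ _ hb (fun l _ => ent l)).trans ?_
    rw [nsmul_eq_mul]
    refine mul_le_mul_of_nonneg_right ?_ hb0
    exact_mod_cast (Finset.card_filter_le _ _).trans (le_of_eq Finset.card_univ)
  unfold bud
  linarith

end nm

end

end Pool.Agent.GMM
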