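import Pool.Agent.GMM.Bridge2

/-!
# GMM/BridgeM: the mean of `M_r` at the class (row CM; helper36)
-/

set_option autoImplicit false
set_option linter.unusedSectionVars false

namespace Pool.Agent.GMM

open Finset Pool.Agent.M3 Pool.Agent.GMC
open Pool.Agent.PWZ hiding ip

noncomputable section

section mm

variable {Om : Type*} [Fintype Om] {ι α χ : Type} [Fintype ι] [DecidableEq ι] [Fintype χ] [DecidableEq χ] [Fintype α]
  {κ : Type*} {P : FP Om} {a : Om → α} {x : ι → Om → χ} {Q : Om → κ} {L : Finset ι → Om → ℕ} {J : Finset ι} {u : Om}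

/-- the mean of `m_G` at the class -/
theorem ce_mG_cls (hu : P.p u ≠ 0) (full : ∀ M M', Disjoint M M' → P.CI Q (fun v => (a v, xr x M v)) (xr x M'))
    (hL : ∀ I, Fac (fun v => (a v, xr x I v, Q v)) (L I)) (k : ℕ) (G : Finset ι) :
    P.ce (fun v => (xr x J v, Q v)) (mG P L (fun v => (xr x univ v, Q v)) (LS (id : ι → ι) k) G) u =
      mmG (DC P a x Q L J u) id k G := by
  have hN : Fac (fun v => (xr x univ v, Q v)) (fun v => (xr x J v, Q v)) := by
    intro v z e
    simp only [Prod.mk.injEq] at e ⊢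
    exact ⟨xr_mono x (Finset.subset_univ J) v z e.1, e.2⟩
  rw [ce_mG P L hN]
  unfold mmG mG
  rw [I_cls hu full]
  have e1 : ip P (fun w => LC (DC P a x Q L J u) id G (a w, fun i => x i w))
      (fun w => Lf (LC (DC P a x Q L J u) id) (prev (LS id k) G) (a w, fun i => x i w))
      (fun w => (Lf (LC (DC P a x Q L J u) id) G.ssubsets (a w, fun i => x i w), fun i => x i w))
      (fun v => (xr x J v, Q v)) u =
    ip P (L G) (Lf L (prev (LS id k) G)) (fun w => (Lf L G.ssubsets w, fun i => x i w)) (fun v => (xr x J v, Q v)) u := by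
    refine ip_congr_supp hu (fun w hw hN => LC_cls hL G hw hN) (fun w hw hN => ?_) (fun w hw hN => ?_)
    · exact Lf_cls hL _ hw hN
    · rw [Lf_cls hL _ hw hN]
  rw [e1]
  refine ip_congr P (Fac.fst _ _) (Fac.fst _ _) ?_ (Fac.refl _) (Fac.fst _ _) (Fac.fst _ _) ?_ (Fac.refl _) u
  · intro v z e
    simp only [Prod.mk.injEq] at e ⊢
    exact ⟨e.1.1, funext fun i => sel_eq.1 e.1.2.1 i (Finset.mem_univ i)⟩
  · intro v z e
    simp only [Prod.mk.injEq] at e ⊢
    exact ⟨e.1.1, sel_eq.2 (fun i _ => congrFun e.1.2 i), e.2.2⟩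

/-- the mean of `M_r` at the class -/
theorem ce_MM_cls (hu : P.p u ≠ 0) (full : ∀ M M', Disjoint M M' → P.CI Q (fun v => (a v, xr x M v)) (xr x M'))
    (hL : ∀ I, Fac (fun v => (a v, xr x I v, Q v)) (L I)) {k r N : ℕ} {ε : ℝ} (hr : r < k) (hk : Fintype.card ι ≤ N)
    (hε : 0 ≤ ε) (hB : Bd (DC P a x Q L J u) k r N ε) :
    P.ce (fun v => (xr x J v, Q v)) (MM P L (fun v => (xr x univ v, Q v)) r) u ≤ 2 ^ Fintype.card ι * ε := by
  have hS : szlt ι (r + 1) ⊆ LS (id : ι → ι) k := by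
    intro G hG
    rw [mem_szlt] at hG
    rw [mem_LS]
    exact ⟨by omega, Function.injective_id.injOn⟩
  refine (ce_MM_le P L _ _ r hS u).trans ?_
  have h1 : ∀ G ∈ sz ι r, P.ce (fun v => (xr x J v, Q v)) (mG P L (fun v => (xr x univ v, Q v)) (LS (id : ι → ι) k) G) u ≤
      ε := by
    intro G hG
    rw [mem_sz] at hG
    rw [ce_mG_cls hu full hL k G]
    exact hB ι id (fun y y' _ h => h) hk G (mem_LS.2 ⟨by omega, Function.injective_id.injOn⟩) hG
  refine (Finset.sum_le_card_nsmul _ _ _ h1).trans ?_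
  rw [nsmul_eq_mul]
  refine mul_le_mul_of_nonneg_right ?_ hε
  have h2 : (sz ι r).card ≤ (univ : Finset (Finset ι)).card := Finset.card_le_card (Finset.subset_univ _)
  rw [Finset.card_univ, Fintype.card_finset] at h2
  exact_mod_cast h2

end mm

end

end Pool.Agent.GMM
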