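import Pool.Agent.GMM.Bridge2

/-!
# GMM/BridgeS: the informations of admissible families at the point `(x_J, Q)` from `m*_G` at the class (row CM; helper36)

* `exS` : an admissible family of a larger set `J'` of exact vertices as extras of the label set `G` at the class of
  `(x_J, Q)`; `ext_exS` : they are admissible;
* `small_cls` : the information of the family is at most `m*_G`.
-/

set_option autoImplicit false
set_option linter.unusedSectionVars false

namespace Pool.Agent.GMM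

open Finset Pool.Agent.M3 Pool.Agent.GMC
open Pool.Agent.PWZ hiding ip

noncomputable section

section small

variable {Om : Type*} [Fintype Om] {ι α χ : Type} [Fintype ι] [DecidableEq ι] [Fintype χ] [DecidableEq χ] [Fintype α]
  {κ : Type*} {P : FP Om} {a : Om → α} {x : ι → Om → χ} {Q : Om → κ} {L : Finset ι → Om → ℕ} {J J' G : Finset ι}
  {u : Om} {R : Finset ι → Om → ℕ} {A : ℝ}

/-- the extras -/
def exS (P : FP Om) (a : Om → α) (x : ι → Om → χ) (Q : Om → κ) (u : Om) (J J' G : Finset ι) (R : Finset ι → Om → ℕ)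
    (T : Finset ι) (q : CS α χ ι) : ℕ :=
  if (G ∩ J') \ J ⊆ T then fnl P a x Q u (J' ∪ T) (R (J' ∪ T)) q.1 q.2 else 0

theorem fre_DCs : fre (DC P a x Q L J u) id G = G \ J := by
  ext i
  unfold fre
  simp only [Finset.mem_filter, Finset.mem_sdiff]
  exact Iff.rfl

theorem union_ssub {T : Finset ι} (hJ : J ⊆ J') (hT : T ⊂ G \ J) (h : (G ∩ J') \ J ⊆ T) : J' ∪ T ⊂ J' ∪ G := by
  rw [Finset.ssubset_iff_subset_ne]
  refine ⟨Finset.union_subset_union_right (hT.1.trans Finset.sdiff_subset), fun he => hT.2 (fun i hi => ?_)⟩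
  rw [Finset.mem_sdiff] at hi
  have h1 : i ∈ J' ∪ T := by
    rw [he]
    exact Finset.mem_union_right _ hi.1
  rcases Finset.mem_union.1 h1 with h2 | h2
  · exact h (Finset.mem_sdiff.2 ⟨Finset.mem_inter.2 ⟨hi.1, h2⟩, hi.2⟩)
  · exact h2

theorem not_mem_of {T : Finset ι} (h : (G ∩ J') \ J ⊆ T) {i : ι} (hi : i ∈ J' ∪ T) : i ∉ (G \ J) \ T := by
  intro h1
  rw [Finset.mem_sdiff, Finset.mem_sdiff] at h1
  rcases Finset.mem_union.1 hi with h2 | h2
  · exact h1.2 (h (Finset.mem_sdiff.2 ⟨Finset.mem_inter.2 ⟨h1.1.1, h2⟩, h1.1.2⟩))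
  · exact h1.2 h2

/-- the extras are admissible -/
theorem ext_exS (hu : P.p u ≠ 0) (full : ∀ M M', Disjoint M M' → P.CI Q (fun v => (a v, xr x M v)) (xr x M'))
    (hJ : J ⊆ J') (hR : ExtG P a x Q A J' G R) (hA : 0 ≤ A) :
    Ext (DC P a x Q L J u) id G A (exS P a x Q u J J' G R) := by
  constructor
  · intro T hT p q h1 h2
    rw [fre_DCs] at hT h2
    unfold exS
    by_cases h : (G ∩ J') \ J ⊆ T
    · rw [if_pos h, if_pos h, h1]
      exact fnl_dep _ _ _ (fun i hi => h2 i (not_mem_of h hi))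
    · rw [if_neg h, if_neg h]
  · intro T hT c
    rw [fre_DCs] at hT
    unfold exS
    by_cases h : (G ∩ J') \ J ⊆ T
    · simp only [if_pos h]
      exact nA_fnl hu full (J' ∪ T) (R (J' ∪ T)) (Real.one_le_exp hA)
        (fun v hv _ => hR.card _ Finset.subset_union_left (union_ssub hJ hT h) v hv) c
    · simp only [if_neg h]
      have h1 : nA (DC P a x Q L J u) (fun _ : α => (0 : ℕ)) ≤ ({0} : Finset ℕ).card :=
        nA_le_of _ (fun _ _ => Finset.mem_singleton_self 0)
      rw [Finset.card_singleton] at h1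
      have h2 : (nA (DC P a x Q L J u) (fun _ : α => (0 : ℕ)) : ℝ) ≤ 1 := by exact_mod_cast h1
      exact h2.trans (Real.one_le_exp hA)

/-- the family in terms of the extras, on the class -/
theorem exS_cls (hJ : J ⊆ J') (hR : ExtG P a x Q A J' G R) {I : Finset ι} (hI : J' ⊆ I) (hI' : I ⊂ J' ∪ G) {w : Om}
    (hw : P.p w ≠ 0) (hQ : Q w = Q u) :
    (I ∩ G) \ J ⊂ G \ J ∧ exS P a x Q u J J' G R ((I ∩ G) \ J) (a w, fun i => x i w) = R I w := by
  have hIG : J' ∪ (I ∩ G) \ J = I := by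
    ext i
    simp only [Finset.mem_union, Finset.mem_sdiff, Finset.mem_inter]
    constructor
    · rintro (h | ⟨⟨h, _⟩, _⟩)
      · exact hI h
      · exact h
    · intro h
      rcases Finset.mem_union.1 (hI'.1 h) with h1 | h1
      · exact Or.inl h1
      · by_cases h2 : i ∈ J
        · exact Or.inl (hJ h2)
        · exact Or.inr ⟨⟨h, h1⟩, h2⟩
  have hc : (G ∩ J') \ J ⊆ (I ∩ G) \ J := by
    intro i hi
    simp only [Finset.mem_sdiff, Finset.mem_inter] at hi ⊢
    exact ⟨⟨hI hi.1.2, hi.1.1⟩, hi.2⟩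
  refine ⟨?_, ?_⟩
  · rw [Finset.ssubset_iff_subset_ne]
    refine ⟨Finset.sdiff_subset_sdiff Finset.inter_subset_right (Finset.Subset.refl _), fun he => hI'.2 ?_⟩
    refine Finset.union_subset hI (fun i hi => ?_)
    by_cases h2 : i ∈ J
    · exact hI (hJ h2)
    · have h3 : i ∈ (I ∩ G) \ J := by
        rw [he]
        exact Finset.mem_sdiff.2 ⟨hi, h2⟩
      exact (Finset.mem_inter.1 (Finset.mem_sdiff.1 h3).1).1
  · unfold exS
    rw [if_pos hc, hIG]
    exact fnl_eq (hR.fac I hI hI') hw hQ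

/-- THE INFORMATION OF A FAMILY IS AT MOST `m*_G` -/
theorem small_cls (hu : P.p u ≠ 0) (full : ∀ M M', Disjoint M M' → P.CI Q (fun v => (a v, xr x M v)) (xr x M'))
    (hL : ∀ I, Fac (fun v => (a v, xr x I v, Q v)) (L I)) (hJ : J ⊆ J') (hR : ExtG P a x Q A J' G R) {k : ℕ}
    (hG : G.card < k) :
    ip P (L G) (fun v => (pk R J' (J' ∪ G) v, lall L J' G v)) (fun v => (lt L G v, xr x (J' ∪ G) v))
      (fun v => (xr x J v, Q v)) u ≤ mst (DC P a x Q L J u) id k (exS P a x Q u J J' G R) G := by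
  classical
  have hM : ∀ H : Finset ι, H ⊆ J' ∪ G → Fac (fun v => ((a v, xr x (J' ∪ G) v), (xr x J v, Q v))) (L H) := by
    intro H hH z w e
    simp only [Prod.mk.injEq] at e
    refine hL H z w ?_
    simp only [Prod.mk.injEq]
    exact ⟨e.1.1, xr_mono x hH z w e.1.2, e.2.2⟩
  have hpk : Fac (fun v => ((a v, xr x (J' ∪ G) v), (xr x J v, Q v))) (pk R J' (J' ∪ G)) := by
    refine fac_sel (fun I hI z w e => ?_)
    simp only [Prod.mk.injEq] at e
    refine hR.fac I hI.1 hI.2 z w ?_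
    simp only [Prod.mk.injEq]
    exact ⟨e.1.1, xr_mono x hI.2.1 z w e.1.2, e.2.2⟩
  have hlall : Fac (fun v => ((a v, xr x (J' ∪ G) v), (xr x J v, Q v))) (lall L J' G) :=
    fac_sel (fun H hH => hM H hH.1)
  have hlt : Fac (fun v => ((a v, xr x (J' ∪ G) v), (xr x J v, Q v))) (lt L G) :=
    fac_sel (fun H hH => hM H (hH.1.trans Finset.subset_union_right))
  rw [← ip_all hu full (hJ.trans Finset.subset_union_left) (hM G Finset.subset_union_right) (hpk.prod hlall) hlt]
  unfold mst mX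
  rw [I_cls hu full]
  have e1 : ip P (fun w => LC (DC P a x Q L J u) id G (a w, fun i => x i w))
      (fun w => (exT (fre (DC P a x Q L J u) id G) (exS P a x Q u J J' G R) (a w, fun i => x i w),
        Lf (LC (DC P a x Q L J u) id) (prev (LS id k) G) (a w, fun i => x i w)))
      (fun w => (Lf (LC (DC P a x Q L J u) id) G.ssubsets (a w, fun i => x i w), fun i => x i w))
      (fun v => (xr x J v, Q v)) u =
    ip P (L G) (fun w => (exT (G \ J) (exS P a x Q u J J' G R) (a w, fun i => x i w), Lf L (prev (LS id k) G) w))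
      (fun w => (Lf L G.ssubsets w, fun i => x i w)) (fun v => (xr x J v, Q v)) u := by
    refine ip_congr_supp hu (fun w hw hN => LC_cls hL G hw hN) (fun w hw hN => ?_) (fun w hw hN => ?_)
    · rw [Lf_cls hL _ hw hN, fre_DCs]
    · rw [Lf_cls hL _ hw hN]
  rw [e1]
  -- the family as a function of the extras, on the class
  have e2 : ip P (L G) (fun v => (pk R J' (J' ∪ G) v, lall L J' G v)) (fun v => (lt L G v, fun i => x i v))
      (fun v => (xr x J v, Q v)) u =
    ip P (L G) (fun v => (fun I : Finset ι => if J' ⊆ I ∧ I ⊂ J' ∪ G then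
        exT (G \ J) (exS P a x Q u J J' G R) (a v, fun i => x i v) ((I ∩ G) \ J) else none, lall L J' G v))
      (fun v => (lt L G v, fun i => x i v)) (fun v => (xr x J v, Q v)) u := by
    refine ip_congr_supp hu (fun _ _ _ => rfl) (fun w hw hN => ?_) (fun _ _ _ => rfl)
    have hQ : Q w = Q u := congrArg Prod.snd hN
    refine Prod.ext ?_ rfl
    funext I
    show pk R J' (J' ∪ G) w I = if J' ⊆ I ∧ I ⊂ J' ∪ G then
      exT (G \ J) (exS P a x Q u J J' G R) (a w, fun i => x i w) ((I ∩ G) \ J) else none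
    unfold pk sel
    by_cases hI : J' ⊆ I ∧ I ⊂ J' ∪ G
    · obtain ⟨h1, h2⟩ := exS_cls hJ hR hI.1 hI.2 hw hQ
      rw [if_pos hI, if_pos hI]
      unfold exT
      rw [if_pos h1, h2]
    · rw [if_neg hI, if_neg hI]
  rw [e2]
  have e3 : ip P (L G) (fun v => (fun I : Finset ι => if J' ⊆ I ∧ I ⊂ J' ∪ G then
        exT (G \ J) (exS P a x Q u J J' G R) (a v, fun i => x i v) ((I ∩ G) \ J) else none, lall L J' G v))
      (fun v => (lt L G v, fun i => x i v)) (fun v => (xr x J v, Q v)) u =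
    ip P (L G) (fun v => (fun I : Finset ι => if J' ⊆ I ∧ I ⊂ J' ∪ G then
        exT (G \ J) (exS P a x Q u J J' G R) (a v, fun i => x i v) ((I ∩ G) \ J) else none, lall L J' G v))
      (fun v => (Lf L G.ssubsets v, fun i => x i v)) (fun v => (xr x J v, Q v)) u := by
    refine ip_congr P (Fac.fst _ _) (Fac.fst _ _) ?_ (Fac.refl _) (Fac.fst _ _) (Fac.fst _ _) ?_ (Fac.refl _) u
    · intro v z e
      simp only [Prod.mk.injEq] at e ⊢
      exact ⟨Lf_sel L (fun H hH => Finset.mem_ssubsets.1 hH) v z e.1.1, e.1.2⟩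
    · intro v z e
      simp only [Prod.mk.injEq] at e ⊢
      exact ⟨sel_Lf L (fun H hH => Finset.mem_ssubsets.2 hH) v z e.1.1, e.1.2⟩
  rw [e3]
  refine ip_mono_right P _ _ _ ?_ hu
  intro v z e
  simp only [Prod.mk.injEq] at e ⊢
  refine ⟨?_, ?_⟩
  · funext I
    rw [e.1.1]
  · refine sel_eq.2 (fun H hH => ?_)
    refine Lf_one L (S := prev (LS id k) G) (J := H) ?_ v z e.1.2
    rw [mem_prev, mem_LS]
    exact ⟨⟨by omega, Function.injective_id.injOn⟩, hH.2.1, hH.2.2⟩

end small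

end

end Pool.Agent.GMM
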