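import Mathlib

/-!
# GMM/Num: the numbers of CM.6 (row CM, general m; helper50)

`k = m - 1` vertices known, sizes `s < k`, `j = |J| < k`, `r = |B| <= k`; `X >= 2` a natural number above `h`, `Jn`, `1/rho`;
`c` = slack exponent (all absolute constants go into `X ^ c`).  Everything is a power of `X`:
* `w s` prices, `hh s` budgets `h_s`, `aa s` alphabets `a_s`, `AA s` package alphabet, `nu s` collection size for `r = 0`,
  `Nb s j` number of copies in the case `B = ∅`, `nu' s j = nu s * Nb s j` collection size for `r >= 1`, `Nk s j i` keys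
  (level `i - 1`), `Ex s j` extras, `be s j r` bound of `E m*_G`, `del s j = be s j 0`, `del' s j = be s j k`, `ep s j` bound
  of `e_1`, `e_2`.
* `nums_exist` : for all `k`, `c` there is `C` such that for all `X >= 2` there is a `Nums k c X` with everything between
  `X ^ (-C)` and `X ^ C`.
-/

set_option autoImplicit false

namespace Pool.Agent.GMM

/-- the numbers of CM.6 -/
structure Nums (k c X : ℕ) where
  w : ℕ → ℝ
  hh : ℕ → ℝ
  aa : ℕ → ℝ
  AA : ℕ → ℝ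
  nu : ℕ → ℕ
  Nb : ℕ → ℕ → ℕ
  Nk : ℕ → ℕ → ℕ → ℕ
  Ex : ℕ → ℕ → ℝ
  be : ℕ → ℕ → ℕ → ℝ
  ep : ℕ → ℕ → ℝ

namespace Nums

variable {k c X : ℕ} (n : Nums k c X)

/-- collection size for `r >= 1` -/
def nu' (s j : ℕ) : ℕ := n.nu s * n.Nb s j

/-- bound at `B = ∅` -/
def del (s j : ℕ) : ℝ := n.be s j 0

/-- bound of `phi_G` at alive vertices -/
def del' (s j : ℕ) : ℝ := n.be s j k

/-- the inequalities -/
structure OK (n : Nums k c X) (C : ℕ) : Prop where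
  w_zero : n.w 0 = 1
  w_pos : ∀ s, 0 < n.w s
  w_mono : ∀ s t, s ≤ t → n.w s ≤ n.w t
  hh_ge : ∀ s, s < k → (X : ℝ) + X * (n.w (k - 1) / n.w s) ≤ n.hh s
  hh_one : ∀ s, s < k → 1 ≤ n.hh s
  aa_ge : ∀ s, s < k → 2 * (X : ℝ) ≤ n.aa s
  AA_pos : ∀ s, s < k → 1 ≤ n.AA s
  aa_AA : ∀ s s', s < s' → s' < k → 4 * n.AA s' ≤ n.aa s
  aa_anti : ∀ s s', s ≤ s' → s' < k → n.aa s' ≤ n.aa s
  fat : ∀ s s' j, s < s' → s' < k → j < k →
    (X : ℝ) ^ c * n.aa s' ^ 2 * (4 * n.hh s) ≤ n.del' s' j ^ 2 * n.aa s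
  fat_one : ∀ s, s < k → (X : ℝ) ^ c * (4 * n.hh s) ≤ n.aa s
  zeta : ∀ s j, 1 ≤ s → s < k → j < k → 2 ^ (k + 1) * n.AA s * (n.w (s - 1) / n.w s) ≤ n.del' s j
  Ex_one : ∀ s j, s < k → j < k → 1 ≤ n.Ex s j
  Ex_AA : ∀ s j, s < k → j < k → (X : ℝ) ^ c * (n.nu' s j : ℝ) ^ k * (n.aa s + n.Ex s j) ≤ n.AA s
  Ex_Ex : ∀ s j j', s < k → j < k → j' < j →
    (X : ℝ) ^ c * (n.nu' s j : ℝ) ^ k * (n.aa s + n.Ex s j) ≤ n.Ex s j'
  be_pos : ∀ s j r, s < k → j < k → 0 < n.be s j r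
  be_le_one : ∀ s j r, s < k → j < k → n.be s j r ≤ 1
  be_anti : ∀ s j r r', s < k → j < k → r ≤ r' → n.be s j r' ≤ n.be s j r
  be_step : ∀ s j r, s < k → j < k → (X : ℝ) ^ c * (n.nu' s j : ℝ) ^ k * n.be s j (r + 1) ≤ n.be s j r
  be_anti_j : ∀ s j j', s < k → j < k → j' ≤ j → n.del s j' ≤ n.del s j
  base : ∀ s j, s < k → j < k → (X : ℝ) ^ c * n.aa s ≤ n.del s j * n.Nb s j
  keys : ∀ s j i, s < k → j < k → i ≤ k →
    (X : ℝ) ^ c * ((n.nu' s j : ℝ) * n.Nk s j (i + 1)) ^ k * (n.aa s + n.Ex s j) ≤ n.ep s j * n.Nk s j i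
  keys_anti : ∀ s j i i', s < k → j < k → i ≤ i' → n.Nk s j i' ≤ n.Nk s j i
  keys_top : ∀ s j, s < k → j < k → n.Nk s j (k + 1) = 1
  keys_pos : ∀ s j i, s < k → j < k → 1 ≤ n.Nk s j i
  nu_pos : ∀ s, s < k → 1 ≤ n.nu s
  nu_ge : ∀ s, s < k → (X : ℝ) ^ c ≤ n.nu s
  Nb_pos : ∀ s j, s < k → j < k → 1 ≤ n.Nb s j
  ep_pos : ∀ s j, s < k → j < k → 0 < n.ep s j
  ep_le : ∀ s j, s < k → j < k → (X : ℝ) ^ c * n.aa s ^ 4 * n.ep s j ≤ n.del' s j ^ 4
  low_m : ∀ s s' j j', s' < s → s < k → j < k → j' < k →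
    (X : ℝ) ^ c * ((n.nu' s j : ℝ) * n.Nk s j 0) ^ k * n.del s' j' ≤ n.ep s j
  low_nu : ∀ s s' j, s' < s → s < k → j < k → (X : ℝ) ^ c * ((n.nu' s j : ℝ) * n.Nk s j 0) ≤ n.nu s'
  dyn : ∀ s j j', s < k → j < k → j' < j → (X : ℝ) ^ c * n.hh s * n.del s j' ≤ n.del' s j ^ 2
  small : ∀ s j, s < k → j < k → (X : ℝ) ^ c * n.hh s * n.del s j ≤ 1
  hh_le : ∀ s, s < k → n.hh s ≤ (X : ℝ) ^ C
  aa_le : ∀ s, s < k → n.aa s ≤ (X : ℝ) ^ C
  AA_le : ∀ s, s < k → n.AA s ≤ (X : ℝ) ^ C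
  Ex_le : ∀ s j, s < k → j < k → n.Ex s j ≤ (X : ℝ) ^ C
  nu_le : ∀ s, s < k → (n.nu s : ℝ) ≤ (X : ℝ) ^ C
  nu'_le : ∀ s j, s < k → j < k → (n.nu' s j : ℝ) ≤ (X : ℝ) ^ C
  Nk_le : ∀ s j i, s < k → j < k → (n.Nk s j i : ℝ) ≤ (X : ℝ) ^ C
  be_ge : ∀ s j r, s < k → j < k → r ≤ k → 1 ≤ (X : ℝ) ^ C * n.be s j r
  ep_ge : ∀ s j, s < k → j < k → 1 ≤ (X : ℝ) ^ C * n.ep s j

end Nums

/-! ## the exponents -/

section Exp

variable (k c : ℕ)

/-- exponent of `nu'` -/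
def eP (M m : ℕ) : ℕ := M + (c + 2 * m)

/-- exponent of `1/be` -/
def eB (M m r : ℕ) : ℕ := m + r * (c + k * eP c M m)

/-- exponent of `1/ep` -/
def eE (M m : ℕ) : ℕ := 4 * eB k c M m k + c + 4 * m

/-- exponents of the keys -/
def eL (M m : ℕ) : ℕ → ℕ
  | 0 => 0
  | u + 1 => c + k * (eP c M m + eL M m u) + (m + 1) + eE k c M m

/-- next value of the state in the recursion over `j` -/
def eN (M m : ℕ) : ℕ :=
  c + k * (eP c M m + eL k c M m (k + 1)) + (eP c M m + eL k c M m (k + 1)) + eE k c M m + 2 * eB k c M m k + M + m + 1 + c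

/-- exponent of the alphabet `aa` -/
def eA (M : ℕ) : ℕ := 5 * M + 2 * c + 2

/-- the state in the recursion over `j` -/
def em (M : ℕ) : ℕ → ℕ
  | 0 => eA c M + M + c
  | v + 1 => eN k c M (em M v)

/-- exponent of `w_s / w_(s-1)` -/
def eG (M : ℕ) : ℕ := k + 1 + 2 * em k c M k

/-- the state in the recursion over the sizes -/
def eM : ℕ → ℕ
  | 0 => c + 3
  | u + 1 => eM u + eG k c (eM u) + em k c (eM u) k + eA c (eM u) + c

/-- exponent of the budget (without `2 X`) -/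
def eT (u : ℕ) : ℕ := ∑ i ∈ Finset.range u, eG k c (eM k c i)

theorem eL_mono (M m : ℕ) {u v : ℕ} (h : u ≤ v) : eL k c M m u ≤ eL k c M m v := by
  have hs : ∀ u, eL k c M m u ≤ eL k c M m (u + 1) := by
    intro u
    induction u with
    | zero => exact Nat.zero_le _
    | succ u ih =>
      show c + k * (eP c M m + eL k c M m u) + (m + 1) + eE k c M m ≤
        c + k * (eP c M m + eL k c M m (u + 1)) + (m + 1) + eE k c M m
      have := Nat.mul_le_mul_left k (Nat.add_le_add_left ih (eP c M m))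
      omega
  exact monotone_nat_of_le_succ hs h

theorem em_succ (M v : ℕ) : em k c M (v + 1) = eN k c M (em k c M v) := rfl

theorem em_le_succ (M v : ℕ) : em k c M v ≤ em k c M (v + 1) := by
  rw [em_succ]
  unfold eN
  omega

theorem em_mono (M : ℕ) {u v : ℕ} (h : u ≤ v) : em k c M u ≤ em k c M v :=
  monotone_nat_of_le_succ (em_le_succ k c M) h

theorem eM_le_succ (u : ℕ) : eM k c u + eG k c (eM k c u) + em k c (eM k c u) k + eA c (eM k c u) + c ≤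
    eM k c (u + 1) := le_rfl

theorem eM_mono {u v : ℕ} (h : u ≤ v) : eM k c u ≤ eM k c v :=
  monotone_nat_of_le_succ (fun u => by have := eM_le_succ k c u; omega) h

theorem eM_lt {u v : ℕ} (h : u < v) : eM k c u + eG k c (eM k c u) + em k c (eM k c u) k + eA c (eM k c u) + c ≤
    eM k c v := (eM_le_succ k c u).trans (eM_mono k c h)

theorem eT_succ (u : ℕ) : eT k c (u + 1) = eT k c u + eG k c (eM k c u) := Finset.sum_range_succ _ _

theorem eT_mono {u v : ℕ} (h : u ≤ v) : eT k c u ≤ eT k c v :=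
  monotone_nat_of_le_succ (fun u => by rw [eT_succ]; omega) h

theorem eT_le (u : ℕ) : eT k c u + c + 3 ≤ eM k c u := by
  induction u with
  | zero => show 0 + c + 3 ≤ c + 3; omega
  | succ u ih =>
    rw [eT_succ]
    have := eM_le_succ k c u
    omega

/-- one step of the recursion over `j` -/
theorem em_step (M : ℕ) {v v' : ℕ} (h : v < v') : eN k c M (em k c M v) ≤ em k c M v' := by
  rw [← em_succ]
  exact em_mono k c M h

theorem eA_le_em (M v : ℕ) : eA c M + M + c ≤ em k c M v := em_mono k c M (Nat.zero_le v)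

end Exp

/-! ## powers -/

section Pw

variable {X : ℝ}

theorem pw_le (h2 : 2 ≤ X) {a b : ℕ} (h : a ≤ b) : X ^ a ≤ X ^ b := pow_le_pow_right₀ (by linarith) h

theorem pw_pos (h2 : 2 ≤ X) (a : ℕ) : 0 < X ^ a := pow_pos (by linarith) a

theorem pw_one (h2 : 2 ≤ X) (a : ℕ) : 1 ≤ X ^ a := one_le_pow₀ (by linarith)

theorem two_pw (h2 : 2 ≤ X) (a : ℕ) : (2 : ℝ) ^ a ≤ X ^ a := pow_le_pow_left₀ (by norm_num) h2 a

/-- `X^a X^(-b) <= X^(-d) X^e` -/
theorem pw_ineq (h2 : 2 ≤ X) {a b d e : ℕ} (h : a + d ≤ b + e) : X ^ a * (X ^ b)⁻¹ ≤ (X ^ d)⁻¹ * X ^ e := by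
  have hb := pw_pos h2 b
  have hd := pw_pos h2 d
  rw [← div_eq_mul_inv, div_le_iff₀ hb, mul_assoc, ← div_eq_inv_mul, le_div_iff₀ hd, ← pow_add, ← pow_add]
  exact pw_le h2 (by omega)

/-- `X^a X^(-b) <= X^(-d)` -/
theorem pw_ineq' (h2 : 2 ≤ X) {a b d : ℕ} (h : a + d ≤ b) : X ^ a * (X ^ b)⁻¹ ≤ (X ^ d)⁻¹ := by
  have := pw_ineq h2 (a := a) (b := b) (d := d) (e := 0) (by omega)
  rwa [pow_zero, mul_one] at this

end Pw

/-- the numbers -/
noncomputable def numsOf (k c X : ℕ) : Nums k c X where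
  w s := (X : ℝ) ^ eT k c (k - 1) * ((X : ℝ) ^ eT k c (k - 1 - s))⁻¹
  hh s := 2 * X * (X : ℝ) ^ eT k c (k - 1 - s)
  aa s := (X : ℝ) ^ eA c (eM k c (k - 1 - s))
  AA s := (X : ℝ) ^ em k c (eM k c (k - 1 - s)) k
  nu s := X ^ eM k c (k - 1 - s)
  Nb s j := X ^ (c + 2 * em k c (eM k c (k - 1 - s)) (k - 1 - j))
  Nk s j i := X ^ eL k c (eM k c (k - 1 - s)) (em k c (eM k c (k - 1 - s)) (k - 1 - j)) (k + 1 - i)
  Ex s j := (X : ℝ) ^ em k c (eM k c (k - 1 - s)) (k - 1 - j)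
  be s j r := ((X : ℝ) ^ eB k c (eM k c (k - 1 - s)) (em k c (eM k c (k - 1 - s)) (k - 1 - j)) r)⁻¹
  ep s j := ((X : ℝ) ^ eE k c (eM k c (k - 1 - s)) (em k c (eM k c (k - 1 - s)) (k - 1 - j)))⁻¹

/-- the common exponent -/
def eC (k c : ℕ) : ℕ := eM k c (k + 1) + 2

section Main

variable {k c X : ℕ}

theorem nu'_eq (s j : ℕ) : (numsOf k c X).nu' s j =
    X ^ eP c (eM k c (k - 1 - s)) (em k c (eM k c (k - 1 - s)) (k - 1 - j)) := by
  show X ^ _ * X ^ _ = _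
  rw [← pow_add]
  rfl

/-- the exponents at `(s, j)`, all facts in one place -/
theorem facts (k c : ℕ) {s j : ℕ} (hs : s < k) (hj : j < k) :
    let M := eM k c (k - 1 - s)
    let m := em k c M (k - 1 - j)
    eN k c M m ≤ em k c M k ∧ eA c M + M + c ≤ m ∧ m ≤ em k c M k ∧ eT k c (k - 1 - s) + c + 3 ≤ M ∧
      M + eG k c M + em k c M k + eA c M + c ≤ eM k c k := by
  intro M m
  refine ⟨em_step k c M (by omega), eA_le_em k c M _, em_mono k c M (by omega), eT_le k c _, eM_lt k c (by omega)⟩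

theorem nums_ok (hk : 1 ≤ k) (hX : 2 ≤ X) : (numsOf k c X).OK (eC k c) := by
  have h2 : (2 : ℝ) ≤ (X : ℝ) := by exact_mod_cast hX
  have h0 : (0 : ℝ) < (X : ℝ) := by linarith
  have hC : eM k c k + 2 ≤ eC k c := by
    have : eM k c k ≤ eM k c (k + 1) := eM_mono k c (Nat.le_succ k)
    unfold eC
    omega
  have h4 : (4 : ℝ) ≤ (X : ℝ) ^ 2 := by nlinarith
  have h2X : 2 * (X : ℝ) ≤ (X : ℝ) ^ 2 := by nlinarith
  have hNk : ∀ s j i, ((numsOf k c X).Nk s j i : ℝ) =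
      (X : ℝ) ^ eL k c (eM k c (k - 1 - s)) (em k c (eM k c (k - 1 - s)) (k - 1 - j)) (k + 1 - i) := by
    intro s j i
    show ((X ^ _ : ℕ) : ℝ) = _
    rw [Nat.cast_pow]
  have hNb : ∀ s j, ((numsOf k c X).Nb s j : ℝ) = (X : ℝ) ^ (c + 2 * em k c (eM k c (k - 1 - s)) (k - 1 - j)) := by
    intro s j
    show ((X ^ _ : ℕ) : ℝ) = _
    rw [Nat.cast_pow]
  have hnu : ∀ s, ((numsOf k c X).nu s : ℝ) = (X : ℝ) ^ eM k c (k - 1 - s) := by
    intro s
    show ((X ^ _ : ℕ) : ℝ) = _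
    rw [Nat.cast_pow]
  have hnu' : ∀ s j, ((numsOf k c X).nu' s j : ℝ) =
      (X : ℝ) ^ eP c (eM k c (k - 1 - s)) (em k c (eM k c (k - 1 - s)) (k - 1 - j)) := by
    intro s j
    rw [nu'_eq, Nat.cast_pow]
  have hsum : ∀ s j, s < k → j < k → (numsOf k c X).aa s + (numsOf k c X).Ex s j ≤
      (X : ℝ) ^ (em k c (eM k c (k - 1 - s)) (k - 1 - j) + 1) := by
    intro s j hs hj
    obtain ⟨f1, f2, f3, f4, f5⟩ := facts k c hs hj
    show (X : ℝ) ^ eA c (eM k c (k - 1 - s)) + (X : ℝ) ^ em k c (eM k c (k - 1 - s)) (k - 1 - j) ≤ _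
    have a := pw_le h2 (show eA c (eM k c (k - 1 - s)) ≤ em k c (eM k c (k - 1 - s)) (k - 1 - j) by omega)
    have b := pw_pos h2 (em k c (eM k c (k - 1 - s)) (k - 1 - j))
    rw [pow_succ]
    nlinarith
  constructor
  case w_zero =>
    show (X : ℝ) ^ eT k c (k - 1) * ((X : ℝ) ^ eT k c (k - 1 - 0))⁻¹ = 1
    rw [Nat.sub_zero]
    exact mul_inv_cancel₀ (pw_pos h2 _).ne'
  case w_pos =>
    intro s
    exact mul_pos (pw_pos h2 _) (inv_pos.2 (pw_pos h2 _))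
  case w_mono =>
    intro s t hst
    refine mul_le_mul_of_nonneg_left ?_ (pw_pos h2 _).le
    exact inv_anti₀ (pw_pos h2 _) (pw_le h2 (eT_mono k c (by omega)))
  case hh_ge =>
    intro s hs
    show (X : ℝ) + X * (((X : ℝ) ^ eT k c (k - 1) * ((X : ℝ) ^ eT k c (k - 1 - (k - 1)))⁻¹) /
      ((X : ℝ) ^ eT k c (k - 1) * ((X : ℝ) ^ eT k c (k - 1 - s))⁻¹)) ≤ 2 * X * (X : ℝ) ^ eT k c (k - 1 - s)
    have e1 : eT k c (k - 1 - (k - 1)) = 0 := by rw [Nat.sub_self]; rfl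
    have a := pw_pos h2 (eT k c (k - 1))
    have b := pw_pos h2 (eT k c (k - 1 - s))
    have e2 : ((X : ℝ) ^ eT k c (k - 1) * ((X : ℝ) ^ eT k c (k - 1 - (k - 1)))⁻¹) /
      ((X : ℝ) ^ eT k c (k - 1) * ((X : ℝ) ^ eT k c (k - 1 - s))⁻¹) = (X : ℝ) ^ eT k c (k - 1 - s) := by
      rw [e1, pow_zero, inv_one, mul_one]
      field_simp
    rw [e2]
    have d := pw_one h2 (eT k c (k - 1 - s))
    nlinarith
  case hh_one =>
    intro s hs
    show 1 ≤ 2 * (X : ℝ) * (X : ℝ) ^ eT k c (k - 1 - s)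
    have d := pw_one h2 (eT k c (k - 1 - s))
    nlinarith
  case aa_ge =>
    intro s hs
    refine h2X.trans (pw_le h2 ?_)
    unfold eA
    omega
  case AA_pos =>
    intro s hs
    exact pw_one h2 _
  case aa_AA =>
    intro s s' hss hs'
    show 4 * (X : ℝ) ^ em k c (eM k c (k - 1 - s')) k ≤ (X : ℝ) ^ eA c (eM k c (k - 1 - s))
    have h := eM_lt k c (show k - 1 - s' < k - 1 - s by omega)
    have a := pw_pos h2 (em k c (eM k c (k - 1 - s')) k)
    calc 4 * (X : ℝ) ^ em k c (eM k c (k - 1 - s')) k ≤ (X : ℝ) ^ 2 * (X : ℝ) ^ em k c (eM k c (k - 1 - s')) k :=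
          mul_le_mul_of_nonneg_right h4 a.le
      _ = (X : ℝ) ^ (2 + em k c (eM k c (k - 1 - s')) k) := (pow_add _ _ _).symm
      _ ≤ _ := pw_le h2 (by unfold eA at h ⊢; omega)
  case aa_anti =>
    intro s s' hss hs'
    refine pw_le h2 ?_
    have h := eM_mono k c (show k - 1 - s' ≤ k - 1 - s by omega)
    unfold eA
    omega
  case fat =>
    intro s s' j hss hs' hj
    have h := eM_lt k c (show k - 1 - s' < k - 1 - s by omega)
    obtain ⟨f1, f2, f3, f4, f5⟩ := facts k c hs' hj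
    have f6 := eT_le k c (k - 1 - s)
    show (X : ℝ) ^ c * ((X : ℝ) ^ eA c (eM k c (k - 1 - s'))) ^ 2 * (4 * (2 * X * (X : ℝ) ^ eT k c (k - 1 - s))) ≤
      (((X : ℝ) ^ eB k c (eM k c (k - 1 - s')) (em k c (eM k c (k - 1 - s')) (k - 1 - j)) k)⁻¹) ^ 2 *
        (X : ℝ) ^ eA c (eM k c (k - 1 - s))
    set M := eM k c (k - 1 - s')
    set m := em k c M (k - 1 - j)
    set M1 := eM k c (k - 1 - s)
    have f7 : 2 * eB k c M m k ≤ em k c M k := by
      refine le_trans ?_ f1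
      unfold eN
      omega
    calc (X : ℝ) ^ c * ((X : ℝ) ^ eA c M) ^ 2 * (4 * (2 * X * (X : ℝ) ^ eT k c (k - 1 - s)))
        = (X : ℝ) ^ c * ((X : ℝ) ^ eA c M) ^ 2 * (X : ℝ) ^ eT k c (k - 1 - s) * (4 * (2 * X)) := by ring
      _ ≤ (X : ℝ) ^ c * ((X : ℝ) ^ eA c M) ^ 2 * (X : ℝ) ^ eT k c (k - 1 - s) * ((X : ℝ) ^ 2 * (X : ℝ) ^ 2) := by
          refine mul_le_mul_of_nonneg_left (mul_le_mul h4 h2X (by positivity) (by positivity)) (by positivity)
      _ = (X : ℝ) ^ (c + eA c M * 2 + eT k c (k - 1 - s) + (2 + 2)) := by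
          simp only [pow_add, pow_mul]
      _ ≤ _ := by
          rw [inv_pow, ← pow_mul]
          have := pw_ineq h2 (a := c + eA c M * 2 + eT k c (k - 1 - s) + (2 + 2)) (b := 0) (d := eB k c M m k * 2)
            (e := eA c M1) (by unfold eA at h ⊢; omega)
          rwa [pow_zero, inv_one, mul_one] at this
  case fat_one =>
    intro s hs
    have f6 := eT_le k c (k - 1 - s)
    show (X : ℝ) ^ c * (4 * (2 * X * (X : ℝ) ^ eT k c (k - 1 - s))) ≤ (X : ℝ) ^ eA c (eM k c (k - 1 - s))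
    calc (X : ℝ) ^ c * (4 * (2 * X * (X : ℝ) ^ eT k c (k - 1 - s)))
        = (X : ℝ) ^ c * (X : ℝ) ^ eT k c (k - 1 - s) * (4 * (2 * X)) := by ring
      _ ≤ (X : ℝ) ^ c * (X : ℝ) ^ eT k c (k - 1 - s) * ((X : ℝ) ^ 2 * (X : ℝ) ^ 2) := by
          refine mul_le_mul_of_nonneg_left (mul_le_mul h4 h2X (by positivity) (by positivity)) (by positivity)
      _ = (X : ℝ) ^ (c + eT k c (k - 1 - s) + (2 + 2)) := by
          simp only [pow_add]
      _ ≤ _ := pw_le h2 (by unfold eA; omega)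
  case zeta =>
    intro s j hs1 hs hj
    obtain ⟨f1, f2, f3, f4, f5⟩ := facts k c hs hj
    show 2 ^ (k + 1) * (X : ℝ) ^ em k c (eM k c (k - 1 - s)) k *
      (((X : ℝ) ^ eT k c (k - 1) * ((X : ℝ) ^ eT k c (k - 1 - (s - 1)))⁻¹) /
        ((X : ℝ) ^ eT k c (k - 1) * ((X : ℝ) ^ eT k c (k - 1 - s))⁻¹)) ≤
      ((X : ℝ) ^ eB k c (eM k c (k - 1 - s)) (em k c (eM k c (k - 1 - s)) (k - 1 - j)) k)⁻¹
    have e1 : k - 1 - (s - 1) = (k - 1 - s) + 1 := by omega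
    rw [e1, eT_succ]
    set M := eM k c (k - 1 - s)
    set m := em k c M (k - 1 - j)
    have f7 : 2 * eB k c M m k ≤ em k c M k := by
      refine le_trans ?_ f1
      unfold eN
      omega
    have a := pw_pos h2 (eT k c (k - 1))
    have b := pw_pos h2 (eT k c (k - 1 - s))
    have g := pw_pos h2 (eG k c M)
    have e2 : ((X : ℝ) ^ eT k c (k - 1) * ((X : ℝ) ^ (eT k c (k - 1 - s) + eG k c M))⁻¹) /
        ((X : ℝ) ^ eT k c (k - 1) * ((X : ℝ) ^ eT k c (k - 1 - s))⁻¹) = ((X : ℝ) ^ eG k c M)⁻¹ := by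
      rw [pow_add]
      field_simp
    rw [e2]
    calc 2 ^ (k + 1) * (X : ℝ) ^ em k c M k * ((X : ℝ) ^ eG k c M)⁻¹
        ≤ (X : ℝ) ^ (k + 1) * (X : ℝ) ^ em k c M k * ((X : ℝ) ^ eG k c M)⁻¹ := by
          refine mul_le_mul_of_nonneg_right (mul_le_mul_of_nonneg_right (two_pw h2 _) (pw_pos h2 _).le) (by positivity)
      _ = (X : ℝ) ^ (k + 1 + em k c M k) * ((X : ℝ) ^ eG k c M)⁻¹ := by rw [← pow_add]
      _ ≤ _ := pw_ineq' h2 (by unfold eG; omega)
  case Ex_one =>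
    intro s j _ _
    exact pw_one h2 _
  case Ex_AA =>
    intro s j hs hj
    obtain ⟨f1, f2, f3, f4, f5⟩ := facts k c hs hj
    rw [hnu']
    show (X : ℝ) ^ c * ((X : ℝ) ^ eP c (eM k c (k - 1 - s)) (em k c (eM k c (k - 1 - s)) (k - 1 - j))) ^ k * _ ≤
      (X : ℝ) ^ em k c (eM k c (k - 1 - s)) k
    refine (mul_le_mul_of_nonneg_left (hsum s j hs hj) (by positivity)).trans ?_
    rw [← pow_mul, ← pow_add, ← pow_add]
    refine pw_le h2 (le_trans ?_ f1)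
    unfold eN
    have := Nat.mul_le_mul_left k (Nat.le_add_right (eP c (eM k c (k - 1 - s)) (em k c (eM k c (k - 1 - s))
      (k - 1 - j))) (eL k c (eM k c (k - 1 - s)) (em k c (eM k c (k - 1 - s)) (k - 1 - j)) (k + 1)))
    rw [Nat.mul_comm k (eP _ _ _)] at this
    omega
  case Ex_Ex =>
    intro s j j' hs hj hj'
    obtain ⟨f1, f2, f3, f4, f5⟩ := facts k c hs hj
    have f8 := em_step k c (eM k c (k - 1 - s)) (show k - 1 - j < k - 1 - j' by omega)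
    rw [hnu']
    show (X : ℝ) ^ c * ((X : ℝ) ^ eP c (eM k c (k - 1 - s)) (em k c (eM k c (k - 1 - s)) (k - 1 - j))) ^ k * _ ≤
      (X : ℝ) ^ em k c (eM k c (k - 1 - s)) (k - 1 - j')
    refine (mul_le_mul_of_nonneg_left (hsum s j hs hj) (by positivity)).trans ?_
    rw [← pow_mul, ← pow_add, ← pow_add]
    refine pw_le h2 (le_trans ?_ f8)
    unfold eN
    have := Nat.mul_le_mul_left k (Nat.le_add_right (eP c (eM k c (k - 1 - s)) (em k c (eM k c (k - 1 - s))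
      (k - 1 - j))) (eL k c (eM k c (k - 1 - s)) (em k c (eM k c (k - 1 - s)) (k - 1 - j)) (k + 1)))
    rw [Nat.mul_comm k (eP _ _ _)] at this
    omega
  case be_pos =>
    intro s j r _ _
    exact inv_pos.2 (pw_pos h2 _)
  case be_le_one =>
    intro s j r _ _
    exact inv_le_one_of_one_le₀ (pw_one h2 _)
  case be_anti =>
    intro s j r r' _ _ hr
    refine inv_anti₀ (pw_pos h2 _) (pw_le h2 ?_)
    unfold eB
    have := Nat.mul_le_mul_right (c + k * eP c (eM k c (k - 1 - s)) (em k c (eM k c (k - 1 - s)) (k - 1 - j))) hr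
    omega
  case be_step =>
    intro s j r hs hj
    rw [hnu']
    show (X : ℝ) ^ c * ((X : ℝ) ^ eP c (eM k c (k - 1 - s)) (em k c (eM k c (k - 1 - s)) (k - 1 - j))) ^ k *
      ((X : ℝ) ^ eB k c (eM k c (k - 1 - s)) (em k c (eM k c (k - 1 - s)) (k - 1 - j)) (r + 1))⁻¹ ≤
      ((X : ℝ) ^ eB k c (eM k c (k - 1 - s)) (em k c (eM k c (k - 1 - s)) (k - 1 - j)) r)⁻¹
    rw [← pow_mul, ← pow_add]
    refine pw_ineq' h2 ?_
    unfold eB
    rw [Nat.add_mul r 1, Nat.one_mul, Nat.mul_comm k (eP _ _ _)]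
    omega
  case be_anti_j =>
    intro s j j' hs hj hj'
    refine inv_anti₀ (pw_pos h2 _) (pw_le h2 ?_)
    unfold eB
    have := em_mono k c (eM k c (k - 1 - s)) (show k - 1 - j ≤ k - 1 - j' by omega)
    omega
  case base =>
    intro s j hs hj
    obtain ⟨f1, f2, f3, f4, f5⟩ := facts k c hs hj
    rw [hNb]
    show (X : ℝ) ^ c * (X : ℝ) ^ eA c (eM k c (k - 1 - s)) ≤
      ((X : ℝ) ^ eB k c (eM k c (k - 1 - s)) (em k c (eM k c (k - 1 - s)) (k - 1 - j)) 0)⁻¹ *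
        (X : ℝ) ^ (c + 2 * em k c (eM k c (k - 1 - s)) (k - 1 - j))
    rw [← pow_add]
    have := pw_ineq h2 (a := c + eA c (eM k c (k - 1 - s))) (b := 0)
      (d := eB k c (eM k c (k - 1 - s)) (em k c (eM k c (k - 1 - s)) (k - 1 - j)) 0)
      (e := c + 2 * em k c (eM k c (k - 1 - s)) (k - 1 - j)) (by unfold eB; omega)
    rwa [pow_zero, inv_one, mul_one] at this
  case keys =>
    intro s j i hs hj hi
    obtain ⟨f1, f2, f3, f4, f5⟩ := facts k c hs hj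
    rw [hnu', hNk, hNk]
    show (X : ℝ) ^ c * _ * _ ≤ ((X : ℝ) ^ eE k c (eM k c (k - 1 - s)) (em k c (eM k c (k - 1 - s)) (k - 1 - j)))⁻¹ * _
    refine (mul_le_mul_of_nonneg_left (hsum s j hs hj) (by positivity)).trans ?_
    rw [← pow_add, ← pow_mul, ← pow_add, ← pow_add, show k + 1 - i = (k + 1 - (i + 1)) + 1 by omega]
    set M := eM k c (k - 1 - s)
    set m := em k c M (k - 1 - j)
    set u := k + 1 - (i + 1)
    have := pw_ineq h2 (a := c + (eP c M m + eL k c M m u) * k + (m + 1)) (b := 0)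
      (d := eE k c M m) (e := eL k c M m (u + 1)) ?_
    · rwa [pow_zero, inv_one, mul_one] at this
    · show c + (eP c M m + eL k c M m u) * k + (m + 1) + eE k c M m ≤
        0 + (c + k * (eP c M m + eL k c M m u) + (m + 1) + eE k c M m)
      rw [Nat.mul_comm k (eP c M m + eL k c M m u)]
      omega
  case keys_anti =>
    intro s j i i' _ _ hi
    exact Nat.pow_le_pow_right (by omega) (eL_mono k c _ _ (by omega))
  case keys_top =>
    intro s j _ _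
    show X ^ eL k c _ _ (k + 1 - (k + 1)) = 1
    rw [Nat.sub_self]
    rfl
  case keys_pos =>
    intro s j i _ _
    exact Nat.one_le_pow _ _ (by omega)
  case nu_pos =>
    intro s _
    exact Nat.one_le_pow _ _ (by omega)
  case nu_ge =>
    intro s _
    rw [hnu]
    refine pw_le h2 ?_
    have h1 : eM k c 0 ≤ eM k c (k - 1 - s) := eM_mono k c (Nat.zero_le _)
    have h2 : eM k c 0 = c + 3 := rfl
    omega
  case Nb_pos =>
    intro s j _ _
    exact Nat.one_le_pow _ _ (by omega)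
  case ep_pos =>
    intro s j _ _
    exact inv_pos.2 (pw_pos h2 _)
  case ep_le =>
    intro s j hs hj
    obtain ⟨f1, f2, f3, f4, f5⟩ := facts k c hs hj
    show (X : ℝ) ^ c * ((X : ℝ) ^ eA c (eM k c (k - 1 - s))) ^ 4 *
      ((X : ℝ) ^ eE k c (eM k c (k - 1 - s)) (em k c (eM k c (k - 1 - s)) (k - 1 - j)))⁻¹ ≤
      (((X : ℝ) ^ eB k c (eM k c (k - 1 - s)) (em k c (eM k c (k - 1 - s)) (k - 1 - j)) k)⁻¹) ^ 4
    rw [inv_pow, ← pow_mul, ← pow_mul, ← pow_add]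
    refine pw_ineq' h2 ?_
    unfold eE
    omega
  case low_m =>
    intro s s' j j' hss hs hj hj'
    obtain ⟨f1, f2, f3, f4, f5⟩ := facts k c hs hj
    obtain ⟨g1, g2, g3, g4, g5⟩ := facts k c (show s' < k by omega) hj'
    have h := eM_lt k c (show k - 1 - s < k - 1 - s' by omega)
    rw [hnu', hNk]
    show (X : ℝ) ^ c * _ * ((X : ℝ) ^ eB k c (eM k c (k - 1 - s')) (em k c (eM k c (k - 1 - s')) (k - 1 - j')) 0)⁻¹ ≤
      ((X : ℝ) ^ eE k c (eM k c (k - 1 - s)) (em k c (eM k c (k - 1 - s)) (k - 1 - j)))⁻¹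
    rw [← pow_add, ← pow_mul, ← pow_add]
    refine pw_ineq' h2 ?_
    rw [Nat.sub_zero, Nat.mul_comm _ k]
    unfold eN at f1
    unfold eB
    omega
  case low_nu =>
    intro s s' j hss hs hj
    obtain ⟨f1, f2, f3, f4, f5⟩ := facts k c hs hj
    have h := eM_lt k c (show k - 1 - s < k - 1 - s' by omega)
    rw [hnu', hNk, hnu, ← pow_add, ← pow_add]
    refine pw_le h2 ?_
    rw [Nat.sub_zero]
    unfold eN at f1
    omega
  case dyn =>
    intro s j j' hs hj hj'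
    obtain ⟨f1, f2, f3, f4, f5⟩ := facts k c hs hj
    have f8 := em_step k c (eM k c (k - 1 - s)) (show k - 1 - j < k - 1 - j' by omega)
    show (X : ℝ) ^ c * (2 * X * (X : ℝ) ^ eT k c (k - 1 - s)) *
      ((X : ℝ) ^ eB k c (eM k c (k - 1 - s)) (em k c (eM k c (k - 1 - s)) (k - 1 - j')) 0)⁻¹ ≤
      (((X : ℝ) ^ eB k c (eM k c (k - 1 - s)) (em k c (eM k c (k - 1 - s)) (k - 1 - j)) k)⁻¹) ^ 2
    rw [inv_pow, ← pow_mul]
    refine (mul_le_mul_of_nonneg_right (mul_le_mul_of_nonneg_left (mul_le_mul_of_nonneg_right h2X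
      (pw_pos h2 _).le) (pw_pos h2 _).le) (by positivity)).trans ?_
    rw [← pow_add, ← pow_add]
    refine pw_ineq' h2 ?_
    unfold eN at f8
    have e0 : eB k c (eM k c (k - 1 - s)) (em k c (eM k c (k - 1 - s)) (k - 1 - j')) 0 =
      em k c (eM k c (k - 1 - s)) (k - 1 - j') := by unfold eB; omega
    rw [e0]
    omega
  case small =>
    intro s j hs hj
    obtain ⟨f1, f2, f3, f4, f5⟩ := facts k c hs hj
    show (X : ℝ) ^ c * (2 * X * (X : ℝ) ^ eT k c (k - 1 - s)) *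
      ((X : ℝ) ^ eB k c (eM k c (k - 1 - s)) (em k c (eM k c (k - 1 - s)) (k - 1 - j)) 0)⁻¹ ≤ 1
    refine (mul_le_mul_of_nonneg_right (mul_le_mul_of_nonneg_left (mul_le_mul_of_nonneg_right h2X
      (pw_pos h2 _).le) (pw_pos h2 _).le) (by positivity)).trans ?_
    rw [← pow_add, ← pow_add]
    have := pw_ineq' h2 (a := c + (2 + eT k c (k - 1 - s)))
      (b := eB k c (eM k c (k - 1 - s)) (em k c (eM k c (k - 1 - s)) (k - 1 - j)) 0) (d := 0)
      (by unfold eB; unfold eA at f2; omega)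
    rwa [pow_zero, inv_one] at this
  case hh_le =>
    intro s hs
    have f4 := eT_le k c (k - 1 - s)
    have g := eM_mono k c (show k - 1 - s ≤ k by omega)
    show 2 * X * (X : ℝ) ^ eT k c (k - 1 - s) ≤ (X : ℝ) ^ eC k c
    refine (mul_le_mul_of_nonneg_right h2X (pw_pos h2 _).le).trans ?_
    rw [← pow_add]
    exact pw_le h2 (by omega)
  case aa_le =>
    intro s hs
    have g := eM_lt k c (show k - 1 - s < k by omega)
    exact pw_le h2 (by omega)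
  case AA_le =>
    intro s hs
    have g := eM_lt k c (show k - 1 - s < k by omega)
    exact pw_le h2 (by omega)
  case Ex_le =>
    intro s j hs hj
    obtain ⟨f1, f2, f3, f4, f5⟩ := facts k c hs hj
    exact pw_le h2 (by omega)
  case nu_le =>
    intro s hs
    rw [hnu]
    have g := eM_mono k c (show k - 1 - s ≤ k by omega)
    exact pw_le h2 (by omega)
  case nu'_le =>
    intro s j hs hj
    obtain ⟨f1, f2, f3, f4, f5⟩ := facts k c hs hj
    rw [hnu']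
    refine pw_le h2 ?_
    unfold eN at f1
    omega
  case Nk_le =>
    intro s j i hs hj
    obtain ⟨f1, f2, f3, f4, f5⟩ := facts k c hs hj
    rw [hNk]
    refine pw_le h2 ((eL_mono k c _ _ (show k + 1 - i ≤ k + 1 by omega)).trans ?_)
    unfold eN at f1
    omega
  case be_ge =>
    intro s j r hs hj hr
    obtain ⟨f1, f2, f3, f4, f5⟩ := facts k c hs hj
    show 1 ≤ (X : ℝ) ^ eC k c *
      ((X : ℝ) ^ eB k c (eM k c (k - 1 - s)) (em k c (eM k c (k - 1 - s)) (k - 1 - j)) r)⁻¹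
    rw [← div_eq_mul_inv, one_le_div (pw_pos h2 _)]
    refine pw_le h2 ?_
    have e0 : eB k c (eM k c (k - 1 - s)) (em k c (eM k c (k - 1 - s)) (k - 1 - j)) r ≤
        eB k c (eM k c (k - 1 - s)) (em k c (eM k c (k - 1 - s)) (k - 1 - j)) k := by
      unfold eB
      have := Nat.mul_le_mul_right (c + k * eP c (eM k c (k - 1 - s)) (em k c (eM k c (k - 1 - s)) (k - 1 - j))) hr
      omega
    unfold eN at f1
    omega
  case ep_ge =>
    intro s j hs hj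
    obtain ⟨f1, f2, f3, f4, f5⟩ := facts k c hs hj
    show 1 ≤ (X : ℝ) ^ eC k c *
      ((X : ℝ) ^ eE k c (eM k c (k - 1 - s)) (em k c (eM k c (k - 1 - s)) (k - 1 - j)))⁻¹
    rw [← div_eq_mul_inv, one_le_div (pw_pos h2 _)]
    refine pw_le h2 ?_
    unfold eN at f1
    omega

end Main

/-- EXISTENCE of the numbers -/
theorem nums_exist (k c : ℕ) (hk : 1 ≤ k) : ∃ C : ℕ, ∀ X : ℕ, 2 ≤ X → ∃ n : Nums k c X, n.OK C :=
  ⟨eC k c, fun X hX => ⟨numsOf k c X, nums_ok hk hX⟩⟩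

end Pool.Agent.GMM
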