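import Pool.Agent.GMM.CM5R
import Pool.Agent.GMM.Num

/-!
# GMM/Main: theorem CM with the numbers of CM.6 (row CM; helper45)

* `zp_*` : powers of `Y` with integer exponents;
* `phf`, `hotM` : the hot vertices; `SatAt` : what (SAT*) gives at a point `(x_J, Q_t)`;
* `hot_le` : probability of the hot vertices with living parts;
* `B_le` : the right hand side of `cm_rule`; **`cm_nums`** : THEOREM CM WITH THE NUMBERS, from `SatAt` at all points.
-/

set_option autoImplicit false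
set_option linter.unusedSectionVars false

namespace Pool.Agent.GMM

open Finset Pool.Agent.M3 Pool.Agent.M3.FP Pool.Agent.GMC
open Pool.Agent.PWZ hiding ip

noncomputable section

/-! ## powers -/

section pw

variable {Y : ℝ}

theorem zp_pos (hY : 2 ≤ Y) (a : ℤ) : 0 < Y ^ a := zpow_pos (by linarith) a

theorem zp_mul (hY : 2 ≤ Y) (a b : ℤ) : Y ^ a * Y ^ b = Y ^ (a + b) := (zpow_add₀ (by linarith) a b).symm

theorem zp_mono (hY : 2 ≤ Y) {a b : ℤ} (h : a ≤ b) : Y ^ a ≤ Y ^ b := zpow_le_zpow_right₀ (by linarith) h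

theorem zp_two (hY : 2 ≤ Y) (m : ℤ) : 2 * Y ^ m ≤ Y ^ (m + 1) := by
  rw [zpow_add₀ (by linarith), zpow_one, mul_comm]
  exact mul_le_mul_of_nonneg_left hY (zp_pos hY m).le

theorem zp_add (hY : 2 ≤ Y) {a b : ℝ} {m k : ℤ} (ha : a ≤ Y ^ m) (hb : b ≤ Y ^ m) (h : m + 1 ≤ k) : a + b ≤ Y ^ k := by
  have h1 := zp_two hY m
  have h2 := zp_mono hY h
  linarith

theorem zp_mul_le (hY : 2 ≤ Y) {a b : ℝ} {m k l : ℤ} (ha : a ≤ Y ^ m) (hb0 : 0 ≤ b) (hb : b ≤ Y ^ k)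
    (h : m + k ≤ l) : a * b ≤ Y ^ l := by
  refine le_trans ?_ (zp_mono hY h)
  rw [← zp_mul hY]
  exact mul_le_mul ha hb hb0 (zp_pos hY m).le

theorem zp_nat (n : ℕ) : Y ^ n = Y ^ (n : ℤ) := (zpow_natCast Y n).symm

theorem zp_two_pow (hY : 2 ≤ Y) (n : ℕ) : (2 : ℝ) ^ n ≤ Y ^ (n : ℤ) := by
  rw [zpow_natCast]
  exact pow_le_pow_left₀ (by norm_num) hY n

theorem zp_one (hY : 2 ≤ Y) {m : ℤ} (hm : 0 ≤ m) : 1 ≤ Y ^ m := by
  have := zp_mono hY hm
  rwa [zpow_zero] at this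

/-- from `Y^c a ≤ 1` -/
theorem zp_of_mul (hY : 2 ≤ Y) {a : ℝ} {c : ℕ} (h : Y ^ c * a ≤ 1) : a ≤ Y ^ (-(c : ℤ)) := by
  rw [zpow_neg, zpow_natCast, ← one_div, le_div_iff₀ (pow_pos (by linarith) c), mul_comm]
  exact h

end pw

section main

variable {Om : Type*} [Fintype Om] {ι : Type*} [Fintype ι] [DecidableEq ι] {χ α : Type*} {κ ε φ : ℕ → Type*}
  {P : FP Om} {a : Om → α} {x : ι → Om → χ} {Q : ∀ t, Om → κ t} {D : ℕ → Om → ℝ} {E : ∀ t, Finset ι → Om → ε t}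
  {f : ∀ t, Finset ι → Om → φ t} {c0 : ℝ} {K c X C : ℕ} {T : ℕ} {L : ℕ → Finset ι → Om → ℕ}
  {fat : ℕ → Finset ι → Om → Prop} {n : Nums K c X}

/-- threshold of the mass of the fat vertices of size `s` -/
def phf (n : Nums K c X) (s : ℕ) : ℝ := Real.sqrt (4 * n.hh s / n.aa s)

/-- THE HOT VERTICES -/
def hotM (P : FP Om) (a : Om → α) (x : ι → Om → χ) (Q : ∀ t, Om → κ t) (L : ℕ → Finset ι → Om → ℕ)
    (fat : ℕ → Finset ι → Om → Prop) (n : Nums K c X) (Ap : ℕ → ℕ → ℝ) (S : ℕ → Om → Prop) (σ : ℝ) (T : ℕ)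
    (J : Finset ι) (t : ℕ) (u : Om) : Prop :=
  t ≤ T ∧ ((∃ G, ¬ J ⊆ G ∧ G ≠ univ ∧ n.del' G.card J.card < phi P a x (Q t) (L t) (Ap G.card J.card) J G u) ∨
    (∃ I, I ≠ univ ∧ phf n I.card < P.ce (knq x Q J t) (fun v => ind (fat t I v)) u) ∨
    σ < P.ce (knq x Q J t) (fun v => ind (S t v)) u)

/-- (SAT*) AT THE POINT `(x_J, Q_t)` of `u`: if no `phi_G` is large and few vertices are fat, then (a) the informations of
all admissible families of larger sets are small, (b) the functionals `M_r` are small -/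
def SatAt (P : FP Om) (a : Om → α) (x : ι → Om → χ) (Q : ∀ t, Om → κ t) (L : ℕ → Finset ι → Om → ℕ)
    (fat : ℕ → Finset ι → Om → Prop) (n : Nums K c X) (Ap : ℕ → ℕ → ℝ) (J : Finset ι) (t : ℕ) (u : Om) : Prop :=
  (∀ G, ¬ J ⊆ G → G ≠ univ → phi P a x (Q t) (L t) (Ap G.card J.card) J G u ≤ n.del' G.card J.card) →
  (∀ I, I ≠ univ → P.ce (knq x Q J t) (fun v => ind (fat t I v)) u ≤ phf n I.card) →
  (∀ J' G, J ⊂ J' → J' ≠ univ → ¬ J' ⊆ G → G ≠ univ → ∀ R, ExtG P a x (Q t) (Ap G.card J'.card) J' G R →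
    ip P (L t G) (fun v => (pk R J' (J' ∪ G) v, lall (L t) J' G v)) (fun v => (lt (L t) G v, xr x (J' ∪ G) v))
      (fun v => (xr x J v, Q t v)) u ≤ n.del G.card J.card) ∧
  ∀ r, 1 ≤ r → r < K → P.ce (knq x Q J t) (MM P (L t) (knq x Q univ t) r) u ≤ 4 ^ K * n.del r J.card

theorem hotM_fac (n : Nums K c X) (Ap : ℕ → ℕ → ℝ) (S : ℕ → Om → Prop) (σ : ℝ) (T : ℕ) (J : Finset ι) (t : ℕ)
    (v u : Om) (h : knq x Q J t v = knq x Q J t u) :
    hotM P a x Q L fat n Ap S σ T J t v ↔ hotM P a x Q L fat n Ap S σ T J t u := by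
  unfold hotM
  refine and_congr_right fun _ => or_congr ?_ (or_congr ?_ ?_)
  · refine exists_congr fun G => and_congr_right fun _ => and_congr_right fun _ => ?_
    rw [phi_fac (L t) (Ap G.card J.card) J G v u h]
  · refine exists_congr fun I => and_congr_right fun _ => ?_
    rw [P.ce_fac (knq x Q J t) _ v u h]
  · rw [P.ce_fac (knq x Q J t) _ v u h]

theorem hotM_top (n : Nums K c X) (Ap : ℕ → ℕ → ℝ) (S : ℕ → Om → Prop) (σ : ℝ) (T : ℕ) (J : Finset ι) (u : Om) :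
    ¬ hotM P a x Q L fat n Ap S σ T J (T + 1) u := fun h => absurd h.1 (Nat.not_succ_le_self T)

theorem not_hotM {n : Nums K c X} {Ap : ℕ → ℕ → ℝ} {S : ℕ → Om → Prop} {σ : ℝ} {T : ℕ} {J : Finset ι} {t : ℕ} {u : Om}
    (h : ¬ hotM P a x Q L fat n Ap S σ T J t u) (ht : t ≤ T) :
    (∀ G, ¬ J ⊆ G → G ≠ univ → phi P a x (Q t) (L t) (Ap G.card J.card) J G u ≤ n.del' G.card J.card) ∧
    (∀ I, I ≠ univ → P.ce (knq x Q J t) (fun v => ind (fat t I v)) u ≤ phf n I.card) ∧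
    P.ce (knq x Q J t) (fun v => ind (S t v)) u ≤ σ := by
  unfold hotM at h
  push Not at h
  obtain ⟨h1, h2, h3⟩ := h ht
  exact ⟨fun G hG hG' => h1 G hG hG', fun I hI => h2 I hI, h3⟩


/-! ## probability of the hot vertices -/

/-- one term of the dynamic lemma -/
theorem term_le {e d hh Yc cc : ℝ} {j K' : ℕ} (hd : 0 < d) (hd1 : d ≤ 1) (he : 0 ≤ e) (hh1 : 1 ≤ hh) (hYc : 0 ≤ Yc)
    (h : hh * e ≤ Yc * d ^ 2) (hcc : 0 ≤ cc) {B : ℝ} (hB : B ≤ hh) (hj : j ≤ K') :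
    e / (d / 2) * (1 + 2 ^ j + cc / (d / 2) * B) ≤ Yc * (2 ^ (K' + 2) + 4 * cc) := by
  have h1 : e / (d / 2) ≤ 2 * Yc := by
    rw [div_le_iff₀ (by linarith)]
    have h2 : e ≤ hh * e := by nlinarith
    have h3 : Yc * d ^ 2 ≤ Yc * d := mul_le_mul_of_nonneg_left (by nlinarith) hYc
    linarith
  have h2 : e / (d / 2) * (cc / (d / 2) * B) ≤ 4 * cc * Yc := by
    have e1 : e / (d / 2) * (cc / (d / 2) * B) = 4 * cc * (e * B) / d ^ 2 := by
      field_simp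
      ring
    rw [e1, div_le_iff₀ (by positivity)]
    have h3 : e * B ≤ Yc * d ^ 2 := (mul_le_mul_of_nonneg_left hB he).trans (by linarith)
    have h4 := mul_le_mul_of_nonneg_left h3 (by positivity : 0 ≤ 4 * cc)
    linarith
  have h3 : (2 : ℝ) ^ j ≤ 2 ^ K' := pow_le_pow_right₀ (by norm_num) hj
  have h4 : (1 : ℝ) ≤ 2 ^ K' := one_le_pow₀ (by norm_num)
  have h5 : 0 ≤ e / (d / 2) := div_nonneg he (by linarith)
  have h6 : e / (d / 2) * (1 + 2 ^ j) ≤ 2 * Yc * (2 * 2 ^ K') := by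
    refine mul_le_mul h1 (by linarith) (by positivity) (by positivity)
  rw [mul_add]
  have h7 : Yc * (2 ^ (K' + 2) + 4 * cc) = 2 * Yc * (2 * 2 ^ K') + 4 * cc * Yc := by ring
  rw [h7]
  linarith

/-- PROBABILITY OF THE HOT VERTICES -/
theorem hot_le (hn : n.OK C) (hK : Fintype.card ι = K) (hX : 2 ≤ X) (hM : MdlI P a x Q D E c0) (hc0 : 0 < c0)
    (hR : RuleOut P a x Q D f n.AA n.w n.aa X T L fat) {Ap : ℕ → ℕ → ℝ} (hAp : ∀ s j, 0 ≤ Ap s j)
    {S : ℕ → Om → Prop} {σ p : ℝ}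
    (hsat : ∀ J, J ≠ univ → ∀ t ≤ T, ∀ u, P.p u ≠ 0 → SatAt P a x Q L fat n Ap J t u)
    (hcold : ∀ J, J ≠ univ → P.Pr (fun u => ∃ t ≤ T, σ < P.ce (knq x Q J t) (fun v => ind (S t v)) u) ≤ p)
    {J : Finset ι} (hJ : J ≠ univ) :
    P.Pr (fun u => ∃ t ≤ T, pal P (knq x Q) (hotM P a x Q L fat n Ap S σ T) J t u ∧
        hotM P a x Q L fat n Ap S σ T J t u) ≤
      2 ^ K * (((X : ℝ) ^ c)⁻¹ * (2 ^ (K + 2) + 4 * (1 / c0))) + 2 ^ K * Real.sqrt (((X : ℝ) ^ c)⁻¹) + p := by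
  classical
  set hot := hotM P a x Q L fat n Ap S σ T with hhotdef
  have hX0 : (0 : ℝ) < X := by
    have : (2 : ℝ) ≤ X := by exact_mod_cast hX
    linarith
  have hXc : (0 : ℝ) < (X : ℝ) ^ c := pow_pos hX0 c
  have hcard : ∀ {G : Finset ι}, G ≠ univ → G.card < K := fun {G} hG => by rw [← hK]; exact card_lt_of_prp hG
  have hcard2 : ((univ : Finset (Finset ι)).card : ℝ) = 2 ^ K := by
    rw [Finset.card_univ, Fintype.card_finset, hK]
    push_cast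
    rfl
  have hF := hM.frame hc0
  have hhot : ∀ J t v u, knq x Q J t v = knq x Q J t u → (hot J t v ↔ hot J t u) := fun J t v u h => hotM_fac n Ap S σ T J t v u h
  -- the phi part
  set ρ : Finset ι → ℝ := fun G => if G = univ then 1 else n.del' G.card J.card / 2 with hρd
  set ε' : Finset ι → ℝ := fun G => if G = univ then 0 else n.del G.card (J.card - 1) with hεd
  have hρ : ∀ G, 0 < ρ G := fun G => by
    simp only [hρd]
    split_ifs with h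
    · exact one_pos
    · have := hn.be_pos G.card J.card K (hcard h) (hcard hJ)
      unfold Nums.del'
      linarith
  have hε : ∀ G, 0 ≤ ε' G := fun G => by
    simp only [hεd]
    split_ifs with h
    · exact le_rfl
    · exact (hn.be_pos G.card (J.card - 1) 0 (hcard h) (by have := hcard hJ; omega)).le
  have h1 := cm4_phi_all (hR := hR) hM.mdl hF (by positivity : (0 : ℝ) ≤ 1 / c0) hhot (J := J)
    (fun G => Ap G.card J.card) ρ ε' (fun G => hAp _ _) hρ hε (by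
      intro G hG hG' J' hJ' t ht u hu hnh _ R hR'
      have hJ'u : J' ≠ univ := fun h => hJ'.2 (h ▸ Finset.subset_univ J)
      obtain ⟨p1, p2, -⟩ := not_hotM hnh ht
      have h2 := (hsat J' hJ'u t ht u hu p1 p2).1 J G hJ' hJ hG hG' R hR'
      refine h2.trans ?_
      simp only [hεd]
      rw [if_neg hG']
      have h3 : J'.card < J.card := Finset.card_lt_card hJ'
      exact hn.be_anti_j G.card (J.card - 1) J'.card (hcard hG') (by have := hcard hJ; omega) (by omega))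
  -- the events
  have hev : P.Pr (fun u => ∃ t ≤ T, pal P (knq x Q) hot J t u ∧ hot J t u) ≤
      P.Pr (fun u => ∃ t ≤ T, pal P (knq x Q) hot J t u ∧ ∃ G, ¬ J ⊆ G ∧ G ≠ univ ∧
        2 * ρ G ≤ phi P a x (Q t) (L t) (Ap G.card J.card) J G u) +
      (P.Pr (fun u => ∃ I ∈ (univ : Finset (Finset ι)), I ≠ univ ∧ ∃ t ≤ T,
        phf n I.card ≤ P.ce (knq x Q J t) (fun v => ind (fat t I v)) u) + p) := by
    refine le_trans (P.Pr_mono (fun u _ => ?_)) ((P.Pr_or_le _ _).trans (add_le_add le_rfl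
      ((P.Pr_or_le _ _).trans (add_le_add le_rfl (hcold J hJ)))))
    rintro ⟨t, ht, hpal, -, h⟩
    rcases h with ⟨G, g1, g2, g3⟩ | ⟨I, g1, g2⟩ | h
    · refine Or.inl ⟨t, ht, hpal, G, g1, g2, ?_⟩
      simp only [hρd]
      rw [if_neg g2]
      linarith
    · exact Or.inr (Or.inl ⟨I, Finset.mem_univ _, g1, t, ht, g2.le⟩)
    · exact Or.inr (Or.inr ⟨t, ht, h⟩)
  refine hev.trans ?_
  rw [← add_assoc]
  refine add_le_add (add_le_add (h1.trans ?_) ?_) le_rfl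
  · -- numbers of the phi part
    have h2 : ∀ G ∈ univ.filter (fun G : Finset ι => ¬ J ⊆ G ∧ G ≠ univ),
        ε' G / ρ G * (1 + 2 ^ J.card + 1 / c0 / ρ G * (X + X * n.w (Fintype.card ι - 1) / n.w G.card)) ≤
        ((X : ℝ) ^ c)⁻¹ * (2 ^ (K + 2) + 4 * (1 / c0)) := by
      intro G hG
      obtain ⟨-, h3, h4⟩ := Finset.mem_filter.1 hG
      have hJ0 : J.Nonempty := by
        rw [Finset.nonempty_iff_ne_empty]
        intro h0
        exact h3 (h0 ▸ Finset.empty_subset G)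
      have hJc : 0 < J.card := Finset.card_pos.2 hJ0
      simp only [hρd, hεd]
      rw [if_neg h4, if_neg h4]
      have hdy := hn.dyn G.card J.card (J.card - 1) (hcard h4) (hcard hJ) (by omega)
      refine term_le (hn.be_pos G.card J.card K (hcard h4) (hcard hJ)) (hn.be_le_one _ _ _ (hcard h4) (hcard hJ))
        (hn.be_pos G.card (J.card - 1) 0 (hcard h4) (by have := hcard hJ; omega)).le (hn.hh_one _ (hcard h4))
        (by positivity) ?_ (by positivity) ?_ (hcard hJ).le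
      · have h5 : n.hh G.card * n.del G.card (J.card - 1) ≤ ((X : ℝ) ^ c)⁻¹ * n.del' G.card J.card ^ 2 := by
          rw [← div_eq_inv_mul, le_div_iff₀ hXc]
          calc n.hh G.card * n.del G.card (J.card - 1) * (X : ℝ) ^ c =
              (X : ℝ) ^ c * n.hh G.card * n.del G.card (J.card - 1) := by ring
            _ ≤ _ := hdy
        exact h5
      · rw [hK, mul_div_assoc]
        exact hn.hh_ge G.card (hcard h4)
    refine (Finset.sum_le_sum h2).trans ?_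
    rw [Finset.sum_const, nsmul_eq_mul]
    refine mul_le_mul_of_nonneg_right ?_ (by positivity)
    rw [← hcard2]
    exact_mod_cast Finset.card_le_univ _
  · -- the fat part
    have h2 : ∀ I : Finset ι, P.Pr (fun u => I ≠ univ ∧ ∃ t ≤ T,
        phf n I.card ≤ P.ce (knq x Q J t) (fun v => ind (fat t I v)) u) ≤ Real.sqrt (((X : ℝ) ^ c)⁻¹) := by
      intro I
      by_cases hI : I = univ
      · refine le_trans (le_of_eq ?_) (Real.sqrt_nonneg _)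
        unfold FP.Pr
        rw [P.E_congr (g := fun _ => 0) (fun u _ => ind_not (fun h => h.1 hI)), P.E_const]
      · have hhp := hn.hh_one I.card (hcard hI)
        have hap := hn.aa_ge I.card (hcard hI)
        have ha0 : 0 < n.aa I.card := by linarith
        have h3 := P.doob_inc (hF.filt J) (D := fun t => fat t I) (fun t w _ h => hR.fat_mono t I w h) T (phf n I.card)
        have h4 := hR.fatle I hI
        have hhg := hn.hh_ge I.card (hcard hI)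
        have h5 : P.Pr (fat T I) ≤ 4 * n.hh I.card / n.aa I.card := by
          rw [le_div_iff₀ ha0, mul_comm]
          refine h4.trans ?_
          rw [hK, mul_div_assoc]
          have : 0 ≤ (X : ℝ) := hX0.le
          linarith
        have hq0 : 0 < 4 * n.hh I.card / n.aa I.card := div_pos (by linarith) ha0
        have hφ : 0 < phf n I.card := Real.sqrt_pos.2 hq0
        have h6 : P.Pr (fun u => ∃ t ≤ T, phf n I.card ≤ P.ce (knq x Q J t) (fun v => ind (fat t I v)) u) ≤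
            phf n I.card := by
          have h7 := h3.trans h5
          have h8 : 4 * n.hh I.card / n.aa I.card = phf n I.card * phf n I.card := (Real.mul_self_sqrt hq0.le).symm
          rw [h8] at h7
          exact le_of_mul_le_mul_left h7 hφ
        refine (P.Pr_mono (fun u _ h => h.2)).trans (h6.trans ?_)
        refine Real.sqrt_le_sqrt ?_
        rw [div_le_iff₀ ha0, ← div_eq_inv_mul, le_div_iff₀ hXc, mul_comm]
        exact hn.fat_one I.card (hcard hI)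
    have h3 := P.Pr_ex_le (univ : Finset (Finset ι)) (fun I u => I ≠ univ ∧ ∃ t ≤ T,
        phf n I.card ≤ P.ce (knq x Q J t) (fun v => ind (fat t I v)) u)
    refine h3.trans ((Finset.sum_le_sum (fun I _ => h2 I)).trans (le_of_eq ?_))
    rw [Finset.sum_const, nsmul_eq_mul, hcard2]

/-! ## sums -/

theorem sum_le_zp {β : Type*} {Y : ℝ} (hY : 2 ≤ Y) (s : Finset β) {g : β → ℝ} {m k l : ℤ} (hs : (s.card : ℝ) ≤ Y ^ k)
    (hg : ∀ i ∈ s, g i ≤ Y ^ m) (h : k + m ≤ l) : ∑ i ∈ s, g i ≤ Y ^ l := by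
  refine (Finset.sum_le_card_nsmul s g (Y ^ m) hg).trans ?_
  rw [nsmul_eq_mul]
  exact zp_mul_le hY hs (zp_pos hY m).le le_rfl h

/-- the right hand side of `cm_rule` -/
theorem B_le {Y : ℝ} (hY : 2 ≤ Y) {k b K c e0 : ℕ} (hK : K = k + 1) {N σ q c0 ρ : ℝ} (hN0 : 0 ≤ N) (hN : N ≤ Y ^ (b : ℤ))
    (hσ0 : 0 ≤ σ) (hσ : σ ≤ Y ^ (-(c : ℤ))) (hq0 : 0 ≤ q) (hq : q ≤ Y ^ (-(c : ℤ))) (hc0 : 0 < c0)
    (hc : 1 / c0 ≤ Y ^ (b : ℤ)) (hρ : ρ = Y ^ (-((e0 : ℤ) + b + 2))) {ι : Type*} [Fintype ι] [DecidableEq ι]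
    (hcard : Fintype.card ι = K) {y : ℕ → Finset ι → ℝ} (hy0 : ∀ r J, 0 ≤ y r J)
    (hy : ∀ r < k, ∀ J : Finset ι, J ⊂ univ → y (r + 1) J ≤ Y ^ (2 * (K : ℤ) - c)) {bu Jn : Finset ι → ℝ}
    (hbu0 : ∀ I, I ⊂ univ → 0 ≤ bu I) (hσb : ∀ I : Finset ι, I ⊂ univ → σ * bu I ≤ Y ^ (-(c : ℤ)))
    (hyb : ∀ r < k, ∀ I ∈ sz ι (r + 1), y (r + 1) I * bu I ≤ Y ^ (2 * (K : ℤ) - c))
    (hJ0 : ∀ I, I ⊂ univ → 0 ≤ Jn I) (hJn : ∀ I : Finset ι, I ⊂ univ → Jn I ≤ Y ^ (b : ℤ)) :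
    (2 * N * σ + ((k : ℝ) + 1) * ∑ r : Fin k, 2 * N * y (r + 1) ∅) +
      ∑ J ∈ (univ : Finset ι).ssubsets, (2 * N * σ + ((k : ℝ) + 1) * ∑ r : Fin k, 2 * N * y (r + 1) J) +
      2 * N * q +
      1 / c0 * (((k : ℝ) + 1) / ρ) * ∑ I ∈ (univ : Finset ι).ssubsets, 2 * N * σ * (2 * N * bu I + N * Jn I) +
      1 / c0 * (((k : ℝ) + 1) ^ 2 / ρ) * ∑ r : Fin k, ∑ I ∈ sz ι (r + 1), 2 * N * y (r + 1) I * (2 * N * bu I) ≤
    Y ^ (5 * (b : ℤ) + 6 * K + e0 + 10 - c) := by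
  have hY0 : 0 < Y := by linarith
  have h2Y : (2 : ℝ) ≤ Y ^ (1 : ℤ) := by rw [zpow_one]; exact hY
  have hK2 : ((k : ℝ) + 1) ≤ Y ^ (K : ℤ) := by
    refine le_trans ?_ (zp_two_pow hY K)
    have : k + 1 ≤ 2 ^ K := by rw [← hK]; exact Nat.lt_two_pow_self.le
    exact_mod_cast this
  have hk2 : (k : ℝ) ≤ Y ^ (K : ℤ) := by linarith
  have hss : (((univ : Finset ι).ssubsets.card : ℕ) : ℝ) ≤ Y ^ (K : ℤ) := by
    refine le_trans ?_ (zp_two_pow hY K)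
    have h1 : (univ : Finset ι).ssubsets.card ≤ 2 ^ K := by
      rw [← hcard, ← Fintype.card_finset]
      exact Finset.card_le_univ _
    exact_mod_cast h1
  have hsz : ∀ r, ((sz ι r).card : ℝ) ≤ Y ^ (K : ℤ) := fun r => by
    refine le_trans ?_ (zp_two_pow hY K)
    have h1 : (sz ι r).card ≤ 2 ^ K := by
      rw [← hcard, ← Fintype.card_finset]
      exact Finset.card_le_univ _
    exact_mod_cast h1
  have hfin : (((univ : Finset (Fin k)).card : ℕ) : ℝ) ≤ Y ^ (K : ℤ) := by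
    rw [Finset.card_univ, Fintype.card_fin]
    exact hk2
  have h2N : 2 * N ≤ Y ^ ((b : ℤ) + 1) := zp_mul_le hY h2Y hN0 hN (by omega)
  have h2N0 : 0 ≤ 2 * N := by linarith
  have he : (∅ : Finset ι) ⊂ univ := by
    rw [Finset.ssubset_iff_subset_ne]
    refine ⟨Finset.empty_subset _, fun h => ?_⟩
    have h2 : (univ : Finset ι).card = 0 := by rw [← h]; rfl
    rw [Finset.card_univ, hcard, hK] at h2
    omega
  -- one point
  have t1 : ∀ J : Finset ι, J ⊂ univ → 2 * N * σ + ((k : ℝ) + 1) * ∑ r : Fin k, 2 * N * y (r + 1) J ≤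
      Y ^ ((b : ℤ) + 4 * K + 2 - c) := by
    intro J hJ
    have a1 : 2 * N * σ ≤ Y ^ ((b : ℤ) + 4 * K + 1 - c) := zp_mul_le hY h2N hσ0 hσ (by omega)
    have a2 : ∑ r : Fin k, 2 * N * y (r + 1) J ≤ Y ^ ((b : ℤ) + 3 * K + 1 - c) :=
      sum_le_zp hY univ hfin (m := (b : ℤ) + 1 + (2 * K - c)) (fun r _ => zp_mul_le hY h2N (hy0 _ _) (hy r r.2 J hJ) le_rfl)
        (by omega)
    have a3 : ((k : ℝ) + 1) * ∑ r : Fin k, 2 * N * y (r + 1) J ≤ Y ^ ((b : ℤ) + 4 * K + 1 - c) :=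
      zp_mul_le hY hK2 (Finset.sum_nonneg fun r _ => mul_nonneg h2N0 (hy0 _ _)) a2 (by omega)
    exact zp_add hY a1 a3 (by omega)
  have t2 : ∑ J ∈ (univ : Finset ι).ssubsets, (2 * N * σ + ((k : ℝ) + 1) * ∑ r : Fin k, 2 * N * y (r + 1) J) ≤
      Y ^ ((b : ℤ) + 5 * K + 2 - c) :=
    sum_le_zp hY _ hss (fun J hJ => t1 J (Finset.mem_ssubsets.1 hJ)) (by omega)
  have t3 : 2 * N * q ≤ Y ^ ((b : ℤ) + 1 - c) := zp_mul_le hY h2N hq0 hq (by omega)
  have hρ0 : 0 < ρ := by rw [hρ]; exact zp_pos hY _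
  have hρi : 1 / ρ = Y ^ ((e0 : ℤ) + b + 2) := by
    rw [hρ, zpow_neg, one_div, inv_inv]
  have hkρ : ((k : ℝ) + 1) / ρ ≤ Y ^ ((K : ℤ) + e0 + b + 2) := by
    rw [div_eq_mul_one_div, hρi]
    exact zp_mul_le hY hK2 (zp_pos hY _).le le_rfl (by omega)
  have hkρ2 : ((k : ℝ) + 1) ^ 2 / ρ ≤ Y ^ (2 * (K : ℤ) + e0 + b + 2) := by
    rw [pow_two, mul_div_assoc]
    exact zp_mul_le hY hK2 (by positivity) hkρ (by omega)
  have hc1 : 1 / c0 * (((k : ℝ) + 1) / ρ) ≤ Y ^ ((K : ℤ) + e0 + 2 * b + 2) :=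
    zp_mul_le hY hc (by positivity) hkρ (by omega)
  have hc2 : 1 / c0 * (((k : ℝ) + 1) ^ 2 / ρ) ≤ Y ^ (2 * (K : ℤ) + e0 + 2 * b + 2) :=
    zp_mul_le hY hc (by positivity) hkρ2 (by omega)
  have t4 : 1 / c0 * (((k : ℝ) + 1) / ρ) * ∑ I ∈ (univ : Finset ι).ssubsets, 2 * N * σ * (2 * N * bu I + N * Jn I) ≤
      Y ^ (5 * (b : ℤ) + 2 * K + e0 + 6 - c) := by
    refine zp_mul_le hY hc1 (Finset.sum_nonneg fun I hI => ?_) (k := 3 * (b : ℤ) + K + 4 - c)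
      (sum_le_zp hY _ hss (m := 3 * (b : ℤ) + 4 - c) (fun I hI => ?_) (by omega)) (by omega)
    · have h1 := hbu0 I (Finset.mem_ssubsets.1 hI)
      have h2 := hJ0 I (Finset.mem_ssubsets.1 hI)
      positivity
    · have hI' := Finset.mem_ssubsets.1 hI
      have h1 := hbu0 I hI'
      have h2 := hJ0 I hI'
      have e1 : 2 * N * σ * (2 * N * bu I + N * Jn I) = 2 * N * (2 * N * (σ * bu I) + N * Jn I * σ) := by ring
      rw [e1]
      refine zp_mul_le hY h2N (by positivity) (k := 2 * (b : ℤ) + 2 - c) (zp_add hY (m := 2 * (b : ℤ) + 1 - c) ?_ ?_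
        (by omega)) (by omega)
      · exact zp_mul_le hY h2N (mul_nonneg hσ0 h1) (hσb I hI') (by omega)
      · exact zp_mul_le hY (zp_mul_le hY hN h2 (hJn I hI') (l := 2 * (b : ℤ)) (by omega)) hσ0 hσ (by omega)
  have t5 : 1 / c0 * (((k : ℝ) + 1) ^ 2 / ρ) * ∑ r : Fin k, ∑ I ∈ sz ι (r + 1), 2 * N * y (r + 1) I * (2 * N * bu I) ≤
      Y ^ (5 * (b : ℤ) + 6 * K + e0 + 6 - c) := by
    have hsub : ∀ (r : Fin k), ∀ I ∈ sz ι ((r : ℕ) + 1), I ⊂ univ := by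
      intro r I hI
      rw [← Finset.mem_ssubsets, ssub_univ_eq, mem_szlt, mem_sz.1 hI, hcard, hK]
      have := r.2
      omega
    refine zp_mul_le hY hc2 (Finset.sum_nonneg fun r _ => Finset.sum_nonneg fun I hI => ?_)
      (k := 2 * (b : ℤ) + 4 * K + 2 - c)
      (sum_le_zp hY _ hfin (m := 2 * (b : ℤ) + 3 * K + 2 - c) (fun r _ =>
        sum_le_zp hY _ (hsz _) (m := 2 * (b : ℤ) + 2 * K + 2 - c) (fun I hI => ?_) (by omega)) (by omega)) (by omega)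
    · have h1 := hbu0 I (hsub r I hI)
      have h2 := hy0 ((r : ℕ) + 1) I
      positivity
    · have e1 : 2 * N * y (r + 1) I * (2 * N * bu I) = 2 * N * (2 * N * (y (r + 1) I * bu I)) := by ring
      rw [e1]
      have h1 := hbu0 I (hsub r I hI)
      have h2 := hy0 ((r : ℕ) + 1) I
      exact zp_mul_le hY h2N (by positivity) (k := (b : ℤ) + 1 + (2 * K - c))
        (zp_mul_le hY h2N (mul_nonneg h2 h1) (hyb r r.2 I hI) le_rfl) (by omega)
  have m1 := (t1 ∅ he).trans (zp_mono hY (show (b : ℤ) + 4 * K + 2 - c ≤ 5 * (b : ℤ) + 6 * K + e0 + 6 - c by omega))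
  have m2 := t2.trans (zp_mono hY (show (b : ℤ) + 5 * K + 2 - c ≤ 5 * (b : ℤ) + 6 * K + e0 + 6 - c by omega))
  have m3 := t3.trans (zp_mono hY (show (b : ℤ) + 1 - c ≤ 5 * (b : ℤ) + 6 * K + e0 + 6 - c by omega))
  have m4 := t4.trans (zp_mono hY (show 5 * (b : ℤ) + 2 * K + e0 + 6 - c ≤ 5 * (b : ℤ) + 6 * K + e0 + 6 - c by omega))
  have p1 := zp_two hY (5 * (b : ℤ) + 6 * K + e0 + 6 - c)
  have p2 := zp_two hY (5 * (b : ℤ) + 6 * K + e0 + 6 - c + 1)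
  have p3 := zp_two hY (5 * (b : ℤ) + 6 * K + e0 + 6 - c + 1 + 1)
  have p4 := zp_mono hY (show 5 * (b : ℤ) + 6 * K + e0 + 6 - c + 1 + 1 + 1 ≤ 5 * (b : ℤ) + 6 * K + e0 + 10 - c by omega)
  have p5 := zp_pos hY (5 * (b : ℤ) + 6 * K + e0 + 6 - c)
  linarith

/-- THEOREM CM WITH THE NUMBERS -/
theorem cm_nums {c2 b e0 : ℕ} (hn : n.OK C) (hK : Fintype.card ι = K) (hK1 : 1 ≤ K) (hX : 2 ≤ X)
    (hc2 : c = 2 * c2) (hcc2 : 6 * b + 6 * K + 3 * e0 + 14 ≤ c2) (hM : MdlI P a x Q D E c0) (hc0 : 0 < c0)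
    (hat : ∀ t I u, P.p u ≠ 0 → c0 ≤ P.ce (fun u => (a u, xr x I u, Q t u)) (fun v => ind (Q (t + 1) v = Q (t + 1) u)) u)
    (hR : RuleOut P a x Q D f n.AA n.w n.aa X T L fat) {Xp g : ℕ → Om → ℝ} {e Dd : ℕ → Om → Prop} {s N : ℝ}
    (hp : Proc P x Q D f Xp g e Dd s N T) {Ap : ℕ → ℕ → ℝ} (hAp : ∀ s j, 0 ≤ Ap s j)
    (hsat : ∀ J, J ≠ univ → ∀ t ≤ T, ∀ u, P.p u ≠ 0 → SatAt P a x Q L fat n Ap J t u) {S S' : ℕ → Om → Prop} {σ : ℝ}
    (hcold : ∀ J, J ≠ univ → P.Pr (fun u => ∃ t ≤ T, σ < P.ce (knq x Q J t) (fun v => ind (S t v)) u) ≤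
      (X : ℝ) ^ (-(c2 : ℤ)))
    (hXS : ∀ t u, P.p u ≠ 0 → s < |Xp t u| → ¬ Dd t u → S t u) (cc : Finset ι → ℕ → Om → ℝ)
    (hcc : ∀ I, ∀ t < T, Fac (fun u => (a u, xr x I u, Q (t + 1) u)) (cc I (t + 1)))
    (hcc0 : ∀ I t u, P.p u ≠ 0 → 0 ≤ cc I t u)
    (he : ∀ t < T, ∀ u, P.p u ≠ 0 → s < |Xp t u| → P.Al (vmap x Q L) Dd (1 / 2) (t + 1) u →
      ind (e (t + 1) u) ≤ ∑ I ∈ (univ : Finset ι).ssubsets, cc I (t + 1) u)
    (hJn : ∀ I, I ≠ univ → ∑ t ∈ range T, P.E (cc I (t + 1)) ≤ (X : ℝ) ^ (b : ℤ))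
    {s2 : ℝ} (hs2 : s < s2) (hSX : ∀ t u, P.p u ≠ 0 → S' t u → ¬ Dd t u → s2 ≤ |Xp t u|)
    (hc0b : 1 / c0 ≤ (X : ℝ) ^ (b : ℤ)) (hNb : N ≤ (X : ℝ) ^ (b : ℤ)) (hsb : 1 / (s2 - s) ^ 2 ≤ (X : ℝ) ^ (b : ℤ))
    (hσ0 : 0 ≤ σ) (hσ : σ ≤ (X : ℝ) ^ (-((C : ℤ) + c))) (hq : P.Pr (Dd T) ≤ (X : ℝ) ^ (-(c : ℤ))) :
    P.Pr (fun u => ∃ t ≤ T, (X : ℝ) ^ (-(e0 : ℤ)) ≤ P.ce (knq x Q univ t) (fun v => ind (S' t v)) u) ≤
      (X : ℝ) ^ (-(e0 : ℤ)) := by
  classical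
  set Y : ℝ := (X : ℝ) with hYd
  have hY : 2 ≤ Y := by
    rw [hYd]
    exact_mod_cast hX
  have hY0 : 0 < Y := by linarith
  obtain ⟨k, hk⟩ : ∃ k, K = k + 1 := ⟨K - 1, by omega⟩
  set hot := hotM P a x Q L fat n Ap S σ T with hhotdef
  have hcard : ∀ {G : Finset ι}, G ≠ univ → G.card < K := fun {G} hG => by rw [← hK]; exact card_lt_of_prp hG
  have hhot : ∀ J t v u, knq x Q J t v = knq x Q J t u → (hot J t v ↔ hot J t u) := fun J t v u h => hotM_fac n Ap S σ T J t v u h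
  have hN0 : 0 ≤ N := by
    obtain ⟨w, hw⟩ := P.exists_p_ne
    exact (Phi_nonneg _ _).trans (hp.bd 0 w hw)
  set ρ : ℝ := Y ^ (-((e0 : ℤ) + b + 2)) with hρd
  set ρ' : ℝ := Y ^ (-((e0 : ℤ) + 1)) with hρ'd
  have hρ : 0 < ρ := zp_pos hY _
  have hρ' : 0 < ρ' := zp_pos hY _
  set y : ℕ → Finset ι → ℝ := fun r J => 4 ^ K * max 0 (n.del r J.card) with hyd
  have hy0 : ∀ r J, 0 ≤ y r J := fun r J => by simp only [hyd]; positivity
  set Jn : Finset ι → ℝ := fun _ => Y ^ (b : ℤ) with hJnd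
  have hsubne : ∀ {J : Finset ι}, J ⊂ univ → J ≠ univ := fun {J} h => h.ne
  have hcm := cm_rule (hM := hM) hc0 hat hR hp hhot (k := k) (by rw [hK, hk]) hXS cc hcc hcc0 he (Jn := Jn)
    (fun I hI => hJn I hI) (σ := fun _ => σ) (y := y) (fun _ => hσ0) hy0
    (fun J hJ t ht u hu hnh _ => (not_hotM hnh ht).2.2)
    (fun r hr J hJ t ht u hu hnh _ => by
      obtain ⟨p1, p2, -⟩ := not_hotM hnh ht
      have h1 := (hsat J (hsubne hJ) t ht u hu p1 p2).2 (r + 1) (by omega) (by omega)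
      refine h1.trans (mul_le_mul_of_nonneg_left (le_max_right _ _) (by positivity)))
    hρ
  -- numbers
  have h4K : (4 : ℝ) ^ K ≤ Y ^ (2 * (K : ℤ)) := by
    have h1 := zp_two_pow hY (2 * K)
    rw [pow_mul] at h1
    push_cast at h1
    norm_num at h1
    exact h1
  have hsm : ∀ s' j, s' < K → j < K → n.hh s' * n.del s' j ≤ Y ^ (-(c : ℤ)) := fun s' j hs' hj =>
    zp_of_mul hY (by
      have h1 := hn.small s' j hs' hj
      rw [mul_assoc] at h1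
      exact h1)
  have hdel0 : ∀ s' j, s' < K → j < K → 0 < n.del s' j := fun s' j hs' hj => hn.be_pos s' j 0 hs' hj
  have hy1 : ∀ r, r < K → ∀ J : Finset ι, J ⊂ univ → y r J * n.hh r ≤ Y ^ (2 * (K : ℤ) - c) := by
    intro r hr J hJ
    have h1 := hdel0 r J.card hr (hcard (hsubne hJ))
    simp only [hyd]
    rw [max_eq_right h1.le, mul_assoc]
    refine zp_mul_le hY h4K (mul_nonneg h1.le (by have := hn.hh_one r hr; linarith)) (k := -(c : ℤ)) ?_ (by omega)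
    rw [mul_comm]
    exact hsm r J.card hr (hcard (hsubne hJ))
  have hy2 : ∀ r, r < K → ∀ J : Finset ι, J ⊂ univ → y r J ≤ Y ^ (2 * (K : ℤ) - c) := by
    intro r hr J hJ
    refine le_trans ?_ (hy1 r hr J hJ)
    have := hn.hh_one r hr
    nlinarith [hy0 r J]
  have hσ1 : σ ≤ Y ^ (-(c : ℤ)) := hσ.trans (zp_mono hY (by omega))
  have hbu : ∀ I : Finset ι, I ⊂ univ → 0 ≤ Y + Y * n.w k / n.w I.card ∧ Y + Y * n.w k / n.w I.card ≤ n.hh I.card := by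
    intro I hI
    constructor
    · have h1 := hn.w_pos k
      have h2 := hn.w_pos I.card
      positivity
    · have h1 := hn.hh_ge I.card (hcard (hsubne hI))
      have h2 : K - 1 = k := by omega
      rw [h2, ← mul_div_assoc] at h1
      exact h1
  have hB := B_le (ι := ι) hY (k := k) (b := b) (K := K) (c := c) (e0 := e0) hk (N := N) (σ := σ) (q := P.Pr (Dd T))
    (c0 := c0) (ρ := ρ) hN0 hNb hσ0 hσ1 (P.Pr_nonneg _) hq hc0 hc0b hρd hK (y := y) hy0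
    (fun r hr J hJ => hy2 (r + 1) (by omega) J hJ) (bu := fun I => Y + Y * n.w k / n.w I.card) (Jn := Jn)
    (fun I hI => (hbu I hI).1)
    (fun I hI => by
      have h1 := hn.hh_le I.card (hcard (hsubne hI))
      rw [zp_nat] at h1
      exact zp_mul_le hY hσ (hbu I hI).1 ((hbu I hI).2.trans h1) (by omega))
    (fun r hr I hI => by
      have hcI := mem_sz.1 hI
      have hIu : I ⊂ univ := by
        rw [← Finset.mem_ssubsets, ssub_univ_eq, mem_szlt, hcI, hK, hk]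
        omega
      have h1 := hy1 (r + 1) (by omega) I hIu
      refine le_trans ?_ h1
      refine mul_le_mul_of_nonneg_left ?_ (hy0 _ _)
      have h2 := (hbu I hIu).2
      rw [hcI] at h2 ⊢
      exact h2)
    (fun I _ => (zp_pos hY _).le) (fun I _ => le_rfl)
  have hcm2 := hcm.trans hB
  -- the end
  have hfin := cm_final (hM := hM) hc0 hR hp hhot (fun J u => hotM_top n Ap S σ T J u) (S' := S') hs2 hSX hρ hρ' hcm2
  have hthr : 2 * ρ / (s2 - s) ^ 2 + ρ' ≤ Y ^ (-(e0 : ℤ)) := by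
    have h1 : 2 * ρ / (s2 - s) ^ 2 ≤ Y ^ (-((e0 : ℤ) + 1)) := by
      rw [div_eq_mul_one_div]
      refine zp_mul_le hY (zp_two hY _) (by positivity) hsb (by omega)
    exact zp_add hY h1 le_rfl (by omega)
  refine (P.Pr_mono (fun u _ => ?_)).trans (hfin.trans ?_)
  · rintro ⟨t, ht, h⟩
    exact ⟨t, ht, hthr.trans h⟩
  -- the three terms
  have g1 : Y ^ (5 * (b : ℤ) + 6 * K + e0 + 10 - c) / ρ ≤ Y ^ (-(e0 : ℤ) - 2) := by
    rw [div_eq_mul_one_div, hρd, one_div, ← zpow_neg]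
    exact zp_mul_le hY le_rfl (zp_pos hY _).le le_rfl (by omega)
  have hhotle : ∀ J ∈ (univ : Finset ι).ssubsets, (1 + 1 / c0) *
      P.Pr (fun u => ∃ t ≤ T, pal P (knq x Q) hot J t u ∧ hot J t u) ≤ Y ^ (2 * (K : ℤ) + 2 * b + 6 - c2) := by
    intro J hJ
    have h1 := hot_le hn hK hX hM hc0 hR hAp hsat hcold (hsubne (Finset.mem_ssubsets.1 hJ))
    have h2 : (1 : ℝ) + 1 / c0 ≤ Y ^ ((b : ℤ) + 1) := zp_add hY (zp_one hY (by omega)) hc0b le_rfl
    refine zp_mul_le hY h2 (P.Pr_nonneg _) (k := 2 * (K : ℤ) + b + 5 - c2) (h1.trans ?_) (by omega)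
    have h3 : ((Y : ℝ) ^ c)⁻¹ = Y ^ (-(c : ℤ)) := by rw [zpow_neg, zpow_natCast]
    have h4 : Real.sqrt (((Y : ℝ) ^ c)⁻¹) = Y ^ (-(c2 : ℤ)) := by
      rw [h3, hc2]
      have : (Y : ℝ) ^ (-((2 * c2 : ℕ) : ℤ)) = Y ^ (-(c2 : ℤ)) * Y ^ (-(c2 : ℤ)) := by
        rw [zp_mul hY]
        congr 1
        push_cast
        ring
      rw [this]
      exact Real.sqrt_mul_self (zp_pos hY _).le
    have h5 : (2 : ℝ) ^ (K + 2) + 4 * (1 / c0) ≤ Y ^ ((K : ℤ) + b + 3) := by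
      refine zp_add hY (m := (K : ℤ) + b + 2) ?_ ?_ (by omega)
      · refine (zp_two_pow hY (K + 2)).trans (zp_mono hY (by push_cast; omega))
      · have h6 : (4 : ℝ) ≤ Y ^ (2 : ℤ) := by
          have := zp_two_pow hY 2
          norm_num at this
          exact this
        exact zp_mul_le hY h6 (by positivity) hc0b (by omega)
    have h2K := zp_two_pow hY K
    have h6 : (2 : ℝ) ^ K * (((Y : ℝ) ^ c)⁻¹ * (2 ^ (K + 2) + 4 * (1 / c0))) ≤ Y ^ (2 * (K : ℤ) + b + 3 - c2) := by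
      rw [h3]
      refine zp_mul_le hY h2K (by positivity) (k := (K : ℤ) + b + 3 - c2) (zp_mul_le hY le_rfl (by positivity) h5 (by omega))
        (by omega)
    have h7 : (2 : ℝ) ^ K * Real.sqrt (((Y : ℝ) ^ c)⁻¹) ≤ Y ^ (2 * (K : ℤ) + b + 3 - c2) := by
      rw [h4]
      exact zp_mul_le hY h2K (zp_pos hY _).le le_rfl (by omega)
    have h8 := zp_add hY h6 h7 (k := 2 * (K : ℤ) + b + 4 - c2) (by omega)
    exact zp_add hY h8 (zp_mono hY (show -(c2 : ℤ) ≤ 2 * (K : ℤ) + b + 4 - c2 by omega)) (by omega)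
  have hss : (((univ : Finset ι).ssubsets.card : ℕ) : ℝ) ≤ Y ^ (K : ℤ) := by
    refine le_trans ?_ (zp_two_pow hY K)
    have h1 : (univ : Finset ι).ssubsets.card ≤ 2 ^ K := by
      rw [← hK, ← Fintype.card_finset]
      exact Finset.card_le_univ _
    exact_mod_cast h1
  have g2 : ∑ J ∈ (univ : Finset ι).ssubsets, (1 + 1 / c0) *
      P.Pr (fun u => ∃ t ≤ T, pal P (knq x Q) hot J t u ∧ hot J t u) ≤ Y ^ (-(e0 : ℤ) - 2) :=
    sum_le_zp hY _ hss hhotle (by omega)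
  have g3 : 3 * P.Pr (Dd T) / ρ' ≤ Y ^ (-(e0 : ℤ) - 2) := by
    have h3 : (3 : ℝ) ≤ Y ^ (2 : ℤ) := by
      have h5 := zp_two_pow hY 2
      have h4 : (3 : ℝ) ≤ 2 ^ 2 := by norm_num
      exact h4.trans h5
    rw [div_eq_mul_one_div, hρ'd, one_div, ← zpow_neg]
    refine zp_mul_le hY (zp_mul_le hY h3 (P.Pr_nonneg _) hq (l := 2 - (c : ℤ)) (by omega)) (zp_pos hY _).le le_rfl (by omega)
  have g4 := zp_two hY (-(e0 : ℤ) - 2)
  have g5 := zp_two hY (-(e0 : ℤ) - 2 + 1)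
  have g6 := zp_mono hY (show -(e0 : ℤ) - 2 + 1 + 1 ≤ -(e0 : ℤ) by omega)
  have g7 := zp_pos hY (-(e0 : ℤ) - 2)
  linarith

end main

end

end Pool.Agent.GMM
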