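import Pool.Agent.GMM.Def

/-!
# GMM/Coll: collections embedded in each other, and the case `r = 0` of the static theorem (row CM; helper50)

* `ip_node`, `mX_node`, `mG_node` : an independent part of the known variable can be forgotten;
* `mX_map_eq`, `mG_map_eq` : the family `S.map e` in a larger vertex set;
* `E_ip_emb` : `E I(L_G; L_𝒜 | L_𝒞)` is the same in a collection and in a collection in which it is embedded;
  `mmG_emb_eq`, `mmG_emb` : the mean of `m_G`;
* `AlBd` : alphabets; `Hc_le_nA`, `E_hp_LC`, `E_hp_Lf` : entropy of a label, of a family of labels;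
* `Wn`, `en` : `n` copies of the free vertices; `mmG_base`, `phB_le`, `base_bd` : the case `r = 0`;
* `mmG_le_mst`, `Ext_zero`, `mst_base`, `Bd_of_BdX`, `card_LS_le`.
-/

set_option autoImplicit false
set_option linter.unusedSectionVars false

namespace Pool.Agent.GMM

open Finset Pool.Agent.PWZ Pool.Agent.M3 Pool.Agent.M3.FP Pool.Agent.GMC

noncomputable section

/-! ## forgetting independent parts of the known variable -/

section node

variable {Om : Type*} [Fintype Om] (P : FP Om) {κ κ' ι ι' ν ν' μ : Type*}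

theorem ip_node {A : Om → μ} {Y' : Om → ι'} (h : P.Indep A Y') {φ : Om → ν} {ψ : Om → ν'} (hψ : Fac Y' ψ)
    (hφ : Fac ψ φ) {X : Om → κ} {Y : Om → κ'} {Z : Om → ι} (hX : Fac (fun w => (A w, φ w)) X)
    (hY : Fac (fun w => (A w, φ w)) Y) (hZ : Fac (fun w => (A w, φ w)) Z) {w : Om} (hw : P.p w ≠ 0) :
    GMC.ip P X Y Z ψ w = GMC.ip P X Y Z φ w := by
  unfold GMC.ip
  rw [hp_node P h hψ hφ hX hZ hw, hp_node P h hψ hφ hX (hY.prod hZ) hw]

variable {W Lm ε : Type*} [Fintype W] [DecidableEq W]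

theorem mX_node {A : Om → μ} {Y' : Om → ι'} (h : P.Indep A Y') {φ : Om → ν} {ψ : Om → ν'} (hψ : Fac Y' ψ)
    (hφ : Fac ψ φ) (L : Finset W → Om → Lm) (Ex : Om → ε) (S : Finset (Finset W)) (G : Finset W)
    (hL : ∀ H ∈ insert G (S ∪ G.ssubsets), Fac (fun w => (A w, φ w)) (L H)) (hE : Fac (fun w => (A w, φ w)) Ex)
    {w : Om} (hw : P.p w ≠ 0) : GMM.mX P L Ex ψ S G w = GMM.mX P L Ex φ S G w := by
  unfold GMM.mX
  refine ip_node P h hψ hφ (hL G (mem_insert_self _ _)) (hE.prod (Lf_of L fun J hJ => hL J ?_))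
    (Lf_of L fun J hJ => hL J ?_) hw
  · exact mem_insert_of_mem (mem_union_left _ (mem_prev.1 hJ).1)
  · exact mem_insert_of_mem (mem_union_right _ hJ)

theorem mG_node {A : Om → μ} {Y' : Om → ι'} (h : P.Indep A Y') {φ : Om → ν} {ψ : Om → ν'} (hψ : Fac Y' ψ)
    (hφ : Fac ψ φ) (L : Finset W → Om → Lm) (S : Finset (Finset W)) (G : Finset W)
    (hL : ∀ H ∈ insert G (S ∪ G.ssubsets), Fac (fun w => (A w, φ w)) (L H))
    {w : Om} (hw : P.p w ≠ 0) : GMM.mG P L ψ S G w = GMM.mG P L φ S G w := by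
  rw [← mX_const P L () ψ S G w, ← mX_const P L () φ S G w]
  exact mX_node P h hψ hφ L (fun _ => ()) S G hL (Fac.const _ _) hw

end node

/-! ## embedded families -/

section emb

variable {Om : Type*} [Fintype Om] (P : FP Om) {W W' Lm ε ν : Type*} [Fintype W] [DecidableEq W] [Fintype W']
  [DecidableEq W']

/-- the image of a family under an embedding of the vertices -/
def fm (e : W ↪ W') (S : Finset (Finset W)) : Finset (Finset W') := S.image fun H => H.map e

theorem mem_fm {e : W ↪ W'} {S : Finset (Finset W)} {J : Finset W'} : J ∈ fm e S ↔ ∃ I ∈ S, I.map e = J := by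
  unfold fm
  rw [Finset.mem_image]

theorem prev_map (e : W ↪ W') (S : Finset (Finset W)) (G : Finset W) :
    prev (fm e S) (G.map e) = fm e (prev S G) := by
  ext J
  rw [mem_prev, mem_fm, mem_fm]
  constructor
  · rintro ⟨⟨I, hI, rfl⟩, h2, h3⟩
    refine ⟨I, mem_prev.2 ⟨hI, by rwa [Finset.card_map, Finset.card_map] at h2, fun h4 => h3 (by rw [h4])⟩, rfl⟩
  · rintro ⟨I, hI, rfl⟩
    obtain ⟨h1, h2, h3⟩ := mem_prev.1 hI
    exact ⟨⟨I, h1, rfl⟩, by rw [Finset.card_map, Finset.card_map]; exact h2,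
      fun h4 => h3 (Finset.map_injective e h4)⟩

theorem ssub_map (e : W ↪ W') (G : Finset W) : (G.map e).ssubsets = fm e G.ssubsets := by
  ext J
  rw [mem_fm]
  exact ssubsets_map e G J

theorem Lf_fm (e : W ↪ W') {L : Finset W → Om → Lm} {L' : Finset W' → Om → Lm} {S : Finset (Finset W)}
    (hL : ∀ J ∈ S, ∀ w, L' (J.map e) w = L J w) : Fac (Lf L' (fm e S)) (Lf L S) ∧ Fac (Lf L S) (Lf L' (fm e S)) := by
  constructor
  · refine Lf_of L fun J hJ => ?_
    rw [← funext (hL J hJ)]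
    exact Lf_one L' (mem_fm.2 ⟨J, hJ, rfl⟩)
  · refine Lf_of L' fun J hJ => ?_
    obtain ⟨I, hI, rfl⟩ := mem_fm.1 hJ
    rw [funext (hL I hI)]
    exact Lf_one L hI

/-- `m*_G` in a family which is embedded in a larger vertex set -/
theorem mX_map_eq (e : W ↪ W') (L : Finset W → Om → Lm) (L' : Finset W' → Om → Lm) (Ex : Om → ε) (N : Om → ν)
    {S : Finset (Finset W)} {G : Finset W} (hSG : Dc S) (hG : G ∈ S) (hL : ∀ J ∈ S, ∀ w, L' (J.map e) w = L J w)
    (w : Om) : GMM.mX P L' Ex N (fm e S) (G.map e) w = GMM.mX P L Ex N S G w := by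
  obtain ⟨a1, a2⟩ := Lf_fm e (L := L) (L' := L') (S := prev S G) fun J hJ => hL J (mem_prev.1 hJ).1
  obtain ⟨b1, b2⟩ := Lf_fm e (L := L) (L' := L') (S := G.ssubsets) fun J hJ => hL J (hSG G hG hJ)
  unfold GMM.mX
  rw [prev_map, ssub_map, show L' (G.map e) = L G from funext (hL G hG)]
  exact ip_congr P (Fac.fst _ _) ((Fac.fst _ _).trans ((Fac.fst _ _).prod ((Fac.snd _ _).trans a1)))
    ((Fac.fst _ _).trans b1) (Fac.refl _) (Fac.fst _ _) ((Fac.fst _ _).trans ((Fac.fst _ _).prod ((Fac.snd _ _).trans a2)))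
    ((Fac.fst _ _).trans b2) (Fac.refl _) w

theorem mG_map_eq (e : W ↪ W') (L : Finset W → Om → Lm) (L' : Finset W' → Om → Lm) (N : Om → ν)
    {S : Finset (Finset W)} {G : Finset W} (hSG : Dc S) (hG : G ∈ S) (hL : ∀ J ∈ S, ∀ w, L' (J.map e) w = L J w)
    (w : Om) : GMM.mG P L' N (fm e S) (G.map e) w = GMM.mG P L N S G w := by
  rw [← mX_const P L () N S G w, ← mX_const P L' () N _ _ w]
  exact mX_map_eq P e L L' (fun _ => ()) N hSG hG hL w

end emb

/-! ## collections -/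

section coll

variable {ι α χ : Type} [Fintype ι] [DecidableEq ι] [Fintype α] [Fintype χ] [DecidableEq χ] (D : SD ι α χ)
variable {W W' : Type} [Fintype W] [DecidableEq W] [Fintype W'] [DecidableEq W']

theorem CP_indep (ty : W → ι) : (CP D ty).Indep (fun w : CS α χ W => w.1) (Vt (α := α) (χ := χ) (W := W)) :=
  FP.indep_fst_snd _ _

theorem mem_LS_map {ty : W → ι} {ty' : W' → ι} (e : W ↪ W') (hty : ∀ y, ty' (e y) = ty y) {k : ℕ} {G : Finset W} :
    G.map e ∈ LS ty' k ↔ G ∈ LS ty k := by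
  rw [mem_LS, mem_LS, Finset.card_map]
  refine and_congr_right fun _ => ?_
  constructor
  · intro h a ha b hb hab
    refine e.injective (h (Finset.mem_map_of_mem e ha) (Finset.mem_map_of_mem e hb) ?_)
    rw [hty, hty, hab]
  · intro h a ha b hb hab
    rw [Finset.mem_coe, Finset.mem_map] at ha hb
    obtain ⟨y, hy, rfl⟩ := ha
    obtain ⟨z, hz, rfl⟩ := hb
    rw [hty, hty] at hab
    rw [h hy hz hab]

theorem LC_proj {ty : W → ι} {ty' : W' → ι} (e : W ↪ W') (hty : ∀ y, ty' (e y) = ty y) {k : ℕ} {G : Finset W}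
    (hG : G ∈ LS ty k) (p : CS α χ W') : LC D ty' (G.map e) p = LC D ty G (proj e p) :=
  LC_map D e hty (mem_LS.1 hG).2 p

/-- the labels of a family in `LS` are functions of the hidden point and of the projected vertices -/
theorem Fac_LC_proj {ty : W → ι} (e : W → W') (G : Finset W) :
    Fac (fun w : CS α χ W' => (w.1, fun y => w.2 (e y))) (fun w => LC D ty G (proj e w)) := by
  intro v w h
  exact congrArg (LC D ty G) h

/-- an information between families of labels is the same in a collection and in a larger collection -/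
theorem E_ip_emb {ty : W → ι} {ty' : W' → ι} (e : W ↪ W') (hty : ∀ y, ty' (e y) = ty y) {k : ℕ}
    {S1 S2 S3 : Finset (Finset W)} (h1 : S1 ⊆ LS ty k) (h2 : S2 ⊆ LS ty k) (h3 : S3 ⊆ LS ty k) :
    (CP D ty').E (GMC.ip (CP D ty') (Lf (LC D ty') (fm e S1)) (Lf (LC D ty') (fm e S2)) (Lf (LC D ty') (fm e S3)) Vt) =
      (CP D ty).E (GMC.ip (CP D ty) (Lf (LC D ty) S1) (Lf (LC D ty) S2) (Lf (LC D ty) S3) Vt) := by
  have hMP : MP (CP D ty') (CP D ty) (proj (α := α) (χ := χ) e) := MP_proj D e.injective hty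
  rw [← hMP.E_ip]
  refine FP.E_congr _ (fun w hw => ?_)
  obtain ⟨a1, a2⟩ := Lf_fm e (L := fun H w => LC D ty H (proj e w)) (L' := LC D ty') (S := S1)
    fun J hJ w => LC_proj D e hty (h1 hJ) w
  obtain ⟨b1, b2⟩ := Lf_fm e (L := fun H w => LC D ty H (proj e w)) (L' := LC D ty') (S := S2)
    fun J hJ w => LC_proj D e hty (h2 hJ) w
  obtain ⟨c1, c2⟩ := Lf_fm e (L := fun H w => LC D ty H (proj e w)) (L' := LC D ty') (S := S3)
    fun J hJ w => LC_proj D e hty (h3 hJ) w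
  have e1 : GMC.ip (CP D ty') (Lf (LC D ty') (fm e S1)) (Lf (LC D ty') (fm e S2)) (Lf (LC D ty') (fm e S3)) Vt w =
      GMC.ip (CP D ty') (Lf (fun H w => LC D ty H (proj e w)) S1) (Lf (fun H w => LC D ty H (proj e w)) S2)
        (Lf (fun H w => LC D ty H (proj e w)) S3) Vt w :=
    ip_congr _ ((Fac.fst _ _).trans a1) ((Fac.fst _ _).trans b1) ((Fac.fst _ _).trans c1) (Fac.refl _)
      ((Fac.fst _ _).trans a2) ((Fac.fst _ _).trans b2) ((Fac.fst _ _).trans c2) (Fac.refl _) w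
  rw [e1]
  have hf : ∀ S : Finset (Finset W), Fac (fun w : CS α χ W' => (w.1, (fun w => Vt (proj e w)) w))
      (Lf (fun H w => LC D ty H (proj e w)) S) := fun S => Lf_of _ fun J _ => Fac_LC_proj D e J
  exact ip_node (CP D ty') (CP_indep D ty') (Fac.refl _) (φ := fun w => Vt (proj (α := α) (χ := χ) e w))
    (fun x y h => by show (fun z => x.2 (e z)) = fun z => y.2 (e z); rw [show x.2 = y.2 from h])
    (hf S1) (hf S2) (hf S3) hw

theorem mG_eq_Lf {Om : Type*} [Fintype Om] (P : FP Om) {Lm ν : Type*} (L : Finset W → Om → Lm) (N : Om → ν)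
    (S : Finset (Finset W)) (G : Finset W) (w : Om) :
    mG P L N S G w = GMC.ip P (Lf L {G}) (Lf L (prev S G)) (Lf L G.ssubsets) N w := by
  unfold mG
  refine ip_congr P ((Fac.fst _ _).trans (Lf_of L fun J hJ => ?_)) (Fac.fst _ _ |>.trans (Fac.refl _)) (Fac.fst _ _)
    (Fac.refl _) ((Fac.fst _ _).trans (Lf_one L (mem_singleton_self G))) (Fac.fst _ _) (Fac.fst _ _) (Fac.refl _) w
  rw [mem_singleton.1 hJ]
  exact Fac.refl _

theorem fm_singleton (e : W ↪ W') (G : Finset W) : fm e {G} = {G.map e} := by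
  unfold fm
  rw [Finset.image_singleton]

theorem fm_sub_LS {ty : W → ι} {ty' : W' → ι} (e : W ↪ W') (hty : ∀ y, ty' (e y) = ty y) {k : ℕ}
    {S : Finset (Finset W)} (hS : S ⊆ LS ty k) : fm e S ⊆ LS ty' k := by
  intro J hJ
  obtain ⟨I, hI, rfl⟩ := mem_fm.1 hJ
  exact (mem_LS_map e hty).2 (hS hI)

/-- the mean of `m_G` is computed in the embedded family -/
theorem mmG_emb_eq {ty : W → ι} {ty' : W' → ι} (e : W ↪ W') (hty : ∀ y, ty' (e y) = ty y) {k : ℕ} {G : Finset W}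
    (hG : G ∈ LS ty k) : mmG D ty k G =
      (CP D ty').E (mG (CP D ty') (LC D ty') Vt (fm e (LS ty k)) (G.map e)) := by
  have h := E_ip_emb D e hty (k := k) (S1 := {G}) (S2 := prev (LS ty k) G) (S3 := G.ssubsets)
    (by rw [Finset.singleton_subset_iff]; exact hG) (prev_sub _ _) (LS_dc ty k G hG)
  rw [fm_singleton, ← prev_map, ← ssub_map] at h
  unfold mmG
  rw [FP.E_congr _ (fun w _ => mG_eq_Lf (CP D ty) (LC D ty) Vt (LS ty k) G w), ← h]
  exact FP.E_congr _ (fun w _ => (mG_eq_Lf (CP D ty') (LC D ty') Vt (fm e (LS ty k)) (G.map e) w).symm)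

/-- (a) a larger collection has a larger mean of `m_G` -/
theorem mmG_emb {ty : W → ι} {ty' : W' → ι} (e : W ↪ W') (hty : ∀ y, ty' (e y) = ty y) {k : ℕ} {G : Finset W}
    (hG : G ∈ LS ty k) : mmG D ty k G ≤ mmG D ty' k (G.map e) := by
  rw [mmG_emb_eq D e hty hG]
  exact FP.E_mono _ (fun w hw => mG_mono _ _ _ (fm_sub_LS e hty (Subset.refl _)) _ hw)

/-! ## alphabets -/

/-- the labels of the sets of size `s` have at most `exp (aa s)` values for fixed vertices -/
def AlBd (k : ℕ) (aa : ℕ → ℝ) : Prop :=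
  ∀ I : Finset ι, I.card < k → ∀ x : ι → χ, (nA D (fun a => D.lab I a x) : ℝ) ≤ Real.exp (aa I.card)

theorem nA_pos {κ : Type*} (f : α → κ) : 0 < nA D f := by
  classical
  obtain ⟨a, ha⟩ := D.PA.exists_p_ne
  unfold nA
  exact Finset.card_pos.2 ⟨f a, Finset.mem_image_of_mem _ (Finset.mem_filter.2 ⟨mem_univ _, ha⟩)⟩

/-- number of values for fixed vertices -/
theorem nv_le_nA {κ : Type*} (ty : W → ι) (X : CS α χ W → κ) (w : CS α χ W) :
    nv (CP D ty) X Vt w ≤ nA D (fun a => X (a, w.2)) := by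
  classical
  unfold nv nA
  refine Finset.card_le_card (fun x hx => ?_)
  obtain ⟨u, hu, hV, rfl⟩ := mem_vs_iff.1 hx
  have h1 : D.PA.p u.1 ≠ 0 := by
    intro h0
    apply hu
    show D.PA.p u.1 * _ = 0
    rw [h0, zero_mul]
  refine Finset.mem_image.2 ⟨u.1, Finset.mem_filter.2 ⟨mem_univ _, h1⟩, ?_⟩
  show X (u.1, w.2) = X u
  rw [← show u.2 = w.2 from hV]

theorem Hc_le_nA {κ : Type*} (ty : W → ι) (X : CS α χ W → κ) {a : ℝ}
    (h : ∀ u : W → χ, (nA D (fun b => X (b, u)) : ℝ) ≤ Real.exp a) : (CP D ty).Hc X Vt ≤ a := by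
  refine (Hc_le_nv _ _ _).trans (FP.E_le_const _ (fun w hw => ?_))
  have h1 : (0 : ℝ) < (nv (CP D ty) X Vt w : ℝ) := by exact_mod_cast nv_pos hw
  rw [Real.log_le_iff_le_exp h1]
  exact (by exact_mod_cast nv_le_nA D ty X w : (nv (CP D ty) X Vt w : ℝ) ≤ (nA D (fun b => X (b, w.2)) : ℝ)).trans
    (h w.2)

theorem nA_LC {k : ℕ} {aa : ℕ → ℝ} (hA : AlBd D k aa) {ty : W → ι} {G : Finset W} (hG : G ∈ LS ty k) (u : W → χ) :
    (nA D (fun b => LC D ty G (b, u)) : ℝ) ≤ Real.exp (aa G.card) := by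
  have hc : (G.image ty).card = G.card := Finset.card_image_of_injOn (mem_LS.1 hG).2
  have h := hA (G.image ty) (by rw [hc]; exact (mem_LS.1 hG).1) (vx D ty G u)
  rw [hc] at h
  exact h

/-- mean entropy of a label given anything and all vertices -/
theorem E_hp_LC {k : ℕ} {aa : ℕ → ℝ} (hA : AlBd D k aa) {ty : W → ι} {G : Finset W} (hG : G ∈ LS ty k)
    {κ : Type*} (Z : CS α χ W → κ) : (CP D ty).E (hp (CP D ty) (LC D ty G) Z Vt) ≤ aa G.card := by
  rw [E_hp]
  exact (FP.Hc_anti _ _ (Fac.snd Z Vt)).trans (Hc_le_nA D ty _ (nA_LC D hA hG))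

/-- the entropy of a family is at most the sum -/
theorem hp_Lf_le_sum {Om : Type*} [Fintype Om] (P : FP Om) {Lm κ ν : Type*} (L : Finset W → Om → Lm) (Z : Om → κ)
    (N : Om → ν) (S : Finset (Finset W)) {w : Om} (hw : P.p w ≠ 0) :
    hp P (Lf L S) Z N w ≤ ∑ G ∈ S, hp P (L G) Z N w := by
  induction S using Finset.induction_on with
  | empty => rw [hp_empty P L Z N hw, Finset.sum_empty]
  | insert G S hG ih =>
    rw [hp_insert P L Z N hw, Finset.sum_insert hG]
    have := hp_anti P (L G) (Z := fun u => (Lf L S u, Z u)) (Z' := Z) N ((Fac.fst _ _).trans (Fac.snd _ _)) hw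
    linarith

theorem E_hp_Lf {k : ℕ} {aa : ℕ → ℝ} (hA : AlBd D k aa) {ty : W → ι} {S : Finset (Finset W)} {s : ℕ}
    (hS : S ⊆ LS ty k) (hs : ∀ G ∈ S, G.card = s) {κ : Type*} (Z : CS α χ W → κ) :
    (CP D ty).E (hp (CP D ty) (Lf (LC D ty) S) Z Vt) ≤ S.card * aa s := by
  refine (FP.E_mono _ (fun w hw => hp_Lf_le_sum _ _ Z Vt S hw)).trans ?_
  rw [FP.E_sum, ← nsmul_eq_mul]
  refine Finset.sum_le_card_nsmul _ _ _ (fun G hG => ?_)
  rw [← hs G hG]
  exact E_hp_LC D hA (hS hG) Z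

/-! ## the case `r = 0` -/

/-- `n` copies of the free vertices, one copy of the exact ones -/
def Wn (ty : W → ι) (n : ℕ) : Type := {p : W × Fin n // ty p.1 ∈ D.J → (p.2 : ℕ) = 0}

instance (ty : W → ι) (n : ℕ) : Fintype (Wn D ty n) := by
  unfold Wn
  infer_instance

instance (ty : W → ι) (n : ℕ) : DecidableEq (Wn D ty n) := by
  unfold Wn
  infer_instance

/-- types of the copies -/
def tyn (ty : W → ι) (n : ℕ) (p : Wn D ty n) : ι := ty p.1.1

/-- the copy `i` -/
def en (ty : W → ι) {n i : ℕ} (hi : i < n) : W ↪ Wn D ty n where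
  toFun y := ⟨(y, if ty y ∈ D.J then ⟨0, by omega⟩ else ⟨i, hi⟩), fun h => by
    show ((if ty y ∈ D.J then (⟨0, by omega⟩ : Fin n) else ⟨i, hi⟩ : Fin n) : ℕ) = 0
    rw [if_pos h]⟩
  inj' y z h := by
    have h1 := congrArg (fun p : Wn D ty n => p.1.1) h
    exact h1

theorem tyn_en (ty : W → ι) {n i : ℕ} (hi : i < n) (y : W) : tyn D ty n (en D ty hi y) = ty y := rfl

theorem en_free (ty : W → ι) {n i : ℕ} (hi : i < n) {y : W} (hy : ty y ∉ D.J) : ((en D ty hi y).1.2 : ℕ) = i := by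
  show ((if ty y ∈ D.J then (⟨0, by omega⟩ : Fin n) else ⟨i, hi⟩ : Fin n) : ℕ) = i
  rw [if_neg hy]

theorem en_J (ty : W → ι) {n i j : ℕ} (hi : i < n) (hj : j < n) {y : W} (hy : ty y ∈ D.J) :
    en D ty hi y = en D ty hj y := by
  apply Subtype.ext
  show (y, (if ty y ∈ D.J then (⟨0, by omega⟩ : Fin n) else ⟨i, hi⟩ : Fin n)) =
    (y, (if ty y ∈ D.J then (⟨0, by omega⟩ : Fin n) else ⟨j, hj⟩ : Fin n))
  rw [if_pos hy, if_pos hy]

theorem map_en_J (ty : W → ι) {n i j : ℕ} (hi : i < n) (hj : j < n) {G : Finset W} (hG : fre D ty G = ∅) :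
    G.map (en D ty hi) = G.map (en D ty hj) := by
  have h : ∀ y ∈ G, ty y ∈ D.J := by
    intro y hy
    by_contra h0
    have h1 : y ∈ fre D ty G := Finset.mem_filter.2 ⟨hy, h0⟩
    rw [hG] at h1
    exact notMem_empty _ h1
  ext p
  simp only [Finset.mem_map]
  constructor
  · rintro ⟨y, hy, rfl⟩
    exact ⟨y, hy, (en_J D ty hi hj (h y hy)).symm⟩
  · rintro ⟨y, hy, rfl⟩
    exact ⟨y, hy, en_J D ty hi hj (h y hy)⟩

theorem JInj_tyn {ty : W → ι} (h : JInj D.J ty) (n : ℕ) : JInj D.J (tyn D ty n) := by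
  intro p q hp hpq
  have h1 : p.1.1 = q.1.1 := h _ _ hp hpq
  have h2 : (p.1.2 : ℕ) = 0 := p.2 hp
  have h3 : (q.1.2 : ℕ) = 0 := q.2 (by rw [← h1]; exact hp)
  exact Subtype.ext (Prod.ext h1 (Fin.ext (by rw [h2, h3])))

theorem card_Wn (ty : W → ι) (n : ℕ) : Fintype.card (Wn D ty n) ≤ Fintype.card W * n := by
  have h := Fintype.card_subtype_le (fun p : W × Fin n => ty p.1 ∈ D.J → (p.2 : ℕ) = 0)
  rw [Fintype.card_prod, Fintype.card_fin] at h
  exact h

theorem fre_map {ty : W → ι} {ty' : W' → ι} (e : W ↪ W') (hty : ∀ y, ty' (e y) = ty y) (G : Finset W) :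
    fre D ty' (G.map e) = (fre D ty G).map e := by
  ext z
  simp only [fre, Finset.mem_filter, Finset.mem_map]
  constructor
  · rintro ⟨⟨y, hy, rfl⟩, h⟩
    exact ⟨y, ⟨hy, by rwa [hty] at h⟩, rfl⟩
  · rintro ⟨y, ⟨hy, h⟩, rfl⟩
    exact ⟨⟨y, hy, rfl⟩, by rwa [hty]⟩

theorem Dc.fm {S : Finset (Finset W)} (h : Dc S) (e : W ↪ W') : Dc (fm e S) := by
  intro J hJ
  obtain ⟨I, hI, rfl⟩ := mem_fm.1 hJ
  rw [ssub_map]
  intro H hH
  obtain ⟨H', hH', rfl⟩ := mem_fm.1 hH
  exact mem_fm.2 ⟨H', h I hI hH', rfl⟩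

theorem fm_disj (e : W ↪ W') {S S' : Finset (Finset W)} (h : Disjoint S S') : Disjoint (fm e S) (fm e S') := by
  rw [Finset.disjoint_left] at h ⊢
  intro J hJ hJ'
  obtain ⟨I, hI, rfl⟩ := mem_fm.1 hJ
  obtain ⟨I', hI', he⟩ := mem_fm.1 hJ'
  rw [Finset.map_injective e he] at hI'
  exact h hI hI'

theorem fm_union (e : W ↪ W') (S S' : Finset (Finset W)) : fm e (S ∪ S') = fm e S ∪ fm e S' := by
  unfold fm
  rw [Finset.image_union]

theorem fm_erase (e : W ↪ W') (S : Finset (Finset W)) (G : Finset W) : fm e (S.erase G) = (fm e S).erase (G.map e) := by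
  ext J
  rw [mem_fm, mem_erase, mem_fm]
  constructor
  · rintro ⟨I, hI, rfl⟩
    rw [mem_erase] at hI
    exact ⟨fun h => hI.1 (Finset.map_injective e h), I, hI.2, rfl⟩
  · rintro ⟨h, I, hI, rfl⟩
    exact ⟨I, mem_erase.2 ⟨fun h1 => h (by rw [h1]), hI⟩, rfl⟩

/-- base sets of size `s` -/
def bT (ty : W → ι) (k s : ℕ) : Finset (Finset W) := (LS ty k).filter fun H => H.card = s ∧ fre D ty H = ∅

/-- base sets of size `< s` -/
def bC (ty : W → ι) (k s : ℕ) : Finset (Finset W) := (LS ty k).filter fun H => H.card < s ∧ fre D ty H = ∅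

/-- sets of size `<= s` with a free vertex -/
def bA (ty : W → ι) (k s : ℕ) : Finset (Finset W) := (LS ty k).filter fun H => H.card ≤ s ∧ fre D ty H ≠ ∅

theorem fre_mono (ty : W → ι) {G H : Finset W} (h : G ⊆ H) : fre D ty G ⊆ fre D ty H := Finset.filter_subset_filter _ h

theorem fre_empty_mono (ty : W → ι) {G H : Finset W} (h : G ⊆ H) (hH : fre D ty H = ∅) : fre D ty G = ∅ := by
  have := fre_mono D ty h
  rw [hH] at this
  exact Finset.subset_empty.1 this

theorem bC_Dc (ty : W → ι) (k s : ℕ) : Dc (bC D ty k s) := by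
  intro G hG H hH
  have h1 := Finset.mem_ssubsets.1 hH
  have h2 := Finset.card_lt_card h1
  obtain ⟨h3, h4, h5⟩ := Finset.mem_filter.1 hG
  exact Finset.mem_filter.2 ⟨LS_dc ty k G h3 hH, by omega, fre_empty_mono D ty h1.1 h5⟩

theorem bCA_Dc (ty : W → ι) (k s : ℕ) : Dc (bC D ty k s ∪ bA D ty k s) := by
  intro G hG H hH
  have h1 := Finset.mem_ssubsets.1 hH
  have h2 := Finset.card_lt_card h1
  have h3 : G ∈ LS ty k ∧ G.card ≤ s := by
    rcases mem_union.1 hG with h | h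
    · obtain ⟨a, b, c⟩ := Finset.mem_filter.1 h
      exact ⟨a, by omega⟩
    · obtain ⟨a, b, c⟩ := Finset.mem_filter.1 h
      exact ⟨a, b⟩
  rw [mem_union]
  by_cases h4 : fre D ty H = ∅
  · exact Or.inl (Finset.mem_filter.2 ⟨LS_dc ty k G h3.1 hH, by omega, h4⟩)
  · exact Or.inr (Finset.mem_filter.2 ⟨LS_dc ty k G h3.1 hH, by omega, h4⟩)

theorem bC_bA (ty : W → ι) (k s : ℕ) : Disjoint (bC D ty k s) (bA D ty k s) := by
  rw [Finset.disjoint_left]
  intro J h1 h2
  exact (Finset.mem_filter.1 h2).2.2 (Finset.mem_filter.1 h1).2.2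

theorem fm_en_J (ty : W → ι) {n i j : ℕ} (hi : i < n) (hj : j < n) {S : Finset (Finset W)}
    (hS : ∀ G ∈ S, fre D ty G = ∅) : fm (en D ty hi) S = fm (en D ty hj) S := by
  unfold fm
  exact Finset.image_congr (fun G hG => map_en_J D ty hi hj (hS G hG))

/-- the groups `A i` of labels of the copy `i` -/
def An (ty : W → ι) (k s n : ℕ) (i : ℕ) : Finset (Finset (Wn D ty n)) :=
  if hi : i < n then fm (en D ty hi) (bA D ty k s) else ∅

theorem An_disj (ty : W → ι) (k s : ℕ) {n i j : ℕ} (hi : i < n) (hj : j < i) :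
    Disjoint (An D ty k s n j) (An D ty k s n i) := by
  unfold An
  rw [dif_pos hi, dif_pos (hj.trans hi), Finset.disjoint_left]
  intro J h1 h2
  obtain ⟨I, hI, rfl⟩ := mem_fm.1 h1
  obtain ⟨I', hI', he⟩ := mem_fm.1 h2
  obtain ⟨y, hy⟩ := Finset.nonempty_iff_ne_empty.2 (Finset.mem_filter.1 hI).2.2
  have hy' := Finset.mem_filter.1 hy
  have h3 : en D ty (hj.trans hi) y ∈ I'.map (en D ty hi) := by
    rw [he]
    exact Finset.mem_map_of_mem _ hy'.1
  obtain ⟨z, hz, hzy⟩ := Finset.mem_map.1 h3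
  have h4 : z = y := congrArg (fun p : Wn D ty n => p.1.1) hzy
  subst h4
  have h5 := en_free D ty hi hy'.2
  have h6 := en_free D ty (hj.trans hi) hy'.2
  rw [hzy] at h5
  omega

/-- the phi term of the case `r = 0`, in one collection -/
def phB (ty : W → ι) (k : ℕ) (G : Finset W) : ℝ :=
  (CP D ty).E (GMC.ip (CP D ty) (Lf (LC D ty) {G})
    (Lf (LC D ty) (bC D ty k G.card ∪ (bT D ty k G.card).erase G)) (Lf (LC D ty) G.ssubsets) Vt)

/-- the case `r = 0` with the phi term `phB` -/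
theorem mmG_base {ty : W → ι} {k : ℕ} {aa : ℕ → ℝ} (hA : AlBd D k aa) {G : Finset W} (hG : G ∈ LS ty k)
    (hf : fre D ty G = ∅) {n : ℕ} (hn : 0 < n) :
    mmG D ty k G ≤ phB D ty k G + (bT D ty k G.card).card * aa G.card / n +
      ∑ H ∈ (LS (tyn D ty n) k).filter (fun H => H.card < G.card ∨ (H.card = G.card ∧ fre D (tyn D ty n) H ≠ ∅)),
        mmG D (tyn D ty n) k H := by
  set s := G.card with hs
  set P := CP D (tyn D ty n) with hP
  set L := LC D (tyn D ty n) with hL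
  set C0 := fm (en D ty hn) (bC D ty k s) with hC0
  set T0 := fm (en D ty hn) (bT D ty k s) with hT0
  have hsubT : bT D ty k s ⊆ LS ty k := Finset.filter_subset _ _
  have hsubC : bC D ty k s ⊆ LS ty k := Finset.filter_subset _ _
  have hsubA : bA D ty k s ⊆ LS ty k := Finset.filter_subset _ _
  have hC : ∀ i (hi : i < n), fm (en D ty hi) (bC D ty k s) = C0 :=
    fun i hi => fm_en_J D ty hi hn (fun G hG => (Finset.mem_filter.1 hG).2.2)
  have hT : ∀ i (hi : i < n), fm (en D ty hi) (bT D ty k s) = T0 :=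
    fun i hi => fm_en_J D ty hi hn (fun G hG => (Finset.mem_filter.1 hG).2.2)
  have hAi : ∀ i (hi : i < n), An D ty k s n i = fm (en D ty hi) (bA D ty k s) := by
    intro i hi
    unfold An
    rw [dif_pos hi]
  have hGT : G ∈ bT D ty k s := Finset.mem_filter.2 ⟨hG, rfl, hf⟩
  have hCA : ∀ i < n, C0 ∪ An D ty k s n i ⊆ LS (tyn D ty n) k := by
    intro i hi
    rw [hAi i hi, hC0]
    exact Finset.union_subset (fm_sub_LS (en D ty hn) (tyn_en D ty hn) hsubC)
      (fm_sub_LS (en D ty hi) (tyn_en D ty hi) hsubA)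
  have hbef : ∀ H ∈ C0 ∪ before (An D ty k s n) n, H ∈ (LS (tyn D ty n) k).filter
      (fun H => H.card < s ∨ (H.card = s ∧ fre D (tyn D ty n) H ≠ ∅)) := by
    intro H hH
    rcases mem_union.1 hH with h | h
    · obtain ⟨I, hI, rfl⟩ := mem_fm.1 h
      obtain ⟨a, b, c⟩ := Finset.mem_filter.1 hI
      exact Finset.mem_filter.2 ⟨(mem_LS_map _ (tyn_en D ty hn)).2 a, Or.inl (by rw [Finset.card_map]; exact b)⟩
    · unfold before at h
      obtain ⟨i, hi, h⟩ := Finset.mem_biUnion.1 h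
      have hi' := mem_range.1 hi
      rw [hAi i hi'] at h
      obtain ⟨I, hI, rfl⟩ := mem_fm.1 h
      obtain ⟨a, b, c⟩ := Finset.mem_filter.1 hI
      refine Finset.mem_filter.2 ⟨(mem_LS_map _ (tyn_en D ty hi')).2 a, ?_⟩
      rcases Nat.lt_or_ge I.card s with h1 | h1
      · exact Or.inl (by rw [Finset.card_map]; exact h1)
      · refine Or.inr ⟨by rw [Finset.card_map]; omega, fun h2 => c ?_⟩
        rw [fre_map D (en D ty hi') (tyn_en D ty hi') I] at h2
        exact Finset.map_eq_empty.1 h2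
  have key := case_base P L (Vt (α := α) (χ := χ) (W := Wn D ty n)) (S := fm (en D ty hn) (LS ty k))
    (S' := LS (tyn D ty n) k) (T0 := T0) (C0 := C0) (G := G.map (en D ty hn)) (An D ty k s n) hn
    (mem_fm.2 ⟨G, hGT, rfl⟩) ?_ ?_ ?_ ?_ ?_ ?_ ?_ ?_
  · -- conclusion
    rw [← mmG_emb_eq D (en D ty hn) (tyn_en D ty hn) hG] at key
    have e1 : P.E (GMC.ip P (L (G.map (en D ty hn))) (Lf L (C0 ∪ T0.erase (G.map (en D ty hn))))
        (Lf L (G.map (en D ty hn)).ssubsets) Vt) = phB D ty k G := by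
      unfold phB
      rw [← E_ip_emb D (en D ty hn) (tyn_en D ty hn) (k := k) (S1 := {G})
        (S2 := bC D ty k G.card ∪ (bT D ty k G.card).erase G) (S3 := G.ssubsets)
        (by rw [Finset.singleton_subset_iff]; exact hG)
        (Finset.union_subset hsubC ((Finset.erase_subset _ _).trans hsubT)) (LS_dc ty k G hG)]
      rw [fm_singleton, fm_union, fm_erase, ← ssub_map]
      refine FP.E_congr _ (fun w _ => ?_)
      refine ip_congr _ ((Fac.fst _ _).trans (Lf_of _ fun J hJ => ?_)) (Fac.fst _ _) (Fac.fst _ _) (Fac.refl _)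
        ((Fac.fst _ _).trans (Lf_one _ (mem_singleton_self _))) (Fac.fst _ _) (Fac.fst _ _) (Fac.refl _) w
      rw [mem_singleton.1 hJ]
      exact Fac.refl _
    have e2 : P.E (hp P (Lf L T0) (Lf L C0) Vt) ≤ (bT D ty k s).card * aa s := by
      have h1 := E_hp_Lf D hA (ty := tyn D ty n) (S := T0) (s := s)
        (fm_sub_LS (en D ty hn) (tyn_en D ty hn) hsubT) (fun H hH => by
          obtain ⟨I, hI, rfl⟩ := mem_fm.1 hH
          rw [Finset.card_map]
          exact (Finset.mem_filter.1 hI).2.1) (Lf L C0)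
      have h2 : T0.card = (bT D ty k s).card := Finset.card_image_of_injective _ (Finset.map_injective _)
      rw [h2] at h1
      exact h1
    have e3 : ∑ H ∈ C0 ∪ before (An D ty k s n) n, P.E (mG P L Vt (LS (tyn D ty n) k) H) ≤
        ∑ H ∈ (LS (tyn D ty n) k).filter (fun H => H.card < s ∨ (H.card = s ∧ fre D (tyn D ty n) H ≠ ∅)),
          mmG D (tyn D ty n) k H := by
      refine Finset.sum_le_sum_of_subset_of_nonneg (fun H hH => hbef H hH) (fun H _ _ => ?_)
      exact FP.E_nonneg _ (fun w hw => mG_nonneg _ _ _ _ _ hw)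
    have hn' : (0 : ℝ) < n := by exact_mod_cast hn
    have e4 := div_le_div_of_nonneg_right e2 hn'.le
    rw [e1] at key
    linarith
  · -- prev
    intro J hJ
    rw [prev_map] at hJ
    obtain ⟨I, hI, rfl⟩ := mem_fm.1 hJ
    obtain ⟨a, b, c⟩ := mem_prev.1 hI
    by_cases h1 : fre D ty I = ∅
    · rcases Nat.lt_or_ge I.card s with h2 | h2
      · exact mem_union_left _ (mem_union_left _ (mem_fm.2 ⟨I, Finset.mem_filter.2 ⟨a, h2, h1⟩, rfl⟩))
      · refine mem_union_left _ (mem_union_right _ (mem_erase.2 ⟨fun h => c (Finset.map_injective _ h), ?_⟩))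
        exact mem_fm.2 ⟨I, Finset.mem_filter.2 ⟨a, by omega, h1⟩, rfl⟩
    · refine mem_union_right _ ?_
      rw [hAi 0 hn]
      exact mem_fm.2 ⟨I, Finset.mem_filter.2 ⟨a, b, h1⟩, rfl⟩
  · -- ssubsets
    intro J hJ
    rw [ssub_map] at hJ
    obtain ⟨I, hI, rfl⟩ := mem_fm.1 hJ
    have h1 := Finset.mem_ssubsets.1 hI
    exact mem_fm.2 ⟨I, Finset.mem_filter.2 ⟨LS_dc ty k G hG hI, Finset.card_lt_card h1,
      fre_empty_mono D ty h1.1 hf⟩, rfl⟩
  · exact (bC_Dc D ty k s).fm _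
  · intro i hi
    rw [hAi i hi, ← hC i hi, ← fm_union]
    exact (bCA_Dc D ty k s).fm _
  · intro i hi
    rw [hAi i hi, ← hC i hi]
    exact fm_disj _ (bC_bA D ty k s)
  · intro i hi j hj
    exact An_disj D ty k s hi hj
  · intro H hH
    exact (Finset.mem_filter.1 (hbef H hH)).1
  · intro i hi
    rw [hAi i hi, hAi 0 hn]
    have h1 := E_ip_emb D (en D ty hi) (tyn_en D ty hi) hsubT hsubA hsubC
    have h2 := E_ip_emb D (en D ty hn) (tyn_en D ty hn) hsubT hsubA hsubC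
    rw [hT i hi, hC i hi] at h1
    rw [← h2] at h1
    exact h1

theorem ip_zero {Om : Type*} [Fintype Om] (P : FP Om) {κ κ' ν μ : Type*} (X : Om → κ) {Y : Om → κ'} {Z : Om → ν}
    (N : Om → μ) (h : Fac Z Y) (w : Om) : GMC.ip P X Y Z N w = 0 := by
  unfold GMC.ip
  rw [sub_eq_zero]
  refine hp_congr P (Fac.fst _ _) ((Fac.fst _ _).trans (h.prod (Fac.refl _))) (Fac.refl _) (Fac.fst _ _)
    ((Fac.fst _ _).trans (Fac.snd _ _)) (Fac.refl _) w

theorem nA_const' {κ : Type*} (c : κ) : nA D (fun _ : α => c) ≤ 1 := by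
  classical
  unfold nA
  refine (Finset.card_le_card (t := {c}) (fun x hx => ?_)).trans (by simp)
  obtain ⟨a, _, rfl⟩ := Finset.mem_image.1 hx
  exact mem_singleton_self _

theorem fre_empty_iff {ty : W → ι} {G : Finset W} : fre D ty G = ∅ ↔ ∀ y ∈ G, ty y ∈ D.J := by
  unfold fre
  rw [Finset.filter_eq_empty_iff]
  simp only [not_not]

/-- the phi term at the exact vertices -/
theorem phB_le {ty : W → ι} (hJ : JInj D.J ty) {k : ℕ} {G : Finset W} (hG : G ∈ LS ty k) (hf : fre D ty G = ∅)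
    {A δ : ℝ} (hphi : PhiBd D G.card A δ) (hA : 0 ≤ A) (hδ : 0 ≤ δ) : phB D ty k G ≤ δ := by
  have hfam : ∀ H ∈ bC D ty k G.card ∪ (bT D ty k G.card).erase G, H ∈ LS ty k ∧ H.card ≤ G.card ∧ H ≠ G ∧
      fre D ty H = ∅ := by
    intro H hH
    rcases mem_union.1 hH with h | h
    · obtain ⟨a, b, c⟩ := Finset.mem_filter.1 h
      exact ⟨a, b.le, fun h => by rw [h] at b; omega, c⟩
    · rw [mem_erase] at h
      obtain ⟨a, b, c⟩ := Finset.mem_filter.1 h.2
      exact ⟨a, b.le, h.1, c⟩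
  by_cases hJG : D.J ⊆ G.image ty
  · -- `G = J`
    have h0 : phB D ty k G = 0 := by
      unfold phB
      refine (FP.E_congr (CP D ty) (fun w _ => ip_zero (CP D ty) _ Vt ?_ w)).trans (FP.E_const _ 0)
      refine Lf_sub _ fun H hH => ?_
      obtain ⟨a, b, c, d⟩ := hfam H hH
      rw [Finset.mem_ssubsets]
      refine Finset.ssubset_iff_subset_ne.2 ⟨fun y hy => ?_, c⟩
      have h1 := (fre_empty_iff D).1 d y hy
      obtain ⟨z, hz, hzy⟩ := Finset.mem_image.1 (hJG h1)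
      rw [hJ y z h1 hzy.symm]
      exact hz
    rw [h0]
    exact hδ
  · set W1 := {y : W // ty y ∈ D.J} with hW1
    set e1 : W1 ↪ W := Function.Embedding.subtype _ with he1
    set e2 : W1 ↪ ι := ⟨fun y => ty y.1, fun y z h => Subtype.ext (hJ _ _ y.2 h)⟩ with he2
    set ty1 : W1 → ι := fun y => ty y.1 with hty1
    have hback : ∀ H : Finset W, (∀ y ∈ H, ty y ∈ D.J) → ((H.subtype (fun y => ty y ∈ D.J)).map e1 : Finset W) = H :=
      fun H hH => Finset.subtype_map_of_mem hH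
    set G1 : Finset W1 := G.subtype (fun y => ty y ∈ D.J) with hG1
    have hG1G : G1.map e1 = G := hback G ((fre_empty_iff D).1 hf)
    set F1 : Finset (Finset W1) := univ.filter (fun H : Finset W1 => H.map e1 ∈
      bC D ty k G.card ∪ (bT D ty k G.card).erase G) with hF1
    have hF1' : fm e1 F1 = bC D ty k G.card ∪ (bT D ty k G.card).erase G := by
      ext H
      rw [mem_fm]
      constructor
      · rintro ⟨I, hI, rfl⟩
        exact (Finset.mem_filter.1 hI).2
      · intro hH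
        have h1 := hback H ((fre_empty_iff D).1 (hfam H hH).2.2.2)
        exact ⟨_, Finset.mem_filter.2 ⟨mem_univ _, by rw [h1]; exact hH⟩, h1⟩
    have hG1L : G1 ∈ LS ty1 k := (mem_LS_map e1 (ty' := ty) (fun _ => rfl)).1 (by rw [hG1G]; exact hG)
    have hF1L : F1 ⊆ LS ty1 k := by
      intro H hH
      exact (mem_LS_map e1 (ty' := ty) (fun _ => rfl)).1 ((hfam _ (Finset.mem_filter.1 hH).2).1)
    have hGi : G1.map e2 = G.image ty := by
      rw [← hG1G]
      ext i
      simp only [Finset.mem_map, Finset.mem_image]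
      constructor
      · rintro ⟨y, hy, rfl⟩
        exact ⟨y.1, ⟨y, hy, rfl⟩, rfl⟩
      · rintro ⟨_, ⟨y, hy, rfl⟩, rfl⟩
        exact ⟨y, hy, rfl⟩
    have hcard : (G.image ty).card = G.card := Finset.card_image_of_injOn (mem_LS.1 hG).2
    have s1 : ({G1} : Finset (Finset W1)) ⊆ LS ty1 k := by
      rw [Finset.singleton_subset_iff]; exact hG1L
    have a := E_ip_emb D e1 (ty := ty1) (ty' := ty) (fun _ => rfl) s1 hF1L (LS_dc ty1 k G1 hG1L)
    have b := E_ip_emb D e2 (ty := ty1) (ty' := id) (fun _ => rfl) s1 hF1L (LS_dc ty1 k G1 hG1L)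
    rw [hF1', fm_singleton, ← ssub_map, hG1G] at a
    rw [fm_singleton, ← ssub_map, hGi] at b
    have h1 : phB D ty k G = (CP D ty1).E (GMC.ip (CP D ty1) (Lf (LC D ty1) {G1}) (Lf (LC D ty1) F1)
      (Lf (LC D ty1) G1.ssubsets) Vt) := a
    rw [h1, ← b]
    have hv : Let1 D A (fun I => D.J ⊆ I ∧ I ⊂ D.J ∪ G.image ty) (fun _ _ => 0) := by
      refine ⟨fun _ _ _ _ _ _ => rfl, fun _ _ u => ?_⟩
      refine le_trans ?_ (Real.one_le_exp hA)
      exact_mod_cast nA_const' D 0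
    refine le_trans ?_ (hphi (G.image ty) hcard hJG _ hv)
    unfold ph1
    refine FP.E_mono _ (fun w hw => ?_)
    have h2 : GMC.ip (CP D id) (Lf (LC D id) {G.image ty}) (Lf (LC D id) (fm e2 F1))
        (Lf (LC D id) (G.image ty).ssubsets) Vt w =
        GMC.ip (CP D id) (LC D id (G.image ty)) (Lf (LC D id) (fm e2 F1)) (Lf (LC D id) (G.image ty).ssubsets) Vt w := by
      refine ip_congr _ ((Fac.fst _ _).trans (Lf_one _ (mem_singleton_self _))) (Fac.fst _ _) (Fac.fst _ _)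
        (Fac.refl _) ((Fac.fst _ _).trans (Lf_of _ fun J hJ => ?_)) (Fac.fst _ _) (Fac.fst _ _) (Fac.refl _) w
      rw [mem_singleton.1 hJ]
      exact Fac.refl _
    rw [h2]
    refine ip_mono_right _ _ _ _ ((Fac.fst _ _).trans ((Fac.snd _ _).trans (Lf_sub _ fun H hH => ?_))) hw
    obtain ⟨I, hI, rfl⟩ := mem_fm.1 hH
    obtain ⟨c1, c2, c3, c4⟩ := hfam _ (Finset.mem_filter.1 hI).2
    refine Finset.mem_filter.2 ⟨mem_univ _, fun i hi => ?_, ?_, fun h => c3 ?_⟩
    · obtain ⟨y, _, rfl⟩ := Finset.mem_map.1 hi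
      exact mem_union_left _ y.2
    · rw [hcard, Finset.card_map]
      rwa [Finset.card_map] at c2
    · rw [← hGi] at h
      rw [Finset.map_injective e2 h, hG1G]

theorem mmG_le_mst (ty : W → ι) (k : ℕ) (Ex : Finset W → CS α χ W → ℕ) (G : Finset W) :
    mmG D ty k G ≤ mst D ty k Ex G := FP.E_mono _ (fun _ hw => mG_le_mX _ _ _ _ _ _ hw)

theorem Ext_zero (ty : W → ι) (G : Finset W) {A : ℝ} (hA : 0 ≤ A) : Ext D ty G A (fun _ _ => 0) := by
  refine ⟨fun _ _ _ _ _ _ => rfl, fun _ _ u => ?_⟩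
  refine le_trans ?_ (Real.one_le_exp hA)
  exact_mod_cast nA_const' D 0

theorem mst_base {ty : W → ι} {k : ℕ} (Ex : Finset W → CS α χ W → ℕ) {G : Finset W} (hf : fre D ty G = ∅) :
    mst D ty k Ex G = mmG D ty k G := by
  unfold mst mmG
  refine FP.E_congr _ (fun w _ => ?_)
  have h : exT (fre D ty G) Ex = fun _ : CS α χ W => (fun _ : Finset W => (none : Option ℕ)) := by
    funext p P
    unfold exT
    rw [if_neg]
    rw [hf]
    exact Finset.not_ssubset_empty P
  rw [h]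
  exact mX_const _ _ _ _ _ _ w

theorem Bd_of_BdX {k s N : ℕ} {A ε : ℝ} (hA : 0 ≤ A) (h : ∀ r ≤ s, BdX D k s r N A ε) : Bd D k s N ε := by
  intro W _ _ ty hJ hN G hG hs
  refine (mmG_le_mst D ty k (fun _ _ => 0) G).trans (h _ ?_ W ty hJ hN G hG hs rfl _ (Ext_zero D ty G hA))
  rw [← hs]
  exact Finset.card_filter_le _ _

theorem card_bT {ty : W → ι} (hJ : JInj D.J ty) (k s : ℕ) : (bT D ty k s).card ≤ 2 ^ Fintype.card ι := by
  have h1 : bT D ty k s ⊆ (univ.filter fun y : W => ty y ∈ D.J).powerset := by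
    intro H hH
    rw [Finset.mem_powerset]
    intro y hy
    exact Finset.mem_filter.2 ⟨mem_univ _, (fre_empty_iff D).1 (Finset.mem_filter.1 hH).2.2 y hy⟩
  have h2 : (univ.filter fun y : W => ty y ∈ D.J).card ≤ Fintype.card ι := by
    rw [← Finset.card_univ]
    refine Finset.card_le_card_of_injOn ty (fun y _ => mem_univ _) ?_
    intro y hy z hz h
    rw [Finset.mem_coe, Finset.mem_filter] at hy
    exact hJ y z hy.2 h
  refine (Finset.card_le_card h1).trans ?_
  rw [Finset.card_powerset]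
  exact Nat.pow_le_pow_right (by norm_num) h2

theorem card_LS_le (ty : W → ι) (k : ℕ) {N : ℕ} (hN : Fintype.card W ≤ N) : (LS ty k).card ≤ (N + 1) ^ k := by
  rcases Nat.eq_zero_or_pos k with h | h
  · subst h
    have : LS ty 0 = ∅ := by
      ext G
      rw [mem_LS]
      simp
    rw [this]
    simp
  · obtain ⟨k', rfl⟩ : ∃ k', k = k' + 1 := ⟨k - 1, by omega⟩
    refine (card_LS ty k').trans ?_
    calc (Fintype.card W + 1) ^ k' ≤ (N + 1) ^ k' := Nat.pow_le_pow_left (by omega) _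
      _ ≤ (N + 1) ^ (k' + 1) := Nat.pow_le_pow_right (by omega) (by omega)

/-- (b) THE CASE `r = 0` -/
theorem base_bd {k s N n : ℕ} {aa : ℕ → ℝ} {A A' A'' δ ε : ℝ} (hA : AlBd D k aa) (haa : 0 ≤ aa s)
    (hphi : PhiBd D s A δ) (hA0 : 0 ≤ A) (hA1 : 0 ≤ A') (hδ : 0 ≤ δ) (hε : 0 ≤ ε) (hn : 0 < n)
    (hlow : ∀ s' < s, Bd D k s' (N * n) ε) (hup : ∀ r, 1 ≤ r → r ≤ s → BdX D k s r (N * n) A' ε) :
    BdX D k s 0 N A'' (δ + 2 ^ Fintype.card ι * aa s / n + (N * n + 1) ^ k * ε) := by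
  intro W _ _ ty hJ hN G hG hs hr Ex _
  have hf : fre D ty G = ∅ := Finset.card_eq_zero.1 hr
  rw [mst_base D Ex hf]
  have hNn : Fintype.card (Wn D ty n) ≤ N * n := (card_Wn D ty n).trans (Nat.mul_le_mul_right n hN)
  have hJn := JInj_tyn D hJ n
  have h1 := mmG_base D hA hG hf hn
  have h2 := phB_le D hJ hG hf (A := A) (δ := δ) (by rw [hs]; exact hphi) hA0 hδ
  have hn' : (0 : ℝ) < n := by exact_mod_cast hn
  have h3 : (bT D ty k G.card).card * aa G.card / n ≤ 2 ^ Fintype.card ι * aa s / n := by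
    refine div_le_div_of_nonneg_right ?_ hn'.le
    rw [hs]
    refine mul_le_mul_of_nonneg_right ?_ haa
    exact_mod_cast card_bT D hJ k s
  have h4 : ∑ H ∈ (LS (tyn D ty n) k).filter (fun H => H.card < G.card ∨ (H.card = G.card ∧
      fre D (tyn D ty n) H ≠ ∅)), mmG D (tyn D ty n) k H ≤ (N * n + 1) ^ k * ε := by
    have h5 : ∀ H ∈ (LS (tyn D ty n) k).filter (fun H => H.card < G.card ∨ (H.card = G.card ∧
        fre D (tyn D ty n) H ≠ ∅)), mmG D (tyn D ty n) k H ≤ ε := by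
      intro H hH
      obtain ⟨a, b⟩ := Finset.mem_filter.1 hH
      rw [hs] at b
      rcases b with b | ⟨b, c⟩
      · exact hlow H.card b (Wn D ty n) (tyn D ty n) hJn hNn H a rfl
      · refine (mmG_le_mst D _ k (fun _ _ => 0) H).trans (hup _ ?_ ?_ (Wn D ty n) (tyn D ty n) hJn hNn H a b rfl _
          (Ext_zero D _ H hA1))
        · exact Finset.card_pos.2 (Finset.nonempty_iff_ne_empty.2 c)
        · rw [← b]
          exact Finset.card_filter_le _ _
    refine (Finset.sum_le_card_nsmul _ _ _ h5).trans ?_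
    rw [nsmul_eq_mul]
    refine mul_le_mul_of_nonneg_right ?_ hε
    have h6 := (Finset.card_filter_le (LS (tyn D ty n) k) (fun H => H.card < G.card ∨ (H.card = G.card ∧
        fre D (tyn D ty n) H ≠ ∅))).trans (card_LS_le (tyn D ty n) k hNn)
    exact_mod_cast h6
  linarith

end coll

end

end Pool.Agent.GMM
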