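import Pool.Agent.GMC.C3Id

/-!
# GMM/Stat: the static functionals of row CM (CM.2): `m_G`, `def(F)`, the inequalities (D), `M_r` (helper50)

`W` = the vertices of a collection, `L J : Om → Λ` (`J : Finset W`) the labels, `S` = the family of the label sets of the
collection, `N` = the known variable; all entropies are AT THE POINT `N w` (GMC/Hp), `Lf L F` = the labels of the index
sets in `F` (GMC/C3Id).
* `Dc F` : `F` is down-closed;
* `mG P L N S G` = `I(L_G; all labels of size <= |G| of S except L_G | L_<G)` (a set of size `<= |G|` contains `G` only if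
  it is `G`: `prev_eq`);
* `dF P L N F` = `def(F)` = `∑ G ∈ F, H(L_G | L_<G) - H(L_F)`;
* `dF_insert`, `dF_mono`, `dF_nonneg`, `dF_le`, `D_diff` = (D); `D_cond` = (D) with a conditional entropy;
* `dF_szlt_succ` : `M_r = def(|I| <= r) - def(|I| < r)`, `MM_le_mG` : `M_r <= ∑ |I| = r, m_I`;
* `mG_mono` (larger collection), `mG_map` (a collection embedded in another one), `mG_le_hp`;
* `ce_mG` : the mean of `m_G` over a finer known variable; `ce_MM_le` : (D) for means.
-/

set_option autoImplicit false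
set_option linter.unusedSectionVars false

namespace Pool.Agent.GMM

open Finset Pool.Agent.PWZ Pool.Agent.M3 Pool.Agent.M3.FP Pool.Agent.GMC

noncomputable section

variable {Om : Type*} [Fintype Om] (P : FP Om)
variable {W Λ ν ν' : Type*} [Fintype W] [DecidableEq W]

/-- a down-closed family of index sets -/
def Dc (F : Finset (Finset W)) : Prop := ∀ G ∈ F, G.ssubsets ⊆ F

/-- the labels of `S` before `G`: size `<= |G|`, not `G` -/
def prev (S : Finset (Finset W)) (G : Finset W) : Finset (Finset W) := S.filter fun J => J.card ≤ G.card ∧ J ≠ G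

/-- `m_G` at a point -/
def mG (L : Finset W → Om → Λ) (N : Om → ν) (S : Finset (Finset W)) (G : Finset W) (w : Om) : ℝ :=
  GMC.ip P (L G) (Lf L (prev S G)) (Lf L G.ssubsets) N w

/-- `def(F)` at a point -/
def dF (L : Finset W → Om → Λ) (N : Om → ν) (F : Finset (Finset W)) (w : Om) : ℝ :=
  ∑ G ∈ F, hp P (L G) (Lf L G.ssubsets) N w - hp P (Lf L F) (fun _ : Om => ()) N w

theorem mem_prev {S : Finset (Finset W)} {G J : Finset W} : J ∈ prev S G ↔ J ∈ S ∧ J.card ≤ G.card ∧ J ≠ G := by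
  simp [prev]

/-- `prev S G` = the sets of `S` of size `<= |G|` which do not contain `G` -/
theorem prev_eq (S : Finset (Finset W)) (G : Finset W) : prev S G = S.filter fun J => J.card ≤ G.card ∧ ¬ G ⊆ J := by
  ext J
  rw [mem_prev, mem_filter]
  constructor
  · rintro ⟨h1, h2, h3⟩
    exact ⟨h1, h2, fun h => h3 (Finset.eq_of_subset_of_card_le h h2).symm⟩
  · rintro ⟨h1, h2, h3⟩
    exact ⟨h1, h2, fun h => h3 (h ▸ Subset.refl _)⟩

theorem prev_sub (S : Finset (Finset W)) (G : Finset W) : prev S G ⊆ S := filter_subset _ _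

theorem prev_mono {S S' : Finset (Finset W)} (h : S ⊆ S') (G : Finset W) : prev S G ⊆ prev S' G :=
  filter_subset_filter _ h

theorem Dc.ssub_prev {S : Finset (Finset W)} (h : Dc S) {G : Finset W} (hG : G ∈ S) : G.ssubsets ⊆ prev S G := by
  intro J hJ
  have h1 := Finset.mem_ssubsets.1 hJ
  exact mem_prev.2 ⟨h G hG hJ, (Finset.card_lt_card h1).le, fun h2 => h1.2 (h2 ▸ Subset.refl _)⟩

theorem Dc.powerset_sub {S : Finset (Finset W)} (h : Dc S) {G : Finset W} (hG : G ∈ S) : G.powerset ⊆ S := by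
  intro J hJ
  by_cases h1 : J = G
  · rw [h1]; exact hG
  · exact h G hG (Finset.mem_ssubsets.2 (Finset.ssubset_iff_subset_ne.2 ⟨Finset.mem_powerset.1 hJ, h1⟩))

theorem Dc.empty : Dc (∅ : Finset (Finset W)) := fun _ h => absurd h (notMem_empty _)

theorem Dc.union {F F' : Finset (Finset W)} (h : Dc F) (h' : Dc F') : Dc (F ∪ F') := by
  intro G hG
  rcases mem_union.1 hG with h1 | h1
  · exact (h G h1).trans subset_union_left
  · exact (h' G h1).trans subset_union_right

theorem Dc.inter {F F' : Finset (Finset W)} (h : Dc F) (h' : Dc F') : Dc (F ∩ F') := by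
  intro G hG
  rw [mem_inter] at hG
  exact subset_inter (h G hG.1) (h' G hG.2)

theorem Dc.szlt (r : ℕ) : Dc (szlt W r) := fun G hG J hJ => by
  have h1 := Finset.card_lt_card (Finset.mem_ssubsets.1 hJ)
  rw [mem_szlt] at hG ⊢
  omega

/-- erase an element of which no element of `F` is a proper superset -/
theorem Dc.erase {F : Finset (Finset W)} (h : Dc F) {G : Finset W} (hG : ∀ J ∈ F, ¬ G ⊂ J) : Dc (F.erase G) := by
  intro J hJ I hI
  rw [mem_erase] at hJ
  refine mem_erase.2 ⟨fun h1 => hG J hJ.2 ?_, h J hJ.2 hI⟩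
  have h2 := Finset.mem_ssubsets.1 hI
  rwa [h1] at h2

/-- restriction of a down-closed family to a down-closed property -/
theorem Dc.filter {F : Finset (Finset W)} (h : Dc F) (p : Finset W → Prop) [DecidablePred p]
    (hp' : ∀ G J : Finset W, J ⊂ G → p G → p J) : Dc (F.filter p) := by
  intro G hG J hJ
  rw [mem_filter] at hG ⊢
  exact ⟨h G hG.1 hJ, hp' G J (Finset.mem_ssubsets.1 hJ) hG.2⟩

theorem mG_nonneg (L : Finset W → Om → Λ) (N : Om → ν) (S : Finset (Finset W)) (G : Finset W) {w : Om}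
    (hw : P.p w ≠ 0) : 0 ≤ mG P L N S G w := ip_nonneg P _ _ _ N hw

theorem mG_le_hp (L : Finset W → Om → Λ) (N : Om → ν) (S : Finset (Finset W)) (G : Finset W) {w : Om}
    (hw : P.p w ≠ 0) : mG P L N S G w ≤ hp P (L G) (Lf L G.ssubsets) N w := by
  unfold mG GMC.ip
  have := hp_nonneg P (L G) (fun u => (Lf L (prev S G) u, Lf L G.ssubsets u)) N hw
  linarith

theorem mG_fac (L : Finset W → Om → Λ) (N : Om → ν) (S : Finset (Finset W)) (G : Finset W) : Fac N (mG P L N S G) :=
  ip_fac P _ _ _ N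

theorem dF_fac (L : Finset W → Om → Λ) (N : Om → ν) (F : Finset (Finset W)) : Fac N (dF P L N F) := by
  unfold dF
  exact (Fac.finsum _ (fun I _ => hp_fac P (L I) _ N)).sub (hp_fac P _ _ N)

/-- the information of `L_G` about any family of labels before `G` is at most `m_G` -/
theorem ip_le_mG (L : Finset W → Om → Λ) (N : Om → ν) {S T : Finset (Finset W)} {G : Finset W}
    (hT : ∀ J ∈ T, J ∈ prev S G ∨ J ⊂ G) {w : Om} (hw : P.p w ≠ 0) :
    GMC.ip P (L G) (Lf L T) (Lf L G.ssubsets) N w ≤ mG P L N S G w := by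
  unfold mG
  rw [ip_comm P (L G) (Lf L T) _ N hw, ip_comm P (L G) (Lf L (prev S G)) _ N hw]
  refine ip_mono P (L G) _ N ?_ hw
  refine Lf_of L fun J hJ => ?_
  rcases hT J hJ with h | h
  · exact (Fac.fst _ _).trans (Lf_one L h)
  · exact (Fac.snd _ _).trans ((Fac.fst _ _).trans (Lf_one L (Finset.mem_ssubsets.2 h)))

/-- a larger collection has a larger `m_G` -/
theorem mG_mono (L : Finset W → Om → Λ) (N : Om → ν) {S S' : Finset (Finset W)} (h : S ⊆ S') (G : Finset W) {w : Om}
    (hw : P.p w ≠ 0) : mG P L N S G w ≤ mG P L N S' G w :=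
  ip_le_mG P L N (fun _ hJ => Or.inl (prev_mono h G hJ)) hw

/-- one more index set, all proper subsets of which are there -/
theorem dF_insert (L : Finset W → Om → Λ) (N : Om → ν) {F : Finset (Finset W)} {G : Finset W} (hG : G ∉ F)
    (hs : G.ssubsets ⊆ F) {w : Om} (hw : P.p w ≠ 0) :
    dF P L N (insert G F) w = dF P L N F w + GMC.ip P (L G) (Lf L F) (Lf L G.ssubsets) N w := by
  have h1 : hp P (L G) (fun u => (Lf L F u, (fun _ : Om => ()) u)) N w =
      hp P (L G) (fun u => (Lf L F u, Lf L G.ssubsets u)) N w := by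
    refine hp_congr P (Fac.fst _ _) ?_ (Fac.refl _) (Fac.fst _ _) ?_ (Fac.refl _) w
    · exact (Fac.fst _ _).trans ((Fac.fst _ _).trans ((Fac.refl _).prod (Lf_sub L hs)))
    · exact (Fac.fst _ _).trans ((Fac.fst _ _).trans ((Fac.refl _).prod (Fac.const _ ())))
  unfold dF GMC.ip
  rw [Finset.sum_insert hG, hp_insert P L _ N hw, h1]
  ring

/-- every nonempty set difference of families has a smallest element, so a down-closed family is reached from a smaller
down-closed family by adding one set after the other -/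
theorem Dc.induct {F' F : Finset (Finset W)} (h' : Dc F') (h : Dc F) (hF : F' ⊆ F)
    (p : Finset (Finset W) → Prop) (h0 : p F')
    (h1 : ∀ T G, F' ⊆ T → T ⊆ F → Dc T → G ∈ F → G ∉ T → G.ssubsets ⊆ T →
      (∀ J ∈ F, J ∉ T → G.card ≤ J.card) → p T → p (insert G T)) : p F := by
  have key : ∀ n : ℕ, ∀ T : Finset (Finset W), F' ⊆ T → T ⊆ F → Dc T → p T → (F \ T).card = n → p F := by
    intro n
    induction n with
    | zero =>
      intro T _ hT2 _ hp' hn
      rw [Finset.card_eq_zero, Finset.sdiff_eq_empty_iff_subset] at hn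
      rwa [Subset.antisymm hn hT2]
    | succ n ih =>
      intro T hT1 hT2 hT3 hp' hn
      have hne : (F \ T).Nonempty := by
        rw [← Finset.card_pos, hn]; omega
      obtain ⟨G, hG, hmin⟩ := Finset.exists_min_image (F \ T) Finset.card hne
      rw [mem_sdiff] at hG
      have hs : G.ssubsets ⊆ T := by
        intro J hJ
        by_contra hJT
        have h2 := hmin J (mem_sdiff.2 ⟨h G hG.1 hJ, hJT⟩)
        have h3 := Finset.card_lt_card (Finset.mem_ssubsets.1 hJ)
        omega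
      have hm : ∀ J ∈ F, J ∉ T → G.card ≤ J.card := fun J hJ hJT => hmin J (mem_sdiff.2 ⟨hJ, hJT⟩)
      have hDc : Dc (insert G T) := by
        intro J hJ
        rcases mem_insert.1 hJ with h2 | h2
        · rw [h2]; exact hs.trans (subset_insert _ _)
        · exact (hT3 J h2).trans (subset_insert _ _)
      refine ih (insert G T) (hT1.trans (subset_insert _ _)) (insert_subset hG.1 hT2) hDc
        (h1 T G hT1 hT2 hT3 hG.1 hG.2 hs hm hp') ?_
      have h4 : F \ insert G T = (F \ T).erase G := by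
        ext J
        simp only [mem_sdiff, mem_insert, mem_erase]
        tauto
      rw [h4, Finset.card_erase_of_mem (mem_sdiff.2 hG), hn]
      omega
  exact key _ F' (Subset.refl _) hF h' h0 rfl

/-- `def` is monotone on down-closed families -/
theorem dF_mono (L : Finset W → Om → Λ) (N : Om → ν) {F' F : Finset (Finset W)} (h' : Dc F') (h : Dc F) (hF : F' ⊆ F)
    {w : Om} (hw : P.p w ≠ 0) : dF P L N F' w ≤ dF P L N F w := by
  refine Dc.induct h' h hF (fun T => dF P L N F' w ≤ dF P L N T w) le_rfl ?_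
  intro T G _ _ _ _ hG hs _ ih
  rw [dF_insert P L N hG hs hw]
  have := ip_nonneg P (L G) (Lf L T) (Lf L G.ssubsets) N hw
  linarith

theorem dF_empty (L : Finset W → Om → Λ) (N : Om → ν) {w : Om} (hw : P.p w ≠ 0) : dF P L N ∅ w = 0 := by
  unfold dF
  rw [Finset.sum_empty, hp_empty P L _ N hw, sub_zero]

/-- (D), first part -/
theorem dF_nonneg (L : Finset W → Om → Λ) (N : Om → ν) {F : Finset (Finset W)} (h : Dc F) {w : Om} (hw : P.p w ≠ 0) :
    0 ≤ dF P L N F w := by
  rw [← dF_empty P L N hw]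
  exact dF_mono P L N Dc.empty h (empty_subset _) hw

/-- induction over a down-closed family, ordered by size -/
theorem Dc.size_induct {F : Finset (Finset W)} (h : Dc F) (p : Finset (Finset W) → Prop) (h0 : p ∅)
    (h1 : ∀ T G, T ⊆ F → Dc T → G ∈ F → G ∉ T → G.ssubsets ⊆ T → (∀ J ∈ T, J.card ≤ G.card) → p T → p (insert G T)) :
    p F := by
  have key : ∀ n : ℕ, ∀ T : Finset (Finset W), T ⊆ F → Dc T → T.card = n → p T := by
    intro n
    induction n with
    | zero =>
      intro T _ _ hn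
      rw [Finset.card_eq_zero] at hn
      rwa [hn]
    | succ n ih =>
      intro T hT hTd hn
      have hne : T.Nonempty := by
        rw [← Finset.card_pos, hn]; omega
      obtain ⟨G, hG, hmax⟩ := Finset.exists_max_image T Finset.card hne
      have hd : Dc (T.erase G) := hTd.erase fun J hJ hGJ => by
        have h2 := hmax J hJ
        have h3 := Finset.card_lt_card hGJ
        omega
      have hs : G.ssubsets ⊆ T.erase G := by
        intro J hJ
        refine mem_erase.2 ⟨fun h2 => ?_, hTd G hG hJ⟩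
        have h3 := Finset.mem_ssubsets.1 hJ
        rw [h2] at h3
        exact h3.2 (Subset.refl _)
      have h4 := ih (T.erase G) ((erase_subset _ _).trans hT) hd (by rw [Finset.card_erase_of_mem hG, hn]; omega)
      have h5 := h1 (T.erase G) G ((erase_subset _ _).trans hT) hd (hT hG) (notMem_erase _ _) hs
        (fun J hJ => hmax J (mem_of_mem_erase hJ)) h4
      rwa [Finset.insert_erase hG] at h5
  exact key _ F (Subset.refl _) h rfl

/-- (D), second part -/
theorem dF_le (L : Finset W → Om → Λ) (N : Om → ν) {S F : Finset (Finset W)} (h : Dc F) (hS : F ⊆ S) {w : Om}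
    (hw : P.p w ≠ 0) : dF P L N F w ≤ ∑ G ∈ F, mG P L N S G w := by
  refine h.size_induct (fun T => dF P L N T w ≤ ∑ G ∈ T, mG P L N S G w) ?_ ?_
  · rw [dF_empty P L N hw, Finset.sum_empty]
  · intro T G hT _ _ hGT hs hm ih
    rw [dF_insert P L N hGT hs hw, Finset.sum_insert hGT]
    have h2 : GMC.ip P (L G) (Lf L T) (Lf L G.ssubsets) N w ≤ mG P L N S G w := by
      refine ip_le_mG P L N (fun J hJ => Or.inl ?_) hw
      exact mem_prev.2 ⟨hS (hT hJ), hm J hJ, fun h3 => hGT (h3 ▸ hJ)⟩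
    linarith

/-- `H(L_F)` from `def` -/
theorem hp_Lf (L : Finset W → Om → Λ) (N : Om → ν) (F : Finset (Finset W)) (w : Om) :
    hp P (Lf L F) (fun _ : Om => ()) N w = ∑ G ∈ F, hp P (L G) (Lf L G.ssubsets) N w - dF P L N F w := by
  unfold dF
  ring

/-- (D), upper bound for the entropy of a down-closed family -/
theorem hp_Lf_le (L : Finset W → Om → Λ) (N : Om → ν) {F : Finset (Finset W)} (h : Dc F) {w : Om} (hw : P.p w ≠ 0) :
    hp P (Lf L F) (fun _ : Om => ()) N w ≤ ∑ G ∈ F, hp P (L G) (Lf L G.ssubsets) N w := by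
  have := dF_nonneg P L N h hw
  rw [hp_Lf P L N F w]
  linarith

/-- the conditional entropy of a family given a subfamily -/
theorem hp_Lf_cond (L : Finset W → Om → Λ) (N : Om → ν) {F' F : Finset (Finset W)} (hF : F' ⊆ F) {w : Om}
    (hw : P.p w ≠ 0) : hp P (Lf L F) (Lf L F') N w =
      hp P (Lf L F) (fun _ : Om => ()) N w - hp P (Lf L F') (fun _ : Om => ()) N w := by
  have h := hp_chain P (Lf L F) (Lf L F') (fun _ : Om => ()) N hw
  have h1 : hp P (fun u => (Lf L F u, Lf L F' u)) (fun _ : Om => ()) N w = hp P (Lf L F) (fun _ : Om => ()) N w := by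
    refine hp_congr P ?_ (Fac.fst _ _) (Fac.refl _) ?_ (Fac.fst _ _) (Fac.refl _) w
    · exact (Fac.fst _ _).trans (Fac.fst _ _)
    · exact (Fac.fst _ _).trans ((Fac.refl _).prod (Lf_sub L hF))
  have h2 : hp P (Lf L F) (fun u => (Lf L F' u, (fun _ : Om => ()) u)) N w = hp P (Lf L F) (Lf L F') N w := by
    refine hp_congr P (Fac.fst _ _) ?_ (Fac.refl _) (Fac.fst _ _) ?_ (Fac.refl _) w
    · exact (Fac.fst _ _).trans (Fac.fst _ _)
    · exact (Fac.fst _ _).trans ((Fac.refl _).prod (Fac.const _ ()))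
  rw [h1, h2] at h
  linarith

/-- the conditional entropy of the labels outside a subfamily -/
theorem hp_Lf_sdiff (L : Finset W → Om → Λ) (N : Om → ν) (F' F : Finset (Finset W)) (w : Om) :
    hp P (Lf L (F \ F')) (Lf L F') N w = hp P (Lf L F) (Lf L F') N w := by
  refine hp_congr P ?_ (Fac.fst _ _) (Fac.refl _) ((Fac.fst _ _).trans (Lf_sub L sdiff_subset)) (Fac.fst _ _)
    (Fac.refl _) w
  refine Lf_of L fun J hJ => ?_
  by_cases h : J ∈ F'
  · exact (Fac.snd _ _).trans ((Fac.fst _ _).trans (Lf_one L h))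
  · exact (Fac.fst _ _).trans (Lf_one L (mem_sdiff.2 ⟨hJ, h⟩))

/-- the difference of two `def`s, as entropies -/
theorem dF_sub (L : Finset W → Om → Λ) (N : Om → ν) {F' F : Finset (Finset W)} (hF : F' ⊆ F) {w : Om}
    (hw : P.p w ≠ 0) : dF P L N F w - dF P L N F' w =
      ∑ G ∈ F \ F', hp P (L G) (Lf L G.ssubsets) N w - hp P (Lf L (F \ F')) (Lf L F') N w := by
  rw [hp_Lf_sdiff P L N F' F w, hp_Lf_cond P L N hF hw]
  unfold dF
  rw [← Finset.sum_sdiff hF]
  ring

/-- (D), conditional form: the labels of `F` outside `F'`, given those of `F'`, are almost independent in the sense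
of the kernels `P(L_G | L_<G)` -/
theorem D_cond (L : Finset W → Om → Λ) (N : Om → ν) {S F' F : Finset (Finset W)} (h' : Dc F') (h : Dc F) (hF : F' ⊆ F)
    (hS : F ⊆ S) {w : Om} (hw : P.p w ≠ 0) :
    ∑ G ∈ F \ F', hp P (L G) (Lf L G.ssubsets) N w - ∑ G ∈ F, mG P L N S G w ≤
      hp P (Lf L (F \ F')) (Lf L F') N w := by
  have h1 := dF_sub P L N hF hw
  have h2 := dF_nonneg P L N h' hw
  have h3 := dF_le P L N h hS hw
  linarith

/-- upper bound, conditional form -/
theorem D_cond_le (L : Finset W → Om → Λ) (N : Om → ν) {F' F : Finset (Finset W)} (h' : Dc F') (h : Dc F)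
    (hF : F' ⊆ F) {w : Om} (hw : P.p w ≠ 0) :
    hp P (Lf L (F \ F')) (Lf L F') N w ≤ ∑ G ∈ F \ F', hp P (L G) (Lf L G.ssubsets) N w := by
  have h1 := dF_sub P L N hF hw
  have h2 := dF_mono P L N h' h hF hw
  linarith

/-- (D), third part -/
theorem D_diff (L : Finset W → Om → Λ) (N : Om → ν) {S F' F : Finset (Finset W)} (h' : Dc F') (h : Dc F) (hF : F' ⊆ F)
    (hS : F ⊆ S) {w : Om} (hw : P.p w ≠ 0) :
    ∑ G ∈ F \ F', hp P (L G) (Lf L G.ssubsets) N w - ∑ G ∈ F, mG P L N S G w ≤
      hp P (Lf L F) (fun _ : Om => ()) N w - hp P (Lf L F') (fun _ : Om => ()) N w := by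
  rw [← hp_Lf_cond P L N hF hw, ← hp_Lf_sdiff P L N F' F w]
  exact D_cond P L N h' h hF hS hw

theorem szlt_sub_succ (r : ℕ) : szlt W r ⊆ szlt W (r + 1) := fun J hJ => by
  rw [mem_szlt] at hJ ⊢
  omega

theorem szlt_sdiff (r : ℕ) : szlt W (r + 1) \ szlt W r = sz W r := by
  ext J
  rw [mem_sdiff, mem_szlt, mem_szlt, mem_sz]
  omega

/-- `M_r = def(|I| <= r) - def(|I| < r)` -/
theorem MM_eq_dF (L : Finset W → Om → Λ) (N : Om → ν) (r : ℕ) {w : Om} (hw : P.p w ≠ 0) :
    MM P L N r w = dF P L N (szlt W (r + 1)) w - dF P L N (szlt W r) w := by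
  rw [dF_sub P L N (szlt_sub_succ r) hw, szlt_sdiff]
  rfl

/-- `def(|I| < k) = sum of the M_r` -/
theorem dF_szlt (L : Finset W → Om → Λ) (N : Om → ν) (k : ℕ) {w : Om} (hw : P.p w ≠ 0) :
    dF P L N (szlt W k) w = ∑ r ∈ range k, MM P L N r w := by
  induction k with
  | zero =>
    have h : szlt W 0 = ∅ := by
      ext J
      simp [szlt]
    rw [h, dF_empty P L N hw, Finset.range_zero, Finset.sum_empty]
  | succ k ih =>
    rw [Finset.sum_range_succ, ← ih, MM_eq_dF P L N k hw]
    ring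

/-- if no set of `F \ F'` is smaller than one of `F'`, then only the `m_G` of `F \ F'` are paid -/
theorem dF_sub_le (L : Finset W → Om → Λ) (N : Om → ν) {S F' F : Finset (Finset W)} (h' : Dc F') (h : Dc F)
    (hF : F' ⊆ F) (hS : F ⊆ S) (ho : ∀ I ∈ F', ∀ J ∈ F, J ∉ F' → I.card ≤ J.card) {w : Om} (hw : P.p w ≠ 0) :
    dF P L N F w - dF P L N F' w ≤ ∑ G ∈ F \ F', mG P L N S G w := by
  have key := Dc.induct h' h hF (fun T => (∀ I ∈ T, ∀ J ∈ F, J ∉ T → I.card ≤ J.card) ∧
    dF P L N T w - dF P L N F' w ≤ ∑ G ∈ T \ F', mG P L N S G w) ⟨ho, by simp⟩ ?_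
  · exact key.2
  · intro T G hT1 hT2 _ hGF hGT hs hm ih
    refine ⟨?_, ?_⟩
    · intro I hI J hJ hJT
      have h1 : J ∉ T := fun h1 => hJT (mem_insert_of_mem h1)
      rcases mem_insert.1 hI with h2 | h2
      · rw [h2]; exact hm J hJ h1
      · exact ih.1 I h2 J hJ h1
    · have h1 : GMC.ip P (L G) (Lf L T) (Lf L G.ssubsets) N w ≤ mG P L N S G w := by
        refine ip_le_mG P L N (fun J hJ => Or.inl ?_) hw
        exact mem_prev.2 ⟨hS (hT2 hJ), ih.1 J hJ G hGF hGT, fun h3 => hGT (h3 ▸ hJ)⟩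
      have h2 : insert G T \ F' = insert G (T \ F') := by
        rw [Finset.insert_sdiff_of_notMem _ (fun h2 => hGT (hT1 h2))]
      rw [dF_insert P L N hGT hs hw, h2, Finset.sum_insert (fun h3 => hGT (mem_sdiff.1 h3).1)]
      have := ih.2
      linarith

/-- `M_r ≤ ∑ |I| = r, m_I`, in any family which contains all sets of size `<= r` -/
theorem MM_le_mG (L : Finset W → Om → Λ) (N : Om → ν) {S : Finset (Finset W)} (r : ℕ) (hS : szlt W (r + 1) ⊆ S) {w : Om}
    (hw : P.p w ≠ 0) : MM P L N r w ≤ ∑ G ∈ sz W r, mG P L N S G w := by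
  rw [MM_eq_dF P L N r hw, ← szlt_sdiff]
  refine dF_sub_le P L N (Dc.szlt r) (Dc.szlt (r + 1)) (szlt_sub_succ r) hS ?_ hw
  intro I hI J _ hJ
  rw [mem_szlt] at hI hJ
  omega

/-- the label sets of a collection whose vertices have the types `ty`: different types, size `< k` -/
def LS {κ : Type*} [DecidableEq κ] (ty : W → κ) (k : ℕ) : Finset (Finset W) :=
  univ.filter fun G => G.card < k ∧ (G.image ty).card = G.card

theorem mem_LS {κ : Type*} [DecidableEq κ] {ty : W → κ} {k : ℕ} {G : Finset W} :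
    G ∈ LS ty k ↔ G.card < k ∧ Set.InjOn ty (G : Set W) := by
  unfold LS
  rw [mem_filter, Finset.card_image_iff]
  simp

theorem LS_dc {κ : Type*} [DecidableEq κ] (ty : W → κ) (k : ℕ) : Dc (LS ty k) := by
  intro G hG J hJ
  have h1 := Finset.mem_ssubsets.1 hJ
  rw [mem_LS] at hG ⊢
  exact ⟨(Finset.card_lt_card h1).trans hG.1, hG.2.mono (by exact_mod_cast h1.1)⟩

/-- number of label sets: at most `(|W| + 1)^(k - 1)` -/
theorem card_LS {κ : Type*} [DecidableEq κ] (ty : W → κ) (k : ℕ) : (LS ty (k + 1)).card ≤ (Fintype.card W + 1) ^ k := by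
  classical
  have h : LS ty (k + 1) ⊆ (univ : Finset (Fin k → Option W)).image
      (fun g => univ.filter fun x => ∃ i, g i = some x) := by
    intro G hG
    have hG1 := (mem_LS.1 hG).1
    have hGk : G.card ≤ k := by omega
    rw [mem_image]
    refine ⟨fun i => if hi : (i : ℕ) < G.card then some (G.equivFin.symm ⟨i, hi⟩ : G).1 else none, mem_univ _, ?_⟩
    ext x
    rw [mem_filter]
    constructor
    · rintro ⟨_, i, hi⟩
      by_cases h1 : (i : ℕ) < G.card
      · simp only [dif_pos h1] at hi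
        rw [← Option.some.inj hi]
        exact (G.equivFin.symm ⟨i, h1⟩).2
      · simp only [dif_neg h1] at hi
        exact absurd hi (by simp)
    · intro hx
      refine ⟨mem_univ _, ⟨(G.equivFin ⟨x, hx⟩ : ℕ), (G.equivFin ⟨x, hx⟩).2.trans_le hGk⟩, ?_⟩
      have h1 : ((G.equivFin ⟨x, hx⟩ : Fin G.card) : ℕ) < G.card := (G.equivFin ⟨x, hx⟩).2
      simp only [dif_pos h1]
      simp
  refine (Finset.card_le_card h).trans (Finset.card_image_le.trans ?_)
  rw [Finset.card_univ, Fintype.card_fun, Fintype.card_option, Fintype.card_fin]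

/-! ## embedded collections -/

variable {W' Λ' : Type*} [Fintype W'] [DecidableEq W']

theorem ssubsets_map (e : W ↪ W') (G : Finset W) (J : Finset W') :
    J ∈ (G.map e).ssubsets ↔ ∃ I ∈ G.ssubsets, I.map e = J := by
  constructor
  · intro h
    have h1 := Finset.mem_ssubsets.1 h
    obtain ⟨I, hI1, hI2⟩ := Finset.subset_map_iff.1 h1.1
    refine ⟨I, Finset.mem_ssubsets.2 ⟨hI1, fun h2 => h1.2 ?_⟩, hI2.symm⟩
    rw [hI2]
    exact Finset.map_subset_map.2 h2
  · rintro ⟨I, hI, rfl⟩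
    have h1 := Finset.mem_ssubsets.1 hI
    exact Finset.mem_ssubsets.2 ⟨Finset.map_subset_map.2 h1.1, fun h2 => h1.2 (Finset.map_subset_map.1 h2)⟩

/-- the labels of a collection embedded in another one by `e` -/
theorem Lf_map (e : W ↪ W') (L : Finset W → Om → Λ) (L' : Finset W' → Om → Λ) {S : Finset (Finset W)}
    {S' : Finset (Finset W')} (hL : ∀ J ∈ S, Fac (L' (J.map e)) (L J)) (h : ∀ J ∈ S, J.map e ∈ S') :
    Fac (Lf L' S') (Lf L S) :=
  Lf_of L fun J hJ => (Lf_one L' (h J hJ)).trans (hL J hJ)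

/-- `m_G` of a collection embedded in a larger one -/
theorem mG_map (e : W ↪ W') (L : Finset W → Om → Λ) (L' : Finset W' → Om → Λ) (N : Om → ν) {S : Finset (Finset W)}
    {S' : Finset (Finset W')} {G : Finset W} (hSG : Dc S) (hG : G ∈ S) (hL : ∀ J ∈ S, L' (J.map e) = L J)
    (h : ∀ J ∈ S, J.map e ∈ S') {w : Om} (hw : P.p w ≠ 0) : mG P L N S G w ≤ mG P L' N S' (G.map e) w := by
  have hs : ∀ J ∈ G.ssubsets, J ∈ S := fun J hJ => hSG G hG hJ
  have e1 : mG P L N S G w = GMC.ip P (L' (G.map e)) (Lf L (prev S G)) (Lf L' (G.map e).ssubsets) N w := by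
    unfold mG
    rw [hL G hG]
    refine ip_congr P (Fac.fst _ _) (Fac.fst _ _) ((Fac.fst _ _).trans ?_) (Fac.refl _) (Fac.fst _ _)
      (Fac.fst _ _) ((Fac.fst _ _).trans ?_) (Fac.refl _) w
    · refine Lf_of L' fun J hJ => ?_
      obtain ⟨I, hI, rfl⟩ := (ssubsets_map e G J).1 hJ
      rw [hL I (hs I hI)]
      exact Lf_one L hI
    · refine Lf_map e L L' (fun J hJ => ?_) (fun J hJ => (ssubsets_map e G _).2 ⟨J, hJ, rfl⟩)
      rw [hL J (hs J hJ)]
      exact Fac.refl _
  rw [e1]
  unfold mG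
  rw [ip_comm P _ (Lf L (prev S G)) _ N hw, ip_comm P _ (Lf L' (prev S' (G.map e))) _ N hw]
  refine ip_mono P _ _ N ((Fac.fst _ _).trans (Lf_map e L L' (fun J hJ => ?_) (fun J hJ => ?_))) hw
  · rw [hL J (mem_prev.1 hJ).1]
    exact Fac.refl _
  · obtain ⟨h1, h2, h3⟩ := mem_prev.1 hJ
    refine mem_prev.2 ⟨h J h1, by rw [Finset.card_map, Finset.card_map]; exact h2, fun h4 => h3 ?_⟩
    exact Finset.map_injective e h4

/-! ## means -/

/-- the mean of `m_G` over a finer known variable -/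
theorem ce_mG (L : Finset W → Om → Λ) {N : Om → ν} {K : Om → ν'} (h : Fac K N) (S : Finset (Finset W)) (G : Finset W)
    (w : Om) : P.ce N (mG P L K S G) w =
      GMC.ip P (L G) (Lf L (prev S G)) (fun u => (Lf L G.ssubsets u, K u)) N w :=
  ce_ip P _ _ _ h w

/-- (D) for means: `M_r ≤ ∑ m_I` -/
theorem ce_MM_le (L : Finset W → Om → Λ) (N : Om → ν) (K : Om → ν') {S : Finset (Finset W)} (r : ℕ)
    (hS : szlt W (r + 1) ⊆ S) (w : Om) :
    P.ce N (MM P L K r) w ≤ ∑ G ∈ sz W r, P.ce N (mG P L K S G) w := by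
  rw [← P.ce_sum]
  exact P.ce_mono (fun u hu => MM_le_mG P L K r hS hu) w

end

end Pool.Agent.GMM
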