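import Pool.Agent.GMM.KeyInst
import Pool.Agent.GMM.Stat

/-!
# GMM/KeyD: the bracket of `simK` is at most the sum of the `m_G` (row CM, CM.3 (3), `e_2`; helper58)

`W0` = the vertices of one copy of everything (exact vertices included), `lt w` = the letter of the vertex `w` (`none` =
exact).  `nm e : Finset W0` = the label set of the shape `e` of kind `C`; the label `(e, σ)` is the label set `nmK (e, σ)` of
the big collection `W0 × Option Key` (every vertex at the site of its letter).  `L` = labels indexed by finite sets of the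
big collection, `L (nmK i) = Lab i` (kind `C`).
* `FK` = all label sets of kind `C` with admissible keys; down-closed; `FKw` = those without `o` in the fresh part;
* `bracket_le` : `costC - (hF CC - hF Cw) ≤ ∑ G ∈ FK, P.E (m_G)`.
-/

set_option autoImplicit false
set_option linter.unusedSectionVars false

namespace Pool.Agent.GMM

open Finset Pool.Agent.PWZ Pool.Agent.M3 Pool.Agent.M3.FP Pool.Agent.GMC

noncomputable section

variable {Λ E : Type*} [Fintype Λ] [DecidableEq Λ] [Fintype E] {r M : ℕ} (Sh : E → Finset Λ) (T : E → Prop)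
variable {W0 : Type*} [Fintype W0] [DecidableEq W0] (lt : W0 → Option Λ) (nm : E → Finset W0)

/-- the site of a vertex -/
def siteK (σ : Λ → Option (Key r M)) (w : W0) : Option (Key r M) := (lt w).elim none σ

/-- the label set of a label in the big collection -/
def nmK (i : E × (Λ → Option (Key r M))) : Finset (W0 × Option (Key r M)) :=
  (nm i.1).image fun w => (w, siteK lt i.2 w)

open Classical in
/-- the label sets of kind `C` -/
def FK (n : Λ × Fin r → ℕ) : Finset (Finset (W0 × Option (Key r M))) :=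
  (univ.filter fun i : E × (Λ → Option (Key r M)) => i ∈ CC Sh T n univ).image (nmK lt nm)

open Classical in
/-- the label sets of kind `C` without `o` in the fresh part -/
def FKw (n : Λ × Fin r → ℕ) (o : Λ) : Finset (Finset (W0 × Option (Key r M))) :=
  (univ.filter fun i : E × (Λ → Option (Key r M)) => i ∈ Cw Sh T n o).image (nmK lt nm)

/-- the data: names of the shapes of kind `C` -/
structure Nm (sub : E → Finset E) : Prop where
  letters : ∀ e, ¬ T e → ∀ y, y ∈ Sh e ↔ ∃ w ∈ nm e, lt w = some y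
  inj : ∀ e e', ¬ T e → ¬ T e' → nm e = nm e' → e = e'
  sub1 : ∀ e, ¬ T e → ∀ e' ∈ sub e, ¬ T e' ∧ nm e' ⊂ nm e
  sub2 : ∀ e, ¬ T e → ∀ G, G ⊂ nm e → ∃ e' ∈ sub e, nm e' = G

variable {Sh T lt nm} {sub : E → Finset E}

theorem mem_FK {n : Λ × Fin r → ℕ} {G : Finset (W0 × Option (Key r M))} :
    G ∈ FK Sh T lt nm n ↔ ∃ i ∈ CC Sh T n univ, nmK lt nm i = G := by
  unfold FK
  simp

theorem mem_FKw {n : Λ × Fin r → ℕ} {o : Λ} {G : Finset (W0 × Option (Key r M))} :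
    G ∈ FKw Sh T lt nm n o ↔ ∃ i ∈ Cw Sh T n o, nmK lt nm i = G := by
  unfold FKw
  simp

theorem nmK_fst (i : E × (Λ → Option (Key r M))) : (nmK lt nm i).image Prod.fst = nm i.1 := by
  unfold nmK
  rw [Finset.image_image]
  have : (Prod.fst ∘ fun w => (w, siteK lt i.2 w)) = id := rfl
  rw [this, Finset.image_id]

theorem mem_nmK {i : E × (Λ → Option (Key r M))} {w : W0} {s : Option (Key r M)} :
    (w, s) ∈ nmK lt nm i ↔ w ∈ nm i.1 ∧ s = siteK lt i.2 w := by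
  unfold nmK
  rw [Finset.mem_image]
  constructor
  · rintro ⟨w', hw', h⟩
    rw [Prod.mk.injEq] at h
    obtain ⟨rfl, rfl⟩ := h
    exact ⟨hw', rfl⟩
  · rintro ⟨h1, h2⟩
    exact ⟨w, h1, by rw [h2]⟩

theorem nmK_inj (h : Nm Sh T lt nm sub) {n n' : Λ × Fin r → ℕ} {i j : E × (Λ → Option (Key r M))} (hi : ¬ T i.1)
    (hj : ¬ T j.1) (hi' : Adm Sh n i) (hj' : Adm Sh n' j) (he : nmK lt nm i = nmK lt nm j) : i = j := by
  have h1 : i.1 = j.1 := by
    refine h.inj _ _ hi hj ?_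
    rw [← nmK_fst (lt := lt) (nm := nm) i, ← nmK_fst (lt := lt) (nm := nm) j, he]
  refine Prod.ext h1 (funext fun y => ?_)
  by_cases hy : y ∈ Sh i.1
  · obtain ⟨w, hw, hlw⟩ := (h.letters _ hi y).1 hy
    have h2 : (w, siteK lt i.2 w) ∈ nmK lt nm j := by rw [← he, mem_nmK]; exact ⟨hw, rfl⟩
    have h3 := (mem_nmK.1 h2).2
    unfold siteK at h3
    rw [hlw] at h3
    exact h3
  · rw [hi'.1 y hy, hj'.1 y (by rw [← h1]; exact hy)]

theorem nmK_low (h : Nm Sh T lt nm sub) {i j : E × (Λ → Option (Key r M))} (hi : ¬ T i.1)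
    (hj : j ∈ low Sh sub i) : nmK lt nm j ⊂ nmK lt nm i := by
  obtain ⟨h1, h2⟩ := hj
  obtain ⟨h3, h4⟩ := h.sub1 _ hi _ h1
  have hsub : nmK lt nm j ⊆ nmK lt nm i := by
    rintro ⟨w, s⟩ hw
    rw [mem_nmK] at hw ⊢
    refine ⟨h4.1 hw.1, ?_⟩
    rw [hw.2]
    unfold siteK
    cases hl : lt w with
    | none => rfl
    | some y =>
      have hy : y ∈ Sh j.1 := (h.letters _ h3 y).2 ⟨w, hw.1, hl⟩
      show j.2 y = i.2 y
      rw [h2]
      simp only [if_pos hy]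
  refine Finset.ssubset_iff_subset_ne.2 ⟨hsub, fun he => ?_⟩
  have h5 : nm j.1 = nm i.1 := by
    rw [← nmK_fst (lt := lt) (nm := nm) i, ← nmK_fst (lt := lt) (nm := nm) j, he]
  exact h4.ne h5

theorem nmK_ssub (h : Nm Sh T lt nm sub) {i : E × (Λ → Option (Key r M))} (hi : ¬ T i.1)
    {G : Finset (W0 × Option (Key r M))} (hG : G ⊂ nmK lt nm i) : ∃ j ∈ low Sh sub i, nmK lt nm j = G := by
  have hss : G.image Prod.fst ⊂ nm i.1 := by
    refine Finset.ssubset_iff_subset_ne.2 ⟨?_, fun he => ?_⟩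
    · rw [← nmK_fst (lt := lt) (nm := nm) i]
      exact Finset.image_subset_image hG.1
    · refine hG.2 ?_
      rintro ⟨w, s⟩ hw
      rw [mem_nmK] at hw
      have h1 : w ∈ G.image Prod.fst := by rw [he]; exact hw.1
      obtain ⟨⟨w', s'⟩, h2, h3⟩ := Finset.mem_image.1 h1
      have h4 : w' = w := h3
      subst h4
      have h5 := (mem_nmK.1 (hG.1 h2)).2
      rw [hw.2, ← h5]
      exact h2
  obtain ⟨e', he', hne⟩ := h.sub2 _ hi _ hss
  refine ⟨(e', fun y => if y ∈ Sh e' then i.2 y else none), ⟨he', rfl⟩, ?_⟩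
  obtain ⟨h3, h4⟩ := h.sub1 _ hi _ he'
  ext ⟨w, s⟩
  rw [mem_nmK]
  constructor
  · rintro ⟨h5, h6⟩
    have h7 : w ∈ G.image Prod.fst := by rw [← hne]; exact h5
    obtain ⟨⟨w', s'⟩, h8, h9⟩ := Finset.mem_image.1 h7
    have h10 : w' = w := h9
    subst h10
    have h11 := (mem_nmK.1 (hG.1 h8)).2
    have h12 : s = s' := by
      rw [h6, h11]
      unfold siteK
      cases hl : lt w' with
      | none => rfl
      | some y =>
        have hy : y ∈ Sh e' := (h.letters _ h3 y).2 ⟨w', h5, hl⟩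
        simp only [Option.elim, if_pos hy]
    rw [h12]
    exact h8
  · intro h5
    have h6 := mem_nmK.1 (hG.1 h5)
    have h7 : w ∈ nm e' := by rw [hne]; exact Finset.mem_image.2 ⟨(w, s), h5, rfl⟩
    refine ⟨h7, ?_⟩
    rw [h6.2]
    unfold siteK
    cases hl : lt w with
    | none => rfl
    | some y =>
      have hy : y ∈ Sh e' := (h.letters _ h3 y).2 ⟨w, h7, hl⟩
      simp only [Option.elim, if_pos hy]

theorem low_CC (hsub : ∀ e, ∀ e' ∈ sub e, Sh e' ⊆ Sh e) (h : Nm Sh T lt nm sub) {n : Λ × Fin r → ℕ}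
    {i j : E × (Λ → Option (Key r M))} (hi : i ∈ CC Sh T n univ) (hj : j ∈ low Sh sub i) : j ∈ CC Sh T n univ :=
  ⟨(h.sub1 _ hi.1 _ hj.1).1, low_Adm hsub hj hi.2.1, Finset.subset_univ _⟩

theorem FK_Dc (hsub : ∀ e, ∀ e' ∈ sub e, Sh e' ⊆ Sh e) (h : Nm Sh T lt nm sub) (n : Λ × Fin r → ℕ) :
    Dc (FK (M := M) Sh T lt nm n) := by
  intro G hG G' hG'
  rw [Finset.mem_ssubsets] at hG'
  obtain ⟨i, hi, rfl⟩ := mem_FK.1 hG
  obtain ⟨j, hj, rfl⟩ := nmK_ssub h hi.1 hG'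
  exact mem_FK.2 ⟨j, low_CC hsub h hi hj, rfl⟩

theorem FKw_Dc (hsub : ∀ e, ∀ e' ∈ sub e, Sh e' ⊆ Sh e) (h : Nm Sh T lt nm sub) (n : Λ × Fin r → ℕ) (o : Λ) :
    Dc (FKw (M := M) Sh T lt nm n o) := by
  intro G hG G' hG'
  rw [Finset.mem_ssubsets] at hG'
  obtain ⟨i, hi, rfl⟩ := mem_FKw.1 hG
  obtain ⟨j, hj, rfl⟩ := nmK_ssub h hi.1 hG'
  exact mem_FKw.2 ⟨j, ⟨(h.sub1 _ hi.1 _ hj.1).1, low_Adm hsub hj hi.2.1, fun ho => hi.2.2 (low_fresh hsub hj ho)⟩, rfl⟩

theorem FKw_sub (n : Λ × Fin r → ℕ) (o : Λ) : FKw (M := M) Sh T lt nm n o ⊆ FK Sh T lt nm n := by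
  intro G hG
  obtain ⟨i, hi, rfl⟩ := mem_FKw.1 hG
  exact mem_FK.2 ⟨i, ⟨hi.1, hi.2.1, Finset.subset_univ _⟩, rfl⟩

theorem FK_diff (h : Nm Sh T lt nm sub) (n : Λ × Fin r → ℕ) (o : Λ) {G : Finset (W0 × Option (Key r M))} :
    G ∈ FK Sh T lt nm n \ FKw Sh T lt nm n o ↔ ∃ i ∈ Co Sh T n o, nmK lt nm i = G := by
  rw [Finset.mem_sdiff]
  constructor
  · rintro ⟨h1, h2⟩
    obtain ⟨i, hi, rfl⟩ := mem_FK.1 h1
    refine ⟨i, ⟨hi.1, hi.2.1, ?_⟩, rfl⟩
    by_contra ho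
    exact h2 (mem_FKw.2 ⟨i, ⟨hi.1, hi.2.1, ho⟩, rfl⟩)
  · rintro ⟨i, hi, rfl⟩
    refine ⟨mem_FK.2 ⟨i, ⟨hi.1, hi.2.1, Finset.subset_univ _⟩, rfl⟩, fun h2 => ?_⟩
    obtain ⟨j, hj, he⟩ := mem_FKw.1 h2
    have := nmK_inj h hj.1 hi.1 hj.2.1 hi.2.1 he
    rw [this] at hj
    exact hj.2.2 hi.2.2

variable {Om : Type} [Fintype Om] (P : FP Om) {γ 𝒱 : Type*} (Lab : E × (Λ → Option (Key r M)) → Om → γ) (V : Om → 𝒱)
  (L : Finset (W0 × Option (Key r M)) → Om → γ)

/-- `e_2` : THE BRACKET OF `simK` -/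
theorem bracket_le (hsub : ∀ e, ∀ e' ∈ sub e, Sh e' ⊆ Sh e) (h : Nm Sh T lt nm sub) (n : Λ × Fin r → ℕ) (o : Λ)
    (hL : ∀ i ∈ CC Sh T n univ, ∀ w, L (nmK lt nm i) w = Lab i w)
    {S : Finset (Finset (W0 × Option (Key r M)))} (hS : FK Sh T lt nm n ⊆ S) :
    costC P Lab Sh T V sub n o - (hF P Lab V (CC Sh T n univ) - hF P Lab V (Cw Sh T n o)) ≤
      ∑ G ∈ FK Sh T lt nm n, P.E (mG P L V S G) := by
  classical
  have h0 : P.E (fun w => ∑ G ∈ FK Sh T lt nm n \ FKw Sh T lt nm n o, hp P (L G) (Lf L G.ssubsets) V w -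
      ∑ G ∈ FK Sh T lt nm n, mG P L V S G w) ≤
      P.E (fun w => hp P (Lf L (FK Sh T lt nm n \ FKw Sh T lt nm n o)) (Lf L (FKw Sh T lt nm n o)) V w) :=
    P.E_mono (fun w hw => D_cond P L V (FKw_Dc hsub h n o) (FK_Dc hsub h n) (FKw_sub n o) hS hw)
  rw [P.E_sub, P.E_sum, P.E_sum] at h0
  -- the labels below
  have hlow : ∀ i ∈ CC (M := M) Sh T n univ, ∀ v w, (∀ j ∈ low Sh sub i, Lab j v = Lab j w) ↔
      Lf L (nmK lt nm i).ssubsets v = Lf L (nmK lt nm i).ssubsets w := by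
    intro i hi v w
    constructor
    · intro h1
      funext G
      obtain ⟨j, hj, he⟩ := nmK_ssub h hi.1 (Finset.mem_ssubsets.1 G.2)
      show L G.1 v = L G.1 w
      rw [← he, hL j (low_CC hsub h hi hj), hL j (low_CC hsub h hi hj)]
      exact h1 j hj
    · intro h1 j hj
      have h2 := congrFun h1 ⟨nmK lt nm j, Finset.mem_ssubsets.2 (nmK_low h hi.1 hj)⟩
      have h3 : L (nmK lt nm j) v = L (nmK lt nm j) w := h2
      rwa [hL j (low_CC hsub h hi hj), hL j (low_CC hsub h hi hj)] at h3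
  have hcF : ∀ i ∈ CC (M := M) Sh T n univ, P.E (hp P (L (nmK lt nm i)) (Lf L (nmK lt nm i).ssubsets) V) =
      cF P Lab V {i} (low Sh sub i) := by
    intro i hi
    rw [E_hp]
    show _ = hF P Lab V (low Sh sub i ∪ {i}) - hF P Lab V (low Sh sub i)
    rw [hF_union]
    refine P.Hc_congr ?_ ?_ ?_ ?_
    · intro v w h1
      simp only [Prod.mk.injEq] at h1
      refine Fam_eq_iff'.2 (fun j hj => ?_)
      have : j = i := hj
      subst this
      have h2 := h1.1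
      rwa [hL j hi, hL j hi] at h2
    · intro v w h1
      simp only [Prod.mk.injEq] at h1 ⊢
      exact ⟨Fam_eq_iff'.2 ((hlow i hi v w).2 h1.1), h1.2⟩
    · intro v w h1
      simp only [Prod.mk.injEq] at h1
      rw [hL i hi, hL i hi]
      exact Fam_eq_iff'.1 h1.1 i rfl
    · intro v w h1
      simp only [Prod.mk.injEq] at h1 ⊢
      exact ⟨(hlow i hi v w).1 (Fam_eq_iff'.1 h1.1), h1.2⟩
  have h1 : ∑ G ∈ FK Sh T lt nm n \ FKw Sh T lt nm n o, P.E (fun w => hp P (L G) (Lf L G.ssubsets) V w) =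
      costC P Lab Sh T V sub n o := by
    have h2 : FK Sh T lt nm n \ FKw Sh T lt nm n o =
        (univ.filter fun i : E × (Λ → Option (Key r M)) => i ∈ Co Sh T n o).image (nmK lt nm) := by
      ext G
      rw [FK_diff h n o, Finset.mem_image]
      simp
    rw [h2, Finset.sum_image]
    · unfold costC
      refine Finset.sum_congr rfl (fun i hi => ?_)
      rw [Finset.mem_filter] at hi
      exact hcF i ⟨hi.2.1, hi.2.2.1, Finset.subset_univ _⟩
    · intro i hi j hj he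
      simp only [Finset.coe_filter, Finset.mem_univ, true_and] at hi hj
      exact nmK_inj h hi.1 hj.1 hi.2.1 hj.2.1 he
  have h2 : P.E (fun w => hp P (Lf L (FK Sh T lt nm n \ FKw Sh T lt nm n o)) (Lf L (FKw Sh T lt nm n o)) V w) =
      hF P Lab V (CC Sh T n univ) - hF P Lab V (Cw Sh T n o) := by
    have h3 : P.E (fun w => hp P (Lf L (FK Sh T lt nm n \ FKw Sh T lt nm n o)) (Lf L (FKw Sh T lt nm n o)) V w) =
      P.Hc (Lf L (FK Sh T lt nm n \ FKw Sh T lt nm n o)) (fun w => (Lf L (FKw Sh T lt nm n o) w, V w)) := E_hp P _ _ _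
    have h4 : Cw (M := M) Sh T n o ⊆ CC Sh T n univ := fun i hi => ⟨hi.1, hi.2.1, Finset.subset_univ _⟩
    rw [h3, hF_diff P Lab V h4]
    have h5 : ∀ v w, Lf L (FKw Sh T lt nm n o) v = Lf L (FKw Sh T lt nm n o) w ↔
        Fam Lab (Cw Sh T n o) v = Fam Lab (Cw Sh T n o) w := by
      intro v w
      rw [Fam_eq_iff']
      constructor
      · intro h6 i hi
        have h7 : L (nmK lt nm i) v = L (nmK lt nm i) w := congrFun h6 ⟨nmK lt nm i, mem_FKw.2 ⟨i, hi, rfl⟩⟩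
        rwa [hL i (h4 hi), hL i (h4 hi)] at h7
      · intro h6
        funext G
        obtain ⟨i, hi, he⟩ := mem_FKw.1 G.2
        show L G.1 v = L G.1 w
        rw [← he, hL i (h4 hi), hL i (h4 hi)]
        exact h6 i hi
    refine P.Hc_congr ?_ ?_ ?_ ?_
    · intro v w h6
      simp only [Prod.mk.injEq] at h6
      refine Fam_eq_iff'.2 (fun i hi => ?_)
      by_cases ho : o ∈ fresh Sh i
      · have h7 : L (nmK lt nm i) v = L (nmK lt nm i) w :=
          congrFun h6.1 ⟨nmK lt nm i, (FK_diff h n o).2 ⟨i, ⟨hi.1, hi.2.1, ho⟩, rfl⟩⟩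
        rwa [hL i hi, hL i hi] at h7
      · exact Fam_eq_iff'.1 ((h5 v w).1 h6.2.1) i ⟨hi.1, hi.2.1, ho⟩
    · intro v w h6
      simp only [Prod.mk.injEq] at h6 ⊢
      exact ⟨(h5 v w).1 h6.1, h6.2⟩
    · intro v w h6
      simp only [Prod.mk.injEq] at h6
      funext G
      obtain ⟨i, hi, he⟩ := (FK_diff h n o).1 G.2
      have hi' : i ∈ CC Sh T n univ := ⟨hi.1, hi.2.1, Finset.subset_univ _⟩
      show L G.1 v = L G.1 w
      rw [← he, hL i hi', hL i hi']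
      exact Fam_eq_iff'.1 h6.1 i hi'
    · intro v w h6
      simp only [Prod.mk.injEq] at h6 ⊢
      exact ⟨(h5 v w).2 h6.1, h6.2⟩
  rw [h1, h2] at h0
  linarith

end

end Pool.Agent.GMM
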