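import Pool.Agent.GMM.KDef
import Pool.Agent.GMM.KeyD
import Pool.Agent.GMM.Coll

/-!
# GMM/KInst: `key_sim` for one label set of a collection (row CM, CM.3 (1)-(3); helper58)

* `Hc_embed`, `I_embed` : entropies of a collection embedded in a larger one, given all vertices of the larger one;
* `cuK`, `MP_cuK` : the key space as one large collection; `Hc_KQ`, `I_KQ`, `E_ip_KQ` : the same for a collection embedded in
  the key space, given `VV` (all vertices, real ones and keys);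
* shapes: `shS_sub`, `shz_lt`, `shT_low`, `shL_dep`; `TT_card`, `hF_TT` (entropy of the labels of kind `T`);
* `ltJ`, `nmS`, `Nm_sh`, `e2_le` : the bracket is at most `(Nbig + 1) ^ k * ε`;
* `exists_simOut` and the clean form `exists_simOut'`.
-/

set_option autoImplicit false
set_option linter.unusedSectionVars false

namespace Pool.Agent.GMM

open Finset Pool.Agent.PWZ Pool.Agent.M3 Pool.Agent.M3.FP Pool.Agent.GMC

noncomputable section

variable {ι α χ : Type} [Fintype ι] [DecidableEq ι] [Fintype α] [Fintype χ] [DecidableEq χ] (D : SD ι α χ)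

/-! ## embedded collections, given all vertices -/

section embed

variable {W W' : Type} [Fintype W] [DecidableEq W] [Fintype W'] [DecidableEq W'] {κ κ' κ'' : Type*}

theorem Hc_embed {ty : W → ι} {ty' : W' → ι} {e : W → W'} (he : Function.Injective e) (hty : ∀ y, ty' (e y) = ty y)
    (X : CS α χ W → κ) (Z : CS α χ W → κ') :
    (CP D ty').Hc (fun p => X (proj e p)) (fun p => (Z (proj e p), Vt p)) = (CP D ty).Hc X (fun p => (Z p, Vt p)) := by
  classical
  have h0 := (MP_proj D he hty).Hc X (fun p => (Z p, Vt p))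
  rw [← h0]
  set P' := CP D ty' with hP'
  set R : W' → Prop := fun q => q ∈ Set.range e with hR
  set VR : CS α χ W' → ({q // R q} → χ) := fun w q => w.2 q.1 with hVR
  set VN : CS α χ W' → ({q // ¬ R q} → χ) := fun w q => w.2 q.1 with hVN
  have hind : P'.Indep (fun w => (w.1, VR w)) VN := pr_pi_indep D.PA (fun y => D.mu (ty' y)) R
  have hpe : ∀ v w : CS α χ W', (v.1, VR v) = (w.1, VR w) → proj e v = proj e w := by
    intro v w h
    rw [Prod.mk.injEq] at h
    refine Prod.ext h.1 (funext fun y => ?_)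
    exact congrFun h.2 ⟨e y, y, rfl⟩
  have hVt : ∀ v w : CS α χ W', Vt (proj e v) = Vt (proj e w) ↔ VR v = VR w := by
    intro v w
    constructor
    · intro h
      funext q
      obtain ⟨q, y, rfl⟩ := q
      exact congrFun h y
    · intro h
      funext y
      exact congrFun h ⟨e y, y, rfl⟩
  have hall : ∀ v w : CS α χ W', Vt v = Vt w ↔ VR v = VR w ∧ VN v = VN w := by
    intro v w
    constructor
    · intro h
      have h' : v.2 = w.2 := h
      exact ⟨funext fun q => congrFun h' q.1, funext fun q => congrFun h' q.1⟩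
    · rintro ⟨h1, h2⟩
      funext q
      by_cases hq : R q
      · exact congrFun h1 ⟨q, hq⟩
      · exact congrFun h2 ⟨q, hq⟩
  have i1 : P'.Indep (fun w => ((X (proj e w), Z (proj e w)), VR w)) VN := by
    refine hind.mono (fun v w h => ?_) (Fac.refl _)
    have h1 := hpe v w h
    rw [Prod.mk.injEq] at h
    simp only [Prod.mk.injEq]
    rw [h1]
    exact ⟨⟨rfl, rfl⟩, h.2⟩
  have i2 : P'.Indep (fun w => (Z (proj e w), VR w)) VN := by
    refine hind.mono (fun v w h => ?_) (Fac.refl _)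
    have h1 := hpe v w h
    rw [Prod.mk.injEq] at h
    simp only [Prod.mk.injEq]
    rw [h1]
    exact ⟨rfl, h.2⟩
  have e1 : P'.H (fun w => (X (proj e w), (Z (proj e w), Vt w))) =
      P'.H (fun w => ((X (proj e w), Z (proj e w)), VR w)) + P'.H VN := by
    rw [← H_indep P' i1]
    refine P'.H_congr (fun v w h => ?_) (fun v w h => ?_)
    · simp only [Prod.mk.injEq] at h ⊢
      have := (hall v w).1 h.2.2
      exact ⟨⟨⟨h.1, h.2.1⟩, this.1⟩, this.2⟩
    · simp only [Prod.mk.injEq] at h ⊢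
      exact ⟨h.1.1.1, h.1.1.2, (hall v w).2 ⟨h.1.2, h.2⟩⟩
  have e2 : P'.H (fun w => (Z (proj e w), Vt w)) = P'.H (fun w => (Z (proj e w), VR w)) + P'.H VN := by
    rw [← H_indep P' i2]
    refine P'.H_congr (fun v w h => ?_) (fun v w h => ?_)
    · simp only [Prod.mk.injEq] at h ⊢
      have := (hall v w).1 h.2
      exact ⟨⟨h.1, this.1⟩, this.2⟩
    · simp only [Prod.mk.injEq] at h ⊢
      exact ⟨h.1.1, (hall v w).2 ⟨h.1.2, h.2⟩⟩
  have e3 : P'.H (fun w => (X (proj e w), (Z (proj e w), Vt (proj e w)))) =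
      P'.H (fun w => ((X (proj e w), Z (proj e w)), VR w)) := by
    refine P'.H_congr (fun v w h => ?_) (fun v w h => ?_)
    · simp only [Prod.mk.injEq] at h ⊢
      exact ⟨⟨h.1, h.2.1⟩, (hVt v w).1 h.2.2⟩
    · simp only [Prod.mk.injEq] at h ⊢
      exact ⟨h.1.1, h.1.2, (hVt v w).2 h.2⟩
  have e4 : P'.H (fun w => (Z (proj e w), Vt (proj e w))) = P'.H (fun w => (Z (proj e w), VR w)) := by
    refine P'.H_congr (fun v w h => ?_) (fun v w h => ?_)
    · simp only [Prod.mk.injEq] at h ⊢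
      exact ⟨h.1, (hVt v w).1 h.2⟩
    · simp only [Prod.mk.injEq] at h ⊢
      exact ⟨h.1, (hVt v w).2 h.2⟩
  unfold FP.Hc
  rw [e1, e2, e3, e4]
  ring

theorem I_embed {ty : W → ι} {ty' : W' → ι} {e : W → W'} (he : Function.Injective e) (hty : ∀ y, ty' (e y) = ty y)
    (X : CS α χ W → κ) (Y : CS α χ W → κ') (Z : CS α χ W → κ'') :
    (CP D ty').I (fun p => X (proj e p)) (fun p => Y (proj e p)) (fun p => (Z (proj e p), Vt p)) =
      (CP D ty).I X Y (fun p => (Z p, Vt p)) := by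
  rw [FP.I_eq_Hc, FP.I_eq_Hc, Hc_embed D he hty X Z]
  congr 1
  have h1 := Hc_embed D he hty X (fun p => (Y p, Z p))
  have h2 : (CP D ty').Hc (fun p => X (proj e p)) (fun p => (Y (proj e p), (Z (proj e p), Vt p))) =
      (CP D ty').Hc (fun p => X (proj e p)) (fun p => ((Y (proj e p), Z (proj e p)), Vt p)) := by
    refine FP.Hc_congr _ (Fac.fst _ _) (fun v w h => ?_) (Fac.fst _ _) (fun v w h => ?_) <;>
    · simp only [Prod.mk.injEq] at h ⊢
      tauto
  have h3 : (CP D ty).Hc X (fun p => (Y p, (Z p, Vt p))) = (CP D ty).Hc X (fun p => ((Y p, Z p), Vt p)) := by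
    refine FP.Hc_congr _ (Fac.fst _ _) (fun v w h => ?_) (Fac.fst _ _) (fun v w h => ?_) <;>
    · simp only [Prod.mk.injEq] at h ⊢
      tauto
  rw [h2, h3]
  exact h1

theorem E_ip_embed {ty : W → ι} {ty' : W' → ι} {e : W → W'} (he : Function.Injective e) (hty : ∀ y, ty' (e y) = ty y)
    (X : CS α χ W → κ) (Y : CS α χ W → κ') (Z : CS α χ W → κ'') :
    (CP D ty').E (GMC.ip (CP D ty') (fun p => X (proj e p)) (fun p => Y (proj e p)) (fun p => Z (proj e p)) Vt) =
      (CP D ty).E (GMC.ip (CP D ty) X Y Z Vt) := by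
  rw [GMC.E_ip, GMC.E_ip]
  exact I_embed D he hty X Y Z

end embed

/-! ## the key space as one large collection -/

section cu

variable {W W1 : Type} [Fintype W] [DecidableEq W] [Fintype W1] [DecidableEq W1] (ty : W → ι) (B : Finset W) {r M : ℕ}
variable {κ κ' κ'' : Type*}

/-- the key space as a collection -/
def cuK (w : KW α χ B r M) : CS α χ ((Ltr B × Option (Key r M)) × W) := (w.1, fun p => w.2 p.1 p.2)

theorem MP_cuK : MP (KQ D ty B r M) (CP D (fun p : (Ltr B × Option (Key r M)) × W => ty p.2)) (cuK (α := α) (χ := χ) B) := by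
  intro f
  unfold KQ KP CP
  rw [FP.pr_E, FP.pr_E]
  refine D.PA.E_congr (fun a _ => ?_)
  exact (piFP_curry (α := Ltr B × Option (Key r M)) (α' := W) (fun _ y => D.mu (ty y)) (fun ξ => f (a, fun p => ξ p.1 p.2)))

theorem VV_cuK (v w : KW α χ B r M) : VV Kr Kk v = VV Kr Kk w ↔ Vt (cuK B v) = Vt (cuK B w) := by
  unfold VV Kr Kk Vt cuK
  rw [Prod.mk.injEq]
  constructor
  · rintro ⟨h1, h2⟩
    funext p
    rcases p with ⟨⟨l, σ⟩, y⟩
    cases σ with
    | none => exact congrFun (congrFun h1 l) y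
    | some q => exact congrFun (congrFun h2 (l, q)) y
  · intro h
    refine ⟨?_, ?_⟩
    · funext l y
      exact congrFun h ((l, none), y)
    · funext q y
      exact congrFun h ((q.1, some q.2), y)

/-- a collection in the key space -/
def prK (e : W1 → (Ltr B × Option (Key r M)) × W) (w : KW α χ B r M) : CS α χ W1 := (w.1, fun y => w.2 (e y).1 (e y).2)

theorem I_KQ {ty1 : W1 → ι} {e : W1 → (Ltr B × Option (Key r M)) × W} (he : Function.Injective e)
    (hty : ∀ y, ty (e y).2 = ty1 y) (X : CS α χ W1 → κ) (Y : CS α χ W1 → κ') (Z : CS α χ W1 → κ'') :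
    (KQ D ty B r M).I (fun w => X (prK B e w)) (fun w => Y (prK B e w)) (fun w => (Z (prK B e w), VV Kr Kk w)) =
      (CP D ty1).I X Y (fun p => (Z p, Vt p)) := by
  have h1 := I_embed D (ty := ty1) (ty' := fun p : (Ltr B × Option (Key r M)) × W => ty p.2) he hty X Y Z
  have h2 := (MP_cuK D ty B (r := r) (M := M)).I (fun p => X (proj e p)) (fun p => Y (proj e p))
    (fun p => (Z (proj e p), Vt p))
  rw [← h1, ← h2]
  refine FP.I_congr_cond _ (fun v w h => ?_) (fun v w h => ?_)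
  · simp only [Prod.mk.injEq] at h ⊢
    exact ⟨h.1, (VV_cuK B v w).1 h.2⟩
  · simp only [Prod.mk.injEq] at h ⊢
    exact ⟨h.1, (VV_cuK B v w).2 h.2⟩

theorem E_ip_KQ {ty1 : W1 → ι} {e : W1 → (Ltr B × Option (Key r M)) × W} (he : Function.Injective e)
    (hty : ∀ y, ty (e y).2 = ty1 y) (X : CS α χ W1 → κ) (Y : CS α χ W1 → κ') (Z : CS α χ W1 → κ'') :
    (KQ D ty B r M).E (GMC.ip (KQ D ty B r M) (fun w => X (prK B e w)) (fun w => Y (prK B e w)) (fun w => Z (prK B e w))
      (VV Kr Kk)) = (CP D ty1).E (GMC.ip (CP D ty1) X Y Z Vt) := by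
  rw [GMC.E_ip, GMC.E_ip]
  exact I_KQ D ty B he hty X Y Z

/-- the real collection, given all vertices of the key space -/
theorem E_ip_rp (X : CS α χ W → κ) (Y : CS α χ W → κ') (Z : CS α χ W → κ'') :
    (KQ D ty B r M).E (GMC.ip (KQ D ty B r M) (fun w => X (rp B w)) (fun w => Y (rp B w)) (fun w => Z (rp B w))
      (VV Kr Kk)) = (CP D ty).E (GMC.ip (CP D ty) X Y Z Vt) :=
  E_ip_KQ D ty B (e := fun y => ((ltr B y, none), y)) (fun _ _ h => (Prod.mk.injEq _ _ _ _ ▸ h : _ ∧ _).2)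
    (fun _ => rfl) X Y Z

end cu

/-! ## the shapes -/

namespace KI

section shapes

variable {W : Type} [Fintype W] [DecidableEq W] (ty : W → ι) (k s : ℕ) (B : Finset W)

variable {D ty k s B}

theorem mem_shb {H : {H : Finset W // H ∈ LS ty k ∧ H.card ≤ s ∧ ¬ isBad D ty s B H}} {e : Shp D ty k s B} :
    e ∈ shb D ty k s B (Sum.inl H) ↔ ∃ H' : {H : Finset W // H ∈ LS ty k ∧ H.card ≤ s ∧ ¬ isBad D ty s B H},
      e = Sum.inl H' ∧ H'.1 ⊂ H.1 := by
  classical
  unfold shb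
  rw [Finset.mem_filter]
  exact ⟨fun h => h.2, fun h => ⟨Finset.mem_univ _, h⟩⟩

theorem mem_fre {H : Finset W} {y : W} : y ∈ fre D ty H ↔ y ∈ H ∧ ty y ∉ D.J := by
  unfold fre
  rw [Finset.mem_filter]

theorem shS_sub (e : Shp D ty k s B) : ∀ e' ∈ shb D ty k s B e, shS D ty k s B e' ⊆ shS D ty k s B e := by
  intro e' he'
  rcases e with H | P
  · obtain ⟨H', rfl, h⟩ := mem_shb.1 he'
    exact Finset.image_subset_image (fre_mono D ty h.1)
  · exact absurd he' (Finset.notMem_empty _)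

theorem shz_lt (e : Shp D ty k s B) : ∀ e' ∈ shb D ty k s B e, shz D ty k s B e' < shz D ty k s B e := by
  intro e' he'
  rcases e with H | P
  · obtain ⟨H', rfl, h⟩ := mem_shb.1 he'
    exact Finset.card_lt_card h
  · exact absurd he' (Finset.notMem_empty _)

theorem shT_low (e : Shp D ty k s B) (hT : ¬ shT D ty k s B e) : ∀ e' ∈ shb D ty k s B e, ¬ shT D ty k s B e' := by
  intro e' he'
  rcases e with H | P
  · obtain ⟨H', rfl, h⟩ := mem_shb.1 he'
    have h1 := Finset.card_lt_card h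
    have h2 := H.2.2.1
    show H'.1.card ≠ s
    omega
  · exact absurd he' (Finset.notMem_empty _)

theorem shL_dep {G : Finset W} (hB : B = fre D ty G) {A : ℝ} {Ex : Finset W → CS α χ W → ℕ} (hEx : Ext D ty G A Ex)
    (e : Shp D ty k s B) (a : α) (x x' : Ltr B → (W → χ)) (h : ∀ y ∈ shS D ty k s B e, x y = x' y) :
    shL D ty k s B Ex e a x = shL D ty k s B Ex e a x' := by
  rcases e with H | P
  · refine LC_dep D ty (mem_LS.1 H.2.1).2 rfl (fun y hy hJ => ?_)
    show x (ltr B y) y = x' (ltr B y) y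
    rw [h (ltr B y) (Finset.mem_image.2 ⟨y, mem_fre.2 ⟨hy, hJ⟩, rfl⟩)]
  · have hP : P.1 ⊂ fre D ty G := by rw [← hB]; exact P.2
    refine hEx.dep P.1 hP _ _ rfl (fun y hy => ?_)
    show x (ltr B y) y = x' (ltr B y) y
    rw [h (ltr B y)]
    show ltr B y ∈ insert none (P.1.image (ltr B))
    by_cases hyB : y ∈ B
    · rw [← hB] at hy
      have hyP : y ∈ P.1 := by
        by_contra hn
        exact hy (Finset.mem_sdiff.2 ⟨hyB, hn⟩)
      exact Finset.mem_insert_of_mem (Finset.mem_image.2 ⟨y, hyP, rfl⟩)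
    · rw [ltr_not B hyB]
      exact Finset.mem_insert_self _ _

end shapes

/-! ## entropies of families -/

section famH

variable {Om : Type*} [Fintype Om] (P : FP Om) {I γ 𝒱 : Type*} (Lab : I → Om → γ) (V : Om → 𝒱)

theorem hF_empty : hF P Lab V ∅ = 0 := by
  unfold hF FP.Hc
  have h : P.H (fun w => (Fam Lab (∅ : Set I) w, V w)) = P.H V := by
    refine P.H_congr (fun v w h => ?_) (fun v w h => ?_)
    · simp only [Prod.mk.injEq] at h
      exact h.2
    · simp only [Prod.mk.injEq]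
      exact ⟨Fam_eq_iff'.2 (fun i hi => absurd hi (Set.notMem_empty i)), h⟩
  rw [h, sub_self]

theorem hF_single (i : I) : hF P Lab V {i} = P.Hc (Lab i) V := by
  unfold hF
  refine P.Hc_congr (fun v w h => ?_) (Fac.refl _) (fun v w h => ?_) (Fac.refl _)
  · simp only [Prod.mk.injEq] at h
    exact Fam_eq_iff'.1 h.1 i rfl
  · simp only [Prod.mk.injEq] at h
    refine Fam_eq_iff'.2 (fun j hj => ?_)
    have : j = i := hj
    subst this
    exact h.1

theorem hF_le_sum [DecidableEq I] (s : Finset I) : hF P Lab V (s : Set I) ≤ ∑ i ∈ s, P.Hc (Lab i) V := by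
  induction s using Finset.induction_on with
  | empty => simp [hF_empty]
  | insert i s hi ih =>
    rw [Finset.sum_insert hi, Finset.coe_insert, Set.insert_eq, Set.union_comm]
    have h1 := hF_sub P Lab V (s := ∅) (t := (s : Set I)) {i} (Set.empty_subset _)
    rw [Set.empty_union, hF_empty, hF_single] at h1
    linarith

theorem hF_le_card [Fintype I] (s : Set I) {c : ℝ} (hc : ∀ i ∈ s, P.Hc (Lab i) V ≤ c) {n : ℕ}
    (hn : ∀ t : Finset I, (t : Set I) = s → t.card ≤ n) (hc0 : 0 ≤ c) : hF P Lab V s ≤ n * c := by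
  classical
  set t : Finset I := univ.filter fun i => i ∈ s with ht
  have hts : (t : Set I) = s := by
    ext i
    simp [ht]
  rw [← hts]
  refine (hF_le_sum P Lab V t).trans ?_
  refine (Finset.sum_le_card_nsmul t _ c (fun i hi => hc i (by rw [← hts]; exact hi))).trans ?_
  rw [nsmul_eq_mul]
  exact mul_le_mul_of_nonneg_right (by exact_mod_cast hn t hts) hc0

end famH

/-! ## the labels of kind `T` -/

section cnt

/-- one plus the number of keys of level `> t` -/
def kc (r : ℕ) (N : ℕ → ℕ) (t : ℕ) : ℕ := 1 + ∑ l ∈ (range r).filter (fun l => t < l), N l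

theorem TT_card {Λ E : Type*} [Fintype Λ] [DecidableEq Λ] [Fintype E] {r M : ℕ} {Sh : E → Finset Λ} {T : E → Prop}
    {N : ℕ → ℕ} {n : Λ × Fin r → ℕ} (hn : n ∈ Box (fun q : Λ × Fin r => N q.2)) (U : Finset Λ)
    (t : Finset (E × (Λ → Option (Key r M)))) (ht : (t : Set (E × (Λ → Option (Key r M)))) = TT Sh T n U) :
    t.card ≤ Fintype.card E * (kc r N U.card) ^ Fintype.card Λ := by
  classical
  set Ks : Finset (Key r M) := univ.filter fun k : Key r M => U.card < (k.1 : ℕ) ∧ (k.2 : ℕ) < N k.1 with hKs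
  set K : Finset (Option (Key r M)) := insert none (Ks.image some) with hK
  have hKs' : Ks.card ≤ ∑ l ∈ (range r).filter (fun l => U.card < l), N l := by
    have h1 : ∑ l ∈ (range r).filter (fun l => U.card < l), N l =
        (((range r).filter (fun l => U.card < l)).sigma (fun l => range (N l))).card := by
      rw [Finset.card_sigma]
      simp only [Finset.card_range]
    rw [h1]
    refine Finset.card_le_card_of_injOn (fun k => (⟨(k.1 : ℕ), (k.2 : ℕ)⟩ : (_ : ℕ) × ℕ)) (fun k hk => ?_)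
      (fun k _ k' _ he => ?_)
    · have hk' := (Finset.mem_filter.1 (Finset.mem_coe.1 hk)).2
      exact Finset.mem_coe.2 (Finset.mem_sigma.2 ⟨Finset.mem_filter.2 ⟨Finset.mem_range.2 k.1.2, hk'.1⟩,
        Finset.mem_range.2 hk'.2⟩)
    · simp only [Sigma.mk.injEq, heq_eq_eq] at he
      exact Prod.ext (Fin.ext he.1) (Fin.ext he.2)
  have hKc : K.card ≤ kc r N U.card := by
    unfold kc
    refine (Finset.card_insert_le _ _).trans ?_
    have h2 : (Ks.image some).card ≤ Ks.card := Finset.card_image_le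
    omega
  have hsub : t ⊆ (univ : Finset E) ×ˢ Fintype.piFinset (fun _ : Λ => K) := by
    intro i hi
    have hi' : i ∈ TT Sh T n U := by rw [← ht]; exact hi
    obtain ⟨_, hA, _, hL⟩ := hi'
    rw [Finset.mem_product, Fintype.mem_piFinset]
    refine ⟨Finset.mem_univ _, fun y => ?_⟩
    cases hσ : i.2 y with
    | none => exact Finset.mem_insert_self _ _
    | some k =>
      have hy : y ∈ Sh i.1 := by
        by_contra h
        rw [hA.1 y h] at hσ
        exact absurd hσ (by simp)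
      refine Finset.mem_insert_of_mem (Finset.mem_image.2 ⟨k, Finset.mem_filter.2 ⟨Finset.mem_univ _, hL y hy k hσ, ?_⟩, rfl⟩)
      exact (hA.2 y hy k hσ).trans (mem_Box.1 hn (y, k.1))
  refine (Finset.card_le_card hsub).trans ?_
  rw [Finset.card_product, Fintype.card_piFinset, Finset.prod_const, Finset.card_univ, Finset.card_univ]
  exact Nat.mul_le_mul_left _ (Nat.pow_le_pow_left hKc _)

variable {W : Type} [Fintype W] [DecidableEq W] {ty : W → ι} {k s : ℕ} {B : Finset W} {r M : ℕ}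

/-- number of values for fixed vertices -/
theorem nv_KQ_le {κ : Type*} (f : α → (Ltr B × Option (Key r M) → (W → χ)) → κ) (w : KW α χ B r M) :
    nv (KQ D ty B r M) (fun w => f w.1 w.2) (VV Kr Kk) w ≤ nA D (fun a => f a w.2) := by
  classical
  unfold nv nA
  refine Finset.card_le_card (fun z hz => ?_)
  obtain ⟨u, hu, hV, rfl⟩ := mem_vs_iff.1 hz
  have h2 : u.2 = w.2 := by
    have h3 := (VV_cuK B u w).1 hV
    funext p y
    exact congrFun h3 (p, y)
  have h3 : D.PA.p u.1 ≠ 0 := by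
    intro h0
    apply hu
    show D.PA.p u.1 * _ = 0
    rw [h0, zero_mul]
  refine Finset.mem_image.2 ⟨u.1, Finset.mem_filter.2 ⟨Finset.mem_univ _, h3⟩, ?_⟩
  rw [h2]

theorem Hc_KQ_le {κ : Type*} (f : α → (Ltr B × Option (Key r M) → (W → χ)) → κ) {c : ℝ}
    (hc : ∀ x, (nA D (fun a => f a x) : ℝ) ≤ Real.exp c) :
    (KQ D ty B r M).Hc (fun w => f w.1 w.2) (VV Kr Kk) ≤ c := by
  refine (Hc_le_nv _ _ _).trans (FP.E_le_const _ (fun w hw => ?_))
  have h3 : 0 < nv (KQ D ty B r M) (fun w => f w.1 w.2) (VV Kr Kk) w := nv_pos hw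
  have h4 : ((nv (KQ D ty B r M) (fun w => f w.1 w.2) (VV Kr Kk) w : ℕ) : ℝ) ≤ Real.exp c :=
    (Nat.cast_le.2 (nv_KQ_le D f w)).trans (hc _)
  exact (Real.log_le_log (by exact_mod_cast h3) h4).trans (le_of_eq (Real.log_exp c))

theorem Hc_LB_le {E : Type} {lab : E → α → (Ltr B → (W → χ)) → ℕ} (i : E × (Ltr B → Option (Key r M))) {c : ℝ}
    (hc : ∀ x : Ltr B → (W → χ), (nA D (fun a => lab i.1 a x) : ℝ) ≤ Real.exp c) :
    (KQ D ty B r M).Hc (LB lab i) (VV Kr Kk) ≤ c :=
  Hc_KQ_le D (fun a x => lab i.1 a (fun y => x (y, i.2 y))) (fun _ => hc _)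

theorem aS_nonneg {κ : Type*} {f : α → κ} {c : ℝ} (h : (nA D f : ℝ) ≤ Real.exp c) : 0 ≤ c := by
  have h1 : (1 : ℝ) ≤ nA D f := by exact_mod_cast nA_pos D f
  exact Real.exp_le_exp.1 ((le_of_eq Real.exp_zero).trans (h1.trans h))

/-- the entropy of the labels of kind `T` -/
theorem hF_TT {G : Finset W} (hG : G ∈ LS ty k) (hs : G.card = s) (hB : B = fre D ty G) {A aS : ℝ}
    {Ex : Finset W → CS α χ W → ℕ} (hEx : Ext D ty G A Ex) (hA : 0 ≤ A)
    (haS : ∀ H ∈ LS ty k, H.card = s → ∀ u : W → χ, (nA D (fun a => LC D ty H (a, u)) : ℝ) ≤ Real.exp aS)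
    {N : ℕ → ℕ} {n : Ltr B × Fin r → ℕ} (hn : n ∈ Box (fun q : Ltr B × Fin r => N q.2)) (U : Finset (Ltr B)) :
    hF (KQ D ty B r M) (LB (shL D ty k s B Ex)) (VV Kr Kk) (TT (M := M) (shS D ty k s B) (shT D ty k s B) n U) ≤
      ((Fintype.card (Shp D ty k s B) * (kc r N U.card) ^ Fintype.card (Ltr B) : ℕ) : ℝ) * (aS + A) := by
  have haS0 : 0 ≤ aS := aS_nonneg D (haS G hG hs (fun y => D.x0 (ty y)))
  refine hF_le_card _ _ _ _ (fun i hi => ?_) (fun t ht => TT_card hn U t ht) (add_nonneg haS0 hA)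
  obtain ⟨⟨e, σ⟩, rfl⟩ : ∃ j, j = i := ⟨i, rfl⟩
  have hT : shT D ty k s B e := hi.1
  rcases e with H | P
  · have h1 := Hc_LB_le (ty := ty) D (lab := shL D ty k s B Ex) (Sum.inl H, σ) (c := aS) (fun x => haS H.1 H.2.1 hT _)
    linarith
  · have h1 := Hc_LB_le (ty := ty) D (lab := shL D ty k s B Ex) (Sum.inr P, σ) (c := A)
      (fun x => hEx.card P.1 (by rw [← hB]; exact P.2) _)
    linarith

end cnt

/-! ## the bracket -/

section e2

variable {W : Type} [Fintype W] [DecidableEq W] (ty : W → ι) (k s : ℕ) (B : Finset W)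

/-- the letter of a free vertex -/
def ltJ (y : W) : Option (Ltr B) := if ty y ∈ D.J then none else some (ltr B y)

/-- the label set of a shape -/
def nmS : Shp D ty k s B → Finset W
  | Sum.inl H => H.1
  | Sum.inr _ => ∅

variable {D ty k s B}

theorem ltJ_some {y : W} {l : Ltr B} : ltJ D ty B y = some l ↔ ty y ∉ D.J ∧ ltr B y = l := by
  unfold ltJ
  split_ifs with h
  · constructor
    · intro h1
      exact absurd h1 (by simp)
    · rintro ⟨h1, _⟩
      exact absurd h h1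
  · rw [Option.some.injEq]
    exact ⟨fun h1 => ⟨h, h1⟩, fun h1 => h1.2⟩

theorem Nm_sh : Nm (shS D ty k s B) (shT D ty k s B) (ltJ D ty B) (nmS D ty k s B) (shb D ty k s B) where
  letters e hT y := by
    rcases e with H | P
    · show y ∈ (fre D ty H.1).image (ltr B) ↔ ∃ w ∈ H.1, ltJ D ty B w = some y
      rw [Finset.mem_image]
      constructor
      · rintro ⟨w, hw, hy⟩
        rw [mem_fre] at hw
        exact ⟨w, hw.1, ltJ_some.2 ⟨hw.2, hy⟩⟩
      · rintro ⟨w, hw, h⟩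
        exact ⟨w, mem_fre.2 ⟨hw, (ltJ_some.1 h).1⟩, (ltJ_some.1 h).2⟩
    · exact absurd trivial hT
  inj e e' h h' he := by
    rcases e with H | P
    · rcases e' with H' | P'
      · exact congrArg Sum.inl (Subtype.ext he)
      · exact absurd trivial h'
    · exact absurd trivial h
  sub1 e hT e' he' := by
    refine ⟨shT_low e hT e' he', ?_⟩
    rcases e with H | P
    · obtain ⟨H', rfl, h⟩ := mem_shb.1 he'
      exact h
    · exact absurd he' (Finset.notMem_empty _)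
  sub2 e hT G hG := by
    rcases e with H | P
    · have h1 : G ∈ LS ty k := LS_dc ty k H.1 H.2.1 (Finset.mem_ssubsets.2 hG)
      have h2 : G.card < s := (Finset.card_lt_card hG).trans_le H.2.2.1
      refine ⟨Sum.inl ⟨G, h1, h2.le, fun h3 => h2.ne h3.1⟩, mem_shb.2 ⟨_, rfl, hG⟩, rfl⟩
    · exact absurd trivial hT

variable {r M : ℕ}

/-- the large collection -/
abbrev BigW (D : SD ι α χ) (ty : W → ι) (r M : ℕ) : Type := {p : W × Option (Key r M) // ty p.1 ∈ D.J → p.2 = none}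

/-- the types of the large collection -/
def tyB (p : BigW D ty r M) : ι := ty p.1.1

/-- the embedding into the pairs -/
def emB : BigW D ty r M ↪ W × Option (Key r M) := ⟨fun p => p.1, fun _ _ h => Subtype.ext h⟩

/-- the sites of the pairs -/
def stK (B : Finset W) (p : W × Option (Key r M)) : (Ltr B × Option (Key r M)) × W := ((ltr B p.1, p.2), p.1)

theorem stK_inj : Function.Injective (stK (r := r) (M := M) B) := fun p q h => by
  unfold stK at h
  simp only [Prod.mk.injEq] at h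
  exact Prod.ext h.2 h.1.2

/-- the labels of the finite sets of pairs -/
def LK (D : SD ι α χ) (ty : W → ι) (B : Finset W) (F : Finset (W × Option (Key r M))) (w : KW α χ B r M) : ℕ :=
  LC D (fun p : W × Option (Key r M) => ty p.1) F (prK B (stK B) w)

theorem LK_emB {F : Finset (BigW D ty r M)} (hF : F ∈ LS (tyB (D := D) (ty := ty) (r := r) (M := M)) k)
    (w : KW α χ B r M) : LK D ty B (F.map emB) w = LC D tyB F (prK B (fun p => stK B (emB p)) w) := by
  unfold LK
  rw [LC_map D emB (ty := tyB) (ty' := fun p : W × Option (Key r M) => ty p.1) (fun _ => rfl) (mem_LS.1 hF).2]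
  rfl

theorem LK_nm {Ex : Finset W → CS α χ W → ℕ} {n : Ltr B × Fin r → ℕ}
    (i : Shp D ty k s B × (Ltr B → Option (Key r M))) (hi : i ∈ CC (shS D ty k s B) (shT D ty k s B) n univ)
    (w : KW α χ B r M) : LK D ty B (nmK (ltJ D ty B) (nmS D ty k s B) i) w = LB (shL D ty k s B Ex) i w := by
  obtain ⟨⟨e, σ⟩, rfl⟩ : ∃ j, j = i := ⟨i, rfl⟩
  rcases e with H | P
  · have h1 : nmK (ltJ D ty B) (nmS D ty k s B) (Sum.inl H, σ) =
        H.1.map ⟨fun y => (y, siteK (ltJ D ty B) σ y), fun _ _ h => (Prod.mk.injEq _ _ _ _ ▸ h : _ ∧ _).1⟩ := by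
      rw [Finset.map_eq_image]
      rfl
    have hI := (mem_LS.1 H.2.1).2
    unfold LK
    rw [h1, LC_map D _ (ty := ty) (ty' := fun p : W × Option (Key r M) => ty p.1) (fun _ => rfl) hI]
    refine LC_dep D ty hI rfl (fun y _ hJ => ?_)
    have h2 : ltJ D ty B y = some (ltr B y) := ltJ_some.2 ⟨hJ, rfl⟩
    show w.2 (ltr B y, siteK (ltJ D ty B) σ y) y = w.2 (ltr B y, σ (ltr B y)) y
    have h3 : siteK (ltJ D ty B) σ y = σ (ltr B y) := by
      unfold siteK
      rw [h2]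
      rfl
    rw [h3]
  · exact absurd trivial hi.1

/-- the label sets of kind `C` are label sets of the large collection -/
theorem FK_sub (n : Ltr B × Fin r → ℕ) :
    FK (shS D ty k s B) (shT D ty k s B) (ltJ D ty B) (nmS D ty k s B) n ⊆
      fm emB ((LS (tyB (D := D) (ty := ty) (r := r) (M := M)) k).filter fun F => F.card < s) := by
  intro F hF
  obtain ⟨i, hi, rfl⟩ := mem_FK.1 hF
  obtain ⟨⟨e, σ⟩, rfl⟩ : ∃ j, j = i := ⟨i, rfl⟩
  rcases e with H | P
  · have hI := (mem_LS.1 H.2.1).2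
    have hst : ∀ y, ty y ∈ D.J → siteK (ltJ D ty B) σ y = none := by
      intro y hy
      unfold siteK ltJ
      rw [if_pos hy]
      rfl
    set e1 : W ↪ BigW D ty r M := ⟨fun y => ⟨(y, siteK (ltJ D ty B) σ y), hst y⟩, fun _ _ h =>
      (Prod.mk.injEq _ _ _ _ ▸ (congrArg Subtype.val h) : _ ∧ _).1⟩ with he1
    have h2 : H.1.map e1 ∈ LS (tyB (D := D) (ty := ty) (r := r) (M := M)) k :=
      (mem_LS_map e1 (ty := ty) (fun _ => rfl)).2 H.2.1
    have h3 : H.1.card < s := lt_of_le_of_ne H.2.2.1 hi.1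
    refine mem_fm.2 ⟨H.1.map e1, Finset.mem_filter.2 ⟨h2, by rw [Finset.card_map]; exact h3⟩, ?_⟩
    rw [Finset.map_map, Finset.map_eq_image]
    rfl
  · exact absurd trivial hi.1

theorem card_BigW : Fintype.card (BigW D ty r M) ≤ Fintype.card W * (1 + r * M) := by
  refine (Fintype.card_subtype_le _).trans (le_of_eq ?_)
  rw [Fintype.card_prod, Fintype.card_option, Fintype.card_prod, Fintype.card_fin, Fintype.card_fin, Nat.add_comm]

theorem JInj_tyB (hJ : JInj D.J ty) : JInj D.J (tyB (D := D) (ty := ty) (r := r) (M := M)) := by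
  rintro ⟨⟨y, σ⟩, hy⟩ ⟨⟨y', σ'⟩, hy'⟩ h1 h2
  have h3 : y = y' := hJ y y' h1 h2
  subst h3
  have h4 : σ = none := hy h1
  have h5 : σ' = none := hy' h1
  exact Subtype.ext (by show (y, σ) = (y, σ'); rw [h4, h5])

/-- THE BRACKET -/
theorem e2_le (hJ : JInj D.J ty) {Nbig : ℕ} {eps : ℝ} (heps : 0 ≤ eps) (hBd : ∀ s' < s, Bd D k s' Nbig eps)
    (hbig : Fintype.card W * (1 + r * M) ≤ Nbig) (Ex : Finset W → CS α χ W → ℕ) (n : Ltr B × Fin r → ℕ) :
    costC (KQ D ty B r M) (LB (shL D ty k s B Ex)) (shS D ty k s B) (shT D ty k s B) (VV Kr Kk) (shb D ty k s B) n none -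
      (hF (KQ D ty B r M) (LB (shL D ty k s B Ex)) (VV Kr Kk) (CC (M := M) (shS D ty k s B) (shT D ty k s B) n univ) -
        hF (KQ D ty B r M) (LB (shL D ty k s B Ex)) (VV Kr Kk) (Cw (M := M) (shS D ty k s B) (shT D ty k s B) n none)) ≤
      ((Nbig : ℝ) + 1) ^ k * eps := by
  classical
  set S1 : Finset (Finset (BigW D ty r M)) := (LS tyB k).filter fun F => F.card < s with hS1
  set S0 : Finset (Finset (BigW D ty r M)) := LS tyB k with hS0
  have hsub : FK (shS D ty k s B) (shT D ty k s B) (ltJ D ty B) (nmS D ty k s B) n ⊆ fm emB S0 :=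
    (FK_sub n).trans (Finset.image_subset_image (Finset.filter_subset _ _))
  have h1 := bracket_le (KQ D ty B r M) (LB (shL D ty k s B Ex)) (VV Kr Kk) (LK D ty B) shS_sub Nm_sh n none
    (fun i hi w => LK_nm i hi w) hsub
  refine h1.trans ?_
  have h2 : ∀ F ∈ FK (shS D ty k s B) (shT D ty k s B) (ltJ D ty B) (nmS D ty k s B) n,
      (KQ D ty B r M).E (mG (KQ D ty B r M) (LK D ty B) (VV Kr Kk) (fm emB S0) F) ≤ eps := by
    intro F hF
    obtain ⟨F', hF', rfl⟩ := mem_fm.1 (FK_sub n hF)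
    obtain ⟨hF1, hF2⟩ := Finset.mem_filter.1 hF'
    have h3 : (KQ D ty B r M).E (mG (KQ D ty B r M) (LK D ty B) (VV Kr Kk) (fm emB S0) (F'.map emB)) =
        (KQ D ty B r M).E (mG (KQ D ty B r M) (fun F w => LC D tyB F (prK B (fun p => stK B (emB p)) w)) (VV Kr Kk) S0 F') := by
      refine FP.E_congr _ (fun w _ => ?_)
      exact mG_map_eq (KQ D ty B r M) emB _ (LK D ty B) (VV Kr Kk) (LS_dc tyB k) hF1
        (fun J hJ w => LK_emB hJ w) w
    rw [h3]
    have h4 := E_ip_KQ D ty B (r := r) (M := M) (ty1 := tyB (D := D) (ty := ty) (r := r) (M := M))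
      (e := fun p => stK B (emB p)) (fun p q h => emB.injective (stK_inj h)) (fun _ => rfl)
      (LC D tyB F') (Lf (LC D tyB) (prev S0 F')) (Lf (LC D tyB) F'.ssubsets)
    have h5 := hBd F'.card hF2 (BigW D ty r M) tyB (JInj_tyB hJ) (card_BigW.trans hbig) F' hF1 rfl
    refine le_trans (le_of_eq ?_) h5
    exact h4
  refine (Finset.sum_le_card_nsmul _ _ _ h2).trans ?_
  rw [nsmul_eq_mul]
  refine mul_le_mul_of_nonneg_right ?_ heps
  have h6 : (FK (M := M) (shS D ty k s B) (shT D ty k s B) (ltJ D ty B) (nmS D ty k s B) n).card ≤ (Nbig + 1) ^ k := by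
    refine (Finset.card_le_card hsub).trans (Finset.card_image_le.trans ?_)
    refine (card_LS_le tyB k (card_BigW.trans hbig)).trans le_rfl
  exact_mod_cast h6

end e2

end KI

/-! ## the output of `key_sim` for one label set -/

section out

open KI

variable {W : Type} [Fintype W] [DecidableEq W] {ty : W → ι} {k s : ℕ} {B : Finset W} {r M : ℕ}

/-- the bound of `e_1` -/
def e1K (D : SD ι α χ) (ty : W → ι) (k s : ℕ) (B : Finset W) (r : ℕ) (N : ℕ → ℕ) (aA : ℝ) : ℝ :=
  ∑ U ∈ (univ : Finset (Finset (Ltr B))).erase univ, ((Fintype.card (Ltr B) - U.card : ℕ) : ℝ) *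
    (((Fintype.card (Shp D ty k s B) * (kc r N U.card) ^ Fintype.card (Ltr B) : ℕ) : ℝ) * aA) / N U.card

/-- CM.3 (1)-(3) FOR ONE LABEL SET OF A COLLECTION -/
theorem exists_simOut {G : Finset W} (hG : G ∈ LS ty k) (hs : G.card = s) (hB : B = fre D ty G) (hJ : JInj D.J ty)
    {A aS : ℝ} {Ex : Finset W → CS α χ W → ℕ} (hEx : Ext D ty G A Ex) (hA : 0 ≤ A)
    (haS : ∀ H ∈ LS ty k, H.card = s → ∀ u : W → χ, (nA D (fun a => LC D ty H (a, u)) : ℝ) ≤ Real.exp aS)
    {Nbig : ℕ} {eps : ℝ} (heps : 0 ≤ eps) (hBd : ∀ s' < s, Bd D k s' Nbig eps)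
    (hbig : Fintype.card W * (1 + r * M) ≤ Nbig) (hr : Fintype.card (Ltr B) ≤ r) (N : ℕ → ℕ) (hN : ∀ l, 0 < N l)
    (hM : ∀ l < r, N l ≤ M) :
    ∃ n ∈ Box (fun q : Ltr B × Fin r => N q.2), ∃ (Θ : Type) (_ : Fintype Θ) (Q : FP Θ)
      (Ls : Shp D ty k s B × (Ltr B → Option (Key r M)) → KW α χ B r M × Θ → ℕ),
      SimOut D ty k s B Ex n Q Ls (e1K D ty k s B r N (aS + A) + ((Nbig : ℝ) + 1) ^ k * eps) := by
  obtain ⟨n, hn, Θ, hΘ, Q, Ls, h1, -, h2, h3, h4, h5, h6⟩ := key_sim (r := r) (M := M) D.PA (muL D ty B)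
    (Sh := shS D ty k s B) (lab := shL D ty k s B Ex) (T := shT D ty k s B) none (shb D ty k s B) (shz D ty k s B)
    shS_sub shz_lt shT_low (shL_dep hB hEx) hr N hN hM
    (fun t => ((Fintype.card (Shp D ty k s B) * (kc r N t) ^ Fintype.card (Ltr B) : ℕ) : ℝ) * (aS + A))
    (fun U _ n hn => hF_TT D hG hs hB hEx hA haS hn U)
  exact ⟨n, hn, Θ, hΘ, Q, Ls, h1, h2, h3, h4, h5, h6.trans (add_le_add le_rfl (e2_le hJ heps hBd hbig Ex n))⟩

theorem card_Shp_le {N : ℕ} (hN : Fintype.card W ≤ N) (hBk : B.card ≤ k) :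
    Fintype.card (Shp D ty k s B) ≤ (N + 1) ^ k + 2 ^ k := by
  classical
  have h0 : Fintype.card (Shp D ty k s B) =
      Fintype.card {H : Finset W // H ∈ LS ty k ∧ H.card ≤ s ∧ ¬ isBad D ty s B H} +
        Fintype.card {P : Finset W // P ⊂ B} := by
    rw [← Fintype.card_sum]
    exact Fintype.card_congr (Equiv.refl _)
  rw [h0]
  refine Nat.add_le_add ?_ ?_
  · rw [Fintype.card_subtype]
    refine (Finset.card_le_card (fun H hH => ?_)).trans (card_LS_le ty k hN)
    exact (Finset.mem_filter.1 hH).2.1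
  · rw [Fintype.card_subtype]
    have h1 : (univ.filter fun P : Finset W => P ⊂ B) ⊆ B.powerset := fun P hP =>
      Finset.mem_powerset.2 (Finset.mem_filter.1 hP).2.1
    refine (Finset.card_le_card h1).trans ?_
    rw [Finset.card_powerset]
    exact Nat.pow_le_pow_right (by norm_num) hBk

theorem kc_le {r : ℕ} {N : ℕ → ℕ} (hanti : ∀ l l', l ≤ l' → N l' ≤ N l) (t : ℕ) : kc r N t ≤ 1 + r * N (t + 1) := by
  unfold kc
  refine Nat.add_le_add_left ?_ 1
  refine (Finset.sum_le_card_nsmul _ _ (N (t + 1)) (fun l hl => hanti _ _ (Finset.mem_filter.1 hl).2)).trans ?_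
  rw [smul_eq_mul]
  refine Nat.mul_le_mul_right _ ((Finset.card_filter_le _ _).trans ?_)
  rw [Finset.card_range]

/-- a clean bound of `e_1` -/
theorem e1K_le {N : ℕ → ℕ} (hN : ∀ l, 0 < N l) (hanti : ∀ l l', l ≤ l' → N l' ≤ N l) {nW : ℕ}
    (hW : Fintype.card W ≤ nW) (hBk : B.card < k) {aA e1 : ℝ} (haA : 0 ≤ aA) (he1 : 0 ≤ e1)
    (hkey : ∀ t < k, (((nW + 1) ^ k + 2 ^ k : ℕ) : ℝ) * ((1 + r * N (t + 1) : ℕ) : ℝ) ^ k * aA ≤ e1 * N t) :
    e1K D ty k s B r N aA ≤ 2 ^ k * (k * e1) := by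
  have hL : Fintype.card (Ltr B) = B.card + 1 := by
    rw [Fintype.card_option, Fintype.card_coe]
  have hLk : Fintype.card (Ltr B) ≤ k := by rw [hL]; exact hBk
  unfold e1K
  have h1 : ∀ U ∈ (univ : Finset (Finset (Ltr B))).erase univ, ((Fintype.card (Ltr B) - U.card : ℕ) : ℝ) *
      (((Fintype.card (Shp D ty k s B) * (kc r N U.card) ^ Fintype.card (Ltr B) : ℕ) : ℝ) * aA) / N U.card ≤ k * e1 := by
    intro U hU
    have hlt : U.card < Fintype.card (Ltr B) := by
      rw [← Finset.card_univ]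
      exact Finset.card_lt_card (Finset.ssubset_univ_iff.2 (Finset.mem_erase.1 hU).1)
    have hN0 : (0 : ℝ) < N U.card := by exact_mod_cast hN _
    rw [mul_div_assoc]
    refine mul_le_mul ?_ ?_ (by positivity) (by positivity)
    · exact_mod_cast (Nat.sub_le _ _).trans hLk
    · rw [div_le_iff₀ hN0]
      refine le_trans (mul_le_mul_of_nonneg_right ?_ haA) (hkey U.card (hlt.trans_le hLk))
      have h2 : Fintype.card (Shp D ty k s B) * kc r N U.card ^ Fintype.card (Ltr B) ≤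
          ((nW + 1) ^ k + 2 ^ k) * (1 + r * N (U.card + 1)) ^ k := by
        refine Nat.mul_le_mul (card_Shp_le D hW hBk.le) ?_
        refine (Nat.pow_le_pow_left (kc_le hanti U.card) _).trans (Nat.pow_le_pow_right (by omega) hLk)
      exact_mod_cast h2
  refine (Finset.sum_le_card_nsmul _ _ _ h1).trans ?_
  rw [nsmul_eq_mul]
  refine mul_le_mul_of_nonneg_right ?_ (by positivity)
  have h3 : ((univ : Finset (Finset (Ltr B))).erase univ).card ≤ 2 ^ k := by
    refine (Finset.card_le_card (Finset.erase_subset _ _)).trans ?_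
    rw [Finset.card_univ, Fintype.card_finset]
    exact Nat.pow_le_pow_right (by norm_num) hLk
  exact_mod_cast h3

/-- the same, clean form -/
theorem exists_simOut' {G : Finset W} (hG : G ∈ LS ty k) (hs : G.card = s) (hB : B = fre D ty G) (hJ : JInj D.J ty)
    {A : ℝ} {aa : ℕ → ℝ} {Ex : Finset W → CS α χ W → ℕ} (hEx : Ext D ty G A Ex) (hA : 0 ≤ A) (haa : AlBd D k aa)
    {nW Nbig : ℕ} (hW : Fintype.card W ≤ nW) {eps : ℝ} (heps : 0 ≤ eps) (hBd : ∀ s' < s, Bd D k s' Nbig eps) {N : ℕ → ℕ}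
    (hN : ∀ l, 0 < N l) (hanti : ∀ l l', l ≤ l' → N l' ≤ N l) (hr : B.card + 1 ≤ r)
    (hbig : nW * (1 + r * N 0) ≤ Nbig) {e1 : ℝ} (he1 : 0 ≤ e1)
    (hkey : ∀ t < k, (((nW + 1) ^ k + 2 ^ k : ℕ) : ℝ) * ((1 + r * N (t + 1) : ℕ) : ℝ) ^ k * (aa s + A) ≤ e1 * N t) :
    ∃ n ∈ Box (fun q : Ltr B × Fin r => N q.2), ∃ (Θ : Type) (_ : Fintype Θ) (Q : FP Θ)
      (Ls : Shp D ty k s B × (Ltr B → Option (Key r (N 0))) → KW α χ B r (N 0) × Θ → ℕ),
      SimOut D ty k s B Ex n Q Ls (2 ^ k * (k * e1) + ((Nbig : ℝ) + 1) ^ k * eps) := by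
  have haS : ∀ H ∈ LS ty k, H.card = s → ∀ u : W → χ, (nA D (fun a => LC D ty H (a, u)) : ℝ) ≤ Real.exp (aa s) := by
    intro H hH hHs u
    rw [← hHs]
    exact nA_LC D haa hH u
  have haS0 : 0 ≤ aa s := aS_nonneg D (haS G hG hs (fun y => D.x0 (ty y)))
  have hBk : B.card < k := by
    have h1 : B.card ≤ G.card := by
      rw [hB]
      exact Finset.card_le_card (Finset.filter_subset _ _)
    exact h1.trans_lt (mem_LS.1 hG).1
  obtain ⟨n, hn, Θ, hΘ, Q, Ls, h⟩ := exists_simOut D (r := r) (M := N 0) hG hs hB hJ hEx hA haS heps hBd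
    ((Nat.mul_le_mul_right _ hW).trans hbig) (by rw [Fintype.card_option, Fintype.card_coe]; exact hr) N hN
    (fun l _ => hanti 0 l (Nat.zero_le _))
  exact ⟨n, hn, Θ, hΘ, Q, Ls, ⟨h.real, h.val, h.kindC, h.kindT, h.acm, h.kl.trans (add_le_add
    (e1K_le D hN hanti hW hBk (add_nonneg haS0 hA) he1 hkey) le_rfl)⟩⟩

/-- a clean bound of `e_1`, exponent `|B| + 1` -/
theorem e1K_le2 {N : ℕ → ℕ} (hN : ∀ l, 0 < N l) (hanti : ∀ l l', l ≤ l' → N l' ≤ N l) {nW : ℕ}
    (hW : Fintype.card W ≤ nW) (hBk : B.card ≤ k) {aA e1 : ℝ} (haA : 0 ≤ aA) (he1 : 0 ≤ e1)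
    (hkey : ∀ t ≤ B.card, (((nW : ℝ) + 1) ^ k + 2 ^ k) * (1 + (r : ℝ) * N (t + 1)) ^ (B.card + 1) * aA ≤ e1 * N t) :
    e1K D ty k s B r N aA ≤ 2 ^ (B.card + 1) * ((B.card + 1 : ℝ) * e1) := by
  have hL : Fintype.card (Ltr B) = B.card + 1 := by
    rw [Fintype.card_option, Fintype.card_coe]
  unfold e1K
  have h1 : ∀ U ∈ (univ : Finset (Finset (Ltr B))).erase univ, ((Fintype.card (Ltr B) - U.card : ℕ) : ℝ) *
      (((Fintype.card (Shp D ty k s B) * (kc r N U.card) ^ Fintype.card (Ltr B) : ℕ) : ℝ) * aA) / N U.card ≤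
        (B.card + 1 : ℝ) * e1 := by
    intro U hU
    have hlt : U.card < Fintype.card (Ltr B) := by
      rw [← Finset.card_univ]
      exact Finset.card_lt_card (Finset.ssubset_univ_iff.2 (Finset.mem_erase.1 hU).1)
    have hN0 : (0 : ℝ) < N U.card := by exact_mod_cast hN _
    rw [mul_div_assoc]
    refine mul_le_mul ?_ ?_ (by positivity) (by positivity)
    · have h3 : Fintype.card (Ltr B) - U.card ≤ B.card + 1 := by omega
      exact_mod_cast h3
    · rw [div_le_iff₀ hN0]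
      refine le_trans (mul_le_mul_of_nonneg_right ?_ haA) (hkey U.card (by omega))
      have h2 : Fintype.card (Shp D ty k s B) * kc r N U.card ^ Fintype.card (Ltr B) ≤
          ((nW + 1) ^ k + 2 ^ k) * (1 + r * N (U.card + 1)) ^ (B.card + 1) := by
        rw [hL]
        exact Nat.mul_le_mul (card_Shp_le D hW hBk) (Nat.pow_le_pow_left (kc_le hanti U.card) _)
      exact_mod_cast h2
  refine (Finset.sum_le_card_nsmul _ _ _ h1).trans ?_
  rw [nsmul_eq_mul]
  refine mul_le_mul_of_nonneg_right ?_ (by positivity)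
  have h3 : ((univ : Finset (Finset (Ltr B))).erase univ).card ≤ 2 ^ (B.card + 1) := by
    refine (Finset.card_le_card (Finset.erase_subset _ _)).trans ?_
    rw [Finset.card_univ, Fintype.card_finset, hL]
  exact_mod_cast h3

/-- the same in the form of `StepStmt` (GMM/SatInd) -/
theorem exists_simOut2 {G : Finset W} (hG : G ∈ LS ty k) (hs : G.card = s) (hB : B = fre D ty G) (hJ : JInj D.J ty)
    {ρ : ℕ} (hρ : B.card = ρ) {A : ℝ} {aa : ℕ → ℝ} {Ex : Finset W → CS α χ W → ℕ} (hEx : Ext D ty G A Ex) (hA : 0 ≤ A)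
    (haa : AlBd D k aa) {nW Nbig : ℕ} (hW : Fintype.card W ≤ nW) {eps : ℝ} (heps : 0 ≤ eps)
    (hBd : ∀ s' < s, Bd D k s' Nbig eps) {N : ℕ → ℕ} (hN : ∀ l, 0 < N l) (hanti : ∀ l l', l ≤ l' → N l' ≤ N l)
    (hbig : nW * (1 + (ρ + 1) * N 0) ≤ Nbig) {e1 : ℝ} (he1 : 0 ≤ e1)
    (hkey : ∀ t ≤ ρ, (((nW : ℝ) + 1) ^ k + 2 ^ k) * (1 + ((ρ : ℝ) + 1) * N (t + 1)) ^ (ρ + 1) * (aa s + A) ≤ e1 * N t) :
    ∃ n ∈ Box (fun q : Ltr B × Fin (ρ + 1) => N q.2), ∃ (Θ : Type) (_ : Fintype Θ) (Q : FP Θ)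
      (Ls : Shp D ty k s B × (Ltr B → Option (Key (ρ + 1) (N 0))) → KW α χ B (ρ + 1) (N 0) × Θ → ℕ),
      SimOut D ty k s B Ex n Q Ls (2 ^ (ρ + 1) * (((ρ : ℝ) + 1) * e1) + ((Nbig : ℝ) + 1) ^ k * eps) := by
  subst hρ
  have haS : ∀ H ∈ LS ty k, H.card = s → ∀ u : W → χ, (nA D (fun a => LC D ty H (a, u)) : ℝ) ≤ Real.exp (aa s) := by
    intro H hH hHs u
    rw [← hHs]
    exact nA_LC D haa hH u
  have haS0 : 0 ≤ aa s := aS_nonneg D (haS G hG hs (fun y => D.x0 (ty y)))
  have hBk : B.card < k := by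
    have h1 : B.card ≤ G.card := by
      rw [hB]
      exact Finset.card_le_card (Finset.filter_subset _ _)
    exact h1.trans_lt (mem_LS.1 hG).1
  obtain ⟨n, hn, Θ, hΘ, Q, Ls, h⟩ := exists_simOut D (r := B.card + 1) (M := N 0) hG hs hB hJ hEx hA haS heps hBd
    ((Nat.mul_le_mul_right _ hW).trans hbig) (by rw [Fintype.card_option, Fintype.card_coe]) N hN
    (fun l _ => hanti 0 l (Nat.zero_le _))
  refine ⟨n, hn, Θ, hΘ, Q, Ls, ⟨h.real, h.val, h.kindC, h.kindT, h.acm, h.kl.trans (add_le_add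
    (e1K_le2 D hN hanti hW hBk.le (add_nonneg haS0 hA) he1 (fun t ht => ?_)) le_rfl)⟩⟩
  have := hkey t ht
  push_cast
  exact this

end out

end

end Pool.Agent.GMM
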