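import Pool.Agent.GMM.Def

/-!
# GMM/P1: dropping the bad label sets (row CM, static part, step P1; helper28)

* `BadS D ty k G` : the label sets of size `|G|` whose free part strictly contains the free part of `G`;
* `exU B C Ex` : the extras `Ex` of a label set with free part `B` as extras of a label set with free part `C ⊃ B`
  (`P ∪ (C \ B)` in the place of `P`), `Ext.up` : they are admissible;
* `mst_P1` : `m*_G <= I(L_G; Ex, all labels of size <= |G| except L_G and the bad ones | L_<G) + ∑ m*_H` over the bad `H`;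
* `mst_P1_le` : the same with the bounds `BdX` of the label sets with more free vertices.
-/

set_option autoImplicit false
set_option linter.unusedSectionVars false

namespace Pool.Agent.GMM

open Finset Pool.Agent.PWZ Pool.Agent.M3 Pool.Agent.M3.FP Pool.Agent.GMC

noncomputable section

variable {ι α χ : Type} [Fintype ι] [DecidableEq ι] [Fintype α] [Fintype χ] [DecidableEq χ] (D : SD ι α χ)
variable {W : Type} [Fintype W] [DecidableEq W]

/-- the bad label sets: the size of `G`, more free vertices than `G` -/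
def BadS (ty : W → ι) (k : ℕ) (G : Finset W) : Finset (Finset W) :=
  (LS ty k).filter fun H => H.card = G.card ∧ fre D ty G ⊂ fre D ty H

theorem mem_BadS {ty : W → ι} {k : ℕ} {G H : Finset W} :
    H ∈ BadS D ty k G ↔ H ∈ LS ty k ∧ H.card = G.card ∧ fre D ty G ⊂ fre D ty H := by
  unfold BadS
  rw [mem_filter]

/-- a set of `prev` which is not bad: smaller, or its free part does not strictly contain the free part of `G` -/
theorem mem_prev_good {ty : W → ι} {k : ℕ} {G H : Finset W} :
    H ∈ prev (LS ty k) G \ BadS D ty k G ↔ H ∈ LS ty k ∧ H.card ≤ G.card ∧ H ≠ G ∧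
      (H.card = G.card → ¬ fre D ty G ⊂ fre D ty H) := by
  rw [mem_sdiff, mem_prev, mem_BadS]
  tauto

/-- the extras of a label set with free part `B` as extras of a label set with free part `C ⊃ B` -/
def exU (B C : Finset W) (Ex : Finset W → CS α χ W → ℕ) : Finset W → CS α χ W → ℕ :=
  fun Q => if C \ B ⊆ Q then Ex (Q ∩ B) else fun _ => 0

theorem exU_of {B C P : Finset W} (Ex : Finset W → CS α χ W → ℕ) (hP : P ⊆ B) : exU B C Ex (P ∪ (C \ B)) = Ex P := by
  unfold exU
  rw [if_pos subset_union_right]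
  congr 1
  ext x
  simp only [mem_inter, mem_union, mem_sdiff]
  constructor
  · rintro ⟨h1 | h1, h2⟩
    · exact h1
    · exact absurd h2 h1.2
  · intro h
    exact ⟨Or.inl h, hP h⟩

theorem ssub_of {B C P : Finset W} (hBC : B ⊆ C) (hP : P ⊂ B) : P ∪ (C \ B) ⊂ C := by
  rw [Finset.ssubset_iff_subset_ne]
  refine ⟨Finset.union_subset (hP.1.trans hBC) sdiff_subset, fun h => ?_⟩
  refine hP.2 (fun x hx => ?_)
  have h1 : x ∈ P ∪ (C \ B) := by rw [h]; exact hBC hx
  rcases mem_union.1 h1 with h2 | h2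
  · exact h2
  · exact absurd hx (mem_sdiff.1 h2).2

theorem ssub_inter {B C Q : Finset W} (hQ : Q ⊂ C) (hCQ : C \ B ⊆ Q) : Q ∩ B ⊂ B := by
  rw [Finset.ssubset_iff_subset_ne]
  refine ⟨inter_subset_right, fun h => hQ.2 (fun x hx => ?_)⟩
  by_cases hB : x ∈ B
  · have h1 : x ∈ Q ∩ B := by rw [h]; exact hB
    exact (mem_inter.1 h1).1
  · exact hCQ (mem_sdiff.2 ⟨hx, hB⟩)

/-- the number of values of a constant -/
theorem nA_cst {κ : Type*} (c : κ) : nA D (fun _ : α => c) ≤ 1 := by
  classical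
  unfold nA
  refine (Finset.card_le_card (t := {c}) fun x hx => ?_).trans (Finset.card_singleton c).le
  obtain ⟨a, _, rfl⟩ := Finset.mem_image.1 hx
  exact mem_singleton_self _

/-- the extras of `G` give extras of every label set `H` -/
theorem Ext.up {ty : W → ι} {G : Finset W} (H : Finset W) {A : ℝ} {Ex : Finset W → CS α χ W → ℕ} (h : Ext D ty G A Ex)
    (hA : 0 ≤ A) : Ext D ty H A (exU (fre D ty G) (fre D ty H) Ex) := by
  constructor
  · intro Q hQ p q h1 h2
    unfold exU
    by_cases hC : fre D ty H \ fre D ty G ⊆ Q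
    · rw [if_pos hC]
      refine h.dep _ (ssub_inter hQ hC) p q h1 (fun y hy => h2 y (fun hy' => hy ?_))
      rw [mem_sdiff] at hy' ⊢
      refine ⟨?_, fun h3 => hy'.2 (mem_inter.1 h3).1⟩
      by_contra hB
      exact hy'.2 (hC (mem_sdiff.2 ⟨hy'.1, hB⟩))
    · rw [if_neg hC]
  · intro Q hQ u
    unfold exU
    by_cases hC : fre D ty H \ fre D ty G ⊆ Q
    · rw [if_pos hC]
      exact h.card _ (ssub_inter hQ hC) u
    · rw [if_neg hC]
      have h1 : (nA D (fun _ : α => (0 : ℕ)) : ℝ) ≤ 1 := by exact_mod_cast nA_cst D 0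
      exact h1.trans (Real.one_le_exp hA)

/-- P1: DROPPING THE BAD LABEL SETS -/
theorem mst_P1 {ty : W → ι} {k : ℕ} {G : Finset W} (Ex : Finset W → CS α χ W → ℕ) (hG : G ∈ LS ty k) :
    mst D ty k Ex G ≤
      (CP D ty).E (GMC.ip (CP D ty) (LC D ty G)
        (fun u => (exT (fre D ty G) Ex u, Lf (LC D ty) (prev (LS ty k) G \ BadS D ty k G) u))
        (Lf (LC D ty) G.ssubsets) Vt) +
      ∑ H ∈ BadS D ty k G, mst D ty k (exU (fre D ty G) (fre D ty H) Ex) H := by
  have hGB : G ∉ BadS D ty k G := fun h => (mem_BadS D |>.1 h).2.2.2 (Subset.refl _)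
  have hB : BadS D ty k G ⊆ LS ty k := fun H hH => (mem_BadS D |>.1 hH).1
  have hc : ∀ H ∈ BadS D ty k G, H.card = G.card := fun H hH => (mem_BadS D |>.1 hH).2.1
  unfold mst
  rw [← FP.E_sum, ← FP.E_add]
  refine FP.E_mono _ (fun w hw => ?_)
  refine (mX_drop (CP D ty) (LC D ty) (exT (fre D ty G) Ex) Vt (LS_dc ty k) hG hB hc hGB hw).trans ?_
  refine add_le_add le_rfl (Finset.sum_le_sum fun H hH => ?_)
  have hGH := (mem_BadS D |>.1 hH).2.2
  refine mX_mono (CP D ty) (LC D ty) Vt H (Subset.refl _) ?_ hw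
  intro x y hxy
  have h1 : exT (fre D ty H) (exU (fre D ty G) (fre D ty H) Ex) x =
      exT (fre D ty H) (exU (fre D ty G) (fre D ty H) Ex) y := congrArg Prod.fst hxy
  funext Q
  unfold exT
  by_cases hQ : Q ⊂ fre D ty G
  · rw [if_pos hQ, if_pos hQ]
    have h2 := congrFun h1 (Q ∪ (fre D ty H \ fre D ty G))
    unfold exT at h2
    rw [if_pos (ssub_of hGH.1 hQ), if_pos (ssub_of hGH.1 hQ), exU_of Ex hQ.1] at h2
    exact h2
  · rw [if_neg hQ, if_neg hQ]

/-- P1 with the bounds of the label sets with more free vertices -/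
theorem mst_P1_le {ty : W → ι} {k s r N : ℕ} {A ε : ℝ} (hJ : JInj D.J ty) (hN : Fintype.card W ≤ N)
    {G : Finset W} (hG : G ∈ LS ty k) (hs : G.card = s) (hr : (fre D ty G).card = r) {Ex : Finset W → CS α χ W → ℕ}
    (hE : Ext D ty G A Ex) (hA : 0 ≤ A) (hε : 0 ≤ ε) (hB : ∀ r', r < r' → r' ≤ s → BdX D k s r' N A ε) :
    mst D ty k Ex G ≤
      (CP D ty).E (GMC.ip (CP D ty) (LC D ty G)
        (fun u => (exT (fre D ty G) Ex u, Lf (LC D ty) (prev (LS ty k) G \ BadS D ty k G) u))
        (Lf (LC D ty) G.ssubsets) Vt) + (LS ty k).card * ε := by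
  refine (mst_P1 D Ex hG).trans (add_le_add le_rfl ?_)
  have h1 : ∑ H ∈ BadS D ty k G, mst D ty k (exU (fre D ty G) (fre D ty H) Ex) H ≤ ∑ _H ∈ BadS D ty k G, ε := by
    refine Finset.sum_le_sum fun H hH => ?_
    obtain ⟨h2, h3, h4⟩ := (mem_BadS D).1 hH
    refine hB _ ?_ ?_ W ty hJ hN H h2 (h3.trans hs) rfl _ (hE.up D H hA)
    · rw [← hr]
      exact Finset.card_lt_card h4
    · rw [← hs, ← h3]
      exact Finset.card_le_card (filter_subset _ _)
  refine h1.trans ?_
  rw [Finset.sum_const, nsmul_eq_mul]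
  refine mul_le_mul_of_nonneg_right ?_ hε
  exact_mod_cast Finset.card_le_card (filter_subset _ _)

end

end Pool.Agent.GMM
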