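import Pool.Agent.GMM.Coll
import Pool.Agent.GMM.Num

/-!
# GMM/SatInd: the induction of the static theorem SAT* with the numbers of CM.6 (row CM; helper50)

* `BdX.mono`, `Bd.mono`, `Ext.mono`;
* `PhiAll` = bound of `ph1` for all label sets of size `s` which are not contained in `J` (`PhiBd` and the case `J ⊂ G`);
* `StepAt` = STATIC STEP at the class, as a statement on numbers; `sat_ind` : the induction over `s` and decreasing `r`;
* `base_num` : the case `r = 0` with the numbers; `sat_star` : SAT* with the numbers, from the static step.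
-/

set_option autoImplicit false
set_option linter.unusedSectionVars false

namespace Pool.Agent.GMM

open Finset Pool.Agent.PWZ Pool.Agent.M3 Pool.Agent.M3.FP Pool.Agent.GMC

noncomputable section

variable {ι α χ : Type} [Fintype ι] [DecidableEq ι] [Fintype α] [Fintype χ] [DecidableEq χ] {D : SD ι α χ}
variable {W : Type} [Fintype W] [DecidableEq W]

theorem Ext.mono {ty : W → ι} {G : Finset W} {A A' : ℝ} {Ex : Finset W → CS α χ W → ℕ} (h : Ext D ty G A Ex)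
    (hA : A ≤ A') : Ext D ty G A' Ex :=
  ⟨h.dep, fun P hP u => (h.card P hP u).trans (Real.exp_le_exp.2 hA)⟩

theorem BdX.mono {k s r N N' : ℕ} {A A' ε ε' : ℝ} (h : BdX D k s r N A ε) (hN : N' ≤ N) (hA : A' ≤ A) (hε : ε ≤ ε') :
    BdX D k s r N' A' ε' := by
  intro W _ _ ty hJ hW G hG hs hr Ex hE
  exact (h W ty hJ (hW.trans hN) G hG hs hr Ex (hE.mono hA)).trans hε

theorem Bd.mono {k s N N' : ℕ} {ε ε' : ℝ} (h : Bd D k s N ε) (hN : N' ≤ N) (hε : ε ≤ ε') : Bd D k s N' ε' := by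
  intro W _ _ ty hJ hW G hG hs
  exact (h W ty hJ (hW.trans hN) G hG hs).trans hε

/-- the induction over `s` and decreasing `r` -/
theorem sat_ind {k : ℕ} {N0 N1 : ℕ → ℕ} {Ax : ℕ → ℝ} {β : ℕ → ℕ → ℝ}
    (hstep : ∀ s r, s < k → 1 ≤ r → r ≤ s → (∀ s' < s, Bd D k s' (N0 s') (β s' 0)) →
      (∀ r', r < r' → r' ≤ s → BdX D k s r' (N1 s) (Ax s) (β s r')) → BdX D k s r (N1 s) (Ax s) (β s r))
    (hbase : ∀ s, s < k → (∀ s' < s, Bd D k s' (N0 s') (β s' 0)) →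
      (∀ r, 1 ≤ r → r ≤ s → BdX D k s r (N1 s) (Ax s) (β s r)) → BdX D k s 0 (N0 s) (Ax s) (β s 0))
    (hN : ∀ s < k, N0 s ≤ N1 s) (hAx : ∀ s < k, 0 ≤ Ax s) (hβ : ∀ s < k, ∀ r, β s r ≤ β s 0) :
    ∀ s < k, (∀ r, 1 ≤ r → r ≤ s → BdX D k s r (N1 s) (Ax s) (β s r)) ∧ BdX D k s 0 (N0 s) (Ax s) (β s 0) ∧
      Bd D k s (N0 s) (β s 0) := by
  intro s
  induction s using Nat.strong_induction_on with
  | _ s ih =>
    intro hs
    have hlow : ∀ s' < s, Bd D k s' (N0 s') (β s' 0) := fun s' hs' => (ih s' hs' (hs'.trans hs)).2.2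
    have hup : ∀ d r, s ≤ r + d → 1 ≤ r → r ≤ s → BdX D k s r (N1 s) (Ax s) (β s r) := by
      intro d
      induction d with
      | zero =>
        intro r hr h1 h2
        exact hstep s r hs h1 h2 hlow (fun r' h3 h4 => by omega)
      | succ d ihd =>
        intro r hr h1 h2
        exact hstep s r hs h1 h2 hlow (fun r' h3 h4 => ihd r' (by omega) (by omega) h4)
    have hup' : ∀ r, 1 ≤ r → r ≤ s → BdX D k s r (N1 s) (Ax s) (β s r) := fun r h1 h2 => hup s r (by omega) h1 h2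
    have h0 := hbase s hs hlow hup'
    refine ⟨hup', h0, Bd_of_BdX D (hAx s hs) (fun r hr => ?_)⟩
    rcases Nat.eq_zero_or_pos r with h | h
    · rw [h]; exact h0
    · exact (hup' r h hr).mono (hN s hs) le_rfl (hβ s hs r)

/-- the bound of `ph1` for all label sets of size `s` which are not contained in `J` -/
def PhiAll (D : SD ι α χ) (s : ℕ) (A δ : ℝ) : Prop :=
  ∀ G : Finset ι, G.card = s → ¬ G ⊆ D.J → ∀ v, Let1 D A (fun I => D.J ⊆ I ∧ I ⊂ D.J ∪ G) v → ph1 D v G ≤ δ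

section nums

variable {k c X C : ℕ} {n : Nums k c X}

/-- the alphabet of the letters of a package (size `s`, `|J| = j`) -/
def Nums.Exp (n : Nums k c X) (s j : ℕ) : ℝ := (X : ℝ) ^ c * (n.nu' s j : ℝ) ^ k * (n.aa s + n.Ex s j)

theorem nu'_ge_one (hn : n.OK C) {s j : ℕ} (hs : s < k) (hj : j < k) : (1 : ℝ) ≤ (n.nu' s j : ℝ) := by
  have h1 := hn.nu_pos s hs
  have h2 := hn.Nb_pos s j hs hj
  have : 1 ≤ n.nu' s j := by
    unfold Nums.nu'
    exact Nat.one_le_iff_ne_zero.2 (Nat.mul_ne_zero (by omega) (by omega))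
  exact_mod_cast this

/-- `(nu' + 1)^k <= X^k nu'^k` -/
theorem nu'_succ_pow (hn : n.OK C) (hX : 2 ≤ X) {s j : ℕ} (hs : s < k) (hj : j < k) :
    ((n.nu' s j : ℝ) + 1) ^ k ≤ (X : ℝ) ^ k * (n.nu' s j : ℝ) ^ k := by
  have h1 := nu'_ge_one hn hs hj
  have h2 : (2 : ℝ) ≤ (X : ℝ) := by exact_mod_cast hX
  rw [← mul_pow]
  refine pow_le_pow_left₀ (by linarith) ?_ k
  nlinarith

/-- the case `r = 0` with the numbers -/
theorem base_num (hn : n.OK C) (hX : 2 ≤ X) (hk : 1 ≤ k) (hck : k + 3 ≤ c) (hι : Fintype.card ι ≤ k) {s j : ℕ}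
    (hs : s < k) (hj : j < k) (hA : AlBd D k n.aa) {A δ : ℝ} (hA0 : 0 ≤ A) (hphi : PhiBd D s A δ) (hδ0 : 0 ≤ δ)
    (hδ : δ ≤ n.del' s j) (hlow : ∀ s' < s, Bd D k s' (n.nu s') (n.be s' j 0))
    (hup : ∀ r, 1 ≤ r → r ≤ s → BdX D k s r (n.nu' s j) (n.Ex s j) (n.be s j r)) :
    BdX D k s 0 (n.nu s) (n.Ex s j) (n.be s j 0) := by
  have h2 : (2 : ℝ) ≤ (X : ℝ) := by exact_mod_cast hX
  have hX0 : (0 : ℝ) < (X : ℝ) := by linarith
  have hnu := nu'_ge_one hn hs hj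
  have hb1 := hn.be_pos s j 1 hs hj
  have hb0 := hn.be_pos s j 0 hs hj
  have haa : 0 ≤ n.aa s := by have := hn.aa_ge s hs; linarith
  have haa1 : 1 ≤ n.aa s := by have := hn.aa_ge s hs; linarith
  have hEx0 : 0 ≤ n.Ex s j := zero_le_one.trans (hn.Ex_one s j hs hj)
  have hnb : 0 < n.Nb s j := hn.Nb_pos s j hs hj
  -- the lower sizes
  have hlowβ : ∀ s' < s, n.be s' j 0 ≤ n.be s j 1 := by
    intro s' hs'
    have a := hn.low_m s s' j j hs' hs hj hj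
    have b := hn.ep_le s j hs hj
    have e1 : 1 ≤ (X : ℝ) ^ c * ((n.nu' s j : ℝ) * n.Nk s j 0) ^ k := by
      have : (1 : ℝ) ≤ n.Nk s j 0 := by exact_mod_cast hn.keys_pos s j 0 hs hj
      have h3 : (1 : ℝ) ≤ ((n.nu' s j : ℝ) * n.Nk s j 0) ^ k := one_le_pow₀ (by nlinarith)
      have h4 : (1 : ℝ) ≤ (X : ℝ) ^ c := one_le_pow₀ (by linarith)
      nlinarith
    have hd : 0 < n.del s' j := hn.be_pos s' j 0 (by omega) hj
    have e2 : n.del s' j ≤ n.ep s j := by nlinarith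
    have hep := hn.ep_pos s j hs hj
    have e3 : n.ep s j ≤ n.del' s j ^ 4 := by
      have h5 : 1 ≤ (X : ℝ) ^ c * n.aa s ^ 4 := by
        have h6 : (1 : ℝ) ≤ n.aa s ^ 4 := one_le_pow₀ haa1
        have h7 : (1 : ℝ) ≤ (X : ℝ) ^ c := one_le_pow₀ (by linarith)
        nlinarith
      nlinarith
    have hd1 : n.del' s j ≤ 1 := hn.be_le_one s j k hs hj
    have hd0 : 0 < n.del' s j := hn.be_pos s j k hs hj
    have e4 : n.del' s j ^ 4 ≤ n.del' s j := by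
      calc n.del' s j ^ 4 ≤ n.del' s j ^ 1 := pow_le_pow_of_le_one hd0.le hd1 (by norm_num)
        _ = n.del' s j := pow_one _
    have e5 : n.del' s j ≤ n.be s j 1 := hn.be_anti s j 1 k hs hj hk
    exact e2.trans (e3.trans (e4.trans e5))
  have hnu_low : ∀ s' < s, n.nu s * n.Nb s j ≤ n.nu s' := by
    intro s' hs'
    have a := hn.low_nu s s' j hs' hs hj
    have h3 : (1 : ℝ) ≤ n.Nk s j 0 := by exact_mod_cast hn.keys_pos s j 0 hs hj
    have h4 : (1 : ℝ) ≤ (X : ℝ) ^ c := one_le_pow₀ (by linarith)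
    have h5 : (n.nu' s j : ℝ) ≤ n.nu s' := by
      have h6 : (n.nu' s j : ℝ) ≤ (X : ℝ) ^ c * ((n.nu' s j : ℝ) * n.Nk s j 0) := by
        have h7 : (n.nu' s j : ℝ) ≤ (n.nu' s j : ℝ) * n.Nk s j 0 := by nlinarith
        nlinarith
      linarith
    have h6 : n.nu' s j ≤ n.nu s' := by exact_mod_cast h5
    exact h6
  have h := base_bd (D := D) (k := k) (s := s) (N := n.nu s) (n := n.Nb s j) (aa := n.aa) (A := A) (A' := n.Ex s j)
    (A'' := n.Ex s j) (δ := δ) (ε := n.be s j 1) hA haa hphi hA0 hEx0 hδ0 hb1.le hnb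
    (fun s' hs' => (hlow s' hs').mono (hnu_low s' hs') (hlowβ s' hs'))
    (fun r h1 h2 => (hup r h1 h2).mono le_rfl le_rfl (hn.be_anti s j 1 r hs hj h1))
  refine h.mono le_rfl le_rfl ?_
  -- the numbers
  have hXc : (X : ℝ) ^ (k + 3) ≤ (X : ℝ) ^ c := pow_le_pow_right₀ (by linarith) hck
  have hXk1 : (1 : ℝ) ≤ (X : ℝ) ^ k := one_le_pow₀ (by linarith)
  have h8 : (8 : ℝ) ≤ (X : ℝ) ^ 3 := by
    calc (8 : ℝ) = 2 ^ 3 := by norm_num
      _ ≤ (X : ℝ) ^ 3 := pow_le_pow_left₀ (by norm_num) h2 3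
  have h8k : 8 * (X : ℝ) ^ k ≤ (X : ℝ) ^ c := by
    calc 8 * (X : ℝ) ^ k ≤ (X : ℝ) ^ 3 * (X : ℝ) ^ k := mul_le_mul_of_nonneg_right h8 (by positivity)
      _ = (X : ℝ) ^ (k + 3) := by rw [← pow_add, Nat.add_comm]
      _ ≤ _ := hXc
  have hnk : (1 : ℝ) ≤ (n.nu' s j : ℝ) ^ k := one_le_pow₀ hnu
  have step0 := hn.be_step s j 0 hs hj
  -- delta
  have t1 : δ ≤ n.be s j 0 / 4 := by
    have a1 : n.del' s j ≤ n.be s j 1 := hn.be_anti s j 1 k hs hj hk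
    have a2 : 4 * n.be s j 1 ≤ n.be s j 0 := by
      have : 4 * n.be s j 1 ≤ (X : ℝ) ^ c * (n.nu' s j : ℝ) ^ k * n.be s j (0 + 1) := by
        refine mul_le_mul_of_nonneg_right ?_ hb1.le
        nlinarith
      linarith
    linarith
  have t2 : 2 ^ Fintype.card ι * n.aa s / (n.Nb s j : ℝ) ≤ n.be s j 0 / 4 := by
    have hnb' : (0 : ℝ) < n.Nb s j := by exact_mod_cast hnb
    rw [div_le_iff₀ hnb']
    have a1 := hn.base s j hs hj
    have a2 : (2 : ℝ) ^ Fintype.card ι ≤ (X : ℝ) ^ k :=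
      (pow_le_pow_right₀ (by norm_num) hι).trans (pow_le_pow_left₀ (by norm_num) h2 k)
    have a3 : 4 * (2 ^ Fintype.card ι * n.aa s) ≤ (X : ℝ) ^ c * n.aa s := by
      have : 4 * (2 : ℝ) ^ Fintype.card ι ≤ (X : ℝ) ^ c := by nlinarith
      nlinarith
    have a4 : n.del s j * n.Nb s j = n.be s j 0 * n.Nb s j := rfl
    nlinarith
  have t3 : ((n.nu s : ℝ) * n.Nb s j + 1) ^ k * n.be s j 1 ≤ n.be s j 0 / 4 := by
    have a1 : (n.nu s : ℝ) * n.Nb s j = (n.nu' s j : ℝ) := by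
      unfold Nums.nu'
      push_cast
      ring
    rw [a1]
    have a2 := nu'_succ_pow hn hX hs hj
    have a3 : 4 * ((X : ℝ) ^ k * (n.nu' s j : ℝ) ^ k) ≤ (X : ℝ) ^ c * (n.nu' s j : ℝ) ^ k := by
      rw [← mul_assoc]
      refine mul_le_mul_of_nonneg_right ?_ (by positivity)
      linarith
    have a4 : 4 * (((n.nu' s j : ℝ) + 1) ^ k * n.be s j 1) ≤ (X : ℝ) ^ c * (n.nu' s j : ℝ) ^ k * n.be s j (0 + 1) := by
      calc 4 * (((n.nu' s j : ℝ) + 1) ^ k * n.be s j 1) ≤ 4 * ((X : ℝ) ^ k * (n.nu' s j : ℝ) ^ k * n.be s j 1) := by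
            refine mul_le_mul_of_nonneg_left (mul_le_mul_of_nonneg_right a2 hb1.le) (by norm_num)
        _ = 4 * ((X : ℝ) ^ k * (n.nu' s j : ℝ) ^ k) * n.be s j 1 := by ring
        _ ≤ _ := mul_le_mul_of_nonneg_right a3 hb1.le
    linarith
  linarith

/-- STATIC STEP at the class (`r >= 1`), as a statement on numbers -/
def StepStmt (D : SD ι α χ) (k : ℕ) : Prop :=
  ∀ (s r N Nbig : ℕ) (aa : ℕ → ℝ) (A A' δ e0 e1 εr b : ℝ) (Nk : ℕ → ℕ),
    1 ≤ r → r ≤ s → s < k → 0 ≤ A → 1 ≤ aa s → AlBd D k aa → 0 ≤ e0 → (∀ s' < s, Bd D k s' Nbig e0) → 0 ≤ εr →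
    (∀ r', r < r' → r' ≤ s → BdX D k s r' N A εr) → (∀ t, 0 < Nk t) → (∀ t t', t ≤ t' → Nk t' ≤ Nk t) →
    N * (1 + (r + 1) * Nk 0) ≤ Nbig → 0 ≤ e1 →
    (∀ t < k, (((N + 1) ^ k + 2 ^ k : ℕ) : ℝ) * ((1 + (r + 1) * Nk (t + 1) : ℕ) : ℝ) ^ k * (aa s + A) ≤ e1 * Nk t) →
    2 ^ k * (k * e1) + ((Nbig : ℝ) + 1) ^ k * e0 ≤ b ^ 4 → 0 ≤ b → 0 ≤ δ →
    PhiAll D s A' δ → ((N : ℝ) + 1) ^ k * aa s + A ≤ A' →
    BdX D k s r N A (δ + (2 * aa s + 4) * b + ((N : ℝ) + 1) ^ k * εr)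

/-- the same with fewer levels of keys in the hypotheses (form of `exists_simOut2`) -/
def StepStmt2 (D : SD ι α χ) (k : ℕ) : Prop :=
  ∀ (s r N Nbig : ℕ) (aa : ℕ → ℝ) (A A' δ e0 e1 εr b : ℝ) (Nk : ℕ → ℕ),
    1 ≤ r → r ≤ s → s < k → 0 ≤ A → 1 ≤ aa s → AlBd D k aa → 0 ≤ e0 → (∀ s' < s, Bd D k s' Nbig e0) → 0 ≤ εr →
    (∀ r', r < r' → r' ≤ s → BdX D k s r' N A εr) → (∀ t, 0 < Nk t) → (∀ t t', t ≤ t' → Nk t' ≤ Nk t) →
    N * (1 + (r + 1) * Nk 0) ≤ Nbig → 0 ≤ e1 →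
    (∀ t ≤ r, (((N : ℝ) + 1) ^ k + 2 ^ k) * (1 + ((r : ℝ) + 1) * Nk (t + 1)) ^ (r + 1) * (aa s + A) ≤ e1 * Nk t) →
    2 ^ (r + 1) * (((r : ℝ) + 1) * e1) + ((Nbig : ℝ) + 1) ^ k * e0 ≤ b ^ 4 → 0 ≤ b → 0 ≤ δ →
    PhiAll D s A' δ → ((N : ℝ) + 1) ^ k * aa s + A ≤ A' →
    BdX D k s r N A (δ + (2 * aa s + 4) * b + ((N : ℝ) + 1) ^ k * εr)

theorem StepStmt2.stepStmt {D : SD ι α χ} {k : ℕ} (h : StepStmt2 D k) : StepStmt D k := by
  intro s r N Nbig aa A A' δ e0 e1 εr b Nk h1 h2 h3 h4 h5 h6 h7 h8 h9 h10 h11 h12 h13 h14 h15 h16 h17 h18 h19 h20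
  refine h s r N Nbig aa A A' δ e0 e1 εr b Nk h1 h2 h3 h4 h5 h6 h7 h8 h9 h10 h11 h12 h13 h14 ?_ ?_ h17 h18 h19 h20
  · intro t ht
    refine le_trans ?_ (h15 t (by omega))
    push_cast
    have a1 : (1 : ℝ) ≤ 1 + ((r : ℝ) + 1) * Nk (t + 1) := by
      have : (0 : ℝ) ≤ ((r : ℝ) + 1) * Nk (t + 1) := by positivity
      linarith
    exact mul_le_mul_of_nonneg_right (mul_le_mul_of_nonneg_left (pow_le_pow_right₀ a1 (by omega)) (by positivity))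
      (by linarith)
  · refine le_trans (add_le_add ?_ le_rfl) h16
    have a1 : ((r : ℝ) + 1) ≤ k := by exact_mod_cast (by omega : r + 1 ≤ k)
    exact mul_le_mul (pow_le_pow_right₀ (by norm_num) (by omega)) (mul_le_mul_of_nonneg_right a1 h14)
      (by positivity) (by positivity)

end nums

/-! ## inequalities between real numbers -/

section real

variable {X : ℝ}

/-- `2 m <= X^(2 m)` -/
theorem two_mul_le_pow (h2 : 2 ≤ X) (m : ℕ) : 2 * (m : ℝ) ≤ X ^ (2 * m) := by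
  have h1 : 2 * m ≤ 2 ^ (2 * m) := (Nat.lt_two_pow_self (n := 2 * m)).le
  calc 2 * (m : ℝ) = ((2 * m : ℕ) : ℝ) := by push_cast; ring
    _ ≤ ((2 ^ (2 * m) : ℕ) : ℝ) := by exact_mod_cast h1
    _ = (2 : ℝ) ^ (2 * m) := by push_cast; ring
    _ ≤ _ := pow_le_pow_left₀ (by norm_num) h2 _

theorem two_k_pow (h2 : 2 ≤ X) (k : ℕ) : (2 * (k : ℝ)) ^ k ≤ X ^ (2 * k * k) := by
  rw [pow_mul]
  exact pow_le_pow_left₀ (by positivity) (two_mul_le_pow h2 k) k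

theorem succ_pow_real (h2 : 2 ≤ X) {v : ℝ} (hv : 1 ≤ v) (k : ℕ) : (v + 1) ^ k ≤ X ^ k * v ^ k := by
  rw [← mul_pow]
  exact pow_le_pow_left₀ (by linarith) (by nlinarith) k

theorem two_pow_real (h2 : 2 ≤ X) (m : ℕ) {c : ℕ} (h : 1 + m ≤ c) : 2 * X ^ m ≤ X ^ c := by
  calc 2 * X ^ m ≤ X * X ^ m := mul_le_mul_of_nonneg_right h2 (by positivity)
    _ = X ^ (1 + m) := by rw [pow_add, pow_one]
    _ ≤ _ := pow_le_pow_right₀ (by linarith) h

theorem keys_real (h2 : 2 ≤ X) {v y z u ep : ℝ} {k c r : ℕ} (hv : 1 ≤ v) (hy : 1 ≤ y) (hu : 0 ≤ u) (hr : r + 1 ≤ k)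
    (a : X ^ c * (v * y) ^ k * u ≤ ep * z) :
    ((v + 1) ^ k + 2 ^ k) * (1 + ((r : ℝ) + 1) * y) ^ k * u ≤ (X ^ (2 * k * k + k + 1) * ep / X ^ c) * z := by
  have hX0 : (0 : ℝ) < X := by linarith
  have hXc : 0 < X ^ c := by positivity
  have hXk : 1 ≤ X ^ k := one_le_pow₀ (by linarith)
  have hvk : (1 : ℝ) ≤ v ^ k := one_le_pow₀ hv
  have h2k : (2 : ℝ) ^ k ≤ X ^ k := pow_le_pow_left₀ (by norm_num) h2 k
  have hr1' : ((r : ℝ) + 1) ≤ k := by exact_mod_cast hr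
  have hk1 : (1 : ℝ) ≤ k := by exact_mod_cast (by omega : 1 ≤ k)
  have b1 : (v + 1) ^ k + 2 ^ k ≤ X ^ (k + 1) * v ^ k := by
    have c1 : (2 : ℝ) ^ k ≤ X ^ k * v ^ k := h2k.trans (le_mul_of_one_le_right (by positivity) hvk)
    have c2 := succ_pow_real h2 hv k
    calc (v + 1) ^ k + 2 ^ k ≤ 2 * (X ^ k * v ^ k) := by linarith
      _ ≤ X * (X ^ k * v ^ k) := mul_le_mul_of_nonneg_right h2 (by positivity)
      _ = _ := by rw [pow_succ]; ring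
  have b2 : (1 + ((r : ℝ) + 1) * y) ^ k ≤ X ^ (2 * k * k) * y ^ k := by
    have c2 : 1 + ((r : ℝ) + 1) * y ≤ 2 * k * y := by nlinarith
    calc (1 + ((r : ℝ) + 1) * y) ^ k ≤ (2 * k * y : ℝ) ^ k := pow_le_pow_left₀ (by positivity) c2 _
      _ = (2 * (k : ℝ)) ^ k * y ^ k := mul_pow _ _ _
      _ ≤ _ := mul_le_mul_of_nonneg_right (two_k_pow h2 k) (by positivity)
  have b3 : ((v + 1) ^ k + 2 ^ k) * (1 + ((r : ℝ) + 1) * y) ^ k * u ≤
      X ^ (k + 1) * v ^ k * (X ^ (2 * k * k) * y ^ k) * u :=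
    mul_le_mul_of_nonneg_right (mul_le_mul b1 b2 (by positivity) (by positivity)) hu
  refine b3.trans ?_
  have b4 : (X ^ (2 * k * k + k + 1) * ep / X ^ c) * z = X ^ (2 * k * k + k + 1) * (ep * z) / X ^ c := by ring
  rw [b4, le_div_iff₀ hXc]
  have b5 : X ^ (k + 1) * v ^ k * (X ^ (2 * k * k) * y ^ k) * u * X ^ c =
      X ^ (2 * k * k + k + 1) * (X ^ c * (v * y) ^ k * u) := by
    rw [mul_pow, show 2 * k * k + k + 1 = (k + 1) + 2 * k * k by ring, pow_add]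
    ring
  rw [b5]
  exact mul_le_mul_of_nonneg_left a (by positivity)

theorem kl_real (h2 : 2 ≤ X) {ep q Nb : ℝ} {k c : ℕ} (hep : 0 < ep) (hq : 1 ≤ q) (hNb0 : 0 ≤ Nb)
    (hNb : Nb + 1 ≤ 2 * k * 2 * q) (hc : 2 * k * k + 6 * k + 12 ≤ c) :
    2 ^ k * (k * (X ^ (2 * k * k + k + 1) * ep / X ^ c)) + (Nb + 1) ^ k * (ep / (X ^ c * q ^ k)) ≤ ep := by
  have hX0 : (0 : ℝ) < X := by linarith
  have hX1 : (1 : ℝ) ≤ X := by linarith
  have hXc : 0 < X ^ c := by positivity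
  have h2k : (2 : ℝ) ^ k ≤ X ^ k := pow_le_pow_left₀ (by norm_num) h2 k
  have p1 : 2 ^ k * (k * (X ^ (2 * k * k + k + 1) * ep / X ^ c)) ≤ ep / 2 := by
    have hk0 : (0 : ℝ) ≤ k := Nat.cast_nonneg k
    have q2 : (k : ℝ) ≤ X ^ (2 * k) := by
      have := two_mul_le_pow h2 k
      linarith
    have q3 : 2 ^ k * (k : ℝ) ≤ X ^ (3 * k) := by
      calc 2 ^ k * (k : ℝ) ≤ X ^ k * X ^ (2 * k) := mul_le_mul h2k q2 (by positivity) (by positivity)
        _ = _ := by rw [← pow_add]; congr 1; ring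
    have q4 : 2 * X ^ (3 * k + (2 * k * k + k + 1)) ≤ X ^ c := two_pow_real h2 _ (by omega)
    rw [show 2 ^ k * (k * (X ^ (2 * k * k + k + 1) * ep / X ^ c)) =
      2 ^ k * (k : ℝ) * (X ^ (2 * k * k + k + 1) * ep) / X ^ c by ring, div_le_div_iff₀ hXc (by norm_num)]
    calc 2 ^ k * (k : ℝ) * (X ^ (2 * k * k + k + 1) * ep) * 2
        ≤ X ^ (3 * k) * (X ^ (2 * k * k + k + 1) * ep) * 2 := by
          refine mul_le_mul_of_nonneg_right (mul_le_mul_of_nonneg_right q3 (by positivity)) (by norm_num)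
      _ = ep * (2 * X ^ (3 * k + (2 * k * k + k + 1))) := by rw [pow_add]; ring
      _ ≤ _ := mul_le_mul_of_nonneg_left q4 hep.le
  have p2 : (Nb + 1) ^ k * (ep / (X ^ c * q ^ k)) ≤ ep / 2 := by
    have q1 : (Nb + 1) ^ k ≤ X ^ (2 * k * k + k) * q ^ k := by
      calc (Nb + 1) ^ k ≤ (2 * k * 2 * q) ^ k := pow_le_pow_left₀ (by positivity) hNb k
        _ = (2 * (k : ℝ)) ^ k * 2 ^ k * q ^ k := by rw [mul_pow, mul_pow]
        _ ≤ X ^ (2 * k * k) * X ^ k * q ^ k :=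
            mul_le_mul_of_nonneg_right (mul_le_mul (two_k_pow h2 k) h2k (by positivity) (by positivity)) (by positivity)
        _ = _ := by rw [← pow_add]
    have q2 : 2 * X ^ (2 * k * k + k) ≤ X ^ c := two_pow_real h2 _ (by omega)
    rw [mul_div_assoc', div_le_div_iff₀ (by positivity) (by norm_num)]
    calc (Nb + 1) ^ k * ep * 2 ≤ X ^ (2 * k * k + k) * q ^ k * ep * 2 := by
          refine mul_le_mul_of_nonneg_right (mul_le_mul_of_nonneg_right q1 hep.le) (by norm_num)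
      _ = 2 * X ^ (2 * k * k + k) * (q ^ k * ep) := by ring
      _ ≤ X ^ c * (q ^ k * ep) := mul_le_mul_of_nonneg_right q2 (by positivity)
      _ = _ := by ring
  linarith

/-- the sum in the static step -/
theorem sum_real (h2 : 2 ≤ X) {δ a b d v β1 β0 ep : ℝ} {k c : ℕ} (ha : 1 ≤ a) (hd : 0 < d) (hdβ : d ≤ β1) (hv : 1 ≤ v)
    (hβ1 : 0 < β1) (hb : 0 ≤ b) (hb4 : b ^ 4 = ep) (hδ : δ ≤ 4 * d) (hep : X ^ c * a ^ 4 * ep ≤ d ^ 4)
    (hstep : X ^ c * v ^ k * β1 ≤ β0) (hc : k + 12 ≤ c) :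
    δ + (2 * a + 4) * b + (v + 1) ^ k * β1 ≤ β0 := by
  have hX1 : (1 : ℝ) ≤ X := by linarith
  have hvk : (1 : ℝ) ≤ v ^ k := one_le_pow₀ hv
  have t2 : (2 * a + 4) * b ≤ d := by
    have a1 : (2 * a + 4) * b ≤ 6 * a * b := mul_le_mul_of_nonneg_right (by linarith) hb
    refine a1.trans ?_
    refine le_of_pow_le_pow_left₀ (n := 4) (by norm_num) hd.le ?_
    have a2 : (6 * a * b) ^ 4 = 1296 * (a ^ 4 * ep) := by
      rw [mul_pow, mul_pow, hb4]; ring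
    rw [a2]
    have a4 : (1296 : ℝ) ≤ X ^ c := by
      calc (1296 : ℝ) ≤ 2 ^ 12 := by norm_num
        _ ≤ X ^ 12 := pow_le_pow_left₀ (by norm_num) h2 12
        _ ≤ _ := pow_le_pow_right₀ hX1 (by omega)
    have a5 : 0 ≤ a ^ 4 * ep := by rw [← hb4]; positivity
    calc 1296 * (a ^ 4 * ep) ≤ X ^ c * (a ^ 4 * ep) := mul_le_mul_of_nonneg_right a4 a5
      _ = X ^ c * a ^ 4 * ep := by ring
      _ ≤ _ := hep
  have t3 : 2 * ((v + 1) ^ k * β1) ≤ β0 := by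
    have a2 : 2 * X ^ k ≤ X ^ c := two_pow_real h2 k (by omega)
    calc 2 * ((v + 1) ^ k * β1) ≤ 2 * (X ^ k * v ^ k * β1) :=
          mul_le_mul_of_nonneg_left (mul_le_mul_of_nonneg_right (succ_pow_real h2 hv k) hβ1.le) (by norm_num)
      _ = 2 * X ^ k * (v ^ k * β1) := by ring
      _ ≤ X ^ c * (v ^ k * β1) := mul_le_mul_of_nonneg_right a2 (by positivity)
      _ = X ^ c * v ^ k * β1 := by ring
      _ ≤ _ := hstep
  have t4 : 10 * β1 ≤ β0 := by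
    have a2 : (10 : ℝ) ≤ X ^ c := by
      calc (10 : ℝ) ≤ 2 ^ 4 := by norm_num
        _ ≤ X ^ 4 := pow_le_pow_left₀ (by norm_num) h2 4
        _ ≤ _ := pow_le_pow_right₀ hX1 (by omega)
    calc 10 * β1 ≤ X ^ c * β1 := mul_le_mul_of_nonneg_right a2 hβ1.le
      _ ≤ X ^ c * v ^ k * β1 := mul_le_mul_of_nonneg_right (le_mul_of_one_le_right (by positivity) hvk) hβ1.le
      _ ≤ _ := hstep
  linarith

end real

section nums2

variable {k c X C : ℕ} {n : Nums k c X}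

/-- slack exponent which is enough -/
def cMin (k : ℕ) : ℕ := 2 * k * k + 6 * k + 12

/-- the static step with the numbers -/
theorem step_num (hn : n.OK C) (hX : 2 ≤ X) (hck : cMin k ≤ c) {s r j : ℕ} (hr1 : 1 ≤ r) (hrs : r ≤ s)
    (hs : s < k) (hj : j < k) (hA : AlBd D k n.aa) (hstep : StepStmt D k) {δ : ℝ} (hδ0 : 0 ≤ δ)
    (hδ : δ ≤ 4 * n.del' s j) (hphi : PhiAll D s (n.Exp s j) δ)
    (hlow : ∀ s' < s, Bd D k s' (n.nu s') (n.be s' j 0))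
    (hup : ∀ r', r < r' → r' ≤ s → BdX D k s r' (n.nu' s j) (n.Ex s j) (n.be s j r')) :
    BdX D k s r (n.nu' s j) (n.Ex s j) (n.be s j r) := by
  have h2 : (2 : ℝ) ≤ (X : ℝ) := by exact_mod_cast hX
  have hX0 : (0 : ℝ) < (X : ℝ) := by linarith
  have hX1 : (1 : ℝ) ≤ (X : ℝ) := by linarith
  have hnu := nu'_ge_one hn hs hj
  have haa1 : 1 ≤ n.aa s := by have := hn.aa_ge s hs; linarith
  have hEx1 : 1 ≤ n.Ex s j := hn.Ex_one s j hs hj
  have hb : ∀ r, 0 < n.be s j r := fun r => hn.be_pos s j r hs hj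
  have hep := hn.ep_pos s j hs hj
  have hXc : 0 < (X : ℝ) ^ c := by positivity
  have hNk : ∀ i, (1 : ℝ) ≤ n.Nk s j i := fun i => by exact_mod_cast hn.keys_pos s j i hs hj
  have hcm : 2 * k * k + 6 * k + 12 ≤ c := hck
  have hq : 1 ≤ (n.nu' s j : ℝ) * n.Nk s j 0 := by nlinarith [hNk 0]
  have hM : 0 < ((n.nu' s j : ℝ) * n.Nk s j 0) ^ k := by positivity
  have hk1 : (1 : ℝ) ≤ k := by exact_mod_cast (by omega : 1 ≤ k)
  have hNbig1 : ((n.nu' s j * (1 + (r + 1) * n.Nk s j 0) : ℕ) : ℝ) + 1 ≤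
      2 * k * 2 * ((n.nu' s j : ℝ) * n.Nk s j 0) := by
    have e : ((n.nu' s j * (1 + (r + 1) * n.Nk s j 0) : ℕ) : ℝ) =
        (n.nu' s j : ℝ) + ((r : ℝ) + 1) * ((n.nu' s j : ℝ) * n.Nk s j 0) := by
      push_cast; ring
    rw [e]
    have a3 : (n.nu' s j : ℝ) ≤ (n.nu' s j : ℝ) * n.Nk s j 0 := le_mul_of_one_le_right (by linarith) (hNk 0)
    have hr1' : ((r : ℝ) + 1) ≤ k := by exact_mod_cast (by omega : r + 1 ≤ k)
    have a4 := mul_le_mul_of_nonneg_right hr1' (by linarith : (0:ℝ) ≤ (n.nu' s j : ℝ) * n.Nk s j 0)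
    have a5 := mul_le_mul_of_nonneg_right hk1 (by linarith : (0:ℝ) ≤ (n.nu' s j : ℝ) * n.Nk s j 0)
    linarith
  have hNbigs : ∀ s' < s, n.nu' s j * (1 + (r + 1) * n.Nk s j 0) ≤ n.nu s' := by
    intro s' hs'
    have a := hn.low_nu s s' j hs' hs hj
    have h3 : ((n.nu' s j * (1 + (r + 1) * n.Nk s j 0) : ℕ) : ℝ) ≤ n.nu s' := by
      refine le_trans ?_ a
      have h4 : 2 * (k : ℝ) * 2 ≤ (X : ℝ) ^ c := by
        calc 2 * (k : ℝ) * 2 ≤ (X : ℝ) ^ (2 * k) * (X : ℝ) ^ 1 := by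
              rw [pow_one]
              exact mul_le_mul (two_mul_le_pow h2 k) h2 (by norm_num) (by positivity)
          _ = (X : ℝ) ^ (2 * k + 1) := (pow_add _ _ _).symm
          _ ≤ _ := pow_le_pow_right₀ hX1 (by
              have := Nat.zero_le (2 * k * k)
              omega)
      have h6 := mul_le_mul_of_nonneg_right h4 (by linarith : (0:ℝ) ≤ (n.nu' s j : ℝ) * n.Nk s j 0)
      linarith
    exact_mod_cast h3
  have hlow' : ∀ s' < s, Bd D k s' (n.nu' s j * (1 + (r + 1) * n.Nk s j 0))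
      (n.ep s j / ((X : ℝ) ^ c * ((n.nu' s j : ℝ) * n.Nk s j 0) ^ k)) := by
    intro s' hs'
    refine (hlow s' hs').mono (hNbigs s' hs') ?_
    rw [le_div_iff₀ (by positivity)]
    have a := hn.low_m s s' j j hs' hs hj hj
    calc n.be s' j 0 * ((X : ℝ) ^ c * ((n.nu' s j : ℝ) * n.Nk s j 0) ^ k) =
        (X : ℝ) ^ c * ((n.nu' s j : ℝ) * n.Nk s j 0) ^ k * n.del s' j := by
          show n.be s' j 0 * _ = _ * n.be s' j 0
          ring
      _ ≤ _ := a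
  have hb4' : Real.sqrt (Real.sqrt (n.ep s j)) ^ 4 = n.ep s j := by
    have h3 : Real.sqrt (Real.sqrt (n.ep s j)) ^ 2 = Real.sqrt (n.ep s j) := Real.sq_sqrt (Real.sqrt_nonneg _)
    calc Real.sqrt (Real.sqrt (n.ep s j)) ^ 4 = (Real.sqrt (Real.sqrt (n.ep s j)) ^ 2) ^ 2 := by ring
      _ = n.ep s j := by rw [h3]; exact Real.sq_sqrt hep.le
  have hEx : ((n.nu' s j : ℝ) + 1) ^ k * n.aa s + n.Ex s j ≤ n.Exp s j := by
    unfold Nums.Exp
    have a1 : (X : ℝ) ^ k ≤ (X : ℝ) ^ c := pow_le_pow_right₀ hX1 (by omega)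
    have a2 : ((n.nu' s j : ℝ) + 1) ^ k ≤ (X : ℝ) ^ c * (n.nu' s j : ℝ) ^ k :=
      (nu'_succ_pow hn hX hs hj).trans (mul_le_mul_of_nonneg_right a1 (by positivity))
    have a3 : (1 : ℝ) ≤ (X : ℝ) ^ c * (n.nu' s j : ℝ) ^ k :=
      one_le_mul_of_one_le_of_one_le (one_le_pow₀ hX1) (one_le_pow₀ hnu)
    have a4 := mul_le_mul_of_nonneg_right a2 (by linarith : (0:ℝ) ≤ n.aa s)
    have a5 := mul_le_mul_of_nonneg_right a3 (by linarith : (0:ℝ) ≤ n.Ex s j)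
    linarith
  have hkl := kl_real h2 (k := k) (c := c) hep hq
    (Nb := ((n.nu' s j * (1 + (r + 1) * n.Nk s j 0) : ℕ) : ℝ)) (Nat.cast_nonneg _) hNbig1 hcm
  have h := hstep s r (n.nu' s j) (n.nu' s j * (1 + (r + 1) * n.Nk s j 0)) n.aa (n.Ex s j) (n.Exp s j) δ
    (n.ep s j / ((X : ℝ) ^ c * ((n.nu' s j : ℝ) * n.Nk s j 0) ^ k))
    ((X : ℝ) ^ (2 * k * k + k + 1) * n.ep s j / (X : ℝ) ^ c) (n.be s j (r + 1)) (Real.sqrt (Real.sqrt (n.ep s j)))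
    (n.Nk s j) hr1 hrs hs (by linarith) haa1 hA (by positivity) hlow' (hb _).le
    (fun r' h3 h4 => (hup r' h3 h4).mono le_rfl le_rfl (hn.be_anti s j (r + 1) r' hs hj h3))
    (fun t => hn.keys_pos s j t hs hj) (fun t t' h => hn.keys_anti s j t t' hs hj h) le_rfl (by positivity)
    (fun t ht => by
      push_cast
      exact keys_real h2 hnu (hNk (t + 1)) (by linarith) (by omega) (hn.keys s j t hs hj ht.le))
    (by rw [hb4']; exact hkl) (Real.sqrt_nonneg _) hδ0 hphi hEx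
  refine h.mono le_rfl le_rfl ?_
  exact sum_real h2 haa1 (hn.be_pos s j k hs hj) (hn.be_anti s j (r + 1) k hs hj (by omega)) hnu (hb _)
    (Real.sqrt_nonneg _) hb4' hδ (hn.ep_le s j hs hj) (hn.be_step s j r hs hj)
    (by have := Nat.zero_le (2 * k * k); omega)

/-- SAT* with the numbers, from the static step -/
theorem sat_star (hn : n.OK C) (hX : 2 ≤ X) (hck : cMin k ≤ c) (hι : Fintype.card ι ≤ k) {j : ℕ} (hj : j < k)
    (hA : AlBd D k n.aa) (hstep : StepStmt D k) {δ : ℕ → ℝ} (hδ0 : ∀ s < k, 0 ≤ δ s)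
    (hδ : ∀ s < k, δ s ≤ 4 * n.del' s j) (hall : ∀ s < k, PhiAll D s (n.Exp s j) (δ s)) {A : ℝ} (hA0 : 0 ≤ A)
    (hphi : ∀ s < k, PhiBd D s A (n.del' s j)) :
    ∀ s < k, (∀ r, 1 ≤ r → r ≤ s → BdX D k s r (n.nu' s j) (n.Ex s j) (n.be s j r)) ∧
      BdX D k s 0 (n.nu s) (n.Ex s j) (n.del s j) ∧ Bd D k s (n.nu s) (n.del s j) := by
  have hk : 1 ≤ k := by omega
  refine sat_ind (k := k) (N0 := n.nu) (N1 := fun s => n.nu' s j) (Ax := fun s => n.Ex s j)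
    (β := fun s r => n.be s j r) ?_ ?_ ?_ ?_ ?_
  · intro s r hs h1 h2 hlow hup
    exact step_num hn hX hck h1 h2 hs hj hA hstep (hδ0 s hs) (hδ s hs) (hall s hs) hlow hup
  · intro s hs hlow hup
    have hc' : 2 * k * k + 6 * k + 12 ≤ c := hck
    exact base_num hn hX hk (by have := Nat.zero_le (2 * k * k); omega) hι hs hj hA hA0 (hphi s hs)
      (hn.be_pos s j k hs hj).le le_rfl hlow hup
  · intro s hs
    show n.nu s ≤ n.nu s * n.Nb s j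
    exact Nat.le_mul_of_pos_right _ (hn.Nb_pos s j hs hj)
  · intro s hs
    exact zero_le_one.trans (hn.Ex_one s j hs hj)
  · intro s hs r
    exact hn.be_anti s j 0 r hs hj (Nat.zero_le _)

end nums2

end

end Pool.Agent.GMM
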