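import Pool.Agent.GMM.Cont
import Pool.Agent.GMC.Hp

/-!
# GMM/Seed: a public independent coordinate; the good seed (row CM, CM.3 (4); helper40)

* `pr_H_snd`, `pr_Hc_snd`, `pr_I_snd` : on a product space, with the second coordinate known, entropy and information are
  the means over the second coordinate of the entropy / information on the first space;
* `pr_I_le` : `I(X;Y|Z) ≤ I(X;Y|Z, second coordinate)` if `(X, Z)` is a function of the first coordinate;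
* `I_le_seed` : THE FORM OF CM.3 (4).  `Y'` = labels simulated with a seed `t`, `klm (true | simulated) ≤ b ^ 4`, at most
  `exp a` values of `X` on the classes of `Z`: `I(X;Y|Z) ≤ E_t I(X; Y'(.,t) | Z) + (2 a + 4) b`, all under the law `P`;
* `I_le_of_seed` : if `I(X; Y'(.,t) | Z) ≤ c` for every seed `t` then `I(X;Y|Z) ≤ c + (2 a + 4) b`;
* `E_ip_le_seed`, `E_ip_le_of_seed` : the same for `E (ip ..)`.
-/

set_option autoImplicit false
set_option linter.unusedSectionVars false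

namespace Pool.Agent.GMM

open Finset Pool.Agent.PWZ Pool.Agent.M3

noncomputable section

variable {O1 Θ : Type*} [Fintype O1] [Fintype Θ] {κ κ' ι ι' ν : Type*}

/-! ## the second coordinate is known -/

theorem pr_E' (P : FP O1) (Q : FP Θ) (f : O1 × Θ → ℝ) : (FP.pr P Q).E f = Q.E (fun t => P.E (fun w => f (w, t))) := by
  rw [FP.pr_E]
  exact P.E_swap Q (fun w t => f (w, t))

theorem pr_m_snd (P : FP O1) (Q : FP Θ) (F : O1 × Θ → κ) (w : O1) (t : Θ) :
    (FP.pr P Q).m (fun v => (F v, v.2)) (w, t) = Q.m (fun s => s) t * P.m (fun u => F (u, t)) w := by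
  unfold FP.m
  rw [pr_E', ← Q.E_mul_const]
  refine Q.E_congr (fun s _ => ?_)
  by_cases hs : s = t
  · subst hs
    rw [ind_of rfl, one_mul]
    refine P.E_congr (fun u _ => ?_)
    congr 1
    exact propext ⟨fun h => congrArg Prod.fst h, fun h => Prod.ext h rfl⟩
  · rw [ind_not hs, zero_mul]
    refine (P.E_congr (fun u _ => ?_)).trans (P.E_const 0)
    exact ind_not (fun h => hs (congrArg Prod.snd h))

theorem pr_H_snd (P : FP O1) (Q : FP Θ) (F : O1 × Θ → κ) :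
    (FP.pr P Q).H (fun v => (F v, v.2)) = Q.H (fun s => s) + Q.E (fun t => P.H (fun w => F (w, t))) := by
  unfold FP.H
  rw [pr_E', ← Q.E_add]
  refine Q.E_congr (fun t ht => ?_)
  have h1 : P.E (fun w => - Real.log ((FP.pr P Q).m (fun v => (F v, v.2)) (w, t))) =
      P.E (fun w => - Real.log (Q.m (fun s => s) t) + - Real.log (P.m (fun u => F (u, t)) w)) := by
    refine P.E_congr (fun w hw => ?_)
    rw [pr_m_snd, Real.log_mul (Q.m_pos _ ht).ne' (P.m_pos _ hw).ne']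
    ring
  rw [h1, P.E_add, P.E_const]

theorem pr_Hc_snd (P : FP O1) (Q : FP Θ) (X : O1 × Θ → κ) (Z : O1 × Θ → ι') :
    (FP.pr P Q).Hc X (fun v => (Z v, v.2)) = Q.E (fun t => P.Hc (fun w => X (w, t)) (fun w => Z (w, t))) := by
  unfold FP.Hc
  have e1 : (FP.pr P Q).H (fun v => (X v, Z v, v.2)) = (FP.pr P Q).H (fun v => ((X v, Z v), v.2)) := by
    refine FP.H_congr _ (fun v w h => ?_) (fun v w h => ?_)
    · simp only [Prod.mk.injEq] at h ⊢; tauto
    · simp only [Prod.mk.injEq] at h ⊢; tauto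
  rw [e1, pr_H_snd P Q (fun v => (X v, Z v)), pr_H_snd, Q.E_sub]
  ring

theorem pr_I_snd (P : FP O1) (Q : FP Θ) (X : O1 × Θ → κ) (Y : O1 × Θ → ι) (Z : O1 × Θ → ι') :
    (FP.pr P Q).I X Y (fun v => (Z v, v.2)) =
      Q.E (fun t => P.I (fun w => X (w, t)) (fun w => Y (w, t)) (fun w => Z (w, t))) := by
  rw [FP.I_eq_Hc]
  have e1 : (FP.pr P Q).Hc X (fun v => (Y v, Z v, v.2)) = (FP.pr P Q).Hc X (fun v => ((Y v, Z v), v.2)) := by
    refine FP.Hc_congr _ (Fac.fst _ _) (fun v w h => ?_) (Fac.fst _ _) (fun v w h => ?_)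
    · simp only [Prod.mk.injEq] at h ⊢; tauto
    · simp only [Prod.mk.injEq] at h ⊢; tauto
  rw [e1, pr_Hc_snd, pr_Hc_snd P Q X (fun v => (Y v, Z v)), ← Q.E_sub]
  exact Q.E_congr (fun t _ => by rw [P.I_eq_Hc])

/-- a seed gives no information -/
theorem pr_I_seed (P : FP O1) (Q : FP Θ) (X : O1 → κ) (Z : O1 → ι') :
    (FP.pr P Q).I (fun v => X v.1) (fun v => v.2) (fun v => Z v.1) = 0 := by
  have h1 := pr_Hc_snd P Q (fun v => X v.1) (fun v => Z v.1)
  have h2 : Q.E (fun t => P.Hc (fun w => X (w, t).1) (fun w => Z (w, t).1)) = P.Hc X Z := Q.E_const (P.Hc X Z)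
  have h3 : P.Hc X Z = (FP.pr P Q).Hc (fun v => X v.1) (fun v => Z v.1) :=
    Hc_law_eq (fun f => (pr_fst_E P Q (fun w => f (X w, Z w))).symm)
  have h4 : (FP.pr P Q).Hc (fun v => X v.1) (fun v => (v.2, Z v.1)) =
      (FP.pr P Q).Hc (fun v => X v.1) (fun v => (Z v.1, v.2)) := by
    refine FP.Hc_congr _ (Fac.fst _ _) (fun v w h => ?_) (Fac.fst _ _) (fun v w h => ?_)
    · simp only [Prod.mk.injEq] at h ⊢; tauto
    · simp only [Prod.mk.injEq] at h ⊢; tauto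
  rw [FP.I_eq_Hc, h4, h1, h2, h3, sub_self]

/-- making the seed public does not decrease the information -/
theorem pr_I_le (P : FP O1) (Q : FP Θ) (X : O1 → κ) (Y : O1 × Θ → ι) (Z : O1 → ι') :
    (FP.pr P Q).I (fun v => X v.1) Y (fun v => Z v.1) ≤ Q.E (fun t => P.I X (fun w => Y (w, t)) Z) := by
  have h1 := pr_I_snd P Q (fun v => X v.1) Y (fun v => Z v.1)
  have h2 : Q.E (fun t => P.I (fun w => X (w, t).1) (fun w => Y (w, t)) (fun w => Z (w, t).1)) =
      Q.E (fun t => P.I X (fun w => Y (w, t)) Z) := rfl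
  rw [← h2, ← h1]
  have h3 := FP.I_chain (FP.pr P Q) Y (fun v => v.2) (fun v => X v.1) (fun v => Z v.1)
  have h4 : (FP.pr P Q).I (fun v => v.2) (fun v => X v.1) (fun v => Z v.1) = 0 := by
    rw [FP.I_comm]; exact pr_I_seed P Q X Z
  have h5 := FP.I_mono (FP.pr P Q) (X := fun v => (Y v, v.2)) (X' := Y) (fun v => X v.1) (Z := fun v => Z v.1)
    (fun v w h => by simp only [Prod.mk.injEq] at h; exact h.1.1)
  have h6 : (FP.pr P Q).I Y (fun v => X v.1) (fun v => (v.2, Z v.1)) =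
      (FP.pr P Q).I (fun v => X v.1) Y (fun v => (Z v.1, v.2)) := by
    rw [FP.I_comm]
    exact FP.I_congr_cond _ (fun v w h => by simp only [Prod.mk.injEq] at h ⊢; tauto)
      (fun v w h => by simp only [Prod.mk.injEq] at h ⊢; tauto)
  rw [FP.I_comm (FP.pr P Q) (fun v => X v.1) Y (fun v => Z v.1)]
  rw [h4, zero_add, h6] at h3
  linarith

/-! ## CM.3 (4) -/

/-- true information and simulated information with a public seed -/
theorem I_le_seed {P : FP O1} {Q : FP Θ} {X : O1 → κ} {Y : O1 → ι} {Z : O1 → ι'} {Y' : O1 × Θ → ι} {a b : ℝ}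
    (hac : Acm P (FP.pr P Q) (fun w => (X w, Y w, Z w)) (fun v => (X v.1, Y' v, Z v.1)))
    (hkl : klm P (FP.pr P Q) (fun w => (X w, Y w, Z w)) (fun v => (X v.1, Y' v, Z v.1)) ≤ b ^ 4)
    (ha : 0 ≤ a) (hb : 0 ≤ b) (hnv : ∀ w, P.p w ≠ 0 → (nv P X Z w : ℝ) ≤ Real.exp a) :
    P.I X Y Z ≤ Q.E (fun t => P.I X (fun w => Y' (w, t)) Z) + (2 * a + 4) * b := by
  have h1 := (abs_le.mp (I_sim hac hkl ha hb hnv)).2
  have h2 := pr_I_le P Q X Y' Z
  linarith

/-- THE GOOD SEED -/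
theorem I_le_of_seed {P : FP O1} {Q : FP Θ} {X : O1 → κ} {Y : O1 → ι} {Z : O1 → ι'} {Y' : O1 × Θ → ι} {a b c : ℝ}
    (hac : Acm P (FP.pr P Q) (fun w => (X w, Y w, Z w)) (fun v => (X v.1, Y' v, Z v.1)))
    (hkl : klm P (FP.pr P Q) (fun w => (X w, Y w, Z w)) (fun v => (X v.1, Y' v, Z v.1)) ≤ b ^ 4)
    (ha : 0 ≤ a) (hb : 0 ≤ b) (hnv : ∀ w, P.p w ≠ 0 → (nv P X Z w : ℝ) ≤ Real.exp a)
    (hc : ∀ t, Q.p t ≠ 0 → P.I X (fun w => Y' (w, t)) Z ≤ c) : P.I X Y Z ≤ c + (2 * a + 4) * b := by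
  have h1 := I_le_seed hac hkl ha hb hnv
  have h2 := Q.E_le_const hc
  linarith

/-- the same for the information at a point; `N` = known variable (vertices), `V0` = the kept variables of `key_sim`,
`L`, `Ls` = all true / simulated labels; `X`, `Z`, `N` are the same in both laws. -/
theorem E_ip_le_of_seed {P : FP O1} {Q : FP Θ} {X : O1 → κ} {Y : O1 → ι} {Z : O1 → ι'} {N : O1 → ν}
    {Y' : O1 × Θ → ι} {a b c : ℝ}
    (hac : Acm P (FP.pr P Q) (fun w => (X w, Y w, Z w, N w)) (fun v => (X v.1, Y' v, Z v.1, N v.1)))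
    (hkl : klm P (FP.pr P Q) (fun w => (X w, Y w, Z w, N w)) (fun v => (X v.1, Y' v, Z v.1, N v.1)) ≤ b ^ 4)
    (ha : 0 ≤ a) (hb : 0 ≤ b) (hnv : ∀ w, P.p w ≠ 0 → (nv P X N w : ℝ) ≤ Real.exp a)
    (hc : ∀ t, Q.p t ≠ 0 → P.E (GMC.ip P X (fun w => Y' (w, t)) Z N) ≤ c) :
    P.E (GMC.ip P X Y Z N) ≤ c + (2 * a + 4) * b := by
  rw [GMC.E_ip]
  refine I_le_of_seed (Z := fun w => (Z w, N w)) hac hkl ha hb (fun w hw => ?_) (fun t ht => ?_)
  · refine le_trans ?_ (hnv w hw)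
    exact_mod_cast nv_anti (P := P) (X := X) (Fac.snd Z N) w
  · have h1 := hc t ht
    rw [GMC.E_ip] at h1
    exact h1

/-- the mean form -/
theorem E_ip_le_seed {P : FP O1} {Q : FP Θ} {X : O1 → κ} {Y : O1 → ι} {Z : O1 → ι'} {N : O1 → ν}
    {Y' : O1 × Θ → ι} {a b : ℝ}
    (hac : Acm P (FP.pr P Q) (fun w => (X w, Y w, Z w, N w)) (fun v => (X v.1, Y' v, Z v.1, N v.1)))
    (hkl : klm P (FP.pr P Q) (fun w => (X w, Y w, Z w, N w)) (fun v => (X v.1, Y' v, Z v.1, N v.1)) ≤ b ^ 4)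
    (ha : 0 ≤ a) (hb : 0 ≤ b) (hnv : ∀ w, P.p w ≠ 0 → (nv P X N w : ℝ) ≤ Real.exp a) :
    P.E (GMC.ip P X Y Z N) ≤ Q.E (fun t => P.E (GMC.ip P X (fun w => Y' (w, t)) Z N)) + (2 * a + 4) * b := by
  have h1 := I_le_seed (Z := fun w => (Z w, N w)) hac hkl ha hb (fun w hw => by
    refine le_trans ?_ (hnv w hw)
    exact_mod_cast nv_anti (P := P) (X := X) (Fac.snd Z N) w)
  rw [GMC.E_ip]
  refine h1.trans (le_of_eq ?_)
  congr 1
  refine Q.E_congr (fun t _ => ?_)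
  rw [GMC.E_ip]

end

end Pool.Agent.GMM
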