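import Pool.Agent.GMM.Pack
import Pool.Agent.GMM.P1
import Pool.Agent.GMM.Seed
import Pool.Agent.GMM.KInst
import Pool.Agent.GMM.SatInd

/-!
# GMM/StatStep: the static step, `r >= 1` free vertices (row CM, static part; helper28)

For one label set `G` of a collection with free part `B = fre D ty G`, nonempty, `|G| = s`:
* `isBad_iff` : the bad label sets of KDef are those of P1; `rlG_All` : the real labels are in `All n`; `none_fresh` : the
  label sets with free part inside `B` do not meet the cluster; `nv_KQ` : number of values of a label for fixed vertices;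
* `ip_of_simOut` : from `SimOut`, `pack_le` and the continuity estimate: `I(L_G; Ex, good labels | L_<G) <= δ + (2 aS + 4) b`;
* `mst_of_simOut` : with P1: `m*_G <= δ + (2 aS + 4) b + |LS| * ε'`;
* `stat_step` : THE STATIC STEP `StepStmt D k`.
-/

set_option autoImplicit false
set_option linter.unusedSectionVars false

namespace Pool.Agent.GMM

open Finset Pool.Agent.PWZ Pool.Agent.M3 Pool.Agent.M3.FP Pool.Agent.GMC

noncomputable section

variable {ι α χ : Type} [Fintype ι] [DecidableEq ι] [Fintype α] [Fintype χ] [DecidableEq χ] (D : SD ι α χ)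
variable {W : Type} [Fintype W] [DecidableEq W] (ty : W → ι) (k s : ℕ)

/-! ## shapes -/

variable {D ty k s}

theorem isBad_iff {G H : Finset W} (hs : G.card = s) (hH : H ∈ LS ty k) :
    isBad D ty s (fre D ty G) H ↔ H ∈ BadS D ty k G := by
  rw [mem_BadS]
  unfold isBad
  constructor
  · rintro ⟨h1, h2, y, hy, h3, h4⟩
    refine ⟨hH, h1.trans hs.symm, ?_⟩
    rw [Finset.ssubset_iff_subset_ne]
    refine ⟨fun z hz => Finset.mem_filter.2 ⟨h2 hz, (Finset.mem_filter.1 hz).2⟩, fun h => h3 ?_⟩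
    rw [h]
    exact Finset.mem_filter.2 ⟨hy, h4⟩
  · rintro ⟨_, h2, h3⟩
    obtain ⟨y, hy, hy'⟩ := Finset.exists_of_ssubset h3
    exact ⟨h2.trans hs, h3.1.trans (Finset.filter_subset _ _), y, (Finset.mem_filter.1 hy).1, hy',
      (Finset.mem_filter.1 hy).2⟩

variable {r M : ℕ}

theorem rlG_All {B : Finset W} (hB : ∀ y ∈ B, ty y ∉ D.J) (n : Ltr B × Fin r → ℕ) (G : Finset W) :
    rlG D ty k s B r M G ⊆ All (shS D ty k s B) (shT D ty k s B) n := by
  rintro i ⟨e, rfl, _⟩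
  exact rre_All hB e

/-- label sets with free part inside `B` do not meet the cluster -/
theorem none_fresh {B : Finset W} (H : {H : Finset W // H ∈ LS ty k ∧ H.card ≤ s ∧ ¬ isBad D ty s B H})
    (hH : fre D ty H.1 ⊆ B) : none ∉ fresh (shS D ty k s B) (rre D ty k s (r := r) (M := M) (Sum.inl H)) := by
  rw [fresh_rre]
  intro h
  obtain ⟨z, hz, h2⟩ := Finset.mem_image.1 h
  rw [ltr_of B (hH hz)] at h2
  exact absurd h2 (by simp)

/-- the label sets inside `G` are shapes -/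
theorem sub_sh {G H : Finset W} (hG : G ∈ LS ty k) (hs : G.card = s) (hH : H ⊆ G) :
    H ∈ LS ty k ∧ H.card ≤ s ∧ ¬ isBad D ty s (fre D ty G) H := by
  have h1 : H ∈ LS ty k := (LS_dc ty k).powerset_sub hG (Finset.mem_powerset.2 hH)
  refine ⟨h1, by rw [← hs]; exact Finset.card_le_card hH, fun h => ?_⟩
  obtain ⟨_, _, y, hy, h3, h4⟩ := h
  exact h3 (Finset.mem_filter.2 ⟨hH hy, h4⟩)

/-! ## the key space -/

variable (D ty)

/-- number of values of a label for fixed vertices, in the key space -/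
theorem nv_KQ (B : Finset W) {r M : ℕ} {κ : Type*} (X : CS α χ W → κ) (w : KW α χ B r M) :
    nv (KQ D ty B r M) (fun w => X (rp B w)) (VV Kr Kk) w ≤ nA D (fun a => X (a, fun y => w.2 (ltr B y, none) y)) := by
  classical
  unfold nv nA
  refine Finset.card_le_card (fun x hx => ?_)
  obtain ⟨u, hu, hV, rfl⟩ := mem_vs_iff.1 hx
  have h1 : D.PA.p u.1 ≠ 0 := by
    intro h0
    apply hu
    show D.PA.p u.1 * _ = 0
    rw [h0, zero_mul]
  refine Finset.mem_image.2 ⟨u.1, Finset.mem_filter.2 ⟨mem_univ _, h1⟩, ?_⟩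
  have h2 : (fun y => Kr y u) = fun y => Kr y w := congrArg Prod.fst hV
  have h3 : (fun y => u.2 (ltr B y, none) y) = fun y => w.2 (ltr B y, none) y := by
    funext y
    exact congrFun (congrFun h2 (ltr B y)) y
  show X (u.1, fun y => w.2 (ltr B y, none) y) = X (u.1, fun y => u.2 (ltr B y, none) y)
  rw [h3]

variable {D ty}

/-- THE INFORMATION ABOUT THE GOOD LABELS AND THE EXTRAS -/
theorem ip_of_simOut {A A' aS δ e b : ℝ} {G : Finset W} {Ex : Finset W → CS α χ W → ℕ}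
    (hJ : JInj D.J ty) (hG : G ∈ LS ty k) (hs : G.card = s)
    (hEx : Ext D ty G A Ex) (hA : 0 ≤ A) (haS : 0 ≤ aS) (hb : 0 ≤ b)
    (hal : ∀ H ∈ LS ty k, H.card = s → ∀ u : W → χ, (nA D (fun a => LC D ty H (a, u)) : ℝ) ≤ Real.exp aS)
    {n : Ltr (fre D ty G) × Fin r → ℕ} {Θ : Type} [Fintype Θ] {Q : FP Θ}
    {Ls : Shp D ty k s (fre D ty G) × (Ltr (fre D ty G) → Option (Key r M)) → KW α χ (fre D ty G) r M × Θ → ℕ}
    (hS : SimOut D ty k s (fre D ty G) Ex n Q Ls e) (he : e ≤ b ^ 4)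
    (hA' : ((LS ty k).card : ℝ) * aS + A ≤ A')
    (hph : ∀ v, Let1 D A' (fun I => D.J ⊆ I ∧ I ⊂ D.J ∪ G.image ty) v → ph1 D v (G.image ty) ≤ δ) :
    (CP D ty).E (GMC.ip (CP D ty) (LC D ty G)
        (fun u => (exT (fre D ty G) Ex u, Lf (LC D ty) (prev (LS ty k) G \ BadS D ty k G) u))
        (Lf (LC D ty) G.ssubsets) Vt) ≤ δ + (2 * aS + 4) * b := by
  have hBJ : ∀ y ∈ fre D ty G, ty y ∉ D.J := fun y hy => (Finset.mem_filter.1 hy).2
  rw [← E_ip_rp D ty (fre D ty G) (r := r) (M := M) (LC D ty G)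
    (fun u => (exT (fre D ty G) Ex u, Lf (LC D ty) (prev (LS ty k) G \ BadS D ty k G) u)) (Lf (LC D ty) G.ssubsets)]
  have h3 : (KQ D ty (fre D ty G) r M).E (GMC.ip (KQ D ty (fre D ty G) r M) (fun w => LC D ty G (rp (fre D ty G) w))
      (fun w => (exT (fre D ty G) Ex (rp (fre D ty G) w), Lf (LC D ty) (prev (LS ty k) G \ BadS D ty k G) (rp (fre D ty G) w)))
      (fun w => Lf (LC D ty) G.ssubsets (rp (fre D ty G) w)) (VV Kr Kk)) ≤
      (KQ D ty (fre D ty G) r M).E (GMC.ip (KQ D ty (fre D ty G) r M) (fun w => LC D ty G (rp (fre D ty G) w)) (Fam (LB (shL D ty k s (fre D ty G) Ex)) (rlG D ty k s (fre D ty G) r M G))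
      (fun w => Lf (LC D ty) G.ssubsets (rp (fre D ty G) w)) (VV Kr Kk)) := by
    refine FP.E_mono _ (fun w hw => ip_mono_right (KQ D ty (fre D ty G) r M) _ _ _ ?_ hw)
    intro v w h
    have h1 : Fam (LB (shL D ty k s (fre D ty G) Ex)) (rlG D ty k s (fre D ty G) r M G) v =
      Fam (LB (shL D ty k s (fre D ty G) Ex)) (rlG D ty k s (fre D ty G) r M G) w := congrArg Prod.fst h
    rw [Fam_eq_iff'] at h1
    show (exT (fre D ty G) Ex (rp (fre D ty G) v), _) = (exT (fre D ty G) Ex (rp (fre D ty G) w), _)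
    rw [Prod.mk.injEq]
    constructor
    · funext Q'
      unfold exT
      by_cases hQ : Q' ⊂ (fre D ty G)
      · rw [if_pos hQ, if_pos hQ]
        have h2 := h1 (rre D ty k s (Sum.inr ⟨Q', hQ⟩)) ⟨Sum.inr ⟨Q', hQ⟩, rfl, fun H hH => absurd hH (by simp)⟩
        rw [LB_rre_inr, LB_rre_inr] at h2
        exact congrArg some h2
      · rw [if_neg hQ, if_neg hQ]
    · funext H
      obtain ⟨H, hH⟩ := H
      have hm := (mem_prev_good D).1 hH
      have hsh : H ∈ LS ty k ∧ H.card ≤ s ∧ ¬ isBad D ty s (fre D ty G) H := by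
        refine ⟨hm.1, by rw [← hs]; exact hm.2.1, fun h5 => ?_⟩
        have h6 := (mem_BadS D).1 ((isBad_iff hs hm.1).1 h5)
        exact hm.2.2.2 h6.2.1 h6.2.2
      have h2 := h1 (rre D ty k s (Sum.inl ⟨H, hsh⟩)) ⟨Sum.inl ⟨H, hsh⟩, rfl, fun H' hH' => by
        have h7 : (⟨H, hsh⟩ : {H : Finset W // H ∈ LS ty k ∧ H.card ≤ s ∧ ¬ isBad D ty s (fre D ty G) H}) = H' :=
          Sum.inl.inj hH'
        rw [← h7]
        exact hm.2.2.1⟩
      rw [LB_rre_inl, LB_rre_inl] at h2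
      exact h2
  refine h3.trans ?_
  -- the labels which are the same in both laws
  have key : ∀ {O : Type} (L' : Shp D ty k s (fre D ty G) × (Ltr (fre D ty G) → Option (Key r M)) → O → ℕ) (π : O → KW α χ (fre D ty G) r M),
      (∀ i, none ∉ fresh (shS D ty k s (fre D ty G)) i → ∀ v, L' i v = LB (shL D ty k s (fre D ty G) Ex) i (π v)) →
      ∀ v w, (VV Kr Kk (π v), Fam L' (All (shS D ty k s (fre D ty G)) (shT D ty k s (fre D ty G)) n) v) =
        (VV Kr Kk w, Fam (LB (shL D ty k s (fre D ty G) Ex)) (All (shS D ty k s (fre D ty G)) (shT D ty k s (fre D ty G)) n) w) →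
      (LC D ty G (rp (fre D ty G) (π v)), Fam L' (rlG D ty k s (fre D ty G) r M G) v, Lf (LC D ty) G.ssubsets (rp (fre D ty G) (π v)), VV Kr Kk (π v)) =
      (LC D ty G (rp (fre D ty G) w), Fam (LB (shL D ty k s (fre D ty G) Ex)) (rlG D ty k s (fre D ty G) r M G) w, Lf (LC D ty) G.ssubsets (rp (fre D ty G) w),
        VV Kr Kk w) := by
    intro O L' π hreal v w h
    rw [Prod.mk.injEq] at h
    obtain ⟨hV, hF⟩ := h
    rw [Fam_eq_iff'] at hF
    have hsub : ∀ H, H ⊆ G → LC D ty H (rp (fre D ty G) (π v)) = LC D ty H (rp (fre D ty G) w) := by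
      intro H hH
      have hsh := sub_sh (D := D) hG hs hH
      have h1 := hF _ (rre_All hBJ (Sum.inl ⟨H, hsh⟩))
      rw [hreal _ (none_fresh ⟨H, hsh⟩ (fre_mono D ty hH)), LB_rre_inl, LB_rre_inl] at h1
      exact h1
    simp only [Prod.mk.injEq]
    refine ⟨hsub G (Subset.refl _), ?_, ?_, hV⟩
    · rw [Fam_eq_iff']
      exact fun i hi => hF i (rlG_All hBJ n G hi)
    · funext H
      exact hsub H.1 (Finset.mem_ssubsets.1 H.2).1
  refine E_ip_le_of_seed (P := KQ D ty (fre D ty G) r M) (Q := Q)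
    (Y' := fun v => Fam Ls (rlG D ty k s (fre D ty G) r M G) v) ?_ ?_ haS hb ?_ ?_
  · refine Acm_mono (KQ D ty (fre D ty G) r M) (FP.pr (KQ D ty (fre D ty G) r M) Q) hS.acm (fun v w h => ?_)
    exact key Ls Prod.fst hS.real v w h
  · refine (klm_mono (KQ D ty (fre D ty G) r M) (FP.pr (KQ D ty (fre D ty G) r M) Q) hS.acm (fun v w h => ?_) (fun v w h => ?_)).trans (hS.kl.trans he)
    · exact key (LB (shL D ty k s (fre D ty G) Ex)) (fun w => w) (fun _ _ _ => rfl) v w h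
    · exact key Ls Prod.fst hS.real v w h
  · intro w _
    refine le_trans ?_ (hal G hG hs (fun y => w.2 (ltr (fre D ty G) y, none) y))
    exact_mod_cast nv_KQ D ty (fre D ty G) (LC D ty G) w
  · intro θ hθ
    exact pack_le hJ hG hs hEx hA haS hal hS hA' hph θ hθ

/-- THE STATIC STEP for one label set -/
theorem mst_of_simOut {A A' aS δ e b ε' : ℝ} {G : Finset W} {Ex : Finset W → CS α χ W → ℕ} {N r0 : ℕ}
    (hJ : JInj D.J ty) (hN : Fintype.card W ≤ N) (hG : G ∈ LS ty k) (hs : G.card = s) (hr : (fre D ty G).card = r0)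
    (hEx : Ext D ty G A Ex) (hA : 0 ≤ A) (haS : 0 ≤ aS) (hb : 0 ≤ b) (hε : 0 ≤ ε')
    (hal : ∀ H ∈ LS ty k, H.card = s → ∀ u : W → χ, (nA D (fun a => LC D ty H (a, u)) : ℝ) ≤ Real.exp aS)
    {n : Ltr (fre D ty G) × Fin r → ℕ} {Θ : Type} [Fintype Θ] {Q : FP Θ}
    {Ls : Shp D ty k s (fre D ty G) × (Ltr (fre D ty G) → Option (Key r M)) → KW α χ (fre D ty G) r M × Θ → ℕ}
    (hS : SimOut D ty k s (fre D ty G) Ex n Q Ls e) (he : e ≤ b ^ 4)
    (hA' : ((LS ty k).card : ℝ) * aS + A ≤ A')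
    (hph : ∀ v, Let1 D A' (fun I => D.J ⊆ I ∧ I ⊂ D.J ∪ G.image ty) v → ph1 D v (G.image ty) ≤ δ)
    (hBd : ∀ r', r0 < r' → r' ≤ s → BdX D k s r' N A ε') :
    mst D ty k Ex G ≤ δ + (2 * aS + 4) * b + (LS ty k).card * ε' := by
  refine (mst_P1_le D hJ hN hG hs hr hEx hA hε hBd).trans (add_le_add ?_ le_rfl)
  exact ip_of_simOut hJ hG hs hEx hA haS hb hal hS he hA' hph

/-- THE STATIC STEP, form of `exists_simOut2` -/
theorem stat_step2 (D : SD ι α χ) (k : ℕ) : StepStmt2 D k := by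
  intro s r N Nbig aa A A' δ e0 e1 εr b Nk hr hrs hsk hA haa hAl he0 hBd hεr hBX hNk hanti hbig he1 hkey hb4 hb hδ hPh hA'
    W _ _ ty hJ hN G hG hs hfr Ex hEx
  have hal : ∀ H ∈ LS ty k, H.card = s → ∀ u : W → χ, (nA D (fun a => LC D ty H (a, u)) : ℝ) ≤ Real.exp (aa s) := by
    intro H hH hHs u
    rw [← hHs]
    exact nA_LC D hAl hH u
  have haS : 0 ≤ aa s := zero_le_one.trans haa
  obtain ⟨n, _, Θ, hΘ, Q, Ls, hS⟩ := exists_simOut2 D hG hs rfl hJ hfr hEx hA hAl hN he0 hBd hNk hanti hbig he1 hkey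
  have hcard : ((LS ty k).card : ℝ) ≤ ((N : ℝ) + 1) ^ k := by
    exact_mod_cast card_LS_le ty k hN
  have hGJ : ¬ G.image ty ⊆ D.J := by
    intro h
    have h1 : 0 < (fre D ty G).card := by omega
    obtain ⟨y, hy⟩ := Finset.card_pos.1 h1
    exact (Finset.mem_filter.1 hy).2 (h (Finset.mem_image_of_mem ty (Finset.mem_filter.1 hy).1))
  have hGc : (G.image ty).card = s := (Finset.card_image_of_injOn (mem_LS.1 hG).2).trans hs
  have h1 := mst_of_simOut (δ := δ) (b := b) (ε' := εr) (A' := A') hJ hN hG hs hfr hEx hA haS hb hεr hal hS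
    hb4
    ((add_le_add (mul_le_mul_of_nonneg_right hcard haS) le_rfl).trans hA') (hPh _ hGc hGJ) hBX
  exact h1.trans (add_le_add le_rfl (mul_le_mul_of_nonneg_right hcard hεr))

/-- THE STATIC STEP -/
theorem stat_step (D : SD ι α χ) (k : ℕ) : StepStmt D k := (stat_step2 D k).stepStmt

end

end Pool.Agent.GMM
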