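import Pool.Agent.GMM.Point
import Pool.Agent.GMM.BridgeM
import Pool.Agent.GMM.BridgeS
import Pool.Agent.GMM.StatStep
import Pool.Agent.GMM.Main

/-!
# GMM/SatPt: (SAT*) AT ONE POINT (row CM; helper36)

`RuleOut.satAt` : `SatAt` of `GMM/Main` at every point `(x_J, Q_t)`, `J ≠ univ`, from `MdlI`, `RuleOut` with the numbers `Nums`.
-/

set_option autoImplicit false
set_option linter.unusedSectionVars false

namespace Pool.Agent.GMM

open Finset Pool.Agent.M3 Pool.Agent.GMC
open Pool.Agent.PWZ hiding ip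

noncomputable section

section satpt

variable {Om : Type*} [Fintype Om] {ι α χ : Type} [Fintype ι] [DecidableEq ι] [Fintype χ] [DecidableEq χ] [Fintype α]
  {κ δ φ ε : ℕ → Type*} {P : FP Om} {a : Om → α} {x : ι → Om → χ} {Q : ∀ t, Om → κ t} {D : ∀ t, Om → δ t}
  {E : ∀ t, Finset ι → Om → ε t} {f : ∀ t, Finset ι → Om → φ t} {k c X C : ℕ} {n : Nums k c X} {h : ℝ} {T : ℕ}
  {L : ℕ → Finset ι → Om → ℕ} {fat : ℕ → Finset ι → Om → Prop} {J : Finset ι} {u : Om} {c0 : ℝ}

theorem Ext.mono' {W : Type} [Fintype W] [DecidableEq W] {D' : SD ι α χ} {ty : W → ι} {G : Finset W} {A A' : ℝ}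
    {Ex : Finset W → CS α χ W → ℕ} (h : Ext D' ty G A Ex) (hA : A ≤ A') : Ext D' ty G A' Ex where
  dep := h.dep
  card := fun P hP u => (h.card P hP u).trans (Real.exp_le_exp.2 hA)

theorem Nums.OK.card_nu (hn : n.OK C) (hX : 2 ≤ X) (hck : cMin k ≤ c) {s j : ℕ} (hs : s < k) (hj : j < k) :
    k ≤ n.nu s ∧ k ≤ n.nu' s j := by
  have hX' : (2 : ℝ) ≤ X := by exact_mod_cast hX
  have h1 := hn.nu_ge s hs
  have h2 : (k : ℝ) ≤ (X : ℝ) ^ c := by
    calc (k : ℝ) ≤ 2 ^ k := by exact_mod_cast (Nat.lt_two_pow_self (n := k)).le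
      _ ≤ (X : ℝ) ^ k := pow_le_pow_left₀ (by norm_num) hX' k
      _ ≤ (X : ℝ) ^ c := pow_le_pow_right₀ (by linarith) (by
          unfold cMin at hck
          have := Nat.zero_le (2 * k * k)
          omega)
  have h3 : k ≤ n.nu s := by exact_mod_cast h2.trans h1
  refine ⟨h3, h3.trans ?_⟩
  exact Nat.le_mul_of_pos_right _ (hn.Nb_pos s j hs hj)

/-- (SAT*) AT ONE POINT -/
theorem RuleOut.satAt (hn : n.OK C) (hX : 2 ≤ X) (hck : cMin k ≤ c) (hι : Fintype.card ι = k)
    (hM : MdlI P a x Q D E c0) (hR : RuleOut P a x Q D f n.AA n.w n.aa h T L fat) (hJ : J ≠ univ) (t : ℕ)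
    (hu : P.p u ≠ 0) : SatAt P a x Q L fat n n.Exp J t u := by
  intro hphi hfat
  have hj : J.card < k := by
    rw [← hι]
    exact card_lt_of_prp hJ
  have hS := hR.satStar hn hX hck hι hM hJ hu (stat_step (DC P a x (Q t) (L t) J u) k) hphi hfat
  refine ⟨fun J' G hJJ' hJ' hJG hG R hRG => ?_, fun r hr1 hr => ?_⟩
  · have hj' : J'.card < k := by
      rw [← hι]
      exact card_lt_of_prp hJ'
    have hs : G.card < k := by
      rw [← hι]
      exact card_lt_of_prp hG
    have hjj : J.card < J'.card := Finset.card_lt_card hJJ'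
    refine (small_cls hu (hM.full t) (fun I => hR.fac t I) hJJ'.1 hRG hs).trans ?_
    have hE := (ext_exS (L := L t) hu (hM.full t) hJJ'.1 hRG (hn.Exp_nonneg hs hj')).mono'
      (hn.Ex_Ex G.card J'.card J.card hs hj' hjj)
    obtain ⟨h1, h2, -⟩ := hS G.card hs
    have hLS : G ∈ LS (id : ι → ι) k := mem_LS.2 ⟨hs, Function.injective_id.injOn⟩
    have hinj : JInj (DC P a x (Q t) (L t) J u).J (id : ι → ι) := fun y y' _ hh => hh
    rcases Nat.eq_zero_or_pos (fre (DC P a x (Q t) (L t) J u) id G).card with h0 | h0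
    · exact h2 ι id hinj (hι.le.trans (hn.card_nu hX hck hs hj).1) G hLS rfl h0 _ hE
    · have h3 : (fre (DC P a x (Q t) (L t) J u) id G).card ≤ G.card := Finset.card_filter_le _ _
      exact (h1 _ h0 h3 ι id hinj (hι.le.trans (hn.card_nu hX hck hs hj).2) G hLS rfl rfl _ hE).trans
        (hn.be_anti G.card J.card 0 _ hs hj (Nat.zero_le _))
  · obtain ⟨-, -, h3⟩ := hS r hr
    have hd : 0 < n.del r J.card := hn.be_pos r J.card 0 hr hj
    have h4 := ce_MM_cls hu (hM.full t) (fun I => hR.fac t I) hr (hι.le.trans (hn.card_nu hX hck hr hj).1) hd.le h3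
    refine h4.trans ?_
    refine mul_le_mul_of_nonneg_right ?_ hd.le
    rw [hι]
    exact pow_le_pow_left₀ (by norm_num) (by norm_num) k

end satpt

end

end Pool.Agent.GMM
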