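import Pool.Agent.M3.Maj
import Pool.Agent.M3.FPInfo

/-!
# GMM/Frame: flags with predicted deaths (row C, block CM, CM.4; helper45)

`Kn J t` = the exact vertices `x_J` and the node `Q_t` (`J` a set of known vertices).  `hot J t` = what kills `x_J` (a function
of `Kn J t`).  `al J t` = `x_J` and all its parts are alive: not hot, and no child would be hot with living parts, at all times
`≤ t` (flags are lowered IN ADVANCE, so at the time of its death `x_J` is still not hot).
* `Frame` : the maps, `child` = factor `Cc` for the child cells, `atom` = smallest conditional mass of a child;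
* `al`, `al_fac`, `al_anti`, `al_sub`, `al_not_hot`, `al_next`, `dies`, `dies_ok`;
* `pre_le` : probability of the predicted deaths;  `Pr_dead` : `P(not al J T) ≤ ∑_{J' ⊆ J} (1 + 1/c0) P(some t: parts alive, hot J' t)`.
-/

set_option autoImplicit false
set_option linter.unusedSectionVars false

namespace Pool.Agent.GMM

open Finset Pool.Agent.PWZ Pool.Agent.M3 Pool.Agent.M3.FP

noncomputable section

variable {Om : Type*} [Fintype Om] {ι : Type*} [DecidableEq ι]

/-- the known parts of the vertices and the path -/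
structure Frame (P : FP Om) {κ : Finset ι → ℕ → Type*} (Kn : ∀ J t, Om → κ J t) (Cc c0 : ℝ) : Prop where
  filt : ∀ J, Filt (Kn J)
  mono : ∀ J J' t, J ⊆ J' → Fac (Kn J' t) (Kn J t)
  child : ∀ J G t (f : Om → ℝ), (∀ w, 0 ≤ f w) → Fac (Kn J t) f → ∀ w, P.p w ≠ 0 →
    P.ce (Kn G (t + 1)) f w ≤ Cc * P.ce (Kn (J ∩ G) t) f w
  atom : ∀ J t (E : Om → Prop), (∀ v w, Kn J (t + 1) v = Kn J (t + 1) w → (E v ↔ E w)) → ∀ w, P.p w ≠ 0 →
    P.ce (Kn J t) (fun v => ind (E v)) w ≠ 0 → c0 ≤ P.ce (Kn J t) (fun v => ind (E v)) w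

variable (P : FP Om) {κ : Finset ι → ℕ → Type*} (Kn : ∀ J t, Om → κ J t) (hot : Finset ι → ℕ → Om → Prop)

/-- alive, with predicted deaths -/
def al (J : Finset ι) : ℕ → Om → Prop := fun t w =>
  (∀ J' : {J' : Finset ι // J' ⊂ J}, al J'.1 t w) ∧
  ∀ s ≤ t, ¬ hot J s w ∧
    P.ce (Kn J s) (fun v => ind (hot J (s + 1) v ∧ ∀ J' : {J' : Finset ι // J' ⊂ J}, al J'.1 (s + 1) v)) w = 0
termination_by J.card
decreasing_by
  · exact Finset.card_lt_card J'.2
  · exact Finset.card_lt_card J'.2

/-- all proper parts are alive -/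
def pal (J : Finset ι) (t : ℕ) (w : Om) : Prop := ∀ J', J' ⊂ J → al P Kn hot J' t w

/-- a child would be hot with living parts -/
def pre (J : Finset ι) (t : ℕ) (w : Om) : Prop :=
  P.ce (Kn J t) (fun v => ind (hot J (t + 1) v ∧ pal P Kn hot J (t + 1) v)) w ≠ 0

theorem al_iff' (J : Finset ι) (t : ℕ) (w : Om) :
    al P Kn hot J t w ↔ pal P Kn hot J t w ∧ ∀ s ≤ t, ¬ hot J s w ∧ ¬ pre P Kn hot J s w := by
  rw [al]
  unfold pal pre
  constructor
  · rintro ⟨h1, h2⟩
    refine ⟨fun J' hJ' => h1 ⟨J', hJ'⟩, fun s hs => ⟨(h2 s hs).1, ?_⟩⟩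
    rw [not_not]
    have h3 := (h2 s hs).2
    have e : (fun v => ind (hot J (s + 1) v ∧ ∀ J' : {J' : Finset ι // J' ⊂ J}, al P Kn hot J'.1 (s + 1) v)) =
        fun v => ind (hot J (s + 1) v ∧ ∀ J', J' ⊂ J → al P Kn hot J' (s + 1) v) := by
      funext v
      congr 1
      exact propext ⟨fun h => ⟨h.1, fun J' hJ' => h.2 ⟨J', hJ'⟩⟩, fun h => ⟨h.1, fun J' => h.2 J'.1 J'.2⟩⟩
    rw [e] at h3
    exact h3
  · rintro ⟨h1, h2⟩
    refine ⟨fun J' => h1 J'.1 J'.2, fun s hs => ⟨(h2 s hs).1, ?_⟩⟩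
    have h3 := (h2 s hs).2
    rw [not_not] at h3
    have e : (fun v => ind (hot J (s + 1) v ∧ ∀ J' : {J' : Finset ι // J' ⊂ J}, al P Kn hot J'.1 (s + 1) v)) =
        fun v => ind (hot J (s + 1) v ∧ ∀ J', J' ⊂ J → al P Kn hot J' (s + 1) v) := by
      funext v
      congr 1
      exact propext ⟨fun h => ⟨h.1, fun J' hJ' => h.2 ⟨J', hJ'⟩⟩, fun h => ⟨h.1, fun J' => h.2 J'.1 J'.2⟩⟩
    rw [e]
    exact h3

/-- the death of `x_J` at the time `t + 1` (all proper parts survive) -/
def dies (J : Finset ι) (t : ℕ) (w : Om) : Prop :=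
  al P Kn hot J t w ∧ ¬ al P Kn hot J (t + 1) w ∧ pal P Kn hot J (t + 1) w

variable {P Kn hot} {Cc c0 : ℝ}

theorem al_sub {J J' : Finset ι} (h : J' ⊆ J) {t : ℕ} {w : Om} (ha : al P Kn hot J t w) : al P Kn hot J' t w := by
  rcases eq_or_ne J' J with h1 | h1
  · rw [h1]; exact ha
  · exact ((al_iff' P Kn hot J t w).1 ha).1 J' (Finset.ssubset_iff_subset_ne.2 ⟨h, h1⟩)

theorem al_pal {J : Finset ι} {t : ℕ} {w : Om} (ha : al P Kn hot J t w) : pal P Kn hot J t w :=
  ((al_iff' P Kn hot J t w).1 ha).1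

theorem al_not_hot {J : Finset ι} {t : ℕ} {w : Om} (ha : al P Kn hot J t w) : ¬ hot J t w :=
  (((al_iff' P Kn hot J t w).1 ha).2 t le_rfl).1

theorem al_not_pre {J : Finset ι} {t : ℕ} {w : Om} (ha : al P Kn hot J t w) : ¬ pre P Kn hot J t w :=
  (((al_iff' P Kn hot J t w).1 ha).2 t le_rfl).2

theorem al_anti (J : Finset ι) : ∀ (t : ℕ) (w : Om), al P Kn hot J (t + 1) w → al P Kn hot J t w := by
  induction J using Finset.strongInduction with
  | H J ih =>
    intro t w h
    rw [al_iff'] at h ⊢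
    exact ⟨fun J' hJ' => ih J' hJ' t w (h.1 J' hJ'), fun s hs => h.2 s (by omega)⟩

theorem al_anti' (J : Finset ι) {s t : ℕ} (hst : s ≤ t) {w : Om} (h : al P Kn hot J t w) : al P Kn hot J s w := by
  induction t, hst using Nat.le_induction with
  | base => exact h
  | succ t _ ih => exact ih (al_anti J t w h)

theorem pal_anti (J : Finset ι) (t : ℕ) (w : Om) (h : pal P Kn hot J (t + 1) w) : pal P Kn hot J t w :=
  fun J' hJ' => al_anti J' t w (h J' hJ')

theorem al_fac (hF : Frame P Kn Cc c0) (hhot : ∀ J t v w, Kn J t v = Kn J t w → (hot J t v ↔ hot J t w))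
    (J : Finset ι) : ∀ (t : ℕ) (v w : Om), Kn J t v = Kn J t w → (al P Kn hot J t v ↔ al P Kn hot J t w) := by
  induction J using Finset.strongInduction with
  | H J ih =>
    intro t v w hvw
    rw [al_iff', al_iff']
    refine and_congr ?_ (forall_congr' fun s => ?_)
    · refine forall_congr' fun J' => forall_congr' fun hJ' => ?_
      exact ih J' hJ' t v w (hF.mono J' J t hJ'.1 v w hvw)
    · refine forall_congr' fun hs => ?_
      have hs' : Kn J s v = Kn J s w := (hF.filt J).le hs v w hvw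
      unfold pre
      rw [hhot J s v w hs', P.ce_fac (Kn J s) _ v w hs']

theorem pal_fac (hF : Frame P Kn Cc c0) (hhot : ∀ J t v w, Kn J t v = Kn J t w → (hot J t v ↔ hot J t w))
    (J : Finset ι) (t : ℕ) (v w : Om) (hvw : Kn J t v = Kn J t w) : pal P Kn hot J t v ↔ pal P Kn hot J t w :=
  forall_congr' fun J' => forall_congr' fun hJ' =>
    al_fac hF hhot J' t v w (hF.mono J' J t hJ'.1 v w hvw)

theorem pre_fac (J : Finset ι) (t : ℕ) (v w : Om) (hvw : Kn J t v = Kn J t w) :
    pre P Kn hot J t v ↔ pre P Kn hot J t w := by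
  unfold pre
  rw [P.ce_fac (Kn J t) _ v w hvw]

/-- after an alive node the next node is not hot, as long as its parts are alive -/
theorem al_next {J : Finset ι} {t : ℕ} {w : Om} (hw : P.p w ≠ 0) (ha : al P Kn hot J t w)
    (hp : pal P Kn hot J (t + 1) w) : ¬ hot J (t + 1) w := by
  intro hh
  have h1 := al_not_pre ha
  unfold pre at h1
  rw [not_not] at h1
  have h2 := P.eq_zero_of_ce (f := fun v => ind (hot J (t + 1) v ∧ pal P Kn hot J (t + 1) v))
    (fun v _ => ind_nonneg _) hw h1 hw rfl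
  rw [ind_of ⟨hh, hp⟩] at h2
  exact one_ne_zero h2

/-- at the time of its death `x_J` is not hot and its proper parts are alive -/
theorem dies_ok {J : Finset ι} {t : ℕ} {w : Om} (hw : P.p w ≠ 0) (hd : dies P Kn hot J t w) :
    ¬ hot J (t + 1) w ∧ pal P Kn hot J (t + 1) w := ⟨al_next hw hd.1 hd.2.2, hd.2.2⟩

/-- if something dies below `J`, then a minimal part dies -/
theorem exists_dies {J : Finset ι} {t : ℕ} {w : Om} (ha : al P Kn hot J t w) (hn : ¬ al P Kn hot J (t + 1) w) :
    ∃ J' ⊆ J, dies P Kn hot J' t w := by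
  induction J using Finset.strongInduction with
  | H J ih =>
    by_cases hp : pal P Kn hot J (t + 1) w
    · exact ⟨J, Subset.refl _, ha, hn, hp⟩
    · unfold pal at hp
      push Not at hp
      obtain ⟨J', hJ', h1⟩ := hp
      obtain ⟨J'', h2, h3⟩ := ih J' hJ' (al_sub hJ'.1 ha) h1
      exact ⟨J'', h2.trans hJ'.1, h3⟩

theorem exists_pdies {J : Finset ι} {t : ℕ} {w : Om} (ha : pal P Kn hot J t w) (hn : ¬ pal P Kn hot J (t + 1) w) :
    ∃ J', J' ⊂ J ∧ dies P Kn hot J' t w := by
  unfold pal at hn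
  push Not at hn
  obtain ⟨J', hJ', h1⟩ := hn
  obtain ⟨J'', h2, h3⟩ := exists_dies (ha J' hJ') h1
  exact ⟨J'', lt_of_le_of_lt h2 hJ', h3⟩

theorem dies_fac (hF : Frame P Kn Cc c0) (hhot : ∀ J t v w, Kn J t v = Kn J t w → (hot J t v ↔ hot J t w))
    (J : Finset ι) (t : ℕ) (v w : Om) (hvw : Kn J (t + 1) v = Kn J (t + 1) w) :
    dies P Kn hot J t v ↔ dies P Kn hot J t w := by
  unfold dies
  rw [al_fac hF hhot J t v w (hF.filt J t v w hvw), al_fac hF hhot J (t + 1) v w hvw,
    pal_fac hF hhot J (t + 1) v w hvw]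

/-- the total probability of the deaths of one `J` -/
theorem sum_dies (J : Finset ι) (T : ℕ) : ∑ t ∈ range T, P.Pr (dies P Kn hot J t) ≤ 1 := by
  have h : ∀ n, ∑ t ∈ range n, P.Pr (dies P Kn hot J t) ≤ P.Pr (fun w => ¬ al P Kn hot J n w) := by
    intro n
    induction n with
    | zero => rw [Finset.range_zero, Finset.sum_empty]; exact P.Pr_nonneg _
    | succ n ih =>
      rw [Finset.sum_range_succ]
      have h1 : P.Pr (fun w => ¬ al P Kn hot J n w) + P.Pr (dies P Kn hot J n) ≤
          P.Pr (fun w => ¬ al P Kn hot J (n + 1) w) := by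
        unfold FP.Pr
        rw [← P.E_add]
        refine P.E_mono (fun w _ => ?_)
        by_cases ha : al P Kn hot J n w
        · rw [ind_not (fun h => h ha), zero_add]
          exact ind_mono (fun h => h.2.1)
        · rw [ind_of ha, ind_not (fun h : dies P Kn hot J n w => ha h.1),
            ind_of (fun h => ha (al_anti J n w h))]
          norm_num
      linarith
  exact (h T).trans (P.Pr_le_one _)

/-- predicted deaths happen with comparable probability -/
theorem pre_le (hF : Frame P Kn Cc c0) (hhot : ∀ J t v w, Kn J t v = Kn J t w → (hot J t v ↔ hot J t w))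
    (hc0 : 0 < c0) (J : Finset ι) (T : ℕ) :
    c0 * P.Pr (fun w => ∃ s < T, pre P Kn hot J s w) ≤
      P.Pr (fun w => ∃ s < T, hot J (s + 1) w ∧ pal P Kn hot J (s + 1) w) := by
  set F : ℕ → Om → Prop := fun s w => (¬ ∃ u < s, pre P Kn hot J u w) ∧ pre P Kn hot J s w with hFd
  set H : ℕ → Om → Prop := fun s w => hot J (s + 1) w ∧ pal P Kn hot J (s + 1) w with hHd
  have hFf : ∀ s v w, Kn J s v = Kn J s w → (F s v ↔ F s w) := by
    intro s v w hvw
    simp only [hFd]
    refine and_congr (not_congr (exists_congr fun u => and_congr_right fun hu => ?_)) (pre_fac J s v w hvw)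
    exact pre_fac J u v w ((hF.filt J).le hu.le v w hvw)
  have hHf : ∀ s v w, Kn J (s + 1) v = Kn J (s + 1) w → (H s v ↔ H s w) := by
    intro s v w hvw
    simp only [hHd]
    rw [hhot J (s + 1) v w hvw, pal_fac hF hhot J (s + 1) v w hvw]
  have hone : ∀ s, c0 * P.Pr (F s) ≤ P.Pr (fun w => F s w ∧ H s w) := by
    intro s
    have e : P.Pr (fun w => F s w ∧ H s w) = P.E (fun w => ind (F s w) * P.ce (Kn J s) (fun v => ind (H s v)) w) := by
      rw [P.E_mul_ce (Fac.ind (hFf s))]
      unfold FP.Pr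
      exact P.E_congr (fun w _ => ind_and _ _)
    rw [e]
    unfold FP.Pr
    rw [← P.E_smul]
    refine P.E_mono (fun w hw => ?_)
    by_cases h : F s w
    · rw [ind_of h, mul_one, one_mul]
      exact hF.atom J s (H s) (hHf s) w hw h.2
    · rw [ind_not h]; simp
  have key : ∀ n, c0 * P.Pr (fun w => ∃ s < n, pre P Kn hot J s w) ≤ P.Pr (fun w => ∃ s < n, F s w ∧ H s w) := by
    intro n
    induction n with
    | zero =>
      have e : P.Pr (fun w => ∃ s < 0, pre P Kn hot J s w) = 0 := by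
        unfold FP.Pr
        have : (fun w => ind (∃ s < 0, pre P Kn hot J s w)) = fun _ => (0 : ℝ) := by
          funext w
          exact ind_not (by rintro ⟨s, hs, _⟩; omega)
        rw [this]
        exact P.E_const 0
      rw [e, mul_zero]
      exact P.Pr_nonneg _
    | succ n ih =>
      have h1 : P.Pr (fun w => ∃ s < n + 1, pre P Kn hot J s w) ≤
          P.Pr (fun w => ∃ s < n, pre P Kn hot J s w) + P.Pr (F n) := by
        unfold FP.Pr
        rw [← P.E_add]
        refine P.E_mono (fun w _ => ?_)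
        by_cases ha : ∃ s < n, pre P Kn hot J s w
        · rw [ind_of ha]
          have := ind_le_one (∃ s < n + 1, pre P Kn hot J s w)
          have := ind_nonneg (F n w)
          linarith
        · rw [ind_not ha, zero_add]
          refine ind_mono ?_
          rintro ⟨s, hs, h⟩
          have : s = n := by
            by_contra hne
            exact ha ⟨s, by omega, h⟩
          subst this
          exact ⟨ha, h⟩
      have h2 : P.Pr (fun w => ∃ s < n, F s w ∧ H s w) + P.Pr (fun w => F n w ∧ H n w) ≤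
          P.Pr (fun w => ∃ s < n + 1, F s w ∧ H s w) := by
        unfold FP.Pr
        rw [← P.E_add]
        refine P.E_mono (fun w _ => ?_)
        by_cases ha : ∃ s < n, F s w ∧ H s w
        · obtain ⟨s, hs, h⟩ := ha
          have h3 : ¬ (F n w ∧ H n w) := fun h4 => h4.1.1 ⟨s, hs, h.1.2⟩
          rw [ind_of ⟨s, hs, h⟩, ind_not h3, ind_of ⟨s, by omega, h⟩]
          norm_num
        · rw [ind_not ha, zero_add]
          exact ind_mono (fun h => ⟨n, by omega, h⟩)
      have h3 := hone n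
      have h4 := mul_le_mul_of_nonneg_left h1 hc0.le
      rw [mul_add] at h4
      linarith
  refine (key T).trans (P.Pr_mono (fun w _ => ?_))
  rintro ⟨s, hs, h⟩
  exact ⟨s, hs, h.2⟩

/-- THE DEATHS: what happens before `T + 1` -/
theorem Pr_dead (hF : Frame P Kn Cc c0) (hhot : ∀ J t v w, Kn J t v = Kn J t w → (hot J t v ↔ hot J t w))
    (hc0 : 0 < c0) (J : Finset ι) (T : ℕ) (hT : ∀ J w, ¬ hot J (T + 1) w) :
    P.Pr (fun w => ¬ al P Kn hot J T w) ≤
      ∑ J' ∈ J.powerset, (1 + 1 / c0) * P.Pr (fun w => ∃ t ≤ T, pal P Kn hot J' t w ∧ hot J' t w) := by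
  have h1 : P.Pr (fun w => ¬ al P Kn hot J T w) ≤ P.Pr (fun w => ∃ J' ∈ J.powerset,
      ∃ s ≤ T, pal P Kn hot J' s w ∧ (hot J' s w ∨ pre P Kn hot J' s w)) := by
    refine P.Pr_mono (fun w _ hn => ?_)
    -- a minimal part and a first time
    have key : ∀ J'' : Finset ι, J'' ⊆ J → ¬ al P Kn hot J'' T w → ∃ J' ∈ J.powerset,
        ∃ s ≤ T, pal P Kn hot J' s w ∧ (hot J' s w ∨ pre P Kn hot J' s w) := by
      intro J''
      induction J'' using Finset.strongInduction with
      | H J'' ih =>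
        intro hJ hn
        by_cases hp : pal P Kn hot J'' T w
        · have h3 : ¬ ∀ s ≤ T, ¬ hot J'' s w ∧ ¬ pre P Kn hot J'' s w := fun h => hn ((al_iff' _ _ _ _ _ _).2 ⟨hp, h⟩)
          push Not at h3
          obtain ⟨s, hs, h4⟩ := h3
          refine ⟨J'', Finset.mem_powerset.2 hJ, s, hs, fun J' hJ' => al_anti' J' hs (hp J' hJ'), ?_⟩
          by_cases h5 : hot J'' s w
          · exact Or.inl h5
          · exact Or.inr (h4 h5)
        · unfold pal at hp
          push Not at hp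
          obtain ⟨J', hJ', h4⟩ := hp
          exact ih J' hJ' (hJ'.1.trans hJ) h4
    exact key J (Subset.refl _) hn
  refine h1.trans ((P.Pr_ex_le _ _).trans (Finset.sum_le_sum fun J' _ => ?_))
  have h2 : P.Pr (fun w => ∃ s ≤ T, pal P Kn hot J' s w ∧ (hot J' s w ∨ pre P Kn hot J' s w)) ≤
      P.Pr (fun w => (∃ t ≤ T, pal P Kn hot J' t w ∧ hot J' t w) ∨ ∃ s < T, pre P Kn hot J' s w) := by
    refine P.Pr_mono (fun w hw => ?_)
    rintro ⟨s, hs, hp, h⟩
    rcases h with h | h
    · exact Or.inl ⟨s, hs, hp, h⟩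
    · rcases Nat.lt_or_ge s T with h3 | h3
      · exact Or.inr ⟨s, h3, h⟩
      · have : s = T := by omega
        subst this
        exfalso
        apply h
        have e : (fun v => ind (hot J' (s + 1) v ∧ pal P Kn hot J' (s + 1) v)) = fun _ => (0 : ℝ) := by
          funext v
          exact ind_not (fun h => hT J' v h.1)
        rw [e]
        exact P.ce_const _ 0 hw
  have h3 := pre_le hF hhot hc0 J' T
  have h4 : P.Pr (fun w => ∃ s < T, hot J' (s + 1) w ∧ pal P Kn hot J' (s + 1) w) ≤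
      P.Pr (fun w => ∃ t ≤ T, pal P Kn hot J' t w ∧ hot J' t w) := by
    refine P.Pr_mono (fun w _ => ?_)
    rintro ⟨s, hs, h⟩
    exact ⟨s + 1, by omega, h.2, h.1⟩
  have h5 : P.Pr (fun w => ∃ s < T, pre P Kn hot J' s w) ≤
      1 / c0 * P.Pr (fun w => ∃ t ≤ T, pal P Kn hot J' t w ∧ hot J' t w) := by
    rw [one_div, ← div_eq_inv_mul, le_div_iff₀ hc0]
    linarith
  refine h2.trans ((P.Pr_or_le _ _).trans ?_)
  rw [add_mul, one_mul]
  linarith

end

end Pool.Agent.GMM
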