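import Pool.Agent.GMC.C3Pot
import Pool.Agent.GMM.Frame
import Pool.Agent.M3.Hot

/-!
# GMM/CM4: the dynamic lemma of block CM (CM.4; helper45)

* `c3pot_ae` : the potential lemma of GMC/C3Pot with nonnegativity on the support only;
* `ce_ind_le` : weight of a hot set;
* `cm4` : `Y t` (for us `phi_G(x_J,Q_t)`, `G` not containing `J`), loss `c (t+1)` a function of `(x_G,Q_(t+1))`, small in the mean over
  every proper part of `x_J` which is not hot and has living parts.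
-/

set_option autoImplicit false
set_option linter.unusedSectionVars false

namespace Pool.Agent.GMM

open Finset Pool.Agent.PWZ Pool.Agent.M3 Pool.Agent.M3.FP Pool.Agent.GMC

noncomputable section

variable {Om : Type*} [Fintype Om]

/-- the potential lemma, nonnegativity on the support only -/
theorem c3pot_ae (P : FP Om) {κ : ℕ → Type*} (K : ∀ t, Om → κ t) (T R : ℕ) (pi : ℕ → Om → ℝ) (A : Fin R → ℕ → Om → ℝ)
    (al0 : ℕ → Om → Prop) (al : Fin R → ℕ → Om → Prop) (l0 : ℕ → Om → ℝ) (l : Fin R → ℕ → Om → ℝ) (ρ : ℝ) (hρ : 0 < ρ)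
    (hK : Filt K) (hpi : ∀ t, Fac (K t) (pi t)) (hA : ∀ r t, Fac (K t) (A r t))
    (hal0 : ∀ t v w, K t v = K t w → (al0 t v ↔ al0 t w)) (hal : ∀ r t v w, K t v = K t w → (al r t v ↔ al r t w))
    (hal0m : ∀ t w, al0 (t + 1) w → al0 t w) (halm : ∀ r t w, al r (t + 1) w → al r t w)
    (hpi0 : ∀ t w, P.p w ≠ 0 → 0 ≤ pi t w) (hA0 : ∀ r t w, P.p w ≠ 0 → 0 ≤ A r t w)
    (hl0 : ∀ t w, P.p w ≠ 0 → 0 ≤ l0 t w) (hl : ∀ r t w, P.p w ≠ 0 → 0 ≤ l r t w)
    (h0 : ∀ t < T, ∀ w, P.p w ≠ 0 → al0 t w → ρ / ((R : ℝ) + 1) ≤ pi t w →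
      pi t w + ∑ r, ind (al r t w) * A r t w ≤
        P.ce (K t) (fun v => ind (al0 t v) * pi (t + 1) v + ∑ r, ind (al r t v) * A r (t + 1) v + l0 (t + 1) v) w)
    (h1 : ∀ r, ∀ t < T, ∀ w, P.p w ≠ 0 → al r t w → ρ / ((R : ℝ) + 1) ≤ A r t w →
      A r t w ≤ P.ce (K t) (fun v => ind (al r t v) * A r (t + 1) v + l r (t + 1) v) w) :
    ρ * P.Pr (fun w => ∃ t ≤ T, al0 t w ∧ 2 * ρ ≤ pi t w) ≤
      P.E (fun w => ind (al0 T w) * pi T w + ((R : ℝ) + 1) * ∑ r, ind (al r T w) * A r T w) +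
      ∑ t ∈ range T, (P.E (fun w => ind (al0 t w ∧ ρ / ((R : ℝ) + 1) ≤ pi t w) * l0 (t + 1) w) +
        ((R : ℝ) + 1) * ∑ r, P.E (fun w => ind (al r t w ∧ ρ / ((R : ℝ) + 1) ≤ A r t w) * l r (t + 1) w)) +
      ∑ t ∈ range T, (P.E (fun w => ind (al0 t w ∧ ¬ al0 (t + 1) w) * pi (t + 1) w) +
        ((R : ℝ) + 1) * ∑ r, P.E (fun w => ind (al r t w ∧ ¬ al r (t + 1) w) * A r (t + 1) w)) := by
  have hR : (0 : ℝ) < (R : ℝ) + 1 := by positivity
  have hρR : 0 < ρ / ((R : ℝ) + 1) := by positivity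
  have e : ∀ {x : ℝ}, 0 ≤ x → max x 0 = x := fun h => max_eq_left h
  have key := c3pot P K T R (fun t w => max (pi t w) 0) (fun r t w => max (A r t w) 0) al0 al
    (fun t w => max (l0 t w) 0) (fun r t w => max (l r t w) 0) ρ hρ hK
    (fun t => (hpi t).comp (fun x => max x 0)) (fun r t => (hA r t).comp (fun x => max x 0)) hal0 hal hal0m halm
    (fun _ _ => le_max_right _ _) (fun _ _ _ => le_max_right _ _) (fun _ _ => le_max_right _ _)
    (fun _ _ _ => le_max_right _ _)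
    (fun t ht w hw ha hp => by
      have h2 := h0 t ht w hw ha (by rw [← e (hpi0 t w hw)]; exact hp)
      rw [e (hpi0 t w hw)]
      have h3 : ∑ r, ind (al r t w) * max (A r t w) 0 = ∑ r, ind (al r t w) * A r t w :=
        Finset.sum_congr rfl (fun r _ => by rw [e (hA0 r t w hw)])
      rw [h3]
      refine h2.trans (le_of_eq (P.ce_congr (fun v hv => ?_) w))
      rw [e (hpi0 (t + 1) v hv), e (hl0 (t + 1) v hv)]
      congr 2
      exact Finset.sum_congr rfl (fun r _ => by rw [e (hA0 r (t + 1) v hv)]))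
    (fun r t ht w hw ha hp => by
      have h2 := h1 r t ht w hw ha (by rw [← e (hA0 r t w hw)]; exact hp)
      rw [e (hA0 r t w hw)]
      refine h2.trans (le_of_eq (P.ce_congr (fun v hv => ?_) w))
      rw [e (hA0 r (t + 1) v hv), e (hl r (t + 1) v hv)])
  have a1 : P.Pr (fun w => ∃ t ≤ T, al0 t w ∧ 2 * ρ ≤ pi t w) ≤
      P.Pr (fun w => ∃ t ≤ T, al0 t w ∧ 2 * ρ ≤ max (pi t w) 0) := by
    refine P.Pr_mono (fun w hw => ?_)
    rintro ⟨t, ht, ha, h⟩
    exact ⟨t, ht, ha, h.trans (le_max_left _ _)⟩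
  have a2 := mul_le_mul_of_nonneg_left a1 hρ.le
  refine a2.trans (key.trans (le_of_eq ?_))
  congr 1
  · congr 1
    · refine P.E_congr (fun w hw => ?_)
      rw [e (hpi0 T w hw)]
      congr 2
      exact Finset.sum_congr rfl (fun r _ => by rw [e (hA0 r T w hw)])
    · refine Finset.sum_congr rfl (fun t _ => ?_)
      congr 1
      · refine P.E_congr (fun w hw => ?_)
        rw [e (hpi0 t w hw), e (hl0 (t + 1) w hw)]
      · congr 1
        refine Finset.sum_congr rfl (fun r _ => P.E_congr (fun w hw => ?_))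
        rw [e (hA0 r t w hw), e (hl r (t + 1) w hw)]
  · refine Finset.sum_congr rfl (fun t _ => ?_)
    congr 1
    · refine P.E_congr (fun w hw => ?_)
      rw [e (hpi0 (t + 1) w hw)]
    · congr 1
      refine Finset.sum_congr rfl (fun r _ => P.E_congr (fun w hw => ?_))
      rw [e (hA0 r (t + 1) w hw)]

/-- Markov under a coarser map, with a living condition -/
theorem ce_ind_le (P : FP Om) {κ : Type*} {Z : Om → κ} {a b : Om → Prop} {Y : Om → ℝ} {ρ ε : ℝ} (hρ : 0 < ρ) (hε : 0 ≤ ε)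
    (hY : ∀ w, P.p w ≠ 0 → 0 ≤ Y w) (hab : ∀ w, a w → b w) (hb : ∀ v w, Z v = Z w → (b v ↔ b w))
    (h : ∀ w, P.p w ≠ 0 → b w → P.ce Z Y w ≤ ε) {w : Om} (hw : P.p w ≠ 0) :
    P.ce Z (fun v => ind (a v ∧ ρ ≤ Y v)) w ≤ ε / ρ := by
  by_cases hbw : b w
  · rw [le_div_iff₀ hρ, mul_comm, ← P.ce_smul]
    refine le_trans (P.ce_mono (fun v hv => ?_) w) (h w hw hbw)
    by_cases hv2 : a v ∧ ρ ≤ Y v
    · rw [ind_of hv2, mul_one]; exact hv2.2
    · rw [ind_not hv2, mul_zero]; exact hY v hv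
  · have e : P.ce Z (fun v => ind (a v ∧ ρ ≤ Y v)) w = 0 := by
      unfold FP.ce
      have : P.E (fun v => ind (Z v = Z w) * ind (a v ∧ ρ ≤ Y v)) = 0 := by
        have e2 : (fun v => ind (Z v = Z w) * ind (a v ∧ ρ ≤ Y v)) = fun _ => (0 : ℝ) := by
          funext v
          by_cases hv : Z v = Z w
          · rw [ind_not (fun h2 : a v ∧ ρ ≤ Y v => hbw ((hb v w hv).1 (hab v h2.1))), mul_zero]
          · rw [ind_not hv, zero_mul]
        rw [e2]
        exact P.E_const 0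
      rw [this, zero_div]
    rw [e]
    positivity

/-- a nonnegative function on an event of the coarser map on which its conditional mean is small -/
theorem E_ind_le (P : FP Om) {κ : Type*} {Z : Om → κ} {b : Om → Prop} {Y : Om → ℝ} {ε : ℝ}
    (hb : ∀ v w, Z v = Z w → (b v ↔ b w)) (h : ∀ w, P.p w ≠ 0 → b w → P.ce Z Y w ≤ ε) :
    P.E (fun w => ind (b w) * Y w) ≤ ε * P.Pr b := by
  rw [← P.E_mul_ce (Fac.ind hb)]
  unfold FP.Pr
  rw [← P.E_smul]
  refine P.E_mono (fun w hw => ?_)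
  by_cases hbw : b w
  · rw [ind_of hbw, one_mul, mul_one]; exact h w hw hbw
  · rw [ind_not hbw, zero_mul, mul_zero]

variable {ι : Type*} [DecidableEq ι] {P : FP Om} {κ : Finset ι → ℕ → Type*} {Kn : ∀ J t, Om → κ J t}
  {hot : Finset ι → ℕ → Om → Prop} {Cc c0 : ℝ}

/-- the drop at the deaths of the proper parts -/
theorem death_le (hF : Frame P Kn Cc c0) (hhot : ∀ J t v w, Kn J t v = Kn J t w → (hot J t v ↔ hot J t w))
    {J : Finset ι} (T : ℕ) {Y : ℕ → Om → ℝ} (hY0 : ∀ t w, P.p w ≠ 0 → 0 ≤ Y t w) {ε : Finset ι → ℝ} (hε : ∀ J', 0 ≤ ε J')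
    (small : ∀ J', J' ⊂ J → ∀ t ≤ T, ∀ w, P.p w ≠ 0 → ¬ hot J' t w → pal P Kn hot J' t w →
      P.ce (Kn J' t) (Y t) w ≤ ε J') :
    ∑ t ∈ range T, P.E (fun w => ind (pal P Kn hot J t w ∧ ¬ pal P Kn hot J (t + 1) w) * Y (t + 1) w) ≤
      ∑ J' ∈ J.ssubsets, ε J' := by
  have h1 : ∀ t ∈ range T, P.E (fun w => ind (pal P Kn hot J t w ∧ ¬ pal P Kn hot J (t + 1) w) * Y (t + 1) w) ≤
      ∑ J' ∈ J.ssubsets, ε J' * P.Pr (dies P Kn hot J' t) := by
    intro t ht
    have ht' : t < T := Finset.mem_range.mp ht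
    have h2 : P.E (fun w => ind (pal P Kn hot J t w ∧ ¬ pal P Kn hot J (t + 1) w) * Y (t + 1) w) ≤
        P.E (fun w => ∑ J' ∈ J.ssubsets, ind (dies P Kn hot J' t w) * Y (t + 1) w) := by
      refine P.E_mono (fun w hw => ?_)
      rw [← Finset.sum_mul]
      refine mul_le_mul_of_nonneg_right ?_ (hY0 (t + 1) w hw)
      refine (ind_mono (q := ∃ J' ∈ J.ssubsets, dies P Kn hot J' t w) ?_).trans (ind_ex_le _ _)
      rintro ⟨ha, hn⟩
      obtain ⟨J', hJ', hd⟩ := exists_pdies ha hn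
      exact ⟨J', Finset.mem_ssubsets.2 hJ', hd⟩
    rw [P.E_sum] at h2
    refine h2.trans (Finset.sum_le_sum fun J' hJ' => ?_)
    refine E_ind_le P (Z := Kn J' (t + 1)) (dies_fac hF hhot J' t) (fun w hw hd => ?_)
    have h3 := dies_ok hw hd
    exact small J' (Finset.mem_ssubsets.1 hJ') (t + 1) (by omega) w hw h3.1 h3.2
  refine (Finset.sum_le_sum h1).trans ?_
  rw [Finset.sum_comm]
  refine Finset.sum_le_sum fun J' _ => ?_
  rw [← Finset.mul_sum]
  have := mul_le_mul_of_nonneg_left (sum_dies (P := P) (Kn := Kn) (hot := hot) J' T) (hε J')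
  linarith

/-- THE DYNAMIC LEMMA (CM.4) -/
theorem cm4 (hF : Frame P Kn Cc c0) (hCc : 0 ≤ Cc)
    (hhot : ∀ J t v w, Kn J t v = Kn J t w → (hot J t v ↔ hot J t w))
    {J G : Finset ι} (hG : ¬ J ⊆ G) (T : ℕ) {Y c : ℕ → Om → ℝ} (hY : ∀ t, Fac (Kn J t) (Y t))
    (hY0 : ∀ t w, P.p w ≠ 0 → 0 ≤ Y t w) (hc : ∀ t < T, Fac (Kn G (t + 1)) (c (t + 1)))
    (hc0 : ∀ t w, P.p w ≠ 0 → 0 ≤ c t w) {ρ ε : ℝ} (hρ : 0 < ρ) (hε : 0 ≤ ε)
    (step : ∀ t < T, ∀ w, P.p w ≠ 0 → pal P Kn hot J t w →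
      Y t w ≤ P.ce (Kn J t) (fun v => Y (t + 1) v + c (t + 1) v) w)
    (small : ∀ J', J' ⊂ J → ∀ t ≤ T, ∀ w, P.p w ≠ 0 → ¬ hot J' t w → pal P Kn hot J' t w →
      P.ce (Kn J' t) (Y t) w ≤ ε) :
    ρ * P.Pr (fun w => ∃ t ≤ T, pal P Kn hot J t w ∧ 2 * ρ ≤ Y t w) ≤
      ε * (1 + 2 ^ J.card + Cc / ρ * ∑ t ∈ range T, P.E (c (t + 1))) := by
  have hJG : J ∩ G ⊂ J := by
    refine Finset.ssubset_iff_subset_ne.2 ⟨Finset.inter_subset_left, fun h => hG ?_⟩
    rw [← h]; exact Finset.inter_subset_right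
  have hJ0 : ∅ ⊂ J := by
    rw [Finset.ssubset_iff_subset_ne]
    refine ⟨Finset.empty_subset _, fun h => hG ?_⟩
    rw [← h]; exact Finset.empty_subset _
  have hpf : ∀ t v w, Kn J t v = Kn J t w → (pal P Kn hot J t v ↔ pal P Kn hot J t w) := fun t v w h =>
    pal_fac hF hhot J t v w h
  have key := c3pot_ae P (Kn J) T 0 Y (fun r => Fin.elim0 r) (pal P Kn hot J) (fun r => Fin.elim0 r) c
    (fun r => Fin.elim0 r) ρ hρ (hF.filt J) hY (fun r => Fin.elim0 r) hpf (fun r => Fin.elim0 r)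
    (fun t w h => pal_anti J t w h) (fun r => Fin.elim0 r) hY0 (fun r => Fin.elim0 r) hc0 (fun r => Fin.elim0 r)
    (fun t ht w hw ha _ => by
      have h2 := step t ht w hw ha
      have e : P.ce (Kn J t) (fun v => ind (pal P Kn hot J t v) * Y (t + 1) v +
          ∑ r : Fin 0, ind ((fun r : Fin 0 => (Fin.elim0 r : ℕ → Om → Prop)) r t v) *
            (fun r : Fin 0 => (Fin.elim0 r : ℕ → Om → ℝ)) r (t + 1) v + c (t + 1) v) w =
          P.ce (Kn J t) (fun v => Y (t + 1) v + c (t + 1) v) w := by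
        unfold FP.ce
        congr 1
        refine P.E_congr (fun v _ => ?_)
        by_cases hv : Kn J t v = Kn J t w
        · have hv2 := ind_of ((hpf t v w hv).2 ha)
          simp only
          rw [ind_of hv, hv2]
          simp
        · simp only
          rw [ind_not hv]; simp
      rw [e]
      simpa using h2)
    (fun r => Fin.elim0 r)
  simp only [Finset.univ_eq_empty, Finset.sum_empty, mul_zero, add_zero, Nat.cast_zero, zero_add, div_one] at key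
  have hsub : ∀ J', J' ⊂ J → ∀ t ≤ T, ∀ w, P.p w ≠ 0 → al P Kn hot J' t w → P.ce (Kn J' t) (Y t) w ≤ ε :=
    fun J' hJ' t ht w hw ha => small J' hJ' t ht w hw (al_not_hot ha) (al_pal ha)
  -- end
  have hend : P.E (fun w => ind (pal P Kn hot J T w) * Y T w) ≤ ε := by
    have h1 : P.E (fun w => ind (pal P Kn hot J T w) * Y T w) ≤ P.E (fun w => ind (al P Kn hot ∅ T w) * Y T w) :=
      P.E_mono (fun w hw => mul_le_mul_of_nonneg_right (ind_mono (fun h => h ∅ hJ0)) (hY0 T w hw))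
    have h2 := E_ind_le P (Z := Kn ∅ T) (b := al P Kn hot ∅ T) (Y := Y T) (ε := ε)
      (fun v w h => al_fac hF hhot ∅ T v w h) (fun w hw ha => hsub ∅ hJ0 T le_rfl w hw ha)
    have h3 := mul_le_mul_of_nonneg_left (P.Pr_le_one (al P Kn hot ∅ T)) hε
    linarith
  -- losses
  have hloss : ∀ t ∈ range T, P.E (fun w => ind (pal P Kn hot J t w ∧ ρ ≤ Y t w) * c (t + 1) w) ≤
      ε * (Cc / ρ) * P.E (c (t + 1)) := by
    intro t ht
    have ht' : t < T := Finset.mem_range.mp ht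
    have h1 : ∀ w, P.p w ≠ 0 → P.ce (Kn G (t + 1)) (fun v => ind (pal P Kn hot J t v ∧ ρ ≤ Y t v)) w ≤
        ε * (Cc / ρ) := by
      intro w hw
      have hfac : Fac (Kn J t) (fun v => ind (pal P Kn hot J t v ∧ ρ ≤ Y t v)) :=
        Fac.ind (fun v v' h => by rw [hY t v v' h, hpf t v v' h])
      refine (hF.child J G t _ (fun _ => ind_nonneg _) hfac w hw).trans ?_
      have h2 := ce_ind_le P (Z := Kn (J ∩ G) t) (a := pal P Kn hot J t) (b := al P Kn hot (J ∩ G) t) (Y := Y t) hρ hε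
        (hY0 t) (fun v h => h _ hJG) (fun v v' h => al_fac hF hhot (J ∩ G) t v v' h)
        (fun v hv ha => hsub (J ∩ G) hJG t ht'.le v hv ha) hw
      calc Cc * P.ce (Kn (J ∩ G) t) (fun v => ind (pal P Kn hot J t v ∧ ρ ≤ Y t v)) w ≤ Cc * (ε / ρ) :=
            mul_le_mul_of_nonneg_left h2 hCc
        _ = ε * (Cc / ρ) := by ring
    exact P.E_mul_le_of_ce (hc t ht') (hc0 (t + 1)) h1
  have hloss' := Finset.sum_le_sum hloss
  rw [← Finset.mul_sum] at hloss'
  -- deaths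
  have hdeath := death_le hF hhot T hY0 (ε := fun _ => ε) (fun _ => hε) small
  have hcard : ∑ J' ∈ J.ssubsets, ε ≤ ε * 2 ^ J.card := by
    rw [Finset.sum_const, nsmul_eq_mul, mul_comm]
    refine mul_le_mul_of_nonneg_left ?_ hε
    have h1 : J.ssubsets.card ≤ J.powerset.card := Finset.card_le_card (Finset.erase_subset _ _)
    rw [Finset.card_powerset] at h1
    exact_mod_cast h1
  have e : ε * (1 + 2 ^ J.card + Cc / ρ * ∑ t ∈ range T, P.E (c (t + 1))) =
      ε + ε * (Cc / ρ) * ∑ t ∈ range T, P.E (c (t + 1)) + ε * 2 ^ J.card := by ring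
  rw [e]
  refine key.trans ?_
  linarith

end

end Pool.Agent.GMM
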