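import Pool.Agent.GMM.PhiSel
import Pool.Agent.GMM.CM4

/-!
# GMM/HotPhi: the dynamic lemma CM.4 for the functional `phi_G` (row CM; helper36)

* `knq x Q J t` = (`x_J`, `Q_t`);
* `MdlI` : full independence of the hidden vertex and the known vertices at every node, irrelevant part of the next node,
  smallest child mass; `MdlI.mdl : Mdl`, `MdlI.frame : Frame (knq x Q) (1 / c0) c0`;
* `cm4_phi` : `ρ P(∃ t ≤ T, parts alive, 2 ρ ≤ phi_G(x_J,Q_t)) ≤ ε (1 + 2^|J| + Cc/ρ (h + h w_(k-1)/w_|G|))` from (SAT*) in the form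
  `small` (informations of admissible families at the points `(x_(J'),Q_t)`, `J' ⊂ J`).
-/

set_option autoImplicit false
set_option linter.unusedSectionVars false

namespace Pool.Agent.GMM

open Finset Pool.Agent.M3 Pool.Agent.GMC
open Pool.Agent.PWZ hiding ip

noncomputable section

variable {Om : Type*} [Fintype Om] {ι : Type*} [Fintype ι] [DecidableEq ι] {χ α : Type*} {κ δ ε φ : ℕ → Type*}

/-- exact vertices of the types in `J` and node -/
def knq (x : ι → Om → χ) (Q : ∀ t, Om → κ t) (J : Finset ι) (t : ℕ) (u : Om) : (ι → Option χ) × κ t := (xr x J u, Q t u)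

/-- what row CM uses of the model -/
structure MdlI (P : FP Om) (a : Om → α) (x : ι → Om → χ) (Q : ∀ t, Om → κ t) (D : ∀ t, Om → δ t)
    (E : ∀ t, Finset ι → Om → ε t) (c0 : ℝ) : Prop where
  filt : Filt Q
  dig : ∀ t, Fac (fun u => (a u, Q t u)) (D t)
  dQ : ∀ t, Fac (Q (t + 1)) (D t)
  next : ∀ t M, Fac (fun u => (xr x M u, D t u, E t M u, Q t u)) (Q (t + 1))
  eQ : ∀ t M, Fac (Q (t + 1)) (E t M)
  indE : ∀ t M, P.CI (Q t) (fun u => (a u, xr x M u)) (E t M)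
  full : ∀ t M M', Disjoint M M' → P.CI (Q t) (fun u => (a u, xr x M u)) (xr x M')
  atom : ∀ J t (S : Om → Prop), (∀ v w, knq x Q J (t + 1) v = knq x Q J (t + 1) w → (S v ↔ S w)) → ∀ w, P.p w ≠ 0 →
    P.ce (knq x Q J t) (fun v => ind (S v)) w ≠ 0 → c0 ≤ P.ce (knq x Q J t) (fun v => ind (S v)) w

variable {P : FP Om} {a : Om → α} {x : ι → Om → χ} {Q : ∀ t, Om → κ t} {D : ∀ t, Om → δ t}
  {E : ∀ t, Finset ι → Om → ε t} {c0 : ℝ}

theorem MdlI.mdl (h : MdlI P a x Q D E c0) : Mdl P a x Q D E where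
  filt := h.filt
  dig := h.dig
  dQ := h.dQ
  next := h.next
  eQ := h.eQ
  indE := h.indE
  ind := fun t M M' hd => by
    have h1 := CI_cond (h.full t M M' hd) (S := xr x M) (fun u v e => by
      simp only [Prod.mk.injEq] at e
      exact e.1.2)
    exact CI_mono h1 ((Fac.fst _ _).trans (Fac.fst _ _)) (Fac.fst _ _)

/-- children -/
theorem ce_child {ν ν' : Type*} {N : Om → ν} {N' : Om → ν'} (hN : Fac N' N) {c0 : ℝ} (hc0 : 0 < c0) {w : Om}
    (hw : P.p w ≠ 0) (hat : c0 ≤ P.ce N (fun v => ind (N' v = N' w)) w) {f : Om → ℝ} (hf : ∀ w, 0 ≤ f w) :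
    P.ce N' f w ≤ 1 / c0 * P.ce N f w := by
  have e1 : P.ce N' f w = P.ce (fun u => (N' u, N u)) f w :=
    P.ce_congr_map ((Fac.refl N').prod hN) (Fac.fst _ _) f w
  rw [e1, ce_pair hw, one_div, ← div_eq_inv_mul]
  have h1 : P.ce N (fun v => ind (N' v = N' w) * f v) w ≤ P.ce N f w := by
    refine P.ce_mono (fun v _ => ?_) w
    have := mul_le_mul_of_nonneg_right (ind_le_one (N' v = N' w)) (hf v)
    rwa [one_mul] at this
  have h2 : 0 ≤ P.ce N f w := P.ce_nonneg (fun v _ => hf v) w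
  exact div_le_div₀ h2 h1 hc0 hat

theorem MdlI.frame (h : MdlI P a x Q D E c0) (hc0 : 0 < c0) : Frame P (knq x Q) (1 / c0) c0 where
  filt := fun J t u v e => by
    simp only [knq, Prod.mk.injEq] at e ⊢
    exact ⟨e.1, h.filt t u v e.2⟩
  mono := fun J J' t hJ u v e => by
    simp only [knq, Prod.mk.injEq] at e ⊢
    exact ⟨xr_mono x hJ u v e.1, e.2⟩
  atom := h.atom
  child := fun J G t f hf0 hf w hw => by
    have hfil : Fac (knq x Q G (t + 1)) (knq x Q G t) := by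
      intro u v e
      simp only [knq, Prod.mk.injEq] at e ⊢
      exact ⟨e.1, h.filt t u v e.2⟩
    have hat : c0 ≤ P.ce (knq x Q G t) (fun v => ind (knq x Q G (t + 1) v = knq x Q G (t + 1) w)) w := by
      refine h.atom G t (fun v => knq x Q G (t + 1) v = knq x Q G (t + 1) w) (fun u v e => by rw [e]) w hw ?_
      exact (ce_ind_pos (P := P) (N := knq x Q G t) (Z := knq x Q G (t + 1)) hw).ne'
    refine (ce_child hfil hc0 hw hat hf0).trans ?_
    refine mul_le_mul_of_nonneg_left (le_of_eq ?_) (by positivity)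
    -- forget the vertices of `G` outside of `J`
    have hci := CI_cond (h.full t J (G \ J) Finset.disjoint_sdiff) (S := xr x (J ∩ G)) (fun u v e => by
      simp only [Prod.mk.injEq] at e
      exact xr_mono x Finset.inter_subset_left u v e.1.2)
    have hff : Fac (fun u => ((a u, xr x J u), (xr x (J ∩ G) u, Q t u))) f := by
      intro u v e
      simp only [Prod.mk.injEq] at e
      exact hf u v (by simp only [knq, Prod.mk.injEq]; exact ⟨e.1.2, e.2.2⟩)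
    have e1 := ce_forget0 hci hff hw
    have e2 : P.ce (knq x Q G t) f w = P.ce (fun u => (xr x (G \ J) u, (xr x (J ∩ G) u, Q t u))) f w := by
      refine P.ce_congr_map ?_ ?_ f w
      · intro u v e
        simp only [knq, Prod.mk.injEq] at e ⊢
        exact ⟨xr_mono x Finset.sdiff_subset u v e.1, xr_mono x Finset.inter_subset_right u v e.1, e.2⟩
      · intro u v e
        simp only [knq, Prod.mk.injEq] at e ⊢
        have h6 := xr_union (x := x) e.1 e.2.1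
        have h7 : G \ J ∪ J ∩ G = G := by
          ext i
          simp only [mem_union, mem_sdiff, mem_inter]
          tauto
        rw [h7] at h6
        exact ⟨h6, e.2.2⟩
    rw [e2, e1]
    rfl

/-- THE DYNAMIC LEMMA for `phi_G` -/
theorem cm4_phi {f : ∀ t, Finset ι → Om → φ t} {Av w aa : ℕ → ℝ} {h : ℝ} {T : ℕ} {L : ℕ → Finset ι → Om → ℕ}
    {fat : ℕ → Finset ι → Om → Prop} (hR : RuleOut P a x Q D f Av w aa h T L fat) (hM : Mdl P a x Q D E) {Cc : ℝ}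
    (hF : Frame P (knq x Q) Cc c0) (hCc : 0 ≤ Cc) {hot : Finset ι → ℕ → Om → Prop}
    (hhot : ∀ J t v u, knq x Q J t v = knq x Q J t u → (hot J t v ↔ hot J t u)) {J G : Finset ι} (hG : ¬ J ⊆ G)
    (hGu : G ≠ univ) {A : ℝ} (hA : 0 ≤ A) {ρ ε : ℝ} (hρ : 0 < ρ) (hε : 0 ≤ ε)
    (small : ∀ J', J' ⊂ J → ∀ t ≤ T, ∀ u, P.p u ≠ 0 → ¬ hot J' t u → pal P (knq x Q) hot J' t u →
      ∀ R, ExtG P a x (Q t) A J G R → ip P (L t G) (fun v => (pk R J (J ∪ G) v, lall (L t) J G v))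
        (fun v => (lt (L t) G v, xr x (J ∪ G) v)) (fun v => (xr x J' v, Q t v)) u ≤ ε) :
    ρ * P.Pr (fun u => ∃ t ≤ T, pal P (knq x Q) hot J t u ∧ 2 * ρ ≤ phi P a x (Q t) (L t) A J G u) ≤
      ε * (1 + 2 ^ J.card + Cc / ρ * (h + h * w (Fintype.card ι - 1) / w G.card)) := by
  have key := cm4 hF hCc hhot hG T (Y := fun t => phi P a x (Q t) (L t) A J G)
    (c := fun t => cG P x Q D L G (t - 1)) (fun t => phi_fac (L t) A J G) (fun t u hu => phi_nonneg hA hu)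
    (fun t _ => cG_fac hM.filt G t) (fun t u hu => cG_nonneg G (t - 1) hu) hρ hε
    (fun t _ u hu _ => hR.phi_next hM hA t hu)
    (fun J' hJ' t ht u hu h1 h2 => ce_phi_le (L t) hJ'.1 hA (small J' hJ' t ht u hu h1 h2))
  refine key.trans (mul_le_mul_of_nonneg_left ?_ hε)
  have h1 := hR.sum_cG hGu
  have h2 : 0 ≤ Cc / ρ := div_nonneg hCc hρ.le
  have h3 := mul_le_mul_of_nonneg_left h1 h2
  have h4 : ∑ t ∈ range T, P.E (cG P x Q D L G (t + 1 - 1)) = ∑ t ∈ range T, P.E (cG P x Q D L G t) := rfl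
  rw [h4]
  linarith

/-- for all label sets at once -/
theorem cm4_phi_all {f : ∀ t, Finset ι → Om → φ t} {Av w aa : ℕ → ℝ} {h : ℝ} {T : ℕ} {L : ℕ → Finset ι → Om → ℕ}
    {fat : ℕ → Finset ι → Om → Prop} (hR : RuleOut P a x Q D f Av w aa h T L fat) (hM : Mdl P a x Q D E) {Cc : ℝ}
    (hF : Frame P (knq x Q) Cc c0) (hCc : 0 ≤ Cc) {hot : Finset ι → ℕ → Om → Prop}
    (hhot : ∀ J t v u, knq x Q J t v = knq x Q J t u → (hot J t v ↔ hot J t u)) {J : Finset ι}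
    (A ρ ε : Finset ι → ℝ) (hA : ∀ G, 0 ≤ A G) (hρ : ∀ G, 0 < ρ G) (hε : ∀ G, 0 ≤ ε G)
    (small : ∀ G, ¬ J ⊆ G → G ≠ univ → ∀ J', J' ⊂ J → ∀ t ≤ T, ∀ u, P.p u ≠ 0 → ¬ hot J' t u →
      pal P (knq x Q) hot J' t u →
      ∀ R, ExtG P a x (Q t) (A G) J G R → ip P (L t G) (fun v => (pk R J (J ∪ G) v, lall (L t) J G v))
        (fun v => (lt (L t) G v, xr x (J ∪ G) v)) (fun v => (xr x J' v, Q t v)) u ≤ ε G) :
    P.Pr (fun u => ∃ t ≤ T, pal P (knq x Q) hot J t u ∧ ∃ G, ¬ J ⊆ G ∧ G ≠ univ ∧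
        2 * ρ G ≤ phi P a x (Q t) (L t) (A G) J G u) ≤
      ∑ G ∈ univ.filter (fun G : Finset ι => ¬ J ⊆ G ∧ G ≠ univ),
        ε G / ρ G * (1 + 2 ^ J.card + Cc / ρ G * (h + h * w (Fintype.card ι - 1) / w G.card)) := by
  have h1 : P.Pr (fun u => ∃ t ≤ T, pal P (knq x Q) hot J t u ∧ ∃ G, ¬ J ⊆ G ∧ G ≠ univ ∧
        2 * ρ G ≤ phi P a x (Q t) (L t) (A G) J G u) ≤
      P.Pr (fun u => ∃ G ∈ univ.filter (fun G : Finset ι => ¬ J ⊆ G ∧ G ≠ univ), ∃ t ≤ T,
        pal P (knq x Q) hot J t u ∧ 2 * ρ G ≤ phi P a x (Q t) (L t) (A G) J G u) := by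
    refine P.Pr_mono (fun u _ => ?_)
    rintro ⟨t, ht, hp, G, h2, h3, h4⟩
    exact ⟨G, Finset.mem_filter.2 ⟨Finset.mem_univ _, h2, h3⟩, t, ht, hp, h4⟩
  refine h1.trans ((P.Pr_ex_le _ _).trans (Finset.sum_le_sum (fun G hG => ?_)))
  obtain ⟨-, h2, h3⟩ := Finset.mem_filter.1 hG
  have h4 := cm4_phi hR hM hF hCc hhot h2 h3 (hA G) (hρ G) (hε G) (small G h2 h3)
  rw [div_mul_eq_mul_div, le_div_iff₀ (hρ G)]
  linarith

end

end Pool.Agent.GMM
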