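import Pool.Agent.GM.RdHyp
import Pool.Agent.GMM.HotPhi

/-!
# GMM/SqMdl: the model of row CM in `Sq`, natural view of the hidden vertex `i` (helper18)

`a = vx i` (exact hidden vertex with its private randomness), types `{j // j ≠ i}`, `xq i j = vx j`, node `Qqn i h t = Qn i h (ex N t)`
(public randomness, exact path of the view, cells of scale `e - (h+3)` of the others), digit `Dq t` (`1` for `t ≥ N`),
`Eq i h t M` = the cells at `t + 1` of the types outside of `M`.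

* `CI_of_indep`, `m_pair_indep`, `m_half`, `ce_ind_m` : tools;
* `sq_mdl : MdlI Pm (vx i) (xq i) (Qqn i h) Dq (Eq i h) ((1/2)^(card ι))`;
* `sq_hat` : the hypothesis `hat` of `cm_rule`; `sq_fair`, `sq_digit` : the digit.
-/

set_option autoImplicit false
set_option linter.unusedSectionVars false

namespace Pool.Agent.GMM

open Finset Pool.Agent.M3
open Pool.Agent.PWZ hiding ip th Dg
open Pool.Agent.M3.Bin (V)
open Pool.Agent.M3.Mod (ex ex_succ ex_top nd_of_dg)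
open Pool.Agent.GM (Sq Pm th nz vx ot Zn Qn sc Dg cl ku uk Pm_ne indep_uk m_cl_le fac_cl fac_nz fac_Dg fac_Dg_Zn fac_Zn_succ
  Dg_val ce_Dg_Kn Kn_eq Qn_eq filt_Qn fac_sc_succ)

noncomputable section

/-! ## tools -/

section tools

variable {Om : Type*} [Fintype Om] {P : FP Om} {κ κ' ν υ υ' : Type*}

/-- mass of a pair of independent variables -/
theorem m_pair_indep {A : Om → υ} {B : Om → υ'} (h : P.Indep A B) {φ : Om → κ} {ψ : Om → κ'} (hφ : Fac A φ)
    (hψ : Fac B ψ) (w : Om) : P.m (fun u => (φ u, ψ u)) w = P.m φ w * P.m ψ w := by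
  unfold FP.m
  rw [← h (fun v => ind (φ v = φ w)) (fun v => ind (ψ v = ψ w)) (Fac.ind fun x y e => by rw [hφ x y e])
    (Fac.ind fun x y e => by rw [hψ x y e])]
  refine P.E_congr fun v _ => ?_
  rw [← ind_and, Prod.mk.injEq]

/-- conditional independence given functions of both parts -/
theorem CI_of_indep {A : Om → υ} {B : Om → υ'} (h : P.Indep A B) {φ : Om → κ} {ψ : Om → κ'} (hφ : Fac A φ)
    (hψ : Fac B ψ) {N : Om → ν} (h1 : Fac N (fun u => (φ u, ψ u))) (h2 : Fac (fun u => (φ u, ψ u)) N) : P.CI N A B := by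
  intro f g hf hg w hw
  rw [P.ce_congr_map h1 h2, P.ce_congr_map h1 h2, P.ce_congr_map h1 h2]
  have hmφ := (P.m_pos φ hw).ne'
  have hmψ := (P.m_pos ψ hw).ne'
  have hiφ : Fac A (fun v => ind (φ v = φ w)) := Fac.ind fun x y e => by rw [hφ x y e]
  have hiψ : Fac B (fun v => ind (ψ v = ψ w)) := Fac.ind fun x y e => by rw [hψ x y e]
  have key : ∀ f g : Om → ℝ, Fac A f → Fac B g → P.E (fun v => ind ((φ v, ψ v) = (φ w, ψ w)) * (f v * g v)) =
      P.E (fun v => ind (φ v = φ w) * f v) * P.E (fun v => ind (ψ v = ψ w) * g v) := by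
    intro f g hf hg
    rw [← h _ _ (hiφ.mul hf) (hiψ.mul hg)]
    refine P.E_congr fun v _ => ?_
    rw [Prod.mk.injEq, ind_and]
    ring
  have kf : P.E (fun v => ind ((φ v, ψ v) = (φ w, ψ w)) * f v) = P.E (fun v => ind (φ v = φ w) * f v) * P.m ψ w := by
    have := key f (fun _ => 1) hf (Fac.const _ _)
    simp only [mul_one] at this
    exact this
  have kg : P.E (fun v => ind ((φ v, ψ v) = (φ w, ψ w)) * g v) = P.m φ w * P.E (fun v => ind (ψ v = ψ w) * g v) := by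
    have := key (fun _ => 1) g (Fac.const _ _) hg
    simp only [mul_one, one_mul] at this
    exact this
  unfold FP.ce
  rw [key f g hf hg, kf, kg, m_pair_indep h hφ hψ]
  field_simp

/-- conditional probability of a class of a finer map -/
theorem ce_ind_m {K' : Om → κ'} {K : Om → κ} (h : Fac K' K) (w : Om) :
    P.ce K (fun v => ind (K' v = K' w)) w = P.m K' w / P.m K w := by
  unfold FP.ce FP.m
  congr 1
  refine P.E_congr fun v _ => ?_
  show ind (K v = K w) * ind (K' v = K' w) = ind (K' v = K' w)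
  by_cases hv : K' v = K' w
  · rw [ind_of hv, ind_of (h v w hv), one_mul]
  · rw [ind_not hv, mul_zero]

/-- a fair digit halves the mass -/
theorem m_half {D : Om → ℝ} (hD : ∀ w, D w = 1 ∨ D w = -1) {K' : Om → κ'} {K : Om → κ} (h : Fac K' K)
    (hKD : Fac K' D) (hK' : Fac (fun u => (K u, D u)) K') {w : Om} (hw : P.p w ≠ 0) (fair : P.ce K D w = 0) :
    P.m K w = 2 * P.m K' w := by
  have hm := P.m_pos K hw
  have h1 : P.E (fun v => ind (K v = K w) * D v) = 0 := by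
    unfold FP.ce at fair
    rcases div_eq_zero_iff.1 fair with h | h
    · exact h
    · exact absurd h hm.ne'
  have h2 : P.m K' w = P.E (fun v => (1 / 2) * ind (K v = K w) + (D w / 2) * (ind (K v = K w) * D v)) := by
    unfold FP.m
    refine P.E_congr fun v _ => ?_
    by_cases hK : K v = K w
    · rw [ind_of hK]
      by_cases hd : D v = D w
      · rw [ind_of (hK' v w (Prod.ext hK hd)), hd]
        rcases hD w with h | h <;> rw [h] <;> norm_num
      · rw [ind_not (fun h => hd (hKD v w h))]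
        rcases hD v with h | h <;> rcases hD w with h' | h' <;> rw [h, h'] at hd ⊢ <;>
          first | exact absurd rfl hd | norm_num
    · rw [ind_not hK, ind_not (fun h' => hK (h v w h'))]; ring
  rw [h2, FP.E_add, FP.E_smul, FP.E_smul, h1]
  unfold FP.m
  ring

end tools

/-! ## the instance -/

section inst

variable {k N : ℕ} {ι Θ P : Type} [Fintype ι] [DecidableEq ι]

/-- the known vertices -/
def xq (i : ι) (j : {j : ι // j ≠ i}) (ω : Sq k N ι Θ P) : P × V k := vx j.1 ω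

/-- the node -/
def Qqn (i : ι) (h : ℕ) (t : ℕ) (ω : Sq k N ι Θ P) : Θ × (V k × ℕ) × ({j : ι // j ≠ i} → V k) := Qn i h (ex N t) ω

/-- the digit -/
def Dq (t : ℕ) (ω : Sq k N ι Θ P) : ℝ := if t < N then Dg (ex N (t + 1)) ω else 1

/-- the cells of the next level of the types outside of `M` -/
def Eq' (i : ι) (h : ℕ) (t : ℕ) (M : Finset {j : ι // j ≠ i}) (ω : Sq k N ι Θ P) : {j : ι // j ≠ i} → Option (V k) :=
  fun j => if j ∈ M then none else some (sc h (ex N (t + 1)) j.1 ω)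

/-- `i` and the types of `J`, as vertices -/
def UJ (i : ι) (J : Finset {j : ι // j ≠ i}) : Finset ι :=
  open Classical in univ.filter fun j => ∀ h : j ≠ i, (⟨j, h⟩ : {j : ι // j ≠ i}) ∈ J

theorem mem_UJ_self (i : ι) (J : Finset {j : ι // j ≠ i}) : i ∈ UJ i J := by
  unfold UJ
  rw [Finset.mem_filter]
  exact ⟨Finset.mem_univ _, fun h => absurd rfl h⟩

theorem mem_UJ (i : ι) (J : Finset {j : ι // j ≠ i}) (j : {j : ι // j ≠ i}) : j.1 ∈ UJ i J ↔ j ∈ J := by
  unfold UJ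
  rw [Finset.mem_filter]
  exact ⟨fun h => h.2 j.2, fun h => ⟨Finset.mem_univ _, fun _ => h⟩⟩

theorem Eq_eq (i : ι) (h t : ℕ) (M : Finset {j : ι // j ≠ i}) {v w : Sq k N ι Θ P} :
    Eq' i h t M v = Eq' i h t M w ↔ ∀ j ∉ M, sc h (ex N (t + 1)) j.1 v = sc h (ex N (t + 1)) j.1 w := by
  constructor
  · intro e j hj
    have h1 := congrFun e j
    simp only [Eq', if_neg hj, Option.some.injEq] at h1
    exact h1
  · intro e
    funext j
    unfold Eq'
    by_cases hj : j ∈ M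
    · rw [if_pos hj, if_pos hj]
    · rw [if_neg hj, if_neg hj, e j hj]

theorem Dq_val (t : ℕ) (ω : Sq k N ι Θ P) : Dq t ω = 1 ∨ Dq t ω = -1 := by
  unfold Dq
  by_cases ht : t < N
  · rw [if_pos ht]; exact Dg_val _ _
  · rw [if_neg ht]; exact Or.inl rfl

theorem Zn_next (i : ι) (t : ℕ) {v w : Sq k N ι Θ P} (hD : Dq t v = Dq t w) (hZ : Zn i (ex N t) v = Zn i (ex N t) w) :
    Zn i (ex N (t + 1)) v = Zn i (ex N (t + 1)) w := by
  by_cases ht : t < N
  · unfold Dq at hD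
    rw [if_pos ht, if_pos ht] at hD
    rw [ex_succ ht] at hZ
    exact nd_of_dg hZ hD
  · rw [ex_top (by omega : N ≤ t + 1), ← ex_top (by omega : N ≤ t)]
    exact hZ

section law

variable [Fintype Θ] [Nonempty Θ] [Fintype P] [Nonempty P]

theorem xq_eq (i : ι) (J : Finset {j : ι // j ≠ i}) {v w : Sq k N ι Θ P} :
    xr (xq i) J v = xr (xq i) J w ↔ ∀ j ∈ J, vx j.1 v = vx j.1 w := sel_eq

theorem filt_Qq (i : ι) (h : ℕ) : Filt (Qqn (k := k) (N := N) (Θ := Θ) (P := P) i h) := filt_Qn i h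

/-- independence of the hidden vertex and the known vertices given the node -/
theorem q_full (i : ι) (h t : ℕ) (M M' : Finset {j : ι // j ≠ i}) (hd : Disjoint M M') :
    (Pm (k := k) (N := N) (ι := ι) (Θ := Θ) (P := P)).CI (Qqn i h t) (fun u => (vx i u, xr (xq i) M u)) (xr (xq i) M') := by
  classical
  set U := UJ i M'ᶜ with hU
  have hi : i ∈ U := mem_UJ_self i _
  have hj : ∀ j : {j : ι // j ≠ i}, j.1 ∈ U ↔ j ∉ M' := fun j => by rw [hU, mem_UJ, Finset.mem_compl]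
  have h0 := (indep_uk (k := k) (N := N) (Θ := Θ) (P := P) U).symm
  have hci := CI_of_indep h0
    (φ := fun ω : Sq k N ι Θ P => (th ω, Zn i (ex N t) ω,
      fun j : {j : ι // j ≠ i} => if j.1 ∈ U then some (sc h (ex N t) j.1 ω) else none))
    (ψ := fun ω : Sq k N ι Θ P => fun j : {j : ι // j ≠ i} => if j.1 ∈ U then none else some (sc h (ex N t) j.1 ω))
    (N := Qqn i h t) ?_ ?_ ?_ ?_
  · refine CI_mono hci ?_ ?_
    · intro u v e
      simp only [Prod.mk.injEq] at e ⊢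
      refine ⟨congrFun e.1.2.1 ⟨i, hi⟩, (xq_eq i M).2 fun j hjM => ?_⟩
      have h1 : j.1 ∈ U := (hj j).2 fun h2 => (Finset.disjoint_left.1 hd hjM h2)
      exact congrFun e.1.2.1 ⟨j.1, h1⟩
    · intro u v e
      simp only [Prod.mk.injEq] at e
      refine (xq_eq i M').2 fun j hjM => ?_
      have h1 : j.1 ∉ U := fun h2 => (hj j).1 h2 hjM
      exact congrFun e.1 ⟨j.1, h1⟩
  · intro u v e
    simp only [Prod.mk.injEq] at e ⊢
    refine ⟨e.1, ?_, ?_⟩
    · have h1 : vx i u = vx i v := congrFun e.2.1 ⟨i, hi⟩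
      unfold Zn
      rw [h1, e.2.2]
    · funext j
      by_cases hjU : j.1 ∈ U
      · have h1 : vx j.1 u = vx j.1 v := congrFun e.2.1 ⟨j.1, hjU⟩
        rw [if_pos hjU, if_pos hjU]
        unfold sc
        rw [h1]
      · rw [if_neg hjU, if_neg hjU]
  · intro u v e
    funext j
    by_cases hjU : j.1 ∈ U
    · simp only [if_pos hjU]
    · have h1 : vx j.1 u = vx j.1 v := congrFun e ⟨j.1, hjU⟩
      simp only [if_neg hjU]
      unfold sc
      rw [h1]
  · intro u v e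
    have e' := Qn_eq.1 e
    simp only [Prod.mk.injEq]
    refine ⟨⟨e'.1, e'.2.1, ?_⟩, ?_⟩
    · funext j
      rw [e'.2.2 j.1 j.2]
    · funext j
      rw [e'.2.2 j.1 j.2]
  · intro u v e
    simp only [Prod.mk.injEq] at e
    refine Qn_eq.2 ⟨e.1.1, e.1.2.1, fun a ha => ?_⟩
    by_cases haU : a ∈ U
    · have h1 := congrFun e.1.2.2 ⟨a, ha⟩
      simp only [if_pos haU, Option.some.injEq] at h1
      exact h1
    · have h1 := congrFun e.2 ⟨a, ha⟩
      simp only [if_neg haU, Option.some.injEq] at h1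
      exact h1

/-- (exact vertices of `J`, node) as a pair of independent parts -/
theorem knq_split (i : ι) (h : ℕ) (J : Finset {j : ι // j ≠ i}) (t : ℕ) :
    Fac (knq (xq i) (Qqn i h) J t) (fun ω : Sq k N ι Θ P => ((th ω, Zn i (ex N t) ω, xr (xq i) J ω),
      cl (UJ i J) (ex N t - (h + 3)) ω)) ∧
    Fac (fun ω : Sq k N ι Θ P => ((th ω, Zn i (ex N t) ω, xr (xq i) J ω), cl (UJ i J) (ex N t - (h + 3)) ω))
      (knq (xq i) (Qqn i h) J t) := by
  constructor
  · intro u v e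
    simp only [knq, Prod.mk.injEq] at e ⊢
    have e' := Qn_eq.1 e.2
    refine ⟨⟨e'.1, e'.2.1, e.1⟩, funext fun j => ?_⟩
    exact e'.2.2 j.1 fun h1 => j.2 (by rw [h1]; exact mem_UJ_self i J)
  · intro u v e
    simp only [knq, Prod.mk.injEq] at e ⊢
    refine ⟨e.1.2.2, Qn_eq.2 ⟨e.1.1, e.1.2.1, fun a ha => ?_⟩⟩
    by_cases haU : a ∈ UJ i J
    · have h1 := (xq_eq i J).1 e.1.2.2 ⟨a, ha⟩ ((mem_UJ i J ⟨a, ha⟩).1 haU)
      unfold sc
      rw [h1]
    · exact congrFun e.2 ⟨a, haU⟩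

theorem fac_first (i : ι) (J : Finset {j : ι // j ≠ i}) (e : ℕ) :
    Fac (fun ω : Sq k N ι Θ P => (th ω, ku (UJ i J) ω, nz ω)) (fun ω => (th ω, Zn i e ω, xr (xq i) J ω)) := by
  intro u v e
  simp only [Prod.mk.injEq] at e ⊢
  refine ⟨e.1, ?_, (xq_eq i J).2 fun j hj => congrFun e.2.1 ⟨j.1, (mem_UJ i J j).2 hj⟩⟩
  have h1 : vx i u = vx i v := congrFun e.2.1 ⟨i, mem_UJ_self i J⟩
  unfold Zn
  rw [h1, e.2.2]

theorem fac_second (U : Finset ι) (r : ℕ) : Fac (uk (k := k) (N := N) (Θ := Θ) (P := P) U) (cl U r) := by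
  intro u v e
  funext j
  have h1 : vx j.1 u = vx j.1 v := congrFun e j
  unfold cl
  rw [h1]

theorem card_le (i : ι) (J : Finset {j : ι // j ≠ i}) : (UJ i J)ᶜ.card + 1 ≤ Fintype.card ι := by
  have h1 := Finset.card_compl_add_card (UJ i J)
  have h2 : 0 < (UJ i J).card := Finset.card_pos.2 ⟨i, mem_UJ_self i J⟩
  omega

/-- the cells: at most one halving for each type -/
theorem m_cells (hN : N ≤ k) (i : ι) (J : Finset {j : ι // j ≠ i}) (h t : ℕ) (ω : Sq k N ι Θ P) :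
    Pm.m (cl (UJ i J) (ex N t - (h + 3))) ω ≤
      2 ^ (UJ i J)ᶜ.card * Pm.m (cl (UJ i J) (ex N (t + 1) - (h + 3))) ω := by
  have h1 : ex N t - (h + 3) ≤ k := by unfold ex; omega
  have h2 : ex N (t + 1) - (h + 3) ≤ ex N t - (h + 3) := by unfold ex; omega
  refine (m_cl_le (UJ i J) h1 h2 ω).trans (mul_le_mul_of_nonneg_right ?_ (FP.m_nonneg _ _ _))
  refine pow_le_pow_left₀ (by positivity) ?_ _
  calc (2 : ℝ) ^ (ex N t - (h + 3) - (ex N (t + 1) - (h + 3))) ≤ 2 ^ 1 :=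
        pow_le_pow_right₀ (by norm_num) (by unfold ex; omega)
    _ = 2 := pow_one _

theorem q_fair (i : ι) {t : ℕ} (ht : t < N) {κ : Type*} {X : Sq k N ι Θ P → κ}
    (hX : Fac (fun ω : Sq k N ι Θ P => (th ω, Zn i (ex N t) ω, ot i ω)) X) (ω : Sq k N ι Θ P) :
    Pm.ce X (Dq t) ω = 0 := by
  have h1 : (Dq t : Sq k N ι Θ P → ℝ) = Dg (ex N (t + 1)) := by
    funext ω
    unfold Dq
    rw [if_pos ht]
  rw [h1]
  rw [ex_succ ht] at hX
  exact ce_Dg_Kn i (by unfold ex; omega) hX ω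

/-- the path and the known vertices -/
theorem m_first (i : ι) (J : Finset {j : ι // j ≠ i}) (t : ℕ) (ω : Sq k N ι Θ P) :
    Pm.m (fun ω => (th ω, Zn i (ex N t) ω, xr (xq i) J ω)) ω ≤
      2 * Pm.m (fun ω => (th ω, Zn i (ex N (t + 1)) ω, xr (xq i) J ω)) ω := by
  by_cases ht : t < N
  · refine le_of_eq (m_half (D := Dq t) (Dq_val t) ?_ ?_ ?_ (Pm_ne ω) (q_fair i ht ?_ ω))
    · intro u v e
      simp only [Prod.mk.injEq] at e ⊢
      refine ⟨e.1, ?_, e.2.2⟩
      rw [ex_succ ht]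
      exact fac_Zn_succ i _ u v e.2.1
    · intro u v e
      simp only [Prod.mk.injEq] at e
      unfold Dq
      rw [if_pos ht, if_pos ht]
      exact fac_Dg_Zn i _ u v e.2.1
    · intro u v e
      simp only [Prod.mk.injEq] at e ⊢
      exact ⟨e.1.1, Zn_next i t e.2 e.1.2.1, e.1.2.2⟩
    · intro u v e
      simp only [Prod.mk.injEq] at e ⊢
      exact ⟨e.1, e.2.1, (xq_eq i J).2 fun j _ => congrFun e.2.2 j⟩
  · have h1 : ex N t = ex N (t + 1) := by unfold ex; omega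
    rw [h1]
    have h2 := FP.m_nonneg (Pm (k := k) (N := N) (ι := ι) (Θ := Θ) (P := P))
      (fun ω => (th ω, Zn i (ex N (t + 1)) ω, xr (xq i) J ω)) ω
    linarith

theorem half_pow (n m : ℕ) (h : n + 1 ≤ m) : ((1 : ℝ) / 2) ^ m * (2 * 2 ^ n) ≤ 1 := by
  have h1 : ((1 : ℝ) / 2) ^ m ≤ (1 / 2) ^ (n + 1) := pow_le_pow_of_le_one (by norm_num) (by norm_num) h
  have h2 : ((1 : ℝ) / 2) ^ (n + 1) * (2 * 2 ^ n) = 1 := by
    rw [one_div, inv_pow, ← pow_succ']
    exact inv_mul_cancel₀ (by positivity)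
  calc ((1 : ℝ) / 2) ^ m * (2 * 2 ^ n) ≤ (1 / 2) ^ (n + 1) * (2 * 2 ^ n) := mul_le_mul_of_nonneg_right h1 (by positivity)
    _ = 1 := h2

/-- the next class of (`x_J`, node) -/
theorem q_child (hN : N ≤ k) (i : ι) (h : ℕ) (J : Finset {j : ι // j ≠ i}) (t : ℕ) (ω : Sq k N ι Θ P) :
    (1 / 2 : ℝ) ^ Fintype.card ι ≤ Pm.ce (knq (xq i) (Qqn i h) J t)
      (fun v => ind (knq (xq i) (Qqn i h) J (t + 1) v = knq (xq i) (Qqn i h) J (t + 1) ω)) ω := by
  have hfil : Fac (knq (xq (k := k) (N := N) (Θ := Θ) (P := P) i) (Qqn i h) J (t + 1)) (knq (xq i) (Qqn i h) J t) := by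
    intro u v e
    simp only [knq, Prod.mk.injEq] at e ⊢
    exact ⟨e.1, filt_Qq i h t u v e.2⟩
  rw [ce_ind_m hfil]
  have h0 := (indep_uk (k := k) (N := N) (Θ := Θ) (P := P) (UJ i J)).symm
  have hs := knq_split (k := k) (N := N) (Θ := Θ) (P := P) i h J
  have e1 : ∀ t, Pm.m (knq (xq i) (Qqn i h) J t) ω = Pm.m (fun ω => (th ω, Zn i (ex N t) ω, xr (xq i) J ω)) ω *
      Pm.m (cl (UJ i J) (ex N t - (h + 3))) ω := by
    intro t
    rw [← m_pair_indep h0 (fac_first i J _) (fac_second _ _) ω]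
    exact Pm.m_congr (hs t).1 (hs t).2 ω
  have hpos := (Pm (k := k) (N := N) (ι := ι) (Θ := Θ) (P := P)).m_pos (knq (xq i) (Qqn i h) J t) (Pm_ne ω)
  rw [le_div_iff₀ hpos]
  rw [e1, e1]
  have h1 := m_first (k := k) (N := N) (Θ := Θ) (P := P) i J t ω
  have h2 := m_cells hN i J h t ω
  have h3 := FP.m_nonneg (Pm (k := k) (N := N) (ι := ι) (Θ := Θ) (P := P))
    (fun ω => (th ω, Zn i (ex N (t + 1)) ω, xr (xq i) J ω)) ω
  have h4 := FP.m_nonneg (Pm (k := k) (N := N) (ι := ι) (Θ := Θ) (P := P)) (cl (UJ i J) (ex N t - (h + 3))) ω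
  have h5 := FP.m_nonneg (Pm (k := k) (N := N) (ι := ι) (Θ := Θ) (P := P)) (cl (UJ i J) (ex N (t + 1) - (h + 3))) ω
  calc _ ≤ (1 / 2 : ℝ) ^ Fintype.card ι * ((2 * Pm.m (fun ω => (th ω, Zn i (ex N (t + 1)) ω, xr (xq i) J ω)) ω) *
        (2 ^ (UJ i J)ᶜ.card * Pm.m (cl (UJ i J) (ex N (t + 1) - (h + 3))) ω)) := by
        refine mul_le_mul_of_nonneg_left (mul_le_mul h1 h2 h4 (by positivity)) (by positivity)
    _ = ((1 / 2 : ℝ) ^ Fintype.card ι * (2 * 2 ^ (UJ i J)ᶜ.card)) *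
        (Pm.m (fun ω => (th ω, Zn i (ex N (t + 1)) ω, xr (xq i) J ω)) ω *
          Pm.m (cl (UJ i J) (ex N (t + 1) - (h + 3))) ω) := by ring
    _ ≤ 1 * (Pm.m (fun ω => (th ω, Zn i (ex N (t + 1)) ω, xr (xq i) J ω)) ω *
          Pm.m (cl (UJ i J) (ex N (t + 1) - (h + 3))) ω) :=
        mul_le_mul_of_nonneg_right (half_pow _ _ (card_le i J)) (mul_nonneg h3 h5)
    _ = _ := one_mul _

/-- the hypothesis `hat` of `cm_rule` -/
theorem sq_hat (hN : N ≤ k) (i : ι) (h : ℕ) (t : ℕ) (I : Finset {j : ι // j ≠ i}) (u : Sq k N ι Θ P)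
    (_ : Pm.p u ≠ 0) : (1 / 2 : ℝ) ^ Fintype.card ι ≤
      Pm.ce (fun u => (vx i u, xr (xq i) I u, Qqn i h t u)) (fun v => ind (Qqn i h (t + 1) v = Qqn i h (t + 1) u)) u := by
  set K : ℕ → Sq k N ι Θ P → _ := fun t u => (vx i u, xr (xq i) I u, Qqn i h t u) with hK
  have hfil : Fac (K (t + 1)) (K t) := by
    intro u v e
    simp only [hK, Prod.mk.injEq] at e ⊢
    exact ⟨e.1, e.2.1, filt_Qq i h t u v e.2.2⟩
  have h0 : Pm.ce (K t) (fun v => ind (K (t + 1) v = K (t + 1) u)) u ≤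
      Pm.ce (K t) (fun v => ind (Qqn i h (t + 1) v = Qqn i h (t + 1) u)) u := by
    refine FP.ce_mono _ (fun v _ => ind_mono fun e => ?_) u
    simp only [hK, Prod.mk.injEq] at e
    exact e.2.2
  refine le_trans ?_ h0
  rw [ce_ind_m hfil]
  -- both classes: (public randomness, x_i, noise, x_I) and cells
  set F : Sq k N ι Θ P → _ := fun ω => (th ω, vx i ω, nz ω, xr (xq i) I ω) with hF
  have hex : ∀ t, ex N t ≤ k := fun t => by unfold ex; omega
  have hs1 : ∀ t, Fac (K t) (fun ω => (F ω, cl (UJ i I) (ex N t - (h + 3)) ω)) := by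
    intro t u v e
    simp only [hK, hF, Prod.mk.injEq] at e ⊢
    have e' := Qn_eq.1 e.2.2
    refine ⟨⟨e'.1, e.1, fac_nz i (hex t) u v (Prod.ext e.1 e'.2.1), e.2.1⟩, funext fun j => ?_⟩
    exact e'.2.2 j.1 fun h1 => j.2 (by rw [h1]; exact mem_UJ_self i I)
  have hs2 : ∀ t, Fac (fun ω => (F ω, cl (UJ i I) (ex N t - (h + 3)) ω)) (K t) := by
    intro t u v e
    simp only [hK, hF, Prod.mk.injEq] at e ⊢
    refine ⟨e.1.2.1, e.1.2.2.2, Qn_eq.2 ⟨e.1.1, ?_, fun a ha => ?_⟩⟩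
    · unfold Zn
      rw [e.1.2.1, e.1.2.2.1]
    · by_cases haU : a ∈ UJ i I
      · have h1 := (xq_eq i I).1 e.1.2.2.2 ⟨a, ha⟩ ((mem_UJ i I ⟨a, ha⟩).1 haU)
        unfold sc
        rw [h1]
      · exact congrFun e.2 ⟨a, haU⟩
  have hF1 : Fac (fun ω : Sq k N ι Θ P => (th ω, ku (UJ i I) ω, nz ω)) F := by
    intro u v e
    simp only [hF, Prod.mk.injEq] at e ⊢
    exact ⟨e.1, congrFun e.2.1 ⟨i, mem_UJ_self i I⟩, e.2.2,
      (xq_eq i I).2 fun j hj => congrFun e.2.1 ⟨j.1, (mem_UJ i I j).2 hj⟩⟩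
  have hi := (indep_uk (k := k) (N := N) (Θ := Θ) (P := P) (UJ i I)).symm
  have e1 : ∀ t, Pm.m (K t) u = Pm.m F u * Pm.m (cl (UJ i I) (ex N t - (h + 3))) u := by
    intro t
    rw [← m_pair_indep hi hF1 (fac_second _ _) u]
    exact Pm.m_congr (hs1 t) (hs2 t) u
  have hpos := (Pm (k := k) (N := N) (ι := ι) (Θ := Θ) (P := P)).m_pos (K t) (Pm_ne u)
  rw [le_div_iff₀ hpos, e1, e1]
  have h2 := m_cells hN i I h t u
  have h3 := FP.m_nonneg (Pm (k := k) (N := N) (ι := ι) (Θ := Θ) (P := P)) F u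
  have h5 := FP.m_nonneg (Pm (k := k) (N := N) (ι := ι) (Θ := Θ) (P := P)) (cl (UJ i I) (ex N (t + 1) - (h + 3))) u
  have h6 := half_pow _ _ (card_le i I)
  have h7 : (1 / 2 : ℝ) ^ Fintype.card ι * 2 ^ (UJ i I)ᶜ.card ≤ 1 := by
    have h8 : (0 : ℝ) ≤ (1 / 2 : ℝ) ^ Fintype.card ι * 2 ^ (UJ i I)ᶜ.card := by positivity
    linarith
  calc _ ≤ (1 / 2 : ℝ) ^ Fintype.card ι * (Pm.m F u *
        (2 ^ (UJ i I)ᶜ.card * Pm.m (cl (UJ i I) (ex N (t + 1) - (h + 3))) u)) :=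
        mul_le_mul_of_nonneg_left (mul_le_mul_of_nonneg_left h2 h3) (by positivity)
    _ = ((1 / 2 : ℝ) ^ Fintype.card ι * 2 ^ (UJ i I)ᶜ.card) *
        (Pm.m F u * Pm.m (cl (UJ i I) (ex N (t + 1) - (h + 3))) u) := by ring
    _ ≤ 1 * (Pm.m F u * Pm.m (cl (UJ i I) (ex N (t + 1) - (h + 3))) u) :=
        mul_le_mul_of_nonneg_right h7 (mul_nonneg h3 h5)
    _ = _ := one_mul _

/-- THE MODEL OF ROW CM in `Sq` -/
theorem sq_mdl (hN : N ≤ k) (i : ι) (h : ℕ) :
    MdlI (Pm : FP (Sq k N ι Θ P)) (vx i) (xq i) (Qqn i h) Dq (Eq' i h) ((1 / 2 : ℝ) ^ Fintype.card ι) where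
  filt := filt_Qq i h
  dig := by
    intro t u v e
    simp only [Prod.mk.injEq] at e
    have e' := Qn_eq.1 e.2
    unfold Dq
    by_cases ht : t < N
    · rw [if_pos ht, if_pos ht]
      exact fac_Dg i (e := ex N t) (by unfold ex; omega) _ u v (Prod.ext e.1 e'.2.1)
    · rw [if_neg ht, if_neg ht]
  dQ := by
    intro t u v e
    have e' := Qn_eq.1 e
    unfold Dq
    by_cases ht : t < N
    · rw [if_pos ht, if_pos ht]
      exact fac_Dg_Zn i _ u v e'.2.1
    · rw [if_neg ht, if_neg ht]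
  next := by
    intro t M u v e
    simp only [Prod.mk.injEq] at e
    have e' := Qn_eq.1 e.2.2.2
    refine Qn_eq.2 ⟨e'.1, Zn_next i t e.2.1 e'.2.1, fun a ha => ?_⟩
    by_cases haM : (⟨a, ha⟩ : {j : ι // j ≠ i}) ∈ M
    · have h1 := (xq_eq i M).1 e.1 ⟨a, ha⟩ haM
      unfold sc
      rw [h1]
    · exact (Eq_eq i h t M).1 e.2.2.1 ⟨a, ha⟩ haM
  eQ := by
    intro t M u v e
    have e' := Qn_eq.1 e
    exact (Eq_eq i h t M).2 fun j _ => e'.2.2 j.1 j.2
  indE := by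
    intro t M
    refine CI_mono (q_full i h t M Mᶜ disjoint_compl_right) (Fac.fst _ _) ?_
    intro u v e
    simp only [Prod.mk.injEq] at e
    refine (Eq_eq i h t M).2 fun j hj => ?_
    have h1 := (xq_eq i Mᶜ).1 e.1 j (Finset.mem_compl.2 hj)
    unfold sc
    rw [h1]
  full := fun t M M' hd => q_full i h t M M' hd
  atom := by
    intro J t S hS w _ hne
    -- a point of the class in `S`
    obtain ⟨v, hv1, hv2⟩ : ∃ v, knq (xq i) (Qqn i h) J t v = knq (xq i) (Qqn i h) J t w ∧ S v := by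
      by_contra hcon
      push Not at hcon
      refine hne ?_
      have h1 : Pm.ce (knq (xq i) (Qqn i h) J t) (fun v => ind (S v)) w =
          Pm.ce (knq (xq i) (Qqn i h) J t) (fun _ => (0 : ℝ)) w :=
        ce_congr_cls (fun v _ hv => ind_not (hcon v hv))
      rw [h1]
      exact Pm.ce_const _ 0 (Pm_ne w)
    refine (q_child hN i h J t v).trans ?_
    have h2 : Pm.ce (knq (xq i) (Qqn i h) J t) (fun u => ind (S u)) v =
        Pm.ce (knq (xq i) (Qqn i h) J t) (fun u => ind (S u)) w := Pm.ce_fac _ _ _ _ hv1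
    rw [← h2]
    refine FP.ce_mono _ (fun u _ => ind_mono fun e => ?_) v
    exact (hS u v e).2 hv2

/-- the digit is fair given the known vertices and the node -/
theorem sq_fair (i : ι) (h : ℕ) {t : ℕ} (ht : t < N) (w : Sq k N ι Θ P) :
    Pm.ce (fun u => (xr (xq i) univ u, Qqn i h t u)) (Dq t) w = 0 := by
  refine q_fair i ht ?_ w
  intro u v e
  simp only [Prod.mk.injEq] at e ⊢
  refine ⟨(xq_eq i univ).2 fun j _ => congrFun e.2.2 j, Qn_eq.2 ⟨e.1, e.2.1, fun a ha => ?_⟩⟩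
  have h1 : vx a u = vx a v := congrFun e.2.2 ⟨a, ha⟩
  unfold sc
  rw [h1]

end law

end inst

end

end Pool.Agent.GMM
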