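import Pool.Agent.GMM.SqMdl
import Pool.Agent.GM.TransferN

/-!
# GMM/SqCold: the classes of row CM and the natural classes of `Sq`; coldness of the proper subsets (helper18)

* `ce_knq` : the class `knq (xq i) (Qqn i hh) J t` = `Nk i (im J) hh (ex N t)`; `ce_knq_univ` : all known = `Kn i (ex N t)`;
* `ce_KJ_knq`, `ce_KJ_Nk` : the classes `KJ i hh J (ex N t)` of `GM/RdHyp`;
* `knq_pair` : probability that the pair `{a, b}` is `T`-hot (theorem C2);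
* `knq_single` : empty set and one vertex: rarity, at every point.
-/

set_option autoImplicit false
set_option linter.unusedSectionVars false

namespace Pool.Agent.GMM

open Finset Pool.Agent.M3
open Pool.Agent.PWZ hiding ip th Dg
open Pool.Agent.M3.Bin (V)
open Pool.Agent.M3.Mod (ex)
open Pool.Agent.GM

noncomputable section

variable {k N : ℕ} {ι Θ P : Type} [Fintype ι] [DecidableEq ι]

/-- the types of `J` as vertices -/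
def im {i : ι} (J : Finset {j : ι // j ≠ i}) : Finset ι := J.map (Function.Embedding.subtype _)

theorem mem_im {i : ι} {J : Finset {j : ι // j ≠ i}} {j : ι} : j ∈ im J ↔ ∃ h : j ≠ i, (⟨j, h⟩ : {j : ι // j ≠ i}) ∈ J := by
  unfold im
  rw [Finset.mem_map]
  constructor
  · rintro ⟨a, ha, rfl⟩
    exact ⟨a.2, ha⟩
  · rintro ⟨h, ha⟩
    exact ⟨_, ha, rfl⟩

theorem im_ne {i : ι} {J : Finset {j : ι // j ≠ i}} : i ∉ im J := by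
  rw [mem_im]
  exact fun ⟨h, _⟩ => h rfl

theorem im_pair {i : ι} (a b : {j : ι // j ≠ i}) : im ({a, b} : Finset {j : ι // j ≠ i}) = {a.1, b.1} := by
  ext j
  rw [mem_im, Finset.mem_insert, Finset.mem_singleton]
  constructor
  · rintro ⟨h, ha⟩
    rw [Finset.mem_insert, Finset.mem_singleton] at ha
    rcases ha with ha | ha
    · exact Or.inl (congrArg Subtype.val ha)
    · exact Or.inr (congrArg Subtype.val ha)
  · rintro (rfl | rfl)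
    · exact ⟨a.2, by simp⟩
    · exact ⟨b.2, by simp⟩

section law

variable [Fintype Θ] [Nonempty Θ] [Fintype P] [Nonempty P]

/-- the classes of row CM are the natural classes -/
theorem ce_knq (i : ι) (hh : ℕ) (J : Finset {j : ι // j ≠ i}) (t : ℕ) (f : Sq k N ι Θ P → ℝ) (ω : Sq k N ι Θ P) :
    Pm.ce (knq (xq i) (Qqn i hh) J t) f ω = Pm.ce (Nk i (im J) hh (ex N t)) f ω := by
  refine FP.ce_congr_map _ ?_ ?_ f ω
  · intro u v e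
    simp only [knq, Prod.mk.injEq] at e
    have e' := Qn_eq.1 e.2
    have e1 := (xq_eq i J).1 e.1
    unfold Nk Yk
    refine Prod.ext e'.1 (Prod.ext e'.2.1 (Prod.ext (funext fun j => ?_) (funext fun j => ?_)))
    · have hj := Finset.mem_erase.1 j.2
      have hj2 : j.1 ∈ im J := (Finset.mem_insert.1 hj.2).resolve_left hj.1
      obtain ⟨h1, h2⟩ := mem_im.1 hj2
      exact e1 ⟨j.1, h1⟩ h2
    · have hji : j.1 ≠ i := fun h => j.2 (Finset.mem_insert.2 (Or.inl h))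
      exact e'.2.2 j.1 hji
  · intro u v e
    unfold Nk Yk at e
    simp only [Prod.mk.injEq] at e
    simp only [knq, Prod.mk.injEq]
    refine ⟨(xq_eq i J).2 fun j hj => ?_, Qn_eq.2 ⟨e.1, e.2.1, fun a ha => ?_⟩⟩
    · exact congrFun e.2.2.1 ⟨j.1, Finset.mem_erase.2 ⟨j.2, Finset.mem_insert_of_mem (mem_im.2 ⟨j.2, hj⟩)⟩⟩
    · by_cases haJ : a ∈ im J
      · have h1 : vx a u = vx a v := congrFun e.2.2.1 ⟨a, Finset.mem_erase.2 ⟨ha, Finset.mem_insert_of_mem haJ⟩⟩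
        unfold sc
        rw [h1]
      · exact congrFun e.2.2.2 ⟨a, fun h => (Finset.mem_insert.1 h).elim ha haJ⟩

/-- the classes of `GM/RdHyp` are the classes of row CM -/
theorem ce_KJ_knq (i : ι) (hh : ℕ) (J : Finset {j : ι // j ≠ i}) (t : ℕ) (f : Sq k N ι Θ P → ℝ) (ω : Sq k N ι Θ P) :
    Pm.ce (KJ i hh J (ex N t)) f ω = Pm.ce (knq (xq i) (Qqn i hh) J t) f ω := by
  refine FP.ce_congr_map _ ?_ ?_ f ω
  · intro u v e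
    have e' := KJ_eq.1 e
    simp only [knq, Prod.mk.injEq]
    exact ⟨(xq_eq i J).2 e'.1, e'.2⟩
  · intro u v e
    simp only [knq, Prod.mk.injEq] at e
    exact KJ_eq.2 ⟨(xq_eq i J).1 e.1, e.2⟩

theorem ce_KJ_Nk (i : ι) (hh : ℕ) (J : Finset {j : ι // j ≠ i}) (t : ℕ) (f : Sq k N ι Θ P → ℝ) (ω : Sq k N ι Θ P) :
    Pm.ce (KJ i hh J (ex N t)) f ω = Pm.ce (Nk i (im J) hh (ex N t)) f ω := by
  rw [ce_KJ_knq, ce_knq]

/-- all vertices known -/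
theorem ce_knq_univ (i : ι) (hh : ℕ) (t : ℕ) (f : Sq k N ι Θ P → ℝ) (ω : Sq k N ι Θ P) :
    Pm.ce (knq (xq i) (Qqn i hh) univ t) f ω = Pm.ce (Kn i (ex N t)) f ω := by
  refine FP.ce_congr_map _ ?_ ?_ f ω
  · intro u v e
    simp only [knq, Prod.mk.injEq] at e
    have e' := Qn_eq.1 e.2
    refine Kn_eq.2 ⟨e'.1, e'.2.1, funext fun j => (xq_eq i univ).1 e.1 j (Finset.mem_univ j)⟩
  · intro u v e
    have e' := Kn_eq.1 e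
    simp only [knq, Prod.mk.injEq]
    refine ⟨(xq_eq i univ).2 fun j _ => congrFun e'.2.2 j, Qn_eq.2 ⟨e'.1, e'.2.1, fun a ha => ?_⟩⟩
    have h1 : vx a u = vx a v := congrFun e'.2.2 ⟨a, ha⟩
    unfold sc
    rw [h1]

end law

/-- THE PAIR `{a, b}` : probability of being hot at some time -/
theorem knq_pair (n : ℕ) : ∃ C : ℝ, 0 < C ∧ ∃ c : ℕ, ∀ {k N : ℕ} {ι : Type} [Fintype ι] [DecidableEq ι]
    {i : ι} {a b : {j : ι // j ≠ i}} (_ : a ≠ b) (_o : GMC.Enu n a.1 b.1) (s : V k) {h h' hh q : ℕ} {p : ℝ}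
    {R : ι → Fam k ι Unit}
    (_ : N ≤ k) (_ : 4 * n ≤ 2 ^ (h' + 3)) (_ : h ≤ h') (_ : h' ≤ hh)
    (_ : ∀ i, FOn ({i}ᶜ : Set ι) (R i)) (_ : ∀ i, FLe 1 (R i)) {θ r1 B : ℝ} (_ : 0 < θ) (_ : 1 ≤ B) (_ : 0 ≤ r1)
    (_ : PT a.1 h N (R a.1) θ r1 B) (_ : PT b.1 h N (R b.1) θ r1 B) (_ : θ * 2 ^ ((h' - h) * (n + 1)) < 1)
    (_ : nch s h N (R a.1) ≤ p) (_ : nch s h N (R b.1) ≤ p)
    {r s' δ σ : ℝ} (_ : 0 < s') (_ : s' ≤ 1) (_ : 0 < δ) (_ : δ ≤ 1) (_ : 0 < σ) (_ : s' + 4 * ((2 : ℝ) ^ h)⁻¹ ≤ r)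
    (_ : r1 + 2 * ((2 : ℝ) ^ h)⁻¹ ≤ (s' / 2) ^ (2 ^ n)) (_ : 8 ≤ 4 ^ q * δ),
    (Pm : FP (Sq k N ι Unit Unit)).Pr (fun ω => ∃ t ≤ N, 1 ≤ t ∧
      Fintype.card ι * (2 * (2 ^ (hh - h')) ^ (n - 1) * δ) + σ <
        Pm.ce (knq (xq i) (Qqn i hh) {a, b} t) (fun v => ind (r ≤ |TT s h R (ex N t) v|)) ω) ≤
      C * GMC.Qb ((s' ^ (2 * q) * δ) ^ (2 ^ n) / 2) p q (2 ^ (h' + 3)) ^ c * (θ * 2 ^ ((h' - h) * (n + 1)) *
        (1 + Real.log (1 / (θ * 2 ^ ((h' - h) * (n + 1)))))) / σ := by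
  obtain ⟨C, hC, c, h0⟩ := nat_cold_pair n
  refine ⟨C, hC, c, ?_⟩
  intro k N ι _ _ i a b hab o s h h' hh q p R hN hn hh' hhh hR hR1 θ r1 B hθ hB hr1 hPa hPb hth hpa hpb
    r s' δ σ hs0 hs1 hδ0 hδ1 hσ hr he hq
  have h1 := h0 (x := i) (fun h => hab (Subtype.ext h)) a.2.symm b.2.symm o s hN hn hh' hhh hR hR1 hθ hB hr1 hPa hPb
    hth hpa hpb hs0 hs1 hδ0 hδ1 hσ hr he hq
  refine le_trans (FP.Pr_mono _ fun ω _ => ?_) h1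
  rintro ⟨t, ht, ht1, h2⟩
  refine ⟨t, ht, ht1, ?_⟩
  rw [ce_knq, im_pair] at h2
  exact h2

/-- AT MOST ONE VERTEX `j` KNOWN: rarity, at every point -/
theorem knq_single {k N : ℕ} {ι : Type} [Fintype ι] [DecidableEq ι] (s : V k) {i : ι} (j : {j : ι // j ≠ i})
    {J : Finset {j : ι // j ≠ i}} (hJ : J ⊆ {j}) {h0 hh t : ℕ} (hN : N ≤ k) (hle : h0 ≤ hh)
    {R : ι → Fam k ι Unit} {θ r1 r B : ℝ} (hθ : 0 ≤ θ) (hr1 : 0 ≤ r1) (hPT : PT j.1 h0 N (R j.1) θ r1 B)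
    (hR : ∀ l, FOn ({l}ᶜ : Set ι) (R l)) (hB : ∀ j, FLe B (R j))
    (hr : 2 * (r1 + 2 * B ^ Fintype.card ι * ((2 : ℝ) ^ h0)⁻¹) ≤ r) (w : Sq k N ι Unit Unit) :
    Pm.ce (knq (xq i) (Qqn i hh) J t) (fun v => ind (r ≤ |TT s h0 R (ex N t) v|)) w ≤
      Fintype.card ι * (9 / 8 * (θ * (2 ^ (hh - h0)) ^ Fintype.card ι)) := by
  rw [ce_knq]
  refine nat_cold_single s j.2 ?_ (Nat.sub_le _ _) hN hle hθ hr1 hPT hR hB hr w
  intro l hl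
  obtain ⟨h1, h2⟩ := mem_im.1 hl
  have h3 := Finset.mem_singleton.1 (hJ h2)
  rw [Finset.mem_singleton]
  exact congrArg Subtype.val h3

/-- the same in the class `KJ` -/
theorem KJ_pair (n : ℕ) : ∃ C : ℝ, 0 < C ∧ ∃ c : ℕ, ∀ {k N : ℕ} {ι : Type} [Fintype ι] [DecidableEq ι]
    {i : ι} {a b : {j : ι // j ≠ i}} (_ : a ≠ b) (_o : GMC.Enu n a.1 b.1) (s : V k) {h h' hh q : ℕ} {p : ℝ}
    {R : ι → Fam k ι Unit}
    (_ : N ≤ k) (_ : 4 * n ≤ 2 ^ (h' + 3)) (_ : h ≤ h') (_ : h' ≤ hh)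
    (_ : ∀ i, FOn ({i}ᶜ : Set ι) (R i)) (_ : ∀ i, FLe 1 (R i)) {θ r1 B : ℝ} (_ : 0 < θ) (_ : 1 ≤ B) (_ : 0 ≤ r1)
    (_ : PT a.1 h N (R a.1) θ r1 B) (_ : PT b.1 h N (R b.1) θ r1 B) (_ : θ * 2 ^ ((h' - h) * (n + 1)) < 1)
    (_ : nch s h N (R a.1) ≤ p) (_ : nch s h N (R b.1) ≤ p)
    {r s' δ σ : ℝ} (_ : 0 < s') (_ : s' ≤ 1) (_ : 0 < δ) (_ : δ ≤ 1) (_ : 0 < σ) (_ : s' + 4 * ((2 : ℝ) ^ h)⁻¹ ≤ r)
    (_ : r1 + 2 * ((2 : ℝ) ^ h)⁻¹ ≤ (s' / 2) ^ (2 ^ n)) (_ : 8 ≤ 4 ^ q * δ),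
    (Pm : FP (Sq k N ι Unit Unit)).Pr (fun ω => ∃ t ≤ N, 1 ≤ t ∧
      Fintype.card ι * (2 * (2 ^ (hh - h')) ^ (n - 1) * δ) + σ <
        Pm.ce (KJ i hh {a, b} (ex N t)) (fun v => ind (r ≤ |TT s h R (ex N t) v|)) ω) ≤
      C * GMC.Qb ((s' ^ (2 * q) * δ) ^ (2 ^ n) / 2) p q (2 ^ (h' + 3)) ^ c * (θ * 2 ^ ((h' - h) * (n + 1)) *
        (1 + Real.log (1 / (θ * 2 ^ ((h' - h) * (n + 1)))))) / σ := by
  obtain ⟨C, hC, c, h0⟩ := knq_pair n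
  refine ⟨C, hC, c, ?_⟩
  intro k N ι _ _ i a b hab o s h h' hh q p R hN hn hh' hhh hR hR1 θ r1 B hθ hB hr1 hPa hPb hth hpa hpb
    r s' δ σ hs0 hs1 hδ0 hδ1 hσ hr he hq
  have h1 := h0 hab o s hN hn hh' hhh hR hR1 hθ hB hr1 hPa hPb hth hpa hpb hs0 hs1 hδ0 hδ1 hσ hr he hq
  refine le_trans (FP.Pr_mono _ fun ω _ => ?_) h1
  rintro ⟨t, ht, ht1, h2⟩
  refine ⟨t, ht, ht1, ?_⟩
  rw [ce_KJ_knq] at h2
  exact h2

theorem KJ_single {k N : ℕ} {ι : Type} [Fintype ι] [DecidableEq ι] (s : V k) {i : ι} (j : {j : ι // j ≠ i})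
    {J : Finset {j : ι // j ≠ i}} (hJ : J ⊆ {j}) {h0 hh t : ℕ} (hN : N ≤ k) (hle : h0 ≤ hh)
    {R : ι → Fam k ι Unit} {θ r1 r B : ℝ} (hθ : 0 ≤ θ) (hr1 : 0 ≤ r1) (hPT : PT j.1 h0 N (R j.1) θ r1 B)
    (hR : ∀ l, FOn ({l}ᶜ : Set ι) (R l)) (hB : ∀ j, FLe B (R j))
    (hr : 2 * (r1 + 2 * B ^ Fintype.card ι * ((2 : ℝ) ^ h0)⁻¹) ≤ r) (w : Sq k N ι Unit Unit) :
    Pm.ce (KJ i hh J (ex N t)) (fun v => ind (r ≤ |TT s h0 R (ex N t) v|)) w ≤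
      Fintype.card ι * (9 / 8 * (θ * (2 ^ (hh - h0)) ^ Fintype.card ι)) := by
  rw [ce_KJ_knq]
  exact knq_single s j hJ hN hle hθ hr1 hPT hR hB hr w

end

end Pool.Agent.GMM
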