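import Pool.Agent.GMM.KDef

/-!
# GMM/Avg: averaging over the known vertices, resampling (row CM, CM.3 (4); helper46)

* `H_pr_snd`, `Hc_avg`, `I_avg` : in a product `A × V` with `V` known, entropies and informations are means over `V` of those
  of the hidden law;
* `ov` : the coordinates of the real letters of `B` are overwritten by the vertices `u (ty y)` of one copy; `MP_ov` : the law is
  not changed.
-/

set_option autoImplicit false
set_option linter.unusedSectionVars false

namespace Pool.Agent.GMM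

open Finset Pool.Agent.PWZ Pool.Agent.M3 Pool.Agent.M3.FP Pool.Agent.GMC

noncomputable section

section avg

variable {A V : Type*} [Fintype A] [Fintype V] (PA : FP A) (PV : FP V) {κ κ' ι : Type*}

theorem pr_E_swap (f : A × V → ℝ) : (FP.pr PA PV).E f = PV.E (fun v => PA.E (fun a => f (a, v))) := by
  rw [FP.pr_E]
  exact PA.E_swap PV (fun a v => f (a, v))

theorem pr_p (w : A × V) : (FP.pr PA PV).p w = PA.p w.1 * PV.p w.2 := rfl

theorem pr_ne {w : A × V} : (FP.pr PA PV).p w ≠ 0 ↔ PA.p w.1 ≠ 0 ∧ PV.p w.2 ≠ 0 := by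
  rw [pr_p]
  exact mul_ne_zero_iff

theorem m_id (w : V) : PV.m (fun v => v) w = PV.p w := by
  classical
  unfold FP.m FP.E
  rw [Finset.sum_eq_single w]
  · show PV.p w * ind (w = w) = _
    rw [ind_of rfl, mul_one]
  · intro b _ hb
    show PV.p b * ind (b = w) = 0
    rw [ind_not hb, mul_zero]
  · intro h3
    exact absurd (Finset.mem_univ _) h3

theorem m_pr_snd (X : A × V → κ) (w : A × V) :
    (FP.pr PA PV).m (fun v => (X v, v.2)) w = PA.m (fun a => X (a, w.2)) w.1 * PV.p w.2 := by
  classical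
  unfold FP.m
  rw [pr_E_swap]
  unfold FP.E
  rw [Finset.sum_eq_single w.2]
  · rw [mul_comm]
    congr 1
    refine Finset.sum_congr rfl (fun a _ => ?_)
    congr 1
    show ind ((X (a, w.2), w.2) = (X w, w.2)) = ind (X (a, w.2) = X (w.1, w.2))
    rw [Prod.mk.injEq]
    congr 1
    exact propext ⟨fun h => h.1, fun h => ⟨h, rfl⟩⟩
  · intro b _ hb
    have : ∑ a, PA.p a * ind ((X (a, b), (a, b).2) = (X w, w.2)) = 0 := by
      refine Finset.sum_eq_zero (fun a _ => ?_)
      rw [ind_not (fun h => hb (Prod.mk.injEq _ _ _ _ ▸ h : _ ∧ _).2), mul_zero]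
    show PV.p b * ∑ a, PA.p a * ind ((X (a, b), (a, b).2) = (X w, w.2)) = 0
    rw [this, mul_zero]
  · intro h3
    exact absurd (Finset.mem_univ _) h3

theorem H_pr_snd (X : A × V → κ) : (FP.pr PA PV).H (fun w => (X w, w.2)) =
    PV.E (fun v => PA.H (fun a => X (a, v))) + PV.H (fun v => v) := by
  unfold FP.H
  rw [pr_E_swap, ← PV.E_add]
  refine PV.E_congr (fun v hv => ?_)
  have h1 : PA.E (fun a => - Real.log ((FP.pr PA PV).m (fun w => (X w, w.2)) (a, v))) =
      PA.E (fun a => - Real.log (PA.m (fun a => X (a, v)) a) + - Real.log (PV.m (fun v => v) v)) := by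
    refine PA.E_congr (fun a ha => ?_)
    rw [m_pr_snd PA PV X (a, v), m_id PV v]
    show - Real.log (PA.m (fun a => X (a, v)) a * PV.p v) = _
    rw [Real.log_mul (PA.m_pos _ ha).ne' hv]
    ring
  rw [h1, PA.E_add, PA.E_const]

theorem Hc_avg (X : A × V → κ) (Z : A × V → ι) : (FP.pr PA PV).Hc X (fun w => (Z w, w.2)) =
    PV.E (fun v => PA.Hc (fun a => X (a, v)) (fun a => Z (a, v))) := by
  have h1 : (FP.pr PA PV).H (fun w => (X w, (Z w, w.2))) = (FP.pr PA PV).H (fun w => ((X w, Z w), w.2)) :=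
    FP.H_congr _ (fun v w h => by simp only [Prod.mk.injEq] at h ⊢; tauto)
      (fun v w h => by simp only [Prod.mk.injEq] at h ⊢; tauto)
  have h2 : (fun v => PA.Hc (fun a => X (a, v)) (fun a => Z (a, v))) =
      fun v => PA.H (fun a => (X (a, v), Z (a, v))) - PA.H (fun a => Z (a, v)) := rfl
  rw [h2, PV.E_sub]
  unfold FP.Hc
  rw [h1, H_pr_snd PA PV (fun w => (X w, Z w)), H_pr_snd PA PV Z]
  ring

theorem I_avg (X : A × V → κ) (Y : A × V → κ') (Z : A × V → ι) : (FP.pr PA PV).I X Y (fun w => (Z w, w.2)) =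
    PV.E (fun v => PA.I (fun a => X (a, v)) (fun a => Y (a, v)) (fun a => Z (a, v))) := by
  have h1 : (fun v => PA.I (fun a => X (a, v)) (fun a => Y (a, v)) (fun a => Z (a, v))) =
      fun v => PA.Hc (fun a => X (a, v)) (fun a => Z (a, v)) - PA.Hc (fun a => X (a, v)) (fun a => (Y (a, v), Z (a, v))) := by
    funext v
    rw [PA.I_eq_Hc]
  rw [h1, PV.E_sub, FP.I_eq_Hc, ← Hc_avg PA PV X Z, ← Hc_avg PA PV X (fun w => (Y w, Z w))]
  congr 1
  exact FP.Hc_congr _ (Fac.fst _ _) (fun v w h => by simp only [Prod.mk.injEq] at h ⊢; tauto)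
    (Fac.fst _ _) (fun v w h => by simp only [Prod.mk.injEq] at h ⊢; tauto)

end avg

/-! ## resampling in tables -/

section resample

variable {q ι β : Type*} [Fintype q] [DecidableEq q] [Fintype ι] [DecidableEq ι] [Fintype β] [DecidableEq β]

/-- overwriting the entries in `R` of a table by the entries `e y` of another one -/
def owr (R : q → Prop) [DecidablePred R] (e : q → ι) (x : q → β) (u : ι → β) (y : q) : β :=
  if R y then u (e y) else x y

theorem MP_owr (K : q → FP β) (mu : ι → FP β) (R : q → Prop) [DecidablePred R] (e : q → ι)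
    (he : ∀ y y', R y → R y' → e y = e y' → y = y') (hK : ∀ y, R y → K y = mu (e y)) (f : (q → β) → ℝ) :
    (piFP K).E (fun x => (piFP mu).E (fun u => f (owr R e x u))) = (piFP K).E f := by
  rw [(piFP K).E_swap (piFP mu) (fun x u => f (owr R e x u)), piFP_split K R f]
  have h1 : ∀ u : ι → β, (piFP K).E (fun x => f (owr R e x u)) =
      (piFP (fun p : {y // ¬ R y} => K p.1)).E (fun z => f (glue R (fun p : {y // R y} => u (e p.1)) z)) := by
    intro u
    rw [piFP_split K R]
    have h2 : ∀ (x : {y // R y} → β) (z : {y // ¬ R y} → β),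
        owr R e (glue R x z) u = glue R (fun p : {y // R y} => u (e p.1)) z := by
      intro x z
      funext y
      unfold owr glue
      by_cases hy : R y
      · rw [if_pos hy, dif_pos hy]
      · rw [if_neg hy, dif_neg hy, dif_neg hy]
    simp only [h2]
    exact FP.E_const _ _
  simp only [h1]
  have h3 := piFP_comp (α := {y // R y}) (α' := ι) (e := fun p => e p.1)
    (fun p p' h => Subtype.ext (he p.1 p'.1 p.2 p'.2 h)) mu
    (fun x => (piFP (fun p : {y // ¬ R y} => K p.1)).E (fun z => f (glue R x z)))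
  rw [h3]
  congr 1
  congr 1
  funext p
  exact (hK p.1 p.2).symm

end resample

/-! ## the real vertices of `B` -/

section ov

variable {ι α χ : Type} [Fintype ι] [DecidableEq ι] [Fintype α] [Fintype χ] [DecidableEq χ] (D : SD ι α χ)
variable {W : Type} [Fintype W] [DecidableEq W] (ty : W → ι) (B : Finset W) {r M : ℕ}

/-- the tables of the vertices -/
abbrev TW (χ : Type) {W : Type} (B : Finset W) (r M : ℕ) : Type := Ltr B × Option (Key r M) → (W → χ)

/-- the law of the tables -/
def PT (r M : ℕ) : FP (TW χ B r M) := piFP (fun q : Ltr B × Option (Key r M) => muL D ty B q.1)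

theorem KQ_eq : KQ D ty B r M = FP.pr D.PA (PT D ty B r M) := rfl

/-- the real vertices of `B` are replaced by `u` -/
def ov (ξ : TW χ B r M) (u : ι → χ) : TW χ B r M :=
  fun q y => if q.2 = none ∧ y ∈ B ∧ q.1 = ltr B y then u (ty y) else ξ q y

theorem MP_ov (hB : Set.InjOn ty (B : Set W)) (f : TW χ B r M → ℝ) :
    (PT D ty B r M).E (fun ξ => (piFP D.mu).E (fun u => f (ov ty B ξ u))) = (PT D ty B r M).E f := by
  have hc : ∀ g : TW χ B r M → ℝ, (PT D ty B r M).E g =
      (piFP (fun p : (Ltr B × Option (Key r M)) × W => D.mu (ty p.2))).E (fun x => g (fun q y => x (q, y))) :=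
    fun g => piFP_curry (α := Ltr B × Option (Key r M)) (α' := W) (fun _ y => D.mu (ty y)) g
  rw [hc, hc]
  exact MP_owr (fun p : (Ltr B × Option (Key r M)) × W => D.mu (ty p.2)) D.mu
    (fun p => p.1.2 = none ∧ p.2 ∈ B ∧ p.1.1 = ltr B p.2) (fun p => ty p.2)
    (fun p p' h h' e => by
      have h1 : p.2 = p'.2 := hB h.2.1 h'.2.1 e
      refine Prod.ext (Prod.ext ?_ ?_) h1
      · rw [h.2.2, h'.2.2, h1]
      · rw [h.1, h'.1]) (fun _ _ => rfl) (fun x => f (fun q y => x (q, y)))

theorem ov_real (ξ : TW χ B r M) (u : ι → χ) {y : W} (hy : y ∈ B) : ov ty B ξ u (ltr B y, none) y = u (ty y) := by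
  unfold ov
  rw [if_pos ⟨rfl, hy, rfl⟩]

theorem ov_not (ξ : TW χ B r M) (u : ι → χ) {q : Ltr B × Option (Key r M)} {y : W}
    (h : ¬ (q.2 = none ∧ y ∈ B ∧ q.1 = ltr B y)) : ov ty B ξ u q y = ξ q y := by
  unfold ov
  rw [if_neg h]

end ov

end

end Pool.Agent.GMM
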