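import Pool.Agent.GMM.Stat

/-!
# GMM/Base: extras, dropping bad label sets, and the case `B = ∅` of the static theorem (row CM, CM.3; helper50)

Conventions of GMM/Stat: entropies at the point `N w`, `L : Finset W → Om → Λ`, `S` = label sets of the collection.
* `mX P L Ex N S G` = `m*_G` = `I(L_G; Ex, all labels of size <= |G| of S except L_G | L_<G)` (`Ex` = the extras);
  `mG_le_mX`, `mX_const`, `mX_mono`, `mX_ex`;
* `mX_drop` : dropping label sets of size `|G|` costs the sum of their `m*`;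
* `near_indep` : `I(labels A; labels A' | C0) <= ∑ m` for two groups of labels over a common down-closed base `C0`;
* `copies` : for copies `A i` (`i < n`) of a group of labels and any variable `T`:
  `∑ i, I(T; A_i | C0) <= H(T|C0) + n ∑ m`;
* `mG_base` : `m_G <= I(L_G; base labels | L_<G) + I(T0; A | C0)` for `G` in the base; `case_base` : CASE `B = ∅`, in the
  mean (`P.E`), the exchangeability is the hypothesis `hex`.
-/

set_option autoImplicit false
set_option linter.unusedSectionVars false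

namespace Pool.Agent.GMM

open Finset Pool.Agent.PWZ Pool.Agent.M3 Pool.Agent.M3.FP Pool.Agent.GMC

noncomputable section

variable {Om : Type*} [Fintype Om] (P : FP Om)
variable {W Λ ν ν' ε ε' : Type*} [Fintype W] [DecidableEq W]

/-- `m*_G`: `m_G` with the extras `Ex` -/
def mX (L : Finset W → Om → Λ) (Ex : Om → ε) (N : Om → ν) (S : Finset (Finset W)) (G : Finset W) (w : Om) : ℝ :=
  GMC.ip P (L G) (fun u => (Ex u, Lf L (prev S G) u)) (Lf L G.ssubsets) N w

theorem mX_nonneg (L : Finset W → Om → Λ) (Ex : Om → ε) (N : Om → ν) (S : Finset (Finset W)) (G : Finset W) {w : Om}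
    (hw : P.p w ≠ 0) : 0 ≤ mX P L Ex N S G w := ip_nonneg P _ _ _ N hw

theorem mX_fac (L : Finset W → Om → Λ) (Ex : Om → ε) (N : Om → ν) (S : Finset (Finset W)) (G : Finset W) :
    Fac N (mX P L Ex N S G) := ip_fac P _ _ _ N

/-- monotonicity in the second variable -/
theorem ip_mono_right {κ κ' ι ι' : Type*} (X : Om → κ) {Y : Om → κ'} {Y' : Om → ι'} (Z : Om → ι) (N : Om → ν)
    (h : Fac (fun u => (Y u, Z u, N u)) Y') {w : Om} (hw : P.p w ≠ 0) :
    GMC.ip P X Y' Z N w ≤ GMC.ip P X Y Z N w := by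
  rw [ip_comm P X Y' Z N hw, ip_comm P X Y Z N hw]
  exact ip_mono P X Z N h hw

theorem mX_le_hp (L : Finset W → Om → Λ) (Ex : Om → ε) (N : Om → ν) (S : Finset (Finset W)) (G : Finset W) {w : Om}
    (hw : P.p w ≠ 0) : mX P L Ex N S G w ≤ hp P (L G) (Lf L G.ssubsets) N w := ip_le_hp P _ _ _ N hw

theorem mG_le_mX (L : Finset W → Om → Λ) (Ex : Om → ε) (N : Om → ν) (S : Finset (Finset W)) (G : Finset W) {w : Om}
    (hw : P.p w ≠ 0) : mG P L N S G w ≤ mX P L Ex N S G w :=
  ip_mono_right P _ _ N ((Fac.fst _ _).trans (Fac.snd _ _)) hw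

theorem mX_const (L : Finset W → Om → Λ) (c : ε) (N : Om → ν) (S : Finset (Finset W)) (G : Finset W) (w : Om) :
    mX P L (fun _ => c) N S G w = mG P L N S G w := by
  unfold mX mG
  refine ip_congr P (Fac.fst _ _) ((Fac.fst _ _).trans (Fac.snd _ _)) (Fac.fst _ _) (Fac.refl _) (Fac.fst _ _)
    ((Fac.fst _ _).trans ?_) (Fac.fst _ _) (Fac.refl _) w
  exact (Fac.const _ c).prod (Fac.refl _)

/-- a larger collection and finer extras -/
theorem mX_mono (L : Finset W → Om → Λ) {Ex : Om → ε} {Ex' : Om → ε'} (N : Om → ν) {S S' : Finset (Finset W)}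
    (G : Finset W) (h : S ⊆ S') (hE : Fac (fun u => (Ex' u, Lf L (prev S' G) u, Lf L G.ssubsets u, N u)) Ex) {w : Om}
    (hw : P.p w ≠ 0) : mX P L Ex N S G w ≤ mX P L Ex' N S' G w := by
  unfold mX
  refine ip_mono_right P _ _ N ?_ hw
  refine Fac.prod ?_ ?_
  · intro x y hxy
    simp only [Prod.mk.injEq] at hxy
    exact hE x y (by simp only [Prod.mk.injEq]; exact ⟨hxy.1.1, hxy.1.2, hxy.2.1, hxy.2.2⟩)
  · exact (Fac.fst _ _).trans ((Fac.snd _ _).trans (Lf_sub L (prev_mono h G)))

/-- `I(X; Y', Y | Z) = I(X; Y | Z) + I(X; Y' | Y, Z)` -/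
theorem ip_chain_right {κ κ' ι ι' : Type*} (X : Om → κ) (Y' : Om → ι') (Y : Om → κ') (Z : Om → ι) (N : Om → ν) {w : Om}
    (hw : P.p w ≠ 0) : GMC.ip P X (fun u => (Y' u, Y u)) Z N w =
      GMC.ip P X Y Z N w + GMC.ip P X Y' (fun u => (Y u, Z u)) N w := by
  rw [ip_comm P X _ Z N hw, ip_comm P X Y Z N hw, ip_comm P X Y' _ N hw]
  exact ip_chain P Y' Y X Z N hw

/-- dropping one label `L_H` from a family -/
theorem drop_one (L : Finset W → Om → Λ) (Ex : Om → ε) (N : Om → ν) {S A : Finset (Finset W)} (hS : Dc S)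
    {G H : Finset W} (hG : G ∈ S) (hH : H ∈ S) (hc : H.card = G.card) (hne : H ≠ G) (hHA : H ∈ A)
    (hA : A ⊆ prev S G) (hlow : ∀ J ∈ S, J.card < G.card → J ∈ A) {w : Om} (hw : P.p w ≠ 0) :
    GMC.ip P (L G) (fun u => (Ex u, Lf L A u)) (Lf L G.ssubsets) N w ≤
      GMC.ip P (L G) (fun u => (Ex u, Lf L (A.erase H) u)) (Lf L G.ssubsets) N w + mX P L Ex N S H w := by
  have h1 : GMC.ip P (L G) (fun u => (Ex u, Lf L A u)) (Lf L G.ssubsets) N w =
      GMC.ip P (L G) (fun u => (L H u, (fun u => (Ex u, Lf L (A.erase H) u)) u)) (Lf L G.ssubsets) N w := by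
    refine ip_congr P (Fac.fst _ _) ((Fac.fst _ _).trans ?_) (Fac.fst _ _) (Fac.refl _) (Fac.fst _ _)
      ((Fac.fst _ _).trans ?_) (Fac.fst _ _) (Fac.refl _) w
    · exact Fac.prod ((Fac.snd _ _).trans (Lf_one L hHA)) ((Fac.fst _ _).prod ((Fac.snd _ _).trans
        (Lf_sub L (erase_subset _ _))))
    · refine Fac.prod ((Fac.snd _ _).trans (Fac.fst _ _)) (Lf_of L fun J hJ => ?_)
      by_cases h2 : J = H
      · rw [h2]; exact Fac.fst _ _
      · exact (Fac.snd _ _).trans ((Fac.snd _ _).trans (Lf_one L (mem_erase.2 ⟨h2, hJ⟩)))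
  rw [h1, ip_chain_right P (L G) (L H) (fun u => (Ex u, Lf L (A.erase H) u)) (Lf L G.ssubsets) N hw]
  have h3 : GMC.ip P (L G) (L H) (fun u => ((fun u => (Ex u, Lf L (A.erase H) u)) u, Lf L G.ssubsets u)) N w ≤
      mX P L Ex N S H w := by
    rw [ip_comm P (L G) (L H) _ N hw]
    unfold mX GMC.ip
    have a : hp P (L H) (fun u => ((fun u => (Ex u, Lf L (A.erase H) u)) u, Lf L G.ssubsets u)) N w ≤
        hp P (L H) (Lf L H.ssubsets) N w := by
      refine hp_anti P (L H) N ((Fac.fst _ _).trans ((Fac.fst _ _).trans ((Fac.snd _ _).trans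
        (Lf_sub L fun J hJ => ?_)))) hw
      have h4 := Finset.mem_ssubsets.1 hJ
      have h5 := Finset.card_lt_card h4
      exact mem_erase.2 ⟨fun h6 => h4.2 (h6 ▸ Subset.refl _), hlow J (hS H hH hJ) (by omega)⟩
    have b : hp P (L H) (fun u => ((fun u => (Ex u, Lf L (prev S H) u)) u, Lf L H.ssubsets u)) N w ≤
        hp P (L H) (fun u => (L G u, (fun u => ((fun u => (Ex u, Lf L (A.erase H) u)) u, Lf L G.ssubsets u)) u)) N w := by
      refine hp_anti P (L H) N ((Fac.fst _ _).trans ((Fac.fst _ _).trans ?_)) hw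
      refine Fac.prod ((Fac.snd _ _).trans (Lf_one L (mem_prev.2 ⟨hG, by omega, fun h => hne h.symm⟩)))
        (Fac.prod (Fac.prod (Fac.fst _ _) ((Fac.snd _ _).trans (Lf_sub L fun J hJ => ?_)))
          ((Fac.snd _ _).trans (Lf_sub L fun J hJ => ?_)))
      · rw [mem_erase] at hJ
        obtain ⟨h4, h5, h6⟩ := mem_prev.1 (hA hJ.2)
        exact mem_prev.2 ⟨h4, by omega, hJ.1⟩
      · have h4 := Finset.card_lt_card (Finset.mem_ssubsets.1 hJ)
        exact mem_prev.2 ⟨hS G hG hJ, by omega, fun h5 => by rw [h5] at h4; omega⟩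
    exact sub_le_sub a b
  linarith

/-- DROP-BAD: dropping the label sets `Bad` of size `|G|` costs the sum of their `m*` -/
theorem mX_drop (L : Finset W → Om → Λ) (Ex : Om → ε) (N : Om → ν) {S Bad : Finset (Finset W)} (hS : Dc S)
    {G : Finset W} (hG : G ∈ S) (hB : Bad ⊆ S) (hc : ∀ H ∈ Bad, H.card = G.card) (hGB : G ∉ Bad) {w : Om}
    (hw : P.p w ≠ 0) :
    mX P L Ex N S G w ≤ GMC.ip P (L G) (fun u => (Ex u, Lf L (prev S G \ Bad) u)) (Lf L G.ssubsets) N w +
      ∑ H ∈ Bad, mX P L Ex N S H w := by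
  have key : ∀ T : Finset (Finset W), T ⊆ Bad → mX P L Ex N S G w ≤
      GMC.ip P (L G) (fun u => (Ex u, Lf L (prev S G \ T) u)) (Lf L G.ssubsets) N w + ∑ H ∈ T, mX P L Ex N S H w := by
    intro T
    induction T using Finset.induction_on with
    | empty =>
      intro _
      rw [Finset.sum_empty, add_zero, Finset.sdiff_empty]
      exact le_rfl
    | insert H T hHT ih =>
      intro hT
      have hHB : H ∈ Bad := hT (mem_insert_self _ _)
      have hTB : T ⊆ Bad := (subset_insert _ _).trans hT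
      have hne : H ≠ G := fun h => hGB (h ▸ hHB)
      have h1 := ih hTB
      have hHA : H ∈ prev S G \ T := mem_sdiff.2 ⟨mem_prev.2 ⟨hB hHB, (hc H hHB).le, hne⟩, hHT⟩
      have hlow : ∀ J ∈ S, J.card < G.card → J ∈ prev S G \ T := by
        intro J hJ hJc
        refine mem_sdiff.2 ⟨mem_prev.2 ⟨hJ, hJc.le, fun h => by rw [h] at hJc; omega⟩, fun h => ?_⟩
        have := hc J (hTB h)
        omega
      have h2 := drop_one P L Ex N hS hG (hB hHB) (hc H hHB) hne hHA sdiff_subset hlow hw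
      have h3 : (prev S G \ T).erase H = prev S G \ insert H T := by
        ext J
        simp only [mem_erase, mem_sdiff, mem_insert]
        tauto
      rw [h3] at h2
      rw [Finset.sum_insert hHT]
      linarith
  exact key Bad (Subset.refl _)

/-! ## groups of labels over a common base -/

/-- the information of two groups `A`, `A'` of labels over the base `C0` is at most the sum of the `m` -/
theorem near_indep (L : Finset W → Om → Λ) (N : Om → ν) {S C0 A A' : Finset (Finset W)} (h0 : Dc C0)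
    (h1 : Dc (C0 ∪ A')) (h2 : Dc (C0 ∪ A)) (hd0 : Disjoint C0 A) (hd : Disjoint A' A) (hS : C0 ∪ A' ∪ A ⊆ S) {w : Om}
    (hw : P.p w ≠ 0) :
    GMC.ip P (Lf L A) (Lf L A') (Lf L C0) N w ≤ ∑ G ∈ C0 ∪ A' ∪ A, mG P L N S G w := by
  have e1 : (C0 ∪ A) \ C0 = A := by
    rw [Finset.union_sdiff_cancel_left hd0]
  have e2 : (C0 ∪ A' ∪ A) \ (C0 ∪ A') = A := by
    rw [Finset.union_sdiff_cancel_left]
    exact Finset.disjoint_union_left.2 ⟨hd0, hd⟩
  have hF : Dc (C0 ∪ A' ∪ A) := by
    have h3 : C0 ∪ A' ∪ A = (C0 ∪ A') ∪ (C0 ∪ A) := by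
      ext J
      simp only [mem_union]
      tauto
    rw [h3]
    exact h1.union h2
  have a := D_cond_le P L N h0 h2 subset_union_left hw
  have b := D_cond P L N (S := S) h1 hF subset_union_left hS hw
  rw [e1] at a
  rw [e2] at b
  have c : hp P (Lf L A) (fun u => (Lf L A' u, Lf L C0 u)) N w = hp P (Lf L A) (Lf L (C0 ∪ A')) N w := by
    refine hp_congr P (Fac.fst _ _) ((Fac.fst _ _).trans ?_) (Fac.refl _) (Fac.fst _ _) ((Fac.fst _ _).trans ?_)
      (Fac.refl _) w
    · refine Lf_of L fun J hJ => ?_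
      rcases mem_union.1 hJ with h3 | h3
      · exact (Fac.snd _ _).trans (Lf_one L h3)
      · exact (Fac.fst _ _).trans (Lf_one L h3)
    · exact Fac.prod (Lf_sub L subset_union_right) (Lf_sub L subset_union_left)
  unfold GMC.ip
  rw [c]
  linarith

/-- `I(T; A | C) <= I(T; A | A', C) + I(A; A' | C)` -/
theorem ip_le_cond {κ κ' ι ι' : Type*} (T : Om → κ) (A : Om → κ') (A' : Om → ι') (C : Om → ι) (N : Om → ν) {w : Om}
    (hw : P.p w ≠ 0) : GMC.ip P T A C N w ≤ GMC.ip P T A (fun u => (A' u, C u)) N w + GMC.ip P A A' C N w := by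
  rw [ip_comm P T A C N hw, ip_comm P T A _ N hw]
  have h : hp P A (fun u => (T u, (fun u => (A' u, C u)) u)) N w ≤ hp P A (fun u => (T u, C u)) N w := by
    refine hp_anti P A N ((Fac.fst _ _).trans ?_) hw
    exact (Fac.fst _ _).prod ((Fac.snd _ _).trans (Fac.snd _ _))
  unfold GMC.ip
  linarith

/-- the groups before `i` -/
def before {α : Type*} [DecidableEq α] (A : ℕ → Finset α) (i : ℕ) : Finset α := (range i).biUnion A

theorem before_succ {α : Type*} [DecidableEq α] (A : ℕ → Finset α) (i : ℕ) : before A (i + 1) = before A i ∪ A i := by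
  unfold before
  ext x
  simp only [mem_biUnion, mem_range, mem_union]
  constructor
  · rintro ⟨j, hj, hx⟩
    rcases Nat.lt_succ_iff_lt_or_eq.1 hj with h | h
    · exact Or.inl ⟨j, h, hx⟩
    · exact Or.inr (h ▸ hx)
  · rintro (⟨j, hj, hx⟩ | hx)
    · exact ⟨j, by omega, hx⟩
    · exact ⟨i, by omega, hx⟩

theorem before_mono {α : Type*} [DecidableEq α] (A : ℕ → Finset α) {i n : ℕ} (h : i ≤ n) : before A i ⊆ before A n := by
  intro x hx
  unfold before at hx ⊢
  rw [mem_biUnion] at hx ⊢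
  obtain ⟨j, hj, hx⟩ := hx
  exact ⟨j, mem_range.2 (by have := mem_range.1 hj; omega), hx⟩

/-- copies `A i` of a group of labels over the base `C0`, and any variable `T` -/
theorem copies {κ : Type*} (T : Om → κ) (L : Finset W → Om → Λ) (N : Om → ν) {S C0 : Finset (Finset W)}
    (A : ℕ → Finset (Finset W)) (n : ℕ) (h0 : Dc C0) (h1 : ∀ i < n, Dc (C0 ∪ A i)) (hd0 : ∀ i < n, Disjoint C0 (A i))
    (hd : ∀ i < n, ∀ j < i, Disjoint (A j) (A i)) (hS : C0 ∪ before A n ⊆ S) {w : Om} (hw : P.p w ≠ 0) :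
    ∑ i ∈ range n, GMC.ip P T (Lf L (A i)) (Lf L C0) N w ≤
      hp P T (Lf L C0) N w + n * ∑ G ∈ C0 ∪ before A n, mG P L N S G w := by
  have hb : ∀ i ≤ n, Dc (C0 ∪ before A i) := by
    intro i
    induction i with
    | zero =>
      intro _
      have : C0 ∪ before A 0 = C0 := by
        unfold before
        simp
      rw [this]
      exact h0
    | succ i ih =>
      intro hi
      have h3 : C0 ∪ before A (i + 1) = (C0 ∪ before A i) ∪ (C0 ∪ A i) := by
        rw [before_succ]
        ext J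
        simp only [mem_union]
        tauto
      rw [h3]
      exact (ih (by omega)).union (h1 i (by omega))
  have hm : ∀ i < n, ∑ G ∈ C0 ∪ before A i ∪ A i, mG P L N S G w ≤ ∑ G ∈ C0 ∪ before A n, mG P L N S G w := by
    intro i hi
    refine Finset.sum_le_sum_of_subset_of_nonneg ?_ (fun G _ _ => mG_nonneg P L N S G hw)
    rw [Finset.union_assoc, ← before_succ]
    exact Finset.union_subset_union_right (before_mono A hi)
  have key : ∀ i ≤ n, ∑ j ∈ range i, GMC.ip P T (Lf L (A j)) (Lf L C0) N w ≤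
      GMC.ip P T (Lf L (before A i)) (Lf L C0) N w + i * ∑ G ∈ C0 ∪ before A n, mG P L N S G w := by
    intro i
    induction i with
    | zero =>
      intro _
      have := ip_nonneg P T (Lf L (before A 0)) (Lf L C0) N hw
      rw [Finset.range_zero, Finset.sum_empty]
      push_cast
      linarith
    | succ i ih =>
      intro hi
      rw [Finset.sum_range_succ]
      have a := ih (by omega)
      have b := ip_le_cond P T (Lf L (A i)) (Lf L (before A i)) (Lf L C0) N hw
      have c : GMC.ip P (Lf L (A i)) (Lf L (before A i)) (Lf L C0) N w ≤ ∑ G ∈ C0 ∪ before A n, mG P L N S G w := by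
        refine (near_indep P L N h0 (hb i (by omega)) (h1 i (by omega)) (hd0 i (by omega)) ?_ ?_ hw).trans
          (hm i (by omega))
        · unfold before
          rw [Finset.disjoint_biUnion_left]
          intro j hj
          exact hd i (by omega) j (mem_range.1 hj)
        · rw [Finset.union_assoc, ← before_succ]
          exact (Finset.union_subset_union_right (before_mono A hi)).trans hS
      have d := ip_chain_right P T (Lf L (A i)) (Lf L (before A i)) (Lf L C0) N hw
      have e : GMC.ip P T (fun u => (Lf L (A i) u, Lf L (before A i) u)) (Lf L C0) N w =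
          GMC.ip P T (Lf L (before A (i + 1))) (Lf L C0) N w := by
        refine ip_congr P (Fac.fst _ _) ((Fac.fst _ _).trans ?_) (Fac.fst _ _) (Fac.refl _) (Fac.fst _ _)
          ((Fac.fst _ _).trans ?_) (Fac.fst _ _) (Fac.refl _) w
        · refine Lf_of L fun J hJ => ?_
          rw [before_succ] at hJ
          rcases mem_union.1 hJ with h3 | h3
          · exact (Fac.snd _ _).trans (Lf_one L h3)
          · exact (Fac.fst _ _).trans (Lf_one L h3)
        · rw [before_succ]
          exact Fac.prod (Lf_sub L subset_union_right) (Lf_sub L subset_union_left)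
      rw [e] at d
      push_cast
      linarith
  have h := key n le_rfl
  have h4 := ip_le_hp P T (Lf L (before A n)) (Lf L C0) N hw
  linarith

/-- a label set `G` of the base: `T0` = a family with `G`, `C0` = the other base labels, `A` = the labels which meet the
free vertices -/
theorem mG_base (L : Finset W → Om → Λ) (N : Om → ν) {S T0 C0 A : Finset (Finset W)} {G : Finset W} (hG : G ∈ T0)
    (hp' : prev S G ⊆ C0 ∪ T0.erase G ∪ A) (hs : G.ssubsets ⊆ C0) {w : Om} (hw : P.p w ≠ 0) :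
    mG P L N S G w ≤ GMC.ip P (L G) (Lf L (C0 ∪ T0.erase G)) (Lf L G.ssubsets) N w +
      GMC.ip P (Lf L T0) (Lf L A) (Lf L C0) N w := by
  have h1 : mG P L N S G w ≤ GMC.ip P (L G) (fun u => (Lf L A u, Lf L (C0 ∪ T0.erase G) u)) (Lf L G.ssubsets) N w := by
    unfold mG
    refine ip_mono_right P _ _ N ((Fac.fst _ _).trans (Lf_of L fun J hJ => ?_)) hw
    rcases mem_union.1 (hp' hJ) with h | h
    · exact (Fac.snd _ _).trans (Lf_one L h)
    · exact (Fac.fst _ _).trans (Lf_one L h)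
  rw [ip_chain_right P (L G) (Lf L A) (Lf L (C0 ∪ T0.erase G)) (Lf L G.ssubsets) N hw] at h1
  have h2 : GMC.ip P (L G) (Lf L A) (fun u => (Lf L (C0 ∪ T0.erase G) u, Lf L G.ssubsets u)) N w ≤
      GMC.ip P (Lf L T0) (Lf L A) (Lf L C0) N w := by
    rw [ip_comm P (L G) _ _ N hw, ip_comm P (Lf L T0) _ _ N hw]
    unfold GMC.ip
    have a : hp P (Lf L A) (fun u => (Lf L (C0 ∪ T0.erase G) u, Lf L G.ssubsets u)) N w ≤
        hp P (Lf L A) (Lf L C0) N w :=
      hp_anti P _ N ((Fac.fst _ _).trans ((Fac.fst _ _).trans (Lf_sub L subset_union_left))) hw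
    have b : hp P (Lf L A) (fun u => (Lf L T0 u, Lf L C0 u)) N w ≤
        hp P (Lf L A) (fun u => (L G u, (fun u => (Lf L (C0 ∪ T0.erase G) u, Lf L G.ssubsets u)) u)) N w := by
      refine hp_anti P _ N ((Fac.fst _ _).trans ?_) hw
      refine Fac.prod ((Fac.fst _ _).trans (Lf_one L hG)) (Fac.prod (Lf_of L fun J hJ => ?_) ((Fac.snd _ _).trans
        (Lf_sub L hs)))
      rcases mem_union.1 hJ with h | h
      · exact (Fac.snd _ _).trans (Lf_one L h)
      · exact (Fac.fst _ _).trans (Lf_one L (mem_of_mem_erase h))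
    linarith
  linarith

/-- CASE `B = ∅` in the mean: `G` in the base family `T0`, `A 0` = the labels of size `<= |G|` which meet the free vertices
`o` of the collection, `A i` = its copies, exchangeable (`hex`) -/
theorem case_base (L : Finset W → Om → Λ) (N : Om → ν) {S S' T0 C0 : Finset (Finset W)} {G : Finset W}
    (A : ℕ → Finset (Finset W)) {n : ℕ} (hn : 0 < n) (hG : G ∈ T0) (hp' : prev S G ⊆ C0 ∪ T0.erase G ∪ A 0)
    (hs : G.ssubsets ⊆ C0) (h0 : Dc C0) (h1 : ∀ i < n, Dc (C0 ∪ A i)) (hd0 : ∀ i < n, Disjoint C0 (A i))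
    (hd : ∀ i < n, ∀ j < i, Disjoint (A j) (A i)) (hS : C0 ∪ before A n ⊆ S')
    (hex : ∀ i < n, P.E (GMC.ip P (Lf L T0) (Lf L (A i)) (Lf L C0) N) =
      P.E (GMC.ip P (Lf L T0) (Lf L (A 0)) (Lf L C0) N)) :
    P.E (mG P L N S G) ≤ P.E (GMC.ip P (L G) (Lf L (C0 ∪ T0.erase G)) (Lf L G.ssubsets) N) +
      P.E (hp P (Lf L T0) (Lf L C0) N) / n + ∑ H ∈ C0 ∪ before A n, P.E (mG P L N S' H) := by
  have a : P.E (mG P L N S G) ≤ P.E (GMC.ip P (L G) (Lf L (C0 ∪ T0.erase G)) (Lf L G.ssubsets) N) +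
      P.E (GMC.ip P (Lf L T0) (Lf L (A 0)) (Lf L C0) N) := by
    rw [← P.E_add]
    exact P.E_mono (fun w hw => mG_base P L N hG hp' hs hw)
  have b : ∑ i ∈ range n, P.E (GMC.ip P (Lf L T0) (Lf L (A i)) (Lf L C0) N) ≤
      P.E (hp P (Lf L T0) (Lf L C0) N) + n * ∑ H ∈ C0 ∪ before A n, P.E (mG P L N S' H) := by
    rw [← P.E_sum, ← P.E_sum, ← P.E_smul, ← P.E_add]
    exact P.E_mono (fun w hw => copies P (Lf L T0) L N A n h0 h1 hd0 hd hS hw)
  rw [Finset.sum_congr rfl (fun i hi => hex i (mem_range.1 hi)), Finset.sum_const, Finset.card_range,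
    nsmul_eq_mul] at b
  have hn' : (0 : ℝ) < n := by exact_mod_cast hn
  have c : P.E (GMC.ip P (Lf L T0) (Lf L (A 0)) (Lf L C0) N) ≤
      P.E (hp P (Lf L T0) (Lf L C0) N) / n + ∑ H ∈ C0 ∪ before A n, P.E (mG P L N S' H) := by
    rw [div_add' _ _ _ hn'.ne', le_div_iff₀ hn']
    linarith
  linarith

end

end Pool.Agent.GMM
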