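import Pool.Agent.GMM.SimK

/-!
# GMM/KeyInst: the product space of the keys (row CM, CM.3 (1)-(3); helper58)

Sample space `A × (Λ × Option (Key r M) → X)`: the hidden point and, for every letter, the real vertex (`none`) and the
keys, all independent (`μ y` = law of the vertices of the letter `y`).  `lab e a x` = label of the shape `e`, a function
of `a` and of the vertices `x y`, `y ∈ Sh e`; `LB (e, σ)` = the same label with the sites `σ`.
* `KP_sw` : exchange of the real vertex and a key; `KP_ind` : the vertices which are not used are independent;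
* `key_sim` : `exists_n` and `simK` together.
-/

set_option autoImplicit false
set_option linter.unusedSectionVars false

namespace Pool.Agent.GMM

open Finset Pool.Agent.PWZ Pool.Agent.M3

noncomputable section

/-! ## measure preserving bijections and independence -/

section gen

variable {Om : Type*} [Fintype Om] (P : FP Om)

theorem E_equiv (τ : Om ≃ Om) (hτ : ∀ w, P.p (τ w) = P.p w) (f : Om → ℝ) : P.E (fun w => f (τ w)) = P.E f := by
  unfold FP.E
  rw [← Equiv.sum_comp τ (fun w => P.p w * f w)]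
  exact Finset.sum_congr rfl (fun w _ => by rw [hτ])

theorem H_equiv (τ : Om ≃ Om) (hτ : ∀ w, P.p (τ w) = P.p w) {κ : Type*} (X : Om → κ) :
    P.H (fun w => X (τ w)) = P.H X := by
  unfold FP.H
  rw [← E_equiv P τ hτ (fun w => - Real.log (P.m X w))]
  refine P.E_congr (fun w _ => ?_)
  congr 2
  unfold FP.m
  exact E_equiv P τ hτ (fun v => ind (X v = X (τ w)))

theorem H_indep {κ ι : Type*} {X : Om → κ} {Y : Om → ι} (h : P.Indep X Y) :
    P.H (fun w => (X w, Y w)) = P.H X + P.H Y := by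
  unfold FP.H
  rw [← P.E_add]
  refine P.E_congr (fun w hw => ?_)
  have h1 : P.m (fun w => (X w, Y w)) w = P.m X w * P.m Y w := by
    have h2 := h (fun v => ind (X v = X w)) (fun v => ind (Y v = Y w))
      (Fac.ind (fun v v' hv => by rw [hv])) (Fac.ind (fun v v' hv => by rw [hv]))
    unfold FP.m
    rw [← h2]
    refine P.E_congr (fun v _ => ?_)
    rw [Prod.mk.injEq, ind_and]
  rw [h1, Real.log_mul (P.m_pos X hw).ne' (P.m_pos Y hw).ne']
  ring

end gen

/-! ## splitting a space of tables -/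

section split

variable {α β : Type*} [Fintype α] [DecidableEq α] [Fintype β] [DecidableEq β]

/-- glue two partial tables -/
def glue (R : α → Prop) [DecidablePred R] (x : {q // R q} → β) (y : {q // ¬ R q} → β) (q : α) : β :=
  if h : R q then x ⟨q, h⟩ else y ⟨q, h⟩

theorem piFP_split (K : α → FP β) (R : α → Prop) [DecidablePred R] (f : (α → β) → ℝ) :
    (piFP K).E f = (piFP (fun q : {q // R q} => K q.1)).E (fun x =>
      (piFP (fun q : {q // ¬ R q} => K q.1)).E (fun y => f (glue R x y))) := by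
  classical
  have h1 : ∀ x : {q // R q} → β, ∀ y : {q // ¬ R q} → β, ∏ q, (K q).p (glue R x y q) =
      (∏ q : {q // R q}, (K q.1).p (x q)) * ∏ q : {q // ¬ R q}, (K q.1).p (y q) := by
    intro x y
    rw [← Fintype.prod_subtype_mul_prod_subtype R (fun q => (K q).p (glue R x y q))]
    congr 1
    · refine Finset.prod_congr rfl (fun q _ => ?_)
      unfold glue
      rw [dif_pos q.2]
    · refine Finset.prod_congr rfl (fun q _ => ?_)
      unfold glue
      rw [dif_neg q.2]
  set e : (({q // R q} → β) × ({q // ¬ R q} → β)) ≃ (α → β) := (Equiv.piEquivPiSubtypeProd R (fun _ => β)).symm with he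
  have he' : ∀ x y, e (x, y) = glue R x y := by
    intro x y
    rfl
  unfold FP.E
  rw [← Equiv.sum_comp e, Fintype.sum_prod_type]
  refine Finset.sum_congr rfl (fun x _ => ?_)
  rw [Finset.mul_sum]
  refine Finset.sum_congr rfl (fun y _ => ?_)
  rw [he']
  show (∏ q, (K q).p (glue R x y q)) * f (glue R x y) = _
  rw [h1]
  show _ = (∏ q : {q // R q}, (K q.1).p (x q)) * ((∏ q : {q // ¬ R q}, (K q.1).p (y q)) * f (glue R x y))
  ring

/-- in a product of a space and a table, (the point, the entries in `R`) and the entries outside `R` are independent -/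
theorem pr_pi_indep {A : Type*} [Fintype A] (PA : FP A) (K : α → FP β) (R : α → Prop) [DecidablePred R] :
    (FP.pr PA (piFP K)).Indep (fun w => (w.1, fun q : {q // R q} => w.2 q.1)) (fun w => fun q : {q // ¬ R q} => w.2 q.1) := by
  intro f g hf hg
  obtain ⟨a0, ha0⟩ : ∃ a, PA.p a ≠ 0 := PA.exists_p_ne
  obtain ⟨x0, hx0⟩ : ∃ x, (piFP (fun q : {q // R q} => K q.1)).p x ≠ 0 := FP.exists_p_ne _
  obtain ⟨y0, hy0⟩ : ∃ y, (piFP (fun q : {q // ¬ R q} => K q.1)).p y ≠ 0 := FP.exists_p_ne _
  have gl1 : ∀ (x : {q // R q} → β) (y : {q // ¬ R q} → β), (fun q : {q // R q} => glue R x y q.1) = x := by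
    intro x y
    funext q
    unfold glue
    rw [dif_pos q.2]
  have gl2 : ∀ (x : {q // R q} → β) (y : {q // ¬ R q} → β), (fun q : {q // ¬ R q} => glue R x y q.1) = y := by
    intro x y
    funext q
    unfold glue
    rw [dif_neg q.2]
  have e1 : ∀ a x y, f (a, glue R x y) = f (a, glue R x y0) := by
    intro a x y
    refine hf _ _ ?_
    show (a, fun q : {q // R q} => glue R x y q.1) = (a, fun q : {q // R q} => glue R x y0 q.1)
    rw [gl1, gl1]
  have e2 : ∀ a x y, g (a, glue R x y) = g (a0, glue R x0 y) := by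
    intro a x y
    refine hg _ _ ?_
    show (fun q : {q // ¬ R q} => glue R x y q.1) = (fun q : {q // ¬ R q} => glue R x0 y q.1)
    rw [gl2, gl2]
  set P1 := piFP (fun q : {q // R q} => K q.1) with hP1
  set P2 := piFP (fun q : {q // ¬ R q} => K q.1) with hP2
  set G : ℝ := P2.E (fun y => g (a0, glue R x0 y)) with hG
  have h1 : (FP.pr PA (piFP K)).E (fun w => f w * g w) = PA.E (fun a => P1.E (fun x => f (a, glue R x y0) * G)) := by
    rw [FP.pr_E]
    refine PA.E_congr (fun a _ => ?_)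
    rw [piFP_split K R]
    refine FP.E_congr _ (fun x _ => ?_)
    rw [hG, ← FP.E_smul]
    refine FP.E_congr _ (fun y _ => ?_)
    rw [e1, e2 a x y]
  have h2 : (FP.pr PA (piFP K)).E f = PA.E (fun a => P1.E (fun x => f (a, glue R x y0))) := by
    rw [FP.pr_E]
    refine PA.E_congr (fun a _ => ?_)
    rw [piFP_split K R]
    refine FP.E_congr _ (fun x _ => ?_)
    rw [← FP.E_const P2 (f (a, glue R x y0))]
    exact FP.E_congr _ (fun y _ => e1 a x y)
  have h3 : (FP.pr PA (piFP K)).E g = G := by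
    rw [FP.pr_E]
    rw [← PA.E_const G]
    refine PA.E_congr (fun a _ => ?_)
    rw [piFP_split K R, ← FP.E_const P1 G]
    refine FP.E_congr _ (fun x _ => ?_)
    rw [hG]
    exact FP.E_congr _ (fun y _ => e2 a x y)
  rw [h1, h2, h3, ← PA.E_mul_const]
  refine PA.E_congr (fun a _ => ?_)
  rw [FP.E_mul_const]

end split

/-! ## the space of the keys -/

section key

variable {Λ E : Type} [Fintype Λ] [DecidableEq Λ] {r M : ℕ} {A X : Type} [Fintype A] [Fintype X] [DecidableEq X]
  {γ : Type*}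

/-- the sample space of the keys -/
abbrev KSp (Λ A X : Type) (r M : ℕ) := A × (Λ × Option (Key r M) → X)

/-- the law -/
def KP (PA : FP A) (μ : Λ → FP X) : FP (KSp Λ A X r M) := FP.pr PA (piFP (fun q : Λ × Option (Key r M) => μ q.1))

/-- the real vertex -/
def Kr (y : Λ) (w : KSp Λ A X r M) : X := w.2 (y, none)

/-- the keys -/
def Kk (w : KSp Λ A X r M) : Λ × Key r M → X := fun q => w.2 (q.1, some q.2)

/-- the labels -/
def LB (lab : E → A → (Λ → X) → γ) (i : E × (Λ → Option (Key r M))) (w : KSp Λ A X r M) : γ :=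
  lab i.1 w.1 (fun y => w.2 (y, i.2 y))

/-- exchange of the sites of the letter `y` -/
def tau (y : Λ) (k : Key r M) : KSp Λ A X r M ≃ KSp Λ A X r M where
  toFun w := (w.1, fun q => w.2 (q.1, if q.1 = y then Equiv.swap none (some k) q.2 else q.2))
  invFun w := (w.1, fun q => w.2 (q.1, if q.1 = y then Equiv.swap none (some k) q.2 else q.2))
  left_inv w := by
    refine Prod.ext rfl (funext fun q => ?_)
    by_cases hq : q.1 = y
    · simp [hq]
      rw [← hq]
    · simp [hq]
  right_inv w := by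
    refine Prod.ext rfl (funext fun q => ?_)
    by_cases hq : q.1 = y
    · simp [hq]
      rw [← hq]
    · simp [hq]

variable (PA : FP A) (μ : Λ → FP X)

theorem tau_p (y : Λ) (k : Key r M) (w : KSp Λ A X r M) :
    (KP (r := r) (M := M) PA μ).p (tau y k w) = (KP (r := r) (M := M) PA μ).p w := by
  show PA.p w.1 * ∏ q : Λ × Option (Key r M), (μ q.1).p
    (w.2 (q.1, if q.1 = y then Equiv.swap none (some k) q.2 else q.2)) =
    PA.p w.1 * ∏ q : Λ × Option (Key r M), (μ q.1).p (w.2 q)
  congr 1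
  set e : Λ × Option (Key r M) ≃ Λ × Option (Key r M) :=
    { toFun := fun q => (q.1, if q.1 = y then Equiv.swap none (some k) q.2 else q.2)
      invFun := fun q => (q.1, if q.1 = y then Equiv.swap none (some k) q.2 else q.2)
      left_inv := fun q => by
        by_cases hq : q.1 = y
        · simp [hq]
          rw [← hq]
        · simp [hq]
      right_inv := fun q => by
        by_cases hq : q.1 = y
        · simp [hq]
          rw [← hq]
        · simp [hq] } with he
  exact Equiv.prod_comp e (fun q => (μ q.1).p (w.2 q))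

variable {Sh : E → Finset Λ} {lab : E → A → (Λ → X) → γ}

theorem LB_tau (hlab : ∀ e a x x', (∀ y ∈ Sh e, x y = x' y) → lab e a x = lab e a x') (y : Λ) (k : Key r M)
    (i : E × (Λ → Option (Key r M))) (w : KSp Λ A X r M) : LB lab i (tau y k w) = LB lab (sw Sh y k i) w := by
  unfold LB
  refine hlab _ _ _ _ (fun y' hy' => ?_)
  show w.2 (y', if y' = y then Equiv.swap none (some k) (i.2 y') else i.2 y') = w.2 (y', (sw Sh y k i).2 y')
  unfold sw
  by_cases hyy : y' = y
  · subst hyy
    rw [if_pos rfl]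
    simp only [if_pos hy']
    rw [Function.update_self]
  · rw [if_neg hyy]
    by_cases hyS : y ∈ Sh i.1
    · simp only [if_pos hyS]
      rw [Function.update_of_ne hyy]
    · simp only [if_neg hyS]

/-- EXCHANGE -/
theorem KP_sw (hlab : ∀ e a x x', (∀ y ∈ Sh e, x y = x' y) → lab e a x = lab e a x') (y : Λ) (k : Key r M)
    (s : Set (E × (Λ → Option (Key r M)))) :
    hF (KP PA μ) (LB lab) (VV Kr Kk) (sw Sh y k '' s) = hF (KP PA μ) (LB lab) (VV Kr Kk) s := by
  set P := KP (r := r) (M := M) PA μ with hP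
  have hV : ∀ v w : KSp Λ A X r M, VV Kr Kk (tau y k v) = VV Kr Kk (tau y k w) ↔ VV Kr Kk v = VV Kr Kk w := by
    have key : ∀ v w : KSp Λ A X r M, VV Kr Kk v = VV Kr Kk w ↔ v.2 = w.2 := by
      intro v w
      unfold VV Kr Kk
      rw [Prod.mk.injEq]
      constructor
      · rintro ⟨h1, h2⟩
        funext q
        rcases q with ⟨y', s'⟩
        cases s' with
        | none => exact congrFun h1 y'
        | some k' => exact congrFun h2 (y', k')
      · intro h
        rw [h]
        exact ⟨rfl, rfl⟩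
    intro v w
    rw [key, key]
    constructor
    · intro h
      funext q
      have h1 := congrFun h (q.1, if q.1 = y then Equiv.swap none (some k) q.2 else q.2)
      have h2 : ∀ u : KSp Λ A X r M,
          (tau y k u).2 (q.1, if q.1 = y then Equiv.swap none (some k) q.2 else q.2) = u.2 q := by
        intro u
        have := congrFun (congrArg Prod.snd ((tau y k).left_inv u)) q
        exact this
      rw [h2, h2] at h1
      exact h1
    · intro h
      show (fun q => v.2 _) = (fun q => w.2 _)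
      rw [h]
  have hFm : ∀ v w : KSp Λ A X r M, Fam (LB lab) s (tau y k v) = Fam (LB lab) s (tau y k w) ↔
      Fam (LB lab) (sw Sh y k '' s) v = Fam (LB lab) (sw Sh y k '' s) w := by
    intro v w
    rw [Fam_eq_iff', Fam_eq_iff']
    constructor
    · rintro h _ ⟨i, hi, rfl⟩
      rw [← LB_tau hlab, ← LB_tau hlab]
      exact h i hi
    · intro h i hi
      rw [LB_tau hlab, LB_tau hlab]
      exact h _ ⟨i, hi, rfl⟩
  have e1 : P.H (fun w => (Fam (LB lab) (sw Sh y k '' s) w, VV Kr Kk w)) =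
      P.H (fun w => (Fam (LB lab) s (tau y k w), VV Kr Kk (tau y k w))) := by
    refine P.H_congr (fun v w h => ?_) (fun v w h => ?_)
    · simp only [Prod.mk.injEq] at h ⊢
      exact ⟨(hFm v w).2 h.1, (hV v w).2 h.2⟩
    · simp only [Prod.mk.injEq] at h ⊢
      exact ⟨(hFm v w).1 h.1, (hV v w).1 h.2⟩
  have e2 : P.H (VV (Kr (A := A) (X := X) (Λ := Λ) (r := r) (M := M)) Kk) = P.H (fun w => VV Kr Kk (tau y k w)) :=
    P.H_congr (fun v w h => (hV v w).2 h) (fun v w h => (hV v w).1 h)
  have e3 := H_equiv P (tau y k) (tau_p PA μ y k) (fun w => (Fam (LB lab) s w, VV Kr Kk w))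
  have e4 := H_equiv P (tau y k) (tau_p PA μ y k) (VV (Kr (A := A) (X := X) (Λ := Λ) (r := r) (M := M)) Kk)
  unfold hF FP.Hc
  rw [e1, e2, e3, e4]

/-- INDEPENDENCE OF THE VERTICES WHICH ARE NOT USED -/
theorem KP_ind (hlab : ∀ e a x x', (∀ y ∈ Sh e, x y = x' y) → lab e a x = lab e a x') (U : Finset Λ)
    (s : Set (E × (Λ → Option (Key r M)))) (hs : ∀ i ∈ s, fresh Sh i ⊆ U) :
    (KP PA μ).Hc (Fam (LB lab) s) (Vw Kr Kk U) = (KP PA μ).Hc (Fam (LB lab) s) (VV Kr Kk) := by
  classical
  set P := KP (r := r) (M := M) PA μ with hP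
  set R : Λ × Option (Key r M) → Prop := fun q => q.2 = none → q.1 ∈ U with hR
  have hind := pr_pi_indep PA (fun q : Λ × Option (Key r M) => μ q.1) R
  have hVw : ∀ v w : KSp Λ A X r M, Vw Kr Kk U v = Vw Kr Kk U w ↔
      (fun q : {q // R q} => v.2 q.1) = (fun q : {q // R q} => w.2 q.1) := by
    intro v w
    unfold Vw
    rw [Prod.mk.injEq, Fam_eq_iff']
    constructor
    · rintro ⟨h1, h2⟩
      funext q
      rcases q with ⟨⟨y, s'⟩, hq⟩
      cases s' with
      | none => exact h1 y (hq rfl)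
      | some k => exact congrFun h2 (y, k)
    · intro h
      refine ⟨fun y hy => ?_, ?_⟩
      · exact congrFun h ⟨(y, none), fun _ => hy⟩
      · funext q
        exact congrFun h ⟨(q.1, some q.2), fun hh => absurd hh (by simp)⟩
  have hVV : ∀ v w : KSp Λ A X r M, VV Kr Kk v = VV Kr Kk w ↔
      ((fun q : {q // R q} => v.2 q.1) = (fun q : {q // R q} => w.2 q.1) ∧
        (fun q : {q // ¬ R q} => v.2 q.1) = (fun q : {q // ¬ R q} => w.2 q.1)) := by
    intro v w
    unfold VV
    rw [Prod.mk.injEq]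
    constructor
    · rintro ⟨h1, h2⟩
      have h3 : v.2 = w.2 := by
        funext q
        rcases q with ⟨y', s'⟩
        cases s' with
        | none => exact congrFun h1 y'
        | some k' => exact congrFun h2 (y', k')
      rw [h3]
      exact ⟨rfl, rfl⟩
    · rintro ⟨h1, h2⟩
      have h3 : v.2 = w.2 := by
        funext q
        by_cases hq : R q
        · exact congrFun h1 ⟨q, hq⟩
        · exact congrFun h2 ⟨q, hq⟩
      refine ⟨?_, ?_⟩
      · funext y
        exact congrFun h3 (y, none)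
      · funext q
        exact congrFun h3 (q.1, some q.2)
  have hFa : ∀ v w : KSp Λ A X r M, (v.1, fun q : {q // R q} => v.2 q.1) = (w.1, fun q : {q // R q} => w.2 q.1) →
      Fam (LB lab) s v = Fam (LB lab) s w := by
    intro v w h
    rw [Prod.mk.injEq] at h
    refine Fam_eq_iff'.2 (fun i hi => ?_)
    unfold LB
    rw [h.1]
    refine hlab _ _ _ _ (fun y hy => ?_)
    refine congrFun h.2 ⟨(y, i.2 y), fun h0 => hs i hi (mem_fresh.2 ⟨hy, h0⟩)⟩
  set VR : KSp Λ A X r M → ({q // R q} → X) := fun w q => w.2 q.1 with hVR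
  set VN : KSp Λ A X r M → ({q // ¬ R q} → X) := fun w q => w.2 q.1 with hVN
  have i1 : P.Indep (fun w => (Fam (LB lab) s w, VR w)) VN := by
    refine hind.mono (fun v w h => ?_) (Fac.refl _)
    have h' := h
    rw [Prod.mk.injEq] at h
    simp only [Prod.mk.injEq]
    exact ⟨hFa v w h', h.2⟩
  have i2 : P.Indep VR VN := by
    refine hind.mono (fun v w h => ?_) (Fac.refl _)
    rw [Prod.mk.injEq] at h
    exact h.2
  have e1 : P.H (fun w => (Fam (LB lab) s w, VV Kr Kk w)) = P.H (fun w => (Fam (LB lab) s w, VR w)) + P.H VN := by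
    rw [← H_indep P i1]
    refine P.H_congr (fun v w h => ?_) (fun v w h => ?_)
    · simp only [Prod.mk.injEq] at h ⊢
      have := (hVV v w).1 h.2
      exact ⟨⟨h.1, this.1⟩, this.2⟩
    · simp only [Prod.mk.injEq] at h ⊢
      exact ⟨h.1.1, (hVV v w).2 ⟨h.1.2, h.2⟩⟩
  have e2 : P.H (VV (Kr (A := A) (X := X) (Λ := Λ) (r := r) (M := M)) Kk) = P.H VR + P.H VN := by
    rw [← H_indep P i2]
    refine P.H_congr (fun v w h => ?_) (fun v w h => ?_)
    · simp only [Prod.mk.injEq]
      exact (hVV v w).1 h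
    · simp only [Prod.mk.injEq] at h
      exact (hVV v w).2 h
  have e3 : P.H (fun w => (Fam (LB lab) s w, Vw Kr Kk U w)) = P.H (fun w => (Fam (LB lab) s w, VR w)) := by
    refine P.H_congr (fun v w h => ?_) (fun v w h => ?_)
    · simp only [Prod.mk.injEq] at h ⊢
      exact ⟨h.1, (hVw v w).1 h.2⟩
    · simp only [Prod.mk.injEq] at h ⊢
      exact ⟨h.1, (hVw v w).2 h.2⟩
  have e4 : P.H (Vw (Kr (A := A) (X := X) (Λ := Λ) (r := r) (M := M)) Kk U) = P.H VR := by
    refine P.H_congr (fun v w h => ?_) (fun v w h => ?_)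
    · exact (hVw v w).1 h
    · exact (hVw v w).2 h
  unfold FP.Hc
  rw [e1, e2, e3, e4]
  ring

/-- CM.3 (1)-(3) -/
theorem key_sim [Fintype E] {T : E → Prop} (o : Λ) (sub : E → Finset E) (sz : E → ℕ)
    (hsub : ∀ e, ∀ e' ∈ sub e, Sh e' ⊆ Sh e) (hsz : ∀ e, ∀ e' ∈ sub e, sz e' < sz e)
    (hT : ∀ e, ¬ T e → ∀ e' ∈ sub e, ¬ T e')
    (hlab : ∀ e a x x', (∀ y ∈ Sh e, x y = x' y) → lab e a x = lab e a x')
    (hr : Fintype.card Λ ≤ r) (N : ℕ → ℕ) (hN : ∀ l, 0 < N l) (hM : ∀ l < r, N l ≤ M) (H : ℕ → ℝ)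
    (hH : ∀ U : Finset Λ, U ≠ univ → ∀ n ∈ Box (fun q : Λ × Fin r => N q.2),
      hF (KP (r := r) (M := M) PA μ) (LB lab) (VV Kr Kk) (TT (M := M) Sh T n U) ≤ H U.card) :
    ∃ n ∈ Box (fun q : Λ × Fin r => N q.2), ∃ (Θ : Type) (_ : Fintype Θ) (Q : FP Θ)
      (Ls : E × (Λ → Option (Key r M)) → KSp Λ A X r M × Θ → γ),
      (∀ i, o ∉ fresh Sh i → ∀ w, Ls i w = LB lab i w.1) ∧
      (∀ i w, ∃ v, Ls i w = LB lab i v) ∧
      (∀ i w, (FP.pr (KP (r := r) (M := M) PA μ) Q).p w ≠ 0 → ∃ v, (KP (r := r) (M := M) PA μ).p v ≠ 0 ∧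
        Vw Kr Kk (fresh Sh i) v = Vw Kr Kk (fresh Sh i) w.1 ∧ Ls i w = LB lab i v) ∧
      (∀ i ∈ Co Sh T n o, Fac (fun w => (w.2, Vw Kr Kk (fresh Sh i) w.1, Fam Ls (low Sh sub i) w)) (Ls i)) ∧
      (∀ U : Finset Λ, o ∈ U → U ≠ univ → ∀ i ∈ TT Sh T n U,
        Fac (fun w => (w.2, Vw Kr Kk U w.1, Fam Ls (WW Sh T n U ∅) w)) (Ls i)) ∧
      Acm (KP (r := r) (M := M) PA μ) (FP.pr (KP (r := r) (M := M) PA μ) Q) (fun w => (VV Kr Kk w, Fam (LB lab) (All Sh T n) w))
        (fun w => (VV Kr Kk w.1, Fam Ls (All Sh T n) w)) ∧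
      klm (KP (r := r) (M := M) PA μ) (FP.pr (KP (r := r) (M := M) PA μ) Q) (fun w => (VV Kr Kk w, Fam (LB lab) (All Sh T n) w))
        (fun w => (VV Kr Kk w.1, Fam Ls (All Sh T n) w)) ≤
        ∑ U ∈ (univ : Finset (Finset Λ)).erase univ, ((Fintype.card Λ - U.card : ℕ) : ℝ) * H U.card / N U.card +
        (costC (KP (r := r) (M := M) PA μ) (LB lab) Sh T (VV Kr Kk) sub n o - (hF (KP (r := r) (M := M) PA μ) (LB lab) (VV Kr Kk) (CC (M := M) Sh T n univ) -
          hF (KP (r := r) (M := M) PA μ) (LB lab) (VV Kr Kk) (Cw (M := M) Sh T n o))) := by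
  obtain ⟨n, hn, hle⟩ := exists_n (T := T) (KP (r := r) (M := M) PA μ) (LB lab) (VV Kr Kk) (fun y k s => KP_sw PA μ hlab y k s) hr N hN hM H hH
  obtain ⟨Θ, hΘ, Q, Ls, h1, h2, h2', h3, h4, h5, h6⟩ := simK (KP (r := r) (M := M) PA μ) (LB lab) Kr Kk o n sub sz hsub hsz hT
    (fun U s hs => KP_ind PA μ hlab U s hs)
  exact ⟨n, hn, Θ, hΘ, Q, Ls, h1, h2, h2', h3, h4, h5, h6.trans (add_le_add hle le_rfl)⟩

end key

end

end Pool.Agent.GMM
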