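import Pool.Agent.GMM.Inf
import Pool.Agent.M3.FPMart

/-!
# GMM/Rule: row CM, block CM.1 (general m): labels, rule, packages with caps, budgets, saturated state (helper36)

`a` = exact hidden vertex (with private seed), `x i` = exact vertices of the types `i : ι` (= `K`), `Q t` = node,
`f t I` = names.  `sel p v` = tuple of the `v i` with `p i`; `xr x I` = vertices of the types in `I`; `lt L I` = labels
of the proper subsets of `I`.  `Pkg` = package of type `(J, s)` at the class of `(x_J, Q)`.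

* `step_le` : change of `H(L_I | L_<I)` in one operation;
* `exists_sat_state` : saturation at one node level, with the accounts;
* `exists_rule` : THE THEOREM: labels for all times with (B1)-(B3), FAT and (SAT0), see `RuleOut`.
-/

set_option autoImplicit false
set_option linter.unusedSectionVars false

namespace Pool.Agent.GMM

open Finset Pool.Agent.PWZ Pool.Agent.M3

variable {Om : Type*} [Fintype Om]

noncomputable section

open Classical in
/-- the tuple of the `v i` with `p i` -/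
def sel {γ β : Type*} (p : γ → Prop) (v : γ → Om → β) (w : Om) : γ → Option β :=
  fun i => if p i then some (v i w) else none

theorem sel_eq {γ β : Type*} {p : γ → Prop} {v : γ → Om → β} {u w : Om} :
    sel p v u = sel p v w ↔ ∀ i, p i → v i u = v i w := by
  constructor
  · intro h i hi
    have h1 := congrFun h i
    simp only [sel, if_pos hi, Option.some.injEq] at h1
    exact h1
  · intro h
    funext i
    unfold sel
    by_cases hi : p i
    · rw [if_pos hi, if_pos hi, h i hi]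
    · rw [if_neg hi, if_neg hi]

theorem fac_sel {γ β κ : Type*} {p : γ → Prop} {v : γ → Om → β} {X : Om → κ} (h : ∀ i, p i → Fac X (v i)) :
    Fac X (sel p v) := fun u w e => sel_eq.2 (fun i hi => h i hi u w e)

theorem sel_fac {γ β : Type*} {p : γ → Prop} {v : γ → Om → β} {i : γ} (hi : p i) : Fac (sel p v) (v i) :=
  fun _ _ e => sel_eq.1 e i hi

theorem sel_mono {γ β : Type*} {p q : γ → Prop} {v : γ → Om → β} (h : ∀ i, q i → p i) : Fac (sel p v) (sel q v) :=
  fac_sel (fun i hi => sel_fac (h i hi))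

variable {ι : Type*} [Fintype ι] [DecidableEq ι] {χ : Type*}

/-- the vertices of the types in `I` -/
abbrev xr (x : ι → Om → χ) (I : Finset ι) : Om → ι → Option χ := sel (fun i => i ∈ I) x

/-- the labels of the proper subsets of `I` -/
abbrev lt {β : Type*} (L : Finset ι → Om → β) (I : Finset ι) : Om → Finset ι → Option β := sel (fun J => J ⊂ I) L

/-- the letters of a package below `G` -/
abbrev pk {β : Type*} (v : Finset ι → Om → β) (J G : Finset ι) : Om → Finset ι → Option β :=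
  sel (fun I => J ⊆ I ∧ I ⊂ G) v

/-- the condition of `H(L_I | L_<I)` -/
abbrev cz {β κ : Type*} (x : ι → Om → χ) (Q : Om → κ) (L : Finset ι → Om → β) (I : Finset ι) (w : Om) :
    (Finset ι → Option β) × (ι → Option χ) × κ := (lt L I w, xr x I w, Q w)

theorem lt_fac {β : Type*} (L : Finset ι → Om → β) {G I : Finset ι} (h : G ⊂ I) : Fac (lt L I) (L G) :=
  sel_fac (p := fun J => J ⊂ I) (v := L) h

theorem xr_mono (x : ι → Om → χ) {I J : Finset ι} (h : J ⊆ I) : Fac (xr x I) (xr x J) :=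
  sel_mono (fun _ hi => h hi)

/-! ## one operation -/

section op

variable {β β' β'' κ : Type*} (P : FP Om) (x : ι → Om → χ) (Q : Om → κ)

/-- change of `H(L_I|L_<I)` when `v` is adjoined to `L` (giving `L'`) -/
theorem step_le {L : Finset ι → Om → β} {L' : Finset ι → Om → β'} {v : Finset ι → Om → β''}
    (h1 : ∀ I, Fac (L' I) (L I)) (h2 : ∀ I, Fac (L' I) (v I)) (h3 : ∀ I, Fac (fun w => (v I w, L I w)) (L' I))
    (I : Finset ι) :
    P.Hc (L' I) (cz x Q L' I) ≤ P.Hc (L I) (cz x Q L I) - P.I (L I) (lt v I) (cz x Q L I) +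
      P.Hc (v I) (fun w => (L I w, xr x I w, Q w)) := by
  have e1 : P.Hc (L' I) (cz x Q L' I) = P.Hc (fun w => (v I w, L I w)) (fun w => (lt v I w, cz x Q L I w)) := by
    have hlt1 : Fac (lt L' I) (lt v I) := fac_sel (fun G hG => (lt_fac L' hG).trans (h2 G))
    have hlt2 : Fac (lt L' I) (lt L I) := fac_sel (fun G hG => (lt_fac L' hG).trans (h1 G))
    have hc1 : Fac (cz x Q L' I) (fun w => (lt v I w, cz x Q L I w)) := by
      intro a b e
      simp only [Prod.mk.injEq] at e ⊢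
      exact ⟨hlt1 a b e.1, hlt2 a b e.1, e.2.1, e.2.2⟩
    have hc2 : Fac (fun w => (lt v I w, cz x Q L I w)) (cz x Q L' I) := by
      intro a b e
      simp only [Prod.mk.injEq] at e ⊢
      refine ⟨sel_eq.2 (fun G hG => h3 G a b ?_), e.2.2.1, e.2.2.2⟩
      simp only [Prod.mk.injEq]
      exact ⟨sel_eq.1 e.1 G hG, sel_eq.1 e.2.1 G hG⟩
    refine P.Hc_congr ?_ hc1 ?_ hc2
    · exact (Fac.fst _ _).trans ((h2 I).prod (h1 I))
    · exact (Fac.fst _ _).trans (h3 I)
  rw [e1, P.Hc_chain, P.I_eq_Hc]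
  have e2 : P.Hc (v I) (fun w => (L I w, (lt v I w, cz x Q L I w))) ≤ P.Hc (v I) (fun w => (L I w, xr x I w, Q w)) := by
    refine P.Hc_anti _ (fun a b e => ?_)
    simp only [Prod.mk.injEq] at e ⊢
    exact ⟨e.1, e.2.2.2.1, e.2.2.2.2⟩
  linarith

end op

/-! ## the potential, packages -/

section defs

variable {α β κ : Type*} (P : FP Om)

/-- the proper subsets -/
def prp (ι : Type*) [Fintype ι] [DecidableEq ι] : Finset (Finset ι) := (univ : Finset (Finset ι)).erase univ

/-- the potential -/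
def psi (x : ι → Om → χ) (Q : Om → κ) (w : ℕ → ℝ) (L : Finset ι → Om → β) : ℝ :=
  ∑ I ∈ prp ι, w I.card * P.Hc (L I) (cz x Q L I)

/-- package of type `(J,s)` on the class of `(x_J, Q)` at `w0` -/
structure Pkg (a : Om → α) (x : ι → Om → χ) (Q : Om → κ) (fat : Finset ι → Om → Prop) (A : ℝ) (J : Finset ι)
    (s : ℕ) (w0 : Om) (v : Finset ι → Om → β) : Prop where
  fac : ∀ I, J ⊆ I → I.card < s → ∀ u w, (xr x J u, Q u) = (xr x J w0, Q w0) → a u = a w → xr x I u = xr x I w →
    Q u = Q w → v I u = v I w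
  card : ∀ I, J ⊆ I → I.card < s → ∀ w, P.p w ≠ 0 → (xr x J w, Q w) = (xr x J w0, Q w0) →
    (nv P (v I) (fun u => (xr x I u, Q u)) w : ℝ) ≤ Real.exp A
  fat : ∀ I, J ⊆ I → I.card < s → ∀ u w, P.p u ≠ 0 → P.p w ≠ 0 → (xr x J w, Q w) = (xr x J w0, Q w0) →
    fat I w → xr x I u = xr x I w → Q u = Q w → v I u = v I w

open Classical in
/-- the letters cut off outside of the class -/
def cut (x : ι → Om → χ) (Q : Om → κ) (J : Finset ι) (s : ℕ) (w0 : Om) (v : Finset ι → Om → ℕ) (I : Finset ι)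
    (w : Om) : ℕ :=
  if J ⊆ I ∧ I.card < s ∧ (xr x J w, Q w) = (xr x J w0, Q w0) then v I w + 1 else 0

open Classical in
/-- the scores after the operation -/
def bump (x : ι → Om → χ) (Q : Om → κ) (A : ℝ) (J : Finset ι) (s : ℕ) (w0 : Om) (sc : Finset ι → Om → ℝ)
    (I : Finset ι) (w : Om) : ℝ :=
  sc I w + if J ⊆ I ∧ I.card < s ∧ (xr x J w, Q w) = (xr x J w0, Q w0) then A else 0

/-- the full label: name and letters -/
def lab {φ : Type*} (f : Finset ι → Om → φ) (Y : Finset ι → Om → ℕ) (I : Finset ι) : Om → ℕ :=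
  code (fun w => (f I w, Y I w))

end defs

theorem lab_fst {φ : Type*} (f : Finset ι → Om → φ) (Y : Finset ι → Om → ℕ) (I : Finset ι) : Fac (lab f Y I) (f I) :=
  (code_fac _).trans (Fac.fst _ _)

theorem lab_snd {φ : Type*} (f : Finset ι → Om → φ) (Y : Finset ι → Om → ℕ) (I : Finset ι) : Fac (lab f Y I) (Y I) :=
  (code_fac _).trans (Fac.snd _ _)

theorem fac_lab {φ κ : Type*} {f : Finset ι → Om → φ} {Y : Finset ι → Om → ℕ} {I : Finset ι} {X : Om → κ}
    (h : Fac X (f I)) (h' : Fac X (Y I)) : Fac X (lab f Y I) := (h.prod h').trans (fac_code _)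

/-! ## one package -/

section package

variable {α κ : Type*} {P : FP Om} {a : Om → α} {x : ι → Om → χ} {Q : Om → κ} {fat : Finset ι → Om → Prop} {A : ℝ}
  {J : Finset ι} {s : ℕ} {w0 : Om} {v : Finset ι → Om → ℕ}

theorem cls_iff {I : Finset ι} (hJ : J ⊆ I) {u w : Om} (hx : xr x I u = xr x I w) (hQ : Q u = Q w) :
    (xr x J u, Q u) = (xr x J w0, Q w0) ↔ (xr x J w, Q w) = (xr x J w0, Q w0) := by
  have h1 := xr_mono x hJ u w hx
  rw [h1, hQ]

theorem cut_of {I : Finset ι} {w : Om} (h : J ⊆ I ∧ I.card < s ∧ (xr x J w, Q w) = (xr x J w0, Q w0)) :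
    cut x Q J s w0 v I w = v I w + 1 := by
  unfold cut
  rw [if_pos h]

theorem cut_not {I : Finset ι} {w : Om} (h : ¬ (J ⊆ I ∧ I.card < s ∧ (xr x J w, Q w) = (xr x J w0, Q w0))) :
    cut x Q J s w0 v I w = 0 := by
  unfold cut
  rw [if_neg h]

theorem bump_of {sc : Finset ι → Om → ℝ} {I : Finset ι} {w : Om}
    (h : J ⊆ I ∧ I.card < s ∧ (xr x J w, Q w) = (xr x J w0, Q w0)) :
    bump x Q A J s w0 sc I w = sc I w + A := by
  unfold bump
  rw [if_pos h]

theorem bump_not {sc : Finset ι → Om → ℝ} {I : Finset ι} {w : Om}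
    (h : ¬ (J ⊆ I ∧ I.card < s ∧ (xr x J w, Q w) = (xr x J w0, Q w0))) :
    bump x Q A J s w0 sc I w = sc I w := by
  unfold bump
  rw [if_neg h, add_zero]

theorem cut_fac (h : Pkg P a x Q fat A J s w0 v) (I : Finset ι) :
    Fac (fun w => (a w, xr x I w, Q w)) (cut x Q J s w0 v I) := by
  intro u w e
  simp only [Prod.mk.injEq] at e
  by_cases hc : J ⊆ I ∧ I.card < s ∧ (xr x J u, Q u) = (xr x J w0, Q w0)
  · have hc' : J ⊆ I ∧ I.card < s ∧ (xr x J w, Q w) = (xr x J w0, Q w0) :=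
      ⟨hc.1, hc.2.1, (cls_iff hc.1 e.2.1 e.2.2).1 hc.2.2⟩
    rw [cut_of hc, cut_of hc', h.fac I hc.1 hc.2.1 u w hc.2.2 e.1 e.2.1 e.2.2]
  · have hc' : ¬ (J ⊆ I ∧ I.card < s ∧ (xr x J w, Q w) = (xr x J w0, Q w0)) :=
      fun h' => hc ⟨h'.1, h'.2.1, (cls_iff h'.1 e.2.1 e.2.2).2 h'.2.2⟩
    rw [cut_not hc, cut_not hc']

theorem bump_fac {sc : Finset ι → Om → ℝ} {I : Finset ι} (h : Fac (fun w => (xr x I w, Q w)) (sc I)) :
    Fac (fun w => (xr x I w, Q w)) (bump x Q A J s w0 sc I) := by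
  intro u w e
  have e' := e
  simp only [Prod.mk.injEq] at e
  by_cases hc : J ⊆ I ∧ I.card < s ∧ (xr x J u, Q u) = (xr x J w0, Q w0)
  · have hc' : J ⊆ I ∧ I.card < s ∧ (xr x J w, Q w) = (xr x J w0, Q w0) :=
      ⟨hc.1, hc.2.1, (cls_iff hc.1 e.1 e.2).1 hc.2.2⟩
    rw [bump_of hc, bump_of hc', h u w e']
  · have hc' : ¬ (J ⊆ I ∧ I.card < s ∧ (xr x J w, Q w) = (xr x J w0, Q w0)) :=
      fun h' => hc ⟨h'.1, h'.2.1, (cls_iff h'.1 e.1 e.2).2 h'.2.2⟩
    rw [bump_not hc, bump_not hc', h u w e']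

/-- off the class the letter is constant -/
theorem nv_cut_off {I : Finset ι} {w : Om} (hc : ¬ (J ⊆ I ∧ I.card < s ∧ (xr x J w, Q w) = (xr x J w0, Q w0))) :
    nv P (cut x Q J s w0 v I) (fun u => (xr x I u, Q u)) w ≤ 1 := by
  have key : ∀ u, (xr x I u, Q u) = (xr x I w, Q w) → cut x Q J s w0 v I u = 0 := by
    intro u hu
    simp only [Prod.mk.injEq] at hu
    exact cut_not (fun h' => hc ⟨h'.1, h'.2.1, (cls_iff h'.1 hu.1 hu.2).1 h'.2.2⟩)
  exact nv_le_one (fun u u' _ _ h1 h2 => by rw [key u h1, key u' h2])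

theorem nv_cut_in (h : Pkg P a x Q fat A J s w0 v) {I : Finset ι} {w : Om} (hw : P.p w ≠ 0)
    (hc : J ⊆ I ∧ I.card < s ∧ (xr x J w, Q w) = (xr x J w0, Q w0)) :
    (nv P (cut x Q J s w0 v I) (fun u => (xr x I u, Q u)) w : ℝ) ≤ Real.exp A := by
  refine le_trans ?_ (h.card I hc.1 hc.2.1 w hw hc.2.2)
  have key : ∀ u, (xr x I u, Q u) = (xr x I w, Q w) → cut x Q J s w0 v I u = v I u + 1 := by
    intro u hu
    simp only [Prod.mk.injEq] at hu
    exact cut_of ⟨hc.1, hc.2.1, (cls_iff hc.1 hu.1 hu.2).2 hc.2.2⟩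
  exact_mod_cast nv_le_nv (fun u u' _ _ h1 h2 e => by rw [key u h1, key u' h2, e])

theorem nv_cut_fat (h : Pkg P a x Q fat A J s w0 v) {I : Finset ι} {w : Om} (hw : P.p w ≠ 0) (hf : fat I w) :
    nv P (cut x Q J s w0 v I) (fun u => (xr x I u, Q u)) w ≤ 1 := by
  by_cases hc : J ⊆ I ∧ I.card < s ∧ (xr x J w, Q w) = (xr x J w0, Q w0)
  · have key : ∀ u, (xr x I u, Q u) = (xr x I w, Q w) → cut x Q J s w0 v I u = v I u + 1 := by
      intro u hu
      simp only [Prod.mk.injEq] at hu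
      exact cut_of ⟨hc.1, hc.2.1, (cls_iff hc.1 hu.1 hu.2).2 hc.2.2⟩
    refine nv_le_one (fun u u' hu hu' h1 h2 => ?_)
    rw [key u h1, key u' h2]
    simp only [Prod.mk.injEq] at h1 h2
    rw [h.fat I hc.1 hc.2.1 u w hu hw hc.2.2 hf h1.1 h1.2, h.fat I hc.1 hc.2.1 u' w hu' hw hc.2.2 hf h2.1 h2.2]
  · exact nv_cut_off hc

open Classical in
/-- entropy of the letter -/
theorem Hc_cut (h : Pkg P a x Q fat A J s w0 v) (hA : 0 ≤ A) (I : Finset ι) :
    P.Hc (cut x Q J s w0 v I) (fun u => (xr x I u, Q u)) ≤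
      if J ⊆ I ∧ I.card < s then A * P.m (fun u => (xr x J u, Q u)) w0 else 0 := by
  refine (Hc_le_nv P _ _).trans ?_
  have hpt : ∀ w, P.p w ≠ 0 → Real.log (nv P (cut x Q J s w0 v I) (fun u => (xr x I u, Q u)) w) ≤
      (if J ⊆ I ∧ I.card < s then A else 0) * ind ((xr x J w, Q w) = (xr x J w0, Q w0)) := by
    intro w hw
    have hpos : (0 : ℝ) < (nv P (cut x Q J s w0 v I) (fun u => (xr x I u, Q u)) w : ℝ) := by
      exact_mod_cast nv_pos hw
    by_cases hc : J ⊆ I ∧ I.card < s ∧ (xr x J w, Q w) = (xr x J w0, Q w0)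
    · rw [if_pos ⟨hc.1, hc.2.1⟩, ind_of hc.2.2, mul_one, ← Real.log_exp A]
      exact Real.log_le_log hpos (nv_cut_in h hw hc)
    · have h1 := nv_cut_off (P := P) (v := v) hc
      have h2 : Real.log (nv P (cut x Q J s w0 v I) (fun u => (xr x I u, Q u)) w) ≤ 0 := by
        refine Real.log_nonpos hpos.le ?_
        exact_mod_cast h1
      refine h2.trans (mul_nonneg ?_ (ind_nonneg _))
      split_ifs
      · exact hA
      · exact le_rfl
  refine (P.E_mono hpt).trans ?_
  rw [P.E_smul]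
  have e : P.E (fun w => ind ((xr x J w, Q w) = (xr x J w0, Q w0))) = P.m (fun u => (xr x J u, Q u)) w0 := rfl
  rw [e]
  split_ifs
  · exact le_rfl
  · rw [zero_mul]

open Classical in
theorem E_bump (sc : Finset ι → Om → ℝ) (I : Finset ι) :
    P.E (fun w => bump x Q A J s w0 sc I w - sc I w) =
      if J ⊆ I ∧ I.card < s then A * P.m (fun u => (xr x J u, Q u)) w0 else 0 := by
  have h1 : P.E (fun w => bump x Q A J s w0 sc I w - sc I w) =
      P.E (fun w => (if J ⊆ I ∧ I.card < s then A else 0) * ind ((xr x J w, Q w) = (xr x J w0, Q w0))) := by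
    refine P.E_congr (fun w _ => ?_)
    by_cases hc : J ⊆ I ∧ I.card < s ∧ (xr x J w, Q w) = (xr x J w0, Q w0)
    · rw [bump_of hc, if_pos ⟨hc.1, hc.2.1⟩, ind_of hc.2.2]; ring
    · rw [bump_not hc]
      by_cases h2 : J ⊆ I ∧ I.card < s
      · rw [ind_not (fun h3 => hc ⟨h2.1, h2.2, h3⟩)]; ring
      · rw [if_neg h2]; ring
  rw [h1, P.E_smul]
  have e : P.E (fun w => ind ((xr x J w, Q w) = (xr x J w0, Q w0))) = P.m (fun u => (xr x J u, Q u)) w0 := rfl
  rw [e]
  split_ifs
  · rfl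
  · rw [zero_mul]

end package

/-! ## saturated states -/

section sat

variable {α κ φ : Type*}

/-- the letters after the operation -/
def nxt (x : ι → Om → χ) (Q : Om → κ) (J : Finset ι) (s : ℕ) (w0 : Om) (v : Finset ι → Om → ℕ)
    (Y : Finset ι → Om → ℕ) (I : Finset ι) : Om → ℕ := code (fun w => (Y I w, cut x Q J s w0 v I w))

theorem nxt_fst (x : ι → Om → χ) (Q : Om → κ) (J : Finset ι) (s : ℕ) (w0 : Om) (v : Finset ι → Om → ℕ)
    (Y : Finset ι → Om → ℕ) (I : Finset ι) : Fac (nxt x Q J s w0 v Y I) (Y I) := (code_fac _).trans (Fac.fst _ _)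

theorem nxt_snd (x : ι → Om → χ) (Q : Om → κ) (J : Finset ι) (s : ℕ) (w0 : Om) (v : Finset ι → Om → ℕ)
    (Y : Finset ι → Om → ℕ) (I : Finset ι) : Fac (nxt x Q J s w0 v Y I) (cut x Q J s w0 v I) :=
  (code_fac _).trans (Fac.snd _ _)

/-- no package lowers the potential by its price -/
def SatSt (P : FP Om) (a : Om → α) (x : ι → Om → χ) (Q : Om → κ) (f : Finset ι → Om → φ)
    (fat : Finset ι → Om → Prop) (A w : ℕ → ℝ) (Y : Finset ι → Om → ℕ) : Prop :=
  ∀ (J : Finset ι) (s : ℕ) (w0 : Om) (v : Finset ι → Om → ℕ), J.card < s → s < Fintype.card ι → P.p w0 ≠ 0 →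
    Pkg P a x Q fat (A s) J s w0 v →
    psi P x Q w (lab f Y) - psi P x Q w (lab f (nxt x Q J s w0 v Y)) <
      2 ^ Fintype.card ι * w (s - 1) * A s * P.m (fun u => (xr x J u, Q u)) w0

variable {P : FP Om} {a : Om → α} {x : ι → Om → χ} {Q : Om → κ} {f : Finset ι → Om → φ}
  {fat : Finset ι → Om → Prop} {A w : ℕ → ℝ} {Y : Finset ι → Om → ℕ} {J : Finset ι} {s : ℕ} {w0 : Om}
  {v : Finset ι → Om → ℕ}

theorem mem_prp {I : Finset ι} : I ∈ prp ι ↔ I ≠ univ := by
  unfold prp; simp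

theorem card_lt_of_prp {I : Finset ι} (h : I ≠ univ) : I.card < Fintype.card ι :=
  (Finset.card_lt_iff_ne_univ I).2 h

theorem card_prp_le : ((prp ι).card : ℝ) ≤ 2 ^ Fintype.card ι := by
  have h1 : (prp ι).card ≤ (univ : Finset (Finset ι)).card := Finset.card_le_card (Finset.erase_subset _ _)
  rw [Finset.card_univ, Fintype.card_finset] at h1
  exact_mod_cast h1

theorem psi_nonneg (hw : ∀ r, 0 < w r) {β : Type*} (L : Finset ι → Om → β) : 0 ≤ psi P x Q w L :=
  Finset.sum_nonneg (fun _ _ => mul_nonneg (hw _).le (P.Hc_nonneg _ _))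

/-- the drop of the potential -/
theorem psi_drop (hw : ∀ r, 0 < w r) :
    psi P x Q w (lab f (nxt x Q J s w0 v Y)) ≤ psi P x Q w (lab f Y) -
      ∑ I ∈ prp ι, w I.card * P.I (lab f Y I) (lt (cut x Q J s w0 v) I) (cz x Q (lab f Y) I) +
      ∑ I ∈ prp ι, w I.card * P.Hc (cut x Q J s w0 v I) (fun u => (xr x I u, Q u)) := by
  unfold psi
  rw [← Finset.sum_sub_distrib, ← Finset.sum_add_distrib]
  refine Finset.sum_le_sum (fun I _ => ?_)
  have h1 := step_le P x Q (L := lab f Y) (L' := lab f (nxt x Q J s w0 v Y)) (v := cut x Q J s w0 v)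
    (fun I => fac_lab (lab_fst _ _ _) ((lab_snd _ _ _).trans (nxt_fst _ _ _ _ _ _ _ _)))
    (fun I => (lab_snd _ _ _).trans (nxt_snd _ _ _ _ _ _ _ _))
    (fun I => fac_lab ((Fac.snd _ _).trans (lab_fst _ _ _))
      ((((Fac.snd _ _).trans (lab_snd _ _ _)).prod (Fac.fst _ _)).trans (fac_code _))) I
  have h2 : P.Hc (cut x Q J s w0 v I) (fun u => (lab f Y I u, xr x I u, Q u)) ≤
      P.Hc (cut x Q J s w0 v I) (fun u => (xr x I u, Q u)) := P.Hc_anti _ (Fac.snd _ _)
  have h3 := mul_le_mul_of_nonneg_left (h1.trans (add_le_add_right h2 _)) (hw I.card).le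
  linarith

/-- the price -/
theorem cost_le (hw : ∀ r, 0 < w r) (hwm : ∀ r s, r ≤ s → s < Fintype.card ι → w r ≤ w s)
    (hA : 0 ≤ A s) (h : Pkg P a x Q fat (A s) J s w0 v) (hs : s < Fintype.card ι) :
    ∑ I ∈ prp ι, w I.card * P.Hc (cut x Q J s w0 v I) (fun u => (xr x I u, Q u)) ≤
      2 ^ Fintype.card ι * w (s - 1) * A s * P.m (fun u => (xr x J u, Q u)) w0 := by
  have hm := P.m_nonneg (fun u => (xr x J u, Q u)) w0
  have h1 : ∀ I ∈ prp ι, w I.card * P.Hc (cut x Q J s w0 v I) (fun u => (xr x I u, Q u)) ≤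
      w (s - 1) * (A s * P.m (fun u => (xr x J u, Q u)) w0) := by
    intro I _
    have h2 := Hc_cut h hA I
    by_cases hc : J ⊆ I ∧ I.card < s
    · rw [if_pos hc] at h2
      have h3 : w I.card ≤ w (s - 1) := hwm _ _ (by omega) (by omega)
      exact mul_le_mul h3 h2 (P.Hc_nonneg _ _) (hw _).le
    · rw [if_neg hc] at h2
      have h4 : w I.card * P.Hc (cut x Q J s w0 v I) (fun u => (xr x I u, Q u)) ≤ 0 :=
        mul_nonpos_of_nonneg_of_nonpos (hw _).le h2
      exact h4.trans (mul_nonneg (hw _).le (mul_nonneg hA hm))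
  refine (Finset.sum_le_card_nsmul _ _ _ h1).trans ?_
  rw [nsmul_eq_mul]
  have h5 : 0 ≤ w (s - 1) * (A s * P.m (fun u => (xr x J u, Q u)) w0) :=
    mul_nonneg (hw _).le (mul_nonneg hA hm)
  refine (mul_le_mul_of_nonneg_right card_prp_le h5).trans (le_of_eq (by ring))

/-- (SAT0) on the class of `w0` -/
theorem sat0_nat (hw : ∀ r, 0 < w r) (hwm : ∀ r s, r ≤ s → s < Fintype.card ι → w r ≤ w s)
    (hA : 0 ≤ A s) (hsat : SatSt P a x Q f fat A w Y) (hJ : J.card < s) (hs : s < Fintype.card ι) (hw0 : P.p w0 ≠ 0)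
    (h : Pkg P a x Q fat (A s) J s w0 v) {I : Finset ι} (hJI : J ⊂ I) (hI : I.card = s) :
    (P.cond (fun u => (xr x J u, Q u) = (xr x J w0, Q w0))).I (lab f Y I) (pk v J I) (cz x Q (lab f Y) I) ≤
      2 * (2 ^ Fintype.card ι * w (s - 1) * A s) / w s := by
  have hm := P.m_pos (fun u => (xr x J u, Q u)) hw0
  have h1 := hsat J s w0 v hJ hs hw0 h
  have h2 := psi_drop (P := P) (x := x) (Q := Q) (f := f) (Y := Y) (J := J) (s := s) (w0 := w0) (v := v) hw
  have h3 := cost_le hw hwm hA h hs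
  have hne : I ≠ univ := by
    intro hI'
    rw [hI', Finset.card_univ] at hI
    omega
  have h4 : w I.card * P.I (lab f Y I) (lt (cut x Q J s w0 v) I) (cz x Q (lab f Y) I) ≤
      ∑ I ∈ prp ι, w I.card * P.I (lab f Y I) (lt (cut x Q J s w0 v) I) (cz x Q (lab f Y) I) :=
    Finset.single_le_sum (f := fun I => w I.card * P.I (lab f Y I) (lt (cut x Q J s w0 v) I) (cz x Q (lab f Y) I))
      (fun I _ => mul_nonneg (hw _).le (P.I_nonneg _ _ _)) (mem_prp.2 hne)
  have h5 : P.I (lab f Y I) (lt (cut x Q J s w0 v) I) (cz x Q (lab f Y) I) =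
      P.m (fun u => (xr x J u, Q u)) w0 *
        (P.cond (fun u => (xr x J u, Q u) = (xr x J w0, Q w0))).I (lab f Y I) (pk v J I) (cz x Q (lab f Y) I) := by
    refine I_cut_cls P (V := fun u => (xr x J u, Q u)) ?_ hw0 ?_ ?_
    · intro u u' e
      simp only [Prod.mk.injEq] at e ⊢
      exact ⟨xr_mono x hJI.1 u u' e.2.1, e.2.2⟩
    · intro u u' hu hu'
      rw [sel_eq, sel_eq]
      constructor
      · intro hh G hG
        have hcard : G.card < s := hI ▸ Finset.card_lt_card hG.2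
        have h6 := hh G hG.2
        rw [cut_of ⟨hG.1, hcard, hu⟩, cut_of ⟨hG.1, hcard, hu'⟩] at h6
        omega
      · intro hh G hG
        have hcard : G.card < s := hI ▸ Finset.card_lt_card hG
        by_cases hJG : J ⊆ G
        · rw [cut_of ⟨hJG, hcard, hu⟩, cut_of ⟨hJG, hcard, hu'⟩, hh G ⟨hJG, hG⟩]
        · rw [cut_not (fun hc => hJG hc.1), cut_not (fun hc => hJG hc.1)]
    · intro u u' hu hu'
      rw [sel_eq]
      intro G _
      rw [cut_not (fun hc => hu hc.2.2), cut_not (fun hc => hu' hc.2.2)]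
  rw [hI, h5] at h4
  rw [le_div_iff₀ (hw s)]
  refine le_of_mul_le_mul_left ?_ hm
  nlinarith [h1, h2, h3, h4]

end sat

/-! ## existence of a saturated state at one level -/

section exist

variable {α κ φ : Type*}

/-- the invariants of a state (letters `Y`, scores `sc`) -/
structure Inv (P : FP Om) (a : Om → α) (x : ι → Om → χ) (Q : Om → κ) (aa : ℕ → ℝ) (Y : Finset ι → Om → ℕ)
    (sc : Finset ι → Om → ℝ) : Prop where
  fac : ∀ I, Fac (fun u => (a u, xr x I u, Q u)) (Y I)
  sfac : ∀ I, Fac (fun u => (xr x I u, Q u)) (sc I)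
  nn : ∀ I u, 0 ≤ sc I u
  nvle : ∀ I, I.card < Fintype.card ι → ∀ u, P.p u ≠ 0 →
    (nv P (Y I) (fun z => (xr x I z, Q z)) u : ℝ) ≤ Real.exp (min (sc I u) (aa I.card / 2))

/-- the accounts of a run -/
structure Acc (P : FP Om) (x : ι → Om → χ) (Q : Om → κ) (f : Finset ι → Om → φ) (w : ℕ → ℝ) (Y : Finset ι → Om → ℕ)
    (sc : Finset ι → Om → ℝ) (Y' : Finset ι → Om → ℕ) (sc' : Finset ι → Om → ℝ) : Prop where
  ref : ∀ I, Fac (Y' I) (Y I)
  mono : ∀ I u, sc I u ≤ sc' I u
  pay : ∀ I, 2 ^ Fintype.card ι * w I.card * P.E (fun u => sc' I u - sc I u) ≤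
    psi P x Q w (lab f Y) - psi P x Q w (lab f Y')
  ent : ∀ I, P.Hc (Y' I) (fun u => (Y I u, xr x I u, Q u)) ≤ P.E (fun u => sc' I u - sc I u)
  top : ∀ I u, Fintype.card ι ≤ I.card + 1 → sc' I u = sc I u

variable {P : FP Om} {a : Om → α} {x : ι → Om → χ} {Q : Om → κ} {f : Finset ι → Om → φ}
  {A w aa : ℕ → ℝ} {Y Y' Y'' : Finset ι → Om → ℕ} {sc sc' sc'' : Finset ι → Om → ℝ} {J : Finset ι} {s : ℕ} {w0 : Om}
  {v : Finset ι → Om → ℕ}

theorem Hc_of_fac {β γ : Type*} (P : FP Om) {X : Om → β} {Z : Om → γ} (h : Fac Z X) : P.Hc X Z = 0 := by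
  unfold FP.Hc
  rw [P.H_congr (X := fun u => (X u, Z u)) (Y := Z) (Fac.snd _ _) (h.prod (Fac.refl Z)), sub_self]

theorem Acc.rfl' (P : FP Om) (x : ι → Om → χ) (Q : Om → κ) (f : Finset ι → Om → φ) (w : ℕ → ℝ)
    (Y : Finset ι → Om → ℕ) (sc : Finset ι → Om → ℝ) : Acc P x Q f w Y sc Y sc where
  ref := fun I => Fac.refl _
  mono := fun _ _ => le_rfl
  pay := fun I => by simp only [sub_self, P.E_const, mul_zero, le_refl]
  ent := fun I => by
    simp only [sub_self, P.E_const]
    exact (Hc_of_fac P (Fac.fst _ _)).le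
  top := fun _ _ _ => rfl

theorem E_sub3 (P : FP Om) (g g' g'' : Om → ℝ) :
    P.E (fun u => g'' u - g u) = P.E (fun u => g' u - g u) + P.E (fun u => g'' u - g' u) := by
  rw [← P.E_add]
  exact P.E_congr (fun u _ => by ring)

theorem Acc.trans (h : Acc P x Q f w Y sc Y' sc') (h' : Acc P x Q f w Y' sc' Y'' sc'') :
    Acc P x Q f w Y sc Y'' sc'' where
  ref := fun I => (h'.ref I).trans (h.ref I)
  mono := fun I u => (h.mono I u).trans (h'.mono I u)
  pay := fun I => by
    rw [E_sub3 P (sc I) (sc' I) (sc'' I), mul_add]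
    have h1 := h.pay I
    have h2 := h'.pay I
    linarith
  ent := fun I => by
    rw [E_sub3 P (sc I) (sc' I) (sc'' I)]
    have h1 := h.ent I
    have h2 := h'.ent I
    have h3 : P.Hc (Y'' I) (fun u => (Y I u, xr x I u, Q u)) ≤
        P.Hc (fun u => (Y'' I u, Y' I u)) (fun u => (Y I u, xr x I u, Q u)) :=
      P.Hc_mono _ ((Fac.fst _ _).trans (Fac.fst _ _))
    rw [P.Hc_chain] at h3
    have h4 : P.Hc (Y'' I) (fun u => (Y' I u, (Y I u, xr x I u, Q u))) ≤
        P.Hc (Y'' I) (fun u => (Y' I u, xr x I u, Q u)) := by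
      refine P.Hc_anti _ (fun b c e => ?_)
      simp only [Prod.mk.injEq] at e ⊢
      exact ⟨e.1, e.2.2⟩
    linarith
  top := fun I u hI => by rw [h'.top I u hI, h.top I u hI]

/-- one improving package -/
theorem acc_one (hw : ∀ r, 0 < w r) (hwm : ∀ r s, r ≤ s → s < Fintype.card ι → w r ≤ w s) {fat : Finset ι → Om → Prop}
    (hA : 0 ≤ A s) (hs : s < Fintype.card ι) (h : Pkg P a x Q fat (A s) J s w0 v)
    (himp : 2 ^ Fintype.card ι * w (s - 1) * A s * P.m (fun u => (xr x J u, Q u)) w0 ≤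
      psi P x Q w (lab f Y) - psi P x Q w (lab f (nxt x Q J s w0 v Y))) :
    Acc P x Q f w Y sc (nxt x Q J s w0 v Y) (bump x Q (A s) J s w0 sc) where
  ref := fun I => nxt_fst _ _ _ _ _ _ _ _
  mono := fun I u => by
    by_cases hc : J ⊆ I ∧ I.card < s ∧ (xr x J u, Q u) = (xr x J w0, Q w0)
    · rw [bump_of hc]; linarith
    · rw [bump_not hc]
  pay := fun I => by
    rw [E_bump]
    have hm := P.m_nonneg (fun u => (xr x J u, Q u)) w0
    have h0 : 0 ≤ 2 ^ Fintype.card ι * w (s - 1) * A s * P.m (fun u => (xr x J u, Q u)) w0 :=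
      mul_nonneg (mul_nonneg (mul_nonneg (by positivity) (hw _).le) hA) hm
    by_cases hc : J ⊆ I ∧ I.card < s
    · rw [if_pos hc]
      refine le_trans ?_ himp
      have h3 : w I.card ≤ w (s - 1) := hwm _ _ (by omega) (by omega)
      have h4 : 0 ≤ 2 ^ Fintype.card ι * (A s * P.m (fun u => (xr x J u, Q u)) w0) :=
        mul_nonneg (by positivity) (mul_nonneg hA hm)
      nlinarith [mul_le_mul_of_nonneg_left h3 h4]
    · rw [if_neg hc, mul_zero]
      exact h0.trans himp
  ent := fun I => by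
    rw [E_bump]
    have h1 : P.Hc (nxt x Q J s w0 v Y I) (fun u => (Y I u, xr x I u, Q u)) ≤
        P.Hc (cut x Q J s w0 v I) (fun u => (xr x I u, Q u)) := by
      have h2 : P.Hc (nxt x Q J s w0 v Y I) (fun u => (Y I u, xr x I u, Q u)) ≤
          P.Hc (cut x Q J s w0 v I) (fun u => (Y I u, xr x I u, Q u)) := by
        refine P.Hc_mono _ ?_
        intro b c e
        simp only [Prod.mk.injEq] at e
        exact fac_code _ b c (by simp only [Prod.mk.injEq]; exact ⟨e.2.1, e.1⟩)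
      exact h2.trans (P.Hc_anti _ (Fac.snd _ _))
    refine h1.trans ((Hc_cut h hA I).trans (le_of_eq ?_))
    split_ifs <;> rfl
  top := fun I u hI => by
    rw [bump_not (fun hc => by omega)]

theorem inv_one (hAa : ∀ r s, r < s → s < Fintype.card ι → A s ≤ aa r / 4) (hA : 0 ≤ A s) (hs : s < Fintype.card ι)
    (hi : Inv P a x Q aa Y sc) (h : Pkg P a x Q (fun I u => aa I.card / 4 < sc I u) (A s) J s w0 v) :
    Inv P a x Q aa (nxt x Q J s w0 v Y) (bump x Q (A s) J s w0 sc) where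
  fac := fun I => ((hi.fac I).prod (cut_fac h I)).trans (fac_code _)
  sfac := fun I => bump_fac (hi.sfac I)
  nn := fun I u => by
    have h0 := hi.nn I u
    by_cases hc : J ⊆ I ∧ I.card < s ∧ (xr x J u, Q u) = (xr x J w0, Q w0)
    · rw [bump_of hc]; linarith
    · rw [bump_not hc]; exact h0
  nvle := fun I hI u hu => by
    have h1 := nv_pair (P := P) (V := fun z => (xr x I z, Q z)) (fac_code (fun z => (Y I z, cut x Q J s w0 v I z))) u
    have h1' : (nv P (nxt x Q J s w0 v Y I) (fun z => (xr x I z, Q z)) u : ℝ) ≤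
        (nv P (Y I) (fun z => (xr x I z, Q z)) u : ℝ) * (nv P (cut x Q J s w0 v I) (fun z => (xr x I z, Q z)) u : ℝ) := by
      exact_mod_cast h1
    have h2 := hi.nvle I hI u hu
    have hle : sc I u ≤ bump x Q (A s) J s w0 sc I u := by
      by_cases hc : J ⊆ I ∧ I.card < s ∧ (xr x J u, Q u) = (xr x J w0, Q w0)
      · rw [bump_of hc]; linarith
      · rw [bump_not hc]
    have triv : nv P (cut x Q J s w0 v I) (fun z => (xr x I z, Q z)) u ≤ 1 →
        (nv P (nxt x Q J s w0 v Y I) (fun z => (xr x I z, Q z)) u : ℝ) ≤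
          Real.exp (min (bump x Q (A s) J s w0 sc I u) (aa I.card / 2)) := by
      intro h3
      have h3' : (nv P (cut x Q J s w0 v I) (fun z => (xr x I z, Q z)) u : ℝ) ≤ 1 := by exact_mod_cast h3
      refine h1'.trans ((mul_le_mul_of_nonneg_left h3' (Nat.cast_nonneg _)).trans ?_)
      rw [mul_one]
      exact h2.trans (Real.exp_le_exp.2 (min_le_min_right _ hle))
    by_cases hc : J ⊆ I ∧ I.card < s ∧ (xr x J u, Q u) = (xr x J w0, Q w0)
    · by_cases hf : aa I.card / 4 < sc I u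
      · exact triv (nv_cut_fat h hu hf)
      · have h4 := nv_cut_in h hu hc
        have h5 := hAa I.card s hc.2.1 hs
        push Not at hf
        rw [bump_of hc]
        have h6 : min (sc I u + A s) (aa I.card / 2) = sc I u + A s := min_eq_left (by linarith)
        rw [h6, Real.exp_add]
        refine h1'.trans (mul_le_mul (h2.trans (Real.exp_le_exp.2 (min_le_left _ _))) h4 (Nat.cast_nonneg _)
          (Real.exp_pos _).le)
    · exact triv (nv_cut_off hc)

/-- positive lower bound of a positive function on a finite set -/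
theorem exists_low {γ : Type*} (S : Finset γ) (g : γ → ℝ) (h : ∀ i ∈ S, 0 < g i) : ∃ c : ℝ, 0 < c ∧ ∀ i ∈ S, c ≤ g i := by
  classical
  induction S using Finset.induction_on with
  | empty => exact ⟨1, one_pos, fun i hi => absurd hi (Finset.notMem_empty i)⟩
  | insert j S _ ih =>
    obtain ⟨c, hc, h1⟩ := ih (fun i hi => h i (Finset.mem_insert_of_mem hi))
    refine ⟨min c (g j), lt_min hc (h j (Finset.mem_insert_self _ _)), fun i hi => ?_⟩
    rcases Finset.mem_insert.1 hi with rfl | hi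
    · exact min_le_right _ _
    · exact (min_le_left _ _).trans (h1 i hi)

/-- existence of a saturated state at one level -/
theorem exists_sat_state (P : FP Om) (a : Om → α) (x : ι → Om → χ) (Q : Om → κ) (f : Finset ι → Om → φ)
    (hw : ∀ r, 0 < w r) (hwm : ∀ r s, r ≤ s → s < Fintype.card ι → w r ≤ w s)
    (hA : ∀ s, 0 < A s) (hAa : ∀ r s, r < s → s < Fintype.card ι → A s ≤ aa r / 4)
    (hi : Inv P a x Q aa Y sc) :
    ∃ (Y' : Finset ι → Om → ℕ) (sc' : Finset ι → Om → ℝ), Inv P a x Q aa Y' sc' ∧ Acc P x Q f w Y sc Y' sc' ∧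
      SatSt P a x Q f (fun I u => aa I.card / 4 < sc' I u) A w Y' := by
  classical
  obtain ⟨c, hc, hlow⟩ := exists_low ((range (Fintype.card ι)) ×ˢ (univ.filter (fun u : Om => P.p u ≠ 0)))
    (fun q => 2 ^ Fintype.card ι * w (q.1 - 1) * A q.1 * P.p q.2) (fun q hq => by
      obtain ⟨-, h2⟩ := Finset.mem_product.1 hq
      have h3 := (Finset.mem_filter.1 h2).2
      have h4 : 0 < P.p q.2 := lt_of_le_of_ne (P.nn _) (Ne.symm h3)
      exact mul_pos (mul_pos (mul_pos (by positivity) (hw _)) (hA _)) h4)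
  have main : ∀ (n : ℕ) (Y : Finset ι → Om → ℕ) (sc : Finset ι → Om → ℝ), Inv P a x Q aa Y sc →
      psi P x Q w (lab f Y) ≤ n * c →
      ∃ (Y' : Finset ι → Om → ℕ) (sc' : Finset ι → Om → ℝ), Inv P a x Q aa Y' sc' ∧ Acc P x Q f w Y sc Y' sc' ∧
      SatSt P a x Q f (fun I u => aa I.card / 4 < sc' I u) A w Y' := by
    intro n
    induction n with
    | zero =>
      intro Y sc hi hn
      refine ⟨Y, sc, hi, Acc.rfl' P x Q f w Y sc, fun J s w0 v hJ hs hw0 h => ?_⟩
      have h1 := psi_nonneg (P := P) (x := x) (Q := Q) hw (lab f (nxt x Q J s w0 v Y))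
      have h2 : 0 < 2 ^ Fintype.card ι * w (s - 1) * A s * P.m (fun u => (xr x J u, Q u)) w0 :=
        mul_pos (mul_pos (mul_pos (by positivity) (hw _)) (hA _)) (P.m_pos _ hw0)
      rw [Nat.cast_zero, zero_mul] at hn
      linarith
    | succ n ih =>
      intro Y sc hi hn
      by_cases hsat : SatSt P a x Q f (fun I u => aa I.card / 4 < sc I u) A w Y
      · exact ⟨Y, sc, hi, Acc.rfl' P x Q f w Y sc, hsat⟩
      · unfold SatSt at hsat
        push Not at hsat
        obtain ⟨J, s, w0, v, hJ, hs, hw0, h, himp⟩ := hsat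
        have hi1 := inv_one hAa (hA s).le hs hi h
        have hacc := acc_one (f := f) (sc := sc) (Y := Y) hw hwm (hA s).le hs h himp
        have h3 : c ≤ 2 ^ Fintype.card ι * w (s - 1) * A s * P.m (fun u => (xr x J u, Q u)) w0 := by
          have h4 := hlow (s, w0) (Finset.mem_product.2 ⟨Finset.mem_range.2 hs,
            Finset.mem_filter.2 ⟨Finset.mem_univ _, hw0⟩⟩)
          have h5 : 0 ≤ 2 ^ Fintype.card ι * w (s - 1) * A s :=
            mul_nonneg (mul_nonneg (by positivity) (hw _).le) (hA _).le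
          exact h4.trans (mul_le_mul_of_nonneg_left (P.le_m _ w0) h5)
        have h6 : psi P x Q w (lab f (nxt x Q J s w0 v Y)) ≤ n * c := by
          push_cast at hn
          linarith
        obtain ⟨Y', sc', g1, g2, g3⟩ := ih _ _ hi1 h6
        exact ⟨Y', sc', g1, hacc.trans g2, g3⟩
  obtain ⟨n, hn⟩ := exists_nat_ge (psi P x Q w (lab f Y) / c)
  exact main n Y sc hi (by rwa [div_le_iff₀ hc] at hn)

end exist

/-! ## along the path -/

section path

variable {α : Type*} {κ δ φ : ℕ → Type*}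

/-- THE OUTPUT of CM.1 -/
structure RuleOut (P : FP Om) (a : Om → α) (x : ι → Om → χ) (Q : ∀ t, Om → κ t) (D : ∀ t, Om → δ t)
    (f : ∀ t, Finset ι → Om → φ t) (A w aa : ℕ → ℝ) (h : ℝ) (T : ℕ) (L : ℕ → Finset ι → Om → ℕ)
    (fat : ℕ → Finset ι → Om → Prop) : Prop where
  /-- the labels are functions of the hidden vertex, the vertices of `I` and the node -/
  fac : ∀ t I, Fac (fun u => (a u, xr x I u, Q t u)) (L t I)
  /-- the name is a part of the label -/
  name : ∀ t I, Fac (L t I) (f t I)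
  /-- the labels are cumulative -/
  mono : ∀ t I, Fac (L (t + 1) I) (L t I)
  fat_fac : ∀ t I, ∀ u z, xr x I u = xr x I z → Q t u = Q t z → (fat t I u ↔ fat t I z)
  fat_mono : ∀ t I u, fat t I u → fat (t + 1) I u
  fat_top : ∀ t I, I ≠ univ → Fintype.card ι ≤ I.card + 1 → ∀ u, ¬ fat t I u
  /-- (B1) -/
  nvle : ∀ t I, I ≠ univ → ∀ u, P.p u ≠ 0 → (nv P (L t I) (fun z => (xr x I z, Q t z)) u : ℝ) ≤ Real.exp (aa I.card)
  fatle : ∀ I, I ≠ univ → aa I.card * P.Pr (fat T I) ≤ 4 * (h * w (Fintype.card ι - 1) / w I.card)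
  /-- (B2) -/
  b2 : ∀ I, I ≠ univ → P.Hc (L 0 I) (fun u => (xr x I u, Q 0 u)) +
    ∑ t ∈ range T, P.Hc (L (t + 1) I) (fun u => (L t I u, xr x I u, Q (t + 1) u)) ≤
      h + h * w (Fintype.card ι - 1) / w I.card
  /-- (B3) -/
  b3 : ∀ I, I ≠ univ → ∑ t ∈ range T, (P.I (L t I) (D t) (cz x (Q t) (L t) I) +
    P.I (L t I) (lt (L (t + 1)) I) (cz x (Q (t + 1)) (L t) I)) ≤ h + h * w (Fintype.card ι - 1) / w I.card
  /-- (SAT0) -/
  sat0 : ∀ (t : ℕ) (J : Finset ι) (s : ℕ) (w0 : Om) (v : Finset ι → Om → ℕ), J.card < s → s < Fintype.card ι →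
    P.p w0 ≠ 0 → Pkg P a x (Q t) (fat t) (A s) J s w0 v → ∀ I, J ⊂ I → I.card = s →
    (P.cond (fun u => (xr x J u, Q t u) = (xr x J w0, Q t w0))).I (L t I) (pk v J I) (cz x (Q t) (L t) I) ≤
      2 * (2 ^ Fintype.card ι * w (s - 1) * A s) / w s

variable {P : FP Om} {a : Om → α} {x : ι → Om → χ} {Q : ∀ t, Om → κ t} {D : ∀ t, Om → δ t}
  {f : ∀ t, Finset ι → Om → φ t} {A w aa : ℕ → ℝ} {h : ℝ} {T : ℕ}

/-- births -/
theorem birth_le {κ1 κ2 φ1 φ2 : Type*} {Q1 : Om → κ1} {Q2 : Om → κ2} {f1 : Finset ι → Om → φ1}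
    {f2 : Finset ι → Om → φ2} (Y : Finset ι → Om → ℕ) (hQ : Fac Q2 Q1) (hf : ∀ I, Fac (f2 I) (f1 I)) (I : Finset ι) :
    P.Hc (lab f2 Y I) (cz x Q2 (lab f2 Y) I) ≤ P.Hc (lab f1 Y I) (cz x Q1 (lab f1 Y) I) +
      P.Hc (f2 I) (fun u => (f1 I u, xr x I u, Q2 u)) := by
  have href : ∀ G, Fac (lab f2 Y G) (lab f1 Y G) := fun G => fac_lab ((lab_fst _ _ _).trans (hf G)) (lab_snd _ _ _)
  have h1 : P.Hc (lab f2 Y I) (cz x Q2 (lab f2 Y) I) ≤
      P.Hc (fun u => (f2 I u, lab f1 Y I u)) (cz x Q2 (lab f2 Y) I) := by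
    refine P.Hc_mono _ ((Fac.fst _ _).trans (fac_lab (Fac.fst _ _) ((Fac.snd _ _).trans (lab_snd _ _ _))))
  rw [P.Hc_chain] at h1
  have h2 : P.Hc (lab f1 Y I) (cz x Q2 (lab f2 Y) I) ≤ P.Hc (lab f1 Y I) (cz x Q1 (lab f1 Y) I) := by
    refine P.Hc_anti _ (fun b c e => ?_)
    simp only [Prod.mk.injEq] at e ⊢
    exact ⟨sel_eq.2 (fun G hG => href G b c (sel_eq.1 e.1 G hG)), e.2.1, hQ b c e.2.2⟩
  have h3 : P.Hc (f2 I) (fun u => (lab f1 Y I u, cz x Q2 (lab f2 Y) I u)) ≤
      P.Hc (f2 I) (fun u => (f1 I u, xr x I u, Q2 u)) := by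
    refine P.Hc_anti _ (fun b c e => ?_)
    simp only [Prod.mk.injEq] at e ⊢
    exact ⟨lab_fst _ _ _ b c e.1, e.2.2⟩
  linarith

/-- the start -/
theorem start_le {κ1 φ1 : Type*} {Q1 : Om → κ1} {f1 : Finset ι → Om → φ1} (I : Finset ι) :
    P.Hc (lab f1 (fun _ _ => 0) I) (cz x Q1 (lab f1 (fun _ _ => 0)) I) ≤ P.Hc (f1 I) (fun u => (xr x I u, Q1 u)) := by
  have h1 : P.Hc (lab f1 (fun _ _ => 0) I) (cz x Q1 (lab f1 (fun _ _ => 0)) I) ≤
      P.Hc (f1 I) (cz x Q1 (lab f1 (fun _ _ => 0)) I) :=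
    P.Hc_mono _ ((Fac.fst _ _).trans (fac_lab (Fac.refl _) (Fac.const _ _)))
  exact h1.trans (P.Hc_anti _ (Fac.snd _ _))

/-- budget of the births of one label -/
def bud (P : FP Om) (x : ι → Om → χ) (Q : ∀ t, Om → κ t) (f : ∀ t, Finset ι → Om → φ t) (T : ℕ) (I : Finset ι) : ℝ :=
  P.Hc (f 0 I) (fun u => (xr x I u, Q 0 u)) +
    ∑ t ∈ range T, P.Hc (f (t + 1) I) (fun u => (f t I u, xr x I u, Q (t + 1) u))

/-- the labels are cumulative in the strong sense -/
theorem exists_rule' (P : FP Om) (a : Om → α) (x : ι → Om → χ) (Q : ∀ t, Om → κ t) (D : ∀ t, Om → δ t)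
    (f : ∀ t, Finset ι → Om → φ t) (A w aa : ℕ → ℝ) (h : ℝ) (T : ℕ) (hQ : Filt Q) (hD : ∀ t, Fac (Q (t + 1)) (D t))
    (hw : ∀ r, 0 < w r) (hwm : ∀ r s, r ≤ s → s < Fintype.card ι → w r ≤ w s) (hA : ∀ s, 0 < A s)
    (hAa : ∀ r s, r < s → s < Fintype.card ι → A s ≤ aa r / 4) (hh : 0 ≤ h)
    (haa : ∀ r, r < Fintype.card ι → 2 * h ≤ aa r)
    (hf : ∀ t I, Fac (fun u => (a u, xr x I u, Q t u)) (f t I)) (hfm : ∀ t I, Fac (f (t + 1) I) (f t I))
    (hfn : ∀ t I, I ≠ univ → ∀ u, P.p u ≠ 0 → (nv P (f t I) (fun z => (xr x I z, Q t z)) u : ℝ) ≤ Real.exp h)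
    (hfb : ∀ I, I ≠ univ → bud P x Q f T I ≤ h) :
    ∃ (L : ℕ → Finset ι → Om → ℕ) (fat : ℕ → Finset ι → Om → Prop),
      RuleOut P a x Q D f A w aa h T L fat := by
  classical
  have haa0 : ∀ r, r < Fintype.card ι → 0 ≤ aa r := fun r hr => by have := haa r hr; linarith
  -- the initial state
  have hi0 : Inv P a x (Q 0) aa (fun _ _ => 0) (fun _ _ => 0) :=
    { fac := fun I => Fac.const _ _
      sfac := fun I => Fac.const _ _
      nn := fun _ _ => le_rfl
      nvle := fun I hI u _ => by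
        have h1 := nv_const (P := P) (V := fun z => (xr x I z, Q 0 z)) (0 : ℕ) u
        have h2 : ((nv P (fun _ : Om => (0 : ℕ)) (fun z => (xr x I z, Q 0 z)) u : ℕ) : ℝ) ≤ 1 := by exact_mod_cast h1
        refine h2.trans (Real.one_le_exp (le_min le_rfl ?_))
        have := haa0 _ hI
        linarith }
  obtain ⟨Y0, sc0, hi0', hacc0, hsat0⟩ := exists_sat_state P a x (Q 0) (f 0) hw hwm hA hAa hi0
  -- total version of the step
  have step : ∀ (t : ℕ) (S : (Finset ι → Om → ℕ) × (Finset ι → Om → ℝ)),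
      ∃ S' : (Finset ι → Om → ℕ) × (Finset ι → Om → ℝ), Inv P a x (Q (t + 1)) aa S.1 S.2 →
        Inv P a x (Q (t + 1)) aa S'.1 S'.2 ∧ Acc P x (Q (t + 1)) (f (t + 1)) w S.1 S.2 S'.1 S'.2 ∧
        SatSt P a x (Q (t + 1)) (f (t + 1)) (fun I u => aa I.card / 4 < S'.2 I u) A w S'.1 := by
    intro t S
    by_cases hS : Inv P a x (Q (t + 1)) aa S.1 S.2
    · obtain ⟨Y', sc', h1, h2, h3⟩ := exists_sat_state P a x (Q (t + 1)) (f (t + 1)) hw hwm hA hAa hS
      exact ⟨(Y', sc'), fun _ => ⟨h1, h2, h3⟩⟩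
    · exact ⟨S, fun h' => absurd h' hS⟩
  choose st hst using step
  let S : ℕ → (Finset ι → Om → ℕ) × (Finset ι → Om → ℝ) := fun t => Nat.rec (Y0, sc0) (fun t S => st t S) t
  have S0 : S 0 = (Y0, sc0) := rfl
  have SS : ∀ t, S (t + 1) = st t (S t) := fun t => rfl
  have up : ∀ t, Inv P a x (Q t) aa (S t).1 (S t).2 → Inv P a x (Q (t + 1)) aa (S t).1 (S t).2 := by
    intro t hi
    exact
      { fac := fun I u z e => by
          simp only [Prod.mk.injEq] at e
          exact hi.fac I u z (by simp only [Prod.mk.injEq]; exact ⟨e.1, e.2.1, hQ t u z e.2.2⟩)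
        sfac := fun I u z e => by
          simp only [Prod.mk.injEq] at e
          exact hi.sfac I u z (by simp only [Prod.mk.injEq]; exact ⟨e.1, hQ t u z e.2⟩)
        nn := hi.nn
        nvle := fun I hI u hu => by
          refine le_trans ?_ (hi.nvle I hI u hu)
          have : nv P ((S t).1 I) (fun z => (xr x I z, Q (t + 1) z)) u ≤ nv P ((S t).1 I) (fun z => (xr x I z, Q t z)) u :=
            nv_anti (fun b c e => by
              simp only [Prod.mk.injEq] at e ⊢
              exact ⟨e.1, hQ t b c e.2⟩) u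
          exact_mod_cast this }
  have inv : ∀ t, Inv P a x (Q t) aa (S t).1 (S t).2 := by
    intro t
    induction t with
    | zero => exact hi0'
    | succ t ih => rw [SS]; exact (hst t (S t) (up t ih)).1
  have acc : ∀ t, Acc P x (Q (t + 1)) (f (t + 1)) w (S t).1 (S t).2 (S (t + 1)).1 (S (t + 1)).2 := by
    intro t
    rw [SS]
    exact (hst t (S t) (up t (inv t))).2.1
  have sat : ∀ t, SatSt P a x (Q t) (f t) (fun I u => aa I.card / 4 < (S t).2 I u) A w (S t).1 := by
    intro t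
    cases t with
    | zero => exact hsat0
    | succ t => rw [SS]; exact (hst t (S t) (up t (inv t))).2.2
  set L : ℕ → Finset ι → Om → ℕ := fun t => lab (f t) (S t).1 with hL
  -- scores of the large sets
  have sctop : ∀ t I, Fintype.card ι ≤ I.card + 1 → ∀ u, (S t).2 I u = 0 := by
    intro t I hI u
    induction t with
    | zero => exact hacc0.top I u hI
    | succ t ih => rw [(acc t).top I u hI]; exact ih
  -- mean of the scores
  have pay : ∀ T I, psi P x (Q T) w (L T) + 2 ^ Fintype.card ι * w I.card * P.E ((S T).2 I) ≤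
      ∑ G ∈ prp ι, w G.card * bud P x Q f T G := by
    intro T I
    induction T with
    | zero =>
      have h1 := hacc0.pay I
      have h2 : P.E (fun u => sc0 I u - 0) = P.E ((S 0).2 I) := P.E_congr (fun u _ => by rw [sub_zero]; rfl)
      rw [h2] at h1
      have h3 : psi P x (Q 0) w (lab (f 0) (fun _ _ => 0)) ≤ ∑ G ∈ prp ι, w G.card * bud P x Q f 0 G := by
        unfold psi bud
        refine Finset.sum_le_sum (fun G _ => mul_le_mul_of_nonneg_left ?_ (hw _).le)
        rw [Finset.range_zero, Finset.sum_empty, add_zero]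
        exact start_le G
      have h4 : psi P x (Q 0) w (L 0) = psi P x (Q 0) w (lab (f 0) Y0) := rfl
      rw [h4]
      linarith
    | succ T ih =>
      have h1 := (acc T).pay I
      have h2 : P.E ((S (T + 1)).2 I) = P.E ((S T).2 I) + P.E (fun u => (S (T + 1)).2 I u - (S T).2 I u) := by
        rw [← P.E_add]
        exact P.E_congr (fun u _ => by ring)
      have h3 : psi P x (Q (T + 1)) w (lab (f (T + 1)) (S T).1) ≤ psi P x (Q T) w (L T) +
          ∑ G ∈ prp ι, w G.card * P.Hc (f (T + 1) G) (fun u => (f T G u, xr x G u, Q (T + 1) u)) := by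
        unfold psi
        rw [← Finset.sum_add_distrib]
        refine Finset.sum_le_sum (fun G _ => ?_)
        rw [← mul_add]
        exact mul_le_mul_of_nonneg_left (birth_le (S T).1 (hQ T) (hfm T) G) (hw _).le
      have h4 : ∑ G ∈ prp ι, w G.card * bud P x Q f (T + 1) G = ∑ G ∈ prp ι, w G.card * bud P x Q f T G +
          ∑ G ∈ prp ι, w G.card * P.Hc (f (T + 1) G) (fun u => (f T G u, xr x G u, Q (T + 1) u)) := by
        rw [← Finset.sum_add_distrib]
        refine Finset.sum_congr rfl (fun G _ => ?_)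
        unfold bud
        rw [Finset.sum_range_succ]
        ring
      have h5 : psi P x (Q (T + 1)) w (L (T + 1)) = psi P x (Q (T + 1)) w (lab (f (T + 1)) (S (T + 1)).1) := rfl
      rw [h4, h2, h5, mul_add]
      linarith
  have scle : ∀ I, I ≠ univ → P.E ((S T).2 I) ≤ h * w (Fintype.card ι - 1) / w I.card := by
    intro I hI
    have hk : 0 < Fintype.card ι := lt_of_le_of_lt (Nat.zero_le _) (card_lt_of_prp hI)
    have h1 := pay T I
    have h2 := psi_nonneg (P := P) (x := x) (Q := Q T) hw (L T)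
    have h3 : ∑ G ∈ prp ι, w G.card * bud P x Q f T G ≤ 2 ^ Fintype.card ι * (w (Fintype.card ι - 1) * h) := by
      have h4 : ∀ G ∈ prp ι, w G.card * bud P x Q f T G ≤ w (Fintype.card ι - 1) * h := by
        intro G hG
        have hG' := mem_prp.1 hG
        have h5 := card_lt_of_prp hG'
        exact (mul_le_mul_of_nonneg_left (hfb G hG') (hw _).le).trans
          (mul_le_mul_of_nonneg_right (hwm _ _ (by omega) (by omega)) hh)
      refine (Finset.sum_le_card_nsmul _ _ _ h4).trans ?_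
      rw [nsmul_eq_mul]
      exact mul_le_mul_of_nonneg_right card_prp_le (mul_nonneg (hw _).le hh)
    rw [le_div_iff₀ (hw _)]
    have h6 : (0 : ℝ) < 2 ^ Fintype.card ι := by positivity
    refine le_of_mul_le_mul_left ?_ h6
    nlinarith
  -- births of the labels
  have incr : ∀ t I, P.Hc (L (t + 1) I) (fun u => (L t I u, xr x I u, Q (t + 1) u)) ≤
      P.Hc (f (t + 1) I) (fun u => (f t I u, xr x I u, Q (t + 1) u)) +
        P.E (fun u => (S (t + 1)).2 I u - (S t).2 I u) := by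
    intro t I
    have h1 : P.Hc (L (t + 1) I) (fun u => (L t I u, xr x I u, Q (t + 1) u)) ≤
        P.Hc (fun u => (f (t + 1) I u, (S (t + 1)).1 I u)) (fun u => (L t I u, xr x I u, Q (t + 1) u)) :=
      P.Hc_mono _ ((Fac.fst _ _).trans (fac_code _))
    rw [P.Hc_chain] at h1
    have h2 : P.Hc ((S (t + 1)).1 I) (fun u => (L t I u, xr x I u, Q (t + 1) u)) ≤
        P.Hc ((S (t + 1)).1 I) (fun u => ((S t).1 I u, xr x I u, Q (t + 1) u)) := by
      refine P.Hc_anti _ (fun b c e => ?_)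
      simp only [Prod.mk.injEq] at e ⊢
      exact ⟨lab_snd _ _ _ b c e.1, e.2⟩
    have h3 : P.Hc (f (t + 1) I) (fun u => ((S (t + 1)).1 I u, (L t I u, xr x I u, Q (t + 1) u))) ≤
        P.Hc (f (t + 1) I) (fun u => (f t I u, xr x I u, Q (t + 1) u)) := by
      refine P.Hc_anti _ (fun b c e => ?_)
      simp only [Prod.mk.injEq] at e ⊢
      exact ⟨lab_fst _ _ _ b c e.2.1, e.2.2⟩
    have h4 := (acc t).ent I
    linarith
  have init : ∀ I, P.Hc (L 0 I) (fun u => (xr x I u, Q 0 u)) ≤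
      P.Hc (f 0 I) (fun u => (xr x I u, Q 0 u)) + P.E ((S 0).2 I) := by
    intro I
    have h1 : P.Hc (L 0 I) (fun u => (xr x I u, Q 0 u)) ≤
        P.Hc (fun u => (f 0 I u, (S 0).1 I u)) (fun u => (xr x I u, Q 0 u)) :=
      P.Hc_mono _ ((Fac.fst _ _).trans (fac_code _))
    rw [P.Hc_chain] at h1
    have h3 : P.Hc (f 0 I) (fun u => ((S 0).1 I u, (xr x I u, Q 0 u))) ≤
        P.Hc (f 0 I) (fun u => (xr x I u, Q 0 u)) := P.Hc_anti _ (Fac.snd _ _)
    have h4 := hacc0.ent I
    have h5 : P.Hc (Y0 I) (fun u => ((fun _ _ => 0 : Finset ι → Om → ℕ) I u, xr x I u, Q 0 u)) =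
        P.Hc ((S 0).1 I) (fun u => (xr x I u, Q 0 u)) := by
      refine P.Hc_congr_snd _ (Fac.snd _ _) (fun b c e => ?_)
      simp only [Prod.mk.injEq] at e ⊢
      exact ⟨trivial, e⟩
    rw [h5] at h4
    have h2 : P.E (fun u => sc0 I u - 0) = P.E ((S 0).2 I) := P.E_congr (fun u _ => by rw [sub_zero]; rfl)
    rw [h2] at h4
    linarith
  have b2 : ∀ T I, P.Hc (L 0 I) (fun u => (xr x I u, Q 0 u)) +
      ∑ t ∈ range T, P.Hc (L (t + 1) I) (fun u => (L t I u, xr x I u, Q (t + 1) u)) ≤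
        bud P x Q f T I + P.E ((S T).2 I) := by
    intro T I
    induction T with
    | zero =>
      have h1 := init I
      unfold bud
      simp only [Finset.range_zero, Finset.sum_empty, add_zero]
      exact h1
    | succ T ih =>
      have h1 := incr T I
      have h2 : P.E ((S (T + 1)).2 I) = P.E ((S T).2 I) + P.E (fun u => (S (T + 1)).2 I u - (S T).2 I u) := by
        rw [← P.E_add]
        exact P.E_congr (fun u _ => by ring)
      unfold bud at ih ⊢
      rw [Finset.sum_range_succ, Finset.sum_range_succ, h2]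
      linarith
  have b3 : ∀ T I, ∑ t ∈ range T, (P.I (L t I) (D t) (cz x (Q t) (L t) I) +
      P.I (L t I) (lt (L (t + 1)) I) (cz x (Q (t + 1)) (L t) I)) + P.Hc (L T I) (cz x (Q T) (L T) I) ≤
      P.Hc (L 0 I) (fun u => (xr x I u, Q 0 u)) +
      ∑ t ∈ range T, P.Hc (L (t + 1) I) (fun u => (L t I u, xr x I u, Q (t + 1) u)) := by
    intro T I
    induction T with
    | zero =>
      simp only [Finset.range_zero, Finset.sum_empty, add_zero, zero_add]
      exact P.Hc_anti _ (Fac.snd _ _)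
    | succ T ih =>
      rw [Finset.sum_range_succ, Finset.sum_range_succ]
      have href : ∀ G, Fac (L (T + 1) G) (L T G) := fun G =>
        fac_lab ((lab_fst _ _ _).trans (hfm T G)) ((lab_snd _ _ _).trans ((acc T).ref G))
      have h1 := step_le P x (Q (T + 1)) (L := L T) (L' := L (T + 1)) (v := L (T + 1)) href (fun G => Fac.refl _)
        (fun G => Fac.fst _ _) I
      have h2 : P.Hc (L T I) (cz x (Q (T + 1)) (L T) I) ≤ P.Hc (L T I) (fun u => (D T u, cz x (Q T) (L T) I u)) := by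
        refine P.Hc_anti _ (fun b c e => ?_)
        simp only [Prod.mk.injEq] at e ⊢
        exact ⟨hD T b c e.2.2, e.1, e.2.1, hQ T b c e.2.2⟩
      have h3 := P.I_eq_Hc (L T I) (D T) (cz x (Q T) (L T) I)
      linarith
  refine ⟨L, fun t I u => aa I.card / 4 < (S t).2 I u, ?_⟩
  exact
    { fac := fun t I => fac_lab (hf t I) ((inv t).fac I)
      name := fun t I => lab_fst _ _ _
      mono := fun t I => fac_lab ((lab_fst _ _ _).trans (hfm t I)) ((lab_snd _ _ _).trans ((acc t).ref I))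
      fat_fac := fun t I u z hx hq => by
        rw [(inv t).sfac I u z (Prod.ext hx hq)]
      fat_mono := fun t I u hu => lt_of_lt_of_le hu ((acc t).mono I u)
      fat_top := fun t I hI hc u hu => by
        rw [sctop t I hc u] at hu
        have := haa0 _ (card_lt_of_prp hI)
        linarith
      nvle := fun t I hI u hu => by
        have h1 := nv_pair (P := P) (V := fun z => (xr x I z, Q t z)) (fac_code (fun z => (f t I z, (S t).1 I z))) u
        have h2 : (nv P (L t I) (fun z => (xr x I z, Q t z)) u : ℝ) ≤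
            (nv P (f t I) (fun z => (xr x I z, Q t z)) u : ℝ) * (nv P ((S t).1 I) (fun z => (xr x I z, Q t z)) u : ℝ) := by
          exact_mod_cast h1
        have h3 := hfn t I hI u hu
        have h4 := (inv t).nvle I (card_lt_of_prp hI) u hu
        have h5 := haa _ (card_lt_of_prp hI)
        refine h2.trans ((mul_le_mul h3 (h4.trans (Real.exp_le_exp.2 (min_le_right _ _))) (Nat.cast_nonneg _)
          (Real.exp_pos _).le).trans ?_)
        rw [← Real.exp_add]
        exact Real.exp_le_exp.2 (by linarith)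
      fatle := fun I hI => by
        have h1 := P.markov (f := (S T).2 I) (fun u _ => (inv T).nn I u) (aa I.card / 4)
        have h2 := scle I hI
        have h3 : P.Pr (fun u => aa I.card / 4 < (S T).2 I u) ≤ P.Pr (fun u => aa I.card / 4 ≤ (S T).2 I u) :=
          P.Pr_mono (fun u _ hu => le_of_lt hu)
        have h4 := mul_le_mul_of_nonneg_left h3 (haa0 _ (card_lt_of_prp hI))
        linarith
      b2 := fun I hI => (b2 T I).trans (add_le_add (hfb I hI) (scle I hI))
      b3 := fun I hI => by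
        have h1 := b3 T I
        have h2 := b2 T I
        have h3 := hfb I hI
        have h4 := scle I hI
        have h5 := P.Hc_nonneg (L T I) (cz x (Q T) (L T) I)
        linarith
      sat0 := fun t J s w0 v hJ hs hw0 hp I hJI hI =>
        sat0_nat hw hwm (hA s).le (sat t) hJ hs hw0 hp hJI hI }

/-- the history of the names -/
def hist (f : ∀ t, Finset ι → Om → φ t) (t : ℕ) (I : Finset ι) : Om → ℕ → Option ℕ :=
  sel (fun s => s ≤ t) (fun s => code (f s I))

/-- THE THEOREM (CM.1): the names need only be cumulative given the vertices and the node -/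
theorem exists_rule (P : FP Om) (a : Om → α) (x : ι → Om → χ) (Q : ∀ t, Om → κ t) (D : ∀ t, Om → δ t)
    (f : ∀ t, Finset ι → Om → φ t) (A w aa : ℕ → ℝ) (h : ℝ) (T : ℕ) (hQ : Filt Q) (hD : ∀ t, Fac (Q (t + 1)) (D t))
    (hw : ∀ r, 0 < w r) (hwm : ∀ r s, r ≤ s → s < Fintype.card ι → w r ≤ w s) (hA : ∀ s, 0 < A s)
    (hAa : ∀ r s, r < s → s < Fintype.card ι → A s ≤ aa r / 4) (hh : 0 ≤ h)
    (haa : ∀ r, r < Fintype.card ι → 2 * h ≤ aa r)
    (hf : ∀ t I, Fac (fun u => (a u, xr x I u, Q t u)) (f t I))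
    (hfm : ∀ t I, Fac (fun u => (f (t + 1) I u, xr x I u, Q (t + 1) u)) (f t I))
    (hfn : ∀ t I, I ≠ univ → ∀ u, P.p u ≠ 0 → (nv P (f t I) (fun z => (xr x I z, Q t z)) u : ℝ) ≤ Real.exp h)
    (hfb : ∀ I, I ≠ univ → bud P x Q f T I ≤ h) :
    ∃ (L : ℕ → Finset ι → Om → ℕ) (fat : ℕ → Finset ι → Om → Prop),
      RuleOut P a x Q D f A w aa h T L fat := by
  have hcode : ∀ t I s, s ≤ t → Fac (hist f t I) (f s I) := fun t I s hs =>
    (sel_fac (p := fun s => s ≤ t) (v := fun s => code (f s I)) hs).trans (code_fac _)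
  have hdown : ∀ I t d, Fac (fun u => (f (t + d) I u, xr x I u, Q (t + d) u)) (f t I) := by
    intro I t d
    induction d with
    | zero => exact Fac.fst _ _
    | succ d ih =>
      intro b c e
      have e' := e
      simp only [Prod.mk.injEq] at e
      refine ih b c ?_
      simp only [Prod.mk.injEq]
      exact ⟨hfm (t + d) I b c e', e.2.1, hQ (t + d) b c e.2.2⟩
  have hhist : ∀ t I, Fac (fun u => (f t I u, xr x I u, Q t u)) (hist f t I) := by
    intro t I
    refine fac_sel (fun s hs => ?_)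
    obtain ⟨d, rfl⟩ := Nat.exists_eq_add_of_le hs
    exact (hdown I s d).trans (fac_code _)
  obtain ⟨L, fat, hL⟩ := exists_rule' P a x Q D (hist f) A w aa h T hQ hD hw hwm hA hAa hh haa
    (fun t I => by
      intro b c e
      refine hhist t I b c ?_
      have h1 := hf t I b c e
      simp only [Prod.mk.injEq] at e ⊢
      exact ⟨h1, e.2.1, e.2.2⟩)
    (fun t I => sel_mono (fun s hs => Nat.le_succ_of_le hs))
    (fun t I hI u hu => by
      refine le_trans ?_ (hfn t I hI u hu)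
      exact_mod_cast nv_le_nv (fun b c _ _ hb hc e => hhist t I b c (by
        have h2 : (xr x I b, Q t b) = (xr x I c, Q t c) := hb.trans hc.symm
        simp only [Prod.mk.injEq] at h2 ⊢
        exact ⟨e, h2.1, h2.2⟩)))
    (fun I hI => by
      refine le_trans ?_ (hfb I hI)
      unfold bud
      refine add_le_add ?_ (Finset.sum_le_sum (fun t _ => ?_))
      · refine P.Hc_mono _ (fun b c e => hhist 0 I b c ?_)
        simp only [Prod.mk.injEq] at e ⊢
        exact ⟨e.1, e.2.1, e.2.2⟩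
      · have h1 : P.Hc (hist f (t + 1) I) (fun u => (hist f t I u, xr x I u, Q (t + 1) u)) ≤
            P.Hc (f (t + 1) I) (fun u => (hist f t I u, xr x I u, Q (t + 1) u)) := by
          refine P.Hc_mono _ (fun b c e => hhist (t + 1) I b c ?_)
          simp only [Prod.mk.injEq] at e ⊢
          exact ⟨e.1, e.2.2.1, e.2.2.2⟩
        refine h1.trans (P.Hc_anti _ (fun b c e => ?_))
        simp only [Prod.mk.injEq] at e ⊢
        exact ⟨hcode t I t le_rfl b c e.1, e.2.1, e.2.2⟩)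
  exact ⟨L, fat,
    { fac := hL.fac
      name := fun t I => (hL.name t I).trans (hcode t I t le_rfl)
      mono := hL.mono
      fat_fac := hL.fat_fac
      fat_mono := hL.fat_mono
      fat_top := hL.fat_top
      nvle := hL.nvle
      fatle := hL.fatle
      b2 := hL.b2
      b3 := hL.b3
      sat0 := hL.sat0 }⟩

/-- (SAT0) for letters with values in an arbitrary type -/
theorem RuleOut.sat_any {L : ℕ → Finset ι → Om → ℕ} {fat : ℕ → Finset ι → Om → Prop}
    (hR : RuleOut P a x Q D f A w aa h T L fat) {β : Type*} (t : ℕ) {J : Finset ι} {s : ℕ} {w0 : Om}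
    {v : Finset ι → Om → β} (hJ : J.card < s) (hs : s < Fintype.card ι) (hw0 : P.p w0 ≠ 0)
    (hv : Pkg P a x (Q t) (fat t) (A s) J s w0 v) {I : Finset ι} (hJI : J ⊂ I) (hI : I.card = s) :
    (P.cond (fun u => (xr x J u, Q t u) = (xr x J w0, Q t w0))).I (L t I) (pk v J I) (cz x (Q t) (L t) I) ≤
      2 * (2 ^ Fintype.card ι * w (s - 1) * A s) / w s := by
  have h1 := hR.sat0 t J s w0 (fun I => code (v I)) hJ hs hw0
    { fac := fun I hJI' hc u z h0 ha hx hq => fac_code (v I) u z (hv.fac I hJI' hc u z h0 ha hx hq)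
      card := fun I hJI' hc z hz h0 => by
        refine le_trans ?_ (hv.card I hJI' hc z hz h0)
        exact_mod_cast nv_le_nv (fun b c _ _ _ _ e => fac_code (v I) b c e)
      fat := fun I hJI' hc u z hu hz h0 hf hx hq => fac_code (v I) u z (hv.fat I hJI' hc u z hu hz h0 hf hx hq) } I hJI hI
  refine le_trans (le_of_eq ?_) h1
  refine FP.I_congr_snd _ _ _ ?_ ?_
  · exact fac_sel (fun G hG => (sel_fac (p := fun I' => J ⊆ I' ∧ I' ⊂ I) (v := v) hG).trans (fac_code _))
  · exact fac_sel (fun G hG =>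
      (sel_fac (p := fun I' => J ⊆ I' ∧ I' ⊂ I) (v := fun I => code (v I)) hG).trans (code_fac _))

/-- `fat` is increasing -/
theorem RuleOut.fat_le {L : ℕ → Finset ι → Om → ℕ} {fat : ℕ → Finset ι → Om → Prop}
    (hR : RuleOut P a x Q D f A w aa h T L fat) {s t : ℕ} (hst : s ≤ t) {I : Finset ι} {u : Om} (hu : fat s I u) :
    fat t I u := by
  induction t, hst using Nat.le_induction with
  | base => exact hu
  | succ t _ ih => exact hR.fat_mono t I u ih

/-- labels refine the earlier labels -/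
theorem RuleOut.mono_le {L : ℕ → Finset ι → Om → ℕ} {fat : ℕ → Finset ι → Om → Prop}
    (hR : RuleOut P a x Q D f A w aa h T L fat) {s t : ℕ} (hst : s ≤ t) (I : Finset ι) : Fac (L t I) (L s I) := by
  induction t, hst using Nat.le_induction with
  | base => exact Fac.refl _
  | succ t _ ih => exact (hR.mono t I).trans ih

/-- entropy of a label on a class of the vertices of `I` and the node -/
theorem RuleOut.H_le {L : ℕ → Finset ι → Om → ℕ} {fat : ℕ → Finset ι → Om → Prop}
    (hR : RuleOut P a x Q D f A w aa h T L fat) (t : ℕ) {I : Finset ι} (hI : I ≠ univ) {u : Om} (hu : P.p u ≠ 0) :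
    (P.cond (fun z => (xr x I z, Q t z) = (xr x I u, Q t u))).H (L t I) ≤ aa I.card := by
  refine (H_cond_le_nv P (L t I) (fun z => (xr x I z, Q t z)) hu).trans ?_
  have h1 := hR.nvle t I hI u hu
  have h2 : (0 : ℝ) < (nv P (L t I) (fun z => (xr x I z, Q t z)) u : ℝ) := by exact_mod_cast nv_pos hu
  calc Real.log (nv P (L t I) (fun z => (xr x I z, Q t z)) u) ≤ Real.log (Real.exp (aa I.card)) := Real.log_le_log h2 h1
    _ = aa I.card := Real.log_exp _

/-- probability that some set of vertices ever gets fat -/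
theorem RuleOut.Pr_fat {L : ℕ → Finset ι → Om → ℕ} {fat : ℕ → Finset ι → Om → Prop}
    (hR : RuleOut P a x Q D f A w aa h T L fat) {I : Finset ι} (hI : I ≠ univ) :
    aa I.card * P.Pr (fun u => ∃ t ≤ T, fat t I u) ≤ 4 * (h * w (Fintype.card ι - 1) / w I.card) := by
  refine le_trans (le_of_eq ?_) (hR.fatle I hI)
  congr 1
  refine P.Pr_congr (fun u _ => ⟨?_, fun hu => ⟨T, le_rfl, hu⟩⟩)
  rintro ⟨t, ht, hu⟩
  exact hR.fat_le ht hu

end path

end

end Pool.Agent.GMM
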