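import Pool.Agent.GMM.Base
import Pool.Agent.GMM.KeyInst
import Pool.Agent.GMM.Rule

/-!
# GMM/Def: the common definitions of the static part of row CM (helper46)

* `MP P P' π` : the map `π` sends the law `P` to the law `P'`; entropies and informations are preserved (`MP.H`, `MP.Hc`,
  `MP.I`, `MP.E_mX`, ...); `H_ae`, `Hc_ae`, `I_ae` : maps which are equal on the support.
* `piFP_comp` : restriction of a table along an injection, `piFP_curry` : tables of tables.
* `SD` : the data at one class of `(x_J, Q)`: hidden law, laws of the vertices, exact vertices `x0` of the types in `J`, labels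
  as functions `lab I a x` depending on `x i`, `i ∈ I`.
* A collection is a finite type `W` with types `ty : W → ι`; `CS`, `CP` = its sample space and law (all vertices independent),
  `LC G` = the label of the label set `G`, `Vt` = all vertices.  `JInj` : at most one vertex for each type in `J`.
* `LC_map`, `MP_proj` : a collection embedded in another one.
* `nA` = number of values of a function of the hidden point (on the support).
* `Ext` : admissible extras; `mst` = the mean of `m*_G`, `mmG` = the mean of `m_G`.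
* `BdX`, `Bd` : the bounds of the static theorem; `PhiBd` = (i'), `Sat0Bd` = (SAT0), at the class.
-/

set_option autoImplicit false
set_option linter.unusedSectionVars false

namespace Pool.Agent.GMM

open Finset Pool.Agent.PWZ Pool.Agent.M3 Pool.Agent.M3.FP Pool.Agent.GMC

noncomputable section

/-! ## measure preserving maps -/

section mp

variable {Om Om' Om'' : Type*} [Fintype Om] [Fintype Om'] [Fintype Om'']

/-- `π` sends the law `P` to the law `P'` -/
def MP (P : FP Om) (P' : FP Om') (π : Om → Om') : Prop := ∀ f : Om' → ℝ, P.E (fun w => f (π w)) = P'.E f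

variable {P : FP Om} {P' : FP Om'} {P'' : FP Om''} {π : Om → Om'} {π' : Om' → Om''}
  {κ κ' ι ι' ν : Type*}

theorem MP.comp (h : MP P P' π) (h' : MP P' P'' π') : MP P P'' (fun w => π' (π w)) := fun f => by
  rw [← h' f]
  exact h (fun v => f (π' v))

theorem MP.refl (P : FP Om) : MP P P (fun w => w) := fun _ => rfl

theorem MP.Pr (h : MP P P' π) (s : Om' → Prop) : P.Pr (fun w => s (π w)) = P'.Pr s := h (fun v => ind (s v))

theorem MP.m (h : MP P P' π) (X : Om' → κ) (w : Om) : P.m (fun v => X (π v)) w = P'.m X (π w) :=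
  h (fun v => ind (X v = X (π w)))

theorem MP.ne (h : MP P P' π) {w : Om} (hw : P.p w ≠ 0) : P'.p (π w) ≠ 0 := by
  classical
  intro h0
  have h1 := h.m (fun v => v) w
  have h2 : P'.m (fun v => v) (π w) = P'.p (π w) := by
    unfold FP.m FP.E
    rw [Finset.sum_eq_single (π w)]
    · show P'.p (π w) * ind (π w = π w) = _
      rw [ind_of rfl, mul_one]
    · intro b _ hb
      show P'.p b * ind (b = π w) = 0
      rw [ind_not hb, mul_zero]
    · intro h3
      exact absurd (Finset.mem_univ _) h3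
  rw [h2, h0] at h1
  exact (P.m_pos _ hw).ne' h1

theorem MP.H (h : MP P P' π) (X : Om' → κ) : P.H (fun w => X (π w)) = P'.H X := by
  unfold FP.H
  rw [← h (fun v => - Real.log (P'.m X v))]
  refine P.E_congr (fun w _ => ?_)
  rw [h.m X w]

theorem MP.Hc (h : MP P P' π) (X : Om' → κ) (Y : Om' → ι) : P.Hc (fun w => X (π w)) (fun w => Y (π w)) = P'.Hc X Y := by
  unfold FP.Hc
  rw [← h.H (fun v => (X v, Y v)), ← h.H Y]

theorem MP.I (h : MP P P' π) (X : Om' → κ) (Y : Om' → ι) (Z : Om' → ν) :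
    P.I (fun w => X (π w)) (fun w => Y (π w)) (fun w => Z (π w)) = P'.I X Y Z := by
  rw [P.I_eq_Hc, P'.I_eq_Hc, ← h.Hc X Z, ← h.Hc X (fun v => (Y v, Z v))]

theorem MP.E_ip (h : MP P P' π) (X : Om' → κ) (Y : Om' → κ') (Z : Om' → ι) (N : Om' → ν) :
    P.E (GMC.ip P (fun w => X (π w)) (fun w => Y (π w)) (fun w => Z (π w)) (fun w => N (π w))) =
      P'.E (GMC.ip P' X Y Z N) := by
  rw [GMC.E_ip, GMC.E_ip]
  exact h.I X Y (fun w => (Z w, N w))

/-! ## maps which are equal on the support -/

theorem m_ae (P : FP Om) {X Y : Om → κ} (h : ∀ w, P.p w ≠ 0 → X w = Y w) {w : Om} (hw : P.p w ≠ 0) :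
    P.m X w = P.m Y w := by
  unfold FP.m
  refine P.E_congr (fun v hv => ?_)
  rw [h v hv, h w hw]

theorem H_ae (P : FP Om) {X Y : Om → κ} (h : ∀ w, P.p w ≠ 0 → X w = Y w) : P.H X = P.H Y := by
  unfold FP.H
  exact P.E_congr (fun w hw => by rw [m_ae P h hw])

theorem Hc_ae (P : FP Om) {X X' : Om → κ} {Y Y' : Om → ι} (h : ∀ w, P.p w ≠ 0 → X w = X' w)
    (h' : ∀ w, P.p w ≠ 0 → Y w = Y' w) : P.Hc X Y = P.Hc X' Y' := by
  unfold FP.Hc
  rw [H_ae P (X := fun w => (X w, Y w)) (Y := fun w => (X' w, Y' w)) (fun w hw => by rw [h w hw, h' w hw]), H_ae P h']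

theorem I_ae (P : FP Om) {X X' : Om → κ} {Y Y' : Om → κ'} {Z Z' : Om → ι} (h : ∀ w, P.p w ≠ 0 → X w = X' w)
    (h1 : ∀ w, P.p w ≠ 0 → Y w = Y' w) (h2 : ∀ w, P.p w ≠ 0 → Z w = Z' w) : P.I X Y Z = P.I X' Y' Z' := by
  rw [P.I_eq_Hc, P.I_eq_Hc, Hc_ae P h h2, Hc_ae P h (fun w hw => by rw [h1 w hw, h2 w hw])]

end mp

/-! ## tables -/

section tab

variable {α α' β : Type*} [Fintype α] [DecidableEq α] [Fintype α'] [DecidableEq α'] [Fintype β] [DecidableEq β]

/-- reindexing a table -/
theorem piFP_equiv (e : α ≃ α') (K : α' → FP β) (f : (α → β) → ℝ) :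
    (piFP K).E (fun u => f (fun y => u (e y))) = (piFP (fun y => K (e y))).E f := by
  unfold FP.E piFP
  rw [← Equiv.sum_comp (Equiv.arrowCongr e (Equiv.refl β))]
  refine Finset.sum_congr rfl (fun u _ => ?_)
  have h1 : ∀ q, (Equiv.arrowCongr e (Equiv.refl β)) u q = u (e.symm q) := fun q => rfl
  have h2 : ∏ x, (K x).p ((Equiv.arrowCongr e (Equiv.refl β)) u x) = ∏ y, (K (e y)).p (u y) := by
    rw [← Equiv.prod_comp e]
    refine Finset.prod_congr rfl (fun y _ => ?_)
    rw [h1, Equiv.symm_apply_apply]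
  show (∏ x, (K x).p ((Equiv.arrowCongr e (Equiv.refl β)) u x)) * _ = _
  rw [h2]
  congr 1
  show f (fun y => (Equiv.arrowCongr e (Equiv.refl β)) u (e y)) = f u
  congr 1
  funext y
  rw [h1, Equiv.symm_apply_apply]

/-- restricting a table along an injection, auxiliary form -/
theorem piFP_comp_aux (K : α' → FP β) (R : α' → Prop) [DecidablePred R] (e : α ≃ {q // R q}) (f : (α → β) → ℝ) :
    (piFP K).E (fun u => f (fun y => u (e y).1)) = (piFP (fun y => K (e y).1)).E f := by
  rw [piFP_split K R (fun u => f (fun y => u (e y).1)), ← piFP_equiv e (fun q : {q // R q} => K q.1) f]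
  refine FP.E_congr _ (fun x _ => ?_)
  have h : ∀ z : {q // ¬ R q} → β, f (fun y => glue R x z (e y).1) = f (fun y => x (e y)) := by
    intro z
    congr 1
    funext y
    unfold glue
    rw [dif_pos (e y).2]
  simp only [h]
  exact FP.E_const _ _

open Classical in
/-- restricting a table along an injection -/
theorem piFP_comp {e : α → α'} (he : Function.Injective e) (K : α' → FP β) (f : (α → β) → ℝ) :
    (piFP K).E (fun u => f (fun y => u (e y))) = (piFP (fun y => K (e y))).E f :=
  piFP_comp_aux K (fun q => q ∈ Set.range e) (Equiv.ofInjective e he) f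

/-- a table of tables -/
theorem piFP_curry (K : α → α' → FP β) (f : (α → α' → β) → ℝ) :
    (piFP (fun q => piFP (fun y => K q y))).E f = (piFP (fun p : α × α' => K p.1 p.2)).E (fun u => f (fun q y => u (q, y))) := by
  unfold FP.E piFP
  rw [← Equiv.sum_comp (Equiv.curry α α' β)]
  refine Finset.sum_congr rfl (fun u _ => ?_)
  have h1 : ∏ x, ∏ y, (K x y).p ((Equiv.curry α α' β) u x y) = ∏ p : α × α', (K p.1 p.2).p (u p) := by
    rw [Fintype.prod_prod_type]
    rfl
  show (∏ x, ∏ y, (K x y).p ((Equiv.curry α α' β) u x y)) * _ = _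
  rw [h1]
  rfl

end tab

/-! ## the data at a class -/

/-- the data at a class of `(x_J, Q)` -/
structure SD (ι α χ : Type) [Fintype α] [Fintype χ] [DecidableEq χ] where
  /-- the exact types -/
  J : Finset ι
  /-- the exact vertices (and default values) -/
  x0 : ι → χ
  /-- the hidden law -/
  PA : FP α
  /-- the laws of the vertices -/
  mu : ι → FP χ
  /-- the labels -/
  lab : Finset ι → α → (ι → χ) → ℕ
  /-- `lab I` depends on the vertices of the types in `I` only -/
  dep : ∀ I a x x', (∀ i ∈ I, x i = x' i) → lab I a x = lab I a x'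

section coll

variable {ι α χ : Type} [Fintype ι] [DecidableEq ι] [Fintype α] [Fintype χ] [DecidableEq χ] (D : SD ι α χ)
variable {W W' : Type} [Fintype W] [DecidableEq W] [Fintype W'] [DecidableEq W']

/-- the sample space of a collection -/
abbrev CS (α χ W : Type) := α × (W → χ)

/-- the law of a collection -/
def CP (ty : W → ι) : FP (CS α χ W) := FP.pr D.PA (piFP (fun y => D.mu (ty y)))

/-- the vertices read by the label set `G` -/
def vx (ty : W → ι) (G : Finset W) (u : W → χ) (i : ι) : χ :=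
  if h : i ∉ D.J ∧ ∃ y ∈ G, ty y = i then u h.2.choose else D.x0 i

/-- the label of the label set `G` -/
def LC (ty : W → ι) (G : Finset W) (p : CS α χ W) : ℕ := D.lab (G.image ty) p.1 (vx D ty G p.2)

/-- all vertices -/
def Vt (p : CS α χ W) : W → χ := p.2

/-- at most one vertex for each exact type -/
def JInj (J : Finset ι) (ty : W → ι) : Prop := ∀ y y', ty y ∈ J → ty y = ty y' → y = y'

theorem vx_of (ty : W → ι) {G : Finset W} (hG : Set.InjOn ty (G : Set W)) (u : W → χ) {y : W} (hy : y ∈ G)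
    (hJ : ty y ∉ D.J) : vx D ty G u (ty y) = u y := by
  have h : ty y ∉ D.J ∧ ∃ y' ∈ G, ty y' = ty y := ⟨hJ, y, hy, rfl⟩
  unfold vx
  rw [dif_pos h]
  congr 1
  exact hG h.2.choose_spec.1 hy h.2.choose_spec.2

theorem vx_J (ty : W → ι) (G : Finset W) (u : W → χ) {i : ι} (hi : i ∈ D.J) : vx D ty G u i = D.x0 i := by
  unfold vx
  rw [dif_neg (fun h => h.1 hi)]

/-- `LC G` depends on the hidden point and on the free vertices of `G` only -/
theorem LC_dep (ty : W → ι) {G : Finset W} (hG : Set.InjOn ty (G : Set W)) {p q : CS α χ W} (h1 : p.1 = q.1)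
    (h2 : ∀ y ∈ G, ty y ∉ D.J → p.2 y = q.2 y) : LC D ty G p = LC D ty G q := by
  unfold LC
  rw [h1]
  refine D.dep _ _ _ _ (fun i hi => ?_)
  obtain ⟨y, hy, rfl⟩ := Finset.mem_image.1 hi
  by_cases hJ : ty y ∈ D.J
  · rw [vx_J D ty G _ hJ, vx_J D ty G _ hJ]
  · rw [vx_of D ty hG _ hy hJ, vx_of D ty hG _ hy hJ, h2 y hy hJ]

/-- projection of a collection -/
def proj (e : W → W') (p : CS α χ W') : CS α χ W := (p.1, fun y => p.2 (e y))

theorem MP_proj {ty : W → ι} {ty' : W' → ι} {e : W → W'} (he : Function.Injective e) (hty : ∀ y, ty' (e y) = ty y) :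
    MP (CP D ty') (CP D ty) (proj (α := α) (χ := χ) e) := by
  intro f
  unfold CP
  rw [FP.pr_E, FP.pr_E]
  refine D.PA.E_congr (fun a _ => ?_)
  have h1 := piFP_comp he (fun y => D.mu (ty' y)) (fun u => f (a, u))
  have h2 : (fun y => D.mu (ty' (e y))) = fun y => D.mu (ty y) := by
    funext y
    rw [hty]
  rw [h2] at h1
  exact h1

theorem LC_map {ty : W → ι} {ty' : W' → ι} (e : W ↪ W') (hty : ∀ y, ty' (e y) = ty y) {G : Finset W}
    (hG : Set.InjOn ty (G : Set W)) (p : CS α χ W') : LC D ty' (G.map e) p = LC D ty G (proj e p) := by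
  have him : (G.map e).image ty' = G.image ty := by
    ext i
    simp only [Finset.mem_image, Finset.mem_map]
    constructor
    · rintro ⟨_, ⟨y, hy, rfl⟩, rfl⟩
      exact ⟨y, hy, (hty y).symm⟩
    · rintro ⟨y, hy, rfl⟩
      exact ⟨e y, ⟨y, hy, rfl⟩, hty y⟩
  have hG' : Set.InjOn ty' ((G.map e : Finset W') : Set W') := by
    intro a ha b hb hab
    rw [Finset.mem_coe, Finset.mem_map] at ha hb
    obtain ⟨y, hy, rfl⟩ := ha
    obtain ⟨z, hz, rfl⟩ := hb
    rw [hty, hty] at hab
    rw [hG hy hz hab]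
  unfold LC
  rw [him]
  refine D.dep _ _ _ _ (fun i hi => ?_)
  obtain ⟨y, hy, rfl⟩ := Finset.mem_image.1 hi
  by_cases hJ : ty y ∈ D.J
  · rw [vx_J D ty' _ _ hJ, vx_J D ty _ _ hJ]
  · rw [vx_of D ty hG _ hy hJ]
    have h1 := vx_of D ty' hG' p.2 (Finset.mem_map_of_mem e hy) (by rw [hty]; exact hJ)
    rw [hty] at h1
    rw [h1]
    rfl

/-- the free vertices of a label set -/
def fre (ty : W → ι) (G : Finset W) : Finset W := G.filter fun y => ty y ∉ D.J

open Classical in
/-- number of values of a function of the hidden point, on the support -/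
def nA {κ : Type*} (f : α → κ) : ℕ := ((univ.filter fun a => D.PA.p a ≠ 0).image f).card

/-- admissible extras for the label set `G`: `Ex P`, `P` a proper subset of the free part `B` of `G`, is a function of the
hidden point and of all vertices except those in `B \ P`, with at most `exp A` values for fixed vertices -/
structure Ext (ty : W → ι) (G : Finset W) (A : ℝ) (Ex : Finset W → CS α χ W → ℕ) : Prop where
  dep : ∀ P, P ⊂ fre D ty G → ∀ p q : CS α χ W, p.1 = q.1 → (∀ y, y ∉ fre D ty G \ P → p.2 y = q.2 y) → Ex P p = Ex P q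
  card : ∀ P, P ⊂ fre D ty G → ∀ u : W → χ, (nA D (fun a => Ex P (a, u)) : ℝ) ≤ Real.exp A

/-- the tuple of the extras -/
def exT (B : Finset W) (Ex : Finset W → CS α χ W → ℕ) (p : CS α χ W) : Finset W → Option ℕ :=
  fun P => if P ⊂ B then some (Ex P p) else none

/-- the mean of `m*_G` -/
def mst (ty : W → ι) (k : ℕ) (Ex : Finset W → CS α χ W → ℕ) (G : Finset W) : ℝ :=
  (CP D ty).E (mX (CP D ty) (LC D ty) (exT (fre D ty G) Ex) Vt (LS ty k) G)

/-- the mean of `m_G` -/
def mmG (ty : W → ι) (k : ℕ) (G : Finset W) : ℝ :=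
  (CP D ty).E (mG (CP D ty) (LC D ty) Vt (LS ty k) G)

/-! ## the statements of the static theorem -/

/-- bound of `m*_G` for label sets of size `s` with `r` free vertices, in all collections with at most `N` vertices -/
def BdX (k s r N : ℕ) (A ε : ℝ) : Prop :=
  ∀ (W : Type) [Fintype W] [DecidableEq W] (ty : W → ι), JInj D.J ty → Fintype.card W ≤ N → ∀ G ∈ LS ty k,
    G.card = s → (fre D ty G).card = r → ∀ Ex : Finset W → CS α χ W → ℕ, Ext D ty G A Ex → mst D ty k Ex G ≤ ε

/-- bound of `m_G` for label sets of size `s`, in all collections with at most `N` vertices -/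
def Bd (k s N : ℕ) (ε : ℝ) : Prop :=
  ∀ (W : Type) [Fintype W] [DecidableEq W] (ty : W → ι), JInj D.J ty → Fintype.card W ≤ N → ∀ G ∈ LS ty k,
    G.card = s → mmG D ty k G ≤ ε

/-- letters in one copy: `v I` is a function of the hidden point and the vertices of the types in `I`, with at most
`exp A` values for fixed vertices, for all `I` with `p I` -/
structure Let1 (A : ℝ) (p : Finset ι → Prop) (v : Finset ι → CS α χ ι → ℕ) : Prop where
  dep : ∀ I, p I → ∀ q q' : CS α χ ι, q.1 = q'.1 → (∀ i ∈ I, q.2 i = q'.2 i) → v I q = v I q'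
  card : ∀ I, p I → ∀ u : ι → χ, (nA D (fun a => v I (a, u)) : ℝ) ≤ Real.exp A

/-- the information of `L_G` about letters and all labels `L_H`, `H ≤ J ∪ G`, `|H| ≤ |G|`, `H ≠ G` (one vertex per type) -/
def ph1 (v : Finset ι → CS α χ ι → ℕ) (G : Finset ι) : ℝ :=
  (CP D id).E (GMC.ip (CP D id) (LC D id G) (fun w => (sel (fun I => D.J ⊆ I ∧ I ⊂ D.J ∪ G) v w,
    Lf (LC D id) (univ.filter fun H => H ⊆ D.J ∪ G ∧ H.card ≤ G.card ∧ H ≠ G) w)) (Lf (LC D id) G.ssubsets) Vt)

/-- (i') at the class: `phi_G ≤ δ` for all `G` of size `s` which do not contain `J` -/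
def PhiBd (s : ℕ) (A δ : ℝ) : Prop :=
  ∀ G : Finset ι, G.card = s → ¬ D.J ⊆ G → ∀ v, Let1 D A (fun I => D.J ⊆ I ∧ I ⊂ D.J ∪ G) v → ph1 D v G ≤ δ

/-- (SAT0) at the class: `fat I u` = the vertices `u i`, `i ∈ I`, are fat -/
def Sat0Bd (fat : Finset ι → (ι → χ) → Prop) (s : ℕ) (A ζ : ℝ) : Prop :=
  ∀ G : Finset ι, G.card = s → D.J ⊂ G → ∀ v, Let1 D A (fun I => D.J ⊆ I ∧ I ⊂ G) v →
    (∀ I, D.J ⊆ I → I ⊂ G → ∀ u, fat I u → ∀ a b, v I (a, u) = v I (b, u)) →
    (CP D id).E (GMC.ip (CP D id) (LC D id G) (sel (fun I => D.J ⊆ I ∧ I ⊂ G) v) (Lf (LC D id) G.ssubsets) Vt) ≤ ζ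

end coll

end

end Pool.Agent.GMM
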