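import Pool.Agent.GMM.HotPhi
import Pool.Agent.GMM.Def

/-!
# GMM/Bridge: from the class of (`x_J`, `Q`) on the path space to the product space of one node (row CM; helper36)

* `SameLaw P X Q Y` : the maps `X`, `Y` on two spaces have the same law; `SameLaw.H`, `.Hc`, `.I`, `.nv`;
* `glue J c0 c` : coordinates in `J` from `c0`, the others from `c`;
* `law_cls` : conditional on the class of (`x_J`, `Q`) the hidden vertex and the vertices outside of `J` are independent:
  law of `(a, x)` = law of `(b, glue J (x u) c)`, `b ~ PA`, `c ~ piFP mu`;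
* `ip_cls` : informations at the point = informations on the product space.
-/

set_option autoImplicit false
set_option linter.unusedSectionVars false

namespace Pool.Agent.GMM

open Finset Pool.Agent.M3 Pool.Agent.GMC
open Pool.Agent.PWZ hiding ip

noncomputable section

/-! ## equal laws -/

section same

variable {O1 O2 O3 : Type*} [Fintype O1] [Fintype O2] [Fintype O3] {β γ γ' γ'' : Type*}

/-- the maps have the same law -/
def SameLaw (P : FP O1) (X : O1 → β) (Q : FP O2) (Y : O2 → β) : Prop :=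
  ∀ F : β → ℝ, P.E (fun w => F (X w)) = Q.E (fun w => F (Y w))

variable {P : FP O1} {X : O1 → β} {Q : FP O2} {Y : O2 → β}

theorem SameLaw.symm (h : SameLaw P X Q Y) : SameLaw Q Y P X := fun F => (h F).symm

theorem SameLaw.trans {R : FP O3} {Z : O3 → β} (h : SameLaw P X Q Y) (h' : SameLaw Q Y R Z) : SameLaw P X R Z :=
  fun F => (h F).trans (h' F)

theorem SameLaw.comp (h : SameLaw P X Q Y) (g : β → γ) : SameLaw P (fun w => g (X w)) Q (fun w => g (Y w)) :=
  fun F => h (fun b => F (g b))

theorem SameLaw.H (h : SameLaw P X Q Y) (g : β → γ) : P.H (fun w => g (X w)) = Q.H (fun w => g (Y w)) := by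
  have e1 : ∀ w, P.m (fun v => g (X v)) w = Q.E (fun v => ind (g (Y v) = g (X w))) := fun w =>
    h (fun b => ind (g b = g (X w)))
  unfold FP.H
  simp only [e1]
  exact h (fun b => - Real.log (Q.E (fun v => ind (g (Y v) = g b))))

theorem SameLaw.Hc (h : SameLaw P X Q Y) (g : β → γ) (g' : β → γ') :
    P.Hc (fun w => g (X w)) (fun w => g' (X w)) = Q.Hc (fun w => g (Y w)) (fun w => g' (Y w)) := by
  unfold FP.Hc
  rw [h.H g', h.H (fun b => (g b, g' b))]

theorem SameLaw.I (h : SameLaw P X Q Y) (g : β → γ) (g' : β → γ') (g'' : β → γ'') :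
    P.I (fun w => g (X w)) (fun w => g' (X w)) (fun w => g'' (X w)) =
      Q.I (fun w => g (Y w)) (fun w => g' (Y w)) (fun w => g'' (Y w)) := by
  rw [P.I_eq_Hc, Q.I_eq_Hc, h.Hc g g'', h.Hc g (fun b => (g' b, g'' b))]

theorem SameLaw.Pr (h : SameLaw P X Q Y) (s : β → Prop) : P.Pr (fun w => s (X w)) = Q.Pr (fun w => s (Y w)) :=
  h (fun b => ind (s b))

/-- values with positive probability -/
theorem SameLaw.exists_of (h : SameLaw P X Q Y) {v : O2} (hv : Q.p v ≠ 0) : ∃ w, P.p w ≠ 0 ∧ X w = Y v := by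
  by_contra hcon
  push Not at hcon
  have h1 : P.E (fun w => ind (X w = Y v)) = 0 := by
    rw [← P.E_const 0]
    exact P.E_congr (fun w hw => ind_not (hcon w hw))
  have h2 : 0 < Q.m Y v := Q.m_pos Y hv
  have h3 : P.E (fun w => ind (X w = Y v)) = Q.m Y v := h (fun b => ind (b = Y v))
  rw [h1] at h3
  exact h2.ne h3

end same

/-! ## integration of one coordinate -/

section coord

variable {κ χ : Type*} [Fintype κ] [DecidableEq κ] [Fintype χ] [DecidableEq χ]

/-- one coordinate of a product law can be drawn again -/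
theorem piFP_update (K : κ → FP χ) (i : κ) (f : (κ → χ) → ℝ) :
    (piFP K).E f = (K i).E (fun c => (piFP K).E (fun g => f (Function.update g i c))) := by
  have h1 : ∀ g c, (piFP K).p (Function.update g i c) * (K i).p (g i) = (K i).p c * (piFP K).p g := by
    intro g c
    have e : ∀ g' : κ → χ, (piFP K).p g' = (K i).p (g' i) * ∏ x ∈ univ.erase i, (K x).p (g' x) := by
      intro g'
      show ∏ x, (K x).p (g' x) = _
      rw [← Finset.mul_prod_erase univ _ (mem_univ i)]
    rw [e, e g, Function.update_self]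
    have e2 : ∏ x ∈ univ.erase i, (K x).p (Function.update g i c x) = ∏ x ∈ univ.erase i, (K x).p (g x) := by
      refine Finset.prod_congr rfl (fun x hx => ?_)
      rw [Function.update_of_ne (Finset.ne_of_mem_erase hx)]
    rw [e2]
    ring
  have h2 : (K i).E (fun c => (piFP K).E (fun g => f (Function.update g i c))) =
      ∑ c, ∑ g, (piFP K).p (Function.update g i c) * (K i).p (g i) * f (Function.update g i c) := by
    unfold FP.E
    refine Finset.sum_congr rfl (fun c _ => ?_)
    rw [Finset.mul_sum]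
    refine Finset.sum_congr rfl (fun g _ => ?_)
    rw [h1 g c]
    ring
  rw [h2, ← Finset.sum_product']
  -- the involution (c, g) -> (g i, update g i c)
  have h3 : ∑ q : χ × (κ → χ), (piFP K).p (Function.update q.2 i q.1) * (K i).p (q.2 i) * f (Function.update q.2 i q.1) =
      ∑ q : χ × (κ → χ), (piFP K).p q.2 * (K i).p q.1 * f q.2 := by
    let τ : χ × (κ → χ) → χ × (κ → χ) := fun q => (q.2 i, Function.update q.2 i q.1)
    have hτ : ∀ q, τ (τ q) = q := by
      intro q
      refine Prod.ext ?_ ?_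
      · show Function.update q.2 i q.1 i = q.1
        rw [Function.update_self]
      · show Function.update (Function.update q.2 i q.1) i (q.2 i) = q.2
        rw [Function.update_idem, Function.update_eq_self]
    refine Finset.sum_bij' (fun q _ => τ q) (fun q _ => τ q) (fun _ _ => mem_univ _) (fun _ _ => mem_univ _)
      (fun q _ => hτ q) (fun q _ => hτ q) (fun q _ => ?_)
    rfl
  have h4 : (univ : Finset χ) ×ˢ (univ : Finset (κ → χ)) = univ := Finset.univ_product_univ
  rw [h4, h3, Fintype.sum_prod_type]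
  rw [Finset.sum_comm]
  unfold FP.E
  refine Finset.sum_congr rfl (fun g _ => ?_)
  have h5 : ∑ c, (piFP K).p g * (K i).p c * f g = (∑ c, (K i).p c) * ((piFP K).p g * f g) := by
    rw [Finset.sum_mul]
    exact Finset.sum_congr rfl (fun c _ => by ring)
  rw [h5, (K i).tot, one_mul]

end coord

/-! ## laws of maps -/

section map

variable {Om : Type*} [Fintype Om] {β γ γ' γ'' : Type*} [Fintype β]

/-- the law of a map -/
def mapFP (P : FP Om) (X : Om → β) : FP β where
  p := fun b => P.Pr (fun w => X w = b)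
  nn := fun b => P.Pr_nonneg _
  tot := by
    classical
    unfold FP.Pr
    rw [← P.E_sum univ (fun b w => ind (X w = b)), ← P.E_const 1]
    refine P.E_congr (fun w _ => ?_)
    rw [Finset.sum_eq_single_of_mem (X w) (mem_univ _) (fun b _ hb => ind_not (fun h => hb h.symm)), ind_of rfl]

theorem mapFP_E (P : FP Om) (X : Om → β) (F : β → ℝ) : (mapFP P X).E F = P.E (fun w => F (X w)) := by
  classical
  have h1 : (mapFP P X).E F = P.E (fun w => ∑ b, ind (X w = b) * F b) := by
    rw [P.E_sum univ (fun b w => ind (X w = b) * F b)]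
    unfold FP.E
    refine Finset.sum_congr rfl (fun b _ => ?_)
    show P.Pr (fun w => X w = b) * F b = ∑ w, P.p w * (ind (X w = b) * F b)
    unfold FP.Pr FP.E
    rw [Finset.sum_mul]
    exact Finset.sum_congr rfl (fun w _ => by ring)
  rw [h1]
  refine P.E_congr (fun w _ => ?_)
  rw [Finset.sum_eq_single_of_mem (X w) (mem_univ _) (fun b _ hb => by rw [ind_not (fun h => hb h.symm), zero_mul]),
    ind_of rfl, one_mul]

theorem H_congr_supp (P : FP Om) {γ : Type*} {X X' : Om → γ} (h : ∀ v, P.p v ≠ 0 → X v = X' v) : P.H X = P.H X' := by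
  unfold FP.H
  refine P.E_congr (fun w hw => ?_)
  have : P.m X w = P.m X' w := by
    unfold FP.m
    refine P.E_congr (fun v hv => ?_)
    rw [h v hv, h w hw]
  rw [this]

theorem I_congr_supp (P : FP Om) {X X' : Om → γ} {Y Y' : Om → γ'} {Z Z' : Om → γ''} (hX : ∀ v, P.p v ≠ 0 → X v = X' v)
    (hY : ∀ v, P.p v ≠ 0 → Y v = Y' v) (hZ : ∀ v, P.p v ≠ 0 → Z v = Z' v) : P.I X Y Z = P.I X' Y' Z' := by
  unfold FP.I
  rw [H_congr_supp P (X := fun w => (X w, Z w)) (X' := fun w => (X' w, Z' w)) (fun v hv => by rw [hX v hv, hZ v hv]),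
    H_congr_supp P (X := fun w => (Y w, Z w)) (X' := fun w => (Y' w, Z' w)) (fun v hv => by rw [hY v hv, hZ v hv]),
    H_congr_supp P (X := fun w => (X w, Y w, Z w)) (X' := fun w => (X' w, Y' w, Z' w))
      (fun v hv => by rw [hX v hv, hY v hv, hZ v hv]),
    H_congr_supp P (X := Z) (X' := Z') hZ]

end map

/-! ## the class of (`x_J`, `Q`) -/

section cls

variable {Om : Type*} [Fintype Om] {ι : Type*} [Fintype ι] [DecidableEq ι] {χ α κ ν : Type*} [Fintype χ] [DecidableEq χ]
  [Fintype α] {P : FP Om} {a : Om → α} {x : ι → Om → χ}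

/-- coordinates in `J` from `c0`, the others from `c` -/
def glu (J : Finset ι) (c0 c : ι → χ) : ι → χ := fun i => if i ∈ J then c0 i else c i

theorem glu_in {J : Finset ι} {c0 c : ι → χ} {i : ι} (h : i ∈ J) : glu J c0 c i = c0 i := by unfold glu; rw [if_pos h]

theorem glu_out {J : Finset ι} {c0 c : ι → χ} {i : ι} (h : i ∉ J) : glu J c0 c i = c i := by unfold glu; rw [if_neg h]

/-- law of the hidden vertex on the class -/
def PAc (P : FP Om) (N : Om → ν) (a : Om → α) (u : Om) : FP α := mapFP (at_ P N u) a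

/-- laws of the known vertices on the class -/
def muc (P : FP Om) (N : Om → ν) (x : ι → Om → χ) (u : Om) (i : ι) : FP χ := mapFP (at_ P N u) (x i)

theorem law_cls_M {N : Om → ν} {u : Om} (hu : P.p u ≠ 0) {J : Finset ι}
    (hci : ∀ (M : Finset ι) (i : ι), Disjoint M J → i ∉ J → i ∉ M → P.CI N (fun v => (a v, xr x M v)) (x i))
    (M : Finset ι) (hM : Disjoint M J) :
    ∀ F : α → (ι → χ) → ℝ, (∀ b c c', (∀ i ∈ M, c i = c' i) → F b c = F b c') →
      P.ce N (fun v => F (a v) (fun i => x i v)) u =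
        (PAc P N a u).E (fun b => (piFP (muc P N x u)).E (fun c => F b c)) := by
  classical
  induction M using Finset.induction_on with
  | empty =>
    intro F hF
    have h1 : ∀ b c, F b c = F b (fun i => x i u) := fun b c => hF b c _ (fun i hi => absurd hi (Finset.notMem_empty i))
    have e1 : (PAc P N a u).E (fun b => (piFP (muc P N x u)).E (fun c => F b c)) =
        (PAc P N a u).E (fun b => F b (fun i => x i u)) := by
      refine FP.E_congr _ (fun b _ => ?_)
      rw [← (piFP (muc P N x u)).E_const (F b (fun i => x i u))]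
      exact FP.E_congr _ (fun c _ => h1 b c)
    rw [e1]
    unfold PAc
    rw [mapFP_E, P.ce_eq_cond N _ hu]
    exact FP.E_congr _ (fun v _ => h1 _ _)
  | insert i M hi ih =>
    intro F hF
    have hM' : Disjoint M J := Finset.disjoint_of_subset_left (Finset.subset_insert i M) hM
    have hiJ : i ∉ J := Finset.disjoint_left.1 hM (Finset.mem_insert_self i M)
    have hci' := hci M i hM' hiJ hi
    have hdep : ∀ c b y y', (∀ j ∈ M, y j = y' j) → F b (Function.update y i c) = F b (Function.update y' i c) := by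
      intro c b y y' hy
      refine hF b _ _ (fun j hj => ?_)
      rcases Finset.mem_insert.1 hj with rfl | hj
      · rw [Function.update_self, Function.update_self]
      · have hne : j ≠ i := fun h => hi (h ▸ hj)
        rw [Function.update_of_ne hne, Function.update_of_ne hne, hy j hj]
    have e1 : P.ce N (fun v => F (a v) (fun j => x j v)) u =
        P.ce N (fun v => ∑ c, F (a v) (Function.update (fun j => x j v) i c) * ind (x i v = c)) u := by
      refine P.ce_congr (fun v _ => ?_) u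
      rw [Finset.sum_eq_single_of_mem (x i v) (mem_univ _)
        (fun c _ hc => by rw [ind_not (fun h => hc h.symm), mul_zero]), ind_of rfl, mul_one]
      congr 1
      exact (Function.update_eq_self i (fun j => x j v)).symm
    rw [e1, P.ce_sum N univ (fun c v => F (a v) (Function.update (fun j => x j v) i c) * ind (x i v = c)) u]
    have e2 : ∀ c, P.ce N (fun v => F (a v) (Function.update (fun j => x j v) i c) * ind (x i v = c)) u =
        (PAc P N a u).E (fun b => (piFP (muc P N x u)).E (fun y => F b (Function.update y i c))) *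
          (muc P N x u i).p c := by
      intro c
      have hf : Fac (fun v => ((a v, xr x M v), N v)) (fun v => F (a v) (Function.update (fun j => x j v) i c)) := by
        intro v z e
        simp only [Prod.mk.injEq] at e
        show F (a v) (Function.update (fun j => x j v) i c) = F (a z) (Function.update (fun j => x j z) i c)
        rw [e.1.1]
        exact hdep c _ _ _ (fun j hj => sel_eq.1 e.1.2 j hj)
      have hg : Fac (x i) (fun v => ind (x i v = c)) := Fac.ind (fun v z e => by rw [e])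
      rw [CI_key hci' hf hg hu, ih hM' (fun b y => F b (Function.update y i c)) (fun b y y' hy => hdep c b y y' hy)]
      congr 1
      rw [P.ce_eq_cond N _ hu]
      rfl
    rw [Finset.sum_congr rfl (fun c _ => e2 c)]
    have e3 : ∀ b, (piFP (muc P N x u)).E (fun y => F b y) =
        ∑ c, (piFP (muc P N x u)).E (fun y => F b (Function.update y i c)) * (muc P N x u i).p c := by
      intro b
      rw [piFP_update (muc P N x u) i (fun y => F b y)]
      unfold FP.E
      exact Finset.sum_congr rfl (fun c _ => mul_comm _ _)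
    have e4 : (PAc P N a u).E (fun b => (piFP (muc P N x u)).E (fun y => F b y)) =
        (PAc P N a u).E (fun b => ∑ c, (piFP (muc P N x u)).E (fun y => F b (Function.update y i c)) * (muc P N x u i).p c) :=
      FP.E_congr _ (fun b _ => e3 b)
    rw [e4, FP.E_sum]
    exact Finset.sum_congr rfl (fun c _ => (FP.E_mul_const _ _ _).symm)

/-- the law of the hidden vertex and the known vertices on the class of (`x_J`, `Q`) -/
theorem law_cls {Q : Om → κ} {u : Om} (hu : P.p u ≠ 0) {J : Finset ι}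
    (full : ∀ M M', Disjoint M M' → P.CI Q (fun v => (a v, xr x M v)) (xr x M')) :
    SameLaw (at_ P (fun v => (xr x J v, Q v)) u) (fun v => (a v, fun i => x i v))
      (FP.pr (PAc P (fun v => (xr x J v, Q v)) a u) (piFP (muc P (fun v => (xr x J v, Q v)) x u)))
      (fun q => (q.1, glu J (fun i => x i u) q.2)) := by
  intro F
  set N : Om → (ι → Option χ) × κ := fun v => (xr x J v, Q v) with hN
  have hci : ∀ (M : Finset ι) (i : ι), Disjoint M J → i ∉ J → i ∉ M → P.CI N (fun v => (a v, xr x M v)) (x i) := by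
    intro M i _ hiJ hiM
    have hd : Disjoint (J ∪ M) {i} := by
      rw [Finset.disjoint_singleton_right, Finset.mem_union]
      exact fun h => h.elim hiJ hiM
    have h1 := CI_cond (full (J ∪ M) {i} hd) (S := xr x J) (fun v z e => by
      simp only [Prod.mk.injEq] at e
      exact xr_mono x Finset.subset_union_left v z e.1.2)
    refine CI_mono h1 ?_ ?_
    · intro v z e
      simp only [Prod.mk.injEq] at e ⊢
      exact ⟨e.1.1, xr_mono x Finset.subset_union_right v z e.1.2⟩
    · intro v z e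
      simp only [Prod.mk.injEq] at e
      exact sel_eq.1 e.1 i (Finset.mem_singleton_self i)
  have h1 := law_cls_M (N := N) hu hci (univ \ J) (Finset.disjoint_sdiff.symm)
    (fun b c => F (b, glu J (fun i => x i u) c)) (fun b c c' hc => by
      congr 2
      funext i
      by_cases hi : i ∈ J
      · rw [glu_in hi, glu_in hi]
      · rw [glu_out hi, glu_out hi]
        exact hc i (Finset.mem_sdiff.2 ⟨mem_univ i, hi⟩))
  rw [FP.pr_E]
  have h2 : P.ce N (fun v => F (a v, glu J (fun i => x i u) (fun i => x i v))) u =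
      P.ce N (fun v => F (a v, fun i => x i v)) u := by
    refine ce_congr_cls (fun v _ hv => ?_)
    have h3 : xr x J v = xr x J u := congrArg Prod.fst hv
    congr 2
    funext i
    by_cases hi : i ∈ J
    · rw [glu_in hi]
      exact (sel_eq.1 h3 i hi).symm
    · rw [glu_out hi]
  rw [← h1, h2, P.ce_eq_cond N _ hu]

/-- informations at the point (`x_J`, `Q`) are informations on the product space -/
theorem ip_cls {Q : Om → κ} {u : Om} (hu : P.p u ≠ 0) {J : Finset ι}
    (full : ∀ M M', Disjoint M M' → P.CI Q (fun v => (a v, xr x M v)) (xr x M')) {γ γ' γ'' : Type*}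
    {X : Om → γ} {Y : Om → γ'} {Z : Om → γ''} {X' : α × (ι → χ) → γ} {Y' : α × (ι → χ) → γ'} {Z' : α × (ι → χ) → γ''}
    (hX : ∀ v, P.p v ≠ 0 → (xr x J v, Q v) = (xr x J u, Q u) → X v = X' (a v, fun i => x i v))
    (hY : ∀ v, P.p v ≠ 0 → (xr x J v, Q v) = (xr x J u, Q u) → Y v = Y' (a v, fun i => x i v))
    (hZ : ∀ v, P.p v ≠ 0 → (xr x J v, Q v) = (xr x J u, Q u) → Z v = Z' (a v, fun i => x i v)) :
    ip P X Y Z (fun v => (xr x J v, Q v)) u =
      (FP.pr (PAc P (fun v => (xr x J v, Q v)) a u) (piFP (muc P (fun v => (xr x J v, Q v)) x u))).I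
        (fun q => X' (q.1, glu J (fun i => x i u) q.2)) (fun q => Y' (q.1, glu J (fun i => x i u) q.2))
        (fun q => Z' (q.1, glu J (fun i => x i u) q.2)) := by
  rw [ip_eq_cond P X Y Z _ hu, ← (law_cls (J := J) hu full).I X' Y' Z']
  have hs : ∀ v, (at_ P (fun v => (xr x J v, Q v)) u).p v ≠ 0 → P.p v ≠ 0 ∧ (xr x J v, Q v) = (xr x J u, Q u) := by
    intro v hv
    obtain ⟨h1, h2⟩ := (FP.cond_p_ne (P.m_pos (fun v => (xr x J v, Q v)) hu).ne').1 hv
    exact ⟨h2, h1⟩
  exact I_congr_supp _ (fun v hv => hX v (hs v hv).1 (hs v hv).2) (fun v hv => hY v (hs v hv).1 (hs v hv).2)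
    (fun v hv => hZ v (hs v hv).1 (hs v hv).2)

end cls

/-! ## the data `SD` of a class -/

theorem CI_pos {Om : Type*} [Fintype Om] {P : FP Om} {ν υ υ' : Type*} {N : Om → ν} {U : Om → υ} {V : Om → υ'}
    (h : P.CI N U V) {v0 v1 : Om} (h0 : P.p v0 ≠ 0) (h1 : P.p v1 ≠ 0) (hN : N v0 = N v1) :
    ∃ v, P.p v ≠ 0 ∧ N v = N v0 ∧ U v = U v1 ∧ V v = V v0 := by
  by_contra hcon
  push Not at hcon
  have e1 := h (fun v => ind (U v = U v1)) (fun v => ind (V v = V v0)) (Fac.ind (fun x y e => by rw [e]))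
    (Fac.ind (fun x y e => by rw [e])) v0 h0
  have e2 : P.ce N (fun v => ind (U v = U v1) * ind (V v = V v0)) v0 = 0 := by
    rw [ce_congr_cls (g := fun _ => (0 : ℝ)) (fun v hv hNv => ?_), P.ce_const N 0 h0]
    by_cases hU : U v = U v1
    · rw [ind_not (hcon v hv hNv hU), mul_zero]
    · rw [ind_not hU, zero_mul]
  have p1 : 0 < P.ce N (fun v => ind (U v = U v1)) v0 := by
    rw [P.ce_fac N _ v0 v1 hN]
    exact ce_ind_pos h1
  have p2 : 0 < P.ce N (fun v => ind (V v = V v0)) v0 := ce_ind_pos h0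
  rw [e2] at e1
  exact (mul_pos p1 p2).ne e1

section dc

variable {Om : Type*} [Fintype Om] {ι α χ : Type} [Fintype ι] [DecidableEq ι] [Fintype χ] [DecidableEq χ] [Fintype α]
  {κ : Type*}

open Classical in
/-- a point with the property -/
def pick (p : Om → Prop) : Option Om := if h : ∃ v, p v then some h.choose else none

theorem pick_cases (p : Om → Prop) : (pick p = none ∧ ∀ v, ¬ p v) ∨ ∃ v, pick p = some v ∧ p v := by
  unfold pick
  by_cases h : ∃ v, p v
  · rw [dif_pos h]
    exact Or.inr ⟨_, rfl, h.choose_spec⟩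
  · rw [dif_neg h]
    exact Or.inl ⟨rfl, fun v hv => h ⟨v, hv⟩⟩

/-- points of the support with the node of `u`, hidden vertex `b` and vertices `c` in `I` -/
def spt (P : FP Om) (a : Om → α) (x : ι → Om → χ) (Q : Om → κ) (u : Om) (I : Finset ι) (b : α) (c : ι → χ) (v : Om) :
    Prop := P.p v ≠ 0 ∧ Q v = Q u ∧ a v = b ∧ ∀ i ∈ I, x i v = c i

/-- functional form of a map -/
def fnl (P : FP Om) (a : Om → α) (x : ι → Om → χ) (Q : Om → κ) (u : Om) (I : Finset ι) (T : Om → ℕ) (b : α)
    (c : ι → χ) : ℕ := (pick (spt P a x Q u I b c)).elim 0 T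

variable {P : FP Om} {a : Om → α} {x : ι → Om → χ} {Q : Om → κ} {u : Om}

theorem fnl_dep (I : Finset ι) (T : Om → ℕ) (b : α) {c c' : ι → χ} (h : ∀ i ∈ I, c i = c' i) :
    fnl P a x Q u I T b c = fnl P a x Q u I T b c' := by
  have e : spt P a x Q u I b c = spt P a x Q u I b c' := by
    funext v
    unfold spt
    apply propext
    refine and_congr_right (fun _ => and_congr_right (fun _ => and_congr_right (fun _ => ?_)))
    exact forall_congr' (fun i => forall_congr' (fun hi => by rw [h i hi]))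
  unfold fnl
  rw [e]

theorem fnl_eq {I : Finset ι} {T : Om → ℕ} (hT : Fac (fun v => (a v, xr x I v, Q v)) T) {w : Om} (hw : P.p w ≠ 0)
    (hQ : Q w = Q u) : fnl P a x Q u I T (a w) (fun i => x i w) = T w := by
  unfold fnl
  rcases pick_cases (spt P a x Q u I (a w) (fun i => x i w)) with ⟨_, h2⟩ | ⟨v, h1, h2⟩
  · exact absurd ⟨hw, hQ, rfl, fun _ _ => rfl⟩ (h2 w)
  · rw [h1]
    show T v = T w
    refine hT v w ?_
    simp only [Prod.mk.injEq]
    exact ⟨h2.2.2.1, sel_eq.2 h2.2.2.2, h2.2.1.trans hQ.symm⟩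

/-- the data at the class of `(x_J, Q)` at `u` -/
def DC (P : FP Om) (a : Om → α) (x : ι → Om → χ) (Q : Om → κ) (L : Finset ι → Om → ℕ) (J : Finset ι) (u : Om) :
    SD ι α χ where
  J := J
  x0 := fun i => x i u
  PA := PAc P (fun v => (xr x J v, Q v)) a u
  mu := muc P (fun v => (xr x J v, Q v)) x u
  lab := fun I b c => fnl P a x Q u I (L I) b c
  dep := fun I b _ _ h => fnl_dep I (L I) b h

variable {L : Finset ι → Om → ℕ} {J : Finset ι}

theorem PAc_ne {N : Om → κ} (hu : P.p u ≠ 0) {b : α} (hb : (PAc P N a u).p b ≠ 0) : ∃ v, P.p v ≠ 0 ∧ N v = N u ∧ a v = b := by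
  by_contra hcon
  push Not at hcon
  apply hb
  show (at_ P N u).Pr (fun w => a w = b) = 0
  unfold FP.Pr
  rw [← (at_ P N u).E_const 0]
  refine FP.E_congr _ (fun v hv => ?_)
  obtain ⟨h1, h2⟩ := (FP.cond_p_ne (P.m_pos N hu).ne').1 hv
  exact ind_not (hcon v h2 h1)

theorem muc_ne {N : Om → κ} (hu : P.p u ≠ 0) {i : ι} {c : χ} (hc : (muc P N x u i).p c ≠ 0) :
    ∃ v, P.p v ≠ 0 ∧ N v = N u ∧ x i v = c := by
  by_contra hcon
  push Not at hcon
  apply hc
  show (at_ P N u).Pr (fun w => x i w = c) = 0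
  unfold FP.Pr
  rw [← (at_ P N u).E_const 0]
  refine FP.E_congr _ (fun v hv => ?_)
  obtain ⟨h1, h2⟩ := (FP.cond_p_ne (P.m_pos N hu).ne').1 hv
  exact ind_not (hcon v h2 h1)

/-- the exact vertices on the support of the product law -/
theorem CP_exact (hu : P.p u ≠ 0) {q : CS α χ ι} (hq : (CP (DC P a x Q L J u) id).p q ≠ 0) {i : ι} (hi : i ∈ J) :
    q.2 i = x i u := by
  have h1 : (CP (DC P a x Q L J u) id).p q =
      (PAc P (fun v => (xr x J v, Q v)) a u).p q.1 * ∏ j, (muc P (fun v => (xr x J v, Q v)) x u j).p (q.2 j) := rfl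
  rw [h1] at hq
  have h2 := right_ne_zero_of_mul hq
  have h3 := Finset.prod_ne_zero_iff.1 h2 i (mem_univ i)
  obtain ⟨v, -, hv, hx⟩ := muc_ne hu h3
  have h4 : xr x J v = xr x J u := congrArg Prod.fst hv
  rw [← hx]
  exact sel_eq.1 h4 i hi

/-- the hidden vertex and the vertices, from the class to the product space -/
theorem MP_cls (hu : P.p u ≠ 0) (full : ∀ M M', Disjoint M M' → P.CI Q (fun v => (a v, xr x M v)) (xr x M')) :
    MP (at_ P (fun v => (xr x J v, Q v)) u) (CP (DC P a x Q L J u) id) (fun w => (a w, fun i => x i w)) := by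
  intro f
  have h1 := law_cls (J := J) hu full f
  rw [h1]
  have h2 : (FP.pr (PAc P (fun v => (xr x J v, Q v)) a u) (piFP (muc P (fun v => (xr x J v, Q v)) x u))) =
      CP (DC P a x Q L J u) id := rfl
  rw [h2]
  refine FP.E_congr _ (fun q hq => ?_)
  have h3 : glu J (fun i => x i u) q.2 = q.2 := by
    funext i
    by_cases hi : i ∈ J
    · rw [glu_in hi, CP_exact hu hq hi]
    · rw [glu_out hi]
  show f (q.1, glu J (fun i => x i u) q.2) = f q
  rw [h3]

theorem at_supp {N : Om → κ} (hu : P.p u ≠ 0) {w : Om} (hw : (at_ P N u).p w ≠ 0) : P.p w ≠ 0 ∧ N w = N u := by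
  obtain ⟨h1, h2⟩ := (FP.cond_p_ne (P.m_pos N hu).ne').1 hw
  exact ⟨h2, h1⟩

/-- the labels -/
theorem LC_cls (hL : ∀ I, Fac (fun v => (a v, xr x I v, Q v)) (L I)) (G : Finset ι) {w : Om} (hw : P.p w ≠ 0)
    (hc : (xr x J w, Q w) = (xr x J u, Q u)) :
    LC (DC P a x Q L J u) id G (a w, fun i => x i w) = L G w := by
  simp only [Prod.mk.injEq] at hc
  have hinj : Set.InjOn (id : ι → ι) (G : Set ι) := Function.injective_id.injOn
  unfold LC
  rw [Finset.image_id, ← fnl_eq (hL G) hw hc.2]
  show fnl P a x Q u G (L G) (a w) _ = _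
  refine fnl_dep G (L G) (a w) (fun i hi => ?_)
  by_cases hiJ : i ∈ J
  · rw [vx_J (DC P a x Q L J u) id G _ (by exact hiJ)]
    show x i u = x i w
    exact (sel_eq.1 hc.1 i hiJ).symm
  · exact vx_of (DC P a x Q L J u) id hinj (fun i => x i w) hi (by exact hiJ)

theorem nA_le_of {D : SD ι α χ} {γ : Type*} {f : α → γ} (S : Finset γ) (h : ∀ b, D.PA.p b ≠ 0 → f b ∈ S) :
    nA D f ≤ S.card := by
  classical
  unfold nA
  refine Finset.card_le_card (fun k hk => ?_)
  obtain ⟨b, hb, rfl⟩ := Finset.mem_image.1 hk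
  exact h b (Finset.mem_filter.1 hb).2

/-- number of values of a functional form -/
theorem nA_fnl (hu : P.p u ≠ 0) (full : ∀ M M', Disjoint M M' → P.CI Q (fun v => (a v, xr x M v)) (xr x M'))
    (I : Finset ι) (T : Om → ℕ) {B : ℝ} (hB : 1 ≤ B)
    (h : ∀ v, P.p v ≠ 0 → Q v = Q u → (nv P T (fun z => (xr x I z, Q z)) v : ℝ) ≤ B) (c : ι → χ) :
    (nA (DC P a x Q L J u) (fun b => fnl P a x Q u I T b c) : ℝ) ≤ B := by
  classical
  by_cases hex : ∃ v0, P.p v0 ≠ 0 ∧ Q v0 = Q u ∧ ∀ i ∈ I, x i v0 = c i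
  · obtain ⟨v0, h0, hQ0, hx0⟩ := hex
    refine le_trans ?_ (h v0 h0 hQ0)
    have hci : P.CI Q a (xr x I) := CI_mono (full ∅ I (Finset.disjoint_empty_left I))
      ((Fac.fst _ _).trans (Fac.fst _ _)) (Fac.fst _ _)
    have key : ∀ b, (DC P a x Q L J u).PA.p b ≠ 0 → fnl P a x Q u I T b c ∈ vs P T (fun z => (xr x I z, Q z)) v0 := by
      intro b hb
      obtain ⟨v1, hv1, hN1, ha1⟩ := PAc_ne (N := fun v => (xr x J v, Q v)) hu hb
      have hQ1 : Q v1 = Q u := congrArg Prod.snd hN1
      obtain ⟨v, hv, hQv, hav, hxv⟩ := CI_pos hci h0 hv1 (hQ0.trans hQ1.symm)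
      unfold fnl
      rcases pick_cases (spt P a x Q u I b c) with ⟨_, h2⟩ | ⟨v', h1, h2⟩
      · refine absurd ⟨hv, hQv.trans hQ0, hav.trans ha1, fun i hi => ?_⟩ (h2 v)
        rw [sel_eq.1 hxv i hi, hx0 i hi]
      · rw [h1]
        refine mem_vs h2.1 ?_
        simp only [Prod.mk.injEq]
        exact ⟨sel_eq.2 (fun i hi => by rw [h2.2.2.2 i hi, hx0 i hi]), h2.2.1.trans hQ0.symm⟩
    have h3 := nA_le_of _ key
    unfold nv
    exact_mod_cast h3
  · have key : ∀ b, (DC P a x Q L J u).PA.p b ≠ 0 → fnl P a x Q u I T b c ∈ ({0} : Finset ℕ) := by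
      intro b hb
      rw [Finset.mem_singleton]
      unfold fnl
      rcases pick_cases (spt P a x Q u I b c) with ⟨h1, _⟩ | ⟨v', h1, h2⟩
      · rw [h1]; rfl
      · exact absurd ⟨v', h2.1, h2.2.1, h2.2.2.2⟩ hex
    have h3 := nA_le_of _ key
    rw [Finset.card_singleton] at h3
    refine le_trans ?_ hB
    exact_mod_cast h3

/-- all vertices may be added to the condition -/
theorem ip_all (hu : P.p u ≠ 0) (full : ∀ M M', Disjoint M M' → P.CI Q (fun v => (a v, xr x M v)) (xr x M'))
    {M : Finset ι} (hJM : J ⊆ M) {γ γ' γ'' : Type*} {X : Om → γ} {Y : Om → γ'} {Z : Om → γ''}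
    (hX : Fac (fun v => ((a v, xr x M v), (xr x J v, Q v))) X) (hY : Fac (fun v => ((a v, xr x M v), (xr x J v, Q v))) Y)
    (hZ : Fac (fun v => ((a v, xr x M v), (xr x J v, Q v))) Z) :
    ip P X Y (fun v => (Z v, fun i => x i v)) (fun v => (xr x J v, Q v)) u =
      ip P X Y (fun v => (Z v, xr x M v)) (fun v => (xr x J v, Q v)) u := by
  have hci : P.CI (fun v => (xr x J v, Q v)) (fun v => (a v, xr x M v)) (xr x (univ \ M)) :=
    CI_cond (full M (univ \ M) Finset.disjoint_sdiff) (S := xr x J) (fun v z e => by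
      simp only [Prod.mk.injEq] at e
      exact xr_mono x hJM v z e.1.2)
  have hxM : Fac (fun v => ((a v, xr x M v), (xr x J v, Q v))) (xr x M) := (Fac.fst _ _).trans (Fac.snd _ _)
  rw [← ip_forget' hci hX hY (hZ.prod hxM) hu]
  refine ip_congr P (Fac.fst _ _) (Fac.fst _ _) ?_ (Fac.refl _) (Fac.fst _ _) (Fac.fst _ _) ?_ (Fac.refl _) u
  · intro v z e
    simp only [Prod.mk.injEq] at e ⊢
    exact ⟨⟨e.1.1, sel_eq.2 (fun i _ => congrFun e.1.2 i)⟩, sel_eq.2 (fun i _ => congrFun e.1.2 i)⟩
  · intro v z e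
    simp only [Prod.mk.injEq] at e ⊢
    refine ⟨e.1.1.1, funext (fun i => ?_)⟩
    by_cases hi : i ∈ M
    · exact sel_eq.1 e.1.1.2 i hi
    · exact sel_eq.1 e.1.2 i (Finset.mem_sdiff.2 ⟨mem_univ i, hi⟩)

/-- informations of `CP (DC ..) id` given all vertices, on the path space -/
theorem I_cls (hu : P.p u ≠ 0) (full : ∀ M M', Disjoint M M' → P.CI Q (fun v => (a v, xr x M v)) (xr x M'))
    {γ γ' γ'' : Type*} (X : CS α χ ι → γ) (Y : CS α χ ι → γ') (Z : CS α χ ι → γ'') :
    (CP (DC P a x Q L J u) id).E (GMC.ip (CP (DC P a x Q L J u) id) X Y Z Vt) =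
      ip P (fun w => X (a w, fun i => x i w)) (fun w => Y (a w, fun i => x i w))
        (fun w => (Z (a w, fun i => x i w), fun i => x i w)) (fun v => (xr x J v, Q v)) u := by
  rw [GMC.E_ip, ip_eq_cond P _ _ _ _ hu]
  exact ((MP_cls (L := L) hu full).I X Y (fun q => (Z q, Vt q))).symm

end dc

end

end Pool.Agent.GMM
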