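import Pool.Agent.GMM.Bridge
import Pool.Agent.GMM.Coll

/-!
# GMM/Bridge2: the bounds of the dynamic part at the class `DC` (row CM; helper36)

* `nA_lab`, `alBd_of`, `RuleOut.alBd` : number of values of a label of `DC` from (B1) of the rule;
* `phiBd_of` : `phi_G ≤ δ` at the point gives `PhiBd (DC ..) s A δ`;
* `sat0Bd_gen`, `RuleOut.sat0Bd` : (SAT0) of the rule gives `Sat0Bd (DC ..) (fatc ..) s (A s) ..`;
* `Pr_fatc` : the probability of `fatc` under `CP (DC ..) id` is the conditional probability of `fat` on the class.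
-/

set_option autoImplicit false
set_option linter.unusedSectionVars false

namespace Pool.Agent.GMM

open Finset Pool.Agent.M3 Pool.Agent.GMC
open Pool.Agent.PWZ hiding ip

noncomputable section

section b2

variable {Om : Type*} [Fintype Om] {ι α χ : Type} [Fintype ι] [DecidableEq ι] [Fintype χ] [DecidableEq χ] [Fintype α]
  {κ : Type*} {P : FP Om} {a : Om → α} {x : ι → Om → χ} {Q : Om → κ} {L : Finset ι → Om → ℕ} {J : Finset ι} {u : Om}

theorem ip_congr_supp {ν γ γ' γ'' : Type*} {N : Om → ν} {X X' : Om → γ} {Y Y' : Om → γ'} {Z Z' : Om → γ''}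
    (hu : P.p u ≠ 0) (hX : ∀ v, P.p v ≠ 0 → N v = N u → X v = X' v) (hY : ∀ v, P.p v ≠ 0 → N v = N u → Y v = Y' v)
    (hZ : ∀ v, P.p v ≠ 0 → N v = N u → Z v = Z' v) : ip P X Y Z N u = ip P X' Y' Z' N u := by
  rw [ip_eq_cond P _ _ _ _ hu, ip_eq_cond P _ _ _ _ hu]
  exact I_congr_supp _ (fun v hv => hX v (at_supp hu hv).1 (at_supp hu hv).2)
    (fun v hv => hY v (at_supp hu hv).1 (at_supp hu hv).2) (fun v hv => hZ v (at_supp hu hv).1 (at_supp hu hv).2)

/-- (B1) at the class -/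
theorem nA_lab (hu : P.p u ≠ 0) (full : ∀ M M', Disjoint M M' → P.CI Q (fun v => (a v, xr x M v)) (xr x M'))
    {I : Finset ι} {B : ℝ} (hB : 0 ≤ B)
    (h : ∀ v, P.p v ≠ 0 → (nv P (L I) (fun z => (xr x I z, Q z)) v : ℝ) ≤ Real.exp B) (c : ι → χ) :
    (nA (DC P a x Q L J u) (fun b => (DC P a x Q L J u).lab I b c) : ℝ) ≤ Real.exp B :=
  nA_fnl hu full I (L I) (Real.one_le_exp hB) (fun v hv _ => h v hv) c

/-- letters of one copy on the path space -/
def lift (a : Om → α) (x : ι → Om → χ) (v : Finset ι → CS α χ ι → ℕ) (I : Finset ι) (w : Om) : ℕ :=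
  v I (a w, fun i => x i w)

theorem PA_ne_of {w : Om} (hu : P.p u ≠ 0) (hw : P.p w ≠ 0) (hN : (xr x J w, Q w) = (xr x J u, Q u)) :
    (DC P a x Q L J u).PA.p (a w) ≠ 0 := by
  have h1 : (at_ P (fun v => (xr x J v, Q v)) u).p w ≠ 0 :=
    (FP.cond_p_ne (P.m_pos (fun v => (xr x J v, Q v)) hu).ne').2 ⟨hN, hw⟩
  exact ((at_ P (fun v => (xr x J v, Q v)) u).m_pos a h1).ne'

theorem nA_ge {D : SD ι α χ} {γ : Type*} {f : α → γ} (S : Finset γ) (h : ∀ k ∈ S, ∃ b, D.PA.p b ≠ 0 ∧ f b = k) :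
    S.card ≤ nA D f := by
  classical
  unfold nA
  refine Finset.card_le_card (fun k hk => ?_)
  obtain ⟨b, hb, rfl⟩ := h k hk
  exact Finset.mem_image.2 ⟨b, Finset.mem_filter.2 ⟨mem_univ _, hb⟩, rfl⟩

/-- number of values of a letter -/
theorem nv_lift (hu : P.p u ≠ 0) {v : Finset ι → CS α χ ι → ℕ} {I : Finset ι} (hJI : J ⊆ I)
    (dep : ∀ q q' : CS α χ ι, q.1 = q'.1 → (∀ i ∈ I, q.2 i = q'.2 i) → v I q = v I q') {w : Om}
    (hN : (xr x J w, Q w) = (xr x J u, Q u)) :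
    nv P (lift a x v I) (fun z => (xr x I z, Q z)) w ≤ nA (DC P a x Q L J u) (fun b => v I (b, fun i => x i w)) := by
  unfold nv
  refine nA_ge _ (fun k hk => ?_)
  obtain ⟨z, hz, hV, rfl⟩ := mem_vs_iff.1 hk
  simp only [Prod.mk.injEq] at hV
  have hz' : (xr x J z, Q z) = (xr x J u, Q u) := by
    rw [← hN, Prod.mk.injEq]
    exact ⟨xr_mono x hJI z w hV.1, hV.2⟩
  exact ⟨a z, PA_ne_of hu hz hz', dep _ _ rfl (fun i hi => (sel_eq.1 hV.1 i hi).symm)⟩

theorem sel_lift (p : Finset ι → Prop) (v : Finset ι → CS α χ ι → ℕ) (w : Om) :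
    sel p v (a w, fun i => x i w) = sel p (lift a x v) w := rfl

theorem Lf_sel {β : Type*} (L : Finset ι → Om → β) {S : Finset (Finset ι)} {p : Finset ι → Prop}
    (h : ∀ I, I ∈ S → p I) : Fac (sel p L) (Lf L S) := Lf_of L fun _ hI => sel_fac (h _ hI)

theorem sel_Lf {β : Type*} (L : Finset ι → Om → β) {S : Finset (Finset ι)} {p : Finset ι → Prop}
    (h : ∀ I, p I → I ∈ S) : Fac (Lf L S) (sel p L) := fac_sel fun _ hI => Lf_one L (h _ hI)

/-- labels of `DC` on the class -/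
theorem Lf_cls (hL : ∀ I, Fac (fun v => (a v, xr x I v, Q v)) (L I)) (S : Finset (Finset ι)) {w : Om} (hw : P.p w ≠ 0)
    (hc : (xr x J w, Q w) = (xr x J u, Q u)) :
    Lf (LC (DC P a x Q L J u) id) S (a w, fun i => x i w) = Lf L S w := by
  funext G
  exact LC_cls hL G.1 hw hc

/-- `ph1` is the functional of the family of the lifted letters -/
theorem ph1_eq (hu : P.p u ≠ 0) (full : ∀ M M', Disjoint M M' → P.CI Q (fun v => (a v, xr x M v)) (xr x M'))
    (hL : ∀ I, Fac (fun v => (a v, xr x I v, Q v)) (L I)) {A : ℝ} {G : Finset ι} {v : Finset ι → CS α χ ι → ℕ}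
    (hv : Let1 (DC P a x Q L J u) A (fun I => J ⊆ I ∧ I ⊂ J ∪ G) v) :
    ph1 (DC P a x Q L J u) v G = phiv P x Q L J G (lift a x v) u := by
  have e0 : (DC P a x Q L J u).J = J := rfl
  unfold ph1 phiv
  rw [I_cls hu full, e0]
  have e1 : ip P (fun w => LC (DC P a x Q L J u) id G (a w, fun i => x i w))
      (fun w => (sel (fun I => J ⊆ I ∧ I ⊂ J ∪ G) v (a w, fun i => x i w),
        Lf (LC (DC P a x Q L J u) id) (univ.filter fun H => H ⊆ J ∪ G ∧ H.card ≤ G.card ∧ H ≠ G) (a w, fun i => x i w)))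
      (fun w => (Lf (LC (DC P a x Q L J u) id) G.ssubsets (a w, fun i => x i w), fun i => x i w))
      (fun v => (xr x J v, Q v)) u =
    ip P (L G) (fun w => (pk (lift a x v) J (J ∪ G) w,
        Lf L (univ.filter fun H => H ⊆ J ∪ G ∧ H.card ≤ G.card ∧ H ≠ G) w))
      (fun w => (Lf L G.ssubsets w, fun i => x i w)) (fun v => (xr x J v, Q v)) u := by
    refine ip_congr_supp hu (fun w hw hN => LC_cls hL G hw hN) (fun w hw hN => ?_) (fun w hw hN => ?_)
    · rw [Lf_cls hL _ hw hN]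
      rfl
    · rw [Lf_cls hL _ hw hN]
  rw [e1]
  have hM : ∀ H : Finset ι, H ⊆ J ∪ G → Fac (fun v => ((a v, xr x (J ∪ G) v), (xr x J v, Q v))) (L H) := by
    intro H hH z w e
    simp only [Prod.mk.injEq] at e
    refine hL H z w ?_
    simp only [Prod.mk.injEq]
    exact ⟨e.1.1, xr_mono x hH z w e.1.2, e.2.2⟩
  have hpk : Fac (fun v => ((a v, xr x (J ∪ G) v), (xr x J v, Q v))) (pk (lift a x v) J (J ∪ G)) := by
    refine fac_sel (fun I hI z w e => ?_)
    simp only [Prod.mk.injEq] at e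
    exact hv.dep I hI _ _ e.1.1 (fun i hi => sel_eq.1 e.1.2 i (hI.2.1 hi))
  rw [ip_all hu full Finset.subset_union_left (hM G Finset.subset_union_right)
    (hpk.prod (Lf_of L fun H hH => hM H (Finset.mem_filter.1 hH).2.1))
    (Lf_of L fun H hH => hM H ((Finset.mem_ssubsets.1 hH).1.trans Finset.subset_union_right))]
  refine ip_congr P (Fac.fst _ _) ?_ ?_ (Fac.refl _) (Fac.fst _ _) ?_ ?_ (Fac.refl _) u
  · exact (Fac.fst _ _).trans (Fac.prod (Fac.fst _ _) ((Fac.snd _ _).trans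
      (sel_Lf L fun H hH => Finset.mem_filter.2 ⟨mem_univ _, hH⟩)))
  · exact (Fac.fst _ _).trans (Fac.prod ((Fac.fst _ _).trans (sel_Lf L fun H hH => Finset.mem_ssubsets.2 hH)) (Fac.snd _ _))
  · exact (Fac.fst _ _).trans (Fac.prod (Fac.fst _ _) ((Fac.snd _ _).trans
      (Lf_sel L fun H hH => (Finset.mem_filter.1 hH).2)))
  · exact (Fac.fst _ _).trans (Fac.prod ((Fac.fst _ _).trans (Lf_sel L fun H hH => Finset.mem_ssubsets.1 hH)) (Fac.snd _ _))

/-- the lifted letters are an admissible family -/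
theorem extP_lift (hu : P.p u ≠ 0) {A : ℝ} {G : Finset ι} {v : Finset ι → CS α χ ι → ℕ}
    (hv : Let1 (DC P a x Q L J u) A (fun I => J ⊆ I ∧ I ⊂ J ∪ G) v) : ExtP P a x Q A J G u (lift a x v) where
  fac := fun I h1 h2 z w _ ha hx _ => hv.dep I ⟨h1, h2⟩ _ _ ha (fun i hi => sel_eq.1 hx i hi)
  card := fun I h1 h2 w _ hN => by
    have e1 := nv_lift (a := a) (L := L) hu h1 (hv.dep I ⟨h1, h2⟩) hN
    refine le_trans ?_ (hv.card I ⟨h1, h2⟩ (fun i => x i w))
    exact_mod_cast e1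

/-- (i') at the class -/
theorem phiBd_of (hu : P.p u ≠ 0) (full : ∀ M M', Disjoint M M' → P.CI Q (fun v => (a v, xr x M v)) (xr x M'))
    (hL : ∀ I, Fac (fun v => (a v, xr x I v, Q v)) (L I)) {s : ℕ} {A δ : ℝ}
    (h : ∀ G : Finset ι, G.card = s → ¬ J ⊆ G → phi P a x Q L A J G u ≤ δ) : PhiBd (DC P a x Q L J u) s A δ := by
  intro G hG hJG v hv
  rw [ph1_eq hu full hL hv]
  exact (le_phi (extP_lift hu hv) hu).trans (h G hG hJG)

/-- the vertices `c` in `I` are fat -/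
def fatc (P : FP Om) (x : ι → Om → χ) (Q : Om → κ) (fat : Finset ι → Om → Prop) (u : Om) (I : Finset ι) (c : ι → χ) :
    Prop := ∃ w, P.p w ≠ 0 ∧ Q w = Q u ∧ (∀ i ∈ I, x i w = c i) ∧ fat I w

theorem fatc_iff {fat : Finset ι → Om → Prop}
    (hf : ∀ I, ∀ u z, xr x I u = xr x I z → Q u = Q z → (fat I u ↔ fat I z)) {I : Finset ι} {w : Om} (hw : P.p w ≠ 0)
    (hQ : Q w = Q u) : fatc P x Q fat u I (fun i => x i w) ↔ fat I w := by
  constructor
  · rintro ⟨z, _, hz, hx, h⟩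
    exact (hf I z w (sel_eq.2 hx) (hz.trans hQ.symm)).1 h
  · intro h
    exact ⟨w, hw, hQ, fun _ _ => rfl, h⟩

/-- `fatc` depends on the vertices in `I` only -/
theorem fatc_dep {fat : Finset ι → Om → Prop} {I : Finset ι} {c c' : ι → χ} (h : ∀ i ∈ I, c i = c' i) :
    fatc P x Q fat u I c ↔ fatc P x Q fat u I c' := by
  unfold fatc
  refine exists_congr (fun w => and_congr_right fun _ => and_congr_right fun _ => and_congr_left fun _ => ?_)
  exact forall_congr' fun i => forall_congr' fun hi => by rw [h i hi]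

/-- the probability of a fat set of vertices -/
theorem Pr_fatc (hu : P.p u ≠ 0) (full : ∀ M M', Disjoint M M' → P.CI Q (fun v => (a v, xr x M v)) (xr x M'))
    {fat : Finset ι → Om → Prop} (hf : ∀ I, ∀ u z, xr x I u = xr x I z → Q u = Q z → (fat I u ↔ fat I z))
    (I : Finset ι) : (CP (DC P a x Q L J u) id).Pr (fun q => fatc P x Q fat u I q.2) =
      P.ce (fun v => (xr x J v, Q v)) (fun v => ind (fat I v)) u := by
  have h1 := (MP_cls (L := L) (J := J) hu full).Pr (fun q => fatc P x Q fat u I q.2)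
  rw [← h1, P.ce_eq_cond _ _ hu]
  unfold FP.Pr
  refine FP.E_congr _ (fun w hw => ?_)
  obtain ⟨h2, h3⟩ := at_supp (N := fun v => (xr x J v, Q v)) hu hw
  have h4 : Q w = Q u := congrArg Prod.snd h3
  show ind (fatc P x Q fat u I (fun i => x i w)) = ind (fat I w)
  congr 1
  exact propext (fatc_iff hf h2 h4)

/-- (SAT0) at the class: from a bound for all packages -/
theorem sat0Bd_gen (hu : P.p u ≠ 0) (full : ∀ M M', Disjoint M M' → P.CI Q (fun v => (a v, xr x M v)) (xr x M'))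
    (hL : ∀ I, Fac (fun v => (a v, xr x I v, Q v)) (L I)) {fat : Finset ι → Om → Prop} {s : ℕ} {A ζ : ℝ} (hA : 0 ≤ A)
    (h : ∀ v : Finset ι → Om → ℕ, Pkg P a x Q fat A J s u v → ∀ I, J ⊂ I → I.card = s →
      (P.cond (fun z => (xr x J z, Q z) = (xr x J u, Q u))).I (L I) (pk v J I) (cz x Q L I) ≤ ζ) :
    Sat0Bd (DC P a x Q L J u) (fatc P x Q fat u) s A ζ := by
  classical
  intro G hG hJG v hv hfat
  have e0 : (DC P a x Q L J u).J = J := rfl
  rw [e0] at hJG hv hfat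
  rw [I_cls hu full, e0]
  set R : Finset ι → Om → ℕ := fun I w => if I ⊂ G then lift a x v I w else 0 with hR
  have hRe : ∀ I, I ⊂ G → R I = lift a x v I := fun I hI => by
    funext w
    rw [hR]
    exact if_pos hI
  have hRn : ∀ I, ¬ I ⊂ G → R I = fun _ => 0 := fun I hI => by
    funext w
    rw [hR]
    exact if_neg hI
  have hpkg : Pkg P a x Q fat A J s u R := by
    refine ⟨fun I h1 _ z w _ ha hx _ => ?_, fun I h1 _ w hw hN => ?_, fun I h1 _ z w hz hw hN hf hx hQ => ?_⟩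
    · by_cases hI : I ⊂ G
      · rw [hRe I hI]
        exact hv.dep I ⟨h1, hI⟩ _ _ ha (fun i hi => sel_eq.1 hx i hi)
      · rw [hRn I hI]
    · by_cases hI : I ⊂ G
      · rw [hRe I hI]
        have e1 := nv_lift (a := a) (L := L) hu h1 (hv.dep I ⟨h1, hI⟩) hN
        refine le_trans ?_ (hv.card I ⟨h1, hI⟩ (fun i => x i w))
        exact_mod_cast e1
      · rw [hRn I hI]
        have h2 := nv_const (P := P) (V := fun z => (xr x I z, Q z)) (0 : ℕ) w
        have h3 : ((nv P (fun _ : Om => (0 : ℕ)) (fun z => (xr x I z, Q z)) w : ℕ) : ℝ) ≤ 1 := by exact_mod_cast h2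
        exact h3.trans (Real.one_le_exp hA)
    · by_cases hI : I ⊂ G
      · rw [hRe I hI]
        have hQw : Q w = Q u := congrArg Prod.snd hN
        have h2 : fatc P x Q fat u I (fun i => x i w) := ⟨w, hw, hQw, fun _ _ => rfl, hf⟩
        have h3 := hfat I h1 hI (fun i => x i w) h2 (a z) (a w)
        show v I (a z, fun i => x i z) = v I (a w, fun i => x i w)
        rw [← h3]
        exact hv.dep I ⟨h1, hI⟩ _ _ rfl (fun i hi => sel_eq.1 hx i hi)
      · rw [hRn I hI]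
  refine le_trans (le_of_eq ?_) (h R hpkg G hJG hG)
  have e1 : ip P (fun w => LC (DC P a x Q L J u) id G (a w, fun i => x i w))
      (fun w => sel (fun I => J ⊆ I ∧ I ⊂ G) v (a w, fun i => x i w))
      (fun w => (Lf (LC (DC P a x Q L J u) id) G.ssubsets (a w, fun i => x i w), fun i => x i w))
      (fun v => (xr x J v, Q v)) u =
    ip P (L G) (pk R J G) (fun w => (Lf L G.ssubsets w, fun i => x i w)) (fun v => (xr x J v, Q v)) u := by
    refine ip_congr_supp hu (fun w hw hN => LC_cls hL G hw hN) (fun w hw hN => ?_) (fun w hw hN => ?_)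
    · rw [sel_lift]
      funext I
      unfold pk sel
      by_cases hI : J ⊆ I ∧ I ⊂ G
      · rw [if_pos hI, if_pos hI, hRe I hI.2]
      · rw [if_neg hI, if_neg hI]
    · rw [Lf_cls hL _ hw hN]
  rw [e1]
  have hM : ∀ H : Finset ι, H ⊆ G → Fac (fun v => ((a v, xr x G v), (xr x J v, Q v))) (L H) := by
    intro H hH z w e
    simp only [Prod.mk.injEq] at e
    refine hL H z w ?_
    simp only [Prod.mk.injEq]
    exact ⟨e.1.1, xr_mono x hH z w e.1.2, e.2.2⟩
  have hpk : Fac (fun v => ((a v, xr x G v), (xr x J v, Q v))) (pk R J G) := by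
    refine fac_sel (fun I hI z w e => ?_)
    simp only [Prod.mk.injEq] at e
    rw [hRe I hI.2]
    exact hv.dep I hI _ _ e.1.1 (fun i hi => sel_eq.1 e.1.2 i (hI.2.1 hi))
  rw [ip_all hu full hJG.1 (hM G (Finset.Subset.refl _)) hpk
    (Lf_of L fun H hH => hM H (Finset.mem_ssubsets.1 hH).1), ip_eq_cond P _ _ _ _ hu]
  have e2 : (at_ P (fun v => (xr x J v, Q v)) u).I (L G) (pk R J G) (fun w => (Lf L G.ssubsets w, xr x G w)) =
      (at_ P (fun v => (xr x J v, Q v)) u).I (L G) (pk R J G) (fun w => ((Lf L G.ssubsets w, xr x G w), Q u)) :=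
    FP.I_congr_cond _ ((Fac.refl _).prod (Fac.const _ _)) (Fac.fst _ _)
  have e3 : (at_ P (fun v => (xr x J v, Q v)) u).I (L G) (pk R J G) (fun w => ((Lf L G.ssubsets w, xr x G w), Q u)) =
      (at_ P (fun v => (xr x J v, Q v)) u).I (L G) (pk R J G) (fun w => ((Lf L G.ssubsets w, xr x G w), Q w)) := by
    refine I_congr_supp _ (fun _ _ => rfl) (fun _ _ => rfl) (fun w hw => ?_)
    have h3 := (at_supp (N := fun v => (xr x J v, Q v)) hu hw).2
    have h4 : Q w = Q u := congrArg Prod.snd h3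
    rw [h4]
  rw [e2, e3]
  refine FP.I_congr_cond _ ?_ ?_
  · intro z w e
    simp only [Prod.mk.injEq] at e ⊢
    exact ⟨sel_Lf L (fun H hH => Finset.mem_ssubsets.2 hH) z w e.1.1, e.1.2, e.2⟩
  · intro z w e
    simp only [Prod.mk.injEq] at e ⊢
    exact ⟨⟨Lf_sel L (fun H hH => Finset.mem_ssubsets.1 hH) z w e.1, e.2.1⟩, e.2.2⟩

/-- (B1) at the class -/
theorem alBd_of (hu : P.p u ≠ 0) (full : ∀ M M', Disjoint M M' → P.CI Q (fun v => (a v, xr x M v)) (xr x M'))
    {k : ℕ} {aa : ℕ → ℝ} (haa : ∀ r, r < k → 0 ≤ aa r)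
    (h : ∀ I : Finset ι, I.card < k → ∀ v, P.p v ≠ 0 →
      (nv P (L I) (fun z => (xr x I z, Q z)) v : ℝ) ≤ Real.exp (aa I.card)) : AlBd (DC P a x Q L J u) k aa :=
  fun I hI c => nA_lab hu full (haa _ hI) (h I hI) c

end b2

section rule

variable {Om : Type*} [Fintype Om] {ι α χ : Type} [Fintype ι] [DecidableEq ι] [Fintype χ] [DecidableEq χ] [Fintype α]
  {κ δ φ : ℕ → Type*} {P : FP Om} {a : Om → α} {x : ι → Om → χ} {Q : ∀ t, Om → κ t} {D : ∀ t, Om → δ t}
  {f : ∀ t, Finset ι → Om → φ t} {Av w aa : ℕ → ℝ} {h : ℝ} {T : ℕ} {L : ℕ → Finset ι → Om → ℕ}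
  {fat : ℕ → Finset ι → Om → Prop} {J : Finset ι} {u : Om}

/-- (B1) at the class -/
theorem RuleOut.alBd (hR : RuleOut P a x Q D f Av w aa h T L fat) (t : ℕ) (hu : P.p u ≠ 0)
    (full : ∀ M M', Disjoint M M' → P.CI (Q t) (fun v => (a v, xr x M v)) (xr x M'))
    (haa : ∀ r, r < Fintype.card ι → 0 ≤ aa r) :
    AlBd (DC P a x (Q t) (L t) J u) (Fintype.card ι) aa :=
  alBd_of hu full haa fun I hI v hv => hR.nvle t I (fun h => by
    rw [h, Finset.card_univ] at hI
    exact lt_irrefl _ hI) v hv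

/-- (SAT0) at the class -/
theorem RuleOut.sat0Bd (hR : RuleOut P a x Q D f Av w aa h T L fat) (t : ℕ) (hu : P.p u ≠ 0)
    (full : ∀ M M', Disjoint M M' → P.CI (Q t) (fun v => (a v, xr x M v)) (xr x M')) {s : ℕ}
    (hs : s < Fintype.card ι) (hA : 0 ≤ Av s) :
    Sat0Bd (DC P a x (Q t) (L t) J u) (fatc P x (Q t) (fat t) u) s (Av s)
      (2 * (2 ^ Fintype.card ι * w (s - 1) * Av s) / w s) :=
  sat0Bd_gen hu full (fun I => hR.fac t I) hA fun _ hv _ hJI hI =>
    hR.sat_any t (hI ▸ Finset.card_lt_card hJI) hs hu hv hJI hI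

/-- (i') at the class -/
theorem RuleOut.phiBd (hR : RuleOut P a x Q D f Av w aa h T L fat) (t : ℕ) (hu : P.p u ≠ 0)
    (full : ∀ M M', Disjoint M M' → P.CI (Q t) (fun v => (a v, xr x M v)) (xr x M')) {s : ℕ} {A ρ : ℝ}
    (h : ∀ G : Finset ι, G.card = s → ¬ J ⊆ G → phi P a x (Q t) (L t) A J G u ≤ ρ) :
    PhiBd (DC P a x (Q t) (L t) J u) s A ρ := phiBd_of hu full (fun I => hR.fac t I) h

/-- the fat sets at the class -/
theorem RuleOut.Pr_fatc (hR : RuleOut P a x Q D f Av w aa h T L fat) (t : ℕ) (hu : P.p u ≠ 0)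
    (full : ∀ M M', Disjoint M M' → P.CI (Q t) (fun v => (a v, xr x M v)) (xr x M')) (I : Finset ι) :
    (CP (DC P a x (Q t) (L t) J u) id).Pr (fun q => fatc P x (Q t) (fat t) u I q.2) =
      P.ce (fun v => (xr x J v, Q t v)) (fun v => ind (fat t I v)) u :=
  GMM.Pr_fatc hu full (hR.fat_fac t) I

end rule

end

end Pool.Agent.GMM
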