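import Pool.Agent.GMM.Bridge

/-!
# GMM/BridgeB: from the static bounds at a class back to the path space (row CM; helper24)

* `ip_congr_sc` : informations at a point look at the support of the class only;
* `exR`, `ext_exR` : a global admissible family as extras of the class of `(x_J', Q)`;
* `small_of` : `BdX (DC ..)` ==> the hypothesis `small` of `cm4_phi`, `cm4_phi_all`;
* `mmG_DC` : `mmG` of the class as an information on the path space.
-/

set_option autoImplicit false
set_option linter.unusedSectionVars false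

namespace Pool.Agent.GMM

open Finset Pool.Agent.M3 Pool.Agent.GMC
open Pool.Agent.PWZ hiding ip

noncomputable section

/-- informations at a point look at the support of the class only -/
theorem ip_congr_sc {Om : Type*} [Fintype Om] {P : FP Om} {β β' β'' ν : Type*} {X X' : Om → β} {Y Y' : Om → β'}
    {Z Z' : Om → β''} {N : Om → ν} {u : Om} (hu : P.p u ≠ 0) (hX : ∀ v, P.p v ≠ 0 → N v = N u → X v = X' v)
    (hY : ∀ v, P.p v ≠ 0 → N v = N u → Y v = Y' v) (hZ : ∀ v, P.p v ≠ 0 → N v = N u → Z v = Z' v) :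
    ip P X Y Z N u = ip P X' Y' Z' N u := by
  rw [ip_eq_cond P X Y Z N hu, ip_eq_cond P X' Y' Z' N hu]
  have hs : ∀ v, (at_ P N u).p v ≠ 0 → P.p v ≠ 0 ∧ N v = N u := fun v hv => by
    obtain ⟨h1, h2⟩ := (FP.cond_p_ne (P.m_pos N hu).ne').1 hv
    exact ⟨h2, h1⟩
  exact I_congr_supp _ (fun v hv => hX v (hs v hv).1 (hs v hv).2) (fun v hv => hY v (hs v hv).1 (hs v hv).2)
    (fun v hv => hZ v (hs v hv).1 (hs v hv).2)

section back

variable {Om : Type*} [Fintype Om] {ι α χ : Type} [Fintype ι] [DecidableEq ι] [Fintype χ] [DecidableEq χ] [Fintype α]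
  {κ : Type*} {P : FP Om} {a : Om → α} {x : ι → Om → χ} {Q : Om → κ} {u : Om} {L : Finset ι → Om → ℕ} {J J' G : Finset ι}

theorem lt_Lfb (L : Finset ι → Om → ℕ) (G : Finset ι) : Fac (lt L G) (Lf L G.ssubsets) :=
  Lf_of L fun _ hH => lt_fac L (Finset.mem_ssubsets.1 hH)

theorem Lf_ltb (L : Finset ι → Om → ℕ) (G : Finset ι) : Fac (Lf L G.ssubsets) (lt L G) :=
  fac_sel (fun _ hH => Lf_one L (Finset.mem_ssubsets.2 hH))

/-! ## extras from a family -/

/-- condition for the index -/
def cex (J J' G P' : Finset ι) : Prop := J ∩ (G \ J') ⊆ P' ∧ J ∪ P' ⊂ J ∪ G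

open Classical in
/-- extras of the class from a global family -/
def exR (P : FP Om) (a : Om → α) (x : ι → Om → χ) (Q : Om → κ) (u : Om) (J J' G : Finset ι) (R : Finset ι → Om → ℕ)
    (P' : Finset ι) (p : CS α χ ι) : ℕ :=
  if cex J J' G P' then fnl P a x Q u (J ∪ P') (R (J ∪ P')) p.1 p.2 else 0

theorem exR_of {R : Finset ι → Om → ℕ} {P' : Finset ι} (h : cex J J' G P') (p : CS α χ ι) :
    exR P a x Q u J J' G R P' p = fnl P a x Q u (J ∪ P') (R (J ∪ P')) p.1 p.2 := by unfold exR; rw [if_pos h]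

theorem exR_not {R : Finset ι → Om → ℕ} {P' : Finset ι} (h : ¬ cex J J' G P') (p : CS α χ ι) :
    exR P a x Q u J J' G R P' p = 0 := by unfold exR; rw [if_neg h]

theorem fre_DCb (G : Finset ι) : fre (DC P a x Q L J' u) id G = G \ J' := by
  ext i
  unfold fre
  rw [Finset.mem_filter, Finset.mem_sdiff]
  rfl

theorem ext_exR (hu : P.p u ≠ 0) (full : ∀ M M', Disjoint M M' → P.CI Q (fun v => (a v, xr x M v)) (xr x M'))
    {A : ℝ} (hA : 0 ≤ A) {R : Finset ι → Om → ℕ} (hR : ExtG P a x Q A J G R) :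
    Ext (DC P a x Q L J' u) id G A (exR P a x Q u J J' G R) where
  dep := by
    intro P' hP' p q h1 h2
    rw [fre_DCb] at hP' h2
    by_cases hc : cex J J' G P'
    · rw [exR_of hc, exR_of hc, h1]
      refine fnl_dep _ _ _ (fun i hi => h2 i ?_)
      rw [Finset.mem_sdiff]
      rintro ⟨h3, h4⟩
      rcases Finset.mem_union.1 hi with h5 | h5
      · exact h4 (hc.1 (Finset.mem_inter.2 ⟨h5, h3⟩))
      · exact h4 h5
    · rw [exR_not hc, exR_not hc]
  card := by
    intro P' _ c
    have h1 : (1 : ℝ) ≤ Real.exp A := Real.one_le_exp hA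
    by_cases hc : cex J J' G P'
    · have e : (fun b => exR P a x Q u J J' G R P' (b, c)) = fun b => fnl P a x Q u (J ∪ P') (R (J ∪ P')) b c := by
        funext b
        exact exR_of hc _
      rw [e]
      refine nA_fnl hu full (J ∪ P') (R (J ∪ P')) h1 (fun v hv _ => ?_) c
      exact hR.card (J ∪ P') Finset.subset_union_left hc.2 v hv
    · have h2 : nA (DC P a x Q L J' u) (fun b => exR P a x Q u J J' G R P' (b, c)) ≤ ({0} : Finset ℕ).card :=
        nA_le_of _ (fun b _ => by rw [exR_not hc]; exact Finset.mem_singleton_self 0)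
      rw [Finset.card_singleton] at h2
      refine le_trans ?_ h1
      exact_mod_cast h2

/-- the index of a member of a family -/
theorem idx (hJ : J' ⊆ J) {I : Finset ι} (h1 : J ⊆ I) (h2 : I ⊂ J ∪ G) :
    I ∩ (G \ J') ⊂ G \ J' ∧ cex J J' G (I ∩ (G \ J')) ∧ J ∪ I ∩ (G \ J') = I := by
  have h3 : J ∪ I ∩ (G \ J') = I := by
    ext i
    simp only [Finset.mem_union, Finset.mem_inter, Finset.mem_sdiff]
    constructor
    · rintro (h | h)
      · exact h1 h
      · exact h.1
    · intro h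
      by_cases hi : i ∈ J
      · exact Or.inl hi
      · refine Or.inr ⟨h, ?_, fun h' => hi (hJ h')⟩
        rcases Finset.mem_union.1 (h2.1 h) with h4 | h4
        · exact absurd h4 hi
        · exact h4
  refine ⟨?_, ⟨fun i hi => ?_, ?_⟩, h3⟩
  · obtain ⟨g, hg, hgI⟩ := Finset.exists_of_ssubset h2
    have hgJ : g ∉ J := fun h => hgI (h1 h)
    have hgG : g ∈ G := (Finset.mem_union.1 hg).resolve_left hgJ
    rw [Finset.ssubset_iff_of_subset Finset.inter_subset_right]
    exact ⟨g, Finset.mem_sdiff.2 ⟨hgG, fun h => hgJ (hJ h)⟩, fun h => hgI (Finset.mem_inter.1 h).1⟩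
  · obtain ⟨h4, h5⟩ := Finset.mem_inter.1 hi
    exact Finset.mem_inter.2 ⟨h1 h4, h5⟩
  · rw [h3]; exact h2

open Classical in
/-- the tuple of the extras on the path space -/
def exO (J J' G : Finset ι) (R : Finset ι → Om → ℕ) (v : Om) : Finset ι → Option ℕ :=
  fun P' => if P' ⊂ G \ J' then some (if cex J J' G P' then R (J ∪ P') v else 0) else none

theorem exO_pk (hJ : J' ⊆ J) (R : Finset ι → Om → ℕ) : Fac (exO J J' G R) (pk R J (J ∪ G)) := by
  classical
  refine fac_sel (fun I hI v w e => ?_)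
  obtain ⟨h1, h2, h3⟩ := idx hJ hI.1 hI.2
  have h4 := congrFun e (I ∩ (G \ J'))
  unfold exO at h4
  simp only [if_pos h1, if_pos h2, Option.some.injEq] at h4
  rw [h3] at h4
  exact h4

/-- the tuple of the extras at a point of the support -/
theorem exT_cls {A : ℝ} {R : Finset ι → Om → ℕ} (hR : ExtG P a x Q A J G R) {v : Om} (hv : P.p v ≠ 0)
    (hQ : Q v = Q u) :
    exT (fre (DC P a x Q L J' u) id G) (exR P a x Q u J J' G R) (a v, fun i => x i v) = exO J J' G R v := by
  classical
  funext P'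
  unfold exT exO
  rw [fre_DCb]
  by_cases h1 : P' ⊂ G \ J'
  · rw [if_pos h1, if_pos h1]
    by_cases hc : cex J J' G P'
    · rw [if_pos hc, exR_of hc]
      exact congrArg some (fnl_eq (hR.fac (J ∪ P') Finset.subset_union_left hc.2) hv hQ)
    · rw [if_neg hc, exR_not hc]
  · rw [if_neg h1, if_neg h1]

/-- (SAT*) AT THE CLASS gives the smallness for `cm4_phi` -/
theorem small_of (hu : P.p u ≠ 0) (full : ∀ M M', Disjoint M M' → P.CI Q (fun v => (a v, xr x M v)) (xr x M'))
    (hL : ∀ I, Fac (fun v => (a v, xr x I v, Q v)) (L I)) (hJ : J' ⊆ J) (hGu : G ≠ univ) {A ε : ℝ} (hA : 0 ≤ A)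
    {N : ℕ} (hN : Fintype.card ι ≤ N)
    (hB : BdX (DC P a x Q L J' u) (Fintype.card ι) G.card (G \ J').card N A ε) {R : Finset ι → Om → ℕ}
    (hR : ExtG P a x Q A J G R) :
    ip P (L G) (fun v => (pk R J (J ∪ G) v, lall L J G v)) (fun v => (lt L G v, xr x (J ∪ G) v))
      (fun v => (xr x J' v, Q v)) u ≤ ε := by
  have hGk : G.card < Fintype.card ι := by
    rw [← Finset.card_univ]
    exact Finset.card_lt_card (Finset.ssubset_iff_subset_ne.2 ⟨Finset.subset_univ _, hGu⟩)
  have hLS : ∀ H : Finset ι, H.card ≤ G.card → H ∈ LS (id : ι → ι) (Fintype.card ι) := fun H hH =>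
    mem_LS.2 ⟨by omega, Function.injective_id.injOn⟩
  have hex := ext_exR (L := L) (J' := J') hu full hA hR
  have h1 := hB ι (id : ι → ι) (fun y y' _ h => h) hN G (hLS G le_rfl) rfl (by rw [fre_DCb]) _ hex
  refine le_trans ?_ h1
  have e1 : mst (DC P a x Q L J' u) id (Fintype.card ι) (exR P a x Q u J J' G R) G =
      ip P (L G) (fun v => (exO J J' G R v, Lf L (prev (LS id (Fintype.card ι)) G) v))
        (fun v => (Lf L G.ssubsets v, fun i => x i v)) (fun v => (xr x J' v, Q v)) u := by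
    unfold mst mX
    rw [I_cls hu full]
    refine ip_congr_sc hu (fun v hv hc => ?_) (fun v hv hc => ?_) (fun v hv hc => ?_)
    · exact LC_cls hL G hv hc
    · have h2 : Lf (LC (DC P a x Q L J' u) id) (prev (LS id (Fintype.card ι)) G) (a v, fun i => x i v) =
          Lf L (prev (LS id (Fintype.card ι)) G) v := by
        funext H
        exact LC_cls hL H.1 hv hc
      show (exT (fre (DC P a x Q L J' u) id G) (exR P a x Q u J J' G R) (a v, fun i => x i v), _) = _
      rw [exT_cls hR hv (congrArg Prod.snd hc), h2]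
    · have h2 : Lf (LC (DC P a x Q L J' u) id) G.ssubsets (a v, fun i => x i v) = Lf L G.ssubsets v := by
        funext H
        exact LC_cls hL H.1 hv hc
      show (_, _) = _
      rw [h2]
  rw [e1]
  -- the left side with all vertices
  have hJJ : J' ⊆ J ∪ G := hJ.trans Finset.subset_union_left
  have hUN : ∀ {I : Finset ι}, I ⊆ J ∪ G →
      Fac (fun v => ((a v, xr x (J ∪ G) v), (xr x J' v, Q v))) (fun v => (a v, xr x I v, Q v)) := by
    intro I hI v z e
    simp only [Prod.mk.injEq] at e ⊢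
    exact ⟨e.1.1, xr_mono x hI v z e.1.2, e.2.2⟩
  have hpk : Fac (fun v => ((a v, xr x (J ∪ G) v), (xr x J' v, Q v))) (pk R J (J ∪ G)) :=
    fac_sel (fun I hI => (hUN hI.2.1).trans (hR.fac I hI.1 hI.2))
  have hla : Fac (fun v => ((a v, xr x (J ∪ G) v), (xr x J' v, Q v))) (lall L J G) :=
    fac_sel (fun I hI => (hUN hI.1).trans (hL I))
  have hlt : Fac (fun v => ((a v, xr x (J ∪ G) v), (xr x J' v, Q v))) (lt L G) :=
    fac_sel (fun I hI => (hUN (hI.1.trans Finset.subset_union_right)).trans (hL I))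
  rw [← ip_all hu full hJJ ((hUN Finset.subset_union_right).trans (hL G)) (hpk.prod hla) hlt]
  have e2 : ip P (L G) (fun v => (pk R J (J ∪ G) v, lall L J G v)) (fun v => (lt L G v, fun i => x i v))
      (fun v => (xr x J' v, Q v)) u =
      ip P (L G) (fun v => (pk R J (J ∪ G) v, lall L J G v)) (fun v => (Lf L G.ssubsets v, fun i => x i v))
      (fun v => (xr x J' v, Q v)) u := by
    refine ip_congr P (Fac.fst _ _) (Fac.fst _ _) ?_ (Fac.refl _) (Fac.fst _ _) (Fac.fst _ _) ?_ (Fac.refl _) u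
    · intro v z e
      simp only [Prod.mk.injEq] at e ⊢
      exact ⟨lt_Lfb L G v z e.1.1, e.1.2⟩
    · intro v z e
      simp only [Prod.mk.injEq] at e ⊢
      exact ⟨Lf_ltb L G v z e.1.1, e.1.2⟩
  rw [e2]
  refine ip_mono_right P _ _ _ ?_ hu
  refine Fac.prod ((Fac.fst _ _).trans ((Fac.fst _ _).trans (exO_pk hJ R))) ?_
  refine fac_sel (fun H hH => (Fac.fst _ _).trans ((Fac.snd _ _).trans (Lf_one L ?_)))
  exact mem_prev.2 ⟨hLS H hH.2.1, hH.2.1, hH.2.2⟩

/-! ## the functional `M_r` -/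

/-- the mean of `m_G` at the class -/
theorem mmG_DC (hu : P.p u ≠ 0) (full : ∀ M M', Disjoint M M' → P.CI Q (fun v => (a v, xr x M v)) (xr x M'))
    (hL : ∀ I, Fac (fun v => (a v, xr x I v, Q v)) (L I)) (k : ℕ) (G : Finset ι) :
    mmG (DC P a x Q L J u) id k G =
      ip P (L G) (Lf L (prev (LS id k) G)) (fun v => (Lf L G.ssubsets v, fun i => x i v)) (fun v => (xr x J v, Q v)) u := by
  unfold mmG mG
  rw [I_cls hu full]
  refine ip_congr_sc hu (fun v hv hc => LC_cls hL G hv hc) (fun v hv hc => ?_) (fun v hv hc => ?_)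
  · funext H
    exact LC_cls hL H.1 hv hc
  · have h2 : Lf (LC (DC P a x Q L J u) id) G.ssubsets (a v, fun i => x i v) = Lf L G.ssubsets v := by
      funext H
      exact LC_cls hL H.1 hv hc
    show (_, _) = _
    rw [h2]

end back

end

end Pool.Agent.GMM
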