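import Pool.Agent.GMM.CM4

/-!
# GMM/CM5: the potential argument of block CM (CM.5) with flags (helper45)

`cm5_abs` : `pi`, `A r` (r < R) functions of `Kn K0 t` (`K0` = all known vertices), one step inequalities on nodes with living
parts, losses = finitely many nonnegative adapted terms, each with its own index set `b i` (weight by `hZ`), and one term `g`
without weight; small in the mean over every proper part of `x_K0` which is not hot and has living parts.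
-/

set_option autoImplicit false
set_option linter.unusedSectionVars false

namespace Pool.Agent.GMM

open Finset Pool.Agent.PWZ Pool.Agent.M3 Pool.Agent.M3.FP Pool.Agent.GMC

noncomputable section

variable {Om : Type*} [Fintype Om]
variable {ι : Type*} [DecidableEq ι] {P : FP Om} {κ : Finset ι → ℕ → Type*} {Kn : ∀ J t, Om → κ J t}
  {hot : Finset ι → ℕ → Om → Prop} {Cc c0 : ℝ}

/-- a weighted loss -/
theorem loss_le (hF : Frame P Kn Cc c0) (hCc : 0 ≤ Cc)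
    (hhot : ∀ J t v w, Kn J t v = Kn J t w → (hot J t v ↔ hot J t w)) {K0 B : Finset ι} (hB : B ⊂ K0) {t : ℕ}
    {Y f : Om → ℝ} (hY : Fac (Kn K0 t) Y) (hY0 : ∀ w, P.p w ≠ 0 → 0 ≤ Y w) (hf0 : ∀ w, P.p w ≠ 0 → 0 ≤ f w)
    {ζ : Type*} {Z : Om → ζ} (hf : Fac Z f)
    (hZ : ∀ h : Om → ℝ, (∀ w, 0 ≤ h w) → Fac (Kn K0 t) h → ∀ w, P.p w ≠ 0 → P.ce Z h w ≤ Cc * P.ce (Kn B t) h w)
    {ρ ε : ℝ} (hρ : 0 < ρ) (hε : 0 ≤ ε)
    (small : ∀ w, P.p w ≠ 0 → ¬ hot B t w → pal P Kn hot B t w → P.ce (Kn B t) Y w ≤ ε) :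
    P.E (fun w => ind (pal P Kn hot K0 t w ∧ ρ ≤ Y w) * f w) ≤ Cc * (ε / ρ) * P.E f := by
  have hpf : ∀ v w, Kn K0 t v = Kn K0 t w → (pal P Kn hot K0 t v ↔ pal P Kn hot K0 t w) := fun v w h =>
    pal_fac hF hhot K0 t v w h
  have hfac : Fac (Kn K0 t) (fun v => ind (pal P Kn hot K0 t v ∧ ρ ≤ Y v)) :=
    Fac.ind (fun v v' h => by rw [hY v v' h, hpf v v' h])
  refine P.E_mul_le_of_ce hf hf0 (fun w hw => (hZ _ (fun _ => ind_nonneg _) hfac w hw).trans ?_)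
  refine mul_le_mul_of_nonneg_left ?_ hCc
  exact ce_ind_le P (Z := Kn B t) (a := pal P Kn hot K0 t) (b := al P Kn hot B t) (Y := Y) hρ hε hY0
    (fun v h => h _ hB) (fun v v' h => al_fac hF hhot B t v v' h)
    (fun v hv ha => small v hv (al_not_hot ha) (al_pal ha)) hw

/-- the end term -/
theorem end_le (hF : Frame P Kn Cc c0) (hhot : ∀ J t v w, Kn J t v = Kn J t w → (hot J t v ↔ hot J t w))
    {K0 : Finset ι} (h0 : ∅ ⊂ K0) (T : ℕ) {Y : Om → ℝ} (hY0 : ∀ w, P.p w ≠ 0 → 0 ≤ Y w) {ε : ℝ} (hε : 0 ≤ ε)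
    (small : ∀ w, P.p w ≠ 0 → ¬ hot ∅ T w → pal P Kn hot ∅ T w → P.ce (Kn ∅ T) Y w ≤ ε) :
    P.E (fun w => ind (pal P Kn hot K0 T w) * Y w) ≤ ε := by
  have h1 : P.E (fun w => ind (pal P Kn hot K0 T w) * Y w) ≤ P.E (fun w => ind (al P Kn hot ∅ T w) * Y w) :=
    P.E_mono (fun w hw => mul_le_mul_of_nonneg_right (ind_mono (fun h => h ∅ h0)) (hY0 w hw))
  have h2 := E_ind_le P (Z := Kn ∅ T) (b := al P Kn hot ∅ T) (Y := Y) (ε := ε)
    (fun v w h => al_fac hF hhot ∅ T v w h) (fun w hw ha => small w hw (al_not_hot ha) (al_pal ha))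
  have h3 := mul_le_mul_of_nonneg_left (P.Pr_le_one (al P Kn hot ∅ T)) hε
  linarith

/-- THEOREM CM, abstract potential form (CM.5) -/
theorem cm5_abs (hF : Frame P Kn Cc c0) (hCc : 0 ≤ Cc)
    (hhot : ∀ J t v w, Kn J t v = Kn J t w → (hot J t v ↔ hot J t w)) {K0 : Finset ι} (hK0 : ∅ ⊂ K0) (T R : ℕ)
    {pi : ℕ → Om → ℝ} {A : Fin R → ℕ → Om → ℝ} (hpi : ∀ t, Fac (Kn K0 t) (pi t)) (hA : ∀ r t, Fac (Kn K0 t) (A r t))
    (hpi0 : ∀ t w, P.p w ≠ 0 → 0 ≤ pi t w) (hA0 : ∀ r t w, P.p w ≠ 0 → 0 ≤ A r t w)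
    {α : Type*} (S0 : Finset α) (S : Fin R → Finset α) {ζ : α → ℕ → Type*} (Z : ∀ i t, Om → ζ i t) (b : α → Finset ι)
    (f0 : α → ℕ → Om → ℝ) (f : Fin R → α → ℕ → Om → ℝ) (g : ℕ → Om → ℝ)
    (hb0 : ∀ i ∈ S0, b i ⊂ K0) (hb : ∀ r, ∀ i ∈ S r, b i ⊂ K0)
    (hZ : ∀ i, ∀ t < T, ∀ h : Om → ℝ, (∀ w, 0 ≤ h w) → Fac (Kn K0 t) h → ∀ w, P.p w ≠ 0 →
      P.ce (Z i (t + 1)) h w ≤ Cc * P.ce (Kn (b i) t) h w)
    (hf0 : ∀ i ∈ S0, ∀ t < T, Fac (Z i (t + 1)) (f0 i (t + 1)))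
    (hf : ∀ r, ∀ i ∈ S r, ∀ t < T, Fac (Z i (t + 1)) (f r i (t + 1)))
    (hf00 : ∀ i t w, P.p w ≠ 0 → 0 ≤ f0 i t w) (hf1 : ∀ r i t w, P.p w ≠ 0 → 0 ≤ f r i t w)
    (hg0 : ∀ t w, P.p w ≠ 0 → 0 ≤ g t w) {ρ : ℝ} (hρ : 0 < ρ)
    (step0 : ∀ t < T, ∀ w, P.p w ≠ 0 → pal P Kn hot K0 t w →
      pi t w + ∑ r, A r t w ≤ P.ce (Kn K0 t) (fun v => pi (t + 1) v + ∑ r, A r (t + 1) v +
        (∑ i ∈ S0, f0 i (t + 1) v + g (t + 1) v)) w)
    (step1 : ∀ r, ∀ t < T, ∀ w, P.p w ≠ 0 → pal P Kn hot K0 t w →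
      A r t w ≤ P.ce (Kn K0 t) (fun v => A r (t + 1) v + ∑ i ∈ S r, f r i (t + 1) v) w)
    {ε : Finset ι → ℝ} {η : Fin R → Finset ι → ℝ} (hε : ∀ J, 0 ≤ ε J) (hη : ∀ r J, 0 ≤ η r J)
    (small0 : ∀ J, J ⊂ K0 → ∀ t ≤ T, ∀ w, P.p w ≠ 0 → ¬ hot J t w → pal P Kn hot J t w →
      P.ce (Kn J t) (pi t) w ≤ ε J)
    (small1 : ∀ r, ∀ J, J ⊂ K0 → ∀ t ≤ T, ∀ w, P.p w ≠ 0 → ¬ hot J t w → pal P Kn hot J t w →
      P.ce (Kn J t) (A r t) w ≤ η r J) :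
    ρ * P.Pr (fun w => ∃ t ≤ T, pal P Kn hot K0 t w ∧ 2 * ρ ≤ pi t w) ≤
      (ε ∅ + ((R : ℝ) + 1) * ∑ r, η r ∅) + ∑ J ∈ K0.ssubsets, (ε J + ((R : ℝ) + 1) * ∑ r, η r J) +
      ∑ t ∈ range T, P.E (g (t + 1)) +
      Cc * (((R : ℝ) + 1) / ρ) * ∑ i ∈ S0, ε (b i) * ∑ t ∈ range T, P.E (f0 i (t + 1)) +
      Cc * (((R : ℝ) + 1) ^ 2 / ρ) * ∑ r, ∑ i ∈ S r, η r (b i) * ∑ t ∈ range T, P.E (f r i (t + 1)) := by
  have hR : (0 : ℝ) < (R : ℝ) + 1 := by positivity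
  have hρR : 0 < ρ / ((R : ℝ) + 1) := by positivity
  have hpf : ∀ t v w, Kn K0 t v = Kn K0 t w → (pal P Kn hot K0 t v ↔ pal P Kn hot K0 t w) := fun t v w h =>
    pal_fac hF hhot K0 t v w h
  have key := c3pot_ae P (Kn K0) T R pi A (pal P Kn hot K0) (fun _ => pal P Kn hot K0)
    (fun t v => ∑ i ∈ S0, f0 i t v + g t v) (fun r t v => ∑ i ∈ S r, f r i t v) ρ hρ (hF.filt K0) hpi hA hpf
    (fun _ => hpf) (fun t w h => pal_anti K0 t w h) (fun _ t w h => pal_anti K0 t w h) hpi0 hA0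
    (fun t w hw => add_nonneg (Finset.sum_nonneg fun i _ => hf00 i t w hw) (hg0 t w hw))
    (fun r t w hw => Finset.sum_nonneg fun i _ => hf1 r i t w hw)
    (fun t ht w hw ha _ => by
      have h2 := step0 t ht w hw ha
      have e : P.ce (Kn K0 t) (fun v => ind (pal P Kn hot K0 t v) * pi (t + 1) v +
          ∑ r, ind (pal P Kn hot K0 t v) * A r (t + 1) v + (∑ i ∈ S0, f0 i (t + 1) v + g (t + 1) v)) w =
          P.ce (Kn K0 t) (fun v => pi (t + 1) v + ∑ r, A r (t + 1) v +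
            (∑ i ∈ S0, f0 i (t + 1) v + g (t + 1) v)) w := by
        unfold FP.ce
        congr 1
        refine P.E_congr (fun v _ => ?_)
        by_cases hv : Kn K0 t v = Kn K0 t w
        · have hv2 := ind_of ((hpf t v w hv).2 ha)
          simp only
          rw [ind_of hv, hv2]
          simp only [one_mul]
        · rw [ind_not hv, zero_mul, zero_mul]
      have e2 : pi t w + ∑ r, ind (pal P Kn hot K0 t w) * A r t w = pi t w + ∑ r, A r t w := by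
        rw [ind_of ha]; simp only [one_mul]
      rw [e2]
      exact h2.trans (le_of_eq e.symm))
    (fun r t ht w hw ha _ => by
      have h2 := step1 r t ht w hw ha
      have e : P.ce (Kn K0 t) (fun v => ind (pal P Kn hot K0 t v) * A r (t + 1) v + ∑ i ∈ S r, f r i (t + 1) v) w =
          P.ce (Kn K0 t) (fun v => A r (t + 1) v + ∑ i ∈ S r, f r i (t + 1) v) w := by
        unfold FP.ce
        congr 1
        refine P.E_congr (fun v _ => ?_)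
        by_cases hv : Kn K0 t v = Kn K0 t w
        · have hv2 := ind_of ((hpf t v w hv).2 ha)
          simp only
          rw [ind_of hv, hv2]
          simp only [one_mul]
        · rw [ind_not hv, zero_mul, zero_mul]
      exact h2.trans (le_of_eq e.symm))
  -- end
  have hend : P.E (fun w => ind (pal P Kn hot K0 T w) * pi T w +
      ((R : ℝ) + 1) * ∑ r, ind (pal P Kn hot K0 T w) * A r T w) ≤ ε ∅ + ((R : ℝ) + 1) * ∑ r, η r ∅ := by
    rw [P.E_add, P.E_smul, P.E_sum univ (fun r w => ind (pal P Kn hot K0 T w) * A r T w)]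
    refine add_le_add ?_ (mul_le_mul_of_nonneg_left (Finset.sum_le_sum fun r _ => ?_) hR.le)
    · exact end_le hF hhot hK0 T (hpi0 T) (hε ∅) (fun w hw h1 h2 => small0 ∅ hK0 T le_rfl w hw h1 h2)
    · exact end_le hF hhot hK0 T (hA0 r T) (hη r ∅) (fun w hw h1 h2 => small1 r ∅ hK0 T le_rfl w hw h1 h2)
  -- losses
  have hl0 : ∑ t ∈ range T, P.E (fun w => ind (pal P Kn hot K0 t w ∧ ρ / ((R : ℝ) + 1) ≤ pi t w) *
      (∑ i ∈ S0, f0 i (t + 1) w + g (t + 1) w)) ≤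
      Cc * (((R : ℝ) + 1) / ρ) * ∑ i ∈ S0, ε (b i) * ∑ t ∈ range T, P.E (f0 i (t + 1)) +
        ∑ t ∈ range T, P.E (g (t + 1)) := by
    have h1 : ∀ t ∈ range T, P.E (fun w => ind (pal P Kn hot K0 t w ∧ ρ / ((R : ℝ) + 1) ≤ pi t w) *
        (∑ i ∈ S0, f0 i (t + 1) w + g (t + 1) w)) ≤
        ∑ i ∈ S0, Cc * (ε (b i) / (ρ / ((R : ℝ) + 1))) * P.E (f0 i (t + 1)) + P.E (g (t + 1)) := by
      intro t ht
      have ht' : t < T := Finset.mem_range.mp ht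
      have h2 : P.E (fun w => ind (pal P Kn hot K0 t w ∧ ρ / ((R : ℝ) + 1) ≤ pi t w) *
          (∑ i ∈ S0, f0 i (t + 1) w + g (t + 1) w)) ≤
          P.E (fun w => ∑ i ∈ S0, ind (pal P Kn hot K0 t w ∧ ρ / ((R : ℝ) + 1) ≤ pi t w) * f0 i (t + 1) w +
            g (t + 1) w) := by
        refine P.E_mono (fun w hw => ?_)
        rw [mul_add, Finset.mul_sum]
        exact add_le_add le_rfl (mul_le_of_le_one_left (hg0 _ w hw) (ind_le_one _))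
      rw [P.E_add, P.E_sum] at h2
      refine h2.trans (add_le_add (Finset.sum_le_sum fun i hi => ?_) le_rfl)
      exact loss_le hF hCc hhot (hb0 i hi) (hpi t) (hpi0 t) (hf00 i (t + 1)) (hf0 i hi t ht')
        (fun h hh0 hh w hw => hZ i t ht' h hh0 hh w hw) hρR (hε (b i))
        (fun w hw h3 h4 => small0 (b i) (hb0 i hi) t ht'.le w hw h3 h4)
    refine (Finset.sum_le_sum h1).trans (le_of_eq ?_)
    rw [Finset.sum_add_distrib, Finset.sum_comm, Finset.mul_sum]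
    congr 1
    refine Finset.sum_congr rfl (fun i _ => ?_)
    rw [← Finset.mul_sum]
    field_simp
  have hl1 : ∀ r, ∑ t ∈ range T, P.E (fun w => ind (pal P Kn hot K0 t w ∧ ρ / ((R : ℝ) + 1) ≤ A r t w) *
      ∑ i ∈ S r, f r i (t + 1) w) ≤
      Cc * (((R : ℝ) + 1) / ρ) * ∑ i ∈ S r, η r (b i) * ∑ t ∈ range T, P.E (f r i (t + 1)) := by
    intro r
    have h1 : ∀ t ∈ range T, P.E (fun w => ind (pal P Kn hot K0 t w ∧ ρ / ((R : ℝ) + 1) ≤ A r t w) *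
        ∑ i ∈ S r, f r i (t + 1) w) ≤
        ∑ i ∈ S r, Cc * (η r (b i) / (ρ / ((R : ℝ) + 1))) * P.E (f r i (t + 1)) := by
      intro t ht
      have ht' : t < T := Finset.mem_range.mp ht
      have h2 : P.E (fun w => ind (pal P Kn hot K0 t w ∧ ρ / ((R : ℝ) + 1) ≤ A r t w) *
          ∑ i ∈ S r, f r i (t + 1) w) ≤
          P.E (fun w => ∑ i ∈ S r, ind (pal P Kn hot K0 t w ∧ ρ / ((R : ℝ) + 1) ≤ A r t w) * f r i (t + 1) w) := by
        refine P.E_mono (fun w hw => ?_)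
        rw [Finset.mul_sum]
      rw [P.E_sum] at h2
      refine h2.trans (Finset.sum_le_sum fun i hi => ?_)
      exact loss_le hF hCc hhot (hb r i hi) (hA r t) (hA0 r t) (hf1 r i (t + 1)) (hf r i hi t ht')
        (fun h hh0 hh w hw => hZ i t ht' h hh0 hh w hw) hρR (hη r (b i))
        (fun w hw h3 h4 => small1 r (b i) (hb r i hi) t ht'.le w hw h3 h4)
    refine (Finset.sum_le_sum h1).trans (le_of_eq ?_)
    rw [Finset.sum_comm, Finset.mul_sum]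
    refine Finset.sum_congr rfl (fun i _ => ?_)
    rw [← Finset.mul_sum]
    field_simp
  -- deaths
  have hd0 := death_le hF hhot (J := K0) T hpi0 (ε := ε) hε small0
  have hd1 : ∀ r, ∑ t ∈ range T, P.E (fun w => ind (pal P Kn hot K0 t w ∧ ¬ pal P Kn hot K0 (t + 1) w) *
      A r (t + 1) w) ≤ ∑ J ∈ K0.ssubsets, η r J := fun r =>
    death_le hF hhot (J := K0) T (hA0 r) (ε := η r) (hη r) (small1 r)
  -- assembly
  have hs1 : ∀ (X : ℕ → ℝ) (Y : Fin R → ℕ → ℝ), ∑ t ∈ range T, (X t + ((R : ℝ) + 1) * ∑ r, Y r t) =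
      ∑ t ∈ range T, X t + ((R : ℝ) + 1) * ∑ r, ∑ t ∈ range T, Y r t := by
    intro X Y
    rw [Finset.sum_add_distrib, ← Finset.mul_sum, Finset.sum_comm]
  rw [hs1 (fun t => P.E (fun w => ind (pal P Kn hot K0 t w ∧ ρ / ((R : ℝ) + 1) ≤ pi t w) *
      (∑ i ∈ S0, f0 i (t + 1) w + g (t + 1) w))) (fun r t => P.E (fun w =>
      ind (pal P Kn hot K0 t w ∧ ρ / ((R : ℝ) + 1) ≤ A r t w) * ∑ i ∈ S r, f r i (t + 1) w)),
    hs1 (fun t => P.E (fun w => ind (pal P Kn hot K0 t w ∧ ¬ pal P Kn hot K0 (t + 1) w) * pi (t + 1) w))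
      (fun r t => P.E (fun w => ind (pal P Kn hot K0 t w ∧ ¬ pal P Kn hot K0 (t + 1) w) * A r (t + 1) w))] at key
  have hl1' := mul_le_mul_of_nonneg_left (Finset.sum_le_sum fun r (_ : r ∈ univ) => hl1 r) hR.le
  have hd1' := mul_le_mul_of_nonneg_left (Finset.sum_le_sum fun r (_ : r ∈ univ) => hd1 r) hR.le
  have e1 : ((R : ℝ) + 1) * ∑ r : Fin R, Cc * (((R : ℝ) + 1) / ρ) * ∑ i ∈ S r, η r (b i) * ∑ t ∈ range T, P.E (f r i (t + 1)) =
      Cc * (((R : ℝ) + 1) ^ 2 / ρ) * ∑ r, ∑ i ∈ S r, η r (b i) * ∑ t ∈ range T, P.E (f r i (t + 1)) := by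
    rw [← Finset.mul_sum]
    ring
  rw [e1] at hl1'
  have e2 : ∑ J ∈ K0.ssubsets, (ε J + ((R : ℝ) + 1) * ∑ r, η r J) =
      ∑ J ∈ K0.ssubsets, ε J + ((R : ℝ) + 1) * ∑ r, ∑ J ∈ K0.ssubsets, η r J := by
    rw [Finset.sum_add_distrib, ← Finset.mul_sum, Finset.sum_comm]
  rw [e2]
  linarith

end

end Pool.Agent.GMM
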