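import Pool.Agent.GMM.CM5V
import Pool.Agent.GMM.HotPhi

/-!
# GMM/CM5R: theorem CM from the model, the labels of the rule and a named process (helper45)

* `child_a` : the weight for functions of `(a, x_I, Q_(t+1))`;
* `cI_le`, `cO_le` : the losses of GMC/C3Op are at most the local losses of GMM/Phi (`cG`);
* `Proc` : the named process, `Proc.view` : `ViewHyp` with the labels; `Pr_pdead`;
* `cm_rule` : THE THEOREM, for `pi`;  `cm_final` : for `T`.
-/

set_option autoImplicit false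
set_option linter.unusedSectionVars false

namespace Pool.Agent.GMM

open Finset Pool.Agent.PWZ Pool.Agent.M3 Pool.Agent.M3.FP Pool.Agent.GMC

noncomputable section

variable {Om : Type*} [Fintype Om]

variable {ι : Type*} [Fintype ι] [DecidableEq ι] {χ α : Type*}

/-! ## the weight of a function of the hidden vertex, `x_I` and the new node -/

theorem child_a {κ : ℕ → Type*} {P : FP Om} {a : Om → α} {x : ι → Om → χ} {Q : ∀ t, Om → κ t} {c0 : ℝ} (hc0 : 0 < c0)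
    (hQ : Filt Q) {I : Finset ι} {t : ℕ} {w : Om} (hw : P.p w ≠ 0)
    (hat : c0 ≤ P.ce (fun u => (a u, xr x I u, Q t u)) (fun v => ind (Q (t + 1) v = Q (t + 1) w)) w)
    (hci : P.CI (fun u => (xr x I u, Q t u)) a (xr x (univ \ I))) {f : Om → ℝ} (hf0 : ∀ w, 0 ≤ f w)
    (hf : Fac (knq x Q univ t) f) :
    P.ce (fun u => (a u, xr x I u, Q (t + 1) u)) f w ≤ 1 / c0 * P.ce (knq x Q I t) f w := by
  have hN : Fac (fun u => (a u, xr x I u, Q (t + 1) u)) (fun u => (a u, xr x I u, Q t u)) := fun u v e => by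
    simp only [Prod.mk.injEq] at e ⊢
    exact ⟨e.1, e.2.1, hQ t u v e.2.2⟩
  have hat' : c0 ≤ P.ce (fun u => (a u, xr x I u, Q t u)) (fun v => ind ((a v, xr x I v, Q (t + 1) v) =
      (a w, xr x I w, Q (t + 1) w))) w := by
    refine hat.trans (le_of_eq (ce_congr_cls (fun v _ e => ?_)))
    simp only [Prod.mk.injEq] at e ⊢
    congr 1
    exact propext ⟨fun h => ⟨e.1, e.2.1, h⟩, fun h => h.2.2⟩
  refine (ce_child hN hc0 hw hat' hf0).trans (le_of_eq ?_)
  congr 1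
  refine ce_forget0 (P := P) hci.symm (f := f) (fun u v e => hf u v ?_) hw
  simp only [knq, Prod.mk.injEq] at e ⊢
  refine ⟨?_, e.2.2⟩
  have h3 := xr_union (x := x) e.1 e.2.1
  have h4 : univ \ I ∪ I = univ := Finset.sdiff_union_of_subset (Finset.subset_univ I)
  rw [h4] at h3
  exact h3

/-! ## the losses -/

section loss

variable {κ κ' ι' ν ν' υ υ' : Type*} {P : FP Om}

theorem hp_forget' {N : Om → ν} {U : Om → υ} {V : Om → υ'} (h : P.CI N U V) {X : Om → κ} {Z : Om → ι'}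
    (hX : Fac (fun u => (U u, N u)) X) (hZ : Fac (fun u => (U u, N u)) Z) {w : Om} (hw : P.p w ≠ 0) :
    hp P X (fun u => (V u, Z u)) N w = hp P X Z N w := by
  have h1 := ce_hp P X Z (N := N) (K := fun u => (V u, N u)) (Fac.snd _ _) w
  have h2 : P.ce N (hp P X Z (fun u => (V u, N u))) w = hp P X Z N w := by
    rw [P.ce_congr (g := hp P X Z N) (fun v hv => hp_forget h hX hZ hv) w]
    exact P.ce_of_fac (hp_fac P X Z N) hw
  rw [← h2, h1]
  refine hp_congr P (Fac.fst _ _) ?_ (Fac.refl _) (Fac.fst _ _) ?_ (Fac.refl _) w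
  · intro x y e; simp only [Prod.mk.injEq] at e ⊢; tauto
  · intro x y e; simp only [Prod.mk.injEq] at e ⊢; tauto

/-- something independent gives no information -/
theorem ip_indep {N : Om → ν} {U : Om → υ} {V : Om → υ'} (h : P.CI N U V) {X : Om → κ} {Z : Om → ι'}
    (hX : Fac (fun u => (U u, N u)) X) (hZ : Fac (fun u => (U u, N u)) Z) {w : Om} (hw : P.p w ≠ 0) :
    ip P V X Z N w = 0 := by
  rw [ip_comm P V X Z N hw]
  unfold GMC.ip
  rw [hp_forget' h hX hZ hw, sub_self]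

end loss

section lab

variable {κ δ ε : ℕ → Type*} {P : FP Om} {a : Om → α} {x : ι → Om → χ} {Q : ∀ t, Om → κ t} {D : ∀ t, Om → δ t}
  {E : ∀ t, Finset ι → Om → ε t}

theorem Lf_lt (L : Finset ι → Om → ℕ) (I : Finset ι) : Fac (Lf L I.ssubsets) (lt L I) :=
  fac_sel (fun _ hJ => Lf_one L (Finset.mem_ssubsets.2 hJ))

theorem lt_Lf (L : Finset ι → Om → ℕ) (I : Finset ι) : Fac (lt L I) (Lf L I.ssubsets) :=
  Lf_of L fun _ hJ => lt_fac L (Finset.mem_ssubsets.1 hJ)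

theorem univ_split {I : Finset ι} {β : Type*} {q : Om → β} {u v : Om} :
    (xr x (univ \ I) u, (xr x I u, q u)) = (xr x (univ \ I) v, (xr x I v, q v)) ↔ (xr x univ u, q u) = (xr x univ v, q v) := by
  simp only [Prod.mk.injEq]
  constructor
  · intro e
    refine ⟨?_, e.2.2⟩
    have h3 := xr_union (x := x) e.1 e.2.1
    have h4 : univ \ I ∪ I = univ := Finset.sdiff_union_of_subset (Finset.subset_univ I)
    rw [h4] at h3
    exact h3
  · intro e
    exact ⟨xr_mono x Finset.sdiff_subset u v e.1, xr_mono x (Finset.subset_univ I) u v e.1, e.2⟩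

/-- the loss of the digit -/
theorem cI_le (hM : Mdl P a x Q D E) {L : Finset ι → Om → ℕ} {t : ℕ}
    (hL : ∀ I, Fac (fun u => (a u, xr x I u, Q t u)) (L I)) (I : Finset ι) {w : Om} (hw : P.p w ≠ 0) :
    cI P L (knq x Q univ t) I (knq x Q univ (t + 1)) w ≤
      ip P (L I) (D t) (lt L I) (fun v => (xr x I v, Q t v)) w := by
  have hLs : Fac (fun u => (a u, (xr x I u, Q t u))) (Lf L I.ssubsets) :=
    Lf_of L fun J hJ u v e => hL J u v (by
      simp only [Prod.mk.injEq] at e ⊢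
      exact ⟨e.1, xr_mono x (Finset.mem_ssubsets.1 hJ).1 u v e.2.1, e.2.2⟩)
  have hLI : Fac (fun u => (a u, (xr x I u, Q t u))) (L I) := hL I
  have hD : Fac (fun u => (a u, (xr x I u, Q t u))) (D t) := fun u v e => hM.dig t u v (by
    simp only [Prod.mk.injEq] at e ⊢
    exact ⟨e.1, e.2.2⟩)
  -- everything known
  have big : Fac (fun u => ((a u, xr x univ u), knq x Q univ t u)) (fun u => (a u, (xr x I u, Q t u))) := by
    intro u v e
    simp only [knq, Prod.mk.injEq] at e ⊢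
    exact ⟨e.1.1, xr_mono x (Finset.subset_univ I) u v e.1.2, e.2.2⟩
  have hci : P.CI (knq x Q univ t) (fun u => (a u, xr x univ u)) (E t univ) :=
    CI_cond (hM.indE t univ) (S := xr x univ) (fun u v e => by
      simp only [Prod.mk.injEq] at e
      exact e.1.2)
  unfold cI
  have h1 : ip P (knq x Q univ (t + 1)) (L I) (Lf L I.ssubsets) (knq x Q univ t) w ≤
      ip P (fun u => (E t univ u, D t u)) (L I) (Lf L I.ssubsets) (knq x Q univ t) w := by
    refine ip_mono P _ _ _ ?_ hw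
    intro u v e
    simp only [knq, Prod.mk.injEq] at e ⊢
    exact ⟨e.2.2.1, hM.next t univ u v (by
      simp only [Prod.mk.injEq]
      exact ⟨e.2.2.1, e.1.2, e.1.1, e.2.2.2⟩)⟩
  rw [ip_chain P (E t univ) (D t) (L I) (Lf L I.ssubsets) (knq x Q univ t) hw] at h1
  have h2 : ip P (E t univ) (L I) (fun u => (D t u, Lf L I.ssubsets u)) (knq x Q univ t) w = 0 :=
    ip_indep hci (big.trans hLI) ((big.trans hD).prod (big.trans hLs)) hw
  rw [h2, add_zero] at h1
  refine h1.trans (le_of_eq ?_)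
  rw [ip_comm P (D t) (L I) _ _ hw]
  have hcI := hM.ind t I (univ \ I) Finset.disjoint_sdiff
  have h3 := ip_forget hcI hLI hD hLs hw
  have h4 : ip P (L I) (D t) (Lf L I.ssubsets) (knq x Q univ t) w =
      ip P (L I) (D t) (Lf L I.ssubsets) (fun u => (xr x (univ \ I) u, (xr x I u, Q t u))) w := by
    refine ip_congr P (Fac.fst _ _) (Fac.fst _ _) (Fac.fst _ _) (fun u v e => ?_) (Fac.fst _ _) (Fac.fst _ _)
      (Fac.fst _ _) (fun u v e => ?_) w
    · exact univ_split.2 e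
    · exact univ_split.1 e
  rw [h4, h3]
  refine ip_congr P (Fac.fst _ _) (Fac.fst _ _) ((Fac.fst _ _).trans (Lf_lt L I)) (Fac.refl _) (Fac.fst _ _) (Fac.fst _ _)
    ((Fac.fst _ _).trans (lt_Lf L I)) (Fac.refl _) w

/-- the loss of the operation -/
theorem cO_le (hM : Mdl P a x Q D E) {L L' : Finset ι → Om → ℕ} {t : ℕ}
    (hL : ∀ I, Fac (fun u => (a u, xr x I u, Q t u)) (L I))
    (hL' : ∀ I, Fac (fun u => (a u, xr x I u, Q (t + 1) u)) (L' I)) (I : Finset ι) {w : Om} (hw : P.p w ≠ 0) :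
    cO P L L' (knq x Q univ (t + 1)) I w =
      ip P (L I) (lt L' I) (lt L I) (fun v => (xr x I v, Q (t + 1) v)) w := by
  have hLs : Fac (fun u => (a u, (xr x I u, Q (t + 1) u))) (Lf L I.ssubsets) :=
    Lf_of L fun J hJ u v e => hL J u v (by
      simp only [Prod.mk.injEq] at e ⊢
      exact ⟨e.1, xr_mono x (Finset.mem_ssubsets.1 hJ).1 u v e.2.1, hM.filt t u v e.2.2⟩)
  have hLs' : Fac (fun u => (a u, (xr x I u, Q (t + 1) u))) (Lf L' I.ssubsets) :=
    Lf_of L' fun J hJ u v e => hL' J u v (by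
      simp only [Prod.mk.injEq] at e ⊢
      exact ⟨e.1, xr_mono x (Finset.mem_ssubsets.1 hJ).1 u v e.2.1, e.2.2⟩)
  have hLI : Fac (fun u => (a u, (xr x I u, Q (t + 1) u))) (L I) := fun u v e => hL I u v (by
    simp only [Prod.mk.injEq] at e ⊢
    exact ⟨e.1, e.2.1, hM.filt t u v e.2.2⟩)
  unfold cO
  rw [ip_comm P (Lf L' I.ssubsets) (L I) _ _ hw]
  have hcI := hM.ind (t + 1) I (univ \ I) Finset.disjoint_sdiff
  have h3 := ip_forget hcI hLI hLs' hLs hw
  have h4 : ip P (L I) (Lf L' I.ssubsets) (Lf L I.ssubsets) (knq x Q univ (t + 1)) w =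
      ip P (L I) (Lf L' I.ssubsets) (Lf L I.ssubsets) (fun u => (xr x (univ \ I) u, (xr x I u, Q (t + 1) u))) w := by
    refine ip_congr P (Fac.fst _ _) (Fac.fst _ _) (Fac.fst _ _) (fun u v e => ?_) (Fac.fst _ _) (Fac.fst _ _)
      (Fac.fst _ _) (fun u v e => ?_) w
    · exact univ_split.2 e
    · exact univ_split.1 e
  rw [h4, h3]
  refine ip_congr P (Fac.fst _ _) ((Fac.fst _ _).trans (Lf_lt L' I)) ((Fac.fst _ _).trans (Lf_lt L I)) (Fac.refl _)
    (Fac.fst _ _) ((Fac.fst _ _).trans (lt_Lf L' I)) ((Fac.fst _ _).trans (lt_Lf L I)) (Fac.refl _) w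

end lab

/-! ## the deaths of the proper parts -/

theorem Pr_pdead {κ : Finset ι → ℕ → Type*} {Kn : ∀ J t, Om → κ J t} {hot : Finset ι → ℕ → Om → Prop} {P : FP Om}
    {Cc c0 : ℝ} (hF : Frame P Kn Cc c0) (hhot : ∀ J t v w, Kn J t v = Kn J t w → (hot J t v ↔ hot J t w))
    (hc0 : 0 < c0) (J : Finset ι) (T : ℕ) (hT : ∀ J w, ¬ hot J (T + 1) w) :
    P.Pr (fun w => ¬ pal P Kn hot J T w) ≤
      ∑ J' ∈ J.ssubsets, (1 + 1 / c0) * P.Pr (fun w => ∃ t ≤ T, pal P Kn hot J' t w ∧ hot J' t w) := by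
  have h1 : P.Pr (fun w => ¬ pal P Kn hot J T w) ≤ P.Pr (fun w => ∃ J' ∈ J.ssubsets,
      ∃ s ≤ T, pal P Kn hot J' s w ∧ (hot J' s w ∨ pre P Kn hot J' s w)) := by
    refine P.Pr_mono (fun w _ hn => ?_)
    have key : ∀ J'' : Finset ι, J'' ⊂ J → ¬ al P Kn hot J'' T w → ∃ J' ∈ J.ssubsets,
        ∃ s ≤ T, pal P Kn hot J' s w ∧ (hot J' s w ∨ pre P Kn hot J' s w) := by
      intro J''
      induction J'' using Finset.strongInduction with
      | H J'' ih =>
        intro hJ hn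
        by_cases hp : pal P Kn hot J'' T w
        · have h3 : ¬ ∀ s ≤ T, ¬ hot J'' s w ∧ ¬ pre P Kn hot J'' s w := fun h => hn ((al_iff' _ _ _ _ _ _).2 ⟨hp, h⟩)
          push Not at h3
          obtain ⟨s, hs, h4⟩ := h3
          refine ⟨J'', Finset.mem_ssubsets.2 hJ, s, hs, fun J' hJ' => al_anti' J' hs (hp J' hJ'), ?_⟩
          by_cases h5 : hot J'' s w
          · exact Or.inl h5
          · exact Or.inr (h4 h5)
        · unfold pal at hp
          push Not at hp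
          obtain ⟨J', hJ', h4⟩ := hp
          exact ih J' hJ' (hJ'.trans hJ) h4
    unfold pal at hn
    push Not at hn
    obtain ⟨J', hJ', h4⟩ := hn
    exact key J' hJ' h4
  refine h1.trans ((P.Pr_ex_le _ _).trans (Finset.sum_le_sum fun J' _ => ?_))
  have h2 : P.Pr (fun w => ∃ s ≤ T, pal P Kn hot J' s w ∧ (hot J' s w ∨ pre P Kn hot J' s w)) ≤
      P.Pr (fun w => (∃ t ≤ T, pal P Kn hot J' t w ∧ hot J' t w) ∨ ∃ s < T, pre P Kn hot J' s w) := by
    refine P.Pr_mono (fun w hw => ?_)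
    rintro ⟨s, hs, hp, h⟩
    rcases h with h | h
    · exact Or.inl ⟨s, hs, hp, h⟩
    · rcases Nat.lt_or_ge s T with h3 | h3
      · exact Or.inr ⟨s, h3, h⟩
      · have : s = T := by omega
        subst this
        exfalso
        apply h
        have e : (fun v => ind (hot J' (s + 1) v ∧ pal P Kn hot J' (s + 1) v)) = fun _ => (0 : ℝ) := by
          funext v
          exact ind_not (fun h => hT J' v h.1)
        rw [e]
        exact P.ce_const _ 0 hw
  have h3 := pre_le hF hhot hc0 J' T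
  have h4 : P.Pr (fun w => ∃ s < T, hot J' (s + 1) w ∧ pal P Kn hot J' (s + 1) w) ≤
      P.Pr (fun w => ∃ t ≤ T, pal P Kn hot J' t w ∧ hot J' t w) := by
    refine P.Pr_mono (fun w _ => ?_)
    rintro ⟨s, hs, h⟩
    exact ⟨s + 1, by omega, h.2, h.1⟩
  have h5 : P.Pr (fun w => ∃ s < T, pre P Kn hot J' s w) ≤
      1 / c0 * P.Pr (fun w => ∃ t ≤ T, pal P Kn hot J' t w ∧ hot J' t w) := by
    rw [one_div, ← div_eq_inv_mul, le_div_iff₀ hc0]
    linarith
  refine h2.trans ((P.Pr_or_le _ _).trans ?_)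
  rw [add_mul, one_mul]
  linarith

/-! ## the named process -/

section proc

variable {κ ε φ : ℕ → Type*} {P : FP Om} {a : Om → α} {x : ι → Om → χ} {Q : ∀ t, Om → κ t} {D : ℕ → Om → ℝ}
  {E : ∀ t, Finset ι → Om → ε t} {f : ∀ t, Finset ι → Om → φ t} {c0 : ℝ}

/-- the named process of the natural view: values `X`, increments `g`, events `e`, dead points `Dd`.  `X t`, `g t` are functions of
the names of the proper index sets, of the known vertices and of the node. -/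
structure Proc (P : FP Om) (x : ι → Om → χ) (Q : ∀ t, Om → κ t) (D : ℕ → Om → ℝ) (f : ∀ t, Finset ι → Om → φ t)
    (X g : ℕ → Om → ℝ) (e Dd : ℕ → Om → Prop) (s N : ℝ) (T : ℕ) : Prop where
  X_fac : ∀ t, Fac (fun u => (sel (fun I => I ≠ univ) (f t) u, xr x univ u, Q t u)) (X t)
  g_fac : ∀ t, Fac (fun u => (sel (fun I => I ≠ univ) (f t) u, xr x univ u, Q t u)) (g t)
  digit : ∀ t w, P.p w ≠ 0 → D t w = 1 ∨ D t w = -1
  fair : ∀ t < T, ∀ w, P.p w ≠ 0 → P.ce (fun u => (xr x univ u, Q t u)) (D t) w = 0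
  step : ∀ t w, P.p w ≠ 0 → ¬ e (t + 1) w → X (t + 1) w = X t w + D t w * g t w
  bd : ∀ t w, P.p w ≠ 0 → Phi s (X t w) ≤ N
  bd' : ∀ t w, P.p w ≠ 0 → Phi s (X t w + D t w * g t w) ≤ N
  dead : ∀ t w, P.p w ≠ 0 → Dd t w → Dd (t + 1) w

/-- the view map: all labels of the proper index sets, known vertices, node -/
def vmap (x : ι → Om → χ) (Q : ∀ t, Om → κ t) (L : ℕ → Finset ι → Om → ℕ) (t : ℕ) (u : Om) :
    (Finset ι → Option ℕ) × (ι → Option χ) × κ t := (sel (fun I => I ≠ univ) (L t) u, xr x univ u, Q t u)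

variable {Av w aa : ℕ → ℝ} {h : ℝ} {T : ℕ} {L : ℕ → Finset ι → Om → ℕ} {fat : ℕ → Finset ι → Om → Prop}
  {X g : ℕ → Om → ℝ} {e Dd : ℕ → Om → Prop} {s N : ℝ}

theorem vmap_filt (hR : RuleOut P a x Q D f Av w aa h T L fat) (hQ : Filt Q) : Filt (vmap x Q L) := by
  intro t u v e
  simp only [vmap, Prod.mk.injEq] at e ⊢
  exact ⟨sel_eq.2 (fun I hI => hR.mono t I u v (sel_eq.1 e.1 I hI)), e.2.1, hQ t u v e.2.2⟩

theorem vmap_name (hR : RuleOut P a x Q D f Av w aa h T L fat) (t : ℕ) :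
    Fac (vmap x Q L t) (fun u => (sel (fun I => I ≠ univ) (f t) u, xr x univ u, Q t u)) := by
  intro u v e
  simp only [vmap, Prod.mk.injEq] at e ⊢
  exact ⟨sel_eq.2 (fun I hI => hR.name t I u v (sel_eq.1 e.1 I hI)), e.2.1, e.2.2⟩

theorem Proc.view {T' : ℕ} (hp : Proc P x Q D f X g e Dd s N T') (hR : RuleOut P a x Q D f Av w aa h T L fat) (hQ : Filt Q) :
    P.ViewHyp (vmap x Q L) X g D e (P.Al (vmap x Q L) Dd (1 / 2)) s N where
  filt := vmap_filt hR hQ
  X_fac := fun t => (vmap_name hR t).trans (hp.X_fac t)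
  g_fac := fun t => (vmap_name hR t).trans (hp.g_fac t)
  a_fac := fun _ _ _ h => P.al_iff (vmap_filt hR hQ) h
  a_anti := fun t _ _ h => P.al_anti (Nat.le_succ t) h
  digit := hp.digit
  step := hp.step
  bd := hp.bd
  bd' := hp.bd'

/-- conditional potential -/
def piV (P : FP Om) (x : ι → Om → χ) (Q : ∀ t, Om → κ t) (L : ℕ → Finset ι → Om → ℕ) (X : ℕ → Om → ℝ)
    (Dd : ℕ → Om → Prop) (s : ℝ) (t : ℕ) (u : Om) : ℝ :=
  P.ce (knq x Q univ t) (fun v => ind (P.Al (vmap x Q L) Dd (1 / 2) t v) * Phi s (X t v)) u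

/-- THEOREM CM (CM.5) for the labels of the rule -/
theorem cm_rule (hM : MdlI P a x Q D E c0) (hc0 : 0 < c0)
    (hat : ∀ t I u, P.p u ≠ 0 → c0 ≤ P.ce (fun u => (a u, xr x I u, Q t u)) (fun v => ind (Q (t + 1) v = Q (t + 1) u)) u)
    (hR : RuleOut P a x Q D f Av w aa h T L fat) (hp : Proc P x Q D f X g e Dd s N T)
    {hot : Finset ι → ℕ → Om → Prop} (hhot : ∀ J t v u, knq x Q J t v = knq x Q J t u → (hot J t v ↔ hot J t u))
    {k : ℕ} (hk : Fintype.card ι = k + 1) {S : ℕ → Om → Prop}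
    (hXS : ∀ t u, P.p u ≠ 0 → s < |X t u| → ¬ Dd t u → S t u) (cc : Finset ι → ℕ → Om → ℝ)
    (hcc : ∀ I, ∀ t < T, Fac (fun u => (a u, xr x I u, Q (t + 1) u)) (cc I (t + 1)))
    (hcc0 : ∀ I t u, P.p u ≠ 0 → 0 ≤ cc I t u)
    (he : ∀ t < T, ∀ u, P.p u ≠ 0 → s < |X t u| → P.Al (vmap x Q L) Dd (1 / 2) (t + 1) u →
      ind (e (t + 1) u) ≤ ∑ I ∈ (univ : Finset ι).ssubsets, cc I (t + 1) u)
    {Jn : Finset ι → ℝ} (hJn : ∀ I, I ≠ univ → ∑ t ∈ range T, P.E (cc I (t + 1)) ≤ Jn I)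
    {σ : Finset ι → ℝ} {y : ℕ → Finset ι → ℝ} (hσ : ∀ J, 0 ≤ σ J) (hy : ∀ r J, 0 ≤ y r J)
    (hS : ∀ J, J ⊂ univ → ∀ t ≤ T, ∀ u, P.p u ≠ 0 → ¬ hot J t u → pal P (knq x Q) hot J t u →
      P.ce (knq x Q J t) (fun v => ind (S t v)) u ≤ σ J)
    (hMM : ∀ r < k, ∀ J, J ⊂ univ → ∀ t ≤ T, ∀ u, P.p u ≠ 0 → ¬ hot J t u → pal P (knq x Q) hot J t u →
      P.ce (knq x Q J t) (MM P (L t) (knq x Q univ t) (r + 1)) u ≤ y (r + 1) J)
    {ρ : ℝ} (hρ : 0 < ρ) :
    ρ * P.Pr (fun u => ∃ t ≤ T, pal P (knq x Q) hot univ t u ∧ 2 * ρ ≤ piV P x Q L X Dd s t u) ≤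
      (2 * N * σ ∅ + ((k : ℝ) + 1) * ∑ r : Fin k, 2 * N * y (r + 1) ∅) +
      ∑ J ∈ (univ : Finset ι).ssubsets, (2 * N * σ J + ((k : ℝ) + 1) * ∑ r : Fin k, 2 * N * y (r + 1) J) +
      2 * N * P.Pr (Dd T) +
      1 / c0 * (((k : ℝ) + 1) / ρ) * ∑ I ∈ (univ : Finset ι).ssubsets, 2 * N * σ I *
        (2 * N * (h + h * w k / w I.card) + N * Jn I) +
      1 / c0 * (((k : ℝ) + 1) ^ 2 / ρ) * ∑ r : Fin k, ∑ I ∈ sz ι (r + 1), 2 * N * y (r + 1) I *
        (2 * N * (h + h * w k / w I.card)) := by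
  have hmdl := hM.mdl
  have hF := hM.frame hc0
  have hCc : (0 : ℝ) ≤ 1 / c0 := by positivity
  have H := hp.view hR hM.filt
  have hN0 : 0 ≤ N := by
    obtain ⟨w, hw⟩ := P.exists_p_ne
    exact (Phi_nonneg _ _).trans (hp.bd 0 w hw)
  have key := cm5_view (P := P) (Kn := knq x Q) (hot := hot) hF hCc hhot hk T H
    (fun t u v e => by
      simp only [vmap, knq, Prod.mk.injEq] at e ⊢
      exact e.2)
    (L := L)
    (fun t u v e => by
      simp only [vmap, knq, Prod.mk.injEq] at e ⊢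
      refine ⟨sel_eq.2 (fun I hI => ?_), e.2.1, e.2.2⟩
      have hI' : I ∈ szlt ι (k + 1) := by rw [mem_szlt, ← hk]; exact card_lt_of_prp hI
      exact Lf_one (L t) hI' u v e.1)
    (fun t u v e => hM.dQ t u v (by simp only [knq, Prod.mk.injEq] at e; exact e.2))
    (fun t ht u hu => hp.fair t ht u hu)
    (fun t I u v e => hR.mono t I u v (by simp only [Prod.mk.injEq] at e; exact e.1))
    hp.dead hXS
    (fun I t => ip P (L t I) (D t) (lt (L t) I) (fun v => (xr x I v, Q t v)))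
    (fun I t => ip P (L (t - 1) I) (lt (L t) I) (lt (L (t - 1)) I) (fun v => (xr x I v, Q t v)))
    cc (fun I t => fun u => (a u, xr x I u, Q t u))
    (fun I t _ => ip_fac P _ _ _ _) (fun I t _ => ip_fac P _ _ _ _) hcc
    (fun I t u hu => ip_nonneg P _ _ _ _ hu) (fun I t u hu => ip_nonneg P _ _ _ _ hu) hcc0
    (fun I hI t ht u hu => cI_le hmdl (hR.fac t) I hu)
    (fun I hI t ht u hu => le_of_eq (cO_le hmdl (hR.fac t) (hR.fac (t + 1)) I hu))
    (fun I t ht h hh0 hh u hu => child_a hc0 hM.filt hu (hat t I u hu)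
      (hmdl.ind t I (univ \ I) Finset.disjoint_sdiff) hh0 hh)
    he hσ hy hS hMM hρ
  -- budgets
  have hbud : ∀ I, I ≠ univ → ∑ t ∈ range T, (P.E (ip P (L t I) (D t) (lt (L t) I) (fun v => (xr x I v, Q t v))) +
      P.E (ip P (L (t + 1 - 1) I) (lt (L (t + 1)) I) (lt (L (t + 1 - 1)) I) (fun v => (xr x I v, Q (t + 1) v)))) ≤
      h + h * w k / w I.card := by
    intro I hI
    have h1 := hR.sum_cG hI
    rw [hk, Nat.add_sub_cancel] at h1
    refine le_trans (le_of_eq (Finset.sum_congr rfl fun t _ => ?_)) h1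
    rw [← P.E_add]
    refine P.E_congr (fun u _ => ?_)
    unfold cG
    rw [Nat.add_sub_cancel, add_comm]
  have hne : ∀ I ∈ (univ : Finset ι).ssubsets, I ≠ univ := fun I hI => (Finset.mem_ssubsets.1 hI).ne
  have hsum0 : ∑ I ∈ (univ : Finset ι).ssubsets, 2 * N * σ I *
        (2 * N * ∑ t ∈ range T, (P.E (ip P (L t I) (D t) (lt (L t) I) (fun v => (xr x I v, Q t v))) +
      P.E (ip P (L (t + 1 - 1) I) (lt (L (t + 1)) I) (lt (L (t + 1 - 1)) I) (fun v => (xr x I v, Q (t + 1) v)))) +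
        N * ∑ t ∈ range T, P.E (cc I (t + 1))) ≤
      ∑ I ∈ (univ : Finset ι).ssubsets, 2 * N * σ I * (2 * N * (h + h * w k / w I.card) + N * Jn I) := by
    refine Finset.sum_le_sum fun I hI => mul_le_mul_of_nonneg_left ?_ (mul_nonneg (by positivity) (hσ I))
    exact add_le_add (mul_le_mul_of_nonneg_left (hbud I (hne I hI)) (by positivity))
      (mul_le_mul_of_nonneg_left (hJn I (hne I hI)) hN0)
  have hsum1 : ∑ r : Fin k, ∑ I ∈ sz ι (r + 1), 2 * N * y (r + 1) I *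
        (2 * N * ∑ t ∈ range T, (P.E (ip P (L t I) (D t) (lt (L t) I) (fun v => (xr x I v, Q t v))) +
      P.E (ip P (L (t + 1 - 1) I) (lt (L (t + 1)) I) (lt (L (t + 1 - 1)) I) (fun v => (xr x I v, Q (t + 1) v))))) ≤
      ∑ r : Fin k, ∑ I ∈ sz ι (r + 1), 2 * N * y (r + 1) I * (2 * N * (h + h * w k / w I.card)) := by
    refine Finset.sum_le_sum fun r _ => Finset.sum_le_sum fun I hI =>
      mul_le_mul_of_nonneg_left ?_ (mul_nonneg (by positivity) (hy _ I))
    refine mul_le_mul_of_nonneg_left (hbud I ?_) (by positivity)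
    intro hI'
    rw [mem_sz, hI', Finset.card_univ, hk] at hI
    have := r.2
    omega
  have hc1 : 0 ≤ 1 / c0 * (((k : ℝ) + 1) / ρ) := by positivity
  have hc2 : 0 ≤ 1 / c0 * (((k : ℝ) + 1) ^ 2 / ρ) := by positivity
  have h1 := mul_le_mul_of_nonneg_left hsum0 hc1
  have h2 := mul_le_mul_of_nonneg_left hsum1 hc2
  refine key.trans ?_
  linarith

/-- from `pi` to `T`, deaths of the proper parts included -/
theorem cm_final (hM : MdlI P a x Q D E c0) (hc0 : 0 < c0)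
    (hR : RuleOut P a x Q D f Av w aa h T L fat) (hp : Proc P x Q D f X g e Dd s N T)
    {hot : Finset ι → ℕ → Om → Prop} (hhot : ∀ J t v u, knq x Q J t v = knq x Q J t u → (hot J t v ↔ hot J t u))
    (hT : ∀ J u, ¬ hot J (T + 1) u) {S' : ℕ → Om → Prop} {s2 : ℝ} (hs2 : s < s2)
    (hSX : ∀ t u, P.p u ≠ 0 → S' t u → ¬ Dd t u → s2 ≤ |X t u|) {ρ ρ' B : ℝ} (hρ : 0 < ρ) (hρ' : 0 < ρ')
    (hB : ρ * P.Pr (fun u => ∃ t ≤ T, pal P (knq x Q) hot univ t u ∧ 2 * ρ ≤ piV P x Q L X Dd s t u) ≤ B) :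
    P.Pr (fun u => ∃ t ≤ T, 2 * ρ / (s2 - s) ^ 2 + ρ' ≤ P.ce (knq x Q univ t) (fun v => ind (S' t v)) u) ≤
      B / ρ + ∑ J ∈ (univ : Finset ι).ssubsets, (1 + 1 / c0) *
        P.Pr (fun u => ∃ t ≤ T, pal P (knq x Q) hot J t u ∧ hot J t u) + 3 * P.Pr (Dd T) / ρ' := by
  have hF := hM.frame hc0
  have H := hp.view hR hM.filt
  have h1 := P.prop1_T H (hF.filt univ) hp.dead hs2 hSX T (ρ := ρ) hρ'
  have h2 : P.Pr (fun u => ∃ t ≤ T, 2 * ρ ≤ P.ce (knq x Q univ t) (fun v =>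
      ind (P.Al (vmap x Q L) Dd (1 / 2) t v) * Phi s (X t v)) u) ≤
      P.Pr (fun u => (∃ t ≤ T, pal P (knq x Q) hot univ t u ∧ 2 * ρ ≤ piV P x Q L X Dd s t u) ∨
        ¬ pal P (knq x Q) hot univ T u) := by
    refine P.Pr_mono (fun u _ => ?_)
    rintro ⟨t, ht, hh⟩
    by_cases hpal : pal P (knq x Q) hot univ T u
    · exact Or.inl ⟨t, ht, fun J' hJ' => al_anti' J' ht (hpal J' hJ'), hh⟩
    · exact Or.inr hpal
  have h3 := h2.trans (P.Pr_or_le _ _)
  have h4 := Pr_pdead hF hhot hc0 univ T hT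
  have h5 : P.Pr (fun u => ∃ t ≤ T, pal P (knq x Q) hot univ t u ∧ 2 * ρ ≤ piV P x Q L X Dd s t u) ≤ B / ρ := by
    rw [le_div_iff₀ hρ, mul_comm]
    exact hB
  linarith

end proc

end

end Pool.Agent.GMM
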