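import Pool.Agent.GMM.CM5
import Pool.Agent.GMC.C3Op
import Pool.Agent.M3.Prop1

/-!
# GMM/CM5V: theorem CM on an FP filtration, for a named process (CM.5 (a)-(c); helper45)

* `ce_cond` : conditional means under the conditional law; `ip_digit_ge` : Pinsker at a point of the known variable;
* `bias_le` : `ce K_t (E[D | A_t]^2) <= 2 I(K_(t+1); labels)` at the point;
* `pi_loss` : one level for `pi`;
* `cm5_view` : the theorem.
-/

set_option autoImplicit false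
set_option linter.unusedSectionVars false

namespace Pool.Agent.GMM

open Finset Pool.Agent.PWZ Pool.Agent.M3 Pool.Agent.M3.FP Pool.Agent.GMC

noncomputable section

variable {Om : Type*} [Fintype Om] (P : FP Om)

/-- conditional means under the law at a point of the known variable -/
theorem ce_cond {κ ν : Type*} (Y : Om → κ) (K : Om → ν) (f : Om → ℝ) {w v : Om} (hw : P.p w ≠ 0) (hv : K v = K w) :
    (at_ P K w).ce Y f v = P.ce (fun u => (Y u, K u)) f v := by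
  have hm : P.Pr (fun u => K u = K w) ≠ 0 := (P.m_pos K hw).ne'
  have e1 : ∀ h : Om → ℝ, (at_ P K w).E (fun u => ind (Y u = Y v) * h u) =
      P.E (fun u => ind ((Y u, K u) = (Y v, K v)) * h u) / P.Pr (fun u => K u = K w) := by
    intro h
    unfold at_
    rw [cond_E hm]
    congr 1
    refine P.E_congr (fun u _ => ?_)
    rw [← mul_assoc, ← ind_and, ← hv]
    congr 2
    simp only [Prod.mk.injEq]
    exact propext ⟨fun h => ⟨h.2, h.1⟩, fun h => ⟨h.2, h.1⟩⟩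
  have e2 : (at_ P K w).m Y v = P.m (fun u => (Y u, K u)) v / P.Pr (fun u => K u = K w) := by
    have h := e1 (fun _ => 1)
    simp only [mul_one] at h
    exact h
  unfold FP.ce
  rw [e1 f, e2]
  rw [div_div_div_cancel_right₀ hm]

/-- PINSKER at a point -/
theorem ip_digit_ge {κ ν : Type*} {D : Om → ℝ} (hD : ∀ w, P.p w ≠ 0 → D w = 1 ∨ D w = -1) (X : Om → κ) (K : Om → ν)
    (hf : ∀ w, P.p w ≠ 0 → P.ce K D w = 0) {w : Om} (hw : P.p w ≠ 0) :
    P.ce K (fun v => P.ce (fun u => (X u, K u)) D v ^ 2) w ≤ 2 * ip P D X (fun _ => ()) K w := by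
  have hm : P.Pr (fun u => K u = K w) ≠ 0 := (P.m_pos K hw).ne'
  have h1 := (at_ P K w).I_digit_ge (D := D) (fun v hv => hD v ((cond_p_ne hm).1 hv).2) X (fun _ : Om => ())
  rw [ip_eq_cond P D X (fun _ => ()) K hw]
  refine le_trans (le_of_eq ?_) h1
  rw [P.ce_eq_cond K _ hw]
  refine FP.E_congr _ (fun v hv => ?_)
  obtain ⟨hK, hpv⟩ := (cond_p_ne hm).1 hv
  have e1 : (at_ P K w).ce (fun u => (X u, ())) D v = P.ce (fun u => (X u, K u)) D v := by
    rw [ce_cond P (fun u => (X u, ())) K D hw hK]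
    refine P.ce_congr_map ?_ ?_ D v
    · intro x y h; simp only [Prod.mk.injEq] at h ⊢; tauto
    · intro x y h; simp only [Prod.mk.injEq] at h ⊢; tauto
  have e2 : (at_ P K w).ce (fun _ : Om => ()) D v = 0 := by
    rw [ce_cond P (fun _ : Om => ()) K D hw hK]
    have e3 : P.ce (fun u => ((), K u)) D v = P.ce K D v :=
      P.ce_congr_map (Fac.snd _ _) (Fac.prod (Fac.const K ()) (Fac.refl K)) D v
    rw [e3, hf v hpv]
  have e4 : (at_ P K w).ce (fun v => (X v, (fun _ : Om => ()) v)) D v = (at_ P K w).ce (fun u => (X u, ())) D v := rfl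
  rw [e4, e1, e2, sub_zero]

/-- the bias of the whole node is paid by the information of the digit with the labels -/
theorem bias_le {κ ν ν' κ' : Type*} {D : Om → ℝ} (hD : ∀ w, P.p w ≠ 0 → D w = 1 ∨ D w = -1) {A : Om → κ} {K : Om → ν}
    {K' : Om → ν'} {X : Om → κ'} (hAK : Fac A K) (hXA : Fac (fun u => (X u, K u)) A) (hK'D : Fac K' D)
    (hf : ∀ w, P.p w ≠ 0 → P.ce K D w = 0) {w : Om} (hw : P.p w ≠ 0) :
    P.ce K (fun v => P.ce A D v ^ 2) w ≤ 2 * ip P K' X (fun _ => ()) K w := by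
  have h1 := ip_digit_ge P hD A K hf hw
  have e1 : P.ce K (fun v => P.ce (fun u => (A u, K u)) D v ^ 2) w = P.ce K (fun v => P.ce A D v ^ 2) w := by
    refine P.ce_congr (fun v _ => ?_) w
    rw [P.ce_congr_map (X := fun u => (A u, K u)) (Y := A) (Fac.fst _ _) (Fac.prod (Fac.refl A) hAK) D v]
  rw [e1] at h1
  have h2 : ip P D A (fun _ => ()) K w ≤ ip P D X (fun _ => ()) K w := by
    rw [ip_comm P D A _ K hw, ip_comm P D X _ K hw]
    refine ip_mono P D _ K ?_ hw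
    exact Fac.trans (Fac.prod (Fac.fst _ _) ((Fac.snd _ _).trans (Fac.snd _ _))) hXA
  have h3 : ip P D X (fun _ => ()) K w ≤ ip P K' X (fun _ => ()) K w :=
    ip_mono P X _ K ((Fac.fst _ _).trans hK'D) hw
  linarith

variable {P}

/-- one level for the conditional potential -/
theorem pi_loss {κ ι : ℕ → Type*} {K : ∀ t, Om → κ t} {A : ∀ t, Om → ι t} {X g D : ℕ → Om → ℝ} {e a : ℕ → Om → Prop}
    {s N : ℝ} (H : P.ViewHyp A X g D e a s N) (hK : Filt K) (hKA : ∀ t, Fac (A t) (K t)) (t : ℕ) {w : Om} :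
    P.ce (K t) (fun v => ind (a t v) * Phi s (X t v)) w ≤
      P.ce (K t) (fun v => P.ce (K (t + 1)) (fun v => ind (a (t + 1) v) * Phi s (X (t + 1) v)) v) w +
      N * P.ce (K t) (fun v => P.ce (A t) (D t) v ^ 2) w +
      N * P.ce (K t) (fun v => ind (s < |X t v| ∧ e (t + 1) v ∧ a (t + 1) v)) w +
      N * P.ce (K t) (fun v => ind (a t v ∧ ¬ a (t + 1) v)) w := by
  have hN0 : 0 ≤ N := by
    obtain ⟨w, hw⟩ := P.exists_p_ne
    exact (Phi_nonneg _ _).trans (H.bd 0 w hw)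
  have h1 : P.ce (K t) (fun v => ind (a t v) * Phi s (X t v) - N * (ind (a t v ∧ s < |X t v|) * P.ce (A t) (D t) v ^ 2) -
        N * P.ce (A t) (fun v => ind (s < |X t v| ∧ e (t + 1) v ∧ a (t + 1) v)) v -
        N * P.ce (A t) (fun v => ind (a t v ∧ ¬ a (t + 1) v)) v) w ≤
      P.ce (K t) (P.ce (A t) (fun v => ind (a (t + 1) v) * Phi s (X (t + 1) v))) w :=
    P.ce_mono (fun v hv => P.step_loss (H.X_fac t) (H.g_fac t) (H.a_fac t) (H.a_anti t) (H.digit t) (H.step t)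
      (H.bd t) (H.bd' t) hv) w
  rw [P.ce_sub, P.ce_sub, P.ce_sub, P.ce_smul, P.ce_smul, P.ce_smul, P.ce_tower (hKA t), P.ce_tower (hKA t),
    P.ce_tower (hKA t)] at h1
  have e3 : P.ce (K t) (fun v => P.ce (K (t + 1)) (fun v => ind (a (t + 1) v) * Phi s (X (t + 1) v)) v) w =
      P.ce (K t) (fun v => ind (a (t + 1) v) * Phi s (X (t + 1) v)) w := P.ce_tower (hK t) _ w
  rw [e3]
  have h2 : P.ce (K t) (fun v => ind (a t v ∧ s < |X t v|) * P.ce (A t) (D t) v ^ 2) w ≤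
      P.ce (K t) (fun v => P.ce (A t) (D t) v ^ 2) w :=
    P.ce_mono (fun v _ => mul_le_of_le_one_left (sq_nonneg _) (ind_le_one _)) w
  have h3 := mul_le_mul_of_nonneg_left h2 hN0
  linarith

/-- the class of a map, as a set: the same partition with values in one type -/
def cls {κ : Type*} (Z : Om → κ) (w : Om) : Set Om := {v | Z v = Z w}

theorem cls_fac {κ : Type*} (Z : Om → κ) : Fac Z (cls Z) := fun v w h => by unfold cls; rw [h]

theorem fac_cls {κ : Type*} (Z : Om → κ) : Fac (cls Z) Z := by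
  intro v w h
  have h1 : v ∈ cls Z v := rfl
  rw [h] at h1
  exact h1

theorem ssub_univ_eq {ι : Type*} [Fintype ι] [DecidableEq ι] : (univ : Finset ι).ssubsets = szlt ι (Fintype.card ι) := by
  ext J
  rw [Finset.mem_ssubsets, mem_szlt, ← Finset.card_univ]
  constructor
  · exact fun h => Finset.card_lt_card h
  · intro h
    refine Finset.ssubset_iff_subset_ne.2 ⟨Finset.subset_univ _, fun h2 => ?_⟩
    rw [h2] at h
    exact lt_irrefl _ h

theorem sum_sizes {ι : Type*} [Fintype ι] [DecidableEq ι] (k : ℕ) (F : Finset ι → ℝ) :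
    ∑ r ∈ range k, ∑ I ∈ sz ι r, F I = ∑ I ∈ szlt ι k, F I := by
  rw [← Finset.sum_fiberwise_of_maps_to (s := szlt ι k) (t := range k) (g := fun I : Finset ι => I.card)
    (fun I hI => Finset.mem_range.2 (mem_szlt.1 hI))]
  refine Finset.sum_congr rfl fun r hr => Finset.sum_congr ?_ fun _ _ => rfl
  ext I
  rw [Finset.mem_filter, mem_sz, mem_szlt]
  constructor
  · intro h
    exact ⟨by rw [h]; exact Finset.mem_range.1 hr, h⟩
  · exact fun h => h.2

/-- THEOREM CM ON AN FP FILTRATION (CM.5): the named process `ViewHyp` with majority stopping, labels `L t I` (`I` proper),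
functionals `M_r`, local losses `dI` (digit) and `oI` (operations), recorded changes `cc`.  Nothing is assumed at dead points. -/
theorem cm5_view {ι : Type*} [Fintype ι] [DecidableEq ι] {κ : Finset ι → ℕ → Type*} {Kn : ∀ J t, Om → κ J t}
    {hot : Finset ι → ℕ → Om → Prop} {Cc c0 : ℝ} (hF : Frame P Kn Cc c0) (hCc : 0 ≤ Cc)
    (hhot : ∀ J t v w, Kn J t v = Kn J t w → (hot J t v ↔ hot J t w)) {R : ℕ} (hR : Fintype.card ι = R + 1) (T : ℕ)
    {ι' : ℕ → Type*} {A : ∀ t, Om → ι' t} {X g D : ℕ → Om → ℝ} {e Dd : ℕ → Om → Prop} {s N : ℝ}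
    (H : P.ViewHyp A X g D e (P.Al A Dd (1 / 2)) s N) (hKA : ∀ t, Fac (A t) (Kn univ t))
    {Λ : Type*} {L : ℕ → Finset ι → Om → Λ}
    (hLA : ∀ t, Fac (fun u => (Lf (L t) (szlt ι (R + 1)) u, Kn univ t u)) (A t))
    (hDK : ∀ t, Fac (Kn univ (t + 1)) (D t)) (hfair : ∀ t < T, ∀ w, P.p w ≠ 0 → P.ce (Kn univ t) (D t) w = 0)
    (hop : ∀ t, OpN (L t) (L (t + 1)) (Kn univ (t + 1)))
    (hDd : ∀ t w, P.p w ≠ 0 → Dd t w → Dd (t + 1) w) {S : ℕ → Om → Prop}
    (hXS : ∀ t w, P.p w ≠ 0 → s < |X t w| → ¬ Dd t w → S t w)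
    (dI oI cc : Finset ι → ℕ → Om → ℝ) {ζ : Finset ι → ℕ → Type*} (Z : ∀ I t, Om → ζ I t)
    (hdI : ∀ I, ∀ t < T, Fac (Kn I t) (dI I t)) (hoI : ∀ I, ∀ t < T, Fac (Kn I (t + 1)) (oI I (t + 1)))
    (hcc : ∀ I, ∀ t < T, Fac (Z I (t + 1)) (cc I (t + 1)))
    (hdI0 : ∀ I t w, P.p w ≠ 0 → 0 ≤ dI I t w) (hoI0 : ∀ I t w, P.p w ≠ 0 → 0 ≤ oI I t w)
    (hcc0 : ∀ I t w, P.p w ≠ 0 → 0 ≤ cc I t w)
    (hcd : ∀ I, I ⊂ univ → ∀ t < T, ∀ w, P.p w ≠ 0 → cI P (L t) (Kn univ t) I (Kn univ (t + 1)) w ≤ dI I t w)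
    (hco : ∀ I, I ⊂ univ → ∀ t < T, ∀ w, P.p w ≠ 0 → cO P (L t) (L (t + 1)) (Kn univ (t + 1)) I w ≤ oI I (t + 1) w)
    (hZ : ∀ I, ∀ t < T, ∀ h : Om → ℝ, (∀ w, 0 ≤ h w) → Fac (Kn univ t) h → ∀ w, P.p w ≠ 0 →
      P.ce (Z I (t + 1)) h w ≤ Cc * P.ce (Kn I t) h w)
    (he : ∀ t < T, ∀ w, P.p w ≠ 0 → s < |X t w| → P.Al A Dd (1 / 2) (t + 1) w →
      ind (e (t + 1) w) ≤ ∑ I ∈ (univ : Finset ι).ssubsets, cc I (t + 1) w)
    {σ : Finset ι → ℝ} {y : ℕ → Finset ι → ℝ} (hσ : ∀ J, 0 ≤ σ J) (hy : ∀ r J, 0 ≤ y r J)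
    (hS : ∀ J, J ⊂ univ → ∀ t ≤ T, ∀ w, P.p w ≠ 0 → ¬ hot J t w → pal P Kn hot J t w →
      P.ce (Kn J t) (fun v => ind (S t v)) w ≤ σ J)
    (hM : ∀ r < R, ∀ J, J ⊂ univ → ∀ t ≤ T, ∀ w, P.p w ≠ 0 → ¬ hot J t w → pal P Kn hot J t w →
      P.ce (Kn J t) (MM P (L t) (Kn univ t) (r + 1)) w ≤ y (r + 1) J)
    {ρ : ℝ} (hρ : 0 < ρ) :
    ρ * P.Pr (fun w => ∃ t ≤ T, pal P Kn hot univ t w ∧
        2 * ρ ≤ P.ce (Kn univ t) (fun v => ind (P.Al A Dd (1 / 2) t v) * Phi s (X t v)) w) ≤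
      (2 * N * σ ∅ + ((R : ℝ) + 1) * ∑ r : Fin R, 2 * N * y (r + 1) ∅) +
      ∑ J ∈ (univ : Finset ι).ssubsets, (2 * N * σ J + ((R : ℝ) + 1) * ∑ r : Fin R, 2 * N * y (r + 1) J) +
      2 * N * P.Pr (Dd T) +
      Cc * (((R : ℝ) + 1) / ρ) * ∑ I ∈ (univ : Finset ι).ssubsets, 2 * N * σ I *
        (2 * N * ∑ t ∈ range T, (P.E (dI I t) + P.E (oI I (t + 1))) + N * ∑ t ∈ range T, P.E (cc I (t + 1))) +
      Cc * (((R : ℝ) + 1) ^ 2 / ρ) * ∑ r : Fin R, ∑ I ∈ sz ι (r + 1), 2 * N * y (r + 1) I *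
        (2 * N * ∑ t ∈ range T, (P.E (dI I t) + P.E (oI I (t + 1)))) := by
  have hN0 : 0 ≤ N := by
    obtain ⟨w, hw⟩ := P.exists_p_ne
    exact (Phi_nonneg _ _).trans (H.bd 0 w hw)
  have hK0 : (∅ : Finset ι) ⊂ univ := by
    rw [Finset.ssubset_iff_subset_ne]
    refine ⟨Finset.empty_subset _, fun h => ?_⟩
    have h2 : (univ : Finset ι).card = 0 := by rw [← h]; rfl
    rw [Finset.card_univ, hR] at h2
    omega
  set pi : ℕ → Om → ℝ := fun t => P.ce (Kn univ t) (fun v => ind (P.Al A Dd (1 / 2) t v) * Phi s (X t v)) with hpi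
  set Ar : Fin R → ℕ → Om → ℝ := fun r t w => 2 * N * MM P (L t) (Kn univ t) (r + 1) w with hAr
  set f0 : (Finset ι × Bool) → ℕ → Om → ℝ := fun i t w =>
    if i.2 then N * cc i.1 t w else 2 * N * (dI i.1 (t - 1) w + oI i.1 t w) with hf0d
  set gg : ℕ → Om → ℝ := fun t w => N * ind (P.Al A Dd (1 / 2) (t - 1) w ∧ ¬ P.Al A Dd (1 / 2) t w) with hggd
  set Zs : (Finset ι × Bool) → ℕ → Om → Set Om := fun i t =>
    if i.2 then cls (Z i.1 t) else cls (Kn i.1 t) with hZs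
  set SS : Finset (Finset ι × Bool) := (univ : Finset ι).ssubsets ×ˢ {true, false} with hSS
  set Sr : Fin R → Finset (Finset ι × Bool) := fun r => sz ι (r + 1) ×ˢ {false} with hSr
  have hmemSS : ∀ i ∈ SS, i.1 ⊂ univ := by
    intro i hi
    rw [hSS, Finset.mem_product] at hi
    exact Finset.mem_ssubsets.1 hi.1
  have hmemSr : ∀ r, ∀ i ∈ Sr r, i.1 ⊂ univ := by
    intro r i hi
    simp only [hSr, Finset.mem_product] at hi
    rw [← Finset.mem_ssubsets, ssub_univ_eq, mem_szlt, mem_sz.1 hi.1, hR]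
    have := r.2
    omega
  have hpi0 : ∀ t w, 0 ≤ pi t w := fun t w =>
    P.ce_nonneg (fun v _ => mul_nonneg (ind_nonneg _) (Phi_nonneg _ _)) w
  -- the sum over all losses
  have hsum0 : ∀ t v, ∑ i ∈ SS, f0 i (t + 1) v = ∑ I ∈ (univ : Finset ι).ssubsets, N * cc I (t + 1) v +
      ∑ I ∈ (univ : Finset ι).ssubsets, 2 * N * (dI I t v + oI I (t + 1) v) := by
    intro t v
    rw [hSS, Finset.sum_product, ← Finset.sum_add_distrib]
    refine Finset.sum_congr rfl fun I _ => ?_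
    rw [Finset.sum_pair (by decide)]
    simp [hf0d]
  have hsum1 : ∀ r t v, ∑ i ∈ Sr r, f0 i (t + 1) v = ∑ I ∈ sz ι (r + 1), 2 * N * (dI I t v + oI I (t + 1) v) := by
    intro r t v
    simp only [hSr]
    rw [Finset.sum_product]
    refine Finset.sum_congr rfl fun I _ => ?_
    rw [Finset.sum_singleton]
    simp [hf0d]
  -- weights
  have kZ : ∀ i : Finset ι × Bool, ∀ t < T, ∀ h : Om → ℝ, (∀ w, 0 ≤ h w) → Fac (Kn univ t) h → ∀ w, P.p w ≠ 0 →
      P.ce (Zs i (t + 1)) h w ≤ Cc * P.ce (Kn i.1 t) h w := by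
    intro i t ht h hh0 hh w hw
    by_cases hi : i.2 = true
    · have e1 : Zs i (t + 1) = cls (Z i.1 (t + 1)) := by simp only [hZs]; rw [if_pos hi]
      rw [e1, P.ce_congr_map (fac_cls (Z i.1 (t + 1))) (cls_fac (Z i.1 (t + 1))) h w]
      exact hZ i.1 t ht h hh0 hh w hw
    · have e1 : Zs i (t + 1) = cls (Kn i.1 (t + 1)) := by simp only [hZs]; rw [if_neg hi]
      rw [e1, P.ce_congr_map (fac_cls (Kn i.1 (t + 1))) (cls_fac (Kn i.1 (t + 1))) h w]
      have h1 := hF.child univ i.1 t h hh0 hh w hw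
      rw [Finset.univ_inter] at h1
      exact h1
  have kf : ∀ i : Finset ι × Bool, ∀ t < T, Fac (Zs i (t + 1)) (f0 i (t + 1)) := by
    intro i t ht
    by_cases hi : i.2 = true
    · have e1 : Zs i (t + 1) = cls (Z i.1 (t + 1)) := by simp only [hZs]; rw [if_pos hi]
      have e2 : f0 i (t + 1) = fun w => N * cc i.1 (t + 1) w := by funext w; simp only [hf0d]; rw [if_pos hi]
      rw [e1, e2]
      exact (fac_cls _).trans (Fac.mul (Fac.const _ _) (hcc i.1 t ht))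
    · have e1 : Zs i (t + 1) = cls (Kn i.1 (t + 1)) := by simp only [hZs]; rw [if_neg hi]
      have e2 : f0 i (t + 1) = fun w => 2 * N * (dI i.1 t w + oI i.1 (t + 1) w) := by
        funext w; simp only [hf0d]; rw [if_neg hi, Nat.add_sub_cancel]
      rw [e1, e2]
      exact (fac_cls _).trans (Fac.mul (Fac.const _ _)
        (Fac.add ((hF.filt i.1 t).trans (hdI i.1 t ht)) (hoI i.1 t ht)))
  have kf0 : ∀ (i : Finset ι × Bool) t w, P.p w ≠ 0 → 0 ≤ f0 i t w := by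
    intro i t w hw
    simp only [hf0d]
    split_ifs
    · exact mul_nonneg hN0 (hcc0 _ _ w hw)
    · exact mul_nonneg (by positivity) (add_nonneg (hdI0 _ _ w hw) (hoI0 _ _ w hw))
  -- the local losses dominate
  have hloc : ∀ I, I ⊂ univ → ∀ t < T, ∀ w, P.p w ≠ 0 →
      cI P (L t) (Kn univ t) I (Kn univ (t + 1)) w + P.ce (Kn univ t) (cO P (L t) (L (t + 1)) (Kn univ (t + 1)) I) w ≤
        P.ce (Kn univ t) (fun v => dI I t v + oI I (t + 1) v) w := by
    intro I hI t ht w hw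
    rw [P.ce_add]
    refine add_le_add ?_ (P.ce_mono (fun v hv => hco I hI t ht v hv) w)
    have h1 : P.ce (Kn univ t) (fun v => dI I t v) w = dI I t w :=
      P.ce_of_fac (h := dI I t) ((hF.mono I univ t (Finset.subset_univ _)).trans (hdI I t ht)) hw
    rw [h1]
    exact hcd I hI t ht w hw
  have ks0 : ∀ t < T, ∀ w, P.p w ≠ 0 → pal P Kn hot univ t w →
      pi t w + ∑ r, Ar r t w ≤ P.ce (Kn univ t) (fun v => pi (t + 1) v + ∑ r, Ar r (t + 1) v +
        (∑ i ∈ SS, f0 i (t + 1) v + gg (t + 1) v)) w := by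
    intro t ht w hw _
    have h1 := pi_loss (P := P) H (hF.filt univ) hKA t (w := w)
    have h2 := bias_le P (H.digit t) (hKA t) (hLA t) (hDK t) (hfair t ht) hw
    have h3 := O3 P (hF.filt univ t) (hop t) (R + 1) hw
    have h4 : ∑ r ∈ range (R + 1), (P.ce (Kn univ t) (MM P (L (t + 1)) (Kn univ (t + 1)) r) w - MM P (L t) (Kn univ t) r w) =
        ∑ r : Fin R, (P.ce (Kn univ t) (MM P (L (t + 1)) (Kn univ (t + 1)) (r + 1)) w - MM P (L t) (Kn univ t) (r + 1) w) := by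
      rw [Finset.sum_range_succ', MM_zero]
      have e : (MM P (L (t + 1)) (Kn univ (t + 1)) 0) = fun _ => (0 : ℝ) := by funext v; exact MM_zero P _ _
      rw [e, P.ce_const _ 0 hw, sub_zero, add_zero]
      exact Finset.sum_range (fun r => P.ce (Kn univ t) (MM P (L (t + 1)) (Kn univ (t + 1)) (r + 1)) w -
        MM P (L t) (Kn univ t) (r + 1) w)
    have h5 : ∑ r ∈ range (R + 1), ∑ I ∈ sz ι r, (cI P (L t) (Kn univ t) I (Kn univ (t + 1)) w +
        P.ce (Kn univ t) (cO P (L t) (L (t + 1)) (Kn univ (t + 1)) I) w) ≤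
        ∑ I ∈ (univ : Finset ι).ssubsets, P.ce (Kn univ t) (fun v => dI I t v + oI I (t + 1) v) w := by
      rw [sum_sizes (R + 1) (fun I => cI P (L t) (Kn univ t) I (Kn univ (t + 1)) w +
        P.ce (Kn univ t) (cO P (L t) (L (t + 1)) (Kn univ (t + 1)) I) w), ssub_univ_eq, hR]
      refine Finset.sum_le_sum fun I hI => ?_
      refine hloc I ?_ t ht w hw
      rw [← Finset.mem_ssubsets, ssub_univ_eq, hR]
      exact hI
    have h6 : P.ce (Kn univ t) (fun v => ind (s < |X t v| ∧ e (t + 1) v ∧ P.Al A Dd (1 / 2) (t + 1) v)) w ≤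
        ∑ I ∈ (univ : Finset ι).ssubsets, P.ce (Kn univ t) (fun v => cc I (t + 1) v) w := by
      rw [← P.ce_sum]
      refine P.ce_mono (fun v hv => ?_) w
      by_cases hq : s < |X t v| ∧ e (t + 1) v ∧ P.Al A Dd (1 / 2) (t + 1) v
      · exact (ind_mono (fun h => h.2.1)).trans (he t ht v hv hq.1 hq.2.2)
      · rw [ind_not hq]
        exact Finset.sum_nonneg (fun I _ => hcc0 I _ v hv)
    have h7 : P.ce (Kn univ t) (fun v => pi (t + 1) v + ∑ r, Ar r (t + 1) v +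
        (∑ i ∈ SS, f0 i (t + 1) v + gg (t + 1) v)) w =
        P.ce (Kn univ t) (fun v => pi (t + 1) v) w +
        ∑ r : Fin R, 2 * N * P.ce (Kn univ t) (MM P (L (t + 1)) (Kn univ (t + 1)) (r + 1)) w +
        ((∑ I ∈ (univ : Finset ι).ssubsets, N * P.ce (Kn univ t) (fun v => cc I (t + 1) v) w +
          ∑ I ∈ (univ : Finset ι).ssubsets, 2 * N * P.ce (Kn univ t) (fun v => dI I t v + oI I (t + 1) v) w) +
        N * P.ce (Kn univ t) (fun v => ind (P.Al A Dd (1 / 2) t v ∧ ¬ P.Al A Dd (1 / 2) (t + 1) v)) w) := by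
      have e1 : (fun v => pi (t + 1) v + ∑ r, Ar r (t + 1) v + (∑ i ∈ SS, f0 i (t + 1) v + gg (t + 1) v)) =
          fun v => pi (t + 1) v + ∑ r : Fin R, 2 * N * MM P (L (t + 1)) (Kn univ (t + 1)) (r + 1) v +
          ((∑ I ∈ (univ : Finset ι).ssubsets, N * cc I (t + 1) v +
            ∑ I ∈ (univ : Finset ι).ssubsets, 2 * N * (dI I t v + oI I (t + 1) v)) +
            N * ind (P.Al A Dd (1 / 2) t v ∧ ¬ P.Al A Dd (1 / 2) (t + 1) v)) := by
        funext v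
        rw [hsum0]
        simp only [hAr, hggd, Nat.add_sub_cancel]
      rw [e1]
      rw [P.ce_add, P.ce_add, P.ce_add, P.ce_add, P.ce_sum, P.ce_sum, P.ce_sum, P.ce_smul]
      congr 1
      · congr 1
        exact Finset.sum_congr rfl fun r _ => P.ce_smul _ _ _ _
      · congr 2
        · exact Finset.sum_congr rfl fun r _ => P.ce_smul _ _ _ _
        · exact Finset.sum_congr rfl fun r _ => P.ce_smul _ _ _ _
    rw [h7]
    have h8 : ∑ r : Fin R, Ar r t w = ∑ r : Fin R, 2 * N * MM P (L t) (Kn univ t) (r + 1) w := rfl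
    rw [h8, ← Finset.mul_sum, ← Finset.mul_sum, ← Finset.mul_sum, ← Finset.mul_sum]
    rw [h4, Finset.sum_sub_distrib] at h3
    have h9 := mul_le_mul_of_nonneg_left h2 hN0
    have h10 := mul_le_mul_of_nonneg_left h3 hN0
    have h11 := mul_le_mul_of_nonneg_left h5 hN0
    have h12 := mul_le_mul_of_nonneg_left h6 hN0
    have h13 : pi t w = P.ce (Kn univ t) (fun v => ind (P.Al A Dd (1 / 2) t v) * Phi s (X t v)) w := rfl
    rw [h13]
    have h14 : P.ce (Kn univ t) (fun v => P.ce (Kn univ (t + 1)) (fun v => ind (P.Al A Dd (1 / 2) (t + 1) v) *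
      Phi s (X (t + 1) v)) v) w = P.ce (Kn univ t) (fun v => pi (t + 1) v) w := rfl
    rw [h14] at h1
    rw [mul_add, mul_sub] at h10
    linarith
  have ks1 : ∀ (r : Fin R), ∀ t < T, ∀ w, P.p w ≠ 0 → pal P Kn hot univ t w →
      Ar r t w ≤ P.ce (Kn univ t) (fun v => Ar r (t + 1) v + ∑ i ∈ Sr r, f0 i (t + 1) v) w := by
    intro r t ht w hw _
    have h1 := MM_step P (hF.filt univ t) (hop t) (r + 1) hw
    have h2 := ip_nonneg P (Kn univ (t + 1)) (Lf (L t) (sz ι (r + 1))) (Lf (L t) (szlt ι (r + 1))) (Kn univ t) hw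
    have e1 : (fun v => Ar r (t + 1) v + ∑ i ∈ Sr r, f0 i (t + 1) v) =
        fun v => 2 * N * MM P (L (t + 1)) (Kn univ (t + 1)) (r + 1) v +
          ∑ I ∈ sz ι (r + 1), 2 * N * (dI I t v + oI I (t + 1) v) := by
      funext v
      rw [hsum1]
    rw [e1, P.ce_add, P.ce_smul, P.ce_sum]
    have e2 : ∑ I ∈ sz ι ((r : ℕ) + 1), P.ce (Kn univ t) (fun v => 2 * N * (dI I t v + oI I (t + 1) v)) w =
        2 * N * ∑ I ∈ sz ι ((r : ℕ) + 1), P.ce (Kn univ t) (fun v => dI I t v + oI I (t + 1) v) w := by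
      rw [Finset.mul_sum]
      exact Finset.sum_congr rfl fun I _ => P.ce_smul _ _ _ _
    rw [e2]
    have h3 : ∑ I ∈ sz ι ((r : ℕ) + 1), (cI P (L t) (Kn univ t) I (Kn univ (t + 1)) w +
        P.ce (Kn univ t) (cO P (L t) (L (t + 1)) (Kn univ (t + 1)) I) w) ≤
        ∑ I ∈ sz ι ((r : ℕ) + 1), P.ce (Kn univ t) (fun v => dI I t v + oI I (t + 1) v) w := by
      refine Finset.sum_le_sum fun I hI => hloc I ?_ t ht w hw
      rw [← Finset.mem_ssubsets, ssub_univ_eq, mem_szlt, mem_sz.1 hI, hR]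
      have := r.2
      omega
    rw [Finset.sum_add_distrib] at h3
    have h4 := mul_le_mul_of_nonneg_left h1 (by positivity : (0 : ℝ) ≤ 2 * N)
    have h5 := mul_le_mul_of_nonneg_left h3 (by positivity : (0 : ℝ) ≤ 2 * N)
    have h6 := mul_nonneg (by positivity : (0 : ℝ) ≤ 2 * N) h2
    have h7 : Ar r t w = 2 * N * MM P (L t) (Kn univ t) (r + 1) w := rfl
    have h8 : P.ce (Kn univ t) (fun v => MM P (L (t + 1)) (Kn univ (t + 1)) (r + 1) v) w =
      P.ce (Kn univ t) (MM P (L (t + 1)) (Kn univ (t + 1)) (r + 1)) w := rfl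
    rw [h7, h8]
    have h9 : 2 * N * (MM P (L t) (Kn univ t) (↑r + 1) w + ip P (Kn univ (t + 1)) (Lf (L t) (sz ι (↑r + 1)))
        (Lf (L t) (szlt ι (↑r + 1))) (Kn univ t) w - ∑ I ∈ sz ι (↑r + 1), cI P (L t) (Kn univ t) I (Kn univ (t + 1)) w -
        ∑ I ∈ sz ι (↑r + 1), P.ce (Kn univ t) (cO P (L t) (L (t + 1)) (Kn univ (t + 1)) I) w) =
        2 * N * MM P (L t) (Kn univ t) (↑r + 1) w + 2 * N * ip P (Kn univ (t + 1)) (Lf (L t) (sz ι (↑r + 1)))
        (Lf (L t) (szlt ι (↑r + 1))) (Kn univ t) w - 2 * N * (∑ I ∈ sz ι (↑r + 1), cI P (L t) (Kn univ t) I (Kn univ (t + 1)) w +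
        ∑ I ∈ sz ι (↑r + 1), P.ce (Kn univ t) (cO P (L t) (L (t + 1)) (Kn univ (t + 1)) I) w) := by ring
    rw [h9] at h4
    linarith
  have km0 : ∀ J, J ⊂ univ → ∀ t ≤ T, ∀ w, P.p w ≠ 0 → ¬ hot J t w → pal P Kn hot J t w →
      P.ce (Kn J t) (pi t) w ≤ 2 * N * σ J := by
    intro J hJ t ht w hw h1 h2
    have e1 : P.ce (Kn J t) (pi t) w =
        P.ce (Kn J t) (fun v => ind (P.Al A Dd (1 / 2) t v) * Phi s (X t v)) w :=
      P.ce_tower (hF.mono J univ t hJ.1) _ w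
    rw [e1]
    exact P.semi_ce H hXS ((hKA t).trans (hF.mono J univ t hJ.1)) (hS J hJ t ht w hw h1 h2)
  have km1 : ∀ (r : Fin R), ∀ J, J ⊂ univ → ∀ t ≤ T, ∀ w, P.p w ≠ 0 → ¬ hot J t w → pal P Kn hot J t w →
      P.ce (Kn J t) (Ar r t) w ≤ 2 * N * y (r + 1) J := by
    intro r J hJ t ht w hw h1 h2
    have e1 : P.ce (Kn J t) (Ar r t) w = 2 * N * P.ce (Kn J t) (MM P (L t) (Kn univ t) (r + 1)) w :=
      P.ce_smul _ _ _ _
    rw [e1]
    exact mul_le_mul_of_nonneg_left (hM r r.2 J hJ t ht w hw h1 h2) (by positivity)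
  have key := cm5_abs (P := P) (Kn := Kn) (hot := hot) hF hCc hhot hK0 T R (pi := pi) (A := Ar)
    (fun t => P.ce_fac _ _) (fun r t => Fac.mul (Fac.const _ _) (MM_fac P _ _ _))
    (fun t w _ => hpi0 t w) (fun r t w hw => mul_nonneg (by positivity) (MM_nonneg P _ _ _ hw))
    SS Sr Zs (fun i => i.1) f0 (fun _ => f0) gg hmemSS hmemSr kZ (fun i _ t ht => kf i t ht)
    (fun r i _ t ht => kf i t ht) kf0 (fun _ => kf0)
    (fun t w _ => mul_nonneg hN0 (ind_nonneg _)) hρ ks0 ks1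
    (ε := fun J => 2 * N * σ J) (η := fun r J => 2 * N * y (r + 1) J)
    (fun J => mul_nonneg (by positivity) (hσ J)) (fun r J => mul_nonneg (by positivity) (hy _ J)) km0 km1
  -- the killed points
  have hg : ∑ t ∈ range T, P.E (gg (t + 1)) ≤ 2 * N * P.Pr (Dd T) := by
    have h1 := P.sum_killed (a := P.Al A Dd (1 / 2)) H.a_anti T
    have h2 := P.al_death (c := 1 / 2) H.filt hDd T
    have h3 : ∀ t, P.E (gg (t + 1)) = N * P.Pr (fun w => P.Al A Dd (1 / 2) t w ∧ ¬ P.Al A Dd (1 / 2) (t + 1) w) := by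
      intro t
      unfold FP.Pr
      rw [← P.E_smul]
      simp only [hggd, Nat.add_sub_cancel]
    rw [Finset.sum_congr rfl (fun t _ => h3 t), ← Finset.mul_sum]
    have h4 : P.Pr (fun w => ¬ P.Al A Dd (1 / 2) T w) ≤ 2 * P.Pr (Dd T) := by linarith
    have h5 := mul_le_mul_of_nonneg_left (h1.trans h4) hN0
    linarith
  have hb0 : ∑ i ∈ SS, 2 * N * σ i.1 * ∑ t ∈ range T, P.E (f0 i (t + 1)) =
      ∑ I ∈ (univ : Finset ι).ssubsets, 2 * N * σ I *
        (2 * N * ∑ t ∈ range T, (P.E (dI I t) + P.E (oI I (t + 1))) + N * ∑ t ∈ range T, P.E (cc I (t + 1))) := by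
    rw [hSS, Finset.sum_product]
    refine Finset.sum_congr rfl fun I _ => ?_
    rw [Finset.sum_pair (by decide)]
    have e1 : ∀ t, P.E (f0 (I, true) (t + 1)) = N * P.E (cc I (t + 1)) := by
      intro t
      rw [← P.E_smul]
      simp [hf0d]
    have e2 : ∀ t, P.E (f0 (I, false) (t + 1)) = 2 * N * (P.E (dI I t) + P.E (oI I (t + 1))) := by
      intro t
      rw [← P.E_add, ← P.E_smul]
      simp [hf0d]
    rw [Finset.sum_congr rfl (fun t _ => e1 t), Finset.sum_congr rfl (fun t _ => e2 t), ← Finset.mul_sum,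
      ← Finset.mul_sum]
    ring
  have hb1 : ∀ r : Fin R, ∑ i ∈ Sr r, 2 * N * y (r + 1) i.1 * ∑ t ∈ range T, P.E (f0 i (t + 1)) =
      ∑ I ∈ sz ι (r + 1), 2 * N * y (r + 1) I *
        (2 * N * ∑ t ∈ range T, (P.E (dI I t) + P.E (oI I (t + 1)))) := by
    intro r
    simp only [hSr]
    rw [Finset.sum_product]
    refine Finset.sum_congr rfl fun I _ => ?_
    rw [Finset.sum_singleton]
    have e2 : ∀ t, P.E (f0 (I, false) (t + 1)) = 2 * N * (P.E (dI I t) + P.E (oI I (t + 1))) := by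
      intro t
      rw [← P.E_add, ← P.E_smul]
      simp [hf0d]
    rw [Finset.sum_congr rfl (fun t _ => e2 t), ← Finset.mul_sum]
  rw [hb0, Finset.sum_congr rfl (fun r _ => hb1 r)] at key
  linarith

end

end Pool.Agent.GMM
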