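import Pool.Agent.GMM.CM5V

/-!
# GMM/CMS: the sup over the numbers instead of the labels of index `S` (row C, COLD_(m-2), note 3961 (2)-(3); helper24)

A finite type `Nn` of numbers; for every number `n` a named process `X n` (equal to `0` before the number is introduced) with the
same digits; a CHOICE is a function `c : Om → Nn` of the view `A t`.  Labels of index `I ⊇ S` are constant.
* `fzX`, `fz_view` : the process of a choice made at the time `t0`, as a named process; `cho_step`, `cho_semi`;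
* `cms_view` : for a sequence `cs t` of choices such that keeping the old choice is allowed (`hup`), the conditional potential
  `E[alive Phi (X_(cs t)) | K_S]` stays small at exact `x_S`: all losses have an index `I` which does not contain `S`, weight of
  index `S ∩ I ⊂ S`.
* `exists_best` : the best choices exist (finitely many choices, closed under gluing over the classes of `Kn S t`).
-/

set_option autoImplicit false
set_option linter.unusedSectionVars false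

namespace Pool.Agent.GMM.CMS

open Finset Pool.Agent.PWZ Pool.Agent.M3 Pool.Agent.M3.FP Pool.Agent.GMC Pool.Agent.GMM

noncomputable section

variable {Om : Type*} [Fintype Om] {P : FP Om} {Nn : Type*}

/-- the process of the choice `c` made at the time `t0` -/
def fzX (X : Nn → ℕ → Om → ℝ) (c : Om → Nn) (t0 t : ℕ) (v : Om) : ℝ := if t < t0 then 0 else X (c v) t v

/-- the events of the choice `c` made at the time `t0` -/
def fzE (e : Nn → ℕ → Om → Prop) (c : Om → Nn) (t0 t : ℕ) (v : Om) : Prop := t ≤ t0 ∨ e (c v) t v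

theorem fz_view {κ : ℕ → Type*} {A : ∀ t, Om → κ t} {X g : Nn → ℕ → Om → ℝ} {D : ℕ → Om → ℝ}
    {e : Nn → ℕ → Om → Prop} {a : ℕ → Om → Prop} {s N : ℝ} (hs : 0 ≤ s)
    (H : ∀ n, P.ViewHyp A (X n) (g n) D (e n) a s N) {c : Om → Nn} {t0 : ℕ} (hc : Fac (A t0) c) :
    P.ViewHyp A (fzX X c t0) (fzX g c t0) D (fzE e c t0) a s N := by
  obtain ⟨w0, hw0⟩ := P.exists_p_ne
  have hN0 : 0 ≤ N := (Phi_nonneg _ _).trans ((H (c w0)).bd 0 w0 hw0)
  have hfac : ∀ {Y : Nn → ℕ → Om → ℝ}, (∀ n t, Fac (A t) (Y n t)) → ∀ t, Fac (A t) (fzX Y c t0 t) := by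
    intro Y hY t u v huv
    unfold fzX
    by_cases h : t < t0
    · rw [if_pos h, if_pos h]
    · rw [if_neg h, if_neg h]
      have h1 : A t0 u = A t0 v := (H (c w0)).filt.le (not_lt.1 h) u v huv
      rw [hc u v h1]
      exact hY (c v) t u v huv
  refine ⟨(H (c w0)).filt, hfac (fun n t => (H n).X_fac t), hfac (fun n t => (H n).g_fac t), (H (c w0)).a_fac,
    (H (c w0)).a_anti, (H (c w0)).digit, ?_, ?_, ?_⟩
  · intro t w hw he
    unfold fzE at he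
    push Not at he
    have h1 : ¬ t + 1 < t0 := by omega
    have h2 : ¬ t < t0 := by omega
    unfold fzX
    rw [if_neg h1, if_neg h2, if_neg h2]
    exact (H (c w)).step t w hw he.2
  · intro t w hw
    unfold fzX
    by_cases h : t < t0
    · rw [if_pos h, Phi_eq_zero (by rw [abs_zero]; exact hs)]
      exact hN0
    · rw [if_neg h]
      exact (H (c w)).bd t w hw
  · intro t w hw
    unfold fzX
    by_cases h : t < t0
    · rw [if_pos h, if_pos h, mul_zero, add_zero, Phi_eq_zero (by rw [abs_zero]; exact hs)]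
      exact hN0
    · rw [if_neg h, if_neg h]
      exact (H (c w)).bd' t w hw

/-- one level for a choice -/
theorem cho_step {κ υ : ℕ → Type*} {K : ∀ t, Om → κ t} {A : ∀ t, Om → υ t} {X g : Nn → ℕ → Om → ℝ} {D : ℕ → Om → ℝ}
    {e : Nn → ℕ → Om → Prop} {a : ℕ → Om → Prop} {s N : ℝ} (hs : 0 ≤ s)
    (H : ∀ n, P.ViewHyp A (X n) (g n) D (e n) a s N) (hK : Filt K) (hKA : ∀ t, Fac (A t) (K t)) {t : ℕ}
    {c : Om → Nn} (hc : Fac (A t) c) {w : Om} :
    P.ce (K t) (fun v => ind (a t v) * Phi s (X (c v) t v)) w ≤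
      P.ce (K t) (fun v => P.ce (K (t + 1)) (fun v => ind (a (t + 1) v) * Phi s (X (c v) (t + 1) v)) v) w +
      N * P.ce (K t) (fun v => P.ce (A t) (D t) v ^ 2) w +
      N * P.ce (K t) (fun v => ind (s < |X (c v) t v| ∧ e (c v) (t + 1) v ∧ a (t + 1) v)) w +
      N * P.ce (K t) (fun v => ind (a t v ∧ ¬ a (t + 1) v)) w := by
  have h1 := pi_loss (P := P) (fz_view hs H hc) hK hKA t (w := w)
  have e1 : ∀ v, fzX X c t t v = X (c v) t v := fun v => by unfold fzX; rw [if_neg (lt_irrefl t)]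
  have e2 : ∀ v, fzX X c t (t + 1) v = X (c v) (t + 1) v := fun v => by
    unfold fzX; rw [if_neg (by omega)]
  have e3 : ∀ v, fzE e c t (t + 1) v ↔ e (c v) (t + 1) v := fun v => by
    unfold fzE
    constructor
    · rintro (h | h)
      · omega
      · exact h
    · exact Or.inr
  simp only [e1, e2, e3] at h1
  exact h1

/-- semi points of a choice -/
theorem cho_semi {κ : ℕ → Type*} {A : ∀ t, Om → κ t} {X g : Nn → ℕ → Om → ℝ} {D : ℕ → Om → ℝ}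
    {e : Nn → ℕ → Om → Prop} {Dd : ℕ → Om → Prop} {s N : ℝ} (hs : 0 ≤ s)
    (H : ∀ n, P.ViewHyp A (X n) (g n) D (e n) (P.Al A Dd (1 / 2)) s N) {t : ℕ} {c : Om → Nn} (hc : Fac (A t) c)
    {S : Om → Prop} (hXS : ∀ w, P.p w ≠ 0 → s < |X (c w) t w| → ¬ Dd t w → S w) {υ : Type*} {Y : Om → υ}
    (hY : Fac (A t) Y) {θ : ℝ} {w : Om} (hθ : P.ce Y (fun v => ind (S v)) w ≤ θ) :
    P.ce Y (fun v => ind (P.Al A Dd (1 / 2) t v) * Phi s (X (c v) t v)) w ≤ 2 * N * θ := by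
  have e1 : ∀ v, fzX X c t t v = X (c v) t v := fun v => by unfold fzX; rw [if_neg (lt_irrefl t)]
  have h1 := P.semi_ce (fz_view hs H hc) (S := fun t' w => t' = t → S w) (t := t)
    (fun t' w hw h2 h3 h4 => by
      subst h4
      rw [e1] at h2
      exact hXS w hw h2 h3) hY (θ := θ) (w := w) (by
        refine le_trans (le_of_eq ?_) hθ
        refine P.ce_congr (fun v _ => ?_) w
        congr 1
        exact propext ⟨fun h => h rfl, fun h _ => h⟩)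
  simp only [e1] at h1
  exact h1

/-- a constant variable carries no information -/
theorem ip_const_mid {κ ι' ν Λ : Type*} (X : Om → κ) {Y : Om → Λ} (hY : ∀ u v, Y u = Y v) (Z : Om → ι') (N : Om → ν)
    (w : Om) : GMC.ip P X Y Z N w = 0 := by
  unfold GMC.ip
  rw [sub_eq_zero]
  refine hp_congr P (Fac.fst _ _) ?_ (Fac.refl _) (Fac.fst _ _) ?_ (Fac.refl _) w
  · intro u v e
    simp only [Prod.mk.injEq] at e ⊢
    exact ⟨hY u v, e.1⟩
  · intro u v e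
    simp only [Prod.mk.injEq] at e ⊢
    exact e.1.2

/-- the index sets which do not contain `S` -/
def IS {ι : Type*} [Fintype ι] [DecidableEq ι] (S : Finset ι) : Finset (Finset ι) :=
  (univ : Finset ι).ssubsets.filter fun I => ¬ S ⊆ I

/-- the index sets of size `r` which do not contain `S` -/
def ISz {ι : Type*} [Fintype ι] [DecidableEq ι] (S : Finset ι) (r : ℕ) : Finset (Finset ι) :=
  (sz ι r).filter fun I => ¬ S ⊆ I

theorem mem_IS {ι : Type*} [Fintype ι] [DecidableEq ι] {S I : Finset ι} : I ∈ IS S ↔ I ⊂ univ ∧ ¬ S ⊆ I := by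
  unfold IS
  rw [Finset.mem_filter, Finset.mem_ssubsets]

theorem mem_ISz {ι : Type*} [Fintype ι] [DecidableEq ι] {S I : Finset ι} {r : ℕ} :
    I ∈ ISz S r ↔ I.card = r ∧ ¬ S ⊆ I := by
  unfold ISz
  rw [Finset.mem_filter, mem_sz]

theorem inter_ssub {ι : Type*} [DecidableEq ι] {S I : Finset ι} (h : ¬ S ⊆ I) : S ∩ I ⊂ S := by
  rw [Finset.ssubset_iff_subset_ne]
  refine ⟨Finset.inter_subset_left, fun h2 => h ?_⟩
  rw [Finset.inter_eq_left] at h2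
  exact h2

/-- ONE LEVEL, given all known vertices: the potential of a choice and the compensators -/
theorem lvl_univ {ι : Type*} [Fintype ι] [DecidableEq ι] {κ : Finset ι → ℕ → Type*} {Kn : ∀ J t, Om → κ J t}
    {Cc c0 : ℝ} (hF : Frame P Kn Cc c0) {R : ℕ} (hR : Fintype.card ι = R + 1) (S : Finset ι)
    {ι' : ℕ → Type*} {A : ∀ t, Om → ι' t} {X g : Nn → ℕ → Om → ℝ} {D : ℕ → Om → ℝ} {e : Nn → ℕ → Om → Prop}
    {Dd : ℕ → Om → Prop} {s N : ℝ} (hs : 0 ≤ s)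
    (H : ∀ n, P.ViewHyp A (X n) (g n) D (e n) (P.Al A Dd (1 / 2)) s N) (hKA : ∀ t, Fac (A t) (Kn univ t))
    {Λ : Type*} {L : ℕ → Finset ι → Om → Λ} (hLS : ∀ t I, S ⊆ I → ∀ u v, L t I u = L t I v)
    (hLA : ∀ t, Fac (fun u => (Lf (L t) (szlt ι (R + 1)) u, Kn univ t u)) (A t))
    (hDK : ∀ t, Fac (Kn univ (t + 1)) (D t)) {t : ℕ} (hfair : ∀ w, P.p w ≠ 0 → P.ce (Kn univ t) (D t) w = 0)
    (hop : ∀ t, OpN (L t) (L (t + 1)) (Kn univ (t + 1)))
    (dI oI cc : Finset ι → ℕ → Om → ℝ)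
    (hdI : ∀ I, Fac (Kn I t) (dI I t))
    (hcc0 : ∀ I t w, P.p w ≠ 0 → 0 ≤ cc I t w)
    (hcd : ∀ I ∈ IS S, ∀ w, P.p w ≠ 0 → cI P (L t) (Kn univ t) I (Kn univ (t + 1)) w ≤ dI I t w)
    (hco : ∀ I ∈ IS S, ∀ w, P.p w ≠ 0 → cO P (L t) (L (t + 1)) (Kn univ (t + 1)) I w ≤ oI I (t + 1) w)
    {c : Om → Nn} (hc : Fac (A t) c)
    (he : ∀ w, P.p w ≠ 0 → s < |X (c w) t w| → P.Al A Dd (1 / 2) (t + 1) w →
      ind (e (c w) (t + 1) w) ≤ ∑ I ∈ IS S, cc I (t + 1) w) {w : Om} (hw : P.p w ≠ 0) :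
    P.ce (Kn univ t) (fun v => ind (P.Al A Dd (1 / 2) t v) * Phi s (X (c v) t v)) w +
        ∑ r : Fin R, 2 * N * MM P (L t) (Kn univ t) (r + 1) w ≤
      P.ce (Kn univ t) (fun v => ind (P.Al A Dd (1 / 2) (t + 1) v) * Phi s (X (c v) (t + 1) v) +
        ∑ r : Fin R, 2 * N * MM P (L (t + 1)) (Kn univ (t + 1)) (r + 1) v +
        ((∑ I ∈ IS S, N * cc I (t + 1) v + ∑ I ∈ IS S, 2 * N * (dI I t v + oI I (t + 1) v)) +
          N * ind (P.Al A Dd (1 / 2) t v ∧ ¬ P.Al A Dd (1 / 2) (t + 1) v))) w := by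
  have hN0 : 0 ≤ N := by
    obtain ⟨w, hw⟩ := P.exists_p_ne
    exact (Phi_nonneg _ _).trans ((H (c w)).bd 0 w hw)
  have h1 := cho_step (P := P) hs H (hF.filt univ) hKA hc (w := w)
  have h2 := bias_le P ((H (c w)).digit t) (hKA t) (hLA t) (hDK t) hfair hw
  have h3 := O3 P (hF.filt univ t) (hop t) (R + 1) hw
  have h4 : ∑ r ∈ range (R + 1), (P.ce (Kn univ t) (MM P (L (t + 1)) (Kn univ (t + 1)) r) w - MM P (L t) (Kn univ t) r w) =
      ∑ r : Fin R, (P.ce (Kn univ t) (MM P (L (t + 1)) (Kn univ (t + 1)) (r + 1)) w - MM P (L t) (Kn univ t) (r + 1) w) := by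
    rw [Finset.sum_range_succ', MM_zero]
    have e : (MM P (L (t + 1)) (Kn univ (t + 1)) 0) = fun _ => (0 : ℝ) := by funext v; exact MM_zero P _ _
    rw [e, P.ce_const _ 0 hw, sub_zero, add_zero]
    exact Finset.sum_range (fun r => P.ce (Kn univ t) (MM P (L (t + 1)) (Kn univ (t + 1)) (r + 1)) w -
      MM P (L t) (Kn univ t) (r + 1) w)
  have hz : ∀ I, S ⊆ I → cI P (L t) (Kn univ t) I (Kn univ (t + 1)) w +
      P.ce (Kn univ t) (cO P (L t) (L (t + 1)) (Kn univ (t + 1)) I) w = 0 := by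
    intro I hI
    have e1 : cI P (L t) (Kn univ t) I (Kn univ (t + 1)) w = 0 := by
      unfold cI
      exact ip_const_mid _ (hLS t I hI) _ _ _
    have e2 : cO P (L t) (L (t + 1)) (Kn univ (t + 1)) I = fun _ => 0 := by
      funext v
      unfold cO
      exact ip_const_mid _ (hLS t I hI) _ _ _
    rw [e1, e2, P.ce_const _ 0 hw, add_zero]
  have h5 : ∑ r ∈ range (R + 1), ∑ I ∈ sz ι r, (cI P (L t) (Kn univ t) I (Kn univ (t + 1)) w +
      P.ce (Kn univ t) (cO P (L t) (L (t + 1)) (Kn univ (t + 1)) I) w) ≤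
      ∑ I ∈ IS S, P.ce (Kn univ t) (fun v => dI I t v + oI I (t + 1) v) w := by
    rw [sum_sizes (R + 1) (fun I => cI P (L t) (Kn univ t) I (Kn univ (t + 1)) w +
      P.ce (Kn univ t) (cO P (L t) (L (t + 1)) (Kn univ (t + 1)) I) w), ← hR, ← ssub_univ_eq]
    have e1 : ∑ I ∈ (univ : Finset ι).ssubsets, (cI P (L t) (Kn univ t) I (Kn univ (t + 1)) w +
        P.ce (Kn univ t) (cO P (L t) (L (t + 1)) (Kn univ (t + 1)) I) w) =
        ∑ I ∈ IS S, (cI P (L t) (Kn univ t) I (Kn univ (t + 1)) w +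
        P.ce (Kn univ t) (cO P (L t) (L (t + 1)) (Kn univ (t + 1)) I) w) := by
      unfold IS
      rw [Finset.sum_filter]
      refine Finset.sum_congr rfl fun I _ => ?_
      by_cases hI : S ⊆ I
      · rw [if_neg (not_not.2 hI), hz I hI]
      · rw [if_pos hI]
    rw [e1]
    refine Finset.sum_le_sum fun I hI => ?_
    rw [P.ce_add]
    refine add_le_add ?_ (P.ce_mono (fun v hv => hco I hI v hv) w)
    have h1 : P.ce (Kn univ t) (fun v => dI I t v) w = dI I t w :=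
      P.ce_of_fac (h := dI I t) ((hF.mono I univ t (Finset.subset_univ _)).trans (hdI I)) hw
    rw [h1]
    exact hcd I hI w hw
  have h6 : P.ce (Kn univ t) (fun v => ind (s < |X (c v) t v| ∧ e (c v) (t + 1) v ∧ P.Al A Dd (1 / 2) (t + 1) v)) w ≤
      ∑ I ∈ IS S, P.ce (Kn univ t) (fun v => cc I (t + 1) v) w := by
    rw [← P.ce_sum]
    refine P.ce_mono (fun v hv => ?_) w
    by_cases hq : s < |X (c v) t v| ∧ e (c v) (t + 1) v ∧ P.Al A Dd (1 / 2) (t + 1) v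
    · exact (ind_mono (fun h => h.2.1)).trans (he v hv hq.1 hq.2.2)
    · rw [ind_not hq]
      exact Finset.sum_nonneg (fun I _ => hcc0 I _ v hv)
  have h7 : P.ce (Kn univ t) (fun v => ind (P.Al A Dd (1 / 2) (t + 1) v) * Phi s (X (c v) (t + 1) v) +
        ∑ r : Fin R, 2 * N * MM P (L (t + 1)) (Kn univ (t + 1)) (r + 1) v +
        ((∑ I ∈ IS S, N * cc I (t + 1) v + ∑ I ∈ IS S, 2 * N * (dI I t v + oI I (t + 1) v)) +
          N * ind (P.Al A Dd (1 / 2) t v ∧ ¬ P.Al A Dd (1 / 2) (t + 1) v))) w =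
      P.ce (Kn univ t) (fun v => ind (P.Al A Dd (1 / 2) (t + 1) v) * Phi s (X (c v) (t + 1) v)) w +
      ∑ r : Fin R, 2 * N * P.ce (Kn univ t) (MM P (L (t + 1)) (Kn univ (t + 1)) (r + 1)) w +
      ((∑ I ∈ IS S, N * P.ce (Kn univ t) (fun v => cc I (t + 1) v) w +
        ∑ I ∈ IS S, 2 * N * P.ce (Kn univ t) (fun v => dI I t v + oI I (t + 1) v) w) +
      N * P.ce (Kn univ t) (fun v => ind (P.Al A Dd (1 / 2) t v ∧ ¬ P.Al A Dd (1 / 2) (t + 1) v)) w) := by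
    rw [P.ce_add, P.ce_add, P.ce_add, P.ce_add, P.ce_sum, P.ce_sum, P.ce_sum, P.ce_smul]
    congr 1
    · congr 1
      exact Finset.sum_congr rfl fun r _ => P.ce_smul _ _ _ _
    · congr 2
      · exact Finset.sum_congr rfl fun r _ => P.ce_smul _ _ _ _
      · exact Finset.sum_congr rfl fun r _ => P.ce_smul _ _ _ _
  rw [h7]
  rw [← Finset.mul_sum, ← Finset.mul_sum, ← Finset.mul_sum, ← Finset.mul_sum]
  rw [h4, Finset.sum_sub_distrib] at h3
  have h9 := mul_le_mul_of_nonneg_left h2 hN0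
  have h10 := mul_le_mul_of_nonneg_left h3 hN0
  have h11 := mul_le_mul_of_nonneg_left h5 hN0
  have h12 := mul_le_mul_of_nonneg_left h6 hN0
  have h14 : P.ce (Kn univ t) (fun v => P.ce (Kn univ (t + 1)) (fun v => ind (P.Al A Dd (1 / 2) (t + 1) v) *
    Phi s (X (c v) (t + 1) v)) v) w =
      P.ce (Kn univ t) (fun v => ind (P.Al A Dd (1 / 2) (t + 1) v) * Phi s (X (c v) (t + 1) v)) w :=
    P.ce_tower (hF.filt univ t) _ w
  rw [h14] at h1
  rw [mul_add, mul_sub] at h10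
  linarith

/-- THEOREM CM WITH THE SUP OVER THE NUMBERS (note 3961 (2)-(3)): no label of index `I ⊇ S`, the potential at exact `x_S` of a
sequence of choices `cs t` such that keeping the old choice is allowed (`hup`).  All losses have an index `I` which does not
contain `S`. -/
theorem cms_view {ι : Type*} [Fintype ι] [DecidableEq ι] {κ : Finset ι → ℕ → Type*} {Kn : ∀ J t, Om → κ J t}
    {hot : Finset ι → ℕ → Om → Prop} {Cc c0 : ℝ} (hF : Frame P Kn Cc c0) (hCc : 0 ≤ Cc)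
    (hhot : ∀ J t v w, Kn J t v = Kn J t w → (hot J t v ↔ hot J t w)) {R : ℕ} (hR : Fintype.card ι = R + 1)
    {S : Finset ι} (hS0 : ∅ ⊂ S) (T : ℕ)
    {ι' : ℕ → Type*} {A : ∀ t, Om → ι' t} {X g : Nn → ℕ → Om → ℝ} {D : ℕ → Om → ℝ} {e : Nn → ℕ → Om → Prop}
    {Dd : ℕ → Om → Prop} {s N : ℝ} (hs : 0 ≤ s)
    (H : ∀ n, P.ViewHyp A (X n) (g n) D (e n) (P.Al A Dd (1 / 2)) s N) (hKA : ∀ t, Fac (A t) (Kn univ t))
    {Λ : Type*} {L : ℕ → Finset ι → Om → Λ} (hLS : ∀ t I, S ⊆ I → ∀ u v, L t I u = L t I v)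
    (hLA : ∀ t, Fac (fun u => (Lf (L t) (szlt ι (R + 1)) u, Kn univ t u)) (A t))
    (hDK : ∀ t, Fac (Kn univ (t + 1)) (D t)) (hfair : ∀ t < T, ∀ w, P.p w ≠ 0 → P.ce (Kn univ t) (D t) w = 0)
    (hop : ∀ t, OpN (L t) (L (t + 1)) (Kn univ (t + 1)))
    (hDd : ∀ t w, P.p w ≠ 0 → Dd t w → Dd (t + 1) w)
    {cs : ℕ → Om → Nn} (hcs : ∀ t, Fac (A t) (cs t))
    (hup : ∀ t < T, ∀ w, P.p w ≠ 0 →
      P.ce (Kn S (t + 1)) (fun v => ind (P.Al A Dd (1 / 2) (t + 1) v) * Phi s (X (cs t v) (t + 1) v)) w ≤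
      P.ce (Kn S (t + 1)) (fun v => ind (P.Al A Dd (1 / 2) (t + 1) v) * Phi s (X (cs (t + 1) v) (t + 1) v)) w)
    {Sb : ℕ → Om → Prop} (hXS : ∀ t ≤ T, ∀ w, P.p w ≠ 0 → s < |X (cs t w) t w| → ¬ Dd t w → Sb t w)
    (dI oI cc : Finset ι → ℕ → Om → ℝ) {ζ : Finset ι → ℕ → Type*} (Z : ∀ I t, Om → ζ I t)
    (hdI : ∀ I, ∀ t < T, Fac (Kn I t) (dI I t)) (hoI : ∀ I, ∀ t < T, Fac (Kn I (t + 1)) (oI I (t + 1)))
    (hcc : ∀ I, ∀ t < T, Fac (Z I (t + 1)) (cc I (t + 1)))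
    (hdI0 : ∀ I t w, P.p w ≠ 0 → 0 ≤ dI I t w) (hoI0 : ∀ I t w, P.p w ≠ 0 → 0 ≤ oI I t w)
    (hcc0 : ∀ I t w, P.p w ≠ 0 → 0 ≤ cc I t w)
    (hcd : ∀ I ∈ IS S, ∀ t < T, ∀ w, P.p w ≠ 0 → cI P (L t) (Kn univ t) I (Kn univ (t + 1)) w ≤ dI I t w)
    (hco : ∀ I ∈ IS S, ∀ t < T, ∀ w, P.p w ≠ 0 → cO P (L t) (L (t + 1)) (Kn univ (t + 1)) I w ≤ oI I (t + 1) w)
    (hZ : ∀ I, ∀ t < T, ∀ h : Om → ℝ, (∀ w, 0 ≤ h w) → Fac (Kn S t) h → ∀ w, P.p w ≠ 0 →
      P.ce (Z I (t + 1)) h w ≤ Cc * P.ce (Kn (S ∩ I) t) h w)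
    (he : ∀ t < T, ∀ w, P.p w ≠ 0 → s < |X (cs t w) t w| → P.Al A Dd (1 / 2) (t + 1) w →
      ind (e (cs t w) (t + 1) w) ≤ ∑ I ∈ IS S, cc I (t + 1) w)
    {σ : Finset ι → ℝ} {y : ℕ → Finset ι → ℝ} (hσ : ∀ J, 0 ≤ σ J) (hy : ∀ r J, 0 ≤ y r J)
    (hS : ∀ J, J ⊂ S → ∀ t ≤ T, ∀ w, P.p w ≠ 0 → ¬ hot J t w → pal P Kn hot J t w →
      P.ce (Kn J t) (fun v => ind (Sb t v)) w ≤ σ J)
    (hM : ∀ r < R, ∀ J, J ⊂ S → ∀ t ≤ T, ∀ w, P.p w ≠ 0 → ¬ hot J t w → pal P Kn hot J t w →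
      P.ce (Kn J t) (MM P (L t) (Kn univ t) (r + 1)) w ≤ y (r + 1) J)
    {ρ : ℝ} (hρ : 0 < ρ) :
    ρ * P.Pr (fun w => ∃ t ≤ T, pal P Kn hot S t w ∧
        2 * ρ ≤ P.ce (Kn S t) (fun v => ind (P.Al A Dd (1 / 2) t v) * Phi s (X (cs t v) t v)) w) ≤
      (2 * N * σ ∅ + ((R : ℝ) + 1) * ∑ r : Fin R, 2 * N * y (r + 1) ∅) +
      ∑ J ∈ S.ssubsets, (2 * N * σ J + ((R : ℝ) + 1) * ∑ r : Fin R, 2 * N * y (r + 1) J) +
      2 * N * P.Pr (Dd T) +
      Cc * (((R : ℝ) + 1) / ρ) * ∑ I ∈ IS S, 2 * N * σ (S ∩ I) *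
        (2 * N * ∑ t ∈ range T, (P.E (dI I t) + P.E (oI I (t + 1))) + N * ∑ t ∈ range T, P.E (cc I (t + 1))) +
      Cc * (((R : ℝ) + 1) ^ 2 / ρ) * ∑ r : Fin R, ∑ I ∈ ISz S (r + 1), 2 * N * y (r + 1) (S ∩ I) *
        (2 * N * ∑ t ∈ range T, (P.E (dI I t) + P.E (oI I (t + 1)))) := by
  have hN0 : 0 ≤ N := by
    obtain ⟨w, hw⟩ := P.exists_p_ne
    exact (Phi_nonneg _ _).trans ((H (cs 0 w)).bd 0 w hw)
  have hSU : ∀ t, Fac (Kn univ t) (Kn S t) := fun t => hF.mono S univ t (Finset.subset_univ _)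
  set F : ℕ → ℕ → Om → ℝ := fun t0 t v => ind (P.Al A Dd (1 / 2) t v) * Phi s (X (cs t0 v) t v) with hFd
  set pi : ℕ → Om → ℝ := fun t => P.ce (Kn S t) (F t t) with hpi
  set Ar : Fin R → ℕ → Om → ℝ := fun r t w => 2 * N * P.ce (Kn S t) (MM P (L t) (Kn univ t) (r + 1)) w with hAr
  set f0 : (Finset ι × Bool) → ℕ → Om → ℝ := fun i t w =>
    if i.2 then N * cc i.1 t w else 2 * N * (dI i.1 (t - 1) w + oI i.1 t w) with hf0d
  set gg : ℕ → Om → ℝ := fun t w => N * ind (P.Al A Dd (1 / 2) (t - 1) w ∧ ¬ P.Al A Dd (1 / 2) t w) with hggd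
  set Zs : (Finset ι × Bool) → ℕ → Om → Set Om := fun i t =>
    if i.2 then cls (Z i.1 t) else cls (Kn i.1 t) with hZs
  set SS : Finset (Finset ι × Bool) := IS S ×ˢ {true, false} with hSS
  set Sr : Fin R → Finset (Finset ι × Bool) := fun r => ISz S (r + 1) ×ˢ {false} with hSr
  have hszIS : ∀ r : Fin R, ∀ I ∈ ISz S ((r : ℕ) + 1), I ∈ IS S := by
    intro r I hI
    rw [mem_ISz] at hI
    refine mem_IS.2 ⟨?_, hI.2⟩
    rw [← Finset.mem_ssubsets, ssub_univ_eq, mem_szlt, hI.1, hR]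
    have := r.2
    omega
  have hmemSS : ∀ i ∈ SS, S ∩ i.1 ⊂ S := by
    intro i hi
    rw [hSS, Finset.mem_product] at hi
    exact inter_ssub (mem_IS.1 hi.1).2
  have hmemSr : ∀ r, ∀ i ∈ Sr r, S ∩ i.1 ⊂ S := by
    intro r i hi
    simp only [hSr, Finset.mem_product] at hi
    exact inter_ssub (mem_ISz.1 hi.1).2
  have hF0 : ∀ t0 t v, 0 ≤ F t0 t v := fun t0 t v => mul_nonneg (ind_nonneg _) (Phi_nonneg _ _)
  have hpi0 : ∀ t w, 0 ≤ pi t w := fun t w => P.ce_nonneg (fun v _ => hF0 t t v) w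
  -- the sum over all losses
  have hsum0 : ∀ t v, ∑ i ∈ SS, f0 i (t + 1) v = ∑ I ∈ IS S, N * cc I (t + 1) v +
      ∑ I ∈ IS S, 2 * N * (dI I t v + oI I (t + 1) v) := by
    intro t v
    rw [hSS, Finset.sum_product, ← Finset.sum_add_distrib]
    refine Finset.sum_congr rfl fun I _ => ?_
    rw [Finset.sum_pair (by decide)]
    simp [hf0d]
  have hsum1 : ∀ r t v, ∑ i ∈ Sr r, f0 i (t + 1) v =
      ∑ I ∈ ISz S ((r : ℕ) + 1), 2 * N * (dI I t v + oI I (t + 1) v) := by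
    intro r t v
    simp only [hSr]
    rw [Finset.sum_product]
    refine Finset.sum_congr rfl fun I _ => ?_
    rw [Finset.sum_singleton]
    simp [hf0d]
  -- weights
  have kZ : ∀ i : Finset ι × Bool, ∀ t < T, ∀ h : Om → ℝ, (∀ w, 0 ≤ h w) → Fac (Kn S t) h → ∀ w, P.p w ≠ 0 →
      P.ce (Zs i (t + 1)) h w ≤ Cc * P.ce (Kn (S ∩ i.1) t) h w := by
    intro i t ht h hh0 hh w hw
    by_cases hi : i.2 = true
    · have e1 : Zs i (t + 1) = cls (Z i.1 (t + 1)) := by simp only [hZs]; rw [if_pos hi]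
      rw [e1, P.ce_congr_map (fac_cls (Z i.1 (t + 1))) (cls_fac (Z i.1 (t + 1))) h w]
      exact hZ i.1 t ht h hh0 hh w hw
    · have e1 : Zs i (t + 1) = cls (Kn i.1 (t + 1)) := by simp only [hZs]; rw [if_neg hi]
      rw [e1, P.ce_congr_map (fac_cls (Kn i.1 (t + 1))) (cls_fac (Kn i.1 (t + 1))) h w]
      exact hF.child S i.1 t h hh0 hh w hw
  have kf : ∀ i : Finset ι × Bool, ∀ t < T, Fac (Zs i (t + 1)) (f0 i (t + 1)) := by
    intro i t ht
    by_cases hi : i.2 = true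
    · have e1 : Zs i (t + 1) = cls (Z i.1 (t + 1)) := by simp only [hZs]; rw [if_pos hi]
      have e2 : f0 i (t + 1) = fun w => N * cc i.1 (t + 1) w := by funext w; simp only [hf0d]; rw [if_pos hi]
      rw [e1, e2]
      exact (fac_cls _).trans (Fac.mul (Fac.const _ _) (hcc i.1 t ht))
    · have e1 : Zs i (t + 1) = cls (Kn i.1 (t + 1)) := by simp only [hZs]; rw [if_neg hi]
      have e2 : f0 i (t + 1) = fun w => 2 * N * (dI i.1 t w + oI i.1 (t + 1) w) := by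
        funext w; simp only [hf0d]; rw [if_neg hi, Nat.add_sub_cancel]
      rw [e1, e2]
      exact (fac_cls _).trans (Fac.mul (Fac.const _ _)
        (Fac.add ((hF.filt i.1 t).trans (hdI i.1 t ht)) (hoI i.1 t ht)))
  have kf0 : ∀ (i : Finset ι × Bool) t w, P.p w ≠ 0 → 0 ≤ f0 i t w := by
    intro i t w hw
    simp only [hf0d]
    split_ifs
    · exact mul_nonneg hN0 (hcc0 _ _ w hw)
    · exact mul_nonneg (by positivity) (add_nonneg (hdI0 _ _ w hw) (hoI0 _ _ w hw))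
  have ks0 : ∀ t < T, ∀ w, P.p w ≠ 0 → pal P Kn hot S t w →
      pi t w + ∑ r, Ar r t w ≤ P.ce (Kn S t) (fun v => pi (t + 1) v + ∑ r, Ar r (t + 1) v +
        (∑ i ∈ SS, f0 i (t + 1) v + gg (t + 1) v)) w := by
    intro t ht w hw _
    have h1 := P.ce_mono (X := Kn S t) (fun v hv => lvl_univ (P := P) hF hR S hs H hKA hLS hLA hDK (hfair t ht) hop dI oI cc
      (fun I => hdI I t ht) hcc0 (fun I hI w hw => hcd I hI t ht w hw) (fun I hI w hw => hco I hI t ht w hw) (hcs t)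
      (fun w hw => he t ht w hw) hv) w
    rw [P.ce_add, P.ce_sum, P.ce_tower (hSU t), P.ce_tower (hSU t)] at h1
    have e1 : P.ce (Kn S t) (fun v => ind (P.Al A Dd (1 / 2) t v) * Phi s (X (cs t v) t v)) w = pi t w := rfl
    have e2 : ∀ r : Fin R, P.ce (Kn S t) (fun v => 2 * N * MM P (L t) (Kn univ t) (r + 1) v) w = Ar r t w :=
      fun r => P.ce_smul _ _ _ _
    rw [e1, Finset.sum_congr rfl (fun r _ => e2 r)] at h1
    refine h1.trans ?_
    have h2 : P.ce (Kn S t) (P.ce (Kn S (t + 1)) (F t (t + 1))) w ≤ P.ce (Kn S t) (pi (t + 1)) w :=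
      P.ce_mono (fun v hv => hup t ht v hv) w
    rw [P.ce_tower (hF.filt S t)] at h2
    have h3 : ∀ r : Fin R, P.ce (Kn S t) (fun v => 2 * N * MM P (L (t + 1)) (Kn univ (t + 1)) (r + 1) v) w =
        P.ce (Kn S t) (Ar r (t + 1)) w := by
      intro r
      have h4 : P.ce (Kn S t) (Ar r (t + 1)) w =
          2 * N * P.ce (Kn S t) (P.ce (Kn S (t + 1)) (MM P (L (t + 1)) (Kn univ (t + 1)) (r + 1))) w := P.ce_smul _ _ _ _
      rw [h4, P.ce_tower (hF.filt S t), P.ce_smul]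
    have h5 : ∀ v, (∑ I ∈ IS S, N * cc I (t + 1) v + ∑ I ∈ IS S, 2 * N * (dI I t v + oI I (t + 1) v)) +
          N * ind (P.Al A Dd (1 / 2) t v ∧ ¬ P.Al A Dd (1 / 2) (t + 1) v) =
        ∑ i ∈ SS, f0 i (t + 1) v + gg (t + 1) v := by
      intro v
      rw [hsum0]
      simp only [hggd, Nat.add_sub_cancel]
    have h6 : P.ce (Kn S t) (fun v => ind (P.Al A Dd (1 / 2) (t + 1) v) * Phi s (X (cs t v) (t + 1) v) +
        ∑ r : Fin R, 2 * N * MM P (L (t + 1)) (Kn univ (t + 1)) (r + 1) v +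
        ((∑ I ∈ IS S, N * cc I (t + 1) v + ∑ I ∈ IS S, 2 * N * (dI I t v + oI I (t + 1) v)) +
          N * ind (P.Al A Dd (1 / 2) t v ∧ ¬ P.Al A Dd (1 / 2) (t + 1) v))) w =
        P.ce (Kn S t) (F t (t + 1)) w + ∑ r : Fin R, P.ce (Kn S t) (Ar r (t + 1)) w +
          P.ce (Kn S t) (fun v => ∑ i ∈ SS, f0 i (t + 1) v + gg (t + 1) v) w := by
      rw [P.ce_congr (g := fun v => F t (t + 1) v + ∑ r : Fin R, 2 * N * MM P (L (t + 1)) (Kn univ (t + 1)) (r + 1) v +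
        (∑ i ∈ SS, f0 i (t + 1) v + gg (t + 1) v)) (fun v _ => by rw [h5]) w]
      rw [P.ce_add, P.ce_add, P.ce_sum, Finset.sum_congr rfl (fun r _ => h3 r)]
    have h7 : P.ce (Kn S t) (fun v => pi (t + 1) v + ∑ r, Ar r (t + 1) v +
        (∑ i ∈ SS, f0 i (t + 1) v + gg (t + 1) v)) w =
        P.ce (Kn S t) (pi (t + 1)) w + ∑ r : Fin R, P.ce (Kn S t) (Ar r (t + 1)) w +
          P.ce (Kn S t) (fun v => ∑ i ∈ SS, f0 i (t + 1) v + gg (t + 1) v) w := by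
      rw [P.ce_add, P.ce_add, P.ce_sum]
    rw [h6, h7]
    linarith
  have ks1 : ∀ (r : Fin R), ∀ t < T, ∀ w, P.p w ≠ 0 → pal P Kn hot S t w →
      Ar r t w ≤ P.ce (Kn S t) (fun v => Ar r (t + 1) v + ∑ i ∈ Sr r, f0 i (t + 1) v) w := by
    intro r t ht w hw _
    have h1 : ∀ v, P.p v ≠ 0 → MM P (L t) (Kn univ t) (r + 1) v ≤
        P.ce (Kn univ t) (fun v => MM P (L (t + 1)) (Kn univ (t + 1)) (r + 1) v +
          ∑ I ∈ ISz S ((r : ℕ) + 1), (dI I t v + oI I (t + 1) v)) v := by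
      intro v hv
      have h1 := MM_step P (hF.filt univ t) (hop t) (r + 1) hv
      have h2 := ip_nonneg P (Kn univ (t + 1)) (Lf (L t) (sz ι (r + 1))) (Lf (L t) (szlt ι (r + 1))) (Kn univ t) hv
      have h3 : ∑ I ∈ sz ι ((r : ℕ) + 1), (cI P (L t) (Kn univ t) I (Kn univ (t + 1)) v +
          P.ce (Kn univ t) (cO P (L t) (L (t + 1)) (Kn univ (t + 1)) I) v) ≤
          ∑ I ∈ ISz S ((r : ℕ) + 1), P.ce (Kn univ t) (fun v => dI I t v + oI I (t + 1) v) v := by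
        have e1 : ∑ I ∈ sz ι ((r : ℕ) + 1), (cI P (L t) (Kn univ t) I (Kn univ (t + 1)) v +
            P.ce (Kn univ t) (cO P (L t) (L (t + 1)) (Kn univ (t + 1)) I) v) =
            ∑ I ∈ ISz S ((r : ℕ) + 1), (cI P (L t) (Kn univ t) I (Kn univ (t + 1)) v +
            P.ce (Kn univ t) (cO P (L t) (L (t + 1)) (Kn univ (t + 1)) I) v) := by
          unfold ISz
          rw [Finset.sum_filter]
          refine Finset.sum_congr rfl fun I _ => ?_
          by_cases hI : S ⊆ I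
          · rw [if_neg (not_not.2 hI)]
            have e1 : cI P (L t) (Kn univ t) I (Kn univ (t + 1)) v = 0 := by
              unfold cI
              exact ip_const_mid _ (hLS t I hI) _ _ _
            have e2 : cO P (L t) (L (t + 1)) (Kn univ (t + 1)) I = fun _ => 0 := by
              funext v
              unfold cO
              exact ip_const_mid _ (hLS t I hI) _ _ _
            rw [e1, e2, P.ce_const _ 0 hv, add_zero]
          · rw [if_pos hI]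
        rw [e1]
        refine Finset.sum_le_sum fun I hI => ?_
        rw [P.ce_add]
        refine add_le_add ?_ (P.ce_mono (fun u hu => hco I (hszIS r I hI) t ht u hu) v)
        have h1 : P.ce (Kn univ t) (fun v => dI I t v) v = dI I t v :=
          P.ce_of_fac (h := dI I t) ((hF.mono I univ t (Finset.subset_univ _)).trans (hdI I t ht)) hv
        rw [h1]
        exact hcd I (hszIS r I hI) t ht v hv
      rw [P.ce_add, P.ce_sum]
      rw [Finset.sum_add_distrib] at h3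
      have h8 : P.ce (Kn univ t) (fun v => MM P (L (t + 1)) (Kn univ (t + 1)) (↑r + 1) v) v =
        P.ce (Kn univ t) (MM P (L (t + 1)) (Kn univ (t + 1)) (↑r + 1)) v := rfl
      rw [h8]
      linarith
    have h2 := P.ce_mono (X := Kn S t) h1 w
    rw [P.ce_tower (hSU t), P.ce_add, P.ce_sum] at h2
    have h3 := mul_le_mul_of_nonneg_left h2 (by positivity : (0 : ℝ) ≤ 2 * N)
    have h4 : P.ce (Kn S t) (fun v => Ar r (t + 1) v + ∑ i ∈ Sr r, f0 i (t + 1) v) w =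
        2 * N * (P.ce (Kn S t) (fun v => MM P (L (t + 1)) (Kn univ (t + 1)) (r + 1) v) w +
          ∑ I ∈ ISz S ((r : ℕ) + 1), P.ce (Kn S t) (fun v => dI I t v + oI I (t + 1) v) w) := by
      have e1 : (fun v => Ar r (t + 1) v + ∑ i ∈ Sr r, f0 i (t + 1) v) =
          fun v => 2 * N * P.ce (Kn S (t + 1)) (MM P (L (t + 1)) (Kn univ (t + 1)) (r + 1)) v +
            ∑ I ∈ ISz S ((r : ℕ) + 1), 2 * N * (dI I t v + oI I (t + 1) v) := by
        funext v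
        rw [hsum1]
      rw [e1, P.ce_add, P.ce_smul, P.ce_sum, P.ce_tower (hF.filt S t), mul_add, Finset.mul_sum]
      congr 1
      exact Finset.sum_congr rfl fun I _ => P.ce_smul _ _ _ _
    rw [h4]
    exact h3
  have km0 : ∀ J, J ⊂ S → ∀ t ≤ T, ∀ w, P.p w ≠ 0 → ¬ hot J t w → pal P Kn hot J t w →
      P.ce (Kn J t) (pi t) w ≤ 2 * N * σ J := by
    intro J hJ t ht w hw h1 h2
    have e1 : P.ce (Kn J t) (pi t) w = P.ce (Kn J t) (F t t) w :=
      P.ce_tower (hF.mono J S t hJ.1) _ w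
    rw [e1]
    exact cho_semi (P := P) hs H (hcs t) (hXS t ht) ((hKA t).trans (hF.mono J univ t (Finset.subset_univ _)))
      (hS J hJ t ht w hw h1 h2)
  have km1 : ∀ (r : Fin R), ∀ J, J ⊂ S → ∀ t ≤ T, ∀ w, P.p w ≠ 0 → ¬ hot J t w → pal P Kn hot J t w →
      P.ce (Kn J t) (Ar r t) w ≤ 2 * N * y (r + 1) J := by
    intro r J hJ t ht w hw h1 h2
    have e1 : P.ce (Kn J t) (Ar r t) w =
        2 * N * P.ce (Kn J t) (P.ce (Kn S t) (MM P (L t) (Kn univ t) (r + 1))) w := P.ce_smul _ _ _ _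
    rw [e1, P.ce_tower (hF.mono J S t hJ.1)]
    exact mul_le_mul_of_nonneg_left (hM r r.2 J hJ t ht w hw h1 h2) (by positivity)
  have hAr0 : ∀ (r : Fin R) t w, P.p w ≠ 0 → 0 ≤ Ar r t w := fun r t w hw =>
    mul_nonneg (by positivity) ((P.ce_mono (f := fun _ => (0 : ℝ)) (fun v hv => MM_nonneg P _ _ _ hv) w).trans'
      (le_of_eq (P.ce_const _ 0 hw).symm))
  have key := cm5_abs (P := P) (Kn := Kn) (hot := hot) hF hCc hhot hS0 T R (pi := pi) (A := Ar)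
    (fun t => P.ce_fac _ _) (fun r t => Fac.mul (Fac.const _ _) (P.ce_fac _ _))
    (fun t w _ => hpi0 t w) hAr0
    SS Sr Zs (fun i => S ∩ i.1) f0 (fun _ => f0) gg hmemSS hmemSr kZ (fun i _ t ht => kf i t ht)
    (fun r i _ t ht => kf i t ht) kf0 (fun _ => kf0)
    (fun t w _ => mul_nonneg hN0 (ind_nonneg _)) hρ ks0 ks1
    (ε := fun J => 2 * N * σ J) (η := fun r J => 2 * N * y (r + 1) J)
    (fun J => mul_nonneg (by positivity) (hσ J)) (fun r J => mul_nonneg (by positivity) (hy _ J)) km0 km1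
  -- the killed points
  have hg : ∑ t ∈ range T, P.E (gg (t + 1)) ≤ 2 * N * P.Pr (Dd T) := by
    obtain ⟨w0, _⟩ := P.exists_p_ne
    have h1 := P.sum_killed (a := P.Al A Dd (1 / 2)) (H (cs 0 w0)).a_anti T
    have h2 := P.al_death (c := 1 / 2) (H (cs 0 w0)).filt hDd T
    have h3 : ∀ t, P.E (gg (t + 1)) = N * P.Pr (fun w => P.Al A Dd (1 / 2) t w ∧ ¬ P.Al A Dd (1 / 2) (t + 1) w) := by
      intro t
      unfold FP.Pr
      rw [← P.E_smul]
      simp only [hggd, Nat.add_sub_cancel]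
    rw [Finset.sum_congr rfl (fun t _ => h3 t), ← Finset.mul_sum]
    have h4 : P.Pr (fun w => ¬ P.Al A Dd (1 / 2) T w) ≤ 2 * P.Pr (Dd T) := by linarith
    have h5 := mul_le_mul_of_nonneg_left (h1.trans h4) hN0
    linarith
  have hb0 : ∑ i ∈ SS, 2 * N * σ (S ∩ i.1) * ∑ t ∈ range T, P.E (f0 i (t + 1)) =
      ∑ I ∈ IS S, 2 * N * σ (S ∩ I) *
        (2 * N * ∑ t ∈ range T, (P.E (dI I t) + P.E (oI I (t + 1))) + N * ∑ t ∈ range T, P.E (cc I (t + 1))) := by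
    rw [hSS, Finset.sum_product]
    refine Finset.sum_congr rfl fun I _ => ?_
    rw [Finset.sum_pair (by decide)]
    have e1 : ∀ t, P.E (f0 (I, true) (t + 1)) = N * P.E (cc I (t + 1)) := by
      intro t
      rw [← P.E_smul]
      simp [hf0d]
    have e2 : ∀ t, P.E (f0 (I, false) (t + 1)) = 2 * N * (P.E (dI I t) + P.E (oI I (t + 1))) := by
      intro t
      rw [← P.E_add, ← P.E_smul]
      simp [hf0d]
    rw [Finset.sum_congr rfl (fun t _ => e1 t), Finset.sum_congr rfl (fun t _ => e2 t), ← Finset.mul_sum,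
      ← Finset.mul_sum]
    ring
  have hb1 : ∀ r : Fin R, ∑ i ∈ Sr r, 2 * N * y (r + 1) (S ∩ i.1) * ∑ t ∈ range T, P.E (f0 i (t + 1)) =
      ∑ I ∈ ISz S ((r : ℕ) + 1), 2 * N * y (r + 1) (S ∩ I) *
        (2 * N * ∑ t ∈ range T, (P.E (dI I t) + P.E (oI I (t + 1)))) := by
    intro r
    simp only [hSr]
    rw [Finset.sum_product]
    refine Finset.sum_congr rfl fun I _ => ?_
    rw [Finset.sum_singleton]
    have e2 : ∀ t, P.E (f0 (I, false) (t + 1)) = 2 * N * (P.E (dI I t) + P.E (oI I (t + 1))) := by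
      intro t
      rw [← P.E_add, ← P.E_smul]
      simp [hf0d]
    rw [Finset.sum_congr rfl (fun t _ => e2 t), ← Finset.mul_sum]
  rw [hb0, Finset.sum_congr rfl (fun r _ => hb1 r)] at key
  linarith

/-- families of choices: nonempty, functions of the view, old choices stay allowed, closed under gluing over the classes of `K` -/
structure Chs {κ ι' : ℕ → Type*} (K : ∀ t, Om → κ t) (A : ∀ t, Om → ι' t) (Ch : ℕ → Set (Om → Nn)) : Prop where
  ne : ∀ t, (Ch t).Nonempty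
  fac : ∀ t, ∀ c ∈ Ch t, Fac (A t) c
  mono : ∀ t, Ch t ⊆ Ch (t + 1)
  glue : ∀ t (d : Om → Om → Nn), (∀ z, d z ∈ Ch t) → (∀ z z', K t z = K t z' → d z = d z') → (fun v => d v v) ∈ Ch t

/-- conditional means see the own class only -/
theorem ce_own {κ : Type*} (K : Om → κ) (f : Om → Om → ℝ) (hf : ∀ z z', K z = K z' → f z = f z') (w : Om) :
    P.ce K (fun v => f v v) w = P.ce K (f w) w := by
  unfold FP.ce
  congr 1
  refine P.E_congr (fun v _ => ?_)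
  by_cases hv : K v = K w
  · show ind (K v = K w) * f v v = ind (K v = K w) * f w v
    rw [hf v w hv]
  · rw [ind_not hv, zero_mul, zero_mul]

/-- the best choice -/
theorem exists_best [Finite Nn] {κ : Type*} (K : Om → κ) {C : Set (Om → Nn)} (hne : C.Nonempty)
    (hgl : ∀ d : Om → Om → Nn, (∀ z, d z ∈ C) → (∀ z z', K z = K z' → d z = d z') → (fun v => d v v) ∈ C)
    (f : Nn → Om → ℝ) :
    ∃ cs ∈ C, ∀ c ∈ C, ∀ w, P.ce K (fun v => f (c v) v) w ≤ P.ce K (fun v => f (cs v) v) w := by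
  classical
  have h1 : ∀ w, ∃ d ∈ C, ∀ c ∈ C, P.ce K (fun v => f (c v) v) w ≤ P.ce K (fun v => f (d v) v) w := by
    intro w
    obtain ⟨d, hd, h⟩ := Set.exists_max_image C (fun c => P.ce K (fun v => f (c v) v) w) (Set.toFinite C) hne
    exact ⟨d, hd, h⟩
  choose d hd hmax using h1
  set r : Om → Om := fun w => (⟨w, rfl⟩ : ∃ v, K v = K w).choose with hr
  have hrK : ∀ w, K (r w) = K w := fun w => (⟨w, rfl⟩ : ∃ v, K v = K w).choose_spec
  have hrr : ∀ z z', K z = K z' → r z = r z' := by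
    intro z z' h
    simp only [hr]
    congr 1
    funext v
    rw [h]
  refine ⟨fun v => d (r v) v, hgl (fun z => d (r z)) (fun z => hd _) (fun z z' h => by rw [hrr z z' h]), ?_⟩
  intro c hc w
  have h2 : P.ce K (fun v => f (d (r v) v) v) w = P.ce K (fun v => f (d (r w) v) v) w :=
    ce_own (P := P) K (fun z v => f (d (r z) v) v) (fun z z' h => by rw [hrr z z' h]) w
  rw [h2, ← P.ce_fac K (fun v => f (c v) v) (r w) w (hrK w), ← P.ce_fac K (fun v => f (d (r w) v) v) (r w) w (hrK w)]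
  exact hmax (r w) c hc

/-- THEOREM CM WITH THE SUP OVER ALL CHOICES -/
theorem cms_sup [Finite Nn] {ι : Type*} [Fintype ι] [DecidableEq ι] {κ : Finset ι → ℕ → Type*} {Kn : ∀ J t, Om → κ J t}
    {hot : Finset ι → ℕ → Om → Prop} {Cc c0 : ℝ} (hF : Frame P Kn Cc c0) (hCc : 0 ≤ Cc)
    (hhot : ∀ J t v w, Kn J t v = Kn J t w → (hot J t v ↔ hot J t w)) {R : ℕ} (hR : Fintype.card ι = R + 1)
    {S : Finset ι} (hS0 : ∅ ⊂ S) (T : ℕ)
    {ι' : ℕ → Type*} {A : ∀ t, Om → ι' t} {X g : Nn → ℕ → Om → ℝ} {D : ℕ → Om → ℝ} {e : Nn → ℕ → Om → Prop}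
    {Dd : ℕ → Om → Prop} {s N : ℝ} (hs : 0 ≤ s)
    (H : ∀ n, P.ViewHyp A (X n) (g n) D (e n) (P.Al A Dd (1 / 2)) s N) (hKA : ∀ t, Fac (A t) (Kn univ t))
    {Λ : Type*} {L : ℕ → Finset ι → Om → Λ} (hLS : ∀ t I, S ⊆ I → ∀ u v, L t I u = L t I v)
    (hLA : ∀ t, Fac (fun u => (Lf (L t) (szlt ι (R + 1)) u, Kn univ t u)) (A t))
    (hDK : ∀ t, Fac (Kn univ (t + 1)) (D t)) (hfair : ∀ t < T, ∀ w, P.p w ≠ 0 → P.ce (Kn univ t) (D t) w = 0)
    (hop : ∀ t, OpN (L t) (L (t + 1)) (Kn univ (t + 1)))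
    (hDd : ∀ t w, P.p w ≠ 0 → Dd t w → Dd (t + 1) w)
    {Ch : ℕ → Set (Om → Nn)} (hCh : Chs (Kn S) A Ch)
    (dI oI cc : Finset ι → ℕ → Om → ℝ) {ζ : Finset ι → ℕ → Type*} (Z : ∀ I t, Om → ζ I t)
    (hdI : ∀ I, ∀ t < T, Fac (Kn I t) (dI I t)) (hoI : ∀ I, ∀ t < T, Fac (Kn I (t + 1)) (oI I (t + 1)))
    (hcc : ∀ I, ∀ t < T, Fac (Z I (t + 1)) (cc I (t + 1)))
    (hdI0 : ∀ I t w, P.p w ≠ 0 → 0 ≤ dI I t w) (hoI0 : ∀ I t w, P.p w ≠ 0 → 0 ≤ oI I t w)
    (hcc0 : ∀ I t w, P.p w ≠ 0 → 0 ≤ cc I t w)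
    (hcd : ∀ I ∈ IS S, ∀ t < T, ∀ w, P.p w ≠ 0 → cI P (L t) (Kn univ t) I (Kn univ (t + 1)) w ≤ dI I t w)
    (hco : ∀ I ∈ IS S, ∀ t < T, ∀ w, P.p w ≠ 0 → cO P (L t) (L (t + 1)) (Kn univ (t + 1)) I w ≤ oI I (t + 1) w)
    (hZ : ∀ I, ∀ t < T, ∀ h : Om → ℝ, (∀ w, 0 ≤ h w) → Fac (Kn S t) h → ∀ w, P.p w ≠ 0 →
      P.ce (Z I (t + 1)) h w ≤ Cc * P.ce (Kn (S ∩ I) t) h w)
    (he : ∀ t < T, ∀ n, ∀ w, P.p w ≠ 0 → s < |X n t w| → P.Al A Dd (1 / 2) (t + 1) w →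
      ind (e n (t + 1) w) ≤ ∑ I ∈ IS S, cc I (t + 1) w)
    {σ : Finset ι → ℝ} {y : ℕ → Finset ι → ℝ} (hσ : ∀ J, 0 ≤ σ J) (hy : ∀ r J, 0 ≤ y r J)
    (hS : ∀ t ≤ T, ∀ c ∈ Ch t, ∀ J, J ⊂ S → ∀ w, P.p w ≠ 0 → ¬ hot J t w → pal P Kn hot J t w →
      P.ce (Kn J t) (fun v => ind (s < |X (c v) t v| ∧ ¬ Dd t v)) w ≤ σ J)
    (hM : ∀ r < R, ∀ J, J ⊂ S → ∀ t ≤ T, ∀ w, P.p w ≠ 0 → ¬ hot J t w → pal P Kn hot J t w →
      P.ce (Kn J t) (MM P (L t) (Kn univ t) (r + 1)) w ≤ y (r + 1) J)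
    {ρ : ℝ} (hρ : 0 < ρ) :
    ρ * P.Pr (fun w => ∃ t ≤ T, pal P Kn hot S t w ∧ ∃ c ∈ Ch t,
        2 * ρ ≤ P.ce (Kn S t) (fun v => ind (P.Al A Dd (1 / 2) t v) * Phi s (X (c v) t v)) w) ≤
      (2 * N * σ ∅ + ((R : ℝ) + 1) * ∑ r : Fin R, 2 * N * y (r + 1) ∅) +
      ∑ J ∈ S.ssubsets, (2 * N * σ J + ((R : ℝ) + 1) * ∑ r : Fin R, 2 * N * y (r + 1) J) +
      2 * N * P.Pr (Dd T) +
      Cc * (((R : ℝ) + 1) / ρ) * ∑ I ∈ IS S, 2 * N * σ (S ∩ I) *
        (2 * N * ∑ t ∈ range T, (P.E (dI I t) + P.E (oI I (t + 1))) + N * ∑ t ∈ range T, P.E (cc I (t + 1))) +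
      Cc * (((R : ℝ) + 1) ^ 2 / ρ) * ∑ r : Fin R, ∑ I ∈ ISz S (r + 1), 2 * N * y (r + 1) (S ∩ I) *
        (2 * N * ∑ t ∈ range T, (P.E (dI I t) + P.E (oI I (t + 1)))) := by
  have h1 : ∀ t, ∃ cs ∈ Ch t, ∀ c ∈ Ch t, ∀ w,
      P.ce (Kn S t) (fun v => ind (P.Al A Dd (1 / 2) t v) * Phi s (X (c v) t v)) w ≤
        P.ce (Kn S t) (fun v => ind (P.Al A Dd (1 / 2) t v) * Phi s (X (cs v) t v)) w := fun t =>
    exists_best (P := P) (Kn S t) (hCh.ne t) (fun d hd h => hCh.glue t d hd h)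
      (fun n v => ind (P.Al A Dd (1 / 2) t v) * Phi s (X n t v))
  choose cs hcs hbest using h1
  have key := cms_view (P := P) hF hCc hhot hR hS0 T hs H hKA hLS hLA hDK hfair hop hDd (cs := cs)
    (fun t => hCh.fac t _ (hcs t)) (fun t _ w _ => hbest (t + 1) (cs t) (hCh.mono t (hcs t)) w)
    (Sb := fun t v => s < |X (cs t v) t v| ∧ ¬ Dd t v) (fun t _ w _ h1 h2 => ⟨h1, h2⟩)
    dI oI cc Z hdI hoI hcc hdI0 hoI0 hcc0 hcd hco hZ (fun t ht w hw => he t ht (cs t w) w hw) hσ hy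
    (fun J hJ t ht w hw h1 h2 => hS t ht (cs t) (hcs t) J hJ w hw h1 h2) hM hρ
  refine le_trans (mul_le_mul_of_nonneg_left (P.Pr_mono (fun w _ => ?_)) hρ.le) key
  rintro ⟨t, ht, hp, c, hc, h⟩
  exact ⟨t, ht, hp, h.trans (hbest t c hc w)⟩

/-- the choices of note 3961: a function `psi` of all known vertices and a function `phi` of the known vertices of `S` and of
the labels `lam t` of the hidden vertex -/
def ChP {κ κ' υ : ℕ → Type*} {N1 N2 : Type*} (KU : ∀ t, Om → κ t) (KS : ∀ t, Om → κ' t) (lam : ∀ t, Om → υ t) (t : ℕ) :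
    Set (Om → N1 × N2) :=
  {c | Fac (KU t) (fun v => (c v).1) ∧ Fac (fun v => (lam t v, KS t v)) (fun v => (c v).2)}

theorem chs_pair {κ κ' υ ι' : ℕ → Type*} {N1 N2 : Type*} [Nonempty N1] [Nonempty N2] {KU : ∀ t, Om → κ t}
    {KS : ∀ t, Om → κ' t} {lam : ∀ t, Om → υ t} {A : ∀ t, Om → ι' t} (hKU : Filt KU) (hKS : Filt KS) (hlam : Filt lam)
    (hUS : ∀ t, Fac (KU t) (KS t)) (hAU : ∀ t, Fac (A t) (KU t)) (hAl : ∀ t, Fac (A t) (lam t)) :
    Chs (Nn := N1 × N2) KS A (ChP KU KS lam) where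
  ne := fun t => ⟨fun _ => (Classical.arbitrary N1, Classical.arbitrary N2), fun _ _ _ => rfl, fun _ _ _ => rfl⟩
  fac := by
    rintro t c ⟨h1, h2⟩ u v e
    have e1 := h1 u v (hAU t u v e)
    have e2 := h2 u v (by
      simp only [Prod.mk.injEq]
      exact ⟨hAl t u v e, hUS t u v (hAU t u v e)⟩)
    exact Prod.ext e1 e2
  mono := by
    rintro t c ⟨h1, h2⟩
    refine ⟨(hKU t).trans h1, fun u v e => h2 u v ?_⟩
    simp only [Prod.mk.injEq] at e ⊢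
    exact ⟨hlam t u v e.1, hKS t u v e.2⟩
  glue := by
    intro t d hd hdd
    refine ⟨fun u v e => ?_, fun u v e => ?_⟩
    · have e1 : d u = d v := hdd u v (hUS t u v e)
      simp only
      rw [e1]
      exact (hd v).1 u v e
    · simp only [Prod.mk.injEq] at e
      have e1 : d u = d v := hdd u v e.2
      simp only
      rw [e1]
      exact (hd v).2 u v (by simp only [Prod.mk.injEq]; exact e)

end

end Pool.Agent.GMM.CMS
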