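import Pool.Agent.GMM.MainQ
import Pool.Agent.GMM.SatInd

/-!
# GMM/CSHot: hot vertices with any third part; the alphabet of the record (plan CS, row CS4; helper36)

* `hotG` : the hot vertices of `GMM/Main`, the third part `H J t` being any event of `(x_J, Q_t)` (for COLD_S: an admissible choice
  of the numbers for which the large set has density `> σ`); `hotG_fac`, `hotG_top`, `not_hotG`, **`hotG_le`** ;
* `Exp_X`, `Exp_aa` : the alphabet of the records at the top `J` : `X ^ c ≤ Exp s j`, `X ^ c * aa s' ≤ Exp s j` for `s < s'`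
  (order of note 3972 (2)); `alph_le`.
-/

set_option autoImplicit false
set_option linter.unusedSectionVars false

namespace Pool.Agent.GMM.CSM

open Finset Pool.Agent.M3 Pool.Agent.M3.FP Pool.Agent.GMC Pool.Agent.GMM
open Pool.Agent.PWZ hiding ip

noncomputable section

section hot

variable {Om : Type*} [Fintype Om] {ι : Type*} [Fintype ι] [DecidableEq ι] {χ α : Type*} {κ ε φ : ℕ → Type*}
  {P : FP Om} {a : Om → α} {x : ι → Om → χ} {Q : ∀ t, Om → κ t} {D : ℕ → Om → ℝ} {E : ∀ t, Finset ι → Om → ε t}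
  {f : ∀ t, Finset ι → Om → φ t} {c0 : ℝ} {K c X C : ℕ} {T : ℕ} {L : ℕ → Finset ι → Om → ℕ}
  {fat : ℕ → Finset ι → Om → Prop} {n : Nums K c X}

/-- THE HOT VERTICES, general third part -/
def hotG (P : FP Om) (a : Om → α) (x : ι → Om → χ) (Q : ∀ t, Om → κ t) (L : ℕ → Finset ι → Om → ℕ)
    (fat : ℕ → Finset ι → Om → Prop) (n : Nums K c X) (Ap : ℕ → ℕ → ℝ) (H : Finset ι → ℕ → Om → Prop) (T : ℕ)
    (J : Finset ι) (t : ℕ) (u : Om) : Prop :=
  t ≤ T ∧ ((∃ G, ¬ J ⊆ G ∧ G ≠ univ ∧ n.del' G.card J.card < phi P a x (Q t) (L t) (Ap G.card J.card) J G u) ∨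
    (∃ I, I ≠ univ ∧ phf n I.card < P.ce (knq x Q J t) (fun v => ind (fat t I v)) u) ∨ H J t u)

theorem hotG_fac (n : Nums K c X) (Ap : ℕ → ℕ → ℝ) {H : Finset ι → ℕ → Om → Prop}
    (hH : ∀ J t v u, knq x Q J t v = knq x Q J t u → (H J t v ↔ H J t u)) (T : ℕ) (J : Finset ι) (t : ℕ)
    (v u : Om) (h : knq x Q J t v = knq x Q J t u) :
    hotG P a x Q L fat n Ap H T J t v ↔ hotG P a x Q L fat n Ap H T J t u := by
  unfold hotG
  refine and_congr_right fun _ => or_congr ?_ (or_congr ?_ (hH J t v u h))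
  · refine exists_congr fun G => and_congr_right fun _ => and_congr_right fun _ => ?_
    rw [phi_fac (L t) (Ap G.card J.card) J G v u h]
  · refine exists_congr fun I => and_congr_right fun _ => ?_
    rw [P.ce_fac (knq x Q J t) _ v u h]

theorem hotG_top (n : Nums K c X) (Ap : ℕ → ℕ → ℝ) (H : Finset ι → ℕ → Om → Prop) (T : ℕ) (J : Finset ι) (u : Om) :
    ¬ hotG P a x Q L fat n Ap H T J (T + 1) u := fun h => absurd h.1 (Nat.not_succ_le_self T)

theorem not_hotG {n : Nums K c X} {Ap : ℕ → ℕ → ℝ} {H : Finset ι → ℕ → Om → Prop} {T : ℕ} {J : Finset ι} {t : ℕ} {u : Om}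
    (h : ¬ hotG P a x Q L fat n Ap H T J t u) (ht : t ≤ T) :
    (∀ G, ¬ J ⊆ G → G ≠ univ → phi P a x (Q t) (L t) (Ap G.card J.card) J G u ≤ n.del' G.card J.card) ∧
    (∀ I, I ≠ univ → P.ce (knq x Q J t) (fun v => ind (fat t I v)) u ≤ phf n I.card) ∧ ¬ H J t u := by
  unfold hotG at h
  push Not at h
  obtain ⟨h1, h2, h3⟩ := h ht
  exact ⟨fun G hG hG' => h1 G hG hG', fun I hI => h2 I hI, h3⟩

/-- PROBABILITY OF THE HOT VERTICES, general third part -/
theorem hotG_le (hn : n.OK C) (hK : Fintype.card ι = K) (hX : 2 ≤ X) (hM : MdlI P a x Q D E c0) (hc0 : 0 < c0)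
    (hR : RuleOut P a x Q D f n.AA n.w n.aa X T L fat) {Ap : ℕ → ℕ → ℝ} (hAp : ∀ s j, 0 ≤ Ap s j)
    {H : Finset ι → ℕ → Om → Prop} (hH : ∀ J t v u, knq x Q J t v = knq x Q J t u → (H J t v ↔ H J t u)) {p : ℝ}
    (hsat : ∀ J, J ≠ univ → ∀ t ≤ T, ∀ u, P.p u ≠ 0 → SatAt P a x Q L fat n Ap J t u)
    {J : Finset ι} (hJ : J ≠ univ) (hcold : P.Pr (fun u => ∃ t ≤ T, H J t u) ≤ p) :
    P.Pr (fun u => ∃ t ≤ T, pal P (knq x Q) (hotG P a x Q L fat n Ap H T) J t u ∧
        hotG P a x Q L fat n Ap H T J t u) ≤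
      2 ^ K * (((X : ℝ) ^ c)⁻¹ * (2 ^ (K + 2) + 4 * (1 / c0))) + 2 ^ K * Real.sqrt (((X : ℝ) ^ c)⁻¹) + p := by
  classical
  set hot := hotG P a x Q L fat n Ap H T with hhotdef
  have hX0 : (0 : ℝ) < X := by
    have : (2 : ℝ) ≤ X := by exact_mod_cast hX
    linarith
  have hXc : (0 : ℝ) < (X : ℝ) ^ c := pow_pos hX0 c
  have hcard : ∀ {G : Finset ι}, G ≠ univ → G.card < K := fun {G} hG => by rw [← hK]; exact card_lt_of_prp hG
  have hcard2 : ((univ : Finset (Finset ι)).card : ℝ) = 2 ^ K := by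
    rw [Finset.card_univ, Fintype.card_finset, hK]
    push_cast
    rfl
  have hF := hM.frame hc0
  have hhot : ∀ J t v u, knq x Q J t v = knq x Q J t u → (hot J t v ↔ hot J t u) := fun J t v u h =>
    hotG_fac n Ap hH T J t v u h
  -- the phi part
  set ρ : Finset ι → ℝ := fun G => if G = univ then 1 else n.del' G.card J.card / 2 with hρd
  set ε' : Finset ι → ℝ := fun G => if G = univ then 0 else n.del G.card (J.card - 1) with hεd
  have hρ : ∀ G, 0 < ρ G := fun G => by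
    simp only [hρd]
    split_ifs with h
    · exact one_pos
    · have := hn.be_pos G.card J.card K (hcard h) (hcard hJ)
      unfold Nums.del'
      linarith
  have hε : ∀ G, 0 ≤ ε' G := fun G => by
    simp only [hεd]
    split_ifs with h
    · exact le_rfl
    · exact (hn.be_pos G.card (J.card - 1) 0 (hcard h) (by have := hcard hJ; omega)).le
  have h1 := cm4_phi_all (hR := hR) hM.mdl hF (by positivity : (0 : ℝ) ≤ 1 / c0) hhot (J := J)
    (fun G => Ap G.card J.card) ρ ε' (fun G => hAp _ _) hρ hε (by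
      intro G hG hG' J' hJ' t ht u hu hnh _ R hR'
      have hJ'u : J' ≠ univ := fun h => hJ'.2 (h ▸ Finset.subset_univ J)
      obtain ⟨p1, p2, -⟩ := not_hotG hnh ht
      have h2 := (hsat J' hJ'u t ht u hu p1 p2).1 J G hJ' hJ hG hG' R hR'
      refine h2.trans ?_
      simp only [hεd]
      rw [if_neg hG']
      have h3 : J'.card < J.card := Finset.card_lt_card hJ'
      exact hn.be_anti_j G.card (J.card - 1) J'.card (hcard hG') (by have := hcard hJ; omega) (by omega))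
  -- the events
  have hev : P.Pr (fun u => ∃ t ≤ T, pal P (knq x Q) hot J t u ∧ hot J t u) ≤
      P.Pr (fun u => ∃ t ≤ T, pal P (knq x Q) hot J t u ∧ ∃ G, ¬ J ⊆ G ∧ G ≠ univ ∧
        2 * ρ G ≤ phi P a x (Q t) (L t) (Ap G.card J.card) J G u) +
      (P.Pr (fun u => ∃ I ∈ (univ : Finset (Finset ι)), I ≠ univ ∧ ∃ t ≤ T,
        phf n I.card ≤ P.ce (knq x Q J t) (fun v => ind (fat t I v)) u) + p) := by
    refine le_trans (P.Pr_mono (fun u _ => ?_)) ((P.Pr_or_le _ _).trans (add_le_add le_rfl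
      ((P.Pr_or_le _ _).trans (add_le_add le_rfl hcold))))
    rintro ⟨t, ht, hpal, -, h⟩
    rcases h with ⟨G, g1, g2, g3⟩ | ⟨I, g1, g2⟩ | h
    · refine Or.inl ⟨t, ht, hpal, G, g1, g2, ?_⟩
      simp only [hρd]
      rw [if_neg g2]
      linarith
    · exact Or.inr (Or.inl ⟨I, Finset.mem_univ _, g1, t, ht, g2.le⟩)
    · exact Or.inr (Or.inr ⟨t, ht, h⟩)
  refine hev.trans ?_
  rw [← add_assoc]
  refine add_le_add (add_le_add (h1.trans ?_) ?_) le_rfl
  · -- numbers of the phi part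
    have h2 : ∀ G ∈ univ.filter (fun G : Finset ι => ¬ J ⊆ G ∧ G ≠ univ),
        ε' G / ρ G * (1 + 2 ^ J.card + 1 / c0 / ρ G * (X + X * n.w (Fintype.card ι - 1) / n.w G.card)) ≤
        ((X : ℝ) ^ c)⁻¹ * (2 ^ (K + 2) + 4 * (1 / c0)) := by
      intro G hG
      obtain ⟨-, h3, h4⟩ := Finset.mem_filter.1 hG
      have hJ0 : J.Nonempty := by
        rw [Finset.nonempty_iff_ne_empty]
        intro h0
        exact h3 (h0 ▸ Finset.empty_subset G)
      have hJc : 0 < J.card := Finset.card_pos.2 hJ0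
      simp only [hρd, hεd]
      rw [if_neg h4, if_neg h4]
      have hdy := hn.dyn G.card J.card (J.card - 1) (hcard h4) (hcard hJ) (by omega)
      refine term_le (hn.be_pos G.card J.card K (hcard h4) (hcard hJ)) (hn.be_le_one _ _ _ (hcard h4) (hcard hJ))
        (hn.be_pos G.card (J.card - 1) 0 (hcard h4) (by have := hcard hJ; omega)).le (hn.hh_one _ (hcard h4))
        (by positivity) ?_ (by positivity) ?_ (hcard hJ).le
      · have h5 : n.hh G.card * n.del G.card (J.card - 1) ≤ ((X : ℝ) ^ c)⁻¹ * n.del' G.card J.card ^ 2 := by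
          rw [← div_eq_inv_mul, le_div_iff₀ hXc]
          calc n.hh G.card * n.del G.card (J.card - 1) * (X : ℝ) ^ c =
              (X : ℝ) ^ c * n.hh G.card * n.del G.card (J.card - 1) := by ring
            _ ≤ _ := hdy
        exact h5
      · rw [hK, mul_div_assoc]
        exact hn.hh_ge G.card (hcard h4)
    refine (Finset.sum_le_sum h2).trans ?_
    rw [Finset.sum_const, nsmul_eq_mul]
    refine mul_le_mul_of_nonneg_right ?_ (by positivity)
    rw [← hcard2]
    exact_mod_cast Finset.card_le_univ _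
  · -- the fat part
    have h2 : ∀ I : Finset ι, P.Pr (fun u => I ≠ univ ∧ ∃ t ≤ T,
        phf n I.card ≤ P.ce (knq x Q J t) (fun v => ind (fat t I v)) u) ≤ Real.sqrt (((X : ℝ) ^ c)⁻¹) := by
      intro I
      by_cases hI : I = univ
      · refine le_trans (le_of_eq ?_) (Real.sqrt_nonneg _)
        unfold FP.Pr
        rw [P.E_congr (g := fun _ => 0) (fun u _ => ind_not (fun h => h.1 hI)), P.E_const]
      · have hhp := hn.hh_one I.card (hcard hI)
        have hap := hn.aa_ge I.card (hcard hI)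
        have ha0 : 0 < n.aa I.card := by linarith
        have h3 := P.doob_inc (hF.filt J) (D := fun t => fat t I) (fun t w _ h => hR.fat_mono t I w h) T (phf n I.card)
        have h4 := hR.fatle I hI
        have hhg := hn.hh_ge I.card (hcard hI)
        have h5 : P.Pr (fat T I) ≤ 4 * n.hh I.card / n.aa I.card := by
          rw [le_div_iff₀ ha0, mul_comm]
          refine h4.trans ?_
          rw [hK, mul_div_assoc]
          have : 0 ≤ (X : ℝ) := hX0.le
          linarith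
        have hq0 : 0 < 4 * n.hh I.card / n.aa I.card := div_pos (by linarith) ha0
        have hφ : 0 < phf n I.card := Real.sqrt_pos.2 hq0
        have h6 : P.Pr (fun u => ∃ t ≤ T, phf n I.card ≤ P.ce (knq x Q J t) (fun v => ind (fat t I v)) u) ≤
            phf n I.card := by
          have h7 := h3.trans h5
          have h8 : 4 * n.hh I.card / n.aa I.card = phf n I.card * phf n I.card := (Real.mul_self_sqrt hq0.le).symm
          rw [h8] at h7
          exact le_of_mul_le_mul_left h7 hφ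
        refine (P.Pr_mono (fun u _ h => h.2)).trans (h6.trans ?_)
        refine Real.sqrt_le_sqrt ?_
        rw [div_le_iff₀ ha0, ← div_eq_inv_mul, le_div_iff₀ hXc, mul_comm]
        exact hn.fat_one I.card (hcard hI)
    have h3 := P.Pr_ex_le (univ : Finset (Finset ι)) (fun I u => I ≠ univ ∧ ∃ t ≤ T,
        phf n I.card ≤ P.ce (knq x Q J t) (fun v => ind (fat t I v)) u)
    refine h3.trans ((Finset.sum_le_sum (fun I _ => h2 I)).trans (le_of_eq ?_))
    rw [Finset.sum_const, nsmul_eq_mul, hcard2]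

end hot

/-! ## the alphabet of the records at the top -/

section alph

variable {k c X C : ℕ} {n : Nums k c X}

theorem one_le_pw (hX : 2 ≤ X) (c : ℕ) : (1 : ℝ) ≤ (X : ℝ) ^ c :=
  one_le_pow₀ (by have : (2 : ℝ) ≤ X := by exact_mod_cast hX
                  linarith)

/-- the alphabet of the records is at least `X ^ c` -/
theorem Exp_X (hn : n.OK C) (hX : 2 ≤ X) {s j : ℕ} (hs : s < k) (hj : j < k) : (X : ℝ) ^ c ≤ n.Exp s j := by
  unfold Nums.Exp
  have h1 := one_le_pw hX c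
  have h2 : (1 : ℝ) ≤ (n.nu' s j : ℝ) ^ k := one_le_pow₀ (by
    have h3 : 1 ≤ n.nu' s j := Nat.mul_pos (hn.nu_pos s hs) (hn.Nb_pos s j hs hj)
    exact_mod_cast h3)
  have h3 : (1 : ℝ) ≤ n.aa s + n.Ex s j := by
    have h4 := hn.Ex_one s j hs hj
    have h5 := hn.aa_ge s hs
    have h6 : (2 : ℝ) ≤ X := by exact_mod_cast hX
    linarith
  have h4 : (1 : ℝ) ≤ (n.nu' s j : ℝ) ^ k * (n.aa s + n.Ex s j) := by nlinarith
  calc (X : ℝ) ^ c = (X : ℝ) ^ c * 1 := (mul_one _).symm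
    _ ≤ (X : ℝ) ^ c * ((n.nu' s j : ℝ) ^ k * (n.aa s + n.Ex s j)) := mul_le_mul_of_nonneg_left h4 (by linarith)
    _ = _ := by ring

/-- the alphabets of the larger sizes are small against the alphabet of the records -/
theorem Exp_aa (hn : n.OK C) (hX : 2 ≤ X) {s s' j : ℕ} (hss : s < s') (hs' : s' < k) (hj : j < k) :
    (X : ℝ) ^ c * n.aa s' ≤ n.Exp s j := by
  have hs : s < k := by omega
  have hc1 := one_le_pw hX c
  have hX' : (2 : ℝ) ≤ X := by exact_mod_cast hX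
  have ha' := hn.aa_ge s' hs'
  have hd := hn.be_le_one s' j 0 hs' hj
  have hd0 := hn.be_pos s' j 0 hs' hj
  have hb := hn.base s' j hs' hj
  -- `aa s' <= Nb`
  have h1 : n.aa s' ≤ (n.Nb s' j : ℝ) := by
    have h2 : n.aa s' ≤ (X : ℝ) ^ c * n.aa s' := by nlinarith
    have h3 : n.del s' j * n.Nb s' j ≤ 1 * (n.Nb s' j : ℝ) :=
      mul_le_mul_of_nonneg_right hd (Nat.cast_nonneg _)
    linarith
  have h2 : (n.Nb s' j : ℝ) ≤ (n.nu' s' j : ℝ) * n.Nk s' j 0 := by
    have h3 : n.Nb s' j ≤ n.nu' s' j * n.Nk s' j 0 := by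
      have e1 : n.nu' s' j = n.nu s' * n.Nb s' j := rfl
      rw [e1]
      have h4 := hn.nu_pos s' hs'
      have h5 := hn.keys_pos s' j 0 hs' hj
      calc n.Nb s' j = 1 * n.Nb s' j * 1 := by ring
        _ ≤ n.nu s' * n.Nb s' j * n.Nk s' j 0 := Nat.mul_le_mul (Nat.mul_le_mul h4 le_rfl) h5
    exact_mod_cast h3
  have h3 := hn.low_nu s' s j hss hs' hj
  have h4 : (n.nu s : ℝ) ≤ (n.nu' s j : ℝ) := by
    have h5 : n.nu s ≤ n.nu' s j := Nat.le_mul_of_pos_right _ (hn.Nb_pos s j hs hj)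
    exact_mod_cast h5
  have h5 : (n.nu' s j : ℝ) ≤ (n.nu' s j : ℝ) ^ k := by
    have h6 : (1 : ℝ) ≤ (n.nu' s j : ℝ) := by
      have h7 : 1 ≤ n.nu' s j := Nat.mul_pos (hn.nu_pos s hs) (hn.Nb_pos s j hs hj)
      exact_mod_cast h7
    calc (n.nu' s j : ℝ) = (n.nu' s j : ℝ) ^ 1 := (pow_one _).symm
      _ ≤ _ := pow_le_pow_right₀ h6 (by omega)
  have h6 : (1 : ℝ) ≤ n.aa s + n.Ex s j := by
    have h7 := hn.Ex_one s j hs hj
    have h8 := hn.aa_ge s hs
    linarith
  have h7 : (X : ℝ) ^ c * n.aa s' ≤ (n.nu' s j : ℝ) ^ k := by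
    refine (mul_le_mul_of_nonneg_left (h1.trans h2) (by linarith)).trans ?_
    linarith
  unfold Nums.Exp
  have h8 : 0 ≤ (n.nu' s j : ℝ) ^ k := by positivity
  calc (X : ℝ) ^ c * n.aa s' ≤ (n.nu' s j : ℝ) ^ k := h7
    _ = 1 * (n.nu' s j : ℝ) ^ k * 1 := by ring
    _ ≤ (X : ℝ) ^ c * (n.nu' s j : ℝ) ^ k * (n.aa s + n.Ex s j) := by
        refine mul_le_mul (mul_le_mul_of_nonneg_right hc1 h8) h6 zero_le_one (by positivity)

/-- THE ALPHABET OF `R_0`: numbers (`log` at most `X ^ c / 2`) and the labels of size larger than `s` -/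
theorem alph_le (hn : n.OK C) (hX : 2 ≤ X) (hc : k + 1 ≤ c) {s j : ℕ} (hs : s < k) (hj : j < k) {A : ℝ}
    (hA : 2 * A ≤ (X : ℝ) ^ c) {N : ℕ} (hN : N ≤ 2 ^ k) {b : Fin N → ℕ} (hb : ∀ i, s < b i ∧ b i < k) :
    A + ∑ i, n.aa (b i) ≤ n.Exp s j := by
  have h1 := Exp_X hn hX hs hj
  have hX' : (2 : ℝ) ≤ X := by exact_mod_cast hX
  have h2 : ∀ i, (X : ℝ) ^ c * n.aa (b i) ≤ n.Exp s j := fun i => Exp_aa hn hX (hb i).1 (hb i).2 hj
  have h3 : (2 : ℝ) ^ (k + 1) ≤ (X : ℝ) ^ c := by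
    calc (2 : ℝ) ^ (k + 1) ≤ (X : ℝ) ^ (k + 1) := pow_le_pow_left₀ (by norm_num) hX' _
      _ ≤ _ := pow_le_pow_right₀ (by linarith) hc
  have h4 : (2 : ℝ) ^ (k + 1) * ∑ i, n.aa (b i) ≤ (N : ℝ) * n.Exp s j := by
    rw [Finset.mul_sum]
    refine (Finset.sum_le_card_nsmul _ _ (n.Exp s j) (fun i _ => ?_)).trans (le_of_eq ?_)
    · refine le_trans (mul_le_mul_of_nonneg_right h3 ?_) (h2 i)
      have := hn.aa_ge (b i) (hb i).2
      linarith
    · rw [Finset.card_univ, Fintype.card_fin, nsmul_eq_mul]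
  have h5 : (N : ℝ) ≤ 2 ^ k := by exact_mod_cast hN
  have hE : 0 ≤ n.Exp s j := le_trans (by positivity) h1
  have h6 : (2 : ℝ) ^ (k + 1) * ∑ i, n.aa (b i) ≤ 2 ^ k * n.Exp s j :=
    h4.trans (mul_le_mul_of_nonneg_right h5 hE)
  have h7 : 2 * ∑ i, n.aa (b i) ≤ n.Exp s j := by
    rw [pow_succ, mul_assoc] at h6
    exact le_of_mul_le_mul_left h6 (by positivity)
  linarith

end alph

end

end Pool.Agent.GMM.CSM
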