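import Pool.Agent.GMM.CSRule

/-!
# GMM/CSRuleB: `cs_rule` in the form used by GMM/CSMain (helper24)

The statement of helper36's stub: processes `Proc` with a common event `e`, the view `vmap` with all labels, the labels of index
`I ⊇ U` being constant.
-/

set_option autoImplicit false
set_option linter.unusedSectionVars false

namespace Pool.Agent.GMM

open Finset Pool.Agent.PWZ Pool.Agent.M3 Pool.Agent.M3.FP Pool.Agent.GMC

noncomputable section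

variable {Om : Type*} [Fintype Om] {ι : Type*} [Fintype ι] [DecidableEq ι] {χ α : Type*} {κ ε φ : ℕ → Type*}
  {P : FP Om} {a : Om → α} {x : ι → Om → χ} {Q : ∀ t, Om → κ t} {D : ℕ → Om → ℝ}
  {E : ∀ t, Finset ι → Om → ε t} {f : ∀ t, Finset ι → Om → φ t} {c0 : ℝ} {T : ℕ} {L : ℕ → Finset ι → Om → ℕ}
  {fat : ℕ → Finset ι → Om → Prop} {Z : Type*} [Finite Z] {Xn g : Z → ℕ → Om → ℝ} {e Dd : ℕ → Om → Prop} {s N : ℝ}

/-- THEOREM CS (COLD_S, the potential) for the labels of the rule, common events -/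
theorem cs_rule {Av w aa : ℕ → ℝ} {h : ℝ} (hM : MdlI P a x Q D E c0) (hc0 : 0 < c0)
    (hat : ∀ t I u, P.p u ≠ 0 → c0 ≤ P.ce (fun u => (a u, xr x I u, Q t u)) (fun v => ind (Q (t + 1) v = Q (t + 1) u)) u)
    (hR : RuleOut P a x Q D f Av w aa h T L fat) (hp : ∀ z, Proc P x Q D f (Xn z) (g z) e Dd s N T)
    {hot : Finset ι → ℕ → Om → Prop} (hhot : ∀ J t v u, knq x Q J t v = knq x Q J t u → (hot J t v ↔ hot J t u))
    {k : ℕ} (hk : Fintype.card ι = k + 1) {U : Finset ι} (hU : ∅ ⊂ U) {AD : ℕ → (Om → Z) → Prop}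
    (hC : Choice (knq x Q U) (vmap x Q L) AD) (hLU : ∀ t I, U ⊆ I → ∀ u v, L t I u = L t I v)
    {S : Z → ℕ → Om → Prop}
    (hXS : ∀ z t u, P.p u ≠ 0 → s < |Xn z t u| → ¬ Dd t u → S z t u) (cc : Finset ι → ℕ → Om → ℝ)
    (hcc : ∀ I, ∀ t < T, Fac (fun u => (a u, xr x I u, Q (t + 1) u)) (cc I (t + 1)))
    (hcc0 : ∀ I t u, P.p u ≠ 0 → 0 ≤ cc I t u)
    (he : ∀ t < T, ∀ u, P.p u ≠ 0 → (∃ z, s < |Xn z t u|) → P.Al (vmap x Q L) Dd (1 / 2) (t + 1) u →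
      ind (e (t + 1) u) ≤ ∑ I ∈ (univ : Finset ι).ssubsets.filter (fun I => ¬ U ⊆ I), cc I (t + 1) u)
    {Jn : Finset ι → ℝ} (hJn : ∀ I, I ≠ univ → ¬ U ⊆ I → ∑ t ∈ range T, P.E (cc I (t + 1)) ≤ Jn I)
    {σ : Finset ι → ℝ} {y : ℕ → Finset ι → ℝ} (hσ : ∀ J, 0 ≤ σ J) (hy : ∀ r J, 0 ≤ y r J)
    (hS : ∀ J, J ⊂ U → ∀ t ≤ T, ∀ u, P.p u ≠ 0 → ¬ hot J t u → pal P (knq x Q) hot J t u → ∀ z, AD t z →
      P.ce (knq x Q J t) (fun v => ind (S (z v) t v)) u ≤ σ J)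
    (hMM : ∀ r < k, ∀ J, J ⊂ U → ∀ t ≤ T, ∀ u, P.p u ≠ 0 → ¬ hot J t u → pal P (knq x Q) hot J t u →
      P.ce (knq x Q J t) (MM P (L t) (knq x Q univ t) (r + 1)) u ≤ y (r + 1) J)
    {ρ : ℝ} (hρ : 0 < ρ) :
    ρ * P.Pr (fun u => ∃ t ≤ T, pal P (knq x Q) hot U t u ∧ 2 * ρ ≤ csup P (knq x Q U t) (AD t)
        (fun z v => ind (P.Al (vmap x Q L) Dd (1 / 2) t v) * Phi s (Xn z t v)) u) ≤
      (2 * N * σ ∅ + ((k : ℝ) + 1) * ∑ r : Fin k, 2 * N * y (r + 1) ∅) +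
      ∑ J ∈ U.ssubsets, (2 * N * σ J + ((k : ℝ) + 1) * ∑ r : Fin k, 2 * N * y (r + 1) J) +
      2 * N * P.Pr (Dd T) +
      1 / c0 * (((k : ℝ) + 1) / ρ) * ∑ I ∈ (univ : Finset ι).ssubsets.filter (fun I => ¬ U ⊆ I), 2 * N * σ (U ∩ I) *
        (2 * N * (h + h * w k / w I.card) + N * Jn I) +
      1 / c0 * (((k : ℝ) + 1) ^ 2 / ρ) * ∑ r : Fin k, ∑ I ∈ (sz ι (r + 1)).filter (fun I => ¬ U ⊆ I),
        2 * N * y (r + 1) (U ∩ I) * (2 * N * (h + h * w k / w I.card)) := by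
  have hmdl := hM.mdl
  have hF := hM.frame hc0
  have hCc : (0 : ℝ) ≤ 1 / c0 := by positivity
  obtain ⟨z00, _⟩ := hC.ne
  obtain ⟨w0, hw0⟩ := P.exists_p_ne
  have hN0 : 0 ≤ N := (Phi_nonneg _ _).trans ((hp (z00 w0)).bd 0 w0 hw0)
  have key := cs_view (P := P) (Kn := knq x Q) (hot := hot) hF hCc hhot hk hU T
    (fun z => (hp z).view hR hM.filt)
    (fun t u v e => by
      simp only [vmap, knq, Prod.mk.injEq] at e ⊢
      exact e.2) hC
    (L := L) hLU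
    (fun t u v e => by
      simp only [vmap, knq, Prod.mk.injEq] at e ⊢
      refine ⟨sel_eq.2 (fun I hI => ?_), e.2.1, e.2.2⟩
      have hI' : I ∈ szlt ι (k + 1) := by rw [mem_szlt, ← hk]; exact card_lt_of_prp hI
      exact Lf_one (L t) hI' u v e.1)
    (fun t u v e => hM.dQ t u v (by simp only [knq, Prod.mk.injEq] at e; exact e.2))
    (fun t ht u hu => (hp (z00 w0)).fair t ht u hu)
    (fun t I u v e => hR.mono t I u v (by simp only [Prod.mk.injEq] at e; exact e.1))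
    (hp (z00 w0)).dead hXS
    (fun I t => ip P (L t I) (D t) (lt (L t) I) (fun v => (xr x I v, Q t v)))
    (fun I t => ip P (L (t - 1) I) (lt (L t) I) (lt (L (t - 1)) I) (fun v => (xr x I v, Q t v)))
    cc (fun I t => fun u => (a u, xr x I u, Q t u))
    (fun I t _ => ip_fac P _ _ _ _) (fun I t _ => ip_fac P _ _ _ _) hcc
    (fun I t u hu => ip_nonneg P _ _ _ _ hu) (fun I t u hu => ip_nonneg P _ _ _ _ hu) hcc0
    (fun I _ _ t ht u hu => cI_le hmdl (hR.fac t) I hu)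
    (fun I _ _ t ht u hu => le_of_eq (cO_le hmdl (hR.fac t) (hR.fac (t + 1)) I hu))
    (fun I t ht h hh0 hh u hu => CSR.child_U hc0 hM hu (hat t I u hu) hh0 hh)
    he hσ hy hS hMM hρ
  -- budgets
  have hbud : ∀ I, I ≠ univ → ∑ t ∈ range T, (P.E (ip P (L t I) (D t) (lt (L t) I) (fun v => (xr x I v, Q t v))) +
      P.E (ip P (L (t + 1 - 1) I) (lt (L (t + 1)) I) (lt (L (t + 1 - 1)) I) (fun v => (xr x I v, Q (t + 1) v)))) ≤
      h + h * w k / w I.card := by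
    intro I hI
    have h1 := hR.sum_cG hI
    rw [hk, Nat.add_sub_cancel] at h1
    refine le_trans (le_of_eq (Finset.sum_congr rfl fun t _ => ?_)) h1
    rw [← P.E_add]
    refine P.E_congr (fun u _ => ?_)
    unfold cG
    rw [Nat.add_sub_cancel, add_comm]
  have hsum0 : ∑ I ∈ (univ : Finset ι).ssubsets.filter (fun I => ¬ U ⊆ I), 2 * N * σ (U ∩ I) *
        (2 * N * ∑ t ∈ range T, (P.E (ip P (L t I) (D t) (lt (L t) I) (fun v => (xr x I v, Q t v))) +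
      P.E (ip P (L (t + 1 - 1) I) (lt (L (t + 1)) I) (lt (L (t + 1 - 1)) I) (fun v => (xr x I v, Q (t + 1) v)))) +
        N * ∑ t ∈ range T, P.E (cc I (t + 1))) ≤
      ∑ I ∈ (univ : Finset ι).ssubsets.filter (fun I => ¬ U ⊆ I), 2 * N * σ (U ∩ I) *
        (2 * N * (h + h * w k / w I.card) + N * Jn I) := by
    refine Finset.sum_le_sum fun I hI => mul_le_mul_of_nonneg_left ?_ (mul_nonneg (by positivity) (hσ _))
    obtain ⟨hI1, hI2⟩ := Finset.mem_filter.1 hI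
    have hne := (Finset.mem_ssubsets.1 hI1).ne
    exact add_le_add (mul_le_mul_of_nonneg_left (hbud I hne) (by positivity))
      (mul_le_mul_of_nonneg_left (hJn I hne hI2) hN0)
  have hsum1 : ∑ r : Fin k, ∑ I ∈ (sz ι (r + 1)).filter (fun I => ¬ U ⊆ I), 2 * N * y (r + 1) (U ∩ I) *
        (2 * N * ∑ t ∈ range T, (P.E (ip P (L t I) (D t) (lt (L t) I) (fun v => (xr x I v, Q t v))) +
      P.E (ip P (L (t + 1 - 1) I) (lt (L (t + 1)) I) (lt (L (t + 1 - 1)) I) (fun v => (xr x I v, Q (t + 1) v))))) ≤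
      ∑ r : Fin k, ∑ I ∈ (sz ι (r + 1)).filter (fun I => ¬ U ⊆ I),
        2 * N * y (r + 1) (U ∩ I) * (2 * N * (h + h * w k / w I.card)) := by
    refine Finset.sum_le_sum fun r _ => Finset.sum_le_sum fun I hI =>
      mul_le_mul_of_nonneg_left ?_ (mul_nonneg (by positivity) (hy _ _))
    refine mul_le_mul_of_nonneg_left (hbud I ?_) (by positivity)
    intro hI'
    rw [Finset.mem_filter, mem_sz, hI', Finset.card_univ, hk] at hI
    have := r.2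
    omega
  have hc1 : 0 ≤ 1 / c0 * (((k : ℝ) + 1) / ρ) := by positivity
  have hc2 : 0 ≤ 1 / c0 * (((k : ℝ) + 1) ^ 2 / ρ) := by positivity
  have h1 := mul_le_mul_of_nonneg_left hsum0 hc1
  have h2 := mul_le_mul_of_nonneg_left hsum1 hc2
  refine key.trans ?_
  linarith

end

end Pool.Agent.GMM
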