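import Pool.Agent.GMM.CSHot
import Pool.Agent.GMM.CSRuleB

/-!
# GMM/CSMain: COLD_S WITH THE NUMBERS (plan CS, row CS4; helper36)

`U` = a proper set of known types (exact), `Z` = finite type of numbers, `AD` = admissible choices, `Xn z` = the named processes,
`r t` = the true number (function of the hidden vertex, of `x_U` and of the node).

* `hotU` : the hot vertices of COLD_S (third part only at the proper parts of `U`);
* `cs_fin` : from `csup` to the hot points, the replacement of the true number (`hstat`) included;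
* **`cs_numsq`** : COLD_S with the numbers of CM.6, the deaths apart.
-/

set_option autoImplicit false
set_option linter.unusedSectionVars false

namespace Pool.Agent.GMM.CSM

open Finset Pool.Agent.M3 Pool.Agent.M3.FP Pool.Agent.GMC Pool.Agent.GMM
open Pool.Agent.PWZ hiding ip

noncomputable section

variable {Om : Type*} [Fintype Om] {ι : Type*} [Fintype ι] [DecidableEq ι] {χ α : Type*} {κ ε φ : ℕ → Type*}
  {P : FP Om} {a : Om → α} {x : ι → Om → χ} {Q : ∀ t, Om → κ t} {D : ℕ → Om → ℝ} {E : ∀ t, Finset ι → Om → ε t}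
  {f : ∀ t, Finset ι → Om → φ t} {c0 : ℝ} {K c X C : ℕ} {T : ℕ} {L : ℕ → Finset ι → Om → ℕ}
  {fat : ℕ → Finset ι → Om → Prop} {n : Nums K c X}

section fin

variable {Av w aa : ℕ → ℝ} {h : ℝ} {Z : Type*} [Finite Z] {Xn g : Z → ℕ → Om → ℝ} {e Dd : ℕ → Om → Prop} {s N : ℝ}

/-- FROM THE BEST CHOICE TO THE HOT POINTS: `r t` = the true number, `κ` = error of its replacement -/
theorem cs_fin (hM : MdlI P a x Q D E c0) (hc0 : 0 < c0) (hR : RuleOut P a x Q D f Av w aa h T L fat)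
    (hp : ∀ z, Proc P x Q D f (Xn z) (g z) e Dd s N T)
    {hot : Finset ι → ℕ → Om → Prop} (hhot : ∀ J t v u, knq x Q J t v = knq x Q J t u → (hot J t v ↔ hot J t u))
    (hT : ∀ J u, ¬ hot J (T + 1) u) {U : Finset ι} {AD : ℕ → (Om → Z) → Prop} {r : ℕ → Om → Z} {S' : ℕ → Om → Prop}
    {s2 : ℝ} (hs2 : s < s2) (hSX : ∀ t u, P.p u ≠ 0 → S' t u → ¬ Dd t u → s2 ≤ |Xn (r t u) t u|) {ρ ρ' κ0 B : ℝ}
    (hρ : 0 < ρ) (hρ' : 0 < ρ') (hκ : κ0 ≤ 2 * ρ)
    (hstat : ∀ t ≤ T, ∀ u, P.p u ≠ 0 → ¬ hot U t u →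
      P.ce (knq x Q U t) (fun v => ind (P.Al (vmap x Q L) Dd (1 / 2) t v) * Phi s (Xn (r t v) t v)) u ≤
        csup P (knq x Q U t) (AD t) (fun z v => ind (P.Al (vmap x Q L) Dd (1 / 2) t v) * Phi s (Xn z t v)) u + κ0)
    (hB : ρ * P.Pr (fun u => ∃ t ≤ T, pal P (knq x Q) hot U t u ∧ 2 * ρ ≤ csup P (knq x Q U t) (AD t)
      (fun z v => ind (P.Al (vmap x Q L) Dd (1 / 2) t v) * Phi s (Xn z t v)) u) ≤ B) :
    P.Pr (fun u => ∃ t ≤ T, 4 * ρ / (s2 - s) ^ 2 + ρ' ≤ P.ce (knq x Q U t) (fun v => ind (S' t v)) u) ≤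
      B / ρ + (∑ J ∈ U.ssubsets, (1 + 1 / c0) * P.Pr (fun u => ∃ t ≤ T, pal P (knq x Q) hot J t u ∧ hot J t u)) +
        P.Pr (fun u => ∃ t ≤ T, pal P (knq x Q) hot U t u ∧ hot U t u) + 3 * P.Pr (Dd T) / ρ' := by
  obtain ⟨w0, hw0⟩ := P.exists_p_ne
  have z0 : Z := r 0 w0
  have hF := hM.frame hc0
  have H := (hp z0).view hR hM.filt
  have hDd := (hp z0).dead
  have h1 := P.hot_T' (Y := knq x Q U)
    (V := fun t w => ind (P.Al (vmap x Q L) Dd (1 / 2) t w) * Phi s (Xn (r t w) t w)) (hF.filt U)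
    (fun t w _ => mul_nonneg (ind_nonneg _) (Phi_nonneg _ _))
    (D := fun t w => Dd t w ∨ ¬ P.Al (vmap x Q L) Dd (1 / 2) t w) (S := S')
    (fun t w hw h => P.al_dead_inc hDd t w hw h) (s := (s2 - s) ^ 2) (pow_pos (sub_pos.mpr hs2) 2)
    (fun t w hw hS hn => by
      push Not at hn
      rw [ind_of hn.2, one_mul]
      exact le_Phi2 hs2.le (hSX t w hw hS hn.1)) T (ρ := 2 * ρ) hρ'
  have e1 : 2 * (2 * ρ) = 4 * ρ := by ring
  rw [e1] at h1
  have h2 := P.al_dead_or (c := 1 / 2) H.filt hDd T (by norm_num)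
  have h3 : (1 + 1 / (1 / 2 : ℝ)) = 3 := by norm_num
  rw [h3] at h2
  have h4 := div_le_div_of_nonneg_right h2 hρ'.le
  have h5 : P.Pr (fun u => ∃ t ≤ T, 4 * ρ ≤ P.pi (knq x Q U)
      (fun t w => ind (P.Al (vmap x Q L) Dd (1 / 2) t w) * Phi s (Xn (r t w) t w)) t u) ≤
      P.Pr (fun u => (∃ t ≤ T, pal P (knq x Q) hot U t u ∧ 2 * ρ ≤ csup P (knq x Q U t) (AD t)
        (fun z v => ind (P.Al (vmap x Q L) Dd (1 / 2) t v) * Phi s (Xn z t v)) u) ∨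
        ((¬ pal P (knq x Q) hot U T u) ∨ (∃ t ≤ T, pal P (knq x Q) hot U t u ∧ hot U t u))) := by
    refine P.Pr_mono (fun u hu => ?_)
    rintro ⟨t, ht, hh⟩
    by_cases hpal : pal P (knq x Q) hot U T u
    · have hpt : pal P (knq x Q) hot U t u := fun J' hJ' => al_anti' J' ht (hpal J' hJ')
      by_cases hho : hot U t u
      · exact Or.inr (Or.inr ⟨t, ht, hpt, hho⟩)
      · refine Or.inl ⟨t, ht, hpt, ?_⟩
        have h6 := hstat t ht u hu hho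
        have h7 : P.pi (knq x Q U) (fun t w => ind (P.Al (vmap x Q L) Dd (1 / 2) t w) * Phi s (Xn (r t w) t w)) t u =
          P.ce (knq x Q U t) (fun v => ind (P.Al (vmap x Q L) Dd (1 / 2) t v) * Phi s (Xn (r t v) t v)) u := rfl
        rw [h7] at hh
        linarith
    · exact Or.inr (Or.inl hpal)
  have h6 := h5.trans ((P.Pr_or_le _ _).trans (add_le_add le_rfl (P.Pr_or_le _ _)))
  have h7 := Pr_pdead hF hhot hc0 U T hT
  have h8 : P.Pr (fun u => ∃ t ≤ T, pal P (knq x Q) hot U t u ∧ 2 * ρ ≤ csup P (knq x Q U t) (AD t)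
        (fun z v => ind (P.Al (vmap x Q L) Dd (1 / 2) t v) * Phi s (Xn z t v)) u) ≤ B / ρ := by
    rw [le_div_iff₀ hρ, mul_comm]
    exact hB
  linarith

end fin

/-- third part of the hot vertices: an admissible choice of the numbers has density larger than `σ` -/
def HU (P : FP Om) (x : ι → Om → χ) (Q : ∀ t, Om → κ t) {Z : Type*} (U : Finset ι) (AD : ℕ → (Om → Z) → Prop)
    (S : Z → ℕ → Om → Prop) (σ : ℝ) (J : Finset ι) (t : ℕ) (u : Om) : Prop :=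
  J ⊂ U ∧ ∃ z, AD t z ∧ σ < P.ce (knq x Q J t) (fun v => ind (S (z v) t v)) u

theorem HU_fac {Z : Type*} (U : Finset ι) (AD : ℕ → (Om → Z) → Prop) (S : Z → ℕ → Om → Prop) (σ : ℝ) (J : Finset ι)
    (t : ℕ) (v u : Om) (h : knq x Q J t v = knq x Q J t u) : HU P x Q U AD S σ J t v ↔ HU P x Q U AD S σ J t u := by
  unfold HU
  refine and_congr_right fun _ => exists_congr fun z => and_congr_right fun _ => ?_
  rw [P.ce_fac (knq x Q J t) _ v u h]


section num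

variable {Z : Type*} [Finite Z] {Xn g : Z → ℕ → Om → ℝ} {e Dd : ℕ → Om → Prop} {s N : ℝ}

/-- **COLD_S WITH THE NUMBERS OF CM.6**, the probability of the deaths apart, any output level `r1 ≥ X ^ (-e0)` -/
theorem cs_numsq {c2 b e0 : ℕ} (hn : n.OK C) (hK : Fintype.card ι = K) (hK1 : 1 ≤ K) (hX : 2 ≤ X)
    (hc2 : c = 2 * c2) (hcc2 : 6 * b + 6 * K + 3 * e0 + 17 ≤ c2) (hM : MdlI P a x Q D E c0) (hc0 : 0 < c0)
    (hat : ∀ t I u, P.p u ≠ 0 → c0 ≤ P.ce (fun u => (a u, xr x I u, Q t u)) (fun v => ind (Q (t + 1) v = Q (t + 1) u)) u)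
    (hR : RuleOut P a x Q D f n.AA n.w n.aa X T L fat) (hp : ∀ z, Proc P x Q D f (Xn z) (g z) e Dd s N T)
    {Ap : ℕ → ℕ → ℝ} (hAp : ∀ s j, 0 ≤ Ap s j)
    (hsat : ∀ J, J ≠ univ → ∀ t ≤ T, ∀ u, P.p u ≠ 0 → SatAt P a x Q L fat n Ap J t u)
    {U : Finset ι} (hU : ∅ ⊂ U) (hUu : U ≠ univ) {AD : ℕ → (Om → Z) → Prop}
    (hC : Choice (knq x Q U) (vmap x Q L) AD) (hLU : ∀ t I, U ⊆ I → ∀ u v, L t I u = L t I v)
    {S : Z → ℕ → Om → Prop} {S' : ℕ → Om → Prop} {σ : ℝ}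
    (hcold : ∀ J, J ⊂ U → P.Pr (fun u => ∃ t ≤ T, ∃ z, AD t z ∧
      σ < P.ce (knq x Q J t) (fun v => ind (S (z v) t v)) u) ≤ (X : ℝ) ^ (-(c2 : ℤ)))
    (hXS : ∀ z t u, P.p u ≠ 0 → s < |Xn z t u| → ¬ Dd t u → S z t u) (cc : Finset ι → ℕ → Om → ℝ)
    (hcc : ∀ I, ∀ t < T, Fac (fun u => (a u, xr x I u, Q (t + 1) u)) (cc I (t + 1)))
    (hcc0 : ∀ I t u, P.p u ≠ 0 → 0 ≤ cc I t u)
    (he : ∀ t < T, ∀ u, P.p u ≠ 0 → (∃ z, s < |Xn z t u|) → P.Al (vmap x Q L) Dd (1 / 2) (t + 1) u →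
      ind (e (t + 1) u) ≤ ∑ I ∈ (univ : Finset ι).ssubsets.filter (fun I => ¬ U ⊆ I), cc I (t + 1) u)
    (hJn : ∀ I, I ≠ univ → ¬ U ⊆ I → ∑ t ∈ range T, P.E (cc I (t + 1)) ≤ (X : ℝ) ^ (b : ℤ))
    {r : ℕ → Om → Z} {s2 : ℝ} (hs2 : s < s2) (hSX : ∀ t u, P.p u ≠ 0 → S' t u → ¬ Dd t u → s2 ≤ |Xn (r t u) t u|)
    {r1 κ0 : ℝ} (hr1 : 0 < r1) (hκ : 4 * κ0 ≤ r1 * (s2 - s) ^ 2)
    (hstat : ∀ t ≤ T, ∀ u, P.p u ≠ 0 →
      (∀ G, ¬ U ⊆ G → G ≠ univ → phi P a x (Q t) (L t) (Ap G.card U.card) U G u ≤ n.del' G.card U.card) →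
      P.ce (knq x Q U t) (fun v => ind (P.Al (vmap x Q L) Dd (1 / 2) t v) * Phi s (Xn (r t v) t v)) u ≤
        csup P (knq x Q U t) (AD t) (fun z v => ind (P.Al (vmap x Q L) Dd (1 / 2) t v) * Phi s (Xn z t v)) u + κ0)
    (hc0b : 1 / c0 ≤ (X : ℝ) ^ (b : ℤ)) (hNb : N ≤ (X : ℝ) ^ (b : ℤ)) (hsb : 1 / (s2 - s) ^ 2 ≤ (X : ℝ) ^ (b : ℤ))
    (hσ0 : 0 ≤ σ) (hσ : σ ≤ (X : ℝ) ^ (-((C : ℤ) + c))) (hr1e : 1 / r1 ≤ (X : ℝ) ^ (e0 : ℤ)) :
    P.Pr (fun u => ∃ t ≤ T, r1 ≤ P.ce (knq x Q U t) (fun v => ind (S' t v)) u) ≤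
      (X : ℝ) ^ (-(e0 : ℤ)) + (16 * N / (r1 * (s2 - s) ^ 2) + 6 / r1) * P.Pr (Dd T) := by
  classical
  set Y : ℝ := (X : ℝ) with hYd
  have hY : 2 ≤ Y := by
    rw [hYd]
    exact_mod_cast hX
  have hY0 : 0 < Y := by linarith
  obtain ⟨k, hk⟩ : ∃ k, K = k + 1 := ⟨K - 1, by omega⟩
  have hUs : U ⊂ univ := Finset.ssubset_univ_iff.2 hUu
  set H := HU P x Q U AD S σ with hHd
  set hot := hotG P a x Q L fat n Ap H T with hhotdef
  have hcard : ∀ {G : Finset ι}, G ≠ univ → G.card < K := fun {G} hG => by rw [← hK]; exact card_lt_of_prp hG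
  have hHf : ∀ J t v u, knq x Q J t v = knq x Q J t u → (H J t v ↔ H J t u) := fun J t v u h => HU_fac U AD S σ J t v u h
  have hhot : ∀ J t v u, knq x Q J t v = knq x Q J t u → (hot J t v ↔ hot J t u) := fun J t v u h => hotG_fac n Ap hHf T J t v u h
  have hN0 : 0 ≤ N := by
    obtain ⟨w, hw⟩ := P.exists_p_ne
    exact (Phi_nonneg _ _).trans ((hp (r 0 w)).bd 0 w hw)
  have hs0 : 0 < (s2 - s) ^ 2 := pow_pos (by linarith) 2
  set ρ : ℝ := r1 * (s2 - s) ^ 2 / 8 with hρd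
  set ρ' : ℝ := r1 / 2 with hρ'd
  have hρ : 0 < ρ := by positivity
  have hρ' : 0 < ρ' := by positivity
  set ρ0 : ℝ := Y ^ (-(((e0 + 1 : ℕ) : ℤ) + b + 2)) with hρ0d
  have hρ0 : 0 < ρ0 := zp_pos hY _
  have h8Y : (8 : ℝ) ≤ Y ^ (3 : ℤ) := by
    have := zp_two_pow hY 3
    norm_num at this
    exact this
  have hρi : 1 / ρ ≤ Y ^ ((e0 : ℤ) + b + 3) := by
    have e1 : 1 / ρ = 8 * ((1 / r1) * (1 / (s2 - s) ^ 2)) := by
      rw [hρd]
      field_simp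
    rw [e1]
    exact zp_mul_le hY h8Y (by positivity) (zp_mul_le hY hr1e (by positivity) hsb le_rfl) (by omega)
  have hρ0i : 1 / ρ0 = Y ^ ((e0 : ℤ) + b + 3) := by
    rw [hρ0d, zpow_neg, one_div, inv_inv]
    congr 1
    push_cast
    ring
  set y : ℕ → Finset ι → ℝ := fun r J => 4 ^ K * max 0 (n.del r J.card) with hyd
  have hy0 : ∀ r J, 0 ≤ y r J := fun r J => by simp only [hyd]; positivity
  set Jn : Finset ι → ℝ := fun _ => Y ^ (b : ℤ) with hJnd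
  have hsubne : ∀ {J : Finset ι}, J ⊂ univ → J ≠ univ := fun {J} h => h.ne
  have hsubU : ∀ {J : Finset ι}, J ⊂ U → J ≠ univ := fun {J} h => (h.trans hUs).ne
  have hcm := cs_rule (hM := hM) hc0 hat hR hp hhot (k := k) (by rw [hK, hk]) hU hC hLU hXS cc hcc hcc0 he (Jn := Jn)
    (fun I hI hI' => hJn I hI hI') (σ := fun _ => σ) (y := y) (fun _ => hσ0) hy0
    (fun J hJ t ht u hu hnh _ z hz => by
      have h1 := (not_hotG hnh ht).2.2
      by_contra h2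
      exact h1 ⟨hJ, z, hz, not_le.1 h2⟩)
    (fun r hr J hJ t ht u hu hnh _ => by
      obtain ⟨p1, p2, -⟩ := not_hotG hnh ht
      have h1 := (hsat J (hsubU hJ) t ht u hu p1 p2).2 (r + 1) (by omega) (by omega)
      refine h1.trans (mul_le_mul_of_nonneg_left (le_max_right _ _) (by positivity)))
    hρ
  -- numbers
  have h4K : (4 : ℝ) ^ K ≤ Y ^ (2 * (K : ℤ)) := by
    have h1 := zp_two_pow hY (2 * K)
    rw [pow_mul] at h1
    push_cast at h1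
    norm_num at h1
    exact h1
  have hsm : ∀ s' j, s' < K → j < K → n.hh s' * n.del s' j ≤ Y ^ (-(c : ℤ)) := fun s' j hs' hj =>
    zp_of_mul hY (by
      have h1 := hn.small s' j hs' hj
      rw [mul_assoc] at h1
      exact h1)
  have hdel0 : ∀ s' j, s' < K → j < K → 0 < n.del s' j := fun s' j hs' hj => hn.be_pos s' j 0 hs' hj
  have hy1 : ∀ r, r < K → ∀ J : Finset ι, J ⊂ univ → y r J * n.hh r ≤ Y ^ (2 * (K : ℤ) - c) := by
    intro r hr J hJ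
    have h1 := hdel0 r J.card hr (hcard (hsubne hJ))
    simp only [hyd]
    rw [max_eq_right h1.le, mul_assoc]
    refine zp_mul_le hY h4K (mul_nonneg h1.le (by have := hn.hh_one r hr; linarith)) (k := -(c : ℤ)) ?_ (by omega)
    rw [mul_comm]
    exact hsm r J.card hr (hcard (hsubne hJ))
  have hy2 : ∀ r, r < K → ∀ J : Finset ι, J ⊂ univ → y r J ≤ Y ^ (2 * (K : ℤ) - c) := by
    intro r hr J hJ
    refine le_trans ?_ (hy1 r hr J hJ)
    have := hn.hh_one r hr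
    nlinarith [hy0 r J]
  have hσ1 : σ ≤ Y ^ (-(c : ℤ)) := hσ.trans (zp_mono hY (by omega))
  have hbu : ∀ I : Finset ι, I ⊂ univ → 0 ≤ Y + Y * n.w k / n.w I.card ∧ Y + Y * n.w k / n.w I.card ≤ n.hh I.card := by
    intro I hI
    constructor
    · have h1 := hn.w_pos k
      have h2 := hn.w_pos I.card
      positivity
    · have h1 := hn.hh_ge I.card (hcard (hsubne hI))
      have h2 : K - 1 = k := by omega
      rw [h2, ← mul_div_assoc] at h1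
      exact h1
  have hUI : ∀ I : Finset ι, U ∩ I ⊂ univ := fun I =>
    Finset.ssubset_univ_iff.2 (fun h => hUu (Finset.eq_univ_of_forall fun i => Finset.mem_of_mem_inter_left
      (h ▸ Finset.mem_univ i : i ∈ U ∩ I)))
  have hB := B_le (ι := ι) hY (k := k) (b := b) (K := K) (c := c) (e0 := e0 + 1) hk (N := N) (σ := σ) (q := 0)
    (c0 := c0) (ρ := ρ0) hN0 hNb hσ0 hσ1 le_rfl (zp_pos hY _).le hc0 hc0b hρ0d hK (y := fun r I => y r (U ∩ I))
    (fun r J => hy0 r _)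
    (fun r hr J hJ => hy2 (r + 1) (by omega) _ (hUI J)) (bu := fun I => Y + Y * n.w k / n.w I.card) (Jn := Jn)
    (fun I hI => (hbu I hI).1)
    (fun I hI => by
      have h1 := hn.hh_le I.card (hcard (hsubne hI))
      rw [zp_nat] at h1
      exact zp_mul_le hY hσ (hbu I hI).1 ((hbu I hI).2.trans h1) (by omega))
    (fun r hr I hI => by
      have hcI := mem_sz.1 hI
      have hIu : I ⊂ univ := by
        rw [← Finset.mem_ssubsets, ssub_univ_eq, mem_szlt, hcI, hK, hk]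
        omega
      have h1 := hy1 (r + 1) (by omega) (U ∩ I) (hUI I)
      refine le_trans ?_ h1
      refine mul_le_mul_of_nonneg_left ?_ (hy0 _ _)
      have h2 := (hbu I hIu).2
      rw [hcI] at h2 ⊢
      exact h2)
    (fun I _ => (zp_pos hY _).le) (fun I _ => le_rfl)
  have hszu : ∀ (r : Fin k), ∀ I ∈ sz ι ((r : ℕ) + 1), I ⊂ univ := by
    intro r I hI
    rw [← Finset.mem_ssubsets, ssub_univ_eq, mem_szlt, mem_sz.1 hI, hK, hk]
    have := r.2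
    omega
  -- the filtered sums are at most the sums over everything
  have f1 : (2 * N * σ + ((k : ℝ) + 1) * ∑ r : Fin k, 2 * N * y (r + 1) ∅) =
      (2 * N * σ + ((k : ℝ) + 1) * ∑ r : Fin k, 2 * N * y (r + 1) (U ∩ ∅)) := by rw [Finset.inter_empty]
  have f2 : ∑ J ∈ U.ssubsets, (2 * N * σ + ((k : ℝ) + 1) * ∑ r : Fin k, 2 * N * y (r + 1) J) ≤
      ∑ J ∈ (univ : Finset ι).ssubsets, (2 * N * σ + ((k : ℝ) + 1) * ∑ r : Fin k, 2 * N * y (r + 1) (U ∩ J)) := by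
    have e1 : ∑ J ∈ U.ssubsets, (2 * N * σ + ((k : ℝ) + 1) * ∑ r : Fin k, 2 * N * y (r + 1) J) =
        ∑ J ∈ U.ssubsets, (2 * N * σ + ((k : ℝ) + 1) * ∑ r : Fin k, 2 * N * y (r + 1) (U ∩ J)) := by
      refine Finset.sum_congr rfl fun J hJ => ?_
      rw [Finset.inter_eq_right.2 (Finset.mem_ssubsets.1 hJ).1]
    rw [e1]
    refine Finset.sum_le_sum_of_subset_of_nonneg (fun J hJ => ?_) (fun J _ _ => ?_)
    · exact Finset.mem_ssubsets.2 ((Finset.mem_ssubsets.1 hJ).trans hUs)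
    · have : 0 ≤ ∑ r : Fin k, 2 * N * y (r + 1) (U ∩ J) :=
        Finset.sum_nonneg fun r _ => mul_nonneg (by positivity) (hy0 _ _)
      positivity
  have f3 : ∑ I ∈ (univ : Finset ι).ssubsets.filter (fun I => ¬ U ⊆ I), 2 * N * σ *
        (2 * N * (Y + Y * n.w k / n.w I.card) + N * Jn I) ≤
      ∑ I ∈ (univ : Finset ι).ssubsets, 2 * N * σ * (2 * N * (Y + Y * n.w k / n.w I.card) + N * Jn I) := by
    refine Finset.sum_le_sum_of_subset_of_nonneg (Finset.filter_subset _ _) (fun I hI _ => ?_)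
    have h1 := (hbu I (Finset.mem_ssubsets.1 hI)).1
    have h2 : 0 ≤ Jn I := (zp_pos hY _).le
    positivity
  have f4 : ∑ r : Fin k, ∑ I ∈ (sz ι (r + 1)).filter (fun I => ¬ U ⊆ I),
        2 * N * y (r + 1) (U ∩ I) * (2 * N * (Y + Y * n.w k / n.w I.card)) ≤
      ∑ r : Fin k, ∑ I ∈ sz ι (r + 1), 2 * N * y (r + 1) (U ∩ I) * (2 * N * (Y + Y * n.w k / n.w I.card)) := by
    refine Finset.sum_le_sum fun r _ => Finset.sum_le_sum_of_subset_of_nonneg (Finset.filter_subset _ _) (fun I hI _ => ?_)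
    have h1 := (hbu I (hszu r I hI)).1
    have h2 := hy0 (r + 1) (U ∩ I)
    positivity
  have hk0 : (0 : ℝ) ≤ (k : ℝ) + 1 := by positivity
  have hr1' : 1 / c0 * (((k : ℝ) + 1) / ρ) ≤ 1 / c0 * (((k : ℝ) + 1) / ρ0) := by
    refine mul_le_mul_of_nonneg_left ?_ (by positivity)
    rw [div_eq_mul_one_div, div_eq_mul_one_div (_ + _) ρ0, hρ0i]
    exact mul_le_mul_of_nonneg_left hρi hk0
  have hr2' : 1 / c0 * (((k : ℝ) + 1) ^ 2 / ρ) ≤ 1 / c0 * (((k : ℝ) + 1) ^ 2 / ρ0) := by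
    refine mul_le_mul_of_nonneg_left ?_ (by positivity)
    rw [div_eq_mul_one_div, div_eq_mul_one_div (_ ^ 2) ρ0, hρ0i]
    exact mul_le_mul_of_nonneg_left hρi (by positivity)
  have hS0 : 0 ≤ ∑ I ∈ (univ : Finset ι).ssubsets, 2 * N * σ * (2 * N * (Y + Y * n.w k / n.w I.card) + N * Jn I) := by
    refine Finset.sum_nonneg fun I hI => ?_
    have h1 := (hbu I (Finset.mem_ssubsets.1 hI)).1
    have h2 : 0 ≤ Jn I := (zp_pos hY _).le
    positivity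
  have hS1 : 0 ≤ ∑ r : Fin k, ∑ I ∈ sz ι (r + 1), 2 * N * y (r + 1) (U ∩ I) *
      (2 * N * (Y + Y * n.w k / n.w I.card)) := by
    refine Finset.sum_nonneg fun r _ => Finset.sum_nonneg fun I hI => ?_
    have h1 := (hbu I (hszu r I hI)).1
    have h2 := hy0 (r + 1) (U ∩ I)
    positivity
  have hcm2 : ρ * P.Pr (fun u => ∃ t ≤ T, pal P (knq x Q) hot U t u ∧ 2 * ρ ≤ csup P (knq x Q U t) (AD t)
        (fun z v => ind (P.Al (vmap x Q L) Dd (1 / 2) t v) * Phi s (Xn z t v)) u) ≤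
      Y ^ (5 * (b : ℤ) + 6 * K + e0 + 11 - c) + 2 * N * P.Pr (Dd T) := by
    have m1 := mul_le_mul hr1' f3 (Finset.sum_nonneg fun I hI => by
      have h1 := (hbu I (Finset.mem_ssubsets.1 (Finset.mem_filter.1 hI).1)).1
      have h2 : 0 ≤ Jn I := (zp_pos hY _).le
      positivity) (by positivity)
    have m2 := mul_le_mul hr2' f4 (Finset.sum_nonneg fun r _ => Finset.sum_nonneg fun I hI => by
      have h1 := (hbu I (hszu r I (Finset.mem_filter.1 hI).1)).1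
      have h2 := hy0 (r + 1) (U ∩ I)
      positivity) (by positivity)
    have e9 : 5 * (b : ℤ) + 6 * K + ((e0 + 1 : ℕ) : ℤ) + 10 - c = 5 * (b : ℤ) + 6 * K + e0 + 11 - c := by
      push_cast
      ring
    rw [e9] at hB
    rw [← f1] at hB
    linarith
  -- the end
  have hfin := cs_fin (hM := hM) hc0 hR hp hhot (fun J u => hotG_top n Ap H T J u) (r := r) (S' := S') hs2 hSX hρ hρ'
    (κ0 := κ0) (by rw [hρd]; linarith)
    (fun t ht u hu hnh => hstat t ht u hu (not_hotG hnh ht).1) hcm2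
  have hthr : 4 * ρ / (s2 - s) ^ 2 + ρ' = r1 := by
    rw [hρd, hρ'd, show 4 * (r1 * (s2 - s) ^ 2 / 8) = r1 / 2 * (s2 - s) ^ 2 by ring, mul_div_assoc, div_self hs0.ne']
    ring
  rw [hthr] at hfin
  refine hfin.trans ?_
  -- the four terms
  have g1 : (Y ^ (5 * (b : ℤ) + 6 * K + e0 + 11 - c) + 2 * N * P.Pr (Dd T)) / ρ ≤
      Y ^ (-(e0 : ℤ) - 2) + 16 * N / (r1 * (s2 - s) ^ 2) * P.Pr (Dd T) := by
    rw [add_div]
    refine add_le_add ?_ (le_of_eq ?_)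
    · rw [div_eq_mul_one_div]
      exact zp_mul_le hY le_rfl (by positivity) hρi (by omega)
    · rw [hρd]
      field_simp
      ring
  have h3 : ((Y : ℝ) ^ c)⁻¹ = Y ^ (-(c : ℤ)) := by rw [zpow_neg, zpow_natCast]
  have h4 : Real.sqrt (((Y : ℝ) ^ c)⁻¹) = Y ^ (-(c2 : ℤ)) := by
    rw [h3, hc2]
    have : (Y : ℝ) ^ (-((2 * c2 : ℕ) : ℤ)) = Y ^ (-(c2 : ℤ)) * Y ^ (-(c2 : ℤ)) := by
      rw [zp_mul hY]
      congr 1
      push_cast
      ring
    rw [this]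
    exact Real.sqrt_mul_self (zp_pos hY _).le
  have hnum : (2 : ℝ) ^ K * (((Y : ℝ) ^ c)⁻¹ * (2 ^ (K + 2) + 4 * (1 / c0))) + 2 ^ K * Real.sqrt (((Y : ℝ) ^ c)⁻¹) ≤
      Y ^ (2 * (K : ℤ) + b + 4 - c2) := by
    have h5 : (2 : ℝ) ^ (K + 2) + 4 * (1 / c0) ≤ Y ^ ((K : ℤ) + b + 3) := by
      refine zp_add hY (m := (K : ℤ) + b + 2) ?_ ?_ (by omega)
      · refine (zp_two_pow hY (K + 2)).trans (zp_mono hY (by push_cast; omega))
      · have h6 : (4 : ℝ) ≤ Y ^ (2 : ℤ) := by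
          have := zp_two_pow hY 2
          norm_num at this
          exact this
        exact zp_mul_le hY h6 (by positivity) hc0b (by omega)
    have h2K := zp_two_pow hY K
    have h6 : (2 : ℝ) ^ K * (((Y : ℝ) ^ c)⁻¹ * (2 ^ (K + 2) + 4 * (1 / c0))) ≤ Y ^ (2 * (K : ℤ) + b + 3 - c2) := by
      rw [h3]
      refine zp_mul_le hY h2K (by positivity) (k := (K : ℤ) + b + 3 - c2) (zp_mul_le hY le_rfl (by positivity) h5 (by omega))
        (by omega)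
    have h7 : (2 : ℝ) ^ K * Real.sqrt (((Y : ℝ) ^ c)⁻¹) ≤ Y ^ (2 * (K : ℤ) + b + 3 - c2) := by
      rw [h4]
      exact zp_mul_le hY h2K (zp_pos hY _).le le_rfl (by omega)
    exact zp_add hY h6 h7 (k := 2 * (K : ℤ) + b + 4 - c2) (by omega)
  have hhotle : ∀ J ∈ U.ssubsets, (1 + 1 / c0) *
      P.Pr (fun u => ∃ t ≤ T, pal P (knq x Q) hot J t u ∧ hot J t u) ≤ Y ^ (2 * (K : ℤ) + 2 * b + 6 - c2) := by
    intro J hJ
    have hJ' := Finset.mem_ssubsets.1 hJ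
    have h1 := hotG_le hn hK hX hM hc0 hR hAp hHf hsat (hsubU hJ') (p := Y ^ (-(c2 : ℤ)))
      (le_trans (P.Pr_mono (fun u _ => by
        rintro ⟨t, ht, h⟩
        exact ⟨t, ht, h.2⟩)) (hcold J hJ'))
    have h2 : (1 : ℝ) + 1 / c0 ≤ Y ^ ((b : ℤ) + 1) := zp_add hY (zp_one hY (by omega)) hc0b le_rfl
    refine zp_mul_le hY h2 (P.Pr_nonneg _) (k := 2 * (K : ℤ) + b + 5 - c2) (h1.trans ?_) (by omega)
    exact zp_add hY hnum (zp_mono hY (show -(c2 : ℤ) ≤ 2 * (K : ℤ) + b + 4 - c2 by omega)) (by omega)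
  have hss : ((U.ssubsets.card : ℕ) : ℝ) ≤ Y ^ (K : ℤ) := by
    refine le_trans ?_ (zp_two_pow hY K)
    have h1 : U.ssubsets.card ≤ 2 ^ K := by
      rw [← hK, ← Fintype.card_finset]
      exact Finset.card_le_univ _
    exact_mod_cast h1
  have g2 : ∑ J ∈ U.ssubsets, (1 + 1 / c0) *
      P.Pr (fun u => ∃ t ≤ T, pal P (knq x Q) hot J t u ∧ hot J t u) ≤ Y ^ (-(e0 : ℤ) - 2) :=
    sum_le_zp hY _ hss hhotle (by omega)
  have g2' : P.Pr (fun u => ∃ t ≤ T, pal P (knq x Q) hot U t u ∧ hot U t u) ≤ Y ^ (-(e0 : ℤ) - 2) := by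
    have h1 := hotG_le hn hK hX hM hc0 hR hAp hHf hsat hUu (p := 0) (le_of_eq (by
      unfold FP.Pr
      rw [P.E_congr (g := fun _ => 0) (fun u _ => ind_not (fun ⟨t, _, h⟩ => h.1.ne rfl)), P.E_const]))
    rw [add_zero] at h1
    exact h1.trans (hnum.trans (zp_mono hY (by omega)))
  have g3 : 3 * P.Pr (Dd T) / ρ' = 6 / r1 * P.Pr (Dd T) := by
    rw [hρ'd]
    field_simp
    ring
  have g4 := zp_two hY (-(e0 : ℤ) - 2)
  have g5 := zp_two hY (-(e0 : ℤ) - 2 + 1)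
  have g6 := zp_mono hY (show -(e0 : ℤ) - 2 + 1 + 1 ≤ -(e0 : ℤ) by omega)
  have g7 := zp_pos hY (-(e0 : ℤ) - 2)
  rw [add_mul]
  linarith

end num

end

end Pool.Agent.GMM.CSM
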