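import Pool.Agent.GMM.CSStep
import Pool.Agent.GMM.CMS
import Pool.Agent.GMM.CM5R

/-!
# GMM/CSRule: COLD_S from the model and the labels of the rule (plan CS, row CS2; helper24)

`U` = the exact set of known types (one type is missing: `U.card = k`, `card ι = k + 1`), the labels of index `I ⊇ U` are not used:
the view is `vmapU` = the labels of the `I` which do not contain `U`, the known vertices and the node.  Every number `z : Z` has
its own named process `X z` and its own events `e z` (so the introduction of a number costs nothing when `X z = 0` before).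
* `cutU`, `MM_cut_le` : dropping the labels `I ⊇ U` does not increase `M_r`, `r ≤ U.card`;
* `forget_inter`, `child_U` : the weights;
* `ProcU`, `ProcU.view` : the named processes; `piU` : the best admissible choice;
* **`cs_rule`** : the potential;  **`cs_final`** : from the potential to the density of `S'`, with the number `r t` of the truth.
-/

set_option autoImplicit false
set_option linter.unusedSectionVars false

namespace Pool.Agent.GMM.CSR

open Finset Pool.Agent.PWZ Pool.Agent.M3 Pool.Agent.M3.FP Pool.Agent.GMC Pool.Agent.GMM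

noncomputable section

variable {Om : Type*} [Fintype Om]

/-! ## labels without the index sets which contain `U` -/

section cut

variable {ι : Type*} [Fintype ι] [DecidableEq ι]

/-- the labels, those of index `I ⊇ U` replaced by a constant -/
def cutU (U : Finset ι) (L : Finset ι → Om → ℕ) (I : Finset ι) : Om → ℕ := if U ⊆ I then fun _ => 0 else L I

theorem cutU_of {U I : Finset ι} (h : U ⊆ I) (L : Finset ι → Om → ℕ) : cutU U L I = fun _ => 0 := by
  unfold cutU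
  rw [if_pos h]

theorem cutU_not {U I : Finset ι} (h : ¬ U ⊆ I) (L : Finset ι → Om → ℕ) : cutU U L I = L I := by
  unfold cutU
  rw [if_neg h]

theorem cutU_fac (U I : Finset ι) (L : Finset ι → Om → ℕ) : Fac (L I) (cutU U L I) := by
  by_cases h : U ⊆ I
  · rw [cutU_of h]
    exact Fac.const _ _
  · rw [cutU_not h]
    exact Fac.refl _

theorem lt_cut {U I : Finset ι} (h : ¬ U ⊆ I) (L : Finset ι → Om → ℕ) : lt (cutU U L) I = lt L I := by
  have h1 : ∀ G, G ⊂ I → cutU U L G = L G := fun G hG => cutU_not (fun h2 => h (h2.trans hG.1)) L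
  funext u
  have h2 : Fac (lt L I) (lt (cutU U L) I) := fac_sel (fun G hG => by rw [h1 G hG]; exact lt_fac L hG)
  unfold lt sel
  funext G
  by_cases hG : G ⊂ I
  · simp only [hG, if_true]
    rw [h1 G hG]
  · simp only [hG, if_false]

variable (P : FP Om) {ν : Type*}

theorem ip_self_right {κ κ' ι' : Type*} (X : Om → κ) {Y : Om → κ'} {Z : Om → ι'} (N : Om → ν)
    (h : Fac (fun u => (Z u, N u)) Y) (w : Om) : GMC.ip P X Y Z N w = 0 := by
  unfold GMC.ip
  rw [sub_eq_zero]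
  refine hp_congr P (Fac.fst _ _) ?_ (Fac.refl _) (Fac.fst _ _) ?_ (Fac.refl _) w
  · intro u v e
    simp only [Prod.mk.injEq] at e ⊢
    exact ⟨h u v (by simp only [Prod.mk.injEq]; exact e), e.1⟩
  · intro u v e
    simp only [Prod.mk.injEq] at e ⊢
    exact e.1.2

/-- dropping the labels `I ⊇ U` does not increase `M_r`, `r ≤ U.card` -/
theorem MM_cut_le (U : Finset ι) (L : Finset ι → Om → ℕ) (N : Om → ν) {r : ℕ} (hr : r ≤ U.card) {w : Om}
    (hw : P.p w ≠ 0) : MM P (cutU U L) N r w ≤ MM P L N r w := by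
  have h1 := MM_op_ge P (L := cutU U L) (L' := L) (N := N) (fun I => (Fac.fst _ _).trans (cutU_fac U I L)) r hw
  have h2 : ∑ I ∈ sz ι r, cO P (cutU U L) L N I w = 0 := by
    refine Finset.sum_eq_zero fun I hI => ?_
    unfold cO
    rw [ip_comm P _ _ _ N hw]
    refine ip_self_right P _ N ?_ w
    refine (Fac.fst _ _).trans (Lf_of L fun J hJ => ?_)
    have h3 : ¬ U ⊆ J := fun h => by
      have h4 := Finset.card_le_card h
      have h5 := Finset.card_lt_card (Finset.mem_ssubsets.1 hJ)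
      rw [mem_sz.1 hI] at h5
      omega
    have h6 := Lf_one (cutU U L) hJ
    rw [cutU_not h3] at h6
    exact h6
  linarith

end cut

/-! ## the weights -/

section weights

variable {ι : Type*} [Fintype ι] [DecidableEq ι] {χ α : Type*} {κ δ ε : ℕ → Type*} {P : FP Om} {a : Om → α}
  {x : ι → Om → χ} {Q : ∀ t, Om → κ t} {D : ∀ t, Om → δ t} {E : ∀ t, Finset ι → Om → ε t} {c0 : ℝ}

/-- forget the vertices of `G` outside of `J` -/
theorem forget_inter (h : MdlI P a x Q D E c0) {J G : Finset ι} {t : ℕ} {f : Om → ℝ} (hf : Fac (knq x Q J t) f) {w : Om}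
    (hw : P.p w ≠ 0) : P.ce (knq x Q G t) f w = P.ce (knq x Q (J ∩ G) t) f w := by
  have hci := CI_cond (h.full t J (G \ J) Finset.disjoint_sdiff) (S := xr x (J ∩ G)) (fun u v e => by
    simp only [Prod.mk.injEq] at e
    exact xr_mono x Finset.inter_subset_left u v e.1.2)
  have hff : Fac (fun u => ((a u, xr x J u), (xr x (J ∩ G) u, Q t u))) f := by
    intro u v e
    simp only [Prod.mk.injEq] at e
    exact hf u v (by simp only [knq, Prod.mk.injEq]; exact ⟨e.1.2, e.2.2⟩)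
  have e1 := ce_forget0 hci hff hw
  have e2 : P.ce (knq x Q G t) f w = P.ce (fun u => (xr x (G \ J) u, (xr x (J ∩ G) u, Q t u))) f w := by
    refine P.ce_congr_map ?_ ?_ f w
    · intro u v e
      simp only [knq, Prod.mk.injEq] at e ⊢
      exact ⟨xr_mono x Finset.sdiff_subset u v e.1, xr_mono x Finset.inter_subset_right u v e.1, e.2⟩
    · intro u v e
      simp only [knq, Prod.mk.injEq] at e ⊢
      have h6 := xr_union (x := x) e.1 e.2.1
      have h7 : G \ J ∪ J ∩ G = G := by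
        ext i
        simp only [mem_union, mem_sdiff, mem_inter]
        tauto
      rw [h7] at h6
      exact ⟨h6, e.2.2⟩
  rw [e2, e1]
  rfl

/-- the weight of a function of `(a, x_I, Q_(t+1))` against a function of `(x_U, Q_t)` -/
theorem child_U (hc0 : 0 < c0) (hM : MdlI P a x Q D E c0) {U I : Finset ι} {t : ℕ} {w : Om} (hw : P.p w ≠ 0)
    (hat : c0 ≤ P.ce (fun u => (a u, xr x I u, Q t u)) (fun v => ind (Q (t + 1) v = Q (t + 1) w)) w)
    {f : Om → ℝ} (hf0 : ∀ w, 0 ≤ f w) (hf : Fac (knq x Q U t) f) :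
    P.ce (fun u => (a u, xr x I u, Q (t + 1) u)) f w ≤ 1 / c0 * P.ce (knq x Q (U ∩ I) t) f w := by
  have h1 := child_a hc0 hM.filt (I := I) hw hat (hM.mdl.ind t I (univ \ I) Finset.disjoint_sdiff) hf0
    (((hM.frame hc0).mono U univ t (Finset.subset_univ _)).trans hf)
  rw [forget_inter hM hf hw] at h1
  exact h1

end weights

/-! ## the named processes -/

section proc

variable {ι : Type*} [Fintype ι] [DecidableEq ι] {χ α : Type*} {κ ε φ : ℕ → Type*} {P : FP Om} {a : Om → α}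
  {x : ι → Om → χ} {Q : ∀ t, Om → κ t} {D : ℕ → Om → ℝ}
  {E : ∀ t, Finset ι → Om → ε t} {f : ∀ t, Finset ι → Om → φ t} {c0 : ℝ} {Z : Type*}

/-- the named processes of the numbers: values `X z`, increments `g z`, events `e z`, dead points `Dd`.  `X z t`, `g z t` are
functions of the names of the index sets which do not contain `U`, of the known vertices and of the node. -/
structure ProcU (P : FP Om) (x : ι → Om → χ) (Q : ∀ t, Om → κ t) (D : ℕ → Om → ℝ) (f : ∀ t, Finset ι → Om → φ t)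
    (U : Finset ι) (X g : Z → ℕ → Om → ℝ) (e : Z → ℕ → Om → Prop) (Dd : ℕ → Om → Prop) (s N : ℝ) (T : ℕ) : Prop where
  X_fac : ∀ z t, Fac (fun u => (sel (fun I => ¬ U ⊆ I) (f t) u, xr x univ u, Q t u)) (X z t)
  g_fac : ∀ z t, Fac (fun u => (sel (fun I => ¬ U ⊆ I) (f t) u, xr x univ u, Q t u)) (g z t)
  digit : ∀ t w, P.p w ≠ 0 → D t w = 1 ∨ D t w = -1
  fair : ∀ t < T, ∀ w, P.p w ≠ 0 → P.ce (fun u => (xr x univ u, Q t u)) (D t) w = 0
  step : ∀ z t w, P.p w ≠ 0 → ¬ e z (t + 1) w → X z (t + 1) w = X z t w + D t w * g z t w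
  bd : ∀ z t w, P.p w ≠ 0 → Phi s (X z t w) ≤ N
  bd' : ∀ z t w, P.p w ≠ 0 → Phi s (X z t w + D t w * g z t w) ≤ N
  dead : ∀ t w, P.p w ≠ 0 → Dd t w → Dd (t + 1) w

/-- the view map: the labels of the index sets which do not contain `U`, known vertices, node -/
def vmapU (x : ι → Om → χ) (Q : ∀ t, Om → κ t) (U : Finset ι) (L : ℕ → Finset ι → Om → ℕ) (t : ℕ) (u : Om) :
    (Finset ι → Option ℕ) × (ι → Option χ) × κ t := (sel (fun I => ¬ U ⊆ I) (L t) u, xr x univ u, Q t u)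

variable {Av w aa : ℕ → ℝ} {h : ℝ} {T : ℕ} {L : ℕ → Finset ι → Om → ℕ} {fat : ℕ → Finset ι → Om → Prop}
  {U : Finset ι} {X g : Z → ℕ → Om → ℝ} {e : Z → ℕ → Om → Prop} {Dd : ℕ → Om → Prop} {s N : ℝ}

theorem vmapU_filt (hR : RuleOut P a x Q D f Av w aa h T L fat) (hQ : Filt Q) (U : Finset ι) : Filt (vmapU x Q U L) := by
  intro t u v e
  simp only [vmapU, Prod.mk.injEq] at e ⊢
  exact ⟨sel_eq.2 (fun I hI => hR.mono t I u v (sel_eq.1 e.1 I hI)), e.2.1, hQ t u v e.2.2⟩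

theorem vmapU_name (hR : RuleOut P a x Q D f Av w aa h T L fat) (U : Finset ι) (t : ℕ) :
    Fac (vmapU x Q U L t) (fun u => (sel (fun I => ¬ U ⊆ I) (f t) u, xr x univ u, Q t u)) := by
  intro u v e
  simp only [vmapU, Prod.mk.injEq] at e ⊢
  exact ⟨sel_eq.2 (fun I hI => hR.name t I u v (sel_eq.1 e.1 I hI)), e.2.1, e.2.2⟩

theorem ProcU.view {T' : ℕ} (hp : ProcU P x Q D f U X g e Dd s N T') (hR : RuleOut P a x Q D f Av w aa h T L fat)
    (hQ : Filt Q) (z : Z) :
    P.ViewHyp (vmapU x Q U L) (X z) (g z) D (e z) (P.Al (vmapU x Q U L) Dd (1 / 2)) s N where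
  filt := vmapU_filt hR hQ U
  X_fac := fun t => (vmapU_name hR U t).trans (hp.X_fac z t)
  g_fac := fun t => (vmapU_name hR U t).trans (hp.g_fac z t)
  a_fac := fun _ _ _ h => P.al_iff (vmapU_filt hR hQ U) h
  a_anti := fun t _ _ h => P.al_anti (Nat.le_succ t) h
  digit := hp.digit
  step := hp.step z
  bd := hp.bd z
  bd' := hp.bd' z

/-- the best admissible choice at exact `x_U` -/
def piU (P : FP Om) (x : ι → Om → χ) (Q : ∀ t, Om → κ t) (U : Finset ι) (L : ℕ → Finset ι → Om → ℕ)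
    (AD : ℕ → (Om → Z) → Prop) (X : Z → ℕ → Om → ℝ) (Dd : ℕ → Om → Prop) (s : ℝ) (t : ℕ) (u : Om) : ℝ :=
  csup P (knq x Q U t) (AD t) (fun z v => ind (P.Al (vmapU x Q U L) Dd (1 / 2) t v) * Phi s (X z t v)) u

/-- THEOREM CS (COLD_S, the potential) for the labels of the rule -/
theorem cs_rule [Finite Z] (hM : MdlI P a x Q D E c0) (hc0 : 0 < c0)
    (hat : ∀ t I u, P.p u ≠ 0 → c0 ≤ P.ce (fun u => (a u, xr x I u, Q t u)) (fun v => ind (Q (t + 1) v = Q (t + 1) u)) u)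
    (hR : RuleOut P a x Q D f Av w aa h T L fat) (hp : ProcU P x Q D f U X g e Dd s N T) (hs : 0 ≤ s)
    {hot : Finset ι → ℕ → Om → Prop} (hhot : ∀ J t v u, knq x Q J t v = knq x Q J t u → (hot J t v ↔ hot J t u))
    {k : ℕ} (hk : Fintype.card ι = k + 1) (hU0 : ∅ ⊂ U) (hUk : U.card = k)
    {AD : ℕ → (Om → Z) → Prop} (hC : Choice (knq x Q U) (vmapU x Q U L) AD)
    {S : Z → ℕ → Om → Prop} (hXS : ∀ z t u, P.p u ≠ 0 → s < |X z t u| → ¬ Dd t u → S z t u)
    (cc : Finset ι → ℕ → Om → ℝ)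
    (hcc : ∀ I, ∀ t < T, Fac (fun u => (a u, xr x I u, Q (t + 1) u)) (cc I (t + 1)))
    (hcc0 : ∀ I t u, P.p u ≠ 0 → 0 ≤ cc I t u)
    (he : ∀ z, ∀ t < T, ∀ u, P.p u ≠ 0 → s < |X z t u| → P.Al (vmapU x Q U L) Dd (1 / 2) (t + 1) u →
      ind (e z (t + 1) u) ≤ ∑ I ∈ CMS.IS U, cc I (t + 1) u)
    {Jn : Finset ι → ℝ} (hJn : ∀ I, ¬ U ⊆ I → ∑ t ∈ range T, P.E (cc I (t + 1)) ≤ Jn I)
    {σ : Finset ι → ℝ} {y : ℕ → Finset ι → ℝ} (hσ : ∀ J, 0 ≤ σ J) (hy : ∀ r J, 0 ≤ y r J)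
    (hS : ∀ J, J ⊂ U → ∀ t ≤ T, ∀ u, P.p u ≠ 0 → ¬ hot J t u → pal P (knq x Q) hot J t u → ∀ z, AD t z →
      P.ce (knq x Q J t) (fun v => ind (S (z v) t v)) u ≤ σ J)
    (hMM : ∀ r < k, ∀ J, J ⊂ U → ∀ t ≤ T, ∀ u, P.p u ≠ 0 → ¬ hot J t u → pal P (knq x Q) hot J t u →
      P.ce (knq x Q J t) (MM P (L t) (knq x Q univ t) (r + 1)) u ≤ y (r + 1) J)
    {ρ : ℝ} (hρ : 0 < ρ) :
    ρ * P.Pr (fun u => ∃ t ≤ T, pal P (knq x Q) hot U t u ∧ 2 * ρ ≤ piU P x Q U L AD X Dd s t u) ≤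
      (2 * N * σ ∅ + ((k : ℝ) + 1) * ∑ r : Fin k, 2 * N * y (r + 1) ∅) +
      ∑ J ∈ U.ssubsets, (2 * N * σ J + ((k : ℝ) + 1) * ∑ r : Fin k, 2 * N * y (r + 1) J) +
      2 * N * P.Pr (Dd T) +
      1 / c0 * (((k : ℝ) + 1) / ρ) * ∑ I ∈ CMS.IS U, 2 * N * σ (U ∩ I) *
        (2 * N * (h + h * w k / w I.card) + N * Jn I) +
      1 / c0 * (((k : ℝ) + 1) ^ 2 / ρ) * ∑ r : Fin k, ∑ I ∈ CMS.ISz U (r + 1), 2 * N * y (r + 1) (U ∩ I) *
        (2 * N * (h + h * w k / w I.card)) := by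
  have hmdl := hM.mdl
  have hF := hM.frame hc0
  have hCc : (0 : ℝ) ≤ 1 / c0 := by positivity
  obtain ⟨z00, _⟩ := hC.ne
  obtain ⟨w0, hw0⟩ := P.exists_p_ne
  have hN0 : 0 ≤ N := (Phi_nonneg _ _).trans (hp.bd (z00 w0) 0 w0 hw0)
  have hne : ∀ I ∈ CMS.IS U, I ≠ univ := fun I hI => (CMS.mem_IS.1 hI).1.ne
  have hnU : ∀ I ∈ CMS.IS U, ¬ U ⊆ I := fun I hI => (CMS.mem_IS.1 hI).2
  have hLc : ∀ t I, Fac (fun u => (a u, xr x I u, Q t u)) (cutU U (L t) I) := fun t I =>
    (hR.fac t I).trans (cutU_fac U I (L t))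
  have key := CMS.cms_sup (P := P) (Kn := knq x Q) (hot := hot) hF hCc hhot hk hU0 T hs
    (fun z => hp.view hR hM.filt z)
    (fun t u v e => by
      simp only [vmapU, knq, Prod.mk.injEq] at e ⊢
      exact e.2)
    (L := fun t => cutU U (L t)) (fun t I hI u v => by simp only [cutU_of hI])
    (fun t u v e => by
      simp only [vmapU, knq, Prod.mk.injEq] at e ⊢
      refine ⟨sel_eq.2 (fun I hI => ?_), e.2.1, e.2.2⟩
      have hI' : I ∈ szlt ι (k + 1) := by
        rw [mem_szlt, ← hk]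
        exact card_lt_of_prp (fun h => hI (h ▸ Finset.subset_univ U))
      have h1 := Lf_one (cutU U (L t)) hI'
      rw [cutU_not hI] at h1
      exact h1 u v e.1)
    (fun t u v e => hM.dQ t u v (by simp only [knq, Prod.mk.injEq] at e; exact e.2))
    (fun t ht u hu => hp.fair t ht u hu)
    (fun t I u v e => by
      simp only [Prod.mk.injEq] at e
      by_cases hI : U ⊆ I
      · simp only [cutU_of hI]
      · have e1 := e.1
        simp only [cutU_not hI] at e1 ⊢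
        exact hR.mono t I u v e1)
    hp.dead (Ch := fun t => {z | AD t z})
    ⟨fun t => hC.ne' t, fun t c hc => hC.fac t c hc, fun t c hc => hC.next t c hc, fun t d hd hdd => hC.glue t d hd hdd⟩
    (fun I t => ip P (L t I) (D t) (lt (L t) I) (fun v => (xr x I v, Q t v)))
    (fun I t => ip P (L (t - 1) I) (lt (L t) I) (lt (L (t - 1)) I) (fun v => (xr x I v, Q t v)))
    cc (fun I t => fun u => (a u, xr x I u, Q t u))
    (fun I t _ => ip_fac P _ _ _ _) (fun I t _ => ip_fac P _ _ _ _) hcc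
    (fun I t u hu => ip_nonneg P _ _ _ _ hu) (fun I t u hu => ip_nonneg P _ _ _ _ hu) hcc0
    (fun I hI t ht u hu => by
      have h1 := cI_le hmdl (hLc t) I hu
      rw [lt_cut (hnU I hI), cutU_not (hnU I hI)] at h1
      exact h1)
    (fun I hI t ht u hu => by
      have h1 := cO_le hmdl (hLc t) (hLc (t + 1)) I hu
      rw [lt_cut (hnU I hI), lt_cut (hnU I hI), cutU_not (hnU I hI)] at h1
      exact le_of_eq h1)
    (fun I t ht h hh0 hh u hu => child_U hc0 hM hu (hat t I u hu) hh0 hh)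
    (fun t ht z u hu h1 h2 => he z t ht u hu h1 h2) hσ hy
    (fun t ht z hz J hJ u hu h1 h2 => (P.ce_mono (fun v hv => ind_mono (fun h3 => hXS (z v) t v hv h3.1 h3.2)) u).trans
      (hS J hJ t ht u hu h1 h2 z hz))
    (fun r hr J hJ t ht u hu h1 h2 =>
      (P.ce_mono (fun v hv => MM_cut_le P U (L t) (knq x Q univ t) (by omega) hv) u).trans (hMM r hr J hJ t ht u hu h1 h2))
    hρ
  -- budgets
  have hbud : ∀ I, I ≠ univ → ∑ t ∈ range T, (P.E (ip P (L t I) (D t) (lt (L t) I) (fun v => (xr x I v, Q t v))) +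
      P.E (ip P (L (t + 1 - 1) I) (lt (L (t + 1)) I) (lt (L (t + 1 - 1)) I) (fun v => (xr x I v, Q (t + 1) v)))) ≤
      h + h * w k / w I.card := by
    intro I hI
    have h1 := hR.sum_cG hI
    rw [hk, Nat.add_sub_cancel] at h1
    refine le_trans (le_of_eq (Finset.sum_congr rfl fun t _ => ?_)) h1
    rw [← P.E_add]
    refine P.E_congr (fun u _ => ?_)
    unfold cG
    rw [Nat.add_sub_cancel, add_comm]
  have hsum0 : ∑ I ∈ CMS.IS U, 2 * N * σ (U ∩ I) *
        (2 * N * ∑ t ∈ range T, (P.E (ip P (L t I) (D t) (lt (L t) I) (fun v => (xr x I v, Q t v))) +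
      P.E (ip P (L (t + 1 - 1) I) (lt (L (t + 1)) I) (lt (L (t + 1 - 1)) I) (fun v => (xr x I v, Q (t + 1) v)))) +
        N * ∑ t ∈ range T, P.E (cc I (t + 1))) ≤
      ∑ I ∈ CMS.IS U, 2 * N * σ (U ∩ I) * (2 * N * (h + h * w k / w I.card) + N * Jn I) := by
    refine Finset.sum_le_sum fun I hI => mul_le_mul_of_nonneg_left ?_ (mul_nonneg (by positivity) (hσ _))
    exact add_le_add (mul_le_mul_of_nonneg_left (hbud I (hne I hI)) (by positivity))
      (mul_le_mul_of_nonneg_left (hJn I (hnU I hI)) hN0)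
  have hsum1 : ∑ r : Fin k, ∑ I ∈ CMS.ISz U (r + 1), 2 * N * y (r + 1) (U ∩ I) *
        (2 * N * ∑ t ∈ range T, (P.E (ip P (L t I) (D t) (lt (L t) I) (fun v => (xr x I v, Q t v))) +
      P.E (ip P (L (t + 1 - 1) I) (lt (L (t + 1)) I) (lt (L (t + 1 - 1)) I) (fun v => (xr x I v, Q (t + 1) v))))) ≤
      ∑ r : Fin k, ∑ I ∈ CMS.ISz U (r + 1), 2 * N * y (r + 1) (U ∩ I) * (2 * N * (h + h * w k / w I.card)) := by
    refine Finset.sum_le_sum fun r _ => Finset.sum_le_sum fun I hI =>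
      mul_le_mul_of_nonneg_left ?_ (mul_nonneg (by positivity) (hy _ _))
    refine mul_le_mul_of_nonneg_left (hbud I ?_) (by positivity)
    intro hI'
    rw [CMS.mem_ISz, hI', Finset.card_univ, hk] at hI
    have := r.2
    omega
  have hc1 : 0 ≤ 1 / c0 * (((k : ℝ) + 1) / ρ) := by positivity
  have hc2 : 0 ≤ 1 / c0 * (((k : ℝ) + 1) ^ 2 / ρ) := by positivity
  have h1 := mul_le_mul_of_nonneg_left hsum0 hc1
  have h2 := mul_le_mul_of_nonneg_left hsum1 hc2
  have h3 : ρ * P.Pr (fun u => ∃ t ≤ T, pal P (knq x Q) hot U t u ∧ 2 * ρ ≤ piU P x Q U L AD X Dd s t u) ≤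
      ρ * P.Pr (fun w => ∃ t ≤ T, pal P (knq x Q) hot U t w ∧ ∃ c ∈ {z | AD t z},
        2 * ρ ≤ P.ce (knq x Q U t) (fun v => ind (P.Al (vmapU x Q U L) Dd (1 / 2) t v) * Phi s (X (c v) t v)) w) := by
    refine mul_le_mul_of_nonneg_left (P.Pr_mono (fun u _ => ?_)) hρ.le
    rintro ⟨t, ht, hpal, h⟩
    obtain ⟨z, hz, h4⟩ := csup_att (P := P) (K := knq x Q U t) (AD := AD t)
      (fun z v => ind (P.Al (vmapU x Q U L) Dd (1 / 2) t v) * Phi s (X z t v)) (hC.ne' t) u
    refine ⟨t, ht, hpal, z, hz, ?_⟩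
    unfold piU at h
    rw [h4] at h
    exact h
  refine (h3.trans key).trans ?_
  linarith

/-- from the potential to the density of `S'` (the truth has the number `r t`), the deaths of all parts of `U` included -/
theorem cs_final [Finite Z] (hM : MdlI P a x Q D E c0) (hc0 : 0 < c0)
    (hR : RuleOut P a x Q D f Av w aa h T L fat) (hp : ProcU P x Q D f U X g e Dd s N T)
    {hot : Finset ι → ℕ → Om → Prop} (hhot : ∀ J t v u, knq x Q J t v = knq x Q J t u → (hot J t v ↔ hot J t u))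
    (hT : ∀ J u, ¬ hot J (T + 1) u) {AD : ℕ → (Om → Z) → Prop} {r : ℕ → Om → Z}
    {S' : ℕ → Om → Prop} {s2 : ℝ} (hs2 : s < s2)
    (hSX : ∀ t u, P.p u ≠ 0 → S' t u → ¬ Dd t u → s2 ≤ |X (r t u) t u|) {ρ ρ' B kap : ℝ} (hρ : 0 < ρ) (hρ' : 0 < ρ')
    (hstat : ∀ t ≤ T, ∀ u, P.p u ≠ 0 → ¬ hot U t u →
      P.ce (knq x Q U t) (fun v => ind (P.Al (vmapU x Q U L) Dd (1 / 2) t v) * Phi s (X (r t v) t v)) u ≤
        piU P x Q U L AD X Dd s t u + kap)
    (hB : ρ * P.Pr (fun u => ∃ t ≤ T, pal P (knq x Q) hot U t u ∧ 2 * ρ ≤ piU P x Q U L AD X Dd s t u) ≤ B) :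
    P.Pr (fun u => ∃ t ≤ T, (2 * ρ + kap) / (s2 - s) ^ 2 + ρ' ≤ P.ce (knq x Q U t) (fun v => ind (S' t v)) u) ≤
      B / ρ + ∑ J ∈ U.powerset, (1 + 1 / c0) *
        P.Pr (fun u => ∃ t ≤ T, pal P (knq x Q) hot J t u ∧ hot J t u) + 3 * P.Pr (Dd T) / ρ' := by
  have hF := hM.frame hc0
  have h1 := P.hot_T' (Y := knq x Q U) (V := fun t w => ind (P.Al (vmapU x Q U L) Dd (1 / 2) t w) * Phi s (X (r t w) t w))
    (hF.filt U) (fun t w _ => mul_nonneg (ind_nonneg _) (Phi_nonneg _ _))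
    (D := fun t w => Dd t w ∨ ¬ P.Al (vmapU x Q U L) Dd (1 / 2) t w) (S := S')
    (fun t w hw h => P.al_dead_inc hp.dead t w hw h) (s := (s2 - s) ^ 2) (pow_pos (sub_pos.mpr hs2) 2)
    (fun t w hw hS hn => by
      push Not at hn
      rw [ind_of hn.2, one_mul]
      exact le_Phi2 hs2.le (hSX t w hw hS hn.1)) T (ρ := ρ + kap / 2) hρ'
  have e1 : 2 * (ρ + kap / 2) = 2 * ρ + kap := by ring
  rw [e1] at h1
  have h2 := P.al_dead_or (c := 1 / 2) (vmapU_filt hR hM.filt U) hp.dead T (by norm_num)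
  have h3 : (1 + 1 / (1 / 2 : ℝ)) = 3 := by norm_num
  rw [h3] at h2
  have h4 := div_le_div_of_nonneg_right h2 hρ'.le
  have h5 : P.Pr (fun u => ∃ t ≤ T, 2 * ρ + kap ≤ P.pi (knq x Q U)
      (fun t w => ind (P.Al (vmapU x Q U L) Dd (1 / 2) t w) * Phi s (X (r t w) t w)) t u) ≤
      P.Pr (fun u => (∃ t ≤ T, pal P (knq x Q) hot U t u ∧ 2 * ρ ≤ piU P x Q U L AD X Dd s t u) ∨
        ¬ al P (knq x Q) hot U T u) := by
    refine P.Pr_mono (fun u hu => ?_)
    rintro ⟨t, ht, hh⟩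
    by_cases hal : al P (knq x Q) hot U T u
    · have hal' := al_anti' U ht hal
      refine Or.inl ⟨t, ht, al_pal hal', ?_⟩
      have h6 := hstat t ht u hu (al_not_hot hal')
      have h7 : 2 * ρ + kap ≤ P.ce (knq x Q U t) (fun v => ind (P.Al (vmapU x Q U L) Dd (1 / 2) t v) *
        Phi s (X (r t v) t v)) u := hh
      linarith
    · exact Or.inr hal
  have h6 := h5.trans (P.Pr_or_le _ _)
  have h7 := Pr_dead hF hhot hc0 U T hT
  have h8 : P.Pr (fun u => ∃ t ≤ T, pal P (knq x Q) hot U t u ∧ 2 * ρ ≤ piU P x Q U L AD X Dd s t u) ≤ B / ρ := by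
    rw [le_div_iff₀ hρ, mul_comm]
    exact hB
  linarith

end proc

end

end Pool.Agent.GMM.CSR
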