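import Pool.Agent.GMM.CSStep

/-!
# GMM/CSSlot: admissible choices given by slots (helper28)

A choice has one coordinate for every slot `j`; the coordinate `j` is a function of `G j t`.
* `slotAD G t` : the admissible choices; `slot_choice` : `Choice K A (slotAD G)`;
* two slots with different values: `pairAD G1 G2 t` : `z = (z.1, z.2)`, `z.1` a function of `G1 t`, `z.2` of `G2 t`;
  `pair_choice`; `pair_le_csup` : values `V` of a pair of choices are at most `csup`.
-/

set_option autoImplicit false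
set_option linter.unusedSectionVars false

namespace Pool.Agent.GMM

open Finset Pool.Agent.PWZ Pool.Agent.M3 Pool.Agent.M3.FP Pool.Agent.GMC

noncomputable section

variable {Om : Type*} [Fintype Om] {κ ι : ℕ → Type*} {K : ∀ t, Om → κ t} {A : ∀ t, Om → ι t}

section slots

variable {Sl V : Type*} {γ : Sl → ℕ → Type*} (G : ∀ j t, Om → γ j t)

/-- the coordinate `j` is a function of `G j t` -/
def slotAD (t : ℕ) (z : Om → Sl → V) : Prop := ∀ j, Fac (G j t) (fun w => z w j)

theorem slot_choice [Nonempty V] (hnext : ∀ j t, Fac (G j (t + 1)) (G j t)) (hA : ∀ j t, Fac (A t) (G j t))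
    (hK : ∀ j t, Fac (G j t) (K t)) : Choice K A (slotAD (V := V) G) where
  ne := ⟨fun _ _ => Classical.arbitrary V, fun j => Fac.const _ _⟩
  next := fun t z hz j => (hnext j t).trans (hz j)
  fac := fun t z hz u v h => by
    funext j
    exact hz j u v (hA j t u v h)
  glue := fun t zz h1 h2 j u v h => by
    have h3 := h2 u v (hK j t u v h)
    have h4 := h1 v j u v h
    show zz u u j = zz v v j
    rw [h3]
    exact h4

end slots

section pair

variable {V1 V2 : Type*} {γ1 γ2 : ℕ → Type*} (G1 : ∀ t, Om → γ1 t) (G2 : ∀ t, Om → γ2 t)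

/-- two slots -/
def pairAD (t : ℕ) (z : Om → V1 × V2) : Prop := Fac (G1 t) (fun w => (z w).1) ∧ Fac (G2 t) (fun w => (z w).2)

theorem pair_choice [Nonempty V1] [Nonempty V2] (h1 : ∀ t, Fac (G1 (t + 1)) (G1 t)) (h2 : ∀ t, Fac (G2 (t + 1)) (G2 t))
    (hA1 : ∀ t, Fac (A t) (G1 t)) (hA2 : ∀ t, Fac (A t) (G2 t)) (hK1 : ∀ t, Fac (G1 t) (K t))
    (hK2 : ∀ t, Fac (G2 t) (K t)) : Choice K A (pairAD (V1 := V1) (V2 := V2) G1 G2) where
  ne := ⟨fun _ => (Classical.arbitrary V1, Classical.arbitrary V2), Fac.const _ _, Fac.const _ _⟩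
  next := fun t z hz => ⟨(h1 t).trans hz.1, (h2 t).trans hz.2⟩
  fac := fun t z hz u v h => Prod.ext (hz.1 u v (hA1 t u v h)) (hz.2 u v (hA2 t u v h))
  glue := fun t zz g1 g2 => by
    constructor
    · intro u v h
      have h3 := g2 u v (hK1 t u v h)
      have h4 := (g1 v).1 u v h
      show (zz u u).1 = (zz v v).1
      rw [h3]
      exact h4
    · intro u v h
      have h3 := g2 u v (hK2 t u v h)
      have h4 := (g1 v).2 u v h
      show (zz u u).2 = (zz v v).2
      rw [h3]
      exact h4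

variable {P : FP Om} {G1 G2}

theorem pair_le_csup [Finite V1] [Finite V2] {t : ℕ} (V : V1 × V2 → Om → ℝ) {z1 : Om → V1} {z2 : Om → V2}
    (h1 : Fac (G1 t) z1) (h2 : Fac (G2 t) z2) (w : Om) :
    P.ce (K t) (fun v => V (z1 v, z2 v) v) w ≤ csup P (K t) (pairAD (V1 := V1) (V2 := V2) G1 G2 t) V w :=
  le_csup (P := P) (K := K t) (AD := pairAD (V1 := V1) (V2 := V2) G1 G2 t) V (z := fun v => (z1 v, z2 v)) ⟨h1, h2⟩ w

end pair

end

end Pool.Agent.GMM
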