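import Pool.Agent.M3.HKey

/-!
# GMM/SupPhi (helper28): the record of index `S` is replaced by a function of the lower labels (note 3961 (5))

Given `Z` (the exact known vertices and the node), `E` = the averaged vertex, `R` = the record (list entries of index `S`,
a function of the hidden vertex), `lam` = the labels without `E`, `mu` = the labels with `E`.
If, given `Z`, the labels `mu` have the kernel `k (E, lam)` up to `δ`, whatever the record is, and `E` is independent of
the side of `R`, `lam`, then the record may be replaced by the best function `φ` of `lam`: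

* `sup_phi` : `E [F (E, R, lam, mu) | Z] ≤ E [F (E, φ lam, lam, mu) | Z] + 2 δ` for some `φ`, every `0 ≤ F ≤ 1`.
* `kernel_of_tv` : the hypothesis from a mean distance in the sense of total variation.
-/

set_option autoImplicit false
set_option linter.unusedSectionVars false

namespace Pool.Agent.GMM

open Finset Pool.Agent.PWZ Pool.Agent.M3

noncomputable section

variable {Om : Type*} [Fintype Om] {P : FP Om} {ζ ε ρ lt' μ : Type*} {Z : Om → ζ} {E : Om → ε} {R : Om → ρ}
  {lam : Om → lt'} {mu : Om → μ}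

/-- freezing one of two conditionally independent variables -/
theorem ce_freeze_CI {κ ι : Type*} {Z : Om → ζ} {A : Om → κ} {B : Om → ι} (h : P.CI Z A B) (G : κ → ι → ℝ) {w : Om}
    (hw : P.p w ≠ 0) :
    P.ce Z (fun v => G (A v) (B v)) w = P.ce Z (fun v => P.ce Z (fun u => G (A u) (B v)) w) w := by
  classical
  -- sum over the values of `B`
  set S : Finset ι := univ.image B with hS
  have h1 : ∀ v, G (A v) (B v) = ∑ b ∈ S, G (A v) b * ind (B v = b) := by
    intro v
    rw [Finset.sum_eq_single (B v)]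
    · rw [ind_of rfl, mul_one]
    · intro b _ hb
      rw [ind_not (fun h => hb h.symm), mul_zero]
    · intro h
      exact absurd (mem_image_of_mem B (mem_univ v)) h
  have h2 : ∀ v, P.ce Z (fun u => G (A u) (B v)) w = ∑ b ∈ S, P.ce Z (fun u => G (A u) b) w * ind (B v = b) := by
    intro v
    rw [Finset.sum_eq_single (B v)]
    · rw [ind_of rfl, mul_one]
    · intro b _ hb
      rw [ind_not (fun h => hb h.symm), mul_zero]
    · intro h
      exact absurd (mem_image_of_mem B (mem_univ v)) h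
  simp only [h1, h2]
  rw [P.ce_sum, P.ce_sum]
  refine Finset.sum_congr rfl fun b _ => ?_
  rw [h (fun v => G (A v) b) (fun v => ind (B v = b)) (fun u v e => congrArg (fun x => G x b) e)
    (Fac.ind fun u v e => by rw [e]) w hw]
  exact (P.ce_smul Z _ _ w).symm

/-- **the record may be chosen as a function of the lower labels** -/
theorem sup_phi [Fintype μ] [Fintype ρ] [Nonempty ρ] (hCI : P.CI Z E (fun v => (R v, lam v)))
    {F : ε → ρ → lt' → μ → ℝ} {k : ε → lt' → μ → ℝ} {δ : ℝ} {w : Om} (hw : P.p w ≠ 0)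
    (hδ : ∀ g : ε → ρ → lt' → μ → ℝ, (∀ e r l m, 0 ≤ g e r l m) → (∀ e r l m, g e r l m ≤ 1) →
      |P.ce Z (fun v => g (E v) (R v) (lam v) (mu v)) w -
        P.ce Z (fun v => ∑ m, k (E v) (lam v) m * g (E v) (R v) (lam v) m) w| ≤ δ)
    (hF0 : ∀ e r l m, 0 ≤ F e r l m) (hF1 : ∀ e r l m, F e r l m ≤ 1) :
    ∃ φ : lt' → ρ, P.ce Z (fun v => F (E v) (R v) (lam v) (mu v)) w ≤
      P.ce Z (fun v => F (E v) (φ (lam v)) (lam v) (mu v)) w + 2 * δ := by
  classical
  -- the mean over `E` and the kernel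
  set G : ρ → lt' → ℝ := fun r l => P.ce Z (fun u => ∑ m, k (E u) l m * F (E u) r l m) w with hG
  have hmax : ∀ l, ∃ r, ∀ r', G r' l ≤ G r l := fun l => by
    obtain ⟨r, _, hr⟩ := Finset.exists_max_image (univ : Finset ρ) (fun r => G r l) ⟨Classical.arbitrary ρ, mem_univ _⟩
    exact ⟨r, fun r' => hr r' (mem_univ r')⟩
  choose φ hφ using hmax
  refine ⟨φ, ?_⟩
  have h1 := hδ F hF0 hF1
  have h2 := hδ (fun e _ l m => F e (φ l) l m) (fun e _ l m => hF0 e (φ l) l m) (fun e _ l m => hF1 e (φ l) l m)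
  have h3 : P.ce Z (fun v => ∑ m, k (E v) (lam v) m * F (E v) (R v) (lam v) m) w =
      P.ce Z (fun v => G (R v) (lam v)) w :=
    ce_freeze_CI (P := P) hCI (fun e rl => ∑ m, k e rl.2 m * F e rl.1 rl.2 m) hw
  have h4 : P.ce Z (fun v => ∑ m, k (E v) (lam v) m * F (E v) (φ (lam v)) (lam v) m) w =
      P.ce Z (fun v => G (φ (lam v)) (lam v)) w :=
    ce_freeze_CI (P := P) hCI (fun e rl => ∑ m, k e rl.2 m * F e (φ rl.2) rl.2 m) hw
  have h5 : P.ce Z (fun v => G (R v) (lam v)) w ≤ P.ce Z (fun v => G (φ (lam v)) (lam v)) w :=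
    P.ce_mono (fun v _ => hφ (lam v) (R v)) w
  have h6 := abs_le.1 h1
  have h7 := abs_le.1 h2
  linarith [h6.2, h7.1]

/-- the hypothesis of `sup_phi` from a mean distance in the sense of total variation -/
theorem kernel_of_tv [Fintype μ] {k : ε → lt' → μ → ℝ} {δ : ℝ} {w : Om} (hw : P.p w ≠ 0)
    (hV : P.ce Z (fun v => ∑ m, |P.ce (fun u => (Z u, (E u, (R u, lam u)))) (fun u => ind (mu u = m)) v -
      k (E v) (lam v) m|) w ≤ δ) (g : ε → ρ → lt' → μ → ℝ) (h0 : ∀ e r l m, 0 ≤ g e r l m)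
    (h1 : ∀ e r l m, g e r l m ≤ 1) :
    |P.ce Z (fun v => g (E v) (R v) (lam v) (mu v)) w -
      P.ce Z (fun v => ∑ m, k (E v) (lam v) m * g (E v) (R v) (lam v) m) w| ≤ δ := by
  classical
  set V : Om → ζ × (ε × (ρ × lt')) := fun u => (Z u, (E u, (R u, lam u))) with hVd
  have hVZ : Fac V Z := Fac.fst _ _
  have e1 : P.ce Z (fun v => g (E v) (R v) (lam v) (mu v)) w =
      P.ce Z (fun v => ∑ m, P.ce V (fun u => ind (mu u = m)) v * g (E v) (R v) (lam v) m) w := by
    rw [← P.ce_tower hVZ]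
    refine P.ce_congr (fun v hv => ?_) w
    have h2 : ∀ u, g (E u) (R u) (lam u) (mu u) = ∑ m, g (E u) (R u) (lam u) m * ind (mu u = m) := by
      intro u
      rw [Finset.sum_eq_single (mu u)]
      · rw [ind_of rfl, mul_one]
      · intro b _ hb
        rw [ind_not (fun h => hb h.symm), mul_zero]
      · intro h
        exact absurd (mem_univ _) h
    simp only [h2]
    rw [P.ce_sum]
    refine Finset.sum_congr rfl fun m _ => ?_
    have hf : Fac V (fun u => g (E u) (R u) (lam u) m) := fun u u' e => by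
      have e2 := (Prod.mk.injEq _ _ _ _ ▸ e : Z u = Z u' ∧ (E u, (R u, lam u)) = (E u', (R u', lam u')))
      have e3 := (Prod.mk.injEq _ _ _ _ ▸ e2.2 : E u = E u' ∧ (R u, lam u) = (R u', lam u'))
      have e4 := (Prod.mk.injEq _ _ _ _ ▸ e3.2 : R u = R u' ∧ lam u = lam u')
      show g (E u) (R u) (lam u) m = g (E u') (R u') (lam u') m
      rw [e3.1, e4.1, e4.2]
    rw [P.ce_mul hf, mul_comm]
  rw [e1, ← P.ce_sub]
  refine (P.abs_ce_le Z _ w).trans (le_trans (P.ce_mono (fun v _ => ?_) w) hV)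
  rw [← Finset.sum_sub_distrib]
  refine (Finset.abs_sum_le_sum_abs _ _).trans (Finset.sum_le_sum fun m _ => ?_)
  rw [← sub_mul, abs_mul, abs_of_nonneg (h0 _ _ _ _)]
  exact mul_le_of_le_one_right (abs_nonneg _) (h1 _ _ _ _)

end

end Pool.Agent.GMM
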