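import Pool.Agent.GMM.CSMain
import Pool.Agent.GMM.CSSlot
import Pool.Agent.GMM.SupPhi
import Pool.Agent.GMM.CM5V
import Pool.Agent.GMH.AntiHot

/-!
# GMM/CSStat: THE STATIC PART OF COLD_S (plan CS, row CS3; helper3)

`U = univ.erase e` (exact known types), one averaged type `e`.  The true number of the record is a function of the hidden vertex,
of `x_U` and of the node; it may be replaced by a function of the labels of index strictly inside `U`.

* `tv_world`, `tv_point` : Pinsker: mean distance of the laws of `mu` given (`W`,`Y`) and given `W` is at most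
  `sqrt (2 I (mu; Y | W))`;
* `I_le_of_fac` : `I (X; Y | A) <= I (X; Y' | C)` if `C` is a function of `A` and (`Y`,`A`) of (`Y'`,`C`);
* `chain_le` : chain rule over the labels `G` containing `e`, by size;
* **`record_free`** : `I ((labels containing e); (record) | labels inside U, x_univ) <= Σ_G del'_G` at a class of `(x_U, Q)`;
* **`stat_pair`** : `hstat` of `cs_numsq` for `pairAD`; **`cs_pair`** : COLD_S with the numbers for `|E| = 1`.
-/

set_option autoImplicit false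
set_option linter.unusedSectionVars false

namespace Pool.Agent.GMM.CSM

open Finset Pool.Agent.M3 Pool.Agent.M3.FP Pool.Agent.GMC Pool.Agent.GMM
open Pool.Agent.PWZ hiding ip
open Pool.Agent.GMH (cpr cpr_fac cpr_nonneg)

noncomputable section

/-! ## Pinsker -/

section tv

variable {Om : Type*} [Fintype Om] {μ ω υ ζ : Type*}

theorem sum_cpr (Q : FP Om) [DecidableEq μ] (mu : Om → μ) (W : Om → ω) {w : Om} (hw : Q.p w ≠ 0) :
    ∑ m ∈ univ.image mu, cpr Q mu m W w = 1 := by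
  have h1 := Pool.Agent.GMH.ce_eq_sum Q mu W (fun _ _ => (1 : ℝ)) (fun _ => Fac.const _ _) w
  have h2 : Q.ce W (fun _ => (1 : ℝ)) w = 1 := Q.ce_of_fac (Fac.const _ _) hw
  rw [h2] at h1
  rw [h1]
  exact Finset.sum_congr rfl fun _ _ => (mul_one _).symm

theorem cpr_zero (Q : FP Om) [DecidableEq μ] {mu : Om → μ} (W : Om → ω) {m : μ} (hm : m ∉ univ.image mu) (v : Om) :
    cpr Q mu m W v = 0 := by
  have h1 : ∀ u, ¬ mu u = m := fun u h => hm (h ▸ Finset.mem_image_of_mem mu (Finset.mem_univ u))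
  unfold cpr FP.ce
  rw [Q.E_congr (g := fun _ => 0) (fun u _ => by
    show ind (W u = W v) * ind (mu u = m) = 0
    rw [ind_not (h1 u), mul_zero]), Q.E_const, zero_div]

/-- Pinsker for the laws of `mu`, mean over the point -/
theorem tv_world (Q : FP Om) [Fintype μ] (mu : Om → μ) (Y : Om → υ) (W : Om → ω) :
    Q.E (fun v => ∑ m, |cpr Q mu m (fun u => (Y u, W u)) v - cpr Q mu m W v|) ≤ Real.sqrt (2 * Q.I mu Y W) := by
  classical
  have hU : Fac (fun u => (Y u, W u)) W := Fac.snd _ _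
  have h0 : ∀ v, ∑ m, |cpr Q mu m (fun u => (Y u, W u)) v - cpr Q mu m W v| =
      ∑ m ∈ univ.image mu, |cpr Q mu m (fun u => (Y u, W u)) v - cpr Q mu m W v| := by
    intro v
    symm
    refine Finset.sum_subset (Finset.subset_univ _) (fun m _ hm => ?_)
    rw [cpr_zero Q _ hm, cpr_zero Q _ hm, sub_zero, abs_zero]
  refine Real.le_sqrt_of_sq_le ((Q.sq_E_le _).trans ?_)
  have h1 := Pool.Agent.GMH.E_kl_eq Q mu hU
  rw [Q.I_eq_Hc, ← h1, ← Q.E_smul]
  refine Q.E_mono (fun v hv => ?_)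
  rw [h0 v]
  exact Pool.Agent.GMH.pinsker_abs (univ.image mu) (fun m _ => cpr_nonneg Q mu m _ v) (fun m _ => cpr_nonneg Q mu m _ v)
    (sum_cpr Q mu _ hv) (sum_cpr Q mu _ hv) (fun m _ h => Pool.Agent.GMH.cpr_pos_of Q hU hv h)

variable {P : FP Om}

/-- the same at a point of the known variable -/
theorem tv_point [Fintype μ] (mu : Om → μ) (Y : Om → υ) (W : Om → ω) (Z : Om → ζ) {w : Om} (hw : P.p w ≠ 0) :
    P.ce Z (fun v => ∑ m, |P.ce (fun u => ((Y u, W u), Z u)) (fun u => ind (mu u = m)) v -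
      P.ce (fun u => (W u, Z u)) (fun u => ind (mu u = m)) v|) w ≤ Real.sqrt (2 * ip P mu Y W Z w) := by
  rw [ip_eq_cond P mu Y W Z hw]
  refine le_trans (le_of_eq ?_) (tv_world (at_ P Z w) mu Y W)
  rw [P.ce_eq_cond Z _ hw]
  refine FP.E_congr _ (fun v hv => ?_)
  obtain ⟨hZ, hpv⟩ := (cond_p_ne (P.m_pos Z hw).ne').1 hv
  refine Finset.sum_congr rfl fun m _ => ?_
  unfold cpr
  rw [ce_cond P (fun u => (Y u, W u)) Z _ hw hZ, ce_cond P W Z _ hw hZ]

end tv

/-! ## chain rule -/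

section chain

variable {Om : Type*} [Fintype Om] {κ κ' ι ι' : Type*}

/-- more in the second argument, less in the condition -/
theorem I_le_of_fac (Q : FP Om) {X : Om → κ} {Y : Om → κ'} {Y' : Om → ι} {A : Om → ι'} {γ : Type*} {C : Om → γ}
    (hC : Fac A C) (hY : Fac (fun u => (Y' u, C u)) Y) (hA : Fac (fun u => (Y' u, C u)) A) :
    Q.I X Y A ≤ Q.I X Y' C := by
  have h1 : Q.I (fun u => (Y u, A u)) X C = Q.I A X C + Q.I Y X (fun u => (A u, C u)) := Q.I_chain Y A X C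
  have h2 : Q.I Y X (fun u => (A u, C u)) = Q.I Y X A := by
    apply Q.I_congr_cond
    · exact Fac.fst _ _
    · exact (Fac.refl A).prod hC
  have h3 : Q.I (fun u => (Y u, A u)) X C ≤ Q.I Y' X C := Q.I_mono X (hY.prod hA)
  have h4 : 0 ≤ Q.I A X C := Q.I_nonneg _ _ _
  rw [Q.I_comm X Y, Q.I_comm X Y']
  linarith

variable {W : Type*} [Fintype W] [DecidableEq W]

/-- chain rule over the labels of the family `S`, by size: `dl G` bounds the information of `L G` and of `R` given `B` and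
the labels of `S` of size at most `|G|` (`G` excepted) -/
theorem chain_le (Q : FP Om) {Λ : Type*} (L : Finset W → Om → Λ) (R : Om → κ) (B : Om → κ') (dl : Finset W → ℝ)
    (S : Finset (Finset W))
    (h : ∀ G ∈ S, ∀ S' : Finset (Finset W), S' ⊆ S → G ∉ S' → (∀ H ∈ S, H.card < G.card → H ∈ S') →
      (∀ H ∈ S', H.card ≤ G.card) → Q.I (L G) R (fun u => (sel (fun H => H ∈ S') L u, B u)) ≤ dl G) :
    Q.I (sel (fun H => H ∈ S) L) R B ≤ ∑ G ∈ S, dl G := by
  classical
  -- sets closed downwards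
  have key : ∀ (n : ℕ) (T : Finset (Finset W)), T.card = n → T ⊆ S → (∀ G ∈ T, ∀ H ∈ S, H.card < G.card → H ∈ T) →
      Q.I (sel (fun H => H ∈ T) L) R B ≤ ∑ G ∈ T, dl G := by
    intro n
    induction n with
    | zero =>
      intro T hT _ _
      rw [Finset.card_eq_zero] at hT
      subst hT
      rw [Finset.sum_empty]
      have h1 : Fac (fun _ : Om => ()) (sel (fun H => H ∈ (∅ : Finset (Finset W))) L) :=
        fac_sel (fun i hi => absurd hi (Finset.notMem_empty i))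
      have h2 := Q.I_mono (Z := B) R ((Fac.fst _ B).trans h1)
      have h3 := Q.I_le_Hc (fun _ : Om => ()) R B
      rw [Hc_of_fac Q (Fac.const B ())] at h3
      linarith
    | succ n ih =>
      intro T hT hTS hdc
      have hne : T.Nonempty := Finset.card_pos.1 (by omega)
      obtain ⟨G, hG, hmax⟩ := Finset.exists_max_image T (fun G => G.card) hne
      have hdc' : ∀ G' ∈ T.erase G, ∀ H ∈ S, H.card < G'.card → H ∈ T.erase G := by
        intro G' hG' H hH hc
        have h1 := Finset.mem_of_mem_erase hG'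
        refine Finset.mem_erase.2 ⟨?_, hdc G' h1 H hH hc⟩
        rintro rfl
        have := hmax G' h1
        omega
      have h1 := ih (T.erase G) (by rw [Finset.card_erase_of_mem hG, hT]; rfl) ((Finset.erase_subset _ _).trans hTS) hdc'
      have h2 := h G (hTS hG) (T.erase G) ((Finset.erase_subset _ _).trans hTS) (Finset.notMem_erase _ _)
        (fun H hH hc => Finset.mem_erase.2 ⟨fun e => by rw [e] at hc; omega, hdc G hG H hH hc⟩)
        (fun H hH => hmax H (Finset.mem_of_mem_erase hH))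
      have h3 : Q.I (sel (fun H => H ∈ T) L) R B ≤ Q.I (fun u => (L G u, sel (fun H => H ∈ T.erase G) L u)) R B := by
        refine Q.I_mono R ((Fac.fst _ _).trans (fac_sel (fun H hH => ?_)))
        by_cases e : H = G
        · rw [e]
          exact Fac.fst _ _
        · exact (Fac.snd _ _).trans (sel_fac (p := fun H => H ∈ T.erase G) (v := L) (Finset.mem_erase.2 ⟨e, hH⟩))
      have h4 := Q.I_chain (L G) (sel (fun H => H ∈ T.erase G) L) R B
      rw [← Finset.add_sum_erase T dl hG]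
      linarith
  exact key S.card S rfl (Finset.Subset.refl S) (fun _ _ _ hH _ => hH)

end chain

/-! ## the record is nearly independent of the labels which contain `e` -/

section free

variable {Om : Type*} [Fintype Om] {ι : Type*} [Fintype ι] [DecidableEq ι] {χ α κ β : Type*} {P : FP Om} {a : Om → α}
  {x : ι → Om → χ} {Q : Om → κ} {L : Finset ι → Om → ℕ}

/-- the proper index sets which contain `e` -/
def gE (e : ι) : Finset (Finset ι) := univ.filter (fun G => e ∈ G ∧ G ≠ univ)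

theorem mem_gE {e : ι} {G : Finset ι} : G ∈ gE e ↔ e ∈ G ∧ G ≠ univ := by
  unfold gE
  rw [Finset.mem_filter]
  simp only [Finset.mem_univ, true_and]

theorem not_sub_of_gE {e : ι} {G : Finset ι} (h : G ∈ gE e) : ¬ univ.erase e ⊆ G := fun h1 => (mem_gE.1 h).2 (by
  refine Finset.eq_univ_of_forall (fun i => ?_)
  by_cases hi : i = e
  · rw [hi]
    exact (mem_gE.1 h).1
  · exact h1 (Finset.mem_erase.2 ⟨hi, Finset.mem_univ _⟩))

theorem union_gE {e : ι} {G : Finset ι} (h : G ∈ gE e) : univ.erase e ∪ G = univ := by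
  refine Finset.eq_univ_of_forall (fun i => ?_)
  rw [Finset.mem_union]
  by_cases hi : i = e
  · rw [hi]
    exact Or.inr (mem_gE.1 h).1
  · exact Or.inl (Finset.mem_erase.2 ⟨hi, Finset.mem_univ _⟩)

theorem erase_ssub (e : ι) : univ.erase e ⊂ (univ : Finset ι) := Finset.erase_ssubset (Finset.mem_univ e)

/-- a set below a member of `gE` contains `e` or lies strictly inside `univ.erase e` -/
theorem below_gE {e : ι} {G H : Finset ι} (h : G ∈ gE e) (hH : H ⊆ G) : H ∈ gE e ∨ H ⊂ univ.erase e := by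
  by_cases he : e ∈ H
  · refine Or.inl (mem_gE.2 ⟨he, fun h1 => ?_⟩)
    subst h1
    exact (mem_gE.1 h).2 (Finset.univ_subset_iff.1 hH)
  · refine Or.inr (Finset.ssubset_iff_subset_ne.2 ⟨fun i hi => Finset.mem_erase.2 ⟨fun h1 => he (h1 ▸ hi), Finset.mem_univ _⟩,
      fun h1 => not_sub_of_gE h (h1 ▸ hH)⟩)

/-- **the record is nearly independent of the labels which contain `e`** -/
theorem record_free {e : ι} {R : Om → β} {w : Om} (hw : P.p w ≠ 0)
    (hL : ∀ I, Fac (fun u => (a u, xr x I u, Q u)) (L I))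
    (hR : Fac (fun u => (a u, xr x (univ.erase e) u, Q u)) R) {Ap : Finset ι → ℝ} {dl : Finset ι → ℝ}
    (hcard : ∀ G ∈ gE e, (nv P (fun u => (R u, sel (fun H => H ⊂ univ.erase e ∧ G.card < H.card) L u))
      (fun u => (xr x (univ.erase e) u, Q u)) w : ℝ) ≤ Real.exp (Ap G))
    (hphi : ∀ G ∈ gE e, phi P a x Q L (Ap G) (univ.erase e) G w ≤ dl G) :
    ip P (sel (fun H => H ∈ gE e) L) R (fun u => (lt L (univ.erase e) u, xr x univ u))
      (fun u => (xr x (univ.erase e) u, Q u)) w ≤ ∑ G ∈ gE e, dl G := by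
  classical
  set U : Finset ι := univ.erase e with hU
  rw [ip_eq_cond P _ _ _ _ hw]
  refine chain_le _ L R _ dl (gE e) (fun G hG S' hS' hGS' hlow hcardS => ?_)
  -- the family
  set V : Om → β × (Finset ι → Option ℕ) := fun u => (R u, sel (fun H => H ⊂ U ∧ G.card < H.card) L u) with hV
  set RG : Finset ι → Om → ℕ := fun _ => code V with hRG
  have hUG : U ∪ G = univ := union_gE hG
  have hxU : ∀ {H : Finset ι}, H ⊆ U → Fac (xr x U) (xr x H) := fun hH => xr_mono x hH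
  have hLU : ∀ {H : Finset ι}, H ⊆ U → Fac (fun u => (a u, xr x U u, Q u)) (L H) := fun {H} hH u v e1 => by
    simp only [Prod.mk.injEq] at e1
    exact hL H u v (by simp only [Prod.mk.injEq]; exact ⟨e1.1, hxU hH u v e1.2.1, e1.2.2⟩)
  have hVfac : Fac (fun u => (a u, xr x U u, Q u)) V := hR.prod (fac_sel (fun H hH => hLU hH.1.1))
  have honly : ∀ I, U ⊆ I → I ⊂ U ∪ G → I = U := by
    intro I h1 h2
    rw [hUG] at h2
    refine Finset.Subset.antisymm (fun i hi => ?_) h1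
    refine Finset.mem_erase.2 ⟨fun hie => h2.2 (fun j _ => ?_), Finset.mem_univ _⟩
    by_cases hj : j = e
    · rw [hj, ← hie]
      exact hi
    · exact h1 (Finset.mem_erase.2 ⟨hj, Finset.mem_univ _⟩)
  have hext : ExtP P a x Q (Ap G) U G w RG := by
    constructor
    · intro I h1 h2 u v _ ha hx hq
      rw [honly I h1 h2] at hx
      exact (hVfac.trans (fac_code V)) u v (by simp only [Prod.mk.injEq]; exact ⟨ha, hx, hq⟩)
    · intro I h1 h2 v hv hcl
      rw [honly I h1 h2]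
      refine le_trans ?_ (hcard G hG)
      have h3 : nv P (code V) (fun u => (xr x U u, Q u)) v ≤ nv P V (fun u => (xr x U u, Q u)) v :=
        nv_le_nv (fun u z _ _ _ _ e1 => fac_code V u z e1)
      rw [nv_fac P V (fun u => (xr x U u, Q u)) v w hcl] at h3
      exact_mod_cast h3
  have h1 := (le_phi hext hw).trans (hphi G hG)
  refine le_trans ?_ h1
  unfold phiv
  rw [ip_eq_cond P _ _ _ _ hw]
  -- data of `Y'`
  have hY'V : Fac (fun u => ((pk RG U (U ∪ G) u, lall L U G u), (lt L G u, xr x (U ∪ G) u))) V :=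
    ((Fac.fst _ _).trans (Fac.fst _ _)).trans ((sel_fac (p := fun I => U ⊆ I ∧ I ⊂ U ∪ G) (v := RG)
      ⟨Finset.Subset.refl U, by rw [hUG]; exact erase_ssub e⟩).trans (code_fac V))
  have hY'all : ∀ {H : Finset ι}, H.card ≤ G.card → H ≠ G →
      Fac (fun u => ((pk RG U (U ∪ G) u, lall L U G u), (lt L G u, xr x (U ∪ G) u))) (L H) := fun {H} hc hne =>
    ((Fac.fst _ _).trans (Fac.snd _ _)).trans (sel_fac (p := fun H => H ⊆ U ∪ G ∧ H.card ≤ G.card ∧ H ≠ G) (v := L)
      ⟨by rw [hUG]; exact Finset.subset_univ H, hc, hne⟩)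
  refine I_le_of_fac _ ?_ (hY'V.trans (Fac.fst _ _)) ?_
  · -- the condition of the functional
    refine Fac.prod (fac_sel (fun H hH => ?_)) ?_
    · rcases below_gE hG hH.1 with h2 | h2
      · exact (Fac.fst _ _).trans (sel_fac (p := fun H => H ∈ S') (v := L) (hlow H h2 (Finset.card_lt_card hH)))
      · exact (Fac.snd _ _).trans ((Fac.fst _ _).trans (lt_fac L h2))
    · rw [hUG]
      exact (Fac.snd _ _).trans (Fac.snd _ _)
  · refine Fac.prod (fac_sel (fun H hH => hY'all (hcardS H hH) (fun h2 => hGS' (h2 ▸ hH)))) (Fac.prod (fac_sel (fun H hH => ?_)) ?_)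
    · by_cases hc : H.card ≤ G.card
      · exact hY'all hc (fun h2 => not_sub_of_gE hG (by
          exfalso
          rw [h2] at hH
          exact (Finset.mem_erase.1 (hH.1 (mem_gE.1 hG).1)).1 rfl))
      · exact hY'V.trans ((Fac.snd _ _).trans (sel_fac (p := fun H => H ⊂ U ∧ G.card < H.card) (v := L)
          ⟨hH, not_le.1 hc⟩))
    · rw [hUG]
      exact (Fac.snd _ _).trans (Fac.snd _ _)

end free

/-! ## the best function of the labels inside `U` -/

section best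

variable {Om : Type*} [Fintype Om] {ι : Type*} [Fintype ι] [DecidableEq ι] {χ α κ V2 : Type*} {P : FP Om} {a : Om → α}
  {x : ι → Om → χ} {Q : Om → κ} {L : Finset ι → Om → ℕ}

/-- **the record may be replaced by a function of the labels inside `U`** -/
theorem best_record {e : ι} [Finite V2] [Nonempty V2] {R : Om → V2} {w : Om} (hw : P.p w ≠ 0)
    (hCI : P.CI (fun u => (xr x (univ.erase e) u, Q u)) a (xr x {e}))
    (hL : ∀ I, Fac (fun u => (a u, xr x I u, Q u)) (L I))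
    (hR : Fac (fun u => (a u, xr x (univ.erase e) u, Q u)) R) {d : ℝ}
    (hip : ip P (sel (fun H => H ∈ gE e) L) R (fun u => (lt L (univ.erase e) u, xr x univ u))
      (fun u => (xr x (univ.erase e) u, Q u)) w ≤ d)
    {V : V2 → Om → ℝ} {N : ℝ}
    (hV : ∀ r, Fac (fun u => (sel (fun H => ¬ univ.erase e ⊆ H) L u, xr x univ u, Q u)) (V r))
    (h0 : ∀ r v, P.p v ≠ 0 → 0 ≤ V r v) (h1 : ∀ r v, P.p v ≠ 0 → V r v ≤ N) :
    ∃ φ : (Finset ι → Option ℕ) → V2, P.ce (fun u => (xr x (univ.erase e) u, Q u)) (fun v => V (R v) v) w ≤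
      P.ce (fun u => (xr x (univ.erase e) u, Q u)) (fun v => V (φ (lt L (univ.erase e) v)) v) w +
        2 * N * Real.sqrt (2 * d) := by
  classical
  haveI : Fintype V2 := Fintype.ofFinite V2
  set U : Finset ι := univ.erase e with hU
  set Z : Om → (ι → Option χ) × κ := fun u => (xr x U u, Q u) with hZ
  set E : Om → ι → Option χ := xr x univ with hE
  set lam : Om → Finset ι → Option ℕ := lt L U with hlam
  set mu : Om → Fin (Fintype.card Om) := cod (sel (fun H => H ∈ gE e) L) with hmu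
  have hmuF : Fac (sel (fun H => H ∈ gE e) L) mu := fun u v h => Fin.ext (fac_code _ u v h)
  have hmuF' : Fac mu (sel (fun H => H ∈ gE e) L) := fun u v h => code_fac _ u v (congrArg Fin.val h)
  have hN0 : 0 ≤ N := (h0 (R w) w hw).trans (h1 (R w) w hw)
  -- everything is a function of `(E, lam, mu)` on the class
  have hall : Fac (fun u => (Z u, (E u, (lam u, mu u)))) (fun u => (sel (fun H => ¬ U ⊆ H) L u, xr x univ u, Q u)) := by
    refine Fac.prod (fac_sel (fun H hH => ?_)) (Fac.prod ((Fac.snd _ _).trans (Fac.fst _ _)) ((Fac.fst _ _).trans (Fac.snd _ _)))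
    by_cases he : e ∈ H
    · refine (Fac.snd _ _).trans ((Fac.snd _ _).trans ((Fac.snd _ _).trans (hmuF'.trans
        (sel_fac (p := fun H => H ∈ gE e) (v := L) (mem_gE.2 ⟨he, fun h2 => hH (by rw [h2]; exact Finset.subset_univ _)⟩)))))
    · refine (Fac.snd _ _).trans ((Fac.snd _ _).trans ((Fac.fst _ _).trans (lt_fac L ?_)))
      refine Finset.ssubset_iff_subset_ne.2 ⟨fun i hi => Finset.mem_erase.2 ⟨fun h2 => he (h2 ▸ hi), Finset.mem_univ _⟩,
        fun h2 => hH (by rw [h2])⟩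
  -- the function of the values
  let F : (ι → Option χ) → V2 → (Finset ι → Option ℕ) → Fin (Fintype.card Om) → ℝ := fun e' r l m =>
    if h : ∃ v, P.p v ≠ 0 ∧ Z v = Z w ∧ E v = e' ∧ lam v = l ∧ mu v = m then V r h.choose / N else 0
  have hF : ∀ v, P.p v ≠ 0 → Z v = Z w → ∀ r, F (E v) r (lam v) (mu v) = V r v / N := by
    intro v hv hZv r
    have hex : ∃ v', P.p v' ≠ 0 ∧ Z v' = Z w ∧ E v' = E v ∧ lam v' = lam v ∧ mu v' = mu v := ⟨v, hv, hZv, rfl, rfl, rfl⟩
    show (if h : ∃ v', P.p v' ≠ 0 ∧ Z v' = Z w ∧ E v' = E v ∧ lam v' = lam v ∧ mu v' = mu v then V r h.choose / N else 0) = _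
    rw [dif_pos hex]
    obtain ⟨-, g2, g3, g4, g5⟩ := hex.choose_spec
    rw [(hall.trans (hV r)) hex.choose v (by simp only [Prod.mk.injEq]; exact ⟨g2.trans hZv.symm, g3, g4, g5⟩)]
  have hF0 : ∀ e' r l m, 0 ≤ F e' r l m := by
    intro e' r l m
    show 0 ≤ (if h : ∃ v, P.p v ≠ 0 ∧ Z v = Z w ∧ E v = e' ∧ lam v = l ∧ mu v = m then V r h.choose / N else 0)
    split_ifs with h
    · exact div_nonneg (h0 r _ h.choose_spec.1) hN0
    · exact le_rfl
  have hF1 : ∀ e' r l m, F e' r l m ≤ 1 := by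
    intro e' r l m
    show (if h : ∃ v, P.p v ≠ 0 ∧ Z v = Z w ∧ E v = e' ∧ lam v = l ∧ mu v = m then V r h.choose / N else 0) ≤ 1
    split_ifs with h
    · exact div_le_one_of_le₀ (h1 r _ h.choose_spec.1) hN0
    · exact zero_le_one
  have hVN : ∀ v, P.p v ≠ 0 → ∀ r, V r v = N * (V r v / N) := by
    intro v hv r
    rcases hN0.eq_or_lt with h | h
    · have h2 := h0 r v hv
      have h3 := h1 r v hv
      rw [← h] at h3 ⊢
      rw [zero_mul]
      exact le_antisymm h3 h2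
    · rw [mul_div_cancel₀ _ h.ne']
  -- the kernel
  set W : Om → (Finset ι → Option ℕ) × (ι → Option χ) := fun u => (lam u, E u) with hW
  let k : (ι → Option χ) → (Finset ι → Option ℕ) → Fin (Fintype.card Om) → ℝ := fun e' l m =>
    if h : ∃ v, Z v = Z w ∧ E v = e' ∧ lam v = l then P.ce (fun u => (W u, Z u)) (fun u => ind (mu u = m)) h.choose else 0
  have hk : ∀ v, Z v = Z w → ∀ m, k (E v) (lam v) m = P.ce (fun u => (W u, Z u)) (fun u => ind (mu u = m)) v := by
    intro v hZv m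
    have hex : ∃ v', Z v' = Z w ∧ E v' = E v ∧ lam v' = lam v := ⟨v, hZv, rfl, rfl⟩
    show (if h : ∃ v', Z v' = Z w ∧ E v' = E v ∧ lam v' = lam v then
      P.ce (fun u => (W u, Z u)) (fun u => ind (mu u = m)) h.choose else 0) = _
    rw [dif_pos hex]
    obtain ⟨g2, g3, g4⟩ := hex.choose_spec
    exact P.ce_fac _ _ _ _ (by simp only [hW, Prod.mk.injEq]; exact ⟨⟨g4, g3⟩, g2.trans hZv.symm⟩)
  -- Pinsker
  have hipmu : ip P mu R W Z w ≤ d := by
    refine le_trans (le_of_eq ?_) hip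
    exact ip_congr P ((Fac.fst _ _).trans hmuF') (Fac.fst _ _) (Fac.fst _ _) (Fac.refl _) ((Fac.fst _ _).trans hmuF)
      (Fac.fst _ _) (Fac.fst _ _) (Fac.refl _) w
  have htv := tv_point mu R W Z hw (P := P)
  have htv' : P.ce Z (fun v => ∑ m, |P.ce (fun u => (Z u, (E u, (R u, lam u)))) (fun u => ind (mu u = m)) v -
      k (E v) (lam v) m|) w ≤ Real.sqrt (2 * d) := by
    refine le_trans (le_of_eq ?_) (htv.trans (Real.sqrt_le_sqrt (by linarith)))
    refine ce_congr_cls (fun v _ hZv => ?_)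
    refine Finset.sum_congr rfl (fun m _ => ?_)
    rw [hk v hZv m]
    congr 2
    refine P.ce_congr_map ?_ ?_ _ v
    · intro u u' h
      simp only [hW, Prod.mk.injEq] at h ⊢
      tauto
    · intro u u' h
      simp only [hW, Prod.mk.injEq] at h ⊢
      tauto
  have hci : P.CI Z E (fun v => (R v, lam v)) := by
    have h2 : P.CI Z (fun v => (R v, lam v)) E := by
      refine CI_mono hCI ?_ ?_
      · intro u v h
        simp only [hZ, Prod.mk.injEq] at h
        have h3 : (a u, xr x U u, Q u) = (a v, xr x U v, Q v) := by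
          simp only [Prod.mk.injEq]
          exact ⟨h.1, h.2.1, h.2.2⟩
        refine Prod.ext (hR u v h3) (sel_eq.2 (fun H hH => hL H u v ?_))
        simp only [Prod.mk.injEq]
        exact ⟨h.1, xr_mono x hH.1 u v h.2.1, h.2.2⟩
      · intro u v h
        simp only [hZ, Prod.mk.injEq] at h
        refine sel_eq.2 (fun i _ => ?_)
        by_cases hi : i = e
        · rw [hi]
          exact sel_eq.1 h.1 e (Finset.mem_singleton_self e)
        · exact sel_eq.1 h.2.1 i (Finset.mem_erase.2 ⟨hi, Finset.mem_univ _⟩)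
    exact h2.symm
  obtain ⟨φ, hφ⟩ := sup_phi (P := P) (Z := Z) (E := E) (R := R) (lam := lam) (mu := mu) hci (F := F) (k := k) hw
    (fun g g0 g1 => kernel_of_tv (P := P) hw htv' g g0 g1) hF0 hF1
  refine ⟨φ, ?_⟩
  have e1 : P.ce Z (fun v => V (R v) v) w = N * P.ce Z (fun v => F (E v) (R v) (lam v) (mu v)) w := by
    rw [← P.ce_smul]
    refine ce_congr_cls (fun v hv hZv => ?_)
    rw [hF v hv hZv (R v)]
    exact hVN v hv (R v)
  have e2 : P.ce Z (fun v => V (φ (lam v)) v) w = N * P.ce Z (fun v => F (E v) (φ (lam v)) (lam v) (mu v)) w := by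
    rw [← P.ce_smul]
    refine ce_congr_cls (fun v hv hZv => ?_)
    rw [hF v hv hZv (φ (lam v))]
    exact hVN v hv (φ (lam v))
  rw [e1, e2]
  have h3 := mul_le_mul_of_nonneg_left hφ hN0
  linarith

end best

/-! ## the alphabet -/

section alph2

variable {Om : Type*} [Fintype Om] {P : FP Om} {γ β ν : Type*} [DecidableEq γ]

theorem nv_sel_sum (v : γ → Om → β) (V : Om → ν) (w : Om) {b : γ → ℝ} (s : Finset γ)
    (hv : ∀ i ∈ s, (nv P (v i) V w : ℝ) ≤ Real.exp (b i)) :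
    (nv P (sel (fun i => i ∈ s) v) V w : ℝ) ≤ Real.exp (∑ i ∈ s, b i) := by
  induction s using Finset.induction_on with
  | empty =>
    have h1 : nv P (sel (fun i => i ∈ (∅ : Finset γ)) v) V w ≤ 1 :=
      nv_le_one (fun u z _ _ _ _ => sel_eq.2 (fun i hi => absurd hi (Finset.notMem_empty i)))
    rw [Finset.sum_empty, Real.exp_zero]
    exact_mod_cast h1
  | insert j s hj ih =>
    have h1 := ih (fun i hi => hv i (Finset.mem_insert_of_mem hi))
    have h2 := hv j (Finset.mem_insert_self j s)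
    have h3 : nv P (sel (fun i => i ∈ insert j s) v) V w ≤ nv P (v j) V w * nv P (sel (fun i => i ∈ s) v) V w :=
      nv_pair (fun u z e => sel_eq.2 (fun i hi => by
        simp only [Prod.mk.injEq] at e
        rcases Finset.mem_insert.1 hi with h4 | h4
        · rw [h4]
          exact e.1
        · exact sel_eq.1 e.2 i h4)) w
    rw [Finset.sum_insert hj, Real.exp_add]
    have h4 : (nv P (sel (fun i => i ∈ insert j s) v) V w : ℝ) ≤
        (nv P (v j) V w : ℝ) * (nv P (sel (fun i => i ∈ s) v) V w : ℝ) := by exact_mod_cast h3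
    exact h4.trans (mul_le_mul h2 h1 (Nat.cast_nonneg _) (Real.exp_pos _).le)

theorem nv_le_natcard {V2 : Type*} [Finite V2] (R : Om → V2) (V : Om → ν) (w : Om) : nv P R V w ≤ Nat.card V2 := by
  classical
  haveI : Fintype V2 := Fintype.ofFinite V2
  rw [Nat.card_eq_fintype_card]
  unfold nv
  exact Finset.card_le_univ _

end alph2

/-! ## `hstat` -/

section stat

variable {Om : Type*} [Fintype Om] {ι : Type*} [Fintype ι] [DecidableEq ι] {χ α : Type*} {κ ε φ : ℕ → Type*}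
  {P : FP Om} {a : Om → α} {x : ι → Om → χ} {Q : ∀ t, Om → κ t} {D : ℕ → Om → ℝ} {E : ∀ t, Finset ι → Om → ε t}
  {f : ∀ t, Finset ι → Om → φ t} {c0 : ℝ} {K c X C : ℕ} {T : ℕ} {L : ℕ → Finset ι → Om → ℕ}
  {fat : ℕ → Finset ι → Om → Prop} {n : Nums K c X} {V1 V2 : Type*} {Av w aa : ℕ → ℝ} {h : ℝ}

/-- known side of the choices: all exact vertices -/
def kG1 (x : ι → Om → χ) (Q : ∀ t, Om → κ t) (t : ℕ) (u : Om) : (ι → Option χ) × κ t := (xr x univ u, Q t u)

/-- side of the hidden vertex: labels strictly inside `univ.erase e` -/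
def kG2 (x : ι → Om → χ) (Q : ∀ t, Om → κ t) (L : ℕ → Finset ι → Om → ℕ) (e : ι) (t : ℕ) (u : Om) :
    (Finset ι → Option ℕ) × (ι → Option χ) × κ t := (lt (L t) (univ.erase e) u, xr x (univ.erase e) u, Q t u)

theorem kG_choice [Nonempty V1] [Nonempty V2] (hR : RuleOut P a x Q D f Av w aa h T L fat) (hQ : Filt Q) (e : ι) :
    Choice (knq x Q (univ.erase e)) (vmap x Q L) (pairAD (V1 := V1) (V2 := V2) (kG1 x Q) (kG2 x Q L e)) := by
  refine pair_choice (kG1 x Q) (kG2 x Q L e) (fun t u v hh => ?_) (fun t u v hh => ?_) (fun t u v hh => ?_)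
    (fun t u v hh => ?_) (fun t u v hh => ?_) (fun t u v hh => ?_)
  · simp only [kG1, Prod.mk.injEq] at hh ⊢
    exact ⟨hh.1, hQ t u v hh.2⟩
  · simp only [kG2, Prod.mk.injEq] at hh ⊢
    exact ⟨sel_eq.2 (fun I hI => hR.mono t I u v (sel_eq.1 hh.1 I hI)), hh.2.1, hQ t u v hh.2.2⟩
  · simp only [vmap, kG1, Prod.mk.injEq] at hh ⊢
    exact ⟨hh.2.1, hh.2.2⟩
  · simp only [vmap, kG2, Prod.mk.injEq] at hh ⊢
    refine ⟨sel_eq.2 (fun I hI => sel_eq.1 hh.1 I (fun h2 => ?_)), xr_mono x (Finset.subset_univ _) u v hh.2.1, hh.2.2⟩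
    rw [h2] at hI
    exact hI.2 (Finset.subset_univ _)
  · simp only [knq, kG1, Prod.mk.injEq] at hh ⊢
    exact ⟨xr_mono x (Finset.subset_univ _) u v hh.1, hh.2⟩
  · simp only [knq, kG2, Prod.mk.injEq] at hh ⊢
    exact ⟨hh.2.1, hh.2.2⟩

/-- **`hstat` of `cs_numsq`** -/
theorem stat_pair [Finite V1] [Finite V2] [Nonempty V2] (hn : n.OK C) (hK : Fintype.card ι = K) (hX : 2 ≤ X)
    (hc : K + 1 ≤ c) (hM : MdlI P a x Q D E c0)
    (hR : RuleOut P a x Q D f n.AA n.w n.aa X T L fat) {Xn g : V1 × V2 → ℕ → Om → ℝ} {ev Dd : ℕ → Om → Prop} {s N : ℝ}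
    (hp : ∀ z, Proc P x Q D f (Xn z) (g z) ev Dd s N T) {e : ι} {A0 : ℝ}
    (hA0 : (Nat.card V2 : ℝ) ≤ Real.exp A0) (hA0X : 2 * A0 ≤ (X : ℝ) ^ c) {Ap : ℕ → ℕ → ℝ}
    (hAp : ∀ G ∈ gE e, n.Exp G.card (univ.erase e).card ≤ Ap G.card (univ.erase e).card)
    {r : ℕ → Om → V1 × V2} (hr1 : ∀ t, Fac (kG1 x Q t) (fun u => (r t u).1))
    (hr2 : ∀ t, Fac (fun u => (a u, xr x (univ.erase e) u, Q t u)) (fun u => (r t u).2))
    (hLU : ∀ t I, univ.erase e ⊆ I → ∀ u v, L t I u = L t I v) {t : ℕ} {u : Om} (hu : P.p u ≠ 0)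
    (hphi : ∀ G, ¬ univ.erase e ⊆ G → G ≠ univ →
      phi P a x (Q t) (L t) (Ap G.card (univ.erase e).card) (univ.erase e) G u ≤ n.del' G.card (univ.erase e).card) :
    P.ce (knq x Q (univ.erase e) t) (fun v => ind (P.Al (vmap x Q L) Dd (1 / 2) t v) * Phi s (Xn (r t v) t v)) u ≤
      csup P (knq x Q (univ.erase e) t) (pairAD (V1 := V1) (V2 := V2) (kG1 x Q) (kG2 x Q L e) t)
        (fun z v => ind (P.Al (vmap x Q L) Dd (1 / 2) t v) * Phi s (Xn z t v)) u +
      2 * N * Real.sqrt (2 * ∑ G ∈ gE e, n.del' G.card (univ.erase e).card) := by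
  classical
  set U : Finset ι := univ.erase e with hU
  have hUu : U ≠ univ := (erase_ssub e).ne
  have hUK : U.card < K := by rw [← hK]; exact card_lt_of_prp hUu
  have hvf : Filt (vmap x Q L) := vmap_filt hR hM.filt
  have hL : ∀ I, Fac (fun u => (a u, xr x I u, Q t u)) (L t I) := fun I => hR.fac t I
  -- the alphabet
  have hcard : ∀ G ∈ gE e, (nv P (fun u => ((r t u).2, sel (fun H => H ⊂ U ∧ G.card < H.card) (L t) u))
      (fun u => (xr x U u, Q t u)) u : ℝ) ≤ Real.exp (Ap G.card U.card) := by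
    intro G hG
    set S : Finset (Finset ι) := univ.filter (fun H => H ⊂ U ∧ G.card < H.card) with hS
    have h1 : nv P (fun u => ((r t u).2, sel (fun H => H ⊂ U ∧ G.card < H.card) (L t) u)) (fun u => (xr x U u, Q t u)) u ≤
        nv P (fun u => (r t u).2) (fun u => (xr x U u, Q t u)) u *
          nv P (sel (fun H => H ∈ S) (L t)) (fun u => (xr x U u, Q t u)) u :=
      nv_pair (fun u v hh => by
        simp only [Prod.mk.injEq] at hh ⊢
        exact ⟨hh.1, sel_eq.2 (fun H hH => sel_eq.1 hh.2 H (Finset.mem_filter.2 ⟨Finset.mem_univ _, hH⟩))⟩) u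
    have h2 : (nv P (fun u => (r t u).2) (fun u => (xr x U u, Q t u)) u : ℝ) ≤ Real.exp A0 := by
      refine le_trans ?_ hA0
      exact_mod_cast nv_le_natcard (P := P) (fun u => (r t u).2) (fun u => (xr x U u, Q t u)) u
    have hSm : ∀ H ∈ S, H ⊂ U ∧ G.card < H.card := fun H hH => (Finset.mem_filter.1 hH).2
    have hSu : ∀ H ∈ S, H ≠ univ := fun H hH h3 => by
      have := (hSm H hH).1.1
      rw [h3] at this
      exact hUu (Finset.univ_subset_iff.1 this)
    have h3 : (nv P (sel (fun H => H ∈ S) (L t)) (fun u => (xr x U u, Q t u)) u : ℝ) ≤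
        Real.exp (∑ H ∈ S, n.aa H.card) := by
      refine nv_sel_sum (L t) (fun u => (xr x U u, Q t u)) u S (fun H hH => ?_)
      refine le_trans ?_ (hR.nvle t H (hSu H hH) u hu)
      have h4 : Fac (fun u => (xr x U u, Q t u)) (fun u => (xr x H u, Q t u)) := fun u v hh => by
        simp only [Prod.mk.injEq] at hh ⊢
        exact ⟨xr_mono x (hSm H hH).1.1 u v hh.1, hh.2⟩
      exact_mod_cast nv_anti (P := P) (X := L t H) h4 u
    have hGK : G.card < K := by rw [← hK]; exact card_lt_of_prp (mem_gE.1 hG).2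
    have h5 : A0 + ∑ i : Fin S.card, n.aa ((fun i : Fin S.card => (S.equivFin.symm i).1.card) i) ≤ n.Exp G.card U.card :=
      alph_le hn hX hc hGK hUK hA0X (N := S.card) (by
        rw [← hK, ← Fintype.card_finset]
        exact Finset.card_le_univ _) (fun i => ⟨(hSm _ (S.equivFin.symm i).2).2, by
          rw [← hK]
          exact card_lt_of_prp (hSu _ (S.equivFin.symm i).2)⟩)
    have h6 : ∑ i : Fin S.card, n.aa ((S.equivFin.symm i).1.card) = ∑ H ∈ S, n.aa H.card := by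
      rw [Equiv.sum_comp S.equivFin.symm (fun H : S => n.aa H.1.card)]
      exact Finset.sum_coe_sort S (fun H => n.aa H.card)
    have h7 : A0 + ∑ H ∈ S, n.aa H.card ≤ n.Exp G.card U.card := by
      rw [← h6]
      exact h5
    have h8 : (nv P (fun u => ((r t u).2, sel (fun H => H ⊂ U ∧ G.card < H.card) (L t) u)) (fun u => (xr x U u, Q t u)) u : ℝ) ≤
        (nv P (fun u => (r t u).2) (fun u => (xr x U u, Q t u)) u : ℝ) *
          (nv P (sel (fun H => H ∈ S) (L t)) (fun u => (xr x U u, Q t u)) u : ℝ) := by exact_mod_cast h1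
    refine h8.trans ((mul_le_mul h2 h3 (Nat.cast_nonneg _) (Real.exp_pos _).le).trans ?_)
    rw [← Real.exp_add]
    exact Real.exp_le_exp.2 (h7.trans (hAp G hG))
  have hip := record_free (P := P) (a := a) (x := x) (Q := Q t) (L := L t) (e := e) (R := fun u => (r t u).2) hu hL (hr2 t)
    (Ap := fun G => Ap G.card U.card) (dl := fun G => n.del' G.card U.card) hcard
    (fun G hG => hphi G (not_sub_of_gE hG) (mem_gE.1 hG).2)
  -- the processes
  have hXv : Fac (fun u => (sel (fun H => ¬ U ⊆ H) (L t) u, xr x univ u, Q t u)) (vmap x Q L t) := by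
    intro u v hh
    simp only [vmap, Prod.mk.injEq] at hh ⊢
    refine ⟨sel_eq.2 (fun I _ => ?_), hh.2.1, hh.2.2⟩
    by_cases hI : U ⊆ I
    · exact hLU t I hI u v
    · exact sel_eq.1 hh.1 I hI
  have hVf : ∀ z : V2, Fac (fun u => (sel (fun H => ¬ U ⊆ H) (L t) u, xr x univ u, Q t u))
      (fun v => ind (P.Al (vmap x Q L) Dd (1 / 2) t v) * Phi s (Xn ((r t v).1, z) t v)) := by
    intro z u v hh
    have h1 := hXv u v hh
    have h2 : ind (P.Al (vmap x Q L) Dd (1 / 2) t u) = ind (P.Al (vmap x Q L) Dd (1 / 2) t v) := P.al_fac hvf t u v h1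
    have h3 : (r t u).1 = (r t v).1 := hr1 t u v (by
      simp only [kG1, Prod.mk.injEq] at hh ⊢
      exact hh.2)
    have h4 : Xn ((r t v).1, z) t u = Xn ((r t v).1, z) t v :=
      (hp ((r t v).1, z)).X_fac t u v (vmap_name hR t u v h1)
    show ind (P.Al (vmap x Q L) Dd (1 / 2) t u) * Phi s (Xn ((r t u).1, z) t u) = _
    rw [h2, h3, h4]
  have hV0 : ∀ (z : V2) v, P.p v ≠ 0 → 0 ≤ ind (P.Al (vmap x Q L) Dd (1 / 2) t v) * Phi s (Xn ((r t v).1, z) t v) :=
    fun z v _ => mul_nonneg (ind_nonneg _) (Phi_nonneg _ _)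
  have hV1 : ∀ (z : V2) v, P.p v ≠ 0 → ind (P.Al (vmap x Q L) Dd (1 / 2) t v) * Phi s (Xn ((r t v).1, z) t v) ≤ N := by
    intro z v hv
    have h1 := (hp ((r t v).1, z)).bd t v hv
    refine le_trans ?_ h1
    have h2 := mul_le_mul_of_nonneg_right (ind_le_one (P.Al (vmap x Q L) Dd (1 / 2) t v))
      (Phi_nonneg s (Xn ((r t v).1, z) t v))
    rwa [one_mul] at h2
  obtain ⟨φ', hφ'⟩ := best_record (P := P) (a := a) (x := x) (Q := Q t) (L := L t) (e := e) (R := fun u => (r t u).2) hu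
    (hM.mdl.ind t (univ.erase e) {e} (Finset.disjoint_singleton_right.2 (Finset.notMem_erase e _))) hL (hr2 t) hip
    (V := fun z v => ind (P.Al (vmap x Q L) Dd (1 / 2) t v) * Phi s (Xn ((r t v).1, z) t v)) (N := N) hVf hV0 hV1
  have hle := pair_le_csup (P := P) (K := knq x Q U) (G1 := kG1 x Q) (G2 := kG2 x Q L e) (t := t)
    (fun z v => ind (P.Al (vmap x Q L) Dd (1 / 2) t v) * Phi s (Xn z t v)) (z1 := fun v => (r t v).1)
    (z2 := fun v => φ' (lt (L t) U v)) (hr1 t) (fun u v hh => by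
      simp only [kG2, Prod.mk.injEq] at hh
      show φ' (lt (L t) U u) = φ' (lt (L t) U v)
      rw [hh.1]) u
  have hfin : P.ce (knq x Q U t) (fun v => ind (P.Al (vmap x Q L) Dd (1 / 2) t v) * Phi s (Xn (r t v) t v)) u =
      P.ce (fun u => (xr x U u, Q t u)) (fun v => ind (P.Al (vmap x Q L) Dd (1 / 2) t v) *
        Phi s (Xn ((r t v).1, (r t v).2) t v)) u := rfl
  rw [hfin]
  refine hφ'.trans ?_
  have hle' : P.ce (fun u => (xr x U u, Q t u)) (fun v => ind (P.Al (vmap x Q L) Dd (1 / 2) t v) *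
      Phi s (Xn ((r t v).1, φ' (lt (L t) U v)) t v)) u ≤
      csup P (knq x Q U t) (pairAD (V1 := V1) (V2 := V2) (kG1 x Q) (kG2 x Q L e) t)
        (fun z v => ind (P.Al (vmap x Q L) Dd (1 / 2) t v) * Phi s (Xn z t v)) u := hle
  linarith

end stat

/-! ## the numbers; COLD_S for `|E| = 1` -/

section fin

variable {Om : Type*} [Fintype Om] {ι : Type*} [Fintype ι] [DecidableEq ι] {χ α : Type*} {κ ε φ : ℕ → Type*}
  {P : FP Om} {a : Om → α} {x : ι → Om → χ} {Q : ∀ t, Om → κ t} {D : ℕ → Om → ℝ} {E : ∀ t, Finset ι → Om → ε t}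
  {f : ∀ t, Finset ι → Om → φ t} {c0 : ℝ} {K c X C : ℕ} {T : ℕ} {L : ℕ → Finset ι → Om → ℕ}
  {fat : ℕ → Finset ι → Om → Prop} {n : Nums K c X} {V1 V2 : Type*}

/-- the error of the static lemma is small -/
theorem kap_le {c2 b e0 : ℕ} (hn : n.OK C) (hK : Fintype.card ι = K) (hX : 2 ≤ X) (hc2 : c = 2 * c2)
    (hcc2 : 6 * b + 6 * K + 3 * e0 + 17 ≤ c2) (e : ι) {N s s2 r1 : ℝ} (hN0 : 0 ≤ N) (hNb : N ≤ (X : ℝ) ^ (b : ℤ))
    (hs2 : s < s2) (hsb : 1 / (s2 - s) ^ 2 ≤ (X : ℝ) ^ (b : ℤ)) (hr1 : 0 < r1) (hr1e : 1 / r1 ≤ (X : ℝ) ^ (e0 : ℤ)) :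
    4 * (2 * N * Real.sqrt (2 * ∑ G ∈ gE e, n.del' G.card (univ.erase e).card)) ≤ r1 * (s2 - s) ^ 2 := by
  classical
  set Y : ℝ := (X : ℝ) with hYd
  have hY : 2 ≤ Y := by
    rw [hYd]
    exact_mod_cast hX
  have hY0 : 0 < Y := by linarith
  have hUK : (univ.erase e : Finset ι).card < K := by rw [← hK]; exact card_lt_of_prp (erase_ssub e).ne
  have h1 : ∀ G ∈ gE e, n.del' G.card (univ.erase e : Finset ι).card ≤ Y ^ (-(c : ℤ)) := by
    intro G hG
    have hGK : G.card < K := by rw [← hK]; exact card_lt_of_prp (mem_gE.1 hG).2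
    have h2 : n.del' G.card (univ.erase e : Finset ι).card ≤ n.del G.card (univ.erase e : Finset ι).card :=
      hn.be_anti _ _ 0 K hGK hUK (Nat.zero_le _)
    have h3 := hn.small G.card (univ.erase e : Finset ι).card hGK hUK
    have h4 := hn.hh_one G.card hGK
    have h5 : 0 < n.del G.card (univ.erase e : Finset ι).card := hn.be_pos _ _ 0 hGK hUK
    refine h2.trans (zp_of_mul hY ?_)
    refine le_trans ?_ h3
    have h6 : 0 ≤ Y ^ c * n.del G.card (univ.erase e : Finset ι).card := by positivity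
    calc Y ^ c * n.del G.card (univ.erase e : Finset ι).card = 1 * (Y ^ c * n.del G.card (univ.erase e : Finset ι).card) := by ring
      _ ≤ n.hh G.card * (Y ^ c * n.del G.card (univ.erase e : Finset ι).card) := mul_le_mul_of_nonneg_right h4 h6
      _ = _ := by ring
  have h2 : ∑ G ∈ gE e, n.del' G.card (univ.erase e : Finset ι).card ≤ Y ^ (K : ℤ) * Y ^ (-(c : ℤ)) := by
    refine (Finset.sum_le_card_nsmul _ _ _ h1).trans ?_
    rw [nsmul_eq_mul]
    refine mul_le_mul_of_nonneg_right (le_trans ?_ (zp_two_pow hY K)) (zp_pos hY _).le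
    have h3 : (gE e : Finset (Finset ι)).card ≤ 2 ^ K := by
      rw [← hK, ← Fintype.card_finset]
      exact Finset.card_le_univ _
    exact_mod_cast h3
  have h3 : Real.sqrt (2 * ∑ G ∈ gE e, n.del' G.card (univ.erase e : Finset ι).card) ≤ Y ^ ((K : ℤ) + 1 - c2) := by
    refine Real.sqrt_le_iff.2 ⟨(zp_pos hY _).le, ?_⟩
    have h4 : (2 : ℝ) ≤ Y ^ (1 : ℤ) := by rw [zpow_one]; exact hY
    have h5 : 2 * ∑ G ∈ gE e, n.del' G.card (univ.erase e : Finset ι).card ≤ Y ^ (1 : ℤ) * (Y ^ (K : ℤ) * Y ^ (-(c : ℤ))) := by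
      refine (mul_le_mul_of_nonneg_left h2 (by norm_num)).trans (mul_le_mul_of_nonneg_right h4 ?_)
      exact mul_nonneg (zp_pos hY _).le (zp_pos hY _).le
    refine h5.trans ?_
    rw [zp_mul hY, zp_mul hY, pow_two, zp_mul hY]
    refine zp_mono hY ?_
    rw [hc2]
    push_cast
    omega
  have h8 : (8 : ℝ) ≤ Y ^ (3 : ℤ) := by
    have := zp_two_pow hY 3
    norm_num at this
    exact this
  have h4 : 4 * (2 * N * Real.sqrt (2 * ∑ G ∈ gE e, n.del' G.card (univ.erase e : Finset ι).card)) ≤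
      Y ^ (-(e0 : ℤ) - b) := by
    have e1 : 4 * (2 * N * Real.sqrt (2 * ∑ G ∈ gE e, n.del' G.card (univ.erase e : Finset ι).card)) =
        8 * (N * Real.sqrt (2 * ∑ G ∈ gE e, n.del' G.card (univ.erase e : Finset ι).card)) := by ring
    rw [e1]
    refine zp_mul_le hY h8 (mul_nonneg hN0 (Real.sqrt_nonneg _)) (k := (b : ℤ) + (K + 1 - c2)) ?_ (by omega)
    exact zp_mul_le hY hNb (Real.sqrt_nonneg _) h3 (by omega)
  refine h4.trans ?_
  have h5 : 0 < (s2 - s) ^ 2 := pow_pos (by linarith) 2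
  have h6 : Y ^ (-(e0 : ℤ)) ≤ r1 := by
    rw [zpow_neg]
    refine inv_le_of_inv_le₀ hr1 ?_
    rwa [← one_div]
  have h7 : Y ^ (-(b : ℤ)) ≤ (s2 - s) ^ 2 := by
    rw [zpow_neg]
    refine inv_le_of_inv_le₀ h5 ?_
    rwa [← one_div]
  have h9 : Y ^ (-(e0 : ℤ) - b) = Y ^ (-(e0 : ℤ)) * Y ^ (-(b : ℤ)) := by
    rw [zp_mul hY]
    rfl
  rw [h9]
  exact mul_le_mul h6 h7 (zp_pos hY _).le hr1.le

/-- **COLD_S FOR ONE AVERAGED TYPE `e`**, `U = univ.erase e`: a number `z = (z.1, z.2)`, the true one `r t` has `z.1` a function of the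
exact vertices and the node, `z.2` a function of the hidden vertex, of `x_U` and of the node -/
theorem cs_pair [Finite V1] [Finite V2] [Nonempty V1] [Nonempty V2] {Xn g : V1 × V2 → ℕ → Om → ℝ} {ev Dd : ℕ → Om → Prop}
    {s N : ℝ} {c2 b e0 : ℕ} (hn : n.OK C) (hK : Fintype.card ι = K) (hX : 2 ≤ X)
    (hc2 : c = 2 * c2) (hcc2 : 6 * b + 6 * K + 3 * e0 + 17 ≤ c2) (hM : MdlI P a x Q D E c0) (hc0 : 0 < c0)
    (hat : ∀ t I u, P.p u ≠ 0 → c0 ≤ P.ce (fun u => (a u, xr x I u, Q t u)) (fun v => ind (Q (t + 1) v = Q (t + 1) u)) u)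
    (hR : RuleOut P a x Q D f n.AA n.w n.aa X T L fat) (hp : ∀ z, Proc P x Q D f (Xn z) (g z) ev Dd s N T)
    {Ap : ℕ → ℕ → ℝ} (hAp : ∀ s j, 0 ≤ Ap s j)
    (hsat : ∀ J, J ≠ univ → ∀ t ≤ T, ∀ u, P.p u ≠ 0 → SatAt P a x Q L fat n Ap J t u)
    {e : ι} (hU : ∅ ⊂ univ.erase e) (hApE : ∀ G ∈ gE e, n.Exp G.card (univ.erase e).card ≤ Ap G.card (univ.erase e).card)
    (hLU : ∀ t I, univ.erase e ⊆ I → ∀ u v, L t I u = L t I v) {A0 : ℝ}
    (hA0 : (Nat.card V2 : ℝ) ≤ Real.exp A0) (hA0X : 2 * A0 ≤ (X : ℝ) ^ c)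
    {S : V1 × V2 → ℕ → Om → Prop} {S' : ℕ → Om → Prop} {σ : ℝ}
    (hcold : ∀ J, J ⊂ univ.erase e → P.Pr (fun u => ∃ t ≤ T, ∃ z : Om → V1 × V2, pairAD (kG1 x Q) (kG2 x Q L e) t z ∧
      σ < P.ce (knq x Q J t) (fun v => ind (S (z v) t v)) u) ≤ (X : ℝ) ^ (-(c2 : ℤ)))
    (hXS : ∀ z t u, P.p u ≠ 0 → s < |Xn z t u| → ¬ Dd t u → S z t u) (cc : Finset ι → ℕ → Om → ℝ)
    (hcc : ∀ I, ∀ t < T, Fac (fun u => (a u, xr x I u, Q (t + 1) u)) (cc I (t + 1)))
    (hcc0 : ∀ I t u, P.p u ≠ 0 → 0 ≤ cc I t u)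
    (he : ∀ t < T, ∀ u, P.p u ≠ 0 → (∃ z, s < |Xn z t u|) → P.Al (vmap x Q L) Dd (1 / 2) (t + 1) u →
      ind (ev (t + 1) u) ≤ ∑ I ∈ (univ : Finset ι).ssubsets.filter (fun I => ¬ univ.erase e ⊆ I), cc I (t + 1) u)
    (hJn : ∀ I, I ≠ univ → ¬ univ.erase e ⊆ I → ∑ t ∈ range T, P.E (cc I (t + 1)) ≤ (X : ℝ) ^ (b : ℤ))
    {r : ℕ → Om → V1 × V2} (hra : ∀ t, Fac (kG1 x Q t) (fun u => (r t u).1))
    (hrb : ∀ t, Fac (fun u => (a u, xr x (univ.erase e) u, Q t u)) (fun u => (r t u).2))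
    {s2 : ℝ} (hs2 : s < s2) (hSX : ∀ t u, P.p u ≠ 0 → S' t u → ¬ Dd t u → s2 ≤ |Xn (r t u) t u|)
    {r1 : ℝ} (hr1 : 0 < r1)
    (hc0b : 1 / c0 ≤ (X : ℝ) ^ (b : ℤ)) (hNb : N ≤ (X : ℝ) ^ (b : ℤ)) (hsb : 1 / (s2 - s) ^ 2 ≤ (X : ℝ) ^ (b : ℤ))
    (hσ0 : 0 ≤ σ) (hσ : σ ≤ (X : ℝ) ^ (-((C : ℤ) + c))) (hr1e : 1 / r1 ≤ (X : ℝ) ^ (e0 : ℤ)) :
    P.Pr (fun u => ∃ t ≤ T, r1 ≤ P.ce (knq x Q (univ.erase e) t) (fun v => ind (S' t v)) u) ≤
      (X : ℝ) ^ (-(e0 : ℤ)) + (16 * N / (r1 * (s2 - s) ^ 2) + 6 / r1) * P.Pr (Dd T) := by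
  obtain ⟨w0, hw0⟩ := P.exists_p_ne
  have hN0 : 0 ≤ N := (Phi_nonneg _ _).trans ((hp (r 0 w0)).bd 0 w0 hw0)
  have hK1 : 1 ≤ K := by
    rw [← hK]
    exact Fintype.card_pos_iff.2 ⟨e⟩
  exact cs_numsq hn hK hK1 hX hc2 hcc2 hM hc0 hat hR hp hAp hsat hU (erase_ssub e).ne
    (kG_choice (V1 := V1) (V2 := V2) hR hM.filt e) hLU (S' := S') hcold hXS cc hcc hcc0 he hJn (r := r) hs2 hSX hr1
    (kap_le hn hK hX hc2 hcc2 e hN0 hNb hs2 hsb hr1 hr1e)
    (fun t _ u hu hphi => stat_pair hn hK hX (by omega) hM hR hp hA0 hA0X hApE hra hrb hLU hu hphi)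
    hc0b hNb hsb hσ0 hσ hr1e

end fin

end

end Pool.Agent.GMM.CSM
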