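import Pool.Agent.GMM.CM5V

/-!
# GMM/CSStep: the potential argument at an exact set `U` of known types, with a sup over admissible choices (helper28)

COLD_(m-2) (notes 3961, 3967), abstract form.  `Kn U t` = the exact vertices of the types in `U` and the node, `Kn univ t`
= all known vertices, `A t` = the labels too.  The named process `X z t` is given for every number `z : Z` (versions of
the known functions, entries of the record which is removed); an admissible choice at `t` (`AD t`) is a map `Om → Z`.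

* `csup` : the best admissible choice at the class; `csup_fac`, `le_csup`, `csup_opt` (glued optimal choice);
* `Choice` : what is used of the admissible choices: kept by the next node, functions of `A t`, gluing over classes;
* `csup_loss` : one level; `csemi` : alive semi points with any choice;
* **`cs_view`** : the theorem (analogue of `cm5_view` with `K0 = U`), semi event `S z` depending on the number: labels `L t I` with `I` not containing `U` only, all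
  losses are weighted by `U ∩ I`, a proper part of `U`.
-/

set_option autoImplicit false
set_option linter.unusedSectionVars false

namespace Pool.Agent.GMM

open Finset Pool.Agent.PWZ Pool.Agent.M3 Pool.Agent.M3.FP Pool.Agent.GMC

noncomputable section

variable {Om : Type*} [Fintype Om]

section csup

variable {κ : Type*} {Z : Type*}

/-- the best admissible choice at the class -/
def csup (P : FP Om) (K : Om → κ) (AD : (Om → Z) → Prop) (V : Z → Om → ℝ) (w : Om) : ℝ :=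
  ⨆ z : {z : Om → Z // AD z}, P.ce K (fun v => V (z.1 v) v) w

/-- choices may be glued over the classes of `K` -/
def Glue (K : Om → κ) (AD : (Om → Z) → Prop) : Prop :=
  ∀ zz : Om → Om → Z, (∀ w, AD (zz w)) → (∀ v w, K v = K w → zz v = zz w) → AD (fun v => zz v v)

theorem csup_fac (P : FP Om) (K : Om → κ) (AD : (Om → Z) → Prop) (V : Z → Om → ℝ) : Fac K (csup P K AD V) := by
  intro v w h
  unfold csup
  congr 1
  funext z
  exact P.ce_fac K _ v w h

theorem le_csup [Finite Z] {P : FP Om} {K : Om → κ} {AD : (Om → Z) → Prop} (V : Z → Om → ℝ) {z : Om → Z} (hz : AD z)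
    (w : Om) : P.ce K (fun v => V (z v) v) w ≤ csup P K AD V w := by
  unfold csup
  have h1 : BddAbove (Set.range fun z : {z : Om → Z // AD z} => P.ce K (fun v => V (z.1 v) v) w) :=
    (Set.finite_range _).bddAbove
  exact le_ciSup h1 ⟨z, hz⟩

theorem csup_att [Finite Z] {P : FP Om} {K : Om → κ} {AD : (Om → Z) → Prop} (V : Z → Om → ℝ) (hne : ∃ z, AD z)
    (w : Om) : ∃ z, AD z ∧ csup P K AD V w = P.ce K (fun v => V (z v) v) w := by
  obtain ⟨z0, hz0⟩ := hne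
  have : Nonempty {z : Om → Z // AD z} := ⟨⟨z0, hz0⟩⟩
  obtain ⟨z, hz⟩ := exists_eq_ciSup_of_finite (f := fun z : {z : Om → Z // AD z} => P.ce K (fun v => V (z.1 v) v) w)
  exact ⟨z.1, z.2, hz.symm⟩

theorem csup_nonneg [Finite Z] {P : FP Om} {K : Om → κ} {AD : (Om → Z) → Prop} {V : Z → Om → ℝ} (hne : ∃ z, AD z)
    (hV : ∀ z w, P.p w ≠ 0 → 0 ≤ V z w) (w : Om) : 0 ≤ csup P K AD V w := by
  obtain ⟨z, _, h⟩ := csup_att (P := P) (K := K) V hne w
  rw [h]
  exact P.ce_nonneg (fun v hv => hV _ v hv) w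

/-- functions which agree on the class -/
private theorem ce_cls {P : FP Om} {N : Om → κ} {f g : Om → ℝ} {w : Om} (h : ∀ v, N v = N w → f v = g v) :
    P.ce N f w = P.ce N g w := by
  unfold FP.ce
  congr 1
  refine P.E_congr (fun v _ => ?_)
  by_cases hv : N v = N w
  · rw [h v hv]
  · rw [ind_not hv, zero_mul, zero_mul]

/-- the optimal choices of all classes, glued -/
theorem csup_opt [Finite Z] {P : FP Om} {K : Om → κ} {AD : (Om → Z) → Prop} (V : Z → Om → ℝ) (hne : ∃ z, AD z)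
    (hg : Glue K AD) : ∃ z, AD z ∧ ∀ w, csup P K AD V w = P.ce K (fun v => V (z v) v) w := by
  classical
  have h1 : ∀ c : κ, ∃ z, AD z ∧ ∀ w, K w = c → csup P K AD V w = P.ce K (fun v => V (z v) v) w := by
    intro c
    by_cases hc : ∃ w, K w = c
    · obtain ⟨w, hw⟩ := hc
      obtain ⟨z, hz, h⟩ := csup_att (P := P) (K := K) V hne w
      refine ⟨z, hz, fun v hv => ?_⟩
      have hvw : K v = K w := by rw [hv, hw]
      rw [csup_fac P K AD V v w hvw, P.ce_fac K (fun u => V (z u) u) v w hvw]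
      exact h
    · obtain ⟨z, hz⟩ := hne
      exact ⟨z, hz, fun w hw => absurd ⟨w, hw⟩ hc⟩
  choose F hF hFv using h1
  refine ⟨fun v => F (K v) v, hg (fun v => F (K v)) (fun w => hF _) (fun v w h => by rw [h]), fun w => ?_⟩
  rw [hFv (K w) w rfl]
  exact ce_cls (fun v hv => by simp only [hv])

end csup

/-- what is used of the admissible choices -/
structure Choice {κ ι : ℕ → Type*} (K : ∀ t, Om → κ t) (A : ∀ t, Om → ι t) {Z : Type*} (AD : ℕ → (Om → Z) → Prop) :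
    Prop where
  ne : ∃ z, AD 0 z
  next : ∀ t z, AD t z → AD (t + 1) z
  fac : ∀ t z, AD t z → Fac (A t) z
  glue : ∀ t, Glue (K t) (AD t)

theorem Choice.ne' {κ ι : ℕ → Type*} {K : ∀ t, Om → κ t} {A : ∀ t, Om → ι t} {Z : Type*} {AD : ℕ → (Om → Z) → Prop}
    (h : Choice K A AD) (t : ℕ) : ∃ z, AD t z := by
  induction t with
  | zero => exact h.ne
  | succ t ih =>
    obtain ⟨z, hz⟩ := ih
    exact ⟨z, h.next t z hz⟩

section level

variable {P : FP Om} {κ ι : ℕ → Type*} {K : ∀ t, Om → κ t} {A : ∀ t, Om → ι t} {Z : Type*} [Finite Z]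
  {X g : Z → ℕ → Om → ℝ} {D : ℕ → Om → ℝ} {e a : ℕ → Om → Prop} {s N : ℝ} {AD : ℕ → (Om → Z) → Prop}

/-- one level for the best choice -/
theorem csup_loss (H : ∀ z, P.ViewHyp A (X z) (g z) D e a s N) (hK : Filt K) (hKA : ∀ t, Fac (A t) (K t))
    (hC : Choice K A AD) (t : ℕ) {w : Om} :
    csup P (K t) (AD t) (fun z v => ind (a t v) * Phi s (X z t v)) w ≤
      P.ce (K t) (csup P (K (t + 1)) (AD (t + 1)) (fun z v => ind (a (t + 1) v) * Phi s (X z (t + 1) v))) w +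
      N * P.ce (K t) (fun v => P.ce (A t) (D t) v ^ 2) w +
      N * P.ce (K t) (fun v => ind ((∃ z, s < |X z t v|) ∧ e (t + 1) v ∧ a (t + 1) v)) w +
      N * P.ce (K t) (fun v => ind (a t v ∧ ¬ a (t + 1) v)) w := by
  obtain ⟨z, hz, hopt⟩ := csup_opt (P := P) (K := K t) (AD := AD t)
    (fun z v => ind (a t v) * Phi s (X z t v)) (hC.ne' t) (hC.glue t)
  have hzA := hC.fac t z hz
  have z0 : Z := z w
  have hN0 : 0 ≤ N := by
    obtain ⟨w, hw⟩ := P.exists_p_ne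
    exact (Phi_nonneg _ _).trans ((H z0).bd 0 w hw)
  have hXf : Fac (A t) (fun v => X (z v) t v) := fun u v h => by
    have h1 := hzA u v h
    show X (z u) t u = X (z v) t v
    rw [h1]
    exact (H (z v)).X_fac t u v h
  have hgf : Fac (A t) (fun v => g (z v) t v) := fun u v h => by
    have h1 := hzA u v h
    show g (z u) t u = g (z v) t v
    rw [h1]
    exact (H (z v)).g_fac t u v h
  rw [hopt w]
  have h1 : P.ce (K t) (fun v => ind (a t v) * Phi s (X (z v) t v) -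
        N * (ind (a t v ∧ s < |X (z v) t v|) * P.ce (A t) (D t) v ^ 2) -
        N * P.ce (A t) (fun v => ind (s < |X (z v) t v| ∧ e (t + 1) v ∧ a (t + 1) v)) v -
        N * P.ce (A t) (fun v => ind (a t v ∧ ¬ a (t + 1) v)) v) w ≤
      P.ce (K t) (P.ce (A t) (fun v => ind (a (t + 1) v) * Phi s (X (z v) (t + 1) v))) w :=
    P.ce_mono (fun v hv => P.step_loss hXf hgf ((H z0).a_fac t) ((H z0).a_anti t) ((H z0).digit t)
      (fun u hu he => (H (z u)).step t u hu he)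
      (fun u hu => (H (z u)).bd t u hu) (fun u hu => (H (z u)).bd' t u hu) hv) w
  rw [P.ce_sub, P.ce_sub, P.ce_sub, P.ce_smul, P.ce_smul, P.ce_smul, P.ce_tower (hKA t), P.ce_tower (hKA t),
    P.ce_tower (hKA t)] at h1
  have e3 : P.ce (K t) (fun v => ind (a (t + 1) v) * Phi s (X (z v) (t + 1) v)) w ≤
      P.ce (K t) (csup P (K (t + 1)) (AD (t + 1)) (fun z v => ind (a (t + 1) v) * Phi s (X z (t + 1) v))) w := by
    rw [← P.ce_tower (hK t) (fun v => ind (a (t + 1) v) * Phi s (X (z v) (t + 1) v)) w]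
    exact P.ce_mono (fun v _ => le_csup (P := P) (K := K (t + 1)) (AD := AD (t + 1))
      (fun z v => ind (a (t + 1) v) * Phi s (X z (t + 1) v)) (hC.next t z hz) v) w
  have h2 : P.ce (K t) (fun v => ind (a t v ∧ s < |X (z v) t v|) * P.ce (A t) (D t) v ^ 2) w ≤
      P.ce (K t) (fun v => P.ce (A t) (D t) v ^ 2) w :=
    P.ce_mono (fun v _ => mul_le_of_le_one_left (sq_nonneg _) (ind_le_one _)) w
  have h3 := mul_le_mul_of_nonneg_left h2 hN0
  have h4 : P.ce (K t) (fun v => ind (s < |X (z v) t v| ∧ e (t + 1) v ∧ a (t + 1) v)) w ≤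
      P.ce (K t) (fun v => ind ((∃ z, s < |X z t v|) ∧ e (t + 1) v ∧ a (t + 1) v)) w :=
    P.ce_mono (fun v _ => ind_mono (fun h => ⟨⟨z v, h.1⟩, h.2⟩)) w
  have h5 := mul_le_mul_of_nonneg_left h4 hN0
  linarith

end level

section semi

variable {P : FP Om} {ι : ℕ → Type*} {A : ∀ t, Om → ι t} {Z : Type*}
  {X g : Z → ℕ → Om → ℝ} {D : ℕ → Om → ℝ} {e Dd : ℕ → Om → Prop} {s N : ℝ}

/-- alive semi points of any choice, given a coarser map: at most twice the test -/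
theorem csemi (H : ∀ z, P.ViewHyp A (X z) (g z) D e (P.Al A Dd (1 / 2)) s N) {t : ℕ} {z : Om → Z} (hz : Fac (A t) z)
    {S : Om → Prop} (hXS : ∀ w, P.p w ≠ 0 → s < |X (z w) t w| → ¬ Dd t w → S w)
    {υ : Type*} {Y : Om → υ} (hY : Fac (A t) Y) {θ : ℝ} {w : Om} (hθ : P.ce Y (fun v => ind (S v)) w ≤ θ) :
    P.ce Y (fun v => ind (P.Al A Dd (1 / 2) t v) * Phi s (X (z v) t v)) w ≤ 2 * N * θ := by
  have z0 : Z := z w
  have hN0 : 0 ≤ N := by
    obtain ⟨w, hw⟩ := P.exists_p_ne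
    exact (Phi_nonneg _ _).trans ((H z0).bd 0 w hw)
  have h1 : P.ce Y (fun v => ind (P.Al A Dd (1 / 2) t v) * Phi s (X (z v) t v)) w ≤
      N * P.ce Y (fun v => ind (s < |X (z v) t v| ∧ P.Al A Dd (1 / 2) t v)) w := by
    rw [← P.ce_smul]
    refine P.ce_mono (fun v hv => ?_) w
    by_cases ha : P.Al A Dd (1 / 2) t v
    · by_cases hx : s < |X (z v) t v|
      · rw [ind_of ha, ind_of (⟨hx, ha⟩ : s < |X (z v) t v| ∧ P.Al A Dd (1 / 2) t v), one_mul, mul_one]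
        exact (H (z v)).bd t v hv
      · rw [Phi_eq_zero (not_lt.mp hx), mul_zero]
        exact mul_nonneg hN0 (ind_nonneg _)
    · rw [ind_not ha, zero_mul]
      exact mul_nonneg hN0 (ind_nonneg _)
  have h2 := P.maj_ce (c := 1 / 2) (H z0).filt hY (D := Dd) (S := fun v => s < |X (z v) t v|) (S' := S)
    (fun v w h => by
      have h3 := hz v w h
      show s < |X (z v) t v| ↔ s < |X (z w) t w|
      rw [h3, (H (z w)).X_fac t v w h]) hXS w
  have h3 : P.ce Y (fun v => ind (S v ∧ ¬ Dd t v)) w ≤ θ :=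
    (P.ce_mono (fun v _ => ind_mono (fun h => h.1)) w).trans hθ
  have h4 : P.ce Y (fun v => ind (s < |X (z v) t v| ∧ P.Al A Dd (1 / 2) t v)) w ≤ 2 * θ := by linarith
  calc _ ≤ N * P.ce Y (fun v => ind (s < |X (z v) t v| ∧ P.Al A Dd (1 / 2) t v)) w := h1
    _ ≤ N * (2 * θ) := mul_le_mul_of_nonneg_left h4 hN0
    _ = 2 * N * θ := by ring

end semi

variable {P : FP Om}

/-- a constant label has no information -/
theorem ip_const_mid {κ ι ν υ : Type*} (X : Om → κ) {Y : Om → υ} (hY : ∀ u v, Y u = Y v) (Z : Om → ι) (N : Om → ν)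
    (w : Om) : GMC.ip P X Y Z N w = 0 := by
  have e1 : GMC.ip P X Y Z N w = GMC.ip P X (fun _ : Om => ()) Z N w :=
    ip_congr P (Fac.fst _ _) (fun _ _ _ => rfl) ((Fac.fst _ _)) (Fac.refl _) (Fac.fst _ _)
      (fun u v _ => hY u v) ((Fac.fst _ _)) (Fac.refl _) w
  rw [e1]
  unfold GMC.ip
  have e2 : hp P X (fun u => ((fun _ : Om => ()) u, Z u)) N w = hp P X Z N w := by
    refine hp_congr P (Fac.fst _ _) ?_ (Fac.refl _) (Fac.fst _ _) ?_ (Fac.refl _) w
    · exact (Fac.fst _ _).trans (Fac.snd _ _)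
    · exact Fac.prod (Fac.const _ _) (Fac.fst _ _)
  linarith

/-- THE THEOREM AT AN EXACT SET `U` OF KNOWN TYPES, with the best admissible choice.  Nothing is assumed at dead points. -/
theorem cs_view {ι : Type*} [Fintype ι] [DecidableEq ι] {κ : Finset ι → ℕ → Type*} {Kn : ∀ J t, Om → κ J t}
    {hot : Finset ι → ℕ → Om → Prop} {Cc c0 : ℝ} (hF : Frame P Kn Cc c0) (hCc : 0 ≤ Cc)
    (hhot : ∀ J t v w, Kn J t v = Kn J t w → (hot J t v ↔ hot J t w)) {R : ℕ} (hR : Fintype.card ι = R + 1)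
    {U : Finset ι} (hU : ∅ ⊂ U) (T : ℕ)
    {ι' : ℕ → Type*} {A : ∀ t, Om → ι' t} {Z : Type*} [Finite Z] {X g : Z → ℕ → Om → ℝ} {D : ℕ → Om → ℝ}
    {e Dd : ℕ → Om → Prop} {s N : ℝ} (H : ∀ z, P.ViewHyp A (X z) (g z) D e (P.Al A Dd (1 / 2)) s N)
    (hKA : ∀ t, Fac (A t) (Kn univ t)) {AD : ℕ → (Om → Z) → Prop} (hC : Choice (Kn U) A AD)
    {Λ : Type*} {L : ℕ → Finset ι → Om → Λ} (hLU : ∀ t I, U ⊆ I → ∀ u v, L t I u = L t I v)
    (hLA : ∀ t, Fac (fun u => (Lf (L t) (szlt ι (R + 1)) u, Kn univ t u)) (A t))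
    (hDK : ∀ t, Fac (Kn univ (t + 1)) (D t)) (hfair : ∀ t < T, ∀ w, P.p w ≠ 0 → P.ce (Kn univ t) (D t) w = 0)
    (hop : ∀ t, OpN (L t) (L (t + 1)) (Kn univ (t + 1)))
    (hDd : ∀ t w, P.p w ≠ 0 → Dd t w → Dd (t + 1) w) {S : Z → ℕ → Om → Prop}
    (hXS : ∀ z t w, P.p w ≠ 0 → s < |X z t w| → ¬ Dd t w → S z t w)
    (dI oI cc : Finset ι → ℕ → Om → ℝ) {ζ : Finset ι → ℕ → Type*} (Zc : ∀ I t, Om → ζ I t)
    (hdI : ∀ I, ∀ t < T, Fac (Kn I t) (dI I t)) (hoI : ∀ I, ∀ t < T, Fac (Kn I (t + 1)) (oI I (t + 1)))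
    (hcc : ∀ I, ∀ t < T, Fac (Zc I (t + 1)) (cc I (t + 1)))
    (hdI0 : ∀ I t w, P.p w ≠ 0 → 0 ≤ dI I t w) (hoI0 : ∀ I t w, P.p w ≠ 0 → 0 ≤ oI I t w)
    (hcc0 : ∀ I t w, P.p w ≠ 0 → 0 ≤ cc I t w)
    (hcd : ∀ I, I ⊂ univ → ¬ U ⊆ I → ∀ t < T, ∀ w, P.p w ≠ 0 →
      cI P (L t) (Kn univ t) I (Kn univ (t + 1)) w ≤ dI I t w)
    (hco : ∀ I, I ⊂ univ → ¬ U ⊆ I → ∀ t < T, ∀ w, P.p w ≠ 0 →
      cO P (L t) (L (t + 1)) (Kn univ (t + 1)) I w ≤ oI I (t + 1) w)
    (hZ : ∀ I, ∀ t < T, ∀ h : Om → ℝ, (∀ w, 0 ≤ h w) → Fac (Kn U t) h → ∀ w, P.p w ≠ 0 →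
      P.ce (Zc I (t + 1)) h w ≤ Cc * P.ce (Kn (U ∩ I) t) h w)
    (he : ∀ t < T, ∀ w, P.p w ≠ 0 → (∃ z, s < |X z t w|) → P.Al A Dd (1 / 2) (t + 1) w →
      ind (e (t + 1) w) ≤ ∑ I ∈ (univ : Finset ι).ssubsets.filter (fun I => ¬ U ⊆ I), cc I (t + 1) w)
    {σ : Finset ι → ℝ} {y : ℕ → Finset ι → ℝ} (hσ : ∀ J, 0 ≤ σ J) (hy : ∀ r J, 0 ≤ y r J)
    (hS : ∀ J, J ⊂ U → ∀ t ≤ T, ∀ w, P.p w ≠ 0 → ¬ hot J t w → pal P Kn hot J t w → ∀ z, AD t z →
      P.ce (Kn J t) (fun v => ind (S (z v) t v)) w ≤ σ J)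
    (hM : ∀ r < R, ∀ J, J ⊂ U → ∀ t ≤ T, ∀ w, P.p w ≠ 0 → ¬ hot J t w → pal P Kn hot J t w →
      P.ce (Kn J t) (MM P (L t) (Kn univ t) (r + 1)) w ≤ y (r + 1) J)
    {ρ : ℝ} (hρ : 0 < ρ) :
    ρ * P.Pr (fun w => ∃ t ≤ T, pal P Kn hot U t w ∧
        2 * ρ ≤ csup P (Kn U t) (AD t) (fun z v => ind (P.Al A Dd (1 / 2) t v) * Phi s (X z t v)) w) ≤
      (2 * N * σ ∅ + ((R : ℝ) + 1) * ∑ r : Fin R, 2 * N * y (r + 1) ∅) +
      ∑ J ∈ U.ssubsets, (2 * N * σ J + ((R : ℝ) + 1) * ∑ r : Fin R, 2 * N * y (r + 1) J) +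
      2 * N * P.Pr (Dd T) +
      Cc * (((R : ℝ) + 1) / ρ) * ∑ I ∈ (univ : Finset ι).ssubsets.filter (fun I => ¬ U ⊆ I), 2 * N * σ (U ∩ I) *
        (2 * N * ∑ t ∈ range T, (P.E (dI I t) + P.E (oI I (t + 1))) + N * ∑ t ∈ range T, P.E (cc I (t + 1))) +
      Cc * (((R : ℝ) + 1) ^ 2 / ρ) * ∑ r : Fin R, ∑ I ∈ (sz ι (r + 1)).filter (fun I => ¬ U ⊆ I),
        2 * N * y (r + 1) (U ∩ I) * (2 * N * ∑ t ∈ range T, (P.E (dI I t) + P.E (oI I (t + 1)))) := by
  classical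
  obtain ⟨z0', hz0'⟩ := hC.ne
  obtain ⟨w0, hw0⟩ := P.exists_p_ne
  have z0 : Z := z0' w0
  have hN0 : 0 ≤ N := (Phi_nonneg _ _).trans ((H z0).bd 0 w0 hw0)
  set BB : Finset (Finset ι) := (univ : Finset ι).ssubsets.filter (fun I => ¬ U ⊆ I) with hBB
  set pi : ℕ → Om → ℝ := fun t => csup P (Kn U t) (AD t)
    (fun z v => ind (P.Al A Dd (1 / 2) t v) * Phi s (X z t v)) with hpi
  set Ar : Fin R → ℕ → Om → ℝ := fun r t w => 2 * N * P.ce (Kn U t) (MM P (L t) (Kn univ t) (r + 1)) w with hAr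
  set f0 : (Finset ι × Bool) → ℕ → Om → ℝ := fun i t w =>
    if i.2 then N * cc i.1 t w else 2 * N * (dI i.1 (t - 1) w + oI i.1 t w) with hf0d
  set gg : ℕ → Om → ℝ := fun t w => N * ind (P.Al A Dd (1 / 2) (t - 1) w ∧ ¬ P.Al A Dd (1 / 2) t w) with hggd
  set Zs : (Finset ι × Bool) → ℕ → Om → Set Om := fun i t =>
    if i.2 then cls (Zc i.1 t) else cls (Kn i.1 t) with hZs
  set SS : Finset (Finset ι × Bool) := BB ×ˢ {true, false} with hSS
  set Sr : Fin R → Finset (Finset ι × Bool) := fun r => ((sz ι (r + 1)).filter (fun I => ¬ U ⊆ I)) ×ˢ {false} with hSr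
  have hmem : ∀ {I : Finset ι}, ¬ U ⊆ I → U ∩ I ⊂ U := fun {I} h => by
    refine Finset.ssubset_iff_subset_ne.2 ⟨Finset.inter_subset_left, fun h2 => h ?_⟩
    rw [← h2]
    exact Finset.inter_subset_right
  have hmemSS : ∀ i ∈ SS, U ∩ i.1 ⊂ U := by
    intro i hi
    rw [hSS, Finset.mem_product, hBB, Finset.mem_filter] at hi
    exact hmem hi.1.2
  have hmemSr : ∀ r, ∀ i ∈ Sr r, U ∩ i.1 ⊂ U := by
    intro r i hi
    simp only [hSr, Finset.mem_product, Finset.mem_filter] at hi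
    exact hmem hi.1.2
  have hszU : ∀ r : ℕ, r < R → ∀ I ∈ sz ι (r + 1), I ⊂ univ := by
    intro r hr I hI
    rw [← Finset.mem_ssubsets, ssub_univ_eq, mem_szlt, mem_sz.1 hI, hR]
    omega
  have hpi0 : ∀ t w, 0 ≤ pi t w := fun t w =>
    csup_nonneg (hC.ne' t) (fun z v _ => mul_nonneg (ind_nonneg _) (Phi_nonneg _ _)) w
  -- the sum over all losses
  have hsum0 : ∀ t v, ∑ i ∈ SS, f0 i (t + 1) v = ∑ I ∈ BB, N * cc I (t + 1) v +
      ∑ I ∈ BB, 2 * N * (dI I t v + oI I (t + 1) v) := by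
    intro t v
    rw [hSS, Finset.sum_product, ← Finset.sum_add_distrib]
    refine Finset.sum_congr rfl fun I _ => ?_
    rw [Finset.sum_pair (by decide)]
    simp [hf0d]
  have hsum1 : ∀ r t v, ∑ i ∈ Sr r, f0 i (t + 1) v =
      ∑ I ∈ (sz ι (r + 1)).filter (fun I => ¬ U ⊆ I), 2 * N * (dI I t v + oI I (t + 1) v) := by
    intro r t v
    simp only [hSr]
    rw [Finset.sum_product]
    refine Finset.sum_congr rfl fun I _ => ?_
    rw [Finset.sum_singleton]
    simp [hf0d]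
  -- weights
  have kZ : ∀ i : Finset ι × Bool, ∀ t < T, ∀ h : Om → ℝ, (∀ w, 0 ≤ h w) → Fac (Kn U t) h → ∀ w, P.p w ≠ 0 →
      P.ce (Zs i (t + 1)) h w ≤ Cc * P.ce (Kn (U ∩ i.1) t) h w := by
    intro i t ht h hh0 hh w hw
    by_cases hi : i.2 = true
    · have e1 : Zs i (t + 1) = cls (Zc i.1 (t + 1)) := by simp only [hZs]; rw [if_pos hi]
      rw [e1, P.ce_congr_map (fac_cls (Zc i.1 (t + 1))) (cls_fac (Zc i.1 (t + 1))) h w]
      exact hZ i.1 t ht h hh0 hh w hw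
    · have e1 : Zs i (t + 1) = cls (Kn i.1 (t + 1)) := by simp only [hZs]; rw [if_neg hi]
      rw [e1, P.ce_congr_map (fac_cls (Kn i.1 (t + 1))) (cls_fac (Kn i.1 (t + 1))) h w]
      exact hF.child U i.1 t h hh0 hh w hw
  have kf : ∀ i : Finset ι × Bool, ∀ t < T, Fac (Zs i (t + 1)) (f0 i (t + 1)) := by
    intro i t ht
    by_cases hi : i.2 = true
    · have e1 : Zs i (t + 1) = cls (Zc i.1 (t + 1)) := by simp only [hZs]; rw [if_pos hi]
      have e2 : f0 i (t + 1) = fun w => N * cc i.1 (t + 1) w := by funext w; simp only [hf0d]; rw [if_pos hi]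
      rw [e1, e2]
      exact (fac_cls _).trans (Fac.mul (Fac.const _ _) (hcc i.1 t ht))
    · have e1 : Zs i (t + 1) = cls (Kn i.1 (t + 1)) := by simp only [hZs]; rw [if_neg hi]
      have e2 : f0 i (t + 1) = fun w => 2 * N * (dI i.1 t w + oI i.1 (t + 1) w) := by
        funext w; simp only [hf0d]; rw [if_neg hi, Nat.add_sub_cancel]
      rw [e1, e2]
      exact (fac_cls _).trans (Fac.mul (Fac.const _ _)
        (Fac.add ((hF.filt i.1 t).trans (hdI i.1 t ht)) (hoI i.1 t ht)))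
  have kf0 : ∀ (i : Finset ι × Bool) t w, P.p w ≠ 0 → 0 ≤ f0 i t w := by
    intro i t w hw
    simp only [hf0d]
    split_ifs
    · exact mul_nonneg hN0 (hcc0 _ _ w hw)
    · exact mul_nonneg (by positivity) (add_nonneg (hdI0 _ _ w hw) (hoI0 _ _ w hw))
  -- labels of sets which contain `U` have no losses
  have hz1 : ∀ I, U ⊆ I → ∀ t w, cI P (L t) (Kn univ t) I (Kn univ (t + 1)) w = 0 := fun I hI t w =>
    ip_const_mid (P := P) _ (hLU t I hI) _ _ w
  have hz2 : ∀ I, U ⊆ I → ∀ t w, cO P (L t) (L (t + 1)) (Kn univ (t + 1)) I w = 0 := fun I hI t w =>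
    ip_const_mid (P := P) _ (hLU t I hI) _ _ w
  have hUK : ∀ t, Fac (Kn univ t) (Kn U t) := fun t => hF.mono U univ t (Finset.subset_univ _)
  -- the local losses dominate
  have hloc : ∀ I ∈ (univ : Finset ι).ssubsets, ∀ t < T, ∀ w, P.p w ≠ 0 →
      cI P (L t) (Kn univ t) I (Kn univ (t + 1)) w + P.ce (Kn univ t) (cO P (L t) (L (t + 1)) (Kn univ (t + 1)) I) w ≤
        if ¬ U ⊆ I then P.ce (Kn univ t) (fun v => dI I t v + oI I (t + 1) v) w else 0 := by
    intro I hI t ht w hw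
    by_cases hUI : U ⊆ I
    · rw [if_neg (not_not.2 hUI), hz1 I hUI]
      have e1 : cO P (L t) (L (t + 1)) (Kn univ (t + 1)) I = fun _ => (0 : ℝ) := by
        funext v
        exact hz2 I hUI t v
      rw [e1, P.ce_const _ 0 hw, add_zero]
    · rw [if_pos hUI, P.ce_add]
      have hI' := Finset.mem_ssubsets.1 hI
      refine add_le_add ?_ (P.ce_mono (fun v hv => hco I hI' hUI t ht v hv) w)
      have h1 : P.ce (Kn univ t) (fun v => dI I t v) w = dI I t w :=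
        P.ce_of_fac (h := dI I t) ((hF.mono I univ t (Finset.subset_univ _)).trans (hdI I t ht)) hw
      rw [h1]
      exact hcd I hI' hUI t ht w hw
  -- the bias
  have hbias : ∀ t < T, ∀ w, P.p w ≠ 0 → P.ce (Kn univ t) (fun v => P.ce (A t) (D t) v ^ 2) w ≤
      2 * ∑ r : Fin R, (P.ce (Kn univ t) (MM P (L (t + 1)) (Kn univ (t + 1)) (r + 1)) w -
        MM P (L t) (Kn univ t) (r + 1) w) +
      2 * ∑ I ∈ BB, P.ce (Kn univ t) (fun v => dI I t v + oI I (t + 1) v) w := by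
    intro t ht w hw
    have h2 := bias_le P ((H z0).digit t) (hKA t) (hLA t) (hDK t) (hfair t ht) hw
    have h3 := O3 P (hF.filt univ t) (hop t) (R + 1) hw
    have h4 : ∑ r ∈ range (R + 1), (P.ce (Kn univ t) (MM P (L (t + 1)) (Kn univ (t + 1)) r) w - MM P (L t) (Kn univ t) r w) =
        ∑ r : Fin R, (P.ce (Kn univ t) (MM P (L (t + 1)) (Kn univ (t + 1)) (r + 1)) w - MM P (L t) (Kn univ t) (r + 1) w) := by
      rw [Finset.sum_range_succ', MM_zero]
      have e : (MM P (L (t + 1)) (Kn univ (t + 1)) 0) = fun _ => (0 : ℝ) := by funext v; exact MM_zero P _ _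
      rw [e, P.ce_const _ 0 hw, sub_zero, add_zero]
      exact Finset.sum_range (fun r => P.ce (Kn univ t) (MM P (L (t + 1)) (Kn univ (t + 1)) (r + 1)) w -
        MM P (L t) (Kn univ t) (r + 1) w)
    have h5 : ∑ r ∈ range (R + 1), ∑ I ∈ sz ι r, (cI P (L t) (Kn univ t) I (Kn univ (t + 1)) w +
        P.ce (Kn univ t) (cO P (L t) (L (t + 1)) (Kn univ (t + 1)) I) w) ≤
        ∑ I ∈ BB, P.ce (Kn univ t) (fun v => dI I t v + oI I (t + 1) v) w := by
      rw [sum_sizes (R + 1) (fun I => cI P (L t) (Kn univ t) I (Kn univ (t + 1)) w +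
        P.ce (Kn univ t) (cO P (L t) (L (t + 1)) (Kn univ (t + 1)) I) w), hBB, Finset.sum_filter, ssub_univ_eq, hR]
      refine Finset.sum_le_sum fun I hI => ?_
      refine hloc I ?_ t ht w hw
      rw [ssub_univ_eq, hR]
      exact hI
    rw [h4] at h3
    linarith
  have hbiasK : ∀ t < T, ∀ w, P.p w ≠ 0 → P.ce (Kn U t) (fun v => P.ce (A t) (D t) v ^ 2) w ≤
      2 * ∑ r : Fin R, (P.ce (Kn U t) (P.ce (Kn U (t + 1)) (MM P (L (t + 1)) (Kn univ (t + 1)) (r + 1))) w -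
        P.ce (Kn U t) (MM P (L t) (Kn univ t) (r + 1)) w) +
      2 * ∑ I ∈ BB, P.ce (Kn U t) (fun v => dI I t v + oI I (t + 1) v) w := by
    intro t ht w hw
    have h1 : P.ce (Kn U t) (P.ce (Kn univ t) (fun v => P.ce (A t) (D t) v ^ 2)) w ≤
        P.ce (Kn U t) (fun w => 2 * ∑ r : Fin R, (P.ce (Kn univ t) (MM P (L (t + 1)) (Kn univ (t + 1)) (r + 1)) w -
          MM P (L t) (Kn univ t) (r + 1) w) +
        2 * ∑ I ∈ BB, P.ce (Kn univ t) (fun v => dI I t v + oI I (t + 1) v) w) w :=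
      P.ce_mono (fun v hv => hbias t ht v hv) w
    rw [P.ce_tower (hUK t)] at h1
    refine h1.trans (le_of_eq ?_)
    rw [P.ce_add, P.ce_smul, P.ce_smul, P.ce_sum, P.ce_sum]
    congr 1
    · congr 1
      refine Finset.sum_congr rfl fun r _ => ?_
      rw [P.ce_sub]
      congr 1
      · have e1 := P.ce_tower (hUK t) (MM P (L (t + 1)) (Kn univ (t + 1)) (r + 1)) w
        have e2 := P.ce_tower (hF.filt U t) (MM P (L (t + 1)) (Kn univ (t + 1)) (r + 1)) w
        rw [e2]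
        exact e1
    · congr 1
      refine Finset.sum_congr rfl fun I _ => ?_
      exact P.ce_tower (hUK t) (fun v => dI I t v + oI I (t + 1) v) w
  have ks0 : ∀ t < T, ∀ w, P.p w ≠ 0 → pal P Kn hot U t w →
      pi t w + ∑ r, Ar r t w ≤ P.ce (Kn U t) (fun v => pi (t + 1) v + ∑ r, Ar r (t + 1) v +
        (∑ i ∈ SS, f0 i (t + 1) v + gg (t + 1) v)) w := by
    intro t ht w hw _
    have h1 := csup_loss (P := P) H (hF.filt U) (fun t => (hKA t).trans (hUK t)) hC t (w := w)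
    have h2 := hbiasK t ht w hw
    have h6 : P.ce (Kn U t) (fun v => ind ((∃ z, s < |X z t v|) ∧ e (t + 1) v ∧ P.Al A Dd (1 / 2) (t + 1) v)) w ≤
        ∑ I ∈ BB, P.ce (Kn U t) (fun v => cc I (t + 1) v) w := by
      rw [← P.ce_sum]
      refine P.ce_mono (fun v hv => ?_) w
      by_cases hq : (∃ z, s < |X z t v|) ∧ e (t + 1) v ∧ P.Al A Dd (1 / 2) (t + 1) v
      · exact (ind_mono (fun h => h.2.1)).trans (he t ht v hv hq.1 hq.2.2)
      · rw [ind_not hq]
        exact Finset.sum_nonneg (fun I _ => hcc0 I _ v hv)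
    have h7 : P.ce (Kn U t) (fun v => pi (t + 1) v + ∑ r, Ar r (t + 1) v +
        (∑ i ∈ SS, f0 i (t + 1) v + gg (t + 1) v)) w =
        P.ce (Kn U t) (fun v => pi (t + 1) v) w +
        ∑ r : Fin R, 2 * N * P.ce (Kn U t) (P.ce (Kn U (t + 1)) (MM P (L (t + 1)) (Kn univ (t + 1)) (r + 1))) w +
        ((∑ I ∈ BB, N * P.ce (Kn U t) (fun v => cc I (t + 1) v) w +
          ∑ I ∈ BB, 2 * N * P.ce (Kn U t) (fun v => dI I t v + oI I (t + 1) v) w) +
        N * P.ce (Kn U t) (fun v => ind (P.Al A Dd (1 / 2) t v ∧ ¬ P.Al A Dd (1 / 2) (t + 1) v)) w) := by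
      have e1 : (fun v => pi (t + 1) v + ∑ r, Ar r (t + 1) v + (∑ i ∈ SS, f0 i (t + 1) v + gg (t + 1) v)) =
          fun v => pi (t + 1) v + ∑ r : Fin R, 2 * N * P.ce (Kn U (t + 1)) (MM P (L (t + 1)) (Kn univ (t + 1)) (r + 1)) v +
          ((∑ I ∈ BB, N * cc I (t + 1) v + ∑ I ∈ BB, 2 * N * (dI I t v + oI I (t + 1) v)) +
            N * ind (P.Al A Dd (1 / 2) t v ∧ ¬ P.Al A Dd (1 / 2) (t + 1) v)) := by
        funext v
        rw [hsum0]
        simp only [hAr, hggd, Nat.add_sub_cancel]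
      rw [e1]
      rw [P.ce_add, P.ce_add, P.ce_add, P.ce_add, P.ce_sum, P.ce_sum, P.ce_sum, P.ce_smul]
      congr 1
      · congr 1
        exact Finset.sum_congr rfl fun r _ => P.ce_smul _ _ _ _
      · congr 2
        · exact Finset.sum_congr rfl fun r _ => P.ce_smul _ _ _ _
        · exact Finset.sum_congr rfl fun r _ => P.ce_smul _ _ _ _
    rw [h7]
    have h8 : ∑ r : Fin R, Ar r t w = ∑ r : Fin R, 2 * N * P.ce (Kn U t) (MM P (L t) (Kn univ t) (r + 1)) w := rfl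
    rw [h8, ← Finset.mul_sum, ← Finset.mul_sum, ← Finset.mul_sum, ← Finset.mul_sum]
    rw [Finset.sum_sub_distrib] at h2
    have h9 := mul_le_mul_of_nonneg_left h2 hN0
    have h12 := mul_le_mul_of_nonneg_left h6 hN0
    have h13 : pi t w = csup P (Kn U t) (AD t) (fun z v => ind (P.Al A Dd (1 / 2) t v) * Phi s (X z t v)) w := rfl
    rw [h13]
    have h14 : P.ce (Kn U t) (csup P (Kn U (t + 1)) (AD (t + 1)) (fun z v => ind (P.Al A Dd (1 / 2) (t + 1) v) *
      Phi s (X z (t + 1) v))) w = P.ce (Kn U t) (fun v => pi (t + 1) v) w := rfl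
    rw [h14] at h1
    linarith
  have ks1 : ∀ (r : Fin R), ∀ t < T, ∀ w, P.p w ≠ 0 → pal P Kn hot U t w →
      Ar r t w ≤ P.ce (Kn U t) (fun v => Ar r (t + 1) v + ∑ i ∈ Sr r, f0 i (t + 1) v) w := by
    intro r t ht w hw _
    have e1 : (fun v => Ar r (t + 1) v + ∑ i ∈ Sr r, f0 i (t + 1) v) =
        fun v => 2 * N * P.ce (Kn U (t + 1)) (MM P (L (t + 1)) (Kn univ (t + 1)) (r + 1)) v +
          ∑ I ∈ (sz ι (r + 1)).filter (fun I => ¬ U ⊆ I), 2 * N * (dI I t v + oI I (t + 1) v) := by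
      funext v
      rw [hsum1]
    rw [e1, P.ce_add, P.ce_smul, P.ce_sum]
    have e2 : ∑ I ∈ (sz ι ((r : ℕ) + 1)).filter (fun I => ¬ U ⊆ I),
        P.ce (Kn U t) (fun v => 2 * N * (dI I t v + oI I (t + 1) v)) w =
        2 * N * ∑ I ∈ (sz ι ((r : ℕ) + 1)).filter (fun I => ¬ U ⊆ I),
          P.ce (Kn U t) (fun v => dI I t v + oI I (t + 1) v) w := by
      rw [Finset.mul_sum]
      exact Finset.sum_congr rfl fun I _ => P.ce_smul _ _ _ _
    rw [e2, P.ce_tower (hF.filt U t)]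
    have h1 : P.ce (Kn U t) (MM P (L t) (Kn univ t) (r + 1)) w ≤
        P.ce (Kn U t) (fun w => P.ce (Kn univ t) (MM P (L (t + 1)) (Kn univ (t + 1)) (r + 1)) w +
          ∑ I ∈ (sz ι ((r : ℕ) + 1)).filter (fun I => ¬ U ⊆ I),
            P.ce (Kn univ t) (fun v => dI I t v + oI I (t + 1) v) w) w := by
      refine P.ce_mono (fun v hv => ?_) w
      have h1 := MM_step P (hF.filt univ t) (hop t) (r + 1) hv
      have h2 := ip_nonneg P (Kn univ (t + 1)) (Lf (L t) (sz ι (r + 1))) (Lf (L t) (szlt ι (r + 1))) (Kn univ t) hv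
      have h3 : ∑ I ∈ sz ι ((r : ℕ) + 1), (cI P (L t) (Kn univ t) I (Kn univ (t + 1)) v +
          P.ce (Kn univ t) (cO P (L t) (L (t + 1)) (Kn univ (t + 1)) I) v) ≤
          ∑ I ∈ (sz ι ((r : ℕ) + 1)).filter (fun I => ¬ U ⊆ I),
            P.ce (Kn univ t) (fun v => dI I t v + oI I (t + 1) v) v := by
        rw [Finset.sum_filter]
        refine Finset.sum_le_sum fun I hI => hloc I ?_ t ht v hv
        rw [Finset.mem_ssubsets]
        exact hszU r r.2 I hI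
      rw [Finset.sum_add_distrib] at h3
      linarith
    rw [P.ce_add, P.ce_sum, P.ce_tower (hUK t)] at h1
    have h2 : ∑ I ∈ (sz ι ((r : ℕ) + 1)).filter (fun I => ¬ U ⊆ I),
        P.ce (Kn U t) (fun w => P.ce (Kn univ t) (fun v => dI I t v + oI I (t + 1) v) w) w =
        ∑ I ∈ (sz ι ((r : ℕ) + 1)).filter (fun I => ¬ U ⊆ I),
          P.ce (Kn U t) (fun v => dI I t v + oI I (t + 1) v) w :=
      Finset.sum_congr rfl fun I _ => P.ce_tower (hUK t) (fun v => dI I t v + oI I (t + 1) v) w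
    rw [h2] at h1
    have h4 := mul_le_mul_of_nonneg_left h1 (by positivity : (0 : ℝ) ≤ 2 * N)
    rw [mul_add] at h4
    exact h4
  have km0 : ∀ J, J ⊂ U → ∀ t ≤ T, ∀ w, P.p w ≠ 0 → ¬ hot J t w → pal P Kn hot J t w →
      P.ce (Kn J t) (pi t) w ≤ 2 * N * σ J := by
    intro J hJ t ht w hw h1 h2
    obtain ⟨z, hz, hopt⟩ := csup_opt (P := P) (K := Kn U t) (AD := AD t)
      (fun z v => ind (P.Al A Dd (1 / 2) t v) * Phi s (X z t v)) (hC.ne' t) (hC.glue t)
    have e0 : pi t = P.ce (Kn U t) (fun v => ind (P.Al A Dd (1 / 2) t v) * Phi s (X (z v) t v)) := by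
      funext v
      exact hopt v
    have e1 : P.ce (Kn J t) (pi t) w =
        P.ce (Kn J t) (fun v => ind (P.Al A Dd (1 / 2) t v) * Phi s (X (z v) t v)) w := by
      rw [e0]
      exact P.ce_tower (hF.mono J U t hJ.1) _ w
    rw [e1]
    exact csemi H (hC.fac t z hz) (S := fun v => S (z v) t v) (fun v hv h h' => hXS (z v) t v hv h h')
      (((hKA t).trans (hUK t)).trans (hF.mono J U t hJ.1)) (hS J hJ t ht w hw h1 h2 z hz)
  have km1 : ∀ (r : Fin R), ∀ J, J ⊂ U → ∀ t ≤ T, ∀ w, P.p w ≠ 0 → ¬ hot J t w → pal P Kn hot J t w →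
      P.ce (Kn J t) (Ar r t) w ≤ 2 * N * y (r + 1) J := by
    intro r J hJ t ht w hw h1 h2
    have e1 : P.ce (Kn J t) (Ar r t) w = 2 * N * P.ce (Kn J t) (MM P (L t) (Kn univ t) (r + 1)) w := by
      have e2 : P.ce (Kn J t) (Ar r t) w = 2 * N * P.ce (Kn J t) (P.ce (Kn U t) (MM P (L t) (Kn univ t) (r + 1))) w :=
        P.ce_smul _ _ _ _
      rw [e2, P.ce_tower (hF.mono J U t hJ.1)]
    rw [e1]
    exact mul_le_mul_of_nonneg_left (hM r r.2 J hJ t ht w hw h1 h2) (by positivity)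
  have hMn : ∀ (r : Fin R) t w, 0 ≤ P.ce (Kn U t) (MM P (L t) (Kn univ t) (r + 1)) w := fun r t w =>
    P.ce_nonneg (fun v hv => MM_nonneg P _ _ _ hv) w
  have key := cm5_abs (P := P) (Kn := Kn) (hot := hot) hF hCc hhot hU T R (pi := pi) (A := Ar)
    (fun t => csup_fac P _ _ _) (fun r t => Fac.mul (Fac.const _ _) (P.ce_fac _ _))
    (fun t w _ => hpi0 t w) (fun r t w _ => mul_nonneg (by positivity) (hMn r t w))
    SS Sr Zs (fun i => U ∩ i.1) f0 (fun _ => f0) gg hmemSS hmemSr kZ (fun i _ t ht => kf i t ht)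
    (fun r i _ t ht => kf i t ht) kf0 (fun _ => kf0)
    (fun t w _ => mul_nonneg hN0 (ind_nonneg _)) hρ ks0 ks1
    (ε := fun J => 2 * N * σ J) (η := fun r J => 2 * N * y (r + 1) J)
    (fun J => mul_nonneg (by positivity) (hσ J)) (fun r J => mul_nonneg (by positivity) (hy _ J)) km0 km1
  -- the killed points
  have hg : ∑ t ∈ range T, P.E (gg (t + 1)) ≤ 2 * N * P.Pr (Dd T) := by
    have h1 := P.sum_killed (a := P.Al A Dd (1 / 2)) (H z0).a_anti T
    have h2 := P.al_death (c := 1 / 2) (H z0).filt hDd T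
    have h3 : ∀ t, P.E (gg (t + 1)) = N * P.Pr (fun w => P.Al A Dd (1 / 2) t w ∧ ¬ P.Al A Dd (1 / 2) (t + 1) w) := by
      intro t
      unfold FP.Pr
      rw [← P.E_smul]
      simp only [hggd, Nat.add_sub_cancel]
    rw [Finset.sum_congr rfl (fun t _ => h3 t), ← Finset.mul_sum]
    have h4 : P.Pr (fun w => ¬ P.Al A Dd (1 / 2) T w) ≤ 2 * P.Pr (Dd T) := by linarith
    have h5 := mul_le_mul_of_nonneg_left (h1.trans h4) hN0
    linarith
  have hb0 : ∑ i ∈ SS, 2 * N * σ (U ∩ i.1) * ∑ t ∈ range T, P.E (f0 i (t + 1)) =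
      ∑ I ∈ BB, 2 * N * σ (U ∩ I) *
        (2 * N * ∑ t ∈ range T, (P.E (dI I t) + P.E (oI I (t + 1))) + N * ∑ t ∈ range T, P.E (cc I (t + 1))) := by
    rw [hSS, Finset.sum_product]
    refine Finset.sum_congr rfl fun I _ => ?_
    rw [Finset.sum_pair (by decide)]
    have e1 : ∀ t, P.E (f0 (I, true) (t + 1)) = N * P.E (cc I (t + 1)) := by
      intro t
      rw [← P.E_smul]
      simp [hf0d]
    have e2 : ∀ t, P.E (f0 (I, false) (t + 1)) = 2 * N * (P.E (dI I t) + P.E (oI I (t + 1))) := by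
      intro t
      rw [← P.E_add, ← P.E_smul]
      simp [hf0d]
    rw [Finset.sum_congr rfl (fun t _ => e1 t), Finset.sum_congr rfl (fun t _ => e2 t), ← Finset.mul_sum,
      ← Finset.mul_sum]
    ring
  have hb1 : ∀ r : Fin R, ∑ i ∈ Sr r, 2 * N * y (r + 1) (U ∩ i.1) * ∑ t ∈ range T, P.E (f0 i (t + 1)) =
      ∑ I ∈ (sz ι (r + 1)).filter (fun I => ¬ U ⊆ I), 2 * N * y (r + 1) (U ∩ I) *
        (2 * N * ∑ t ∈ range T, (P.E (dI I t) + P.E (oI I (t + 1)))) := by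
    intro r
    simp only [hSr]
    rw [Finset.sum_product]
    refine Finset.sum_congr rfl fun I _ => ?_
    rw [Finset.sum_singleton]
    have e2 : ∀ t, P.E (f0 (I, false) (t + 1)) = 2 * N * (P.E (dI I t) + P.E (oI I (t + 1))) := by
      intro t
      rw [← P.E_add, ← P.E_smul]
      simp [hf0d]
    rw [Finset.sum_congr rfl (fun t _ => e2 t), ← Finset.mul_sum]
  rw [hb0, Finset.sum_congr rfl (fun r _ => hb1 r)] at key
  linarith

end

end Pool.Agent.GMM
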