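import Pool.Agent.GMM.Sim
import Pool.Agent.GMM.Inf

/-!
# GMM/Cont: Pinsker and continuity of entropy and information (row CM, CM.7 (a); helper40)

Two finite spaces `P : FP O1`, `Q : FP O2` and maps `X : O1 → κ`, `X' : O2 → κ`.
* `TVm P Q X X' η` : the laws of `X` and `X'` differ by at most `η` (test functions with values in `[0,1]`);
* `dv2` : Donsker-Varadhan on two spaces, `TVm_of_klm` : `klm ≤ e ^ 2 → TVm (2 e)`;
* `gibbs_ker` : `Hc X Y ≤ E (- log q(X|Y))` for subprobability kernels `q`;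
* `Hc_cont` : `klm` (or `TVm`) of the pairs small and at most `exp a` values of `X` for every value of `Y`:
  `|Hc X Y - Hc X' Y'| ≤ (2 a + 4) b` where `klm ≤ b ^ 4`;
* `I_cont`, `I_cont_same` : the same for the information `I(X;Y|Z)`, at most `exp a` values of `X` for every value of `Z`.
* `vals_of_nv` : the finite sets of values from `nv`.
-/

set_option autoImplicit false
set_option linter.unusedSectionVars false

namespace Pool.Agent.GMM

open Finset Pool.Agent.PWZ Pool.Agent.M3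

noncomputable section

variable {O1 O2 : Type*} [Fintype O1] [Fintype O2] {κ κ' ι ι' ν : Type*}

/-! ## Donsker-Varadhan and Pinsker -/

theorem E_exp_pos (Q : FP O2) (f : O2 → ℝ) : 0 < Q.E (fun v => Real.exp (f v)) := by
  obtain ⟨w, hw⟩ := Q.exists_p_ne
  have h1 : Q.p w * Real.exp (f w) ≤ Q.E (fun v => Real.exp (f v)) :=
    Finset.single_le_sum (f := fun v => Q.p v * Real.exp (f v))
      (fun v _ => mul_nonneg (Q.nn v) (Real.exp_pos _).le) (Finset.mem_univ w)
  exact lt_of_lt_of_le (mul_pos (lt_of_le_of_ne (Q.nn w) (Ne.symm hw)) (Real.exp_pos _)) h1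

/-- Donsker-Varadhan on two spaces -/
theorem dv2 {P : FP O1} {Q : FP O2} {X : O1 → κ} {Y : O2 → κ} (hac : Acm P Q X Y) (f : κ → ℝ) :
    P.E (fun w => f (X w)) ≤ klm P Q X Y + Real.log (Q.E (fun v => Real.exp (f (Y v)))) := by
  set Z : ℝ := Q.E (fun v => Real.exp (f (Y v))) with hZ
  have hZ0 : 0 < Z := E_exp_pos Q _
  have hQ1 : ∀ w, P.p w ≠ 0 → 0 < Q.Pr (fun v => Y v = X w) := fun w hw =>
    lt_of_le_of_ne (Q.Pr_nonneg _) (Ne.symm (hac w hw))
  have key := P.E_log_nonneg (R := fun w => P.m X w / Q.Pr (fun v => Y v = X w) * (Z / Real.exp (f (X w))))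
    (fun w hw => mul_pos (div_pos (P.m_pos X hw) (hQ1 w hw)) (div_pos hZ0 (Real.exp_pos _))) ?_
  · have h1 : P.E (fun w => Real.log (P.m X w / Q.Pr (fun v => Y v = X w) * (Z / Real.exp (f (X w))))) =
        klm P Q X Y + Real.log Z - P.E (fun w => f (X w)) := by
      unfold klm
      rw [← P.E_const (Real.log Z), ← P.E_add, ← P.E_sub]
      refine P.E_congr (fun w hw => ?_)
      rw [Real.log_mul (div_pos (P.m_pos X hw) (hQ1 w hw)).ne' (div_pos hZ0 (Real.exp_pos _)).ne',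
        Real.log_div hZ0.ne' (Real.exp_pos _).ne', Real.log_exp]
      ring
    rw [h1] at key
    linarith
  · have h2 : P.E (fun w => 1 / (P.m X w / Q.Pr (fun v => Y v = X w) * (Z / Real.exp (f (X w))))) =
        P.E (fun w => Q.E (fun v => ind (Y v = X w) * (Real.exp (f (Y v)) / (P.m X w * Z)))) := by
      refine P.E_congr (fun w hw => ?_)
      have e1 : Q.E (fun v => ind (Y v = X w) * (Real.exp (f (Y v)) / (P.m X w * Z))) =
          Q.E (fun v => ind (Y v = X w) * (Real.exp (f (X w)) / (P.m X w * Z))) := by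
        refine Q.E_congr (fun v _ => ?_)
        by_cases hv : Y v = X w
        · rw [hv]
        · rw [ind_not hv]; ring
      have e2 : Q.E (fun v => ind (Y v = X w)) = Q.Pr (fun v => Y v = X w) := rfl
      rw [e1, Q.E_mul_const, e2]
      have p1 := (P.m_pos X hw).ne'
      have p2 := (hQ1 w hw).ne'
      have p3 := (Real.exp_pos (f (X w))).ne'
      have p4 := hZ0.ne'
      field_simp
    rw [h2, P.E_swap]
    have h3 : Q.E (fun v => P.E (fun w => ind (Y v = X w) * (Real.exp (f (Y v)) / (P.m X w * Z)))) ≤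
        Q.E (fun v => Real.exp (f (Y v)) / Z) := by
      refine Q.E_mono (fun v _ => ?_)
      have e1 : P.E (fun w => ind (Y v = X w) * (Real.exp (f (Y v)) / (P.m X w * Z))) =
          P.E (fun w => ind (X w = Y v) / P.m X w) * (Real.exp (f (Y v)) / Z) := by
        rw [← P.E_mul_const]
        refine P.E_congr (fun w hw => ?_)
        have e2 : (Y v = X w) = (X w = Y v) := propext eq_comm
        rw [e2]
        have p1 := (P.m_pos X hw).ne'
        have p4 := hZ0.ne'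
        field_simp
      rw [e1]
      have h4 := mul_le_mul_of_nonneg_right (P.E_ind_div_m_le X (Y v))
        (div_nonneg (Real.exp_pos (f (Y v))).le hZ0.le)
      linarith
    refine h3.trans (le_of_eq ?_)
    rw [Q.E_div_const, ← hZ, div_self hZ0.ne']

theorem klm_nonneg {P : FP O1} {Q : FP O2} {X : O1 → κ} {Y : O2 → κ} (hac : Acm P Q X Y) : 0 ≤ klm P Q X Y := by
  have h := dv2 hac (fun _ => (0 : ℝ))
  rw [P.E_const] at h
  simp only [Real.exp_zero] at h
  rw [Q.E_const, Real.log_one] at h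
  linarith

/-- the laws of `X` and `Y` differ by at most `η` -/
def TVm (P : FP O1) (Q : FP O2) (X : O1 → κ) (Y : O2 → κ) (η : ℝ) : Prop :=
  ∀ f : κ → ℝ, (∀ k, 0 ≤ f k) → (∀ k, f k ≤ 1) → |P.E (fun w => f (X w)) - Q.E (fun v => f (Y v))| ≤ η

theorem TVm.symm {P : FP O1} {Q : FP O2} {X : O1 → κ} {Y : O2 → κ} {η : ℝ} (h : TVm P Q X Y η) :
    TVm Q P Y X η := fun f h0 h1 => by
  rw [abs_sub_comm]
  exact h f h0 h1

theorem TVm.mono {P : FP O1} {Q : FP O2} {X : O1 → κ} {Y : O2 → κ} {η η' : ℝ} (h : TVm P Q X Y η) (hη : η ≤ η') :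
    TVm P Q X Y η' := fun f h0 h1 => (h f h0 h1).trans hη

theorem TVm.comp {P : FP O1} {Q : FP O2} {X : O1 → κ} {Y : O2 → κ} {η : ℝ} (h : TVm P Q X Y η) (g : κ → κ') :
    TVm P Q (fun w => g (X w)) (fun v => g (Y v)) η := fun f h0 h1 =>
  h (fun k => f (g k)) (fun _ => h0 _) (fun _ => h1 _)

/-- data processing for relations -/
theorem TVm.fac {P : FP O1} {Q : FP O2} {X : O1 → κ} {Y : O2 → κ} {η : ℝ} (h : TVm P Q X Y η) {X' : O1 → κ'}
    {Y' : O2 → κ'} (h1 : Fac X X') (h2 : Fac Y Y') (h3 : ∀ v w, Y v = X w → Y' v = X' w) : TVm P Q X' Y' η := by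
  classical
  intro f hf0 hf1
  set g : κ → ℝ := fun k => if hk : ∃ w, X w = k then f (X' hk.choose) else
    if hk' : ∃ v, Y v = k then f (Y' hk'.choose) else 0 with hg
  have e1 : ∀ w, g (X w) = f (X' w) := by
    intro w
    have hk : ∃ w', X w' = X w := ⟨w, rfl⟩
    simp only [hg]
    rw [dif_pos hk, h1 _ _ hk.choose_spec]
  have e2 : ∀ v, g (Y v) = f (Y' v) := by
    intro v
    by_cases hk : ∃ w, X w = Y v
    · simp only [hg]
      rw [dif_pos hk, ← h3 v _ hk.choose_spec.symm]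
    · have hk' : ∃ v', Y v' = Y v := ⟨v, rfl⟩
      simp only [hg]
      rw [dif_neg hk, dif_pos hk', h2 _ _ hk'.choose_spec]
  have e3 : ∀ k, 0 ≤ g k ∧ g k ≤ 1 := by
    intro k
    simp only [hg]
    by_cases hk : ∃ w, X w = k
    · rw [dif_pos hk]; exact ⟨hf0 _, hf1 _⟩
    · rw [dif_neg hk]
      by_cases hk' : ∃ v, Y v = k
      · rw [dif_pos hk']; exact ⟨hf0 _, hf1 _⟩
      · rw [dif_neg hk']; exact ⟨le_refl _, zero_le_one⟩
  have h4 := h g (fun k => (e3 k).1) (fun k => (e3 k).2)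
  simp only [e1, e2] at h4
  exact h4

/-- test functions with values in `[0, M]` -/
theorem TVm.range {P : FP O1} {Q : FP O2} {X : O1 → κ} {Y : O2 → κ} {η : ℝ} (h : TVm P Q X Y η) {f : κ → ℝ} {M : ℝ}
    (hM : 0 ≤ M) (h0 : ∀ k, 0 ≤ f k) (h1 : ∀ k, f k ≤ M) :
    |P.E (fun w => f (X w)) - Q.E (fun v => f (Y v))| ≤ η * M := by
  rcases eq_or_lt_of_le hM with hM0 | hM0
  · have hf : ∀ k, f k = 0 := fun k => le_antisymm (by rw [hM0]; exact h1 k) (h0 k)
    simp only [hf]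
    rw [P.E_const, Q.E_const, ← hM0]
    simp
  · have h2 := h (fun k => f k / M) (fun k => div_nonneg (h0 k) hM) (fun k => by rw [div_le_one hM0]; exact h1 k)
    rw [P.E_div_const, Q.E_div_const, ← sub_div, abs_div, abs_of_pos hM0, div_le_iff₀ hM0] at h2
    exact h2

theorem TVm.nonneg {P : FP O1} {Q : FP O2} {X : O1 → κ} {Y : O2 → κ} {η : ℝ} (h : TVm P Q X Y η) : 0 ≤ η := by
  have h1 := h (fun _ => 0) (fun _ => le_refl _) (fun _ => zero_le_one)
  rw [P.E_const, Q.E_const, sub_self, abs_zero] at h1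
  exact h1

/-- equal laws -/
theorem TVm.of_eq {P : FP O1} {Q : FP O2} {X : O1 → κ} {Y : O2 → κ}
    (h : ∀ f : κ → ℝ, P.E (fun w => f (X w)) = Q.E (fun v => f (Y v))) : TVm P Q X Y 0 := fun f _ _ => by
  rw [h f, sub_self, abs_zero]

/-- PINSKER -/
theorem TVm_of_klm {P : FP O1} {Q : FP O2} {X : O1 → κ} {Y : O2 → κ} (hac : Acm P Q X Y) {e : ℝ} (he : 0 ≤ e)
    (h : klm P Q X Y ≤ e ^ 2) : TVm P Q X Y (2 * e) := by
  -- one side, for test functions bounded by one
  have key : ∀ g : κ → ℝ, (∀ k, |g k| ≤ 1) → ∀ l : ℝ, 0 < l → l ≤ 1 → e ≤ l →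
      P.E (fun w => g (X w)) - Q.E (fun v => g (Y v)) ≤ 2 * l := by
    intro g hg l hl0 hl1 hel
    have h1 := dv2 hac (fun k => l * g k)
    have h2 : Real.log (Q.E (fun v => Real.exp (l * g (Y v)))) ≤ l * Q.E (fun v => g (Y v)) + l ^ 2 := by
      have h3 := Real.log_le_sub_one_of_pos (E_exp_pos Q (fun v => l * g (Y v)))
      have h4 : Q.E (fun v => Real.exp (l * g (Y v))) ≤ Q.E (fun v => 1 + l * g (Y v) + l ^ 2) := by
        refine Q.E_mono (fun v _ => ?_)
        have h5 : |l * g (Y v)| ≤ 1 := by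
          rw [abs_mul, abs_of_pos hl0]
          calc l * |g (Y v)| ≤ 1 * 1 := mul_le_mul hl1 (hg _) (abs_nonneg _) zero_le_one
            _ = 1 := one_mul 1
        have h6 := Real.abs_exp_sub_one_sub_id_le h5
        have h7 : (l * g (Y v)) ^ 2 ≤ l ^ 2 := by
          rw [mul_pow]
          have h8 : (g (Y v)) ^ 2 ≤ 1 := by
            rw [← sq_abs]
            have := hg (Y v)
            nlinarith [abs_nonneg (g (Y v))]
          nlinarith [sq_nonneg l]
        have h9 := (abs_le.mp h6).2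
        linarith
      rw [Q.E_add, Q.E_add, Q.E_const, Q.E_smul, Q.E_const] at h4
      linarith
    rw [P.E_smul] at h1
    have h8 : l * (P.E (fun w => g (X w)) - Q.E (fun v => g (Y v))) ≤ l * (2 * l) := by
      have h9 : e ^ 2 ≤ l ^ 2 := pow_le_pow_left₀ he hel 2
      nlinarith
    exact le_of_mul_le_mul_left h8 hl0
  intro f hf0 hf1
  have hf : ∀ k, |f k| ≤ 1 := fun k => by rw [abs_of_nonneg (hf0 k)]; exact hf1 k
  have hfn : ∀ k, |(-f k)| ≤ 1 := fun k => by rw [abs_neg]; exact hf k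
  have hP0 : 0 ≤ P.E (fun w => f (X w)) := P.E_nonneg (fun w _ => hf0 _)
  have hP1 : P.E (fun w => f (X w)) ≤ 1 := P.E_le_const (fun w _ => hf1 _)
  have hQ0 : 0 ≤ Q.E (fun w => f (Y w)) := Q.E_nonneg (fun w _ => hf0 _)
  have hQ1 : Q.E (fun w => f (Y w)) ≤ 1 := Q.E_le_const (fun w _ => hf1 _)
  by_cases he1 : 1 ≤ e
  · rw [abs_le]
    constructor <;> linarith
  · push Not at he1
    refine le_of_forall_pos_le_add (fun d hd => ?_)
    -- `l = min 1 (e + d / 2)`
    set l : ℝ := min 1 (e + d / 2) with hl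
    have hl0 : 0 < l := lt_min one_pos (by linarith)
    have hl1 : l ≤ 1 := min_le_left _ _
    have hel : e ≤ l := le_min he1.le (by linarith)
    have hl2 : l ≤ e + d / 2 := min_le_right _ _
    have k1 := key f hf l hl0 hl1 hel
    have k2 := key (fun k => - f k) hfn l hl0 hl1 hel
    rw [P.E_neg, Q.E_neg] at k2
    rw [abs_le]
    constructor <;> linarith

/-! ## Gibbs -/

/-- conditional entropy and subprobability kernels -/
theorem gibbs_ker (P : FP O1) {X : O1 → κ} {Y : O1 → ι} {S : ι → Finset κ} {q : κ → ι → ℝ}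
    (hS : ∀ w, P.p w ≠ 0 → X w ∈ S (Y w)) (hq : ∀ y, ∀ x ∈ S y, 0 < q x y) (hq1 : ∀ y, ∑ x ∈ S y, q x y ≤ 1) :
    P.Hc X Y ≤ P.E (fun w => - Real.log (q (X w) (Y w))) := by
  have hq0 : ∀ w, P.p w ≠ 0 → 0 < q (X w) (Y w) := fun w hw => hq _ _ (hS w hw)
  have key := P.E_log_nonneg (R := fun w => P.m (fun v => (X v, Y v)) w / P.m Y w / q (X w) (Y w))
    (fun w hw => div_pos (div_pos (P.m_pos _ hw) (P.m_pos _ hw)) (hq0 w hw)) ?_
  · have h1 : P.E (fun w => Real.log (P.m (fun v => (X v, Y v)) w / P.m Y w / q (X w) (Y w))) =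
        P.E (fun w => - Real.log (q (X w) (Y w))) - P.Hc X Y := by
      unfold FP.Hc FP.H
      rw [← P.E_sub, ← P.E_sub]
      refine P.E_congr (fun w hw => ?_)
      rw [Real.log_div (div_pos (P.m_pos _ hw) (P.m_pos _ hw)).ne' (hq0 w hw).ne',
        Real.log_div (P.m_pos _ hw).ne' (P.m_pos _ hw).ne']
      ring
    rw [h1] at key
    linarith
  · have h2 : P.E (fun w => 1 / (P.m (fun v => (X v, Y v)) w / P.m Y w / q (X w) (Y w))) =
        P.E (fun w => P.E (fun u => ind (Y u = Y w) * (q (X w) (Y w) / P.m (fun v => (X v, Y v)) w))) := by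
      refine P.E_congr (fun w hw => ?_)
      rw [P.E_mul_const]
      have e1 : P.E (fun u => ind (Y u = Y w)) = P.m Y w := rfl
      rw [e1]
      have p1 := (P.m_pos (fun v => (X v, Y v)) hw).ne'
      have p2 := (P.m_pos Y hw).ne'
      have p3 := (hq0 w hw).ne'
      field_simp
    rw [h2, P.E_swap]
    refine P.E_le_const (fun u _ => ?_)
    have h3 : P.E (fun w => ind (Y u = Y w) * (q (X w) (Y w) / P.m (fun v => (X v, Y v)) w)) ≤
        P.E (fun w => ∑ x ∈ S (Y u), q x (Y u) * (ind ((X w, Y w) = (x, Y u)) / P.m (fun v => (X v, Y v)) w)) := by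
      refine P.E_mono (fun w hw => ?_)
      by_cases hy : Y u = Y w
      · rw [ind_of hy, one_mul]
        have hx : X w ∈ S (Y u) := by rw [hy]; exact hS w hw
        refine le_trans ?_ (Finset.single_le_sum (f := fun x => q x (Y u) * (ind ((X w, Y w) = (x, Y u)) /
          P.m (fun v => (X v, Y v)) w)) (fun x hx => mul_nonneg (hq _ _ hx).le
            (div_nonneg (ind_nonneg _) (P.m_nonneg _ _))) hx)
        have e1 : ((X w, Y w) = (X w, Y u)) := by rw [hy]
        show _ ≤ q (X w) (Y u) * (ind ((X w, Y w) = (X w, Y u)) / P.m (fun v => (X v, Y v)) w)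
        rw [ind_of e1, hy, mul_one_div]
      · rw [ind_not hy, zero_mul]
        exact Finset.sum_nonneg (fun x hx => mul_nonneg (hq _ _ hx).le
          (div_nonneg (ind_nonneg _) (P.m_nonneg _ _)))
    refine h3.trans ?_
    rw [P.E_sum]
    refine le_trans (Finset.sum_le_sum (fun x hx => ?_)) (hq1 (Y u))
    rw [P.E_smul]
    have h4 := mul_le_mul_of_nonneg_left (P.E_ind_div_m_le (fun v => (X v, Y v)) (x, Y u)) (hq _ _ hx).le
    linarith

/-- conditional entropy and number of values -/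
theorem Hc_le_card (P : FP O1) {X : O1 → κ} {Y : O1 → ι} {S : ι → Finset κ} {a : ℝ}
    (hS : ∀ w, P.p w ≠ 0 → X w ∈ S (Y w)) (ha : ∀ y, ((S y).card : ℝ) ≤ Real.exp a) : P.Hc X Y ≤ a := by
  have h1 := gibbs_ker P (q := fun _ _ => Real.exp (-a)) hS (fun _ _ _ => Real.exp_pos _) (fun y => by
    rw [Finset.sum_const, nsmul_eq_mul]
    have h2 := mul_le_mul_of_nonneg_right (ha y) (Real.exp_pos (-a)).le
    rw [← Real.exp_add, add_neg_cancel, Real.exp_zero] at h2
    exact h2)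
  simp only [Real.log_exp, neg_neg] at h1
  rw [P.E_const] at h1
  exact h1

/-! ## continuity -/

/-- one side, with the smoothing parameter `d` -/
theorem Hc_cont_one {P : FP O1} {Q : FP O2} {X : O1 → κ} {Y : O1 → ι} {X' : O2 → κ} {Y' : O2 → ι} {η a d : ℝ}
    (hTV : TVm P Q (fun w => (X w, Y w)) (fun v => (X' v, Y' v)) η) {S : ι → Finset κ} (ha : 0 ≤ a)
    (hS : ∀ w, P.p w ≠ 0 → X w ∈ S (Y w)) (hM : ∀ y, ((S y).card : ℝ) ≤ Real.exp a) (hd : 0 < d)
    (hd2 : d ≤ 1 / 2) : P.Hc X Y ≤ Q.Hc X' Y' + η * (a - Real.log d) + 2 * d := by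
  classical
  set p2 : κ → ι → ℝ := fun x y => Q.Pr (fun v => (X' v, Y' v) = (x, y)) with hp2
  set p1 : ι → ℝ := fun y => Q.Pr (fun v => Y' v = y) with hp1
  have hp20 : ∀ x y, 0 ≤ p2 x y := fun x y => Q.Pr_nonneg _
  have hp10 : ∀ y, 0 ≤ p1 y := fun y => Q.Pr_nonneg _
  have hp21 : ∀ x y, p2 x y ≤ p1 y := fun x y => Q.Pr_mono (fun v _ h => by
    rw [Prod.mk.injEq] at h
    exact h.2)
  have hk0 : ∀ x y, 0 ≤ p2 x y / p1 y := fun x y => div_nonneg (hp20 x y) (hp10 y)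
  have hk1 : ∀ x y, p2 x y / p1 y ≤ 1 := fun x y => div_le_one_of_le₀ (hp21 x y) (hp10 y)
  set q : κ → ι → ℝ := fun x y => (1 - d) * (p2 x y / p1 y) + d * Real.exp (-a) with hq
  have hda : 0 < d * Real.exp (-a) := mul_pos hd (Real.exp_pos _)
  have hq0 : ∀ x y, d * Real.exp (-a) ≤ q x y := fun x y => by
    simp only [hq]
    have := mul_nonneg (by linarith : (0:ℝ) ≤ 1 - d) (hk0 x y)
    linarith
  have hea : Real.exp (-a) ≤ 1 := by
    rw [Real.exp_le_one_iff]; linarith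
  have hq1 : ∀ x y, q x y ≤ 1 := fun x y => by
    simp only [hq]
    have h1 := mul_le_mul_of_nonneg_left (hk1 x y) (by linarith : (0:ℝ) ≤ 1 - d)
    have h2 := mul_le_mul_of_nonneg_left hea hd.le
    linarith
  have hqs : ∀ y, ∑ x ∈ S y, q x y ≤ 1 := by
    intro y
    simp only [hq]
    rw [Finset.sum_add_distrib, ← Finset.mul_sum, ← Finset.sum_div, Finset.sum_const, nsmul_eq_mul]
    have h1 : ∑ x ∈ S y, p2 x y ≤ p1 y := by
      simp only [hp2, hp1]
      unfold FP.Pr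
      rw [← Q.E_sum]
      refine Q.E_mono (fun v _ => ?_)
      by_cases hy : Y' v = y
      · rw [ind_of hy]
        by_cases hx : X' v ∈ S y
        · rw [Finset.sum_eq_single_of_mem (X' v) hx (fun x _ hne => ind_not (fun h => hne
            (congrArg Prod.fst h).symm))]
          exact ind_le_one _
        · rw [Finset.sum_eq_zero (fun x hxS => ind_not (fun h => hx (by
            have h' : X' v = x := congrArg Prod.fst h
            rw [h']; exact hxS)))]
          exact zero_le_one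
      · rw [ind_not hy]
        exact (Finset.sum_eq_zero (fun x _ => ind_not (fun h => hy (congrArg Prod.snd h)))).le
    have h2 : (∑ x ∈ S y, p2 x y) / p1 y ≤ 1 := div_le_one_of_le₀ h1 (hp10 y)
    have h3 := mul_le_mul_of_nonneg_left h2 (by linarith : (0:ℝ) ≤ 1 - d)
    have h4 : ((S y).card : ℝ) * (d * Real.exp (-a)) ≤ d := by
      have h5 := mul_le_mul_of_nonneg_right (hM y) (Real.exp_pos (-a)).le
      rw [← Real.exp_add, add_neg_cancel, Real.exp_zero] at h5
      have h6 := mul_le_mul_of_nonneg_left h5 hd.le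
      linarith
    linarith
  set f : κ × ι → ℝ := fun k => if k.1 ∈ S k.2 then - Real.log (q k.1 k.2) else 0 with hf
  have hlq0 : ∀ x y, 0 ≤ - Real.log (q x y) := fun x y => by
    have := Real.log_nonpos (hda.le.trans (hq0 x y)) (hq1 x y)
    linarith
  have hlqM : ∀ x y, - Real.log (q x y) ≤ a - Real.log d := fun x y => by
    have h1 := Real.log_le_log hda (hq0 x y)
    rw [Real.log_mul hd.ne' (Real.exp_pos _).ne', Real.log_exp] at h1
    linarith
  have hMnn : 0 ≤ a - Real.log d := by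
    have := Real.log_nonpos hd.le (by linarith : d ≤ 1)
    linarith
  have hf0 : ∀ k, 0 ≤ f k := fun k => by
    simp only [hf]
    split_ifs
    · exact hlq0 _ _
    · exact le_refl _
  have hfM : ∀ k, f k ≤ a - Real.log d := fun k => by
    simp only [hf]
    split_ifs
    · exact hlqM _ _
    · exact hMnn
  have hT := hTV.range hMnn hf0 hfM
  -- Gibbs
  have hA : P.Hc X Y ≤ P.E (fun w => f (X w, Y w)) := by
    refine (gibbs_ker P hS (fun y x _ => lt_of_lt_of_le hda (hq0 x y)) hqs).trans (le_of_eq ?_)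
    refine P.E_congr (fun w hw => ?_)
    simp only [hf]
    rw [if_pos (hS w hw)]
  -- the other side
  have hB : Q.E (fun v => f (X' v, Y' v)) ≤ Q.Hc X' Y' + 2 * d := by
    have h1 : Q.Hc X' Y' + 2 * d = Q.E (fun v => (- Real.log (Q.m (fun u => (X' u, Y' u)) v) -
        - Real.log (Q.m Y' v)) + 2 * d) := by
      rw [Q.E_add, Q.E_sub, Q.E_const]
      rfl
    rw [h1]
    refine Q.E_mono (fun v hv => ?_)
    have m2 := Q.m_pos (fun u => (X' u, Y' u)) hv
    have m1 := Q.m_pos Y' hv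
    have e2 : p2 (X' v) (Y' v) = Q.m (fun u => (X' u, Y' u)) v := rfl
    have e1 : p1 (Y' v) = Q.m Y' v := rfl
    have hmm : Q.m (fun u => (X' u, Y' u)) v ≤ Q.m Y' v := by
      rw [← e1, ← e2]; exact hp21 _ _
    have hl : - Real.log (Q.m (fun u => (X' u, Y' u)) v) - - Real.log (Q.m Y' v) =
        - Real.log (Q.m (fun u => (X' u, Y' u)) v / Q.m Y' v) := by
      rw [Real.log_div m2.ne' m1.ne']; ring
    have hl0 : 0 ≤ - Real.log (Q.m (fun u => (X' u, Y' u)) v / Q.m Y' v) := by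
      have := Real.log_nonpos (div_pos m2 m1).le (div_le_one_of_le₀ hmm m1.le)
      linarith
    rw [hl]
    simp only [hf]
    split_ifs
    · have h2 : (1 - d) * (Q.m (fun u => (X' u, Y' u)) v / Q.m Y' v) ≤ q (X' v) (Y' v) := by
        simp only [hq]
        rw [e2, e1]
        linarith
      have h3 : 0 < (1 - d) * (Q.m (fun u => (X' u, Y' u)) v / Q.m Y' v) :=
        mul_pos (by linarith) (div_pos m2 m1)
      have h4 := Real.log_le_log h3 h2
      rw [Real.log_mul (by linarith) (div_pos m2 m1).ne'] at h4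
      have h5 : -(2 * d) ≤ Real.log (1 - d) := by
        have h6 := Real.one_sub_inv_le_log_of_pos (by linarith : (0:ℝ) < 1 - d)
        have h7 : (1 - d)⁻¹ ≤ 1 + 2 * d := by
          rw [inv_le_iff_one_le_mul₀ (by linarith)]
          nlinarith
        linarith
      linarith
    · linarith
  have h9 := (abs_le.mp hT).2
  linarith

/-- continuity of the conditional entropy, variation `2 b ^ 2` -/
theorem Hc_cont_TV {P : FP O1} {Q : FP O2} {X : O1 → κ} {Y : O1 → ι} {X' : O2 → κ} {Y' : O2 → ι} {a b : ℝ}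
    (hTV : TVm P Q (fun w => (X w, Y w)) (fun v => (X' v, Y' v)) (2 * b ^ 2)) {S : ι → Finset κ} (ha : 0 ≤ a)
    (hb : 0 ≤ b) (hS : ∀ w, P.p w ≠ 0 → X w ∈ S (Y w)) (hM : ∀ y, ((S y).card : ℝ) ≤ Real.exp a) :
    P.Hc X Y ≤ Q.Hc X' Y' + (2 * a + 4) * b := by
  have hP := Hc_le_card P hS hM
  have hQ := Q.Hc_nonneg X' Y'
  by_cases hb2 : 1 / 2 ≤ b
  · nlinarith
  push Not at hb2
  -- any smaller parameter
  have key : ∀ c : ℝ, b ≤ c → 0 < c → c ≤ 1 / 2 → P.Hc X Y ≤ Q.Hc X' Y' + (a + 4) * c := by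
    intro c hbc hc0 hc1
    have h1 := Hc_cont_one hTV ha hS hM (d := c ^ 2) (by positivity) (by nlinarith)
    have h2 : - Real.log (c ^ 2) ≤ 2 * (1 / c - 1) := by
      rw [Real.log_pow]
      have h3 := Real.log_le_sub_one_of_pos (x := 1 / c) (by positivity)
      rw [one_div, Real.log_inv] at h3
      rw [one_div]
      push_cast
      linarith
    have h4 : 2 * b ^ 2 * (a - Real.log (c ^ 2)) ≤ 2 * c ^ 2 * (a + 2 * (1 / c - 1)) := by
      have h5 : 0 ≤ - Real.log (c ^ 2) := by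
        have := Real.log_nonpos (by positivity : 0 ≤ c ^ 2) (by nlinarith : c ^ 2 ≤ 1)
        linarith
      have h6 : 2 * b ^ 2 ≤ 2 * c ^ 2 := by nlinarith
      refine mul_le_mul h6 (by linarith) (by linarith) (by positivity)
    have h7 : 2 * c ^ 2 * (a + 2 * (1 / c - 1)) = 2 * c ^ 2 * a + 4 * c - 4 * c ^ 2 := by
      field_simp
      ring
    have h8 : 2 * c ^ 2 * a ≤ a * c := by nlinarith [mul_nonneg ha hc0.le]
    nlinarith [sq_nonneg c]
  have h0 : 0 < a + 4 := by linarith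
  refine le_trans (b := Q.Hc X' Y' + (a + 4) * b) ?_ (by nlinarith)
  refine le_of_forall_pos_le_add (fun d hd => ?_)
  set c : ℝ := min (1 / 2) (b + d / (a + 4)) with hc
  have hd4 : 0 < d / (a + 4) := div_pos hd h0
  have h1 := key c (le_min hb2.le (by linarith)) (lt_min (by norm_num) (by linarith)) (min_le_left _ _)
  have h2 : c ≤ b + d / (a + 4) := min_le_right _ _
  have h3 : (a + 4) * c ≤ (a + 4) * b + d := by
    have h4 := mul_le_mul_of_nonneg_left h2 h0.le
    have h5 : (a + 4) * (b + d / (a + 4)) = (a + 4) * b + d := by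
      field_simp
    linarith
  linarith

/-- CONTINUITY OF THE CONDITIONAL ENTROPY -/
theorem Hc_cont {P : FP O1} {Q : FP O2} {X : O1 → κ} {Y : O1 → ι} {X' : O2 → κ} {Y' : O2 → ι} {a b : ℝ}
    (hac : Acm P Q (fun w => (X w, Y w)) (fun v => (X' v, Y' v)))
    (hkl : klm P Q (fun w => (X w, Y w)) (fun v => (X' v, Y' v)) ≤ b ^ 4) {S : ι → Finset κ} (ha : 0 ≤ a)
    (hb : 0 ≤ b) (hS : ∀ w, P.p w ≠ 0 → X w ∈ S (Y w)) (hS' : ∀ v, Q.p v ≠ 0 → X' v ∈ S (Y' v))
    (hM : ∀ y, ((S y).card : ℝ) ≤ Real.exp a) : |P.Hc X Y - Q.Hc X' Y'| ≤ (2 * a + 4) * b := by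
  have hTV := TVm_of_klm hac (e := b ^ 2) (by positivity) (by
    refine hkl.trans (le_of_eq ?_)
    ring)
  have h1 := Hc_cont_TV hTV ha hb hS hM
  have h2 := Hc_cont_TV hTV.symm ha hb hS' hM
  rw [abs_le]
  constructor <;> linarith

/-- equal laws, equal entropies -/
theorem H_law_eq {P : FP O1} {Q : FP O2} {X : O1 → κ} {X' : O2 → κ}
    (h : ∀ f : κ → ℝ, P.E (fun w => f (X w)) = Q.E (fun v => f (X' v))) : P.H X = Q.H X' := by
  have h1 : ∀ k, P.E (fun v => ind (X v = k)) = Q.E (fun v => ind (X' v = k)) := fun k => h (fun j => ind (j = k))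
  unfold FP.H FP.m
  rw [h (fun k => - Real.log (P.E (fun v => ind (X v = k))))]
  refine Q.E_congr (fun v _ => ?_)
  rw [h1]

theorem Hc_law_eq {P : FP O1} {Q : FP O2} {X : O1 → κ} {Y : O1 → ι} {X' : O2 → κ} {Y' : O2 → ι}
    (h : ∀ f : κ × ι → ℝ, P.E (fun w => f (X w, Y w)) = Q.E (fun v => f (X' v, Y' v))) : P.Hc X Y = Q.Hc X' Y' := by
  unfold FP.Hc
  rw [H_law_eq h, H_law_eq (P := P) (Q := Q) (X := Y) (X' := Y') (fun f => h (fun k => f k.2))]

/-- CONTINUITY OF THE INFORMATION -/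
theorem I_cont {P : FP O1} {Q : FP O2} {X : O1 → κ} {Y : O1 → ι} {Z : O1 → ι'} {X' : O2 → κ} {Y' : O2 → ι}
    {Z' : O2 → ι'} {a b : ℝ} (hac : Acm P Q (fun w => (X w, Y w, Z w)) (fun v => (X' v, Y' v, Z' v)))
    (hkl : klm P Q (fun w => (X w, Y w, Z w)) (fun v => (X' v, Y' v, Z' v)) ≤ b ^ 4) {S : ι' → Finset κ}
    (ha : 0 ≤ a) (hb : 0 ≤ b) (hS : ∀ w, P.p w ≠ 0 → X w ∈ S (Z w)) (hS' : ∀ v, Q.p v ≠ 0 → X' v ∈ S (Z' v))
    (hM : ∀ z, ((S z).card : ℝ) ≤ Real.exp a) : |P.I X Y Z - Q.I X' Y' Z'| ≤ 2 * ((2 * a + 4) * b) := by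
  have hTV := TVm_of_klm hac (e := b ^ 2) (by positivity) (by
    refine hkl.trans (le_of_eq ?_)
    ring)
  have hXZ : TVm P Q (fun w => (X w, Z w)) (fun v => (X' v, Z' v)) (2 * b ^ 2) :=
    hTV.comp (fun k : κ × ι × ι' => (k.1, k.2.2))
  have hXYZ : TVm P Q (fun w => (X w, (Y w, Z w))) (fun v => (X' v, (Y' v, Z' v))) (2 * b ^ 2) := hTV
  have h1 := Hc_cont_TV hXZ ha hb hS hM
  have h2 := Hc_cont_TV hXZ.symm ha hb hS' hM
  have h3 := Hc_cont_TV hXYZ (S := fun yz => S yz.2) ha hb hS (fun yz => hM yz.2)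
  have h4 := Hc_cont_TV hXYZ.symm (S := fun yz => S yz.2) ha hb hS' (fun yz => hM yz.2)
  rw [P.I_eq_Hc, Q.I_eq_Hc, abs_le]
  constructor <;> linarith

/-- continuity of the information when `(X, Z)` has the same law -/
theorem I_cont_same {P : FP O1} {Q : FP O2} {X : O1 → κ} {Y : O1 → ι} {Z : O1 → ι'} {X' : O2 → κ} {Y' : O2 → ι}
    {Z' : O2 → ι'} {a b : ℝ} (hac : Acm P Q (fun w => (X w, Y w, Z w)) (fun v => (X' v, Y' v, Z' v)))
    (hkl : klm P Q (fun w => (X w, Y w, Z w)) (fun v => (X' v, Y' v, Z' v)) ≤ b ^ 4)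
    (hsame : ∀ f : κ × ι' → ℝ, P.E (fun w => f (X w, Z w)) = Q.E (fun v => f (X' v, Z' v))) {S : ι' → Finset κ}
    (ha : 0 ≤ a) (hb : 0 ≤ b) (hS : ∀ w, P.p w ≠ 0 → X w ∈ S (Z w)) (hS' : ∀ v, Q.p v ≠ 0 → X' v ∈ S (Z' v))
    (hM : ∀ z, ((S z).card : ℝ) ≤ Real.exp a) : |P.I X Y Z - Q.I X' Y' Z'| ≤ (2 * a + 4) * b := by
  have hTV := TVm_of_klm hac (e := b ^ 2) (by positivity) (by
    refine hkl.trans (le_of_eq ?_)
    ring)
  have hXYZ : TVm P Q (fun w => (X w, (Y w, Z w))) (fun v => (X' v, (Y' v, Z' v))) (2 * b ^ 2) := hTV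
  have h1 := Hc_law_eq (P := P) (Q := Q) (X := X) (Y := Z) (X' := X') (Y' := Z') hsame
  have h3 := Hc_cont_TV hXYZ (S := fun yz => S yz.2) ha hb hS (fun yz => hM yz.2)
  have h4 := Hc_cont_TV hXYZ.symm (S := fun yz => S yz.2) ha hb hS' (fun yz => hM yz.2)
  rw [P.I_eq_Hc, Q.I_eq_Hc, abs_le]
  constructor <;> linarith

/-! ## the sets of values -/

open Classical in
/-- values of `X` where `Z = z` -/
def vals (P : FP O1) (X : O1 → κ) (Z : O1 → ι') (z : ι') : Finset κ :=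
  (univ.filter (fun u => P.p u ≠ 0 ∧ Z u = z)).image X

theorem mem_vals_iff {P : FP O1} {X : O1 → κ} {Z : O1 → ι'} {z : ι'} {k : κ} :
    k ∈ vals P X Z z ↔ ∃ w, P.p w ≠ 0 ∧ Z w = z ∧ X w = k := by
  classical
  unfold vals
  simp only [mem_image, mem_filter, mem_univ, true_and, and_assoc]

theorem mem_vals {P : FP O1} {X : O1 → κ} {Z : O1 → ι'} {w : O1} (hw : P.p w ≠ 0) : X w ∈ vals P X Z (Z w) :=
  mem_vals_iff.2 ⟨w, hw, rfl, rfl⟩

theorem vals_card_le {P : FP O1} {X : O1 → κ} {Z : O1 → ι'} {M : ℝ} (hM : 0 ≤ M)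
    (h : ∀ w, P.p w ≠ 0 → (nv P X Z w : ℝ) ≤ M) (z : ι') : ((vals P X Z z).card : ℝ) ≤ M := by
  classical
  rcases (vals P X Z z).eq_empty_or_nonempty with he | ⟨k, hk⟩
  · rw [he, Finset.card_empty]
    push_cast
    exact hM
  · obtain ⟨w, hw, rfl, -⟩ := mem_vals_iff.1 hk
    exact h w hw

/-! ## simulation with a seed -/

variable {Θ : Type*} [Fintype Θ]

theorem pr_fst_E (P : FP O1) (Q : FP Θ) (f : O1 → ℝ) : (FP.pr P Q).E (fun v => f v.1) = P.E f := by
  rw [FP.pr_E]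
  refine P.E_congr (fun w _ => ?_)
  exact Q.E_const (f w)

theorem pr_p_ne {P : FP O1} {Q : FP Θ} {v : O1 × Θ} (h : (FP.pr P Q).p v ≠ 0) : P.p v.1 ≠ 0 ∧ Q.p v.2 ≠ 0 := by
  have e : (FP.pr P Q).p v = P.p v.1 * Q.p v.2 := rfl
  rw [e] at h
  exact ⟨left_ne_zero_of_mul h, right_ne_zero_of_mul h⟩

/-- CONTINUITY, FORM OF CM.3 (4): `Y'` = simulated labels with a seed, `X` and `Z` as they are; at most `exp a` values of
`X` on the classes of `Z`. -/
theorem I_sim {P : FP O1} {Q : FP Θ} {X : O1 → κ} {Y : O1 → ι} {Z : O1 → ι'} {Y' : O1 × Θ → ι} {a b : ℝ}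
    (hac : Acm P (FP.pr P Q) (fun w => (X w, Y w, Z w)) (fun v => (X v.1, Y' v, Z v.1)))
    (hkl : klm P (FP.pr P Q) (fun w => (X w, Y w, Z w)) (fun v => (X v.1, Y' v, Z v.1)) ≤ b ^ 4)
    (ha : 0 ≤ a) (hb : 0 ≤ b) (hnv : ∀ w, P.p w ≠ 0 → (nv P X Z w : ℝ) ≤ Real.exp a) :
    |P.I X Y Z - (FP.pr P Q).I (fun v => X v.1) Y' (fun v => Z v.1)| ≤ (2 * a + 4) * b :=
  I_cont_same hac hkl (fun f => (pr_fst_E P Q (fun w => f (X w, Z w))).symm) (S := vals P X Z) ha hb
    (fun _ hw => mem_vals hw) (fun _ hv => mem_vals (pr_p_ne hv).1) (vals_card_le (Real.exp_pos a).le hnv)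

end

end Pool.Agent.GMM
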