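import Pool.Agent.GMM.Rule
import Pool.Agent.GMC.Hp
import Pool.Agent.M3.HKey

/-!
# GMM/Phi: the functional `phi_G` of row CM (repair (R) of helper45, corrected by helper50), one step (helper36)

* `CI_key`, `CI_cond`, `CI_mono`, `ce_forget`, `hp_forget`, `ip_forget`, `ip_forget'` : conditional independence
  `P.CI N U V` (`U` and `V` independent given `N`) lets forget `V`;
* `O1`, `phi_fixed` : one step for a fixed family (digit `D`, irrelevant part `E`, births);
* `loss_local`, `loss_local'` : the losses are functions of (`x_G`, node);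
* `ExtP`, `phi` : the functional; `phi_fac`, `phi_nonneg`, `phi_le`, `le_phi`, `phi_step`.
-/

set_option autoImplicit false
set_option linter.unusedSectionVars false

namespace Pool.Agent.GMM

open Finset Pool.Agent.M3 Pool.Agent.GMC
open Pool.Agent.PWZ hiding ip

noncomputable section

variable {Om : Type*} [Fintype Om]

/-! ## conditional independence -/

section ci

variable {κ κ' ι ι' ν ν' υ υ' ζ ε : Type*} {P : FP Om}

/-- conditional expectations look at the class only -/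
theorem ce_congr_cls {N : Om → ν} {f g : Om → ℝ} {w : Om} (h : ∀ v, P.p v ≠ 0 → N v = N w → f v = g v) :
    P.ce N f w = P.ce N g w := by
  unfold FP.ce
  congr 1
  refine P.E_congr (fun v hv => ?_)
  by_cases hN : N v = N w
  · rw [h v hv hN]
  · rw [ind_not hN, zero_mul, zero_mul]

theorem ce_mono_cls {N : Om → ν} {f g : Om → ℝ} {w : Om} (h : ∀ v, P.p v ≠ 0 → N v = N w → f v ≤ g v) :
    P.ce N f w ≤ P.ce N g w := by
  unfold FP.ce
  refine div_le_div_of_nonneg_right (P.E_mono (fun v hv => ?_)) (P.m_nonneg _ _)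
  by_cases hN : N v = N w
  · exact mul_le_mul_of_nonneg_left (h v hv hN) (ind_nonneg _)
  · rw [ind_not hN, zero_mul, zero_mul]

/-- independence for functions of `(U,N)` -/
theorem CI_key {N : Om → ν} {U : Om → υ} {V : Om → υ'} (h : P.CI N U V) {F g : Om → ℝ}
    (hF : Fac (fun u => (U u, N u)) F) (hg : Fac V g) {w : Om} (hw : P.p w ≠ 0) :
    P.ce N (fun v => F v * g v) w = P.ce N F w * P.ce N g w := by
  classical
  let γ : υ → ℝ := fun c => if h : ∃ z, U z = c ∧ N z = N w then F h.choose else 0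
  have hG : Fac U (fun v => γ (U v)) := fun v z e => congrArg γ e
  have hGF : ∀ v, N v = N w → γ (U v) = F v := by
    intro v hv
    have hex : ∃ z, U z = U v ∧ N z = N w := ⟨v, rfl, hv⟩
    show (if h : ∃ z, U z = U v ∧ N z = N w then F h.choose else 0) = F v
    rw [dif_pos hex]
    refine hF _ _ ?_
    simp only [Prod.mk.injEq]
    exact ⟨hex.choose_spec.1, hex.choose_spec.2.trans hv.symm⟩
  have e1 : P.ce N (fun v => F v * g v) w = P.ce N (fun v => γ (U v) * g v) w :=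
    ce_congr_cls (fun v _ hv => by rw [hGF v hv])
  have e2 : P.ce N F w = P.ce N (fun v => γ (U v)) w := ce_congr_cls (fun v _ hv => by rw [hGF v hv])
  rw [e1, e2]
  exact h _ g hG hg w hw

theorem CI_mono {N : Om → ν} {U : Om → υ} {V : Om → υ'} (h : P.CI N U V) {U' : Om → κ} {V' : Om → κ'}
    (hU : Fac (fun u => (U u, N u)) U') (hV : Fac (fun u => (V u, N u)) V') : P.CI N U' V' := by
  have h1 : P.CI N U' V := fun f g hf hg w hw => CI_key h (hU.trans hf) hg hw
  have h2 : P.CI N V' U' := fun f g hf hg w hw => CI_key h1.symm (hV.trans hf) hg hw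
  exact h2.symm

/-- joint class from the class of `N` -/
theorem ce_pair {N : Om → ν} {Z : Om → ζ} {f : Om → ℝ} {w : Om} (hw : P.p w ≠ 0) :
    P.ce (fun u => (Z u, N u)) f w = P.ce N (fun v => ind (Z v = Z w) * f v) w / P.ce N (fun v => ind (Z v = Z w)) w := by
  have hm := (P.m_pos N hw).ne'
  have e1 : P.E (fun v => ind ((Z v, N v) = (Z w, N w)) * f v) =
      P.E (fun v => ind (N v = N w) * (ind (Z v = Z w) * f v)) := by
    refine P.E_congr (fun v _ => ?_)
    rw [← mul_assoc, ← ind_and, Prod.mk.injEq]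
    congr 2
    exact propext and_comm
  have e2 : P.m (fun u => (Z u, N u)) w = P.E (fun v => ind (N v = N w) * ind (Z v = Z w)) := by
    unfold FP.m
    refine P.E_congr (fun v _ => ?_)
    rw [← ind_and, Prod.mk.injEq]
    congr 1
    exact propext and_comm
  unfold FP.ce
  rw [e1, e2, div_div_div_cancel_right₀ hm]

theorem ce_ind_pos {N : Om → ν} {Z : Om → ζ} {w : Om} (hw : P.p w ≠ 0) : 0 < P.ce N (fun v => ind (Z v = Z w)) w := by
  have h1 : P.E (fun v => ind (N v = N w) * ind (Z v = Z w)) = P.m (fun u => (Z u, N u)) w := by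
    unfold FP.m
    refine P.E_congr (fun v _ => ?_)
    rw [← ind_and, Prod.mk.injEq]
    congr 1
    exact propext and_comm
  unfold FP.ce
  rw [h1]
  exact div_pos (P.m_pos _ hw) (P.m_pos _ hw)

/-- conditioning on a function of `(U,N)` keeps the independence -/
theorem CI_cond {N : Om → ν} {U : Om → υ} {V : Om → υ'} (h : P.CI N U V) {S : Om → ζ}
    (hS : Fac (fun u => (U u, N u)) S) : P.CI (fun u => (S u, N u)) U V := by
  intro f g hf hg w hw
  have hS' : Fac (fun u => (U u, N u)) (fun v => ind (S v = S w)) := Fac.ind (fun x y e => by rw [hS x y e])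
  have hSf : Fac (fun u => (U u, N u)) (fun v => ind (S v = S w) * f v) := hS'.mul ((Fac.fst U N).trans hf)
  have hp := (ce_ind_pos (P := P) (N := N) (Z := S) hw).ne'
  rw [ce_pair hw, ce_pair hw, ce_pair hw]
  have e1 : P.ce N (fun v => ind (S v = S w) * (f v * g v)) w =
      P.ce N (fun v => ind (S v = S w) * f v) w * P.ce N g w := by
    rw [← CI_key h hSf hg hw]
    exact P.ce_congr (fun v _ => by ring) w
  have e2 : P.ce N (fun v => ind (S v = S w) * g v) w = P.ce N (fun v => ind (S v = S w)) w * P.ce N g w :=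
    CI_key h hS' hg hw
  rw [e1, e2]
  field_simp

/-- the independent part can be forgotten -/
theorem ce_forget {N : Om → ν} {U : Om → υ} {V : Om → υ'} (h : P.CI N U V) {Z : Om → ζ}
    (hZ : Fac (fun u => (U u, N u)) Z) {f : Om → ℝ} (hf : Fac (fun u => (U u, N u)) f) {w : Om} (hw : P.p w ≠ 0) :
    P.ce (fun u => (Z u, V u, N u)) f w = P.ce (fun u => (Z u, N u)) f w := by
  have hZ' : Fac (fun u => (U u, N u)) (fun v => ind (Z v = Z w)) := Fac.ind (fun x y e => by rw [hZ x y e])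
  have hV' : Fac V (fun v => ind (V v = V w)) := Fac.ind (fun x y e => by rw [e])
  have h1 : P.ce (fun u => (Z u, V u, N u)) f w = P.ce (fun u => ((Z u, V u), N u)) f w :=
    P.ce_congr_map (fun x y e => by simp only [Prod.mk.injEq] at e ⊢; tauto)
      (fun x y e => by simp only [Prod.mk.injEq] at e ⊢; tauto) f w
  rw [h1, ce_pair hw, ce_pair hw]
  have hsplit : ∀ v, ind ((Z v, V v) = (Z w, V w)) = ind (Z v = Z w) * ind (V v = V w) := by
    intro v
    rw [← ind_and, Prod.mk.injEq]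
  have e1 : P.ce N (fun v => ind ((Z v, V v) = (Z w, V w)) * f v) w =
      P.ce N (fun v => ind (Z v = Z w) * f v) w * P.ce N (fun v => ind (V v = V w)) w := by
    rw [← CI_key h (hZ'.mul hf) hV' hw]
    exact P.ce_congr (fun v _ => by rw [hsplit v]; ring) w
  have e2 : P.ce N (fun v => ind ((Z v, V v) = (Z w, V w))) w =
      P.ce N (fun v => ind (Z v = Z w)) w * P.ce N (fun v => ind (V v = V w)) w := by
    rw [← CI_key h hZ' hV' hw]
    exact P.ce_congr (fun v _ => by rw [hsplit v]) w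
  rw [e1, e2, mul_div_mul_right _ _ (ce_ind_pos (P := P) (N := N) (Z := V) hw).ne']

theorem ce_forget0 {N : Om → ν} {U : Om → υ} {V : Om → υ'} (h : P.CI N U V) {f : Om → ℝ}
    (hf : Fac (fun u => (U u, N u)) f) {w : Om} (hw : P.p w ≠ 0) :
    P.ce (fun u => (V u, N u)) f w = P.ce N f w := by
  have h1 := ce_forget h (Z := fun _ => ()) (Fac.const _ ()) hf hw
  have h2 : P.ce (fun u => ((), V u, N u)) f w = P.ce (fun u => (V u, N u)) f w :=
    P.ce_congr_map (Fac.snd _ _) ((Fac.const _ ()).prod (Fac.refl _)) f w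
  have h3 : P.ce (fun u => ((), N u)) f w = P.ce N f w :=
    P.ce_congr_map (Fac.snd _ _) ((Fac.const _ ()).prod (Fac.refl _)) f w
  rw [h2, h3] at h1
  exact h1

/-- ratio of the masses as conditional expectation -/
theorem ratio_eq {X : Om → κ} {Z : Om → ι} {N : Om → ν} (v : Om) :
    P.m (fun u => (X u, Z u, N u)) v / P.m (fun u => (Z u, N u)) v = P.ce (fun u => (Z u, N u)) (fun u => ind (X u = X v)) v := by
  unfold FP.ce
  congr 1
  unfold FP.m
  refine P.E_congr (fun u _ => ?_)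
  rw [← ind_and]
  congr 1
  simp only [Prod.mk.injEq]
  exact propext ⟨fun h => ⟨h.2, h.1⟩, fun h => ⟨h.2, h.1⟩⟩

theorem hp_forget {N : Om → ν} {U : Om → υ} {V : Om → υ'} (h : P.CI N U V) {X : Om → κ} {Z : Om → ι}
    (hX : Fac (fun u => (U u, N u)) X) (hZ : Fac (fun u => (U u, N u)) Z) {w : Om} (hw : P.p w ≠ 0) :
    hp P X Z (fun u => (V u, N u)) w = hp P X Z N w := by
  have hr : ∀ v, P.p v ≠ 0 → P.m (fun u => (X u, Z u, (V u, N u))) v / P.m (fun u => (Z u, (V u, N u))) v =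
      P.m (fun u => (X u, Z u, N u)) v / P.m (fun u => (Z u, N u)) v := by
    intro v hv
    rw [ratio_eq (N := fun u => (V u, N u)), ratio_eq]
    exact ce_forget h hZ (Fac.ind (fun x y e => by rw [hX x y e])) hv
  unfold hp
  rw [P.ce_congr (f := fun v => - Real.log (P.m (fun u => (X u, Z u, (V u, N u))) v / P.m (fun u => (Z u, (V u, N u))) v))
    (g := fun v => - Real.log (P.m (fun u => (X u, Z u, N u)) v / P.m (fun u => (Z u, N u)) v))
    (fun v hv => by rw [hr v hv]) w]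
  refine ce_forget0 h (fun x y e => ?_) hw
  have h1 : Fac (fun u => (U u, N u)) (fun u => (X u, Z u, N u)) := hX.prod (hZ.prod (Fac.snd U N))
  have h2 : Fac (fun u => (U u, N u)) (fun u => (Z u, N u)) := hZ.prod (Fac.snd U N)
  rw [P.Fac_m (fun u => (X u, Z u, N u)) x y (h1 x y e), P.Fac_m (fun u => (Z u, N u)) x y (h2 x y e)]

theorem ip_forget {N : Om → ν} {U : Om → υ} {V : Om → υ'} (h : P.CI N U V) {X : Om → κ} {Y : Om → κ'} {Z : Om → ι}
    (hX : Fac (fun u => (U u, N u)) X) (hY : Fac (fun u => (U u, N u)) Y) (hZ : Fac (fun u => (U u, N u)) Z) {w : Om}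
    (hw : P.p w ≠ 0) : ip P X Y Z (fun u => (V u, N u)) w = ip P X Y Z N w := by
  unfold ip
  rw [hp_forget h hX hZ hw, hp_forget h hX (hY.prod hZ) hw]

theorem ip_forget' {N : Om → ν} {U : Om → υ} {V : Om → υ'} (h : P.CI N U V) {X : Om → κ} {Y : Om → κ'} {Z : Om → ι}
    (hX : Fac (fun u => (U u, N u)) X) (hY : Fac (fun u => (U u, N u)) Y) (hZ : Fac (fun u => (U u, N u)) Z) {w : Om}
    (hw : P.p w ≠ 0) : ip P X Y (fun u => (Z u, V u)) N w = ip P X Y Z N w := by
  have h1 := ce_ip P X Y Z (N := N) (K := fun u => (V u, N u)) (Fac.snd _ _) w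
  have h2 : P.ce N (ip P X Y Z (fun u => (V u, N u))) w = ip P X Y Z N w := by
    rw [P.ce_congr (g := ip P X Y Z N) (fun v hv => ip_forget h hX hY hZ hv) w]
    exact P.ce_of_fac (ip_fac P X Y Z N) hw
  rw [← h2, h1]
  refine ip_congr P (Fac.fst _ _) (Fac.fst _ _) ?_ (Fac.refl _) (Fac.fst _ _) (Fac.fst _ _) ?_ (Fac.refl _) w
  · intro x y e; simp only [Prod.mk.injEq] at e ⊢; tauto
  · intro x y e; simp only [Prod.mk.injEq] at e ⊢; tauto

end ci

/-! ## one step for a fixed family -/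

section fixed

variable {κ κ' κ1 κ1' ι ι' ν ν' υ δ ε β μ μ' : Type*} (P : FP Om)

/-- (O1) -/
theorem O1 {X : Om → κ} {X' : Om → κ'} {Y : Om → κ1} {Y' : Om → κ1'} {Z : Om → ι} {Z' : Om → ι'} (K : Om → ν)
    (hX : Fac X' X) (hY : Fac Y' Y) (hZ : Fac Z' Z) :
    P.I X Y (fun u => (Z u, K u)) ≤ P.I X' Y' (fun u => (Z' u, K u)) + P.I X Z' (fun u => (Z u, K u)) := by
  have h1 : P.I X Y (fun u => (Z' u, K u)) ≤ P.I X' Y' (fun u => (Z' u, K u)) := by
    refine (P.I_mono Y ((Fac.fst _ _).trans hX)).trans ?_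
    rw [P.I_comm X' Y, P.I_comm X' Y']
    exact P.I_mono X' ((Fac.fst _ _).trans hY)
  have h2 : P.I (fun u => (Y u, Z' u)) X (fun u => (Z u, K u)) =
      P.I Z' X (fun u => (Z u, K u)) + P.I Y X (fun u => (Z' u, (Z u, K u))) := P.I_chain Y Z' X _
  have h3 : P.I Y X (fun u => (Z u, K u)) ≤ P.I (fun u => (Y u, Z' u)) X (fun u => (Z u, K u)) :=
    P.I_mono X ((Fac.fst _ _).trans (Fac.fst _ _))
  have h4 : P.I Y X (fun u => (Z' u, (Z u, K u))) = P.I Y X (fun u => (Z' u, K u)) := by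
    apply P.I_congr_cond
    · intro x y e; simp only [Prod.mk.injEq] at e ⊢; exact ⟨e.1, e.2.2⟩
    · intro x y e; simp only [Prod.mk.injEq] at e ⊢; exact ⟨e.1, hZ x y e.1, e.2⟩
  rw [P.I_comm X Y] at h1 ⊢
  rw [P.I_comm X Z']
  linarith

variable {P}

/-- one step for a fixed family, abstract variables -/
theorem phi_fixed {X : Om → κ} {X' : Om → κ'} {Y : Om → κ1} {Y' : Om → κ1'} {Z : Om → ι} {Z' : Om → ι'} {N : Om → ν}
    {N' : Om → ν'} {D : Om → δ} {E : Om → ε} {U : Om → υ} (hN : Fac N' N) (hX : Fac X' X) (hY : Fac Y' Y) (hZ : Fac Z' Z)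
    (h1 : Fac (fun u => (Z u, D u, E u, N u)) N') (h2 : Fac N' D) (h3 : Fac N' E) (hci : P.CI N U E)
    (hXU : Fac (fun u => (U u, N u)) X) (hYU : Fac (fun u => (U u, N u)) Y) (hZU : Fac (fun u => (U u, N u)) Z)
    (hDU : Fac (fun u => (U u, N u)) D) {w : Om} (hw : P.p w ≠ 0) :
    ip P X Y Z N w ≤ P.ce N (ip P X' Y' Z' N') w + ip P X D Z N w + P.ce N (ip P X Z' Z N') w := by
  rw [ce_ip P X' Y' Z' hN, ce_ip P X Z' Z hN]
  have s1 : ip P X Y (fun u => (Z u, N' u)) N w ≤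
      ip P X' Y' (fun u => (Z' u, N' u)) N w + ip P X Z' (fun u => (Z u, N' u)) N w := by
    rw [ip_eq_cond P X Y _ N hw, ip_eq_cond P X' Y' _ N hw, ip_eq_cond P X Z' _ N hw]
    exact O1 _ N' hX hY hZ
  have s2 : ip P X Y (fun u => (Z u, N' u)) N w = ip P X Y (fun u => ((Z u, D u), E u)) N w := by
    refine ip_congr P (Fac.fst _ _) (Fac.fst _ _) ?_ (Fac.refl _) (Fac.fst _ _) (Fac.fst _ _) ?_ (Fac.refl _) w
    · intro x y e
      simp only [Prod.mk.injEq] at e ⊢
      exact ⟨⟨e.1.1, h2 x y e.1.2⟩, h3 x y e.1.2⟩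
    · intro x y e
      simp only [Prod.mk.injEq] at e ⊢
      exact ⟨e.1.1.1, h1 x y (by simp only [Prod.mk.injEq]; exact ⟨e.1.1.1, e.1.1.2, e.1.2, e.2⟩)⟩
  have s3 : ip P X Y (fun u => ((Z u, D u), E u)) N w = ip P X Y (fun u => (Z u, D u)) N w :=
    ip_forget' hci hXU hYU (hZU.prod hDU) hw
  have s4 : ip P X Y Z N w ≤ ip P X Y (fun u => (Z u, D u)) N w + ip P X D Z N w := by
    rw [ip_eq_cond P X Y Z N hw, ip_eq_cond P X Y _ N hw, ip_eq_cond P X D Z N hw]
    set Q := at_ P N w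
    have a1 : Q.I (fun u => (Y u, D u)) X Z = Q.I D X Z + Q.I Y X (fun u => (D u, Z u)) := Q.I_chain Y D X Z
    have a2 : Q.I Y X Z ≤ Q.I (fun u => (Y u, D u)) X Z := Q.I_mono X ((Fac.fst _ _).trans (Fac.fst _ _))
    have a3 : Q.I Y X (fun u => (D u, Z u)) = Q.I Y X (fun u => (Z u, D u)) := by
      apply Q.I_congr_cond
      · intro x y e; simp only [Prod.mk.injEq] at e ⊢; tauto
      · intro x y e; simp only [Prod.mk.injEq] at e ⊢; tauto
    rw [Q.I_comm X Y, Q.I_comm X D, Q.I_comm X Y]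
    linarith
  linarith

/-- the loss at the point `N` is the mean of a function of `NG` (`V` = known vertices outside of `G`) -/
theorem loss_local {X : Om → κ} {Y : Om → κ1} {Z : Om → ι} {N : Om → ν} {NG : Om → ν'} {xB : Om → β} {U : Om → υ}
    {V : Om → μ} (hci : P.CI NG U V) (hX : Fac (fun u => (U u, NG u)) X) (hY : Fac (fun u => (U u, NG u)) Y)
    (hZ : Fac (fun u => (U u, NG u)) Z) (h1 : Fac (fun u => (xB u, N u)) (fun u => (V u, NG u)))
    (h2 : Fac (fun u => (V u, NG u)) (fun u => (xB u, N u))) {w : Om} :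
    ip P X Y (fun u => (Z u, xB u)) N w = P.ce N (ip P X Y Z NG) w := by
  have e1 := ce_ip P X Y Z (N := N) (K := fun u => (xB u, N u)) (Fac.snd _ _) w
  have e2 : ip P X Y (fun u => (Z u, (xB u, N u))) N w = ip P X Y (fun u => (Z u, xB u)) N w := by
    refine ip_congr P (Fac.fst _ _) (Fac.fst _ _) ?_ (Fac.refl _) (Fac.fst _ _) (Fac.fst _ _) ?_ (Fac.refl _) w
    · intro x y e; simp only [Prod.mk.injEq] at e ⊢; tauto
    · intro x y e; simp only [Prod.mk.injEq] at e ⊢; tauto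
  rw [← e2, ← e1]
  refine P.ce_congr (fun v hv => ?_) w
  rw [← ip_forget hci hX hY hZ hv]
  exact ip_congr P (Fac.fst _ _) (Fac.fst _ _) (Fac.fst _ _) h1 (Fac.fst _ _) (Fac.fst _ _) (Fac.fst _ _) h2 v

theorem loss_local' {X : Om → κ} {Y : Om → κ1} {Z : Om → ι} {N : Om → ν'} {N' : Om → ν} {NG : Om → μ'} {xB : Om → β}
    {U : Om → υ} {V : Om → μ} (hN : Fac N' N) (hci : P.CI NG U V) (hX : Fac (fun u => (U u, NG u)) X)
    (hY : Fac (fun u => (U u, NG u)) Y) (hZ : Fac (fun u => (U u, NG u)) Z)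
    (h1 : Fac (fun u => (xB u, N' u)) (fun u => (V u, NG u))) (h2 : Fac (fun u => (V u, NG u)) (fun u => (xB u, N' u)))
    {w : Om} : P.ce N (ip P X Y (fun u => (Z u, xB u)) N') w = P.ce N (ip P X Y Z NG) w := by
  rw [← P.ce_tower hN (ip P X Y Z NG)]
  exact P.ce_congr (fun v _ => loss_local hci hX hY hZ h1 h2) w

end fixed

/-! ## entropies at a point look at the class only -/

section cls

variable {κ κ' ι ι' ν : Type*} {P : FP Om}

theorem hp_congr_cls {X X' : Om → κ} {Z Z' : Om → ι} {N : Om → ν} {w : Om} (hX : ∀ v, N v = N w → X v = X' v)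
    (hZ : ∀ v, N v = N w → Z v = Z' v) : hp P X Z N w = hp P X' Z' N w := by
  unfold hp
  refine ce_congr_cls (fun v _ hv => ?_)
  have e1 : P.m (fun u => (X u, Z u, N u)) v = P.m (fun u => (X' u, Z' u, N u)) v := by
    unfold FP.m
    refine P.E_congr (fun u _ => ?_)
    congr 1
    apply propext
    simp only [Prod.mk.injEq]
    constructor
    · rintro ⟨h1, h2, h3⟩
      have h4 := h3.trans hv
      exact ⟨by rw [← hX u h4, ← hX v hv, h1], by rw [← hZ u h4, ← hZ v hv, h2], h3⟩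
    · rintro ⟨h1, h2, h3⟩
      have h4 := h3.trans hv
      exact ⟨by rw [hX u h4, hX v hv, h1], by rw [hZ u h4, hZ v hv, h2], h3⟩
  have e2 : P.m (fun u => (Z u, N u)) v = P.m (fun u => (Z' u, N u)) v := by
    unfold FP.m
    refine P.E_congr (fun u _ => ?_)
    congr 1
    apply propext
    simp only [Prod.mk.injEq]
    constructor
    · rintro ⟨h2, h3⟩
      have h4 := h3.trans hv
      exact ⟨by rw [← hZ u h4, ← hZ v hv, h2], h3⟩
    · rintro ⟨h2, h3⟩
      have h4 := h3.trans hv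
      exact ⟨by rw [hZ u h4, hZ v hv, h2], h3⟩
  rw [e1, e2]

theorem ip_congr_cls {X X' : Om → κ} {Y Y' : Om → κ'} {Z Z' : Om → ι} {N : Om → ν} {w : Om}
    (hX : ∀ v, N v = N w → X v = X' v) (hY : ∀ v, N v = N w → Y v = Y' v) (hZ : ∀ v, N v = N w → Z v = Z' v) :
    ip P X Y Z N w = ip P X' Y' Z' N w := by
  unfold ip
  rw [hp_congr_cls hX hZ, hp_congr_cls (Z := fun u => (Y u, Z u)) (Z' := fun u => (Y' u, Z' u)) hX
    (fun v hv => by rw [hY v hv, hZ v hv])]

end cls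

/-! ## the functional -/

section phi

variable {ι : Type*} [Fintype ι] [DecidableEq ι] {χ α κ κ' δ ε : Type*}

/-- admissible family at the class of `(x_J, Q)` at `w0` (index `I = J ∪ P`, `P` proper in `G \ J`) -/
structure ExtP (P : FP Om) (a : Om → α) (x : ι → Om → χ) (Q : Om → κ) (A : ℝ) (J G : Finset ι) (w0 : Om)
    (R : Finset ι → Om → ℕ) : Prop where
  fac : ∀ I, J ⊆ I → I ⊂ J ∪ G → ∀ u w, (xr x J u, Q u) = (xr x J w0, Q w0) → a u = a w → xr x I u = xr x I w →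
    Q u = Q w → R I u = R I w
  card : ∀ I, J ⊆ I → I ⊂ J ∪ G → ∀ w, P.p w ≠ 0 → (xr x J w, Q w) = (xr x J w0, Q w0) →
    (nv P (R I) (fun u => (xr x I u, Q u)) w : ℝ) ≤ Real.exp A

/-- the labels inside `J ∪ G` of size `≤ |G|`, except `G` -/
abbrev lall {β : Type*} (L : Finset ι → Om → β) (J G : Finset ι) : Om → Finset ι → Option β :=
  sel (fun H => H ⊆ J ∪ G ∧ H.card ≤ G.card ∧ H ≠ G) L

/-- the functional of one family -/
def phiv (P : FP Om) (x : ι → Om → χ) (Q : Om → κ) (L : Finset ι → Om → ℕ) (J G : Finset ι) (R : Finset ι → Om → ℕ)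
    (w : Om) : ℝ :=
  ip P (L G) (fun u => (pk R J (J ∪ G) u, lall L J G u)) (fun u => (lt L G u, xr x (J ∪ G) u))
    (fun u => (xr x J u, Q u)) w

/-- THE FUNCTIONAL `phi_G(x_J, Q)` -/
def phi (P : FP Om) (a : Om → α) (x : ι → Om → χ) (Q : Om → κ) (L : Finset ι → Om → ℕ) (A : ℝ) (J G : Finset ι)
    (w : Om) : ℝ := sSup {r | ∃ R, ExtP P a x Q A J G w R ∧ r = phiv P x Q L J G R w}

variable {P : FP Om} {a : Om → α} {x : ι → Om → χ} {Q : Om → κ} {Q' : Om → κ'} {L L' : Finset ι → Om → ℕ} {A : ℝ}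
  {J G : Finset ι} {w0 w : Om} {R : Finset ι → Om → ℕ}

theorem ExtP.of_cls (h : ExtP P a x Q A J G w0 R) {w : Om} (hw : (xr x J w, Q w) = (xr x J w0, Q w0)) :
    ExtP P a x Q A J G w R where
  fac := fun I h1 h2 u z hu => h.fac I h1 h2 u z (hu.trans hw)
  card := fun I h1 h2 z hz hz' => h.card I h1 h2 z hz (hz'.trans hw)

theorem ext_zero (hA : 0 ≤ A) : ExtP P a x Q A J G w0 (fun _ _ => 0) where
  fac := fun _ _ _ _ _ _ _ _ _ => rfl
  card := fun I _ _ w _ _ => by
    have h1 := nv_const (P := P) (V := fun u => (xr x I u, Q u)) (0 : ℕ) w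
    have h2 : ((nv P (fun _ : Om => (0 : ℕ)) (fun u => (xr x I u, Q u)) w : ℕ) : ℝ) ≤ 1 := by exact_mod_cast h1
    exact h2.trans (Real.one_le_exp hA)

theorem phiv_fac (L : Finset ι → Om → ℕ) (J G : Finset ι) (R : Finset ι → Om → ℕ) :
    Fac (fun u => (xr x J u, Q u)) (phiv P x Q L J G R) := ip_fac P _ _ _ _

theorem phi_fac (L : Finset ι → Om → ℕ) (A : ℝ) (J G : Finset ι) :
    Fac (fun u => (xr x J u, Q u)) (phi P a x Q L A J G) := by
  intro u w e
  unfold phi
  congr 1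
  ext r
  constructor
  · rintro ⟨R, hR, rfl⟩
    exact ⟨R, hR.of_cls e.symm, phiv_fac L J G R u w e⟩
  · rintro ⟨R, hR, rfl⟩
    exact ⟨R, hR.of_cls e, (phiv_fac L J G R u w e).symm⟩

theorem phiv_nonneg (hw : P.p w ≠ 0) : 0 ≤ phiv P x Q L J G R w := ip_nonneg P _ _ _ _ hw

theorem phiv_le (hw : P.p w ≠ 0) : phiv P x Q L J G R w ≤
    hp P (L G) (fun u => (lt L G u, xr x (J ∪ G) u)) (fun u => (xr x J u, Q u)) w := ip_le_hp P _ _ _ _ hw

theorem le_phi (h : ExtP P a x Q A J G w R) (hw : P.p w ≠ 0) : phiv P x Q L J G R w ≤ phi P a x Q L A J G w := by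
  refine le_csSup ⟨hp P (L G) (fun u => (lt L G u, xr x (J ∪ G) u)) (fun u => (xr x J u, Q u)) w, ?_⟩ ⟨R, h, rfl⟩
  rintro r ⟨R', _, rfl⟩
  exact phiv_le hw

theorem phi_le_of (hA : 0 ≤ A) {c : ℝ} (h : ∀ R, ExtP P a x Q A J G w R → phiv P x Q L J G R w ≤ c) :
    phi P a x Q L A J G w ≤ c := by
  refine csSup_le ⟨_, fun _ _ => 0, ext_zero hA, rfl⟩ ?_
  rintro r ⟨R, hR, rfl⟩
  exact h R hR

theorem phi_nonneg (hA : 0 ≤ A) (hw : P.p w ≠ 0) : 0 ≤ phi P a x Q L A J G w :=
  (phiv_nonneg hw).trans (le_phi (ext_zero hA) hw)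

theorem phi_le (hA : 0 ≤ A) (hw : P.p w ≠ 0) : phi P a x Q L A J G w ≤
    hp P (L G) (fun u => (lt L G u, xr x (J ∪ G) u)) (fun u => (xr x J u, Q u)) w :=
  phi_le_of hA (fun _ _ => phiv_le hw)

open Classical in
/-- a family cut off outside of the class -/
def cutx (x : ι → Om → χ) (Q : Om → κ) (J G : Finset ι) (w0 : Om) (R : Finset ι → Om → ℕ) (I : Finset ι) (u : Om) : ℕ :=
  if J ⊆ I ∧ I ⊂ J ∪ G ∧ (xr x J u, Q u) = (xr x J w0, Q w0) then R I u else 0

theorem cutx_of {I : Finset ι} {u : Om} (h : J ⊆ I ∧ I ⊂ J ∪ G ∧ (xr x J u, Q u) = (xr x J w0, Q w0)) :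
    cutx x Q J G w0 R I u = R I u := by unfold cutx; rw [if_pos h]

theorem cutx_not {I : Finset ι} {u : Om} (h : ¬ (J ⊆ I ∧ I ⊂ J ∪ G ∧ (xr x J u, Q u) = (xr x J w0, Q w0))) :
    cutx x Q J G w0 R I u = 0 := by unfold cutx; rw [if_neg h]

theorem cutx_fac (h : ExtP P a x Q A J G w0 R) (I : Finset ι) :
    Fac (fun u => (a u, xr x I u, Q u)) (cutx x Q J G w0 R I) := by
  intro u w e
  simp only [Prod.mk.injEq] at e
  by_cases hc : J ⊆ I ∧ I ⊂ J ∪ G ∧ (xr x J u, Q u) = (xr x J w0, Q w0)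
  · have hc' : J ⊆ I ∧ I ⊂ J ∪ G ∧ (xr x J w, Q w) = (xr x J w0, Q w0) :=
      ⟨hc.1, hc.2.1, (cls_iff hc.1 e.2.1 e.2.2).1 hc.2.2⟩
    rw [cutx_of hc, cutx_of hc', h.fac I hc.1 hc.2.1 u w hc.2.2 e.1 e.2.1 e.2.2]
  · have hc' : ¬ (J ⊆ I ∧ I ⊂ J ∪ G ∧ (xr x J w, Q w) = (xr x J w0, Q w0)) :=
      fun h' => hc ⟨h'.1, h'.2.1, (cls_iff h'.1 e.2.1 e.2.2).2 h'.2.2⟩
    rw [cutx_not hc, cutx_not hc']

theorem cutx_ext (h : ExtP P a x Q A J G w0 R) : ExtP P a x Q A J G w0 (cutx x Q J G w0 R) where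
  fac := fun I h1 h2 u w hu ha hx hQ => cutx_fac h I u w (by simp only [Prod.mk.injEq]; exact ⟨ha, hx, hQ⟩)
  card := fun I h1 h2 w hw hw' => by
    refine le_trans ?_ (h.card I h1 h2 w hw hw')
    have key : ∀ u, (xr x I u, Q u) = (xr x I w, Q w) → cutx x Q J G w0 R I u = R I u := by
      intro u hu
      simp only [Prod.mk.injEq] at hu
      exact cutx_of ⟨h1, h2, (cls_iff h1 hu.1 hu.2).2 hw'⟩
    exact_mod_cast nv_le_nv (fun u u' _ _ e1 e2 e => by rw [key u e1, key u' e2, e])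

theorem phiv_cutx : phiv P x Q L J G (cutx x Q J G w R) w = phiv P x Q L J G R w := by
  unfold phiv
  refine ip_congr_cls (fun _ _ => rfl) (fun v hv => ?_) (fun _ _ => rfl)
  have : pk (cutx x Q J G w R) J (J ∪ G) v = pk R J (J ∪ G) v := by
    funext I
    unfold pk sel
    by_cases hI : J ⊆ I ∧ I ⊂ J ∪ G
    · rw [if_pos hI, if_pos hI, cutx_of ⟨hI.1, hI.2, hv⟩]
    · rw [if_neg hI, if_neg hI]
  rw [this]

/-- an old family is admissible at the new node -/
theorem ExtP.step (h : ExtP P a x Q A J G w0 R) (hQ : Fac Q' Q) {w : Om} (hw : (xr x J w, Q w) = (xr x J w0, Q w0)) :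
    ExtP P a x Q' A J G w R where
  fac := fun I h1 h2 u z hu ha hx hQ' => by
    simp only [Prod.mk.injEq] at hu hw
    refine h.fac I h1 h2 u z ?_ ha hx (hQ u z hQ')
    simp only [Prod.mk.injEq]
    exact ⟨hu.1.trans hw.1, (hQ u w hu.2).trans hw.2⟩
  card := fun I h1 h2 z hz hz' => by
    simp only [Prod.mk.injEq] at hz' hw
    have h3 : (xr x J z, Q z) = (xr x J w0, Q w0) := by
      simp only [Prod.mk.injEq]
      exact ⟨hz'.1.trans hw.1, (hQ z w hz'.2).trans hw.2⟩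
    refine le_trans ?_ (h.card I h1 h2 z hz h3)
    have h4 : nv P (R I) (fun u => (xr x I u, Q' u)) z ≤ nv P (R I) (fun u => (xr x I u, Q u)) z :=
      nv_anti (fun b c e => by
        simp only [Prod.mk.injEq] at e ⊢
        exact ⟨e.1, hQ b c e.2⟩) z
    exact_mod_cast h4

theorem xr_union {u v : Om} {I K : Finset ι} (h1 : xr x I u = xr x I v) (h2 : xr x K u = xr x K v) :
    xr x (I ∪ K) u = xr x (I ∪ K) v := by
  rw [sel_eq] at h1 h2 ⊢
  intro i hi
  rcases Finset.mem_union.1 hi with h | h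
  · exact h1 i h
  · exact h2 i h

/-- ONE STEP of the functional.  `D` = digit of the hidden vertex, `E` = what the new node tells beyond the digits of
the hidden vertex and of the vertices of `J ∪ G`. -/
theorem phi_step {D : Om → δ} {E : Om → ε} (hA : 0 ≤ A) (hQ : Fac Q' Q)
    (hL : ∀ I, Fac (fun u => (a u, xr x I u, Q u)) (L I)) (hL' : ∀ I, Fac (fun u => (a u, xr x I u, Q' u)) (L' I))
    (hLL : ∀ I, Fac (L' I) (L I)) (hDa : Fac (fun u => (a u, Q u)) D)
    (h1 : Fac (fun u => (xr x (J ∪ G) u, D u, E u, Q u)) Q') (h2 : Fac Q' D) (h3 : Fac Q' E)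
    (hci : P.CI Q (fun u => (a u, xr x (J ∪ G) u)) E)
    (hG : P.CI (fun u => (xr x G u, Q u)) a (xr x (J \ G))) (hG' : P.CI (fun u => (xr x G u, Q' u)) a (xr x (J \ G)))
    (hw : P.p w ≠ 0) :
    phi P a x Q L A J G w ≤ P.ce (fun u => (xr x J u, Q u)) (fun u => phi P a x Q' L' A J G u +
      ip P (L G) (lt L' G) (lt L G) (fun v => (xr x G v, Q' v)) u +
      ip P (L G) D (lt L G) (fun v => (xr x G v, Q v)) u) w := by
  have hJG : J ⊆ J ∪ G := subset_union_left
  have hGG : G ⊆ J ∪ G := subset_union_right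
  set N : Om → (ι → Option χ) × κ := fun u => (xr x J u, Q u) with hN
  set N' : Om → (ι → Option χ) × κ' := fun u => (xr x J u, Q' u) with hN'
  have hNN : Fac N' N := by
    intro u v e
    simp only [hN, hN', Prod.mk.injEq] at e ⊢
    exact ⟨e.1, hQ u v e.2⟩
  refine phi_le_of hA (fun R0 hR0 => ?_)
  rw [← phiv_cutx]
  set R := cutx x Q J G w R0 with hRdef
  have hR : ExtP P a x Q A J G w R := cutx_ext hR0
  have hRf : ∀ I, Fac (fun u => (a u, xr x I u, Q u)) (R I) := fun I => cutx_fac hR0 I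
  have hciN : P.CI N (fun u => (a u, xr x (J ∪ G) u)) E :=
    CI_cond hci (S := xr x J) (fun u v e => by
      simp only [Prod.mk.injEq] at e
      exact xr_mono x hJG u v e.1.2)
  have hUN : ∀ {I : Finset ι}, I ⊆ J ∪ G → Fac (fun u => ((a u, xr x (J ∪ G) u), N u)) (fun u => (a u, xr x I u, Q u)) := by
    intro I hI u v e
    simp only [hN, Prod.mk.injEq] at e ⊢
    exact ⟨e.1.1, xr_mono x hI u v e.1.2, e.2.2⟩
  have hpk : Fac (fun u => ((a u, xr x (J ∪ G) u), N u)) (pk R J (J ∪ G)) :=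
    fac_sel (fun I hI => (hUN hI.2.1).trans (hRf I))
  have hla : Fac (fun u => ((a u, xr x (J ∪ G) u), N u)) (lall L J G) :=
    fac_sel (fun I hI => (hUN hI.1).trans (hL I))
  have hlt : Fac (fun u => ((a u, xr x (J ∪ G) u), N u)) (lt L G) :=
    fac_sel (fun I hI => (hUN (hI.1.trans hGG)).trans (hL I))
  have hxx : Fac (fun u => ((a u, xr x (J ∪ G) u), N u)) (xr x (J ∪ G)) := by
    intro u v e
    simp only [Prod.mk.injEq] at e
    exact e.1.2
  have hDU : Fac (fun u => ((a u, xr x (J ∪ G) u), N u)) D := by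
    intro u v e
    simp only [hN, Prod.mk.injEq] at e
    exact hDa u v (by simp only [Prod.mk.injEq]; exact ⟨e.1.1, e.2.2⟩)
  have hltLL : Fac (lt L' G) (lt L G) := fac_sel (fun I hI => (lt_fac L' hI).trans (hLL I))
  have key := phi_fixed (P := P) (X := L G) (X' := L' G) (Y := fun u => (pk R J (J ∪ G) u, lall L J G u))
    (Y' := fun u => (pk R J (J ∪ G) u, lall L' J G u)) (Z := fun u => (lt L G u, xr x (J ∪ G) u))
    (Z' := fun u => (lt L' G u, xr x (J ∪ G) u)) (N := N) (N' := N') (D := D) (E := E)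
    (U := fun u => (a u, xr x (J ∪ G) u)) hNN (hLL G)
    (by
      intro u v e
      simp only [Prod.mk.injEq] at e ⊢
      exact ⟨e.1, sel_eq.2 (fun I hI => hLL I u v (sel_eq.1 e.2 I hI))⟩)
    (by
      intro u v e
      simp only [Prod.mk.injEq] at e ⊢
      exact ⟨hltLL u v e.1, e.2⟩)
    (by
      intro u v e
      simp only [hN, hN', Prod.mk.injEq] at e ⊢
      exact ⟨e.2.2.2.1, h1 u v (by simp only [Prod.mk.injEq]; exact ⟨e.1.2, e.2.1, e.2.2.1, e.2.2.2.2⟩)⟩)
    ((Fac.snd _ _).trans h2) ((Fac.snd _ _).trans h3) hciN ((hUN hGG).trans (hL G)) (hpk.prod hla) (hlt.prod hxx) hDU hw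
  -- the losses
  have l1 : ip P (L G) D (fun u => (lt L G u, xr x (J ∪ G) u)) N w =
      P.ce N (ip P (L G) D (lt L G) (fun v => (xr x G v, Q v))) w := by
    refine loss_local hG ?_ ?_ ?_ ?_ ?_
    · intro u v e
      exact hL G u v (by simp only [Prod.mk.injEq] at e ⊢; exact ⟨e.1, e.2.1, e.2.2⟩)
    · intro u v e
      exact hDa u v (by simp only [Prod.mk.injEq] at e ⊢; exact ⟨e.1, e.2.2⟩)
    · refine fac_sel (fun I hI u v e => hL I u v ?_)
      simp only [Prod.mk.injEq] at e ⊢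
      exact ⟨e.1, xr_mono x hI.1 u v e.2.1, e.2.2⟩
    · intro u v e
      simp only [hN, Prod.mk.injEq] at e ⊢
      exact ⟨xr_mono x (Finset.sdiff_subset.trans hJG) u v e.1, xr_mono x hGG u v e.1, e.2.2⟩
    · intro u v e
      simp only [hN, Prod.mk.injEq] at e ⊢
      have h5 : xr x (J ∪ G) u = xr x (J ∪ G) v := by
        have h6 := xr_union (x := x) e.1 e.2.1
        have h7 : J \ G ∪ G = J ∪ G := Finset.sdiff_union_self_eq_union
        rw [h7] at h6
        exact h6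
      exact ⟨h5, xr_mono x hJG u v h5, e.2.2⟩
  have l2 : P.ce N (ip P (L G) (fun u => (lt L' G u, xr x (J ∪ G) u)) (fun u => (lt L G u, xr x (J ∪ G) u)) N') w =
      P.ce N (ip P (L G) (lt L' G) (lt L G) (fun v => (xr x G v, Q' v))) w := by
    have e1 : ∀ u, ip P (L G) (fun u => (lt L' G u, xr x (J ∪ G) u)) (fun u => (lt L G u, xr x (J ∪ G) u)) N' u =
        ip P (L G) (lt L' G) (fun u => (lt L G u, xr x (J ∪ G) u)) N' u := by
      intro u
      refine ip_congr P (Fac.fst _ _) ?_ (Fac.fst _ _) (Fac.refl _) (Fac.fst _ _) ?_ (Fac.fst _ _) (Fac.refl _) u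
      · intro b c e; simp only [Prod.mk.injEq] at e ⊢; exact e.1.1
      · intro b c e; simp only [Prod.mk.injEq] at e ⊢; exact ⟨e.1, e.2.1.2⟩
    rw [P.ce_congr (fun u _ => e1 u) w]
    refine loss_local' hNN hG' ?_ ?_ ?_ ?_ ?_
    · intro u v e
      exact hL G u v (by simp only [Prod.mk.injEq] at e ⊢; exact ⟨e.1, e.2.1, hQ u v e.2.2⟩)
    · refine fac_sel (fun I hI u v e => hL' I u v ?_)
      simp only [Prod.mk.injEq] at e ⊢
      exact ⟨e.1, xr_mono x hI.1 u v e.2.1, e.2.2⟩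
    · refine fac_sel (fun I hI u v e => hL I u v ?_)
      simp only [Prod.mk.injEq] at e ⊢
      exact ⟨e.1, xr_mono x hI.1 u v e.2.1, hQ u v e.2.2⟩
    · intro u v e
      simp only [hN', Prod.mk.injEq] at e ⊢
      exact ⟨xr_mono x (Finset.sdiff_subset.trans hJG) u v e.1, xr_mono x hGG u v e.1, e.2.2⟩
    · intro u v e
      simp only [hN', Prod.mk.injEq] at e ⊢
      have h5 : xr x (J ∪ G) u = xr x (J ∪ G) v := by
        have h6 := xr_union (x := x) e.1 e.2.1
        have h7 : J \ G ∪ G = J ∪ G := Finset.sdiff_union_self_eq_union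
        rw [h7] at h6
        exact h6
      exact ⟨h5, xr_mono x hJG u v h5, e.2.2⟩
  -- the new functional
  have l3 : P.ce N (ip P (L' G) (fun u => (pk R J (J ∪ G) u, lall L' J G u)) (fun u => (lt L' G u, xr x (J ∪ G) u)) N') w ≤
      P.ce N (phi P a x Q' L' A J G) w :=
    ce_mono_cls (fun v hv hNv => le_phi (L := L') (hR.step hQ hNv) hv)
  rw [P.ce_add, P.ce_add]
  rw [l1, l2] at key
  have e0 : phiv P x Q L J G R w = ip P (L G) (fun u => (pk R J (J ∪ G) u, lall L J G u))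
    (fun u => (lt L G u, xr x (J ∪ G) u)) N w := rfl
  rw [e0]
  linarith

/-! ## along the path, with the labels of `RuleOut` -/

/-- what the step uses of the model.  `E t M` = what `Q (t+1)` tells beyond `Q t`, the digit `D t` of the hidden vertex
and the digits of the vertices of the types in `M`. -/
structure Mdl {κ δ ε : ℕ → Type*} (P : FP Om) (a : Om → α) (x : ι → Om → χ) (Q : ∀ t, Om → κ t) (D : ∀ t, Om → δ t)
    (E : ∀ t, Finset ι → Om → ε t) : Prop where
  filt : Filt Q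
  dig : ∀ t, Fac (fun u => (a u, Q t u)) (D t)
  dQ : ∀ t, Fac (Q (t + 1)) (D t)
  next : ∀ t M, Fac (fun u => (xr x M u, D t u, E t M u, Q t u)) (Q (t + 1))
  eQ : ∀ t M, Fac (Q (t + 1)) (E t M)
  indE : ∀ t M, P.CI (Q t) (fun u => (a u, xr x M u)) (E t M)
  ind : ∀ t M M', Disjoint M M' → P.CI (fun u => (xr x M u, Q t u)) a (xr x M')

/-- the loss of the label `G` from `t` to `t + 1` (births at the new node, digit at the old node) -/
def cG {κ δ : ℕ → Type*} (P : FP Om) (x : ι → Om → χ) (Q : ∀ t, Om → κ t) (D : ∀ t, Om → δ t)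
    (L : ℕ → Finset ι → Om → ℕ) (G : Finset ι) (t : ℕ) (u : Om) : ℝ :=
  ip P (L t G) (lt (L (t + 1)) G) (lt (L t) G) (fun v => (xr x G v, Q (t + 1) v)) u +
    ip P (L t G) (D t) (lt (L t) G) (fun v => (xr x G v, Q t v)) u

section rule

variable {κ δ ε φ : ℕ → Type*} {Q : ∀ t, Om → κ t} {D : ∀ t, Om → δ t} {E : ∀ t, Finset ι → Om → ε t}
  {f : ∀ t, Finset ι → Om → φ t} {Av w aa : ℕ → ℝ} {h : ℝ} {T : ℕ} {L : ℕ → Finset ι → Om → ℕ}
  {fat : ℕ → Finset ι → Om → Prop}

theorem cG_fac (hQ : Filt Q) (G : Finset ι) (t : ℕ) :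
    Fac (fun u => (xr x G u, Q (t + 1) u)) (cG P x Q D L G t) := by
  refine Fac.add (ip_fac P _ _ _ _) (Fac.trans ?_ (ip_fac P _ _ _ _))
  intro u v e
  simp only [Prod.mk.injEq] at e ⊢
  exact ⟨e.1, hQ t u v e.2⟩

theorem cG_nonneg (G : Finset ι) (t : ℕ) {u : Om} (hu : P.p u ≠ 0) : 0 ≤ cG P x Q D L G t u :=
  add_nonneg (ip_nonneg P _ _ _ _ hu) (ip_nonneg P _ _ _ _ hu)

theorem E_cG (G : Finset ι) (t : ℕ) : P.E (cG P x Q D L G t) =
    P.I (L t G) (D t) (cz x (Q t) (L t) G) + P.I (L t G) (lt (L (t + 1)) G) (cz x (Q (t + 1)) (L t) G) := by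
  have e : cG P x Q D L G t = fun u =>
      ip P (L t G) (lt (L (t + 1)) G) (lt (L t) G) (fun v => (xr x G v, Q (t + 1) v)) u +
      ip P (L t G) (D t) (lt (L t) G) (fun v => (xr x G v, Q t v)) u := rfl
  rw [e, P.E_add, E_ip, E_ip, add_comm]

/-- (B3) for the losses -/
theorem RuleOut.sum_cG (hR : RuleOut P a x Q D f Av w aa h T L fat) {G : Finset ι} (hG : G ≠ univ) :
    ∑ t ∈ range T, P.E (cG P x Q D L G t) ≤ h + h * w (Fintype.card ι - 1) / w G.card := by
  refine le_trans (le_of_eq ?_) (hR.b3 G hG)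
  exact Finset.sum_congr rfl (fun t _ => E_cG G t)

/-- ONE STEP along the path -/
theorem RuleOut.phi_next (hR : RuleOut P a x Q D f Av w aa h T L fat) (hM : Mdl P a x Q D E) (hA : 0 ≤ A) (t : ℕ)
    {u : Om} (hu : P.p u ≠ 0) :
    phi P a x (Q t) (L t) A J G u ≤ P.ce (fun v => (xr x J v, Q t v))
      (fun v => phi P a x (Q (t + 1)) (L (t + 1)) A J G v + cG P x Q D L G t v) u := by
  have h1 := phi_step (L := L t) (L' := L (t + 1)) (J := J) (G := G) hA (hM.filt t) (hR.fac t) (hR.fac (t + 1))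
    (hR.mono t) (hM.dig t) (hM.next t (J ∪ G)) (hM.dQ t) (hM.eQ t (J ∪ G)) (hM.indE t (J ∪ G))
    (hM.ind t G (J \ G) Finset.disjoint_sdiff) (by
      have h2 := hM.ind (t + 1) G (J \ G) Finset.disjoint_sdiff
      exact h2) hu
  refine h1.trans (le_of_eq ?_)
  refine P.ce_congr (fun v _ => ?_) u
  unfold cG
  ring

end rule

end phi

end

end Pool.Agent.GMM
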