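import Pool.Agent.GMM.SatInd
import Pool.Agent.GMM.Phi

/-!
# GMM/FatS: packages with fat letters, and one hypothesis for the static step (row CM, CM.3 (4); helper40)

* `PhAll D s A' δ` (the same as `PhiAll` of SatInd): for all `G` of size `s` which are not contained in `J` and all letters
  with at most `exp A'` values: `ph1 D v G ≤ δ`;
* `ph1_fat` : `J < G`: (SAT0) is for letters which are constant at fat vertices; for arbitrary letters one pays
  `aS * P(some fat)`;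
* `PhAll_of` : `PhiBd` and `Sat0Bd` give `PhAll` with `δ = max δ' (ζ + aS * (2 ^ card ι * φ))`;
* `PhiAll_of_fat` : the form with `PhiAll` and the law of the vertices.
-/

set_option autoImplicit false
set_option linter.unusedSectionVars false

namespace Pool.Agent.GMM

open Finset Pool.Agent.PWZ Pool.Agent.M3 Pool.Agent.M3.FP Pool.Agent.GMC

noncomputable section

variable {ι α χ : Type} [Fintype ι] [DecidableEq ι] [Fintype α] [Fintype χ] [DecidableEq χ] (D : SD ι α χ)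

/-- the hypothesis of the static step -/
def PhAll (s : ℕ) (A δ : ℝ) : Prop :=
  ∀ G : Finset ι, G.card = s → ¬ G ⊆ D.J → ∀ v, Let1 D A (fun I => D.J ⊆ I ∧ I ⊂ D.J ∪ G) v → ph1 D v G ≤ δ

variable {D}

open Classical in
/-- the letters, erased at fat vertices -/
def vfat (fat : Finset ι → (ι → χ) → Prop) (v : Finset ι → CS α χ ι → ℕ) (I : Finset ι) (q : CS α χ ι) : ℕ :=
  if fat I q.2 then 0 else v I q

theorem nA_const (D : SD ι α χ) {κ : Type*} (c : κ) : nA D (fun _ => c) ≤ 1 := by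
  classical
  unfold nA
  refine (Finset.card_le_card (t := {c}) (fun x hx => ?_)).trans (by rw [Finset.card_singleton])
  obtain ⟨_, -, rfl⟩ := Finset.mem_image.1 hx
  exact Finset.mem_singleton_self _

/-- the values at given vertices -/
theorem hp_le_nA (D : SD ι α χ) {W : Type} [Fintype W] [DecidableEq W] (ty : W → ι) {κ κ' : Type*}
    (X : CS α χ W → κ) (Z : CS α χ W → κ') {a : ℝ} {w : CS α χ W} (hw : (CP D ty).p w ≠ 0)
    (h : (nA D (fun b => X (b, w.2)) : ℝ) ≤ Real.exp a) : GMC.hp (CP D ty) X Z Vt w ≤ a := by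
  rw [GMC.hp_eq_cond _ X Z Vt hw]
  refine (FP.Hc_le_H _ X Z).trans ((H_cond_le_nv (CP D ty) X Vt hw).trans ?_)
  have h1 : (0 : ℝ) < (nv (CP D ty) X Vt w : ℝ) := by exact_mod_cast nv_pos hw
  rw [Real.log_le_iff_le_exp h1]
  exact (by exact_mod_cast nv_le_nA D ty X w : (nv (CP D ty) X Vt w : ℝ) ≤ (nA D (fun b => X (b, w.2)) : ℝ)).trans h

/-- ERASING THE FAT LETTERS -/
theorem ph1_fat {fat : Finset ι → (ι → χ) → Prop} (hdep : ∀ I u u', (∀ i ∈ I, u i = u' i) → (fat I u ↔ fat I u'))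
    {s : ℕ} {A ζ aS φ : ℝ} (hsat : Sat0Bd D fat s A ζ) {G : Finset ι} (hG : G.card = s) (hJG : D.J ⊂ G) (haS : 0 ≤ aS)
    (hLG : ∀ u : ι → χ, (nA D (fun a => LC D id G (a, u)) : ℝ) ≤ Real.exp aS)
    (hφ : (CP D id).Pr (fun q => ∃ I, D.J ⊆ I ∧ I ⊂ G ∧ fat I q.2) ≤ φ) {v : Finset ι → CS α χ ι → ℕ}
    (hv : Let1 D A (fun I => D.J ⊆ I ∧ I ⊂ D.J ∪ G) v) : ph1 D v G ≤ ζ + aS * φ := by
  classical
  have hun : D.J ∪ G = G := Finset.union_eq_right.2 hJG.1
  rw [hun] at hv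
  -- the erased letters
  have hv' : Let1 D A (fun I => D.J ⊆ I ∧ I ⊂ G) (vfat fat v) := by
    constructor
    · intro I hI q q' h1 h2
      have h3 := hdep I q.2 q'.2 h2
      unfold vfat
      rw [hv.dep I hI q q' h1 h2]
      exact if_congr h3 rfl rfl
    · intro I hI u
      by_cases hf : fat I u
      · have e : (fun a : α => vfat fat v I (a, u)) = fun _ => 0 := by
          funext a
          unfold vfat
          rw [if_pos hf]
        rw [e]
        have h1 : (1 : ℝ) ≤ (nA D (fun a => v I (a, u)) : ℝ) := by exact_mod_cast nA_pos D (fun a => v I (a, u))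
        have h2 : (nA D (fun _ : α => (0 : ℕ)) : ℝ) ≤ 1 := by exact_mod_cast nA_const D (0 : ℕ)
        exact h2.trans (h1.trans (hv.card I hI u))
      · have e : (fun a : α => vfat fat v I (a, u)) = fun a => v I (a, u) := by
          funext a
          unfold vfat
          rw [if_neg hf]
        rw [e]
        exact hv.card I hI u
  have h0 := hsat G hG hJG (vfat fat v) hv' (fun I _ _ u hf a b => by
    unfold vfat
    rw [if_pos hf, if_pos hf])
  -- `ph1` without the labels below, which are known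
  have hfil : (univ.filter fun H : Finset ι => H ⊆ D.J ∪ G ∧ H.card ≤ G.card ∧ H ≠ G) = G.ssubsets := by
    ext H
    rw [Finset.mem_filter, Finset.mem_ssubsets, hun]
    constructor
    · rintro ⟨-, h1, -, h3⟩
      exact Finset.ssubset_iff_subset_ne.2 ⟨h1, h3⟩
    · intro h
      exact ⟨mem_univ _, h.1, Finset.card_le_card h.1, h.ne⟩
  have h1 : ph1 D v G = (CP D id).E (GMC.ip (CP D id) (LC D id G) (sel (fun I => D.J ⊆ I ∧ I ⊂ G) v)
      (Lf (LC D id) G.ssubsets) Vt) := by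
    unfold ph1
    rw [hfil, hun]
    refine FP.E_congr _ (fun w _ => ?_)
    exact GMC.ip_congr _ (Fac.fst _ _) ((Fac.fst _ _).trans (Fac.fst _ _)) (Fac.fst _ _) (Fac.refl _)
      (Fac.fst _ _) ((Fac.fst _ _).prod ((Fac.snd _ _).trans (Fac.fst _ _))) (Fac.fst _ _) (Fac.refl _) w
  rw [h1]
  -- pointwise
  have h2 : (CP D id).E (GMC.ip (CP D id) (LC D id G) (sel (fun I => D.J ⊆ I ∧ I ⊂ G) v)
      (Lf (LC D id) G.ssubsets) Vt) ≤ (CP D id).E (fun w => GMC.ip (CP D id) (LC D id G)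
        (sel (fun I => D.J ⊆ I ∧ I ⊂ G) (vfat fat v)) (Lf (LC D id) G.ssubsets) Vt w +
        aS * ind (∃ I, D.J ⊆ I ∧ I ⊂ G ∧ fat I w.2)) := by
    refine FP.E_mono _ (fun w hw => ?_)
    by_cases hf : ∃ I, D.J ⊆ I ∧ I ⊂ G ∧ fat I w.2
    · rw [ind_of hf, mul_one]
      have h3 := GMC.ip_nonneg (CP D id) (LC D id G) (sel (fun I => D.J ⊆ I ∧ I ⊂ G) (vfat fat v))
        (Lf (LC D id) G.ssubsets) Vt hw
      have h4 := GMC.ip_le_hp (CP D id) (LC D id G) (sel (fun I => D.J ⊆ I ∧ I ⊂ G) v)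
        (Lf (LC D id) G.ssubsets) Vt hw
      have h5 := hp_le_nA D id (LC D id G) (Lf (LC D id) G.ssubsets) hw (hLG w.2)
      linarith
    · rw [ind_not hf, mul_zero, add_zero]
      refine le_of_eq (ip_congr_cls (fun _ _ => rfl) (fun u hu => ?_) (fun _ _ => rfl))
      have hu2 : u.2 = w.2 := hu
      funext I
      unfold sel
      by_cases hI : D.J ⊆ I ∧ I ⊂ G
      · rw [if_pos hI, if_pos hI]
        unfold vfat
        rw [if_neg (fun h => hf ⟨I, hI.1, hI.2, by rw [← hu2]; exact h⟩)]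
      · rw [if_neg hI, if_neg hI]
  refine h2.trans ?_
  rw [FP.E_add, FP.E_smul]
  have h3 : (CP D id).E (fun w => ind (∃ I, D.J ⊆ I ∧ I ⊂ G ∧ fat I w.2)) ≤ φ := hφ
  have h4 := mul_le_mul_of_nonneg_left h3 haS
  linarith

/-- union bound for the fat sets -/
theorem Pr_fat_le {fat : Finset ι → (ι → χ) → Prop} {φ : ℝ} (hφ0 : 0 ≤ φ) {G : Finset ι}
    (hφ : ∀ I, D.J ⊆ I → I ⊂ G → (CP D id).Pr (fun q => fat I q.2) ≤ φ) :
    (CP D id).Pr (fun q => ∃ I, D.J ⊆ I ∧ I ⊂ G ∧ fat I q.2) ≤ 2 ^ Fintype.card ι * φ := by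
  classical
  have h1 : (CP D id).Pr (fun q => ∃ I, D.J ⊆ I ∧ I ⊂ G ∧ fat I q.2) ≤
      (CP D id).Pr (fun q => ∃ I ∈ univ.filter (fun I : Finset ι => D.J ⊆ I ∧ I ⊂ G), fat I q.2) := by
    refine FP.Pr_mono _ (fun q _ hq => ?_)
    obtain ⟨I, h1, h2, h3⟩ := hq
    exact ⟨I, Finset.mem_filter.2 ⟨mem_univ _, h1, h2⟩, h3⟩
  refine h1.trans ((FP.Pr_ex_le _ _ (fun (I : Finset ι) (q : CS α χ ι) => fat I q.2)).trans ?_)
  refine (Finset.sum_le_card_nsmul _ _ φ (fun I hI => ?_)).trans ?_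
  · obtain ⟨-, h2, h3⟩ := Finset.mem_filter.1 hI
    exact hφ I h2 h3
  · rw [nsmul_eq_mul]
    refine mul_le_mul_of_nonneg_right ?_ hφ0
    have h4 : (univ.filter (fun I : Finset ι => D.J ⊆ I ∧ I ⊂ G)).card ≤ (univ : Finset (Finset ι)).card :=
      Finset.card_le_card (Finset.filter_subset _ _)
    rw [Finset.card_univ, Fintype.card_finset] at h4
    exact_mod_cast h4

/-- ONE HYPOTHESIS FOR THE STATIC STEP -/
theorem PhAll_of {fat : Finset ι → (ι → χ) → Prop} (hdep : ∀ I u u', (∀ i ∈ I, u i = u' i) → (fat I u ↔ fat I u'))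
    {s : ℕ} {A δ ζ aS φ : ℝ} (hphi : PhiBd D s A δ) (hsat : Sat0Bd D fat s A ζ) (haS : 0 ≤ aS)
    (hL : ∀ G : Finset ι, G.card = s → ∀ u : ι → χ, (nA D (fun a => LC D id G (a, u)) : ℝ) ≤ Real.exp aS)
    (hφ0 : 0 ≤ φ) (hφ : ∀ I, D.J ⊆ I → I.card < s → (CP D id).Pr (fun q => fat I q.2) ≤ φ) :
    PhAll D s A (max δ (ζ + aS * (2 ^ Fintype.card ι * φ))) := by
  intro G hG hGJ v hv
  by_cases hJ : D.J ⊆ G
  · have hJG : D.J ⊂ G := Finset.ssubset_iff_subset_ne.2 ⟨hJ, fun h => hGJ (by rw [h])⟩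
    refine le_trans ?_ (le_max_right _ _)
    refine ph1_fat hdep hsat hG hJG haS (hL G hG) (Pr_fat_le hφ0 (fun I h1 h2 => hφ I h1 ?_)) hv
    rw [← hG]
    exact Finset.card_lt_card h2
  · exact (hphi G hG hJ v hv).trans (le_max_left _ _)

/-- the same with the alphabets `AlBd` -/
theorem PhAll_of_AlBd {fat : Finset ι → (ι → χ) → Prop}
    (hdep : ∀ I u u', (∀ i ∈ I, u i = u' i) → (fat I u ↔ fat I u')) {k s : ℕ} (hs : s < k) {aa : ℕ → ℝ}
    (hA : AlBd D k aa) {A δ ζ φ : ℝ} (hphi : PhiBd D s A δ) (hsat : Sat0Bd D fat s A ζ) (haS : 0 ≤ aa s)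
    (hφ0 : 0 ≤ φ) (hφ : ∀ I, D.J ⊆ I → I.card < s → (CP D id).Pr (fun q => fat I q.2) ≤ φ) :
    PhAll D s A (max δ (ζ + aa s * (2 ^ Fintype.card ι * φ))) := by
  refine PhAll_of hdep hphi hsat haS (fun G hG u => ?_) hφ0 hφ
  have h := nA_LC D hA (ty := id) (G := G) (mem_LS.2 ⟨by rw [hG]; exact hs, Function.injective_id.injOn⟩) u
  rw [hG] at h
  exact h

theorem PhAll.phiAll {s : ℕ} {A δ : ℝ} (h : PhAll D s A δ) : PhiAll D s A δ := h

/-- the probability of an event of the vertices -/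
theorem Pr_vert (D : SD ι α χ) (f : (ι → χ) → Prop) :
    (CP D id).Pr (fun q => f q.2) = (piFP D.mu).Pr f := by
  unfold FP.Pr CP
  rw [FP.pr_E]
  exact FP.E_const D.PA ((piFP D.mu).E (fun y => ind (f y)))

/-- `PhiAll` from `PhiBd`, `Sat0Bd` and the probability of the fat vertices -/
theorem PhiAll_of_fat {fat : Finset ι → (ι → χ) → Prop}
    (hdep : ∀ I u u', (∀ i ∈ I, u i = u' i) → (fat I u ↔ fat I u')) {k s : ℕ} (hs : s < k) {aa : ℕ → ℝ}
    (hA : AlBd D k aa) {A δ ζ φ : ℝ} (hphi : PhiBd D s A δ) (hsat : Sat0Bd D fat s A ζ) (haS : 0 ≤ aa s)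
    (hφ : ∀ G : Finset ι, G.card = s → D.J ⊂ G →
      (piFP D.mu).Pr (fun y => ∃ I, D.J ⊆ I ∧ I ⊂ G ∧ fat I y) ≤ φ) :
    PhiAll D s A (max δ (ζ + aa s * φ)) := by
  intro G hG hGJ v hv
  by_cases hJ : D.J ⊆ G
  · have hJG : D.J ⊂ G := Finset.ssubset_iff_subset_ne.2 ⟨hJ, fun h => hGJ (by rw [h])⟩
    refine le_trans ?_ (le_max_right _ _)
    refine ph1_fat hdep hsat hG hJG haS (fun u => ?_) ?_ hv
    · have h := nA_LC D hA (ty := id) (G := G)
        (mem_LS.2 ⟨by rw [hG]; exact hs, Function.injective_id.injOn⟩) u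
      rw [hG] at h
      exact h
    · rw [Pr_vert D (fun y => ∃ I, D.J ⊆ I ∧ I ⊂ G ∧ fat I y)]
      exact hφ G hG hJG
  · exact (hphi G hG hJ v hv).trans (le_max_left _ _)

/-- `PhiAll` with any larger bound -/
theorem PhiAll_of_fat' {fat : Finset ι → (ι → χ) → Prop}
    (hdep : ∀ I u u', (∀ i ∈ I, u i = u' i) → (fat I u ↔ fat I u')) {k s : ℕ} (hs : s < k) {aa : ℕ → ℝ}
    (hA : AlBd D k aa) {A δ ζ φ d : ℝ} (hphi : PhiBd D s A δ) (hsat : Sat0Bd D fat s A ζ) (haS : 0 ≤ aa s)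
    (hφ : ∀ G : Finset ι, G.card = s → D.J ⊂ G →
      (piFP D.mu).Pr (fun y => ∃ I, D.J ⊆ I ∧ I ⊂ G ∧ fat I y) ≤ φ) (h1 : δ ≤ d) (h2 : ζ + aa s * φ ≤ d) :
    PhiAll D s A d := fun G hG hGJ v hv =>
  (PhiAll_of_fat hdep hs hA hphi hsat haS hφ G hG hGJ v hv).trans (max_le h1 h2)

theorem PhAll.mono {s : ℕ} {A δ δ' : ℝ} (h : PhAll D s A δ) (hδ : δ ≤ δ') : PhAll D s A δ' :=
  fun G hG hGJ v hv => (h G hG hGJ v hv).trans hδ

theorem Let1.mono {A A' : ℝ} {p : Finset ι → Prop} {v : Finset ι → CS α χ ι → ℕ} (h : Let1 D A p v) (hA : A ≤ A') :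
    Let1 D A' p v where
  dep := h.dep
  card I hI u := (h.card I hI u).trans (Real.exp_le_exp.2 hA)

theorem PhAll.anti {s : ℕ} {A A' δ : ℝ} (h : PhAll D s A' δ) (hA : A ≤ A') : PhAll D s A δ :=
  fun G hG hGJ v hv => h G hG hGJ v (hv.mono hA)

end

end Pool.Agent.GMM
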