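import Pool.Agent.GMN.Hub

/-!
# GMM/GridL (helper28): the GRID LEMMA (CS5b of note 4040, notes 3980 (C) stage 2)

Values `w j l`, `j ∈ J` (factors: the known face and the faces `u`), `l ∈ L` (entries of the list), `|w j l| ≤ Y`.
`lf c Z w = clip Z (∑ l, c l * ∏ j, w j l)`.  Grid with step `δ = gstep`: cells `gcell`, representatives `grep`,
patterns `α : J → L → Fin (gM + 1)`, coefficients `gcf α` (`|gcf α| ≤ Z`), indicators `gind α j = ∏ l, 1[cell = α j l]`.
* `grid_one` : for every point exactly one pattern is nonzero, and the sum over the patterns is its coefficient;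
* **`grid_close`** : `|lf - ∑ α, gcf α * ∏ j, gind α j| ≤ eps` if `∑ l, |c l| ≤ C`;
* **`grid_card`** : the number of patterns is at most (2 C |J| Y ^ |J| / eps + 1) ^ (|J| |L|), `grid_card_exp`.
-/

set_option autoImplicit false
set_option linter.unusedSectionVars false

namespace Pool.Agent.GMM.Lin

open Finset Pool.Agent.PWZ Pool.Agent.M3 Pool.Agent.GMN

noncomputable section

/-- number of cells minus one -/
def gM (Y δ : ℝ) : ℕ := ⌊2 * Y / δ⌋₊

/-- the cell of a value -/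
def gcell (Y δ x : ℝ) : Fin (gM Y δ + 1) :=
  ⟨min ⌊(x + Y) / δ⌋₊ (gM Y δ), Nat.lt_succ_of_le (min_le_right _ _)⟩

/-- the representative of a cell -/
def grep (Y δ : ℝ) (j : Fin (gM Y δ + 1)) : ℝ := -Y + δ * (j : ℕ)

variable {Y δ : ℝ}

theorem abs_grep (hY : 0 ≤ Y) (hδ : 0 < δ) (j : Fin (gM Y δ + 1)) : |grep Y δ j| ≤ Y := by
  unfold grep
  have h1 : ((j : ℕ) : ℝ) ≤ gM Y δ := by exact_mod_cast Nat.lt_succ_iff.1 j.2
  have h2 : ((gM Y δ : ℕ) : ℝ) ≤ 2 * Y / δ := Nat.floor_le (by positivity)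
  have h3 : δ * ((j : ℕ) : ℝ) ≤ 2 * Y := by
    calc δ * ((j : ℕ) : ℝ) ≤ δ * (2 * Y / δ) := mul_le_mul_of_nonneg_left (h1.trans h2) hδ.le
      _ = 2 * Y := by field_simp
  have h4 : 0 ≤ δ * ((j : ℕ) : ℝ) := by positivity
  rw [abs_le]
  constructor <;> linarith

theorem abs_sub_grep (hδ : 0 < δ) {x : ℝ} (hx : |x| ≤ Y) : |x - grep Y δ (gcell Y δ x)| ≤ δ := by
  obtain ⟨h1, h2⟩ := abs_le.1 hx
  have hle : ⌊(x + Y) / δ⌋₊ ≤ gM Y δ := by
    unfold gM
    refine Nat.floor_mono (div_le_div_of_nonneg_right ?_ hδ.le)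
    linarith
  have e1 : ((gcell Y δ x : Fin (gM Y δ + 1)) : ℕ) = ⌊(x + Y) / δ⌋₊ := min_eq_left hle
  unfold grep
  rw [e1]
  have h3 : 0 ≤ (x + Y) / δ := div_nonneg (by linarith) hδ.le
  have h4 := Nat.floor_le h3
  have h5 := Nat.lt_floor_add_one ((x + Y) / δ)
  rw [le_div_iff₀ hδ] at h4
  rw [div_lt_iff₀ hδ] at h5
  rw [abs_le]
  constructor
  · nlinarith
  · nlinarith

/-- difference of two products -/
theorem prod_diff {J : Type*} (hY : 0 ≤ Y) (hδ : 0 ≤ δ) {a b : J → ℝ} (ha : ∀ j, |a j| ≤ Y) (hb : ∀ j, |b j| ≤ Y)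
    (hab : ∀ j, |a j - b j| ≤ δ) (s : Finset J) :
    Y * |∏ j ∈ s, a j - ∏ j ∈ s, b j| ≤ s.card * Y ^ s.card * δ := by
  classical
  induction s using Finset.induction_on with
  | empty => simp
  | insert i s hi ih =>
    rw [Finset.prod_insert hi, Finset.prod_insert hi, Finset.card_insert_of_notMem hi]
    have h1 : a i * ∏ j ∈ s, a j - b i * ∏ j ∈ s, b j =
        (a i - b i) * ∏ j ∈ s, a j + b i * (∏ j ∈ s, a j - ∏ j ∈ s, b j) := by ring
    have h2 : |∏ j ∈ s, a j| ≤ Y ^ s.card := by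
      rw [Finset.abs_prod, ← Finset.prod_const]
      exact Finset.prod_le_prod (fun _ _ => abs_nonneg _) fun j _ => ha j
    have h3 : |a i * ∏ j ∈ s, a j - b i * ∏ j ∈ s, b j| ≤
        δ * Y ^ s.card + Y * |∏ j ∈ s, a j - ∏ j ∈ s, b j| := by
      rw [h1]
      refine (abs_add_le _ _).trans (add_le_add ?_ ?_)
      · rw [abs_mul]
        exact mul_le_mul (hab i) h2 (abs_nonneg _) hδ
      · rw [abs_mul]
        exact mul_le_mul_of_nonneg_right (hb i) (abs_nonneg _)
    have h4 := mul_le_mul_of_nonneg_left h3 hY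
    have h5 := mul_le_mul_of_nonneg_left ih hY
    push_cast
    rw [pow_succ]
    nlinarith

/-! ### the lemma -/

variable {J L : Type*} [Fintype J] [Fintype L]

/-- the clipped linear form of the values -/
def lf (c : L → ℝ) (Z : ℝ) (w : J → L → ℝ) : ℝ := clip Z (∑ l, c l * ∏ j, w j l)

/-- patterns -/
abbrev GPat (J L : Type*) (Y δ : ℝ) : Type _ := J → L → Fin (gM Y δ + 1)

/-- the coefficient of a pattern -/
def gcf (c : L → ℝ) (Z Y δ : ℝ) (α : GPat J L Y δ) : ℝ := lf c Z (fun j l => grep Y δ (α j l))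

/-- the pattern of the values -/
def gpat (Y δ : ℝ) (w : J → L → ℝ) : GPat J L Y δ := fun j l => gcell Y δ (w j l)

/-- the indicator of the factor `j` : `v` = the values of the entries of the factor -/
def gind (Y δ : ℝ) (a : L → Fin (gM Y δ + 1)) (v : L → ℝ) : ℝ := ∏ l, ind (gcell Y δ (v l) = a l)

theorem gind_eq (Y δ : ℝ) (a : L → Fin (gM Y δ + 1)) (v : L → ℝ) :
    gind Y δ a v = ind ((fun l => gcell Y δ (v l)) = a) := by
  classical
  unfold gind
  by_cases h : (fun l => gcell Y δ (v l)) = a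
  · rw [ind_of h]
    exact Finset.prod_eq_one fun l _ => ind_of (congrFun h l)
  · rw [ind_not h]
    have h1 : ∃ l, gcell Y δ (v l) ≠ a l := by
      by_contra hcon
      push Not at hcon
      exact h (funext hcon)
    obtain ⟨l, hl⟩ := h1
    exact Finset.prod_eq_zero (Finset.mem_univ l) (ind_not hl)

theorem gind_or (Y δ : ℝ) (a : L → Fin (gM Y δ + 1)) (v : L → ℝ) : gind Y δ a v = 0 ∨ gind Y δ a v = 1 := by
  rw [gind_eq]
  by_cases h : (fun l => gcell Y δ (v l)) = a
  · right; exact ind_of h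
  · left; exact ind_not h

theorem gind_nonneg (Y δ : ℝ) (a : L → Fin (gM Y δ + 1)) (v : L → ℝ) : 0 ≤ gind Y δ a v := by
  rcases gind_or Y δ a v with h | h <;> rw [h] <;> norm_num

theorem gind_le_one (Y δ : ℝ) (a : L → Fin (gM Y δ + 1)) (v : L → ℝ) : gind Y δ a v ≤ 1 := by
  rcases gind_or Y δ a v with h | h <;> rw [h] <;> norm_num

theorem abs_gind (Y δ : ℝ) (a : L → Fin (gM Y δ + 1)) (v : L → ℝ) : |gind Y δ a v| ≤ 1 := by
  rw [abs_of_nonneg (gind_nonneg Y δ a v)]
  exact gind_le_one Y δ a v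

/-- the product over the factors is the indicator of the pattern -/
theorem prod_gind (w : J → L → ℝ) (α : GPat J L Y δ) : ∏ j, gind Y δ (α j) (w j) = ind (gpat Y δ w = α) := by
  classical
  by_cases h : gpat Y δ w = α
  · rw [ind_of h]
    refine Finset.prod_eq_one fun j _ => ?_
    rw [gind_eq]
    exact ind_of (congrFun h j)
  · rw [ind_not h]
    have h1 : ∃ j, (fun l => gcell Y δ (w j l)) ≠ α j := by
      by_contra hcon
      push Not at hcon
      exact h (funext hcon)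
    obtain ⟨j, hj⟩ := h1
    refine Finset.prod_eq_zero (Finset.mem_univ j) ?_
    rw [gind_eq]
    exact ind_not hj

/-- **for every point exactly one pattern is nonzero** -/
theorem grid_one [DecidableEq J] [DecidableEq L] (g : GPat J L Y δ → ℝ) (w : J → L → ℝ) :
    ∑ α : GPat J L Y δ, g α * ∏ j, gind Y δ (α j) (w j) = g (gpat Y δ w) := by
  rw [Finset.sum_eq_single (gpat Y δ w)]
  · rw [prod_gind, ind_of rfl, mul_one]
  · intro α _ hα
    rw [prod_gind, ind_not (fun h => hα h.symm), mul_zero]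
  · exact fun h => absurd (Finset.mem_univ _) h

theorem abs_gcf {c : L → ℝ} {Z : ℝ} (hZ : 0 ≤ Z) (α : GPat J L Y δ) : |gcf c Z Y δ α| ≤ Z := abs_clip_le hZ _

/-- the linear form is Lipschitz -/
theorem lf_diff {c : L → ℝ} {Z C : ℝ} (hY : 0 < Y) (hδ : 0 ≤ δ) (hc : ∑ l, |c l| ≤ C) {w w' : J → L → ℝ}
    (hw : ∀ j l, |w j l| ≤ Y) (hw' : ∀ j l, |w' j l| ≤ Y) (h : ∀ j l, |w j l - w' j l| ≤ δ) :
    Y * |lf c Z w - lf c Z w'| ≤ C * (Fintype.card J * Y ^ Fintype.card J * δ) := by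
  unfold lf
  have h1 : |clip Z (∑ l, c l * ∏ j, w j l) - clip Z (∑ l, c l * ∏ j, w' j l)| ≤
      ∑ l, |c l| * |∏ j, w j l - ∏ j, w' j l| := by
    refine (abs_clip_sub _ _).trans ?_
    rw [← Finset.sum_sub_distrib]
    refine (Finset.abs_sum_le_sum_abs _ _).trans (le_of_eq (Finset.sum_congr rfl fun l _ => ?_))
    rw [← mul_sub, abs_mul]
  have h2 : ∀ l, Y * |∏ j, w j l - ∏ j, w' j l| ≤ Fintype.card J * Y ^ Fintype.card J * δ := fun l =>
    prod_diff hY.le hδ (fun j => hw j l) (fun j => hw' j l) (fun j => h j l) Finset.univ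
  calc Y * |clip Z (∑ l, c l * ∏ j, w j l) - clip Z (∑ l, c l * ∏ j, w' j l)|
      ≤ Y * ∑ l, |c l| * |∏ j, w j l - ∏ j, w' j l| := mul_le_mul_of_nonneg_left h1 hY.le
    _ = ∑ l, |c l| * (Y * |∏ j, w j l - ∏ j, w' j l|) := by
        rw [Finset.mul_sum]
        exact Finset.sum_congr rfl fun l _ => by ring
    _ ≤ ∑ l, |c l| * (Fintype.card J * Y ^ Fintype.card J * δ) :=
        Finset.sum_le_sum fun l _ => mul_le_mul_of_nonneg_left (h2 l) (abs_nonneg _)
    _ = (∑ l, |c l|) * (Fintype.card J * Y ^ Fintype.card J * δ) := by rw [Finset.sum_mul]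
    _ ≤ _ := mul_le_mul_of_nonneg_right hc (by positivity)

/-- the step of the grid -/
def gstep (J : Type*) [Fintype J] (Y C eps : ℝ) : ℝ := eps * Y / (C * (Fintype.card J * Y ^ Fintype.card J))

theorem gstep_pos [Nonempty J] {C eps : ℝ} (hY : 0 < Y) (hC : 0 < C) (he : 0 < eps) : 0 < gstep J Y C eps := by
  unfold gstep
  have : (0 : ℝ) < Fintype.card J := by exact_mod_cast Fintype.card_pos
  positivity

/-- **THE GRID LEMMA** -/
theorem grid_close [DecidableEq J] [DecidableEq L] [Nonempty J] {c : L → ℝ} {Z C eps : ℝ} (hY : 0 < Y) (hC : 0 < C)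
    (he : 0 < eps) (hc : ∑ l, |c l| ≤ C) {w : J → L → ℝ} (hw : ∀ j l, |w j l| ≤ Y) :
    |lf c Z w - ∑ α : GPat J L Y (gstep J Y C eps), gcf c Z Y (gstep J Y C eps) α *
      ∏ j, gind Y (gstep J Y C eps) (α j) (w j)| ≤ eps := by
  set δ := gstep J Y C eps with hδ
  have hδ0 : 0 < δ := gstep_pos hY hC he
  rw [grid_one]
  have h1 := lf_diff (Z := Z) (δ := δ) hY hδ0.le hc hw (w' := fun j l => grep Y δ (gcell Y δ (w j l)))
    (fun j l => abs_grep hY.le hδ0 _) (fun j l => abs_sub_grep hδ0 (hw j l))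
  have hJ : (0 : ℝ) < Fintype.card J := by exact_mod_cast Fintype.card_pos
  have h2 : C * (Fintype.card J * Y ^ Fintype.card J * δ) = Y * eps := by
    rw [hδ]
    unfold gstep
    field_simp
  rw [h2] at h1
  exact le_of_mul_le_mul_left h1 hY

/-- the sum over the patterns is bounded by `Z` -/
theorem grid_bd [DecidableEq J] [DecidableEq L] {c : L → ℝ} {Z : ℝ} (hZ : 0 ≤ Z) (w : J → L → ℝ) :
    |∑ α : GPat J L Y δ, gcf c Z Y δ α * ∏ j, gind Y δ (α j) (w j)| ≤ Z := by
  rw [grid_one]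
  exact abs_gcf hZ _

theorem gM_le (hY : 0 ≤ Y) (hδ : 0 < δ) : (gM Y δ : ℝ) ≤ 2 * Y / δ := Nat.floor_le (by positivity)

/-- **the number of patterns** -/
theorem grid_card [DecidableEq J] [DecidableEq L] [Nonempty J] {C eps : ℝ} (hY : 0 < Y) (hC : 0 < C) (he : 0 < eps) :
    (Fintype.card (GPat J L Y (gstep J Y C eps)) : ℝ) ≤
      (2 * C * Fintype.card J * Y ^ Fintype.card J / eps + 1) ^ (Fintype.card J * Fintype.card L) := by
  have hδ0 : 0 < gstep J Y C eps := gstep_pos hY hC he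
  have hJ : (0 : ℝ) < Fintype.card J := by exact_mod_cast Fintype.card_pos
  have h1 : Fintype.card (GPat J L Y (gstep J Y C eps)) =
      (gM Y (gstep J Y C eps) + 1) ^ (Fintype.card J * Fintype.card L) := by
    rw [Fintype.card_fun, Fintype.card_fun, Fintype.card_fin, ← pow_mul, mul_comm (Fintype.card L)]
  rw [h1]
  push_cast
  refine pow_le_pow_left₀ (by positivity) (add_le_add ?_ le_rfl) _
  refine (gM_le hY.le hδ0).trans (le_of_eq ?_)
  unfold gstep
  field_simp

/-- the number of patterns, exponential form -/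
theorem grid_card_exp [DecidableEq J] [DecidableEq L] [Nonempty J] {C eps : ℝ} (hY : 0 < Y) (hC : 0 < C)
    (he : 0 < eps) : (Fintype.card (GPat J L Y (gstep J Y C eps)) : ℝ) ≤
      Real.exp (Fintype.card J * Fintype.card L * (2 * C * Fintype.card J * Y ^ Fintype.card J / eps)) := by
  refine (grid_card (J := J) (L := L) hY hC he).trans ?_
  have hb : 0 ≤ 2 * C * Fintype.card J * Y ^ Fintype.card J / eps := by positivity
  calc (2 * C * Fintype.card J * Y ^ Fintype.card J / eps + 1) ^ (Fintype.card J * Fintype.card L)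
      ≤ Real.exp (2 * C * Fintype.card J * Y ^ Fintype.card J / eps) ^ (Fintype.card J * Fintype.card L) :=
        pow_le_pow_left₀ (by positivity) (Real.add_one_le_exp _) _
    _ = _ := by
        rw [← Real.exp_nat_mul]
        push_cast
        ring_nf

end

end Pool.Agent.GMM.Lin
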