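import Pool.Agent.GMM.Def

/-!
# GMM/KDef: the instance of the keys for one label set of a collection (row CM, CM.3 (1)-(3); helper46)

`B` = the free part of the label set `G` (a set of free vertices of different types).  Letters `Ltr B` = `Option B`, `none` =
the cluster `o` of all other free vertices; `ltr B y` = the letter of the vertex `y`.  Every letter stands for a whole tuple
`W → χ` of vertices (law `muL`), the letter of `y` is read at the coordinate `y` (`rd`).
* `isBad` : label sets of size `s` which contain `B` and meet `o`;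
* `Shp` : the shapes: good label sets of size `≤ s`, and the extras `P ⊂ B`; `shS` letters, `shT` kind, `shL` labels,
  `shb` shapes below, `shz` size;
* `KQ` = law of the key space; `rp` = the real collection, `MP_rp`;
* `SimOut` : the output of `key_sim` for this instance.
-/

set_option autoImplicit false
set_option linter.unusedSectionVars false

namespace Pool.Agent.GMM

open Finset Pool.Agent.PWZ Pool.Agent.M3 Pool.Agent.M3.FP Pool.Agent.GMC

noncomputable section

variable {ι α χ : Type} [Fintype ι] [DecidableEq ι] [Fintype α] [Fintype χ] [DecidableEq χ] (D : SD ι α χ)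
variable {W : Type} [Fintype W] [DecidableEq W] (ty : W → ι) (k s : ℕ) (B : Finset W)

/-- letters: the vertices of `B`, `none` = the cluster `o` -/
abbrev Ltr (B : Finset W) : Type := Option {y // y ∈ B}

/-- the letter of a vertex -/
def ltr (y : W) : Ltr B := if h : y ∈ B then some ⟨y, h⟩ else none

/-- bad label sets -/
def isBad (H : Finset W) : Prop := H.card = s ∧ B ⊆ H ∧ ∃ y ∈ H, y ∉ B ∧ ty y ∉ D.J

/-- shapes -/
def Shp : Type :=
  {H : Finset W // H ∈ LS ty k ∧ H.card ≤ s ∧ ¬ isBad D ty s B H} ⊕ {P : Finset W // P ⊂ B}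

instance : Fintype (Shp D ty k s B) := by
  classical
  unfold Shp
  infer_instance

instance : DecidableEq (Shp D ty k s B) := Classical.decEq _

/-- the letters of a shape -/
def shS : Shp D ty k s B → Finset (Ltr B)
  | Sum.inl H => (fre D ty H.1).image (ltr B)
  | Sum.inr P => insert none (P.1.image (ltr B))

/-- kind `T` -/
def shT : Shp D ty k s B → Prop
  | Sum.inl H => H.1.card = s
  | Sum.inr _ => True

/-- the vertices read from a table of tuples -/
def rd (ξ : Ltr B → (W → χ)) : W → χ := fun y => ξ (ltr B y) y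

/-- the labels -/
def shL (Ex : Finset W → CS α χ W → ℕ) : Shp D ty k s B → α → (Ltr B → (W → χ)) → ℕ
  | Sum.inl H => fun a ξ => LC D ty H.1 (a, rd B ξ)
  | Sum.inr P => fun a ξ => Ex P.1 (a, rd B ξ)

open Classical in
/-- the shapes below -/
def shb : Shp D ty k s B → Finset (Shp D ty k s B)
  | Sum.inl H => univ.filter fun e => ∃ H' : {H : Finset W // H ∈ LS ty k ∧ H.card ≤ s ∧ ¬ isBad D ty s B H},
      e = Sum.inl H' ∧ H'.1 ⊂ H.1
  | Sum.inr _ => ∅

/-- the size -/
def shz : Shp D ty k s B → ℕ
  | Sum.inl H => H.1.card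
  | Sum.inr _ => 0

/-- the law of the tuple of a letter -/
def muL : Ltr B → FP (W → χ) := fun _ => piFP (fun y => D.mu (ty y))

/-- the key space -/
abbrev KW (α χ : Type) {W : Type} (B : Finset W) (r M : ℕ) : Type := KSp (Ltr B) α (W → χ) r M

variable {r M : ℕ}

/-- the law of the key space -/
def KQ (r M : ℕ) : FP (KW α χ B r M) := KP (r := r) (M := M) D.PA (muL D ty B)

/-- the real collection -/
def rp (w : KW α χ B r M) : CS α χ W := (w.1, fun y => w.2 (ltr B y, none) y)

theorem ltr_of {y : W} (h : y ∈ B) : ltr B y = some ⟨y, h⟩ := by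
  unfold ltr
  rw [dif_pos h]

theorem ltr_not {y : W} (h : y ∉ B) : ltr B y = none := by
  unfold ltr
  rw [dif_neg h]

theorem MP_rp : MP (KQ D ty B r M) (CP D ty) (rp (α := α) (χ := χ) B (r := r) (M := M)) := by
  intro f
  unfold KQ KP CP
  rw [FP.pr_E, FP.pr_E]
  refine D.PA.E_congr (fun a _ => ?_)
  have h1 := piFP_curry (α := Ltr B × Option (Key r M)) (α' := W) (fun _ y => D.mu (ty y))
    (fun ξ => f (a, fun y => ξ (ltr B y, none) y))
  have h2 := piFP_comp (α := W) (α' := (Ltr B × Option (Key r M)) × W) (e := fun y => ((ltr B y, none), y))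
    (fun x y h => (Prod.mk.injEq _ _ _ _ ▸ h : _ ∧ _).2) (fun p => D.mu (ty p.2)) (fun u => f (a, u))
  rw [← h2]
  exact h1

/-- the output of `key_sim` for this instance: `n` = numbers, `Θ` = seed, `Ls` = simulated labels -/
structure SimOut (Ex : Finset W → CS α χ W → ℕ) (n : Ltr B × Fin r → ℕ) {Θ : Type} [Fintype Θ] (Q : FP Θ)
    (Ls : Shp D ty k s B × (Ltr B → Option (Key r M)) → KW α χ B r M × Θ → ℕ) (e : ℝ) : Prop where
  /-- the labels without `o` are the true ones -/
  real : ∀ i, none ∉ fresh (shS D ty k s B) i → ∀ w, Ls i w = LB (shL D ty k s B Ex) i w.1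
  /-- the values at given vertices are values of the true label at the same vertices -/
  val : ∀ i w, (FP.pr (KQ D ty B r M) Q).p w ≠ 0 → ∃ v, (KQ D ty B r M).p v ≠ 0 ∧
    Vw Kr Kk (fresh (shS D ty k s B) i) v = Vw Kr Kk (fresh (shS D ty k s B) i) w.1 ∧
      Ls i w = LB (shL D ty k s B Ex) i v
  kindC : ∀ i ∈ Co (shS D ty k s B) (shT D ty k s B) n none,
    Fac (fun w => (w.2, Vw Kr Kk (fresh (shS D ty k s B) i) w.1, Fam Ls (low (shS D ty k s B) (shb D ty k s B) i) w)) (Ls i)
  kindT : ∀ U : Finset (Ltr B), none ∈ U → U ≠ univ → ∀ i ∈ TT (shS D ty k s B) (shT D ty k s B) n U,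
    Fac (fun w => (w.2, Vw Kr Kk U w.1, Fam Ls (WW (shS D ty k s B) (shT D ty k s B) n U ∅) w)) (Ls i)
  acm : Acm (KQ D ty B r M) (FP.pr (KQ D ty B r M) Q)
    (fun w => (VV Kr Kk w, Fam (LB (shL D ty k s B Ex)) (All (shS D ty k s B) (shT D ty k s B) n) w))
    (fun w => (VV Kr Kk w.1, Fam Ls (All (shS D ty k s B) (shT D ty k s B) n) w))
  kl : klm (KQ D ty B r M) (FP.pr (KQ D ty B r M) Q)
    (fun w => (VV Kr Kk w, Fam (LB (shL D ty k s B Ex)) (All (shS D ty k s B) (shT D ty k s B) n) w))
    (fun w => (VV Kr Kk w.1, Fam Ls (All (shS D ty k s B) (shT D ty k s B) n) w)) ≤ e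

end

end Pool.Agent.GMM
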