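import Pool.Agent.GMM.Sim

/-!
# GMM/Keys: exchangeable keys (row CM, CM.3 (1), (2); helper58)

Letters `Λ` (the vertices of `B` and the cluster `o`), shapes `E` (label sets of one copy of everything): `Sh e` = the
letters of the shape, `T e` = it is of kind `T` (size `s` or an extra), otherwise of kind `C` (size `< s`).  A label is
`(e, σ)`, `σ y` = `none` (the real vertex) or `some (level, number)` (a key) for the letters `y ∈ Sh e`.
`hF s` = conditional entropy of the labels in `s` given all vertices.  Only used: swapping the real vertex `y` and one of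
its keys does not change `hF` (`hsw`).
* `WW n U Y` = all labels of kind `C`, and of kind `T` with fresh part of size at most `|U|`, not `U`, with fresh part
  inside `U ∪ Y`; `TT n U` = the labels of kind `T` with fresh part `U` (keys of levels `> |U|` only);
* `step` : `H(T_U | W(Y)) - H(T_U | W(Y + y)) ≤ H(T_U | W(Y)) - H(T_U | W'(Y))`, `W'` = one more key of `y` of level `|U|`;
* `avg_le` : the mean over the numbers of `H(T_U | W(∅)) - H(T_U | W(all))` is at most `|Λ - U| H / N_|U|`;
* `exists_n` : one choice of the numbers is good for all `U ≠ Λ`.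
-/

set_option autoImplicit false
set_option linter.unusedSectionVars false

namespace Pool.Agent.GMM

open Finset Pool.Agent.PWZ Pool.Agent.M3

noncomputable section

/-! ## entropies of families given `V` -/

section hF

variable {Om : Type*} [Fintype Om] (P : FP Om) {ι γ 𝒱 : Type*} (Lab : ι → Om → γ) (V : Om → 𝒱)

/-- entropy of the members with index in `s` given `V` -/
def hF (s : Set ι) : ℝ := P.Hc (Fam Lab s) V

theorem hF_diff {s t : Set ι} (h : s ⊆ t) :
    hF P Lab V t - hF P Lab V s = P.Hc (Fam Lab t) (fun w => (Fam Lab s w, V w)) := by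
  unfold hF FP.Hc
  have h1 : P.H (fun w => (Fam Lab t w, (Fam Lab s w, V w))) = P.H (fun w => (Fam Lab t w, V w)) := by
    refine P.H_congr (fun v w hvw => ?_) (fun v w hvw => ?_)
    · simp only [Prod.mk.injEq] at hvw ⊢
      exact ⟨hvw.1, hvw.2.2⟩
    · simp only [Prod.mk.injEq] at hvw ⊢
      exact ⟨hvw.1, Fam_fac h v w hvw.1, hvw.2⟩
  rw [h1]
  ring

theorem hF_mono {s t : Set ι} (h : s ⊆ t) : hF P Lab V s ≤ hF P Lab V t := by
  have h1 := hF_diff P Lab V h
  have h2 := P.Hc_nonneg (Fam Lab t) (fun w => (Fam Lab s w, V w))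
  linarith

theorem hF_nonneg (s : Set ι) : 0 ≤ hF P Lab V s := P.Hc_nonneg _ _

theorem hF_union (s u : Set ι) :
    hF P Lab V (s ∪ u) - hF P Lab V s = P.Hc (Fam Lab u) (fun w => (Fam Lab s w, V w)) := by
  rw [hF_diff P Lab V Set.subset_union_left]
  unfold FP.Hc
  congr 1
  refine P.H_congr (fun v w hvw => ?_) (fun v w hvw => ?_)
  · simp only [Prod.mk.injEq] at hvw ⊢
    exact ⟨Fam_fac Set.subset_union_right v w hvw.1, hvw.2⟩
  · simp only [Prod.mk.injEq] at hvw ⊢
    refine ⟨Fam_eq_iff'.2 (fun i hi => ?_), hvw.2⟩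
    rcases hi with hi | hi
    · exact Fam_eq_iff'.1 hvw.2.1 i hi
    · exact Fam_eq_iff'.1 hvw.1 i hi

/-- SUBMODULARITY -/
theorem hF_sub {s t : Set ι} (u : Set ι) (h : s ⊆ t) :
    hF P Lab V (t ∪ u) - hF P Lab V t ≤ hF P Lab V (s ∪ u) - hF P Lab V s := by
  rw [hF_union, hF_union]
  refine P.Hc_anti _ (fun v w hvw => ?_)
  simp only [Prod.mk.injEq] at hvw ⊢
  exact ⟨Fam_fac h v w hvw.1, hvw.2⟩

/-- entropy of `u` given `s` and `V` -/
def cF (u s : Set ι) : ℝ := hF P Lab V (s ∪ u) - hF P Lab V s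

theorem cF_anti {s t : Set ι} (u : Set ι) (h : s ⊆ t) : cF P Lab V u t ≤ cF P Lab V u s := hF_sub P Lab V u h

theorem cF_nonneg (u s : Set ι) : 0 ≤ cF P Lab V u s := sub_nonneg.2 (hF_mono P Lab V Set.subset_union_left)

theorem cF_le (u s : Set ι) : cF P Lab V u s ≤ hF P Lab V u := by
  have h := hF_sub P Lab V (s := ∅) (t := s) u (Set.empty_subset s)
  rw [Set.empty_union] at h
  have := hF_nonneg P Lab V ∅
  unfold cF
  linarith

end hF

/-! ## averages over a box of numbers -/

section box

variable {I : Type*} [Fintype I] [DecidableEq I]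

/-- the box of the numbers -/
def Box (N : I → ℕ) : Finset (I → ℕ) := Fintype.piFinset (fun q => range (N q))

theorem mem_Box {N : I → ℕ} {n : I → ℕ} : n ∈ Box N ↔ ∀ q, n q < N q := by
  unfold Box
  rw [Fintype.mem_piFinset]
  simp only [Finset.mem_range]

theorem update_mem_Box {N : I → ℕ} {n : I → ℕ} (h : n ∈ Box N) {q : I} {j : ℕ} (hj : j < N q) :
    Function.update n q j ∈ Box N := by
  rw [mem_Box] at h ⊢
  intro q'
  by_cases hq : q' = q
  · subst hq; rw [Function.update_self]; exact hj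
  · rw [Function.update_of_ne hq]; exact h q'

theorem sum_Box (N : I → ℕ) (q : I) (f : (I → ℕ) → ℝ) :
    (N q : ℝ) * ∑ n ∈ Box N, f n = ∑ n ∈ Box N, ∑ j ∈ range (N q), f (Function.update n q j) := by
  have h1 : ∑ n ∈ Box N, ∑ j ∈ range (N q), f (Function.update n q j) =
      ∑ p ∈ Box N ×ˢ range (N q), f (Function.update p.1 q p.2) :=
    (Finset.sum_product (Box N) (range (N q)) (fun p => f (Function.update p.1 q p.2))).symm
  have h2 : (N q : ℝ) * ∑ n ∈ Box N, f n = ∑ p ∈ Box N ×ˢ range (N q), f p.1 := by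
    rw [Finset.sum_product, Finset.mul_sum]
    refine Finset.sum_congr rfl (fun n _ => ?_)
    show (N q : ℝ) * f n = ∑ _j ∈ range (N q), f n
    rw [Finset.sum_const, Finset.card_range, nsmul_eq_mul]
  rw [h1, h2]
  refine Finset.sum_nbij' (fun p => (Function.update p.1 q p.2, p.1 q)) (fun p => (Function.update p.1 q p.2, p.1 q))
    ?_ ?_ ?_ ?_ ?_
  · rintro ⟨n, j⟩ hp
    rw [Finset.mem_product] at hp ⊢
    exact ⟨update_mem_Box hp.1 (Finset.mem_range.1 hp.2), Finset.mem_range.2 (mem_Box.1 hp.1 q)⟩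
  · rintro ⟨n, j⟩ hp
    rw [Finset.mem_product] at hp ⊢
    exact ⟨update_mem_Box hp.1 (Finset.mem_range.1 hp.2), Finset.mem_range.2 (mem_Box.1 hp.1 q)⟩
  · rintro ⟨n, j⟩ _
    simp
  · rintro ⟨n, j⟩ _
    simp
  · rintro ⟨n, j⟩ _
    simp

end box

/-! ## labels with keys -/

section keys

variable {Λ E : Type*} [Fintype Λ] [DecidableEq Λ] {r M : ℕ}

/-- a key : level and number -/
abbrev Key (r M : ℕ) := Fin r × Fin M

variable (Sh : E → Finset Λ) (T : E → Prop)

/-- the fresh part of a label -/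
def fresh (i : E × (Λ → Option (Key r M))) : Finset Λ := (Sh i.1).filter (fun y => i.2 y = none)

/-- only keys with numbers smaller than `n` are used, `σ` is `none` outside the letters of the shape -/
def Adm (n : Λ × Fin r → ℕ) (i : E × (Λ → Option (Key r M))) : Prop :=
  (∀ y, y ∉ Sh i.1 → i.2 y = none) ∧ ∀ y ∈ Sh i.1, ∀ k, i.2 y = some k → (k.2 : ℕ) < n (y, k.1)

/-- levels bigger than `t` -/
def Lev (t : ℕ) (i : E × (Λ → Option (Key r M))) : Prop := ∀ y ∈ Sh i.1, ∀ k, i.2 y = some k → t < (k.1 : ℕ)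

/-- labels of kind `T` with fresh part `U` -/
def TT (n : Λ × Fin r → ℕ) (U : Finset Λ) : Set (E × (Λ → Option (Key r M))) :=
  {i | T i.1 ∧ Adm Sh n i ∧ fresh Sh i = U ∧ Lev Sh U.card i}

/-- labels of kind `C` with fresh part inside `U` -/
def CC (n : Λ × Fin r → ℕ) (U : Finset Λ) : Set (E × (Λ → Option (Key r M))) :=
  {i | ¬ T i.1 ∧ Adm Sh n i ∧ fresh Sh i ⊆ U}

/-- all labels of kind `C`, and of kind `T` with fresh part of size at most `|U|`, not `U`, inside `U ∪ Y` -/
def WW (n : Λ × Fin r → ℕ) (U Y : Finset Λ) : Set (E × (Λ → Option (Key r M))) :=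
  {i | Adm Sh n i ∧ fresh Sh i ⊆ U ∪ Y ∧
    (T i.1 → (fresh Sh i).card ≤ U.card ∧ fresh Sh i ≠ U ∧ Lev Sh (fresh Sh i).card i)}

/-- exchange the real vertex and the key `k` of the letter `y` -/
def sw (y : Λ) (k : Key r M) (i : E × (Λ → Option (Key r M))) : E × (Λ → Option (Key r M)) :=
  (i.1, if y ∈ Sh i.1 then Function.update i.2 y (Equiv.swap none (some k) (i.2 y)) else i.2)

variable {Sh T}

theorem sw_sw (y : Λ) (k : Key r M) (i : E × (Λ → Option (Key r M))) : sw Sh y k (sw Sh y k i) = i := by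
  unfold sw
  by_cases h : y ∈ Sh i.1
  · simp [h]
  · simp [h]

theorem sw_fix {y : Λ} {k : Key r M} {i : E × (Λ → Option (Key r M))} (h : y ∈ Sh i.1 → i.2 y ≠ none ∧ i.2 y ≠ some k) :
    sw Sh y k i = i := by
  unfold sw
  by_cases hy : y ∈ Sh i.1
  · obtain ⟨h1, h2⟩ := h hy
    simp only [if_pos hy]
    rw [Equiv.swap_apply_of_ne_of_ne h1 h2, Function.update_eq_self]
  · simp only [if_neg hy]

theorem mem_fresh {i : E × (Λ → Option (Key r M))} {y : Λ} : y ∈ fresh Sh i ↔ y ∈ Sh i.1 ∧ i.2 y = none := by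
  unfold fresh
  rw [Finset.mem_filter]

theorem image_sw_iff {y : Λ} {k : Key r M} {s : Set (E × (Λ → Option (Key r M)))} {i : E × (Λ → Option (Key r M))} :
    i ∈ sw Sh y k '' s ↔ sw Sh y k i ∈ s := by
  constructor
  · rintro ⟨j, hj, rfl⟩
    rw [sw_sw]; exact hj
  · intro h
    exact ⟨sw Sh y k i, h, sw_sw y k i⟩

variable {Om : Type*} [Fintype Om] (P : FP Om) {γ 𝒱 : Type*} (Lab : E × (Λ → Option (Key r M)) → Om → γ) (V : Om → 𝒱)

theorem TT_update {n : Λ × Fin r → ℕ} {U : Finset Λ} {y : Λ} {t : Fin r} (ht : (t : ℕ) = U.card) (j : ℕ) :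
    TT (M := M) Sh T (Function.update n (y, t) j) U = TT Sh T n U := by
  have key : ∀ (n n' : Λ × Fin r → ℕ), (∀ q : Λ × Fin r, q ≠ (y, t) → n q = n' q) →
      TT (M := M) Sh T n U ⊆ TT Sh T n' U := by
    rintro n n' hn i ⟨h1, ⟨h2, h3⟩, h4, h5⟩
    refine ⟨h1, ⟨h2, fun y' hy' k hk => ?_⟩, h4, h5⟩
    rw [← hn (y', k.1)]
    · exact h3 y' hy' k hk
    · intro he
      have h6 := h5 y' hy' k hk
      rw [Prod.mk.injEq] at he
      rw [he.2, ht] at h6
      exact lt_irrefl _ h6
  refine Set.Subset.antisymm (key _ _ (fun q hq => Function.update_of_ne hq _ _))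
    (key _ _ (fun q hq => (Function.update_of_ne hq _ _).symm))

/-- ONE STEP of (2) -/
theorem step (hsw : ∀ y k (s : Set (E × (Λ → Option (Key r M)))), hF P Lab V (sw Sh y k '' s) = hF P Lab V s)
    {n : Λ × Fin r → ℕ} {U Y : Finset Λ} {y : Λ} (hyU : y ∉ U) (hyY : y ∉ Y) {t : Fin r} (ht : (t : ℕ) = U.card)
    (hM : n (y, t) < M) :
    cF P Lab V (TT Sh T n U) (WW Sh T n U Y) - cF P Lab V (TT Sh T n U) (WW Sh T n U (insert y Y)) ≤
      cF P Lab V (TT Sh T n U) (WW Sh T n U Y) -
        cF P Lab V (TT Sh T n U) (WW Sh T (Function.update n (y, t) (n (y, t) + 1)) U Y) := by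
  classical
  set n' := Function.update n (y, t) (n (y, t) + 1) with hn'
  have hn1 : n' (y, t) = n (y, t) + 1 := by rw [hn', Function.update_self]
  have hn2 : ∀ q, q ≠ (y, t) → n' q = n q := fun q hq => by rw [hn', Function.update_of_ne hq]
  have hnle : ∀ q, n q ≤ n' q := fun q => by
    by_cases hq : q = (y, t)
    · rw [hq, hn1]; omega
    · rw [hn2 q hq]
  set k : Key r M := (t, ⟨n (y, t), hM⟩) with hk
  set G := sw Sh y k '' (WW Sh T n' U Y) with hG
  -- the old `W` is inside the new one and fixed by the exchange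
  have hW : WW (M := M) Sh T n U Y ⊆ WW Sh T n' U Y := by
    rintro i ⟨⟨h1, h2⟩, h3, h4⟩
    exact ⟨⟨h1, fun y' hy' k' hk' => lt_of_lt_of_le (h2 y' hy' k' hk') (hnle _)⟩, h3, h4⟩
  have hfix : ∀ i ∈ WW (M := M) Sh T n U Y, sw Sh y k i = i := by
    rintro i ⟨⟨h1, h2⟩, h3, h4⟩
    refine sw_fix (fun hy => ⟨fun h0 => ?_, fun h0 => ?_⟩)
    · have : y ∈ U ∪ Y := h3 (mem_fresh.2 ⟨hy, h0⟩)
      rcases Finset.mem_union.1 this with h | h
      · exact hyU h
      · exact hyY h
    · have := h2 y hy k h0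
      simp only [hk] at this
      exact lt_irrefl _ this
  have hWG : WW (M := M) Sh T n U Y ⊆ G := by
    intro i hi
    rw [hG, image_sw_iff, hfix i hi]
    exact hW hi
  have hTfix : ∀ i ∈ TT (M := M) Sh T n U, sw Sh y k i = i := by
    rintro i ⟨h1, ⟨h2, h3⟩, h4, h5⟩
    refine sw_fix (fun hy => ⟨fun h0 => ?_, fun h0 => ?_⟩)
    · exact hyU (by rw [← h4]; exact mem_fresh.2 ⟨hy, h0⟩)
    · have := h5 y hy k h0
      simp only [hk] at this
      rw [ht] at this
      exact lt_irrefl _ this
  have hWyG : WW (M := M) Sh T n U (insert y Y) ⊆ G := by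
    rintro i hi
    by_cases hy : y ∈ fresh Sh i
    · rw [hG, image_sw_iff]
      obtain ⟨⟨h1, h2⟩, h3, h4⟩ := hi
      obtain ⟨hyS, hy0⟩ := mem_fresh.1 hy
      have hsi : sw Sh y k i = (i.1, Function.update i.2 y (some k)) := by
        unfold sw
        rw [if_pos hyS, hy0, Equiv.swap_apply_left]
      have hfr : fresh Sh (sw Sh y k i) = (fresh Sh i).erase y := by
        ext y'
        rw [mem_fresh, Finset.mem_erase, mem_fresh, hsi]
        by_cases hyy : y' = y
        · subst hyy
          simp [Function.update_self]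
        · simp [hyy]
      have hcard : ((fresh Sh i).erase y).card + 1 = (fresh Sh i).card := Finset.card_erase_add_one hy
      refine ⟨⟨?_, ?_⟩, ?_, ?_⟩
      · intro y' hy'
        rw [hsi] at hy' ⊢
        have hne : y' ≠ y := fun h => hy' (by rw [h]; exact hyS)
        show Function.update i.2 y (some k) y' = none
        rw [Function.update_of_ne hne]
        exact h1 y' hy'
      · intro y' hy' k' hk'
        rw [hsi] at hy' hk'
        by_cases hyy : y' = y
        · subst hyy
          have hk'' : Function.update i.2 y' (some k) y' = some k' := hk'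
          rw [Function.update_self] at hk''
          rw [← Option.some.inj hk'']
          show (k.2 : ℕ) < n' (y', k.1)
          simp only [hk]
          rw [hn1]
          exact Nat.lt_succ_self _
        · have hk'' : Function.update i.2 y (some k) y' = some k' := hk'
          rw [Function.update_of_ne hyy] at hk''
          exact lt_of_lt_of_le (h2 y' hy' k' hk'') (hnle _)
      · rw [hfr]
        intro y' hy'
        rw [Finset.mem_erase] at hy'
        have := h3 hy'.2
        rw [Finset.mem_union, Finset.mem_insert] at this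
        rw [Finset.mem_union]
        rcases this with h | h | h
        · exact Or.inl h
        · exact absurd h hy'.1
        · exact Or.inr h
      · intro hT
        have hT' : T i.1 := by rw [hsi] at hT; exact hT
        obtain ⟨h5, h6, h7⟩ := h4 hT'
        rw [hfr]
        refine ⟨by omega, ?_, ?_⟩
        · intro he
          have : ((fresh Sh i).erase y).card = U.card := by rw [he]
          omega
        · intro y' hy' k' hk'
          rw [hsi] at hy' hk'
          by_cases hyy : y' = y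
          · subst hyy
            have hk'' : Function.update i.2 y' (some k) y' = some k' := hk'
            rw [Function.update_self] at hk''
            rw [← Option.some.inj hk'']
            show ((fresh Sh i).erase y').card < (k.1 : ℕ)
            simp only [hk]
            rw [ht]
            omega
          · have hk'' : Function.update i.2 y (some k) y' = some k' := hk'
            rw [Function.update_of_ne hyy] at hk''
            have := h7 y' hy' k' hk''
            omega
    · refine hWG ?_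
      obtain ⟨h1, h3, h4⟩ := hi
      refine ⟨h1, fun y' hy' => ?_, h4⟩
      have := h3 hy'
      rw [Finset.mem_union, Finset.mem_insert] at this
      rw [Finset.mem_union]
      rcases this with h | h | h
      · exact Or.inl h
      · exact absurd (h ▸ hy') hy
      · exact Or.inr h
  have hG1 : hF P Lab V G = hF P Lab V (WW Sh T n' U Y) := by rw [hG, hsw]
  have hG2 : hF P Lab V (G ∪ TT Sh T n U) = hF P Lab V (WW Sh T n' U Y ∪ TT Sh T n U) := by
    rw [← hsw y k (WW Sh T n' U Y ∪ TT Sh T n U)]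
    congr 1
    rw [Set.image_union, ← hG]
    congr 1
    ext i
    rw [image_sw_iff]
    constructor
    · intro hi; rw [hTfix i hi]; exact hi
    · intro hi
      have := hTfix _ hi
      rw [sw_sw] at this
      rw [this]; exact hi
  have h1 : cF P Lab V (TT Sh T n U) G = cF P Lab V (TT Sh T n U) (WW Sh T n' U Y) := by
    unfold cF
    rw [hG1, hG2]
  have h2 := cF_anti P Lab V (TT Sh T n U) hWyG
  rw [h1] at h2
  linarith

/-- the numbers are bounded -/
theorem sum_step (hsw : ∀ y k (s : Set (E × (Λ → Option (Key r M)))), hF P Lab V (sw Sh y k '' s) = hF P Lab V s)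
    (n : Λ × Fin r → ℕ) {U Y : Finset Λ} {y : Λ} (hyU : y ∉ U) (hyY : y ∉ Y) {t : Fin r} (ht : (t : ℕ) = U.card)
    (N : ℕ) (hM : N ≤ M) :
    ∑ j ∈ range N, (cF P Lab V (TT Sh T (Function.update n (y, t) j) U) (WW Sh T (Function.update n (y, t) j) U Y) -
      cF P Lab V (TT Sh T (Function.update n (y, t) j) U) (WW Sh T (Function.update n (y, t) j) U (insert y Y))) ≤
      hF P Lab V (TT Sh T n U) := by
  have h1 : ∀ j ∈ range N, (cF P Lab V (TT Sh T (Function.update n (y, t) j) U)
      (WW Sh T (Function.update n (y, t) j) U Y) - cF P Lab V (TT Sh T (Function.update n (y, t) j) U)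
        (WW Sh T (Function.update n (y, t) j) U (insert y Y))) ≤
      cF P Lab V (TT Sh T n U) (WW Sh T (Function.update n (y, t) j) U Y) -
        cF P Lab V (TT Sh T n U) (WW Sh T (Function.update n (y, t) (j + 1)) U Y) := by
    intro j hj
    have h2 := step (T := T) P Lab V hsw (n := Function.update n (y, t) j) hyU hyY ht (by
      rw [Function.update_self]; exact lt_of_lt_of_le (Finset.mem_range.1 hj) hM)
    rw [Function.update_self, Function.update_idem, TT_update ht] at h2
    rw [TT_update ht]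
    exact h2
  refine (Finset.sum_le_sum h1).trans ?_
  rw [Finset.sum_range_sub' (fun j => cF P Lab V (TT Sh T n U) (WW Sh T (Function.update n (y, t) j) U Y))]
  have h3 := cF_le P Lab V (TT Sh T n U) (WW Sh T (Function.update n (y, t) 0) U Y)
  have h4 := cF_nonneg P Lab V (TT Sh T n U) (WW Sh T (Function.update n (y, t) N) U Y)
  linarith

/-- MEAN OVER THE NUMBERS -/
theorem avg_le (hsw : ∀ y k (s : Set (E × (Λ → Option (Key r M)))), hF P Lab V (sw Sh y k '' s) = hF P Lab V s)
    (N : Fin r → ℕ) (hN : ∀ l, 0 < N l) (hM : ∀ l, N l ≤ M) {U : Finset Λ} {t : Fin r} (ht : (t : ℕ) = U.card) {H : ℝ}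
    (hH : ∀ n ∈ Box (fun q : Λ × Fin r => N q.2), hF P Lab V (TT Sh T n U) ≤ H) (Y : Finset Λ) (hY : Disjoint U Y) :
    ∑ n ∈ Box (fun q : Λ × Fin r => N q.2), (cF P Lab V (TT Sh T n U) (WW Sh T n U ∅) -
      cF P Lab V (TT Sh T n U) (WW Sh T n U Y)) ≤
      (Box (fun q : Λ × Fin r => N q.2)).card * (Y.card * H / N t) := by
  classical
  induction Y using Finset.induction_on with
  | empty => simp
  | insert y Y hyY ih =>
    have hyU : y ∉ U := fun h => (Finset.disjoint_left.1 hY h) (Finset.mem_insert_self y Y)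
    have hY' : Disjoint U Y := hY.mono_right (Finset.subset_insert y Y)
    have h1 := ih hY'
    have h2 := sum_Box (fun q : Λ × Fin r => N q.2) (y, t) (fun n => cF P Lab V (TT Sh T n U) (WW Sh T n U Y) -
      cF P Lab V (TT Sh T n U) (WW Sh T n U (insert y Y)))
    have h3 : ∑ n ∈ Box (fun q : Λ × Fin r => N q.2), ∑ j ∈ range (N t),
        (cF P Lab V (TT Sh T (Function.update n (y, t) j) U) (WW Sh T (Function.update n (y, t) j) U Y) -
          cF P Lab V (TT Sh T (Function.update n (y, t) j) U)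
            (WW Sh T (Function.update n (y, t) j) U (insert y Y))) ≤
        (Box (fun q : Λ × Fin r => N q.2)).card * H := by
      rw [← nsmul_eq_mul, ← Finset.sum_const]
      refine Finset.sum_le_sum (fun n hn => ?_)
      exact (sum_step P Lab V hsw n hyU hyY ht (N t) (hM t)).trans (hH n hn)
    have hNt : (0 : ℝ) < N t := by exact_mod_cast hN t
    have h4 : ∑ n ∈ Box (fun q : Λ × Fin r => N q.2), (cF P Lab V (TT Sh T n U) (WW Sh T n U Y) -
        cF P Lab V (TT Sh T n U) (WW Sh T n U (insert y Y))) ≤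
        (Box (fun q : Λ × Fin r => N q.2)).card * (H / N t) := by
      rw [mul_div_assoc', le_div_iff₀ hNt, mul_comm]
      exact h2.le.trans h3
    have h5 : ∑ n ∈ Box (fun q : Λ × Fin r => N q.2), (cF P Lab V (TT Sh T n U) (WW Sh T n U ∅) -
        cF P Lab V (TT Sh T n U) (WW Sh T n U (insert y Y))) =
        ∑ n ∈ Box (fun q : Λ × Fin r => N q.2), (cF P Lab V (TT Sh T n U) (WW Sh T n U ∅) -
          cF P Lab V (TT Sh T n U) (WW Sh T n U Y)) +
        ∑ n ∈ Box (fun q : Λ × Fin r => N q.2), (cF P Lab V (TT Sh T n U) (WW Sh T n U Y) -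
          cF P Lab V (TT Sh T n U) (WW Sh T n U (insert y Y))) := by
      rw [← Finset.sum_add_distrib]
      refine Finset.sum_congr rfl (fun n _ => by ring)
    rw [h5, Finset.card_insert_of_notMem hyY]
    push_cast
    have h6 : ((Box (fun q : Λ × Fin r => N q.2)).card : ℝ) * (((Y.card : ℝ) + 1) * H / N t) =
        (Box (fun q : Λ × Fin r => N q.2)).card * (Y.card * H / N t) +
        (Box (fun q : Λ × Fin r => N q.2)).card * (H / N t) := by ring
    rw [h6]
    exact add_le_add h1 h4

/-- the loss of the set `U` -/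
def loss (n : Λ × Fin r → ℕ) (U : Finset Λ) : ℝ :=
  cF P Lab V (TT Sh T n U) (WW Sh T n U ∅) - cF P Lab V (TT Sh T n U) (WW Sh T n U (univ \ U))

/-- (2) : ONE CHOICE OF THE NUMBERS IS GOOD FOR ALL `U ≠ Λ` -/
theorem exists_n (hsw : ∀ y k (s : Set (E × (Λ → Option (Key r M)))), hF P Lab V (sw Sh y k '' s) = hF P Lab V s)
    (hr : Fintype.card Λ ≤ r) (N : ℕ → ℕ) (hN : ∀ l, 0 < N l) (hM : ∀ l < r, N l ≤ M) (H : ℕ → ℝ)
    (hH : ∀ U : Finset Λ, U ≠ univ → ∀ n ∈ Box (fun q : Λ × Fin r => N q.2), hF P Lab V (TT Sh T n U) ≤ H U.card) :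
    ∃ n ∈ Box (fun q : Λ × Fin r => N q.2),
      ∑ U ∈ (univ : Finset (Finset Λ)).erase univ, loss (Sh := Sh) (T := T) P Lab V n U ≤
        ∑ U ∈ (univ : Finset (Finset Λ)).erase univ, ((Fintype.card Λ - U.card : ℕ) : ℝ) * H U.card / N U.card := by
  classical
  set Bx := Box (fun q : Λ × Fin r => N q.2) with hBx
  have hne : Bx.Nonempty := ⟨fun _ => 0, mem_Box.2 (fun q => hN _)⟩
  have h1 : ∀ U ∈ (univ : Finset (Finset Λ)).erase univ, ∑ n ∈ Bx, loss (Sh := Sh) (T := T) P Lab V n U ≤
      Bx.card * (((Fintype.card Λ - U.card : ℕ) : ℝ) * H U.card / N U.card) := by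
    intro U hU
    have hUne : U ≠ univ := (Finset.mem_erase.1 hU).1
    have hlt : U.card < Fintype.card Λ := by
      rw [← Finset.card_univ]
      exact Finset.card_lt_card (Finset.ssubset_univ_iff.2 hUne)
    have h2 := avg_le (T := T) P Lab V hsw (fun l : Fin r => N l) (fun l => hN l) (fun l => hM l l.2)
      (t := ⟨U.card, lt_of_lt_of_le hlt hr⟩) (U := U) rfl (H := H U.card) (hH U hUne) (univ \ U) Finset.disjoint_sdiff
    rw [Finset.card_sdiff_of_subset (Finset.subset_univ U), Finset.card_univ] at h2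
    exact h2
  have h3 : ∑ n ∈ Bx, ∑ U ∈ (univ : Finset (Finset Λ)).erase univ, loss (Sh := Sh) (T := T) P Lab V n U ≤
      ∑ _n ∈ Bx, ∑ U ∈ (univ : Finset (Finset Λ)).erase univ,
        ((Fintype.card Λ - U.card : ℕ) : ℝ) * H U.card / N U.card := by
    rw [Finset.sum_comm, Finset.sum_const, nsmul_eq_mul, Finset.mul_sum]
    exact Finset.sum_le_sum h1
  obtain ⟨n, hn, hle⟩ := Finset.exists_le_of_sum_le hne h3
  exact ⟨n, hn, hle⟩

end keys

end

end Pool.Agent.GMM
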