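import Pool.Agent.GMM.LinSys
import Pool.Agent.GM.MovLay

/-!
# GMM/LinLay (helper28): the LINEAR LAYERS of the faces off a set `E` of free faces (CS5a, note 3991 (2))

`S n` = geometries on one sample space, `A n : FineS (S n) (S (n + 1))`.  `rl n i` = the function of the face `i` after `n`
layers (`rl 0 = F`, `rl (n + 1) i = hRes` of the lift, clipped at `Yl (n + 1) i`; the faces of `E` are kept),
`sl n q` = the linear structured function of the layer, `pcl n q` = faces of the piece `q ∉ E` of the layer `n`, divided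
by their bounds `lb n q i`.
* `FacesE` : the faces with a set `E` of free faces; `LinF` : a linear structured face with an `L1` error;
* `facesE_pcl`, `linF_pcl`; `identL` : the exact identity on the path;
* `lev` : the choice of the levels (`lev_ok` : all naming errors are at most `4 s / C`).
-/

set_option autoImplicit false
set_option linter.unusedSectionVars false

namespace Pool.Agent.GMM.Lin

open Finset Pool.Agent.PWZ Pool.Agent.M3 Pool.Agent.M3.TS Pool.Agent.GMN Pool.Agent.GM Pool.Agent.GM.Mv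
  Pool.Agent.GM.GS Pool.Agent.GM.KVer

noncomputable section

variable {ι Om Ξ Pt V Γ κ : Type} [Fintype ι] [DecidableEq ι] [Fintype Om] [Fintype Ξ] [Fintype Pt]
  [Fintype V]

section defs

variable (S : Sys ι Om Ξ Pt V Γ κ)

/-- **the faces of the view of `E`**, coin free: the faces of `E` are free (known), the others are tested -/
structure FacesE (E : Finset ι) (F : ι → Mov Ξ ι Pt Γ (V → ℝ)) (m M θ acc : ℝ) : Prop where
  dep : ∀ i, ∀ t g ξ, Dep (univ.erase i) (F i t g ξ)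
  coin : ∀ i, ∀ t g ξ ξ', F i t g ξ = F i t g ξ'
  bd : ∀ i, ∀ t g ξ x d, |F i t g ξ x d| ≤ 1
  zero : ∀ i, ∀ g ξ x, F i 0 g ξ x = 0
  /-- the free faces are static after their introduction -/
  once : ∀ i ∈ E, ∀ t ω, S.at' (F i) (t + 1) ω = S.at' (F i) t ω ∨ S.at' (F i) t ω = 0
  fut : ∀ i, i ∉ E → S.Future (univ.erase i) (F i) M
  tail : ∀ i, i ∉ E → S.MvTail (F i) m
  mean : ∀ i, i ∉ E → S.P.E (S.nmv (F i) S.n) ≤ m
  rare : ∀ i, i ∉ E → S.Rare univ i (F i) θ acc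

/-- **a linear structured face**: `F = c * (sum of the tests of the current births) + error`, the error is small in `L1`
at every point and node; `b` = the cumulative list of births, `s` = the current births -/
structure LinF (q : ι) (F : Mov Ξ ι Pt Γ (V → ℝ)) (m M T p am η : ℝ) where
  b : BL S univ q m T
  s : Mov Ξ ι Pt Γ (List (Birth (TJs Pt V (univ : Finset ι) q → Bool)))
  pre : ∀ t g ξ x, s t g ξ x <+: b.L t g ξ x
  sdep : ∀ t g ξ, Dep (univ.erase q) (s t g ξ)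
  scoin : ∀ t g ξ ξ', s t g ξ = s t g ξ'
  bcoin : ∀ t g ξ ξ', b.L t g ξ = b.L t g ξ'
  szero : ∀ g ξ x, s 0 g ξ x = []
  sfut : S.Future (univ.erase q) s M
  len : ∀ t g ξ x, ((s t g ξ x).length : ℝ) ≤ p
  c : ℝ
  c0 : 0 ≤ c
  cam : c * p ≤ am
  err : ∀ t ω ξ x, ∑ d, S.ρ t (S.gm t ω) d * |F t (S.gm t ω) ξ x d -
    c * ((s t (S.gm t ω) ξ x).map fun u => ∏ i ∈ univ.erase q, msgn univ q i u x d).sum| ≤ η

end defs

variable {S : ℕ → Sys ι Om Ξ Pt V Γ κ} (A : ∀ n, FineS (S n) (S (n + 1))) (E : Finset ι)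
  [∀ i : ι, Nonempty (TK (univ : Finset ι) i)] (ep th : ℕ → ℝ) (Yl : ℕ → ι → ℝ) (F : ι → Mov Ξ ι Pt Γ (V → ℝ))

/-- the functions of the layers -/
def rl : ℕ → ι → Mov Ξ ι Pt Γ (V → ℝ)
  | 0 => F
  | n + 1 => fun i => if i ∈ E then (A n).lift (rl n i) else
      hRes (S (n + 1)) univ i (ep (n + 1)) (Yl (n + 1) i) (Yl n i) (th (n + 1)) ((A n).lift (rl n i))

/-- the linear structured function of the layer `n` (in `S (n + 1)`) -/
def sl (n : ℕ) (i : ι) : Mov Ξ ι Pt Γ (V → ℝ) :=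
  hStr (S (n + 1)) univ i (ep (n + 1)) (Yl (n + 1) i) (Yl n i) (th (n + 1)) ((A n).lift (rl A E ep th Yl F n i))

/-- the bounds of the faces of the piece `q` of the layer `n` -/
def lb (E : Finset ι) (Yl : ℕ → ι → ℝ) (rk : ι → ℕ) (n : ℕ) (q i : ι) : ℝ :=
  if i ∈ E then 1 else if rk i < rk q then Yl (n + 1) i else if i = q then Yl n i + Yl (n + 1) i else Yl n i

/-- the faces of the piece `q` of the layer `n` -/
def pcl (rk : ι → ℕ) (n : ℕ) (q i : ι) : Mov Ξ ι Pt Γ (V → ℝ) := fun t g ξ x d =>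
  pcf rk (fun i => (A n).lift (rl A E ep th Yl F n i) t g ξ x d)
    (fun i => rl A E ep th Yl F (n + 1) i t g ξ x d) q i / lb E Yl rk n q i

variable {A E ep th Yl F}

theorem rl_E {i : ι} (hi : i ∈ E) (n : ℕ) : rl A E ep th Yl F (n + 1) i = (A n).lift (rl A E ep th Yl F n i) := by
  show (if i ∈ E then _ else _) = _
  rw [if_pos hi]

theorem rl_not {i : ι} (hi : i ∉ E) (n : ℕ) : rl A E ep th Yl F (n + 1) i =
    hRes (S (n + 1)) univ i (ep (n + 1)) (Yl (n + 1) i) (Yl n i) (th (n + 1)) ((A n).lift (rl A E ep th Yl F n i)) := by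
  show (if i ∈ E then _ else _) = _
  rw [if_neg hi]

theorem rl_dep (hd : ∀ i, ∀ t g ξ, Dep (univ.erase i) (F i t g ξ)) (n : ℕ) (i : ι) :
    ∀ t g ξ, Dep (univ.erase i) (rl A E ep th Yl F n i t g ξ) := by
  induction n with
  | zero => exact hd i
  | succ n ih =>
    by_cases hi : i ∈ E
    · rw [rl_E hi]
      exact fun t g ξ => ih t _ ξ
    · rw [rl_not hi]
      exact hRes_dep (S (n + 1)) univ fun t g ξ => ih t _ ξ

theorem rl_coin (hc : ∀ i, ∀ t g ξ ξ', F i t g ξ = F i t g ξ') (n : ℕ) (i : ι) :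
    ∀ t g ξ ξ', rl A E ep th Yl F n i t g ξ = rl A E ep th Yl F n i t g ξ' := by
  induction n with
  | zero => exact hc i
  | succ n ih =>
    by_cases hi : i ∈ E
    · rw [rl_E hi]
      exact fun t g ξ ξ' => ih t _ ξ ξ'
    · rw [rl_not hi]
      exact hRes_coin (S (n + 1)) univ fun t g ξ ξ' => ih t _ ξ ξ'

/-- bounds of the functions of the layers; `Yl 0 = 1` is used -/
theorem rl_bd (hb : ∀ i, ∀ t g ξ x d, |F i t g ξ x d| ≤ 1) (hY0 : ∀ i, Yl 0 i = 1) (hY : ∀ n i, 0 < Yl n i) (n : ℕ) {i : ι}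
    (hi : i ∉ E) : ∀ t g ξ x d, |rl A E ep th Yl F n i t g ξ x d| ≤ Yl n i := by
  cases n with
  | zero =>
    intro t g ξ x d
    rw [hY0]
    exact hb i t g ξ x d
  | succ n =>
    rw [rl_not hi]
    exact abs_hRes (S (n + 1)) univ i (hY (n + 1) i).le

theorem rl_bdE (hb : ∀ i, ∀ t g ξ x d, |F i t g ξ x d| ≤ 1) (n : ℕ) {i : ι} (hi : i ∈ E) :
    ∀ t g ξ x d, |rl A E ep th Yl F n i t g ξ x d| ≤ 1 := by
  induction n with
  | zero => exact hb i
  | succ n ih =>
    rw [rl_E hi]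
    exact fun t g ξ x d => ih t _ ξ x d

theorem rl_zero (hep : ∀ n, 0 < ep n) (hth : ∀ n, 0 < th n) (hY : ∀ n i, 0 < Yl n i) (h0 : ∀ i, ∀ g ξ x, F i 0 g ξ x = 0)
    (n : ℕ) (i : ι) : ∀ g ξ x, rl A E ep th Yl F n i 0 g ξ x = 0 := by
  induction n with
  | zero => exact h0 i
  | succ n ih =>
    by_cases hi : i ∈ E
    · rw [rl_E hi]
      exact fun g ξ x => ih _ ξ x
    · rw [rl_not hi]
      exact hRes_zero (S (n + 1)) univ (hep _) (hY _ _) (hth _) fun g ξ x => ih _ ξ x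

theorem at_rl_E {i : ι} (hi : i ∈ E) (n t : ℕ) (ω : Om) :
    (S n).at' (rl A E ep th Yl F n i) t ω = (S 0).at' (F i) t ω := by
  induction n with
  | zero => rfl
  | succ n ih =>
    rw [rl_E hi, ← ih]
    exact (A n).at'_lift _ t ω

/-- the number of future moves of the functions of the layers -/
def mL (A : ∀ n, FineS (S n) (S (n + 1))) (ep : ℕ → ℝ) (Yl : ℕ → ι → ℝ) (M0 : ℝ) (i : ι) : ℕ → ℝ
  | 0 => M0
  | n + 1 => (A n).Rt * mL A ep Yl M0 i n + mH (ep (n + 1)) (Yl n i) ((A n).Rt * mL A ep Yl M0 i n)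

theorem mL_nonneg {M0 : ℝ} (hM : 0 ≤ M0) (i : ι) (n : ℕ) : 0 ≤ mL A ep Yl M0 i n := by
  induction n with
  | zero => exact hM
  | succ n ih =>
    have h1 : 0 ≤ (A n).Rt * mL A ep Yl M0 i n := mul_nonneg (zero_le_one.trans (A n).Rt1) ih
    show 0 ≤ (A n).Rt * mL A ep Yl M0 i n + mH (ep (n + 1)) (Yl n i) ((A n).Rt * mL A ep Yl M0 i n)
    unfold mH
    positivity

theorem rl_future (hd : ∀ i, ∀ t g ξ, Dep (univ.erase i) (F i t g ξ)) (hb : ∀ i, ∀ t g ξ x d, |F i t g ξ x d| ≤ 1)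
    (hep : ∀ n, 0 < ep n) (hY0 : ∀ i, Yl 0 i = 1) (hY : ∀ n i, 0 < Yl n i) {M0 : ℝ} (hM : 0 ≤ M0)
    (hf : ∀ i, i ∉ E → (S 0).Future (univ.erase i) (F i) M0) (n : ℕ) {i : ι} (hi : i ∉ E) :
    (S n).Future (univ.erase i) (rl A E ep th Yl F n i) (mL A ep Yl M0 i n) := by
  induction n with
  | zero => exact hf i hi
  | succ n ih =>
    rw [rl_not hi]
    exact hRes_future (S (n + 1)) univ (hY _ _).le (hY _ _) (hep _) (fun t g ξ => rl_dep hd n i t _ ξ)
      (fun t g ξ x d => rl_bd hb hY0 hY n hi t _ ξ x d)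
      (mul_nonneg (zero_le_one.trans (A n).Rt1) (mL_nonneg hM i n)) ((A n).future_lift (erase_ne i) (mL_nonneg hM i n) ih)

/-- accuracy of the tests of the layers -/
def acl (ep : ℕ → ℝ) (acc0 : ℝ) (n : ℕ) : ℝ := if n = 0 then acc0 else 4 * ep n

theorem rl_rare (hd : ∀ i, ∀ t g ξ, Dep (univ.erase i) (F i t g ξ)) (hb : ∀ i, ∀ t g ξ x d, |F i t g ξ x d| ≤ 1)
    (hep : ∀ n, 0 < ep n) (hth : ∀ n, 0 < th n) (hY0 : ∀ i, Yl 0 i = 1) (hY : ∀ n i, 0 < Yl n i) {acc0 : ℝ}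
    (hr : ∀ i, i ∉ E → (S 0).Rare univ i (F i) (th 0) acc0) (n : ℕ) {i : ι} (hi : i ∉ E) :
    (S n).Rare univ i (rl A E ep th Yl F n i) (th n) (acl ep acc0 n) := by
  cases n with
  | zero => exact hr i hi
  | succ n =>
    rw [rl_not hi]
    exact hRes_rare (S (n + 1)) univ (mem_univ i) (hY _ _) (hep _) (hth _) (fun t g ξ => rl_dep hd n i t _ ξ)
      (fun t g ξ x d => rl_bd hb hY0 hY n hi t _ ξ x d)

/-! ### the pieces -/

variable (rk : ι → ℕ)

theorem lb_pos (hY : ∀ n i, 0 < Yl n i) (n : ℕ) (q i : ι) : 0 < lb E Yl rk n q i := by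
  unfold lb
  split_ifs
  · exact one_pos
  · exact hY _ _
  · exact add_pos (hY _ _) (hY _ _)
  · exact hY _ _

theorem pcl_dep (hd : ∀ i, ∀ t g ξ, Dep (univ.erase i) (F i t g ξ)) (n : ℕ) (q i : ι) :
    ∀ t g ξ, Dep (univ.erase i) (pcl A E ep th Yl F rk n q i t g ξ) := by
  intro t g ξ x y h
  funext d
  unfold pcl
  have h1 : (A n).lift (rl A E ep th Yl F n i) t g ξ x d = (A n).lift (rl A E ep th Yl F n i) t g ξ y d :=
    congrFun (rl_dep hd n i t ((A n).cg t g) ξ x y h) d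
  have h2 := congrFun (rl_dep (A := A) (E := E) (ep := ep) (th := th) (Yl := Yl) hd (n + 1) i t g ξ x y h) d
  rw [Lay.pcf_congr (a' := fun i => (A n).lift (rl A E ep th Yl F n i) t g ξ y d)
    (b' := fun i => rl A E ep th Yl F (n + 1) i t g ξ y d) h1 h2]

theorem pcl_coin (hc : ∀ i, ∀ t g ξ ξ', F i t g ξ = F i t g ξ') (n : ℕ) (q i : ι) :
    ∀ t g ξ ξ', pcl A E ep th Yl F rk n q i t g ξ = pcl A E ep th Yl F rk n q i t g ξ' := by
  intro t g ξ ξ'
  funext x d
  unfold pcl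
  have h1 := congrFun (congrFun (rl_coin (A := A) (E := E) (ep := ep) (th := th) (Yl := Yl) hc n i t
    ((A n).cg t g) ξ ξ') x) d
  have h2 := congrFun (congrFun (rl_coin (A := A) (E := E) (ep := ep) (th := th) (Yl := Yl) hc (n + 1) i t
    g ξ ξ') x) d
  rw [Lay.pcf_congr (a' := fun i => (A n).lift (rl A E ep th Yl F n i) t g ξ' x d)
    (b' := fun i => rl A E ep th Yl F (n + 1) i t g ξ' x d) h1 h2]

/-- the faces of the pieces before the division -/
theorem abs_pcfl (hb : ∀ i, ∀ t g ξ x d, |F i t g ξ x d| ≤ 1) (hY0 : ∀ i, Yl 0 i = 1) (hY : ∀ n i, 0 < Yl n i) (n : ℕ)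
    {q : ι} (hq : q ∉ E) (i : ι) (t : ℕ) (g : Γ) (ξ : Ξ) (x : ι → Pt) (d : V) :
    |pcf rk (fun i => (A n).lift (rl A E ep th Yl F n i) t g ξ x d)
      (fun i => rl A E ep th Yl F (n + 1) i t g ξ x d) q i| ≤ lb E Yl rk n q i := by
  unfold pcf lb
  by_cases hi : i ∈ E
  · have hiq : i ≠ q := fun h => hq (h ▸ hi)
    rw [if_pos hi]
    have h1 : |(A n).lift (rl A E ep th Yl F n i) t g ξ x d| ≤ 1 := rl_bdE hb n hi t _ ξ x d
    have h2 := rl_bdE (A := A) (ep := ep) (th := th) (Yl := Yl) hb (n + 1) hi t g ξ x d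
    split_ifs
    · exact h2
    · exact h1
  · rw [if_neg hi]
    have h1 : |(A n).lift (rl A E ep th Yl F n i) t g ξ x d| ≤ Yl n i := rl_bd hb hY0 hY n hi t _ ξ x d
    have h2 := rl_bd (A := A) (ep := ep) (th := th) (Yl := Yl) hb hY0 hY (n + 1) hi t g ξ x d
    split_ifs
    · exact h2
    · exact (abs_sub _ _).trans (add_le_add h1 h2)
    · exact h1

theorem pcl_bd (hb : ∀ i, ∀ t g ξ x d, |F i t g ξ x d| ≤ 1) (hY0 : ∀ i, Yl 0 i = 1) (hY : ∀ n i, 0 < Yl n i) (n : ℕ)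
    {q : ι} (hq : q ∉ E) (i : ι) : ∀ t g ξ x d, |pcl A E ep th Yl F rk n q i t g ξ x d| ≤ 1 := by
  intro t g ξ x d
  unfold pcl
  have h0 := lb_pos (E := E) rk hY n q i
  rw [abs_div, abs_of_pos h0, div_le_one h0]
  exact abs_pcfl rk hb hY0 hY n hq i t g ξ x d

theorem pcl_zero (hep : ∀ n, 0 < ep n) (hth : ∀ n, 0 < th n) (hY : ∀ n i, 0 < Yl n i) (h0 : ∀ i, ∀ g ξ x, F i 0 g ξ x = 0)
    (n : ℕ) (q i : ι) : ∀ g ξ x, pcl A E ep th Yl F rk n q i 0 g ξ x = 0 := by
  intro g ξ x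
  funext d
  unfold pcl
  have h1 : (A n).lift (rl A E ep th Yl F n i) 0 g ξ x d = 0 := congrFun (rl_zero hep hth hY h0 n i _ ξ x) d
  have h2 : rl A E ep th Yl F (n + 1) i 0 g ξ x d = 0 := congrFun (rl_zero hep hth hY h0 (n + 1) i g ξ x) d
  rw [Lay.pcf_congr (a := fun i => (A n).lift (rl A E ep th Yl F n i) 0 g ξ x d)
    (b := fun i => rl A E ep th Yl F (n + 1) i 0 g ξ x d)
    (a' := fun _ => (0 : ℝ)) (b' := fun _ => (0 : ℝ)) h1 h2]
  unfold pcf
  simp

/-- the values on the path -/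
theorem at_pcl (n : ℕ) (q i : ι) (t : ℕ) (ω : Om) (d : V) : (S (n + 1)).at' (pcl A E ep th Yl F rk n q i) t ω d =
    pcf rk (fun i => (S n).at' (rl A E ep th Yl F n i) t ω d)
      (fun i => (S (n + 1)).at' (rl A E ep th Yl F (n + 1) i) t ω d) q i / lb E Yl rk n q i := by
  have h1 := congrFun ((A n).at'_lift (rl A E ep th Yl F n i) t ω) d
  unfold Sys.at' at h1 ⊢
  unfold pcl
  rw [Lay.pcf_congr (a' := fun i => rl A E ep th Yl F n i t ((S n).gm t ω) ((S n).xi ω) ((S n).x ω) d)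
    (b' := fun i => rl A E ep th Yl F (n + 1) i t ((S (n + 1)).gm t ω) ((S (n + 1)).xi ω) ((S (n + 1)).x ω) d) h1 rfl]

theorem pcl_future {n : ℕ} {q i : ι} {m m' : ℝ}
    (h1 : (S (n + 1)).Future (univ.erase i) ((A n).lift (rl A E ep th Yl F n i)) m)
    (h2 : (S (n + 1)).Future (univ.erase i) (rl A E ep th Yl F (n + 1) i) m') :
    (S (n + 1)).Future (univ.erase i) (pcl A E ep th Yl F rk n q i) (m + m') := by
  refine Sys.Future.or h1 h2 fun t ω h3 h4 => ?_
  rw [(A n).at'_lift, (A n).at'_lift] at h3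
  funext d
  rw [at_pcl, at_pcl]
  rw [Lay.pcf_congr (a := fun i => (S n).at' (rl A E ep th Yl F n i) (t + 1) ω d)
    (b := fun i => (S (n + 1)).at' (rl A E ep th Yl F (n + 1) i) (t + 1) ω d)
    (a' := fun i => (S n).at' (rl A E ep th Yl F n i) t ω d)
    (b' := fun i => (S (n + 1)).at' (rl A E ep th Yl F (n + 1) i) t ω d) (congrFun h3 d) (congrFun h4 d)]

/-- rarity of the faces of the pieces -/
theorem pcl_rare {n : ℕ} {q i : ι} (hi : i ∉ E) (hb : ∀ i, ∀ t g ξ x d, |F i t g ξ x d| ≤ 1) (hY0 : ∀ i, Yl 0 i = 1)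
    (hY : ∀ n i, 0 < Yl n i) {θ θ' acc acc' : ℝ} (hθ : 0 ≤ θ)
    (h1 : (S n).Rare univ i (rl A E ep th Yl F n i) θ acc)
    (h2 : (S (n + 1)).Rare univ i (rl A E ep th Yl F (n + 1) i) θ' acc')
    (hθ' : 0 ≤ θ') (ha : 0 ≤ acc) (ha' : 0 ≤ acc') :
    (S (n + 1)).Rare univ i (pcl A E ep th Yl F rk n q i) ((A n).Rt ^ Fintype.card ι * θ + θ')
      ((acc + Yl n i * ((S n).near + (S (n + 1)).near) + acc') / lb E Yl rk n q i) := by
  have hn := (S n).near0
  have hn' := (S (n + 1)).near0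
  have hR : 0 ≤ (A n).Rt := zero_le_one.trans (A n).Rt1
  have hb0 := lb_pos (E := E) rk hY n q i
  set b := lb E Yl rk n q i with hbdef
  have hYn := (hY n i).le
  have h3 : (S (n + 1)).Rare univ i ((A n).lift (rl A E ep th Yl F n i)) ((A n).Rt ^ Fintype.card ι * θ)
      (acc + Yl n i * ((S n).near + (S (n + 1)).near)) :=
    (A n).rare_lift hθ hYn (rl_bd hb hY0 hY n hi) h1
  have e1 : ∀ c : ℝ, b⁻¹ * c = c / b := fun c => by rw [div_eq_inv_mul]
  have hbi : 0 < b⁻¹ := inv_pos.2 hb0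
  have hacc : 0 ≤ acc + Yl n i * ((S n).near + (S (n + 1)).near) := by positivity
  rcases lt_or_ge (rk i) (rk q) with h4 | h4
  · have h5 := h2.smul hbi
    have h6 : pcl A E ep th Yl F rk n q i = fun t g ξ x d => b⁻¹ * rl A E ep th Yl F (n + 1) i t g ξ x d := by
      funext t g ξ x d
      unfold pcl
      rw [pcf_lt rk h4, ← hbdef, e1]
    rw [h6]
    refine Sys.Rare.mono _ h5 ?_ ?_
    · have : 0 ≤ (A n).Rt ^ Fintype.card ι * θ := by positivity
      linarith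
    · rw [e1]
      exact div_le_div_of_nonneg_right (by linarith) hb0.le
  · by_cases h5 : i = q
    · subst h5
      have h6 := (h3.sub h2).smul hbi
      have h7 : pcl A E ep th Yl F rk n i i = fun t g ξ x d => b⁻¹ * ((A n).lift (rl A E ep th Yl F n i) t g ξ x d -
          rl A E ep th Yl F (n + 1) i t g ξ x d) := by
        funext t g ξ x d
        unfold pcl
        rw [pcf_self, ← hbdef, e1]
      rw [h7]
      refine Sys.Rare.mono _ h6 le_rfl (le_of_eq ?_)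
      rw [e1]
    · have h6 := h3.smul hbi
      have h7 : pcl A E ep th Yl F rk n q i = fun t g ξ x d => b⁻¹ * (A n).lift (rl A E ep th Yl F n i) t g ξ x d := by
        funext t g ξ x d
        unfold pcl
        rw [e1, ← hbdef]
        unfold pcf
        rw [if_neg h4.not_gt, if_neg h5]
      rw [h7]
      refine Sys.Rare.mono _ h6 ?_ ?_
      · linarith
      · rw [e1]
        exact div_le_div_of_nonneg_right (by linarith) hb0.le

/-- the free faces in the pieces -/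
theorem at_pcl_E {n : ℕ} {q i : ι} (hq : q ∉ E) (hi : i ∈ E) (t : ℕ) (ω : Om) :
    (S (n + 1)).at' (pcl A E ep th Yl F rk n q i) t ω = (S 0).at' (F i) t ω := by
  have hiq : i ≠ q := fun h => hq (h ▸ hi)
  funext d
  rw [at_pcl]
  unfold pcf lb
  rw [if_pos hi, div_one]
  by_cases h1 : rk i < rk q
  · rw [if_pos h1]
    beta_reduce
    rw [at_rl_E hi]
  · rw [if_neg h1, if_neg hiq]
    beta_reduce
    rw [at_rl_E hi]

/-- **the faces of the pieces** -/
theorem facesE_pcl {m0 M0 θ0 acc0 : ℝ} (hF : FacesE (S 0) E F m0 M0 θ0 acc0) (hep : ∀ n, 0 < ep n)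
    (hth : ∀ n, 0 < th n) (hY0 : ∀ i, Yl 0 i = 1) (hY : ∀ n i, 0 < Yl n i) (h0 : θ0 ≤ th 0) (ha0 : 0 ≤ acc0)
    (hM : 0 ≤ M0) {n : ℕ} {q : ι} (hq : q ∉ E) {m θ acc : ℝ} (hm : 0 < m)
    (h1 : ∀ i, i ∉ E → (A n).Rt * mL A ep Yl M0 i n + mL A ep Yl M0 i (n + 1) ≤ m)
    (h2 : (A n).Rt ^ Fintype.card ι * th n + th (n + 1) ≤ θ)
    (h3 : ∀ i, i ∉ E → (acl ep acc0 n + Yl n i * ((S n).near + (S (n + 1)).near) + acl ep acc0 (n + 1)) /
      lb E Yl rk n q i ≤ acc) :
    FacesE (S (n + 1)) E (pcl A E ep th Yl F rk n q) (1 + 2 * m) m θ acc := by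
  have hfut : ∀ i, i ∉ E → (S (n + 1)).Future (univ.erase i) (pcl A E ep th Yl F rk n q i) m := fun i hi =>
    Sys.Future.mono _ (pcl_future rk ((A n).future_lift (erase_ne i) (mL_nonneg hM i n)
      (rl_future hF.dep hF.bd hep hY0 hY hM hF.fut n hi)) (rl_future hF.dep hF.bd hep hY0 hY hM hF.fut (n + 1) hi))
      (h1 i hi)
  have hac : ∀ n, 0 ≤ acl ep acc0 n := fun n => by
    unfold acl
    split_ifs
    · exact ha0
    · have := hep n
      positivity
  exact {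
    dep := fun i => pcl_dep rk hF.dep n q i
    coin := fun i => pcl_coin rk hF.coin n q i
    bd := fun i => pcl_bd rk hF.bd hY0 hY n hq i
    zero := fun i => pcl_zero rk hep hth hY hF.zero n q i
    once := fun i hi t ω => by
      rw [at_pcl_E rk hq hi, at_pcl_E rk hq hi]
      exact hF.once i hi t ω
    fut := hfut
    tail := fun i hi => (hfut i hi).tail (pcl_dep rk hF.dep n q i) hm
    mean := fun i hi => (hfut i hi).mean.trans (by linarith)
    rare := fun i hi => by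
      have hr : ∀ i, i ∉ E → (S 0).Rare univ i (F i) (th 0) acc0 := fun i hi =>
        Sys.Rare.mono _ (hF.rare i hi) h0 le_rfl
      exact Sys.Rare.mono _ (pcl_rare rk hi hF.bd hY0 hY (hth n).le
        (rl_rare hF.dep hF.bd hep hth hY0 hY hr n hi)
        (rl_rare hF.dep hF.bd hep hth hY0 hY hr (n + 1) hi) (hth (n + 1)).le (hac n) (hac (n + 1))) h2 (h3 i hi) }

/-- **the linear structured face of a piece** -/
def linF_pcl {m0 M0 θ0 acc0 : ℝ} (hF : FacesE (S 0) E F m0 M0 θ0 acc0) (hep : ∀ n, 0 < ep n)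
    (hth : ∀ n, 0 < th n) (hY0 : ∀ i, Yl 0 i = 1) (hY : ∀ n i, 0 < Yl n i) (hM : 0 ≤ M0) {n : ℕ} {q : ι} (hq : q ∉ E)
    {m M T p am η : ℝ} (h1 : 44 * (1 + (A n).Rt * mL A ep Yl M0 q n) * Yl n q ^ 2 / ep (n + 1) ^ 2 ≤ m)
    (h2 : mH (ep (n + 1)) (Yl n q) ((A n).Rt * mL A ep Yl M0 q n) ≤ M)
    (h3 : 4 * (1 + (A n).Rt * mL A ep Yl M0 q n) * Yl n q ^ 2 * Yl (n + 1) q / (3 * ep (n + 1) ^ 3 * th (n + 1)) ≤ T)
    (h4 : 12 * Yl n q ^ 2 / ep (n + 1) ^ 2 + 2 ≤ p) (h5 : ep (n + 1) / (Yl n q + Yl (n + 1) q) * p ≤ am)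
    (h6 : 4 * Yl n q ^ 2 / Yl (n + 1) q / (Yl n q + Yl (n + 1) q) ≤ η) :
    LinF (S (n + 1)) q (pcl A E ep th Yl F rk n q q) m M T p am η := by
  have hdep : ∀ t g ξ, Dep (univ.erase q) ((A n).lift (rl A E ep th Yl F n q) t g ξ) := fun t g ξ =>
    rl_dep hF.dep n q t _ ξ
  have hbd : ∀ t g ξ x d, |(A n).lift (rl A E ep th Yl F n q) t g ξ x d| ≤ Yl n q := fun t g ξ x d =>
    rl_bd hF.bd hY0 hY n hq t _ ξ x d
  have hzero : ∀ g ξ x, (A n).lift (rl A E ep th Yl F n q) 0 g ξ x = 0 := fun g ξ x =>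
    rl_zero hep hth hY hF.zero n q _ ξ x
  have hM' : 0 ≤ (A n).Rt * mL A ep Yl M0 q n := mul_nonneg (zero_le_one.trans (A n).Rt1) (mL_nonneg hM q n)
  have hfut : (S (n + 1)).Future (univ.erase q) ((A n).lift (rl A E ep th Yl F n q)) ((A n).Rt * mL A ep Yl M0 q n) :=
    (A n).future_lift (erase_ne q) (mL_nonneg hM q n) (rl_future hF.dep hF.bd hep hY0 hY hM hF.fut n hq)
  have hcoin : ∀ t g ξ ξ', (A n).lift (rl A E ep th Yl F n q) t g ξ = (A n).lift (rl A E ep th Yl F n q) t g ξ' :=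
    fun t g ξ ξ' => rl_coin hF.coin n q t _ ξ ξ'
  have hlst := hLst_future (S (n + 1)) univ (Y := Yl (n + 1) q) (th := th (n + 1)) (hY _ _).le (hY n q) (hep (n + 1))
    hdep hbd hM' hfut
  exact {
    b := (hBL (S (n + 1)) univ (hY (n + 1) q) (hY n q) (hep (n + 1)) (hth (n + 1)) hdep hbd hzero hM' hfut).mono h1 h3
    s := hCur (S (n + 1)) univ q (ep (n + 1)) (Yl (n + 1) q) (Yl n q) (th (n + 1)) ((A n).lift (rl A E ep th Yl F n q))
    pre := fun t g ξ x => hCur_prefix (S (n + 1)) univ t g ξ x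
    sdep := hCur_dep (S (n + 1)) univ q
    scoin := hCur_coin (S (n + 1)) univ hcoin
    bcoin := hCum_coin (S (n + 1)) univ hcoin
    szero := fun g ξ x => by
      unfold hCur
      rw [hLst_zero (S (n + 1)) univ (hep _) (hY _ _) (hth _) hzero]
      rfl
    sfut := by
      refine Sys.Future.mono _ ?_ h2
      intro t φ hφ hφ0
      refine le_trans (Finset.sum_le_sum fun u _ => FP.E_mono _ fun ω _ => ?_) (hlst t φ hφ hφ0)
      refine mul_le_mul_of_nonneg_left (ind_mono fun h h' => h ?_) (hφ0 ω)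
      unfold Sys.at' at h' ⊢
      unfold hCur
      rw [h']
    len := fun t g ξ x => (hCur_length (S (n + 1)) univ (hY _ _).le (hep _) hbd t g ξ x).trans h4
    c := ep (n + 1) / (Yl n q + Yl (n + 1) q)
    c0 := div_nonneg (hep _).le (add_pos (hY _ _) (hY _ _)).le
    cam := h5
    err := fun t ω ξ x => by
      have hb0 : 0 < Yl n q + Yl (n + 1) q := add_pos (hY _ _) (hY _ _)
      have h7 := hRes_L1 (S (n + 1)) univ (w := q) (ep := ep (n + 1)) (th := th (n + 1)) (hY (n + 1) q) (hep _).le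
        hdep hbd t ω ξ x
      have e1 : ∀ d, pcl A E ep th Yl F rk n q q t ((S (n + 1)).gm t ω) ξ x d -
          ep (n + 1) / (Yl n q + Yl (n + 1) q) * ((hCur (S (n + 1)) univ q (ep (n + 1)) (Yl (n + 1) q) (Yl n q)
            (th (n + 1)) ((A n).lift (rl A E ep th Yl F n q)) t ((S (n + 1)).gm t ω) ξ x).map
            fun u => ∏ i ∈ univ.erase q, msgn univ q i u x d).sum =
          ((A n).lift (rl A E ep th Yl F n q) t ((S (n + 1)).gm t ω) ξ x d -
            hStr (S (n + 1)) univ q (ep (n + 1)) (Yl (n + 1) q) (Yl n q) (th (n + 1))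
              ((A n).lift (rl A E ep th Yl F n q)) t ((S (n + 1)).gm t ω) ξ x d -
            hRes (S (n + 1)) univ q (ep (n + 1)) (Yl (n + 1) q) (Yl n q) (th (n + 1))
              ((A n).lift (rl A E ep th Yl F n q)) t ((S (n + 1)).gm t ω) ξ x d) / (Yl n q + Yl (n + 1) q) := by
        intro d
        rw [hStr_lin]
        unfold pcl lb
        rw [pcf_self, if_neg hq, if_neg (lt_irrefl _), if_pos rfl, rl_not hq]
        ring
      have e2 : ∀ d, (S (n + 1)).ρ t ((S (n + 1)).gm t ω) d * |((A n).lift (rl A E ep th Yl F n q) t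
          ((S (n + 1)).gm t ω) ξ x d -
            hStr (S (n + 1)) univ q (ep (n + 1)) (Yl (n + 1) q) (Yl n q) (th (n + 1))
              ((A n).lift (rl A E ep th Yl F n q)) t ((S (n + 1)).gm t ω) ξ x d -
            hRes (S (n + 1)) univ q (ep (n + 1)) (Yl (n + 1) q) (Yl n q) (th (n + 1))
              ((A n).lift (rl A E ep th Yl F n q)) t ((S (n + 1)).gm t ω) ξ x d) / (Yl n q + Yl (n + 1) q)| =
          ((S (n + 1)).ρ t ((S (n + 1)).gm t ω) d * |(A n).lift (rl A E ep th Yl F n q) t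
          ((S (n + 1)).gm t ω) ξ x d -
            hStr (S (n + 1)) univ q (ep (n + 1)) (Yl (n + 1) q) (Yl n q) (th (n + 1))
              ((A n).lift (rl A E ep th Yl F n q)) t ((S (n + 1)).gm t ω) ξ x d -
            hRes (S (n + 1)) univ q (ep (n + 1)) (Yl (n + 1) q) (Yl n q) (th (n + 1))
              ((A n).lift (rl A E ep th Yl F n q)) t ((S (n + 1)).gm t ω) ξ x d|) / (Yl n q + Yl (n + 1) q) := by
        intro d
        rw [abs_div, abs_of_pos hb0]
        ring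
      simp only [e1, e2]
      rw [← Finset.sum_div]
      exact (div_le_div_of_nonneg_right h7 hb0.le).trans h6 }

/-! ### the identity of the telescoping -/

/-- **the identity of the telescoping** -/
theorem identL (hrk : Function.Injective rk) (hY : ∀ n i, 0 < Yl n i) (L t : ℕ) (ω : Om) : pT (S 0) univ F t ω =
    (∑ n ∈ range L, ∑ q ∈ univ \ E, (∏ i, lb E Yl rk n q i) * pT (S (n + 1)) univ (pcl A E ep th Yl F rk n q) t ω) +
      pT (S L) univ (rl A E ep th Yl F L) t ω := by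
  have h1 := tele hrk ((S 0).J t ω) univ (fun n i => (S n).at' (rl A E ep th Yl F n i) t ω) L
  have h0 : pT (S 0) univ F t ω =
      iw ((S 0).J t ω) (fun d => ∏ i, (S 0).at' (rl A E ep th Yl F 0 i) t ω d) (fun _ => 1) := rfl
  have hL : pT (S L) univ (rl A E ep th Yl F L) t ω =
      iw ((S 0).J t ω) (fun d => ∏ i, (S L).at' (rl A E ep th Yl F L i) t ω d) (fun _ => 1) := by
    unfold pT
    rw [Lay.J_all A L]
  rw [h0, hL, h1]
  congr 1
  refine Finset.sum_congr rfl fun n _ => ?_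
  rw [← Finset.sum_sdiff (Finset.subset_univ E)]
  have h2 : ∑ q ∈ E, iw ((S 0).J t ω) (fun d => ∏ i, pcf rk (fun i => (S n).at' (rl A E ep th Yl F n i) t ω d)
      (fun i => (S (n + 1)).at' (rl A E ep th Yl F (n + 1) i) t ω d) q i) (fun _ => 1) = 0 := by
    refine Finset.sum_eq_zero fun q hq => ?_
    unfold iw
    refine Finset.sum_eq_zero fun d _ => ?_
    have h3 : ∏ i, pcf rk (fun i => (S n).at' (rl A E ep th Yl F n i) t ω d)
      (fun i => (S (n + 1)).at' (rl A E ep th Yl F (n + 1) i) t ω d) q i = 0 := by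
      refine Finset.prod_eq_zero (mem_univ q) ?_
      rw [pcf_self, at_rl_E hq, at_rl_E hq, sub_self]
    beta_reduce
    rw [h3]
    ring
  rw [h2, add_zero]
  refine Finset.sum_congr rfl fun q _ => ?_
  unfold pT iw
  rw [Lay.J_all A (n + 1), Finset.mul_sum]
  refine Finset.sum_congr rfl fun d _ => ?_
  have hp : 0 < ∏ i, lb E Yl rk n q i := Finset.prod_pos fun i _ => lb_pos rk hY n q i
  have h3 : ∏ i, (S (n + 1)).at' (pcl A E ep th Yl F rk n q i) t ω d =
      (∏ i, pcf rk (fun i => (S n).at' (rl A E ep th Yl F n i) t ω d)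
        (fun i => (S (n + 1)).at' (rl A E ep th Yl F (n + 1) i) t ω d) q i) / ∏ i, lb E Yl rk n q i := by
    rw [Finset.prod_congr rfl fun i _ => at_pcl rk n q i t ω d, Finset.prod_div_distrib]
  beta_reduce
  rw [h3]
  field_simp

/-! ### the choice of the levels -/

omit [DecidableEq ι] in
/-- sums of powers of two over the smaller ranks -/
theorem sum_two_pow {rk : ι → ℕ} (hrk : Function.Injective rk) (s : Finset ι) (q : ℕ) (hs : ∀ i ∈ s, rk i < q) :
    ∑ i ∈ s, 2 ^ rk i ≤ 2 ^ q - 1 := by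
  classical
  have h1 : ∑ i ∈ s, 2 ^ rk i = ∑ j ∈ s.image rk, 2 ^ j := (Finset.sum_image fun _ _ _ _ h => hrk h).symm
  have h2 : s.image rk ⊆ range q := by
    intro j hj
    obtain ⟨i, hi, rfl⟩ := Finset.mem_image.1 hj
    exact Finset.mem_range.2 (hs i hi)
  rw [h1]
  refine (Finset.sum_le_sum_of_subset h2).trans (le_of_eq ?_)
  exact Nat.geomSum_eq (le_refl 2) q |>.trans (by simp)

/-- the bound of the levels of the layer `n` -/
def levZ (k : ℕ) (C : ℝ) (s : ℕ → ℝ) : ℕ → ℝ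
  | 0 => 1
  | n + 1 => (C / s n * levZ k C s n ^ (k + 1)) ^ 2 ^ k

/-- the levels; `k` = number of types -/
def lev (k : ℕ) (C : ℝ) (s : ℕ → ℝ) (rk : ι → ℕ) : ℕ → ι → ℝ
  | 0, _ => 1
  | n + 1, i => (C / s n * levZ k C s n ^ (k + 1)) ^ 2 ^ rk i

section levels

variable {k : ℕ} {C : ℝ} {s : ℕ → ℝ} {rk : ι → ℕ}

theorem levZ_one (hC : 1 ≤ C) (hs : ∀ n, 0 < s n) (hs1 : ∀ n, s n ≤ 1) (n : ℕ) : 1 ≤ levZ k C s n := by
  induction n with
  | zero => exact le_rfl
  | succ n ih =>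
    refine one_le_pow₀ ?_
    have h1 : 1 ≤ C / s n := by
      rw [one_le_div (hs n)]
      exact (hs1 n).trans hC
    exact one_le_mul_of_one_le_of_one_le h1 (one_le_pow₀ ih)

theorem levQ_one (hC : 1 ≤ C) (hs : ∀ n, 0 < s n) (hs1 : ∀ n, s n ≤ 1) (n : ℕ) :
    1 ≤ C / s n * levZ k C s n ^ (k + 1) := by
  have h1 : 1 ≤ C / s n := by
    rw [one_le_div (hs n)]
    exact (hs1 n).trans hC
  exact one_le_mul_of_one_le_of_one_le h1 (one_le_pow₀ (levZ_one hC hs hs1 n))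

omit [Fintype ι] [DecidableEq ι] in
theorem lev_one (hC : 1 ≤ C) (hs : ∀ n, 0 < s n) (hs1 : ∀ n, s n ≤ 1) (n : ℕ) (i : ι) : 1 ≤ lev k C s rk n i := by
  cases n with
  | zero => exact le_rfl
  | succ n => exact one_le_pow₀ (levQ_one hC hs hs1 n)

omit [Fintype ι] [DecidableEq ι] in
theorem lev_le (hC : 1 ≤ C) (hs : ∀ n, 0 < s n) (hs1 : ∀ n, s n ≤ 1) (hrk : ∀ i, rk i ≤ k) (n : ℕ) (i : ι) :
    lev k C s rk n i ≤ levZ k C s n := by
  cases n with
  | zero => exact le_rfl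
  | succ n => exact pow_le_pow_right₀ (levQ_one hC hs hs1 n) (Nat.pow_le_pow_right (by norm_num) (hrk i))

/-- growth of the levels -/
theorem levZ_growth (hC : 1 ≤ C) (hs : ∀ n, 0 < s n) (hs1 : ∀ n, s n ≤ 1) (n : ℕ) :
    levZ k C s (n + 1) ≤ (C * levZ k C s n / s n) ^ ((k + 1) * 2 ^ k) := by
  show (C / s n * levZ k C s n ^ (k + 1)) ^ 2 ^ k ≤ _
  rw [pow_mul]
  have h1 : 1 ≤ C / s n := by
    rw [one_le_div (hs n)]
    exact (hs1 n).trans hC
  have h2 := levZ_one (k := k) hC hs hs1 n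
  refine pow_le_pow_left₀ (by positivity) ?_ _
  calc C / s n * levZ k C s n ^ (k + 1) ≤ (C / s n) ^ (k + 1) * levZ k C s n ^ (k + 1) := by
        refine mul_le_mul_of_nonneg_right ?_ (by positivity)
        exact le_self_pow₀ h1 (Nat.succ_ne_zero k)
    _ = (C * levZ k C s n / s n) ^ (k + 1) := by
        rw [← mul_pow]
        congr 1
        ring

/-- **all naming errors are small**: the `L1` error of a piece times the product of the bounds -/
theorem lev_ok (hC : 1 ≤ C) (hs : ∀ n, 0 < s n) (hs1 : ∀ n, s n ≤ 1) (hinj : Function.Injective rk)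
    (hrk : ∀ i, rk i ≤ k) (hk : Fintype.card ι ≤ k) (n : ℕ) {q : ι} (hq : q ∉ E) :
    4 * lev k C s rk n q ^ 2 / lev k C s rk (n + 1) q / (lev k C s rk n q + lev k C s rk (n + 1) q) *
      ∏ i, lb E (lev k C s rk) rk n q i ≤ 4 * s n / C := by
  classical
  set Z := levZ k C s n with hZ
  set Q := C / s n * Z ^ (k + 1) with hQ
  have hZ1 : 1 ≤ Z := levZ_one hC hs hs1 n
  have hQ1 : 1 ≤ Q := levQ_one hC hs hs1 n
  have hQ0 : 0 < Q := zero_lt_one.trans_le hQ1
  have hZ0 : 0 < Z := zero_lt_one.trans_le hZ1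
  have hC0 : 0 < C := zero_lt_one.trans_le hC
  have hsn := hs n
  set a := lev k C s rk n q with ha
  set b := lev k C s rk (n + 1) q with hb
  have hb' : b = Q ^ 2 ^ rk q := rfl
  have ha1 : 1 ≤ a := lev_one hC hs hs1 n q
  have haZ : a ≤ Z := lev_le hC hs hs1 hrk n q
  have hb0 : 0 < b := by rw [hb']; positivity
  have hlb : lb E (lev k C s rk) rk n q q = a + b := by
    unfold lb
    rw [if_neg hq, if_neg (lt_irrefl _), if_pos rfl]
  rw [← Finset.mul_prod_erase univ _ (mem_univ q), hlb]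
  -- the other bounds
  have h1 : ∏ i ∈ univ.erase q, lb E (lev k C s rk) rk n q i ≤
      ∏ i ∈ univ.erase q, ((if rk i < rk q then Q ^ 2 ^ rk i else 1) * Z) := by
    refine Finset.prod_le_prod (fun i _ => (lb_pos rk (fun n i => zero_lt_one.trans_le (lev_one hC hs hs1 n i)) n q i).le)
      fun i hi => ?_
    unfold lb
    have hiq := Finset.ne_of_mem_erase hi
    by_cases h2 : i ∈ E
    · rw [if_pos h2]
      split_ifs
      · exact one_le_mul_of_one_le_of_one_le (one_le_pow₀ hQ1) hZ1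
      · rw [one_mul]; exact hZ1
    · rw [if_neg h2]
      by_cases h3 : rk i < rk q
      · rw [if_pos h3, if_pos h3]
        show Q ^ 2 ^ rk i ≤ _
        exact le_mul_of_one_le_right (by positivity) hZ1
      · rw [if_neg h3, if_neg hiq, if_neg h3, one_mul]
        exact lev_le hC hs hs1 hrk n i
  have h2 : ∏ i ∈ univ.erase q, ((if rk i < rk q then Q ^ 2 ^ rk i else 1) * Z) ≤ Q ^ (2 ^ rk q - 1) * Z ^ (k - 1) := by
    rw [Finset.prod_mul_distrib, Finset.prod_const]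
    have h3 : ∏ i ∈ univ.erase q, (if rk i < rk q then Q ^ 2 ^ rk i else 1) ≤ Q ^ (2 ^ rk q - 1) := by
      rw [← Finset.prod_filter, Finset.prod_pow_eq_pow_sum]
      refine pow_le_pow_right₀ hQ1 ?_
      exact sum_two_pow hinj _ _ fun i hi => (Finset.mem_filter.1 hi).2
    refine mul_le_mul h3 ?_ (by positivity) (by positivity)
    refine pow_le_pow_right₀ hZ1 ?_
    rw [Finset.card_erase_of_mem (mem_univ q), Finset.card_univ]
    omega
  have h3 : 0 < ∏ i ∈ univ.erase q, lb E (lev k C s rk) rk n q i :=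
    Finset.prod_pos fun i _ => lb_pos rk (fun n i => zero_lt_one.trans_le (lev_one hC hs hs1 n i)) n q i
  have hab : 0 < a + b := by linarith
  have e1 : 4 * a ^ 2 / b / (a + b) * ((a + b) * ∏ i ∈ univ.erase q, lb E (lev k C s rk) rk n q i) =
      4 * a ^ 2 * (∏ i ∈ univ.erase q, lb E (lev k C s rk) rk n q i) / b := by
    field_simp
  rw [e1, div_le_iff₀ hb0]
  have h4 : 4 * a ^ 2 * (∏ i ∈ univ.erase q, lb E (lev k C s rk) rk n q i) ≤
      4 * Z ^ 2 * (Q ^ (2 ^ rk q - 1) * Z ^ (k - 1)) := by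
    refine mul_le_mul ?_ (h1.trans h2) h3.le (by positivity)
    exact mul_le_mul_of_nonneg_left (pow_le_pow_left₀ (by linarith) haZ 2) (by norm_num)
  refine h4.trans ?_
  have hk1 : 1 ≤ k := le_trans (Fintype.card_pos_iff.2 ⟨q⟩) hk
  have e2 : Z ^ 2 * Z ^ (k - 1) = Z ^ (k + 1) := by
    rw [← pow_add]
    congr 1
    omega
  have hpow : b = Q ^ (2 ^ rk q - 1) * Q := by
    rw [hb', ← pow_succ]
    congr 1
    have : 1 ≤ 2 ^ rk q := Nat.one_le_two_pow
    omega
  rw [hpow]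
  have e3 : 4 * s n / C * (Q ^ (2 ^ rk q - 1) * Q) = 4 * Q ^ (2 ^ rk q - 1) * (s n / C * Q) := by ring
  have e4 : s n / C * Q = Z ^ (k + 1) := by
    rw [hQ]
    field_simp
  rw [e3, e4, ← e2]
  exact le_of_eq (by ring)

end levels

end

end Pool.Agent.GMM.Lin
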