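import Pool.Agent.GMN.Hub
import Pool.Agent.M3.S1Run

/-!
# GMM/LinNode (helper28): LINEAR (Huber) layers at one node (note 3991 (2) of helper71)

`F` = the bounded function (`|F| ≤ Y0`), tests `val τ p d`, `|val| ≤ 1`, finite list of births `l`.
* `lsum ep val l` = `ep ∑ val` : the linear structured function;
* `lres ep Y val F l = clip Y (F - lsum)` : the residual, bounded by `Y`;
* `lpot` = mean of `hub Y (F - lsum)` in the window `Q` : at most `Y0 ^ 2` for the empty list, falls by `ep ^ 2` at a birth;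
* the state of a point is a pair `s : Rc T` = (cumulative list, length of the current part), `cur s` = the current list;
* `hnode` = steps of the RULE at a node (one birth if some test has at least `thr |C|` members), `hnode_end` (no hit
  afterwards), `hnode_jump`, `hHit_le`, `not_hhit` (popular tests are small), `lres_L1`, `rounding_absY`.
-/

set_option autoImplicit false
set_option linter.unusedSectionVars false

namespace Pool.Agent.GMM.Lin

open Finset Pool.Agent.PWZ Pool.Agent.M3 Pool.Agent.GMN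

noncomputable section

/-- the state of a point: cumulative list of births, length of the current part -/
abbrev Rc (T : Type*) : Type _ := List (Birth T) × ℕ

/-- the current list -/
def cur {T : Type*} (s : Rc T) : List (Birth T) := s.1.take s.2

@[simp] theorem cur_zero {T : Type*} (l : List (Birth T)) : cur ((l, 0) : Rc T) = [] := List.take_zero

@[simp] theorem cur_cons {T : Type*} (b : Birth T) (s : Rc T) : cur ((b :: s.1, s.2 + 1) : Rc T) = b :: cur s := rfl

theorem cur_length_le {T : Type*} (s : Rc T) : (cur s).length ≤ s.2 := by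
  unfold cur
  rw [List.length_take]
  exact min_le_left _ _

theorem cur_length {T : Type*} {s : Rc T} (h : s.2 ≤ s.1.length) : (cur s).length = s.2 := by
  unfold cur
  rw [List.length_take]
  exact min_eq_left h

variable {P V T : Type*}

/-- the linear structured function of a list -/
def lsum (ep : ℝ) (val : T → P → V → ℝ) (l : List (Birth T)) (p : P) (d : V) : ℝ :=
  ep * (l.map (fun b => val b.τ p d)).sum

@[simp] theorem lsum_nil (ep : ℝ) (val : T → P → V → ℝ) (p : P) (d : V) : lsum ep val [] p d = 0 := by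
  unfold lsum
  simp

theorem lsum_cons (ep : ℝ) (val : T → P → V → ℝ) (b : Birth T) (l : List (Birth T)) (p : P) (d : V) :
    lsum ep val (b :: l) p d = lsum ep val l p d + ep * val b.τ p d := by
  unfold lsum
  rw [List.map_cons, List.sum_cons]
  ring

theorem abs_lsum {ep : ℝ} (hep : 0 ≤ ep) {val : T → P → V → ℝ} {p : P} {d : V} (hval : ∀ τ, |val τ p d| ≤ 1)
    (l : List (Birth T)) : |lsum ep val l p d| ≤ ep * l.length := by
  induction l with
  | nil => simp
  | cons b l ih =>
    rw [lsum_cons, List.length_cons]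
    push_cast
    calc |lsum ep val l p d + ep * val b.τ p d| ≤ |lsum ep val l p d| + |ep * val b.τ p d| := abs_add_le _ _
      _ ≤ ep * l.length + ep * 1 := by
          refine add_le_add ih ?_
          rw [abs_mul, abs_of_nonneg hep]
          exact mul_le_mul_of_nonneg_left (hval _) hep
      _ = _ := by ring

/-- the residual of a list, clipped at `Y` -/
def lres (ep Y : ℝ) (val : T → P → V → ℝ) (F : P → V → ℝ) (l : List (Birth T)) (p : P) (d : V) : ℝ :=
  clip Y (F p d - lsum ep val l p d)

theorem abs_lres {ep Y : ℝ} (hY : 0 ≤ Y) {val : T → P → V → ℝ} {F : P → V → ℝ} (l : List (Birth T)) (p : P) (d : V) :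
    |lres ep Y val F l p d| ≤ Y := abs_clip_le hY _

theorem lres_nil {ep Y : ℝ} {val : T → P → V → ℝ} {F : P → V → ℝ} {p : P} {d : V} (h : |F p d| ≤ Y) :
    lres ep Y val F [] p d = F p d := by
  unfold lres
  rw [lsum_nil, sub_zero, clip_of_abs h]

variable [Fintype V]

/-- the mean over a window -/
theorem isMean_E (Q : FP V) : IsMean Q.E where
  add f g := Q.E_add f g
  smul c f := Q.E_smul c f
  mono _ _ h := Q.E_mono fun d _ => h d
  one := Q.E_const 1

/-- the potential of a point -/
def lpot (ep Y : ℝ) (val : T → P → V → ℝ) (F : P → V → ℝ) (Q : FP V) (l : List (Birth T)) (p : P) : ℝ :=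
  Q.E (fun d => hub Y (F p d - lsum ep val l p d))

theorem lpot_nonneg {ep Y : ℝ} (hY : 0 ≤ Y) {val : T → P → V → ℝ} {F : P → V → ℝ} {Q : FP V} (l : List (Birth T))
    (p : P) : 0 ≤ lpot ep Y val F Q l p := Q.E_nonneg fun _ _ => hub_nonneg hY _

theorem lpot_nil {ep Y Y0 : ℝ} (hY : 0 ≤ Y) {val : T → P → V → ℝ} {F : P → V → ℝ} {Q : FP V} {p : P}
    (hF : ∀ d, |F p d| ≤ Y0) : lpot ep Y val F Q [] p ≤ Y0 ^ 2 := by
  refine Q.E_le_const fun d _ => ?_
  rw [lsum_nil, sub_zero]
  refine (hub_le_sq hY _).trans ?_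
  rw [← sq_abs]
  exact pow_le_pow_left₀ (abs_nonneg _) (hF d) 2

theorem lpot_cons {ep Y : ℝ} (hY : 0 ≤ Y) (hep : 0 ≤ ep) {val : T → P → V → ℝ} {F : P → V → ℝ} {Q : FP V} {p : P}
    (hval : ∀ τ d, |val τ p d| ≤ 1) (b : Birth T) (l : List (Birth T))
    (hb : ep ≤ Q.E (fun d => lres ep Y val F l p d * val b.τ p d)) :
    lpot ep Y val F Q (b :: l) p ≤ lpot ep Y val F Q l p - ep ^ 2 := by
  have h1 := huber_step (m := Q.E) (isMean_E Q) hY (E := fun d => F p d - lsum ep val l p d) (g := fun d => val b.τ p d)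
    (fun d => hval _ d) hep (b := ep) (by
      refine hb.trans (le_of_eq (Q.E_congr fun d _ => ?_))
      unfold lres
      ring)
  have h2 : lpot ep Y val F Q (b :: l) p = Q.E (fun d => hub Y (F p d - lsum ep val l p d - ep * val b.τ p d)) := by
    unfold lpot
    refine Q.E_congr fun d _ => ?_
    rw [lsum_cons]
    congr 1
    ring
  rw [h2]
  refine h1.trans (le_of_eq ?_)
  unfold lpot
  ring

/-- **the `L1` error** -/
theorem lres_L1 {ep Y B : ℝ} (hY : 0 < Y) {val : T → P → V → ℝ} {F : P → V → ℝ} {Q : FP V} {l : List (Birth T)}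
    {p : P} (h : lpot ep Y val F Q l p ≤ B) :
    Q.E (fun d => |F p d - lsum ep val l p d - lres ep Y val F l p d|) ≤ B / Y := by
  refine (mean_abs_sub_clip (isMean_E Q) hY (fun d => F p d - lsum ep val l p d)).trans ?_
  exact div_le_div_of_nonneg_right h hY.le

/-- correlation of the current residual with a test -/
def hcorr (ep Y : ℝ) (val : T → P → V → ℝ) (F : P → V → ℝ) (Q : FP V) (L : P → Rc T) (τ : T) (p : P) : ℝ :=
  Q.E (fun d => lres ep Y val F (cur (L p)) p d * val τ p d)

/-- the members of a test -/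
def hmem (ep Y : ℝ) (val : T → P → V → ℝ) (F : P → V → ℝ) (Q : FP V) (C : Finset P) (L : P → Rc T)
    (τ : T) : Finset P :=
  @Finset.filter P (fun p => ep ≤ hcorr ep Y val F Q L τ p) (Classical.decPred _) C

theorem mem_hmem {ep Y : ℝ} {val : T → P → V → ℝ} {F : P → V → ℝ} {Q : FP V} {C : Finset P}
    {L : P → Rc T} {τ : T} {p : P} :
    p ∈ hmem ep Y val F Q C L τ ↔ p ∈ C ∧ ep ≤ hcorr ep Y val F Q L τ p := by
  unfold hmem
  rw [Finset.mem_filter]

/-- some test has many members -/
def HHit (ep Y thr : ℝ) (val : T → P → V → ℝ) (F : P → V → ℝ) (Q : FP V) (C : Finset P)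
    (L : P → Rc T) : Prop :=
  ∃ τ : T, thr * C.card ≤ (hmem ep Y val F Q C L τ).card

open Classical in
/-- the test which is born (arbitrary but fixed) -/
def hborn [Nonempty T] (ep Y thr : ℝ) (val : T → P → V → ℝ) (F : P → V → ℝ) (Q : FP V) (C : Finset P)
    (L : P → Rc T) : T :=
  if h : HHit ep Y thr val F Q C L then Classical.choose h else Classical.choice inferInstance

theorem hborn_spec [Nonempty T] {ep Y thr : ℝ} {val : T → P → V → ℝ} {F : P → V → ℝ} {Q : FP V} {C : Finset P}
    {L : P → Rc T} (h : HHit ep Y thr val F Q C L) :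
    thr * C.card ≤ (hmem ep Y val F Q C L (hborn ep Y thr val F Q C L)).card := by
  unfold hborn
  rw [dif_pos h]
  exact Classical.choose_spec h

open Classical in
/-- one step of the RULE: number `k` at the time `t` -/
def hstep [Nonempty T] (ep Y thr : ℝ) (val : T → P → V → ℝ) (F : P → V → ℝ) (Q : FP V) (C : Finset P)
    (t k : ℕ) (L : P → Rc T) : P → Rc T := fun p =>
  if HHit ep Y thr val F Q C L ∧ p ∈ hmem ep Y val F Q C L (hborn ep Y thr val F Q C L) then
    (⟨t, k, hborn ep Y thr val F Q C L⟩ :: (L p).1, (L p).2 + 1) else L p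

/-- `n` steps of the RULE -/
def hnode [Nonempty T] (ep Y thr : ℝ) (val : T → P → V → ℝ) (F : P → V → ℝ) (Q : FP V) (C : Finset P)
    (t : ℕ) (L : P → Rc T) : ℕ → P → Rc T
  | 0 => L
  | k + 1 => hstep ep Y thr val F Q C t k (hnode ep Y thr val F Q C t L k)

section lemmas

variable [Nonempty T] {ep Y Y0 B thr : ℝ} {val : T → P → V → ℝ} {F : P → V → ℝ} {Q : FP V} {C : Finset P}

/-- a step with a hit: the new state of a member -/
theorem hstep_mem {t k : ℕ} {L : P → Rc T} (h : HHit ep Y thr val F Q C L) {p : P}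
    (hp : p ∈ hmem ep Y val F Q C L (hborn ep Y thr val F Q C L)) :
    hstep ep Y thr val F Q C t k L p = (⟨t, k, hborn ep Y thr val F Q C L⟩ :: (L p).1, (L p).2 + 1) := by
  unfold hstep
  rw [if_pos ⟨h, hp⟩]

theorem hstep_not_mem {t k : ℕ} {L : P → Rc T} {p : P}
    (hp : ¬ (HHit ep Y thr val F Q C L ∧ p ∈ hmem ep Y val F Q C L (hborn ep Y thr val F Q C L))) :
    hstep ep Y thr val F Q C t k L p = L p := by
  unfold hstep
  rw [if_neg hp]

theorem hstep_of_not_hit {t k : ℕ} {L : P → Rc T} (h : ¬ HHit ep Y thr val F Q C L) :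
    hstep ep Y thr val F Q C t k L = L := by
  funext p
  exact hstep_not_mem (fun h' => h h'.1)

theorem hstep_not_cell {t k : ℕ} {L : P → Rc T} {p : P} (hp : p ∉ C) :
    hstep ep Y thr val F Q C t k L p = L p := hstep_not_mem (fun h => hp (mem_hmem.1 h.2).1)

theorem hnode_not_cell {t : ℕ} {L : P → Rc T} {p : P} (hp : p ∉ C) (k : ℕ) :
    hnode ep Y thr val F Q C t L k p = L p := by
  induction k with
  | zero => rfl
  | succ k ih =>
    show hstep ep Y thr val F Q C t k (hnode ep Y thr val F Q C t L k) p = L p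
    rw [hstep_not_cell hp, ih]

/-- once there is no hit nothing happens any more -/
theorem hnode_stop {t : ℕ} {L : P → Rc T} {j : ℕ} (h : ¬ HHit ep Y thr val F Q C (hnode ep Y thr val F Q C t L j))
    {k : ℕ} (hjk : j ≤ k) : hnode ep Y thr val F Q C t L k = hnode ep Y thr val F Q C t L j := by
  induction k, hjk using Nat.le_induction with
  | base => rfl
  | succ k _ ih =>
    show hstep ep Y thr val F Q C t k (hnode ep Y thr val F Q C t L k) = _
    rw [ih, hstep_of_not_hit h]

/-- along the RULE the potential of every point falls by `ep ^ 2` per birth of the point -/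
theorem lpot_hnode {p : P} (hY : 0 ≤ Y) (hep : 0 ≤ ep) (hval : ∀ τ d, |val τ p d| ≤ 1) (t : ℕ)
    (L : P → Rc T) (k : ℕ) :
    lpot ep Y val F Q (cur (hnode ep Y thr val F Q C t L k p)) p +
      ep ^ 2 * ((hnode ep Y thr val F Q C t L k p).1.length - (L p).1.length : ℝ) ≤
      lpot ep Y val F Q (cur (L p)) p := by
  induction k with
  | zero =>
    show lpot ep Y val F Q (cur (L p)) p + ep ^ 2 * ((L p).1.length - (L p).1.length : ℝ) ≤ _
    rw [sub_self, mul_zero, add_zero]
  | succ k ih =>
    set M := hnode ep Y thr val F Q C t L k with hM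
    show lpot ep Y val F Q (cur (hstep ep Y thr val F Q C t k M p)) p +
      ep ^ 2 * ((hstep ep Y thr val F Q C t k M p).1.length - (L p).1.length : ℝ) ≤ _
    by_cases h : HHit ep Y thr val F Q C M ∧ p ∈ hmem ep Y val F Q C M (hborn ep Y thr val F Q C M)
    · rw [hstep_mem h.1 h.2, cur_cons]
      have h1 := lpot_cons (Q := Q) (F := F) hY hep hval ⟨t, k, hborn ep Y thr val F Q C M⟩ (cur (M p))
        (mem_hmem.1 h.2).2
      rw [List.length_cons]
      push_cast
      linarith
    · rw [hstep_not_mem h]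
      exact ih

/-- the cumulative list only grows -/
theorem hnode_suffix (t : ℕ) (L : P → Rc T) (k : ℕ) (p : P) :
    (L p).1 <:+ (hnode ep Y thr val F Q C t L k p).1 := by
  induction k with
  | zero => exact List.suffix_refl _
  | succ k ih =>
    show (L p).1 <:+ (hstep ep Y thr val F Q C t k (hnode ep Y thr val F Q C t L k) p).1
    by_cases h : HHit ep Y thr val F Q C (hnode ep Y thr val F Q C t L k) ∧
        p ∈ hmem ep Y val F Q C (hnode ep Y thr val F Q C t L k)
          (hborn ep Y thr val F Q C (hnode ep Y thr val F Q C t L k))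
    · rw [hstep_mem h.1 h.2]
      exact ih.trans (List.suffix_cons _ _)
    · rw [hstep_not_mem h]
      exact ih

/-- the current length and the cumulative length grow together -/
theorem hnode_snd (t : ℕ) (L : P → Rc T) (k : ℕ) (p : P) :
    (hnode ep Y thr val F Q C t L k p).2 + (L p).1.length =
      (L p).2 + (hnode ep Y thr val F Q C t L k p).1.length := by
  induction k with
  | zero => rfl
  | succ k ih =>
    show (hstep ep Y thr val F Q C t k (hnode ep Y thr val F Q C t L k) p).2 + _ =
      _ + (hstep ep Y thr val F Q C t k (hnode ep Y thr val F Q C t L k) p).1.length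
    by_cases h : HHit ep Y thr val F Q C (hnode ep Y thr val F Q C t L k) ∧
        p ∈ hmem ep Y val F Q C (hnode ep Y thr val F Q C t L k)
          (hborn ep Y thr val F Q C (hnode ep Y thr val F Q C t L k))
    · rw [hstep_mem h.1 h.2]
      simp only [List.length_cons]
      omega
    · rw [hstep_not_mem h]
      exact ih

theorem length_le_hnode (t : ℕ) (L : P → Rc T) (k : ℕ) (p : P) :
    (L p).1.length ≤ (hnode ep Y thr val F Q C t L k p).1.length := (hnode_suffix t L k p).length_le

/-- the number of births of a point at one node -/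
theorem hnode_jump {p : P} (hY : 0 ≤ Y) (hep : 0 < ep) (hval : ∀ τ d, |val τ p d| ≤ 1) (t : ℕ)
    (L : P → Rc T) (hB : lpot ep Y val F Q (cur (L p)) p ≤ B) (k : ℕ) :
    ((hnode ep Y thr val F Q C t L k p).1.length - (L p).1.length : ℝ) ≤ B / ep ^ 2 := by
  have h := lpot_hnode (thr := thr) (F := F) (Q := Q) (C := C) hY hep.le hval t L k
  have h1 := lpot_nonneg (ep := ep) hY (val := val) (F := F) (Q := Q)
    (cur (hnode ep Y thr val F Q C t L k p)) p
  rw [le_div_iff₀ (by positivity)]
  nlinarith

theorem lpot_hnode_le {p : P} (hY : 0 ≤ Y) (hep : 0 ≤ ep) (hval : ∀ τ d, |val τ p d| ≤ 1) (t : ℕ)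
    (L : P → Rc T) (k : ℕ) :
    lpot ep Y val F Q (cur (hnode ep Y thr val F Q C t L k p)) p ≤ lpot ep Y val F Q (cur (L p)) p := by
  have h := lpot_hnode (thr := thr) (F := F) (Q := Q) (C := C) hY hep hval t L k
  have h1 : (0 : ℝ) ≤ ((hnode ep Y thr val F Q C t L k p).1.length - (L p).1.length : ℝ) := by
    have := length_le_hnode (ep := ep) (Y := Y) (thr := thr) (val := val) (F := F) (Q := Q) (C := C) t L k p
    have h2 : ((L p).1.length : ℝ) ≤ (hnode ep Y thr val F Q C t L k p).1.length := by exact_mod_cast this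
    linarith
  nlinarith [sq_nonneg ep]

open Classical in
/-- the number of public births among the first `k` steps -/
def hHit (ep Y thr : ℝ) (val : T → P → V → ℝ) (F : P → V → ℝ) (Q : FP V) (C : Finset P) (t : ℕ)
    (L : P → Rc T) (k : ℕ) : ℕ :=
  ((range k).filter (fun j => HHit ep Y thr val F Q C (hnode ep Y thr val F Q C t L j))).card

theorem hHit_succ (t : ℕ) (L : P → Rc T) (k : ℕ) :
    (hHit ep Y thr val F Q C t L (k + 1) : ℝ) =
      hHit ep Y thr val F Q C t L k + ind (HHit ep Y thr val F Q C (hnode ep Y thr val F Q C t L k)) := by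
  classical
  unfold hHit
  rw [Finset.range_add_one, Finset.filter_insert]
  by_cases h : HHit ep Y thr val F Q C (hnode ep Y thr val F Q C t L k)
  · rw [if_pos h, Finset.card_insert_of_notMem (by simp), ind_of h]
    push_cast
    ring
  · rw [if_neg h, ind_not h, add_zero]

/-- every public birth is thick: the births of the points of the cell -/
theorem hHit_le (t : ℕ) (L : P → Rc T) (k : ℕ) :
    thr * C.card * hHit ep Y thr val F Q C t L k ≤
      ∑ p ∈ C, ((hnode ep Y thr val F Q C t L k p).1.length - (L p).1.length : ℝ) := by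
  classical
  induction k with
  | zero =>
    have h0 : hHit ep Y thr val F Q C t L 0 = 0 := rfl
    rw [h0]
    show _ ≤ ∑ p ∈ C, ((L p).1.length - (L p).1.length : ℝ)
    simp
  | succ k ih =>
    rw [hHit_succ]
    set M := hnode ep Y thr val F Q C t L k with hM
    have h1 : ∑ p ∈ C, ((hnode ep Y thr val F Q C t L (k + 1) p).1.length - (L p).1.length : ℝ) =
        ∑ p ∈ C, ((M p).1.length - (L p).1.length : ℝ) +
        ∑ p ∈ C, ind (HHit ep Y thr val F Q C M ∧ p ∈ hmem ep Y val F Q C M (hborn ep Y thr val F Q C M)) := by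
      rw [← Finset.sum_add_distrib]
      refine Finset.sum_congr rfl (fun p _ => ?_)
      show ((hstep ep Y thr val F Q C t k M p).1.length - (L p).1.length : ℝ) = _
      by_cases h : HHit ep Y thr val F Q C M ∧ p ∈ hmem ep Y val F Q C M (hborn ep Y thr val F Q C M)
      · rw [hstep_mem h.1 h.2, ind_of h, List.length_cons]
        push_cast
        ring
      · rw [hstep_not_mem h, ind_not h, add_zero]
    rw [h1]
    have h2 : thr * C.card * ind (HHit ep Y thr val F Q C M) ≤
        ∑ p ∈ C, ind (HHit ep Y thr val F Q C M ∧ p ∈ hmem ep Y val F Q C M (hborn ep Y thr val F Q C M)) := by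
      by_cases h : HHit ep Y thr val F Q C M
      · rw [ind_of h, mul_one]
        refine (hborn_spec h).trans (le_of_eq ?_)
        have h3 : (hmem ep Y val F Q C M (hborn ep Y thr val F Q C M)) =
            C.filter (fun p => p ∈ hmem ep Y val F Q C M (hborn ep Y thr val F Q C M)) := by
          ext p
          rw [Finset.mem_filter]
          exact ⟨fun hp => ⟨(mem_hmem.1 hp).1, hp⟩, fun hp => hp.2⟩
        rw [h3, Finset.card_filter]
        push_cast
        refine Finset.sum_congr rfl (fun p _ => ?_)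
        rw [← h3]
        by_cases hp : p ∈ hmem ep Y val F Q C M (hborn ep Y thr val F Q C M)
        · rw [if_pos hp, ind_of ⟨h, hp⟩]
        · rw [if_neg hp, ind_not (fun h' => hp h'.2)]
      · rw [ind_not h, mul_zero]
        exact Finset.sum_nonneg (fun p _ => ind_nonneg _)
    nlinarith

/-- after `n > B / (ep ^ 2 thr)` steps there is no hit -/
theorem hnode_end (hC : C.Nonempty) (hY : 0 ≤ Y) (hep : 0 < ep) (hthr : 0 < thr)
    (hval : ∀ τ, ∀ p ∈ C, ∀ d, |val τ p d| ≤ 1) (t : ℕ) (L : P → Rc T)
    (hB : ∀ p ∈ C, lpot ep Y val F Q (cur (L p)) p ≤ B) {n : ℕ} (hn : B / (ep ^ 2 * thr) < n) :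
    ¬ HHit ep Y thr val F Q C (hnode ep Y thr val F Q C t L n) := by
  classical
  intro hhit
  have hall : ∀ j < n, HHit ep Y thr val F Q C (hnode ep Y thr val F Q C t L j) := by
    intro j hj
    by_contra hcon
    exact hcon (by rw [← hnode_stop hcon hj.le]; exact hhit)
  have h1 : hHit ep Y thr val F Q C t L n = n := by
    unfold hHit
    rw [Finset.filter_true_of_mem (fun j hj => hall j (Finset.mem_range.1 hj)), Finset.card_range]
  have h2 := hHit_le (ep := ep) (Y := Y) (thr := thr) (val := val) (F := F) (Q := Q) (C := C) t L n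
  rw [h1] at h2
  have h3 : ∑ p ∈ C, ((hnode ep Y thr val F Q C t L n p).1.length - (L p).1.length : ℝ) ≤
      ∑ _p ∈ C, (B / ep ^ 2 : ℝ) := by
    refine Finset.sum_le_sum (fun p hp => ?_)
    exact hnode_jump hY hep (fun τ d => hval τ p hp d) t L (hB p hp) n
  rw [Finset.sum_const, nsmul_eq_mul] at h3
  have hc : (0 : ℝ) < C.card := by exact_mod_cast hC.card_pos
  have h4 : thr * n ≤ B / ep ^ 2 := by
    have h5 : (C.card : ℝ) * (thr * n) ≤ C.card * (B / ep ^ 2) := by nlinarith
    exact le_of_mul_le_mul_left h5 hc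
  rw [div_lt_iff₀ (by positivity)] at hn
  rw [le_div_iff₀ (by positivity)] at h4
  nlinarith

/-- at the end of the RULE no test has many members -/
theorem not_hhit {L : P → Rc T} (h : ¬ HHit ep Y thr val F Q C L) (τ : T) :
    ∑ p ∈ C, ind (ep ≤ Q.E (fun d => lres ep Y val F (cur (L p)) p d * val τ p d)) ≤ thr * C.card := by
  classical
  have h1 : ((hmem ep Y val F Q C L τ).card : ℝ) =
      ∑ p ∈ C, ind (ep ≤ Q.E (fun d => lres ep Y val F (cur (L p)) p d * val τ p d)) := by
    unfold hmem
    rw [Finset.card_filter]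
    push_cast
    refine Finset.sum_congr rfl (fun p _ => ?_)
    by_cases hp : ep ≤ hcorr ep Y val F Q L τ p
    · rw [if_pos hp]
      exact (ind_of hp).symm
    · rw [if_neg hp]
      exact (ind_not hp).symm
  rw [← h1]
  by_contra hcon
  exact h ⟨τ, (not_le.1 hcon).le⟩

end lemmas

/-- rounding, both signs, residuals bounded by `Y` -/
theorem rounding_absY {ι : Type*} [Fintype ι] {test : (ι → ℝ) → P → V → ℝ} (haff : AffTest test)
    (hneg : ∀ x : ι → ℝ, (∀ i, |x i| ≤ 1) → ∃ x' : ι → ℝ, (∀ i, |x' i| ≤ 1) ∧ ∀ p d, test x' p d = - test x p d)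
    (Q : FP V) (R : P → V → ℝ) (C : Finset P) {ep Y N : ℝ} (hep : 0 < ep) (hY : 0 ≤ Y)
    (hR : ∀ p ∈ C, ∀ d, |R p d| ≤ Y)
    (hT : ∀ e : ι → ℝ, (∀ i, e i = 1 ∨ e i = -1) → ∀ p ∈ C, ∀ d, |test e p d| ≤ 1)
    (hno : ∀ e : ι → ℝ, (∀ i, e i = 1 ∨ e i = -1) →
      ∑ p ∈ C, ind (ep ≤ Q.E (fun d => R p d * test e p d)) ≤ N)
    (x : ι → ℝ) (hx : ∀ i, |x i| ≤ 1) :
    3 * ep * ∑ p ∈ C, ind (4 * ep ≤ |Q.E (fun d => R p d * test x p d)|) ≤ 2 * Y * N := by
  have hK : ∀ e : ι → ℝ, (∀ i, e i = 1 ∨ e i = -1) → ∀ p ∈ C, Q.E (fun d => R p d * test e p d) ≤ Y := by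
    intro e he p hp
    refine Q.E_le_const (fun d _ => ?_)
    refine (le_abs_self _).trans ?_
    rw [abs_mul]
    nlinarith [hR p hp d, hT e he p hp d, abs_nonneg (R p d), abs_nonneg (test e p d)]
  have h1 := rounding_oneR haff Q R C hep hK hno x hx
  obtain ⟨x', hx', hn⟩ := hneg x hx
  have h2 := rounding_oneR haff Q R C hep hK hno x' hx'
  rw [max_eq_left hY] at h1 h2
  have h3 : ∑ p ∈ C, ind (4 * ep ≤ |Q.E (fun d => R p d * test x p d)|) ≤
      ∑ p ∈ C, ind (4 * ep ≤ Q.E (fun d => R p d * test x p d)) +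
      ∑ p ∈ C, ind (4 * ep ≤ Q.E (fun d => R p d * test x' p d)) := by
    rw [← Finset.sum_add_distrib]
    refine Finset.sum_le_sum (fun p _ => ?_)
    have e1 : Q.E (fun d => R p d * test x' p d) = - Q.E (fun d => R p d * test x p d) := by
      rw [← FP.E_neg]
      exact Q.E_congr (fun d _ => by rw [hn]; ring)
    rw [e1]
    by_cases h : 4 * ep ≤ |Q.E (fun d => R p d * test x p d)|
    · rw [ind_of h]
      rcases le_abs.1 h with h' | h'
      · rw [ind_of h']
        linarith [ind_nonneg (4 * ep ≤ - Q.E (fun d => R p d * test x p d))]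
      · rw [ind_of h']
        linarith [ind_nonneg (4 * ep ≤ Q.E (fun d => R p d * test x p d))]
    · rw [ind_not h]
      exact add_nonneg (ind_nonneg _) (ind_nonneg _)
  have h4 : 3 * ep * ∑ p ∈ C, ind (4 * ep ≤ |Q.E (fun d => R p d * test x p d)|) ≤
      3 * ep * (∑ p ∈ C, ind (4 * ep ≤ Q.E (fun d => R p d * test x p d)) +
      ∑ p ∈ C, ind (4 * ep ≤ Q.E (fun d => R p d * test x' p d))) :=
    mul_le_mul_of_nonneg_left h3 (by linarith)
  linarith

end

end Pool.Agent.GMM.Lin
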