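import Pool.Agent.GMM.LinNode
import Pool.Agent.GM.MovRun

/-!
# GMM/LinRun (helper28): LINEAR (Huber) layers along the tree of face nodes, moving functions (note 3991 (2))

`Nodes`, `Tests`, `Free` are those of `M3/S1Run` (`Free .. 0 ..` : the windows are an exact martingale).  `F n γ p` = moving
function, `|F| ≤ Y0`.  At the time `n + 1`, after the move of the window and of `F`, a point RESTARTS (current part of its
list := empty) if `F` moved at the point, or if its potential is `> 4 Y0 ^ 2`, or if the current part has more than `n2`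
births; then the births.
* `lstH` (state), `preH`, `pubsH`, `rstH` (restart without a move), `SH` (linear structured function), `RH` (clipped residual);
* `RH_P1`, `RH_P1sign` : product tests; `lstH_pot` : potential `≤ 4 Y0 ^ 2` at every point and node, so `RH_L1`;
  `lstH_cur_le` : the current list has at most `n2 + 4 Y0 ^ 2 / ep ^ 2` births, `abs_SH`;
* `futH` : births and restarts in the future of every state, `birthsH_le`, `tailH_le`, `pubsH_le`.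
-/

set_option autoImplicit false
set_option linter.unusedSectionVars false

namespace Pool.Agent.GMM.Lin

open Finset Pool.Agent.PWZ Pool.Agent.M3 Pool.Agent.GMN Pool.Agent.GM

noncomputable section

variable {ι P V : Type*} {Gam : ℕ → Type*} [Fintype V]

open Classical in
/-- the state before the births: restart if `F` moved, or the potential is large, or the current part is long -/
def hpreS (ep Y Y0 : ℝ) (n2 : ℕ) (val : (ι → Bool) → P → V → ℝ) (F0 F1 : P → V → ℝ) (Q : FP V)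
    (L : P → Rc (ι → Bool)) : P → Rc (ι → Bool) := fun p =>
  if F1 p ≠ F0 p ∨ 4 * Y0 ^ 2 < lpot ep Y val F1 Q (cur (L p)) p ∨ n2 < (L p).2 then ((L p).1, 0) else L p

/-- the states: `N` steps of the RULE at every node, after the moves and the restarts -/
def lstH (D : Nodes P V Gam) (S : Tests ι P V) (ep Y Y0 thr : ℝ) (N n2 : ℕ) (F : ∀ n, Gam n → P → V → ℝ) :
    ∀ n, Gam n → P → Rc (ι → Bool)
  | 0, γ, p => hnode ep Y thr S.val (F 0 γ) (D.J 0 γ) (D.cell 0 p) 0 (fun _ => ([], 0)) N p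
  | n + 1, γ, p => hnode ep Y thr S.val (F (n + 1) γ) (D.J (n + 1) γ) (D.cell (n + 1) p) (n + 1)
      (hpreS ep Y Y0 n2 S.val (F n (D.prev n γ)) (F (n + 1) γ) (D.J (n + 1) γ)
        (lstH D S ep Y Y0 thr N n2 F n (D.prev n γ))) N p

/-- the states before the births of the time `n` -/
def preH (D : Nodes P V Gam) (S : Tests ι P V) (ep Y Y0 thr : ℝ) (N n2 : ℕ) (F : ∀ n, Gam n → P → V → ℝ) :
    ∀ n, Gam n → P → Rc (ι → Bool)
  | 0, _ => fun _ => ([], 0)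
  | n + 1, γ => hpreS ep Y Y0 n2 S.val (F n (D.prev n γ)) (F (n + 1) γ) (D.J (n + 1) γ)
        (lstH D S ep Y Y0 thr N n2 F n (D.prev n γ))

/-- the number of public births at the node of `p` -/
def pubsH (D : Nodes P V Gam) (S : Tests ι P V) (ep Y Y0 thr : ℝ) (N n2 : ℕ) (F : ∀ n, Gam n → P → V → ℝ) (n : ℕ)
    (γ : Gam n) (p : P) : ℕ :=
  hHit ep Y thr S.val (F n γ) (D.J n γ) (D.cell n p) n (preH D S ep Y Y0 thr N n2 F n γ) N

/-- the linear structured function -/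
def SH (D : Nodes P V Gam) (S : Tests ι P V) (ep Y Y0 thr : ℝ) (N n2 : ℕ) (F : ∀ n, Gam n → P → V → ℝ) (n : ℕ)
    (γ : Gam n) (p : P) (d : V) : ℝ := lsum ep S.val (cur (lstH D S ep Y Y0 thr N n2 F n γ p)) p d

/-- the clipped residual -/
def RH (D : Nodes P V Gam) (S : Tests ι P V) (ep Y Y0 thr : ℝ) (N n2 : ℕ) (F : ∀ n, Gam n → P → V → ℝ) (n : ℕ)
    (γ : Gam n) (p : P) (d : V) : ℝ := lres ep Y S.val (F n γ) (cur (lstH D S ep Y Y0 thr N n2 F n γ p)) p d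

/-- a restart without a move at the time `n + 1` -/
def rstH (D : Nodes P V Gam) (S : Tests ι P V) (ep Y Y0 thr : ℝ) (N n2 : ℕ) (F : ∀ n, Gam n → P → V → ℝ) (n : ℕ)
    (γ : Gam (n + 1)) (p : P) : Prop :=
  F (n + 1) γ p = F n (D.prev n γ) p ∧
    (4 * Y0 ^ 2 < lpot ep Y S.val (F (n + 1) γ) (D.J (n + 1) γ) (cur (lstH D S ep Y Y0 thr N n2 F n (D.prev n γ) p)) p ∨
      n2 < (lstH D S ep Y Y0 thr N n2 F n (D.prev n γ) p).2)

section static

variable (D : Nodes P V Gam) (S : Tests ι P V) {ep Y Y0 thr : ℝ} {N n2 : ℕ} {F : ∀ n, Gam n → P → V → ℝ}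

theorem abs_val (τ : ι → Bool) (p : P) (d : V) : |S.val τ p d| ≤ 1 := by
  have h := S.val_sq τ p d
  rw [← sq_abs] at h
  nlinarith [abs_nonneg (S.val τ p d)]

theorem lstH_eq (n : ℕ) (γ : Gam n) (p : P) :
    lstH D S ep Y Y0 thr N n2 F n γ p =
      hnode ep Y thr S.val (F n γ) (D.J n γ) (D.cell n p) n (preH D S ep Y Y0 thr N n2 F n γ) N p := by
  cases n <;> rfl

theorem lstH_eq_cell (n : ℕ) (γ : Gam n) {p q : P} (hq : q ∈ D.cell n p) :
    lstH D S ep Y Y0 thr N n2 F n γ q =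
      hnode ep Y thr S.val (F n γ) (D.J n γ) (D.cell n p) n (preH D S ep Y Y0 thr N n2 F n γ) N q := by
  rw [lstH_eq, D.coh n p q hq]

theorem pubsH_cell (n : ℕ) (γ : Gam n) {p q : P} (hq : q ∈ D.cell n p) :
    pubsH D S ep Y Y0 thr N n2 F n γ q = pubsH D S ep Y Y0 thr N n2 F n γ p := by
  unfold pubsH
  rw [D.coh n p q hq]

theorem preH_succ_fst (n : ℕ) (γ : Gam (n + 1)) (p : P) :
    (preH D S ep Y Y0 thr N n2 F (n + 1) γ p).1 = (lstH D S ep Y Y0 thr N n2 F n (D.prev n γ) p).1 := by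
  show (hpreS ep Y Y0 n2 S.val _ _ _ _ p).1 = _
  unfold hpreS
  split_ifs <;> rfl

theorem preH_succ_le (n : ℕ) (γ : Gam (n + 1)) (p : P) :
    (preH D S ep Y Y0 thr N n2 F (n + 1) γ p).2 ≤ n2 := by
  show (hpreS ep Y Y0 n2 S.val _ _ _ _ p).2 ≤ n2
  unfold hpreS
  split_ifs with h
  · exact Nat.zero_le _
  · push Not at h
    exact h.2.2

theorem preH_le (n : ℕ) (γ : Gam n) (p : P) : (preH D S ep Y Y0 thr N n2 F n γ p).2 ≤ n2 := by
  cases n with
  | zero => exact Nat.zero_le _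
  | succ n => exact preH_succ_le D S n γ p

/-- the cumulative lists are cumulative -/
theorem preH_suffix (n : ℕ) (γ : Gam n) (p : P) :
    (preH D S ep Y Y0 thr N n2 F n γ p).1 <:+ (lstH D S ep Y Y0 thr N n2 F n γ p).1 := by
  rw [lstH_eq]
  exact hnode_suffix _ _ _ _

theorem preH_length_le (n : ℕ) (γ : Gam n) (p : P) :
    (preH D S ep Y Y0 thr N n2 F n γ p).1.length ≤ (lstH D S ep Y Y0 thr N n2 F n γ p).1.length :=
  (preH_suffix D S n γ p).length_le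

theorem lstH_suffix (n : ℕ) (γ : Gam (n + 1)) (p : P) :
    (lstH D S ep Y Y0 thr N n2 F n (D.prev n γ) p).1 <:+ (lstH D S ep Y Y0 thr N n2 F (n + 1) γ p).1 := by
  have h := preH_suffix D S (ep := ep) (Y := Y) (Y0 := Y0) (thr := thr) (N := N) (n2 := n2) (F := F) (n + 1) γ p
  rwa [preH_succ_fst] at h

/-- the length of the current part is at most the length of the list -/
theorem lstH_snd_le (n : ℕ) : ∀ (γ : Gam n) (p : P),
    (lstH D S ep Y Y0 thr N n2 F n γ p).2 ≤ (lstH D S ep Y Y0 thr N n2 F n γ p).1.length := by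
  have key : ∀ (n : ℕ) (γ : Gam n) (p : P), (preH D S ep Y Y0 thr N n2 F n γ p).2 ≤
      (preH D S ep Y Y0 thr N n2 F n γ p).1.length →
      (lstH D S ep Y Y0 thr N n2 F n γ p).2 ≤ (lstH D S ep Y Y0 thr N n2 F n γ p).1.length := by
    intro n γ p h
    rw [lstH_eq]
    have := hnode_snd (ep := ep) (Y := Y) (thr := thr) (val := S.val) (F := F n γ) (Q := D.J n γ)
      (C := D.cell n p) n (preH D S ep Y Y0 thr N n2 F n γ) N p
    omega
  induction n with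
  | zero => exact fun γ p => key 0 γ p (Nat.zero_le _)
  | succ n ih =>
    intro γ p
    refine key (n + 1) γ p ?_
    show (hpreS ep Y Y0 n2 S.val _ _ _ _ p).2 ≤ (hpreS ep Y Y0 n2 S.val _ _ _ _ p).1.length
    unfold hpreS
    split_ifs
    · exact Nat.zero_le _
    · exact ih _ p

theorem cur_lstH_length (n : ℕ) (γ : Gam n) (p : P) :
    (cur (lstH D S ep Y Y0 thr N n2 F n γ p)).length = (lstH D S ep Y Y0 thr N n2 F n γ p).2 :=
  cur_length (lstH_snd_le D S n γ p)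

/-- the potential before the births -/
theorem preH_pot (hY : 0 ≤ Y) (n : ℕ) (γ : Gam n) (p : P) (hF : ∀ d, |F n γ p d| ≤ Y0) :
    lpot ep Y S.val (F n γ) (D.J n γ) (cur (preH D S ep Y Y0 thr N n2 F n γ p)) p ≤ 4 * Y0 ^ 2 := by
  have hnil : lpot ep Y S.val (F n γ) (D.J n γ) [] p ≤ 4 * Y0 ^ 2 := by
    have := lpot_nil (ep := ep) (Q := D.J n γ) (val := S.val) hY hF
    nlinarith [sq_nonneg Y0]
  cases n with
  | zero => exact hnil
  | succ n =>
    show lpot ep Y S.val (F (n + 1) γ) (D.J (n + 1) γ) (cur (hpreS ep Y Y0 n2 S.val _ _ _ _ p)) p ≤ _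
    unfold hpreS
    split_ifs with h
    · rw [cur_zero]
      exact hnil
    · push Not at h
      exact h.2.1

/-- **the potential is at most `4 Y0 ^ 2` at every point and node** -/
theorem lstH_pot (hY : 0 ≤ Y) (hep : 0 ≤ ep) (n : ℕ) (γ : Gam n) (p : P) (hF : ∀ d, |F n γ p d| ≤ Y0) :
    lpot ep Y S.val (F n γ) (D.J n γ) (cur (lstH D S ep Y Y0 thr N n2 F n γ p)) p ≤ 4 * Y0 ^ 2 := by
  rw [lstH_eq]
  exact (lpot_hnode_le hY hep (fun τ d => abs_val S τ p d) n _ N).trans (preH_pot D S hY n γ p hF)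

theorem abs_RH (hY : 0 ≤ Y) (n : ℕ) (γ : Gam n) (p : P) (d : V) : |RH D S ep Y Y0 thr N n2 F n γ p d| ≤ Y :=
  abs_lres hY _ _ _

/-- **`L1` error at every point and node** -/
theorem RH_L1 (hY : 0 < Y) (hep : 0 ≤ ep) (n : ℕ) (γ : Gam n) (p : P) (hF : ∀ d, |F n γ p d| ≤ Y0) :
    (D.J n γ).E (fun d => |F n γ p d - SH D S ep Y Y0 thr N n2 F n γ p d - RH D S ep Y Y0 thr N n2 F n γ p d|) ≤
      4 * Y0 ^ 2 / Y := lres_L1 hY (lstH_pot D S hY.le hep n γ p hF)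

/-- births of a point at one node -/
theorem lstH_jump (hY : 0 ≤ Y) (hep : 0 < ep) (n : ℕ) (γ : Gam n) (p : P) (hF : ∀ d, |F n γ p d| ≤ Y0) :
    ((lstH D S ep Y Y0 thr N n2 F n γ p).1.length - (preH D S ep Y Y0 thr N n2 F n γ p).1.length : ℝ) ≤
      4 * Y0 ^ 2 / ep ^ 2 := by
  rw [lstH_eq]
  exact hnode_jump hY hep (fun τ d => abs_val S τ p d) n _ (preH_pot D S hY n γ p hF) N

/-- **the current list is short** -/
theorem lstH_cur_le (hY : 0 ≤ Y) (hep : 0 < ep) (n : ℕ) (γ : Gam n) (p : P) (hF : ∀ d, |F n γ p d| ≤ Y0) :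
    ((cur (lstH D S ep Y Y0 thr N n2 F n γ p)).length : ℝ) ≤ n2 + 4 * Y0 ^ 2 / ep ^ 2 := by
  rw [cur_lstH_length]
  have h1 := lstH_jump D S (thr := thr) (N := N) (n2 := n2) hY hep n γ p hF
  have h2 := preH_le D S (ep := ep) (Y := Y) (Y0 := Y0) (thr := thr) (N := N) (n2 := n2) (F := F) n γ p
  have h3 := hnode_snd (ep := ep) (Y := Y) (thr := thr) (val := S.val) (F := F n γ) (Q := D.J n γ)
    (C := D.cell n p) n (preH D S ep Y Y0 thr N n2 F n γ) N p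
  rw [← lstH_eq] at h3
  have h4 : ((lstH D S ep Y Y0 thr N n2 F n γ p).2 : ℝ) + (preH D S ep Y Y0 thr N n2 F n γ p).1.length =
    (preH D S ep Y Y0 thr N n2 F n γ p).2 + (lstH D S ep Y Y0 thr N n2 F n γ p).1.length := by exact_mod_cast h3
  have h5 : ((preH D S ep Y Y0 thr N n2 F n γ p).2 : ℝ) ≤ n2 := by exact_mod_cast h2
  linarith

/-- the linear structured function is bounded -/
theorem abs_SH (hY : 0 ≤ Y) (hep : 0 < ep) (n : ℕ) (γ : Gam n) (p : P) (hF : ∀ d, |F n γ p d| ≤ Y0) (d : V) :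
    |SH D S ep Y Y0 thr N n2 F n γ p d| ≤ ep * n2 + 4 * Y0 ^ 2 / ep := by
  refine (abs_lsum hep.le (fun τ => abs_val S τ p d) _).trans ?_
  have h1 := mul_le_mul_of_nonneg_left (lstH_cur_le D S (thr := thr) (N := N) (n2 := n2) hY hep n γ p hF) hep.le
  refine h1.trans (le_of_eq ?_)
  field_simp

/-- (P1), sign tests -/
theorem RH_P1sign (n : ℕ) (γ : Gam n) (p : P) (hY : 0 ≤ Y) (hF : ∀ q ∈ D.cell n p, ∀ d, |F n γ q d| ≤ Y0)
    (hep : 0 < ep) (hthr : 0 < thr) (hN : 4 * Y0 ^ 2 / (ep ^ 2 * thr) < N) (τ : ι → Bool) :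
    ∑ q ∈ D.cell n p, ind (ep ≤ (D.J n γ).E (fun d =>
      RH D S ep Y Y0 thr N n2 F n γ q d * S.val τ q d)) ≤ thr * (D.cell n p).card := by
  have h1 := hnode_end (ep := ep) (Y := Y) (thr := thr) (val := S.val) (F := F n γ) (Q := D.J n γ) (C := D.cell n p)
    ⟨p, D.self n p⟩ hY hep hthr (fun τ q _ d => abs_val S τ q d) n (preH D S ep Y Y0 thr N n2 F n γ)
    (fun q hq => preH_pot D S hY n γ q (hF q hq)) hN
  refine (le_of_eq ?_).trans (not_hhit h1 τ)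
  refine Finset.sum_congr rfl (fun q hq => ?_)
  unfold RH
  rw [lstH_eq_cell D S n γ hq]

/-- **(P1)** : the product test with `4 ep` at every node, after the moves, for bounded tests -/
theorem RH_P1 [Fintype ι] (n : ℕ) (γ : Gam n) (p : P) (hY : 0 ≤ Y) (hF : ∀ q ∈ D.cell n p, ∀ d, |F n γ q d| ≤ Y0)
    (hep : 0 < ep) (hthr : 0 < thr) (hN : 4 * Y0 ^ 2 / (ep ^ 2 * thr) < N) (x : ι → ℝ) (hx : ∀ i, |x i| ≤ 1) :
    3 * ep * ∑ q ∈ D.cell n p, ind (4 * ep ≤ |(D.J n γ).E (fun d =>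
      RH D S ep Y Y0 thr N n2 F n γ q d * S.test x q d)|) ≤
      2 * Y * (thr * (D.cell n p).card) := by
  refine rounding_absY S.aff S.neg (D.J n γ) (fun q d => RH D S ep Y Y0 thr N n2 F n γ q d)
    (D.cell n p) hep hY (fun q _ d => abs_RH D S hY n γ q d) (fun e he q _ d => ?_) (fun e he => ?_) x hx
  · have h := S.sq e he q d
    rw [← sq_abs] at h
    nlinarith [abs_nonneg (S.test e q d)]
  · obtain ⟨τ, hτ⟩ := exists_sgn e he
    have h := RH_P1sign D S (Y := Y) (n2 := n2) n γ p hY hF hep hthr hN τ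
    have h5 : ∀ q d, S.val τ q d = S.test e q d := by
      intro q d
      unfold Tests.val
      rw [hτ]
    simp only [h5] at h
    exact h

/-- every public birth is thick -/
theorem pubsH_thick (n : ℕ) (γ : Gam n) (p : P) :
    thr * (D.cell n p).card * pubsH D S ep Y Y0 thr N n2 F n γ p ≤
      ∑ q ∈ D.cell n p, ((lstH D S ep Y Y0 thr N n2 F n γ q).1.length -
        (preH D S ep Y Y0 thr N n2 F n γ q).1.length : ℝ) := by
  refine (hHit_le n (preH D S ep Y Y0 thr N n2 F n γ) N).trans (le_of_eq ?_)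
  refine Finset.sum_congr rfl (fun q hq => ?_)
  rw [lstH_eq_cell D S n γ hq]

/-- the state does not change without a public birth, a restart or a move -/
theorem lstH_still {n : ℕ} {γ : Gam (n + 1)} {p : P}
    (h1 : F (n + 1) γ p = F n (D.prev n γ) p) (h2 : ¬ rstH D S ep Y Y0 thr N n2 F n γ p)
    (h3 : (lstH D S ep Y Y0 thr N n2 F (n + 1) γ p).1.length =
      (lstH D S ep Y Y0 thr N n2 F n (D.prev n γ) p).1.length) :
    lstH D S ep Y Y0 thr N n2 F (n + 1) γ p = lstH D S ep Y Y0 thr N n2 F n (D.prev n γ) p := by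
  have hpre : preH D S ep Y Y0 thr N n2 F (n + 1) γ p = lstH D S ep Y Y0 thr N n2 F n (D.prev n γ) p := by
    show hpreS ep Y Y0 n2 S.val _ _ _ _ p = _
    unfold hpreS
    rw [if_neg]
    rintro (h | h)
    · exact h h1
    · exact h2 ⟨h1, h⟩
  have h4 := (lstH_suffix D S (ep := ep) (Y := Y) (Y0 := Y0) (thr := thr) (N := N) (n2 := n2) (F := F) n γ p)
  have h5 := h4.eq_of_length h3.symm
  have h6 := hnode_snd (ep := ep) (Y := Y) (thr := thr) (val := S.val) (F := F (n + 1) γ) (Q := D.J (n + 1) γ)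
    (C := D.cell (n + 1) p) (n + 1) (preH D S ep Y Y0 thr N n2 F (n + 1) γ) N p
  rw [← lstH_eq, hpre] at h6
  refine Prod.ext h5.symm ?_
  omega

end static

/-! ### the free law of a point -/

section free

variable {Om : Type*} [Fintype Om] {Pm : FP Om} {κ : ℕ → Type*} {X : ∀ n, Om → κ n} {Nm : ℕ}
  {D : Nodes P V Gam} (A : Free D Pm X 0 Nm) (S : Tests ι P V) {ep Y Y0 thr : ℝ} {N n2 : ℕ}
  {F : ∀ n, Gam n → P → V → ℝ}

/-- exact windows = rounded windows in the mean -/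
theorem W_eq (n : ℕ) (w : Om) (h : V → ℝ) : (A.W n w).E h = (D.J n (A.g n w)).E h := by
  have hK : ∃ K : ℝ, ∀ d, |h d| ≤ K := by
    rcases isEmpty_or_nonempty V with hV | hV
    · exact ⟨0, fun d => (hV.false d).elim⟩
    · obtain ⟨K, hK⟩ := (Set.finite_range (fun d => |h d|)).bddAbove
      exact ⟨K, fun d => hK ⟨d, rfl⟩⟩
  obtain ⟨K, hK⟩ := hK
  have h1 := A.close n w h K hK
  rw [zero_mul] at h1
  have h2 := abs_nonpos_iff.1 h1
  linarith

/-- the length of the cumulative list of the random point -/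
def lenH (A : Free D Pm X 0 Nm) (S : Tests ι P V) (ep Y Y0 thr : ℝ) (N n2 : ℕ) (F : ∀ n, Gam n → P → V → ℝ) (n : ℕ)
    (w : Om) : ℝ := (lstH D S ep Y Y0 thr N n2 F n (A.g n w) (A.pr w)).1.length

/-- a restart of the random point, without a move -/
def rsH (A : Free D Pm X 0 Nm) (S : Tests ι P V) (ep Y Y0 thr : ℝ) (N n2 : ℕ) (F : ∀ n, Gam n → P → V → ℝ) (n : ℕ)
    (w : Om) : Prop := rstH D S ep Y Y0 thr N n2 F n (A.g (n + 1) w) (A.pr w)

/-- the potential of the random point -/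
def enH (A : Free D Pm X 0 Nm) (S : Tests ι P V) (ep Y Y0 thr : ℝ) (N n2 : ℕ) (F : ∀ n, Gam n → P → V → ℝ) (n : ℕ)
    (w : Om) : ℝ := lpot ep Y S.val (F n (A.g n w)) (D.J n (A.g n w))
      (cur (lstH D S ep Y Y0 thr N n2 F n (A.g n w) (A.pr w))) (A.pr w)

/-- the length of the current part of the random point -/
def crH (A : Free D Pm X 0 Nm) (S : Tests ι P V) (ep Y Y0 thr : ℝ) (N n2 : ℕ) (F : ∀ n, Gam n → P → V → ℝ) (n : ℕ)
    (w : Om) : ℝ := (lstH D S ep Y Y0 thr N n2 F n (A.g n w) (A.pr w)).2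

theorem lenH_mono (n : ℕ) (w : Om) : lenH A S ep Y Y0 thr N n2 F n w ≤ lenH A S ep Y Y0 thr N n2 F (n + 1) w := by
  unfold lenH
  have h := lstH_suffix D S (ep := ep) (Y := Y) (Y0 := Y0) (thr := thr) (N := N) (n2 := n2) (F := F) n
    (A.g (n + 1) w) (A.pr w)
  rw [A.gprev] at h
  exact_mod_cast h.length_le

theorem preH_len (n : ℕ) (w : Om) :
    ((preH D S ep Y Y0 thr N n2 F (n + 1) (A.g (n + 1) w) (A.pr w)).1.length : ℝ) = lenH A S ep Y Y0 thr N n2 F n w := by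
  rw [preH_succ_fst, A.gprev]
  rfl

theorem lenH_jump (hF : ∀ n w d, |mvF A F n w d| ≤ Y0) (hY : 0 ≤ Y) (hep : 0 < ep) (n : ℕ) (w : Om) :
    lenH A S ep Y Y0 thr N n2 F (n + 1) w - lenH A S ep Y Y0 thr N n2 F n w ≤ 4 * Y0 ^ 2 / ep ^ 2 := by
  have h := lstH_jump D S (thr := thr) (N := N) (n2 := n2) hY hep (n + 1) (A.g (n + 1) w) (A.pr w) (hF (n + 1) w)
  rw [preH_len] at h
  exact h

theorem lenH_zero (hF : ∀ n w d, |mvF A F n w d| ≤ Y0) (hY : 0 ≤ Y) (hep : 0 < ep) (w : Om) :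
    lenH A S ep Y Y0 thr N n2 F 0 w ≤ 4 * Y0 ^ 2 / ep ^ 2 := by
  have h := lstH_jump D S (thr := thr) (N := N) (n2 := n2) hY hep 0 (A.g 0 w) (A.pr w) (hF 0 w)
  have h0 : ((preH D S ep Y Y0 thr N n2 F 0 (A.g 0 w) (A.pr w)).1.length : ℝ) = 0 := by
    show (([] : List (Birth (ι → Bool))).length : ℝ) = 0
    simp
  rw [h0, sub_zero] at h
  exact h

theorem stH_fac (n : ℕ) : Fac (X n) (fun w => lstH D S ep Y Y0 thr N n2 F n (A.g n w) (A.pr w)) := by
  intro v w hvw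
  show lstH D S ep Y Y0 thr N n2 F n (A.g n v) (A.pr v) = lstH D S ep Y Y0 thr N n2 F n (A.g n w) (A.pr w)
  rw [A.gX n v w hvw, A.prX n v w hvw]

theorem lenH_fac (n : ℕ) : Fac (X n) (lenH A S ep Y Y0 thr N n2 F n) := by
  intro v w hvw
  unfold lenH
  rw [A.gX n v w hvw, A.prX n v w hvw]

theorem crH_fac (n : ℕ) : Fac (X n) (crH A S ep Y Y0 thr N n2 F n) := by
  intro v w hvw
  unfold crH
  rw [A.gX n v w hvw, A.prX n v w hvw]

/-- the Lyapunov function: potential + `a` times the length of the current part, `a = 4 Y0 ^ 2 / n2` -/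
def lyH (A : Free D Pm X 0 Nm) (S : Tests ι P V) (ep Y Y0 thr : ℝ) (N n2 : ℕ) (F : ∀ n, Gam n → P → V → ℝ) (n : ℕ)
    (w : Om) : ℝ := enH A S ep Y Y0 thr N n2 F n w + 4 * Y0 ^ 2 / n2 * crH A S ep Y Y0 thr N n2 F n w

theorem lyH_nonneg (hY : 0 ≤ Y) (n : ℕ) (w : Om) : 0 ≤ lyH A S ep Y Y0 thr N n2 F n w :=
  add_nonneg (lpot_nonneg hY _ _) (mul_nonneg (by positivity) (Nat.cast_nonneg _))

/-- the births of one node -/
theorem ly_node (hY : 0 ≤ Y) (hep : 0 < ep) (hn2 : 8 * Y0 ^ 2 / ep ^ 2 ≤ n2) (h2 : 0 < n2) (n : ℕ) (γ : Gam n) (p : P) :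
    lpot ep Y S.val (F n γ) (D.J n γ) (cur (lstH D S ep Y Y0 thr N n2 F n γ p)) p +
      4 * Y0 ^ 2 / n2 * (lstH D S ep Y Y0 thr N n2 F n γ p).2 +
      ep ^ 2 / 2 * ((lstH D S ep Y Y0 thr N n2 F n γ p).1.length -
        (preH D S ep Y Y0 thr N n2 F n γ p).1.length : ℝ) ≤
      lpot ep Y S.val (F n γ) (D.J n γ) (cur (preH D S ep Y Y0 thr N n2 F n γ p)) p +
        4 * Y0 ^ 2 / n2 * (preH D S ep Y Y0 thr N n2 F n γ p).2 := by
  have h1 := lpot_hnode (thr := thr) (F := F n γ) (Q := D.J n γ) (C := D.cell n p) (p := p) (val := S.val) hY hep.le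
    (fun τ d => abs_val S τ p d) n (preH D S ep Y Y0 thr N n2 F n γ) N
  have h3 := hnode_snd (ep := ep) (Y := Y) (thr := thr) (val := S.val) (F := F n γ) (Q := D.J n γ)
    (C := D.cell n p) n (preH D S ep Y Y0 thr N n2 F n γ) N p
  rw [← lstH_eq] at h1 h3
  have h4 : ((lstH D S ep Y Y0 thr N n2 F n γ p).2 : ℝ) + (preH D S ep Y Y0 thr N n2 F n γ p).1.length =
    (preH D S ep Y Y0 thr N n2 F n γ p).2 + (lstH D S ep Y Y0 thr N n2 F n γ p).1.length := by exact_mod_cast h3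
  have hlen : (0 : ℝ) ≤ (lstH D S ep Y Y0 thr N n2 F n γ p).1.length -
      (preH D S ep Y Y0 thr N n2 F n γ p).1.length := by
    have h5 : ((preH D S ep Y Y0 thr N n2 F n γ p).1.length : ℝ) ≤ (lstH D S ep Y Y0 thr N n2 F n γ p).1.length := by
      exact_mod_cast preH_length_le D S n γ p
    linarith
  have hn : (0 : ℝ) < n2 := by exact_mod_cast h2
  have ha : 4 * Y0 ^ 2 / n2 ≤ ep ^ 2 / 2 := by
    rw [div_le_iff₀ (by positivity)] at hn2
    rw [div_le_iff₀ hn]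
    nlinarith
  set b : ℝ := (lstH D S ep Y Y0 thr N n2 F n γ p).1.length - (preH D S ep Y Y0 thr N n2 F n γ p).1.length with hb
  have h6 : ((lstH D S ep Y Y0 thr N n2 F n γ p).2 : ℝ) = (preH D S ep Y Y0 thr N n2 F n γ p).2 + b := by
    rw [hb]; linarith
  rw [h6]
  have h7 := mul_le_mul_of_nonneg_right ha hlen
  nlinarith

/-- the restart step: moves cost `Y0 ^ 2`, restarts without a move gain `3 Y0 ^ 2` -/
theorem ly_pre (hY : 0 ≤ Y) (h2 : 0 < n2) {n : ℕ} {γ : Gam (n + 1)} {p : P}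
    (hF1 : ∀ d, |F (n + 1) γ p d| ≤ Y0) :
    lpot ep Y S.val (F (n + 1) γ) (D.J (n + 1) γ) (cur (preH D S ep Y Y0 thr N n2 F (n + 1) γ p)) p +
        4 * Y0 ^ 2 / n2 * (preH D S ep Y Y0 thr N n2 F (n + 1) γ p).2 +
        3 * Y0 ^ 2 * ind (rstH D S ep Y Y0 thr N n2 F n γ p) ≤
      lpot ep Y S.val (F n (D.prev n γ)) (D.J (n + 1) γ) (cur (lstH D S ep Y Y0 thr N n2 F n (D.prev n γ) p)) p +
        4 * Y0 ^ 2 / n2 * (lstH D S ep Y Y0 thr N n2 F n (D.prev n γ) p).2 +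
        Y0 ^ 2 * ind (F (n + 1) γ p ≠ F n (D.prev n γ) p) := by
  have hn : (0 : ℝ) < n2 := by exact_mod_cast h2
  set s := lstH D S ep Y Y0 thr N n2 F n (D.prev n γ) p with hs
  have hnil := lpot_nil (ep := ep) (Q := D.J (n + 1) γ) (val := S.val) hY hF1
  have hnn : 0 ≤ lpot ep Y S.val (F n (D.prev n γ)) (D.J (n + 1) γ) (cur s) p := lpot_nonneg hY _ _
  have ha : (0 : ℝ) ≤ 4 * Y0 ^ 2 / n2 * s.2 := by positivity
  by_cases hmv : F (n + 1) γ p = F n (D.prev n γ) p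
  · -- no move
    have hU : lpot ep Y S.val (F (n + 1) γ) (D.J (n + 1) γ) (cur s) p =
        lpot ep Y S.val (F n (D.prev n γ)) (D.J (n + 1) γ) (cur s) p := by
      unfold lpot
      rw [hmv]
    have e0 : ind (F (n + 1) γ p ≠ F n (D.prev n γ) p) = 0 := ind_not (fun h => h hmv)
    rw [e0, mul_zero, add_zero]
    by_cases hr : rstH D S ep Y Y0 thr N n2 F n γ p
    · have hpre : preH D S ep Y Y0 thr N n2 F (n + 1) γ p = (s.1, 0) := by
        show hpreS ep Y Y0 n2 S.val _ _ _ _ p = _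
        unfold hpreS
        rw [if_pos (Or.inr hr.2)]
      rw [hpre, cur_zero, ind_of hr]
      simp only [Nat.cast_zero, mul_zero, add_zero, mul_one]
      rcases hr.2 with h | h
      · rw [← hs, hU] at h
        linarith
      · rw [← hs] at h
        have h5 : (n2 : ℝ) ≤ s.2 := by exact_mod_cast h.le
        have h6 : 4 * Y0 ^ 2 ≤ 4 * Y0 ^ 2 / n2 * s.2 := by
          calc 4 * Y0 ^ 2 = 4 * Y0 ^ 2 / n2 * n2 := by field_simp
            _ ≤ _ := mul_le_mul_of_nonneg_left h5 (by positivity)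
        linarith
    · have hpre : preH D S ep Y Y0 thr N n2 F (n + 1) γ p = s := by
        show hpreS ep Y Y0 n2 S.val _ _ _ _ p = _
        unfold hpreS
        rw [if_neg]
        rintro (h | h)
        · exact h hmv
        · exact hr ⟨hmv, h⟩
      rw [hpre, ind_not hr, hU]
      linarith
  · have hr : ¬ rstH D S ep Y Y0 thr N n2 F n γ p := fun h => hmv h.1
    have hpre : preH D S ep Y Y0 thr N n2 F (n + 1) γ p = (s.1, 0) := by
      show hpreS ep Y Y0 n2 S.val _ _ _ _ p = _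
      unfold hpreS
      rw [if_pos (Or.inl hmv)]
    rw [hpre, cur_zero, ind_not hr, ind_of hmv]
    simp only [Nat.cast_zero, mul_zero, add_zero, mul_one]
    linarith

/-- one step of the Lyapunov function -/
theorem stepH (hF : ∀ n w d, |mvF A F n w d| ≤ Y0) (hY : 0 ≤ Y) (hep : 0 < ep) (hn2 : 8 * Y0 ^ 2 / ep ^ 2 ≤ n2)
    (h2 : 0 < n2) {n : ℕ} (hn : n < Nm) {w : Om} (hw : Pm.p w ≠ 0) :
    Pm.ce (X n) (fun v => lyH A S ep Y Y0 thr N n2 F (n + 1) v + ep ^ 2 / 2 * lenH A S ep Y Y0 thr N n2 F (n + 1) v +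
        3 * Y0 ^ 2 * ind (rsH A S ep Y Y0 thr N n2 F n v)) w ≤
      lyH A S ep Y Y0 thr N n2 F n w + ep ^ 2 / 2 * lenH A S ep Y Y0 thr N n2 F n w +
        Y0 ^ 2 * Pm.ce (X n) (fun v => ind (mvF A F (n + 1) v ≠ mvF A F n v)) w := by
  have hfac : Fac (X n) (fun v => (fun d => hub Y (F n (A.g n v) (A.pr v) d -
      lsum ep S.val (cur (lstH D S ep Y Y0 thr N n2 F n (A.g n v) (A.pr v))) (A.pr v) d) : V → ℝ)) := by
    intro v u hvu
    show (fun d => _) = (fun d => _)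
    rw [A.gX n v u hvu, A.prX n v u hvu]
  have h1 := A.mart n hn _ hfac w hw
  have h3 : Pm.ce (X n) (fun v => lyH A S ep Y Y0 thr N n2 F (n + 1) v +
        ep ^ 2 / 2 * lenH A S ep Y Y0 thr N n2 F (n + 1) v +
        3 * Y0 ^ 2 * ind (rsH A S ep Y Y0 thr N n2 F n v)) w ≤
      Pm.ce (X n) (fun v => (A.W (n + 1) v).E (fun d => hub Y (F n (A.g n v) (A.pr v) d -
          lsum ep S.val (cur (lstH D S ep Y Y0 thr N n2 F n (A.g n v) (A.pr v))) (A.pr v) d)) +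
        (4 * Y0 ^ 2 / n2 * crH A S ep Y Y0 thr N n2 F n v + ep ^ 2 / 2 * lenH A S ep Y Y0 thr N n2 F n v) +
          Y0 ^ 2 * ind (mvF A F (n + 1) v ≠ mvF A F n v)) w := by
    refine Pm.ce_mono (fun v _ => ?_) w
    have h4 := ly_node S (D := D) (thr := thr) (N := N) (F := F) hY hep hn2 h2 (n + 1) (A.g (n + 1) v) (A.pr v)
    have h5 := ly_pre S (D := D) (ep := ep) (thr := thr) (N := N) (n2 := n2) (F := F) hY h2 (hF (n + 1) v)
    rw [preH_len] at h4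
    rw [A.gprev] at h5
    rw [W_eq A]
    have e1 : lyH A S ep Y Y0 thr N n2 F (n + 1) v =
        lpot ep Y S.val (F (n + 1) (A.g (n + 1) v)) (D.J (n + 1) (A.g (n + 1) v))
          (cur (lstH D S ep Y Y0 thr N n2 F (n + 1) (A.g (n + 1) v) (A.pr v))) (A.pr v) +
        4 * Y0 ^ 2 / n2 * (lstH D S ep Y Y0 thr N n2 F (n + 1) (A.g (n + 1) v) (A.pr v)).2 := rfl
    have e2 : lenH A S ep Y Y0 thr N n2 F (n + 1) v =
        (lstH D S ep Y Y0 thr N n2 F (n + 1) (A.g (n + 1) v) (A.pr v)).1.length := rfl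
    have e3 : lpot ep Y S.val (F n (A.g n v)) (D.J (n + 1) (A.g (n + 1) v))
          (cur (lstH D S ep Y Y0 thr N n2 F n (A.g n v) (A.pr v))) (A.pr v) =
        (D.J (n + 1) (A.g (n + 1) v)).E (fun d => hub Y (F n (A.g n v) (A.pr v) d -
          lsum ep S.val (cur (lstH D S ep Y Y0 thr N n2 F n (A.g n v) (A.pr v))) (A.pr v) d)) := rfl
    have e4 : (crH A S ep Y Y0 thr N n2 F n v : ℝ) =
        (lstH D S ep Y Y0 thr N n2 F n (A.g n v) (A.pr v)).2 := rfl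
    have e5 : ind (mvF A F (n + 1) v ≠ mvF A F n v) =
        ind (F (n + 1) (A.g (n + 1) v) (A.pr v) ≠ F n (A.g n v) (A.pr v)) := rfl
    have e6 : ind (rsH A S ep Y Y0 thr N n2 F n v) =
        ind (rstH D S ep Y Y0 thr N n2 F n (A.g (n + 1) v) (A.pr v)) := rfl
    rw [e1, e2, e4, e5, e6, ← e3]
    rw [mul_sub] at h4
    linarith
  refine h3.trans (le_of_eq ?_)
  rw [Pm.ce_add, Pm.ce_add, h1, Pm.ce_smul]
  congr 1
  have hcf : Fac (X n) (fun v => 4 * Y0 ^ 2 / (n2 : ℝ) * crH A S ep Y Y0 thr N n2 F n v +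
      ep ^ 2 / 2 * lenH A S ep Y Y0 thr N n2 F n v) := by
    intro v u h
    show 4 * Y0 ^ 2 / (n2 : ℝ) * crH A S ep Y Y0 thr N n2 F n v + ep ^ 2 / 2 * lenH A S ep Y Y0 thr N n2 F n v = _
    rw [crH_fac A S n v u h, lenH_fac A S n v u h]
  rw [Pm.ce_of_fac hcf hw, W_eq A]
  unfold lyH enH lpot
  ring

/-- the Lyapunov function of every state -/
theorem lyH_le (hF : ∀ n w d, |mvF A F n w d| ≤ Y0) (hY : 0 ≤ Y) (hep : 0 < ep) (hn2 : 8 * Y0 ^ 2 / ep ^ 2 ≤ n2)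
    (h2 : 0 < n2) (n : ℕ) (w : Om) : lyH A S ep Y Y0 thr N n2 F n w ≤ 10 * Y0 ^ 2 := by
  have hn : (0 : ℝ) < n2 := by exact_mod_cast h2
  have h1 : enH A S ep Y Y0 thr N n2 F n w ≤ 4 * Y0 ^ 2 := lstH_pot D S hY hep.le n _ _ (hF n w)
  have h3 := lstH_cur_le D S (thr := thr) (N := N) (n2 := n2) hY hep n (A.g n w) (A.pr w) (hF n w)
  rw [cur_lstH_length] at h3
  have h4 : crH A S ep Y Y0 thr N n2 F n w ≤ 3 / 2 * n2 := by
    unfold crH
    have : 4 * Y0 ^ 2 / ep ^ 2 = (8 * Y0 ^ 2 / ep ^ 2) / 2 := by ring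
    rw [this] at h3
    linarith
  have h5 : 4 * Y0 ^ 2 / n2 * crH A S ep Y Y0 thr N n2 F n w ≤ 4 * Y0 ^ 2 / n2 * (3 / 2 * n2) :=
    mul_le_mul_of_nonneg_left h4 (by positivity)
  have h6 : 4 * Y0 ^ 2 / n2 * (3 / 2 * (n2 : ℝ)) = 6 * Y0 ^ 2 := by
    field_simp
    ring
  unfold lyH
  linarith

/-- **the mean of `Lyapunov + births + restarts` increases at most by `Y0 ^ 2` per move, on an event of the time `n`** -/
theorem futH (hF : ∀ n w d, |mvF A F n w d| ≤ Y0) (hY : 0 ≤ Y) (hep : 0 < ep) (hn2 : 8 * Y0 ^ 2 / ep ^ 2 ≤ n2)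
    (h2 : 0 < n2) {n : ℕ} {f : Om → ℝ} (hf : Fac (X n) f) (hf0 : ∀ w, 0 ≤ f w) {k : ℕ} (hnk : n ≤ k) (hk : k ≤ Nm) :
    Pm.E (fun w => f w * (lyH A S ep Y Y0 thr N n2 F k w + ep ^ 2 / 2 * lenH A S ep Y Y0 thr N n2 F k w +
        3 * Y0 ^ 2 * ∑ u ∈ Finset.Ico n k, ind (rsH A S ep Y Y0 thr N n2 F u w))) ≤
      Pm.E (fun w => f w * (lyH A S ep Y Y0 thr N n2 F n w + ep ^ 2 / 2 * lenH A S ep Y Y0 thr N n2 F n w)) +
        Y0 ^ 2 * ∑ u ∈ Finset.Ico n k, Pm.E (fun w => f w * ind (mvF A F (u + 1) w ≠ mvF A F u w)) := by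
  induction k, hnk using Nat.le_induction with
  | base => simp
  | succ k hnk ih =>
    have hf' : Fac (X k) f := (A.filt.le hnk).trans hf
    have h1 : Pm.E (fun w => f w * (lyH A S ep Y Y0 thr N n2 F (k + 1) w +
          ep ^ 2 / 2 * lenH A S ep Y Y0 thr N n2 F (k + 1) w +
          3 * Y0 ^ 2 * ind (rsH A S ep Y Y0 thr N n2 F k w))) ≤
        Pm.E (fun w => f w * (lyH A S ep Y Y0 thr N n2 F k w + ep ^ 2 / 2 * lenH A S ep Y Y0 thr N n2 F k w)) +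
          Y0 ^ 2 * Pm.E (fun w => f w * ind (mvF A F (k + 1) w ≠ mvF A F k w)) := by
      rw [← Pm.E_mul_ce hf', ← Pm.E_mul_ce hf' (fun w => ind (mvF A F (k + 1) w ≠ mvF A F k w)), ← Pm.E_smul,
        ← Pm.E_add]
      refine Pm.E_mono (fun w hw => ?_)
      have := mul_le_mul_of_nonneg_left (stepH A S (thr := thr) (N := N) (n := k) hF hY hep hn2 h2 (by omega) hw)
        (hf0 w)
      rw [mul_add] at this
      linarith
    have h3 := ih (by omega)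
    rw [Finset.sum_Ico_succ_top hnk, mul_add]
    have e1 : Pm.E (fun w => f w * (lyH A S ep Y Y0 thr N n2 F (k + 1) w +
          ep ^ 2 / 2 * lenH A S ep Y Y0 thr N n2 F (k + 1) w +
          3 * Y0 ^ 2 * ∑ u ∈ Finset.Ico n (k + 1), ind (rsH A S ep Y Y0 thr N n2 F u w))) =
        Pm.E (fun w => f w * (lyH A S ep Y Y0 thr N n2 F (k + 1) w +
          ep ^ 2 / 2 * lenH A S ep Y Y0 thr N n2 F (k + 1) w +
          3 * Y0 ^ 2 * ind (rsH A S ep Y Y0 thr N n2 F k w))) +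
        Pm.E (fun w => f w * (3 * Y0 ^ 2 * ∑ u ∈ Finset.Ico n k, ind (rsH A S ep Y Y0 thr N n2 F u w))) := by
      rw [← Pm.E_add]
      refine Pm.E_congr fun w _ => ?_
      rw [Finset.sum_Ico_succ_top hnk]
      ring
    have e2 : Pm.E (fun w => f w * (lyH A S ep Y Y0 thr N n2 F k w + ep ^ 2 / 2 * lenH A S ep Y Y0 thr N n2 F k w +
        3 * Y0 ^ 2 * ∑ u ∈ Finset.Ico n k, ind (rsH A S ep Y Y0 thr N n2 F u w))) =
        Pm.E (fun w => f w * (lyH A S ep Y Y0 thr N n2 F k w + ep ^ 2 / 2 * lenH A S ep Y Y0 thr N n2 F k w)) +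
        Pm.E (fun w => f w * (3 * Y0 ^ 2 * ∑ u ∈ Finset.Ico n k, ind (rsH A S ep Y Y0 thr N n2 F u w))) := by
      rw [← Pm.E_add]
      refine Pm.E_congr fun w _ => ?_
      ring
    rw [e1]
    rw [e2] at h3
    linarith

theorem startH (hF : ∀ n w d, |mvF A F n w d| ≤ Y0) (hY : 0 ≤ Y) (hep : 0 < ep) (hn2 : 8 * Y0 ^ 2 / ep ^ 2 ≤ n2)
    (h2 : 0 < n2) (w : Om) :
    lyH A S ep Y Y0 thr N n2 F 0 w + ep ^ 2 / 2 * lenH A S ep Y Y0 thr N n2 F 0 w ≤ Y0 ^ 2 := by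
  have h1 := ly_node S (D := D) (thr := thr) (N := N) (F := F) hY hep hn2 h2 0 (A.g 0 w) (A.pr w)
  have h0 : preH D S ep Y Y0 thr N n2 F 0 (A.g 0 w) (A.pr w) = ([], 0) := rfl
  rw [h0, cur_zero] at h1
  have h3 := lpot_nil (ep := ep) (Q := D.J 0 (A.g 0 w)) (val := S.val) hY (hF 0 w)
  simp only [List.length_nil, Nat.cast_zero, sub_zero, mul_zero, add_zero] at h1
  unfold lyH enH crH lenH
  have h4 : lpot ep Y S.val (F 0 (A.g 0 w)) (D.J 0 (A.g 0 w)) [] (A.pr w) ≤ Y0 ^ 2 := h3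
  linarith

/-- **births and restarts in the future of every state** -/
theorem futureH_le (hF : ∀ n w d, |mvF A F n w d| ≤ Y0) (hY : 0 ≤ Y) (hep : 0 < ep) (hn2 : 8 * Y0 ^ 2 / ep ^ 2 ≤ n2)
    (h2 : 0 < n2) {m0 : ℝ} (hM : MovB A F m0) {n : ℕ} (hn : n ≤ Nm) {f : Om → ℝ} (hf : Fac (X n) f)
    (hf0 : ∀ w, 0 ≤ f w) :
    Pm.E (fun w => f w * (ep ^ 2 / 2 * (lenH A S ep Y Y0 thr N n2 F Nm w - lenH A S ep Y Y0 thr N n2 F n w) +
        3 * Y0 ^ 2 * ∑ u ∈ Finset.Ico n Nm, ind (rsH A S ep Y Y0 thr N n2 F u w))) ≤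
      (10 + m0) * Y0 ^ 2 * Pm.E f := by
  have h1 := futH A S (thr := thr) (N := N) hF hY hep hn2 h2 hf hf0 hn le_rfl
  have h5 := hM n f hf hf0
  have h3 : Pm.E (fun w => f w * (ep ^ 2 / 2 * (lenH A S ep Y Y0 thr N n2 F Nm w - lenH A S ep Y Y0 thr N n2 F n w) +
        3 * Y0 ^ 2 * ∑ u ∈ Finset.Ico n Nm, ind (rsH A S ep Y Y0 thr N n2 F u w))) ≤
      Pm.E (fun w => f w * (lyH A S ep Y Y0 thr N n2 F Nm w + ep ^ 2 / 2 * lenH A S ep Y Y0 thr N n2 F Nm w +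
        3 * Y0 ^ 2 * ∑ u ∈ Finset.Ico n Nm, ind (rsH A S ep Y Y0 thr N n2 F u w))) -
      Pm.E (fun w => f w * (lyH A S ep Y Y0 thr N n2 F n w + ep ^ 2 / 2 * lenH A S ep Y Y0 thr N n2 F n w)) +
      Pm.E (fun w => f w * (10 * Y0 ^ 2)) := by
    rw [← FP.E_sub, ← Pm.E_add]
    refine Pm.E_mono fun w _ => ?_
    have h6 := lyH_nonneg A S (ep := ep) (Y0 := Y0) (thr := thr) (N := N) (n2 := n2) (F := F) hY Nm w
    have h7 := lyH_le A S (thr := thr) (N := N) hF hY hep hn2 h2 n w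
    have h8 := mul_le_mul_of_nonneg_left h7 (hf0 w)
    have h9 := mul_nonneg (hf0 w) h6
    nlinarith
  rw [Pm.E_mul_const] at h3
  have h6 := mul_le_mul_of_nonneg_left h5 (sq_nonneg Y0)
  nlinarith

/-- mean number of births and restarts -/
theorem birthsH_le (hF : ∀ n w d, |mvF A F n w d| ≤ Y0) (hY : 0 ≤ Y) (hep : 0 < ep) (hn2 : 8 * Y0 ^ 2 / ep ^ 2 ≤ n2)
    (h2 : 0 < n2) {m0 : ℝ} (hM : MovB A F m0) :
    Pm.E (fun w => ep ^ 2 / 2 * lenH A S ep Y Y0 thr N n2 F Nm w +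
        3 * Y0 ^ 2 * ∑ u ∈ Finset.range Nm, ind (rsH A S ep Y Y0 thr N n2 F u w)) ≤ (1 + m0) * Y0 ^ 2 := by
  have h1 := futH A S (thr := thr) (N := N) hF hY hep hn2 h2 (n := 0) (Fac.const (X 0) (1 : ℝ))
    (fun _ => zero_le_one) (Nat.zero_le Nm) le_rfl
  have h5 := hM 0 (fun _ => (1 : ℝ)) (Fac.const (X 0) (1 : ℝ)) (fun _ => zero_le_one)
  rw [Pm.E_const, mul_one] at h5
  simp only [one_mul] at h1 h5
  have h3 : Pm.E (fun w => lyH A S ep Y Y0 thr N n2 F 0 w + ep ^ 2 / 2 * lenH A S ep Y Y0 thr N n2 F 0 w) ≤ Y0 ^ 2 :=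
    Pm.E_le_const (fun w _ => startH A S hF hY hep hn2 h2 w)
  have h4 : Pm.E (fun w => ep ^ 2 / 2 * lenH A S ep Y Y0 thr N n2 F Nm w +
        3 * Y0 ^ 2 * ∑ u ∈ Finset.range Nm, ind (rsH A S ep Y Y0 thr N n2 F u w)) ≤
      Pm.E (fun w => lyH A S ep Y Y0 thr N n2 F Nm w + ep ^ 2 / 2 * lenH A S ep Y Y0 thr N n2 F Nm w +
        3 * Y0 ^ 2 * ∑ u ∈ Finset.Ico 0 Nm, ind (rsH A S ep Y Y0 thr N n2 F u w)) := by
    refine Pm.E_mono fun w _ => ?_
    rw [Finset.range_eq_Ico]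
    linarith [lyH_nonneg A S (ep := ep) (Y0 := Y0) (thr := thr) (N := N) (n2 := n2) (F := F) hY Nm w]
  have h6 := mul_le_mul_of_nonneg_left h5 (sq_nonneg Y0)
  linarith

/-- mean number of future births, on an event of the time `n` -/
theorem futureB_le (hF : ∀ n w d, |mvF A F n w d| ≤ Y0) (hY : 0 ≤ Y) (hep : 0 < ep) (hn2 : 8 * Y0 ^ 2 / ep ^ 2 ≤ n2)
    (h2 : 0 < n2) {m0 : ℝ} (hM : MovB A F m0) {n : ℕ} (hn : n ≤ Nm) {f : Om → ℝ} (hf : Fac (X n) f)
    (hf0 : ∀ w, 0 ≤ f w) :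
    Pm.E (fun w => f w * (lenH A S ep Y Y0 thr N n2 F Nm w - lenH A S ep Y Y0 thr N n2 F n w)) ≤
      2 * (10 + m0) * Y0 ^ 2 / ep ^ 2 * Pm.E f := by
  have h1 := futureH_le A S (thr := thr) (N := N) hF hY hep hn2 h2 hM hn hf hf0
  have h3 : ep ^ 2 / 2 * Pm.E (fun w => f w * (lenH A S ep Y Y0 thr N n2 F Nm w - lenH A S ep Y Y0 thr N n2 F n w)) ≤
      Pm.E (fun w => f w * (ep ^ 2 / 2 * (lenH A S ep Y Y0 thr N n2 F Nm w - lenH A S ep Y Y0 thr N n2 F n w) +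
        3 * Y0 ^ 2 * ∑ u ∈ Finset.Ico n Nm, ind (rsH A S ep Y Y0 thr N n2 F u w))) := by
    rw [← Pm.E_smul]
    refine Pm.E_mono fun w _ => ?_
    have h4 : 0 ≤ f w * (3 * Y0 ^ 2 * ∑ u ∈ Finset.Ico n Nm, ind (rsH A S ep Y Y0 thr N n2 F u w)) :=
      mul_nonneg (hf0 w) (mul_nonneg (by positivity) (Finset.sum_nonneg fun _ _ => ind_nonneg _))
    nlinarith
  rw [div_mul_eq_mul_div, le_div_iff₀ (by positivity)]
  nlinarith

/-- exponential tails of the number of births -/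
theorem tailH_le (hF : ∀ n w d, |mvF A F n w d| ≤ Y0) (hY : 0 ≤ Y) (hY0 : 0 < Y0) (hep : 0 < ep)
    (hn2 : 8 * Y0 ^ 2 / ep ^ 2 ≤ n2) (h2 : 0 < n2) {m0 : ℝ} (hm0 : 0 ≤ m0) (hM : MovB A F m0) (k : ℕ) :
    Pm.Pr (fun w => (k : ℝ) * (44 * (1 + m0) * Y0 ^ 2 / ep ^ 2) ≤ lenH A S ep Y Y0 thr N n2 F Nm w) ≤ (1 / 2) ^ k := by
  have h := Pm.tail_of_future A.filt (Z := lenH A S ep Y Y0 thr N n2 F) (fun n => lenH_fac A S n)
    (fun n w => lenH_mono A S n w) (j := 4 * Y0 ^ 2 / ep ^ 2) (K := 2 * (10 + m0) * Y0 ^ 2 / ep ^ 2)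
    (fun w => lenH_zero A S hF hY hep w) (fun n w => lenH_jump A S hF hY hep n w) (by positivity) Nm
    (fun n hn f hf hf0 => futureB_le A S hF hY hep hn2 h2 hM hn hf hf0) k
  refine le_trans (Pm.Pr_mono fun w _ hw => ?_) h
  refine le_trans (mul_le_mul_of_nonneg_left ?_ (Nat.cast_nonneg k)) hw
  have e1 : 4 * Y0 ^ 2 / ep ^ 2 + 2 * (2 * (10 + m0) * Y0 ^ 2 / ep ^ 2) = (44 + 4 * m0) * Y0 ^ 2 / ep ^ 2 := by ring
  rw [e1]
  refine div_le_div_of_nonneg_right ?_ (by positivity)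
  have : (0 : ℝ) ≤ Y0 ^ 2 := sq_nonneg _
  nlinarith

/-- the mean number of public births at the nodes of the path of the point -/
theorem pubsH_le (hF : ∀ n w d, |mvF A F n w d| ≤ Y0) (hY : 0 ≤ Y) (hep : 0 < ep) (hthr : 0 < thr)
    (hn2 : 8 * Y0 ^ 2 / ep ^ 2 ≤ n2) (h2 : 0 < n2) {m0 : ℝ} (hM : MovB A F m0)
    (hunif : ∀ n ≤ Nm, ∀ φ : P → Gam n → ℝ, Pm.E (fun w => φ (A.pr w) (A.g n w)) =
      Pm.E (fun w => (∑ q ∈ D.cell n (A.pr w), φ q (A.g n w)) / (D.cell n (A.pr w)).card)) :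
    Pm.E (fun w => ∑ n ∈ range (Nm + 1), (pubsH D S ep Y Y0 thr N n2 F n (A.g n w) (A.pr w) : ℝ)) ≤
      2 * (1 + m0) * Y0 ^ 2 / (ep ^ 2 * thr) := by
  have h1 : ∀ n ≤ Nm, thr * Pm.E (fun w => (pubsH D S ep Y Y0 thr N n2 F n (A.g n w) (A.pr w) : ℝ)) ≤
      Pm.E (fun w => ((lstH D S ep Y Y0 thr N n2 F n (A.g n w) (A.pr w)).1.length -
        (preH D S ep Y Y0 thr N n2 F n (A.g n w) (A.pr w)).1.length : ℝ)) := by
    intro n hn
    rw [hunif n hn (fun p γ => ((lstH D S ep Y Y0 thr N n2 F n γ p).1.length -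
      (preH D S ep Y Y0 thr N n2 F n γ p).1.length : ℝ)), ← Pm.E_smul]
    refine Pm.E_mono (fun w _ => ?_)
    have hc : (0 : ℝ) < (D.cell n (A.pr w)).card := by
      exact_mod_cast Finset.card_pos.2 ⟨_, D.self n (A.pr w)⟩
    rw [le_div_iff₀ hc]
    have h3 := pubsH_thick D S (ep := ep) (Y := Y) (Y0 := Y0) (thr := thr) (N := N) (n2 := n2) (F := F) n
      (A.g n w) (A.pr w)
    linarith
  have h4 : ∀ k ≤ Nm, ∀ w, ∑ n ∈ range (k + 1), ((lstH D S ep Y Y0 thr N n2 F n (A.g n w) (A.pr w)).1.length -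
        (preH D S ep Y Y0 thr N n2 F n (A.g n w) (A.pr w)).1.length : ℝ) = lenH A S ep Y Y0 thr N n2 F k w := by
    intro k hk w
    induction k with
    | zero =>
      rw [zero_add, Finset.sum_range_one]
      have h0 : preH D S ep Y Y0 thr N n2 F 0 (A.g 0 w) (A.pr w) = ([], 0) := rfl
      rw [h0]
      simp only [List.length_nil, Nat.cast_zero, sub_zero]
      rfl
    | succ k ih =>
      rw [Finset.sum_range_succ, ih (by omega), preH_len]
      unfold lenH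
      ring
  have h5 := birthsH_le A S (thr := thr) (N := N) hF hY hep hn2 h2 hM
  have h6 : ep ^ 2 / 2 * Pm.E (lenH A S ep Y Y0 thr N n2 F Nm) ≤ (1 + m0) * Y0 ^ 2 := by
    refine le_trans ?_ h5
    rw [← Pm.E_smul]
    refine Pm.E_mono fun w _ => ?_
    have : 0 ≤ 3 * Y0 ^ 2 * ∑ u ∈ Finset.range Nm, ind (rsH A S ep Y Y0 thr N n2 F u w) :=
      mul_nonneg (by positivity) (Finset.sum_nonneg fun _ _ => ind_nonneg _)
    linarith
  rw [Pm.E_sum]
  have h7 : thr * ∑ n ∈ range (Nm + 1), Pm.E (fun w => (pubsH D S ep Y Y0 thr N n2 F n (A.g n w) (A.pr w) : ℝ)) ≤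
      Pm.E (lenH A S ep Y Y0 thr N n2 F Nm) := by
    rw [Finset.mul_sum]
    calc ∑ n ∈ range (Nm + 1), thr * Pm.E (fun w => (pubsH D S ep Y Y0 thr N n2 F n (A.g n w) (A.pr w) : ℝ))
        ≤ ∑ n ∈ range (Nm + 1), Pm.E (fun w => ((lstH D S ep Y Y0 thr N n2 F n (A.g n w) (A.pr w)).1.length -
        (preH D S ep Y Y0 thr N n2 F n (A.g n w) (A.pr w)).1.length : ℝ)) :=
          Finset.sum_le_sum (fun n hn => h1 n (by have := Finset.mem_range.1 hn; omega))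
      _ = Pm.E (lenH A S ep Y Y0 thr N n2 F Nm) := by
          rw [← Pm.E_sum]
          exact Pm.E_congr (fun w _ => h4 Nm le_rfl w)
  rw [le_div_iff₀ (by positivity)]
  nlinarith [sq_nonneg ep]

end free

end

end Pool.Agent.GMM.Lin
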