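import Pool.Agent.GMM.LinRun
import Pool.Agent.GM.MovBirths
import Pool.Agent.GM.GSstr

/-!
# GMM/LinSys (helper28): one LINEAR (Huber) layer of a MOVING face in a geometry `Sys` (note 3991 (2), CS5a)

`Ψ` = a moving function of all vertices but `w`, `|Ψ| ≤ Y0`.  Level `Y`, accuracy `ep`, threshold `th`.
* `hLst` (state), `hCum` (cumulative list), `hCur` (current list), `hStr` (linear structured function), `hRes` (residual,
  clipped at `Y`);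
* `hStr_lin` : `hStr = ep ∑ (current births) ∏ msgn`;
* `hRes_rare` : `S.Rare Vj w hRes th (4 ep)`;
* `hRes_L1` (averaged windows), `hRes_L1J` (exact windows) : `L1` error at every point and node;
* `hCur_length` : at most `13 Y0 ^ 2 / ep ^ 2 + 2` current births, `abs_hStr`;
* `hLst_future` : births, restarts and moves from every state; `hRes_future`; `hBL` : the cumulative list is a `GS.BL`.
-/

set_option autoImplicit false
set_option linter.unusedSectionVars false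

namespace Pool.Agent.GMM.Lin

open Finset Pool.Agent.PWZ Pool.Agent.M3 Pool.Agent.M3.TS Pool.Agent.GMN Pool.Agent.GM Pool.Agent.GM.Mv Pool.Agent.GM.GS

noncomputable section

/-! ### the births of a node -/

section node

variable {P V T : Type*} [Fintype V] [Nonempty T] {ep Y thr : ℝ} {val : T → P → V → ℝ} {F : P → V → ℝ} {Q : FP V}
  {C : Finset P}

open Classical in
/-- the births of a node -/
def hnbs (ep Y thr : ℝ) (val : T → P → V → ℝ) (F : P → V → ℝ) (Q : FP V) (C : Finset P) (t : ℕ)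
    (L : P → Rc T) (K : ℕ) : Finset (Birth T) :=
  ((range K).filter (fun j => HHit ep Y thr val F Q C (hnode ep Y thr val F Q C t L j))).image
    (fun j => ⟨t, j, hborn ep Y thr val F Q C (hnode ep Y thr val F Q C t L j)⟩)

theorem card_hnbs (t : ℕ) (L : P → Rc T) (K : ℕ) :
    (hnbs ep Y thr val F Q C t L K).card ≤ hHit ep Y thr val F Q C t L K := by
  classical
  unfold hnbs hHit
  exact Finset.card_image_le

theorem hnbs_mono (t : ℕ) (L : P → Rc T) (K : ℕ) :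
    hnbs ep Y thr val F Q C t L K ⊆ hnbs ep Y thr val F Q C t L (K + 1) := by
  classical
  unfold hnbs
  refine Finset.image_subset_image (Finset.filter_subset_filter _ ?_)
  intro j hj
  rw [Finset.mem_range] at hj ⊢
  omega

theorem hnbs_time (t : ℕ) (L : P → Rc T) (K : ℕ) {b : Birth T}
    (hb : b ∈ hnbs ep Y thr val F Q C t L K) : b.t = t := by
  classical
  unfold hnbs at hb
  obtain ⟨j, _, rfl⟩ := Finset.mem_image.1 hb
  rfl

/-- every element of a list after the node was there before or is a birth of the node -/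
theorem mem_hnode (t : ℕ) (L : P → Rc T) (p : P) (b : Birth T) (K : ℕ) :
    b ∈ (hnode ep Y thr val F Q C t L K p).1 → b ∈ (L p).1 ∨ b ∈ hnbs ep Y thr val F Q C t L K := by
  classical
  induction K with
  | zero => exact fun hb => Or.inl hb
  | succ K ih =>
    intro hb
    have hb' : b ∈ (hstep ep Y thr val F Q C t K (hnode ep Y thr val F Q C t L K) p).1 := hb
    by_cases h : HHit ep Y thr val F Q C (hnode ep Y thr val F Q C t L K) ∧
        p ∈ hmem ep Y val F Q C (hnode ep Y thr val F Q C t L K)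
          (hborn ep Y thr val F Q C (hnode ep Y thr val F Q C t L K))
    · rw [hstep_mem h.1 h.2] at hb'
      rcases List.mem_cons.1 hb' with h1 | h1
      · right
        unfold hnbs
        rw [Finset.mem_image]
        refine ⟨K, ?_, h1.symm⟩
        rw [Finset.mem_filter, Finset.mem_range]
        exact ⟨Nat.lt_succ_self K, h.1⟩
      · rcases ih h1 with h2 | h2
        · exact Or.inl h2
        · exact Or.inr (hnbs_mono t L K h2)
    · rw [hstep_not_mem h] at hb'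
      rcases ih hb' with h2 | h2
      · exact Or.inl h2
      · exact Or.inr (hnbs_mono t L K h2)

/-- the lists have no repetition -/
theorem hnode_nodup (t : ℕ) (L : P → Rc T) (p : P) (h1 : (L p).1.Nodup) (h2 : ∀ b ∈ (L p).1, b.t < t) (K : ℕ) :
    (hnode ep Y thr val F Q C t L K p).1.Nodup ∧
      ∀ b ∈ (hnode ep Y thr val F Q C t L K p).1, b.t ≤ t ∧ (b.t = t → b.k < K) := by
  classical
  induction K with
  | zero => exact ⟨h1, fun b hb => ⟨(h2 b hb).le, fun ht => absurd ht (h2 b hb).ne⟩⟩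
  | succ K ih =>
    show (hstep ep Y thr val F Q C t K (hnode ep Y thr val F Q C t L K) p).1.Nodup ∧
      ∀ b ∈ (hstep ep Y thr val F Q C t K (hnode ep Y thr val F Q C t L K) p).1, b.t ≤ t ∧ (b.t = t → b.k < K + 1)
    obtain ⟨h3, h4⟩ := ih
    by_cases h : HHit ep Y thr val F Q C (hnode ep Y thr val F Q C t L K) ∧
        p ∈ hmem ep Y val F Q C (hnode ep Y thr val F Q C t L K)
          (hborn ep Y thr val F Q C (hnode ep Y thr val F Q C t L K))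
    · rw [hstep_mem h.1 h.2]
      refine ⟨?_, ?_⟩
      · rw [List.nodup_cons]
        refine ⟨fun hcon => ?_, h3⟩
        exact absurd ((h4 _ hcon).2 rfl) (lt_irrefl _)
      · intro b hb
        rcases List.mem_cons.1 hb with h5 | h5
        · rw [h5]
          exact ⟨le_rfl, fun _ => Nat.lt_succ_self K⟩
        · exact ⟨(h4 b h5).1, fun ht => ((h4 b h5).2 ht).trans (Nat.lt_succ_self K)⟩
    · rw [hstep_not_mem h]
      exact ⟨h3, fun b hb => ⟨(h4 b hb).1, fun ht => ((h4 b hb).2 ht).trans (Nat.lt_succ_self K)⟩⟩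

theorem hnode_grow (t : ℕ) (L : P → Rc T) (p : P) {j K : ℕ} (h : j ≤ K) :
    (hnode ep Y thr val F Q C t L j p).1 <:+ (hnode ep Y thr val F Q C t L K p).1 := by
  induction K, h using Nat.le_induction with
  | base => exact List.suffix_refl _
  | succ K _ ih =>
    refine ih.trans ?_
    show _ <:+ (hstep ep Y thr val F Q C t K (hnode ep Y thr val F Q C t L K) p).1
    unfold hstep
    split_ifs
    · exact List.suffix_cons _ _
    · exact List.suffix_refl _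

/-- a birth of the node is in the lists of many points -/
theorem hnbs_thick (t : ℕ) (L : P → Rc T) (K : ℕ) {b : Birth T} (hb : b ∈ hnbs ep Y thr val F Q C t L K) :
    thr * C.card ≤ ∑ q ∈ C, ind (b ∈ (hnode ep Y thr val F Q C t L K q).1) := by
  classical
  unfold hnbs at hb
  obtain ⟨j, hj, rfl⟩ := Finset.mem_image.1 hb
  rw [Finset.mem_filter, Finset.mem_range] at hj
  refine (hborn_spec hj.2).trans ?_
  have h1 : ((hmem ep Y val F Q C (hnode ep Y thr val F Q C t L j)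
      (hborn ep Y thr val F Q C (hnode ep Y thr val F Q C t L j))).card : ℝ) =
      ∑ q ∈ hmem ep Y val F Q C (hnode ep Y thr val F Q C t L j)
        (hborn ep Y thr val F Q C (hnode ep Y thr val F Q C t L j)), 1 := by
    rw [Finset.sum_const, nsmul_eq_mul, mul_one]
  rw [h1]
  have h2 : hmem ep Y val F Q C (hnode ep Y thr val F Q C t L j)
      (hborn ep Y thr val F Q C (hnode ep Y thr val F Q C t L j)) ⊆ C := fun q hq => (mem_hmem.1 hq).1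
  refine le_trans (Finset.sum_le_sum fun q hq => ?_) (Finset.sum_le_sum_of_subset_of_nonneg h2 fun q _ _ => ind_nonneg _)
  rw [ind_of]
  refine (hnode_grow t L q (Nat.succ_le_of_lt hj.1)).subset ?_
  show _ ∈ (hstep ep Y thr val F Q C t j (hnode ep Y thr val F Q C t L j) q).1
  rw [hstep_mem hj.2 hq]
  exact List.mem_cons_self

end node

section run

variable {ι P V : Type*} {Gam : ℕ → Type*} [Fintype V]

/-- the births at the node of `p` -/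
def pbsH (D : Nodes P V Gam) (S : Tests ι P V) (ep Y Y0 thr : ℝ) (N n2 : ℕ) (F : ∀ n, Gam n → P → V → ℝ) (n : ℕ)
    (γ : Gam n) (p : P) : Finset (Birth (ι → Bool)) :=
  hnbs ep Y thr S.val (F n γ) (D.J n γ) (D.cell n p) n (preH D S ep Y Y0 thr N n2 F n γ) N

variable (D : Nodes P V Gam) (S : Tests ι P V) {ep Y Y0 thr : ℝ} {N n2 : ℕ} {F : ∀ n, Gam n → P → V → ℝ}

theorem card_pbsH (n : ℕ) (γ : Gam n) (p : P) :
    (pbsH D S ep Y Y0 thr N n2 F n γ p).card ≤ pubsH D S ep Y Y0 thr N n2 F n γ p := card_hnbs _ _ _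

theorem mem_lstH (n : ℕ) (γ : Gam n) (p : P) {b : Birth (ι → Bool)} (hb : b ∈ (lstH D S ep Y Y0 thr N n2 F n γ p).1) :
    b ∈ (preH D S ep Y Y0 thr N n2 F n γ p).1 ∨ b ∈ pbsH D S ep Y Y0 thr N n2 F n γ p := by
  rw [lstH_eq] at hb
  exact mem_hnode _ _ _ _ _ hb

theorem lstH_nodup (n : ℕ) : ∀ (γ : Gam n) (p : P), (lstH D S ep Y Y0 thr N n2 F n γ p).1.Nodup ∧
    ∀ b ∈ (lstH D S ep Y Y0 thr N n2 F n γ p).1, b.t ≤ n := by
  induction n with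
  | zero =>
    intro γ p
    rw [lstH_eq]
    have h1 := hnode_nodup (ep := ep) (Y := Y) (thr := thr) (val := S.val) (F := F 0 γ) (Q := D.J 0 γ) (C := D.cell 0 p) 0
      (preH D S ep Y Y0 thr N n2 F 0 γ) p (List.nodup_nil) (fun b hb => absurd hb (List.not_mem_nil)) N
    exact ⟨h1.1, fun b hb => (h1.2 b hb).1⟩
  | succ n ih =>
    intro γ p
    rw [lstH_eq]
    obtain ⟨h2, h3⟩ := ih (D.prev n γ) p
    have e := preH_succ_fst D S (ep := ep) (Y := Y) (Y0 := Y0) (thr := thr) (N := N) (n2 := n2) (F := F) n γ p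
    have h1 := hnode_nodup (ep := ep) (Y := Y) (thr := thr) (val := S.val) (F := F (n + 1) γ) (Q := D.J (n + 1) γ)
      (C := D.cell (n + 1) p) (n + 1) (preH D S ep Y Y0 thr N n2 F (n + 1) γ) p (by rw [e]; exact h2)
      (fun b hb => Nat.lt_succ_of_le (h3 b (by rw [e] at hb; exact hb))) N
    exact ⟨h1.1, fun b hb => (h1.2 b hb).1⟩

theorem pbsH_thick (n : ℕ) (γ : Gam n) (p : P) {b : Birth (ι → Bool)} (hb : b ∈ pbsH D S ep Y Y0 thr N n2 F n γ p) :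
    thr * (D.cell n p).card ≤ ∑ q ∈ D.cell n p, ind (b ∈ (lstH D S ep Y Y0 thr N n2 F n γ q).1) := by
  refine (hnbs_thick n (preH D S ep Y Y0 thr N n2 F n γ) N hb).trans (le_of_eq ?_)
  refine Finset.sum_congr rfl fun q hq => ?_
  rw [lstH_eq_cell D S n γ hq]

theorem pbsH_cell (n : ℕ) (γ : Gam n) {p q : P} (hq : q ∈ D.cell n p) :
    pbsH D S ep Y Y0 thr N n2 F n γ q = pbsH D S ep Y Y0 thr N n2 F n γ p := by
  unfold pbsH
  rw [D.coh n p q hq]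

end run

/-! ### the layer in a geometry `Sys` -/

variable {ι Om Ξ Pt V Γ κ : Type} [Fintype ι] [DecidableEq ι] [Fintype Om] [Fintype Ξ] [Fintype Pt]
  [Fintype V] (S : Sys ι Om Ξ Pt V Γ κ)

/-- the cap of the current list -/
def n2H (ep Y0 : ℝ) : ℕ := ⌈8 * Y0 ^ 2 / ep ^ 2⌉₊ + 1

theorem n2H_pos (ep Y0 : ℝ) : 0 < n2H ep Y0 := Nat.succ_pos _

theorem le_n2H (ep Y0 : ℝ) : 8 * Y0 ^ 2 / ep ^ 2 ≤ n2H ep Y0 := by
  unfold n2H
  have := Nat.le_ceil (8 * Y0 ^ 2 / ep ^ 2)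
  push_cast
  linarith

theorem n2H_le (ep Y0 : ℝ) : (n2H ep Y0 : ℝ) ≤ 8 * Y0 ^ 2 / ep ^ 2 + 2 := by
  unfold n2H
  have := Nat.ceil_lt_add_one (a := 8 * Y0 ^ 2 / ep ^ 2) (by positivity)
  push_cast
  linarith

/-- the share of a public birth -/
def thrH (ep Y th : ℝ) : ℝ := 3 * ep * th / (2 * Y)

/-- the number of steps of the RULE at a node -/
def nstH (ep Y0 thr : ℝ) : ℕ := ⌊4 * Y0 ^ 2 / (ep ^ 2 * thr)⌋₊ + 1

theorem nstH_lt (ep Y0 thr : ℝ) : 4 * Y0 ^ 2 / (ep ^ 2 * thr) < nstH ep Y0 thr := by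
  unfold nstH
  push_cast
  exact Nat.lt_floor_add_one _

section layer

variable (Vj : Finset ι) (w : ι) [Nonempty (TK Vj w)] (ep Y Y0 th : ℝ) (Ψ : Mov Ξ ι Pt Γ (V → ℝ))

/-- the state of a point -/
def hLst : Mov Ξ ι Pt Γ (Rc (TJs Pt V Vj w → Bool)) := fun t g ξ x =>
  lstH (faceN S Vj w) (faceT Ξ Pt V Vj w) ep Y Y0 (thrH ep Y th) (nstH ep Y0 (thrH ep Y th)) (n2H ep Y0)
    (mF S w 1 Ψ) t g (ξ, rsw w x)

/-- the cumulative list -/
def hCum : Mov Ξ ι Pt Γ (List (Birth (TJs Pt V Vj w → Bool))) := fun t g ξ x => (hLst S Vj w ep Y Y0 th Ψ t g ξ x).1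

/-- the current list -/
def hCur : Mov Ξ ι Pt Γ (List (Birth (TJs Pt V Vj w → Bool))) := fun t g ξ x =>
  cur (hLst S Vj w ep Y Y0 th Ψ t g ξ x)

/-- the linear structured function -/
def hStr : Mov Ξ ι Pt Γ (V → ℝ) := fun t g ξ x d =>
  lsum ep (faceT Ξ Pt V Vj w).val (hCur S Vj w ep Y Y0 th Ψ t g ξ x) (ξ, rsw w x) d

/-- the residual, clipped at `Y` -/
def hRes : Mov Ξ ι Pt Γ (V → ℝ) := fun t g ξ x d => clip Y (Ψ t g ξ x d - hStr S Vj w ep Y Y0 th Ψ t g ξ x d)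

/-- the number of public births at the node of the point -/
def hPub : Mov Ξ ι Pt Γ ℕ := fun t g ξ x =>
  pubsH (faceN S Vj w) (faceT Ξ Pt V Vj w) ep Y Y0 (thrH ep Y th) (nstH ep Y0 (thrH ep Y th)) (n2H ep Y0)
    (mF S w 1 Ψ) t g (ξ, rsw w x)

/-- the births at the node of a point -/
def hBf : Mov Ξ ι Pt Γ (Finset (Birth (TJs Pt V Vj w → Bool))) := fun t g ξ x =>
  pbsH (faceN S Vj w) (faceT Ξ Pt V Vj w) ep Y Y0 (thrH ep Y th) (nstH ep Y0 (thrH ep Y th)) (n2H ep Y0)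
    (mF S w 1 Ψ) t g (ξ, rsw w x)

variable {ep Y Y0 th : ℝ} {Ψ : Mov Ξ ι Pt Γ (V → ℝ)}

theorem hLst_dep (t : ℕ) (g : Γ) (ξ : Ξ) : Dep (univ.erase w) (hLst S Vj w ep Y Y0 th Ψ t g ξ) :=
  rsw_dep w (fun y => lstH (faceN S Vj w) (faceT Ξ Pt V Vj w) ep Y Y0 (thrH ep Y th) (nstH ep Y0 (thrH ep Y th))
    (n2H ep Y0) (mF S w 1 Ψ) t g (ξ, y))

theorem hCum_dep (t : ℕ) (g : Γ) (ξ : Ξ) : Dep (univ.erase w) (hCum S Vj w ep Y Y0 th Ψ t g ξ) := by
  intro x y h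
  show (hLst S Vj w ep Y Y0 th Ψ t g ξ x).1 = (hLst S Vj w ep Y Y0 th Ψ t g ξ y).1
  rw [hLst_dep S Vj w t g ξ x y h]

theorem hCur_dep (t : ℕ) (g : Γ) (ξ : Ξ) : Dep (univ.erase w) (hCur S Vj w ep Y Y0 th Ψ t g ξ) := by
  intro x y h
  show cur (hLst S Vj w ep Y Y0 th Ψ t g ξ x) = cur (hLst S Vj w ep Y Y0 th Ψ t g ξ y)
  rw [hLst_dep S Vj w t g ξ x y h]

theorem hStr_dep (t : ℕ) (g : Γ) (ξ : Ξ) : Dep (univ.erase w) (hStr S Vj w ep Y Y0 th Ψ t g ξ) :=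
  rsw_dep w (fun y => fun d => lsum ep (faceT Ξ Pt V Vj w).val (cur (lstH (faceN S Vj w) (faceT Ξ Pt V Vj w) ep Y Y0
    (thrH ep Y th) (nstH ep Y0 (thrH ep Y th)) (n2H ep Y0) (mF S w 1 Ψ) t g (ξ, y))) (ξ, y) d)

theorem hPub_dep (t : ℕ) (g : Γ) (ξ : Ξ) : Dep (univ.erase w) (hPub S Vj w ep Y Y0 th Ψ t g ξ) :=
  rsw_dep w (fun y => pubsH (faceN S Vj w) (faceT Ξ Pt V Vj w) ep Y Y0 (thrH ep Y th) (nstH ep Y0 (thrH ep Y th))
    (n2H ep Y0) (mF S w 1 Ψ) t g (ξ, y))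

theorem hBf_dep (t : ℕ) (g : Γ) (ξ : Ξ) : Dep (univ.erase w) (hBf S Vj w ep Y Y0 th Ψ t g ξ) :=
  rsw_dep w (fun y => pbsH (faceN S Vj w) (faceT Ξ Pt V Vj w) ep Y Y0 (thrH ep Y th) (nstH ep Y0 (thrH ep Y th))
    (n2H ep Y0) (mF S w 1 Ψ) t g (ξ, y))

variable {w}

theorem hRes_dep (hΨ : ∀ t g ξ, Dep (univ.erase w) (Ψ t g ξ)) (t : ℕ) (g : Γ) (ξ : Ξ) :
    Dep (univ.erase w) (hRes S Vj w ep Y Y0 th Ψ t g ξ) := by
  intro x y h
  funext d
  show clip Y (Ψ t g ξ x d - hStr S Vj w ep Y Y0 th Ψ t g ξ x d) =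
    clip Y (Ψ t g ξ y d - hStr S Vj w ep Y Y0 th Ψ t g ξ y d)
  rw [hΨ t g ξ x y h, hStr_dep S Vj w t g ξ x y h]

variable (w)

theorem abs_hRes (hY : 0 ≤ Y) (t : ℕ) (g : Γ) (ξ : Ξ) (x : ι → Pt) (d : V) :
    |hRes S Vj w ep Y Y0 th Ψ t g ξ x d| ≤ Y := abs_clip_le hY _

variable {w}

theorem mF_one (hΨ : ∀ t g ξ, Dep (univ.erase w) (Ψ t g ξ)) (t : ℕ) (g : Γ) (ξ : Ξ) (x : ι → Pt) :
    mF S w 1 Ψ t g (ξ, rsw w x) = Ψ t g ξ x := by
  funext d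
  rw [mF_eq S hΨ, div_one]

theorem abs_mF_one (hΨY : ∀ t g ξ x d, |Ψ t g ξ x d| ≤ Y0) (t : ℕ) (g : Γ) (p : FPt ι Ξ Pt w) (d : V) :
    |mF S w 1 Ψ t g p d| ≤ Y0 := by
  unfold mF
  rw [div_one]
  exact hΨY _ _ _ _ _

/-- the residual is the residual of the machine -/
theorem hRes_eq (hΨ : ∀ t g ξ, Dep (univ.erase w) (Ψ t g ξ)) (t : ℕ) (g : Γ) (ξ : Ξ) (x : ι → Pt) (d : V) :
    hRes S Vj w ep Y Y0 th Ψ t g ξ x d =
      RH (faceN S Vj w) (faceT Ξ Pt V Vj w) ep Y Y0 (thrH ep Y th) (nstH ep Y0 (thrH ep Y th)) (n2H ep Y0)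
        (mF S w 1 Ψ) t g (ξ, rsw w x) d := by
  unfold hRes RH lres
  rw [mF_one S hΨ]
  rfl

/-- **the linear form** -/
theorem hStr_lin (t : ℕ) (g : Γ) (ξ : Ξ) (x : ι → Pt) (d : V) : hStr S Vj w ep Y Y0 th Ψ t g ξ x d =
    ep * ((hCur S Vj w ep Y Y0 th Ψ t g ξ x).map fun s => ∏ i ∈ Vj.erase w, msgn Vj w i s x d).sum := by
  unfold hStr lsum
  simp only [faceT_val]

/-- the lists are cumulative -/
theorem hCum_suffix (t : ℕ) (g : Γ) (ξ : Ξ) (x : ι → Pt) :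
    hCum S Vj w ep Y Y0 th Ψ t (S.par t g) ξ x <:+ hCum S Vj w ep Y Y0 th Ψ (t + 1) g ξ x :=
  lstH_suffix (faceN S Vj w) (faceT Ξ Pt V Vj w) t g (ξ, rsw w x)

/-- the current list is the head of the cumulative list -/
theorem hCur_prefix (t : ℕ) (g : Γ) (ξ : Ξ) (x : ι → Pt) :
    hCur S Vj w ep Y Y0 th Ψ t g ξ x <+: hCum S Vj w ep Y Y0 th Ψ t g ξ x := List.take_prefix _ _

/-- no births at the time `0` if the function vanishes there -/
theorem hLst_zero (hep : 0 < ep) (hY : 0 < Y) (hth : 0 < th) (h0 : ∀ g ξ x, Ψ 0 g ξ x = 0) (g : Γ) (ξ : Ξ)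
    (x : ι → Pt) : hLst S Vj w ep Y Y0 th Ψ 0 g ξ x = ([], 0) := by
  unfold hLst
  set p : FPt ι Ξ Pt w := (ξ, rsw w x) with hp
  have hthr : 0 < thrH ep Y th := by unfold thrH; positivity
  have hno : ¬ HHit ep Y (thrH ep Y th) (faceT Ξ Pt V Vj w).val (mF S w 1 Ψ 0 g) ((faceN S Vj w).J 0 g)
      ((faceN S Vj w).cell 0 p) (hnode ep Y (thrH ep Y th) (faceT Ξ Pt V Vj w).val (mF S w 1 Ψ 0 g)
      ((faceN S Vj w).J 0 g) ((faceN S Vj w).cell 0 p) 0 (fun _ => ([], 0)) 0) := by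
    rintro ⟨τ, hτ⟩
    have h1 : (0 : ℝ) < ((faceN S Vj w).cell 0 p).card := by
      exact_mod_cast Finset.card_pos.2 ⟨p, (faceN S Vj w).self 0 p⟩
    have h2 : (0 : ℝ) < (hmem ep Y (faceT Ξ Pt V Vj w).val (mF S w 1 Ψ 0 g) ((faceN S Vj w).J 0 g)
        ((faceN S Vj w).cell 0 p) (fun _ => ([], 0)) τ).card := lt_of_lt_of_le (by positivity) hτ
    obtain ⟨q, hq⟩ := Finset.card_pos.1 (by exact_mod_cast h2)
    have h3 := (mem_hmem.1 hq).2
    have h4 : hcorr ep Y (faceT Ξ Pt V Vj w).val (mF S w 1 Ψ 0 g) ((faceN S Vj w).J 0 g) (fun _ => ([], 0)) τ q = 0 := by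
      unfold hcorr
      have h5 : ∀ d, lres ep Y (faceT Ξ Pt V Vj w).val (mF S w 1 Ψ 0 g) (cur (([], 0) : Rc _)) q d *
          (faceT Ξ Pt V Vj w).val τ q d = 0 := by
        intro d
        unfold lres mF
        rw [cur_zero, lsum_nil, h0]
        simp only [Pi.zero_apply, zero_div, sub_zero]
        rw [clip_zero hY.le, zero_mul]
      simp only [h5]
      exact FP.E_const _ 0
    linarith
  have h6 := hnode_stop (ep := ep) (Y := Y) (thr := thrH ep Y th) hno (Nat.zero_le (nstH ep Y0 (thrH ep Y th)))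
  show hnode ep Y (thrH ep Y th) (faceT Ξ Pt V Vj w).val (mF S w 1 Ψ 0 g) ((faceN S Vj w).J 0 g)
      ((faceN S Vj w).cell 0 p) 0 (fun _ => ([], 0)) (nstH ep Y0 (thrH ep Y th)) p = ([], 0)
  rw [h6]
  rfl

theorem hCum_zero (hep : 0 < ep) (hY : 0 < Y) (hth : 0 < th) (h0 : ∀ g ξ x, Ψ 0 g ξ x = 0) (g : Γ) (ξ : Ξ)
    (x : ι → Pt) : hCum S Vj w ep Y Y0 th Ψ 0 g ξ x = [] := by
  unfold hCum
  rw [hLst_zero S Vj hep hY hth h0]

theorem hStr_zero (hep : 0 < ep) (hY : 0 < Y) (hth : 0 < th) (h0 : ∀ g ξ x, Ψ 0 g ξ x = 0) (g : Γ) (ξ : Ξ)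
    (x : ι → Pt) : hStr S Vj w ep Y Y0 th Ψ 0 g ξ x = 0 := by
  funext d
  unfold hStr hCur
  rw [hLst_zero S Vj hep hY hth h0, cur_zero, lsum_nil]
  rfl

theorem hRes_zero (hep : 0 < ep) (hY : 0 < Y) (hth : 0 < th) (h0 : ∀ g ξ x, Ψ 0 g ξ x = 0) (g : Γ) (ξ : Ξ)
    (x : ι → Pt) : hRes S Vj w ep Y Y0 th Ψ 0 g ξ x = 0 := by
  funext d
  unfold hRes
  rw [hStr_zero S Vj hep hY hth h0, h0]
  simp only [Pi.zero_apply, sub_zero]
  exact clip_zero hY.le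

/-! ### product tests -/

/-- **(P1)** : the residual is rare for the coin free product tests, at every node, after the moves -/
theorem hRes_rare (hwV : w ∈ Vj) (hY : 0 < Y) (hep : 0 < ep) (hth : 0 < th)
    (hΨ : ∀ t g ξ, Dep (univ.erase w) (Ψ t g ξ)) (hΨY : ∀ t g ξ x d, |Ψ t g ξ x d| ≤ Y0) :
    S.Rare Vj w (hRes S Vj w ep Y Y0 th Ψ) th (4 * ep) := by
  classical
  intro t _ ω y u hu hu1
  obtain ⟨ω0⟩ := S.nonempty_Om
  set g := S.gm t ω with hg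
  set T := faceT Ξ Pt V Vj w with hT
  set a0 : Pt := S.x ω0 w with ha0
  have hthr : 0 < thrH ep Y th := by unfold thrH; positivity
  -- the indicator as a function of the point of the face
  set Q : FPt ι Ξ Pt w → Prop := fun p => 4 * ep ≤ |((faceN S Vj w).J t g).E (fun d =>
      RH (faceN S Vj w) T ep Y Y0 (thrH ep Y th) (nstH ep Y0 (thrH ep Y th)) (n2H ep Y0) (mF S w 1 Ψ) t g p d *
        T.test (tvc a0 u) p d)| with hQ
  have hval : ∀ ξ z, (4 * ep ≤ |iw (S.ρ t g) (hRes S Vj w ep Y Y0 th Ψ t g ξ z)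
      (fun d => ∏ i ∈ Vj.erase w, u i z d)|) ↔ Q (ξ, rsw w z) := by
    intro ξ z
    have h1 : iw (S.ρ t g) (hRes S Vj w ep Y Y0 th Ψ t g ξ z) (fun d => ∏ i ∈ Vj.erase w, u i z d) =
        ((faceN S Vj w).J t g).E (fun d => RH (faceN S Vj w) T ep Y Y0 (thrH ep Y th) (nstH ep Y0 (thrH ep Y th))
          (n2H ep Y0) (mF S w 1 Ψ) t g (ξ, rsw w z) d * T.test (tvc a0 u) (ξ, rsw w z) d) := by
      show _ = (wfp S t (S.gm t ω)).E _
      rw [wfp_E]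
      unfold iw
      refine Finset.sum_congr rfl fun d _ => ?_
      rw [hRes_eq S Vj hΨ, hT, faceT_tvc a0 hu]
      ring
    rw [h1, hQ]
  have hL : ∑ ξ : Ξ, ∑ z : ι → Pt, ind (S.Box Vj t y z ∧
        4 * ep ≤ |iw (S.ρ t (S.gm t ω)) (hRes S Vj w ep Y Y0 th Ψ t (S.gm t ω) ξ z)
          (fun d => ∏ i ∈ Vj.erase w, u i z d)|) =
      ∑ ξ : Ξ, ∑ z : ι → Pt, ind (S.Box Vj t y z ∧ Q (ξ, rsw w z)) := by
    refine Finset.sum_congr rfl fun ξ _ => Finset.sum_congr rfl fun z _ => ?_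
    congr 1
    exact propext (and_congr_right fun _ => hval ξ z)
  have hR : ∑ _ξ : Ξ, ∑ z : ι → Pt, ind (S.Box Vj t y z) =
      ∑ ξ : Ξ, ∑ z : ι → Pt, ind (S.Box Vj t y z ∧ (fun _ => True) (ξ, rsw w z)) := by
    refine Finset.sum_congr rfl fun ξ _ => Finset.sum_congr rfl fun z _ => ?_
    congr 1
    exact propext ⟨fun h => ⟨h, trivial⟩, fun h => h.1⟩
  obtain ⟨ξ1⟩ := S.nonempty_Xi
  rw [hL, hR, box_face S hwV t y ξ1 Q, box_face S hwV t y ξ1 (fun _ => True), mul_left_comm]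
  refine mul_le_mul_of_nonneg_left ?_ (Finset.sum_nonneg fun _ _ => ind_nonneg _)
  have h1 := RH_P1 (faceN S Vj w) T (ep := ep) (Y := Y) (Y0 := Y0) (thr := thrH ep Y th)
    (N := nstH ep Y0 (thrH ep Y th)) (n2 := n2H ep Y0) (F := mF S w 1 Ψ) t g
    (ξ1, rsw w y) hY.le (fun q _ d => abs_mF_one S hΨY t g q d) hep hthr (nstH_lt _ _ _) (tvc a0 u)
    (fun j => hu1 _ _ _)
  have h2 : ∑ q ∈ (faceN S Vj w).cell t (ξ1, rsw w y), ind ((fun _ : FPt ι Ξ Pt w => True) q) =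
      ((faceN S Vj w).cell t (ξ1, rsw w y)).card := by
    rw [Finset.sum_congr rfl fun q _ => ind_of trivial, Finset.sum_const, nsmul_eq_mul, mul_one]
  rw [h2]
  have h4 : 2 * Y * (thrH ep Y th * ((faceN S Vj w).cell t (ξ1, rsw w y)).card) =
      3 * ep * (th * ((faceN S Vj w).cell t (ξ1, rsw w y)).card) := by
    unfold thrH
    field_simp
  rw [h4] at h1
  exact le_of_mul_le_mul_left h1 (by positivity)

/-! ### the `L1` error and the size of the current list -/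

/-- `L1` error, averaged windows, at every point and node of the path -/
theorem hRes_L1 (hY : 0 < Y) (hep : 0 ≤ ep) (hΨ : ∀ t g ξ, Dep (univ.erase w) (Ψ t g ξ))
    (hΨY : ∀ t g ξ x d, |Ψ t g ξ x d| ≤ Y0) (t : ℕ) (ω : Om) (ξ : Ξ) (x : ι → Pt) :
    ∑ d, S.ρ t (S.gm t ω) d * |Ψ t (S.gm t ω) ξ x d - hStr S Vj w ep Y Y0 th Ψ t (S.gm t ω) ξ x d -
      hRes S Vj w ep Y Y0 th Ψ t (S.gm t ω) ξ x d| ≤ 4 * Y0 ^ 2 / Y := by
  have h1 := RH_L1 (faceN S Vj w) (faceT Ξ Pt V Vj w) (ep := ep) (Y := Y) (Y0 := Y0) (thr := thrH ep Y th)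
    (N := nstH ep Y0 (thrH ep Y th)) (n2 := n2H ep Y0) (F := mF S w 1 Ψ) hY hep t (S.gm t ω) (ξ, rsw w x)
    (fun d => abs_mF_one S hΨY t _ _ d)
  rw [← wfp_E S t ω]
  refine le_trans (le_of_eq ?_) h1
  show _ = (wfp S t (S.gm t ω)).E _
  refine FP.E_congr _ fun d _ => ?_
  rw [hRes_eq S Vj hΨ, mF_one S hΨ]
  rfl

/-- the current list is short, surely -/
theorem hCur_length (hY : 0 ≤ Y) (hep : 0 < ep) (hΨY : ∀ t g ξ x d, |Ψ t g ξ x d| ≤ Y0) (t : ℕ) (g : Γ) (ξ : Ξ)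
    (x : ι → Pt) : ((hCur S Vj w ep Y Y0 th Ψ t g ξ x).length : ℝ) ≤ 12 * Y0 ^ 2 / ep ^ 2 + 2 := by
  have h1 := lstH_cur_le (faceN S Vj w) (faceT Ξ Pt V Vj w) (ep := ep) (Y := Y) (Y0 := Y0) (thr := thrH ep Y th)
    (N := nstH ep Y0 (thrH ep Y th)) (n2 := n2H ep Y0) (F := mF S w 1 Ψ) hY hep t g (ξ, rsw w x)
    (fun d => abs_mF_one S hΨY t _ _ d)
  have h2 := n2H_le ep Y0
  have e : 12 * Y0 ^ 2 / ep ^ 2 = 8 * Y0 ^ 2 / ep ^ 2 + 4 * Y0 ^ 2 / ep ^ 2 := by ring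
  show ((cur (hLst S Vj w ep Y Y0 th Ψ t g ξ x)).length : ℝ) ≤ _
  unfold hLst
  linarith

/-- the linear structured function is bounded, surely -/
theorem abs_hStr (hY : 0 ≤ Y) (hep : 0 < ep) (hΨY : ∀ t g ξ x d, |Ψ t g ξ x d| ≤ Y0) (t : ℕ) (g : Γ) (ξ : Ξ)
    (x : ι → Pt) (d : V) : |hStr S Vj w ep Y Y0 th Ψ t g ξ x d| ≤ 12 * Y0 ^ 2 / ep + 2 * ep := by
  have h1 := abs_lsum hep.le (val := (faceT Ξ Pt V Vj w).val) (p := (ξ, rsw w x)) (d := d)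
    (fun τ => abs_val (faceT Ξ Pt V Vj w) τ _ d) (hCur S Vj w ep Y Y0 th Ψ t g ξ x)
  refine h1.trans ?_
  have h2 := mul_le_mul_of_nonneg_left (hCur_length S Vj (w := w) (th := th) hY hep hΨY t g ξ x) hep.le
  refine h2.trans (le_of_eq ?_)
  field_simp

/-- `L1` error, exact windows -/
theorem hRes_L1J (hY : 0 < Y) (hep : 0 < ep) (hΨ : ∀ t g ξ, Dep (univ.erase w) (Ψ t g ξ))
    (hΨY : ∀ t g ξ x d, |Ψ t g ξ x d| ≤ Y0) (t : ℕ) (ω : Om) (ξ : Ξ) (x : ι → Pt) :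
    ∑ d, S.J t ω d * |Ψ t (S.gm t ω) ξ x d - hStr S Vj w ep Y Y0 th Ψ t (S.gm t ω) ξ x d -
      hRes S Vj w ep Y Y0 th Ψ t (S.gm t ω) ξ x d| ≤
      4 * Y0 ^ 2 / Y + (Y0 + (12 * Y0 ^ 2 / ep + 2 * ep) + Y) * S.near := by
  set D : V → ℝ := fun d => |Ψ t (S.gm t ω) ξ x d - hStr S Vj w ep Y Y0 th Ψ t (S.gm t ω) ξ x d -
      hRes S Vj w ep Y Y0 th Ψ t (S.gm t ω) ξ x d| with hD
  have hY00 : V → 0 ≤ Y0 := fun d => (abs_nonneg _).trans (hΨY t (S.gm t ω) ξ x d)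
  rcases isEmpty_or_nonempty V with hV | ⟨⟨d0⟩⟩
  · have h1 := S.one t ω
    rw [Finset.univ_eq_empty, Finset.sum_empty] at h1
    norm_num at h1
  have hY0 : 0 ≤ Y0 := hY00 d0
  set B : ℝ := Y0 + (12 * Y0 ^ 2 / ep + 2 * ep) + Y with hB
  have hB0 : 0 < B := by rw [hB]; positivity
  have hDB : ∀ d, |D d| ≤ B := by
    intro d
    rw [hD]
    simp only [abs_abs]
    have h1 := hΨY t (S.gm t ω) ξ x d
    have h2 := abs_hStr S Vj (w := w) (th := th) (Ψ := Ψ) hY.le hep hΨY t (S.gm t ω) ξ x d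
    have h3 := abs_hRes S Vj w (ep := ep) (Y0 := Y0) (th := th) (Ψ := Ψ) hY.le t (S.gm t ω) ξ x d
    have h4 := abs_sub (Ψ t (S.gm t ω) ξ x d - hStr S Vj w ep Y Y0 th Ψ t (S.gm t ω) ξ x d)
      (hRes S Vj w ep Y Y0 th Ψ t (S.gm t ω) ξ x d)
    have h5 := abs_sub (Ψ t (S.gm t ω) ξ x d) (hStr S Vj w ep Y Y0 th Ψ t (S.gm t ω) ξ x d)
    rw [hB]
    linarith
  have h1 := S.Jnear t ω (fun d => D d / B) (fun _ => 1) (fun d => by
    rw [abs_div, abs_of_pos hB0, div_le_one hB0]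
    exact hDB d) (fun _ => by norm_num)
  have h2 : ∀ W : V → ℝ, iw W (fun d => D d / B) (fun _ => 1) = (∑ d, W d * D d) / B := by
    intro W
    unfold iw
    rw [Finset.sum_div]
    exact Finset.sum_congr rfl fun d _ => by ring
  rw [h2, h2, ← sub_div, abs_div, abs_of_pos hB0, div_le_iff₀ hB0] at h1
  have h3 := hRes_L1 S Vj (w := w) (th := th) hY hep.le hΨ hΨY t ω ξ x
  have h4 := (abs_le.1 h1).2
  have h5 : ∑ d, S.J t ω d * D d ≤ ∑ d, S.ρ t (S.gm t ω) d * D d + S.near * B := by linarith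
  have h6 : ∑ d, S.ρ t (S.gm t ω) d * D d ≤ 4 * Y0 ^ 2 / Y := h3
  show ∑ d, S.J t ω d * D d ≤ _
  linarith

/-! ### births, restarts, moves -/

theorem hCum_len (t : ℕ) (ω : Om) : ((S.at' (hCum S Vj w ep Y Y0 th Ψ) t ω).length : ℝ) =
    lenH (freeS S Vj w) (faceT Ξ Pt V Vj w) ep Y Y0 (thrH ep Y th) (nstH ep Y0 (thrH ep Y th)) (n2H ep Y0)
      (mF S w 1 Ψ) t ω := rfl

theorem mvF_bdH (hΨY : ∀ t g ξ x d, |Ψ t g ξ x d| ≤ Y0) (n : ℕ) (ω : Om) (d : V) :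
    |mvF (freeS S Vj w) (mF S w 1 Ψ) n ω d| ≤ Y0 := abs_mF_one S hΨY _ _ _ _

/-- mean number of births and restarts, on the path -/
theorem hLst_mean (hY : 0 ≤ Y) (hep : 0 < ep) (hΨ : ∀ t g ξ, Dep (univ.erase w) (Ψ t g ξ))
    (hΨY : ∀ t g ξ x d, |Ψ t g ξ x d| ≤ Y0) {m0 : ℝ} (hm : S.Future (univ.erase w) Ψ m0) :
    S.P.E (fun ω => ((S.at' (hCum S Vj w ep Y Y0 th Ψ) S.n ω).length : ℝ)) ≤ 2 * (1 + m0) * Y0 ^ 2 / ep ^ 2 := by
  have h1 := birthsH_le (freeS S Vj w) (faceT Ξ Pt V Vj w) (thr := thrH ep Y th)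
    (N := nstH ep Y0 (thrH ep Y th)) (mvF_bdH S Vj hΨY) hY hep (le_n2H ep Y0) (n2H_pos ep Y0) (movB S Vj hΨ hm)
  have h2 : ep ^ 2 / 2 * S.P.E (fun ω => ((S.at' (hCum S Vj w ep Y Y0 th Ψ) S.n ω).length : ℝ)) ≤ (1 + m0) * Y0 ^ 2 := by
    refine le_trans ?_ h1
    rw [← S.P.E_smul]
    refine S.P.E_mono fun ω _ => ?_
    have : 0 ≤ 3 * Y0 ^ 2 * ∑ u ∈ Finset.range S.n, ind (rsH (freeS S Vj w) (faceT Ξ Pt V Vj w) ep Y Y0
        (thrH ep Y th) (nstH ep Y0 (thrH ep Y th)) (n2H ep Y0) (mF S w 1 Ψ) u ω) :=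
      mul_nonneg (by positivity) (Finset.sum_nonneg fun _ _ => ind_nonneg _)
    rw [hCum_len]
    linarith
  rw [le_div_iff₀ (by positivity)]
  nlinarith

/-- exponential tails of the number of births -/
theorem hCum_tail (hY : 0 ≤ Y) (hY0 : 0 < Y0) (hep : 0 < ep) (hΨ : ∀ t g ξ, Dep (univ.erase w) (Ψ t g ξ))
    (hΨY : ∀ t g ξ x d, |Ψ t g ξ x d| ≤ Y0) {m0 : ℝ} (hm0 : 0 ≤ m0) (hm : S.Future (univ.erase w) Ψ m0) (k : ℕ) :
    S.P.Pr (fun ω => (k : ℝ) * (44 * (1 + m0) * Y0 ^ 2 / ep ^ 2) ≤ (S.at' (hCum S Vj w ep Y Y0 th Ψ) S.n ω).length) ≤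
      (1 / 2) ^ k :=
  tailH_le (freeS S Vj w) (faceT Ξ Pt V Vj w) (mvF_bdH S Vj hΨY) hY hY0 hep (le_n2H ep Y0) (n2H_pos ep Y0) hm0
    (movB S Vj hΨ hm) k

/-- a restart without a move -/
def hRst (w : ι) (ep Y Y0 th : ℝ) (Ψ : Mov Ξ ι Pt Γ (V → ℝ)) (Vj : Finset ι) [Nonempty (TK Vj w)] (u : ℕ) (ω : Om) :
    Prop := rsH (freeS S Vj w) (faceT Ξ Pt V Vj w) ep Y Y0 (thrH ep Y th) (nstH ep Y0 (thrH ep Y th)) (n2H ep Y0)
      (mF S w 1 Ψ) u ω

/-- a change of the state is a birth, a restart or a move -/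
theorem hLst_chg (hΨ : ∀ t g ξ, Dep (univ.erase w) (Ψ t g ξ)) (u : ℕ) (ω : Om) :
    ind (S.at' (hLst S Vj w ep Y Y0 th Ψ) (u + 1) ω ≠ S.at' (hLst S Vj w ep Y Y0 th Ψ) u ω) ≤
    (((S.at' (hCum S Vj w ep Y Y0 th Ψ) (u + 1) ω).length : ℝ) - (S.at' (hCum S Vj w ep Y Y0 th Ψ) u ω).length) +
      ind (hRst S w ep Y Y0 th Ψ Vj u ω) + ind (S.at' Ψ (u + 1) ω ≠ S.at' Ψ u ω) := by
  have h1 : S.at' (hCum S Vj w ep Y Y0 th Ψ) u ω <:+ S.at' (hCum S Vj w ep Y Y0 th Ψ) (u + 1) ω := by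
    have h2 := hCum_suffix S Vj (w := w) (ep := ep) (Y := Y) (Y0 := Y0) (th := th) (Ψ := Ψ) u (S.gm (u + 1) ω)
      (S.xi ω) (S.x ω)
    rw [S.par_gm] at h2
    exact h2
  have h3 : ((S.at' (hCum S Vj w ep Y Y0 th Ψ) u ω).length : ℝ) ≤
    (S.at' (hCum S Vj w ep Y Y0 th Ψ) (u + 1) ω).length := by exact_mod_cast h1.length_le
  by_cases h : S.at' (hLst S Vj w ep Y Y0 th Ψ) (u + 1) ω = S.at' (hLst S Vj w ep Y Y0 th Ψ) u ω
  · rw [ind_not (p := S.at' (hLst S Vj w ep Y Y0 th Ψ) (u + 1) ω ≠ S.at' (hLst S Vj w ep Y Y0 th Ψ) u ω)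
      (fun h' => h' h)]
    have := ind_nonneg (hRst S w ep Y Y0 th Ψ Vj u ω)
    have := ind_nonneg (S.at' Ψ (u + 1) ω ≠ S.at' Ψ u ω)
    linarith
  · rw [ind_of (p := S.at' (hLst S Vj w ep Y Y0 th Ψ) (u + 1) ω ≠ S.at' (hLst S Vj w ep Y Y0 th Ψ) u ω) h]
    by_cases hm : S.at' Ψ (u + 1) ω = S.at' Ψ u ω
    · by_cases hr : hRst S w ep Y Y0 th Ψ Vj u ω
      · rw [ind_of hr]
        have := ind_nonneg (S.at' Ψ (u + 1) ω ≠ S.at' Ψ u ω)
        linarith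
      · -- then a birth
        have h4 : (S.at' (hCum S Vj w ep Y Y0 th Ψ) (u + 1) ω).length ≠
            (S.at' (hCum S Vj w ep Y Y0 th Ψ) u ω).length := by
          intro hlen
          refine h ?_
          have hst := lstH_still (faceN S Vj w) (faceT Ξ Pt V Vj w) (ep := ep) (Y := Y) (Y0 := Y0)
            (thr := thrH ep Y th) (N := nstH ep Y0 (thrH ep Y th)) (n2 := n2H ep Y0) (F := mF S w 1 Ψ) (n := u)
            (γ := S.gm (u + 1) ω) (p := (S.xi ω, rsw w (S.x ω))) (by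
              show mF S w 1 Ψ (u + 1) (S.gm (u + 1) ω) (S.xi ω, rsw w (S.x ω)) =
                mF S w 1 Ψ u (S.par u (S.gm (u + 1) ω)) (S.xi ω, rsw w (S.x ω))
              rw [mF_one S hΨ, mF_one S hΨ, S.par_gm]
              exact hm) hr (by
              show (hCum S Vj w ep Y Y0 th Ψ (u + 1) (S.gm (u + 1) ω) (S.xi ω) (S.x ω)).length =
                (hCum S Vj w ep Y Y0 th Ψ u (S.par u (S.gm (u + 1) ω)) (S.xi ω) (S.x ω)).length
              rw [S.par_gm]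
              exact hlen)
          have hst' : hLst S Vj w ep Y Y0 th Ψ (u + 1) (S.gm (u + 1) ω) (S.xi ω) (S.x ω) =
              hLst S Vj w ep Y Y0 th Ψ u (S.par u (S.gm (u + 1) ω)) (S.xi ω) (S.x ω) := hst
          rw [S.par_gm] at hst'
          exact hst'
        have h6 : (S.at' (hCum S Vj w ep Y Y0 th Ψ) u ω).length + 1 ≤
            (S.at' (hCum S Vj w ep Y Y0 th Ψ) (u + 1) ω).length := by
          have := h1.length_le
          omega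
        have h7 : ((S.at' (hCum S Vj w ep Y Y0 th Ψ) u ω).length : ℝ) + 1 ≤
            (S.at' (hCum S Vj w ep Y Y0 th Ψ) (u + 1) ω).length := by exact_mod_cast h6
        have := ind_nonneg (hRst S w ep Y Y0 th Ψ Vj u ω)
        have := ind_nonneg (S.at' Ψ (u + 1) ω ≠ S.at' Ψ u ω)
        linarith
    · rw [ind_of (p := S.at' Ψ (u + 1) ω ≠ S.at' Ψ u ω) hm]
      have := ind_nonneg (hRst S w ep Y Y0 th Ψ Vj u ω)
      linarith

/-- **births and restarts from every state** -/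
theorem hLst_fut (hY : 0 ≤ Y) (hep : 0 < ep) (hΨ : ∀ t g ξ, Dep (univ.erase w) (Ψ t g ξ))
    (hΨY : ∀ t g ξ x d, |Ψ t g ξ x d| ≤ Y0) {m0 : ℝ} (hm : S.Future (univ.erase w) Ψ m0) {t : ℕ} (ht : t ≤ S.n)
    {φ : Om → ℝ} (hφ : Fac (S.stI (univ.erase w) t) φ) (hφ0 : ∀ ω, 0 ≤ φ ω) :
    S.P.E (fun ω => φ ω * (ep ^ 2 / 2 * (((S.at' (hCum S Vj w ep Y Y0 th Ψ) S.n ω).length : ℝ) -
        (S.at' (hCum S Vj w ep Y Y0 th Ψ) t ω).length) +
        3 * Y0 ^ 2 * ∑ u ∈ Finset.Ico t S.n, ind (hRst S w ep Y Y0 th Ψ Vj u ω))) ≤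
      (10 + m0) * Y0 ^ 2 * S.P.E φ :=
  futureH_le (freeS S Vj w) (faceT Ξ Pt V Vj w) (mvF_bdH S Vj hΨY) hY hep (le_n2H ep Y0) (n2H_pos ep Y0)
    (movB S Vj hΨ hm) ht (fun v ω h => hφ v ω (kn_iff S |>.1 h)) hφ0

/-- mean number of future changes of the cumulative list, from every state -/
theorem hCum_future (hY : 0 ≤ Y) (hep : 0 < ep) (hΨ : ∀ t g ξ, Dep (univ.erase w) (Ψ t g ξ))
    (hΨY : ∀ t g ξ x d, |Ψ t g ξ x d| ≤ Y0) {m0 : ℝ} (hm0 : 0 ≤ m0) (hm : S.Future (univ.erase w) Ψ m0) :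
    S.Future (univ.erase w) (hCum S Vj w ep Y Y0 th Ψ) (2 * (10 + m0) * Y0 ^ 2 / ep ^ 2) := by
  intro t φ hφ hφ0
  rcases Nat.lt_or_ge S.n t with ht | ht
  · rw [Finset.Ico_eq_empty (by omega), Finset.sum_empty]
    exact mul_nonneg (by positivity) (S.P.E_nonneg fun ω _ => hφ0 ω)
  · have h1 := futureB_le (freeS S Vj w) (faceT Ξ Pt V Vj w) (thr := thrH ep Y th)
      (N := nstH ep Y0 (thrH ep Y th)) (mvF_bdH S Vj hΨY) hY hep (le_n2H ep Y0) (n2H_pos ep Y0)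
      (movB S Vj hΨ hm) ht (f := φ) (fun v ω h => hφ v ω (kn_iff S |>.1 h)) hφ0
    refine le_trans ?_ h1
    rw [← S.P.E_sum]
    refine S.P.E_mono fun ω _ => ?_
    rw [← Finset.mul_sum]
    refine mul_le_mul_of_nonneg_left ?_ (hφ0 ω)
    have hchg : ∀ u, ind (S.at' (hCum S Vj w ep Y Y0 th Ψ) (u + 1) ω ≠ S.at' (hCum S Vj w ep Y Y0 th Ψ) u ω) ≤
        ((S.at' (hCum S Vj w ep Y Y0 th Ψ) (u + 1) ω).length : ℝ) - (S.at' (hCum S Vj w ep Y Y0 th Ψ) u ω).length := by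
      intro u
      have h2 : S.at' (hCum S Vj w ep Y Y0 th Ψ) u ω <:+ S.at' (hCum S Vj w ep Y Y0 th Ψ) (u + 1) ω := by
        have h3 := hCum_suffix S Vj (w := w) (ep := ep) (Y := Y) (Y0 := Y0) (th := th) (Ψ := Ψ) u (S.gm (u + 1) ω)
          (S.xi ω) (S.x ω)
        rw [S.par_gm] at h3
        exact h3
      by_cases h : S.at' (hCum S Vj w ep Y Y0 th Ψ) (u + 1) ω = S.at' (hCum S Vj w ep Y Y0 th Ψ) u ω
      · rw [ind_not (fun h' => h' h), h, sub_self]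
      · rw [ind_of h]
        have h4 : (S.at' (hCum S Vj w ep Y Y0 th Ψ) u ω).length ≠ (S.at' (hCum S Vj w ep Y Y0 th Ψ) (u + 1) ω).length :=
          fun h5 => h (h2.eq_of_length h5).symm
        have h5 := h2.length_le
        have h6 : (S.at' (hCum S Vj w ep Y Y0 th Ψ) u ω).length + 1 ≤
          (S.at' (hCum S Vj w ep Y Y0 th Ψ) (u + 1) ω).length := by omega
        have h7 : ((S.at' (hCum S Vj w ep Y Y0 th Ψ) u ω).length : ℝ) + 1 ≤
          (S.at' (hCum S Vj w ep Y Y0 th Ψ) (u + 1) ω).length := by exact_mod_cast h6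
        linarith
    refine (Finset.sum_le_sum fun u _ => hchg u).trans (le_of_eq ?_)
    exact Finset.sum_Ico_sub (fun u => ((S.at' (hCum S Vj w ep Y Y0 th Ψ) u ω).length : ℝ)) ht

/-- number of moves of the next function from every state -/
def mH (ep Y0 m0 : ℝ) : ℝ := m0 + 2 * (10 + m0) * Y0 ^ 2 / ep ^ 2 + (10 + m0) / 3

/-- **mean number of future changes of the state, from every state** -/
theorem hLst_future (hY : 0 ≤ Y) (hY0 : 0 < Y0) (hep : 0 < ep) (hΨ : ∀ t g ξ, Dep (univ.erase w) (Ψ t g ξ))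
    (hΨY : ∀ t g ξ x d, |Ψ t g ξ x d| ≤ Y0) {m0 : ℝ} (hm0 : 0 ≤ m0) (hm : S.Future (univ.erase w) Ψ m0) :
    S.Future (univ.erase w) (hLst S Vj w ep Y Y0 th Ψ) (mH ep Y0 m0) := by
  intro t φ hφ hφ0
  rcases Nat.lt_or_ge S.n t with ht | ht
  · rw [Finset.Ico_eq_empty (by omega), Finset.sum_empty]
    exact mul_nonneg (by unfold mH; positivity) (S.P.E_nonneg fun ω _ => hφ0 ω)
  · have hE : 0 ≤ S.P.E φ := S.P.E_nonneg fun ω _ => hφ0 ω
    have h1 := hLst_fut S Vj (th := th) hY hep hΨ hΨY hm ht hφ hφ0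
    have h2 := hm t φ hφ hφ0
    -- births
    set Bt := S.P.E (fun ω => φ ω * (((S.at' (hCum S Vj w ep Y Y0 th Ψ) S.n ω).length : ℝ) -
        (S.at' (hCum S Vj w ep Y Y0 th Ψ) t ω).length)) with hBt
    set Rt := S.P.E (fun ω => φ ω * ∑ u ∈ Finset.Ico t S.n, ind (hRst S w ep Y Y0 th Ψ Vj u ω)) with hRt
    have hlen : ∀ ω, ((S.at' (hCum S Vj w ep Y Y0 th Ψ) t ω).length : ℝ) ≤
        (S.at' (hCum S Vj w ep Y Y0 th Ψ) S.n ω).length := by
      intro ω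
      have hmono : ∀ a b, a ≤ b → (S.at' (hCum S Vj w ep Y Y0 th Ψ) a ω).length ≤
          (S.at' (hCum S Vj w ep Y Y0 th Ψ) b ω).length := by
        intro a b hab
        induction b, hab using Nat.le_induction with
        | base => exact le_rfl
        | succ b _ ih =>
          refine ih.trans ?_
          have h3 := hCum_suffix S Vj (w := w) (ep := ep) (Y := Y) (Y0 := Y0) (th := th) (Ψ := Ψ) b
            (S.gm (b + 1) ω) (S.xi ω) (S.x ω)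
          rw [S.par_gm] at h3
          exact h3.length_le
      exact_mod_cast hmono t S.n ht
    have hB0 : 0 ≤ Bt := S.P.E_nonneg fun ω _ => mul_nonneg (hφ0 ω) (by linarith [hlen ω])
    have hR0 : 0 ≤ Rt := S.P.E_nonneg fun ω _ => mul_nonneg (hφ0 ω) (Finset.sum_nonneg fun _ _ => ind_nonneg _)
    have h3 : ep ^ 2 / 2 * Bt + 3 * Y0 ^ 2 * Rt ≤ (10 + m0) * Y0 ^ 2 * S.P.E φ := by
      refine le_trans (le_of_eq ?_) h1
      rw [hBt, hRt, ← S.P.E_smul, ← S.P.E_smul, ← S.P.E_add]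
      exact S.P.E_congr fun ω _ => by ring
    have h4 : Bt ≤ 2 * (10 + m0) * Y0 ^ 2 / ep ^ 2 * S.P.E φ := by
      rw [div_mul_eq_mul_div, le_div_iff₀ (by positivity)]
      nlinarith [mul_nonneg (by positivity : (0 : ℝ) ≤ 3 * Y0 ^ 2) hR0]
    have h5 : Rt ≤ (10 + m0) / 3 * S.P.E φ := by
      have h6 : 3 * Y0 ^ 2 * Rt ≤ 3 * Y0 ^ 2 * ((10 + m0) / 3 * S.P.E φ) := by
        have : 0 ≤ ep ^ 2 / 2 * Bt := mul_nonneg (by positivity) hB0
        nlinarith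
      exact le_of_mul_le_mul_left h6 (by positivity)
    have h6 : ∑ u ∈ Finset.Ico t S.n, S.P.E (fun ω => φ ω * ind (S.at' (hLst S Vj w ep Y Y0 th Ψ) (u + 1) ω ≠
        S.at' (hLst S Vj w ep Y Y0 th Ψ) u ω)) ≤ Bt + Rt + m0 * S.P.E φ := by
      refine le_trans ?_ (add_le_add (le_refl (Bt + Rt)) h2)
      rw [hBt, hRt, ← S.P.E_add, ← S.P.E_sum, ← S.P.E_sum, ← S.P.E_add]
      refine S.P.E_mono fun ω _ => ?_
      rw [← Finset.mul_sum, ← Finset.mul_sum, ← mul_add, ← mul_add]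
      refine mul_le_mul_of_nonneg_left ?_ (hφ0 ω)
      refine (Finset.sum_le_sum fun u _ => hLst_chg S Vj hΨ u ω).trans (le_of_eq ?_)
      rw [Finset.sum_add_distrib, Finset.sum_add_distrib]
      congr 2
      exact Finset.sum_Ico_sub (fun u => ((S.at' (hCum S Vj w ep Y Y0 th Ψ) u ω).length : ℝ)) ht
    unfold mH
    linarith

/-- the residual does not move without a change of the state or of the function -/
theorem hRes_still {u : ℕ} {ω : Om} (h : S.at' (hLst S Vj w ep Y Y0 th Ψ) (u + 1) ω = S.at' (hLst S Vj w ep Y Y0 th Ψ) u ω)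
    (h1 : S.at' Ψ (u + 1) ω = S.at' Ψ u ω) :
    S.at' (hRes S Vj w ep Y Y0 th Ψ) (u + 1) ω = S.at' (hRes S Vj w ep Y Y0 th Ψ) u ω := by
  unfold Sys.at' at h h1 ⊢
  funext d
  unfold hRes hStr hCur
  rw [h, h1]

theorem hStr_still {u : ℕ} {ω : Om} (h : S.at' (hLst S Vj w ep Y Y0 th Ψ) (u + 1) ω = S.at' (hLst S Vj w ep Y Y0 th Ψ) u ω) :
    S.at' (hStr S Vj w ep Y Y0 th Ψ) (u + 1) ω = S.at' (hStr S Vj w ep Y Y0 th Ψ) u ω := by
  unfold Sys.at' at h ⊢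
  funext d
  unfold hStr hCur
  rw [h]

/-- the residual moves only when the state or the function `Ψ` moves -/
theorem hRes_future (hY : 0 ≤ Y) (hY0 : 0 < Y0) (hep : 0 < ep) (hΨ : ∀ t g ξ, Dep (univ.erase w) (Ψ t g ξ))
    (hΨY : ∀ t g ξ x d, |Ψ t g ξ x d| ≤ Y0) {m0 : ℝ} (hm0 : 0 ≤ m0) (hm : S.Future (univ.erase w) Ψ m0) :
    S.Future (univ.erase w) (hRes S Vj w ep Y Y0 th Ψ) (m0 + mH ep Y0 m0) := by
  intro t φ hφ hφ0
  have h1 := hm t φ hφ hφ0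
  have h2 := hLst_future S Vj (th := th) hY hY0 hep hΨ hΨY hm0 hm t φ hφ hφ0
  rw [add_mul]
  refine le_trans ?_ (add_le_add h1 h2)
  rw [← Finset.sum_add_distrib]
  refine Finset.sum_le_sum fun u _ => ?_
  rw [← S.P.E_add]
  refine S.P.E_mono fun ω _ => ?_
  rw [← mul_add]
  refine mul_le_mul_of_nonneg_left ?_ (hφ0 ω)
  by_cases h3 : S.at' Ψ (u + 1) ω = S.at' Ψ u ω
  · by_cases h4 : S.at' (hLst S Vj w ep Y Y0 th Ψ) (u + 1) ω = S.at' (hLst S Vj w ep Y Y0 th Ψ) u ω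
    · have h5 := hRes_still S Vj h4 h3
      rw [ind_not (p := S.at' (hRes S Vj w ep Y Y0 th Ψ) (u + 1) ω ≠ S.at' (hRes S Vj w ep Y Y0 th Ψ) u ω)
        (fun h => h h5)]
      exact add_nonneg (ind_nonneg _) (ind_nonneg _)
    · rw [ind_of (p := S.at' (hLst S Vj w ep Y Y0 th Ψ) (u + 1) ω ≠ S.at' (hLst S Vj w ep Y Y0 th Ψ) u ω) h4]
      have := ind_nonneg (S.at' Ψ (u + 1) ω ≠ S.at' Ψ u ω)
      linarith [ind_le_one (S.at' (hRes S Vj w ep Y Y0 th Ψ) (u + 1) ω ≠ S.at' (hRes S Vj w ep Y Y0 th Ψ) u ω)]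
  · rw [ind_of (p := S.at' Ψ (u + 1) ω ≠ S.at' Ψ u ω) h3]
    have := ind_nonneg (S.at' (hLst S Vj w ep Y Y0 th Ψ) (u + 1) ω ≠ S.at' (hLst S Vj w ep Y Y0 th Ψ) u ω)
    linarith [ind_le_one (S.at' (hRes S Vj w ep Y Y0 th Ψ) (u + 1) ω ≠ S.at' (hRes S Vj w ep Y Y0 th Ψ) u ω)]

/-- mean number of public births on the path -/
theorem hPub_mean (hY : 0 < Y) (hep : 0 < ep) (hth : 0 < th) (hΨ : ∀ t g ξ, Dep (univ.erase w) (Ψ t g ξ))
    (hΨY : ∀ t g ξ x d, |Ψ t g ξ x d| ≤ Y0) {m0 : ℝ} (hm : S.Future (univ.erase w) Ψ m0) :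
    S.P.E (fun ω => ∑ t ∈ range (S.n + 1), ((S.at' (hPub S Vj w ep Y Y0 th Ψ) t ω : ℕ) : ℝ)) ≤
      4 * (1 + m0) * Y0 ^ 2 * Y / (3 * ep ^ 3 * th) := by
  have hthr : 0 < thrH ep Y th := by unfold thrH; positivity
  have h1 := pubsH_le (freeS S Vj w) (faceT Ξ Pt V Vj w) (thr := thrH ep Y th)
    (N := nstH ep Y0 (thrH ep Y th)) (mvF_bdH S Vj hΨY) hY.le hep hthr (le_n2H ep Y0) (n2H_pos ep Y0)
    (movB S Vj hΨ hm) (fun n _ φ => unifS S Vj w n φ)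
  refine le_trans h1 (le_of_eq ?_)
  unfold thrH
  field_simp
  ring

/-- the births of the node only depend on the exact values outside `Vj` and on the cells inside; not on the coins -/
theorem hBf_congr {t : ℕ} {g : Γ} {ξ ξ' : Ξ} {x y : ι → Pt} (h1 : ∀ i, i ∉ Vj → i ≠ w → y i = x i)
    (h2 : ∀ i ∈ Vj, i ≠ w → S.cl t (y i) = S.cl t (x i)) :
    hBf S Vj w ep Y Y0 th Ψ t g ξ' y = hBf S Vj w ep Y Y0 th Ψ t g ξ x := by
  unfold hBf
  exact pbsH_cell (faceN S Vj w) (faceT Ξ Pt V Vj w) t g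
    ((mem_faceCl S).2 ⟨fun j hj => h1 j.1 hj j.2, fun j hj => h2 j.1 hj j.2⟩)

theorem hCum_nodup (t : ℕ) (g : Γ) (ξ : Ξ) (x : ι → Pt) : (hCum S Vj w ep Y Y0 th Ψ t g ξ x).Nodup :=
  (lstH_nodup (faceN S Vj w) (faceT Ξ Pt V Vj w) t g (ξ, rsw w x)).1

theorem hCum_time {t : ℕ} {g : Γ} {ξ : Ξ} {x : ι → Pt} {s : Birth (TJs Pt V Vj w → Bool)}
    (hs : s ∈ hCum S Vj w ep Y Y0 th Ψ t g ξ x) : s.t ≤ t :=
  (lstH_nodup (faceN S Vj w) (faceT Ξ Pt V Vj w) t g (ξ, rsw w x)).2 s hs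

theorem hBf_time {t : ℕ} {g : Γ} {ξ : Ξ} {x : ι → Pt} {s : Birth (TJs Pt V Vj w → Bool)}
    (hs : s ∈ hBf S Vj w ep Y Y0 th Ψ t g ξ x) : s.t = t := hnbs_time _ _ _ hs

/-- an element of a list was there at the parent or is born at the node -/
theorem mem_hCum {t : ℕ} {g : Γ} {ξ : Ξ} {x : ι → Pt} {s : Birth (TJs Pt V Vj w → Bool)}
    (hs : s ∈ hCum S Vj w ep Y Y0 th Ψ (t + 1) g ξ x) :
    s ∈ hCum S Vj w ep Y Y0 th Ψ t (S.par t g) ξ x ∨ s ∈ hBf S Vj w ep Y Y0 th Ψ (t + 1) g ξ x := by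
  rcases mem_lstH (faceN S Vj w) (faceT Ξ Pt V Vj w) (t + 1) g (ξ, rsw w x) hs with h | h
  · rw [preH_succ_fst] at h
    exact Or.inl h
  · exact Or.inr h

/-- **births are thick** -/
theorem hBf_thick (hwV : w ∈ Vj) {t : ℕ} {g : Γ} {ξ0 : Ξ} {y : ι → Pt} {s : Birth (TJs Pt V Vj w → Bool)}
    (hs : s ∈ hBf S Vj w ep Y Y0 th Ψ t g ξ0 y) :
    thrH ep Y th * ∑ _ξ : Ξ, ∑ z : ι → Pt, ind (S.Box Vj t y z) ≤
      ∑ ξ : Ξ, ∑ z : ι → Pt, ind (S.Box Vj t y z ∧ s ∈ hCum S Vj w ep Y Y0 th Ψ t g ξ z) := by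
  have h1 := pbsH_thick (faceN S Vj w) (faceT Ξ Pt V Vj w) t g (ξ0, rsw w y) hs
  have h2 := box_face S hwV t y ξ0 (fun q => s ∈ (lstH (faceN S Vj w) (faceT Ξ Pt V Vj w) ep Y Y0 (thrH ep Y th)
    (nstH ep Y0 (thrH ep Y th)) (n2H ep Y0) (mF S w 1 Ψ) t g q).1)
  have h3 := box_face S hwV t y ξ0 (fun _ => True)
  have h4 : ∑ _ξ : Ξ, ∑ z : ι → Pt, ind (S.Box Vj t y z) =
      ∑ ξ : Ξ, ∑ z : ι → Pt, ind (S.Box Vj t y z ∧ (fun _ : FPt ι Ξ Pt w => True) (ξ, rsw w z)) := by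
    refine Finset.sum_congr rfl fun ξ _ => Finset.sum_congr rfl fun z _ => ?_
    congr 1
    exact propext ⟨fun h => ⟨h, trivial⟩, fun h => h.1⟩
  have h5 : ∑ q ∈ (faceN S Vj w).cell t (ξ0, rsw w y), ind ((fun _ : FPt ι Ξ Pt w => True) q) =
      ((faceN S Vj w).cell t (ξ0, rsw w y)).card := by
    rw [Finset.sum_congr rfl fun q _ => ind_of trivial, Finset.sum_const, nsmul_eq_mul, mul_one]
  rw [h4, h3, h5]
  refine le_trans ?_ h2.symm.le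
  rw [mul_left_comm]
  exact mul_le_mul_of_nonneg_left h1 (Finset.sum_nonneg fun _ _ => ind_nonneg _)

/-- **the cumulative list is a list of births in the sense of `GM/PieceDef`** -/
def hBL (hY : 0 < Y) (hY0 : 0 < Y0) (hep : 0 < ep) (hth : 0 < th) (hΨ : ∀ t g ξ, Dep (univ.erase w) (Ψ t g ξ))
    (hΨY : ∀ t g ξ x d, |Ψ t g ξ x d| ≤ Y0) (h0 : ∀ g ξ x, Ψ 0 g ξ x = 0) {m0 : ℝ} (hm0 : 0 ≤ m0)
    (hm : S.Future (univ.erase w) Ψ m0) :
    BL S Vj w (44 * (1 + m0) * Y0 ^ 2 / ep ^ 2) (4 * (1 + m0) * Y0 ^ 2 * Y / (3 * ep ^ 3 * th)) where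
  L := hCum S Vj w ep Y Y0 th Ψ
  B := hBf S Vj w ep Y Y0 th Ψ
  dep := hCum_dep S Vj w
  cell _ _ _ _ _ _ h1 h2 := hBf_congr S Vj h1 h2
  zero := hCum_zero S Vj hep hY hth h0
  suf := hCum_suffix S Vj
  nodup := hCum_nodup S Vj
  time _ _ _ _ _ hs := hCum_time S Vj hs
  btime _ _ _ _ _ hs := hBf_time S Vj hs
  new _ _ _ _ _ hs := mem_hCum S Vj hs
  fut := by
    intro t φ hφ h0
    refine (hCum_future S Vj hY.le hep hΨ hΨY hm0 hm t φ hφ h0).trans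
      (mul_le_mul_of_nonneg_right ?_ (S.P.E_nonneg fun w _ => h0 w))
    refine div_le_div_of_nonneg_right ?_ (by positivity)
    have : 0 ≤ Y0 ^ 2 := sq_nonneg _
    nlinarith
  tail := hCum_tail S Vj hY.le hY0 hep hΨ hΨY hm0 hm
  pub := by
    refine (S.P.E_mono fun ω _ => Finset.sum_le_sum fun t _ => ?_).trans (hPub_mean S Vj hY hep hth hΨ hΨY hm)
    exact_mod_cast card_pbsH (faceN S Vj w) (faceT Ξ Pt V Vj w) t (S.gm t ω) (S.xi ω, rsw w (S.x ω))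

/-! ### coin free functions have coin free layers -/

omit [Nonempty (TK Vj w)] in
/-- two points which the RULE does not distinguish -/
theorem hnode_pt {P V T : Type*} [Fintype V] [Nonempty T] {ep Y thr : ℝ} {val : T → P → V → ℝ} {F : P → V → ℝ}
    {Q : FP V} {C : Finset P} {p q : P} (hC : p ∈ C ↔ q ∈ C) (hF : F p = F q) (hv : ∀ τ, val τ p = val τ q) (t : ℕ)
    {L : P → Rc T} (hL : L p = L q) (k : ℕ) :
    hnode ep Y thr val F Q C t L k p = hnode ep Y thr val F Q C t L k q := by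
  induction k with
  | zero => exact hL
  | succ k ih =>
    set M := hnode ep Y thr val F Q C t L k with hM
    show hstep ep Y thr val F Q C t k M p = hstep ep Y thr val F Q C t k M q
    have h1 : ∀ τ, hcorr ep Y val F Q M τ p = hcorr ep Y val F Q M τ q := by
      intro τ
      unfold hcorr lres lsum
      simp only [ih, hF, hv]
    have h2 : ∀ τ, (p ∈ hmem ep Y val F Q C M τ ↔ q ∈ hmem ep Y val F Q C M τ) := by
      intro τ
      rw [mem_hmem, mem_hmem, hC, h1]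
    by_cases h : HHit ep Y thr val F Q C M ∧ p ∈ hmem ep Y val F Q C M (hborn ep Y thr val F Q C M)
    · rw [hstep_mem h.1 h.2, hstep_mem h.1 ((h2 _).1 h.2), ih]
    · rw [hstep_not_mem h, hstep_not_mem (fun h' => h ⟨h'.1, (h2 _).2 h'.2⟩), ih]

omit [Nonempty (TK Vj w)] in
/-- two points which the machine does not distinguish -/
theorem lstH_pt {ι P V : Type*} {Gam : ℕ → Type*} [Fintype V] (D : Nodes P V Gam) (S : Tests ι P V)
    {ep Y Y0 thr : ℝ} {N n2 : ℕ} {F : ∀ n, Gam n → P → V → ℝ} {p q : P} (hC : ∀ n, q ∈ D.cell n p)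
    (hF : ∀ n γ, F n γ p = F n γ q) (hv : ∀ τ, S.val τ p = S.val τ q) :
    ∀ n (γ : Gam n), lstH D S ep Y Y0 thr N n2 F n γ p = lstH D S ep Y Y0 thr N n2 F n γ q := by
  intro n
  induction n with
  | zero =>
    intro γ
    show hnode ep Y thr S.val (F 0 γ) (D.J 0 γ) (D.cell 0 p) 0 (fun _ => ([], 0)) N p =
      hnode ep Y thr S.val (F 0 γ) (D.J 0 γ) (D.cell 0 q) 0 (fun _ => ([], 0)) N q
    rw [D.coh 0 p q (hC 0)]
    exact hnode_pt (iff_of_true (D.self 0 p) (hC 0)) (hF 0 γ) hv 0 rfl N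
  | succ n ih =>
    intro γ
    show hnode ep Y thr S.val (F (n + 1) γ) (D.J (n + 1) γ) (D.cell (n + 1) p) (n + 1)
        (hpreS ep Y Y0 n2 S.val (F n (D.prev n γ)) (F (n + 1) γ) (D.J (n + 1) γ)
        (lstH D S ep Y Y0 thr N n2 F n (D.prev n γ))) N p =
      hnode ep Y thr S.val (F (n + 1) γ) (D.J (n + 1) γ) (D.cell (n + 1) q) (n + 1)
        (hpreS ep Y Y0 n2 S.val (F n (D.prev n γ)) (F (n + 1) γ) (D.J (n + 1) γ)
        (lstH D S ep Y Y0 thr N n2 F n (D.prev n γ))) N q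
    rw [D.coh (n + 1) p q (hC (n + 1))]
    refine hnode_pt (iff_of_true (D.self (n + 1) p) (hC (n + 1))) (hF (n + 1) γ) hv (n + 1) ?_ N
    unfold hpreS lpot lsum
    simp only [ih, hF, hv]

/-- the states of a coin free function are coin free -/
theorem hLst_coin (hΨ : ∀ t g ξ ξ', Ψ t g ξ = Ψ t g ξ') (t : ℕ) (g : Γ) (ξ ξ' : Ξ) :
    hLst S Vj w ep Y Y0 th Ψ t g ξ = hLst S Vj w ep Y Y0 th Ψ t g ξ' := by
  funext x
  refine lstH_pt (faceN S Vj w) (faceT Ξ Pt V Vj w) (fun n => ?_) (fun n γ => ?_) (fun τ => ?_) t g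
  · show (ξ', rsw w x) ∈ (faceCl S Vj w).cell n (ξ, rsw w x)
    rw [mem_faceCl]
    exact ⟨fun _ _ => rfl, fun _ _ => rfl⟩
  · funext d
    show Ψ n γ ξ (glw w (S.x S.nonempty_Om.some w) (rsw w x)) d / 1 =
      Ψ n γ ξ' (glw w (S.x S.nonempty_Om.some w) (rsw w x)) d / 1
    rw [hΨ n γ ξ ξ']
  · funext d
    rfl

theorem hCum_coin (hΨ : ∀ t g ξ ξ', Ψ t g ξ = Ψ t g ξ') (t : ℕ) (g : Γ) (ξ ξ' : Ξ) :
    hCum S Vj w ep Y Y0 th Ψ t g ξ = hCum S Vj w ep Y Y0 th Ψ t g ξ' := by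
  funext x
  unfold hCum
  rw [hLst_coin S Vj hΨ t g ξ ξ']

theorem hCur_coin (hΨ : ∀ t g ξ ξ', Ψ t g ξ = Ψ t g ξ') (t : ℕ) (g : Γ) (ξ ξ' : Ξ) :
    hCur S Vj w ep Y Y0 th Ψ t g ξ = hCur S Vj w ep Y Y0 th Ψ t g ξ' := by
  funext x
  unfold hCur
  rw [hLst_coin S Vj hΨ t g ξ ξ']

theorem hStr_coin (hΨ : ∀ t g ξ ξ', Ψ t g ξ = Ψ t g ξ') (t : ℕ) (g : Γ) (ξ ξ' : Ξ) :
    hStr S Vj w ep Y Y0 th Ψ t g ξ = hStr S Vj w ep Y Y0 th Ψ t g ξ' := by
  funext x d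
  rw [hStr_lin, hStr_lin, hCur_coin S Vj hΨ t g ξ ξ']

theorem hRes_coin (hΨ : ∀ t g ξ ξ', Ψ t g ξ = Ψ t g ξ') (t : ℕ) (g : Γ) (ξ ξ' : Ξ) :
    hRes S Vj w ep Y Y0 th Ψ t g ξ = hRes S Vj w ep Y Y0 th Ψ t g ξ' := by
  funext x d
  unfold hRes
  rw [hStr_coin S Vj hΨ t g ξ ξ', hΨ t g ξ ξ']

end layer

end

end Pool.Agent.GMM.Lin
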