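import Pool.Agent.GMM.PackA

/-!
# GMM/Pack: the package (row CM, CM.3 (4); helper46)

* `nA_pi`, `nA_le_of_vals` : number of values of tuples;
* `LC_ov` : the labels inside `J ∪ B`, with the real vertices of `B` replaced by `u`, are the labels of one copy at `u`;
* `vPk` : the letters of the package at given seed and public vertices; `vPk_let` : they are admissible letters (`Let1`);
* `pack_le` : at a fixed seed the information of `L_G` about the simulated real labels is at most the bound of `ph1`.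
-/

set_option autoImplicit false
set_option linter.unusedSectionVars false

namespace Pool.Agent.GMM

open Finset Pool.Agent.PWZ Pool.Agent.M3 Pool.Agent.M3.FP Pool.Agent.GMC

noncomputable section

variable {ι α χ : Type} [Fintype ι] [DecidableEq ι] [Fintype α] [Fintype χ] [DecidableEq χ] (D : SD ι α χ)

/-! ## number of values -/

section count

variable {κ κ' : Type*}

theorem nA_le_of_vals {f : α → κ} {S : Finset κ} (h : ∀ a, D.PA.p a ≠ 0 → f a ∈ S) : nA D f ≤ S.card := by
  classical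
  unfold nA
  refine Finset.card_le_card (fun x hx => ?_)
  obtain ⟨a, ha, rfl⟩ := Finset.mem_image.1 hx
  exact h a (mem_filter.1 ha).2

/-- `f` has only values of `g` -/
theorem nA_le_vals {f g : α → κ} (h : ∀ a, D.PA.p a ≠ 0 → ∃ a', D.PA.p a' ≠ 0 ∧ f a = g a') : nA D f ≤ nA D g := by
  classical
  have h1 : nA D g = ((univ.filter fun a => D.PA.p a ≠ 0).image g).card := rfl
  rw [h1]
  refine nA_le_of_vals D (fun a ha => ?_)
  obtain ⟨a', ha', h2⟩ := h a ha
  rw [h2]
  exact Finset.mem_image_of_mem g (mem_filter.2 ⟨mem_univ _, ha'⟩)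

/-- a function of `g` -/
theorem nA_comp {f : α → κ} {g : α → κ'} (h : ∀ a a', g a = g a' → f a = f a') : nA D f ≤ nA D g := by
  classical
  unfold nA
  have h0 : ∀ b ∈ (univ.filter fun a => D.PA.p a ≠ 0).image f, ∃ a, D.PA.p a ≠ 0 ∧ f a = b := by
    intro b hb
    obtain ⟨a, ha, h1⟩ := Finset.mem_image.1 hb
    exact ⟨a, (mem_filter.1 ha).2, h1⟩
  by_cases hne : Nonempty α
  · choose! c hc using h0
    refine Finset.card_le_card_of_injOn (fun b => g (c b)) (fun b hb => ?_) (fun b hb b' hb' e => ?_)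
    · exact Finset.mem_coe.2 (Finset.mem_image_of_mem g (mem_filter.2 ⟨mem_univ _, (hc b hb).1⟩))
    · have h1 := h _ _ e
      rw [(hc b hb).2, (hc b' hb').2] at h1
      exact h1
  · have : (univ.filter fun a => D.PA.p a ≠ 0) = (∅ : Finset α) := by
      ext a
      exact absurd ⟨a⟩ hne
    rw [this]
    simp

theorem nA_pair {f : α → κ} {g : α → κ'} : nA D (fun a => (f a, g a)) ≤ nA D f * nA D g := by
  classical
  have h1 : nA D f = ((univ.filter fun a => D.PA.p a ≠ 0).image f).card := rfl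
  have h2 : nA D g = ((univ.filter fun a => D.PA.p a ≠ 0).image g).card := rfl
  rw [h1, h2, ← Finset.card_product]
  refine nA_le_of_vals D (fun a ha => ?_)
  have ha' : a ∈ univ.filter fun a => D.PA.p a ≠ 0 := mem_filter.2 ⟨mem_univ _, ha⟩
  exact Finset.mem_product.2 ⟨Finset.mem_image_of_mem f ha', Finset.mem_image_of_mem g ha'⟩

theorem nA_one (c : κ) : nA D (fun _ : α => c) ≤ 1 := by
  classical
  refine (nA_le_of_vals D (S := {c}) (fun a _ => mem_singleton_self _)).trans (Finset.card_singleton c).le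

open Classical in
/-- tuples -/
theorem nA_pi {E : Type*} (S : Finset E) (f : E → α → κ) (b : E → ℝ) (hb : ∀ e ∈ S, (nA D (f e) : ℝ) ≤ Real.exp (b e)) :
    (nA D (fun a => fun e => if e ∈ S then some (f e a) else none) : ℝ) ≤ Real.exp (∑ e ∈ S, b e) := by
  classical
  induction S using Finset.induction_on with
  | empty =>
    rw [Finset.sum_empty, Real.exp_zero]
    have h1 : (fun a : α => fun e : E => if e ∈ (∅ : Finset E) then some (f e a) else none) =
        fun _ => fun _ => none := by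
      funext a e
      rw [if_neg (Finset.notMem_empty e)]
    rw [h1]
    exact_mod_cast nA_one D (fun _ : E => (none : Option κ))
  | insert e S he ih =>
    rw [Finset.sum_insert he, Real.exp_add]
    have h1 := ih (fun e' he' => hb e' (mem_insert_of_mem he'))
    have h2 := hb e (mem_insert_self _ _)
    have h3 : nA D (fun a => fun e' => if e' ∈ insert e S then some (f e' a) else none) ≤
        nA D (fun a => (f e a, fun e' => if e' ∈ S then some (f e' a) else none)) := by
      refine nA_comp D (fun a a' h => ?_)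
      simp only [Prod.mk.injEq] at h
      funext e'
      by_cases h4 : e' = e
      · rw [h4, if_pos (mem_insert_self _ _), if_pos (mem_insert_self _ _), h.1]
      · have h5 := congrFun h.2 e'
        by_cases h6 : e' ∈ S
        · rw [if_pos h6, if_pos h6] at h5
          rw [if_pos (mem_insert_of_mem h6), if_pos (mem_insert_of_mem h6)]
          exact h5
        · rw [if_neg (fun h7 => (mem_insert.1 h7).elim h4 h6), if_neg (fun h7 => (mem_insert.1 h7).elim h4 h6)]
    have h4 := h3.trans (nA_pair D)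
    have h5 : (nA D (fun a => fun e' => if e' ∈ insert e S then some (f e' a) else none) : ℝ) ≤
        (nA D (f e) : ℝ) * (nA D (fun a => fun e' => if e' ∈ S then some (f e' a) else none) : ℝ) := by
      exact_mod_cast h4
    exact h5.trans (mul_le_mul h2 h1 (Nat.cast_nonneg _) (Real.exp_pos _).le)

end count

variable {W : Type} [Fintype W] [DecidableEq W] {ty : W → ι} {k s : ℕ} {r M : ℕ} {D}

/-! ## one copy -/

/-- the labels inside `J ∪ B` at the replaced vertices -/
theorem LC_ov {B H : Finset W} (hH : Set.InjOn ty (H : Set W)) (hB : fre D ty H ⊆ B) (a : α) (ξ : TW χ B r M)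
    (u : ι → χ) : LC D ty H (rp B (a, ov ty B ξ u)) = LC D id (H.image ty) (a, u) := by
  unfold LC
  rw [Finset.image_id]
  refine D.dep _ _ _ _ (fun i hi => ?_)
  obtain ⟨y, hy, rfl⟩ := Finset.mem_image.1 hi
  by_cases hJ : ty y ∈ D.J
  · rw [vx_J D ty _ _ hJ, vx_J D id _ _ hJ]
  · rw [vx_of D ty hH _ hy hJ]
    have h1 := vx_of D id (G := H.image ty) (Function.injective_id.injOn) u (y := ty y) hi hJ
    simp only [id] at h1
    rw [h1]
    exact ov_real ty B ξ u (hB (mem_filter.2 ⟨hy, hJ⟩))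

/-- equal types, same set -/
theorem eq_of_image {G H : Finset W} (hJ : JInj D.J ty) (hGi : Set.InjOn ty (G : Set W)) (hHi : Set.InjOn ty (H : Set W))
    (hB : fre D ty H ⊆ fre D ty G) (h : H.image ty = G.image ty) : H = G := by
  have h1 : H ⊆ G := by
    intro y hy
    by_cases hyJ : ty y ∈ D.J
    · have h2 : ty y ∈ G.image ty := by rw [← h]; exact Finset.mem_image_of_mem ty hy
      obtain ⟨z, hz, h3⟩ := Finset.mem_image.1 h2
      rw [hJ y z hyJ h3.symm]
      exact hz
    · exact (mem_filter.1 (hB (mem_filter.2 ⟨hy, hyJ⟩))).1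
  refine Finset.eq_of_subset_of_card_le h1 ?_
  rw [← Finset.card_image_of_injOn hGi, ← h, Finset.card_image_of_injOn hHi]

/-- the labels of `lst` -/
theorem lst_fac {G : Finset W} (hJ : JInj D.J ty) (hG : G ∈ LS ty k) (hs : G.card = s) (ξ : TW χ (fre D ty G) r M)
    (u : ι → χ) : Fac (fun a => Lf (LC D id) (univ.filter fun H => H ⊆ D.J ∪ G.image ty ∧ H.card ≤ (G.image ty).card ∧
      H ≠ G.image ty) (a, u)) (fun a => Lf (LC D ty) (lst D ty k s (fre D ty G) G) (rp (fre D ty G) (a, ov ty (fre D ty G) ξ u))) := by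
  have hGi := (mem_LS.1 hG).2
  intro a a' h
  funext ⟨H, hH⟩
  show LC D ty H _ = LC D ty H _
  obtain ⟨h1, h2, h3, h4⟩ := mem_lst.1 hH
  have hHi := (mem_LS.1 h1).2
  rw [LC_ov hHi h2, LC_ov hHi h2]
  have h5 : H.image ty ∈ univ.filter fun H => H ⊆ D.J ∪ G.image ty ∧ H.card ≤ (G.image ty).card ∧ H ≠ G.image ty := by
    refine mem_filter.2 ⟨mem_univ _, ?_, ?_, ?_⟩
    · intro i hi
      obtain ⟨y, hy, rfl⟩ := Finset.mem_image.1 hi
      by_cases hyJ : ty y ∈ D.J
      · exact mem_union_left _ hyJ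
      · refine mem_union_right _ (Finset.mem_image_of_mem ty ?_)
        exact (mem_filter.1 (h2 (mem_filter.2 ⟨hy, hyJ⟩))).1
    · rw [Finset.card_image_of_injOn hGi, Finset.card_image_of_injOn hHi, hs]
      exact h3
    · exact fun h6 => h4 (eq_of_image hJ hGi hHi h2 h6)
  have h6 : Fac (fun a => Lf (LC D id) (univ.filter fun H => H ⊆ D.J ∪ G.image ty ∧ H.card ≤ (G.image ty).card ∧
      H ≠ G.image ty) (a, u)) (fun a => LC D id (H.image ty) (a, u)) := fun b b' hb => by
    exact congrFun hb ⟨H.image ty, h5⟩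
  exact h6 a a' h

/-- the labels below `G`, one direction -/
theorem below_fac {G : Finset W} (hG : G ∈ LS ty k) (ξ : TW χ (fre D ty G) r M) (u : ι → χ) :
    Fac (fun a => Lf (LC D id) (G.image ty).ssubsets (a, u))
      (fun a => Lf (LC D ty) G.ssubsets (rp (fre D ty G) (a, ov ty (fre D ty G) ξ u))) := by
  have hGi := (mem_LS.1 hG).2
  intro a a' h
  funext ⟨H, hH⟩
  show LC D ty H _ = LC D ty H _
  have hH1 := Finset.mem_ssubsets.1 hH
  have hHi : Set.InjOn ty (H : Set W) := hGi.mono (by exact_mod_cast hH1.1)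
  have hfr : fre D ty H ⊆ fre D ty G := Finset.filter_subset_filter _ hH1.1
  rw [LC_ov hHi hfr, LC_ov hHi hfr]
  have h5 : H.image ty ∈ (G.image ty).ssubsets := by
    refine Finset.mem_ssubsets.2 (Finset.ssubset_iff_subset_ne.2 ⟨Finset.image_subset_image hH1.1, fun h6 => ?_⟩)
    have h7 := Finset.card_lt_card hH1
    rw [← Finset.card_image_of_injOn hGi, ← Finset.card_image_of_injOn hHi, h6] at h7
    exact lt_irrefl _ h7
  exact congrFun h ⟨H.image ty, h5⟩

/-- the labels below `G`, other direction -/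
theorem below_fac' {G : Finset W} (hG : G ∈ LS ty k) (ξ : TW χ (fre D ty G) r M) (u : ι → χ) :
    Fac (fun a => Lf (LC D ty) G.ssubsets (rp (fre D ty G) (a, ov ty (fre D ty G) ξ u)))
      (fun a => Lf (LC D id) (G.image ty).ssubsets (a, u)) := by
  classical
  have hGi := (mem_LS.1 hG).2
  intro a a' h
  funext ⟨I, hI⟩
  show LC D id I _ = LC D id I _
  have hI1 := Finset.mem_ssubsets.1 hI
  set H := G.filter fun y => ty y ∈ I with hHd
  have hHI : H.image ty = I := by
    ext i
    rw [Finset.mem_image]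
    constructor
    · rintro ⟨y, hy, rfl⟩
      exact (mem_filter.1 hy).2
    · intro hi
      obtain ⟨y, hy, rfl⟩ := Finset.mem_image.1 (hI1.1 hi)
      exact ⟨y, mem_filter.2 ⟨hy, hi⟩, rfl⟩
  have hHG : H ⊆ G := filter_subset _ _
  have hHss : H ∈ G.ssubsets := by
    refine Finset.mem_ssubsets.2 (Finset.ssubset_iff_subset_ne.2 ⟨hHG, fun h6 => ?_⟩)
    rw [h6] at hHI
    exact hI1.2 (by rw [← hHI])
  have hHi : Set.InjOn ty (H : Set W) := hGi.mono (by exact_mod_cast hHG)
  have hfr : fre D ty H ⊆ fre D ty G := Finset.filter_subset_filter _ hHG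
  rw [← hHI, ← LC_ov hHi hfr a ξ u, ← LC_ov hHi hfr a' ξ u]
  exact congrFun h ⟨H, hHss⟩

/-! ## the letters of the package -/

variable {Ex : Finset W → CS α χ W → ℕ} {Θ : Type} [Fintype Θ] {Q : FP Θ} {e0 : ℝ}

open Classical in
/-- the letters of the package at given seed and public vertices -/
def vPk (D : SD ι α χ) (ty : W → ι) (k s : ℕ) (B : Finset W)
    (Ls : Shp D ty k s B × (Ltr B → Option (Key r M)) → KW α χ B r M × Θ → ℕ) (ξ : TW χ B r M) (θ : Θ) (I : Finset ι)
    (p : CS α χ ι) : ℕ :=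
  if ∀ i ∈ I, (D.mu i).p (p.2 i) ≠ 0 then
    code (fun q : CS α χ ι => VL Ls (B.filter fun y => ty y ∈ I) ((q.1, ov ty B ξ q.2), θ)) p + 1 else 0

/-- the used vertices of a package letter -/
theorem Vw_ov {B P : Finset W} {I : Finset ι} (hP : ∀ y ∈ P, ty y ∈ I) (ξ : TW χ B r M) {u u' : ι → χ}
    (h : ∀ i ∈ I, u i = u' i) (a a' : α) :
    Vw Kr Kk (insert none (P.image (ltr B))) (a, ov ty B ξ u) = Vw Kr Kk (insert none (P.image (ltr B))) (a', ov ty B ξ u') := by
  unfold Vw
  rw [Prod.mk.injEq]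
  constructor
  · refine Fam_eq_iff'.2 (fun l hl => ?_)
    have hl' : l ∈ insert none (P.image (ltr B)) := by exact_mod_cast hl
    funext z
    show ov ty B ξ u (l, none) z = ov ty B ξ u' (l, none) z
    by_cases hz : z ∈ B ∧ l = ltr B z
    · rcases mem_insert.1 hl' with h1 | h1
      · rw [h1] at hz
        exact absurd hz.1 (ltr_none hz.2.symm)
      · obtain ⟨y, hy, h2⟩ := Finset.mem_image.1 h1
        have h3 : y = z := by
          rw [← h2, ltr_of B hz.1] at hz
          exact ltr_inj hz.2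
        rw [h3] at hy
        rw [hz.2, ov_real ty B ξ u hz.1, ov_real ty B ξ u' hz.1]
        exact h _ (hP z hy)
    · have h4 : ¬ (((l, (none : Option (Key r M))).2 = none) ∧ z ∈ B ∧ (l, (none : Option (Key r M))).1 = ltr B z) :=
        fun h5 => hz h5.2
      rw [ov_not ty B ξ u h4, ov_not ty B ξ u' h4]
  · funext q
    funext z
    show ov ty B ξ u (q.1, some q.2) z = ov ty B ξ u' (q.1, some q.2) z
    have h4 : ¬ (((q.1, some q.2) : Ltr B × Option (Key r M)).2 = none ∧ z ∈ B ∧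
        ((q.1, some q.2) : Ltr B × Option (Key r M)).1 = ltr B z) := fun h5 => absurd h5.1 (by simp)
    rw [ov_not ty B ξ u h4, ov_not ty B ξ u' h4]

variable {B : Finset W} {n : Ltr B × Fin r → ℕ}
  {Ls : Shp D ty k s B × (Ltr B → Option (Key r M)) → KW α χ B r M × Θ → ℕ}

/-- the package depends on the hidden point and the vertices of `I` -/
theorem VL_ov (hEx : ExDep B Ex) (hB : ∀ y ∈ B, ty y ∉ D.J) (hS : SimOut D ty k s B Ex n Q Ls e0) {P : Finset W}
    {I : Finset ι} (hP : ∀ y ∈ P, ty y ∈ I) (ξ : TW χ B r M) (θ : Θ) {u u' : ι → χ} (h : ∀ i ∈ I, u i = u' i) (a : α) :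
    VL Ls P ((a, ov ty B ξ u), θ) = VL Ls P ((a, ov ty B ξ u'), θ) := by
  funext e
  unfold VL
  by_cases he : shT D ty k s B e ∧ shS D ty k s B e = insert none (P.image (ltr B))
  · rw [if_pos he, if_pos he]
    congr 1
    refine Ls_fac hEx hS _ (rre_All hB e) _ _ ?_
    simp only [Prod.mk.injEq]
    refine ⟨trivial, trivial, ?_⟩
    rw [fresh_rre, he.2]
    exact Vw_ov hP ξ h a a
  · rw [if_neg he, if_neg he]

theorem PT_ne {ξ : TW χ B r M} (hξ : (PT D ty B r M).p ξ ≠ 0) {u : ι → χ} (hu : ∀ i, (D.mu i).p (u i) ≠ 0) :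
    (PT D ty B r M).p (ov ty B ξ u) ≠ 0 := by
  have h1 : ∀ ζ : TW χ B r M, (PT D ty B r M).p ζ = ∏ q, ∏ y, (D.mu (ty y)).p (ζ q y) := fun ζ => rfl
  rw [h1] at hξ ⊢
  rw [Finset.prod_ne_zero_iff] at hξ ⊢
  intro q hq
  have h2 := hξ q hq
  rw [Finset.prod_ne_zero_iff] at h2 ⊢
  intro y hy
  unfold ov
  split_ifs
  · exact hu _
  · exact h2 y hy

/-- exponent of the number of values of a shape of kind `T` -/
def bb (D : SD ι α χ) (ty : W → ι) (k s : ℕ) (B : Finset W) (aS A : ℝ) : Shp D ty k s B → ℝ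
  | Sum.inl _ => aS
  | Sum.inr _ => A

theorem nA_shL {A aS : ℝ} {G : Finset W} (hEx : Ext D ty G A Ex)
    (hal : ∀ H ∈ LS ty k, H.card = s → ∀ u : W → χ, (nA D (fun a => LC D ty H (a, u)) : ℝ) ≤ Real.exp aS)
    (e : Shp D ty k s (fre D ty G)) (hT : shT D ty k s (fre D ty G) e) (ξ : Ltr (fre D ty G) → (W → χ)) :
    (nA D (fun a => shL D ty k s (fre D ty G) Ex e a ξ) : ℝ) ≤ Real.exp (bb D ty k s (fre D ty G) aS A e) := by
  rcases e with H | P
  · exact hal H.1 H.2.1 hT (rd (fre D ty G) ξ)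
  · exact hEx.card P.1 P.2 (rd (fre D ty G) ξ)

/-- the values of a simulated label at fixed vertices -/
theorem nA_Ls (hEx : ExDep B Ex) (hS : SimOut D ty k s B Ex n Q Ls e0) (e : Shp D ty k s B) {ζ : TW χ B r M}
    (hζ : (PT D ty B r M).p ζ ≠ 0) {θ : Θ} (hθ : Q.p θ ≠ 0) :
    nA D (fun a => Ls (rre D ty k s e) ((a, ζ), θ)) ≤ nA D (fun a => shL D ty k s B Ex e a (fun y => ζ (y, none))) := by
  refine nA_le_vals D (fun a ha => ?_)
  have hw : (FP.pr (KQ D ty B r M) Q).p ((a, ζ), θ) ≠ 0 := by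
    rw [pr_ne]
    refine ⟨?_, hθ⟩
    rw [KQ_eq]
    exact (pr_ne D.PA (PT D ty B r M)).2 ⟨ha, hζ⟩
  obtain ⟨v, hv, h1, h2⟩ := hS.val (rre D ty k s e) ((a, ζ), θ) hw
  rw [KQ_eq] at hv
  refine ⟨v.1, ((pr_ne D.PA (PT D ty B r M)).1 hv).1, ?_⟩
  rw [h2]
  exact LB_fac hEx _ (v := v) (w := (v.1, ζ)) rfl h1

theorem sum_bb_le {A aS : ℝ} (hA : 0 ≤ A) (haS : 0 ≤ aS) (P : Finset W) (hPB : P ⊆ B)
    (S : Finset (Shp D ty k s B)) (hSP : ∀ e ∈ S, shS D ty k s B e = insert none (P.image (ltr B))) :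
    ∑ e ∈ S, bb D ty k s B aS A e ≤ ((LS ty k).card : ℝ) * aS + A := by
  classical
  set isL : Shp D ty k s B → Prop := fun e => ∃ H, e = Sum.inl H with hisL
  have h1 : ∑ e ∈ S, bb D ty k s B aS A e =
      ∑ e ∈ S.filter (fun e => isL e), bb D ty k s B aS A e + ∑ e ∈ S.filter (fun e => ¬ isL e), bb D ty k s B aS A e :=
    (Finset.sum_filter_add_sum_filter_not _ _ _).symm
  have h2 : ∑ e ∈ S.filter (fun e => isL e), bb D ty k s B aS A e ≤ ((LS ty k).card : ℝ) * aS := by
    have h3 : ∑ e ∈ S.filter (fun e => isL e), bb D ty k s B aS A e = ∑ _e ∈ S.filter (fun e => isL e), aS := by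
      refine Finset.sum_congr rfl (fun e he => ?_)
      obtain ⟨H, rfl⟩ := (mem_filter.1 he).2
      rfl
    rw [h3, Finset.sum_const, nsmul_eq_mul]
    refine mul_le_mul_of_nonneg_right ?_ haS
    set g : Shp D ty k s B → Finset W := fun e => match e with
      | Sum.inl H => H.1
      | Sum.inr _ => ∅ with hg
    have h4 : (S.filter (fun e => isL e)).card ≤ (LS ty k).card := by
      refine Finset.card_le_card_of_injOn g (fun e he => ?_) (fun e he e' he' h => ?_)
      · obtain ⟨H, rfl⟩ := (mem_filter.1 (Finset.mem_coe.1 he)).2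
        exact Finset.mem_coe.2 H.2.1
      · obtain ⟨H, rfl⟩ := (mem_filter.1 (Finset.mem_coe.1 he)).2
        obtain ⟨H', rfl⟩ := (mem_filter.1 (Finset.mem_coe.1 he')).2
        have h5 : H.1 = H'.1 := h
        rw [Subtype.ext h5]
    exact_mod_cast h4
  have h3 : ∑ e ∈ S.filter (fun e => ¬ isL e), bb D ty k s B aS A e ≤ A := by
    have h4 : ∑ e ∈ S.filter (fun e => ¬ isL e), bb D ty k s B aS A e = ∑ _e ∈ S.filter (fun e => ¬ isL e), A := by
      refine Finset.sum_congr rfl (fun e he => ?_)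
      rcases e with H | P'
      · exact absurd ⟨H, rfl⟩ (mem_filter.1 he).2
      · rfl
    rw [h4, Finset.sum_const, nsmul_eq_mul]
    have h5 : (S.filter (fun e => ¬ isL e)).card ≤ 1 := by
      refine Finset.card_le_one.2 (fun e he e' he' => ?_)
      rcases e with H | P1
      · exact absurd ⟨H, rfl⟩ (mem_filter.1 he).2
      rcases e' with H | P2
      · exact absurd ⟨H, rfl⟩ (mem_filter.1 he').2
      have key : ∀ P1 : {P : Finset W // P ⊂ B}, shS D ty k s B (Sum.inr P1) = insert none (P.image (ltr B)) → P1.1 = P := by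
        intro P1 h6
        ext y
        constructor
        · intro hy
          have hyB := P1.2.1 hy
          have h7 : ltr B y ∈ shS D ty k s B (Sum.inr P1) := mem_shS_inr.2 (Or.inr ⟨y, hy, rfl⟩)
          rw [h6, ltr_of B hyB] at h7
          rcases mem_insert.1 h7 with h8 | h8
          · exact absurd h8 (by simp)
          · obtain ⟨z, hz, h9⟩ := Finset.mem_image.1 h8
            have := ltr_inj h9
            rw [this] at hz
            exact hz
        · intro hy
          have hyB := hPB hy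
          have h7 : ltr B y ∈ insert none (P.image (ltr B)) := mem_insert_of_mem (Finset.mem_image_of_mem _ hy)
          rw [← h6, ltr_of B hyB] at h7
          rcases mem_shS_inr.1 h7 with h8 | ⟨z, hz, h9⟩
          · exact absurd h8 (by simp)
          · have := ltr_inj h9
            rw [this] at hz
            exact hz
      have h6 := key P1 (hSP _ (mem_filter.1 he).1)
      have h7 := key P2 (hSP _ (mem_filter.1 he').1)
      rw [Subtype.ext (h6.trans h7.symm)]
    have h6 : ((S.filter (fun e => ¬ isL e)).card : ℝ) ≤ 1 := by exact_mod_cast h5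
    calc ((S.filter (fun e => ¬ isL e)).card : ℝ) * A ≤ 1 * A := mul_le_mul_of_nonneg_right h6 hA
      _ = A := one_mul A
  linarith

/-- the number of values of the package at fixed vertices in the support -/
theorem nA_VL {A aS : ℝ} {G : Finset W} (hEx : Ext D ty G A Ex) (hA : 0 ≤ A) (haS : 0 ≤ aS)
    (hal : ∀ H ∈ LS ty k, H.card = s → ∀ u : W → χ, (nA D (fun a => LC D ty H (a, u)) : ℝ) ≤ Real.exp aS)
    {n : Ltr (fre D ty G) × Fin r → ℕ}
    {Ls : Shp D ty k s (fre D ty G) × (Ltr (fre D ty G) → Option (Key r M)) → KW α χ (fre D ty G) r M × Θ → ℕ}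
    (hS : SimOut D ty k s (fre D ty G) Ex n Q Ls e0) {P : Finset W} (hP : P ⊆ fre D ty G)
    {ζ : TW χ (fre D ty G) r M} (hζ : (PT D ty (fre D ty G) r M).p ζ ≠ 0) {θ : Θ} (hθ : Q.p θ ≠ 0) :
    (nA D (fun a => VL Ls P ((a, ζ), θ)) : ℝ) ≤ Real.exp (((LS ty k).card : ℝ) * aS + A) := by
  classical
  set S : Finset (Shp D ty k s (fre D ty G)) := univ.filter fun e => shT D ty k s (fre D ty G) e ∧
    shS D ty k s (fre D ty G) e = insert none (P.image (ltr (fre D ty G))) with hSd
  have h1 : (fun a => VL Ls P ((a, ζ), θ)) =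
      fun a => fun e => if e ∈ S then some (Ls (rre D ty k s e) ((a, ζ), θ)) else none := by
    funext a e
    unfold VL
    by_cases he : shT D ty k s (fre D ty G) e ∧
        shS D ty k s (fre D ty G) e = insert none (P.image (ltr (fre D ty G)))
    · have he2 : e ∈ S := mem_filter.2 ⟨mem_univ _, he⟩
      rw [if_pos he, if_pos he2]
    · have he2 : e ∉ S := fun h => he (mem_filter.1 h).2
      rw [if_neg he, if_neg he2]
  rw [h1]
  refine (nA_pi D S (fun e a => Ls (rre D ty k s e) ((a, ζ), θ)) (bb D ty k s (fre D ty G) aS A) (fun e he => ?_)).trans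
    (Real.exp_le_exp.2 (sum_bb_le hA haS P hP S (fun e he => (mem_filter.1 he).2.2)))
  have h2 := nA_Ls hEx.dep hS e hζ hθ
  have h3 := nA_shL hEx hal e (mem_filter.1 he).2.1 (fun y => ζ (y, none))
  refine le_trans ?_ h3
  exact_mod_cast h2

/-- the letters are admissible -/
theorem vPk_let {A A' aS : ℝ} {G : Finset W} (hEx : Ext D ty G A Ex) (hA : 0 ≤ A) (haS : 0 ≤ aS)
    (hal : ∀ H ∈ LS ty k, H.card = s → ∀ u : W → χ, (nA D (fun a => LC D ty H (a, u)) : ℝ) ≤ Real.exp aS)
    {n : Ltr (fre D ty G) × Fin r → ℕ}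
    {Ls : Shp D ty k s (fre D ty G) × (Ltr (fre D ty G) → Option (Key r M)) → KW α χ (fre D ty G) r M × Θ → ℕ}
    (hS : SimOut D ty k s (fre D ty G) Ex n Q Ls e0) (hA' : ((LS ty k).card : ℝ) * aS + A ≤ A')
    {ξ : TW χ (fre D ty G) r M} (hξ : (PT D ty (fre D ty G) r M).p ξ ≠ 0) {θ : Θ} (hθ : Q.p θ ≠ 0) (p : Finset ι → Prop) :
    Let1 D A' p (vPk D ty k s (fre D ty G) Ls ξ θ) := by
  classical
  have hB : ∀ y ∈ fre D ty G, ty y ∉ D.J := fun y hy => (mem_filter.1 hy).2
  have hA0 : 0 ≤ A' := le_trans (by positivity) hA'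
  constructor
  · intro I _ q q' h1 h2
    unfold vPk
    by_cases hc : ∀ i ∈ I, (D.mu i).p (q.2 i) ≠ 0
    · have hc' : ∀ i ∈ I, (D.mu i).p (q'.2 i) ≠ 0 := fun i hi => by rw [← h2 i hi]; exact hc i hi
      rw [if_pos hc, if_pos hc']
      congr 1
      refine fac_code (fun q : CS α χ ι => VL Ls ((fre D ty G).filter fun y => ty y ∈ I)
        ((q.1, ov ty (fre D ty G) ξ q.2), θ)) q q' ?_
      simp only
      rw [h1]
      exact VL_ov hEx.dep hB hS (fun y hy => (mem_filter.1 hy).2) ξ θ h2 q'.1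
    · have hc' : ¬ ∀ i ∈ I, (D.mu i).p (q'.2 i) ≠ 0 := fun h3 => hc (fun i hi => by rw [h2 i hi]; exact h3 i hi)
      rw [if_neg hc, if_neg hc']
  · intro I _ u
    by_cases hc : ∀ i ∈ I, (D.mu i).p (u i) ≠ 0
    · choose x1 hx1 using fun i => (D.mu i).exists_p_ne
      set u' : ι → χ := fun i => if i ∈ I then u i else x1 i with hu'
      have hu's : ∀ i, (D.mu i).p (u' i) ≠ 0 := by
        intro i
        simp only [hu']
        split_ifs with h
        · exact hc i h
        · exact hx1 i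
      have huu : ∀ i ∈ I, u i = u' i := fun i hi => by simp only [hu']; rw [if_pos hi]
      have h1 : nA D (fun a => vPk D ty k s (fre D ty G) Ls ξ θ I (a, u)) ≤
          nA D (fun a => VL Ls ((fre D ty G).filter fun y => ty y ∈ I) ((a, ov ty (fre D ty G) ξ u'), θ)) := by
        refine nA_comp D (fun a a' h => ?_)
        unfold vPk
        rw [if_pos (show ∀ i ∈ I, (D.mu i).p ((a, u).2 i) ≠ 0 from hc), if_pos (show ∀ i ∈ I, (D.mu i).p ((a', u).2 i) ≠ 0 from hc)]
        congr 1
        refine fac_code (fun q : CS α χ ι => VL Ls ((fre D ty G).filter fun y => ty y ∈ I)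
          ((q.1, ov ty (fre D ty G) ξ q.2), θ)) (a, u) (a', u) ?_
        simp only
        rw [VL_ov hEx.dep hB hS (fun y hy => (mem_filter.1 hy).2) ξ θ huu a,
          VL_ov hEx.dep hB hS (fun y hy => (mem_filter.1 hy).2) ξ θ huu a']
        exact h
      have h2 := nA_VL hEx hA haS hal hS (P := (fre D ty G).filter fun y => ty y ∈ I) (filter_subset _ _)
        (PT_ne hξ hu's) hθ
      refine le_trans (by exact_mod_cast h1) (h2.trans (Real.exp_le_exp.2 hA'))
    · have h1 : (fun a : α => vPk D ty k s (fre D ty G) Ls ξ θ I (a, u)) = fun _ => 0 := by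
        funext a
        unfold vPk
        rw [if_neg hc]
      rw [h1]
      have h2 : (nA D (fun _ : α => (0 : ℕ)) : ℝ) ≤ 1 := by exact_mod_cast nA_one D 0
      exact h2.trans (Real.one_le_exp hA0)

/-- the package letter of `J ∪ P` determines the letters `VL P` -/
theorem vPk_VL {G : Finset W} (hGi : Set.InjOn ty (G : Set W))
    {Ls : Shp D ty k s (fre D ty G) × (Ltr (fre D ty G) → Option (Key r M)) → KW α χ (fre D ty G) r M × Θ → ℕ}
    {ξ : TW χ (fre D ty G) r M} {θ : Θ} {P : Finset W} (hP : P ⊆ fre D ty G) {u : ι → χ}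
    (hu : ∀ i, (D.mu i).p (u i) ≠ 0) {a a' : α}
    (h : vPk D ty k s (fre D ty G) Ls ξ θ (D.J ∪ P.image ty) (a, u) =
      vPk D ty k s (fre D ty G) Ls ξ θ (D.J ∪ P.image ty) (a', u)) :
    VL Ls P ((a, ov ty (fre D ty G) ξ u), θ) = VL Ls P ((a', ov ty (fre D ty G) ξ u), θ) := by
  classical
  have hPf : ((fre D ty G).filter fun y => ty y ∈ D.J ∪ P.image ty) = P := by
    ext y
    rw [mem_filter]
    constructor
    · rintro ⟨hy, h1⟩
      have hy' := mem_filter.1 hy
      rcases mem_union.1 h1 with h2 | h2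
      · exact absurd h2 hy'.2
      · obtain ⟨z, hz, h3⟩ := Finset.mem_image.1 h2
        have h4 := hGi (mem_filter.1 (hP hz)).1 hy'.1 h3
        rw [← h4]
        exact hz
    · intro hy
      exact ⟨hP hy, mem_union_right _ (Finset.mem_image_of_mem ty hy)⟩
  unfold vPk at h
  rw [if_pos (show ∀ i ∈ D.J ∪ P.image ty, (D.mu i).p ((a, u).2 i) ≠ 0 from fun i _ => hu i),
    if_pos (show ∀ i ∈ D.J ∪ P.image ty, (D.mu i).p ((a', u).2 i) ≠ 0 from fun i _ => hu i)] at h
  have h1 := code_fac (fun q : CS α χ ι => VL Ls ((fre D ty G).filter fun y => ty y ∈ D.J ∪ P.image ty)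
    ((q.1, ov ty (fre D ty G) ξ q.2), θ)) (a, u) (a', u) (Nat.succ_injective h)
  simp only at h1
  rw [hPf] at h1
  exact h1

theorem ssub_image {G P : Finset W} (hGi : Set.InjOn ty (G : Set W)) (hP : P ⊂ fre D ty G) :
    D.J ∪ P.image ty ⊂ D.J ∪ G.image ty := by
  refine Finset.ssubset_iff_subset_ne.2 ⟨?_, fun h => ?_⟩
  · refine Finset.union_subset_union_right (Finset.image_subset_image (hP.1.trans (filter_subset _ _)))
  · obtain ⟨y, hy, hyP⟩ := Finset.exists_of_ssubset hP
    have hy' := mem_filter.1 hy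
    have h1 : ty y ∈ D.J ∪ P.image ty := by
      rw [h]
      exact mem_union_right _ (Finset.mem_image_of_mem ty hy'.1)
    rcases mem_union.1 h1 with h2 | h2
    · exact hy'.2 h2
    · obtain ⟨z, hz, h3⟩ := Finset.mem_image.1 h2
      have h4 := hGi (mem_filter.1 (hP.1 hz)).1 hy'.1 h3
      rw [h4] at hz
      exact hyP hz

/-- PACK: at a fixed seed the information is at most the bound of `ph1` -/
theorem pack_le {A A' aS δ e : ℝ} {G : Finset W} {Ex : Finset W → CS α χ W → ℕ}
    (hJ : JInj D.J ty) (hG : G ∈ LS ty k) (hs : G.card = s)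
    (hEx : Ext D ty G A Ex) (hA : 0 ≤ A) (haS : 0 ≤ aS)
    (hal : ∀ H ∈ LS ty k, H.card = s → ∀ u : W → χ, (nA D (fun a => LC D ty H (a, u)) : ℝ) ≤ Real.exp aS)
    {n : Ltr (fre D ty G) × Fin r → ℕ} {Θ : Type} [Fintype Θ] {Q : FP Θ}
    {Ls : Shp D ty k s (fre D ty G) × (Ltr (fre D ty G) → Option (Key r M)) → KW α χ (fre D ty G) r M × Θ → ℕ}
    (hS : SimOut D ty k s (fre D ty G) Ex n Q Ls e)
    (hA' : ((LS ty k).card : ℝ) * aS + A ≤ A')
    (hph : ∀ v, Let1 D A' (fun I => D.J ⊆ I ∧ I ⊂ D.J ∪ G.image ty) v → ph1 D v (G.image ty) ≤ δ)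
    (θ : Θ) (hθ : Q.p θ ≠ 0) :
    (KQ D ty (fre D ty G) r M).E (GMC.ip (KQ D ty (fre D ty G) r M) (fun w => LC D ty G (rp (fre D ty G) w))
      (fun w => Fam Ls (rlG D ty k s (fre D ty G) r M G) (w, θ))
      (fun w => Lf (LC D ty) G.ssubsets (rp (fre D ty G) w)) (VV Kr Kk)) ≤ δ := by
  classical
  have hGi := (mem_LS.1 hG).2
  have hB : ∀ y ∈ fre D ty G, ty y ∉ D.J := fun y hy => (mem_filter.1 hy).2
  set Φ : TW χ (fre D ty G) r M → ℝ := fun ξ => D.PA.I (fun a => LC D ty G (rp (fre D ty G) (a, ξ)))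
    (fun a => Fam Ls (rlG D ty k s (fre D ty G) r M G) ((a, ξ), θ)) (fun a => Lf (LC D ty) G.ssubsets (rp (fre D ty G) (a, ξ))) with hΦ
  have e1 : (KQ D ty (fre D ty G) r M).E (GMC.ip (KQ D ty (fre D ty G) r M) (fun w => LC D ty G (rp (fre D ty G) w))
      (fun w => Fam Ls (rlG D ty k s (fre D ty G) r M G) (w, θ))
      (fun w => Lf (LC D ty) G.ssubsets (rp (fre D ty G) w)) (VV Kr Kk)) = (PT D ty (fre D ty G) r M).E Φ := by
    rw [GMC.E_ip, KQ_eq]
    have h1 := I_avg D.PA (PT D ty (fre D ty G) r M) (fun w : KW α χ (fre D ty G) r M => LC D ty G (rp (fre D ty G) w))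
      (fun w => Fam Ls (rlG D ty k s (fre D ty G) r M G) (w, θ)) (fun w => Lf (LC D ty) G.ssubsets (rp (fre D ty G) w))
    rw [← h1]
    refine FP.I_congr_cond _ (fun v w h => ?_) (fun v w h => ?_)
    · simp only [Prod.mk.injEq] at h ⊢
      refine ⟨h.1, ?_⟩
      have h2 := h.2
      unfold VV at h2
      simp only [Prod.mk.injEq] at h2
      funext q
      rcases q with ⟨y, s'⟩
      cases s' with
      | none => exact congrFun h2.1 y
      | some q' => exact congrFun h2.2 (y, q')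
    · simp only [Prod.mk.injEq] at h ⊢
      refine ⟨h.1, ?_⟩
      show ((fun y => Kr y v, Kk v) : _ × _) = (fun y => Kr y w, Kk w)
      unfold Kr Kk
      rw [h.2]
  have hBi : Set.InjOn ty ((fre D ty G) : Set W) := hGi.mono (by exact_mod_cast filter_subset _ _)
  rw [e1, ← MP_ov D ty (fre D ty G) hBi Φ]
  refine FP.E_le_const _ (fun ξ hξ => ?_)
  set v := vPk D ty k s (fre D ty G) Ls ξ θ with hv
  refine le_trans ?_ (hph v (vPk_let hEx hA haS hal hS hA' hξ hθ _))
  have e2 : ph1 D v (G.image ty) = (piFP D.mu).E (fun u => D.PA.I (fun a => LC D id (G.image ty) (a, u))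
      (fun a => (sel (fun I => D.J ⊆ I ∧ I ⊂ D.J ∪ G.image ty) v (a, u),
        Lf (LC D id) (univ.filter fun H => H ⊆ D.J ∪ G.image ty ∧ H.card ≤ (G.image ty).card ∧ H ≠ G.image ty) (a, u)))
      (fun a => Lf (LC D id) (G.image ty).ssubsets (a, u))) := by
    unfold ph1
    rw [GMC.E_ip]
    exact I_avg D.PA (piFP (fun y => D.mu (id y))) (LC D id (G.image ty)) _ (Lf (LC D id) (G.image ty).ssubsets)
  rw [e2]
  refine FP.E_mono _ (fun u hu => ?_)
  have hu' : ∀ i, (D.mu i).p (u i) ≠ 0 := by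
    have h1 : (piFP D.mu).p u = ∏ i, (D.mu i).p (u i) := rfl
    rw [h1, Finset.prod_ne_zero_iff] at hu
    exact fun i => hu i (mem_univ _)
  have eX : (fun a => LC D ty G (rp (fre D ty G) (a, ov ty (fre D ty G) ξ u))) = fun a => LC D id (G.image ty) (a, u) := by
    funext a
    exact LC_ov hGi (Subset.refl _) a ξ u
  show D.PA.I (fun a => LC D ty G (rp (fre D ty G) (a, ov ty (fre D ty G) ξ u)))
    (fun a => Fam Ls (rlG D ty k s (fre D ty G) r M G) ((a, ov ty (fre D ty G) ξ u), θ))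
    (fun a => Lf (LC D ty) G.ssubsets (rp (fre D ty G) (a, ov ty (fre D ty G) ξ u))) ≤ _
  rw [eX, FP.I_congr_cond _ (below_fac' hG ξ u) (below_fac hG ξ u)]
  rw [FP.I_comm, FP.I_comm D.PA _ (fun a => (sel (fun I => D.J ⊆ I ∧ I ⊂ D.J ∪ G.image ty) v (a, u),
        Lf (LC D id) (univ.filter fun H => H ⊆ D.J ∪ G.image ty ∧ H.card ≤ (G.image ty).card ∧ H ≠ G.image ty) (a, u)))]
  refine FP.I_mono _ _ (fun a a' h => ?_)
  simp only [Prod.mk.injEq] at h
  refine Y_fac hs hB hS (v := ((a, ov ty (fre D ty G) ξ u), θ)) (w := ((a', ov ty (fre D ty G) ξ u), θ)) rfl rfl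
    (lst_fac hJ hG hs ξ u a a' h.1.2) (fun P hP => ?_)
  refine vPk_VL hGi hP.1 hu' ?_
  exact sel_eq.1 h.1.1 (D.J ∪ P.image ty) ⟨subset_union_left, ssub_image hGi hP⟩

end

end Pool.Agent.GMM
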