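import Pool.Agent.GMM.Avg

/-!
# GMM/PackA: the simulated labels are functions of the seed, the hidden point and the used vertices (row CM, CM.3 (4); helper46)

Instance of GMM/KDef.  `shL_dep` : the label of a shape depends on the letters of the shape; `shS_ne_univ` : a good shape of kind
`T` does not use all letters; `Ls_fac` : every simulated label is a function of the seed, the hidden point and the vertices it
uses; `rre e` = the real label of the shape `e`; `Y_fac` : all real labels other than that of `G` are functions of the seed, all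
vertices, the true labels in `lst` and the package letters `VL`.
-/

set_option autoImplicit false
set_option linter.unusedSectionVars false

namespace Pool.Agent.GMM

open Finset Pool.Agent.PWZ Pool.Agent.M3 Pool.Agent.M3.FP Pool.Agent.GMC

noncomputable section

variable {ι α χ : Type} [Fintype ι] [DecidableEq ι] [Fintype α] [Fintype χ] [DecidableEq χ] (D : SD ι α χ)
variable {W : Type} [Fintype W] [DecidableEq W] (ty : W → ι) (k s : ℕ) {B : Finset W} {r M : ℕ}

/-! ## shapes -/

variable {D ty k s}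

theorem mem_shS_inl {H : {H : Finset W // H ∈ LS ty k ∧ H.card ≤ s ∧ ¬ isBad D ty s B H}} {l : Ltr B} :
    l ∈ shS D ty k s B (Sum.inl H) ↔ ∃ y ∈ H.1, ty y ∉ D.J ∧ ltr B y = l := by
  show l ∈ (fre D ty H.1).image (ltr B) ↔ _
  rw [Finset.mem_image]
  unfold fre
  constructor
  · rintro ⟨y, hy, h⟩
    rw [mem_filter] at hy
    exact ⟨y, hy.1, hy.2, h⟩
  · rintro ⟨y, hy, h1, h⟩
    exact ⟨y, mem_filter.2 ⟨hy, h1⟩, h⟩

theorem mem_shS_inr {P : {P : Finset W // P ⊂ B}} {l : Ltr B} :
    l ∈ shS D ty k s B (Sum.inr P) ↔ l = none ∨ ∃ y ∈ P.1, ltr B y = l := by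
  show l ∈ insert none (P.1.image (ltr B)) ↔ _
  rw [Finset.mem_insert, Finset.mem_image]

theorem ltr_inj {y : W} {z : {z // z ∈ B}} (h : ltr B y = some z) : y = z.1 := by
  by_cases hy : y ∈ B
  · rw [ltr_of B hy] at h
    have := Option.some.inj h
    rw [← this]
  · rw [ltr_not B hy] at h
    exact absurd h (by simp)

theorem ltr_none {y : W} (h : ltr B y = none) : y ∉ B := by
  intro hy
  rw [ltr_of B hy] at h
  exact absurd h (by simp)

/-- the dependence of the extras -/
def ExDep (B : Finset W) (Ex : Finset W → CS α χ W → ℕ) : Prop :=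
  ∀ P, P ⊂ B → ∀ p q : CS α χ W, p.1 = q.1 → (∀ y, y ∉ B \ P → p.2 y = q.2 y) → Ex P p = Ex P q

theorem shL_dep {Ex : Finset W → CS α χ W → ℕ} (hEx : ExDep B Ex) (e : Shp D ty k s B) (a : α) (ξ ξ' : Ltr B → (W → χ))
    (h : ∀ y ∈ shS D ty k s B e, ξ y = ξ' y) : shL D ty k s B Ex e a ξ = shL D ty k s B Ex e a ξ' := by
  rcases e with H | P
  · show LC D ty H.1 (a, rd B ξ) = LC D ty H.1 (a, rd B ξ')
    refine LC_dep D ty (mem_LS.1 H.2.1).2 rfl (fun y hy hJ => ?_)
    show ξ (ltr B y) y = ξ' (ltr B y) y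
    rw [h (ltr B y) (mem_shS_inl.2 ⟨y, hy, hJ, rfl⟩)]
  · show Ex P.1 (a, rd B ξ) = Ex P.1 (a, rd B ξ')
    refine hEx P.1 P.2 _ _ rfl (fun y hy => ?_)
    show ξ (ltr B y) y = ξ' (ltr B y) y
    rw [h (ltr B y) (mem_shS_inr.2 ?_)]
    by_cases hB : y ∈ B
    · right
      refine ⟨y, ?_, rfl⟩
      by_contra hP
      exact hy (mem_sdiff.2 ⟨hB, hP⟩)
    · left
      exact ltr_not B hB

/-- a good shape of kind `T` does not use all letters -/
theorem shS_ne_univ (hB : ∀ y ∈ B, ty y ∉ D.J) (e : Shp D ty k s B) (hT : shT D ty k s B e) :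
    shS D ty k s B e ≠ univ := by
  intro hu
  rcases e with H | P
  · refine H.2.2.2 ⟨hT, fun y hy => ?_, ?_⟩
    · have h1 : (some ⟨y, hy⟩ : Ltr B) ∈ shS D ty k s B (Sum.inl H) := by rw [hu]; exact mem_univ _
      obtain ⟨z, hz, _, h2⟩ := mem_shS_inl.1 h1
      have := ltr_inj h2
      rw [this] at hz
      exact hz
    · have h1 : (none : Ltr B) ∈ shS D ty k s B (Sum.inl H) := by rw [hu]; exact mem_univ _
      obtain ⟨z, hz, hJ, h2⟩ := mem_shS_inl.1 h1
      exact ⟨z, hz, ltr_none h2, hJ⟩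
  · obtain ⟨y, hy, hyP⟩ := Finset.exists_of_ssubset P.2
    have h1 : (some ⟨y, hy⟩ : Ltr B) ∈ shS D ty k s B (Sum.inr P) := by rw [hu]; exact mem_univ _
    rcases mem_shS_inr.1 h1 with h2 | ⟨z, hz, h2⟩
    · exact absurd h2 (by simp)
    · have := ltr_inj h2
      rw [this] at hz
      exact hyP hz

theorem mem_shb {e e' : Shp D ty k s B} : e' ∈ shb D ty k s B e ↔ ∃ H H' : {H : Finset W // H ∈ LS ty k ∧ H.card ≤ s ∧
    ¬ isBad D ty s B H}, e = Sum.inl H ∧ e' = Sum.inl H' ∧ H'.1 ⊂ H.1 := by
  classical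
  rcases e with H | P
  · show e' ∈ univ.filter _ ↔ _
    rw [mem_filter]
    constructor
    · rintro ⟨_, H', h1, h2⟩
      exact ⟨H, H', rfl, h1, h2⟩
    · rintro ⟨H1, H', h0, h1, h2⟩
      rw [← Sum.inl_injective h0] at h2
      exact ⟨mem_univ _, H', h1, h2⟩
  · show e' ∈ (∅ : Finset _) ↔ _
    constructor
    · intro h
      exact absurd h (notMem_empty _)
    · rintro ⟨H1, H', h0, _⟩
      exact absurd h0 (by simp)

theorem shb_S (e : Shp D ty k s B) : ∀ e' ∈ shb D ty k s B e, shS D ty k s B e' ⊆ shS D ty k s B e := by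
  intro e' he
  obtain ⟨H, H', rfl, rfl, h⟩ := mem_shb.1 he
  intro l hl
  obtain ⟨y, hy, h1, h2⟩ := mem_shS_inl.1 hl
  exact mem_shS_inl.2 ⟨y, h.1 hy, h1, h2⟩

theorem shb_z (e : Shp D ty k s B) : ∀ e' ∈ shb D ty k s B e, shz D ty k s B e' < shz D ty k s B e := by
  intro e' he
  obtain ⟨H, H', rfl, rfl, h⟩ := mem_shb.1 he
  exact Finset.card_lt_card h

/-- everything below a shape is of kind `C` -/
theorem shb_T (e : Shp D ty k s B) : ∀ e' ∈ shb D ty k s B e, ¬ shT D ty k s B e' := by
  intro e' he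
  obtain ⟨H, H', rfl, rfl, h⟩ := mem_shb.1 he
  intro hT
  have h1 : H'.1.card = s := hT
  have h2 := Finset.card_lt_card h
  have h3 := H.2.2.1
  omega

theorem shz_le (e : Shp D ty k s B) : shz D ty k s B e ≤ Fintype.card W := by
  rcases e with H | P
  · exact Finset.card_le_univ _
  · exact Nat.zero_le _

/-! ## the simulated labels -/

/-- the rank of a label -/
def rnk (i : Shp D ty k s B × (Ltr B → Option (Key r M))) : ℕ := by
  classical
  exact if shT D ty k s B i.1 then Fintype.card W + 1 + (fresh (shS D ty k s B) i).card else shz D ty k s B i.1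

theorem Vw_mono {U U' : Finset (Ltr B)} (h : U' ⊆ U) {v w : KW α χ B r M} (e : Vw Kr Kk U v = Vw Kr Kk U w) :
    Vw Kr Kk U' v = Vw Kr Kk U' w := by
  unfold Vw at e ⊢
  simp only [Prod.mk.injEq] at e ⊢
  refine ⟨Fam_eq_iff'.2 (fun i hi => Fam_eq_iff'.1 e.1 i ?_), e.2⟩
  exact_mod_cast h (by exact_mod_cast hi)

/-- the true label is a function of the hidden point and of the used vertices -/
theorem LB_fac {Ex : Finset W → CS α χ W → ℕ} (hEx : ExDep B Ex) (i : Shp D ty k s B × (Ltr B → Option (Key r M)))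
    {v w : KW α χ B r M} (h1 : v.1 = w.1)
    (h2 : Vw Kr Kk (fresh (shS D ty k s B) i) v = Vw Kr Kk (fresh (shS D ty k s B) i) w) :
    LB (shL D ty k s B Ex) i v = LB (shL D ty k s B Ex) i w := by
  unfold LB
  rw [h1]
  refine shL_dep hEx _ _ _ _ (fun y hy => ?_)
  unfold Vw at h2
  simp only [Prod.mk.injEq] at h2
  cases h : i.2 y with
  | none =>
    have h3 : y ∈ fresh (shS D ty k s B) i := mem_fresh.2 ⟨hy, h⟩
    exact Fam_eq_iff'.1 h2.1 y (by exact_mod_cast h3)
  | some q => exact congrFun h2.2 (y, q)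

variable {Ex : Finset W → CS α χ W → ℕ} {n : Ltr B × Fin r → ℕ} {Θ : Type} [Fintype Θ] {Q : FP Θ}
  {Ls : Shp D ty k s B × (Ltr B → Option (Key r M)) → KW α χ B r M × Θ → ℕ} {e0 : ℝ}

/-- every simulated label is a function of the seed, the hidden point and the vertices it uses -/
theorem Ls_fac (hEx : ExDep B Ex) (hS : SimOut D ty k s B Ex n Q Ls e0) :
    ∀ i ∈ All (shS D ty k s B) (shT D ty k s B) n,
      Fac (fun w => (w.2, w.1.1, Vw Kr Kk (fresh (shS D ty k s B) i) w.1)) (Ls i) := by
  have key : ∀ N : ℕ, ∀ i ∈ All (shS D ty k s B) (shT D ty k s B) n, rnk i = N →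
      Fac (fun w => (w.2, w.1.1, Vw Kr Kk (fresh (shS D ty k s B) i) w.1)) (Ls i) := by
    intro N
    induction N using Nat.strong_induction_on with
    | _ N ih =>
      intro i hi hN v w e
      simp only [Prod.mk.injEq] at e
      obtain ⟨e1, e2, e3⟩ := e
      by_cases ho : (none : Ltr B) ∈ fresh (shS D ty k s B) i
      · by_cases hT : shT D ty k s B i.1
        · -- kind T
          have hTT := All_T hi hT
          have hU := (hi.2 hT).1
          refine hS.kindT _ ho hU i hTT v w ?_
          simp only [Prod.mk.injEq]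
          refine ⟨e1, e3, Fam_eq_iff'.2 (fun j hj => ?_)⟩
          obtain ⟨j1, j2, j3⟩ := hj
          rw [Finset.union_empty] at j2
          have hjA : j ∈ All (shS D ty k s B) (shT D ty k s B) n := by
            refine ⟨j1, fun h => ⟨?_, ?_⟩⟩
            · intro h5
              rw [h5] at j2
              exact hU (Finset.univ_subset_iff.1 j2)
            · exact (j3 h).2.2
          refine ih (rnk j) ?_ j hjA rfl v w ?_
          · rw [← hN]
            unfold rnk
            rw [if_pos hT]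
            by_cases hj : shT D ty k s B j.1
            · rw [if_pos hj]
              have h5 := (j3 hj).2.1
              have h6 := Finset.card_lt_card (Finset.ssubset_iff_subset_ne.2 ⟨j2, h5⟩)
              omega
            · rw [if_neg hj]
              have := shz_le j.1
              omega
          · simp only [Prod.mk.injEq]
            exact ⟨e1, e2, Vw_mono j2 e3⟩
        · -- kind C
          have hCo : i ∈ Co (shS D ty k s B) (shT D ty k s B) n none := ⟨hT, hi.1, ho⟩
          refine hS.kindC i hCo v w ?_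
          simp only [Prod.mk.injEq]
          refine ⟨e1, e3, Fam_eq_iff'.2 (fun j hj => ?_)⟩
          have hjT := shb_T _ _ hj.1
          have hjA : j ∈ All (shS D ty k s B) (shT D ty k s B) n :=
            ⟨low_Adm shb_S hj hi.1, fun h => absurd h hjT⟩
          refine ih (rnk j) ?_ j hjA rfl v w ?_
          · rw [← hN]
            unfold rnk
            rw [if_neg hT, if_neg hjT]
            exact shb_z _ _ hj.1
          · simp only [Prod.mk.injEq]
            exact ⟨e1, e2, Vw_mono (low_fresh shb_S hj) e3⟩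
      · rw [hS.real i ho v, hS.real i ho w]
        exact LB_fac hEx i e2 e3
  intro i hi
  exact key _ i hi rfl

/-! ## the real labels -/

/-- the real label of a shape: no keys -/
def rre (D : SD ι α χ) (ty : W → ι) (k s : ℕ) {B : Finset W} {r M : ℕ} (e : Shp D ty k s B) :
    Shp D ty k s B × (Ltr B → Option (Key r M)) := (e, fun _ => none)

theorem fresh_rre (e : Shp D ty k s B) : fresh (shS D ty k s B) (rre D ty k s (r := r) (M := M) e) = shS D ty k s B e := by
  ext l
  rw [mem_fresh]
  exact ⟨fun h => h.1, fun h => ⟨h, rfl⟩⟩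

theorem rre_All (hB : ∀ y ∈ B, ty y ∉ D.J) (e : Shp D ty k s B) :
    rre D ty k s (r := r) (M := M) e ∈ All (shS D ty k s B) (shT D ty k s B) n := by
  refine ⟨⟨fun _ _ => rfl, fun _ _ q h => absurd h (by simp [rre])⟩, fun hT => ⟨?_, fun _ _ q h => absurd h (by simp [rre])⟩⟩
  rw [fresh_rre]
  exact shS_ne_univ hB e hT

theorem low_rre {e : Shp D ty k s B} {j : Shp D ty k s B × (Ltr B → Option (Key r M))}
    (h : j ∈ low (shS D ty k s B) (shb D ty k s B) (rre D ty k s e)) : j.1 ∈ shb D ty k s B e ∧ j = rre D ty k s j.1 := by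
  refine ⟨h.1, Prod.ext rfl ?_⟩
  rw [h.2]
  funext y
  show (if y ∈ shS D ty k s B j.1 then (none : Option (Key r M)) else none) = none
  split_ifs <;> rfl

theorem LB_rre_inl (H : {H : Finset W // H ∈ LS ty k ∧ H.card ≤ s ∧ ¬ isBad D ty s B H}) (w : KW α χ B r M) :
    LB (shL D ty k s B Ex) (rre D ty k s (Sum.inl H)) w = LC D ty H.1 (rp B w) := rfl

theorem LB_rre_inr (P : {P : Finset W // P ⊂ B}) (w : KW α χ B r M) :
    LB (shL D ty k s B Ex) (rre D ty k s (Sum.inr P)) w = Ex P.1 (rp B w) := rfl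

/-- the true labels which are used: free part inside `B`, size `≤ s`, not `G` -/
def lst (D : SD ι α χ) (ty : W → ι) (k s : ℕ) (B G : Finset W) : Finset (Finset W) :=
  (LS ty k).filter fun H => fre D ty H ⊆ B ∧ H.card ≤ s ∧ H ≠ G

theorem mem_lst {G H : Finset W} : H ∈ lst D ty k s B G ↔ H ∈ LS ty k ∧ fre D ty H ⊆ B ∧ H.card ≤ s ∧ H ≠ G := by
  unfold lst
  rw [mem_filter]

theorem fre_sub_of_none {H : {H : Finset W // H ∈ LS ty k ∧ H.card ≤ s ∧ ¬ isBad D ty s B H}}
    (h : (none : Ltr B) ∉ shS D ty k s B (Sum.inl H)) : fre D ty H.1 ⊆ B := by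
  intro y hy
  unfold fre at hy
  rw [mem_filter] at hy
  by_contra hB
  exact h (mem_shS_inl.2 ⟨y, hy.1, hy.2, ltr_not B hB⟩)

/-- the real labels of kind `C` -/
theorem C_fac {G : Finset W} (hG : G.card = s) (hS : SimOut D ty k s B Ex n Q Ls e0) :
    ∀ (N : ℕ) (H : {H : Finset W // H ∈ LS ty k ∧ H.card ≤ s ∧ ¬ isBad D ty s B H}), H.1.card = N → H.1.card < s →
      Fac (fun w => (w.2, VV Kr Kk w.1, Lf (LC D ty) (lst D ty k s B G) (rp B w.1)))
        (Ls (rre D ty k s (Sum.inl H))) := by
  intro N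
  induction N using Nat.strong_induction_on with
  | _ N ih =>
    intro H hN hs v w e
    simp only [Prod.mk.injEq] at e
    obtain ⟨e1, e2, e3⟩ := e
    have hne : H.1 ≠ G := fun h => by rw [h, hG] at hs; exact lt_irrefl _ hs
    by_cases ho : (none : Ltr B) ∈ shS D ty k s B (Sum.inl H)
    · have hT : ¬ shT D ty k s B (Sum.inl H) := fun h => by
        have h1 : H.1.card = s := h
        omega
      have hCo : rre D ty k s (r := r) (M := M) (Sum.inl H) ∈ Co (shS D ty k s B) (shT D ty k s B) n none := by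
        refine ⟨hT, ⟨fun _ _ => rfl, fun _ _ q h => absurd h (by simp [rre])⟩, ?_⟩
        rw [fresh_rre]
        exact ho
      refine hS.kindC _ hCo v w ?_
      simp only [Prod.mk.injEq]
      refine ⟨e1, VV_Vw Kr Kk _ _ _ e2, Fam_eq_iff'.2 (fun j hj => ?_)⟩
      obtain ⟨h1, h2⟩ := low_rre hj
      obtain ⟨H1, H', h3, h4, h5⟩ := mem_shb.1 h1
      rw [← Sum.inl_injective h3] at h5
      rw [h2, h4]
      have h6 := Finset.card_lt_card h5
      refine ih H'.1.card (by omega) H' rfl (by omega) v w ?_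
      simp only [Prod.mk.injEq]
      exact ⟨e1, e2, e3⟩
    · have ho' : (none : Ltr B) ∉ fresh (shS D ty k s B) (rre D ty k s (r := r) (M := M) (Sum.inl H)) := by
        rw [fresh_rre]
        exact ho
      rw [hS.real _ ho' v, hS.real _ ho' w, LB_rre_inl, LB_rre_inl]
      exact Lf_one (LC D ty) (mem_lst.2 ⟨H.2.1, fre_sub_of_none ho, H.2.2.1, hne⟩) _ _ e3

open Classical in
/-- the letters of the package for `P ⊂ B` -/
def VL (Ls : Shp D ty k s B × (Ltr B → Option (Key r M)) → KW α χ B r M × Θ → ℕ) (P : Finset W)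
    (w : KW α χ B r M × Θ) : Shp D ty k s B → Option ℕ :=
  fun e => if shT D ty k s B e ∧ shS D ty k s B e = insert none (P.image (ltr B)) then some (Ls (rre D ty k s e) w)
    else none

/-- the real labels other than that of `G` -/
def rlG (D : SD ι α χ) (ty : W → ι) (k s : ℕ) (B : Finset W) (r M : ℕ) (G : Finset W) :
    Set (Shp D ty k s B × (Ltr B → Option (Key r M))) :=
  {i | ∃ e : Shp D ty k s B, i = rre D ty k s e ∧ ∀ H, e = Sum.inl H → H.1 ≠ G}

/-- the free letters of a shape with `o` -/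
theorem exists_P (hB : ∀ y ∈ B, ty y ∉ D.J) {e : Shp D ty k s B} (hT : shT D ty k s B e)
    (ho : (none : Ltr B) ∈ shS D ty k s B e) : ∃ P, P ⊂ B ∧ shS D ty k s B e = insert none (P.image (ltr B)) := by
  classical
  refine ⟨B.filter fun y => ltr B y ∈ shS D ty k s B e, ?_, ?_⟩
  · refine Finset.filter_ssubset.2 ?_
    by_contra hcon
    push Not at hcon
    refine shS_ne_univ hB e hT (Finset.eq_univ_iff_forall.2 (fun l => ?_))
    cases l with
    | none => exact ho
    | some z =>
      have := hcon z.1 z.2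
      rwa [ltr_of B z.2] at this
  · ext l
    rw [mem_insert, mem_image]
    cases l with
    | none => exact ⟨fun _ => Or.inl rfl, fun _ => ho⟩
    | some z =>
      constructor
      · intro h
        right
        exact ⟨z.1, mem_filter.2 ⟨z.2, by rw [ltr_of B z.2]; exact h⟩, ltr_of B z.2⟩
      · rintro (h | ⟨y, hy, h⟩)
        · exact absurd h (by simp)
        · rw [← h]
          exact (mem_filter.1 hy).2

/-- all real labels other than that of `G` are functions of the seed, the vertices, the labels in `lst` and the package -/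
theorem Y_fac {G : Finset W} (hG : G.card = s) (hB : ∀ y ∈ B, ty y ∉ D.J) (hS : SimOut D ty k s B Ex n Q Ls e0)
    {v w : KW α χ B r M × Θ} (e1 : v.2 = w.2) (e2 : VV Kr Kk v.1 = VV Kr Kk w.1)
    (e3 : Lf (LC D ty) (lst D ty k s B G) (rp B v.1) = Lf (LC D ty) (lst D ty k s B G) (rp B w.1))
    (e4 : ∀ P, P ⊂ B → VL Ls P v = VL Ls P w) :
    Fam Ls (rlG D ty k s B r M G) v = Fam Ls (rlG D ty k s B r M G) w := by
  refine Fam_eq_iff'.2 (fun i hi => ?_)
  obtain ⟨e, rfl, hne⟩ := hi
  by_cases hT : shT D ty k s B e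
  · by_cases ho : (none : Ltr B) ∈ shS D ty k s B e
    · obtain ⟨P, hP, hPS⟩ := exists_P hB hT ho
      have h1 := congrFun (e4 P hP) e
      unfold VL at h1
      rw [if_pos ⟨hT, hPS⟩, if_pos ⟨hT, hPS⟩] at h1
      exact Option.some.inj h1
    · rcases e with H | P
      · have ho' : (none : Ltr B) ∉ fresh (shS D ty k s B) (rre D ty k s (r := r) (M := M) (Sum.inl H)) := by
          rw [fresh_rre]
          exact ho
        rw [hS.real _ ho' v, hS.real _ ho' w, LB_rre_inl, LB_rre_inl]
        exact Lf_one (LC D ty) (mem_lst.2 ⟨H.2.1, fre_sub_of_none ho, H.2.2.1, hne H rfl⟩) _ _ e3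
      · exact absurd (mem_shS_inr.2 (Or.inl rfl)) ho
  · rcases e with H | P
    · have hlt : H.1.card < s := lt_of_le_of_ne H.2.2.1 hT
      refine C_fac hG hS _ H rfl hlt v w ?_
      simp only [Prod.mk.injEq]
      exact ⟨e1, e2, e3⟩
    · exact absurd trivial hT

end

end Pool.Agent.GMM
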