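import Pool.Agent.GMM.Phi

/-!
# GMM/PhiSel: the best families, all classes at once (row CM; helper36)

* `exists_opt` : the supremum in `phi` is attained;
* `ExtG` : family admissible on every class; `exists_sel` : one family `R` (global) with `phiv R = phi` on the support;
* `ce_phi` : for `J' ⊆ J` the mean of `phi_G(x_J,Q)` at the point `(x_(J'),Q)` is the information at this point for ONE
  admissible family (this is what (SAT*) bounds); `ce_phi_le`.
-/

set_option autoImplicit false
set_option linter.unusedSectionVars false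

namespace Pool.Agent.GMM

open Finset Pool.Agent.M3 Pool.Agent.GMC
open Pool.Agent.PWZ hiding ip

noncomputable section

variable {Om : Type*} [Fintype Om] {ι : Type*} [Fintype ι] [DecidableEq ι] {χ α κ : Type*}
  {P : FP Om} {a : Om → α} {x : ι → Om → χ} {Q : Om → κ} {L : Finset ι → Om → ℕ} {A : ℝ} {J G : Finset ι} {w : Om}

/-- values below `card Om` -/
def cod {β : Type*} (X : Om → β) (u : Om) : Fin (Fintype.card Om) := Fintype.equivFin Om (rep X u)

theorem code_eq_cod {β : Type*} (X : Om → β) (u : Om) : code X u = (cod X u : ℕ) := rfl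

theorem pk_code {β : Type*} (R : Finset ι → Om → β) (J K : Finset ι) :
    Fac (pk R J K) (pk (fun I => code (R I)) J K) ∧ Fac (pk (fun I => code (R I)) J K) (pk R J K) :=
  ⟨fac_sel (fun I hI => (sel_fac (p := fun I => J ⊆ I ∧ I ⊂ K) (v := R) hI).trans (fac_code _)),
    fac_sel (fun I hI => (sel_fac (p := fun I => J ⊆ I ∧ I ⊂ K) (v := fun I => code (R I)) hI).trans (code_fac _))⟩

theorem phiv_code (R : Finset ι → Om → ℕ) : phiv P x Q L J G (fun I => code (R I)) w = phiv P x Q L J G R w := by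
  obtain ⟨h1, h2⟩ := pk_code R J (J ∪ G)
  refine ip_congr P (Fac.fst _ _) ?_ (Fac.fst _ _) (Fac.refl _) (Fac.fst _ _) ?_ (Fac.fst _ _) (Fac.refl _) w
  · intro u v e
    simp only [Prod.mk.injEq] at e ⊢
    exact ⟨h2 u v e.1.1, e.1.2⟩
  · intro u v e
    simp only [Prod.mk.injEq] at e ⊢
    exact ⟨h1 u v e.1.1, e.1.2⟩

/-- the supremum is attained -/
theorem exists_opt (hA : 0 ≤ A) : ∃ R, ExtP P a x Q A J G w R ∧ phi P a x Q L A J G w = phiv P x Q L J G R w := by
  classical
  set S : Set ℝ := {r | ∃ R, ExtP P a x Q A J G w R ∧ r = phiv P x Q L J G R w} with hS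
  have hfin : S.Finite := by
    refine Set.Finite.subset (Set.finite_range
      (fun c : Finset ι → Om → Fin (Fintype.card Om) => phiv P x Q L J G (fun I u => (c I u : ℕ)) w)) ?_
    rintro r ⟨R, -, rfl⟩
    refine ⟨fun I => cod (R I), ?_⟩
    have e : (fun (I : Finset ι) (u : Om) => ((cod (R I) u : Fin (Fintype.card Om)) : ℕ)) = fun I => code (R I) := rfl
    show phiv P x Q L J G (fun I u => ((cod (R I) u : Fin (Fintype.card Om)) : ℕ)) w = phiv P x Q L J G R w
    rw [e]
    exact phiv_code R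
  have hne : S.Nonempty := ⟨_, fun _ _ => 0, ext_zero hA, rfl⟩
  obtain ⟨R, hR, h⟩ := hne.csSup_mem hfin
  exact ⟨R, hR, h⟩

/-- admissible on every class -/
structure ExtG (P : FP Om) (a : Om → α) (x : ι → Om → χ) (Q : Om → κ) (A : ℝ) (J G : Finset ι)
    (R : Finset ι → Om → ℕ) : Prop where
  fac : ∀ I, J ⊆ I → I ⊂ J ∪ G → Fac (fun u => (a u, xr x I u, Q u)) (R I)
  card : ∀ I, J ⊆ I → I ⊂ J ∪ G → ∀ w, P.p w ≠ 0 → (nv P (R I) (fun u => (xr x I u, Q u)) w : ℝ) ≤ Real.exp A

theorem ExtG.ext {R : Finset ι → Om → ℕ} (h : ExtG P a x Q A J G R) (w : Om) : ExtP P a x Q A J G w R where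
  fac := fun I h1 h2 u z _ ha hx hQ => h.fac I h1 h2 u z (by simp only [Prod.mk.injEq]; exact ⟨ha, hx, hQ⟩)
  card := fun I h1 h2 z hz _ => h.card I h1 h2 z hz

/-- one family for all classes -/
theorem exists_sel (L : Finset ι → Om → ℕ) (J G : Finset ι) (hA : 0 ≤ A) :
    ∃ R, ExtG P a x Q A J G R ∧ ∀ w, phi P a x Q L A J G w = phiv P x Q L J G R w := by
  classical
  have h0 : ∀ w, ∃ R, ExtP P a x Q A J G w R ∧ phi P a x Q L A J G w = phiv P x Q L J G R w := fun w => exists_opt hA
  choose R0 h1 h2 using h0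
  set N : Om → (ι → Option χ) × κ := fun u => (xr x J u, Q u) with hN
  have hrep : ∀ u, N (rep N u) = N u := fun u => X_rep N u
  set R : Finset ι → Om → ℕ := fun I u => R0 (rep N u) I u with hR
  have hcls : ∀ u v, N u = N v → rep N u = rep N v := fun u v e => fac_rep N u v e
  refine ⟨R, { fac := ?_, card := ?_ }, ?_⟩
  · intro I hI1 hI2 u v e
    simp only [Prod.mk.injEq] at e
    have hNuv : N u = N v := by
      simp only [hN, Prod.mk.injEq]
      exact ⟨xr_mono x hI1 u v e.2.1, e.2.2⟩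
    show R0 (rep N u) I u = R0 (rep N v) I v
    rw [hcls u v hNuv]
    exact (h1 (rep N v)).fac I hI1 hI2 u v (hNuv.trans (hrep v).symm) e.1 e.2.1 e.2.2
  · intro I hI1 hI2 z hz
    refine le_trans ?_ ((h1 (rep N z)).card I hI1 hI2 z hz (hrep z).symm)
    have key : ∀ u, (xr x I u, Q u) = (xr x I z, Q z) → R I u = R0 (rep N z) I u := by
      intro u hu
      simp only [Prod.mk.injEq] at hu
      have hNuz : N u = N z := by
        simp only [hN, Prod.mk.injEq]
        exact ⟨xr_mono x hI1 u z hu.1, hu.2⟩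
      show R0 (rep N u) I u = R0 (rep N z) I u
      rw [hcls u z hNuz]
    exact_mod_cast nv_le_nv (fun u u' _ _ e1 e2 e => by rw [key u e1, key u' e2, e])
  · intro w
    have e1 : phi P a x Q L A J G w = phi P a x Q L A J G (rep N w) := phi_fac L A J G w (rep N w) (hrep w).symm
    have e2 : phiv P x Q L J G (R0 (rep N w)) (rep N w) = phiv P x Q L J G (R0 (rep N w)) w :=
      phiv_fac L J G (R0 (rep N w)) (rep N w) w (hrep w)
    rw [e1, h2 (rep N w), e2]
    unfold phiv
    refine ip_congr_cls (fun _ _ => rfl) (fun v hv => ?_) (fun _ _ => rfl)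
    have : pk (R0 (rep N w)) J (J ∪ G) v = pk R J (J ∪ G) v := by
      funext I
      unfold pk sel
      by_cases hI : J ⊆ I ∧ I ⊂ J ∪ G
      · rw [if_pos hI, if_pos hI]
        show some (R0 (rep N w) I v) = some (R0 (rep N v) I v)
        rw [hcls v w hv]
      · rw [if_neg hI, if_neg hI]
    rw [this]

/-- the mean of the functional of one family at a coarser point -/
theorem ce_phiv (L : Finset ι → Om → ℕ) (R : Finset ι → Om → ℕ) {J' J G : Finset ι} (hJ : J' ⊆ J) (w : Om) :
    P.ce (fun u => (xr x J' u, Q u)) (phiv P x Q L J G R) w =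
      ip P (L G) (fun u => (pk R J (J ∪ G) u, lall L J G u)) (fun u => (lt L G u, xr x (J ∪ G) u))
        (fun u => (xr x J' u, Q u)) w := by
  have hNN : Fac (fun u => (xr x J u, Q u)) (fun u => (xr x J' u, Q u)) := by
    intro u v e
    simp only [Prod.mk.injEq] at e ⊢
    exact ⟨xr_mono x hJ u v e.1, e.2⟩
  have h1 := ce_ip P (L G) (fun u => (pk R J (J ∪ G) u, lall L J G u)) (fun u => (lt L G u, xr x (J ∪ G) u)) hNN w
  have h2 : phiv P x Q L J G R = ip P (L G) (fun u => (pk R J (J ∪ G) u, lall L J G u))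
      (fun u => (lt L G u, xr x (J ∪ G) u)) (fun u => (xr x J u, Q u)) := rfl
  rw [h2, h1]
  refine ip_congr P (Fac.fst _ _) (Fac.fst _ _) ?_ (Fac.refl _) (Fac.fst _ _) (Fac.fst _ _) ?_ (Fac.refl _) w
  · intro u v e
    simp only [Prod.mk.injEq] at e ⊢
    exact e.1.1
  · intro u v e
    simp only [Prod.mk.injEq] at e ⊢
    exact ⟨e.1, xr_mono x Finset.subset_union_left u v e.1.2, e.2.2⟩

/-- the mean of `phi_G(x_J,Q)` at a coarser point is bounded if the information of every admissible family is -/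
theorem ce_phi_le (L : Finset ι → Om → ℕ) {J' J G : Finset ι} (hJ : J' ⊆ J) (hA : 0 ≤ A) {w : Om} {c : ℝ}
    (h : ∀ R, ExtG P a x Q A J G R → ip P (L G) (fun u => (pk R J (J ∪ G) u, lall L J G u))
      (fun u => (lt L G u, xr x (J ∪ G) u)) (fun u => (xr x J' u, Q u)) w ≤ c) :
    P.ce (fun u => (xr x J' u, Q u)) (phi P a x Q L A J G) w ≤ c := by
  obtain ⟨R, hR, hopt⟩ := exists_sel (P := P) (a := a) (x := x) (Q := Q) L J G hA
  have e : phi P a x Q L A J G = phiv P x Q L J G R := funext hopt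
  rw [e, ce_phiv L R hJ w]
  exact h R hR

end

end Pool.Agent.GMM
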