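import Pool.Agent.GMM.Bridge2
import Pool.Agent.GMM.SatInd
import Pool.Agent.GMM.FatS

/-!
# GMM/Point: (SAT*) at one point (row CM; helper36)
-/

set_option autoImplicit false
set_option linter.unusedSectionVars false

namespace Pool.Agent.GMM

open Finset Pool.Agent.M3 Pool.Agent.GMC
open Pool.Agent.PWZ hiding ip

noncomputable section

/-! ## numbers -/

section num

variable {k c X C : ℕ} {n : Nums k c X}

theorem pow_four_le {k c X : ℕ} (hX : 2 ≤ X) (hc : 2 * k ≤ c) : ((2 : ℝ) ^ k) ^ 2 ≤ (X : ℝ) ^ c := by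
  have hX' : (2 : ℝ) ≤ X := by exact_mod_cast hX
  calc ((2 : ℝ) ^ k) ^ 2 = 2 ^ (2 * k) := by rw [← pow_mul, mul_comm]
    _ ≤ (X : ℝ) ^ (2 * k) := pow_le_pow_left₀ (by norm_num) hX' _
    _ ≤ (X : ℝ) ^ c := pow_le_pow_right₀ (by linarith) hc

theorem Nums.OK.fat_sqrt (hn : n.OK C) (hX : 2 ≤ X) (hc : 2 * k ≤ c) {s s' j : ℕ} (h1 : s < s') (h2 : s' < k)
    (hj : j < k) : n.aa s' * (2 ^ k * Real.sqrt (4 * n.hh s / n.aa s)) ≤ n.del' s' j := by
  have hX' : (2 : ℝ) ≤ X := by exact_mod_cast hX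
  have ha : 0 < n.aa s := by
    have := hn.aa_ge s (h1.trans h2)
    linarith
  have ha' : 0 < n.aa s' := by
    have := hn.aa_ge s' h2
    linarith
  have hh1 := hn.hh_one s (h1.trans h2)
  have hd : 0 < n.del' s' j := hn.be_pos s' j k h2 hj
  have h0 : 0 ≤ 4 * n.hh s / n.aa s := by positivity
  have h3 := hn.fat s s' j h1 h2 hj
  have h4 := pow_four_le (k := k) hX hc
  refine le_of_sq_le_sq ?_ hd.le
  have h5 : (n.aa s' * (2 ^ k * Real.sqrt (4 * n.hh s / n.aa s))) ^ 2 =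
      (2 ^ k) ^ 2 * n.aa s' ^ 2 * (4 * n.hh s) / n.aa s := by
    rw [mul_pow, mul_pow, Real.sq_sqrt h0]
    ring
  rw [h5, div_le_iff₀ ha]
  refine le_trans ?_ h3
  have h6 : 0 ≤ n.aa s' ^ 2 * (4 * n.hh s) := by positivity
  nlinarith

theorem Nums.OK.zeta' (hn : n.OK C) {s j : ℕ} (h1 : 1 ≤ s) (h2 : s < k) (hj : j < k) :
    2 * (2 ^ k * n.w (s - 1) * n.AA s) / n.w s ≤ n.del' s j := by
  refine le_trans (le_of_eq ?_) (hn.zeta s j h1 h2 hj)
  rw [pow_succ]
  ring

end num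

/-! ## the fat sets at the class -/

section fat

variable {Om : Type*} [Fintype Om] {ι α χ : Type} [Fintype ι] [DecidableEq ι] [Fintype χ] [DecidableEq χ] [Fintype α]
  {κ : Type*} {P : FP Om} {a : Om → α} {x : ι → Om → χ} {Q : Om → κ} {L : Finset ι → Om → ℕ} {J : Finset ι} {u : Om}

theorem Pr_CP_snd (D : SD ι α χ) (S : (ι → χ) → Prop) : (CP D id).Pr (fun q => S q.2) = (piFP D.mu).Pr S := by
  unfold FP.Pr CP
  rw [FP.pr_E]
  have h1 : ∀ b : α, (piFP (fun y => D.mu (id y))).E (fun y => ind (S (b, y).2)) = (piFP D.mu).E (fun v => ind (S v)) :=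
    fun _ => rfl
  simp only [h1]
  exact FP.E_const _ _

theorem Pr_sum_le {Om : Type*} [Fintype Om] (P : FP Om) {γ : Type*} [DecidableEq γ] (F : Finset γ) (S : γ → Om → Prop)
    {p : Om → Prop} (h : ∀ w, p w → ∃ i ∈ F, S i w) : P.Pr p ≤ ∑ i ∈ F, P.Pr (S i) := by
  unfold FP.Pr
  rw [← P.E_sum F (fun i w => ind (S i w))]
  refine P.E_mono (fun w _ => ?_)
  by_cases hp : p w
  · obtain ⟨i, hi, hS⟩ := h w hp
    rw [ind_of hp, ← ind_of hS]
    exact Finset.single_le_sum (f := fun i => ind (S i w)) (fun j _ => ind_nonneg _) hi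
  · rw [ind_not hp]
    exact Finset.sum_nonneg (fun j _ => ind_nonneg _)

/-- the probability that some set of vertices inside `G` is fat -/
theorem Pr_fatU (hu : P.p u ≠ 0) (full : ∀ M M', Disjoint M M' → P.CI Q (fun v => (a v, xr x M v)) (xr x M'))
    {fat : Finset ι → Om → Prop} (hf : ∀ I, ∀ u z, xr x I u = xr x I z → Q u = Q z → (fat I u ↔ fat I z))
    {G : Finset ι} {c : ℝ} (hc0 : 0 ≤ c)
    (hc : ∀ I, J ⊆ I → I ⊂ G → P.ce (fun v => (xr x J v, Q v)) (fun v => ind (fat I v)) u ≤ c) :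
    (piFP (DC P a x Q L J u).mu).Pr (fun y => ∃ I, J ⊆ I ∧ I ⊂ G ∧ fatc P x Q fat u I y) ≤ 2 ^ Fintype.card ι * c := by
  rw [← Pr_CP_snd]
  refine (Pr_sum_le _ (G.ssubsets.filter fun I => J ⊆ I) (fun I q => fatc P x Q fat u I q.2) ?_).trans ?_
  · rintro q ⟨I, h1, h2, h3⟩
    exact ⟨I, Finset.mem_filter.2 ⟨Finset.mem_ssubsets.2 h2, h1⟩, h3⟩
  · have h1 : ∀ I ∈ G.ssubsets.filter (fun I => J ⊆ I),
        (CP (DC P a x Q L J u) id).Pr (fun q => fatc P x Q fat u I q.2) ≤ c := by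
      intro I hI
      obtain ⟨h2, h3⟩ := Finset.mem_filter.1 hI
      rw [Pr_fatc hu full hf I]
      exact hc I h3 (Finset.mem_ssubsets.1 h2)
    refine (Finset.sum_le_card_nsmul _ _ _ h1).trans ?_
    rw [nsmul_eq_mul]
    refine mul_le_mul_of_nonneg_right ?_ hc0
    have h2 : (G.ssubsets.filter (fun I => J ⊆ I)).card ≤ (univ : Finset (Finset ι)).card :=
      Finset.card_le_card (Finset.subset_univ _)
    rw [Finset.card_univ, Fintype.card_finset] at h2
    exact_mod_cast h2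

end fat

/-! ## (SAT*) at one point -/

section point

variable {Om : Type*} [Fintype Om] {ι α χ : Type} [Fintype ι] [DecidableEq ι] [Fintype χ] [DecidableEq χ] [Fintype α]
  {κ δ φ ε : ℕ → Type*} {P : FP Om} {a : Om → α} {x : ι → Om → χ} {Q : ∀ t, Om → κ t} {D : ∀ t, Om → δ t}
  {E : ∀ t, Finset ι → Om → ε t} {f : ∀ t, Finset ι → Om → φ t} {k c X C : ℕ} {n : Nums k c X} {h : ℝ} {T : ℕ}
  {L : ℕ → Finset ι → Om → ℕ} {fat : ℕ → Finset ι → Om → Prop} {J : Finset ι} {u : Om} {c0 : ℝ}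

theorem Sat0Bd.anti {D' : SD ι α χ} {ft : Finset ι → (ι → χ) → Prop} {s : ℕ} {A A' ζ : ℝ} (h : Sat0Bd D' ft s A' ζ)
    (hA : A ≤ A') : Sat0Bd D' ft s A ζ := fun G hG hJG v hv hf => h G hG hJG v (hv.mono hA) hf

theorem Nums.OK.Exp_AA (hn : n.OK C) {s j : ℕ} (hs : s < k) (hj : j < k) : n.Exp s j ≤ n.AA s := hn.Ex_AA s j hs hj

theorem Nums.OK.Exp_nonneg (hn : n.OK C) {s j : ℕ} (hs : s < k) (hj : j < k) : 0 ≤ n.Exp s j := by
  have h1 := hn.aa_ge s hs
  have h2 := hn.Ex_one s j hs hj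
  have h3 : (0 : ℝ) ≤ X := Nat.cast_nonneg _
  unfold Nums.Exp
  have h4 : 0 ≤ n.aa s + n.Ex s j := by linarith
  positivity

/-- the bound of the letters at one point -/
theorem RuleOut.phiAll (hn : n.OK C) (hX : 2 ≤ X) (hck : cMin k ≤ c) (hι : Fintype.card ι = k) (hM : MdlI P a x Q D E c0)
    (hR : RuleOut P a x Q D f n.AA n.w n.aa h T L fat) (hJ : J ≠ univ) {t : ℕ} (hu : P.p u ≠ 0)
    (hphi : ∀ G, ¬ J ⊆ G → G ≠ univ →
      phi P a x (Q t) (L t) (n.Exp G.card J.card) J G u ≤ n.del' G.card J.card)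
    (hfat : ∀ I, I ≠ univ → P.ce (knq x Q J t) (fun v => ind (fat t I v)) u ≤
      Real.sqrt (4 * n.hh I.card / n.aa I.card)) :
    ∀ s < k, PhAll (DC P a x (Q t) (L t) J u) s (n.Exp s J.card) (2 * n.del' s J.card) := by
  intro s hs
  have hj : J.card < k := by
    rw [← hι]
    exact card_lt_of_prp hJ
  have hd : 0 < n.del' s J.card := hn.be_pos s J.card k hs hj
  have hX' : (2 : ℝ) ≤ X := by exact_mod_cast hX
  have haa : ∀ r, r < k → 0 < n.aa r := fun r hr => by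
    have := hn.aa_ge r hr
    linarith
  rcases Nat.eq_zero_or_pos s with rfl | hs1
  · intro G hG hGJ
    rw [Finset.card_eq_zero] at hG
    subst hG
    exact absurd (Finset.empty_subset _) hGJ
  have hck' : 2 * k ≤ c := by
    unfold cMin at hck
    have := Nat.zero_le (2 * k * k)
    omega
  have h1 := hR.phiBd t hu (hM.full t) (J := J) (s := s) (A := n.Exp s J.card) (ρ := n.del' s J.card)
    (fun G' hG' hJG' => by
      have h2 := hphi G' hJG' (fun hh => by
        rw [hh, Finset.card_univ] at hG'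
        omega)
      rw [hG'] at h2
      exact h2)
  have h2 := (hR.sat0Bd t hu (hM.full t) (J := J) (s := s) (hι ▸ hs)
    (zero_le_one.trans (hn.AA_pos s hs))).anti (hn.Exp_AA hs hj)
  have h3 := hR.alBd t hu (hM.full t) (J := J) (fun r hr => (haa r (hι ▸ hr)).le)
  have hφ0 : 0 ≤ n.del' s J.card / (n.aa s * 2 ^ k) := by
    have := haa s hs
    positivity
  have h4 := PhAll_of_AlBd (D := DC P a x (Q t) (L t) J u) (fat := fatc P x (Q t) (fat t) u) (fun I y y' hy => fatc_dep hy) (hι.symm ▸ hs) h3 h1 h2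
    (haa s hs).le hφ0 (fun I hJI hI => by
      rw [hR.Pr_fatc t hu (hM.full t) I]
      have hIu : I ≠ univ := by
        rintro rfl
        rw [Finset.card_univ] at hI
        omega
      refine (hfat I hIu).trans ?_
      rw [le_div_iff₀ (by have := haa s hs; positivity)]
      have h5 := hn.fat_sqrt hX hck' hI hs hj
      calc Real.sqrt (4 * n.hh I.card / n.aa I.card) * (n.aa s * 2 ^ k) =
          n.aa s * (2 ^ k * Real.sqrt (4 * n.hh I.card / n.aa I.card)) := by ring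
        _ ≤ _ := h5)
  refine h4.mono (max_le (by linarith) ?_)
  have h5 := hn.zeta' (s := s) hs1 hs hj
  have h6 : n.aa s * (2 ^ Fintype.card ι * (n.del' s J.card / (n.aa s * 2 ^ k))) = n.del' s J.card := by
    rw [hι]
    have := haa s hs
    field_simp
  rw [h6]
  have h7 : 2 * (2 ^ Fintype.card ι * n.w (s - 1) * n.AA s) / n.w s ≤ n.del' s J.card := by
    rw [hι]
    exact h5
  linarith

/-- (SAT*) at one point -/
theorem RuleOut.satStar (hn : n.OK C) (hX : 2 ≤ X) (hck : cMin k ≤ c) (hι : Fintype.card ι = k)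
    (hM : MdlI P a x Q D E c0) (hR : RuleOut P a x Q D f n.AA n.w n.aa h T L fat) (hJ : J ≠ univ) {t : ℕ}
    (hu : P.p u ≠ 0) (hstep : StepStmt (DC P a x (Q t) (L t) J u) k)
    (hphi : ∀ G, ¬ J ⊆ G → G ≠ univ →
      phi P a x (Q t) (L t) (n.Exp G.card J.card) J G u ≤ n.del' G.card J.card)
    (hfat : ∀ I, I ≠ univ → P.ce (knq x Q J t) (fun v => ind (fat t I v)) u ≤
      Real.sqrt (4 * n.hh I.card / n.aa I.card)) :
    ∀ s < k, (∀ r, 1 ≤ r → r ≤ s →
        BdX (DC P a x (Q t) (L t) J u) k s r (n.nu' s J.card) (n.Ex s J.card) (n.be s J.card r)) ∧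
      BdX (DC P a x (Q t) (L t) J u) k s 0 (n.nu s) (n.Ex s J.card) (n.del s J.card) ∧
      Bd (DC P a x (Q t) (L t) J u) k s (n.nu s) (n.del s J.card) := by
  have hj : J.card < k := by
    rw [← hι]
    exact card_lt_of_prp hJ
  have hX' : (2 : ℝ) ≤ X := by exact_mod_cast hX
  have haa : ∀ r, r < k → 0 < n.aa r := fun r hr => by
    have := hn.aa_ge r hr
    linarith
  have h0 := hR.alBd t hu (hM.full t) (J := J) (fun r hr => (haa r (hι ▸ hr)).le)
  rw [hι] at h0
  have h1 := hR.phiAll hn hX hck hι hM hJ hu hphi hfat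
  refine sat_star (D := DC P a x (Q t) (L t) J u) hn hX hck hι.le hj h0 hstep (δ := fun s => 2 * n.del' s J.card)
    (fun s hs => ?_) (fun s hs => ?_) h1 (A := 0) le_rfl (fun s hs => ?_)
  · have hd : 0 < n.del' s J.card := hn.be_pos s J.card k hs hj
    linarith
  · have hd : 0 < n.del' s J.card := hn.be_pos s J.card k hs hj
    show 2 * n.del' s J.card ≤ _
    linarith
  · intro G hG hJG v hv
    have h2 := hR.phiBd t hu (hM.full t) (J := J) (s := s) (A := n.Exp s J.card) (ρ := n.del' s J.card)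
      (fun G' hG' hJG' => by
        have h2 := hphi G' hJG' (fun hh => by
          rw [hh, Finset.card_univ] at hG'
          omega)
        rw [hG'] at h2
        exact h2)
    exact h2 G hG hJG v (hv.mono (hn.Exp_nonneg hs hj))

end point

end

end Pool.Agent.GMM
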