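import Pool.Agent.M3.KL
import Pool.Agent.M3.Indep

/-!
# GMM/Sim: simulation of a family of maps by independent random tables (row CM, CM.3 (3); helper58)

`klm P Q X Y` = relative entropy of the law of the map `X` under `P` with respect to the law of the map `Y` under `Q` (two
different spaces); `Acm` absolute continuity.  `piFP K` = product law on a space of tables.
* `step_klm` : one simulated step: `(X, Z)` against `(Y, Z~)`, `Z~` drawn from the law of `Z` given `g X`, at `g Y`:
  `klm` grows by `Hc Z (g X) - Hc Z X`.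
* `klm_mono` : data processing.
* `sim_exists` : a family `Z i`, `i : ι`, with parents `pa i` of smaller rank and a view `vw i` of the kept part `X0`: there
  is a seed `Θ`, independent of everything, and maps `Zs i` on `Om × Θ`, `Zs i` a function of
  `(θ, vw i, the Zs of the parents)`, its value at a point `w` of the support is `Z i v` for a `v` of the support with
  `vw i v = vw i w.1`, with `klm (X0, Z) (X0, Zs) = ∑ i, Hc (Z i) (vw i, parents) - Hc Z X0`.
-/

set_option autoImplicit false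
set_option linter.unusedSectionVars false

namespace Pool.Agent.GMM

open Finset Pool.Agent.PWZ Pool.Agent.M3

noncomputable section

/-! ## product law of tables -/

section tables

variable {α β : Type*} [Fintype α] [DecidableEq α] [Fintype β] [DecidableEq β]

/-- product law on the tables `α → β` -/
def piFP (K : α → FP β) : FP (α → β) where
  p := fun f => ∏ x, (K x).p (f x)
  nn := fun f => Finset.prod_nonneg (fun x _ => (K x).nn _)
  tot := by
    have h := (Finset.prod_univ_sum (fun _ : α => (Finset.univ : Finset β)) (fun x b => (K x).p b)).symm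
    rw [Fintype.piFinset_univ] at h
    rw [h]
    exact Finset.prod_eq_one (fun x _ => (K x).tot)

theorem piFP_coord (K : α → FP β) (a : α) (g : β → ℝ) : (piFP K).E (fun f => g (f a)) = (K a).E g := by
  have h := (Finset.prod_univ_sum (fun _ : α => (Finset.univ : Finset β))
    (fun x b => (K x).p b * (if x = a then g b else 1))).symm
  rw [Fintype.piFinset_univ] at h
  have h1 : (piFP K).E (fun f => g (f a)) = ∑ f : α → β, ∏ x, ((K x).p (f x) * (if x = a then g (f x) else 1)) := by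
    unfold FP.E
    refine Finset.sum_congr rfl (fun f _ => ?_)
    rw [Finset.prod_mul_distrib]
    congr 1
    rw [Finset.prod_ite_eq' Finset.univ a (fun x => g (f x)), if_pos (Finset.mem_univ a)]
  rw [h1, h]
  have h2 : ∀ x, ∑ b, (K x).p b * (if x = a then g b else 1) = if x = a then (K a).E g else 1 := by
    intro x
    by_cases hx : x = a
    · subst hx
      simp only [if_true]
      rfl
    · simp only [if_neg hx, mul_one]
      exact (K x).tot
  rw [Finset.prod_congr rfl (fun x _ => h2 x), Finset.prod_ite_eq' Finset.univ a (fun _ => (K a).E g),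
    if_pos (Finset.mem_univ a)]

end tables

/-! ## relative entropy of two maps on two spaces -/

section klm

variable {O1 O2 : Type*} [Fintype O1] [Fintype O2] {κ : Type*}

/-- relative entropy of the law of `X` under `P` with respect to the law of `Y` under `Q` -/
def klm (P : FP O1) (Q : FP O2) (X : O1 → κ) (Y : O2 → κ) : ℝ :=
  P.E (fun w => Real.log (P.m X w / Q.Pr (fun v => Y v = X w)))

/-- absolute continuity of the law of `X` with respect to the law of `Y` -/
def Acm (P : FP O1) (Q : FP O2) (X : O1 → κ) (Y : O2 → κ) : Prop :=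
  ∀ w, P.p w ≠ 0 → Q.Pr (fun v => Y v = X w) ≠ 0

end klm

/-! ## one step -/

section step

variable {O1 O2 : Type*} [Fintype O1] [Fintype O2] [DecidableEq O1] [DecidableEq O2] {κ ζ π : Type*}

/-- the representative of the fibre of `f` through `v` -/
def rep (f : O2 → π) (v : O2) : O2 := @Function.invFun _ _ ⟨v⟩ f (f v)

theorem rep_eq (f : O2 → π) (v : O2) : f (rep f v) = f v :=
  @Function.invFun_eq _ _ ⟨v⟩ f (f v) ⟨v, rfl⟩

theorem rep_fac (f : O2 → π) : Fac f (rep f) := by
  intro v u h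
  show @Function.invFun _ _ ⟨v⟩ f (f v) = @Function.invFun _ _ ⟨u⟩ f (f u)
  rw [h]

open Classical in
/-- the table law: at `v` a point of `O1` drawn from `P` given `gX = gY v` (from `Df v` when this is a null event) -/
def tabFP (P : FP O1) (gX : O1 → π) (gY : O2 → π) (Df : O2 → FP O1) : FP (O2 → O1) :=
  piFP (fun v => if P.Pr (fun w => gX w = gY v) ≠ 0 then P.cond (fun w => gX w = gY v) else Df v)

/-- the simulated value -/
def simZ (Z : O1 → ζ) (gY : O2 → π) (v : O2 × (O2 → O1)) : ζ := Z (v.2 (rep gY v.1))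

theorem step_Pr (P : FP O1) (Q : FP O2) (X : O1 → κ) (Z : O1 → ζ) (Y : O2 → κ) (gX : O1 → π) (gY : O2 → π)
    (Df : O2 → FP O1) (hg : ∀ w v, Y v = X w → gY v = gX w) {w : O1} (hw : P.p w ≠ 0) :
    (FP.pr Q (tabFP P gX gY Df)).Pr (fun v => (Y v.1, simZ Z gY v) = (X w, Z w)) =
      Q.Pr (fun v => Y v = X w) * (P.m (fun u => (Z u, gX u)) w / P.m gX w) := by
  classical
  have h1 : (FP.pr Q (tabFP P gX gY Df)).Pr (fun v => (Y v.1, simZ Z gY v) = (X w, Z w)) =
      Q.E (fun v => ind (Y v = X w) * (P.m (fun u => (Z u, gX u)) w / P.m gX w)) := by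
    unfold FP.Pr
    rw [FP.pr_E]
    refine Q.E_congr (fun v _ => ?_)
    by_cases hv : Y v = X w
    · rw [ind_of hv, one_mul]
      have h2 : (tabFP P gX gY Df).E (fun y => ind ((Y (v, y).1, simZ Z gY (v, y)) = (X w, Z w))) =
          (tabFP P gX gY Df).E (fun y => (fun u => ind (Z u = Z w)) (y (rep gY v))) := by
        refine FP.E_congr _ (fun y _ => ?_)
        show ind ((Y v, Z (y (rep gY v))) = (X w, Z w)) = ind (Z (y (rep gY v)) = Z w)
        congr 1
        rw [Prod.mk.injEq]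
        exact propext ⟨fun h => h.2, fun h => ⟨hv, h⟩⟩
      rw [h2]
      have h2' := piFP_coord (fun v => if P.Pr (fun w => gX w = gY v) ≠ 0 then P.cond (fun w => gX w = gY v) else Df v)
        (rep gY v) (fun u => ind (Z u = Z w))
      unfold tabFP
      rw [h2']
      have h3 : gY (rep gY v) = gX w := by rw [rep_eq gY v, hg w v hv]
      have h4 : P.Pr (fun u => gX u = gX w) ≠ 0 := (P.m_pos gX hw).ne'
      rw [h3, if_pos h4]
      rw [FP.cond_E h4]
      have h5 : P.Pr (fun u => gX u = gX w) = P.m gX w := rfl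
      rw [h5]
      congr 1
      unfold FP.m
      refine P.E_congr (fun u _ => ?_)
      rw [Prod.mk.injEq, ind_and, mul_comm]
    · rw [ind_not hv, zero_mul]
      have h2 : (tabFP P gX gY Df).E (fun y => ind ((Y (v, y).1, simZ Z gY (v, y)) = (X w, Z w))) =
          (tabFP P gX gY Df).E (fun _ => (0 : ℝ)) := by
        refine FP.E_congr _ (fun y _ => ?_)
        refine ind_not ?_
        rw [Prod.mk.injEq]
        exact fun h => hv h.1
      rw [h2, FP.E_const]
  rw [h1, FP.E_mul_const]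
  rfl

theorem step_Acm (P : FP O1) (Q : FP O2) (X : O1 → κ) (Z : O1 → ζ) (Y : O2 → κ) (gX : O1 → π) (gY : O2 → π)
    (Df : O2 → FP O1) (hg : ∀ w v, Y v = X w → gY v = gX w) (hac : Acm P Q X Y) :
    Acm P (FP.pr Q (tabFP P gX gY Df)) (fun w => (X w, Z w)) (fun v => (Y v.1, simZ Z gY v)) := by
  intro w hw
  rw [step_Pr P Q X Z Y gX gY Df hg hw]
  exact mul_ne_zero (hac w hw) (div_ne_zero (P.m_pos _ hw).ne' (P.m_pos _ hw).ne')

/-- ONE STEP -/
theorem step_klm (P : FP O1) (Q : FP O2) (X : O1 → κ) (Z : O1 → ζ) (Y : O2 → κ) (gX : O1 → π) (gY : O2 → π)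
    (Df : O2 → FP O1) (hg : ∀ w v, Y v = X w → gY v = gX w) (hac : Acm P Q X Y) :
    klm P (FP.pr Q (tabFP P gX gY Df)) (fun w => (X w, Z w)) (fun v => (Y v.1, simZ Z gY v)) =
      klm P Q X Y + (P.Hc Z gX - P.Hc Z X) := by
  have h1 : klm P (FP.pr Q (tabFP P gX gY Df)) (fun w => (X w, Z w)) (fun v => (Y v.1, simZ Z gY v)) =
      P.E (fun w => Real.log (P.m X w / Q.Pr (fun v => Y v = X w)) +
        ((- Real.log (P.m (fun u => (Z u, gX u)) w) - - Real.log (P.m gX w)) -
          (- Real.log (P.m (fun u => (Z u, X u)) w) - - Real.log (P.m X w)))) := by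
    unfold klm
    refine P.E_congr (fun w hw => ?_)
    rw [step_Pr P Q X Z Y gX gY Df hg hw]
    have e1 : P.m (fun u => (X u, Z u)) w = P.m (fun u => (Z u, X u)) w :=
      P.m_congr (fun v v' h => by simp only [Prod.mk.injEq] at h ⊢; exact ⟨h.2, h.1⟩)
        (fun v v' h => by simp only [Prod.mk.injEq] at h ⊢; exact ⟨h.2, h.1⟩) w
    rw [e1]
    have p1 := (P.m_pos X hw).ne'
    have p2 := (P.m_pos gX hw).ne'
    have p3 := (P.m_pos (fun u => (Z u, gX u)) hw).ne'
    have p4 := (P.m_pos (fun u => (Z u, X u)) hw).ne'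
    have p5 := hac w hw
    rw [Real.log_div p4 (mul_ne_zero p5 (div_ne_zero p3 p2)), Real.log_mul p5 (div_ne_zero p3 p2),
      Real.log_div p3 p2, Real.log_div p1 p5]
    ring
  rw [h1, P.E_add, P.E_sub, P.E_sub, P.E_sub]
  rfl

end step

/-! ## families -/

section fam

variable {ι ζ O : Type*}

open Classical in
/-- the members of the family `Z` with index in `s` -/
def Fam (Z : ι → O → ζ) (s : Set ι) (w : O) : ι → Option ζ := fun i => if i ∈ s then some (Z i w) else none

theorem Fam_eq_iff' {O' : Type*} {Z : ι → O → ζ} {Z' : ι → O' → ζ} {s : Set ι} {v : O} {w : O'} :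
    Fam Z s v = Fam Z' s w ↔ ∀ i ∈ s, Z i v = Z' i w := by
  constructor
  · intro h i hi
    have := congrFun h i
    unfold Fam at this
    rw [if_pos hi, if_pos hi] at this
    exact Option.some.inj this
  · intro h
    funext i
    unfold Fam
    by_cases hi : i ∈ s
    · rw [if_pos hi, if_pos hi, h i hi]
    · rw [if_neg hi, if_neg hi]

theorem Fam_fac {Z : ι → O → ζ} {s t : Set ι} (h : t ⊆ s) : Fac (Fam Z s) (Fam Z t) := fun _ _ hvw =>
  Fam_eq_iff'.2 (fun i hi => Fam_eq_iff'.1 hvw i (h hi))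

theorem Fam_mem {Z : ι → O → ζ} {s : Set ι} {i : ι} (h : i ∈ s) : Fac (Fam Z s) (Z i) := fun _ _ hvw =>
  Fam_eq_iff'.1 hvw i h

end fam

/-! ## simulation of a family -/

section sim

theorem klm_congr {O1 O2 : Type*} [Fintype O1] [Fintype O2] {κ κ' : Type*} (P : FP O1) (Q : FP O2) {X : O1 → κ}
    {Y : O2 → κ} {X' : O1 → κ'} {Y' : O2 → κ'} (h1 : ∀ v w, X v = X w ↔ X' v = X' w)
    (h2 : ∀ v w, Y v = X w ↔ Y' v = X' w) : klm P Q X Y = klm P Q X' Y' := by
  unfold klm FP.m FP.Pr
  refine P.E_congr (fun w _ => ?_)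
  have e1 : (fun v => ind (X v = X w)) = fun v => ind (X' v = X' w) := by
    funext v
    rw [propext (h1 v w)]
  have e2 : (fun v => ind (Y v = X w)) = fun v => ind (Y' v = X' w) := by
    funext v
    rw [propext (h2 v w)]
  rw [e1, e2]

theorem Acm_congr {O1 O2 : Type*} [Fintype O1] [Fintype O2] {κ κ' : Type*} (P : FP O1) (Q : FP O2) {X : O1 → κ}
    {Y : O2 → κ} {X' : O1 → κ'} {Y' : O2 → κ'} (h2 : ∀ v w, Y v = X w ↔ Y' v = X' w) (h : Acm P Q X Y) :
    Acm P Q X' Y' := by
  intro w hw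
  have h3 := h w hw
  have e2 : (fun v => Y v = X w) = fun v => Y' v = X' w := by
    funext v
    rw [propext (h2 v w)]
  rw [e2] at h3
  exact h3

theorem pr_assoc_E {O1 O2 O3 : Type*} [Fintype O1] [Fintype O2] [Fintype O3] (P : FP O1) (Q : FP O2) (T : FP O3)
    (f : O1 × O2 × O3 → ℝ) :
    (FP.pr P (FP.pr Q T)).E f = (FP.pr (FP.pr P Q) T).E (fun v => f (v.1.1, v.1.2, v.2)) := by
  rw [FP.pr_E, FP.pr_E, FP.pr_E]
  refine P.E_congr (fun x _ => ?_)
  rw [FP.pr_E]

theorem pr_assoc_Pr {O1 O2 O3 : Type*} [Fintype O1] [Fintype O2] [Fintype O3] (P : FP O1) (Q : FP O2) (T : FP O3)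
    (s : O1 × O2 × O3 → Prop) :
    (FP.pr P (FP.pr Q T)).Pr s = (FP.pr (FP.pr P Q) T).Pr (fun v => s (v.1.1, v.1.2, v.2)) :=
  pr_assoc_E P Q T _

/-- DATA PROCESSING -/
theorem klm_mono {O1 O2 : Type*} [Fintype O1] [Fintype O2] {κ κ' : Type*} (P : FP O1) (Q : FP O2) {X : O1 → κ}
    {Y : O2 → κ} {X' : O1 → κ'} {Y' : O2 → κ'} (hac : Acm P Q X Y) (h1 : Fac X X')
    (h2 : ∀ v w, Y v = X w → Y' v = X' w) : klm P Q X' Y' ≤ klm P Q X Y := by
  classical
  have hQ1 : ∀ w, P.p w ≠ 0 → 0 < Q.Pr (fun v => Y v = X w) := fun w hw =>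
    lt_of_le_of_ne (Q.Pr_nonneg _) (Ne.symm (hac w hw))
  have hQ2 : ∀ w, P.p w ≠ 0 → 0 < Q.Pr (fun v => Y' v = X' w) := fun w hw =>
    lt_of_lt_of_le (hQ1 w hw) (Q.Pr_mono (fun v _ h => h2 v w h))
  -- the ratio of the two densities
  set R : O1 → ℝ := fun w => (P.m X w / Q.Pr (fun v => Y v = X w)) / (P.m X' w / Q.Pr (fun v => Y' v = X' w)) with hR
  have hR0 : ∀ w, P.p w ≠ 0 → 0 < R w := fun w hw =>
    div_pos (div_pos (P.m_pos X hw) (hQ1 w hw)) (div_pos (P.m_pos X' hw) (hQ2 w hw))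
  have hsum : P.E (fun w => 1 / R w) ≤ 1 := by
    have e1 : P.E (fun w => 1 / R w) = P.E (fun w => Q.E (fun v =>
        ind (Y v = X w) * (P.m X' w / (P.m X w * Q.Pr (fun v => Y' v = X' w))))) := by
      refine P.E_congr (fun w hw => ?_)
      rw [Q.E_mul_const]
      have p1 := (P.m_pos X hw).ne'
      have p2 := (P.m_pos X' hw).ne'
      have p3 := (hQ1 w hw).ne'
      have p4 := (hQ2 w hw).ne'
      have e2 : Q.E (fun v => ind (Y v = X w)) = Q.Pr (fun v => Y v = X w) := rfl
      rw [e2]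
      simp only [hR]
      field_simp
    rw [e1, P.E_swap]
    have e3 : Q.E (fun v => P.E (fun w => ind (Y v = X w) * (P.m X' w / (P.m X w * Q.Pr (fun v => Y' v = X' w))))) ≤
        Q.E (fun v => P.E (fun u => ind (Y' v = X' u) / Q.m Y' v)) := by
      refine Q.E_mono (fun v hv0 => ?_)
      by_cases hv : ∃ w, P.p w ≠ 0 ∧ Y v = X w
      · obtain ⟨w0, hw0, hv0⟩ := hv
        refine le_of_eq ?_
        have e4 : Y' v = X' w0 := h2 v w0 hv0
        have e5 : P.E (fun w => ind (Y v = X w) * (P.m X' w / (P.m X w * Q.Pr (fun v => Y' v = X' w)))) =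
            P.E (fun w => ind (X w = X w0) * (P.m X' w0 / (P.m X w0 * Q.Pr (fun v => Y' v = X' w0)))) := by
          refine P.E_congr (fun w _ => ?_)
          by_cases hh : X w = X w0
          · rw [ind_of hh, ind_of (hv0.trans hh.symm), P.Fac_m X w w0 hh, h1 w w0 hh,
              P.Fac_m X' w w0 (h1 w w0 hh)]
          · rw [ind_not hh, ind_not (fun h => hh (h.symm.trans hv0))]
            ring
        have e6 : P.E (fun w => ind (X w = X w0)) = P.m X w0 := rfl
        have e7 : P.E (fun u => ind (Y' v = X' u) / Q.m Y' v) = P.m X' w0 / Q.Pr (fun v => Y' v = X' w0) := by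
          have e8 : Q.m Y' v = Q.Pr (fun v => Y' v = X' w0) := by
            unfold FP.m FP.Pr
            rw [e4]
          rw [e8, P.E_div_const]
          congr 1
          unfold FP.m
          refine P.E_congr (fun u _ => ?_)
          rw [e4]
          by_cases hh : X' u = X' w0
          · rw [ind_of hh, ind_of hh.symm]
          · rw [ind_not hh, ind_not (fun h => hh h.symm)]
        rw [e5, P.E_mul_const, e6, e7]
        have p1 := (P.m_pos X hw0).ne'
        have p4 := (hQ2 w0 hw0).ne'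
        field_simp
      · have e5 : P.E (fun w => ind (Y v = X w) * (P.m X' w / (P.m X w * Q.Pr (fun v => Y' v = X' w)))) =
            P.E (fun _ => (0 : ℝ)) := by
          refine P.E_congr (fun w hw => ?_)
          rw [ind_not (fun h => hv ⟨w, hw, h⟩), zero_mul]
        rw [e5, P.E_const]
        exact P.E_nonneg (fun u _ => div_nonneg (ind_nonneg _) (Q.m_nonneg _ _))
    refine e3.trans ?_
    rw [Q.E_swap]
    refine P.E_le_const (fun u _ => ?_)
    exact Q.E_ind_div_m_le Y' (X' u)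
  have h3 := P.E_log_nonneg hR0 hsum
  have h4 : P.E (fun w => Real.log (R w)) = klm P Q X Y - klm P Q X' Y' := by
    unfold klm
    rw [← P.E_sub]
    refine P.E_congr (fun w hw => ?_)
    rw [← Real.log_div (div_pos (P.m_pos X hw) (hQ1 w hw)).ne' (div_pos (P.m_pos X' hw) (hQ2 w hw)).ne']
  rw [h4] at h3
  linarith

/-- the one point law -/
def oneFP : FP Unit where
  p := fun _ => 1
  nn := fun _ => zero_le_one
  tot := by simp

theorem pr_one_E {O1 : Type*} [Fintype O1] (P : FP O1) (f : O1 × Unit → ℝ) :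
    (FP.pr P oneFP).E f = P.E (fun w => f (w, ())) := by
  rw [FP.pr_E]
  refine P.E_congr (fun x _ => ?_)
  unfold FP.E oneFP
  simp

variable {Om : Type} [Fintype Om] {ι κ ζ ν : Type*}

/-- SIMULATION, for a finite set `S` of indices closed under parents -/
theorem sim_fin (P : FP Om) (X0 : Om → κ) (Z : ι → Om → ζ) (vw : ι → Om → ν) (hvw : ∀ i, Fac X0 (vw i))
    (pa : ι → Set ι) (rk : ι → ℕ) (hpa : ∀ i, ∀ j ∈ pa i, rk j < rk i) :
    ∀ (n : ℕ) (S : Finset ι), S.card = n → (∀ i ∈ S, pa i ⊆ (S : Set ι)) →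
    ∃ (Θ : Type) (_ : Fintype Θ) (Q : FP Θ) (Zs : ι → Om × Θ → ζ),
      (∀ i ∈ S, Fac (fun w => (w.2, vw i w.1, Fam Zs (pa i) w)) (Zs i)) ∧ (∀ i w, ∃ v, Zs i w = Z i v) ∧
      (∀ i w, (FP.pr P Q).p w ≠ 0 → ∃ v, P.p v ≠ 0 ∧ vw i v = vw i w.1 ∧ Zs i w = Z i v) ∧
      Acm P (FP.pr P Q) (fun w => (X0 w, Fam Z (S : Set ι) w)) (fun w => (X0 w.1, Fam Zs (S : Set ι) w)) ∧
      klm P (FP.pr P Q) (fun w => (X0 w, Fam Z (S : Set ι) w)) (fun w => (X0 w.1, Fam Zs (S : Set ι) w)) =
        ∑ i ∈ S, P.Hc (Z i) (fun w => (vw i w, Fam Z (pa i) w)) - P.Hc (Fam Z (S : Set ι)) X0 := by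
  classical
  intro n
  induction n with
  | zero =>
    intro S hS _
    have hS0 : S = ∅ := Finset.card_eq_zero.1 hS
    subst hS0
    have hF : ∀ (v w : Om), Fam Z ((∅ : Finset ι) : Set ι) v = Fam Z ((∅ : Finset ι) : Set ι) w := fun v w =>
      Fam_eq_iff'.2 (fun i hi => absurd hi (by simp))
    have hPr : ∀ w, (FP.pr P oneFP).Pr (fun v => (X0 v.1, Fam (fun (i : ι) (w : Om × Unit) => Z i w.1)
        ((∅ : Finset ι) : Set ι) v) = (X0 w, Fam Z ((∅ : Finset ι) : Set ι) w)) =
        P.m (fun w => (X0 w, Fam Z ((∅ : Finset ι) : Set ι) w)) w := by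
      intro w
      unfold FP.Pr
      rw [pr_one_E]
      rfl
    refine ⟨Unit, inferInstance, oneFP, fun i w => Z i w.1, fun i hi => absurd hi (by simp), fun i w => ⟨w.1, rfl⟩,
      fun i w hw => ⟨w.1, left_ne_zero_of_mul hw, rfl, rfl⟩, ?_, ?_⟩
    · intro w hw
      rw [hPr w]
      exact (P.m_pos _ hw).ne'
    · unfold klm
      have h1 : P.E (fun w => Real.log (P.m (fun w => (X0 w, Fam Z ((∅ : Finset ι) : Set ι) w)) w /
          (FP.pr P oneFP).Pr (fun v => (X0 v.1, Fam (fun (i : ι) (w : Om × Unit) => Z i w.1)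
            ((∅ : Finset ι) : Set ι) v) = (X0 w, Fam Z ((∅ : Finset ι) : Set ι) w)))) = P.E (fun _ => (0 : ℝ)) := by
        refine P.E_congr (fun w hw => ?_)
        rw [hPr w, div_self (P.m_pos _ hw).ne', Real.log_one]
      rw [h1, P.E_const, Finset.sum_empty]
      have h2 : P.Hc (Fam Z ((∅ : Finset ι) : Set ι)) X0 = 0 := by
        unfold FP.Hc
        have : P.H (fun w => (Fam Z ((∅ : Finset ι) : Set ι) w, X0 w)) = P.H X0 := by
          refine P.H_congr (fun v w h => ?_) (fun v w h => ?_)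
          · simp only [Prod.mk.injEq] at h; exact h.2
          · simp only [Prod.mk.injEq]; exact ⟨hF v w, h⟩
        rw [this, sub_self]
      rw [h2, sub_self]
  | succ n ih =>
    intro S hS hcl
    have hne : S.Nonempty := by
      rw [← Finset.card_pos, hS]; exact Nat.succ_pos n
    obtain ⟨i0, hi0, hmax⟩ := Finset.exists_max_image S rk hne
    set S' := S.erase i0 with hS'
    have hcard : S'.card = n := by rw [hS', Finset.card_erase_of_mem hi0, hS]; rfl
    have hcl' : ∀ i ∈ S', pa i ⊆ (S' : Set ι) := by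
      intro i hi j hj
      have hiS : i ∈ S := Finset.mem_of_mem_erase hi
      have hjS : j ∈ S := by exact_mod_cast hcl i hiS hj
      have : j ≠ i0 := by
        rintro rfl
        have h1 := hpa i j hj
        have h2 := hmax i hiS
        omega
      exact_mod_cast Finset.mem_erase.2 ⟨this, hjS⟩
    have hpa0 : pa i0 ⊆ (S' : Set ι) := by
      intro j hj
      have hjS : j ∈ S := by exact_mod_cast hcl i0 hi0 hj
      have : j ≠ i0 := by
        rintro rfl
        exact absurd (hpa _ _ hj) (lt_irrefl _)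
      exact_mod_cast Finset.mem_erase.2 ⟨this, hjS⟩
    obtain ⟨Θ', hΘ', Q', Zs', hfac', hval', hsup', hac', hkl'⟩ := ih S' hcard hcl'
    set gX : Om → ν × (ι → Option ζ) := fun w => (vw i0 w, Fam Z (pa i0) w) with hgX
    set gY : Om × Θ' → ν × (ι → Option ζ) := fun v => (vw i0 v.1, Fam Zs' (pa i0) v) with hgY
    set X : Om → κ × (ι → Option ζ) := fun w => (X0 w, Fam Z (S' : Set ι) w) with hX
    set Y : Om × Θ' → κ × (ι → Option ζ) := fun v => (X0 v.1, Fam Zs' (S' : Set ι) v) with hY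
    have hg : ∀ w v, Y v = X w → gY v = gX w := by
      intro w v h
      simp only [hX, hY, Prod.mk.injEq] at h
      simp only [hgX, hgY, Prod.mk.injEq]
      refine ⟨hvw i0 v.1 w h.1, Fam_eq_iff'.2 (fun i hi => Fam_eq_iff'.1 h.2 i (hpa0 hi))⟩
    set Df : Om × Θ' → FP Om := fun v => P.cond (fun u => vw i0 u = vw i0 v.1) with hDf
    have hstepA := step_Acm P (FP.pr P Q') X (Z i0) Y gX gY Df hg hac'
    have hstepK := step_klm P (FP.pr P Q') X (Z i0) Y gX gY Df hg hac'
    set T := tabFP P gX gY Df with hT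
    set Zs : ι → Om × (Θ' × (Om × Θ' → Om)) → ζ := fun i w =>
      if i = i0 then Z i0 (w.2.2 (rep gY (w.1, w.2.1))) else Zs' i (w.1, w.2.1) with hZs
    have hZs0 : ∀ w, Zs i0 w = Z i0 (w.2.2 (rep gY (w.1, w.2.1))) := fun w => by simp only [hZs, if_true]
    have hZs1 : ∀ i, i ≠ i0 → ∀ w, Zs i w = Zs' i (w.1, w.2.1) := fun i hi w => by simp only [hZs, if_neg hi]
    have hpane : ∀ i ∈ S, ∀ j ∈ pa i, j ≠ i0 := by
      intro i hi j hj hji
      subst hji
      have h1 := hpa i j hj
      have h2 := hmax i hi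
      omega
    have hev : ∀ (v : (Om × Θ') × (Om × Θ' → Om)) (w : Om),
        ((X0 v.1.1, Fam Zs (S : Set ι) (v.1.1, v.1.2, v.2)) = (X0 w, Fam Z (S : Set ι) w)) ↔
          ((Y v.1, simZ (Z i0) gY v) = (X w, Z i0 w)) := by
      intro v w
      simp only [hX, hY, Prod.mk.injEq]
      constructor
      · rintro ⟨h1, h2⟩
        rw [Fam_eq_iff'] at h2
        refine ⟨⟨h1, Fam_eq_iff'.2 (fun i hi => ?_)⟩, ?_⟩
        · have hi' : i ∈ S' := by exact_mod_cast hi
          have := h2 i (by exact_mod_cast Finset.mem_of_mem_erase hi')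
          rw [hZs1 i (Finset.ne_of_mem_erase hi')] at this
          exact this
        · have := h2 i0 (by exact_mod_cast hi0)
          rw [hZs0] at this
          exact this
      · rintro ⟨⟨h1, h2⟩, h3⟩
        rw [Fam_eq_iff'] at h2
        refine ⟨h1, Fam_eq_iff'.2 (fun i hi => ?_)⟩
        by_cases hii : i = i0
        · subst hii
          rw [hZs0]
          exact h3
        · rw [hZs1 i hii]
          exact h2 i (by exact_mod_cast Finset.mem_erase.2 ⟨hii, by exact_mod_cast hi⟩)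
    have hevX : ∀ (v w : Om), ((X0 v, Fam Z (S : Set ι) v) = (X0 w, Fam Z (S : Set ι) w)) ↔
        ((X v, Z i0 v) = (X w, Z i0 w)) := by
      intro v w
      simp only [hX, Prod.mk.injEq]
      constructor
      · rintro ⟨h1, h2⟩
        rw [Fam_eq_iff'] at h2
        refine ⟨⟨h1, Fam_eq_iff'.2 (fun i hi => ?_)⟩, h2 i0 (by exact_mod_cast hi0)⟩
        have hi' : i ∈ S' := by exact_mod_cast hi
        exact h2 i (by exact_mod_cast Finset.mem_of_mem_erase hi')
      · rintro ⟨⟨h1, h2⟩, h3⟩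
        rw [Fam_eq_iff'] at h2
        refine ⟨h1, Fam_eq_iff'.2 (fun i hi => ?_)⟩
        by_cases hii : i = i0
        · subst hii; exact h3
        · exact h2 i (by exact_mod_cast Finset.mem_erase.2 ⟨hii, by exact_mod_cast hi⟩)
    have hPr : ∀ w, (FP.pr P (FP.pr Q' T)).Pr (fun v => (X0 v.1, Fam Zs (S : Set ι) v) =
        (X0 w, Fam Z (S : Set ι) w)) = (FP.pr (FP.pr P Q') T).Pr (fun v => (Y v.1, simZ (Z i0) gY v) = (X w, Z i0 w)) := by
      intro w
      rw [pr_assoc_Pr]
      congr 1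
      funext v
      exact propext (hev v w)
    have hm : ∀ w, P.m (fun w => (X0 w, Fam Z (S : Set ι) w)) w = P.m (fun w => (X w, Z i0 w)) w := by
      intro w
      unfold FP.m
      refine P.E_congr (fun v _ => ?_)
      rw [propext (hevX v w)]
    refine ⟨Θ' × (Om × Θ' → Om), inferInstance, FP.pr Q' T, Zs, ?_, ?_, ?_, ?_, ?_⟩
    · intro i hi v w h
      simp only [Prod.mk.injEq] at h
      obtain ⟨h1, h2, h3⟩ := h
      have h4 : ∀ j ∈ pa i, Zs' j (v.1, v.2.1) = Zs' j (w.1, w.2.1) := by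
        intro j hj
        have := Fam_eq_iff'.1 h3 j hj
        rw [hZs1 j (hpane i hi j hj), hZs1 j (hpane i hi j hj)] at this
        exact this
      by_cases hii : i = i0
      · subst hii
        rw [hZs0, hZs0]
        have h5 : gY (v.1, v.2.1) = gY (w.1, w.2.1) := by
          simp only [hgY, Prod.mk.injEq]
          exact ⟨h2, Fam_eq_iff'.2 h4⟩
        rw [rep_fac gY _ _ h5, h1]
      · rw [hZs1 i hii, hZs1 i hii]
        refine hfac' i (Finset.mem_erase.2 ⟨hii, hi⟩) (v.1, v.2.1) (w.1, w.2.1) ?_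
        simp only [Prod.mk.injEq]
        exact ⟨by rw [h1], h2, Fam_eq_iff'.2 h4⟩
    · intro i w
      by_cases hii : i = i0
      · subst hii
        exact ⟨w.2.2 (rep gY (w.1, w.2.1)), hZs0 w⟩
      · obtain ⟨v, hv⟩ := hval' i (w.1, w.2.1)
        exact ⟨v, by rw [hZs1 i hii, hv]⟩
    · intro i w hw
      have hw1 : P.p w.1 ≠ 0 := left_ne_zero_of_mul hw
      have hw2 : Q'.p w.2.1 * T.p w.2.2 ≠ 0 := right_ne_zero_of_mul hw
      have hw3 : Q'.p w.2.1 ≠ 0 := left_ne_zero_of_mul hw2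
      have hw4 : T.p w.2.2 ≠ 0 := right_ne_zero_of_mul hw2
      by_cases hii : i = i0
      · subst hii
        set v0 : Om × Θ' := rep gY (w.1, w.2.1) with hv0
        have hg0 : gY v0 = gY (w.1, w.2.1) := rep_eq gY (w.1, w.2.1)
        have hvw0 : vw i v0.1 = vw i w.1 := by
          have := congrArg Prod.fst hg0
          exact this
        have hT0 : (if P.Pr (fun u => gX u = gY v0) ≠ 0 then P.cond (fun u => gX u = gY v0) else Df v0).p (w.2.2 v0) ≠ 0 :=
          Finset.prod_ne_zero_iff.1 hw4 v0 (Finset.mem_univ v0)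
        have key : P.p (w.2.2 v0) ≠ 0 ∧ vw i (w.2.2 v0) = vw i w.1 := by
          by_cases hc : P.Pr (fun u => gX u = gY v0) ≠ 0
          · rw [if_pos hc] at hT0
            obtain ⟨h1, h2⟩ := (FP.cond_p_ne hc).1 hT0
            refine ⟨h2, ?_⟩
            rw [hg0] at h1
            exact congrArg Prod.fst h1
          · rw [if_neg hc] at hT0
            have hne : P.Pr (fun u => vw i u = vw i v0.1) ≠ 0 := by
              rw [hvw0]
              exact (P.m_pos (vw i) hw1).ne'
            obtain ⟨h1, h2⟩ := (FP.cond_p_ne hne).1 hT0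
            exact ⟨h2, h1.trans hvw0⟩
        exact ⟨w.2.2 v0, key.1, key.2, hZs0 w⟩
      · obtain ⟨v, h1, h2, h3⟩ := hsup' i (w.1, w.2.1) (mul_ne_zero hw1 hw3)
        exact ⟨v, h1, h2, by rw [hZs1 i hii, h3]⟩
    · intro w hw
      rw [hPr w]
      exact hstepA w hw
    · have hk : klm P (FP.pr P (FP.pr Q' T)) (fun w => (X0 w, Fam Z (S : Set ι) w))
          (fun w => (X0 w.1, Fam Zs (S : Set ι) w)) =
          klm P (FP.pr (FP.pr P Q') T) (fun w => (X w, Z i0 w)) (fun v => (Y v.1, simZ (Z i0) gY v)) := by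
        unfold klm
        refine P.E_congr (fun w _ => ?_)
        rw [hPr w, hm w]
      rw [hk, hstepK, hkl']
      have h6 : ∑ i ∈ S, P.Hc (Z i) (fun w => (vw i w, Fam Z (pa i) w)) =
          ∑ i ∈ S', P.Hc (Z i) (fun w => (vw i w, Fam Z (pa i) w)) + P.Hc (Z i0) gX := by
        rw [hS', Finset.sum_erase_eq_sub hi0]
        ring
      have h7 : P.Hc (Fam Z (S : Set ι)) X0 = P.Hc (Fam Z (S' : Set ι)) X0 + P.Hc (Z i0) X := by
        unfold FP.Hc
        have e1 : P.H (fun w => (Fam Z (S : Set ι) w, X0 w)) = P.H (fun w => (Z i0 w, X w)) := by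
          refine P.H_congr (fun v w h => ?_) (fun v w h => ?_)
          · have := (hevX v w).1 (by simp only [Prod.mk.injEq] at h ⊢; exact ⟨h.2, h.1⟩)
            simp only [Prod.mk.injEq] at this ⊢
            exact ⟨this.2, this.1⟩
          · have := (hevX v w).2 (by simp only [Prod.mk.injEq] at h ⊢; exact ⟨h.2, h.1⟩)
            simp only [Prod.mk.injEq] at this ⊢
            exact ⟨this.2, this.1⟩
        have e2 : P.H X = P.H (fun w => (Fam Z (S' : Set ι) w, X0 w)) := by
          refine P.H_congr (fun v w h => ?_) (fun v w h => ?_)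
          · simp only [hX, Prod.mk.injEq] at h ⊢; exact ⟨h.2, h.1⟩
          · simp only [hX, Prod.mk.injEq] at h ⊢; exact ⟨h.2, h.1⟩
        rw [e1, e2]
        ring
      rw [h6, h7]
      ring

/-- SIMULATION OF A FINITE FAMILY -/
theorem sim_exists [Fintype ι] (P : FP Om) (X0 : Om → κ) (Z : ι → Om → ζ) (vw : ι → Om → ν)
    (hvw : ∀ i, Fac X0 (vw i)) (pa : ι → Set ι) (rk : ι → ℕ) (hpa : ∀ i, ∀ j ∈ pa i, rk j < rk i) :
    ∃ (Θ : Type) (_ : Fintype Θ) (Q : FP Θ) (Zs : ι → Om × Θ → ζ),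
      (∀ i, Fac (fun w => (w.2, vw i w.1, Fam Zs (pa i) w)) (Zs i)) ∧ (∀ i w, ∃ v, Zs i w = Z i v) ∧
      (∀ i w, (FP.pr P Q).p w ≠ 0 → ∃ v, P.p v ≠ 0 ∧ vw i v = vw i w.1 ∧ Zs i w = Z i v) ∧
      Acm P (FP.pr P Q) (fun w => (X0 w, fun i => Z i w)) (fun w => (X0 w.1, fun i => Zs i w)) ∧
      klm P (FP.pr P Q) (fun w => (X0 w, fun i => Z i w)) (fun w => (X0 w.1, fun i => Zs i w)) =
        ∑ i, P.Hc (Z i) (fun w => (vw i w, Fam Z (pa i) w)) - P.Hc (fun w i => Z i w) X0 := by
  classical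
  obtain ⟨Θ, hΘ, Q, Zs, h1, hval, hsup, h2, h3⟩ := sim_fin P X0 Z vw hvw pa rk hpa _ Finset.univ rfl
    (fun i _ => by simp)
  refine ⟨Θ, hΘ, Q, Zs, fun i => h1 i (Finset.mem_univ i), hval, hsup, ?_, ?_⟩
  · refine Acm_congr P _ (fun v w => ?_) h2
    simp only [Prod.mk.injEq]
    refine and_congr_right (fun _ => ?_)
    rw [Fam_eq_iff', funext_iff]
    simp
  · have h4 : ∀ v w, Fam Z ((Finset.univ : Finset ι) : Set ι) v = Fam Z ((Finset.univ : Finset ι) : Set ι) w ↔
        (fun i => Z i v) = (fun i => Z i w) := by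
      intro v w
      rw [Fam_eq_iff', funext_iff]
      simp
    have h5 : P.Hc (Fam Z ((Finset.univ : Finset ι) : Set ι)) X0 = P.Hc (fun w i => Z i w) X0 := by
      unfold FP.Hc
      congr 1
      refine P.H_congr (fun v w h => ?_) (fun v w h => ?_)
      · simp only [Prod.mk.injEq] at h ⊢; exact ⟨(h4 v w).1 h.1, h.2⟩
      · simp only [Prod.mk.injEq] at h ⊢; exact ⟨(h4 v w).2 h.1, h.2⟩
    rw [← h5, ← h3]
    refine klm_congr P _ (fun v w => ?_) (fun v w => ?_)
    · simp only [Prod.mk.injEq]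
      exact and_congr_right (fun _ => (h4 v w).symm)
    · simp only [Prod.mk.injEq]
      refine and_congr_right (fun _ => ?_)
      rw [Fam_eq_iff', funext_iff]
      simp

end sim

end

end Pool.Agent.GMM
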