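import Pool.Agent.GMM.Keys

/-!
# GMM/SimK: the simulated labels (row CM, CM.3 (3); helper58)

Notation of GMM/Keys, `o : Λ` the cluster.  `Vr y` = the real vertex of the letter `y`, `Vk` = the keys, `VV` = all
vertices, `Vw U` = the real vertices of `U` and the keys.  `low i` = the labels below `i` (`sub e` = the shapes below `e`).
Hypotheses: `hind` : the entropy of labels with fresh parts inside `U` is the same given `Vw U` and given all vertices.
`simK` : for every choice of the numbers `n` there is a seed and there are labels `Ls i` on `Om × Θ` with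
* `Ls i = Lab i` for the labels without `o` (fresh part);
* kind `C` with `o` : `Ls i` is a function of the seed, `Vw (fresh i)` and the `Ls` below `i`;
* kind `T`, fresh part `U` with `o` : `Ls i` is a function of the seed, `Vw U` and the `Ls` in `WW n U ∅` (kind `C` with
  fresh part inside `U`, kind `T` with fresh part strictly inside `U`);
* the relative entropy of the true labels against the `Ls` is at most
  `∑_(U ≠ Λ) loss + (∑_(G in C with o) H(L_G | L_<G) - H(C | C without o))` (`costC` = the sum).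
-/

set_option autoImplicit false
set_option linter.unusedSectionVars false

namespace Pool.Agent.GMM

open Finset Pool.Agent.PWZ Pool.Agent.M3

noncomputable section

variable {Λ E : Type*} [Fintype Λ] [DecidableEq Λ] {r M : ℕ} (Sh : E → Finset Λ) (T : E → Prop)

/-- labels of kind `C` without `o` in the fresh part -/
def Cw (n : Λ × Fin r → ℕ) (o : Λ) : Set (E × (Λ → Option (Key r M))) := {i | ¬ T i.1 ∧ Adm Sh n i ∧ o ∉ fresh Sh i}

/-- labels of kind `C` with `o` in the fresh part -/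
def Co (n : Λ × Fin r → ℕ) (o : Λ) : Set (E × (Λ → Option (Key r M))) := {i | ¬ T i.1 ∧ Adm Sh n i ∧ o ∈ fresh Sh i}

/-- all labels -/
def All (n : Λ × Fin r → ℕ) : Set (E × (Λ → Option (Key r M))) :=
  {i | Adm Sh n i ∧ (T i.1 → fresh Sh i ≠ univ ∧ Lev Sh (fresh Sh i).card i)}

/-- all labels without `o` in the fresh part -/
def Aw (n : Λ × Fin r → ℕ) (o : Λ) : Set (E × (Λ → Option (Key r M))) := {i | i ∈ All Sh T n ∧ o ∉ fresh Sh i}

/-- the labels below `i` -/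
def low (sub : E → Finset E) (i : E × (Λ → Option (Key r M))) : Set (E × (Λ → Option (Key r M))) :=
  {j | j.1 ∈ sub i.1 ∧ j.2 = fun y => if y ∈ Sh j.1 then i.2 y else none}

variable {Sh T}

theorem TT_sub_All {n : Λ × Fin r → ℕ} {U : Finset Λ} (hU : U ≠ univ) : TT (M := M) Sh T n U ⊆ All Sh T n := by
  rintro i ⟨_, h2, h3, h4⟩
  exact ⟨h2, fun _ => ⟨by rw [h3]; exact hU, by rw [h3]; exact h4⟩⟩

theorem All_T {n : Λ × Fin r → ℕ} {i : E × (Λ → Option (Key r M))} (h : i ∈ All Sh T n) (hT : T i.1) :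
    i ∈ TT Sh T n (fresh Sh i) := ⟨hT, h.1, rfl, (h.2 hT).2⟩

theorem TT_sub_WW {n : Λ × Fin r → ℕ} {U U' Y : Finset Λ} (h1 : U' ⊆ U ∪ Y) (h2 : U'.card ≤ U.card) (h3 : U' ≠ U) :
    TT (M := M) Sh T n U' ⊆ WW Sh T n U Y := by
  rintro i ⟨_, h4, h5, h6⟩
  refine ⟨h4, by rw [h5]; exact h1, fun _ => ?_⟩
  rw [h5]
  exact ⟨h2, h3, h6⟩

theorem CC_sub_WW {n : Λ × Fin r → ℕ} {U Y : Finset Λ} : CC (M := M) Sh T n (U ∪ Y) ⊆ WW Sh T n U Y := by
  rintro i ⟨h1, h2, h3⟩
  exact ⟨h2, h3, fun h => absurd h h1⟩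

theorem union_insert {α β : Type*} [DecidableEq β] (C : Set α) (F : β → Set α) (b : β) (s : Finset β) :
    C ∪ {i | ∃ c ∈ insert b s, i ∈ F c} = (C ∪ {i | ∃ c ∈ s, i ∈ F c}) ∪ F b := by
  ext i
  constructor
  · rintro (h | ⟨c, hc, h⟩)
    · exact Or.inl (Or.inl h)
    · rcases Finset.mem_insert.1 hc with rfl | hc
      · exact Or.inr h
      · exact Or.inl (Or.inr ⟨c, hc, h⟩)
  · rintro ((h | ⟨c, hc, h⟩) | h)
    · exact Or.inl h
    · exact Or.inr ⟨c, Finset.mem_insert_of_mem hc, h⟩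
    · exact Or.inr ⟨b, Finset.mem_insert_self b s, h⟩

/-! ## the two inequalities of the entropies -/

section ineq

variable {Om : Type*} [Fintype Om] (P : FP Om) {γ 𝒱 : Type*} (Lab : E × (Λ → Option (Key r M)) → Om → γ) (V : Om → 𝒱)

theorem ineq_all (n : Λ × Fin r → ℕ) (s : Finset (Finset Λ)) :
    hF P Lab V (CC Sh T n univ) + ∑ U ∈ s, cF P Lab V (TT Sh T n U) (WW Sh T n U (univ \ U)) ≤
      hF P Lab V (CC Sh T n univ ∪ {i | ∃ U ∈ s, i ∈ TT Sh T n U}) := by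
  classical
  refine Finset.induction_on_max_value (fun U : Finset Λ => U.card) s ?_ ?_
  · simp
  · intro U s hU hmax ih
    rw [Finset.sum_insert hU]
    have h1 : (CC (M := M) Sh T n univ ∪ {i | ∃ U' ∈ insert U s, i ∈ TT Sh T n U'}) =
        (CC Sh T n univ ∪ {i | ∃ U ∈ s, i ∈ TT Sh T n U}) ∪ TT Sh T n U :=
      union_insert _ (fun U => TT (M := M) Sh T n U) U s
    have h2 : (CC (M := M) Sh T n univ ∪ {i | ∃ U ∈ s, i ∈ TT Sh T n U}) ⊆ WW Sh T n U (univ \ U) := by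
      rintro i (hi | ⟨U', hU', hi⟩)
      · refine CC_sub_WW ?_
        rw [Finset.union_sdiff_of_subset (Finset.subset_univ U)]
        exact hi
      · refine TT_sub_WW ?_ (hmax U' hU') ?_ hi
        · rw [Finset.union_sdiff_of_subset (Finset.subset_univ U)]
          exact Finset.subset_univ _
        · rintro rfl
          exact hU hU'
    have h3 := cF_anti P Lab V (TT Sh T n U) h2
    have h4 : cF P Lab V (TT Sh T n U) (CC Sh T n univ ∪ {i | ∃ U ∈ s, i ∈ TT Sh T n U}) =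
        hF P Lab V ((CC Sh T n univ ∪ {i | ∃ U ∈ s, i ∈ TT Sh T n U}) ∪ TT Sh T n U) -
          hF P Lab V (CC Sh T n univ ∪ {i | ∃ U ∈ s, i ∈ TT Sh T n U}) := rfl
    rw [h1]
    linarith

theorem ineq_wo (n : Λ × Fin r → ℕ) (o : Λ) (s : Finset (Finset Λ)) (hs : ∀ U ∈ s, o ∉ U ∧ ∀ U' ⊆ U, U' ∈ s) :
    hF P Lab V (Cw Sh T n o ∪ {i | ∃ U ∈ s, i ∈ TT Sh T n U}) ≤
      hF P Lab V (Cw Sh T n o) + ∑ U ∈ s, cF P Lab V (TT Sh T n U) (WW Sh T n U ∅) := by
  classical
  revert hs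
  refine Finset.induction_on_max_value (fun U : Finset Λ => U.card) s ?_ ?_
  · simp
  · intro U s hU hmax ih hs
    rw [Finset.sum_insert hU]
    have hs' : ∀ U' ∈ s, o ∉ U' ∧ ∀ U'' ⊆ U', U'' ∈ s := by
      intro U' hU'
      obtain ⟨h1, h2⟩ := hs U' (Finset.mem_insert_of_mem hU')
      refine ⟨h1, fun U'' hU'' => ?_⟩
      rcases Finset.mem_insert.1 (h2 U'' hU'') with h | h
      · subst h
        have := Finset.eq_of_subset_of_card_le hU'' (hmax U' hU')
        subst this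
        exact absurd hU' hU
      · exact h
    have ih' := ih hs'
    obtain ⟨hoU, hcl⟩ := hs U (Finset.mem_insert_self U s)
    have h1 : (Cw (M := M) Sh T n o ∪ {i | ∃ U' ∈ insert U s, i ∈ TT Sh T n U'}) =
        (Cw Sh T n o ∪ {i | ∃ U ∈ s, i ∈ TT Sh T n U}) ∪ TT Sh T n U :=
      union_insert _ (fun U => TT (M := M) Sh T n U) U s
    have h2 : WW (M := M) Sh T n U ∅ ⊆ (Cw Sh T n o ∪ {i | ∃ U ∈ s, i ∈ TT Sh T n U}) := by
      rintro i ⟨h3, h4, h5⟩
      rw [Finset.union_empty] at h4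
      by_cases hT : T i.1
      · right
        obtain ⟨h6, h7, h8⟩ := h5 hT
        refine ⟨fresh Sh i, ?_, hT, h3, rfl, h8⟩
        rcases Finset.mem_insert.1 (hcl _ h4) with h | h
        · exact absurd h h7
        · exact h
      · left
        exact ⟨hT, h3, fun h => hoU (h4 h)⟩
    have h3 := cF_anti P Lab V (TT Sh T n U) h2
    have h4 : cF P Lab V (TT Sh T n U) (Cw Sh T n o ∪ {i | ∃ U ∈ s, i ∈ TT Sh T n U}) =
        hF P Lab V ((Cw Sh T n o ∪ {i | ∃ U ∈ s, i ∈ TT Sh T n U}) ∪ TT Sh T n U) -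
          hF P Lab V (Cw Sh T n o ∪ {i | ∃ U ∈ s, i ∈ TT Sh T n U}) := rfl
    rw [h1]
    linarith

/-- the inequality of the entropies in (3) -/
theorem ineq_tot (n : Λ × Fin r → ℕ) (o : Λ) :
    ∑ U ∈ ((univ : Finset (Finset Λ)).erase univ).filter (fun U => o ∈ U),
        cF P Lab V (TT Sh T n U) (WW Sh T n U ∅) - (hF P Lab V (All Sh T n) - hF P Lab V (Aw Sh T n o)) ≤
      ∑ U ∈ (univ : Finset (Finset Λ)).erase univ, loss (Sh := Sh) (T := T) P Lab V n U -
        (hF P Lab V (CC Sh T n univ) - hF P Lab V (Cw Sh T n o)) := by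
  classical
  have h1 := ineq_all (Sh := Sh) (T := T) P Lab V n ((univ : Finset (Finset Λ)).erase univ)
  have h2 := ineq_wo (Sh := Sh) (T := T) P Lab V n o (((univ : Finset (Finset Λ)).erase univ).filter (fun U => o ∉ U)) (by
    intro U hU
    rw [Finset.mem_filter] at hU
    refine ⟨hU.2, fun U' hU' => ?_⟩
    rw [Finset.mem_filter, Finset.mem_erase]
    have : o ∉ U' := fun h => hU.2 (hU' h)
    refine ⟨⟨?_, Finset.mem_univ _⟩, this⟩
    rintro rfl
    exact this (Finset.mem_univ o))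
  have e1 : (CC (M := M) Sh T n univ ∪ {i | ∃ U ∈ (univ : Finset (Finset Λ)).erase univ, i ∈ TT Sh T n U}) =
      All Sh T n := by
    ext i
    constructor
    · rintro (⟨h3, h4, _⟩ | ⟨U, hU, hi⟩)
      · exact ⟨h4, fun h => absurd h h3⟩
      · exact TT_sub_All (Finset.ne_of_mem_erase hU) hi
    · intro hi
      by_cases hT : T i.1
      · right
        exact ⟨fresh Sh i, Finset.mem_erase.2 ⟨(hi.2 hT).1, Finset.mem_univ _⟩, All_T hi hT⟩
      · left
        exact ⟨hT, hi.1, Finset.subset_univ _⟩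
  have e2 : (Cw (M := M) Sh T n o ∪ {i | ∃ U ∈ ((univ : Finset (Finset Λ)).erase univ).filter (fun U => o ∉ U),
      i ∈ TT Sh T n U}) = Aw Sh T n o := by
    ext i
    constructor
    · rintro (⟨h3, h4, h5⟩ | ⟨U, hU, hi⟩)
      · exact ⟨⟨h4, fun h => absurd h h3⟩, h5⟩
      · rw [Finset.mem_filter] at hU
        refine ⟨TT_sub_All (Finset.ne_of_mem_erase hU.1) hi, ?_⟩
        rw [hi.2.2.1]
        exact hU.2
    · rintro ⟨hi, ho⟩
      by_cases hT : T i.1
      · right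
        exact ⟨fresh Sh i, Finset.mem_filter.2 ⟨Finset.mem_erase.2 ⟨(hi.2 hT).1, Finset.mem_univ _⟩, ho⟩, All_T hi hT⟩
      · left
        exact ⟨hT, hi.1, ho⟩
  rw [e1] at h1
  rw [e2] at h2
  have h3 : ∑ U ∈ (univ : Finset (Finset Λ)).erase univ, cF P Lab V (TT Sh T n U) (WW Sh T n U ∅) =
      ∑ U ∈ ((univ : Finset (Finset Λ)).erase univ).filter (fun U => o ∈ U),
        cF P Lab V (TT Sh T n U) (WW Sh T n U ∅) +
      ∑ U ∈ ((univ : Finset (Finset Λ)).erase univ).filter (fun U => o ∉ U),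
        cF P Lab V (TT Sh T n U) (WW Sh T n U ∅) :=
    (Finset.sum_filter_add_sum_filter_not _ _ _).symm
  have h4 : ∑ U ∈ (univ : Finset (Finset Λ)).erase univ, loss (Sh := Sh) (T := T) P Lab V n U =
      ∑ U ∈ (univ : Finset (Finset Λ)).erase univ, cF P Lab V (TT Sh T n U) (WW Sh T n U ∅) -
      ∑ U ∈ (univ : Finset (Finset Λ)).erase univ, cF P Lab V (TT Sh T n U) (WW Sh T n U (univ \ U)) := by
    rw [← Finset.sum_sub_distrib]
    rfl
  rw [h4, h3]
  linarith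

end ineq

/-! ## the simulation -/

section sim

variable {Om : Type} [Fintype Om] (P : FP Om) {γ X 𝒦 : Type*} (Lab : E × (Λ → Option (Key r M)) → Om → γ)
  (Vr : Λ → Om → X) (Vk : Om → 𝒦)

/-- all vertices -/
def VV (w : Om) : (Λ → X) × 𝒦 := (fun y => Vr y w, Vk w)

/-- the real vertices of `U` and the keys -/
def Vw (U : Finset Λ) (w : Om) : (Λ → Option X) × 𝒦 := (Fam Vr (U : Set Λ) w, Vk w)

theorem VV_Vw (U : Finset Λ) : Fac (VV Vr Vk) (Vw Vr Vk U) := by
  intro v w h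
  unfold VV at h
  unfold Vw
  simp only [Prod.mk.injEq] at h ⊢
  exact ⟨Fam_eq_iff'.2 (fun y _ => congrFun h.1 y), h.2⟩

theorem Hc_Vw (hind : ∀ (U : Finset Λ) (s : Set (E × (Λ → Option (Key r M)))), (∀ i ∈ s, fresh Sh i ⊆ U) →
      P.Hc (Fam Lab s) (Vw Vr Vk U) = P.Hc (Fam Lab s) (VV Vr Vk)) {U : Finset Λ}
    {s t : Set (E × (Λ → Option (Key r M)))} (hs : ∀ i ∈ s, fresh Sh i ⊆ U) (ht : ∀ i ∈ t, fresh Sh i ⊆ U) :
    P.Hc (Fam Lab s) (fun w => (Vw Vr Vk U w, Fam Lab t w)) = cF P Lab (VV Vr Vk) s t := by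
  have h1 := hind U (t ∪ s) (by
    rintro i (hi | hi)
    · exact ht i hi
    · exact hs i hi)
  have h2 := hind U t ht
  unfold cF hF
  rw [← h1, ← h2]
  unfold FP.Hc
  have e1 : P.H (fun w => (Fam Lab s w, (Vw Vr Vk U w, Fam Lab t w))) =
      P.H (fun w => (Fam Lab (t ∪ s) w, Vw Vr Vk U w)) := by
    refine P.H_congr (fun v w hvw => ?_) (fun v w hvw => ?_)
    · simp only [Prod.mk.injEq] at hvw ⊢
      refine ⟨Fam_eq_iff'.2 (fun i hi => ?_), hvw.2.1⟩
      rcases hi with hi | hi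
      · exact Fam_eq_iff'.1 hvw.2.2 i hi
      · exact Fam_eq_iff'.1 hvw.1 i hi
    · simp only [Prod.mk.injEq] at hvw ⊢
      exact ⟨Fam_fac Set.subset_union_right v w hvw.1, hvw.2, Fam_fac Set.subset_union_left v w hvw.1⟩
  have e2 : P.H (fun w => (Vw Vr Vk U w, Fam Lab t w)) = P.H (fun w => (Fam Lab t w, Vw Vr Vk U w)) :=
    P.H_swap _ _
  rw [e1, e2]
  ring

/-- blocks -/
abbrev Blk (Sh : E → Finset Λ) (T : E → Prop) (n : Λ × Fin r → ℕ) (o : Λ) (M : ℕ) :=
  {i : E × (Λ → Option (Key r M)) // i ∈ Co Sh T n o} ⊕ {U : Finset Λ // o ∈ U ∧ U ≠ univ}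

/-- the labels of a block -/
def blk (Sh : E → Finset Λ) (T : E → Prop) (n : Λ × Fin r → ℕ) (o : Λ) : Blk Sh T n o M →
    Set (E × (Λ → Option (Key r M)))
  | Sum.inl i => {i.1}
  | Sum.inr U => TT Sh T n U.1

/-- the labels which are used for a block -/
def par (Sh : E → Finset Λ) (T : E → Prop) (n : Λ × Fin r → ℕ) (o : Λ) (sub : E → Finset E) : Blk Sh T n o M →
    Set (E × (Λ → Option (Key r M)))
  | Sum.inl i => low Sh sub i.1
  | Sum.inr U => WW Sh T n U.1 ∅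

/-- the fresh part of a block -/
def frb (Sh : E → Finset Λ) (T : E → Prop) (n : Λ × Fin r → ℕ) (o : Λ) : Blk Sh T n o M → Finset Λ
  | Sum.inl i => fresh Sh i.1
  | Sum.inr U => U.1

/-- the parents of a block -/
def pab (Sh : E → Finset Λ) (T : E → Prop) (n : Λ × Fin r → ℕ) (o : Λ) (sub : E → Finset E) (b : Blk Sh T n o M) :
    Set (Blk Sh T n o M) := {c | blk Sh T n o c ⊆ par Sh T n o sub b ∧ (∀ U, c = Sum.inr U → ∃ U', b = Sum.inr U' ∧ U.1 ⊂ U'.1)}

theorem low_fresh {sub : E → Finset E} (hsub : ∀ e, ∀ e' ∈ sub e, Sh e' ⊆ Sh e)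
    {i j : E × (Λ → Option (Key r M))} (h : j ∈ low Sh sub i) : fresh Sh j ⊆ fresh Sh i := by
  intro y hy
  rw [mem_fresh] at hy ⊢
  refine ⟨hsub _ _ h.1 hy.1, ?_⟩
  have h2 := congrFun h.2 y
  simp only [if_pos hy.1] at h2
  rw [← h2]
  exact hy.2

theorem low_Adm {sub : E → Finset E} (hsub : ∀ e, ∀ e' ∈ sub e, Sh e' ⊆ Sh e) {n : Λ × Fin r → ℕ}
    {i j : E × (Λ → Option (Key r M))} (h : j ∈ low Sh sub i) (hi : Adm Sh n i) : Adm Sh n j := by
  refine ⟨fun y hy => ?_, fun y hy k hk => ?_⟩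
  · have h2 := congrFun h.2 y
    simp only [if_neg hy] at h2
    exact h2
  · have h2 := congrFun h.2 y
    simp only [if_pos hy] at h2
    rw [h2] at hk
    exact hi.2 y (hsub _ _ h.1 hy) k hk

theorem par_fresh {sub : E → Finset E} (hsub : ∀ e, ∀ e' ∈ sub e, Sh e' ⊆ Sh e) {n : Λ × Fin r → ℕ} {o : Λ}
    (b : Blk Sh T n o M) : ∀ i ∈ par Sh T n o sub b, fresh Sh i ⊆ frb Sh T n o b := by
  intro i hi
  rcases b with j | U
  · exact low_fresh hsub hi
  · have := hi.2.1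
    rw [Finset.union_empty] at this
    exact this

theorem blk_fresh {n : Λ × Fin r → ℕ} {o : Λ} (b : Blk Sh T n o M) :
    ∀ i ∈ blk Sh T n o b, fresh Sh i ⊆ frb Sh T n o b := by
  intro i hi
  rcases b with j | U
  · have : i = j.1 := hi
    rw [this]
    exact subset_rfl
  · rw [hi.2.2.1]
    exact subset_rfl

theorem par_All {sub : E → Finset E} (hsub : ∀ e, ∀ e' ∈ sub e, Sh e' ⊆ Sh e)
    (hT : ∀ e, ¬ T e → ∀ e' ∈ sub e, ¬ T e') {n : Λ × Fin r → ℕ} {o : Λ} (b : Blk Sh T n o M) :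
    par Sh T n o sub b ⊆ All Sh T n := by
  intro i hi
  rcases b with j | U
  · exact ⟨low_Adm hsub hi j.2.2.1, fun h => absurd h (hT _ j.2.1 _ hi.1)⟩
  · obtain ⟨h1, h2, h3⟩ := hi
    refine ⟨h1, fun h => ?_⟩
    obtain ⟨h4, h5, h6⟩ := h3 h
    refine ⟨?_, h6⟩
    intro h7
    rw [h7, Finset.union_empty] at h2
    exact U.2.2 (Finset.univ_subset_iff.1 h2)

theorem blk_All {n : Λ × Fin r → ℕ} {o : Λ} (b : Blk Sh T n o M) : blk Sh T n o b ⊆ All Sh T n := by
  intro i hi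
  rcases b with j | U
  · have : i = j.1 := hi
    rw [this]
    exact ⟨j.2.2.1, fun h => absurd h j.2.1⟩
  · exact TT_sub_All U.2.2 hi

theorem blk_o {n : Λ × Fin r → ℕ} {o : Λ} (b : Blk Sh T n o M) : ∀ i ∈ blk Sh T n o b, o ∈ fresh Sh i := by
  intro i hi
  rcases b with j | U
  · have : i = j.1 := hi
    rw [this]
    exact j.2.2.2
  · rw [hi.2.2.1]
    exact U.2.1

/-- a label with `o` which is used for `b` is in a parent block -/
theorem exists_pab {sub : E → Finset E} (hT : ∀ e, ¬ T e → ∀ e' ∈ sub e, ¬ T e')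
    (hsub : ∀ e, ∀ e' ∈ sub e, Sh e' ⊆ Sh e) {n : Λ × Fin r → ℕ} {o : Λ}
    (b : Blk Sh T n o M) {i : E × (Λ → Option (Key r M))} (hi : i ∈ par Sh T n o sub b) (ho : o ∈ fresh Sh i) :
    ∃ c ∈ pab Sh T n o sub b, i ∈ blk Sh T n o c := by
  have hA := par_All hsub hT b hi
  by_cases hTi : T i.1
  · rcases b with j | U
    · exact absurd hTi (hT _ j.2.1 _ hi.1)
    · obtain ⟨h1, h2, h3⟩ := hi
      obtain ⟨h4, h5, h6⟩ := h3 hTi
      rw [Finset.union_empty] at h2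
      have hss : fresh Sh i ⊂ U.1 := Finset.ssubset_iff_subset_ne.2 ⟨h2, h5⟩
      refine ⟨Sum.inr ⟨fresh Sh i, ho, (hA.2 hTi).1⟩, ⟨?_, ?_⟩, hTi, h1, rfl, h6⟩
      · refine TT_sub_WW ?_ (Finset.card_le_card h2) h5
        rw [Finset.union_empty]
        exact h2
      · intro U' hU'
        have := Sum.inr_injective hU'
        subst this
        exact ⟨U, rfl, hss⟩
  · refine ⟨Sum.inl ⟨i, hTi, hA.1, ho⟩, ⟨?_, ?_⟩, rfl⟩
    · intro j hj
      have : j = i := hj
      rw [this]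
      exact hi
    · intro U hU
      exact absurd hU (by simp)

theorem Acm_mono {O1 O2 : Type*} [Fintype O1] [Fintype O2] {κ κ' : Type*} (P : FP O1) (Q : FP O2) {X : O1 → κ}
    {Y : O2 → κ} {X' : O1 → κ'} {Y' : O2 → κ'} (hac : Acm P Q X Y) (h2 : ∀ v w, Y v = X w → Y' v = X' w) :
    Acm P Q X' Y' := by
  intro w hw
  have h3 : 0 < Q.Pr (fun v => Y v = X w) := lt_of_le_of_ne (Q.Pr_nonneg _) (Ne.symm (hac w hw))
  exact (lt_of_lt_of_le h3 (Q.Pr_mono (fun v _ h => h2 v w h))).ne'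

open Classical in
/-- the sum of the `H(L_G | L_<G)`, `G` of kind `C` with `o` -/
def costC [Fintype E] {𝒱 : Type*} (Sh : E → Finset Λ) (T : E → Prop) (V : Om → 𝒱) (sub : E → Finset E)
    (n : Λ × Fin r → ℕ) (o : Λ) : ℝ :=
  ∑ i ∈ univ.filter (fun i : E × (Λ → Option (Key r M)) => i ∈ Co Sh T n o), cF P Lab V {i} (low Sh sub i)

/-- THE SIMULATED LABELS -/
theorem simK [Fintype E] (o : Λ) (n : Λ × Fin r → ℕ) (sub : E → Finset E) (sz : E → ℕ)
    (hsub : ∀ e, ∀ e' ∈ sub e, Sh e' ⊆ Sh e) (hsz : ∀ e, ∀ e' ∈ sub e, sz e' < sz e)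
    (hT : ∀ e, ¬ T e → ∀ e' ∈ sub e, ¬ T e')
    (hind : ∀ (U : Finset Λ) (s : Set (E × (Λ → Option (Key r M)))), (∀ i ∈ s, fresh Sh i ⊆ U) →
      P.Hc (Fam Lab s) (Vw Vr Vk U) = P.Hc (Fam Lab s) (VV Vr Vk)) :
    ∃ (Θ : Type) (_ : Fintype Θ) (Q : FP Θ) (Ls : E × (Λ → Option (Key r M)) → Om × Θ → γ),
      (∀ i, o ∉ fresh Sh i → ∀ w, Ls i w = Lab i w.1) ∧
      (∀ i w, ∃ v, Ls i w = Lab i v) ∧
      (∀ i w, (FP.pr P Q).p w ≠ 0 → ∃ v, P.p v ≠ 0 ∧ Vw Vr Vk (fresh Sh i) v = Vw Vr Vk (fresh Sh i) w.1 ∧ Ls i w = Lab i v) ∧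
      (∀ i ∈ Co Sh T n o, Fac (fun w => (w.2, Vw Vr Vk (fresh Sh i) w.1, Fam Ls (low Sh sub i) w)) (Ls i)) ∧
      (∀ U : Finset Λ, o ∈ U → U ≠ univ → ∀ i ∈ TT Sh T n U,
        Fac (fun w => (w.2, Vw Vr Vk U w.1, Fam Ls (WW Sh T n U ∅) w)) (Ls i)) ∧
      Acm P (FP.pr P Q) (fun w => (VV Vr Vk w, Fam Lab (All Sh T n) w))
        (fun w => (VV Vr Vk w.1, Fam Ls (All Sh T n) w)) ∧
      klm P (FP.pr P Q) (fun w => (VV Vr Vk w, Fam Lab (All Sh T n) w))
        (fun w => (VV Vr Vk w.1, Fam Ls (All Sh T n) w)) ≤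
        ∑ U ∈ (univ : Finset (Finset Λ)).erase univ, loss (Sh := Sh) (T := T) P Lab (VV Vr Vk) n U +
        (costC P Lab Sh T (VV Vr Vk) sub n o - (hF P Lab (VV Vr Vk) (CC Sh T n univ) - hF P Lab (VV Vr Vk) (Cw Sh T n o))) := by
  classical
  set Z : Blk Sh T n o M → Om → (E × (Λ → Option (Key r M)) → Option γ) := fun b => Fam Lab (blk Sh T n o b) with hZ
  set X0 : Om → ((Λ → X) × 𝒦) × (E × (Λ → Option (Key r M)) → Option γ) :=
    fun w => (VV Vr Vk w, Fam Lab (Aw Sh T n o) w) with hX0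
  set vw : Blk Sh T n o M → Om → ((Λ → Option X) × 𝒦) × (E × (Λ → Option (Key r M)) → Option γ) :=
    fun b w => (Vw Vr Vk (frb Sh T n o b) w, Fam Lab {i | i ∈ par Sh T n o sub b ∧ o ∉ fresh Sh i} w) with hvw
  set S0 : ℕ := ∑ e, sz e with hS0
  have hszS : ∀ e, sz e ≤ S0 := fun e => Finset.single_le_sum (f := sz) (fun _ _ => Nat.zero_le _) (Finset.mem_univ e)
  set rk : Blk Sh T n o M → ℕ := fun b => match b with
    | Sum.inl i => sz i.1.1
    | Sum.inr U => S0 + 1 + U.1.card with hrk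
  have hpa : ∀ b, ∀ c ∈ pab Sh T n o sub b, rk c < rk b := by
    rintro b c ⟨h1, h2⟩
    rcases c with i' | U'
    · rcases b with i | U
      · have h3 : i'.1 ∈ low Sh sub i.1 := h1 rfl
        exact hsz _ _ h3.1
      · show sz i'.1.1 < S0 + 1 + U.1.card
        have := hszS i'.1.1
        omega
    · obtain ⟨U, hU, hss⟩ := h2 U' rfl
      subst hU
      show S0 + 1 + U'.1.card < S0 + 1 + U.1.card
      have := Finset.card_lt_card hss
      omega
  have hvwF : ∀ b, Fac X0 (vw b) := by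
    intro b v w h
    simp only [hX0, Prod.mk.injEq] at h
    simp only [hvw, Prod.mk.injEq]
    refine ⟨VV_Vw Vr Vk _ v w h.1, Fam_eq_iff'.2 (fun i hi => ?_)⟩
    exact Fam_eq_iff'.1 h.2 i ⟨par_All hsub hT b hi.1, hi.2⟩
  obtain ⟨Θ, hΘ, Q, Zs, hfac, hval, hsup, hac, hkl⟩ := sim_exists P X0 Z vw hvwF (pab Sh T n o sub) rk hpa
  -- the blocks of a label
  have hcov : ∀ i ∈ All Sh T n, o ∈ fresh Sh i → ∃ b : Blk Sh T n o M, i ∈ blk Sh T n o b := by
    intro i hi ho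
    by_cases hTi : T i.1
    · exact ⟨Sum.inr ⟨fresh Sh i, ho, (hi.2 hTi).1⟩, All_T hi hTi⟩
    · exact ⟨Sum.inl ⟨i, hTi, hi.1, ho⟩, rfl⟩
  have huni : ∀ i (b c : Blk Sh T n o M), i ∈ blk Sh T n o b → i ∈ blk Sh T n o c → b = c := by
    intro i b c hb hc
    rcases b with i1 | U1
    · rcases c with i2 | U2
      · have h1 : i = i1.1 := hb
        have h2 : i = i2.1 := hc
        exact congrArg Sum.inl (Subtype.ext (h1.symm.trans h2))
      · have h1 : i = i1.1 := hb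
        have h2 : T i.1 := hc.1
        rw [h1] at h2
        exact absurd h2 i1.2.1
    · rcases c with i2 | U2
      · have h1 : i = i2.1 := hc
        have h2 : T i.1 := hb.1
        rw [h1] at h2
        exact absurd h2 i2.2.1
      · exact congrArg Sum.inr (Subtype.ext (hb.2.2.1.symm.trans hc.2.2.1))
  set Ls : E × (Λ → Option (Key r M)) → Om × Θ → γ := fun i w =>
    if h : ∃ b : Blk Sh T n o M, i ∈ blk Sh T n o b then (Zs h.choose w i).getD (Lab i w.1) else Lab i w.1 with hLs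
  have hLs1 : ∀ b : Blk Sh T n o M, ∀ i ∈ blk Sh T n o b, ∀ w, Zs b w i = some (Ls i w) ∧ ∃ v, Ls i w = Lab i v := by
    intro b i hi w
    have hex : ∃ b : Blk Sh T n o M, i ∈ blk Sh T n o b := ⟨b, hi⟩
    have hbb : hex.choose = b := huni i _ _ hex.choose_spec hi
    obtain ⟨v, hv⟩ := hval b w
    have h1 : Zs b w i = some (Lab i v) := by
      rw [hv]
      show Fam Lab (blk Sh T n o b) v i = some (Lab i v)
      unfold Fam
      rw [if_pos hi]
    have h2 : Ls i w = Lab i v := by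
      simp only [hLs]
      rw [dif_pos hex, hbb, h1]
      rfl
    exact ⟨by rw [h1, h2], v, h2⟩
  have hfrb : ∀ b : Blk Sh T n o M, ∀ i ∈ blk Sh T n o b, frb Sh T n o b = fresh Sh i := by
    intro b i hi
    rcases b with i' | U
    · have h1 : i = i'.1 := hi
      rw [h1]
      rfl
    · exact hi.2.2.1.symm
  have hLs2 : ∀ i w, (FP.pr P Q).p w ≠ 0 →
      ∃ v, P.p v ≠ 0 ∧ Vw Vr Vk (fresh Sh i) v = Vw Vr Vk (fresh Sh i) w.1 ∧ Ls i w = Lab i v := by
    intro i w hw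
    by_cases hex : ∃ b : Blk Sh T n o M, i ∈ blk Sh T n o b
    · obtain ⟨b, hi⟩ := hex
      obtain ⟨v, hv1, hv2, hv3⟩ := hsup b w hw
      refine ⟨v, hv1, ?_, ?_⟩
      · rw [← hfrb b i hi]
        exact congrArg Prod.fst hv2
      · have h1 := (hLs1 b i hi w).1
        rw [hv3] at h1
        have h2 : Z b v i = some (Lab i v) := by
          show Fam Lab (blk Sh T n o b) v i = _
          unfold Fam
          rw [if_pos hi]
        rw [h2] at h1
        exact (Option.some.inj h1).symm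
    · refine ⟨w.1, left_ne_zero_of_mul hw, rfl, ?_⟩
      simp only [hLs]
      rw [dif_neg hex]
  have hLs0 : ∀ i, o ∉ fresh Sh i → ∀ w, Ls i w = Lab i w.1 := by
    intro i ho w
    simp only [hLs]
    rw [dif_neg]
    rintro ⟨b, hb⟩
    exact ho (blk_o b i hb)
  have hZs : ∀ b : Blk Sh T n o M, ∀ w, Zs b w = Fam Ls (blk Sh T n o b) w := by
    intro b w
    funext i
    by_cases hi : i ∈ blk Sh T n o b
    · rw [(hLs1 b i hi w).1]
      unfold Fam
      rw [if_pos hi]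
    · obtain ⟨v, hv⟩ := hval b w
      rw [hv]
      show Fam Lab (blk Sh T n o b) v i = _
      unfold Fam
      rw [if_neg hi, if_neg hi]
  have hfac' : ∀ b : Blk Sh T n o M, ∀ i ∈ blk Sh T n o b,
      Fac (fun w => (w.2, Vw Vr Vk (frb Sh T n o b) w.1, Fam Ls (par Sh T n o sub b) w)) (Ls i) := by
    intro b i hi v w h
    simp only [Prod.mk.injEq] at h
    obtain ⟨h1, h2, h3⟩ := h
    rw [Fam_eq_iff'] at h3
    have h4 : Zs b v = Zs b w := by
      refine hfac b v w ?_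
      simp only [Prod.mk.injEq]
      refine ⟨h1, ?_, ?_⟩
      · simp only [hvw, Prod.mk.injEq]
        refine ⟨h2, Fam_eq_iff'.2 (fun j hj => ?_)⟩
        rw [← hLs0 j hj.2 v, ← hLs0 j hj.2 w]
        exact h3 j hj.1
      · refine Fam_eq_iff'.2 (fun c hc => ?_)
        rw [hZs c v, hZs c w]
        exact Fam_eq_iff'.2 (fun j hj => h3 j (hc.1 hj))
    have h5 := congrFun h4 i
    rw [(hLs1 b i hi v).1, (hLs1 b i hi w).1] at h5
    exact Option.some.inj h5
  have hF1 : Fac (fun w => (X0 w, fun b => Z b w)) (fun w => (VV Vr Vk w, Fam Lab (All Sh T n) w)) := by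
    intro v w h
    simp only [hX0, Prod.mk.injEq] at h
    obtain ⟨⟨h1, h2⟩, h3⟩ := h
    simp only [Prod.mk.injEq]
    refine ⟨h1, Fam_eq_iff'.2 (fun i hi => ?_)⟩
    by_cases ho : o ∈ fresh Sh i
    · obtain ⟨b, hb⟩ := hcov i hi ho
      exact Fam_eq_iff'.1 (congrFun h3 b) i hb
    · exact Fam_eq_iff'.1 h2 i ⟨hi, ho⟩
  have hF2 : ∀ (v : Om × Θ) (w : Om), (X0 v.1, fun b => Zs b v) = (X0 w, fun b => Z b w) →
      (VV Vr Vk v.1, Fam Ls (All Sh T n) v) = (VV Vr Vk w, Fam Lab (All Sh T n) w) := by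
    intro v w h
    simp only [hX0, Prod.mk.injEq] at h
    obtain ⟨⟨h1, h2⟩, h3⟩ := h
    simp only [Prod.mk.injEq]
    refine ⟨h1, Fam_eq_iff'.2 (fun i hi => ?_)⟩
    by_cases ho : o ∈ fresh Sh i
    · obtain ⟨b, hb⟩ := hcov i hi ho
      have h4 := congrFun (congrFun h3 b) i
      rw [(hLs1 b i hb v).1] at h4
      have h5 : Z b w i = some (Lab i w) := by
        show Fam Lab (blk Sh T n o b) w i = _
        unfold Fam
        rw [if_pos hb]
      rw [h5] at h4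
      exact Option.some.inj h4
    · rw [hLs0 i ho v]
      exact Fam_eq_iff'.1 h2 i ⟨hi, ho⟩
  refine ⟨Θ, hΘ, Q, Ls, hLs0, ?_, hLs2, ?_, ?_, Acm_mono P _ hac hF2, ?_⟩
  · intro i w
    by_cases hex : ∃ b : Blk Sh T n o M, i ∈ blk Sh T n o b
    · obtain ⟨b, hb⟩ := hex
      exact (hLs1 b i hb w).2
    · refine ⟨w.1, ?_⟩
      simp only [hLs]
      rw [dif_neg hex]
  · intro i hi
    exact hfac' (Sum.inl ⟨i, hi⟩) i rfl
  · intro U hoU hU i hi
    exact hfac' (Sum.inr ⟨U, hoU, hU⟩) i hi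
  · refine (klm_mono P _ hac hF1 hF2).trans ?_
    rw [hkl]
    -- the entropies of the blocks
    have h1 : ∀ b : Blk Sh T n o M, P.Hc (Z b) (fun w => (vw b w, Fam Z (pab Sh T n o sub b) w)) =
        cF P Lab (VV Vr Vk) (blk Sh T n o b) (par Sh T n o sub b) := by
      intro b
      rw [← Hc_Vw P Lab Vr Vk hind (blk_fresh b) (par_fresh hsub b)]
      refine P.Hc_congr ?_ ?_ ?_ ?_
      · intro v w h
        simp only [Prod.mk.injEq] at h
        exact h.1
      · intro v w h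
        simp only [hvw, Prod.mk.injEq] at h
        obtain ⟨⟨h3, h4⟩, h5⟩ := h
        simp only [Prod.mk.injEq]
        refine ⟨h3, Fam_eq_iff'.2 (fun i hi => ?_)⟩
        by_cases ho : o ∈ fresh Sh i
        · obtain ⟨c, hc, hic⟩ := exists_pab hT hsub b hi ho
          exact Fam_eq_iff'.1 (Fam_eq_iff'.1 h5 c hc) i hic
        · exact Fam_eq_iff'.1 h4 i ⟨hi, ho⟩
      · intro v w h
        simp only [Prod.mk.injEq] at h
        exact h.1
      · intro v w h
        simp only [Prod.mk.injEq] at h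
        obtain ⟨h3, h4⟩ := h
        rw [Fam_eq_iff'] at h4
        simp only [hvw, Prod.mk.injEq]
        refine ⟨⟨h3, Fam_eq_iff'.2 (fun i hi => h4 i hi.1)⟩, Fam_eq_iff'.2 (fun c hc => ?_)⟩
        exact Fam_eq_iff'.2 (fun i hi => h4 i (hc.1 hi))
    have h2 : P.Hc (fun w b => Z b w) X0 = hF P Lab (VV Vr Vk) (All Sh T n) - hF P Lab (VV Vr Vk) (Aw Sh T n o) := by
      unfold hF FP.Hc
      have e1 : P.H (fun w => (fun b => Z b w, X0 w)) = P.H (fun w => (Fam Lab (All Sh T n) w, VV Vr Vk w)) := by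
        refine P.H_congr (fun v w h => ?_) (fun v w h => ?_)
        · simp only [Prod.mk.injEq] at h
          have h3 := hF1 v w (by simp only [Prod.mk.injEq]; exact ⟨h.2, h.1⟩)
          simp only [Prod.mk.injEq] at h3 ⊢
          exact ⟨h3.2, h3.1⟩
        · simp only [Prod.mk.injEq] at h
          obtain ⟨h3, h4⟩ := h
          rw [Fam_eq_iff'] at h3
          simp only [hX0, Prod.mk.injEq]
          refine ⟨?_, h4, Fam_eq_iff'.2 (fun i hi => h3 i hi.1)⟩
          funext b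
          exact Fam_eq_iff'.2 (fun i hi => h3 i (blk_All b hi))
      have e2 : P.H X0 = P.H (fun w => (Fam Lab (Aw Sh T n o) w, VV Vr Vk w)) := P.H_swap _ _
      rw [e1, e2]
      ring
    rw [Finset.sum_congr rfl (fun b _ => h1 b), h2, Fintype.sum_sum_type]
    have h3 := ineq_tot (Sh := Sh) (T := T) P Lab (VV Vr Vk) n o
    have h4 : ∑ U : {U : Finset Λ // o ∈ U ∧ U ≠ univ}, cF P Lab (VV Vr Vk)
        (blk Sh T n o (Sum.inr U : Blk Sh T n o M)) (par Sh T n o sub (Sum.inr U : Blk Sh T n o M)) =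
        ∑ U ∈ ((univ : Finset (Finset Λ)).erase univ).filter (fun U => o ∈ U),
          cF P Lab (VV Vr Vk) (TT Sh T n U) (WW Sh T n U ∅) := by
      rw [Finset.sum_subtype (((univ : Finset (Finset Λ)).erase univ).filter (fun U => o ∈ U))
        (p := fun U => o ∈ U ∧ U ≠ univ) (fun U => by
          rw [Finset.mem_filter, Finset.mem_erase]
          constructor
          · rintro ⟨⟨h5, _⟩, h6⟩; exact ⟨h6, h5⟩
          · rintro ⟨h6, h5⟩; exact ⟨⟨h5, Finset.mem_univ _⟩, h6⟩)]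
      rfl
    have h5 : ∑ i : {i // i ∈ Co Sh T n o}, cF P Lab (VV Vr Vk)
        (blk Sh T n o (Sum.inl i : Blk Sh T n o M)) (par Sh T n o sub (Sum.inl i : Blk Sh T n o M)) =
        costC P Lab Sh T (VV Vr Vk) sub n o := by
      unfold costC
      rw [Finset.sum_subtype (univ.filter (fun i : E × (Λ → Option (Key r M)) => i ∈ Co Sh T n o))
        (p := fun i => i ∈ Co Sh T n o) (fun i => by simp)]
      rfl
    rw [h4, h5]
    linarith

end sim

end

end Pool.Agent.GMM
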